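import Pool.Agent.P.MP_c1f06d_ag.r.Defs

/-! Comodules are locally finite; affine algebraic groups over a field are linear. -/

open Matrix TensorProduct Coalgebra

universe u

namespace Pool.Agent.GR.Hp

section contr

variable {k : Type u} [Field k] {M A : Type u} [AddCommGroup M] [Module k M] [AddCommGroup A]
  [Module k A]

/-- Contraction of the right factor. -/
noncomputable def cR (ψ : A →ₗ[k] k) : M ⊗[k] A →ₗ[k] M :=
  (TensorProduct.rid k M).toLinearMap ∘ₗ ψ.lTensor M

/-- Contraction of the left factor. -/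
noncomputable def cL (φ : M →ₗ[k] k) : M ⊗[k] A →ₗ[k] A :=
  (TensorProduct.lid k A).toLinearMap ∘ₗ φ.rTensor A

@[simp] theorem cR_tmul (ψ : A →ₗ[k] k) (m : M) (a : A) : cR ψ (m ⊗ₜ[k] a) = ψ a • m := by
  simp [cR]

@[simp] theorem cL_tmul (φ : M →ₗ[k] k) (m : M) (a : A) : cL φ (m ⊗ₜ[k] a) = φ m • a := by
  simp [cL]

theorem cross (ψ : A →ₗ[k] k) (φ : M →ₗ[k] k) (t : M ⊗[k] A) : ψ (cL φ t) = φ (cR ψ t) := by
  induction t with
  | zero => simp
  | tmul m a => simp [mul_comm]
  | add x y hx hy => simp [hx, hy]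

theorem ext_cR {t t' : M ⊗[k] A} (h : ∀ ψ : A →ₗ[k] k, cR ψ t = cR ψ t') : t = t' := by
  classical
  let b := Module.Basis.ofVectorSpace k A
  have key : ∀ (s : M ⊗[k] A) i, equivFinsuppOfBasisRight b s i = cR (b.coord i) s := by
    intro s i
    induction s with
    | zero => simp
    | tmul m a => simp
    | add x y hx hy => simp [hx, hy]
  apply (equivFinsuppOfBasisRight b).injective
  ext i
  rw [key, key, h]

theorem exists_fd (t : M ⊗[k] A) :
    ∃ N : Submodule k M, N.FG ∧ ∀ ψ : A →ₗ[k] k, cR ψ t ∈ N := by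
  induction t with
  | zero => exact ⟨⊥, Submodule.fg_bot, fun ψ => by simp⟩
  | tmul m a =>
    exact ⟨Submodule.span k {m}, Submodule.fg_span_singleton m, fun ψ => by
      rw [cR_tmul]
      exact Submodule.smul_mem _ _ (Submodule.mem_span_singleton_self m)⟩
  | add x y hx hy =>
    obtain ⟨N, h1, h2⟩ := hx
    obtain ⟨N', h1', h2'⟩ := hy
    exact ⟨N ⊔ N', h1.sup h1', fun ψ => by
      rw [map_add]
      exact Submodule.add_mem_sup (h2 ψ) (h2' ψ)⟩

theorem exists_dual {n : ℕ} {e : Fin n → M} (he : LinearIndependent k e) :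
    ∃ φ : Fin n → M →ₗ[k] k, ∀ i j, φ i (e j) = (1 : Mat n k) i j := by
  have h : ∀ i, ∃ φ : M →ₗ[k] k, φ ∘ₗ (Submodule.span k (Set.range e)).subtype =
      (Module.Basis.span he).coord i := fun i => LinearMap.exists_extend _
  choose φ hφ using h
  refine ⟨φ, fun i j => ?_⟩
  have := LinearMap.congr_fun (hφ i) (Module.Basis.span he j)
  rw [LinearMap.comp_apply, Submodule.subtype_apply, Module.Basis.coe_span_apply] at this
  rw [this, Module.Basis.coord_apply, Module.Basis.repr_self, Finsupp.single_apply, one_apply]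
  simp only [eq_comm]

theorem expand {n : ℕ} {e : Fin n → M} {φ : Fin n → M →ₗ[k] k}
    (hφ : ∀ i j, φ i (e j) = (1 : Mat n k) i j) {v : M} (hv : v ∈ Submodule.span k (Set.range e)) :
    v = ∑ i, φ i v • e i := by
  obtain ⟨c, rfl⟩ := (Submodule.mem_span_range_iff_exists_fun k).1 hv
  refine Finset.sum_congr rfl fun i _ => ?_
  simp [map_sum, hφ, one_apply]

theorem expand_tensor {n : ℕ} {e : Fin n → M} {φ : Fin n → M →ₗ[k] k}
    (hφ : ∀ i j, φ i (e j) = (1 : Mat n k) i j) {t : M ⊗[k] A}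
    (ht : ∀ ψ : A →ₗ[k] k, cR ψ t ∈ Submodule.span k (Set.range e)) :
    t = ∑ i, e i ⊗ₜ[k] cL (φ i) t := by
  refine ext_cR fun ψ => ?_
  rw [map_sum, expand hφ (ht ψ)]
  simp only [cR_tmul, cross]

end contr

section comod

variable {k : Type u} [Field k] {M A : Type u} [AddCommGroup M] [Module k M] [CommRing A]
  [HopfAlgebra k A]

/-- A right coaction. -/
structure Comod (δ : M →ₗ[k] M ⊗[k] A) : Prop where
  assoc : ∀ m, TensorProduct.assoc k M A A (δ.rTensor A (δ m)) = (comul (R := k)).lTensor M (δ m)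
  unit : ∀ m, cR counit (δ m) = m

theorem comod_self : Comod (comul : A →ₗ[k] A ⊗[k] A) where
  assoc := coassoc_apply
  unit := fun m => by simp [cR]

variable {δ : M →ₗ[k] M ⊗[k] A}

theorem Comod.cR_cR (h : Comod δ) (φ ψ : A →ₗ[k] k) (m : M) :
    cR ψ (δ (cR φ (δ m))) = cR (ψ ∘ₗ cR φ ∘ₗ comul) (δ m) := by
  have h1 : ∀ t : M ⊗[k] A, cR ψ (δ (cR φ t)) = cR ψ (cR φ (δ.rTensor A t)) := by
    intro t
    induction t with
    | zero => simp
    | tmul m a => simp
    | add x y hx hy => simp only [map_add, hx, hy]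
  have h2 : ∀ t : (M ⊗[k] A) ⊗[k] A,
      cR ψ (cR φ t) = cR (ψ ∘ₗ cR φ) (TensorProduct.assoc k M A A t) := by
    intro t
    induction t with
    | zero => simp
    | tmul x a =>
      induction x with
      | zero => simp
      | tmul m a' => simp [smul_smul]
      | add x y hx hy => simp only [add_tmul, map_add, hx, hy]
    | add x y hx hy => simp only [map_add, hx, hy]
  have h3 : ∀ t : M ⊗[k] A, cR (ψ ∘ₗ cR φ) ((comul (R := k)).lTensor M t) =
      cR (ψ ∘ₗ cR φ ∘ₗ comul) t := by
    intro t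
    induction t with
    | zero => simp
    | tmul m a => simp
    | add x y hx hy => simp only [map_add, hx, hy]
  rw [h1, h2, h.assoc, h3]

/-- Every finite set lies in a stable subspace of finite dimension. -/
theorem Comod.exists_sub (h : Comod δ) (s : Finset M) :
    ∃ V : Submodule k M, V.FG ∧ (∀ m ∈ s, m ∈ V) ∧ ∀ v ∈ V, ∀ ψ : A →ₗ[k] k, cR ψ (δ v) ∈ V := by
  choose N hN hN' using fun m : M => exists_fd (δ m)
  let V := Submodule.span k {v | ∃ m ∈ s, ∃ φ : A →ₗ[k] k, v = cR φ (δ m)}
  have hle : V ≤ s.sup N := Submodule.span_le.2 (by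
    rintro _ ⟨m, hm, φ, rfl⟩
    exact Finset.le_sup (f := N) hm (hN' m φ))
  have hfg : (s.sup N).FG := Submodule.fg_finset_sup s N fun m _ => hN m
  have : Module.Finite k (s.sup N : Submodule k M) := Module.Finite.iff_fg.2 hfg
  refine ⟨V, Module.Finite.iff_fg.1 (Submodule.finiteDimensional_of_le hle), fun m hm =>
    Submodule.subset_span ⟨m, hm, counit, (h.unit m).symm⟩, fun v hv ψ => ?_⟩
  have : V ≤ V.comap (cR ψ ∘ₗ δ) := Submodule.span_le.2 (by
    rintro _ ⟨m, hm, φ, rfl⟩
    exact Submodule.subset_span ⟨m, hm, _, h.cR_cR φ ψ m⟩)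
  exact this hv

/-- The matrix `u` is a homomorphism to `GL_n`. -/
structure IsRep {n : ℕ} (u : Mat n A) : Prop where
  comul : ∀ i j, comul (R := k) (u i j) = ∑ l, u i l ⊗ₜ[k] u l j
  counit : ∀ i j, counit (R := k) (u i j) = (1 : Mat n k) i j

theorem Comod.isRep (h : Comod δ) {n : ℕ} {e : Fin n → M} (he : LinearIndependent k e)
    {u : Mat n A} (hu : ∀ j, δ (e j) = ∑ i, e i ⊗ₜ[k] u i j) : IsRep (k := k) u := by
  obtain ⟨φ, hφ⟩ := exists_dual he
  refine ⟨fun i j => ?_, fun i j => ?_⟩
  · have h1 := congrArg (cL (φ i)) (h.assoc (e j))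
    simp only [hu, map_sum, LinearMap.rTensor_tmul, LinearMap.lTensor_tmul, sum_tmul, assoc_tmul,
      cL_tmul, hφ, one_apply, ite_smul, one_smul, zero_smul, Finset.sum_ite_eq, Finset.mem_univ,
      if_true] at h1
    exact h1.symm
  · have h1 := congrArg (φ i) (h.unit (e j))
    simp only [hu, map_sum, cR_tmul, map_smul, hφ, smul_eq_mul] at h1
    rw [← h1]
    simp [one_apply]

theorem Comod.exists_mat {n : ℕ} {e : Fin n → M} (he : LinearIndependent k e)
    (hs : ∀ j (ψ : A →ₗ[k] k), cR ψ (δ (e j)) ∈ Submodule.span k (Set.range e)) :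
    ∃ u : Mat n A, ∀ j, δ (e j) = ∑ i, e i ⊗ₜ[k] u i j := by
  obtain ⟨φ, hφ⟩ := exists_dual he
  exact ⟨Matrix.of fun i j => cL (φ i) (δ (e j)), fun j => expand_tensor hφ (hs j)⟩

/-- Every finite set lies in a representation of finite dimension. -/
theorem Comod.exists_rep (h : Comod δ) (s : Finset M) :
    ∃ (n : ℕ) (e : Fin n → M) (u : Mat n A), LinearIndependent k e ∧
      (∀ m ∈ s, m ∈ Submodule.span k (Set.range e)) ∧
      (∀ j, δ (e j) = ∑ i, e i ⊗ₜ[k] u i j) ∧ IsRep (k := k) u := by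
  obtain ⟨V, h1, h2, h3⟩ := h.exists_sub s
  have : Module.Finite k V := Module.Finite.iff_fg.2 h1
  let b := Module.finBasis k V
  have he : LinearIndependent k fun i => (b i : M) :=
    b.linearIndependent.map' V.subtype V.ker_subtype
  have hV : Submodule.span k (Set.range fun i => (b i : M)) = V := by
    have := congrArg (Submodule.map V.subtype) b.span_eq
    rwa [Submodule.map_span, ← Set.range_comp, Submodule.map_subtype_top] at this
  obtain ⟨u, hu⟩ := Comod.exists_mat (δ := δ) he fun j ψ => by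
    rw [hV]
    exact h3 _ (b j).2 ψ
  exact ⟨_, _, u, he, fun m hm => by rw [hV]; exact h2 m hm, hu, h.isRep he hu⟩

variable {n : ℕ} {u : Mat n A}

theorem IsRep.mul_antipode (h : IsRep (k := k) u) : u * u.map (HopfAlgebra.antipode k) = 1 := by
  ext i j
  have := HopfAlgebra.mul_antipode_lTensor_comul_apply (R := k) (u i j)
  rw [h.comul, h.counit] at this
  simp only [map_sum, LinearMap.lTensor_tmul, LinearMap.mul'_apply] at this
  rw [mul_apply]
  simp only [map_apply]
  rw [this, one_apply, one_apply]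
  split_ifs <;> simp

theorem IsRep.antipode_mul (h : IsRep (k := k) u) : u.map (HopfAlgebra.antipode k) * u = 1 :=
  mul_eq_one_comm.1 h.mul_antipode

/-- The universal point of a representation. -/
noncomputable def IsRep.gl (h : IsRep (k := k) u) : GL (Fin n) A :=
  ⟨u, u.map (HopfAlgebra.antipode k), h.mul_antipode, h.antipode_mul⟩

@[simp] theorem IsRep.gl_val (h : IsRep (k := k) u) : (h.gl : Mat n A) = u := rfl

/-- The representation on points. -/
noncomputable def IsRep.pts (h : IsRep (k := k) u) (T : Type u) [CommRing T] [Algebra k T] :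
    WithConv (A →ₐ[k] T) →* GL (Fin n) T where
  toFun x := gm x.ofConv h.gl
  map_one' := by
    ext i j
    show algebraMap k T (Coalgebra.counit (u i j)) = (1 : Mat n T) i j
    rw [h.counit, one_apply, one_apply]
    split_ifs <;> simp
  map_mul' x y := by
    ext i j
    show (x * y) (u i j) = ∑ l, x (u i l) * y (u l j)
    rw [AlgHom.convMul_apply, h.comul, map_sum]
    simp

theorem IsRep.pts_apply (h : IsRep (k := k) u) {T : Type u} [CommRing T] [Algebra k T]
    (x : WithConv (A →ₐ[k] T)) : h.pts T x = gm x.ofConv h.gl := rfl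

theorem ev_X {R : Type u} [CommRing R] {T : Type u} [CommRing T] [Algebra R T] (g : GL (Fin n) T)
    (i j : Fin n) : ev R g (algebraMap (MvPolynomial (Fin n × Fin n) R) _ (MvPolynomial.X (i, j))) =
      g i j := by
  simp [ev]

theorem comp_ev' {R : Type u} [CommRing R] {T T' : Type u} [CommRing T] [Algebra R T] [CommRing T']
    [Algebra R T'] (x : T →ₐ[R] T') (g : GL (Fin n) T) : x.comp (ev R g) = ev R (gm x g) := by
  refine IsLocalization.algHom_ext (Submonoid.powers (mvPolynomialX (Fin n) (Fin n) R).det) ?_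
  ext ⟨i, j⟩
  exact (congrArg x (ev_X g i j)).trans (ev_X (gm x g) i j).symm

/-- An affine algebraic group over a field is linear. -/
theorem exists_faithful [Algebra.FiniteType k A] :
    ∃ (n : ℕ) (u : Mat n A) (h : IsRep (k := k) u), Function.Surjective (ev k h.gl) := by
  obtain ⟨s, hs⟩ := Algebra.FiniteType.out (R := k) (A := A)
  obtain ⟨n, e, u, -, h2, h3, h4⟩ := (comod_self (k := k) (A := A)).exists_rep s
  refine ⟨n, u, h4, (AlgHom.range_eq_top _).1 (eq_top_iff.2 ?_)⟩
  rw [← hs, Algebra.adjoin_le_iff]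
  intro m hm
  have h5 : Submodule.span k (Set.range e) ≤ Subalgebra.toSubmodule (ev k h4.gl).range := by
    rw [Submodule.span_le]
    rintro _ ⟨j, rfl⟩
    have h6 := congrArg (cL counit) (h3 j)
    have h7 : cL counit (comul (R := k) (e j)) = e j := by simp [cL]
    rw [h7, map_sum] at h6
    rw [h6]
    refine Submodule.sum_mem _ fun i _ => ?_
    rw [cL_tmul]
    exact Submodule.smul_mem _ _ ⟨_, ev_X h4.gl i j⟩
  exact h5 (h2 m hm)

theorem IsRep.pts_inj (h : IsRep (k := k) u) (hs : Function.Surjective (ev k h.gl))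
    (T : Type u) [CommRing T] [Algebra k T] : Function.Injective (h.pts T) := by
  intro x y hxy
  ext a
  obtain ⟨f, rfl⟩ := hs a
  have h1 := AlgHom.congr_fun (comp_ev' x.ofConv h.gl) f
  have h2 := AlgHom.congr_fun (comp_ev' y.ofConv h.gl) f
  rw [← h.pts_apply] at h1 h2
  exact h1.trans (hxy ▸ h2.symm)

theorem IsRep.mem_range_pts (h : IsRep (k := k) u) (hs : Function.Surjective (ev k h.gl))
    {T : Type u} [CommRing T] [Algebra k T] (g : GL (Fin n) T) :
    (∃ x, h.pts T x = g) ↔ ∀ f, ev k h.gl f = 0 → ev k g f = 0 := by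
  constructor
  · rintro ⟨x, rfl⟩ f hf
    have h1 := AlgHom.congr_fun (comp_ev' x.ofConv h.gl) f
    rw [h.pts_apply, ← h1, AlgHom.comp_apply, hf, map_zero]
  · intro hg
    let x : A →ₐ[k] T := AlgHom.liftOfSurjective (ev k h.gl) hs (ev k g) hg
    have hx : x.comp (ev k h.gl) = ev k g := AlgHom.liftOfSurjective_comp _ _ _ _
    refine ⟨WithConv.toConv x, ?_⟩
    ext i j
    rw [comp_ev'] at hx
    exact (ev_X _ i j).symm.trans ((AlgHom.congr_fun hx _).trans (ev_X g i j))

end comod

end Pool.Agent.GR.Hp
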