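import Pool.Agent.P.MP_c1f06d_ag.g.GDefs
import Pool.Agent.P.MP_c1f06d_ag.g.Hopf

/-! Base change of points, and a faithful representation over a field. -/

open WithConv Pool.Agent.GR Matrix
open scoped TensorProduct

universe u

namespace Pool.Agent.RED

variable {R A : Type u} [CommRing R] [CommRing A] [HopfAlgebra R A]
  (K : Type u) [CommRing K] [Algebra R K] {T T' : Type u} [CommRing T] [Algebra R T] [Algebra K T]
  [IsScalarTower R K T] [CommRing T'] [Algebra R T'] [Algebra K T'] [IsScalarTower R K T']

/-- Points over a `K`-algebra are points of the base change to `K`. -/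
noncomputable def bcPt (T : Type u) [CommRing T] [Algebra R T] [Algebra K T]
    [IsScalarTower R K T] : Pt R A T ≃* Pt K (K ⊗[R] A) T where
  toFun x := toConv (AlgHom.liftEquiv R K A T x.ofConv)
  invFun y := toConv ((AlgHom.liftEquiv R K A T).symm y.ofConv)
  left_inv x := by simp
  right_inv y := by simp
  map_mul' x y := by
    refine WithConv.ext (Algebra.TensorProduct.ext (Subsingleton.elim _ _) (AlgHom.ext fun a => ?_))
    show AlgHom.liftEquiv R K A T (x * y).ofConv (1 ⊗ₜ a) = (_ * _ : Pt K (K ⊗[R] A) T).ofConv (1 ⊗ₜ a)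
    rw [AlgHom.liftEquiv_tmul, one_smul, RG.pt_mul_apply, RG.pt_mul_apply, TensorProduct.comul_tmul,
      Bialgebra.comul_one, Algebra.TensorProduct.one_def]
    generalize Coalgebra.comul (R := R) a = z
    induction z with
    | zero => simp
    | add a b ha hb => simp only [map_add, TensorProduct.tmul_add, ha, hb]
    | tmul a b => simp

theorem bcPt_tmul (x : Pt R A T) (s : K) (a : A) :
    (bcPt K T x).ofConv (s ⊗ₜ a) = s • x.ofConv a := AlgHom.liftEquiv_tmul _ _ _

theorem bcPt_symm_apply (y : Pt K (K ⊗[R] A) T) (a : A) :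
    ((bcPt K T).symm y).ofConv a = y.ofConv (1 ⊗ₜ a) := rfl

theorem pm_bcPt (f : T →ₐ[K] T') (x : Pt R A T) :
    pm f (bcPt K T x) = bcPt K T' (pm (f.restrictScalars R) x) := by
  refine WithConv.ext (Algebra.TensorProduct.ext (Subsingleton.elim _ _) (AlgHom.ext fun a => ?_))
  show f ((bcPt K T x).ofConv (1 ⊗ₜ a)) = (bcPt K T' _).ofConv (1 ⊗ₜ a)
  rw [bcPt_tmul, bcPt_tmul, one_smul, one_smul]
  rfl

/-- A natural faithful matrix representation of the points over the `R`-algebra `K`. -/
structure MRep (R A K : Type u) [CommRing R] [CommRing A] [HopfAlgebra R A] [CommRing K]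
    [Algebra R K] (n : ℕ) where
  ρ : ∀ (T : Type u) [CommRing T] [Algebra R T], (K →ₐ[R] T) → Pt R A T →* GL (Fin n) T
  nat : ∀ (T T' : Type u) [CommRing T] [Algebra R T] [CommRing T'] [Algebra R T'] (f : T →ₐ[R] T')
    (j : K →ₐ[R] T) (x : Pt R A T), gm f (ρ T j x) = ρ T' (f.comp j) (pm f x)
  inj : ∀ (T : Type u) [CommRing T] [Algebra R T] (j : K →ₐ[R] T), Function.Injective (ρ T j)

/-- The representation attached to a matrix over the base change. -/
noncomputable def MRep.ofRep {K : Type u} [Field K] [Algebra R K] {n : ℕ} {w : Mat n (K ⊗[R] A)}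
    (h : Hp.IsRep (k := K) w) (hs : Function.Surjective (ev K h.gl)) : MRep R A K n where
  ρ T _ _ j :=
    let _ : Algebra K T := j.toAlgebra
    have : IsScalarTower R K T := IsScalarTower.of_algebraMap_eq fun r => (j.commutes r).symm
    (h.pts T).comp (bcPt K T).toMonoidHom
  nat T T' _ _ _ _ f j x := by
    let _ : Algebra K T := j.toAlgebra
    have : IsScalarTower R K T := IsScalarTower.of_algebraMap_eq fun r => (j.commutes r).symm
    let _ : Algebra K T' := (f.comp j).toAlgebra
    have : IsScalarTower R K T' :=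
      IsScalarTower.of_algebraMap_eq fun r => ((f.comp j).commutes r).symm
    let f' : T →ₐ[K] T' := { (f : T →+* T') with commutes' := fun _ => rfl }
    exact congrArg (h.pts T') (pm_bcPt K f' x)
  inj T _ _ j := by
    let _ : Algebra K T := j.toAlgebra
    have : IsScalarTower R K T := IsScalarTower.of_algebraMap_eq fun r => (j.commutes r).symm
    exact (h.pts_inj hs T).comp (bcPt K T).injective

theorem exists_mrep [Algebra.FiniteType R A] (K : Type u) [Field K] [Algebra R K] :
    ∃ n, Nonempty (MRep R A K n) := by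
  obtain ⟨n, w, h, hs⟩ := Hp.exists_faithful (k := K) (A := K ⊗[R] A)
  exact ⟨n, ⟨MRep.ofRep h hs⟩⟩

end Pool.Agent.RED
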