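import Mathlib

open TensorProduct

universe u

namespace Pool.Agent.RED

section epi

variable {A B : Type u} [CommRing A] [CommRing B] [Algebra A B]

theorem isEpi_of_ext
    (h : ∀ (C : Type u) [CommRing C] [Algebra A C] (f g : B →ₐ[A] C), f = g) :
    Algebra.IsEpi A B := by
  refine (Algebra.isEpi_iff_forall_one_tmul_eq A B).2 fun b => ?_
  exact AlgHom.congr_fun
    (h (B ⊗[A] B) Algebra.TensorProduct.includeRight Algebra.TensorProduct.includeLeft) b

theorem epi_ext [Algebra.IsEpi A B] {C : Type*} [CommRing C] [Algebra A C] (f g : B →ₐ[A] C) :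
    f = g := by
  ext b
  have h := congrArg (Algebra.TensorProduct.lift f g fun _ _ => Commute.all _ _)
    ((Algebra.isEpi_iff_forall_one_tmul_eq A B).1 inferInstance b)
  simpa using h.symm

theorem epi_ringHom_ext [Algebra.IsEpi A B] {C : Type*} [CommRing C] (f g : B →+* C)
    (h : ∀ a, f (algebraMap A B a) = g (algebraMap A B a)) : f = g := by
  let : Algebra A C := (f.comp (algebraMap A B)).toAlgebra
  have := epi_ext (A := A) (⟨f, fun _ => rfl⟩ : B →ₐ[A] C) ⟨g, fun a => (h a).symm⟩
  exact congrArg AlgHom.toRingHom this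

theorem isEpi_baseChange [Algebra.IsEpi A B] (T : Type u) [CommRing T] [Algebra A T] :
    Algebra.IsEpi T (T ⊗[A] B) := by
  refine isEpi_of_ext fun C _ _ f g => ?_
  let : Algebra A C := ((algebraMap T C).comp (algebraMap A T)).toAlgebra
  have : IsScalarTower A T C := IsScalarTower.of_algebraMap_eq fun _ => rfl
  exact Algebra.TensorProduct.ext (Subsingleton.elim _ _) (epi_ext _ _)

/-- A faithfully flat epimorphism is an isomorphism. -/
theorem bij_of_ff_epi [Algebra.IsEpi A B] [Module.FaithfullyFlat A B] :
    Function.Bijective (algebraMap A B) := by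
  have h : Function.Bijective ((Algebra.linearMap A B).lTensor B) := by
    have e : ((TensorProduct.lid' A B B).restrictScalars A).toLinearMap ∘ₗ
        (Algebra.linearMap A B).lTensor B = (TensorProduct.rid A B).toLinearMap := by
      ext b
      simp
    have h2 := (TensorProduct.rid A B).bijective
    rw [← LinearEquiv.coe_coe, ← e, LinearMap.coe_comp] at h2
    exact (Function.Bijective.of_comp_iff'
      ((TensorProduct.lid' A B B).restrictScalars A).bijective _).1 h2
  exact (Module.FaithfullyFlat.lTensor_bijective_iff_bijective A B _).1 h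

/-- Faithful flatness of a base change from points over the closed points. -/
theorem ff_of_points [Module.Flat A B] (T : Type u) [CommRing T] [Algebra A T]
    (h : ∀ m : Ideal T, m.IsMaximal → ∃ (L : Type u) (_ : CommRing L) (_ : Nontrivial L)
      (f : T →+* L) (g : B →+* L), (∀ x ∈ m, f x = 0) ∧
        ∀ a, f (algebraMap A T a) = g (algebraMap A B a)) :
    Module.FaithfullyFlat T (T ⊗[A] B) := by
  refine ⟨fun m hm htop => ?_⟩
  obtain ⟨L, _, _, f, g, hf, hfg⟩ := h m hm
  let : Algebra A L := (f.comp (algebraMap A T)).toAlgebra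
  let φ : T ⊗[A] B →ₐ[A] L := Algebra.TensorProduct.lift (⟨f, fun _ => rfl⟩ : T →ₐ[A] L)
    (⟨g, fun a => (hfg a).symm⟩ : B →ₐ[A] L) fun _ _ => Commute.all _ _
  have h1 : ∀ x ∈ m • (⊤ : Submodule T (T ⊗[A] B)), φ x = 0 := by
    intro x hx
    refine Submodule.smul_induction_on hx (fun r hr y _ => ?_) fun x y hx hy => ?_
    · rw [Algebra.smul_def, map_mul]
      have : φ (algebraMap T (T ⊗[A] B) r) = f r := by
        simp [φ, Algebra.TensorProduct.algebraMap_apply]
      rw [this, hf r hr, zero_mul]
    · rw [map_add, hx, hy, add_zero]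
  have := h1 1 (by rw [htop]; exact Submodule.mem_top)
  rw [map_one] at this
  exact one_ne_zero this

/-- A point of `Spec A` whose closed points lie in the image of a flat epimorphism lifts. -/
theorem lift_of_points [Algebra.IsEpi A B] [Module.Flat A B] (T : Type u) [CommRing T]
    [Algebra A T]
    (h : ∀ m : Ideal T, m.IsMaximal → ∃ (L : Type u) (_ : CommRing L) (_ : Nontrivial L)
      (f : T →+* L) (g : B →+* L), (∀ x ∈ m, f x = 0) ∧
        ∀ a, f (algebraMap A T a) = g (algebraMap A B a)) :
    Nonempty (B →ₐ[A] T) := by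
  have := ff_of_points T h
  have := isEpi_baseChange (A := A) (B := B) T
  let e : T ≃ₐ[T] T ⊗[A] B :=
    AlgEquiv.ofBijective (Algebra.ofId T _) (bij_of_ff_epi (A := T) (B := T ⊗[A] B))
  exact ⟨(e.symm.toAlgHom.restrictScalars A).comp Algebra.TensorProduct.includeRight⟩

/-- A nonzero flat epimorphism out of a domain embeds in the fraction field. -/
theorem exists_inj_frac [IsDomain A] [Algebra.IsEpi A B] [Module.Flat A B] [Nontrivial B]
    (K : Type u) [Field K] [Algebra A K] [IsFractionRing A K] :
    ∃ φ : B →ₐ[A] K, Function.Injective φ := by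
  have hi : Function.Injective (Algebra.TensorProduct.includeRight : B →ₐ[A] K ⊗[A] B) :=
    Algebra.TensorProduct.includeRight_injective (IsFractionRing.injective A K)
  have : Nontrivial (K ⊗[A] B) := hi.nontrivial
  have := isEpi_baseChange (A := A) (B := B) K
  let e : K ≃ₐ[K] K ⊗[A] B :=
    AlgEquiv.ofBijective (Algebra.ofId K _) (bij_of_ff_epi (A := K) (B := K ⊗[A] B))
  exact ⟨(e.symm.toAlgHom.restrictScalars A).comp Algebra.TensorProduct.includeRight,
    e.symm.injective.comp hi⟩

theorem isDomain_of_flat_epi [IsDomain A] [Algebra.IsEpi A B] [Module.Flat A B] [Nontrivial B] :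
    IsDomain B := by
  obtain ⟨φ, hφ⟩ := exists_inj_frac (A := A) (B := B) (FractionRing A)
  exact hφ.isDomain φ.toRingHom

/-- Near a prime in the image of a flat epimorphism every function is a fraction. -/
theorem frac_near [Algebra.IsEpi A B] [Module.Flat A B] (q : Ideal B) [q.IsPrime] (b : B) :
    ∃ s a : A, algebraMap A B s ∉ q ∧ algebraMap A B s * b = algebraMap A B a := by
  let p : Ideal A := q.comap (algebraMap A B)
  let T := Localization.AtPrime p
  have hp : ∀ y : p.primeCompl, IsUnit (((algebraMap B q.ResidueField).comp (algebraMap A B)) y) :=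
    fun y => by
      rw [isUnit_iff_ne_zero, RingHom.comp_apply, Ne, Ideal.algebraMap_residueField_eq_zero]
      exact y.2
  have : Module.FaithfullyFlat T (T ⊗[A] B) := by
    refine ff_of_points T fun m hm => ⟨q.ResidueField, inferInstance, inferInstance,
      IsLocalization.lift hp, algebraMap B _, fun x hx => ?_, fun a => ?_⟩
    · rw [IsLocalRing.eq_maximalIdeal hm] at hx
      obtain ⟨⟨a, s⟩, rfl⟩ := IsLocalization.mk'_surjective p.primeCompl x
      have ha : a ∈ p := (IsLocalization.AtPrime.mk'_mem_maximal_iff T p a s).1 hx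
      rw [IsLocalization.lift_mk'_spec, mul_zero, RingHom.comp_apply,
        Ideal.algebraMap_residueField_eq_zero]
      exact ha
    · rw [IsLocalization.lift_eq]
      rfl
  have := isEpi_baseChange (A := A) (B := B) T
  obtain ⟨t, ht⟩ := (bij_of_ff_epi (A := T) (B := T ⊗[A] B)).2 (1 ⊗ₜ b)
  obtain ⟨⟨a, s⟩, rfl⟩ := IsLocalization.mk'_surjective p.primeCompl t
  have hb : IsBaseChange T (TensorProduct.mk A T B 1) := TensorProduct.isBaseChange A B T
  have : IsLocalizedModule p.primeCompl (TensorProduct.mk A T B 1) :=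
    (isLocalizedModule_iff_isBaseChange p.primeCompl T _).2 hb
  have h1 : TensorProduct.mk A T B 1 ((s : A) • b) =
      TensorProduct.mk A T B 1 (algebraMap A B a) := by
    rw [map_smul, TensorProduct.mk_apply, TensorProduct.mk_apply, ← ht,
      Algebra.TensorProduct.algebraMap_apply, TensorProduct.smul_tmul', Algebra.algebraMap_self,
      RingHom.id_apply, IsLocalization.smul_mk'_self, Algebra.algebraMap_eq_smul_one,
      Algebra.algebraMap_eq_smul_one, TensorProduct.smul_tmul]
  obtain ⟨c, hc⟩ := IsLocalizedModule.exists_of_eq (S := p.primeCompl) h1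
  refine ⟨c * s, c * a, (c * s).2, ?_⟩
  have hc' : (c : A) • (s : A) • b = (c : A) • algebraMap A B a := hc
  rw [Algebra.smul_def, Algebra.smul_def, Algebra.smul_def] at hc'
  rw [map_mul, map_mul, mul_assoc, hc']

end epi

section lift

variable {S A B : Type u} [CommRing S] [CommRing A] [CommRing B] [Algebra S A] [Algebra S B]

/-- A map of finitely presented algebras with the infinitesimal lifting property is smooth. -/
theorem smooth_of_lift [Algebra A B] [IsScalarTower S A B] [Algebra.FiniteType S A]
    [Algebra.FinitePresentation S B]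
    (h : ∀ (T : Type u) [CommRing T] [Algebra S T] (J : Ideal T), J ^ 2 = ⊥ →
      ∀ (f : A →ₐ[S] T) (g : B →ₐ[S] T ⧸ J),
        g.comp (IsScalarTower.toAlgHom S A B) = (Ideal.Quotient.mkₐ S J).comp f →
        ∃ g' : B →ₐ[S] T, g'.comp (IsScalarTower.toAlgHom S A B) = f ∧
          (Ideal.Quotient.mkₐ S J).comp g' = g) : Algebra.Smooth A B := by
  have : Algebra.FinitePresentation A B :=
    Algebra.FinitePresentation.of_restrict_scalars_finitePresentation S A B
  refine ⟨Algebra.FormallySmooth.of_comp_surjective fun T _ _ J hJ g => ?_, inferInstance⟩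
  let : Algebra S T := ((algebraMap A T).comp (algebraMap S A)).toAlgebra
  have : IsScalarTower S A T := IsScalarTower.of_algebraMap_eq fun _ => rfl
  obtain ⟨g', h1, h2⟩ := h T J hJ (IsScalarTower.toAlgHom S A T) (g.restrictScalars S) (by
    ext a
    exact g.commutes a)
  exact ⟨⟨g'.toRingHom, fun a => AlgHom.congr_fun h1 a⟩, AlgHom.ext fun b => AlgHom.congr_fun h2 b⟩

end lift

end Pool.Agent.RED
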