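import Pool.Agent.P.MP_c1f06d_ag.g.GDefs
import Pool.Agent.P.MP_c1f06d_ag.g.Epi

open WithConv Pool.Agent.GR TensorProduct AddMonoidAlgebra

universe u

namespace Pool.Agent.RED

variable {R A : Type u} [CommRing R] [CommRing A] [HopfAlgebra R A]
  {S₀ S S' : Type u} [CommRing S₀] [Algebra R S₀] [CommRing S] [Algebra R S] [CommRing S']
  [Algebra R S'] {M : Type} [AddCommGroup M] {t : Pt R A (GA S₀ M)} {j : S₀ →ₐ[R] S}
  {Λ Λ' : AddSubmonoid M}

theorem pt_ext {g g' : Pt R A S} (h : ∀ a, g.ofConv a = g'.ofConv a) : g = g' :=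
  WithConv.ext (AlgHom.ext h)

theorem pm_inj (f : S →ₐ[R] S') (hf : Function.Injective f) :
    Function.Injective (pm f : Pt R A S → Pt R A S') := fun _ _ h =>
  pt_ext fun a => hf (congrArg (fun g : Pt R A S' => g.ofConv a) h)

theorem cst_apply (x : S) : cst R S M x = single 0 x := rfl

theorem cst_inj : Function.Injective (cst R S M) := fun x y h => by
  simpa [cst_apply] using congrArg (fun z : GA S M => z.coeff 0) h

@[simp] theorem chv_zero (τ : TP M S) : chv τ 0 = 1 := by simp [chv]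

theorem chv_add (τ : TP M S) (m n : M) : chv τ (m + n) = chv τ m * chv τ n := by
  simp [chv, ofAdd_add]

@[simp] theorem chv_one (m : M) : chv (1 : TP M S) m = 1 := rfl

theorem chv_mul (τ τ' : TP M S) (m : M) : chv (τ * τ') m = chv τ m * chv τ' m := rfl

theorem chv_coc (l : M →+ ℤ) (s : Sˣ) (m : M) : chv (coc l s) m = ((s ^ l m : Sˣ) : S) := rfl

theorem tp_ext {τ τ' : TP M S} (h : ∀ m, chv τ m = chv τ' m) : τ = τ' :=
  MonoidHom.ext fun m => Units.ext (h m.toAdd)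

theorem tm_coc (f : S →ₐ[R] S') (l : M →+ ℤ) (s : Sˣ) :
    tm f (coc l s) = coc l (Units.map (f : S →* S') s) :=
  MonoidHom.ext fun m => map_zpow (Units.map (f : S →* S')) s (l m.toAdd)

theorem tl_comp_cst (j : S₀ →ₐ[R] S) (τ : TP M S) : (tl j τ).comp (cst R S₀ M) = j := by
  ext x
  simp

/-- The universal point of the torus. -/
noncomputable def uT (S : Type u) [CommRing S] (M : Type) [AddCommGroup M] : TP M (GA S M) where
  toFun m := uu S m.toAdd
  map_one' := Units.ext rfl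
  map_mul' a b := Units.ext (by simp [uu, AddMonoidAlgebra.single_mul_single])

theorem chv_uT (m : M) : chv (uT S M) m = AddMonoidAlgebra.single m 1 := rfl

theorem tev_uT : tev t ((cst R S M).comp j) (uT S M) = bc j t := by
  rw [tev, bc]
  congr 2
  ext <;> simp [chv_uT, single_mul_single, mapAlgHom_single]

theorem cj_eq (g : Pt R A S) : cj t j g = tev t ((cst R S M).comp j) (uT S M) *
    pm (cst R S M) g * (tev t ((cst R S M).comp j) (uT S M))⁻¹ := by
  rw [tev_uT, cj]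

theorem IsChart.cj_xev {ι : Type} {deg : ι → M} {X : Pt R A (MvPolynomial ι S₀)}
    (h : IsChart t Λ deg X) (s : ι → S) :
    cj t j (xev X j s) =
      xev X ((cst R S M).comp j) fun i => AddMonoidAlgebra.single (deg i) (s i) := by
  rw [cj_eq, pm_xev, h.eqv]
  simp [chv_uT, cst_apply, single_mul_single]

theorem IsRoot.cj_cv {α : M} {x : Pt R A (Polynomial S₀)} (h : IsRoot t α x) (a : S) :
    cj t j (cv x j a) = cv x ((cst R S M).comp j) (AddMonoidAlgebra.single α a) := by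
  rw [cj_eq, pm_cv, h.eqv]
  simp [chv_uT, cst_apply, single_mul_single]

theorem exists_generic [Module.Free ℤ M] (s : Finset M) (hs : ∀ m ∈ s, m ≠ 0) {α : M}
    (hα : α ≠ 0) : ∃ l : M →+ ℤ, 0 < l α ∧ ∀ m ∈ s, l m ≠ 0 := by
  classical
  have key : ∀ s : Finset M, (∀ m ∈ s, m ≠ 0) → ∃ l : M →+ ℤ, ∀ m ∈ s, l m ≠ 0 := by
    intro s
    induction s using Finset.induction_on with
    | empty => exact fun _ => ⟨0, by simp⟩
    | insert a s _ ih =>
      intro h
      obtain ⟨l, hl⟩ := ih fun m hm => h m (Finset.mem_insert_of_mem hm)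
      by_cases ha : l a = 0
      · obtain ⟨φ, hφ⟩ : ∃ φ : Module.Dual ℤ M, φ a ≠ 0 := by
          by_contra! hc
          exact h a (Finset.mem_insert_self _ _)
            ((Module.forall_dual_apply_eq_zero_iff ℤ a).1 hc)
        refine ⟨(1 + ∑ m ∈ s, |φ m|) • l + φ.toAddMonoidHom, fun m hm => ?_⟩
        rcases Finset.mem_insert.1 hm with rfl | hm
        · simpa [ha] using hφ
        · have h1 : |φ m| ≤ ∑ m ∈ s, |φ m| :=
            Finset.single_le_sum (f := fun m => |φ m|) (fun _ _ => abs_nonneg _) hm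
          have h2 := le_abs_self (φ m)
          have h3 := neg_abs_le (φ m)
          have h4 := abs_nonneg (φ m)
          show (1 + ∑ m ∈ s, |φ m|) * l m + φ m ≠ 0
          rcases lt_or_gt_of_ne (hl m hm) with h5 | h5 <;> nlinarith
      · refine ⟨l, fun m hm => ?_⟩
        rcases Finset.mem_insert.1 hm with rfl | hm
        exacts [ha, hl m hm]
  obtain ⟨l, hl⟩ := key (insert α s) (by
    intro m hm
    rcases Finset.mem_insert.1 hm with rfl | hm
    exacts [hα, hs m hm])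
  rcases lt_or_gt_of_ne (hl α (Finset.mem_insert_self _ _)) with h | h
  · exact ⟨-l, by simpa using h, fun m hm => by simpa using hl m (Finset.mem_insert_of_mem hm)⟩
  · exact ⟨l, h, fun m hm => hl m (Finset.mem_insert_of_mem hm)⟩

theorem ray_le_hs [Module.Free ℤ M] {α : M} {l : M →+ ℤ} (h : 0 < l α) : ray α ≤ hs l := by
  rintro m ⟨p, q, hq, e⟩
  rcases Nat.eq_zero_or_pos p with rfl | hp
  · left
    rw [zero_smul, ← natCast_zsmul] at e
    exact (smul_eq_zero.1 e).resolve_left (by exact_mod_cast hq.ne')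
  · right
    have := congrArg l e
    rw [map_nsmul, map_nsmul, nsmul_eq_mul, nsmul_eq_mul] at this
    have h1 : (0 : ℤ) < p := by exact_mod_cast hp
    have h2 : (0 : ℤ) < q := by exact_mod_cast hq
    have h3 := mul_pos h1 h
    by_contra hc
    nlinarith

theorem self_mem_ray (α : M) : α ∈ ray α := ⟨1, 1, one_pos, rfl⟩

theorem pos_hs (l : M →+ ℤ) : Pos (hs l) := ⟨l, fun _ hm h0 => hm.resolve_left h0⟩

theorem Pos.mono (h : Pos Λ') (hl : Λ ≤ Λ') : Pos Λ :=
  let ⟨l, hl'⟩ := h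
  ⟨l, fun m hm => hl' m (hl hm)⟩

theorem pos_ray [Module.Free ℤ M] {α : M} (h : α ≠ 0) : Pos (ray α) := by
  obtain ⟨l, hl, -⟩ := exists_generic ∅ (by simp) h
  exact (pos_hs l).mono (ray_le_hs hl)

theorem Pos.eq_zero (h : Pos Λ) {m : M} (h1 : m ∈ Λ) (h2 : -m ∈ Λ) : m = 0 := by
  obtain ⟨l, hl⟩ := h
  by_contra h0
  have := hl m h1 h0
  have := hl _ h2 (neg_ne_zero.2 h0)
  rw [map_neg] at this
  omega

theorem IsHom.tev_one (ht : IsHom t) : tev t j 1 = 1 := by
  have := ht S j 1 1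
  rw [mul_one (1 : TP M S)] at this
  exact left_eq_mul.1 this

theorem IsHom.tev_inv (ht : IsHom t) (τ : TP M S) : tev t j τ⁻¹ = (tev t j τ)⁻¹ :=
  eq_inv_of_mul_eq_one_left (by rw [← ht, inv_mul_cancel τ, ht.tev_one])

theorem IsHom.tev_comm (ht : IsHom t) (τ τ' : TP M S) :
    tev t j τ * tev t j τ' = tev t j τ' * tev t j τ := by
  rw [← ht, ← ht, mul_comm τ]

theorem pm_tl_bc (τ : TP M S) : pm (tl (AlgHom.id R S) τ) (bc j t) = tev t j τ :=
  tev_bc j (AlgHom.id R S) t τ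

theorem tev_conj (τ : TP M S) (g : Pt R A S) :
    tev t j τ * g * (tev t j τ)⁻¹ = pm (tl (AlgHom.id R S) τ) (cj t j g) := by
  rw [cj, map_mul, map_mul, map_inv, pm_tl_bc, pm_pm, tl_comp_cst, pm_id]

theorem coeff_cj_map (g : Pt R A S) (f : S →ₐ[R] S') (a : A) (m : M) :
    ((cj t (f.comp j) (pm f g)).ofConv a).coeff m = f (((cj t j g).ofConv a).coeff m) := by
  rw [← pm_cj, pm_apply, coeff_mapAlgHom]

theorem InG.map {g : Pt R A S} (h : InG Λ t j g) (f : S →ₐ[R] S') :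
    InG Λ t (f.comp j) (pm f g) := fun a m hm => by rw [coeff_cj_map, h a m hm, map_zero]

theorem InU.map {g : Pt R A S} (h : InU Λ t j g) (f : S →ₐ[R] S') :
    InU Λ t (f.comp j) (pm f g) :=
  ⟨h.1.map f, fun a => by rw [coeff_cj_map, h.2, ← pm_apply, map_one]⟩

theorem InG.of_inj {g : Pt R A S} (f : S →ₐ[R] S') (hf : Function.Injective f)
    (h : InG Λ t (f.comp j) (pm f g)) : InG Λ t j g := fun a m hm =>
  hf (by rw [← coeff_cj_map, h a m hm, map_zero])

theorem InU.of_inj {g : Pt R A S} (f : S →ₐ[R] S') (hf : Function.Injective f)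
    (h : InU Λ t (f.comp j) (pm f g)) : InU Λ t j g :=
  ⟨InG.of_inj f hf h.1, fun a => hf (by rw [← coeff_cj_map, h.2, ← pm_apply, map_one])⟩

theorem InG.mono {g : Pt R A S} (h : InG Λ t j g) (hl : Λ ≤ Λ') : InG Λ' t j g :=
  fun a m hm => h a m fun h' => hm (hl h')

theorem InU.mono {g : Pt R A S} (h : InU Λ t j g) (hl : Λ ≤ Λ') : InU Λ' t j g :=
  ⟨h.1.mono hl, h.2⟩

/-- The elements of the group algebra supported in `Λ`. -/
def sup (R S : Type u) [CommRing R] [CommRing S] [Algebra R S] (Λ : AddSubmonoid M) :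
    Subalgebra R (GA S M) where
  carrier := {x | ∀ m ∉ Λ, x.coeff m = 0}
  add_mem' hx hy m hm := by simp [hx m hm, hy m hm]
  mul_mem' {x y} hx hy m hm := by
    rw [coeff_mul_apply_left]
    refine Finset.sum_eq_zero fun h _ => ?_
    show x.coeff h * y.coeff (-h + m) = 0
    by_cases h1 : h ∈ Λ
    · rw [hy _ fun h2 => hm (by simpa using Λ.add_mem h1 h2), mul_zero]
    · rw [hx h h1, zero_mul]
  algebraMap_mem' r m hm := by
    show (single 0 (algebraMap R S r) : GA S M).coeff m = 0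
    rw [coeff_single, Finsupp.single_eq_of_ne]
    rintro rfl
    exact hm Λ.zero_mem

theorem single_mem_sup {m : M} (hm : m ∈ Λ) (x : S) : single m x ∈ sup R S Λ := by
  intro m' hm'
  rw [coeff_single, Finsupp.single_eq_of_ne]
  rintro rfl
  exact hm' hm

/-- The coefficient of degree zero. -/
noncomputable def e0 (R S : Type u) [CommRing R] [CommRing S] [Algebra R S] (hΛ : Pos Λ) :
    sup R S Λ →ₐ[R] S where
  toFun x := x.1.coeff 0
  map_one' := by simp [one_def]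
  map_zero' := by simp
  map_add' x y := by simp
  commutes' r := by
    show (single 0 (algebraMap R S r) : GA S M).coeff 0 = _
    simp
  map_mul' x y := by
    show (x.1 * y.1).coeff 0 = _
    rw [coeff_mul_apply_left, Finsupp.sum, Finset.sum_eq_single 0]
    · simp
    · intro h _ h0
      by_cases h1 : h ∈ Λ
      · rw [y.2 _ fun h2 => h0 (hΛ.eq_zero h1 (by simpa using h2)), mul_zero]
      · rw [x.2 h h1, zero_mul]
    · intro h
      rw [Finsupp.notMem_support_iff.1 h, zero_mul]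

theorem inG_iff {g : Pt R A S} :
    InG Λ t j g ↔ ∃ y : Pt R A (sup R S Λ), pm (sup R S Λ).val y = cj t j g :=
  ⟨fun h => ⟨toConv ((cj t j g).ofConv.codRestrict _ h), rfl⟩, fun ⟨y, hy⟩ a => by
    rw [← hy]
    exact (y.ofConv a).2⟩

theorem cj_one : cj t j (1 : Pt R A S) = 1 := by simp [cj]

theorem cj_inv (g : Pt R A S) : cj t j g⁻¹ = (cj t j g)⁻¹ :=
  eq_inv_of_mul_eq_one_left (by rw [← cj_mul, inv_mul_cancel, cj_one])

theorem InG.one : InG Λ t j (1 : Pt R A S) := inG_iff.2 ⟨1, by rw [cj_one, map_one]⟩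

theorem InG.mul {g h : Pt R A S} (hg : InG Λ t j g) (hh : InG Λ t j h) : InG Λ t j (g * h) :=
  let ⟨y, hy⟩ := inG_iff.1 hg
  let ⟨y', hy'⟩ := inG_iff.1 hh
  inG_iff.2 ⟨y * y', by rw [cj_mul, map_mul, hy, hy']⟩

theorem InG.inv {g : Pt R A S} (hg : InG Λ t j g) : InG Λ t j g⁻¹ :=
  let ⟨y, hy⟩ := inG_iff.1 hg
  inG_iff.2 ⟨y⁻¹, by rw [cj_inv, map_inv, hy]⟩

/-- `z` is the part of weight zero of the orbit of `g`. -/
def IsLim (t : Pt R A (GA S₀ M)) (j : S₀ →ₐ[R] S) (g z : Pt R A S) : Prop :=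
  ∀ a, ((cj t j g).ofConv a).coeff 0 = z.ofConv a

theorem IsLim.of_pm (hΛ : Pos Λ) {g : Pt R A S} {y : Pt R A (sup R S Λ)}
    (hy : pm (sup R S Λ).val y = cj t j g) : IsLim t j g (pm (e0 R S hΛ) y) := fun a => by
  rw [← hy]
  rfl

theorem IsLim.uniq {g z z' : Pt R A S} (h : IsLim t j g z) (h' : IsLim t j g z') : z = z' :=
  pt_ext fun a => (h a).symm.trans (h' a)

theorem InG.exists_lim (hΛ : Pos Λ) {g : Pt R A S} (h : InG Λ t j g) : ∃ z, IsLim t j g z :=
  let ⟨_, hy⟩ := inG_iff.1 h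
  ⟨_, IsLim.of_pm hΛ hy⟩

theorem IsLim.mul (hΛ : Pos Λ) {g h z z' : Pt R A S} (hg : InG Λ t j g) (hh : InG Λ t j h)
    (hz : IsLim t j g z) (hz' : IsLim t j h z') : IsLim t j (g * h) (z * z') := by
  obtain ⟨y, hy⟩ := inG_iff.1 hg
  obtain ⟨y', hy'⟩ := inG_iff.1 hh
  rw [hz.uniq (IsLim.of_pm hΛ hy), hz'.uniq (IsLim.of_pm hΛ hy'), ← map_mul]
  exact IsLim.of_pm hΛ (by rw [map_mul, hy, hy', cj_mul])

theorem IsLim.one : IsLim t j (1 : Pt R A S) 1 := fun a => by
  rw [cj_one, ← map_one (pm (cst R S M)), pm_apply, cst_apply]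
  simp

theorem IsLim.inv (hΛ : Pos Λ) {g z : Pt R A S} (hg : InG Λ t j g) (hz : IsLim t j g z) :
    IsLim t j g⁻¹ z⁻¹ := by
  obtain ⟨z', hz'⟩ := hg.inv.exists_lim hΛ
  have := hz'.mul hΛ hg.inv hg hz
  rw [inv_mul_cancel] at this
  rwa [← eq_inv_of_mul_eq_one_left (this.uniq IsLim.one)]

theorem IsLim.map {g z : Pt R A S} (h : IsLim t j g z) (f : S →ₐ[R] S') :
    IsLim t (f.comp j) (pm f g) (pm f z) := fun a => by rw [coeff_cj_map, h a, pm_apply]

theorem InU.one : InU Λ t j (1 : Pt R A S) := ⟨InG.one, IsLim.one⟩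

theorem InU.mul (hΛ : Pos Λ) {g h : Pt R A S} (hg : InU Λ t j g) (hh : InU Λ t j h) :
    InU Λ t j (g * h) :=
  ⟨hg.1.mul hh.1, by
    have := IsLim.mul hΛ hg.1 hh.1 hg.2 hh.2
    rwa [mul_one] at this⟩

theorem InU.inv (hΛ : Pos Λ) {g : Pt R A S} (hg : InU Λ t j g) : InU Λ t j g⁻¹ :=
  ⟨hg.1.inv, by
    have := IsLim.inv hΛ hg.1 hg.2
    rwa [inv_one] at this⟩

theorem IsLim.of_const {g : Pt R A S} (h : cj t j g = pm (cst R S M) g) : IsLim t j g g :=
  fun a => by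
    rw [h, pm_apply, cst_apply]
    simp

theorem inG_bot_iff (ht : IsHom t) {g : Pt R A S} :
    InG ⊥ t j g ↔ cj t j g = pm (cst R S M) g := by
  constructor
  · intro h
    have h1 : ∀ a, (cj t j g).ofConv a = single 0 (((cj t j g).ofConv a).coeff 0) := fun a => by
      ext m
      by_cases hm : m = 0
      · simp [hm]
      · rw [h a m (by simpa using hm), coeff_single, Finsupp.single_eq_of_ne hm]
    have h2 := tev_conj (t := t) (j := j) 1 g
    rw [ht.tev_one, one_mul, inv_one, mul_one] at h2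
    refine pt_ext fun a => ?_
    rw [pm_apply, cst_apply, h1 a]
    conv_rhs => rw [h2, pm_apply, h1 a]
    simp
  · intro h a
    rw [h]
    exact single_mem_sup (R := R) (AddSubmonoid.zero_mem _) _

theorem InG.isLim (ht : IsHom t) {g : Pt R A S} (h : InG ⊥ t j g) : IsLim t j g g :=
  IsLim.of_const ((inG_bot_iff ht).1 h)

theorem InG.commute (ht : IsHom t) {g : Pt R A S} (h : InG ⊥ t j g) (τ : TP M S) :
    tev t j τ * g = g * tev t j τ := by
  have := tev_conj (t := t) (j := j) τ g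
  rw [(inG_bot_iff ht).1 h, pm_pm, tl_comp_cst, pm_id] at this
  exact mul_inv_eq_iff_eq_mul.1 this

theorem IsHom.inG_tev (ht : IsHom t) (τ : TP M S) : InG ⊥ t j (tev t j τ) := by
  rw [inG_bot_iff ht, cj_eq, pm_tev, ht.tev_comm, mul_inv_cancel_right]

theorem InU.conj (ht : IsHom t) (hΛ : Pos Λ) {z g : Pt R A S} (hz : InG ⊥ t j z)
    (hg : InU Λ t j g) : InU Λ t j (z * g * z⁻¹) := by
  have h1 : InG Λ t j z := hz.mono bot_le
  refine ⟨(h1.mul hg.1).mul h1.inv, ?_⟩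
  have := ((hz.isLim ht).mul hΛ h1 hg.1 hg.2).mul hΛ (h1.mul hg.1) h1.inv (hz.inv.isLim ht)
  rwa [mul_one, mul_inv_cancel] at this

theorem InU.eq_one (ht : IsHom t) {g : Pt R A S} (h : InU Λ t j g) (h' : InG Λ' t j g)
    (hl : ∀ m ∈ Λ, m ∈ Λ' → m = 0) : g = 1 := by
  have h0 : InG ⊥ t j g := fun a m hm => by
    by_cases h1 : m ∈ Λ
    · exact h' a m fun h2 => hm (hl m h1 h2)
    · exact h.1 a m h1
  exact (h0.isLim ht).uniq h.2

/-- The coefficients of the orbit of a conjugate by a point of the torus. -/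
theorem coeff_cj_conj (ht : IsHom t) (τ : TP M S) (g : Pt R A S) (a : A) (m : M) :
    ((cj t j (tev t j τ * g * (tev t j τ)⁻¹)).ofConv a).coeff m =
      chv τ m * ((cj t j g).ofConv a).coeff m := by
  let φ := tl (cst R S M) (uT S M * tm (cst R S M) τ)
  have h1 : cj t j (tev t j τ * g * (tev t j τ)⁻¹) = pm φ (cj t j g) := by
    have h2 : pm φ (bc j t) = bc j t * pm (cst R S M) (tev t j τ) := by
      rw [pm_tev, ← tev_uT (j := j), ← ht, tev_uT]
      exact tev_bc j (cst R S M) t _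
    rw [cj, cj, map_mul, map_mul, map_mul, map_mul, map_inv, map_inv, h2, pm_pm _ φ, tl_comp_cst]
    group
  rw [h1, pm_apply]
  induction (cj t j g).ofConv a using induction_linear with
  | zero => simp
  | add x y hx hy => simp [hx, hy, mul_add]
  | single n r =>
    rw [tl_single, chv_mul, chv_uT, chv_tm, cst_apply, cst_apply, single_mul_single,
      single_mul_single]
    by_cases h : m = n
    · simp [h, mul_comm]
    · simp [Finsupp.single_eq_of_ne h]

theorem IsLim.inG (ht : IsHom t) (hΛ : Pos Λ) {g z : Pt R A S} (h : InG Λ t j g)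
    (hz : IsLim t j g z) : InG ⊥ t j z := by
  have h1 := ht.inG_tev (j := (cst R S M).comp j) (uT S M)
  have h2 : InG Λ _ _ _ := h1.mono bot_le
  have h3 := ((h1.isLim ht).mul hΛ h2 (h.map _) (hz.map _)).mul hΛ (h2.mul (h.map _)) h2.inv
    (h1.inv.isLim ht)
  rw [inG_bot_iff ht, cj_eq]
  refine h3.uniq fun a => ?_
  rw [coeff_cj_conj ht, chv_zero, one_mul]
  exact hz.map _ a

/-- `G_Λ = U_Λ Z`. -/
theorem InG.split (ht : IsHom t) (hΛ : Pos Λ) {g : Pt R A S} (h : InG Λ t j g) :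
    ∃ z, InG ⊥ t j z ∧ InU Λ t j (g * z⁻¹) ∧
      ∀ a, z.ofConv a = ((cj t j g).ofConv a).coeff 0 := by
  obtain ⟨z, hz⟩ := h.exists_lim hΛ
  have h1 := hz.inG ht hΛ h
  have h2 : InG Λ t j z⁻¹ := h1.inv.mono bot_le
  refine ⟨z, h1, ⟨h.mul h2, ?_⟩, fun a => (hz a).symm⟩
  have := hz.mul hΛ h h2 (h1.inv.isLim ht)
  rwa [mul_inv_cancel] at this

/-- A point whose orbit is defined over `S[Λ]`. -/
theorem inU_of_pm (_hΛ : Pos Λ) {g : Pt R A S} {T : Type u} [CommRing T] [Algebra R T]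
    (y : Pt R A T) (φ : T →ₐ[R] GA S M) (e : T →ₐ[R] S) (hy : pm φ y = cj t j g)
    (hφ : ∀ x, ∀ m ∉ Λ, (φ x).coeff m = 0) (he : ∀ x, (φ x).coeff 0 = e x) (h1 : pm e y = 1) :
    InU Λ t j g :=
  ⟨fun a m hm => by rw [← hy, pm_apply, hφ _ m hm], fun a => by
    rw [← hy, pm_apply, he, ← h1, pm_apply]⟩

theorem cell_uniq (ht : IsHom t) {l : M →+ ℤ} {v z u v' z' u' : Pt R A S}
    (hv : InU (hs (-l)) t j v) (hz : InG ⊥ t j z) (hu : InU (hs l) t j u)
    (hv' : InU (hs (-l)) t j v') (hz' : InG ⊥ t j z') (hu' : InU (hs l) t j u')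
    (h : v * z * u = v' * z' * u') : v = v' ∧ z = z' ∧ u = u' := by
  have e1 : v'⁻¹ * v = z' * u' * u⁻¹ * z⁻¹ := by
    rw [inv_mul_eq_iff_eq_mul, ← mul_assoc, ← mul_assoc, ← mul_assoc, ← h]
    group
  have hl : ∀ m ∈ hs (-l), m ∈ hs l → m = 0 := by
    rintro m (h1 | h1) (h2 | h2)
    exacts [h1, h1, h2, by rw [AddMonoidHom.neg_apply] at h1; omega]
  have e2 : v'⁻¹ * v = 1 := by
    refine ((hv'.inv (pos_hs _)).mul (pos_hs _) hv).eq_one ht ?_ hl
    rw [e1]
    exact (((hz'.mono bot_le).mul hu'.1).mul hu.1.inv).mul (hz.inv.mono bot_le)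
  have e3 : v = v' := (inv_mul_eq_one.1 e2).symm
  subst e3
  have e4 : z * u = z' * u' := by
    rw [mul_assoc, mul_assoc] at h
    exact mul_left_cancel h
  have e5 : u * u'⁻¹ = z⁻¹ * z' := by
    rw [mul_inv_eq_iff_eq_mul, mul_assoc, ← e4, inv_mul_cancel_left]
  have e6 : u * u'⁻¹ = 1 := by
    refine (hu.mul (pos_hs _) (hu'.inv (pos_hs _))).eq_one ht (Λ' := ⊥) ?_ fun _ _ h => h
    rw [e5]
    exact hz.inv.mul hz'
  have e7 : u = u' := mul_inv_eq_one.1 e6
  subst e7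
  exact ⟨rfl, mul_right_cancel e4, rfl⟩

theorem InCell.map {l : M →+ ℤ} {g : Pt R A S} (h : InCell l t j g) (f : S →ₐ[R] S') :
    InCell l t (f.comp j) (pm f g) := by
  obtain ⟨v, z, u, hv, hz, hu, rfl⟩ := h
  exact ⟨_, _, _, hv.map f, hz.map f, hu.map f, by rw [map_mul, map_mul]⟩

theorem inG_bc (j' : S →ₐ[R] S') {g : Pt R A S'} :
    InG Λ (bc j t) j' g ↔ InG Λ t (j'.comp j) g := by
  simp only [InG, cj_bc]

theorem inU_bc (j' : S →ₐ[R] S') {g : Pt R A S'} :
    InU Λ (bc j t) j' g ↔ InU Λ t (j'.comp j) g := by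
  simp only [InU, InG, cj_bc]

theorem inCell_bc {l : M →+ ℤ} (j' : S →ₐ[R] S') {g : Pt R A S'} :
    InCell l (bc j t) j' g ↔ InCell l t (j'.comp j) g := by
  simp only [InCell, inG_bc, inU_bc]

theorem IsHom.base (ht : IsHom t) (j : S₀ →ₐ[R] S) : IsHom (bc j t) := fun T _ _ j' τ τ' => by
  simp only [tev_bc]
  exact ht T _ τ τ'

theorem ZT.base (h : ZT t) (j : S₀ →ₐ[R] S) : ZT (bc j t) := fun T _ _ j' g hg => by
  simp only [tev_bc]
  exact h T _ g ((inG_bc j').1 hg)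

theorem xev_bc {ι : Type} (X : Pt R A (MvPolynomial ι S₀)) (j : S₀ →ₐ[R] S) (j' : S →ₐ[R] S')
    (s : ι → S') : xev (pm (MvPolynomial.mapAlgHom j) X) j' s = xev X (j'.comp j) s := by
  rw [xev, xev, pm_pm]
  congr 2
  ext <;> simp

theorem IsChart.base {ι : Type} {deg : ι → M} {X : Pt R A (MvPolynomial ι S₀)}
    (h : IsChart t Λ deg X) (j : S₀ →ₐ[R] S) :
    IsChart (bc j t) Λ deg (pm (MvPolynomial.mapAlgHom j) X) where
  bij T _ _ j' := by
    rw [funext (xev_bc X j j')]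
    simp only [inU_bc]
    exact h.bij T _
  zero T _ _ j' := by rw [xev_bc, h.zero]
  eqv T _ _ j' τ s := by rw [xev_bc, xev_bc, tev_bc, h.eqv]

theorem Wts.base {ι : Type} {deg : ι → M} (h : Wts t deg) (j : S₀ →ₐ[R] S) :
    Wts (bc j t) deg :=
  ⟨h.1, fun Λ hΛ => let ⟨_, hX⟩ := h.2 Λ hΛ; ⟨_, hX.base j⟩⟩

theorem cv_bc (x : Pt R A (Polynomial S₀)) (j : S₀ →ₐ[R] S) (j' : S →ₐ[R] S') (a : S') :
    cv (pm (Polynomial.mapAlgHom j) x) j' a = cv x (j'.comp j) a := by
  rw [cv, cv, pm_pm]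
  congr 2
  ext <;> simp

theorem IsRoot.base {α : M} {x : Pt R A (Polynomial S₀)} (h : IsRoot t α x) (j : S₀ →ₐ[R] S) :
    IsRoot (bc j t) α (pm (Polynomial.mapAlgHom j) x) where
  bij T _ _ j' := by
    rw [funext (cv_bc x j j')]
    simp only [inU_bc]
    exact h.bij T _
  add T _ _ j' a b := by rw [cv_bc, cv_bc, cv_bc, h.add]
  eqv T _ _ j' τ s := by rw [cv_bc, cv_bc, tev_bc, h.eqv]

theorem SL2.base {cor : M →+ ℤ} {c : S₀} {x y : Pt R A (Polynomial S₀)} (h : SL2 t cor c x y)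
    (j : S₀ →ₐ[R] S) :
    SL2 (bc j t) cor (j c) (pm (Polynomial.mapAlgHom j) x) (pm (Polynomial.mapAlgHom j) y) :=
  fun T _ _ j' a b s hs => by
    simp only [cv_bc, tev_bc]
    exact h T _ a b s hs

theorem IsRoot.cv_zero {α : M} {x : Pt R A (Polynomial S₀)} (h : IsRoot t α x) :
    cv x j 0 = 1 := by
  have := h.add S j 0 0
  rw [add_zero] at this
  exact left_eq_mul.1 this

end Pool.Agent.RED
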