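import Pool.Agent.P.MP_c1f06d_ag.g.HsBru

open Matrix

universe u

namespace Pool.Agent.GR

theorem hsc_uu_inj {k : Type u} [Field k] {Γ : Type} [AddCommGroup Γ] {a b : Γ}
    (h : uu k a = uu k b) : a = b := by
  have h1 : (AddMonoidAlgebra.single a (1 : k) : GA k Γ) = AddMonoidAlgebra.single b 1 :=
    congrArg Units.val h
  by_contra hne
  have h2 := congrArg (fun f : GA k Γ => f.coeff a) h1
  simp [Ne.symm hne] at h2

theorem hsc_col {k : Type u} [Field k] {n : ℕ} (q : GL (Fin n) k) (j : Fin n) :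
    ∃ i, (q : Mat n k) i j ≠ 0 := by
  by_contra h
  push Not at h
  have e := congrFun (congrFun q.inv_mul j) j
  rw [mul_apply] at e
  simp [h] at e

theorem hsc_row {k : Type u} [Field k] {n : ℕ} (q : GL (Fin n) k) (i : Fin n) :
    ∃ j, (q : Mat n k) i j ≠ 0 := by
  by_contra h
  push Not at h
  have e := congrFun (congrFun q.mul_inv i) i
  rw [mul_apply] at e
  simp [h] at e

namespace HS

variable {k : Type u} [Field k] {n r r' : ℕ} {H : HS k n} {χ : Fin n → Fin r → ℤ}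

theorem ZT.conj_aux {χ' : Fin n → Fin r' → ℤ} (Z' : H.ZT χ') (χ : Fin n → Fin r → ℤ)
    (q : GL (Fin n) k)
    (hm : (gm (Algebra.ofId k (GA k (Fin r → ℤ))) q)⁻¹ * rho k χ *
      gm (Algebra.ofId k (GA k (Fin r → ℤ))) q ∈ H.G (GA k (Fin r → ℤ)))
    {ι : Type} {c c' : Fin n → ι} (hq : Intw c c' (q : Mat n k))
    (hc : ∀ i j, c' i = c' j → χ' i = χ' j) :
    ∃ e : (Fin r' → ℤ) →+ (Fin r → ℤ), Intw χ (fun j => e (χ' j)) (q : Mat n k) := by
  have hq1 : Intw c c' ((gm (Algebra.ofId k (GA k (Fin r → ℤ))) q :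
      GL (Fin n) (GA k (Fin r → ℤ))) : Mat n (GA k (Fin r → ℤ))) :=
    fun i j e => by
      change algebraMap k (GA k (Fin r → ℤ)) ((q : Mat n k) i j) = 0
      rw [hq i j e, map_zero]
  have hl : Intw c' c' (((gm (Algebra.ofId k (GA k (Fin r → ℤ))) q)⁻¹ * rho k χ *
      gm (Algebra.ofId k (GA k (Fin r → ℤ))) q : GL (Fin n) (GA k (Fin r → ℤ))) :
        Mat n (GA k (Fin r → ℤ))) := by
    rw [Units.val_mul, Units.val_mul]
    exact (hq1.inv.mul (intw_diagonal c _)).mul hq1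
  obtain ⟨τ, hτ⟩ := Z'.zt _ _ hm fun i j e => hl i j fun e' => e (hc i j e')
  have h1 : rho k χ * gm (Algebra.ofId k (GA k (Fin r → ℤ))) q =
      gm (Algebra.ofId k (GA k (Fin r → ℤ))) q * tp χ' τ := by
    rw [← hτ, mul_assoc, mul_inv_cancel_left]
  have h2 : ∀ i j, (q : Mat n k) i j ≠ 0 → τ (Multiplicative.ofAdd (χ' j)) = uu k (χ i) := by
    intro i j hij
    have e0 : (diagonal (fun i => ((uu k (χ i) : (GA k (Fin r → ℤ))ˣ) : GA k (Fin r → ℤ))) *
        ((gm (Algebra.ofId k (GA k (Fin r → ℤ))) q : GL (Fin n) (GA k (Fin r → ℤ))) :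
          Mat n (GA k (Fin r → ℤ))) : Mat n (GA k (Fin r → ℤ))) =
        ((gm (Algebra.ofId k (GA k (Fin r → ℤ))) q : GL (Fin n) (GA k (Fin r → ℤ))) :
          Mat n (GA k (Fin r → ℤ))) *
        diagonal fun j => ((τ (Multiplicative.ofAdd (χ' j)) : (GA k (Fin r → ℤ))ˣ) :
          GA k (Fin r → ℤ)) := congrArg Units.val h1
    have e := congrFun (congrFun e0 i) j
    rw [diagonal_mul, mul_diagonal] at e
    change _ * algebraMap k _ ((q : Mat n k) i j) = algebraMap k _ ((q : Mat n k) i j) * _ at e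
    have hu : IsUnit (algebraMap k (GA k (Fin r → ℤ)) ((q : Mat n k) i j)) :=
      (Ne.isUnit hij).map _
    rw [mul_comm] at e
    exact Units.ext (hu.mul_left_cancel e).symm
  have h3 : ∀ x : Fin r' → ℤ, ∃ y, τ (Multiplicative.ofAdd x) = uu k y := by
    intro x
    have hx : x ∈ Submodule.span ℤ (Set.range χ') := Z'.span ▸ Submodule.mem_top
    have hneg : ∀ x : Fin r' → ℤ, (∃ y, τ (Multiplicative.ofAdd x) = uu k y) →
        ∃ y, τ (Multiplicative.ofAdd (-x)) = uu k y := by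
      rintro x ⟨y, hy⟩
      exact ⟨-y, by rw [ofAdd_neg, map_inv, hy]; exact Units.ext rfl⟩
    have hadd : ∀ x x' : Fin r' → ℤ, (∃ y, τ (Multiplicative.ofAdd x) = uu k y) →
        (∃ y, τ (Multiplicative.ofAdd x') = uu k y) →
        ∃ y, τ (Multiplicative.ofAdd (x + x')) = uu k y := by
      rintro x x' ⟨y, hy⟩ ⟨y', hy'⟩
      exact ⟨y + y', by rw [ofAdd_add, map_mul, hy, hy', uu_plus]⟩
    have hzero : ∃ y, τ (Multiplicative.ofAdd (0 : Fin r' → ℤ)) = uu k y :=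
      ⟨0, by rw [ofAdd_zero, map_one]; rfl⟩
    rw [← Submodule.mem_toAddSubgroup, Submodule.span_int_eq_addSubgroupClosure] at hx
    induction hx using AddSubgroup.closure_induction with
    | mem x hx =>
      obtain ⟨j, rfl⟩ := hx
      obtain ⟨i, hi⟩ := hsc_col q j
      exact ⟨_, h2 i j hi⟩
    | zero => exact hzero
    | add x x' _ _ h h' => exact hadd _ _ h h'
    | neg x _ h => exact hneg _ h
  choose f hf using h3
  refine ⟨AddMonoidHom.mk' f fun x x' => hsc_uu_inj (k := k) ?_, fun i j e => ?_⟩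
  · rw [uu_plus, ← hf, ← hf, ← hf, ofAdd_add, map_mul]
  · by_contra hij
    exact e (hsc_uu_inj (k := k) ((h2 i j hij).symm.trans (hf _)))

/-- HS3: two such tori are conjugate. -/
theorem ZT.conj (Z : H.ZT χ) {γ : GL (Fin n) k} {χ' : Fin n → Fin r' → ℤ}
    (Z' : (H.rb γ).ZT χ') : ∃ g ∈ H.G k, ∃ e : (Fin r' → ℤ) ≃+ (Fin r → ℤ),
      Intw χ (fun j => e (χ' j)) ((g * γ : GL (Fin n) k) : Mat n k) := by
  obtain ⟨μ, hμ⟩ := exists_add_sep (XX χ')
  have hγ : gm (Algebra.ofId k k) γ = γ := Units.ext rfl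
  have hβ : H.Fixed (fun i => μ (χ' i)) (H.act γ⁻¹ (H.pt k)) := by
    have h := Z'.fix.push μ
    rw [pt_rb, hγ] at h
    exact h
  obtain ⟨a₀, g, hg, -, hq⟩ := (Z.frame k).conj (c := fun _ => (0 : ℤ)) (H.fixed_zero _) hβ
    fun i j e => absurd rfl e
  have hgA : ∀ (A : Type u) [CommRing A] [Algebra k A], gm (Algebra.ofId k A) g ∈ H.G A := by
    intro A _ _
    have hg' : H.act g (H.pt k) = H.pt k := hg
    have e : (Algebra.ofId k A).comp (H.pt k) = H.pt A := AlgHom.ext fun _ => rfl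
    change H.act _ (H.pt A) = H.pt A
    rw [← e, ← H.act_nat, hg']
  obtain ⟨e, he⟩ := Z'.conj_aux χ (g * γ) (by
    rw [mem_G_rb, map_mul]
    have h := (H.G _).mul_mem ((H.G _).mul_mem ((H.G _).inv_mem (hgA _)) (Z.rho_mem k)) (hgA _)
    refine (congrArg (· ∈ H.G _) ?_).mp h
    group) hq fun i j h => hμ _ (chi_XX χ' i) _ (chi_XX χ' j) h
  obtain ⟨e', he'⟩ := Z.conj_aux χ' (g * γ)⁻¹ (by
    have h := (mem_G_rb H γ _).1 (Z'.rho_mem k)
    have h2 := (H.G _).mul_mem ((H.G _).mul_mem (hgA _) h) ((H.G _).inv_mem (hgA _))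
    rw [map_inv, map_mul]
    refine (congrArg (· ∈ H.G _) ?_).mp h2
    group) he.inv fun _ _ h => h
  have he2 := he'.inv
  rw [inv_inv] at he2
  have hext : ∀ {s : ℕ} {ψ : Fin n → Fin s → ℤ}, Submodule.span ℤ (Set.range ψ) = ⊤ →
      ∀ φ : (Fin s → ℤ) →+ (Fin s → ℤ), (∀ j, φ (ψ j) = ψ j) → ∀ x, φ x = x := by
    intro s ψ hs φ h x
    have := LinearMap.ext_on_range (f := φ.toIntLinearMap) (g := LinearMap.id) hs h
    exact LinearMap.congr_fun this x
  refine ⟨g, hg, ⟨⟨e, e', hext Z'.span (e'.comp e) fun j => ?_,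
    hext Z.span (e.comp e') fun i => ?_⟩, e.map_add⟩, he⟩
  · obtain ⟨i, hi⟩ := hsc_col (g * γ) j
    have h1 : χ i = e (χ' j) := by_contra fun h => hi (he i j h)
    have h2 : e' (χ i) = χ' j := by_contra fun h => hi (he2 i j h)
    rw [AddMonoidHom.comp_apply, ← h1, h2]
  · obtain ⟨j, hj⟩ := hsc_row (g * γ) i
    have h1 : χ i = e (χ' j) := by_contra fun h => hj (he i j h)
    have h2 : e' (χ i) = χ' j := by_contra fun h => hj (he2 i j h)
    rw [AddMonoidHom.comp_apply, h2, ← h1]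

end HS

end Pool.Agent.GR
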