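import Pool.Agent.P.MP_c1f06d_ag.g.HsBru

open Matrix

universe u

namespace Pool.Agent.GR

variable {n r : ℕ} {χ : Fin n → Fin r → ℤ} {A : Type u} [CommRing A]

theorem lu_eq {a : Fin n → ℤ} {v l u v' l' u' : GL (Fin n) A} (hv : InU (-a) (v : Mat n A))
    (hl : InL a (l : Mat n A)) (hu : InU a (u : Mat n A)) (hv' : InU (-a) (v' : Mat n A))
    (hl' : InL a (l' : Mat n A)) (hu' : InU a (u' : Mat n A)) (e : v * l * u = v' * l' * u') :
    v = v' ∧ l = l' ∧ u = u' := by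
  have h1 : v = v' := inv_injective (lu_uniq (g := v * l * u) hv.inv hv'.inv
    (by rw [mul_assoc, inv_mul_cancel_left]; exact hl.inP.mul hu.1)
    (by rw [e, mul_assoc, inv_mul_cancel_left]; exact hl'.inP.mul hu'.1))
  subst h1
  rw [mul_assoc, mul_assoc, mul_right_inj] at e
  have h2 : l = l' := Units.ext (by
    have := congrArg (fun g : GL (Fin n) A => lv a (g : Mat n A)) e
    simpa only [Units.val_mul, hl.inP.lv_mul hu.1, hl'.inP.lv_mul hu'.1, hu.2, hu'.2, hl.lv_eq,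
      hl'.lv_eq, Matrix.mul_one] using this)
  subst h2
  exact ⟨rfl, rfl, mul_left_cancel e⟩

theorem lu_inL {ι : Type} {c : Fin n → ι} {a : Fin n → ℤ} {g v : GL (Fin n) A}
    (hg : InL c (g : Mat n A)) (hv : InU (-a) (v : Mat n A))
    (hp : InP a ((v * g : GL (Fin n) A) : Mat n A)) : InL c (v : Mat n A) := by
  classical
  have h1 : InU (-a) (lv c (v : Mat n A)) := inU_iff.2 fun i j h => by
    have := inU_iff.1 hv i j h
    by_cases e : c i = c j
    · simpa [lv, e] using this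
    · simp [lv, e, one_apply_ne fun e' : i = j => e (e' ▸ rfl)]
  obtain ⟨v', hv'⟩ := h1.isUnit
  have h2 : InP a ((v' * g : GL (Fin n) A) : Mat n A) := fun i j h => by
    by_cases e : c i = c j
    · rw [← hp i j h, Units.val_mul, Units.val_mul, mul_apply, mul_apply, hv']
      refine Finset.sum_congr rfl fun l _ => ?_
      by_cases e' : c l = c j
      · simp [lv, e, e']
      · rw [hg l j e', mul_zero, mul_zero]
    · exact ((hv' ▸ inL_lv c _ : InL c (v' : Mat n A)).mul hg) i j e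
  rw [lu_uniq hv (hv' ▸ h1) hp h2, hv']
  exact inL_lv c _

theorem inLine_iff {α : Fin r → ℤ} {M : Mat n A} :
    InLine χ α M ↔ InL (fun i => QuotientAddGroup.mk' (mline α) (χ i)) M :=
  forall₂_congr fun _ _ => imp_congr_left (not_congr QuotientAddGroup.eq_iff_sub_mem.symm)

theorem Flip.inLine {α : Fin r → ℤ} {g : GL (Fin n) A} {σ : (Fin r → ℤ) →+ (Fin r → ℤ)}
    (h : Flip χ α g σ) : InLine χ α (g : Mat n A) :=
  fun i j e => h.intw i j fun e' => e (e' ▸ h.line _)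

theorem mline_le {α β : Fin r → ℤ} (h : β ∈ mline α) : mline β ≤ mline α := by
  rintro δ ⟨p, q, hq, e⟩
  obtain ⟨p', q', hq', e'⟩ := h
  exact ⟨p * p', q' * q, Nat.mul_pos hq' hq, by
    rw [Nat.cast_mul, mul_smul, e, smul_comm, e', smul_smul]⟩

theorem ray_symm {α β : Fin r → ℤ} (hβ : β ≠ 0) (h : β ∈ mray (-α)) : α ∈ mray (-β) := by
  obtain ⟨p, q, hq, e⟩ := h
  refine ⟨q, p, Nat.pos_of_ne_zero fun h => hβ (smul_cancel hq ?_), ?_⟩
  · rw [natCast_zsmul, e, h, zero_smul, smul_zero]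
  · rw [smul_neg, e, smul_neg, neg_neg]

theorem tp_mul {Γ : Type} [AddCommGroup Γ] (χ : Fin n → Γ) (τ τ' : Multiplicative Γ →* Aˣ) :
    tp χ (τ * τ') = tp χ τ * tp χ τ' := Units.ext (by simp [tp, dgU, diagonal_mul_diagonal])

theorem tp_one {Γ : Type} [AddCommGroup Γ] (χ : Fin n → Γ) :
    tp χ (1 : Multiplicative Γ →* Aˣ) = 1 := Units.ext (by simp [tp, dgU])

theorem inL_tp {Γ ι : Type} [AddCommGroup Γ] (a : Fin n → ι) (χ : Fin n → Γ)
    (τ : Multiplicative Γ →* Aˣ) : InL a (tp χ τ : Mat n A) := intw_diagonal a _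

theorem Flip.mul_tp {α : Fin r → ℤ} {g : GL (Fin n) A} {σ : (Fin r → ℤ) →+ (Fin r → ℤ)}
    (h : Flip χ α g σ) (τ : Multiplicative (Fin r → ℤ) →* Aˣ) :
    g * tp χ τ = tp χ (τ.comp (AddMonoidHom.toMultiplicative σ)) * g := Units.ext (by
  have := h.intw.diag_mul fun x => (τ (Multiplicative.ofAdd (σ x)) : A)
  simp only [h.invol] at this
  exact this.symm)

variable {k : Type u} [Field k] [Algebra k A] {A' : Type u} [CommRing A'] [Algebra k A']

theorem gm_aeval (f : A →ₐ[k] A') (a : A) (x : GL (Fin n) (Polynomial k)) :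
    gm f (gm (Polynomial.aeval a) x) = gm (Polynomial.aeval (f a)) x := by
  rw [gm_comp, Polynomial.aeval_algHom]

theorem gm_tp {Γ : Type} [AddCommGroup Γ] (f : A →ₐ[k] A') (χ : Fin n → Γ)
    (τ : Multiplicative Γ →* Aˣ) : gm f (tp χ τ) = tp χ ((Units.map (f : A →* A')).comp τ) :=
  Units.ext (Matrix.ext fun i j => by
    by_cases e : i = j <;> simp [tp, dgU, e])

theorem gm_tp_coc {Γ : Type} [AddCommGroup Γ] (f : A →ₐ[k] A') (χ : Fin n → Γ) (l : Γ →+ ℤ)
    (s : Aˣ) : gm f (tp χ (mcoc l s)) = tp χ (mcoc l (Units.map (f : A →* A') s)) := by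
  rw [gm_tp]
  congr 1
  exact MonoidHom.ext fun t => map_zpow (Units.map (f : A →* A')) s _

theorem Flip.gm (f : A →ₐ[k] A') {α : Fin r → ℤ} {g : GL (Fin n) A}
    {σ : (Fin r → ℤ) →+ (Fin r → ℤ)} (h : Flip χ α g σ) : Flip χ α (gm f g) σ :=
  ⟨h.intw.gm f, h.line, h.neg, h.invol⟩

namespace HS

variable {H : HS k n} {α β : Fin r → ℤ} {x y : GL (Fin n) (Polynomial k)}

theorem MRoot.zero (hx : H.MRoot χ α x) : gm (Polynomial.aeval (0 : A)) x = 1 := by
  have := hx.add A 0 0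
  rw [add_zero] at this
  exact left_eq_mul.1 this

theorem MRoot.mem (hx : H.MRoot χ α x) (a : A) : gm (Polynomial.aeval a) x ∈ H.G A ∧
    SuppU χ (mray α) (gm (Polynomial.aeval a) x : Mat n A) := (hx.bij A).mapsTo trivial

theorem MRoot.inj (hx : H.MRoot χ α x) {a b : A}
    (h : gm (Polynomial.aeval a) x = gm (Polynomial.aeval b) x) : a = b :=
  (hx.bij A).injOn trivial trivial h

theorem ZT.half (Z : H.ZT χ) {μ : (Fin r → ℤ) →+ ℤ} (hμ : ∀ i j, μ (χ i) = μ (χ j) → χ i = χ j)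
    (hα : 0 < μ α) (hβ : β ≠ 0) (h : β ∈ mray (-α)) (hx : H.MRoot χ α x) (hy : H.MRoot χ β y) :
    ∃ w ∈ H.G k, ∃ σ, Flip χ α w σ ∧ ∃ c d : k, c ≠ 0 ∧ gm (Polynomial.aeval (1 : k)) y =
      gm (Polynomial.aeval c) x * w * gm (Polynomial.aeval d) x := by
  have hl : β ∈ mline α := mline_neg.1 (mray_le h)
  have hα' : 0 < (-μ) (-α) := by simpa using hα
  have hβ' : 0 < (-μ) β := (ray_nonneg hα' h).lt_of_ne' fun e =>
    hβ (line_zero hα'.ne' (mray_le h) e)
  obtain ⟨y1, y2⟩ := hy.mem (1 : k)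
  obtain ⟨y3, y4⟩ := (suppU_iff hβ').1 y2
  have y5 : InLine χ α _ := fun i j e => y4 i j fun e' => e (mline_le hl e')
  rcases Z.bru hμ hα y1 y5 with hp | ⟨w, hw, σ, fl, hd⟩
  · have e := (hp.inL y3.1).lv_eq
    rw [← lv_neg] at e
    have e1 : gm (Polynomial.aeval (1 : k)) y = 1 := Units.ext (e.symm.trans y3.2)
    exact absurd (hy.inj (e1.trans hy.zero.symm)) one_ne_zero
  obtain ⟨v, hv, l, hl, u, hu, e, v1, l1, u1⟩ :=
    H.lu _ ((Z.fixA k).push μ) (mul_mem (inv_mem hw) y1) hd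
  have g1 := (inLine_iff.1 fl.inv.inLine).mul (inLine_iff.1 y5)
  rw [← Units.val_mul] at g1
  have v2 := (lu_inL g1 v1.inv (by
    rw [e, mul_assoc, inv_mul_cancel_left]; exact l1.inP.mul u1.1)).inv
  rw [inv_inv] at v2
  have l2 : Intw χ χ (l : Mat n k) := fun i j e => l1 i j fun e' => e (hμ i j e')
  have u2 : InL (fun i => QuotientAddGroup.mk' (mline α) (χ i)) (u : Mat n k) := by
    rw [show u = l⁻¹ * (v⁻¹ * (w⁻¹ * gm (Polynomial.aeval (1 : k)) y)) by rw [e]; group]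
    exact (InL.inv (l2.comp _)).mul (v2.inv.mul g1)
  have v3 : SuppU χ (mray (-α)) (v : Mat n k) := (suppU_iff hα').2
    ⟨v1, fun i j e => inLine_iff.2 v2 i j fun e' => e (mline_neg.2 e')⟩
  have v4 := fl.neg'.suppU v3
  rw [neg_neg, ← Units.val_mul, ← Units.val_mul] at v4
  obtain ⟨c, -, hc⟩ := (hx.bij k).surjOn ⟨mul_mem (mul_mem hw hv) (inv_mem hw), v4⟩
  obtain ⟨d, -, hd⟩ := (hx.bij k).surjOn ⟨hu, (suppU_iff hα).2 ⟨u1, inLine_iff.2 u2⟩⟩
  have fl' : Flip χ α (w * l) σ := ⟨fl.intw.mul (l2.comp σ), fl.line, fl.neg, fl.invol⟩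
  have e' : gm (Polynomial.aeval (1 : k)) y =
      gm (Polynomial.aeval c) x * (w * l) * gm (Polynomial.aeval d) x := by
    simp only at hc hd
    rw [hc, hd, eq_mul_of_inv_mul_eq e.symm.symm]
    group
  refine ⟨w * l, mul_mem hw hl, σ, fl', c, d, fun h0 => ?_, e'⟩
  obtain ⟨i, hi⟩ := fl'.De_eq_zero Z.span hα.ne'
  rw [h0, hx.zero, one_mul, ← mul_inv_eq_iff_eq_mul] at e'
  have p1 := ((suppU_iff hα).1 (hx.mem d).2).1.1.inv
  rw [← e', Units.val_mul, De_mul_right p1] at hi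
  exact ((InP.isUnit_De' y3.1 _).mul (p1.isUnit_De _)).ne_zero hi

theorem MRoot.main (hx : H.MRoot χ α x) (hy : H.MRoot χ β y) {w : GL (Fin n) k}
    {σ : (Fin r → ℤ) →+ (Fin r → ℤ)} (fl : Flip χ α w σ) {c d : k}
    (e : gm (Polynomial.aeval (1 : k)) y =
      gm (Polynomial.aeval c) x * w * gm (Polynomial.aeval d) x)
    (τ : Multiplicative (Fin r → ℤ) →* Aˣ) :
    gm (Polynomial.aeval (τ (Multiplicative.ofAdd β) : A)) y =
      gm (Polynomial.aeval (τ (Multiplicative.ofAdd α) * algebraMap k A c)) x *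
        tp χ (τ.comp (AddMonoidHom.toMultiplicative (AddMonoidHom.id _ - σ))) *
        gm (Algebra.ofId k A) w *
        gm (Polynomial.aeval (τ (Multiplicative.ofAdd α) * algebraMap k A d)) x := by
  have e1 := congrArg (gm (Algebra.ofId k A)) e
  rw [map_mul, map_mul, gm_aeval, gm_aeval, gm_aeval, map_one] at e1
  have e2 : tp χ τ = tp χ (τ.comp (AddMonoidHom.toMultiplicative (AddMonoidHom.id _ - σ))) *
      tp χ (τ.comp (AddMonoidHom.toMultiplicative σ)) := by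
    rw [← tp_mul]
    congr 1
    refine MonoidHom.ext fun z => ?_
    show τ z = τ (Multiplicative.ofAdd (z.toAdd - σ z.toAdd)) * τ (Multiplicative.ofAdd (σ z.toAdd))
    rw [← map_mul, ← ofAdd_add, sub_add_cancel, ofAdd_toAdd]
  have e3 : tp χ (τ.comp (AddMonoidHom.toMultiplicative (AddMonoidHom.id _ - σ))) *
      gm (Algebra.ofId k A) w = tp χ τ * gm (Algebra.ofId k A) w * (tp χ τ)⁻¹ := by
    rw [eq_mul_inv_iff_mul_eq, mul_assoc, (fl.gm _).mul_tp, ← mul_assoc, ← e2]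
  rw [← mul_one (τ (Multiplicative.ofAdd β) : A), ← hy.eqv, ← hx.eqv, ← hx.eqv, mul_assoc _ (tp χ _),
    e3, e1]
  simp only [Algebra.ofId_apply]
  group

theorem MRoot.uniq (hx : H.MRoot χ α x) {μ : (Fin r → ℤ) →+ ℤ} (hα : 0 < μ α) {w : GL (Fin n) A}
    {σ : (Fin r → ℤ) →+ (Fin r → ℤ)} (fl : Flip χ α w σ) {a b a' b' : A}
    {τ τ' : Multiplicative (Fin r → ℤ) →* Aˣ}
    (e : gm (Polynomial.aeval a) x * tp χ τ * w * gm (Polynomial.aeval b) x =
      gm (Polynomial.aeval a') x * tp χ τ' * w * gm (Polynomial.aeval b') x) :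
    a = a' ∧ tp χ τ = tp χ τ' := by
  have hα' : 0 < (-μ) (-α) := by simpa using hα
  have h1 : ∀ a : A, InU (-fun i => μ (χ i))
      ((w⁻¹ * gm (Polynomial.aeval a) x * w⁻¹⁻¹ : GL (Fin n) A) : Mat n A) := fun a =>
    ((suppU_iff hα').1 (fl.inv.suppU (hx.mem a).2)).1
  have h2 : ∀ τ : Multiplicative (Fin r → ℤ) →* Aˣ, InL (fun i => μ (χ i))
      ((w⁻¹ * tp χ τ * w : GL (Fin n) A) : Mat n A) := fun τ => by
    rw [fl.inv.mul_tp, inv_mul_cancel_right]
    exact inL_tp _ _ _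
  have h3 : ∀ a : A, InU (fun i => μ (χ i)) (gm (Polynomial.aeval a) x : Mat n A) := fun a =>
    ((suppU_iff hα).1 (hx.mem a).2).1
  obtain ⟨e1, e2, -⟩ := lu_eq (h1 a) (h2 τ) (h3 b) (h1 a') (h2 τ') (h3 b') (by
    simpa only [inv_inv, mul_assoc, mul_inv_cancel_left, mul_right_inj] using e)
  exact ⟨hx.inj (by simpa using e1), by simpa using e2⟩

theorem ZT.ker (Z : H.ZT χ) (hx : H.MRoot χ α x) (hy : H.MRoot χ β y) {μ : (Fin r → ℤ) →+ ℤ}
    (hα : 0 < μ α) {w : GL (Fin n) k} {σ : (Fin r → ℤ) →+ (Fin r → ℤ)} (fl : Flip χ α w σ)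
    {c d : k} (hc : c ≠ 0) (e : gm (Polynomial.aeval (1 : k)) y =
      gm (Polynomial.aeval c) x * w * gm (Polynomial.aeval d) x) :
    α ∈ AddSubgroup.zmultiples β ∧ ∀ z, z - σ z ∈ AddSubgroup.zmultiples β := by
  let π := QuotientAddGroup.mk' (AddSubgroup.zmultiples β)
  have hπ : ∀ z, uu k (π z) = 1 → z ∈ AddSubgroup.zmultiples β := fun z h =>
    (QuotientAddGroup.eq_zero_iff z).1 (uu_inj (A := k) (h.trans uu_zero.symm))
  let τ : Multiplicative (Fin r → ℤ) →* (GA k _)ˣ :=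
    MonoidHom.mk' (fun z => uu k (π z.toAdd)) fun a b => by rw [toAdd_mul, map_add, uu_add]
  have e1 := hx.main hy fl e τ
  have e2 := hx.main hy fl e (1 : Multiplicative (Fin r → ℤ) →*
    (GA k ((Fin r → ℤ) ⧸ AddSubgroup.zmultiples β))ˣ)
  have e3 : τ (Multiplicative.ofAdd β) = 1 := by
    show uu k (π β) = 1
    rw [show π β = 0 from (QuotientAddGroup.eq_zero_iff β).2 (AddSubgroup.mem_zmultiples β),
      uu_zero]
  rw [e3] at e1
  obtain ⟨h1, h2⟩ := hx.uniq hα (fl.gm _) (e1.symm.trans e2)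
  refine ⟨hπ α (Units.ext (((Ne.isUnit hc).map (algebraMap k _)).mul_right_cancel h1)),
    fun z => mem_of_chi Z.span ((AddSubgroup.zmultiples β).comap (AddMonoidHom.id (Fin r → ℤ) - σ))
      (fun i => hπ _ (Units.ext ?_)) z⟩
  have := congrArg (fun g : GL (Fin n) (GA k ((Fin r → ℤ) ⧸ AddSubgroup.zmultiples β)) =>
    g.1 i i) h2
  simp only [tp, dgU, diagonal_apply_eq] at this
  exact this

theorem MRoot.field (hx : H.MRoot χ α x) (hy : H.MRoot χ (-α) y) {μ : (Fin r → ℤ) →+ ℤ}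
    (hp : 0 < μ α) {w : GL (Fin n) k} {σ : (Fin r → ℤ) →+ (Fin r → ℤ)} (fl : Flip χ α w σ)
    {c d : k} (hc : c ≠ 0) (e : gm (Polynomial.aeval (1 : k)) y =
      gm (Polynomial.aeval c) x * w * gm (Polynomial.aeval d) x) {cor : (Fin r → ℤ) →+ ℤ}
    (hf' : ∀ z, z - σ z = cor z • α) (h2α : cor α = 2) {F : Type u} [Field F] [IsAlgClosed F]
    [Algebra k F] (a b' : F) (hb : b' ≠ 0) (s : Fˣ)
    (e0 : (s : F) = 1 + algebraMap k F c⁻¹ * a * b') :
    gm (Polynomial.aeval a) x * gm (Polynomial.aeval b') y =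
      gm (Polynomial.aeval (b' * (s : F)⁻¹)) y * tp χ (mcoc cor s) *
        gm (Polynomial.aeval (algebraMap k F (d / c) * (a * (s : F)⁻¹))) x := by
  have hcσ : ∀ z, cor (σ z) = -cor z := fun z => by
    rw [← sub_sub_cancel z (σ z), hf', map_sub, map_zsmul, h2α, smul_eq_mul]
    ring
  have hF : ∀ z : Fˣ, gm (Polynomial.aeval ((z⁻¹ : Fˣ) : F)) y =
      gm (Polynomial.aeval (z * algebraMap k F c)) x * tp χ (mcoc cor z) *
        gm (Algebra.ofId k F) w * gm (Polynomial.aeval (z * algebraMap k F d)) x := fun z => by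
    obtain ⟨m, hm⟩ := Int.eq_ofNat_of_zero_le hp.le
    obtain ⟨ζ, hζ⟩ := IsAlgClosed.exists_pow_nat_eq (z : F) (n := m) (by omega)
    have hζ0 : ζ ≠ 0 := fun h => z.ne_zero (by rw [← hζ, h, zero_pow (by omega)])
    have e1 : mcoc μ (Units.mk0 ζ hζ0) (Multiplicative.ofAdd α) = z :=
      Units.ext (by simp [mcoc, hm, hζ])
    have e2 := hx.main hy fl e (mcoc μ (Units.mk0 ζ hζ0))
    rw [ofAdd_neg, map_inv, e1] at e2
    rw [e2]
    congr 4
    refine MonoidHom.ext fun t => ?_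
    show mcoc μ _ (Multiplicative.ofAdd (t.toAdd - σ t.toAdd)) = z ^ cor t.toAdd
    rw [hf', ofAdd_zsmul, map_zpow, e1]
  obtain ⟨b, hb'⟩ : ∃ b : Fˣ, (b : F) = b' := ⟨Units.mk0 _ hb, rfl⟩
  have e6 := hF b⁻¹
  have e7 := hF (s * b⁻¹)
  have hc' : algebraMap k F c ≠ 0 := by simpa using hc
  have e8 : gm (Algebra.ofId k F) w * tp χ (mcoc cor s) =
      tp χ (mcoc cor s⁻¹) * gm (Algebra.ofId k F) w := by
    rw [(fl.gm _).mul_tp]
    congr 2
    refine MonoidHom.ext fun t => ?_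
    show s ^ cor (σ t.toAdd) = s⁻¹ ^ cor t.toAdd
    rw [hcσ, _root_.zpow_neg, _root_.inv_zpow]
  have e9 : tp χ (mcoc cor (s * b⁻¹)) * tp χ (mcoc cor s⁻¹) = tp χ (mcoc cor b⁻¹) := by
    rw [← tp_mul]
    congr 1
    refine MonoidHom.ext fun t => ?_
    show (s * b⁻¹) ^ cor t.toAdd * s⁻¹ ^ cor t.toAdd = b⁻¹ ^ cor t.toAdd
    rw [← mul_zpow, mul_right_comm, mul_inv_cancel, one_mul]
  have e10 := hx.eqv F (mcoc cor s) (algebraMap k F d / (s * b))
  rw [mul_inv_eq_iff_eq_mul, show ((mcoc cor s (Multiplicative.ofAdd α) : Fˣ) : F) = s ^ 2 by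
    simp [mcoc, h2α]] at e10
  rw [inv_inv, hb'] at e6
  rw [show (((s * b⁻¹)⁻¹ : Fˣ) : F) = b' * (s : F)⁻¹ by simp [hb']] at e7
  rw [e6, e7]
  have n1 : a + ((b⁻¹ : Fˣ) : F) * algebraMap k F c = (s * b⁻¹ : Fˣ) * algebraMap k F c := by
    simp only [Units.val_mul, Units.val_inv_eq_inv_val, hb', e0, map_inv₀]
    field_simp
    ring
  have n2 : ((s * b⁻¹ : Fˣ) : F) * algebraMap k F d =
      (s : F) ^ 2 * (algebraMap k F d / (s * b)) := by
    simp only [Units.val_mul, Units.val_inv_eq_inv_val]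
    field_simp
  have n3 : ((b⁻¹ : Fˣ) : F) * algebraMap k F d = algebraMap k F d / (s * b) +
      algebraMap k F (d / c) * (a * (s : F)⁻¹) := by
    have hs' := s.ne_zero
    simp only [Units.val_inv_eq_inv_val, hb', map_div₀]
    field_simp
    rw [e0, map_inv₀]
    field_simp
  rw [← mul_assoc, ← mul_assoc, ← mul_assoc, ← hx.add, n1, n2, n3, hx.add, ← e9]
  simp only [mul_assoc, mul_right_inj]
  rw [← mul_assoc (tp χ (mcoc cor s⁻¹)), ← e8, ← mul_assoc _ (tp χ (mcoc cor s)), ← e10]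
  simp only [mul_assoc]

/-- HS2b: the rank one relation. -/
theorem ZT.sl2 (Z : H.ZT χ) (hα : α ≠ 0) (hβ : β ≠ 0) (h : β ∈ mray (-α))
    (hx : H.MRoot χ α x) (hy : H.MRoot χ β y) :
    β = -α ∧ ∃ (cor : (Fin r → ℤ) →+ ℤ) (c : k), cor α = 2 ∧ c ≠ 0 ∧ MSL2 χ cor c x y ∧
      ∃ g ∈ H.G k, Intw χ (fun j => χ j - cor (χ j) • α) (g : Mat n k) := by
  classical
  obtain ⟨μ, hμ, hp⟩ : ∃ μ : (Fin r → ℤ) →+ ℤ, (∀ i j, μ (χ i) = μ (χ j) → χ i = χ j) ∧
      0 < μ α := by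
    obtain ⟨μ, hμ⟩ := exists_add_sep (insert 0 (insert α (XX χ)))
    have h1 : ∀ i j, μ (χ i) = μ (χ j) → χ i = χ j := fun i j =>
      hμ _ (by simp [chi_XX]) _ (by simp [chi_XX])
    rcases lt_or_gt_of_ne fun e : μ α = 0 => hα (hμ α (by simp) 0 (by simp) (by simp [e])) with
      h | h
    · exact ⟨-μ, fun i j e => h1 i j (neg_injective e), by simpa using h⟩
    · exact ⟨μ, h1, h⟩
  have hα' : 0 < (-μ) (-α) := by simpa using hp
  have hβ' : 0 < (-μ) β := (ray_nonneg hα' h).lt_of_ne' fun e =>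
    hβ (line_zero hα'.ne' (mray_le h) e)
  obtain ⟨w, hw, σ, fl, c, d, hc, e⟩ := Z.half hμ hp hβ h hx hy
  obtain ⟨⟨p, h1⟩, h2⟩ := Z.ker hx hy hp fl hc e
  obtain rfl : β = -α := by
    obtain ⟨w', -, σ', fl', c', d', hc', e'⟩ := Z.half (μ := -μ)
      (fun i j e => hμ i j (neg_injective e)) hβ' hα (ray_symm hβ h) hy hx
    obtain ⟨⟨q, h3⟩, -⟩ := Z.ker hy hx hβ' fl' hc' e'
    simp only at h1 h3
    have h4 : p * q = 1 := smul_left_injective ℤ hα (by
      show (p * q) • α = (1 : ℤ) • α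
      rw [mul_smul, h3, h1, one_smul])
    rcases Int.eq_one_or_neg_one_of_mul_eq_one' h4 with ⟨-, rfl⟩ | ⟨-, rfl⟩
    · rw [← h3, one_smul, AddMonoidHom.neg_apply] at hβ'
      omega
    · rw [← h3, neg_smul, one_smul]
  have h3 : ∀ z, ∃ m : ℤ, z - σ z = m • α := fun z => by
    obtain ⟨m, hm⟩ := h2 z
    exact ⟨-m, by rw [← hm, neg_smul, ← smul_neg]⟩
  choose f hf using h3
  let cor : (Fin r → ℤ) →+ ℤ := AddMonoidHom.mk' f fun a b => smul_left_injective ℤ hα (by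
    show f (a + b) • α = (f a + f b) • α
    rw [add_smul, ← hf, ← hf, ← hf, map_add]
    abel)
  have hf' : ∀ z, z - σ z = cor z • α := hf
  have h2α : cor α = 2 := smul_left_injective ℤ hα (by
    show cor α • α = (2 : ℤ) • α
    rw [← hf', fl.neg, two_smul, sub_neg_eq_add])
  have hσ : ∀ z, σ z = z - cor z • α := fun z => by rw [← hf', sub_sub_cancel]
  have key : ∀ (A : Type u) [CommRing A] [Algebra k A] (a b : A) (s : Aˣ),
      (s : A) = 1 + algebraMap k A c⁻¹ * a * b →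
      gm (Polynomial.aeval a) x * gm (Polynomial.aeval b) y =
        gm (Polynomial.aeval (b * (s⁻¹ : Aˣ))) y * tp χ (mcoc cor s) *
          gm (Polynomial.aeval (algebraMap k A (d / c) * (a * (s⁻¹ : Aˣ)))) x := by
    let P := MvPolynomial (Fin 2) k
    let s0 : P := 1 + MvPolynomial.C c⁻¹ * MvPolynomial.X 0 * MvPolynomial.X 1
    have hs0 : s0 ≠ 0 := fun h => by
      simpa [s0] using congrArg MvPolynomial.constantCoeff h
    let L := Localization.Away s0
    have : IsDomain L := IsLocalization.isDomain_localization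
      (powers_le_nonZeroDivisors_of_noZeroDivisors hs0)
    let F := AlgebraicClosure (FractionRing L)
    let φ : L →ₐ[k] F := IsScalarTower.toAlgHom k L F
    have hφ : Function.Injective φ := (algebraMap (FractionRing L) F).injective.comp
      (IsFractionRing.injective L (FractionRing L))
    let a0 : L := algebraMap P L (MvPolynomial.X 0)
    let b0 : L := algebraMap P L (MvPolynomial.X 1)
    obtain ⟨t0, ht0⟩ := IsLocalization.Away.algebraMap_isUnit (S := L) s0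
    have hL : gm (Polynomial.aeval a0) x * gm (Polynomial.aeval b0) y =
        gm (Polynomial.aeval (b0 * (t0⁻¹ : Lˣ))) y * tp χ (mcoc cor t0) *
          gm (Polynomial.aeval (algebraMap k L (d / c) * (a0 * (t0⁻¹ : Lˣ)))) x := by
      refine gm_inj φ hφ ?_
      have hb : φ b0 ≠ 0 := fun h => MvPolynomial.X_ne_zero (R := k) (1 : Fin 2)
        (IsLocalization.injective L (powers_le_nonZeroDivisors_of_noZeroDivisors hs0)
          (hφ (h.trans (by simp))))
      set s : Fˣ := Units.map (φ : L →* F) t0 with hs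
      have e0 : (s : F) = 1 + algebraMap k F c⁻¹ * φ a0 * φ b0 := by
        show φ t0 = _
        rw [ht0, ← φ.commutes, ← map_mul, ← map_mul, ← map_one φ, ← map_add]
        congr 1
        simp only [s0, map_add, map_mul, map_one]
        rfl
      have e4 : gm φ (tp χ (mcoc cor t0)) = tp χ (mcoc cor s) := gm_tp_coc _ _ _ _
      have e5 : φ (t0⁻¹ : Lˣ) = (s : F)⁻¹ := by
        rw [← Units.val_inv_eq_inv_val]
        rfl
      simp only [map_mul, gm_aeval, e4, e5, φ.commutes]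
      exact hx.field hy hp fl hc e hf' h2α _ _ hb s e0
    intro A _ _ a b s hs
    have hu : IsUnit (MvPolynomial.aeval (R := k) ![a, b] s0) := by
      simp [s0, ← hs]
    let ψ : L →ₐ[k] A := IsLocalization.Away.liftAlgHom s0 hu
    have hψ : ∀ p : P, ψ (algebraMap P L p) = MvPolynomial.aeval ![a, b] p := fun p => by
      simp [ψ]
    have e1 : Units.map (ψ : L →* A) t0 = s := Units.ext (by
      show ψ t0 = _
      rw [ht0, hψ, hs]
      simp [s0])
    have e4 : gm ψ (tp χ (mcoc cor t0)) = tp χ (mcoc cor s) := by rw [gm_tp_coc, e1]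
    have e5 : ψ (t0⁻¹ : Lˣ) = (s⁻¹ : Aˣ) := by
      rw [← e1]
      rfl
    have := congrArg (gm ψ) hL
    simpa only [map_mul, gm_aeval, e4, e5, ψ.commutes, a0, b0, hψ, MvPolynomial.aeval_X,
      cons_val_zero, cons_val_one] using this
  have hd : d / c = 1 := by
    have := key k 1 0 1 (by simp)
    rw [zero_mul, hy.zero, show mcoc cor (1 : kˣ) = 1 from MonoidHom.ext fun _ => _root_.one_zpow _,
      tp_one, mul_one, mul_one, one_mul] at this
    simpa using (hx.inj this).symm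
  refine ⟨rfl, cor, c⁻¹, h2α, inv_ne_zero hc, fun A _ _ a b s hs => ?_, w, hw, ?_⟩
  · simpa only [hd, map_one, one_mul] using key A a b s hs
  · simpa only [hσ] using fl.intw

end HS

end Pool.Agent.GR
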