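import Pool.Agent.P.MP_c1f06d_ag.g.Defs
import Pool.Agent.P.MP_c1f06d_ag.g.Grp
import Pool.Agent.P.MP_c1f06d_ag.g.BC
import Pool.Agent.P.MP_c1f06d_ag.g.HsSL
import Pool.Agent.P.MP_c1f06d_ag.g.HsConj
import Pool.Agent.P.MP_c1f06d_ag.r.Twist

/-! A group scheme over a field as the stabiliser of a point of a homogeneous space. -/

open WithConv Pool.Agent.GR Matrix AddMonoidAlgebra
open scoped TensorProduct

universe u

namespace Pool.Agent.RED

variable {R A K : Type u} [CommRing R] [CommRing A] [HopfAlgebra R A] [Field K] [Algebra R K]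
  {n : ℕ} {H : HS K n} {M : Type} [AddCommGroup M] {T T' : Type u} [CommRing T] [Algebra R T]
  [CommRing T'] [Algebra R T']

/-- The structure map of a `K`-algebra. -/
abbrev jK (R K T : Type u) [CommRing R] [CommRing K] [CommRing T] [Algebra R K] [Algebra R T]
    [Algebra K T] [IsScalarTower R K T] : K →ₐ[R] T := IsScalarTower.toAlgHom R K T

theorem jind {P : ∀ (T : Type u) [CommRing T] [Algebra R T], (K →ₐ[R] T) → Prop}
    (h : ∀ (T : Type u) [CommRing T] [Algebra R T] [Algebra K T] [IsScalarTower R K T],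
      P T (jK R K T)) (T : Type u) [CommRing T] [Algebra R T] (j : K →ₐ[R] T) : P T j :=
  let _ : Algebra K T := j.toAlgebra
  have : IsScalarTower R K T := IsScalarTower.of_algebraMap_eq fun r => (j.commutes r).symm
  h T

variable (R) in
theorem kind {P : ∀ (T : Type u) [CommRing T] [Algebra K T], Prop}
    (h : ∀ (T : Type u) [CommRing T] [Algebra R T] [Algebra K T] [IsScalarTower R K T], P T)
    (T : Type u) [CommRing T] [Algebra K T] : P T :=
  let _ : Algebra R T := ((algebraMap K T).comp (algebraMap R K)).toAlgebra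
  have : IsScalarTower R K T := IsScalarTower.of_algebraMap_eq fun _ => rfl
  h T

variable (R A) in
/-- The group `Spec A` over `K` is the group of `H`. -/
structure Real (H : HS K n) extends MRep R A K n where
  mem : ∀ (T : Type u) [CommRing T] [Algebra R T] [Algebra K T] [IsScalarTower R K T]
    (g : GL (Fin n) T), g ∈ H.G T ↔ ∃ x, ρ T (jK R K T) x = g

/-- Change of frame. -/
noncomputable def Real.rb (X : Real R A H) (γ : GL (Fin n) K) : Real R A (H.rb γ) where
  ρ T _ _ j := (MulAut.conj (gm j γ)⁻¹).toMonoidHom.comp (X.ρ T j)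
  nat T T' _ _ _ _ f j x := by
    show gm f ((gm j γ)⁻¹ * X.ρ T j x * (gm j γ)⁻¹⁻¹) = (gm _ γ)⁻¹ * X.ρ T' _ _ * (gm _ γ)⁻¹⁻¹
    simp only [map_mul, map_inv, X.nat, gm_comp]
  inj T _ _ j := (MulAut.conj _).injective.comp (X.inj T j)
  mem T _ _ _ _ g := by
    rw [H.mem_G_rb, X.mem]
    refine exists_congr fun x => ?_
    show _ = gm (jK R K T) γ * g * (gm (jK R K T) γ)⁻¹ ↔
      (gm (jK R K T) γ)⁻¹ * X.ρ T _ x * (gm (jK R K T) γ)⁻¹⁻¹ = g
    constructor
    · intro h; rw [h]; group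
    · intro h; rw [← h]; group

theorem Real.rb_ρ (X : Real R A H) (γ : GL (Fin n) K) (j : K →ₐ[R] T) (x : Pt R A T) :
    (X.rb γ).ρ T j x = (gm j γ)⁻¹ * X.ρ T j x * gm j γ := by
  show (gm j γ)⁻¹ * X.ρ T j x * (gm j γ)⁻¹⁻¹ = _
  rw [inv_inv]

/-- The points in a representation. -/
noncomputable def IsRep.pts {u : GL (Fin n) A} (h : IsRep R u) (T : Type u) [CommRing T]
    [Algebra R T] : Pt R A T →* GL (Fin n) T := MonoidHom.mk' (fun x => gm x.ofConv u) (h T)

theorem Emb.inj {O : Type u} [CommRing O] [HopfAlgebra K O] {u : GL (Fin n) O} {Q : AffQuot K n}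
    (h : Emb u Q) (T : Type u) [CommRing T] [Algebra K T] : Function.Injective (h.rep.pts T) :=
  fun x y e => pt_ext fun a => by
    obtain ⟨f, rfl⟩ := h.surj a
    rw [Co.map_ev, Co.map_ev]
    exact congrArg (fun g => ev K g f) e

theorem gm_val_jK [Algebra K T] [IsScalarTower R K T] (u : GL (Fin n) (K ⊗[R] A)) (x : Pt R A T) :
    gm (val (jK R K T) x) u = gm (bcPt K T x).ofConv u := by
  have : val (jK R K T) x = (bcPt K T x).ofConv.restrictScalars R := by
    ext <;> simp [val, bcPt_tmul, Algebra.smul_def]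
  rw [this]
  rfl

/-- From an embedding of the fibre. -/
noncomputable def Real.ofFib {u : GL (Fin n) (K ⊗[R] A)} {Q : AffQuot K n} (h : Emb u Q) :
    Real R A Q.toHS where
  ρ T _ _ j := MonoidHom.mk' (fun x => gm (val j x) u) (jind (P := fun T _ _ j =>
    ∀ x y : Pt R A T, gm (val j (x * y)) u = gm (val j x) u * gm (val j y) u)
    (fun T _ _ _ _ x y => by simp only [gm_val_jK, map_mul, h.rep T]) T j)
  nat T T' _ _ _ _ f j x := by
    show gm f (gm (val j x) u) = gm (val _ _) u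
    rw [gm_comp]
    congr 2
    ext <;> simp [val]
  inj := jind fun T _ _ _ _ x y e => (bcPt K T).injective (h.inj T
    ((gm_val_jK u x).symm.trans (e.trans (gm_val_jK u y))))
  mem T _ _ i _ g := by
    rw [Q.mem_toHS_G, h.pt, (bcPt K T).surjective.exists]
    exact exists_congr fun x => by rw [← gm_val_jK]; rfl

/-- From an embedding over a subfield. -/
theorem Real.ofEmb {k O : Type u} [Field k] [CommRing O] [HopfAlgebra k O] {u : GL (Fin n) O}
    {Q : AffQuot k n} (h : Emb u Q) (K : Type u) [Field K] [Algebra k K] :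
    ∃ (H : HS K n) (X : Real k O H), ∀ (T : Type u) [CommRing T] [Algebra k T] (j : K →ₐ[k] T)
      (x : Pt k O T), X.ρ T j x = gm x.ofConv u := by
  have hN : Q.Normalizes Q := fun _ _ _ _ _ a b => (a.mul b).mul a.inv
  refine ⟨AffQuot.twHS ((ev k (1 : GL (Fin n) K)).comp Q.B.val) hN,
    ⟨⟨fun T _ _ _ => h.rep.pts T, fun _ _ _ _ _ _ _ _ _ => rfl, fun T _ _ _ => h.inj T⟩,
      fun T _ _ _ _ g => ?_⟩, fun _ _ _ _ _ => rfl⟩
  rw [AffQuot.mem_twHS_G, AffQuot.twPt_iff_l (l := K) (γ := 1) hN (fun _ => rfl)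
    (Algebra.ofId K T), map_one, inv_one, one_mul, mul_one, h.pt]
  rfl

theorem Real.prime (X : Real R A H) [IsDomain (K ⊗[R] A)] : (H.van K).IsPrime := by
  let u := X.ρ (K ⊗[R] A) (jK R K _) (toConv Algebra.TensorProduct.includeRight)
  have : H.van K = RingHom.ker (ev K u) := by
    ext f
    refine ⟨fun h => h _ u ((X.mem _ _).2 ⟨_, rfl⟩), fun h T c i i' st => ?_⟩
    obtain rfl : i = i' := Algebra.algebra_ext _ _ fun c =>
      @IsScalarTower.algebraMap_apply K K T _ _ _ _ i' i st c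
    refine @kind R K _ _ _ (fun T _ _ => ∀ g ∈ H.G T, ev K g f = 0)
      (fun T _ _ _ _ g hg => ?_) T c i
    obtain ⟨x, rfl⟩ := (X.mem T g).1 hg
    let φ : K ⊗[R] A →ₐ[K] T :=
      Algebra.TensorProduct.lift (Algebra.ofId K T) x.ofConv fun _ _ => Commute.all _ _
    have e := X.nat _ _ (φ.restrictScalars R) (jK R K _)
      (toConv Algebra.TensorProduct.includeRight)
    rw [show (φ.restrictScalars R).comp (jK R K _) = jK R K T from AlgHom.ext φ.commutes,
      show pm (φ.restrictScalars R) (toConv Algebra.TensorProduct.includeRight) = x from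
        pt_ext fun a => by simp [φ]] at e
    rw [← e]
    exact (Co.map_ev φ u f).symm.trans (by rw [show ev K u f = 0 from h, map_zero])
  rw [this]
  exact RingHom.ker_isPrime _

theorem Real.sat (X : Real R A H) (f : T →ₐ[R] T') (hf : Function.Injective f) (j : K →ₐ[R] T)
    {g : GL (Fin n) T} (h : ∃ x, X.ρ T' (f.comp j) x = gm f g) : ∃ x, X.ρ T j x = g := by
  let _ : Algebra K T := j.toAlgebra
  have : IsScalarTower R K T := IsScalarTower.of_algebraMap_eq fun r => (j.commutes r).symm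
  let _ : Algebra K T' := (f.comp j).toAlgebra
  have : IsScalarTower R K T' :=
    IsScalarTower.of_algebraMap_eq fun r => ((f.comp j).commutes r).symm
  let f' : T →ₐ[K] T' := { (f : T →+* T') with commutes' := fun _ => rfl }
  exact (X.mem T g).1 (H.G_of_inj f' hf ((X.mem T' _).2 h))

/-- The torus `t` is diagonal with weights `χ`. -/
def MRep.Dg (X : MRep R A K n) (t : Pt R A (GA K M)) (χ : Fin n → M) : Prop :=
  X.ρ _ (cst R K M) t = rho K χ

section dg

variable {X : MRep R A K n} {t : Pt R A (GA K M)} {χ : Fin n → M} {Λ : AddSubmonoid M}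

theorem MRep.Dg.tev (h : X.Dg t χ) (j : K →ₐ[R] T) (τ : TP M T) :
    X.ρ T j (tev t j τ) = tp χ τ := by
  have := X.nat _ _ (tl j τ) (cst R K M) t
  rw [tl_comp_cst, h] at this
  rw [RED.tev, ← this]
  refine Units.ext (Matrix.ext fun a b => ?_)
  by_cases e : a = b <;> simp [rho, tp, dgU, e, uu, chv]

theorem MRep.Dg.isHom (h : X.Dg t χ) : IsHom t := fun T _ _ j τ τ' =>
  X.inj T j (by rw [map_mul, h.tev, h.tev, h.tev, tp_mul])

theorem MRep.Dg.cj (h : X.Dg t χ) (j : K →ₐ[R] T) (g : Pt R A T) :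
    X.ρ _ ((cst R T M).comp j) (cj t j g) =
      rho T χ * gm (cst R T M) (X.ρ T j g) * (rho T χ)⁻¹ := by
  rw [cj_eq, map_mul, map_mul, map_inv, h.tev, X.nat]
  rfl

theorem rho_conj (χ : Fin n → M) (g : GL (Fin n) T) (a b : Fin n) :
    ((rho T χ * gm (cst R T M) g * (rho T χ)⁻¹ : GL (Fin n) (GA T M)) : Mat n (GA T M)) a b =
      single (χ a - χ b) ((g : Mat n T) a b) := by
  show (diagonal (fun i => (single (χ i) 1 : GA T M)) * (g : Mat n T).map (cst R T M) *
    diagonal (fun i => (single (-χ i) 1 : GA T M))) a b = _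
  rw [mul_diagonal, diagonal_mul, map_apply, cst_apply, single_mul_single, single_mul_single,
    add_zero, one_mul, mul_one, sub_eq_add_neg]

theorem MRep.Dg.entry (h : X.Dg t χ) {j : K →ₐ[R] T} {g : Pt R A T} {y : Pt R A (sup R T Λ)}
    (hy : pm (sup R T Λ).val y = RED.cj t j g) : ∃ j' : K →ₐ[R] sup R T Λ,
      (sup R T Λ).val.comp j' = (cst R T M).comp j ∧ ∀ a b, ((X.ρ _ j' y : Mat n (sup R T Λ)) a b).1 =
        (single (χ a - χ b) ((X.ρ T j g : Mat n T) a b) : GA T M) := by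
  refine ⟨((cst R T M).comp j).codRestrict _ fun c => single_mem_sup Λ.zero_mem _, rfl,
    fun a b => ?_⟩
  rw [← rho_conj (R := R), ← h.cj, ← hy]
  exact congrArg (fun g : GL (Fin n) (GA T M) => (g : Mat n (GA T M)) a b)
    (X.nat _ _ (sup R T Λ).val _ y)

theorem MRep.Dg.of_inG (h : X.Dg t χ) {j : K →ₐ[R] T} {g : Pt R A T} (hg : InG Λ t j g)
    (a b : Fin n) (hm : χ a - χ b ∉ Λ) : (X.ρ T j g : Mat n T) a b = 0 := by
  obtain ⟨y, hy⟩ := inG_iff.1 hg
  obtain ⟨j', -, e⟩ := h.entry hy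
  have := ((X.ρ _ j' y : Mat n (sup R T Λ)) a b).2 _ hm
  rwa [e, coeff_single, Finsupp.single_eq_same] at this

theorem MRep.Dg.lim (h : X.Dg t χ) (hΛ : Pos Λ) {j : K →ₐ[R] T} {g z : Pt R A T} (hg : InG Λ t j g)
    (hz : IsLim t j g z) (a b : Fin n) : (X.ρ T j z : Mat n T) a b =
      (single (χ a - χ b) ((X.ρ T j g : Mat n T) a b) : GA T M).coeff 0 := by
  obtain ⟨y, hy⟩ := inG_iff.1 hg
  obtain ⟨j', e1, e⟩ := h.entry hy
  have e2 : (e0 R T hΛ).comp j' = j := AlgHom.ext fun c => by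
    have := congrArg (fun z : GA T M => z.coeff 0) (DFunLike.congr_fun e1 c)
    exact this.trans (by simp)
  rw [hz.uniq (IsLim.of_pm hΛ hy), ← e, ← e2, ← X.nat]
  rfl

end dg

variable {X : Real R A H} {t : Pt R A (GA K M)} {χ : Fin n → M} {Λ : AddSubmonoid M}

theorem Real.inG_iff (h : X.Dg t χ) {j : K →ₐ[R] T} {g : Pt R A T} :
    InG Λ t j g ↔ ∀ a b, χ a - χ b ∉ Λ → (X.ρ T j g : Mat n T) a b = 0 := by
  refine ⟨h.of_inG, fun hg => ?_⟩
  let j' : K →ₐ[R] sup R T Λ :=
    ((cst R T M).comp j).codRestrict _ fun c => single_mem_sup Λ.zero_mem _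
  let c : T →ₐ[R] sup R T Λ := (cst R T M).codRestrict _ fun c => single_mem_sup Λ.zero_mem _
  let N : Mat n (sup R T Λ) := of fun a b => ⟨single (χ a - χ b) ((X.ρ T j g : Mat n T) a b), by
    by_cases e : χ a - χ b ∈ Λ
    · exact single_mem_sup e _
    · rw [hg a b e, AddMonoidAlgebra.single_zero]; exact zero_mem _⟩
  have e : (sup R T Λ).val.mapMatrix N = (rho T χ * gm (cst R T M) (X.ρ T j g) * (rho T χ)⁻¹ :
      GL (Fin n) (GA T M)) := Matrix.ext fun a b => (rho_conj χ _ a b).symm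
  have hd : N.det = c (X.ρ T j g : Mat n T).det := Subtype.ext (by
    have := (sup R T Λ).val.map_det N
    rw [e, Units.val_mul, Units.val_mul, det_units_conj] at this
    exact this.trans ((cst R T M).map_det _).symm)
  obtain ⟨N', hN⟩ : IsUnit N := (isUnit_iff_isUnit_det _).2
    (hd ▸ ((isUnit_iff_isUnit_det _).1 (X.ρ T j g).isUnit).map c)
  have e' : X.ρ _ ((sup R T Λ).val.comp j') (cj t j g) = gm (sup R T Λ).val N' :=
    (h.cj j g).trans (Units.ext (by rw [← e, ← hN]; rfl))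
  obtain ⟨y, hy⟩ := X.sat (sup R T Λ).val Subtype.val_injective j' ⟨_, e'⟩
  exact RED.inG_iff.2 ⟨y, X.inj _ ((sup R T Λ).val.comp j') (by rw [← X.nat, hy, e'])⟩

theorem Real.inU_iff (h : X.Dg t χ) (hΛ : Pos Λ) {j : K →ₐ[R] T} {g : Pt R A T} :
    InU Λ t j g ↔ SuppU χ Λ (X.ρ T j g : Mat n T) := by
  classical
  constructor
  · rintro ⟨h1, h2⟩ a b hab
    have := h.lim hΛ h1 (z := 1) h2 a b
    rw [map_one, Units.val_one, coeff_single, Finsupp.single_apply] at this
    rw [Matrix.sub_apply, this]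
    split_ifs with e
    · exact sub_self _
    · rw [h.of_inG h1 a b (hab.resolve_right fun e' => e (sub_eq_zero.2 e')), sub_self]
  · intro hg
    have h1 : InG Λ t j g := (Real.inG_iff h).2 fun a b e => by
      have := hg a b (Or.inl e)
      rwa [Matrix.sub_apply, one_apply_ne (by rintro rfl; simp at e), sub_zero] at this
    obtain ⟨z, hz⟩ := h1.exists_lim hΛ
    obtain rfl : z = 1 := X.inj T j (Units.ext (Matrix.ext fun a b => by
      rw [h.lim hΛ h1 hz, map_one, Units.val_one, coeff_single, Finsupp.single_apply]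
      split_ifs with e
      · exact sub_eq_zero.1 (hg a b (Or.inr (sub_eq_zero.1 e)))
      · rw [one_apply_ne (by rintro rfl; simp at e)]))
    exact ⟨h1, hz⟩

theorem Real.chart (h : X.Dg t χ) (hΛ : Pos Λ) {P : Type u} [CommRing P] [Algebra R P]
    [Algebra K P] [IsScalarTower R K P] {y : Pt R A P} [Algebra K T] [IsScalarTower R K T]
    {ι : Type*} {e : ι → P →ₐ[K] T} (hb : Set.BijOn (fun s => pm ((e s).restrictScalars R) y)
      Set.univ {g | InU Λ t (jK R K T) g}) :
    Set.BijOn (fun s => gm (e s) (X.ρ P (jK R K P) y)) Set.univ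
      {g | g ∈ H.G T ∧ SuppU χ Λ (g : Mat n T)} := by
  have e1 : ∀ s, gm (e s) (X.ρ P (jK R K P) y) =
      X.ρ T (jK R K T) (pm ((e s).restrictScalars R) y) := fun s => by
    have := X.nat _ _ ((e s).restrictScalars R) (jK R K P) y
    rwa [show ((e s).restrictScalars R).comp (jK R K P) = jK R K T from
      AlgHom.ext (e s).commutes] at this
  simp only [e1]
  refine Set.BijOn.comp (t := {g | InU Λ t (jK R K T) g})
    ⟨fun g hg => ⟨(X.mem _ _).2 ⟨g, rfl⟩, (Real.inU_iff h hΛ).1 hg⟩, (X.inj T _).injOn, ?_⟩ hb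
  rintro g ⟨hg, hs⟩
  obtain ⟨x, rfl⟩ := (X.mem _ _).1 hg
  exact ⟨x, (Real.inU_iff h hΛ).2 hs, rfl⟩

theorem MRep.ρ_cv (X : MRep R A K n) [Algebra K T] [IsScalarTower R K T]
    (x : Pt R A (Polynomial K)) (a : T) : X.ρ T (jK R K T) (cv x (jK R K T) a) =
      gm (Polynomial.aeval a) (X.ρ _ (jK R K (Polynomial K)) x) := by
  have := X.nat _ _ (Polynomial.aevalTower (jK R K T) a) (jK R K (Polynomial K)) x
  rw [show (Polynomial.aevalTower (jK R K T) a).comp (jK R K (Polynomial K)) = jK R K T from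
    AlgHom.ext fun c => by simp] at this
  exact this.symm

theorem MRep.ρ_xev (X : MRep R A K n) [Algebra K T] [IsScalarTower R K T] {ι : Type}
    (x : Pt R A (MvPolynomial ι K)) (a : ι → T) : X.ρ T (jK R K T) (xev x (jK R K T) a) =
      gm (MvPolynomial.aeval a) (X.ρ _ (jK R K (MvPolynomial ι K)) x) := by
  have := X.nat _ _ (MvPolynomial.aevalTower (jK R K T) a) (jK R K (MvPolynomial ι K)) x
  rw [show (MvPolynomial.aevalTower (jK R K T) a).comp (jK R K (MvPolynomial ι K)) = jK R K T from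
    AlgHom.ext fun c => by simp] at this
  exact this.symm

/-- A torus is diagonal in a suitable frame. -/
theorem Real.exists_diag (X : Real R A H) (ht : IsHom t) :
    ∃ (γ : GL (Fin n) K) (χ : Fin n → M), (X.rb γ).Dg t χ := by
  classical
  let W := X.ρ _ (cst R K M) t
  let E : M → Mat n K := fun m => of fun a b => ((W : Mat n (GA K M)) a b).coeff m
  let S : Finset M := Finset.univ.biUnion fun p : Fin n × Fin n =>
    ((W : Mat n (GA K M)) p.1 p.2).coeff.support
  have hW : ∀ a b, (W : Mat n (GA K M)) a b = ∑ m ∈ S, AddMonoidAlgebra.single m (E m a b) :=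
    fun a b => coeff_injective (Finsupp.ext fun m => by
      rw [coeff_sum, Finsupp.finsetSum_apply, Finset.sum_eq_single m
        (fun m' _ h => by simp [h]) fun h => ?_]
      · simp [E]
      · have : E m a b = 0 := by_contra fun h' => h (Finset.mem_biUnion.2
          ⟨(a, b), Finset.mem_univ _, Finsupp.mem_support_iff.2 h'⟩)
        simp [this])
  have hF : ∀ (T : Type u) [CommRing T] [Algebra R T] (j : K →ₐ[R] T) (τ : TP M T) (a b : Fin n),
      (X.ρ T j (tev t j τ) : Mat n T) a b = ∑ m ∈ S, j (E m a b) * chv τ m := by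
    intro T _ _ j τ a b
    have := X.nat _ _ (tl j τ) (cst R K M) t
    rw [tl_comp_cst] at this
    rw [tev, ← this, gm_apply, hW, map_sum]
    simp only [tl_single]
  have hm : ∀ p ∈ S, ∀ q ∈ S, E p * E q = if p = q then E p else 0 := by
    intro p hp q hq
    ext a b
    let τ := (uT K (M × M)).comp (AddMonoidHom.inl M M).toMultiplicative
    let τ' := (uT K (M × M)).comp (AddMonoidHom.inr M M).toMultiplicative
    have e := congrArg (fun g => ((X.ρ _ (cst R K (M × M)) g : Mat n (GA K (M × M))) a b).coeff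
      (p, q)) (ht _ (cst R K (M × M)) τ τ')
    have e1 : ∀ m, chv τ m = AddMonoidAlgebra.single (m, 0) 1 := fun _ => rfl
    have e2 : ∀ m, chv τ' m = AddMonoidAlgebra.single (0, m) 1 := fun _ => rfl
    simp only [map_mul, Units.val_mul, Matrix.mul_apply, hF, chv_mul, e1, e2, cst_apply,
      Finset.sum_mul_sum, single_mul_single, coeff_sum, Finsupp.finsetSum_apply, coeff_single,
      Finsupp.single_apply, Prod.mk_add_mk, add_zero, zero_add, Prod.mk.injEq, mul_one,
      ite_and, Finset.sum_ite_eq', Finset.sum_ite_irrel, Finset.sum_const_zero, hp, hq,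
      if_true] at e
    rw [Matrix.mul_apply, ← e]
    split_ifs <;> rfl
  have hI : Idem S E := ⟨fun p hp => by rw [hm p hp p hp, if_pos rfl],
    fun p hp q hq e => by rw [hm p hp q hq, if_neg e], by
      ext a b
      have := hF K (AlgHom.id R K) 1 a b
      rw [ht.tev_one, map_one] at this
      simpa [Matrix.sum_apply, chv] using this.symm⟩
  obtain ⟨γ, χ, -, -, hS, hE⟩ := diag_idem hI (c := fun _ => ()) fun _ _ _ _ h => (h rfl).elim
  refine ⟨γ, χ, ?_⟩
  have e : W = gm (cst R K M) γ * rho K χ * (gm (cst R K M) γ)⁻¹ := Units.ext (by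
    rw [← tmat_fe γ hS, tmat]
    ext a b : 1
    rw [hW, Matrix.sum_apply]
    refine Finset.sum_congr rfl fun m hm => ?_
    rw [fe, ← hE m hm, ← Matrix.mul_assoc, ← Matrix.mul_assoc, Units.mul_inv, Matrix.one_mul,
      Matrix.mul_assoc, Units.mul_inv, Matrix.mul_one]
    simp [uu, single_mul_single])
  rw [MRep.Dg, Real.rb_ρ]
  exact (congrArg (fun g => _ * g * _) e).trans (by group)

section lattice

variable {r r' : ℕ} {t : Pt R A (GA K (XL r))} {χ : Fin n → XL r}

theorem Real.exists_tor (X : Real R A H) (Z : H.ZT χ) : ∃ t, X.Dg t χ :=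
  (X.mem _ _).1 (Z.rho_mem K)

theorem Real.zt (h : X.Dg t χ) (Z : H.ZT χ) : ZT t := jind fun T _ _ _ _ g hg => by
  obtain ⟨τ, hτ⟩ := Z.zt T _ ((X.mem _ _).2 ⟨g, rfl⟩) fun a b e =>
    h.of_inG hg a b fun e' => e (sub_eq_zero.1 e')
  refine ⟨τ, X.inj T _ (by rw [h.tev, hτ]), fun τ' e => ?_⟩
  rw [e, h.tev] at hτ
  have := add_ext_chi Z.span (a := MonoidHom.toAdditiveRight τ')
    (a' := MonoidHom.toAdditiveRight τ) fun i => congrArg Additive.ofMul (Units.ext (by
      simpa [tp, dgU] using congrArg (fun g : GL (Fin n) T => (g : Mat n T) i i) hτ))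
  exact MonoidHom.toAdditiveRight.injective this

theorem Real.mzt (h : X.Dg t χ) (Z : ZT t) : H.ZT χ where
  span := by
    let N := (Submodule.span ℤ (Set.range χ)).toAddSubgroup
    let τ := (uT K (XL r ⧸ N)).comp (QuotientAddGroup.mk' N).toMultiplicative
    have e : τ = 1 := (Z _ (cst R K _) 1 InG.one).unique (X.inj _ (cst R K _) (by
      rw [h.tev, map_one, ← tp_one χ]
      refine congrArg dgU (funext fun i => ?_)
      have : QuotientAddGroup.mk' N (χ i) = 0 :=
        (QuotientAddGroup.eq_zero_iff _).2 (Submodule.subset_span ⟨i, rfl⟩)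
      exact (τ.map_one.symm.trans (congrArg (uu K) this.symm)))) h.isHom.tev_one.symm
    refine eq_top_iff.2 fun x _ => (QuotientAddGroup.eq_zero_iff (N := N) x).1 (uu_inj (A := K) ?_)
    exact (DFunLike.congr_fun e (Multiplicative.ofAdd x)).trans τ.map_one.symm
  fix := by
    unfold HS.Fixed HS.orb
    rw [H.pt_map]
    exact (X.mem _ _).2 ⟨t, h⟩
  zt := kind R fun T _ _ _ _ g hg hl => by
    obtain ⟨x, rfl⟩ := (X.mem _ _).1 hg
    obtain ⟨τ, rfl, -⟩ := Z T (jK R K T) x ((Real.inG_iff h).2 fun a b e =>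
      hl a b fun e' => e (sub_eq_zero.2 e'))
    exact ⟨τ, h.tev _ _⟩

theorem Real.mchart (h : X.Dg t χ) {Λ : AddSubmonoid (XL r)} (hΛ : Pos Λ) {ι : Type}
    {deg : ι → XL r} {y : Pt R A (MvPolynomial ι K)} (hy : IsChart t Λ deg y) :
    H.MChart χ Λ deg (X.ρ _ (jK R K _) y) where
  bij := kind R fun T _ _ _ _ => Real.chart h hΛ (hy.bij T (jK R K T))
  zero := by rw [← X.ρ_xev, hy.zero, map_one]

theorem Real.mroot (h : X.Dg t χ) {α : XL r} (hα : α ≠ 0) {x : Pt R A (Polynomial K)}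
    (hx : IsRoot t α x) : H.MRoot χ α (X.ρ _ (jK R K _) x) where
  bij := kind R fun T _ _ _ _ => Real.chart h (pos_ray hα) (hx.bij T (jK R K T))
  add := kind R fun T _ _ _ _ a b => by simp only [← X.ρ_cv, hx.add, map_mul]
  eqv := kind R fun T _ _ _ _ τ a => by
    rw [← X.ρ_cv, ← X.ρ_cv, ← h.tev (jK R K T), ← map_inv, ← map_mul, ← map_mul, hx.eqv]
    rfl

theorem MRep.Dg.sl2 {X : MRep R A K n} (h : X.Dg t χ) {cor : XL r →+ ℤ} {c : K}
    {x y : Pt R A (Polynomial K)} (hs : MSL2 χ cor c (X.ρ _ (jK R K _) x) (X.ρ _ (jK R K _) y)) :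
    SL2 t cor c x y := jind fun T _ _ _ _ a b s e => X.inj T (jK R K T) (by
  simp only [map_mul, X.ρ_cv, h.tev]
  exact hs T a b s e)

/-- Two tori that are their own centralisers are conjugate. -/
theorem Real.conj (X : Real R A H) {t' : Pt R A (GA K (XL r'))} (ht : IsHom t) (hz : ZT t)
    (ht' : IsHom t') (hz' : ZT t') : ∃ (g : Pt R A K) (e : XL r ≃+ XL r'),
      ∀ (T : Type u) [CommRing T] [Algebra R T] (j : K →ₐ[R] T) (τ : TP (XL r') T),
        tev t' j τ = pm j g * tev t j (τ.comp (e : XL r →+ XL r').toMultiplicative) *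
          (pm j g)⁻¹ := by
  obtain ⟨γ, χ', h'⟩ := X.exists_diag ht'
  generalize X.rb γ = Y at h'
  generalize H.rb γ = H' at Y
  obtain ⟨δ, χ, h⟩ := Y.exists_diag ht
  obtain ⟨g, hg, e, hi⟩ := (Real.mzt h' hz').conj (Real.mzt (X := Y.rb δ) h hz)
  obtain ⟨g, rfl⟩ := (Y.mem K g).1 hg
  refine ⟨g, e, fun T _ _ j τ => Y.inj T j ?_⟩
  have e1 := h.tev j (τ.comp (e : XL r →+ XL r').toMultiplicative)
  have e2 : Y.ρ T j (pm j g) = gm j (Y.ρ K (jK R K K) g) :=
    (Y.nat _ _ j (jK R K K) g).symm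
  have e3 : tp χ' τ * gm j (Y.ρ K (jK R K K) g * δ) = gm j (Y.ρ K (jK R K K) g * δ) *
      tp χ (τ.comp (e : XL r →+ XL r').toMultiplicative) := Units.ext
    (Intw.diag_mul (a := χ') (b := fun i => e (χ i))
      (fun a b e => by rw [gm_apply, hi a b e, map_zero]) fun x => (τ (Multiplicative.ofAdd x) : T))
  rw [Real.rb_ρ] at e1
  rw [h'.tev, map_mul, map_mul, map_inv, e2, eq_mul_inv_of_mul_eq e3, ← e1, map_mul]
  group

end lattice

end Pool.Agent.RED
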