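import Pool.Agent.P.MP_c1f06d_ag.r.Intw

/-! Tools for the centraliser of a maximal torus. -/

open Matrix

universe u

namespace Pool.Agent.GR

theorem gordan_aux {Γ : Type} [AddCommGroup Γ] (M : AddSubmonoid Γ)
    (hM : ∀ δ ∈ M, -δ ∈ M → δ = 0) (L : List (Γ →+ ℤ)) : ∀ S : Set Γ, S.Finite →
      (∀ δ ∈ S, δ ∈ M ∧ δ ≠ 0) → ∀ K : AddSubgroup Γ, (∀ δ ∈ S, δ ∈ K) →
      (∀ x ∈ K, (∀ l ∈ L, l x = 0) → x = 0) → ∃ w : Γ →+ ℤ, ∀ δ ∈ S, 0 < w δ := by
  induction L with
  | nil => exact fun S _ h K hK h0 =>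
      ⟨0, fun δ hδ => absurd (h0 δ (hK δ hδ) (by simp)) (h δ hδ).2⟩
  | cons l L ih =>
    intro S hS h K hK h0
    let P := {p ∈ S | 0 < l p}
    let Q := {q ∈ S | l q < 0}
    have hP : P.Finite := hS.subset fun _ hx => hx.1
    have hQ : Q.Finite := hS.subset fun _ hx => hx.1
    let f : Γ → Γ → Γ := fun p q => (-l q) • p + l p • q
    have sm : ∀ (m : ℤ) (x : Γ), 0 ≤ m → x ∈ M → m • x ∈ M := fun m x hm hx => by
      obtain ⟨m, rfl⟩ := Int.eq_ofNat_of_zero_le hm
      rw [natCast_zsmul]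
      exact M.nsmul_mem hx m
    obtain ⟨w, hw⟩ := ih ({x ∈ S | l x = 0} ∪ Set.image2 f P Q)
      ((hS.subset fun _ hx => hx.1).union (hP.image2 f hQ)) (by
        rintro _ (hx | ⟨p, hp, q, hq, rfl⟩)
        · exact h _ hx.1
        · have h1 := sm (-l q - 1) p (by have := hq.2; omega) (h p hp.1).1
          have h2 := sm (l p) q hp.2.le (h q hq.1).1
          have e : f p q = p + ((-l q - 1) • p + l p • q) := by
            simp only [f, sub_smul, one_smul]; abel
          refine ⟨e ▸ M.add_mem (h p hp.1).1 (M.add_mem h1 h2), fun e0 => (h p hp.1).2 ?_⟩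
          refine hM p (h p hp.1).1 ?_
          rw [neg_eq_of_add_eq_zero_right (e ▸ e0)]
          exact M.add_mem h1 h2) (K ⊓ l.ker) (by
        rintro _ (hx | ⟨p, hp, q, hq, rfl⟩)
        · exact ⟨hK _ hx.1, hx.2⟩
        · refine ⟨K.add_mem (K.zsmul_mem (hK p hp.1) _) (K.zsmul_mem (hK q hq.1) _), ?_⟩
          show l (f p q) = 0
          simp only [f, map_add, map_zsmul, smul_eq_mul]; ring)
      (fun x hx hl => h0 x hx.1 fun l' hl' => by
        rcases List.mem_cons.1 hl' with e | e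
        · exact e ▸ hx.2
        · exact hl l' e)
    obtain ⟨t, h1, h2⟩ := Set.Finite.exists_between'
      (hP.image fun p => -(w p : ℚ) / l p) (hQ.image fun q => -(w q : ℚ) / l q) (by
        rintro _ ⟨p, hp, rfl⟩ _ ⟨q, hq, rfl⟩
        have e := hw (f p q) (Or.inr ⟨p, hp, q, hq, rfl⟩)
        simp only [f, map_add, map_zsmul, smul_eq_mul] at e
        have e' : (0 : ℚ) < -(l q) * w p + l p * w q := by exact_mod_cast e
        have a1 : (0 : ℚ) < l p := by exact_mod_cast hp.2
        have a2 : (0 : ℚ) < -(l q : ℚ) := by have := hq.2; exact_mod_cast neg_pos.2 this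
        show -(w p : ℚ) / l p < -(w q : ℚ) / l q
        rw [← neg_div_neg_eq (-(w q : ℚ)), div_lt_div_iff₀ a1 a2]
        linarith)
    refine ⟨(t.den : ℤ) • w + t.num • l, fun δ hδ => ?_⟩
    have hd : (0 : ℚ) < t.den := by exact_mod_cast t.den_pos
    have key : (0 : ℚ) < w δ + t * l δ := by
      rcases lt_trichotomy (l δ) 0 with e | e | e
      · have := h2 _ ⟨δ, ⟨hδ, e⟩, rfl⟩
        have a2 : (l δ : ℚ) < 0 := by exact_mod_cast e
        rw [lt_div_iff_of_neg a2] at this
        linarith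
      · have : (0 : ℚ) < w δ := by exact_mod_cast hw δ (Or.inl ⟨hδ, e⟩)
        simpa [e] using this
      · have := h1 _ ⟨δ, ⟨hδ, e⟩, rfl⟩
        have a2 : (0 : ℚ) < l δ := by exact_mod_cast e
        rw [div_lt_iff₀ a2] at this
        linarith
    have e : (((t.den : ℤ) * w δ + t.num * l δ : ℤ) : ℚ) = t.den * (w δ + t * l δ) := by
      push_cast
      rw [← Rat.mul_den_eq_num t]; ring
    have : (0 : ℚ) < (((t.den : ℤ) * w δ + t.num * l δ : ℤ) : ℚ) := e ▸ mul_pos hd key
    simpa using (by exact_mod_cast this : (0 : ℤ) < (t.den : ℤ) * w δ + t.num * l δ)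

/-- An integral linear form that is positive on a finite part of a pointed monoid. -/
theorem gordan {s : ℕ} (M : AddSubmonoid (Fin s → ℤ)) (hM : ∀ δ ∈ M, -δ ∈ M → δ = 0)
    (S : Set (Fin s → ℤ)) (hS : S.Finite) (h : ∀ δ ∈ S, δ ∈ M ∧ δ ≠ 0) :
    ∃ w : (Fin s → ℤ) →+ ℤ, ∀ δ ∈ S, 0 < w δ :=
  gordan_aux M hM (List.ofFn fun j => Pi.evalAddMonoidHom (fun _ => ℤ) j) S hS h ⊤
    (fun _ _ => trivial) fun _ _ hx => funext fun j => hx _ (List.mem_ofFn.2 ⟨j, rfl⟩)

/-- An element that lies in all valuation rings over an algebraically closed field is constant. -/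
theorem const_of_val {Ω F : Type u} [Field Ω] [IsAlgClosed Ω] [Field F] [Algebra Ω F] (x : F)
    (h : ∀ W : ValuationSubring F, (∀ c, algebraMap Ω F c ∈ W) → x ∈ W) :
    ∃ c, algebraMap Ω F c = x := by
  have h1 : x ∈ (integralClosure (Subring.closure (Set.range (algebraMap Ω F))) F).toSubring := by
    rw [← iInf_valuationSubring_superset, Subring.mem_iInf]
    exact fun V => h V.1 fun c => V.2 ⟨c, rfl⟩
  have e : Subring.closure (Set.range (algebraMap Ω F)) = (algebraMap Ω F).range :=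
    Subring.closure_eq (algebraMap Ω F).range
  have h2 : IsIntegral (algebraMap Ω F).range x := e ▸ h1
  obtain ⟨p, hp, h0⟩ := h2
  have hs : Function.Surjective (algebraMap Ω F).rangeRestrict :=
    (algebraMap Ω F).rangeRestrict_surjective
  obtain ⟨q, hq, -, hm⟩ := Polynomial.lifts_and_degree_eq_and_monic
    ((Polynomial.mem_lifts p).2 (Polynomial.map_surjective _ hs p)) hp
  have h3 : IsIntegral Ω x := ⟨q, hm, by
    rw [← hq, Polynomial.eval₂_map] at h0
    exact h0⟩
  exact minpoly.mem_range_of_degree_eq_one Ω x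
    (IsAlgClosed.degree_eq_one_of_irreducible Ω (minpoly.irreducible h3))

section smith

variable {n : ℕ} {W F : Type u} [CommRing W] [IsDomain W] [ValuationRing W] [Field F]
  [Algebra W F] [IsFractionRing W F]

/-- Elementary divisors inside a Levi subgroup. -/
theorem smithB0 {ι : Type} (c : Fin n → ι) (σ : GL (Fin n) F) (hσ : InL c (σ : Mat n F)) :
    ∃ (k₁ k₂ : GL (Fin n) W) (d : Fin n → Fˣ), InL c (k₁ : Mat n W) ∧ InL c (k₂ : Mat n W) ∧
    σ = GeneralLinearGroup.map (algebraMap W F) k₁ * dgU d *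
      GeneralLinearGroup.map (algebraMap W F) k₂ := by
  classical
  obtain ⟨_, ⟨⟨u, rfl⟩, hu⟩, _, ⟨⟨b, rfl⟩, hb⟩, w, d, h1, h2⟩ := elim
    ((GeneralLinearGroup.map (n := Fin n) (algebraMap W F)).range ⊓ PL 0 c F)
    ((GeneralLinearGroup.map (n := Fin n) (algebraMap W F)).range ⊓ PL 0 c F)
    (fun M => InL c (M : Mat n F)) (fun u hu b hb M hM => (hu.2.2.mul hM).mul hb.2.2)
    (fun M hM j0 hj0 => by
      obtain ⟨i0, hi0⟩ := exists_col_ne M j0
      obtain ⟨⟨i, j⟩, hij, hmax⟩ := Finset.exists_max_image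
        (Finset.univ.filter fun p : Fin n × Fin n => ¬ Done (M : Mat n F) p.2)
        (fun p => ValuationRing.valuation W F ((M : Mat n F) p.1 p.2))
        ⟨(i0, j0), Finset.mem_filter.2 ⟨Finset.mem_univ _, hj0⟩⟩
      have hj : ¬ Done (M : Mat n F) j := (Finset.mem_filter.1 hij).2
      have h0 : (M : Mat n F) i j ≠ 0 := fun e => hi0 (by
        have := hmax (i0, j0) (Finset.mem_filter.2 ⟨Finset.mem_univ _, hj0⟩)
        simpa [e] using this)
      have hd : ∀ k l, ¬ Done (M : Mat n F) l →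
          (M : Mat n F) k l / (M : Mat n F) i j ∈ (algebraMap W F).range := fun k l hl => by
        refine (ValuationRing.mem_integer_iff W F _).1 ?_
        rw [Valuation.mem_integer_iff, map_div₀]
        exact div_le_one_of_le₀ (hmax (k, l) (Finset.mem_filter.2 ⟨Finset.mem_univ _, hl⟩))
          zero_le
      have hs : ∀ k l : Fin n, (Pi.single k 1 : Fin n → F) l ∈ (algebraMap W F).range :=
        fun k l => by
          rw [Pi.single_apply]
          split_ifs
          exacts [one_mem _, zero_mem _]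
      have hc : c i = c j := by_contra fun e => h0 (hM i j e)
      have r1 : ∀ k l, k ≠ l → (l = i → (M : Mat n F) k j = 0) →
          (rowOp (M : Mat n F) i j : Mat n F) k l = 0 := fun k l e h => by
        rw [← Matrix.mul_one (rowOp (M : Mat n F) i j : Mat n F), rowOp_mul, one_apply_ne e]
        by_cases e' : l = i
        · simp [h e']
        · simp [one_apply_ne' e']
      have r2 : ∀ k l, k ≠ l → (k = j → (M : Mat n F) i l = 0) →
          (colOp (M : Mat n F) i j : Mat n F) k l = 0 := fun k l e h => by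
        rw [← Matrix.one_mul (colOp (M : Mat n F) i j : Mat n F), mul_colOp, one_apply_ne e]
        by_cases e' : k = j
        · simp [h e']
        · simp [one_apply_ne e']
      refine ⟨i, j, hj, h0, ⟨trv_mem _ (fun k => ?_) (hs i), fun _ _ h => absurd h (lt_irrefl _),
        fun k l h => r1 k l (fun e => h (congrArg c e)) fun e => hM k j (hc ▸ e ▸ h)⟩,
        ⟨trv_mem _ (hs j) fun l => ?_, fun _ _ h => absurd h (lt_irrefl _),
        fun k l h => r2 k l (fun e => h (congrArg c e)) fun e => hM i l (hc ▸ e ▸ h)⟩⟩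
      · split_ifs
        exacts [zero_mem _, hd k j hj]
      · split_ifs with e
        · exact zero_mem _
        by_cases hl : Done (M : Mat n F) l
        · obtain ⟨p, _, h2, h3⟩ := hl
          rw [h2 i fun e' => h0 (e' ▸ h3 j (Ne.symm e)), zero_div]
          exact zero_mem _
        · exact hd i l hl) σ hσ
  have e : GeneralLinearGroup.map (algebraMap W F) u * σ *
      GeneralLinearGroup.map (algebraMap W F) b = pmat F w * dgU d := by
    ext i j
    rw [h2, pmat_mul_dgU]
  have e2 : GeneralLinearGroup.map (algebraMap W F) (pmat W w) = pmat F w := by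
    ext i j
    simp [pmat, apply_ite (algebraMap W F)]
  have dn : ∀ v : GL (Fin n) W, InL c ((GeneralLinearGroup.map (algebraMap W F) v :
      GL (Fin n) F) : Mat n F) → InL c (v : Mat n W) := fun v hv i j h =>
    IsFractionRing.injective W F ((hv i j h).trans (map_zero _).symm)
  have hw : ∀ j, c (w j) = c j := fun j => by_contra fun h => (d j).ne_zero (by
    have := h1 (w j) j h
    rwa [h2, if_pos rfl] at this)
  refine ⟨u⁻¹ * pmat W w, b⁻¹, d, (dn u hu.2).inv.mul (inL_pmat hw), (dn b hb.2).inv, ?_⟩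
  rw [map_mul, map_inv, map_inv, e2, mul_assoc _ (pmat F w), ← e]
  group

theorem smithB {ι : Type} (c : Fin n → ι) (σ : GL (Fin n) F) (hσ : InL c (σ : Mat n F)) :
    ∃ (k₁ k₂ : GL (Fin n) W) (s : ℕ) (π : Fin s → Fˣ) (a : Fin n → Fin s → ℤ),
    InL c (k₁ : Mat n W) ∧ InL c (k₂ : Mat n W) ∧
    (∀ m : Fin s → ℤ, (∃ v : Wˣ, algebraMap W F v = (∏ j, π j ^ m j : Fˣ)) → m = 0) ∧
    σ = GeneralLinearGroup.map (algebraMap W F) k₁ * dgU (fun i => ∏ j, π j ^ a i j) *
      GeneralLinearGroup.map (algebraMap W F) k₂ := by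
  obtain ⟨k₁, k₂, d, l1, l2, h⟩ := smithB0 (W := W) c σ hσ
  obtain ⟨r, π, a, e, -, h2, h3⟩ := exists_indep (W := W) d
  refine ⟨k₁ * dgU e, k₂, r, π, a, l1.mul (intw_diagonal c _), l2, h2, ?_⟩
  rw [h, map_mul, mul_assoc _ (GeneralLinearGroup.map _ (dgU e))]
  congr 2
  ext i j
  by_cases hij : i = j
  · subst hij
    simp [dgU, h3]
  · simp [dgU, hij]

end smith

end Pool.Agent.GR
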