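import Pool.Agent.P.MP_c1f06d_ag.g.HsDefs
import Pool.Agent.P.MP_c1f06d_ag.g.ZTA
import Pool.Agent.P.MP_c1f06d_ag.r.Cartan
import Pool.Agent.P.MP_c1f06d_ag.r.NS
import Pool.Agent.P.MP_c1f06d_ag.r.UOG

/-! A maximal torus is its own centraliser. -/

open Matrix

universe u

namespace Pool.Agent.GR

theorem lattice_step {n r : ℕ} (χ : Fin n → Fin r → ℤ)
    (hs : Submodule.span ℤ (Set.range χ) = ⊤) (a : Fin n → ℤ) :
    ∃ (s : ℕ) (χ' : Fin n → Fin s → ℤ) (f : (Fin s → ℤ) →+ (Fin r → ℤ) × ℤ),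
      Function.Injective f ∧ Submodule.span ℤ (Set.range χ') = ⊤ ∧
      (∀ i, f (χ' i) = (χ i, a i)) ∧
      (s ≤ r → ∃ a₀ : (Fin r → ℤ) →+ ℤ, ∀ i, a i = a₀ (χ i)) := by
  let v : Fin n → (Fin r → ℤ) × ℤ := fun i => (χ i, a i)
  let L := Submodule.span ℤ (Set.range v)
  have : Module.Finite ℤ L := Module.Finite.span_of_finite ℤ (Set.finite_range v)
  let e := (Module.finBasis ℤ L).equivFun
  let f := L.subtype ∘ₗ e.symm.toLinearMap
  let χ' : Fin n → Fin _ → ℤ := fun i => e ⟨v i, Submodule.subset_span ⟨i, rfl⟩⟩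
  have hf : Function.Injective f := L.injective_subtype.comp e.symm.injective
  have hv : ∀ i, f (χ' i) = v i := fun i => by simp [f, χ']
  refine ⟨_, χ', f.toAddMonoidHom, hf, ?_, hv, fun hle => ?_⟩
  · apply Submodule.map_injective_of_injective hf
    rw [Submodule.map_span, ← Set.range_comp, Submodule.map_top, LinearMap.range_comp,
      LinearEquiv.range, Submodule.map_top, Submodule.range_subtype]
    exact congrArg _ (congrArg _ (funext hv))
  · let p := LinearMap.fst ℤ (Fin r → ℤ) ℤ ∘ₗ f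
    have hp : Function.Surjective p := by
      rw [← LinearMap.range_eq_top, eq_top_iff, ← hs, Submodule.span_le]
      rintro _ ⟨i, rfl⟩
      exact ⟨χ' i, congrArg Prod.fst (hv i)⟩
    have hr : r ≤ Module.finrank ℤ L := by simpa using le_of_fin_surjective ℤ p hp
    have hi : Function.Injective p := by
      have e2 : (Fin r → ℤ) ≃ₗ[ℤ] (Fin (Module.finrank ℤ L) → ℤ) :=
        LinearEquiv.funCongrLeft ℤ ℤ (finCongr (le_antisymm hle hr))
      have := OrzechProperty.injective_of_surjective_endomorphism (e2.toLinearMap ∘ₗ p)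
        (e2.surjective.comp hp)
      exact Function.Injective.of_comp (f := e2) this
    let p' := LinearEquiv.ofBijective p ⟨hi, hp⟩
    refine ⟨(LinearMap.snd ℤ (Fin r → ℤ) ℤ ∘ₗ f ∘ₗ p'.symm.toLinearMap).toAddMonoidHom,
      fun i => ?_⟩
    have : p'.symm (χ i) = χ' i := p'.symm_apply_eq.2 (congrArg Prod.fst (hv i)).symm
    show a i = (f (p'.symm (χ i))).2
    rw [this, hv]

theorem De_all {n : ℕ} {A : Type u} [CommRing A] {a : Fin n → ℤ} {M : Mat n A}
    (h : ∀ i, IsUnit (De a (a i) M)) (m : ℤ) : IsUnit (De a m M) := by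
  classical
  by_cases e : ∃ i, m ≤ a i
  · obtain ⟨i0, h0⟩ := e
    obtain ⟨i, hi, hmin⟩ := Finset.exists_min_image (Finset.univ.filter fun i => m ≤ a i) a
      ⟨i0, Finset.mem_filter.2 ⟨Finset.mem_univ _, h0⟩⟩
    have e1 : ∀ j, m ≤ a j ↔ a i ≤ a j := fun j =>
      ⟨fun hj => hmin j (Finset.mem_filter.2 ⟨Finset.mem_univ _, hj⟩),
        fun hj => (Finset.mem_filter.1 hi).2.trans hj⟩
    have : crn a m M = crn a (a i) M := by
      ext p q
      simp only [crn_apply, e1]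
    rw [De, this]
    exact h i
  · have : crn a m M = 1 := by
      ext p q
      rw [crn_apply, if_neg fun h' => e ⟨p, h'.1⟩]
    rw [De, this, det_one]
    exact isUnit_one

theorem exists_tp {n r : ℕ} {χ : Fin n → Fin r → ℤ} (hs : Submodule.span ℤ (Set.range χ) = ⊤)
    {A : Type u} [CommRing A] (t : Fin n → Aˣ)
    (h : ∀ m : Fin n → ℤ, ∑ i, m i • χ i = 0 → ∏ i, t i ^ m i = 1) :
    ∃ τ, dgU t = tp χ τ := by
  classical
  let φ := Fintype.linearCombination ℤ fun i => Additive.ofMul (t i)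
  let ψ := Fintype.linearCombination ℤ χ
  obtain ⟨σ, hσ⟩ := ψ.exists_rightInverse_of_surjective
    (by rw [Fintype.range_linearCombination, hs])
  have hk : ∀ m, ψ m = 0 → φ m = 0 := fun m hm => by
    have := congrArg Additive.ofMul (h m hm)
    simpa [φ, Fintype.linearCombination_apply] using this
  refine ⟨AddMonoidHom.toMultiplicativeLeft (φ ∘ₗ σ).toAddMonoidHom,
    congrArg dgU (funext fun i => ?_)⟩
  have e1 : ψ (Pi.single i 1) = χ i := by simp [ψ]
  have e2 : φ (Pi.single i 1) = Additive.ofMul (t i) := by simp [φ]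
  have e3 := hk (Pi.single i 1 - σ (χ i))
    (by rw [map_sub, e1, ← LinearMap.comp_apply, hσ, LinearMap.id_apply, sub_self])
  rw [map_sub, e2, sub_eq_zero] at e3
  exact congrArg Additive.toMul e3

namespace HS

variable {k : Type u} [Field k] {n r : ℕ} {H : HS k n} {χ : Fin n → Fin r → ℤ}
  {A A' : Type u} [CommRing A] [Algebra k A] [CommRing A'] [Algebra k A']
  {Γ Γ' : Type} [AddCommGroup Γ] [AddCommGroup Γ']

theorem Fixed.pull {c : Fin n → Γ} {y : H.B →ₐ[k] A} (f : Γ →+ Γ') (hf : Function.Injective f)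
    (h : H.Fixed (fun i => f (c i)) y) : H.Fixed c y := by
  let φ : GA A Γ →ₐ[k] GA A Γ' := AddMonoidAlgebra.mapDomainAlgHom k A f
  have e1 : φ.comp ((IsScalarTower.toAlgHom k A (GA A Γ)).comp y) =
      (IsScalarTower.toAlgHom k A (GA A Γ')).comp y := by
    ext b : 1
    simp [φ, AddMonoidAlgebra.coe_algebraMap]
  have e2 : gm φ (rho A c) = rho A fun i => f (c i) := by
    ext i j : 2
    show φ (diagonal (fun i => ((uu A (c i) : (GA A Γ)ˣ) : GA A Γ)) i j) =
      diagonal (fun i => ((uu A (f (c i)) : (GA A Γ')ˣ) : GA A Γ')) i j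
    by_cases e : i = j
    · simp [e, φ, uu]
    · simp [e]
  unfold Fixed orb at h ⊢
  rw [← e2, ← e1] at h
  exact H.act_inj φ (AddMonoidAlgebra.mapDomain_injective hf) h

theorem Fixed.of_inj {c : Fin n → Γ} {y : H.B →ₐ[k] A} (f : A →ₐ[k] A')
    (hf : Function.Injective f) (h : H.Fixed c (f.comp y)) : H.Fixed c y :=
  (H.fixed_iff c y).2 fun δ hδ b => hf (by
    rw [← H.cf_nat, (H.fixed_iff c _).1 h δ hδ b, map_zero])

theorem exists_maxframe (H : HS k n) : ∃ (γ : GL (Fin n) k) (r : ℕ) (χ : Fin n → Fin r → ℤ),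
    Submodule.span ℤ (Set.range χ) = ⊤ ∧ H.Frame χ (H.act γ⁻¹ H.y0) := by
  classical
  let P : ℕ → Prop := fun r => ∃ (γ : GL (Fin n) k) (χ : Fin n → Fin r → ℤ),
    Submodule.span ℤ (Set.range χ) = ⊤ ∧ H.Fixed χ (H.act γ⁻¹ H.y0)
  have h0 : P 0 := ⟨1, fun _ => 0, Subsingleton.elim _ _, fixed_zero _⟩
  obtain ⟨γ, χ, hs, hf⟩ := Nat.findGreatest_spec (Nat.zero_le n) h0
  refine ⟨γ, _, χ, hs, hf, fun q a hq ha => ?_⟩
  obtain ⟨s, χ', f, f1, f2, f3, f4⟩ := lattice_step χ hs a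
  refine f4 (Nat.le_findGreatest (by simpa using finrank_le_of_span_eq_top f2)
    ⟨γ * q⁻¹, χ', f2, Fixed.pull f f1 ?_⟩)
  have := ((hf.act hq).push (AddMonoidHom.inl _ ℤ)).plus (ha.push (AddMonoidHom.inr _ ℤ))
  rw [_root_.mul_inv_rev, inv_inv, H.act_mul]
  simpa [f3] using this

theorem Frame.extend [IsAlgClosed k] (F0 : H.Frame χ (H.pt k)) (κ : Type u) [Field κ]
    [Algebra k κ] : H.Frame χ (H.pt κ) := by
  refine ⟨H.pt_map (Algebra.ofId k κ) ▸ F0.fix.comp _, fun q a hq ha => ?_⟩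
  let T : Set κ := (Set.range fun p : Fin n × Fin n => (q : Mat n κ) p.1 p.2) ∪
    Set.range fun p : Fin n × Fin n => ((q⁻¹ : GL (Fin n) κ) : Mat n κ) p.1 p.2
  let S := Algebra.adjoin k T
  have : Algebra.FiniteType k S := (Subalgebra.fg_iff_finiteType S).1
    (Subalgebra.fg_def.2 ⟨T, (Set.finite_range _).union (Set.finite_range _), rfl⟩)
  obtain ⟨q', hq'⟩ := exists_gl_sub S q (fun i j => Algebra.subset_adjoin (.inl ⟨(i, j), rfl⟩))
    fun i j => Algebra.subset_adjoin (.inr ⟨(i, j), rfl⟩)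
  obtain ⟨t⟩ := ns_point (Ω := k) S
  have h1 : H.Fixed a (H.act q' (H.pt S)) :=
    Fixed.of_inj S.val Subtype.val_injective (by rwa [H.act_nat, H.pt_map, hq'])
  refine F0.zt (gm t q') a (fun i j h => ?_) (by simpa only [H.act_nat, H.pt_map] using h1.comp t)
  have : (q' : Mat n S) i j = 0 := Subtype.ext ((hq' ▸ hq :) i j h)
  rw [gm_apply, this, map_zero]

theorem zt_val (hF : ∀ (κ : Type u) [Field κ] [Algebra k κ], H.Frame χ (H.pt κ))
    {F : Type u} [Field F] [Algebra k F] (W : ValuationSubring F)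
    (hW : ∀ c, algebraMap k F c ∈ W) {z : GL (Fin n) F} (hz : z ∈ H.G F)
    (hl : InL χ (z : Mat n F)) : ∃ τ : Multiplicative (Fin r → ℤ) →* Fˣ,
      (∀ i j, ((z * (tp χ τ)⁻¹ : GL (Fin n) F) : Mat n F) i j ∈ W) ∧
      ∀ i j, ((tp χ τ * z⁻¹ : GL (Fin n) F) : Mat n F) i j ∈ W := by
  classical
  let : Algebra k W := ((algebraMap k F).codRestrict W.toSubring hW).toAlgebra
  have : IsScalarTower k W F := .of_algebraMap_eq fun _ => rfl
  let ι := IsScalarTower.toAlgHom k W F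
  let ρ : W →ₐ[k] IsLocalRing.ResidueField W :=
    { IsLocalRing.residue W with commutes' := fun _ => rfl }
  obtain ⟨k₁, k₂, s, π, a, l1, l2, hπ, e⟩ := smithB (W := W) χ z hl
  let C : Fin n → (Fin s → ℤ) × (Fin r → ℤ) := fun i => (a i, χ i)
  let π' : Multiplicative ((Fin s → ℤ) × (Fin r → ℤ)) →* Fˣ :=
    (Cartan.chi π).comp (AddMonoidHom.toMultiplicative (AddMonoidHom.fst _ _))
  have e' : z = gm ι k₁ * tp C π' * gm ι k₂ := e
  have e1 : H.act (tp C π') (ι.comp (H.act k₂ (H.pt W))) = ι.comp (H.act k₁⁻¹ (H.pt W)) := by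
    have h : H.act z (H.pt F) = H.pt F := hz
    rw [H.act_nat, H.act_nat, H.pt_map, map_inv, ← H.act_mul]
    conv_rhs => rw [← h, ← H.act_mul, e']
    congr 1
    group
  have e2 : ∀ δ b, (π' (Multiplicative.ofAdd δ) : F) ∉ W →
      H.cf C (ρ.comp (H.act k₂ (H.pt W))) δ b = 0 := fun δ b h => by
    have h1 := Cartan.cf_dg H π' C (ι.comp (H.act k₂ (H.pt W))) δ b
    rw [show (dgU fun i => π' (Multiplicative.ofAdd (C i))) = tp C π' from rfl, e1, H.cf_nat,
      H.cf_nat] at h1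
    rw [H.cf_nat]
    by_contra h2
    obtain ⟨v, hv⟩ := (IsLocalRing.residue_ne_zero_iff_isUnit _).1 h2
    refine h ?_
    have : (π' (Multiplicative.ofAdd δ) : F) =
        ι (H.cf C (H.act k₁⁻¹ (H.pt W)) δ b * (v⁻¹ : Wˣ)) := by
      rw [map_mul, h1, ← hv, mul_right_comm, ← map_mul, Units.mul_inv, map_one, one_mul]
    rw [this]
    exact (H.cf C (H.act k₁⁻¹ (H.pt W)) δ b * (v⁻¹ : Wˣ)).2
  let M0 : AddSubmonoid (Fin s → ℤ) :=
    { carrier := {m | (Cartan.chi π (Multiplicative.ofAdd m) : F) ∈ W}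
      zero_mem' := by simp
      add_mem' := fun {x y} hx hy => by
        show (Cartan.chi π (Multiplicative.ofAdd (x + y)) : F) ∈ W
        rw [ofAdd_add, map_mul, Units.val_mul]
        exact W.mul_mem _ _ hx hy }
  obtain ⟨g, T, hg, hT⟩ := H.exists_supp C
  obtain ⟨w, hw⟩ := gordan M0 (fun m h h' => hπ m ⟨⟨⟨_, h⟩, ⟨_, h'⟩, Subtype.ext (by
      show (_ : F) * _ = 1
      rw [← Units.val_mul, ← map_mul]; simp), Subtype.ext (by
      show (_ : F) * _ = 1
      rw [← Units.val_mul, ← map_mul]; simp)⟩, rfl⟩)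
    {m ∈ Prod.fst '' (T : Set ((Fin s → ℤ) × (Fin r → ℤ))) | m ∈ M0 ∧ m ≠ 0}
    ((T.finite_toSet.image _).subset fun _ h => h.1) fun _ h => h.2
  let M : AddSubmonoid ((Fin s → ℤ) × (Fin r → ℤ)) :=
    { carrier := {δ | δ.2 = 0 ∧ (δ.1 = 0 ∨ 1 ≤ w δ.1)}
      zero_mem' := ⟨rfl, .inl rfl⟩
      add_mem' := by
        rintro x y ⟨x1, x2⟩ ⟨y1, y2⟩
        refine ⟨by simp [x1, y1], ?_⟩
        rcases x2 with x2 | x2 <;> rcases y2 with y2 | y2 <;> simp [x2, y2]
        right; omega }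
  have hq : InL χ ((gm ρ k₂ : GL (Fin n) _) : Mat n (IsLocalRing.ResidueField W)) :=
    fun i j h => by rw [gm_apply, l2 i j h, map_zero]
  have e3 : ρ.comp (H.act k₂ (H.pt W)) = H.act (gm ρ k₂) (H.pt _) := by
    rw [H.act_nat, H.pt_map]
  have e4 : ∀ δ b, δ.2 ≠ 0 → H.cf C (ρ.comp (H.act k₂ (H.pt W))) δ b = 0 := fun δ b h => by
    have := (((hF _).fix.act hq).push (AddMonoidHom.inr (Fin s → ℤ) _)).supp (c := C)
      (AddMonoidHom.mker (AddMonoidHom.snd _ _)) (fun i => sub_self (χ i))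
      (fun i => neg_eq_zero.2 (sub_self (χ i))) 1
      (fun i j h => one_apply_ne fun e => h (by simp [e]))
      (fun i j h => one_apply_ne fun e => h (by simp [e])) δ h b
    rwa [H.act_one, ← e3] at this
  have e5 : ∀ b ∈ (g : Set H.B), ∀ δ, H.cf C (ρ.comp (H.act k₂ (H.pt W))) δ b ∈
      pfam k (IsLocalRing.ResidueField W) (· ∈ M) δ := fun b hb δ h => by
    by_cases h1 : δ ∈ T
    · by_cases h2 : δ.2 = 0
      · refine e2 δ b fun h3 => h ⟨h2, ?_⟩
        by_cases h4 : δ.1 = 0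
        · exact .inl h4
        · exact .inr (hw _ ⟨⟨δ, h1, rfl⟩, h3, h4⟩)
      · exact e4 δ b h2
    · rw [H.cf_eq, hT b hb δ h1, map_zero]
  obtain ⟨p, hp, hp1, -⟩ := H.attr C M (w.comp (AddMonoidHom.fst _ _))
    (fun δ h h0 => h.2.resolve_left fun h1 => h0 (Prod.ext h1 h.1)) _
    fun δ h b => (H.gen (fun h => (h M.zero_mem).elim) (pfam_mul fun _ _ => M.add_mem)
      (pfam_mul fun _ _ => M.add_mem) C _ hg e5 fun b hb δ _ => e5 b hb δ).1 δ b h
  have lp : InL χ (p : Mat n (IsLocalRing.ResidueField W)) := fun i j h =>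
    (sub_eq_zero.1 (hp1 i j (.inl fun h' => h (sub_eq_zero.1 h'.1)))).trans
      (one_apply_ne fun e => h (congrArg χ e))
  rw [e3, ← H.act_mul] at hp
  choose a₀ ha₀ using fun l : Fin s => (hF _).zt (p * gm ρ k₂) (fun i => a i l) (lp.mul hq)
    (hp.push ((Pi.evalAddMonoidHom (fun _ => ℤ) l).comp (AddMonoidHom.fst _ _)))
  let τ := (Cartan.chi π).comp (AddMonoidHom.toMultiplicative (AddMonoidHom.pi a₀))
  have e6 : tp C π' = tp χ τ := congrArg dgU (funext fun i =>
    congrArg (fun m => Cartan.chi π (Multiplicative.ofAdd m)) (funext fun l => ha₀ l i))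
  have e7 : tp χ τ * gm ι k₂ = gm ι k₂ * tp χ τ := Units.ext
    (Intw.diag_mul (a := χ) (b := χ) (fun i j h => by rw [gm_apply, l2 i j h, map_zero])
      fun x => (τ (Multiplicative.ofAdd x) : F))
  have e8 : z * (tp χ τ)⁻¹ = gm ι (k₁ * k₂) := by
    rw [e', e6, mul_assoc (gm ι k₁), e7, map_mul]
    group
  refine ⟨τ, fun i j => ?_, fun i j => ?_⟩
  · rw [e8]
    exact Subtype.prop _
  · rw [show tp χ τ * z⁻¹ = (z * (tp χ τ)⁻¹)⁻¹ by group, e8, ← map_inv]
    exact Subtype.prop _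

theorem zt_dom [IsAlgClosed k] (F0 : H.Frame χ (H.pt k))
    (hs : Submodule.span ℤ (Set.range χ) = ⊤) {O : Type u} [CommRing O] [IsDomain O] [Algebra k O]
    {l : GL (Fin n) O} (hl : l ∈ H.G O) (hL : InL χ (l : Mat n O)) (e : O →ₐ[k] k)
    (he : gm e l = 1) : ∃ τ, l = tp χ τ := by
  classical
  let F := FractionRing O
  let ι := IsScalarTower.toAlgHom k O F
  have hι : Function.Injective ι := IsFractionRing.injective O F
  have key : ∀ x : O, (∀ W : ValuationSubring F, (∀ c, algebraMap k F c ∈ W) → ι x ∈ W) →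
      x = algebraMap k O (e x) := fun x h => by
    obtain ⟨c, hc⟩ := const_of_val (ι x) h
    rw [← ι.commutes] at hc
    rw [← hι hc, e.commutes]
    rfl
  have hv : ∀ W : ValuationSubring F, (∀ c, algebraMap k F c ∈ W) →
      ∃ τ : Multiplicative (Fin r → ℤ) →* Fˣ,
      (∀ i j, ι ((l : Mat n O) i j) * ((τ (Multiplicative.ofAdd (χ j)))⁻¹ : Fˣ) ∈ W) ∧
      ∀ i j, (τ (Multiplicative.ofAdd (χ i)) : F) *
        ι (((l⁻¹ : GL (Fin n) O) : Mat n O) i j) ∈ W := fun W hW => by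
    obtain ⟨τ, h1, h2⟩ := zt_val F0.extend W hW (H.G_map ι hl)
      fun i j h => by rw [gm_apply, hL i j h, map_zero]
    refine ⟨τ, fun i j => ?_, fun i j => ?_⟩
    · have := h1 i j
      rwa [Units.val_mul, show (((tp χ τ)⁻¹ : GL (Fin n) F) : Mat n F) = diagonal _ from rfl,
        mul_diagonal] at this
    · have := h2 i j
      rwa [Units.val_mul, show ((tp χ τ : GL (Fin n) F) : Mat n F) = diagonal _ from rfl,
        diagonal_mul] at this
  have k1 : ∀ i j, (l : Mat n O) i j * ((l⁻¹ : GL (Fin n) O) : Mat n O) j j =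
      (1 : Mat n O) i j := fun i j => by
    rw [key (_ * _) fun W hW => ?_, map_mul, ← gm_apply, ← gm_apply, map_inv, he, inv_one]
    · by_cases h : i = j <;> simp [h, one_apply]
    · obtain ⟨τ, h1, h2⟩ := hv W hW
      have := W.mul_mem _ _ (h1 i j) (h2 j j)
      rwa [mul_assoc, Units.inv_mul_cancel_left, ← map_mul] at this
  let t : Fin n → Oˣ := fun i => Units.mkOfMulEqOne _ _ ((k1 i i).trans (one_apply_eq i))
  have e1 : l = dgU t := Units.ext (Matrix.ext fun i j => by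
    by_cases h : i = j
    · subst h
      exact (diagonal_apply_eq _ i).symm
    · have := k1 i j
      rw [one_apply_ne h] at this
      exact ((t j)⁻¹.mul_left_eq_zero.1 this).trans (diagonal_apply_ne _ h).symm)
  rw [e1]
  refine exists_tp hs t fun m hm => Units.ext ?_
  have e2 : ∀ i, Units.map (e : O →* k) (t i) = 1 := fun i => Units.ext (by
    show e ((l : Mat n O) i i) = 1
    rw [← gm_apply, he]
    exact one_apply_eq i)
  rw [key ((∏ i, t i ^ m i : Oˣ) : O) fun W hW => ?_]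
  · rw [show e ((∏ i, t i ^ m i : Oˣ) : O) = (Units.map (e : O →* k) (∏ i, t i ^ m i) : kˣ)
      from rfl]
    simp [e2]
  · obtain ⟨τ, h1, h2⟩ := hv W hW
    have h3 : ∏ i, (Units.map (ι : O →* F) (t i) * (τ (Multiplicative.ofAdd (χ i)))⁻¹) ^ m i ∈
        W.toSubring.toSubmonoid.units := prod_mem fun i _ => zpow_mem
          ((Submonoid.mem_units_iff _ _).2 ⟨h1 i i, by
            rw [_root_.mul_inv_rev, inv_inv]
            exact h2 i i⟩) _
    have h4 : ∏ i, τ (Multiplicative.ofAdd (χ i)) ^ m i = 1 := by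
      rw [← map_one τ, ← ofAdd_zero, ← hm, ofAdd_sum, map_prod]
      simp only [ofAdd_zsmul, map_zpow]
    simp only [mul_zpow, Finset.prod_mul_distrib, _root_.inv_zpow, Finset.prod_inv_distrib] at h3
    simp only [h4, inv_one, mul_one] at h3
    simp only [← map_zpow, ← map_prod] at h3
    exact h3.1

theorem zt_univ [IsAlgClosed k] (F0 : H.Frame χ (H.pt k))
    (hs : Submodule.span ℤ (Set.range χ) = ⊤) {O : Type u} [CommRing O] [IsDomain O] [Algebra k O]
    {u : GL (Fin n) O} (hu : u ∈ H.G O)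
    (univ : ∀ (A : Type u) [CommRing A] [Algebra k A], ∀ g ∈ H.G A, ∃ θ : O →ₐ[k] A, gm θ u = g) :
    H.ZT χ := by
  classical
  obtain ⟨μ, hμ⟩ := exists_add_sep (XX χ)
  let a : Fin n → ℤ := fun i => μ (χ i)
  have ha : ∀ {A : Type u} [CommRing A] (M : Mat n A), InL a M ↔ InL χ M := fun M =>
    ⟨fun h i j e => h i j fun e' => e (hμ _ (chi_XX χ i) _ (chi_XX χ j) e'),
      fun h i j e => h i j fun e' => e (congrArg μ e')⟩
  let D := ∏ i, De a (a i) (u : Mat n O)
  let O' := Localization.Away D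
  let ι := IsScalarTower.toAlgHom k O O'
  have hD : ∀ {A : Type u} [CommRing A] [Algebra k A] (θ : O →ₐ[k] A),
      θ D = ∏ i, De a (a i) ((gm θ u : GL (Fin n) A) : Mat n A) := fun θ => by
    rw [map_prod]
    exact Finset.prod_congr rfl fun i _ => (De_map θ.toRingHom a (a i) _).symm
  obtain ⟨um, -, l, hl, up, -, e, h1, h2, h3⟩ := H.lu a
    (H.pt_map (Algebra.ofId k O') ▸ (F0.fix.push μ).comp _) (H.G_map ι hu) (De_all fun i =>
      IsUnit.prod_univ_iff.1 (hD ι ▸ IsLocalization.Away.algebraMap_isUnit D :) i)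
  have key : ∀ (A : Type u) [CommRing A] [Algebra k A], ∀ g ∈ H.G A, InL χ (g : Mat n A) →
      ∃ θ : O' →ₐ[k] A, gm θ l = g := fun A _ _ g hg hL => by
    obtain ⟨θ0, h0⟩ := univ A g hg
    have hP := ((ha _).2 hL).inP
    have hu0 : IsUnit (θ0 D) := by
      rw [hD, h0]
      exact IsUnit.prod_univ_iff.2 fun i => hP.isUnit_De _
    let θ : O' →ₐ[k] A := IsLocalization.Away.liftAlgHom D (f := θ0) hu0
    have e0 : θ.comp ι = θ0 := AlgHom.ext fun x => IsLocalization.Away.lift_eq D hu0 x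
    have e1 : g = gm θ um * gm θ l * gm θ up := by
      rw [← map_mul, ← map_mul, ← e, gm_comp, e0, h0]
    have mU : ∀ (b : Fin n → ℤ) (v : GL (Fin n) O'), InU b (v : Mat n O') →
        InU b ((gm θ v : GL (Fin n) A) : Mat n A) := fun b v hv => inU_iff.2 fun i j h => by
      have := congrArg θ (inU_iff.1 hv i j h)
      rw [Matrix.sub_apply, map_sub, map_zero] at this
      rw [Matrix.sub_apply, gm_apply, ← this]
      by_cases h : i = j <;> simp [h, one_apply]
    have mL : InL a ((gm θ l : GL (Fin n) A) : Mat n A) := fun i j h => by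
      rw [gm_apply, h2 i j h, map_zero]
    have e2 : (gm θ um)⁻¹ = 1 := lu_uniq (g := g) (mU _ _ h1).inv (InU.one _)
      (by rw [e1, mul_assoc, inv_mul_cancel_left]; exact mL.inP.mul (mU _ _ h3).1)
      (by rwa [one_mul])
    rw [inv_eq_one.1 e2, one_mul] at e1
    refine ⟨θ, Units.ext ?_⟩
    rw [← ((ha _).2 hL).lv_eq, e1, Units.val_mul, mL.inP.lv_mul (mU _ _ h3).1, (mU _ _ h3).2,
      mul_one, mL.lv_eq]
  obtain ⟨e0, he⟩ := key k 1 (one_mem _) (InL.one χ)
  have h0 : D ≠ 0 := fun h => by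
    have := (IsLocalization.Away.algebraMap_isUnit (S := O') D).map e0
    exact this.ne_zero ((congrArg (e0.comp ι) h).trans (map_zero _))
  have : IsDomain O' :=
    IsLocalization.isDomain_localization (powers_le_nonZeroDivisors_of_noZeroDivisors h0)
  obtain ⟨τ, hτ⟩ := zt_dom F0 hs hl ((ha _).1 h2) e0 he
  refine ⟨hs, F0.fix, fun A _ _ g hg hL => ?_⟩
  obtain ⟨θ, rfl⟩ := key A g hg hL
  refine ⟨(Units.map (θ : O' →* A)).comp τ, Units.ext (Matrix.ext fun i j => ?_)⟩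
  rw [hτ, gm_apply]
  by_cases h : i = j <;> simp [tp, dgU, h]

/-- A maximal torus is its own centraliser. -/
theorem maxtor [IsAlgClosed k] (H : HS k n) (hp : (H.van k).IsPrime) :
    ∃ (γ : GL (Fin n) k) (r : ℕ) (χ : Fin n → Fin r → ℤ), (H.rb γ).ZT χ := by
  obtain ⟨γ, r, χ, hs, hF⟩ := H.exists_maxframe
  have : IsDomain (H.OG k) := Ideal.Quotient.isDomain _
  refine ⟨γ, r, χ, zt_univ (O := H.OG k) (u := (gm (Algebra.ofId k _) γ)⁻¹ * H.gU k *
    gm (Algebra.ofId k _) γ) ⟨hF.fix, hF.zt⟩ hs ?_ fun A _ _ g hg => ?_⟩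
  · rw [mem_G_rb]
    simpa [mul_assoc] using gU_mem k
  · obtain ⟨θ, hθ⟩ := exists_pt (W := k) ((H.mem_G_rb γ g).1 hg)
    refine ⟨θ, ?_⟩
    rw [map_mul, map_mul, map_inv, hθ, gm_comp,
      Subsingleton.elim (θ.comp _) (Algebra.ofId k A)]
    group

end HS

end Pool.Agent.GR
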