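import Pool.Agent.P.MP_c1f06d_ag.g.GrD

open Pool.Agent.GR AddMonoidAlgebra TensorProduct

universe u

namespace Pool.Agent.RED

variable {S B : Type u} [CommRing S] [CommRing B] [Algebra S B] {M : Type} [AddCommGroup M]
  {δ : B →ₐ[S] GA B M} {ε : B →ₐ[S] S}

/-- The cotangent module at an augmentation of a smooth algebra. -/
theorem exists_cot [Algebra.Smooth S B] (ε : B →ₐ[S] S) :
    ∃ (W : Type u) (_ : AddCommGroup W) (_ : Module S W) (_ : Module.Finite S W)
      (_ : Module.Projective S W) (D : B →ₗ[S] W),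
      (∀ a b, D (a * b) = ε a • D b + ε b • D a) ∧ Submodule.span S (Set.range D) = ⊤ ∧
        ∀ b, ε b = 0 → D b = 0 → b ∈ RingHom.ker ε ^ 2 := by
  let _ : Algebra B S := ε.toRingHom.toAlgebra
  have : IsScalarTower S B S := IsScalarTower.of_algebraMap_eq fun s => (ε.commutes s).symm
  obtain ⟨l, hl⟩ := (Algebra.FormallySmooth.iff_split_injection (R := S) (P := B) (A := S)
    fun s => ⟨algebraMap S B s, ε.commutes s⟩).1 inferInstance
  have h1 : ∀ (b : B) (w : Ω[B⁄S]), (1 : S) ⊗ₜ[B] (b • w) = ε b • (1 : S) ⊗ₜ[B] w := fun b w => by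
    rw [← smul_tmul, smul_tmul']
    rfl
  let D : B →ₗ[S] S ⊗[B] Ω[B⁄S] :=
    { toFun := fun b => 1 ⊗ₜ KaehlerDifferential.D S B b
      map_add' := fun a b => by rw [map_add, tmul_add]
      map_smul' := fun s b => by
        rw [Derivation.map_smul, ← algebraMap_smul B s, h1, ε.commutes]
        rfl }
  refine ⟨_, _, _, inferInstance, inferInstance, D, fun a b => ?_, ?_, fun b hb h => ?_⟩
  · show (1 : S) ⊗ₜ[B] KaehlerDifferential.D S B (a * b) = _
    rw [Derivation.leibniz, tmul_add, h1, h1]
    rfl
  · have h2 : ∀ w : Ω[B⁄S], (1 : S) ⊗ₜ[B] w ∈ Submodule.span S (Set.range D) := fun w => by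
      induction (KaehlerDifferential.span_range_derivation S B).ge (Submodule.mem_top (x := w))
        using Submodule.span_induction with
      | mem w hw =>
        obtain ⟨b, rfl⟩ := hw
        exact Submodule.subset_span ⟨b, rfl⟩
      | zero => rw [tmul_zero]; exact zero_mem _
      | add p q _ _ hp hq => rw [tmul_add]; exact add_mem hp hq
      | smul b p _ hp => rw [h1]; exact Submodule.smul_mem _ _ hp
    refine eq_top_iff.2 fun z _ => ?_
    induction z using TensorProduct.induction_on with
    | zero => exact zero_mem _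
    | add p q hp hq => exact add_mem (hp trivial) (hq trivial)
    | tmul s w =>
      have := Submodule.smul_mem _ s (h2 w)
      rwa [smul_tmul', smul_eq_mul, mul_one] at this
  · have h3 := DFunLike.congr_fun hl (Ideal.toCotangent _ ⟨b, hb⟩)
    rw [LinearMap.comp_apply, KaehlerDifferential.kerCotangentToTensor_toCotangent,
      show (1 : S) ⊗ₜ[B] KaehlerDifferential.D S B b = 0 from h, map_zero] at h3
    exact (Ideal.toCotangent_eq_zero _ _).1 h3.symm

theorem Gr.eps_coeff (h : Gr δ ε) {b : B} (hb : ε b = 0) (m : M) : ε ((δ b).coeff m) = 0 := by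
  by_cases hm : m = 0
  · have h1 := congrArg ε (h.sum b)
    rw [map_finsuppSum, Finsupp.sum_eq_single 0 (fun m _ hm => h.eps b m hm)
      fun _ => map_zero _] at h1
    rw [hm, h1, hb]
  · exact h.eps b m hm

/-- g.Coord -/
theorem Gr.exists_coord [IsLocalRing S] [Algebra.Smooth S B] (h : Gr δ ε) :
    ∃ (n : ℕ) (d : Fin n → M) (x : Fin n → B) (c : Fin n → B →ₗ[S] S), Coord δ ε d x c := by
  classical
  obtain ⟨W, _, _, _, _, D, hD, hs, hk⟩ := exists_cot ε
  have := Module.finitePresentation_of_projective S W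
  have hD1 : ∀ s, D (algebraMap S B s) = 0 := fun s => by
    have h1 := hD 1 1
    rw [mul_one, map_one ε, one_smul, left_eq_add] at h1
    rw [Algebra.algebraMap_eq_smul_one, map_smul, h1, smul_zero]
  have h0 : ∀ b, ε (b - algebraMap S B (ε b)) = 0 := fun b => by
    rw [map_sub, ε.commutes]; exact sub_self _
  let y : B × M → B := fun p => (δ (p.1 - algebraMap S B (ε p.1))).coeff p.2
  obtain ⟨κ, a, e, he⟩ := Module.exists_basis_of_span_of_flat (R := S) (fun p => D (y p)) (by
    rw [eq_top_iff, ← hs, Submodule.span_le]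
    rintro _ ⟨b, rfl⟩
    have h1 := congrArg D (h.sum (b - algebraMap S B (ε b)))
    rw [map_sub D, hD1, sub_zero, map_finsuppSum] at h1
    rw [← h1]
    exact Submodule.sum_mem _ fun m _ => Submodule.subset_span ⟨(b, m), rfl⟩)
  have := Module.Finite.finite_basis e
  obtain ⟨n, ⟨σ⟩⟩ := Finite.exists_equiv_fin κ
  let e' := e.reindex σ
  let x : Fin n → B := fun i => y (a (σ.symm i))
  let c : Fin n → B →ₗ[S] S := fun i => e'.coord i ∘ₗ D
  have hx : ∀ i, D (x i) = e' i := fun i => by rw [Module.Basis.reindex_apply, he]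
  have hom : ∀ i, δ (x i) = single (a (σ.symm i)).2 (x i) := fun i => h.idem _ _
  have eps : ∀ i, ε (x i) = 0 := fun i => h.eps_coeff (h0 _) _
  have dual : ∀ i k, c i (x k) = if i = k then 1 else 0 := fun i k => by
    show e'.coord i (D (x k)) = _
    rw [hx, Module.Basis.coord_apply, Module.Basis.repr_self, Finsupp.single_apply]
    simp only [eq_comm]
  have der : ∀ i p q, c i (p * q) = ε p * c i q + c i p * ε q := fun i p q => by
    show e'.coord i (D (p * q)) = ε p * e'.coord i (D q) + e'.coord i (D p) * ε q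
    rw [hD, map_add, map_smul, map_smul, smul_eq_mul, smul_eq_mul, mul_comm (ε q)]
  have span : ∀ b, b - algebraMap S B (ε b) - ∑ i, c i b • x i ∈ RingHom.ker ε ^ 2 := fun b => by
    refine hk _ ?_ ?_
    · rw [map_sub, h0, map_sum, Finset.sum_eq_zero fun i _ => by rw [map_smul, eps, smul_zero],
        sub_self]
    · rw [map_sub, map_sub, hD1, sub_zero, map_sum, sub_eq_zero]
      refine (e'.sum_repr (D b)).symm.trans (Finset.sum_congr rfl fun i _ => ?_)
      rw [map_smul, hx]
      rfl
  refine ⟨n, fun i => (a (σ.symm i)).2, x, c, hom, eps, dual, der, fun i b m hm => ?_, span⟩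
  have sq : ∀ z ∈ RingHom.ker ε ^ 2, c i ((δ z).coeff m) = 0 := fun z hz => by
    rw [pow_two] at hz
    refine Submodule.mul_induction_on hz (fun p hp q hq => ?_) fun p q hp hq => ?_
    · rw [map_mul, coeff_mul_apply_left, map_finsuppSum]
      exact Finset.sum_eq_zero fun m' _ => (der i _ _).trans (by
        rw [h.eps_coeff hp, h.eps_coeff hq, zero_mul, mul_zero, add_zero])
    · rw [map_add, coeff_add, Finsupp.add_apply, map_add, hp, hq, add_zero]
  have h1 := sq _ (span b)
  have h2 : c i ((δ (algebraMap S B (ε b))).coeff m) = 0 := by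
    rw [δ.commutes]
    show e'.coord i (D ((single 0 (algebraMap S B (ε b)) : GA B M).coeff m)) = 0
    rw [coeff_single, Finsupp.single_apply]
    split_ifs
    · rw [hD1, map_zero]
    · rw [map_zero, map_zero]
  have h3 : c i ((δ (∑ k, c k b • x k)).coeff m) = 0 := by
    rw [map_sum, coeff_sum, Finsupp.finsetSum_apply, map_sum]
    refine Finset.sum_eq_zero fun k _ => ?_
    rw [map_smul, hom, coeff_smul, Finsupp.smul_apply, map_smul, coeff_single,
      Finsupp.single_apply]
    split_ifs with hh
    · rw [dual, if_neg fun e : i = k => hm (by rw [e]; exact hh.symm), smul_zero]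
    · rw [map_zero, smul_zero]
  rwa [map_sub, map_sub, coeff_sub, coeff_sub, Finsupp.sub_apply, Finsupp.sub_apply, map_sub,
    map_sub, h2, h3, sub_zero, sub_zero] at h1

end Pool.Agent.RED
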