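import Pool.Agent.P.MP_c1f06d_ag.g.GrD

open Pool.Agent.GR AddMonoidAlgebra

universe u

namespace Pool.Agent.RED

variable {S B : Type u} [CommRing S] [CommRing B] [Algebra S B] {M : Type} [AddCommGroup M]
  {δ : B →ₐ[S] GA B M} {ε : B →ₐ[S] S}

theorem sec_of_sq {T C : Type u} [CommRing T] [Algebra S T] [CommRing C] [Algebra S C]
    [Algebra.FormallySmooth S C] (f : T →ₐ[S] C) (hf : Function.Surjective f)
    (h : ∀ a b, f a = 0 → f b = 0 → a * b = 0) : ∃ s : C →ₐ[S] T, ∀ y, f (s y) = y :=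
  ⟨Algebra.FormallySmooth.liftOfSurjective (AlgHom.id S C) f hf ⟨2, by
    rw [pow_two, Ideal.zero_eq_bot, eq_bot_iff, Ideal.mul_le]
    exact fun a ha b hb => h a b ha hb⟩,
    DFunLike.congr_fun (Algebra.FormallySmooth.comp_liftOfSurjective _ f hf _)⟩

open MvPolynomial in
/-- A smooth quotient of a polynomial ring by an ideal of order two is the polynomial ring. -/
theorem inj_of_sq {σ : Type} {C : Type u} [CommRing C] [Algebra S C] [Algebra.FormallySmooth S C]
    (φ : MvPolynomial σ S →ₐ[S] C) (hφ : Function.Surjective φ)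
    (hK : ∀ p, φ p = 0 → p ∈ idealOfVars σ S ^ 2) : Function.Injective φ := by
  let K : Ideal (MvPolynomial σ S) := RingHom.ker φ.toRingHom
  have hK1 : K ≤ idealOfVars σ S := fun p hp => Ideal.pow_le_self two_ne_zero (hK p hp)
  let f : (MvPolynomial σ S ⧸ idealOfVars σ S * K) →ₐ[S] C :=
    Ideal.Quotient.liftₐ _ φ fun p hp => (Ideal.mul_le_right hp : p ∈ K)
  have hf : Function.Surjective f := fun y => by
    obtain ⟨p, rfl⟩ := hφ y
    exact ⟨Ideal.Quotient.mk _ p, rfl⟩
  obtain ⟨s, hs0⟩ := sec_of_sq f hf fun a b ha hb => by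
    obtain ⟨a, rfl⟩ := Ideal.Quotient.mk_surjective a
    obtain ⟨b, rfl⟩ := Ideal.Quotient.mk_surjective b
    exact Ideal.Quotient.eq_zero_iff_mem.2 (Ideal.mul_mem_mul (hK1 ha) hb)
  have hs : ∀ p, ∃ k ∈ K, s (φ p) = Ideal.Quotient.mk _ (p + k) := fun p => by
    obtain ⟨r, hr⟩ := Ideal.Quotient.mk_surjective (s (φ p))
    have h1 : φ r = φ p := (congrArg f hr).trans (hs0 _)
    exact ⟨r - p, (map_sub φ r p).trans (sub_eq_zero.2 h1), by rw [add_sub_cancel, hr]⟩
  have h2 : ∀ z ∈ idealOfVars σ S ^ 2, s (φ z) = Ideal.Quotient.mk _ z := fun z hz => by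
    rw [pow_two] at hz
    refine Submodule.mul_induction_on hz (fun p hp q hq => ?_) fun p q hp hq => ?_
    · obtain ⟨k, hk, e⟩ := hs p
      obtain ⟨k', hk', e'⟩ := hs q
      rw [map_mul, map_mul, e, e', ← map_mul, Ideal.Quotient.eq,
        show (p + k) * (q + k') - p * q = p * k' + (q + k') * k by ring]
      exact add_mem (Ideal.mul_mem_mul hp hk') (Ideal.mul_mem_mul (add_mem hq (hK1 hk')) hk)
    · rw [map_add, map_add, map_add, hp, hq]
  have h3 : ∀ n, K ≤ idealOfVars σ S ^ n := fun n => by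
    induction n with
    | zero => simp
    | succ n ih =>
      intro p hp
      have h4 := h2 p (hK p hp)
      rw [show φ p = 0 from hp, map_zero, eq_comm, Ideal.Quotient.eq_zero_iff_mem] at h4
      exact pow_succ' (idealOfVars σ S) n ▸ Ideal.mul_mono_right ih h4
  refine (injective_iff_map_eq_zero φ).2 fun p hp => MvPolynomial.ext _ _ fun m => ?_
  exact (mem_pow_idealOfVars_iff' _ p).1 (h3 _ hp) m (Nat.lt_succ_self _)

open MvPolynomial in
theorem taylor_two {σ : Type} [Fintype σ] [DecidableEq σ] (x : σ → B) (c : σ → B →ₗ[S] S)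
    (h0 : ∀ i, ε (x i) = 0) (dual : ∀ i k, c i (x k) = if i = k then 1 else 0)
    (der : ∀ i a b, c i (a * b) = ε a * c i b + c i a * ε b) (p : MvPolynomial σ S) :
    p - C (ε (aeval x p)) - ∑ i, C (c i (aeval x p)) * X i ∈ idealOfVars σ S ^ 2 := by
  have hX : ∀ i, (X i : MvPolynomial σ S) ∈ idealOfVars σ S := fun i => Ideal.subset_span ⟨i, rfl⟩
  induction p using MvPolynomial.induction_on with
  | C a =>
    have h1 : ∀ i, c i (algebraMap S B a) = 0 := fun i => by
      have h2 := der i 1 1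
      rw [mul_one, map_one ε, one_mul, mul_one, left_eq_add] at h2
      rw [Algebra.algebraMap_eq_smul_one, map_smul, h2, smul_zero]
    simp [h1]
  | add p q hp hq =>
    have h1 := add_mem hp hq
    simp only [map_add, add_mul, Finset.sum_add_distrib]
    refine Eq.mpr (congrArg (· ∈ _) ?_) h1
    ring
  | mul_X p j hp =>
    have h1 : p - C (ε (aeval x p)) ∈ idealOfVars σ S := by
      have h2 := add_mem (Ideal.pow_le_self two_ne_zero hp)
        (Ideal.sum_mem _ fun i (_ : i ∈ Finset.univ) =>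
          Ideal.mul_mem_left _ (C (c i (aeval x p))) (hX i))
      rwa [sub_add_cancel] at h2
    have h2 : ∑ i, C (c i (aeval x (p * X j))) * X i =
        (C (ε (aeval x p)) * X j : MvPolynomial σ S) := by
      rw [Finset.sum_eq_single j (fun i _ hi => by simp [der, dual, h0, hi]) (by simp)]
      simp [der, dual, h0]
    rw [h2, map_mul, map_mul, aeval_X, h0, mul_zero, map_zero, sub_zero, ← sub_mul, pow_two]
    exact Ideal.mul_mem_mul h1 (hX j)

/-- g.Poly -/
theorem Coord.poly (h : Gr δ ε) {n : ℕ} {d : Fin n → M} {x : Fin n → B}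
    {c : Fin n → B →ₗ[S] S} (hc : Coord δ ε d x c) {C : Type u} [CommRing C] [Algebra S C]
    [Algebra.FormallySmooth S C] (q : B →ₐ[S] C) (hq : Function.Surjective q)
    {Λ : AddSubmonoid M} (hΛ : Pos Λ) (h1 : ∀ b, ∀ m ∉ Λ, q ((δ b).coeff m) = 0)
    (h0 : ∀ b, q ((δ b).coeff 0) = algebraMap S C (ε b))
    (hk : ∀ b, q b = 0 → ε b = 0 ∧ ∀ i, d i ∈ Λ → d i ≠ 0 → c i b = 0) :
    Function.Bijective
      (MvPolynomial.aeval (R := S) fun i : {i // d i ∈ Λ ∧ d i ≠ 0} => q (x i)) := by
  classical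
  obtain ⟨l, hl⟩ := hΛ
  let T := (MvPolynomial.aeval (R := S) fun i : {i // d i ∈ Λ ∧ d i ≠ 0} => q (x i)).range
  have key : ∀ (k : ℕ) (m : M), (l m).toNat = k → ∀ b, q ((δ b).coeff m) ∈ T := fun k => by
    induction k using Nat.strong_induction_on with
    | _ k ih =>
    intro m hm b
    by_cases hΛ : m ∈ Λ
    swap
    · rw [h1 b m hΛ]; exact zero_mem _
    by_cases hm0 : m = 0
    · rw [hm0, h0]; exact T.algebraMap_mem _
    have sq : ∀ z ∈ RingHom.ker ε ^ 2, q ((δ z).coeff m) ∈ T := fun z hz => by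
      rw [pow_two] at hz
      refine Submodule.mul_induction_on hz (fun p hp r hr => ?_) fun p r hp hr => ?_
      · rw [map_mul, coeff_mul_apply_left, map_finsuppSum]
        refine Subalgebra.sum_mem _ fun a _ => ?_
        show q ((δ p).coeff a * (δ r).coeff (-a + m)) ∈ T
        have z : ∀ y, ε y = 0 → ∀ a, ¬0 < l a → q ((δ y).coeff a) = 0 := fun y hy a ha => by
          by_cases h2 : a ∈ Λ
          · rw [not_not.1 (mt (hl a h2) ha), h0, hy, map_zero]
          · exact h1 y a h2
        have e : l (-a + m) = -l a + l m := by rw [map_add, map_neg]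
        rw [map_mul]
        by_cases ha : 0 < l a
        · by_cases hb : 0 < l (-a + m)
          · exact mul_mem (ih _ (by omega) a rfl p) (ih _ (by omega) _ rfl r)
          · rw [z r hr _ hb, mul_zero]; exact zero_mem _
        · rw [z p hp _ ha, zero_mul]; exact zero_mem _
      · rw [map_add, coeff_add, Finsupp.add_apply, map_add]; exact add_mem hp hr
    have h2 : (δ (algebraMap S B (ε b))).coeff m = 0 := by
      rw [δ.commutes]
      exact Finsupp.single_eq_of_ne hm0
    have h3 : q ((δ (∑ k, c k b • x k)).coeff m) ∈ T := by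
      rw [map_sum, coeff_sum, Finsupp.finsetSum_apply, map_sum]
      refine Subalgebra.sum_mem _ fun k _ => ?_
      rw [map_smul, hc.hom, coeff_smul, Finsupp.smul_apply, map_smul, coeff_single,
        Finsupp.single_apply]
      split_ifs with hh
      · exact T.smul_mem ⟨MvPolynomial.X ⟨k, hh ▸ hΛ, hh ▸ hm0⟩, MvPolynomial.aeval_X _ _⟩ _
      · rw [map_zero, smul_zero]; exact zero_mem _
    have h4 := add_mem (sq _ (hc.span b)) h3
    rwa [map_sub, map_sub, coeff_sub, coeff_sub, Finsupp.sub_apply, Finsupp.sub_apply, h2,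
      sub_zero, map_sub, sub_add_cancel] at h4
  have hs : Function.Surjective
      (MvPolynomial.aeval (R := S) fun i : {i // d i ∈ Λ ∧ d i ≠ 0} => q (x i)) := fun y => by
    obtain ⟨b, rfl⟩ := hq y
    rw [← h.sum b, map_finsuppSum]
    exact T.sum_mem fun m _ => key _ m rfl b
  refine ⟨inj_of_sq _ hs fun p hp => ?_, hs⟩
  rw [← MvPolynomial.comp_aeval_apply] at hp
  have h5 := taylor_two (ε := ε) (fun i : {i // d i ∈ Λ ∧ d i ≠ 0} => x i) (fun i => c i)
    (fun i => hc.eps i) (fun i k => by rw [hc.dual]; simp only [Subtype.ext_iff])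
    (fun i => hc.der i) p
  rwa [(hk _ hp).1, map_zero, sub_zero, Finset.sum_eq_zero fun i _ => by
    rw [(hk _ hp).2 i i.2.1 i.2.2, map_zero, zero_mul], sub_zero] at h5

end Pool.Agent.RED
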