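import Pool.Agent.P.MP_c1f06d_ag.g.Grd
import Pool.Agent.P.MP_c1f06d_ag.g.Coord
import Pool.Agent.P.MP_c1f06d_ag.g.Poly

open WithConv Pool.Agent.GR TensorProduct AddMonoidAlgebra

universe u

namespace Pool.Agent.RED

variable {R A : Type u} [CommRing R] [CommRing A] [HopfAlgebra R A]
  {S₀ S S' : Type u} [CommRing S₀] [Algebra R S₀] [CommRing S] [Algebra R S] [CommRing S']
  [Algebra R S'] {M : Type} [AddCommGroup M] {t : Pt R A (GA S₀ M)} {j : S₀ →ₐ[R] S}
  {Λ : AddSubmonoid M}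

/-- The ideal of `U_Λ`. -/
def IU (t : Pt R A (GA S₀ M)) (Λ : AddSubmonoid M) : Ideal (S₀ ⊗[R] A) :=
  Ideal.span ({x | ∃ b, ∃ m ∉ Λ, x = (dl t b).coeff m} ∪
    {x | ∃ b, x = (dl t b).coeff 0 - algebraMap S₀ _ (ep R A S₀ b)})

theorem inU_iff_IU {g : Pt R A S} : InU Λ t j g ↔ ∀ b ∈ IU t Λ, fn j g b = 0 := by
  rw [inU_iff_fn]
  refine ⟨fun h => ?_, fun h => ⟨fun b m hm => h _ (Ideal.subset_span (Or.inl ⟨b, m, hm, rfl⟩)),
    fun b => ?_⟩⟩
  · refine (Ideal.span_le (I := RingHom.ker (fn j g))).2 ?_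
    rintro _ (⟨b, m, hm, rfl⟩ | ⟨b, rfl⟩)
    · exact h.1 b m hm
    · show fn j g _ = 0
      rw [map_sub, h.2, fn_algebraMap, sub_self]
  · have := h _ (Ideal.subset_span (Or.inr ⟨b, rfl⟩))
    rwa [map_sub, fn_algebraMap, sub_eq_zero] at this

theorem formallySmooth_IU [Algebra.Smooth R A] (ht : IsHom t) (hΛ : Pos Λ) :
    Algebra.FormallySmooth S₀ ((S₀ ⊗[R] A) ⧸ IU t Λ) := by
  refine Algebra.FormallySmooth.of_comp_surjective fun T _ _ J hJ g => ?_
  let : Algebra R T := ((algebraMap S₀ T).comp (algebraMap R S₀)).toAlgebra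
  have : IsScalarTower R S₀ T := IsScalarTower.of_algebraMap_eq fun _ => rfl
  let jT := IsScalarTower.toAlgHom R S₀ T
  have h1 := inU_iff_IU.2 ((quot_mem (j := (Ideal.Quotient.mkₐ R J).comp jT) (IU t Λ) _).2
    ⟨g.restrictScalars R, AlgHom.ext fun s => g.commutes s, rfl⟩)
  obtain ⟨y, hy, e⟩ := h1.lift ht hΛ _ (Ideal.Quotient.mkₐ_surjective R J)
    ((congrArg (· ^ 2) Ideal.mk_ker).trans hJ)
  obtain ⟨φ, h2, h3⟩ := (quot_mem _ y).1 (inU_iff_IU.1 hy)
  have h4 : (Ideal.Quotient.mkₐ R J).comp φ = g.restrictScalars R :=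
    quot_uniq _ _ _ (by
      rw [AlgHom.comp_assoc, h2]
      exact AlgHom.ext fun s => (g.commutes s).symm) (by rw [← pm_pm, h3, e])
  exact ⟨⟨φ.toRingHom, fun s => AlgHom.congr_fun h2 s⟩, AlgHom.ext fun b => AlgHom.congr_fun h4 b⟩

theorem Coord.chart [Algebra.Smooth R A] (ht : IsHom t) {n : ℕ} {d : Fin n → M}
    {x : Fin n → S₀ ⊗[R] A} {c : Fin n → S₀ ⊗[R] A →ₗ[S₀] S₀}
    (hc : Coord (dl t) (ep R A S₀) d x c) (hΛ : Pos Λ) :
    ∃ X, IsChart t Λ (fun i : {i // d i ∈ Λ ∧ d i ≠ 0} => d i) X := by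
  have := formallySmooth_IU ht hΛ
  have G := ht.gr
  let q := Ideal.Quotient.mkₐ S₀ (IU t Λ)
  have hb := hc.poly G q (Ideal.Quotient.mkₐ_surjective _ _) hΛ
    (fun b m hm => Ideal.Quotient.eq_zero_iff_mem.2 (Ideal.subset_span (Or.inl ⟨b, m, hm, rfl⟩)))
    (fun b => Ideal.Quotient.eq.2 (Ideal.subset_span (Or.inr ⟨b, rfl⟩))) (fun b hb => by
      have hb' : b ∈ IU t Λ := Ideal.Quotient.eq_zero_iff_mem.1 hb
      clear hb
      have c1 : ∀ i, c i 1 = 0 := fun i => by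
        have := hc.der i 1 1
        simpa using this
      induction hb' using Submodule.span_induction with
      | mem y hy =>
        rcases hy with ⟨b, m, hm, rfl⟩ | ⟨b, rfl⟩
        · exact ⟨G.eps b m fun e => hm (e ▸ Λ.zero_mem),
            fun i h1 _ => hc.wt i b m fun e => hm (e ▸ h1)⟩
        · refine ⟨by rw [map_sub, G.eps_zero, AlgHom.commutes]; simp, fun i _ h2 => ?_⟩
          rw [map_sub, hc.wt i b 0 h2.symm, Algebra.algebraMap_eq_smul_one, map_smul, c1]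
          simp
      | zero => simp
      | add y z _ _ hy hz =>
        exact ⟨by rw [map_add, hy.1, hz.1, add_zero],
          fun i h1 h2 => by rw [map_add, hy.2 i h1 h2, hz.2 i h1 h2, add_zero]⟩
      | smul a y _ hy =>
        exact ⟨by rw [smul_eq_mul, map_mul, hy.1, mul_zero],
          fun i h1 h2 => by rw [smul_eq_mul, hc.der, hy.1, hy.2 i h1 h2]; simp⟩)
  let e := AlgEquiv.ofBijective _ hb
  have he : ∀ i, e (MvPolynomial.X i) = q (x i.1) := fun i => MvPolynomial.aeval_X _ i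
  let ψ : S₀ ⊗[R] A →ₐ[S₀] MvPolynomial {i // d i ∈ Λ ∧ d i ≠ 0} S₀ := e.symm.toAlgHom.comp q
  have hψ : ∀ i : {i // d i ∈ Λ ∧ d i ≠ 0}, ψ (x i) = MvPolynomial.X i := fun i =>
    e.symm_apply_eq.2 (he i).symm
  let X := pm (ψ.restrictScalars R) (gU R A S₀)
  have h1 : ∀ (S : Type u) [CommRing S] [Algebra R S] (j : S₀ →ₐ[R] S) s b,
      fn j (xev X j s) b = MvPolynomial.aevalTower j s (ψ b) := fun S _ _ j s b => by
    have hj : ((MvPolynomial.aevalTower j s).comp (ψ.restrictScalars R)).comp (jU R A S₀) = j :=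
      AlgHom.ext fun r => (congrArg _ (ψ.commutes r)).trans (MvPolynomial.aevalTower_C _ _ _)
    have := fn_univ ((MvPolynomial.aevalTower j s).comp (ψ.restrictScalars R))
    rw [hj] at this
    exact AlgHom.congr_fun this b
  have h2 : ∀ (S : Type u) [CommRing S] [Algebra R S] (j : S₀ →ₐ[R] S) s,
      InU Λ t j (xev X j s) := fun S _ _ j s => inU_iff_IU.2 fun b hb => by
    have : q b = 0 := Ideal.Quotient.eq_zero_iff_mem.2 hb
    rw [h1]
    show MvPolynomial.aevalTower j s (e.symm (q b)) = 0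
    rw [this, map_zero, map_zero]
  have h3 : ∀ (S : Type u) [CommRing S] [Algebra R S] (j : S₀ →ₐ[R] S) s i,
      fn j (xev X j s) (x i.1) = s i := fun S _ _ j s i => by
    rw [h1, hψ, MvPolynomial.aevalTower_X]
  have h4 : ∀ (S : Type u) [CommRing S] [Algebra R S] (j : S₀ →ₐ[R] S) g, InU Λ t j g →
      xev X j (fun i => fn j g (x i.1)) = g := fun S _ _ j g hg => by
    obtain ⟨φ, e1, e2⟩ := (quot_mem _ g).1 (inU_iff_IU.1 hg)
    have e3 : ∀ b, fn j g b = φ (q b) := fun b => by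
      rw [← e1, ← e2, pm_pm, ← AlgHom.comp_assoc, fn_univ]
      rfl
    have e4 : MvPolynomial.aevalTower j (fun i : {i // d i ∈ Λ ∧ d i ≠ 0} => fn j g (x i.1)) =
        φ.comp (e.toAlgHom.restrictScalars R) := by
      refine MvPolynomial.algHom_ext' (AlgHom.ext fun r => ?_) fun i => ?_
      · refine (MvPolynomial.aevalTower_C _ _ _).trans ?_
        rw [← e1]
        exact congrArg φ (e.commutes r).symm
      · rw [MvPolynomial.aevalTower_X, e3]
        exact congrArg φ (he i).symm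
    refine pt_ext fun a => ?_
    have := h1 S j (fun i => fn j g (x i.1)) (1 ⊗ₜ a)
    rw [fn_tmul, map_one, one_mul, e4] at this
    rw [this]
    show φ (e (e.symm (q _))) = _
    rw [e.apply_symm_apply, ← e3]
    simp
  refine ⟨X, fun S _ _ j => ⟨fun s _ => h2 S j s, fun s _ s' _ h => funext fun i => ?_,
    fun g hg => ⟨_, trivial, h4 S j g hg⟩⟩, fun S _ _ j => ?_, fun S _ _ j τ s => ?_⟩
  · rw [← h3 S j s i, h, h3]
  · rw [← h4 S j 1 InU.one]
    congr 1
    funext i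
    rw [fn_one, hc.eps, map_zero]
    rfl
  · rw [← h4 S j _ ((h2 S j s).conj ht hΛ (ht.inG_tev τ))]
    congr 1
    funext i
    rw [fn_conj_hom τ _ (hc.hom i.1), h3]

theorem IsChart.reidx {ι κ : Type} {deg : ι → M} {X : Pt R A (MvPolynomial ι S₀)}
    (h : IsChart t Λ deg X) (e : κ ≃ ι) : ∃ Y, IsChart t Λ (fun k => deg (e k)) Y := by
  let Y := pm ((MvPolynomial.rename e.symm).restrictScalars R) X
  have hY : ∀ (S : Type u) [CommRing S] [Algebra R S] (j : S₀ →ₐ[R] S) (s : κ → S),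
      xev Y j s = xev X j (s ∘ e.symm) := fun S _ _ j s => by
    rw [xev, xev, pm_pm]
    congr 2
    ext <;> simp
  refine ⟨Y, fun S _ _ j => ?_, fun S _ _ j => by rw [hY]; exact h.zero S j,
    fun S _ _ j τ s => ?_⟩
  · rw [funext (hY S j)]
    exact (h.bij S j).comp (Equiv.arrowCongr e (Equiv.refl S)).bijective.bijOn_univ
  · rw [hY, hY, h.eqv]
    congr 1
    funext i
    simp

theorem Wts.reidx {ι κ : Type} {deg : ι → M} (h : Wts t deg) (e : κ ≃ ι) :
    Wts t fun k => deg (e k) :=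
  ⟨fun _ => h.1 _, fun Λ hΛ =>
    let ⟨_, hX⟩ := h.2 Λ hΛ
    hX.reidx (e.subtypeEquiv fun _ => Iff.rfl)⟩

theorem exists_wts [Algebra.Smooth R A] [IsLocalRing S₀] (ht : IsHom t) :
    ∃ (n : ℕ) (deg : Fin n → M), Wts t deg := by
  classical
  obtain ⟨n, d, x, c, hc⟩ := ht.gr.exists_coord
  have h : Wts t fun i : {i // d i ≠ 0} => d i := ⟨fun i => i.2, fun Λ hΛ =>
    let ⟨_, hX⟩ := hc.chart ht hΛ
    hX.reidx ((Equiv.subtypeSubtypeEquivSubtypeInter (fun i => d i ≠ 0) fun i => d i ∈ Λ).trans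
      (Equiv.subtypeEquivRight fun _ => and_comm))⟩
  exact ⟨_, _, h.reidx (Fintype.equivFin _).symm⟩

end Pool.Agent.RED
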