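import Pool.Agent.P.MP_c1f06d_ag.g.Grd

open WithConv Pool.Agent.GR TensorProduct

universe u

namespace Pool.Agent.RED

variable {R A : Type u} [CommRing R] [CommRing A] [HopfAlgebra R A]
  {S₀ S S' : Type u} [CommRing S₀] [Algebra R S₀] [CommRing S] [Algebra R S] [CommRing S']
  [Algebra R S'] {M : Type} [AddCommGroup M] {t : Pt R A (GA S₀ M)} {j : S₀ →ₐ[R] S}
  {Λ Λ' : AddSubmonoid M}

/-- The constants of the polynomial ring. -/
noncomputable abbrev jMv (R S₀ : Type u) [CommRing R] [CommRing S₀] [Algebra R S₀] (σ : Type) :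
    S₀ →ₐ[R] MvPolynomial σ S₀ := IsScalarTower.toAlgHom R S₀ (MvPolynomial σ S₀)

/-- The coaction of the torus on affine space with weights `w`. -/
noncomputable def gev (R S₀ : Type u) [CommRing R] [CommRing S₀] [Algebra R S₀] {σ : Type}
    (w : σ → M) : MvPolynomial σ S₀ →ₐ[R] GA (MvPolynomial σ S₀) M :=
  MvPolynomial.aevalTower ((cst R (MvPolynomial σ S₀) M).comp (jMv R S₀ σ))
    fun i => AddMonoidAlgebra.single (w i) (MvPolynomial.X i)

theorem gev_comp {σ : Type} (w : σ → M) :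
    (gev R S₀ w).comp (jMv R S₀ σ) = (cst R (MvPolynomial σ S₀) M).comp (jMv R S₀ σ) :=
  MvPolynomial.aevalTower_comp_toAlgHom _ _

theorem gev_X {σ : Type} (w : σ → M) (i : σ) :
    gev R S₀ w (MvPolynomial.X i) = AddMonoidAlgebra.single (w i) (MvPolynomial.X i) :=
  MvPolynomial.aevalTower_X _ _ _

theorem gev_C {σ : Type} (w : σ → M) (c : S₀) :
    gev R S₀ w (MvPolynomial.C c) = AddMonoidAlgebra.single 0 (MvPolynomial.C c) :=
  MvPolynomial.aevalTower_C _ _ _

theorem gev_monomial {σ : Type} (w : σ → M) (d : σ →₀ ℕ) (c : S₀) :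
    gev R S₀ w (MvPolynomial.monomial d c) =
      AddMonoidAlgebra.single (Finsupp.weight w d) (MvPolynomial.monomial d c) := by
  induction d using Finsupp.induction_linear generalizing c with
  | zero => rw [map_zero]; exact gev_C w c
  | add d d' h h' =>
    rw [← mul_one c, ← MvPolynomial.monomial_mul, map_mul, h, h',
      AddMonoidAlgebra.single_mul_single, map_add]
  | single i n =>
    rw [← MvPolynomial.C_mul_X_pow_eq_monomial, map_mul, map_pow, gev_C, gev_X,
      AddMonoidAlgebra.single_pow, AddMonoidAlgebra.single_mul_single, zero_add,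
      Finsupp.weight_single]

open Classical in
/-- The component of weight `m` of the coaction is the weighted homogeneous component. -/
theorem coeff_gev {σ : Type} (w : σ → M) (P : MvPolynomial σ S₀) (m : M) (d : σ →₀ ℕ) :
    MvPolynomial.coeff d ((gev R S₀ w P).coeff m) =
      if Finsupp.weight w d = m then MvPolynomial.coeff d P else 0 := by
  induction P using MvPolynomial.induction_on' with
  | monomial d' c =>
    rw [gev_monomial, AddMonoidAlgebra.coeff_single, Finsupp.single_apply]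
    by_cases h : d' = d
    · subst h
      split_ifs <;> simp
    · split_ifs <;> simp [MvPolynomial.coeff_monomial, h]
  | add P Q hP hQ =>
    rw [map_add, AddMonoidAlgebra.coeff_add, Finsupp.add_apply, MvPolynomial.coeff_add, hP, hQ,
      MvPolynomial.coeff_add]
    split_ifs <;> simp

/-- A polynomial of weight `m` has only monomials of weight `m`. -/
theorem weight_of_gev {σ : Type} {w : σ → M} {P : MvPolynomial σ S₀} {m : M}
    (h : gev R S₀ w P = AddMonoidAlgebra.single m P) {d : σ →₀ ℕ}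
    (hd : MvPolynomial.coeff d P ≠ 0) : Finsupp.weight w d = m := by
  classical
  have h1 := coeff_gev (R := R) w P m d
  rw [h, AddMonoidAlgebra.coeff_single, Finsupp.single_eq_same] at h1
  by_contra k
  rw [if_neg k] at h1
  exact hd h1

theorem nsmul_eq_self [Module.Free ℤ M] {α : M} (hα : α ≠ 0) {n : ℕ} (h : n • α = α) : n = 1 := by
  have h1 : ((n : ℤ) - 1) • α = 0 := by rw [sub_smul, one_smul, natCast_zsmul, h, sub_self]
  have h2 := (smul_eq_zero.1 h1).resolve_right hα
  omega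

/-- A polynomial of weight `α` in variables of weight `α` is linear. -/
theorem linear_of_gev [Module.Free ℤ M] {σ : Type} [Fintype σ] {α : M} (hα : α ≠ 0)
    {P : MvPolynomial σ S₀} (h : gev R S₀ (fun _ => α) P = AddMonoidAlgebra.single α P) :
    ∃ c : σ → S₀, ∀ (S : Type u) [CommRing S] [Algebra R S] (j : S₀ →ₐ[R] S) (s : σ → S),
      MvPolynomial.aevalTower j s P = ∑ i, j (c i) * s i := by
  have h1 : P ∈ MvPolynomial.homogeneousSubmodule σ S₀ 1 := by
    intro d hd
    refine nsmul_eq_self hα ?_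
    refine Eq.trans ?_ (weight_of_gev h hd)
    simp only [Finsupp.weight_apply, Finsupp.sum, Pi.one_apply, smul_eq_mul, mul_one,
      Finset.sum_smul]
  rw [MvPolynomial.homogeneousSubmodule_one_eq_span_X,
    Submodule.mem_span_range_iff_exists_fun] at h1
  obtain ⟨c, rfl⟩ := h1
  refine ⟨c, fun S _ _ j s => ?_⟩
  simp [MvPolynomial.smul_eq_C_mul]

namespace X

section root

variable {ι : Type} {deg : ι → M} {α β : M} {x y : Pt R A (Polynomial S₀)}

theorem exists_isRoot [Module.Free ℤ M] (ht : IsHom t) (hw : Wts t deg) (i : ι)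
    (h : ∀ k, deg k ∈ ray (deg i) → k = i) : ∃ x, IsRoot t (deg i) x := by
  have hpos := pos_ray (hw.1 i)
  obtain ⟨Y, hY⟩ := hw.2 _ hpos
  let i₀ : {k // deg k ∈ ray (deg i)} := ⟨i, self_mem_ray _⟩
  have hu : ∀ k : {k // deg k ∈ ray (deg i)}, k = i₀ := fun k => Subtype.ext (h k.1 k.2)
  have hdeg : ∀ k : {k // deg k ∈ ray (deg i)}, deg k = deg i := fun k => by rw [hu k]
  let x : Pt R A (Polynomial S₀) :=
    xev Y (IsScalarTower.toAlgHom R S₀ (Polynomial S₀)) fun _ => Polynomial.X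
  have hx : ∀ (S : Type u) [CommRing S] [Algebra R S] (j : S₀ →ₐ[R] S) (a : S),
      cv x j a = xev Y j fun _ => a := by
    intro S _ _ j a
    rw [cv, pm_xev, Polynomial.aevalTower_comp_toAlgHom, Polynomial.aevalTower_X]
  have hb : ∀ (S : Type u) [CommRing S] [Algebra R S] (j : S₀ →ₐ[R] S),
      Set.BijOn (cv x j) Set.univ {g : Pt R A S | InU (ray (deg i)) t j g} := by
    intro S _ _ j
    refine ⟨fun a _ => ?_, fun a _ b _ e => ?_, fun g hg => ?_⟩
    · rw [hx]; exact (hY.bij S j).mapsTo (Set.mem_univ _)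
    · rw [hx, hx] at e
      exact congrFun ((hY.bij S j).injOn (Set.mem_univ _) (Set.mem_univ _) e) i₀
    · obtain ⟨s, -, rfl⟩ := (hY.bij S j).surjOn hg
      exact ⟨s i₀, Set.mem_univ _, by rw [hx]; exact congrArg _ (funext fun k => by rw [hu k])⟩
  have hc : ∀ (S : Type u) [CommRing S] [Algebra R S] (j : S₀ →ₐ[R] S) (a : S),
      cj t j (cv x j a) = cv x ((cst R S M).comp j) (AddMonoidAlgebra.single (deg i) a) := by
    intro S _ _ j a
    rw [hx, hx, hY.cj_xev]
    exact congrArg _ (funext fun k => by rw [hdeg k])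
  have h0 : ∀ (S : Type u) [CommRing S] [Algebra R S] (j : S₀ →ₐ[R] S), cv x j 0 = 1 := by
    intro S _ _ j
    rw [hx]; exact hY.zero S j
  obtain ⟨P, -, hP⟩ := (hb _ (jMv R S₀ (Fin 2))).surjOn
    (InU.mul hpos ((hb _ _).mapsTo (Set.mem_univ (MvPolynomial.X 0)))
      ((hb _ _).mapsTo (Set.mem_univ (MvPolynomial.X 1))))
  have hP1 : gev R S₀ (fun _ => deg i) P = AddMonoidAlgebra.single (deg i) P := by
    refine (hb _ ((cst R _ M).comp (jMv R S₀ (Fin 2)))).injOn (Set.mem_univ _) (Set.mem_univ _) ?_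
    rw [← hc, hP, cj_mul, hc, hc, ← gev_comp fun _ => deg i, ← pm_cv, hP, map_mul, pm_cv, pm_cv,
      gev_X, gev_X]
  obtain ⟨c, hcP⟩ := linear_of_gev (hw.1 i) hP1
  have hm : ∀ (S : Type u) [CommRing S] [Algebra R S] (j : S₀ →ₐ[R] S) (a b : S),
      cv x j (j (c 0) * a + j (c 1) * b) = cv x j a * cv x j b := by
    intro S _ _ j a b
    have e := congrArg (pm (MvPolynomial.aevalTower j ![a, b])) hP
    rw [map_mul, pm_cv, pm_cv, pm_cv, MvPolynomial.aevalTower_comp_toAlgHom, hcP,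
      MvPolynomial.aevalTower_X, MvPolynomial.aevalTower_X, Fin.sum_univ_two] at e
    exact e
  have c0 : c 0 = 1 := by
    have e := hm S₀ (AlgHom.id R S₀) 1 0
    rw [h0, mul_one (cv x _ 1)] at e
    simpa using (hb _ _).injOn (Set.mem_univ _) (Set.mem_univ _) e
  have c1 : c 1 = 1 := by
    have e := hm S₀ (AlgHom.id R S₀) 0 1
    rw [h0, one_mul (cv x _ 1)] at e
    simpa using (hb _ _).injOn (Set.mem_univ _) (Set.mem_univ _) e
  refine ⟨x, hb, fun S _ _ j a b => ?_, fun S _ _ j τ a => ?_⟩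
  · rw [← hm, c0, c1, map_one, one_mul, one_mul]
  · rw [hx, hx, hY.eqv]
    exact congrArg _ (funext fun k => by rw [hdeg k])

theorem IsRoot.scale (h : IsRoot t α x) (c : S₀ˣ) :
    ∃ x', IsRoot t α x' ∧ ∀ (S : Type u) [CommRing S] [Algebra R S] (j : S₀ →ₐ[R] S) (a : S),
      cv x' j a = cv x j (j c * a) := by
  let x' : Pt R A (Polynomial S₀) :=
    cv x (IsScalarTower.toAlgHom R S₀ (Polynomial S₀)) (Polynomial.C (c : S₀) * Polynomial.X)
  have hx : ∀ (S : Type u) [CommRing S] [Algebra R S] (j : S₀ →ₐ[R] S) (a : S),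
      cv x' j a = cv x j (j c * a) := by
    intro S _ _ j a
    rw [cv, pm_cv, Polynomial.aevalTower_comp_toAlgHom, map_mul, Polynomial.aevalTower_C,
      Polynomial.aevalTower_X]
  refine ⟨x', ⟨fun S _ _ j => ⟨fun a _ => ?_, fun a _ b _ e => ?_, fun g hg => ?_⟩,
    fun S _ _ j a b => ?_, fun S _ _ j τ a => ?_⟩, hx⟩
  · rw [hx]; exact (h.bij S j).mapsTo (Set.mem_univ _)
  · rw [hx, hx] at e
    exact (c.isUnit.map j).mul_left_cancel ((h.bij S j).injOn (Set.mem_univ _) (Set.mem_univ _) e)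
  · obtain ⟨a, -, rfl⟩ := (h.bij S j).surjOn hg
    refine ⟨j (c⁻¹ : S₀ˣ) * a, Set.mem_univ _, ?_⟩
    rw [hx, ← mul_assoc, ← map_mul, Units.mul_inv, map_one, one_mul]
  · rw [hx, hx, hx, mul_add, h.add]
  · rw [hx, hx, h.eqv, mul_left_comm]

theorem isRoot_lin [Module.Free ℤ M] (hα : α ≠ 0) (h : IsRoot t α x) (h' : IsRoot t α y) :
    ∃ c : S₀, ∀ (S : Type u) [CommRing S] [Algebra R S] (j : S₀ →ₐ[R] S) (a : S),
      cv y j a = cv x j (j c * a) := by
  obtain ⟨P, -, hP⟩ := (h.bij _ (jMv R S₀ Unit)).surjOn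
    ((h'.bij _ _).mapsTo (Set.mem_univ (MvPolynomial.X ())))
  have hP1 : gev R S₀ (fun _ => α) P = AddMonoidAlgebra.single α P := by
    refine (h.bij _ ((cst R _ M).comp (jMv R S₀ Unit))).injOn (Set.mem_univ _) (Set.mem_univ _) ?_
    rw [← h.cj_cv, hP, h'.cj_cv, ← gev_comp fun _ => α, ← pm_cv, hP, pm_cv, gev_X]
  obtain ⟨c, hcP⟩ := linear_of_gev hα hP1
  refine ⟨c (), fun S _ _ j a => ?_⟩
  have e := congrArg (pm (MvPolynomial.aevalTower j fun _ : Unit => a)) hP
  rw [pm_cv, pm_cv, MvPolynomial.aevalTower_comp_toAlgHom, hcP, MvPolynomial.aevalTower_X,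
    Fintype.sum_unique] at e
  exact e.symm

theorem IsRoot.uniq [Module.Free ℤ M] (hα : α ≠ 0) (h : IsRoot t α x) (h' : IsRoot t α y) :
    ∃ c : S₀ˣ, ∀ (S : Type u) [CommRing S] [Algebra R S] (j : S₀ →ₐ[R] S) (a : S),
      cv y j a = cv x j (j c * a) := by
  obtain ⟨c, hc⟩ := isRoot_lin hα h h'
  obtain ⟨c', hc'⟩ := isRoot_lin hα h' h
  have e := hc' S₀ (AlgHom.id R S₀) 1
  rw [hc] at e
  have e1 : c * c' = 1 := by
    simpa using ((h.bij _ _).injOn (Set.mem_univ _) (Set.mem_univ _) e).symm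
  exact ⟨⟨c, c', e1, (mul_comm _ _).trans e1⟩, hc⟩

/-- Elements `a + b e^m` of the group algebra with `b` in the square zero kernel of `f`. -/
def tanAlg (f : S →ₐ[R] S') (hJ : RingHom.ker (f : S →+* S') ^ 2 = ⊥) (m : M) :
    Subalgebra R (GA S M) where
  carrier := {z | ∃ a b, f b = 0 ∧ z = AddMonoidAlgebra.single 0 a + AddMonoidAlgebra.single m b}
  mul_mem' := by
    rintro _ _ ⟨a, b, hb, rfl⟩ ⟨a', b', hb', rfl⟩
    have h0 : b * b' = 0 := by
      have : b * b' ∈ RingHom.ker (f : S →+* S') ^ 2 := by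
        rw [pow_two]; exact Ideal.mul_mem_mul hb hb'
      rwa [hJ] at this
    refine ⟨a * a', a * b' + b * a', by simp [hb, hb'], ?_⟩
    simp only [add_mul, mul_add, AddMonoidAlgebra.single_mul_single, h0, zero_add, add_zero,
      AddMonoidAlgebra.single_zero, AddMonoidAlgebra.single_add]
    abel
  add_mem' := by
    rintro _ _ ⟨a, b, hb, rfl⟩ ⟨a', b', hb', rfl⟩
    refine ⟨a + a', b + b', by simp [hb, hb'], ?_⟩
    simp only [AddMonoidAlgebra.single_add]
    abel
  algebraMap_mem' r := ⟨algebraMap R S r, 0, map_zero f, by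
    rw [AddMonoidAlgebra.single_zero, add_zero]; rfl⟩

/-- A tangent vector of pure weight `m`, not among the weights, is trivial. -/
theorem Wts.tangent [Module.Free ℤ M] (ht : IsHom t) (hw : Wts t deg) (f : S →ₐ[R] S')
    (hJ : RingHom.ker (f : S →+* S') ^ 2 = ⊥) {g : Pt R A S} (hg : pm f g = 1) {m : M}
    (hm : m ≠ 0) (hU : InU (ray m) t j g)
    (hp : ∀ a, ∀ m' ≠ 0, m' ≠ m → ((cj t j g).ofConv a).coeff m' = 0) (hd : ∀ i, deg i ≠ m) :
    g = 1 := by
  classical
  obtain ⟨Y, hY⟩ := hw.2 _ (pos_ray hm)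
  obtain ⟨s, -, rfl⟩ := (hY.bij S j).surjOn hU
  have h1 : pm (AddMonoidAlgebra.mapAlgHom M f) (cj t j (xev Y j s)) = 1 := by
    rw [pm_cj, hg, cj, map_one, mul_one, mul_inv_cancel]
  have hmem : ∀ a, (cj t j (xev Y j s)).ofConv a ∈ tanAlg f hJ m := by
    intro a
    refine ⟨((cj t j (xev Y j s)).ofConv a).coeff 0, ((cj t j (xev Y j s)).ofConv a).coeff m,
      ?_, ?_⟩
    · rw [← AddMonoidAlgebra.coeff_mapAlgHom, ← pm_apply, h1, one_apply]
      exact Finsupp.single_eq_of_ne hm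
    · refine AddMonoidAlgebra.ext (Finsupp.ext fun k => ?_)
      rw [AddMonoidAlgebra.coeff_add, Finsupp.add_apply, AddMonoidAlgebra.coeff_single,
        AddMonoidAlgebra.coeff_single]
      by_cases k0 : k = 0
      · rw [k0, Finsupp.single_eq_same, Finsupp.single_eq_of_ne hm.symm, add_zero]
      · by_cases km : k = m
        · rw [km, Finsupp.single_eq_same, Finsupp.single_eq_of_ne hm, zero_add]
        · rw [hp a k k0 km, Finsupp.single_eq_of_ne k0, Finsupp.single_eq_of_ne km, add_zero]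
  let g' : Pt R A (tanAlg f hJ m) := toConv (((cj t j (xev Y j s)).ofConv).codRestrict _ hmem)
  let j' : S₀ →ₐ[R] tanAlg f hJ m := ((cst R S M).comp j).codRestrict _ fun a =>
    ⟨j a, 0, map_zero f, by rw [AddMonoidAlgebra.single_zero, add_zero]; rfl⟩
  have e1 : pm (tanAlg f hJ m).val g' = cj t j (xev Y j s) := rfl
  have e2 : (tanAlg f hJ m).val.comp j' = (cst R S M).comp j := rfl
  have hU' : InU (ray m) t j' g' := by
    refine InU.of_inj (tanAlg f hJ m).val Subtype.val_injective ?_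
    rw [e1, e2, hY.cj_xev]
    exact (hY.bij _ _).mapsTo (Set.mem_univ _)
  obtain ⟨s', -, hs'⟩ := (hY.bij _ j').surjOn hU'
  have e3 := congrArg (pm (tanAlg f hJ m).val) hs'
  rw [pm_xev, e1, e2, hY.cj_xev] at e3
  have e4 := (hY.bij _ _).injOn (Set.mem_univ _) (Set.mem_univ _) e3
  have hs : s = 0 := by
    funext k
    obtain ⟨a, b, -, hab⟩ := (s' k).2
    have e5 : AddMonoidAlgebra.single (deg k) (s k) =
        (AddMonoidAlgebra.single 0 a + AddMonoidAlgebra.single m b : GA S M) :=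
      (congrFun e4 k).symm.trans hab
    have e6 := congrArg (fun z : GA S M => z.coeff (deg k)) e5
    simp only [AddMonoidAlgebra.coeff_add, Finsupp.add_apply, AddMonoidAlgebra.coeff_single,
      Finsupp.single_eq_same, Finsupp.single_eq_of_ne (hw.1 k), Finsupp.single_eq_of_ne (hd k),
      add_zero] at e6
    exact e6
  rw [hs]
  exact hY.zero S j

end root

end X

end Pool.Agent.RED

namespace Pool.Agent.RED

alias exists_isRoot := X.exists_isRoot
alias IsRoot.scale := X.IsRoot.scale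
alias IsRoot.uniq := X.IsRoot.uniq
alias Wts.tangent := X.Wts.tangent

end Pool.Agent.RED
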