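import Pool.Agent.P.MP_c1f06d_ag.g.Root

open WithConv Pool.Agent.GR TensorProduct

universe u

namespace Pool.Agent.RED.X

variable {R A : Type u} [CommRing R] [CommRing A] [HopfAlgebra R A]
  {S₀ S S' : Type u} [CommRing S₀] [Algebra R S₀] [CommRing S] [Algebra R S] [CommRing S']
  [Algebra R S'] {M : Type} [AddCommGroup M] {t : Pt R A (GA S₀ M)} {j : S₀ →ₐ[R] S}
  {Λ Λ' : AddSubmonoid M}

section gen

variable {B C T : Type u} [CommRing B] [Algebra R B] [CommRing C] [Algebra R C] [CommRing T]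
  [Algebra R T]

/-- The infinitesimal lifting criterion, for a map of `R`-algebras. -/
theorem cel_smooth (φ : B →ₐ[R] C) (hφ : (φ : B →+* C).FinitePresentation)
    (h : ∀ (T : Type u) [CommRing T] [Algebra R T] (J : Ideal T), J ^ 2 = ⊥ →
      ∀ (f : B →ₐ[R] T) (g : C →ₐ[R] T ⧸ J), g.comp φ = (Ideal.Quotient.mkₐ R J).comp f →
        ∃ g' : C →ₐ[R] T, g'.comp φ = f ∧ (Ideal.Quotient.mkₐ R J).comp g' = g) :
    (φ : B →+* C).Smooth := by
  let : Algebra B C := (φ : B →+* C).toAlgebra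
  have : IsScalarTower R B C := IsScalarTower.of_algebraMap_eq fun r => (φ.commutes r).symm
  have : Algebra.FinitePresentation B C := hφ
  refine (⟨Algebra.FormallySmooth.of_comp_surjective fun T _ _ J hJ g => ?_, inferInstance⟩ :
    Algebra.Smooth B C)
  let : Algebra R T := ((algebraMap B T).comp (algebraMap R B)).toAlgebra
  have : IsScalarTower R B T := IsScalarTower.of_algebraMap_eq fun _ => rfl
  obtain ⟨g', h1, h2⟩ := h T J hJ (IsScalarTower.toAlgHom R B T) (g.restrictScalars R)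
    (AlgHom.ext fun a => g.commutes a)
  exact ⟨⟨g'.toRingHom, fun a => AlgHom.congr_fun h1 a⟩, AlgHom.ext fun b => AlgHom.congr_fun h2 b⟩

theorem cel_epi (φ : B →ₐ[R] C)
    (h : ∀ (D : Type u) [CommRing D] [Algebra R D] (f g : C →ₐ[R] D), f.comp φ = g.comp φ → f = g) :
    @Algebra.IsEpi B C _ _ (φ : B →+* C).toAlgebra := by
  let : Algebra B C := (φ : B →+* C).toAlgebra
  have : IsScalarTower R B C := IsScalarTower.of_algebraMap_eq fun r => (φ.commutes r).symm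
  refine isEpi_of_ext fun D _ _ f g => ?_
  let : Algebra R D := ((algebraMap B D).comp (algebraMap R B)).toAlgebra
  have : IsScalarTower R B D := IsScalarTower.of_algebraMap_eq fun _ => rfl
  have := h D (f.restrictScalars R) (g.restrictScalars R)
    (AlgHom.ext fun a => (f.commutes a).trans (g.commutes a).symm)
  exact AlgHom.ext fun c => AlgHom.congr_fun this c

/-- A ring map compatible with two maps of `R`-algebras is a map of `R`-algebras. -/
theorem cel_alg (φ : B →ₐ[R] C) (ψ : B →ₐ[R] T) (χ : C →+* T) (h : ∀ b, χ (φ b) = ψ b) :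
    ∃ χ' : C →ₐ[R] T, χ'.comp φ = ψ :=
  ⟨⟨χ, fun r => by
    have := h (algebraMap R B r)
    rwa [φ.commutes, ψ.commutes] at this⟩, AlgHom.ext h⟩

end gen

theorem cel_comp_fn (φ : S →ₐ[R] S') (j : S₀ →ₐ[R] S) (g : Pt R A S) :
    φ.comp (fn j g) = fn (φ.comp j) (pm φ g) := by
  refine Algebra.TensorProduct.ext' fun s a => ?_
  simp [fn]

theorem cel_fn_inj {j j' : S₀ →ₐ[R] S} {g g' : Pt R A S} (h : fn j g = fn j' g') :
    j = j' ∧ g = g' :=
  ⟨AlgHom.ext fun s => by simpa [fn] using AlgHom.congr_fun h (s ⊗ₜ 1),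
    pt_ext fun a => by simpa [fn] using AlgHom.congr_fun h (1 ⊗ₜ a)⟩

theorem cel_fn_surj (f : S₀ ⊗[R] A →ₐ[R] S) : ∃ (j : S₀ →ₐ[R] S) (g : Pt R A S), f = fn j g := by
  refine ⟨f.comp Algebra.TensorProduct.includeLeft,
    toConv (f.comp Algebra.TensorProduct.includeRight), ?_⟩
  refine Algebra.TensorProduct.ext' fun s a => ?_
  simp [fn, ← map_mul]

theorem cel_one {l : M →+ ℤ} {z : Pt R A S} (hz : InG ⊥ t j z) : InCell l t j z :=
  ⟨1, z, 1, InU.one, hz, InU.one, by rw [one_mul, mul_one]⟩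

theorem cel_list {l : M →+ ℤ} (f : S →ₐ[R] S') (hJ : RingHom.ker (f : S →+* S') ^ 2 = ⊥)
    (L : List (Pt R A S))
    (h : ∀ x ∈ L, pm f x = 1 ∧ (InU (hs (-l)) t j x ∨ InG ⊥ t j x ∨ InU (hs l) t j x)) :
    ∃ a b c, pm f a = 1 ∧ pm f b = 1 ∧ InU (hs (-l)) t j a ∧ InG ⊥ t j b ∧ InU (hs l) t j c ∧
      L.prod = a * b * c := by
  induction L with
  | nil => exact ⟨1, 1, 1, map_one _, map_one _, InU.one, InG.one, InU.one, by simp⟩
  | cons x L ih =>
    obtain ⟨a, b, c, ha, hb, h1, h2, h3, e⟩ := ih fun y hy => h y (List.mem_cons_of_mem _ hy)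
    obtain ⟨hx, hx'⟩ := h x List.mem_cons_self
    rw [List.prod_cons, e]
    rcases hx' with h4 | h4 | h4
    · exact ⟨x * a, b, c, by rw [map_mul, hx, ha, one_mul], hb, h4.mul (pos_hs _) h1, h2, h3,
        by simp only [mul_assoc]⟩
    · refine ⟨a, x * b, c, ha, by rw [map_mul, hx, hb, one_mul], h1, h4.mul h2, h3, ?_⟩
      rw [← mul_assoc, ← mul_assoc, tangent_comm f hJ hx ha, ← mul_assoc]
    · refine ⟨a, b, x * c, ha, hb, h1, h2, h4.mul (pos_hs _) h3, ?_⟩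
      rw [← mul_assoc, tangent_comm f hJ hx (by rw [map_mul, ha, hb, one_mul]), mul_assoc]

section cell

variable {ι : Type} [Finite ι] {deg : ι → M} {l : M →+ ℤ} [Module.Free ℤ M] [Algebra.Smooth R A]

theorem InCell.lift (ht : IsHom t) (hw : Wts t deg) (hl : ∀ i, l (deg i) ≠ 0) (f : S →ₐ[R] S')
    (hJ : RingHom.ker (f : S →+* S') ^ 2 = ⊥) (hf : Function.Surjective f) {g : Pt R A S}
    (h : InCell l t (f.comp j) (pm f g)) : InCell l t j g := by
  obtain ⟨v', z', u', hv', hz', hu', e⟩ := h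
  obtain ⟨v, hv, rfl⟩ := InU.lift ht (pos_hs _) f hf hJ hv'
  obtain ⟨z, hz, rfl⟩ := InG.lift ht f hf hJ hz'
  obtain ⟨u, hu, rfl⟩ := InU.lift ht (pos_hs _) f hf hJ hu'
  have hn : pm f (v⁻¹ * g * u⁻¹ * z⁻¹) = 1 := by
    rw [map_mul, map_mul, map_mul, map_inv, map_inv, map_inv, e]
    group
  obtain ⟨s, n, h1, h2, h3, h4, h5⟩ := tangent_split (j := j) ht f hJ hn
  obtain ⟨a, b, c, -, -, ha, hb, hc, e'⟩ := cel_list (t := t) (j := j) (l := l) f hJ
    (s.toList.map n) (by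
      intro x hx
      obtain ⟨m, -, rfl⟩ := List.mem_map.1 hx
      refine ⟨h1 m, ?_⟩
      by_cases hm : m = 0
      · exact Or.inr (Or.inl (hm ▸ h2))
      rcases lt_trichotomy (l m) 0 with h6 | h6 | h6
      · exact Or.inl (h3 m hm _ (Or.inr (by rw [AddMonoidHom.neg_apply]; omega)))
      · rw [Wts.tangent ht hw f hJ (h1 m) hm (h3 m hm _ (self_mem_ray m)) (h4 m)
          fun i hi => hl i (by rw [hi, h6])]
        exact Or.inl InU.one
      · exact Or.inr (Or.inr (h3 m hm _ (Or.inr h6))))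
  refine ⟨v * a, b * z, z⁻¹ * c * z⁻¹⁻¹ * u, hv.mul (pos_hs _) ha, hb.mul hz,
    (InU.conj ht (pos_hs _) hz.inv hc).mul (pos_hs _) hu, ?_⟩
  have e2 : g = v * (v⁻¹ * g * u⁻¹ * z⁻¹) * z * u := by group
  rw [e2, h5, e']
  group

theorem exists_repCell (ht : IsHom t) (hw : Wts t deg) :
    ∃ (C : Type u) (_ : CommRing C) (_ : Algebra R C) (jC : S₀ →ₐ[R] C) (u : Pt R A C),
      Rep (fun _ _ _ j g => InCell l t j g) jC u := by
  obtain ⟨Z, _, _, jZ, uZ, hZ⟩ := exists_repZ ht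
  obtain ⟨X, hX⟩ := hw.2 (hs (-l)) (pos_hs _)
  obtain ⟨Y, hY⟩ := hw.2 (hs l) (pos_hs _)
  let C := MvPolynomial ({i // deg i ∈ hs (-l)} ⊕ {i // deg i ∈ hs l}) Z
  let c : Z →ₐ[R] C := IsScalarTower.toAlgHom R Z C
  have hp : ∀ (S : Type u) [CommRing S] [Algebra R S] (φ : C →ₐ[R] S),
      pm φ (xev X (c.comp jZ) (fun i => MvPolynomial.X (Sum.inl i)) * pm c uZ *
        xev Y (c.comp jZ) fun i => MvPolynomial.X (Sum.inr i)) =
      xev X (φ.comp (c.comp jZ)) (fun i => φ (MvPolynomial.X (Sum.inl i))) * pm (φ.comp c) uZ *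
        xev Y (φ.comp (c.comp jZ)) fun i => φ (MvPolynomial.X (Sum.inr i)) := by
    intro S _ _ φ
    rw [map_mul, map_mul, pm_xev, pm_xev, pm_pm]
  have hz : ∀ (S : Type u) [CommRing S] [Algebra R S] (φ : C →ₐ[R] S),
      InG ⊥ t (φ.comp (c.comp jZ)) (pm (φ.comp c) uZ) := fun S _ _ φ =>
    (hZ.mem S _ _).2 ⟨φ.comp c, rfl, rfl⟩
  refine ⟨C, inferInstance, inferInstance, c.comp jZ,
    xev X (c.comp jZ) (fun i => MvPolynomial.X (Sum.inl i)) * pm c uZ *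
      xev Y (c.comp jZ) fun i => MvPolynomial.X (Sum.inr i), fun S _ _ j g => ⟨?_, ?_⟩,
    fun S _ _ φ φ' h1 h2 => ?_, ?_⟩
  · rintro ⟨v, z, u, hv, hz, hu, rfl⟩
    obtain ⟨a, -, rfl⟩ := (hX.bij S j).surjOn hv
    obtain ⟨b, -, rfl⟩ := (hY.bij S j).surjOn hu
    obtain ⟨ψ, rfl, rfl⟩ := (hZ.mem S j z).1 hz
    have e : (MvPolynomial.aevalTower ψ (Sum.elim a b) : C →ₐ[R] S).comp c = ψ :=
      AlgHom.ext fun x => MvPolynomial.aevalTower_toAlgHom _ _ x
    refine ⟨MvPolynomial.aevalTower ψ (Sum.elim a b), by rw [← AlgHom.comp_assoc, e], ?_⟩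
    rw [hp, ← AlgHom.comp_assoc, e]
    simp only [C, MvPolynomial.aevalTower_X, Sum.elim_inl, Sum.elim_inr]
  · rintro ⟨φ, rfl, rfl⟩
    exact ⟨_, _, _, (hX.bij S _).mapsTo (Set.mem_univ _), hz S φ,
      (hY.bij S _).mapsTo (Set.mem_univ _), hp S φ⟩
  · have h3 := hz S φ'
    rw [hp, hp, ← h1] at h2
    rw [← h1] at h3
    obtain ⟨e1, e2, e3⟩ := cell_uniq ht ((hX.bij S _).mapsTo (Set.mem_univ _)) (hz S φ)
      ((hY.bij S _).mapsTo (Set.mem_univ _)) ((hX.bij S _).mapsTo (Set.mem_univ _)) h3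
      ((hY.bij S _).mapsTo (Set.mem_univ _)) h2
    have e4 := (hX.bij S _).injOn (Set.mem_univ _) (Set.mem_univ _) e1
    have e5 := (hY.bij S _).injOn (Set.mem_univ _) (Set.mem_univ _) e3
    refine MvPolynomial.algHom_ext' (hZ.uniq S _ _ h1 e2) ?_
    rintro (i | i)
    exacts [congrFun e4 i, congrFun e5 i]
  · exact (RingHom.finitePresentation_algebraMap.2 inferInstance :
      (algebraMap Z C).FinitePresentation).comp hZ.fp

/-- The cell is open: any ring representing it is a smooth epimorphism. -/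
theorem Rep.cell_smooth (ht : IsHom t) (hw : Wts t deg) (hl : ∀ i, l (deg i) ≠ 0)
    {C : Type u} [CommRing C] [Algebra R C] {jC : S₀ →ₐ[R] C} {u : Pt R A C}
    (h : Rep (fun _ _ _ j g => InCell l t j g) jC u) :
    (fn jC u : S₀ ⊗[R] A →+* C).Smooth := by
  refine cel_smooth (fn jC u) ?_ fun T _ _ J hJ f g e => ?_
  · refine RingHom.FinitePresentation.of_comp_finiteType (algebraMap S₀ (S₀ ⊗[R] A)) ?_
      (RingHom.finiteType_algebraMap.2 inferInstance)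
    have e : (fn jC u : S₀ ⊗[R] A →+* C).comp (algebraMap S₀ (S₀ ⊗[R] A)) = (jC : S₀ →+* C) :=
      RingHom.ext fun s => by simp [fn]
    rw [e]
    exact h.fp
  · obtain ⟨j, x, rfl⟩ := cel_fn_surj f
    rw [cel_comp_fn, cel_comp_fn] at e
    obtain ⟨e1, e2⟩ := cel_fn_inj e
    have hk : RingHom.ker (Ideal.Quotient.mkₐ R J : T →+* T ⧸ J) ^ 2 = ⊥ := by
      rw [← hJ]
      exact congrArg (· ^ 2) (Ideal.mk_ker (I := J))
    obtain ⟨g', h1, h2⟩ := (h.mem T j x).1 (InCell.lift ht hw hl (Ideal.Quotient.mkₐ R J) hk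
      (Ideal.Quotient.mkₐ_surjective R J) ((h.mem _ _ _).2 ⟨g, e1, e2⟩))
    refine ⟨g', by rw [cel_comp_fn, h1, h2], h.uniq _ _ _ ?_ ?_⟩
    · rw [AlgHom.comp_assoc, h1, e1]
    · rw [← pm_pm, h2, e2]

omit [Algebra.Smooth R A] in
theorem cel_rep_epi
    {P : ∀ (S : Type u) [CommRing S] [Algebra R S], (S₀ →ₐ[R] S) → Pt R A S → Prop}
    {C : Type u} [CommRing C] [Algebra R C] {jC : S₀ →ₐ[R] C} {u : Pt R A C} (h : Rep P jC u) :
    @Algebra.IsEpi (S₀ ⊗[R] A) C _ _ (fn jC u : S₀ ⊗[R] A →+* C).toAlgebra :=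
  cel_epi (fn jC u) fun D _ _ f g e => by
    rw [cel_comp_fn, cel_comp_fn] at e
    exact h.uniq D f g (cel_fn_inj e).1 (cel_fn_inj e).2

omit [Algebra.Smooth R A] in
theorem cel_rep_mem
    {P : ∀ (S : Type u) [CommRing S] [Algebra R S], (S₀ →ₐ[R] S) → Pt R A S → Prop}
    {C : Type u} [CommRing C] [Algebra R C] {jC : S₀ →ₐ[R] C} {u : Pt R A C} (h : Rep P jC u)
    {g : Pt R A S} (χ : C →+* S) (e : ∀ b, χ (fn jC u b) = fn j g b) : P S j g := by
  obtain ⟨χ', e'⟩ := cel_alg (fn jC u) (fn j g) χ e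
  rw [cel_comp_fn] at e'
  exact (h.mem S j g).2 ⟨χ', cel_fn_inj e'⟩

theorem inCell_of_points (ht : IsHom t) (hw : Wts t deg) (hl : ∀ i, l (deg i) ≠ 0) (g : Pt R A S)
    (h : ∀ m : Ideal S, m.IsMaximal → ∃ (L : Type u) (_ : CommRing L) (_ : Nontrivial L)
      (_ : Algebra R L) (f : S →ₐ[R] L), (∀ x ∈ m, f x = 0) ∧ InCell l t (f.comp j) (pm f g)) :
    InCell l t j g := by
  obtain ⟨C, _, _, jC, u, hC⟩ := exists_repCell (l := l) ht hw
  let : Algebra (S₀ ⊗[R] A) C := (fn jC u : S₀ ⊗[R] A →+* C).toAlgebra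
  let : Algebra (S₀ ⊗[R] A) S := (fn j g : S₀ ⊗[R] A →+* S).toAlgebra
  have : Algebra.Smooth (S₀ ⊗[R] A) C := Rep.cell_smooth ht hw hl hC
  have := cel_rep_epi hC
  obtain ⟨ψ⟩ := lift_of_points (A := S₀ ⊗[R] A) (B := C) S fun m hm => by
    obtain ⟨L, _, _, _, f, h1, h2⟩ := h m hm
    obtain ⟨φ, h3, h4⟩ := (hC.mem L _ _).1 h2
    refine ⟨L, inferInstance, inferInstance, f, φ, h1, fun a => ?_⟩
    have e : f.comp (fn j g) = φ.comp (fn jC u) := by rw [cel_comp_fn, cel_comp_fn, h3, h4]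
    exact AlgHom.congr_fun e a
  exact cel_rep_mem hC (ψ : C →+* S) ψ.commutes

theorem inCell_generic (ht : IsHom t) (hw : Wts t deg) (hl : ∀ i, l (deg i) ≠ 0)
    [IsDomain (S₀ ⊗[R] A)] {F : Type u} [Field F] [Algebra R F] (j : S₀ →ₐ[R] F) (g : Pt R A F)
    (hg : Function.Injective (fn j g)) : InCell l t j g := by
  obtain ⟨C, _, _, jC, u, hC⟩ := exists_repCell (l := l) ht hw
  let : Algebra (S₀ ⊗[R] A) C := (fn jC u : S₀ ⊗[R] A →+* C).toAlgebra
  have : Algebra.Smooth (S₀ ⊗[R] A) C := Rep.cell_smooth ht hw hl hC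
  have := cel_rep_epi hC
  obtain ⟨φ, -⟩ := (hC.mem F j 1).1 (cel_one InG.one)
  have : Nontrivial C := (φ : C →+* F).domain_nontrivial
  obtain ⟨ψ, -⟩ := exists_inj_frac (A := S₀ ⊗[R] A) (B := C) (FractionRing (S₀ ⊗[R] A))
  have hg' : Function.Injective (fn j g : S₀ ⊗[R] A →+* F) := hg
  refine cel_rep_mem hC ((IsFractionRing.lift hg' : FractionRing (S₀ ⊗[R] A) →+* F).comp
    (ψ : C →+* FractionRing (S₀ ⊗[R] A))) fun b => ?_
  exact (congrArg (IsFractionRing.lift hg' : FractionRing (S₀ ⊗[R] A) →+* F)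
    (ψ.commutes b)).trans (IsFractionRing.lift_algebraMap hg' b)

theorem Rep.isDomain_Z (ht : IsHom t) (hw : Wts t deg) [IsDomain (S₀ ⊗[R] A)] [Nontrivial S₀]
    {C : Type u} [CommRing C] [Algebra R C] {jC : S₀ →ₐ[R] C} {u : Pt R A C}
    (h : Rep (fun _ _ _ j g => InG ⊥ t j g) jC u) : IsDomain C := by
  classical
  obtain ⟨l, hl⟩ : ∃ l : M →+ ℤ, ∀ i, l (deg i) ≠ 0 := by
    rcases isEmpty_or_nonempty ι with _ | ⟨⟨i₀⟩⟩
    · exact ⟨0, fun i => isEmptyElim i⟩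
    · have := Fintype.ofFinite ι
      obtain ⟨l, -, hl⟩ := exists_generic (Finset.univ.image deg) (fun m hm => by
        obtain ⟨i, -, rfl⟩ := Finset.mem_image.1 hm
        exact hw.1 i) (hw.1 i₀)
      exact ⟨l, fun i => hl _ (Finset.mem_image_of_mem _ (Finset.mem_univ i))⟩
  obtain ⟨D, _, _, jD, w, hD⟩ := exists_repCell (l := l) ht hw
  let : Algebra (S₀ ⊗[R] A) D := (fn jD w : S₀ ⊗[R] A →+* D).toAlgebra
  have : Algebra.Smooth (S₀ ⊗[R] A) D := Rep.cell_smooth ht hw hl hD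
  have := cel_rep_epi hD
  obtain ⟨φ, -⟩ := (hD.mem S₀ (AlgHom.id R S₀) 1).1 (cel_one InG.one)
  have : Nontrivial D := (φ : D →+* S₀).domain_nontrivial
  have : IsDomain D := isDomain_of_flat_epi (A := S₀ ⊗[R] A)
  obtain ⟨v, z, v', hv, hz, hv', e⟩ := (hD.mem D jD w).2 ⟨AlgHom.id R D, rfl, rfl⟩
  obtain ⟨a, ha, rfl⟩ := (h.mem D jD z).1 hz
  have hu : InG ⊥ t jC u := (h.mem C jC u).2 ⟨AlgHom.id R C, rfl, rfl⟩
  obtain ⟨b, hb, hb'⟩ := (hD.mem C jC u).1 (cel_one hu)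
  have h1 := hv.map b
  have h2 := hz.map b
  have h3 := hv'.map b
  rw [hb] at h1 h2 h3
  have e1 := (cell_uniq ht h1 h2 h3 InU.one hu InU.one (by
    rw [← map_mul, ← map_mul, ← e, hb', one_mul, mul_one])).2.1
  have e2 : b.comp a = AlgHom.id R C :=
    h.uniq C _ _ (by rw [AlgHom.comp_assoc, ha, hb, AlgHom.id_comp]) e1
  exact (Function.LeftInverse.injective (g := b) fun x => AlgHom.congr_fun e2 x).isDomain
    (a : C →+* D)

end cell

end Pool.Agent.RED.X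

namespace Pool.Agent.RED

alias InCell.lift := X.InCell.lift
alias exists_repCell := X.exists_repCell
alias Rep.cell_smooth := X.Rep.cell_smooth
alias inCell_of_points := X.inCell_of_points
alias inCell_generic := X.inCell_generic
alias Rep.isDomain_Z := X.Rep.isDomain_Z

end Pool.Agent.RED
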