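import Pool.Agent.P.MP_c1f06d_ag.g.GDefs

/-! Transport of the graded notions along lattice isomorphisms and conjugation. -/

open WithConv Pool.Agent.GR
open scoped TensorProduct

universe u

namespace Pool.Agent.RED.Au

variable {R A : Type u} [CommRing R] [CommRing A] [HopfAlgebra R A]
  {S₀ S S' : Type u} [CommRing S₀] [Algebra R S₀] [CommRing S] [Algebra R S] [CommRing S']
  [Algebra R S'] {M N : Type} [AddCommGroup M] [AddCommGroup N]

theorem pext {g g' : Pt R A S} (h : ∀ a, g.ofConv a = g'.ofConv a) : g = g' :=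
  WithConv.ext (AlgHom.ext h)

theorem pinj (f : S →ₐ[R] S') (hf : Function.Injective f) :
    Function.Injective (pm f : Pt R A S → Pt R A S') := fun _ _ h =>
  pext fun a => hf (congrArg (fun g : Pt R A S' => g.ofConv a) h)

/-- A point as an element of the convolution algebra. -/
noncomputable def lin (c : Pt R A S) : WithConv (A →ₗ[R] S) := toConv c.ofConv.toLinearMap

theorem lin_mul (c c' : Pt R A S) : lin (c * c') = lin c * lin c' := AlgHom.toLinearMap_convMul c c'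

theorem lin_one : lin (1 : Pt R A S) = 1 := rfl

/-- The coefficient of degree `m` as a linear map. -/
noncomputable def cfm (R S : Type u) [CommRing R] [CommRing S] [Algebra R S] (m : M) :
    GA S M →ₗ[R] S where
  toFun f := f.coeff m
  map_add' _ _ := rfl
  map_smul' _ _ := rfl

/-- The component of degree `m` of a point over the group algebra. -/
noncomputable def cfL (y : Pt R A (GA S M)) (m : M) : WithConv (A →ₗ[R] S) :=
  toConv (cfm R S m ∘ₗ y.ofConv.toLinearMap)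

theorem cfL_apply (y : Pt R A (GA S M)) (m : M) (a : A) :
    (cfL y m).ofConv a = (y.ofConv a).coeff m := rfl

theorem cst_apply (s : S) : cst R S M s = AddMonoidAlgebra.single 0 s := rfl

theorem cfL_cst_mul (c : Pt R A S) (y : Pt R A (GA S M)) (m : M) :
    cfL (pm (cst R S M) c * y) m = lin c * cfL y m := by
  refine WithConv.ext (LinearMap.ext fun a => ?_)
  rw [cfL_apply, RG.pt_mul_apply, LinearMap.convMul_apply]
  generalize Coalgebra.comul (R := R) a = z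
  induction z with
  | zero => simp
  | add a b ha hb => simp only [map_add, AddMonoidAlgebra.coeff_add, Finsupp.add_apply, ha, hb]
  | tmul a b =>
    simp [lin, cfL_apply]

theorem cfL_mul_cst (c : Pt R A S) (y : Pt R A (GA S M)) (m : M) :
    cfL (y * pm (cst R S M) c) m = cfL y m * lin c := by
  refine WithConv.ext (LinearMap.ext fun a => ?_)
  rw [cfL_apply, RG.pt_mul_apply, LinearMap.convMul_apply]
  generalize Coalgebra.comul (R := R) a = z
  induction z with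
  | zero => simp
  | add a b ha hb => simp only [map_add, AddMonoidAlgebra.coeff_add, Finsupp.add_apply, ha, hb]
  | tmul a b =>
    simp [lin, cfL_apply]

theorem inG_iff {Λ : AddSubmonoid M} {t : Pt R A (GA S₀ M)} {j : S₀ →ₐ[R] S} {g : Pt R A S} :
    InG Λ t j g ↔ ∀ m ∉ Λ, cfL (cj t j g) m = 0 :=
  ⟨fun h m hm => WithConv.ext (LinearMap.ext fun a => h a m hm),
    fun h a m hm => congrArg (fun z : WithConv (A →ₗ[R] S) => z.ofConv a) (h m hm)⟩

theorem inU_iff {Λ : AddSubmonoid M} {t : Pt R A (GA S₀ M)} {j : S₀ →ₐ[R] S} {g : Pt R A S} :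
    InU Λ t j g ↔ InG Λ t j g ∧ cfL (cj t j g) 0 = 1 :=
  and_congr_right fun _ => ⟨fun h => WithConv.ext (LinearMap.ext h),
    fun h a => congrArg (fun z : WithConv (A →ₗ[R] S) => z.ofConv a) h⟩

/-- The torus conjugated by `g`. -/
noncomputable def cg (g : Pt R A S₀) (t : Pt R A (GA S₀ M)) : Pt R A (GA S₀ M) :=
  pm (cst R S₀ M) g * t * (pm (cst R S₀ M) g)⁻¹

theorem tl_cst (j : S₀ →ₐ[R] S) (τ : TP M S) : (tl j τ).comp (cst R S₀ M) = j := by
  ext s
  simp [chv]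

theorem tev_cg (g : Pt R A S₀) (t : Pt R A (GA S₀ M)) (j : S₀ →ₐ[R] S) (τ : TP M S) :
    tev (cg g t) j τ = pm j g * tev t j τ * (pm j g)⁻¹ := by
  rw [tev, cg, map_mul, map_mul, map_inv, pm_pm, tl_cst, tev]

theorem map_cst (j : S₀ →ₐ[R] S) :
    (AddMonoidAlgebra.mapAlgHom M j).comp (cst R S₀ M) = (cst R S M).comp j := by
  ext
  simp [AddMonoidAlgebra.mapAlgHom_single]

theorem bc_cg (g : Pt R A S₀) (t : Pt R A (GA S₀ M)) (j : S₀ →ₐ[R] S) :
    bc j (cg g t) = cg (pm j g) (bc j t) := by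
  rw [bc, cg, map_mul, map_mul, map_inv, pm_pm, map_cst, cg, pm_pm, bc]

theorem cj_cg (g : Pt R A S₀) (t : Pt R A (GA S₀ M)) (j : S₀ →ₐ[R] S) (y : Pt R A S) :
    cj (cg g t) j (pm j g * y * (pm j g)⁻¹) =
      pm (cst R S M) (pm j g) * cj t j y * pm (cst R S M) (pm j g)⁻¹ := by
  rw [cj, bc_cg, cg, cj, map_mul, map_mul, map_inv]
  group

theorem cfL_cj_cg (g : Pt R A S₀) (t : Pt R A (GA S₀ M)) (j : S₀ →ₐ[R] S) (y : Pt R A S) (m : M) :
    cfL (cj (cg g t) j (pm j g * y * (pm j g)⁻¹)) m =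
      lin (pm j g) * cfL (cj t j y) m * lin (pm j g)⁻¹ := by
  rw [cj_cg, cfL_mul_cst, cfL_cst_mul]

theorem cg_cg (g g' : Pt R A S₀) (t : Pt R A (GA S₀ M)) : cg g (cg g' t) = cg (g * g') t := by
  simp only [cg, map_mul]
  group

theorem cg_one (t : Pt R A (GA S₀ M)) : cg 1 t = t := by simp [cg]

variable {Λ : AddSubmonoid M} {t : Pt R A (GA S₀ M)} {j : S₀ →ₐ[R] S} {y : Pt R A S}

theorem inG_cg (g : Pt R A S₀) (h : InG Λ t j y) :
    InG Λ (cg g t) j (pm j g * y * (pm j g)⁻¹) :=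
  inG_iff.2 fun m hm => by rw [cfL_cj_cg, inG_iff.1 h m hm, mul_zero, zero_mul]

theorem inU_cg (g : Pt R A S₀) (h : InU Λ t j y) :
    InU Λ (cg g t) j (pm j g * y * (pm j g)⁻¹) :=
  inU_iff.2 ⟨inG_cg g h.1, by
    rw [cfL_cj_cg, (inU_iff.1 h).2, mul_one, ← lin_mul, mul_inv_cancel, lin_one]⟩

theorem inG_cg' (g : Pt R A S₀) (h : InG Λ (cg g t) j y) :
    InG Λ t j ((pm j g)⁻¹ * y * pm j g) := by
  have := inG_cg g⁻¹ h
  rwa [cg_cg, inv_mul_cancel, cg_one, map_inv, inv_inv] at this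

theorem inU_cg' (g : Pt R A S₀) (h : InU Λ (cg g t) j y) :
    InU Λ t j ((pm j g)⁻¹ * y * pm j g) := by
  have := inU_cg g⁻¹ h
  rwa [cg_cg, inv_mul_cancel, cg_one, map_inv, inv_inv] at this

theorem isHom_cg (g : Pt R A S₀) (h : IsHom t) : IsHom (cg g t) := fun S _ _ j τ τ' => by
  rw [tev_cg, tev_cg, tev_cg, h]
  group

theorem zt_cg (g : Pt R A S₀) (h : ZT t) : ZT (cg g t) := fun S _ _ j y hy => by
  obtain ⟨τ, h1, h2⟩ := h S j _ (inG_cg' g hy)
  refine ⟨τ, ?_, fun τ' h3 => h2 τ' ?_⟩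
  · show y = _
    rw [tev_cg, ← h1]
    group
  · have h4 : y = _ := h3
    rw [h4, tev_cg]
    group

theorem bijOn_cg {X : Type*} (g : Pt R A S₀) {F : X → Pt R A S}
    (h : Set.BijOn F Set.univ {y | InU Λ t j y}) :
    Set.BijOn (fun s => pm j g * F s * (pm j g)⁻¹) Set.univ {y | InU Λ (cg g t) j y} := by
  refine ⟨fun s hs => inU_cg g (h.1 hs), fun s hs s' hs' e => h.2.1 hs hs'
    (mul_left_cancel (mul_right_cancel e)), fun y hy => ?_⟩
  obtain ⟨s, hs, e⟩ := h.2.2 (inU_cg' g hy)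
  refine ⟨s, hs, ?_⟩
  show pm j g * F s * (pm j g)⁻¹ = y
  rw [e]
  group

/-- The family `X` conjugated by `g`. -/
noncomputable def cgX (g : Pt R A S₀) {P : Type u} [CommRing P] [Algebra R P] [Algebra S₀ P]
    [IsScalarTower R S₀ P] (X : Pt R A P) : Pt R A P :=
  pm (IsScalarTower.toAlgHom R S₀ P) g * X * (pm (IsScalarTower.toAlgHom R S₀ P) g)⁻¹

theorem cv_cgX (g : Pt R A S₀) (x : Pt R A (Polynomial S₀)) (j : S₀ →ₐ[R] S) (a : S) :
    cv (cgX g x) j a = pm j g * cv x j a * (pm j g)⁻¹ := by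
  rw [cv, cgX, map_mul, map_mul, map_inv, pm_pm, Polynomial.aevalTower_comp_toAlgHom, cv]

theorem xev_cgX {ι : Type} (g : Pt R A S₀) (X : Pt R A (MvPolynomial ι S₀)) (j : S₀ →ₐ[R] S)
    (s : ι → S) : xev (cgX g X) j s = pm j g * xev X j s * (pm j g)⁻¹ := by
  rw [xev, cgX, map_mul, map_mul, map_inv, pm_pm, MvPolynomial.aevalTower_comp_toAlgHom, xev]

theorem isRoot_cg (g : Pt R A S₀) {α : M} {x : Pt R A (Polynomial S₀)} (h : IsRoot t α x) :
    IsRoot (cg g t) α (cgX g x) := by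
  refine ⟨fun S _ _ j => ?_, fun S _ _ j a b => ?_, fun S _ _ j τ a => ?_⟩
  · rw [show cv (cgX g x) j = _ from funext (cv_cgX g x j)]
    exact bijOn_cg g (h.bij S j)
  · rw [cv_cgX, cv_cgX, cv_cgX, h.add]
    group
  · rw [cv_cgX, cv_cgX, tev_cg, ← h.eqv]
    group

theorem wts_cg (g : Pt R A S₀) {ι : Type} {deg : ι → M} (h : Wts t deg) : Wts (cg g t) deg := by
  refine ⟨h.1, fun Λ hΛ => ?_⟩
  obtain ⟨X, hX⟩ := h.2 Λ hΛ
  refine ⟨cgX g X, fun S _ _ j => ?_, fun S _ _ j => ?_, fun S _ _ j τ a => ?_⟩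
  · rw [show xev (cgX g X) j = _ from funext (xev_cgX g X j)]
    exact bijOn_cg g (hX.bij S j)
  · rw [xev_cgX, hX.zero, mul_one, mul_inv_cancel]
  · rw [xev_cgX, xev_cgX, tev_cg, ← hX.eqv]
    group

theorem sl2_cg (g : Pt R A S₀) {cor : M →+ ℤ} {c : S₀} {x y : Pt R A (Polynomial S₀)}
    (h : SL2 t cor c x y) : SL2 (cg g t) cor c (cgX g x) (cgX g y) := fun S _ _ j a b s hs => by
  have := h S j a b s hs
  rw [cv_cgX, cv_cgX, cv_cgX, cv_cgX, tev_cg]
  calc _ = pm j g * (cv x j a * cv y j b) * (pm j g)⁻¹ := by group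
    _ = _ := by rw [this]; group

/-- The torus reparametrised along `e`. -/
noncomputable def tw (e : M →+ N) (t : Pt R A (GA S₀ M)) : Pt R A (GA S₀ N) :=
  pm (AddMonoidAlgebra.mapDomainAlgHom R S₀ e) t

/-- The pull back of a torus point along `e`. -/
def tc (τ : TP N S) (e : M →+ N) : TP M S := τ.comp (AddMonoidHom.toMultiplicative e)

@[simp] theorem chv_tc (τ : TP N S) (e : M →+ N) (m : M) : chv (tc τ e) m = chv τ (e m) := rfl

theorem tp_ext {τ τ' : TP M S} (h : ∀ m, chv τ m = chv τ' m) : τ = τ' :=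
  MonoidHom.ext fun m => Units.ext (h m.toAdd)

theorem tev_tw (e : M →+ N) (t : Pt R A (GA S₀ M)) (j : S₀ →ₐ[R] S) (τ : TP N S) :
    tev (tw e t) j τ = tev t j (tc τ e) := by
  rw [tev, tw, tev, pm_pm]
  congr 2
  ext <;> simp

theorem bc_tw (e : M →+ N) (t : Pt R A (GA S₀ M)) (j : S₀ →ₐ[R] S) :
    bc j (tw e t) = tw e (bc j t) := by
  rw [bc, tw, tw, bc, pm_pm, pm_pm]
  congr 2
  ext <;> simp [AddMonoidAlgebra.mapAlgHom_single]

theorem cj_tw (e : M →+ N) (t : Pt R A (GA S₀ M)) (j : S₀ →ₐ[R] S) (g : Pt R A S) :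
    cj (tw e t) j g = tw e (cj t j g) := by
  rw [cj, bc_tw, cj, tw, tw, map_mul, map_mul, map_inv, pm_pm _ _ g]
  congr 4
  ext
  simp

theorem tw_tw {O : Type} [AddCommGroup O] (e : M →+ N) (e' : N →+ O) (t : Pt R A (GA S₀ M)) :
    tw e' (tw e t) = tw (e'.comp e) t := by
  rw [tw, tw, tw, pm_pm, AddMonoidAlgebra.mapDomainAlgHom_comp]

theorem tw_id (t : Pt R A (GA S₀ M)) : tw (AddMonoidHom.id M) t = t := by
  rw [tw, AddMonoidAlgebra.mapDomainAlgHom_id, pm_id]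

theorem tw_cg (e : M →+ N) (g : Pt R A S₀) (t : Pt R A (GA S₀ M)) :
    tw e (cg g t) = cg g (tw e t) := by
  have : (AddMonoidAlgebra.mapDomainAlgHom R S₀ e).comp (cst R S₀ M) = cst R S₀ N := by
    ext
    simp
  rw [tw, cg, map_mul, map_mul, map_inv, pm_pm, this, cg, tw]

theorem cfL_tw (e : M ≃+ N) (y : Pt R A (GA S M)) (m : M) :
    cfL (tw (e : M →+ N) y) (e m) = cfL y m :=
  WithConv.ext (LinearMap.ext fun _ => Finsupp.mapDomain_apply e.injective _ m)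

theorem inG_tw (e : M ≃+ N) {Λ' : AddSubmonoid N} (hΛ : ∀ m, e m ∈ Λ' ↔ m ∈ Λ) :
    InG Λ' (tw (e : M →+ N) t) j y ↔ InG Λ t j y := by
  rw [inG_iff, inG_iff, cj_tw, e.surjective.forall]
  simp only [cfL_tw, hΛ]

theorem inU_tw (e : M ≃+ N) {Λ' : AddSubmonoid N} (hΛ : ∀ m, e m ∈ Λ' ↔ m ∈ Λ) :
    InU Λ' (tw (e : M →+ N) t) j y ↔ InU Λ t j y := by
  rw [inU_iff, inU_iff, inG_tw e hΛ, cj_tw, ← map_zero e, cfL_tw]

theorem isHom_tw (e : M →+ N) (h : IsHom t) : IsHom (tw e t) := fun S _ _ j τ τ' => by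
  rw [tev_tw, tev_tw, tev_tw, ← h]
  rfl

theorem tc_tc_symm (e : M ≃+ N) (τ : TP M S) : tc (tc τ (e.symm : N →+ M)) (e : M →+ N) = τ :=
  tp_ext fun m => by simp

theorem tc_symm_tc (e : M ≃+ N) (τ : TP N S) : tc (tc τ (e : M →+ N)) (e.symm : N →+ M) = τ :=
  tp_ext fun m => by simp

theorem zt_tw (e : M ≃+ N) (h : ZT t) : ZT (tw (e : M →+ N) t) := fun S _ _ j y hy => by
  obtain ⟨τ, h1, h2⟩ := h S j _ ((inG_tw (Λ := ⊥) e fun m => by simp).1 hy)
  refine ⟨tc τ (e.symm : N →+ M), ?_, fun τ' h3 => ?_⟩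
  · show y = _
    rw [tev_tw, tc_tc_symm, h1]
  · rw [← h2 _ (h3.trans (tev_tw _ _ _ _)), tc_symm_tc]

theorem mem_ray (e : M ≃+ N) (α m : M) : e m ∈ ray (e α) ↔ m ∈ ray α := by
  refine exists_congr fun p => exists_congr fun q => and_congr_right fun _ => ?_
  rw [← map_nsmul, ← map_nsmul, e.injective.eq_iff]

theorem isRoot_tw (e : M ≃+ N) {α : M} {x : Pt R A (Polynomial S₀)} (h : IsRoot t α x) :
    IsRoot (tw (e : M →+ N) t) (e α) x := by
  refine ⟨fun S _ _ j => ?_, h.add, fun S _ _ j τ a => ?_⟩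
  · simp only [inU_tw e (mem_ray e α)]
    exact h.bij S j
  · rw [tev_tw, h.eqv]
    rfl

theorem sl2_tw (e : M ≃+ N) {cor : M →+ ℤ} {c : S₀} {x y : Pt R A (Polynomial S₀)}
    (h : SL2 t cor c x y) : SL2 (tw (e : M →+ N) t) (cor.comp (e.symm : N →+ M)) c x y :=
  fun S _ _ j a b s hs => by
  rw [h S j a b s hs, tev_tw]
  congr 3
  exact tp_ext fun m => by simp [chv, coc, tc]

theorem isChart_tw (e : M ≃+ N) {Λ' : AddSubmonoid N} (hΛ : ∀ m, e m ∈ Λ' ↔ m ∈ Λ) {ι : Type}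
    {deg : ι → M} {X : Pt R A (MvPolynomial ι S₀)} (h : IsChart t Λ deg X) :
    IsChart (tw (e : M →+ N) t) Λ' (fun i => e (deg i)) X := by
  refine ⟨fun S _ _ j => ?_, h.zero, fun S _ _ j τ a => ?_⟩
  · simp only [inU_tw e hΛ]
    exact h.bij S j
  · rw [tev_tw, h.eqv]
    rfl

theorem wts_tw (e : M ≃+ N) {ι : Type} {deg : ι → M} (h : Wts t deg) :
    Wts (tw (e : M →+ N) t) fun i => e (deg i) := by
  refine ⟨fun i hi => h.1 i (e.map_eq_zero_iff.1 hi), fun Λ' ⟨l, hl⟩ => ?_⟩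
  obtain ⟨X, hX⟩ := h.2 (Λ'.comap e) ⟨l.comp e, fun m hm h0 =>
    hl (e m) hm fun h1 => h0 (e.map_eq_zero_iff.1 h1)⟩
  exact ⟨X, isChart_tw e (fun _ => Iff.rfl) hX⟩

end Pool.Agent.RED.Au
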