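import Pool.Agent.P.MP_c1f06d_ag.g.Cell

open WithConv Pool.Agent.GR TensorProduct

universe u

namespace Pool.Agent.RED.X

variable {R A : Type u} [CommRing R] [CommRing A] [HopfAlgebra R A]
  {S₀ S S' : Type u} [CommRing S₀] [Algebra R S₀] [CommRing S] [Algebra R S] [CommRing S']
  [Algebra R S'] {M : Type} [AddCommGroup M] {t : Pt R A (GA S₀ M)}

theorem cov_comp_fn (φ : S →ₐ[R] S') (j : S₀ →ₐ[R] S) (g : Pt R A S) :
    φ.comp (fn j g) = fn (φ.comp j) (pm φ g) := by
  refine Algebra.TensorProduct.ext' fun s a => ?_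
  simp [fn]

variable (R A S₀) in
/-- The structure map of the base change. -/
noncomputable def covL : S₀ →ₐ[R] S₀ ⊗[R] A := Algebra.TensorProduct.includeLeft

variable (R A S₀) in
/-- The universal point over `S₀`. -/
noncomputable def covU : Pt R A (S₀ ⊗[R] A) := toConv Algebra.TensorProduct.includeRight

theorem cov_fn_left (j : S₀ →ₐ[R] S) (g : Pt R A S) : (fn j g).comp (covL R A S₀) = j := by
  ext s
  simp [fn, covL]

theorem cov_fn_right (j : S₀ →ₐ[R] S) (g : Pt R A S) : pm (fn j g) (covU R A S₀) = g := by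
  refine pt_ext fun a => ?_
  simp [fn, covU]

theorem cov_fn_inj {j j' : S₀ →ₐ[R] S} {g g' : Pt R A S} (h : fn j g = fn j' g') :
    j = j' ∧ g = g' :=
  ⟨by rw [← cov_fn_left j g, h, cov_fn_left], by rw [← cov_fn_right j g, h, cov_fn_right]⟩

theorem cov_fn_id : fn (covL R A S₀) (covU R A S₀) = AlgHom.id R _ := by
  refine Algebra.TensorProduct.ext' fun s a => ?_
  simp [fn, covL, covU]

/-- Left translation of the universal point is injective on functions. -/
theorem cov_trans_inj (g : Pt R A S₀) :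
    Function.Injective (fn (covL R A S₀) (pm (covL R A S₀) g * covU R A S₀)) := by
  have h := cov_comp_fn (fn (covL R A S₀) (pm (covL R A S₀) g⁻¹ * covU R A S₀))
    (covL R A S₀) (pm (covL R A S₀) g * covU R A S₀)
  rw [map_mul, pm_pm, cov_fn_left, cov_fn_right, map_inv, mul_inv_cancel_left, cov_fn_id] at h
  exact Function.LeftInverse.injective fun x => AlgHom.congr_fun h x

/-- Push-out along a flat map. -/
theorem cov_push {O B T : Type u} [CommRing O] [Algebra R O] [CommRing B] [Algebra R B]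
    [CommRing T] [Algebra R T] (c : O →ₐ[R] B) (hc : (c : O →+* B).Flat) (g : O →ₐ[R] T) :
    ∃ (W : Type u) (_ : CommRing W) (_ : Algebra R W) (l : T →ₐ[R] W) (q : B →ₐ[R] W),
      (l : T →+* W).Flat ∧ q.comp c = l.comp g ∧
      ∀ (S : Type u) [CommRing S] [Algebra R S] (e : T →ₐ[R] S) (q' : B →ₐ[R] S),
        q'.comp c = e.comp g → ∃ m : W →ₐ[R] S, m.comp l = e ∧ m.comp q = q' := by
  let : Algebra O B := (c : O →+* B).toAlgebra
  let : Algebra O T := (g : O →+* T).toAlgebra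
  have : IsScalarTower R O B := IsScalarTower.of_algebraMap_eq fun r => (c.commutes r).symm
  have : IsScalarTower R O T := IsScalarTower.of_algebraMap_eq fun r => (g.commutes r).symm
  have : Module.Flat O B := hc
  refine ⟨T ⊗[O] B, inferInstance, inferInstance, Algebra.TensorProduct.includeLeft,
    Algebra.TensorProduct.includeRight.restrictScalars R,
    (RingHom.flat_algebraMap_iff (R := T) (S := T ⊗[O] B)).2 inferInstance,
    AlgHom.ext fun o => (Algebra.TensorProduct.tmul_one_eq_one_tmul (R := O) o).symm, ?_⟩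
  intro S _ _ e q' hq
  let : Algebra O S := ((e.comp g : O →ₐ[R] S) : O →+* S).toAlgebra
  have : IsScalarTower R O S :=
    IsScalarTower.of_algebraMap_eq fun r => ((e.comp g).commutes r).symm
  let e' : T →ₐ[O] S := { (e : T →+* S) with commutes' := fun _ => rfl }
  let q'' : B →ₐ[O] S := { (q' : B →+* S) with commutes' := fun o => AlgHom.congr_fun hq o }
  refine ⟨(Algebra.TensorProduct.lift e' q'' fun _ _ => Commute.all _ _).restrictScalars R,
    AlgHom.ext fun t => ?_, AlgHom.ext fun b => ?_⟩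
  · change e t * q' 1 = e t
    rw [map_one, mul_one]
  · change e 1 * q' b = q' b
    rw [map_one, one_mul]

/-- A flat map with a point over every closed point is faithfully flat. -/
theorem cov_ff {B T : Type u} [CommRing B] [CommRing T] (f : B →+* T) (hf : f.Flat)
    (h : ∀ m : Ideal B, m.IsMaximal → ∃ (L : Type u) (_ : CommRing L) (_ : Nontrivial L)
      (φ : T →+* L), ∀ x ∈ m, φ (f x) = 0) : f.FaithfullyFlat := by
  let : Algebra B T := f.toAlgebra
  have : Module.Flat B T := hf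
  refine (⟨fun m hm htop => ?_⟩ : Module.FaithfullyFlat B T)
  obtain ⟨L, _, _, φ, hφ⟩ := h m hm
  have h1 : ∀ x ∈ m • (⊤ : Submodule B T), φ x = 0 := by
    intro x hx
    refine Submodule.smul_induction_on hx (fun r hr y _ => ?_) fun x y hx hy => ?_
    · rw [Algebra.smul_def, map_mul]
      exact mul_eq_zero_of_left (hφ r hr) _
    · rw [map_add, hx, hy, add_zero]
  have := h1 1 (by rw [htop]; exact Submodule.mem_top)
  rw [map_one] at this
  exact one_ne_zero this

variable {ι : Type} [Finite ι] {deg : ι → M} {l : M →+ ℤ} [Module.Free ℤ M] [Algebra.Smooth R A]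

theorem cov_generic (ht : IsHom t) (hw : Wts t deg) (hl : ∀ i, l (deg i) ≠ 0)
    [IsDomain (S ⊗[R] A)] {F : Type u} [Field F] [Algebra R F] (j : S₀ →ₐ[R] S)
    (e : S ⊗[R] A →ₐ[R] F) (he : Function.Injective e) (k : Pt R A S) :
    InCell l t ((e.comp (covL R A S)).comp j) (pm e (pm (covL R A S) k * covU R A S)) := by
  refine (inCell_bc (e.comp (covL R A S))).1
    (inCell_generic (ht.base j) (hw.base j) hl (e.comp (covL R A S)) _ ?_)
  rw [← cov_comp_fn]
  exact he.comp (cov_trans_inj k)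

theorem cov_frac (D : Type u) [CommRing D] [IsDomain D] [Algebra R D] :
    ∃ (F : Type u) (_ : Field F) (_ : Algebra R F) (e : D →ₐ[R] F), Function.Injective e :=
  ⟨FractionRing D, inferInstance, inferInstance, IsScalarTower.toAlgHom R D _,
    IsFractionRing.injective D _⟩

theorem cov_clos (K : Type u) [Field K] [Algebra R K] :
    ∃ (Ω : Type u) (_ : Field Ω) (_ : IsAlgClosed Ω) (_ : Algebra R Ω), Nonempty (K →ₐ[R] Ω) :=
  ⟨AlgebraicClosure K, inferInstance, inferInstance, inferInstance, ⟨IsScalarTower.toAlgHom R K _⟩⟩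

/-- Over a field extension every point is a quotient of two points of the cell. -/
theorem exists_cell_div (ht : IsHom t) (hw : Wts t deg) (hl : ∀ i, l (deg i) ≠ 0)
    (hF : ∀ (Ω : Type u) [Field Ω] [IsAlgClosed Ω] [Algebra R Ω], IsDomain (Ω ⊗[R] A))
    {K : Type u} [Field K] [Algebra R K] (j : S₀ →ₐ[R] K) (g : Pt R A K) :
    ∃ (F : Type u) (_ : Field F) (_ : Algebra R F) (f : K →ₐ[R] F) (c c' : Pt R A F),
      InCell l t (f.comp j) c ∧ InCell l t (f.comp j) c' ∧ pm f g = c * c'⁻¹ := by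
  obtain ⟨Ω, _, _, _, ⟨i⟩⟩ := cov_clos (R := R) K
  have := hF Ω
  obtain ⟨F, _, _, e, he⟩ := cov_frac (R := R) (Ω ⊗[R] A)
  refine ⟨F, inferInstance, inferInstance, (e.comp (covL R A Ω)).comp i, _, _,
    cov_generic ht hw hl (i.comp j) e he (pm i g), cov_generic ht hw hl (i.comp j) e he 1, ?_⟩
  rw [map_one, one_mul, map_mul, mul_inv_cancel_right, pm_pm, pm_pm]

/-- P1: the quotient map on pairs of points of the cell is faithfully flat. -/
theorem exists_cell_cover (ht : IsHom t) (hw : Wts t deg) (hl : ∀ i, l (deg i) ≠ 0)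
    (hF : ∀ (Ω : Type u) [Field Ω] [IsAlgClosed Ω] [Algebra R Ω], IsDomain (Ω ⊗[R] A))
    (j : S₀ →ₐ[R] S) (g : Pt R A S) :
    ∃ (T : Type u) (_ : CommRing T) (_ : Algebra R T) (f : S →ₐ[R] T) (c c' : Pt R A T),
      (f : S →+* T).FaithfullyFlat ∧ InCell l t (f.comp j) c ∧ InCell l t (f.comp j) c' ∧
      pm f g = c * c'⁻¹ ∧
      ∀ (T' : Type u) [CommRing T'] [Algebra R T'] (f' : S →ₐ[R] T') (d d' : Pt R A T'),
        InCell l t (f'.comp j) d → InCell l t (f'.comp j) d' → pm f' g = d * d'⁻¹ →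
          ∃ φ : T →ₐ[R] T', φ.comp f = f' ∧ pm φ c = d ∧ pm φ c' = d' := by
  obtain ⟨C, _, _, jC, u, hr⟩ := exists_repCell (l := l) ht hw
  have hfl : (fn jC u : S₀ ⊗[R] A →+* C).Flat := (hr.cell_smooth ht hw hl).flat
  have hjC : (jC : S₀ →+* C).Flat := by
    rw [← cov_fn_left jC u]
    exact RingHom.Flat.comp
      ((RingHom.flat_algebraMap_iff (R := S₀) (S := S₀ ⊗[R] A)).2 inferInstance) hfl
  obtain ⟨W, _, _, l₁, q₁, hl₁, e₁, U₁⟩ := cov_push jC hjC j
  obtain ⟨T, _, _, l₂, q₂, hl₂, e₂, U₂⟩ :=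
    cov_push (fn jC u) hfl (fn (l₁.comp j) (pm l₁ g * pm q₁ u))
  rw [cov_comp_fn, cov_comp_fn] at e₂
  obtain ⟨e₃, e₄⟩ := cov_fn_inj e₂
  have univ : ∀ (T' : Type u) [CommRing T'] [Algebra R T'] (f' : S →ₐ[R] T') (d d' : Pt R A T'),
      InCell l t (f'.comp j) d → InCell l t (f'.comp j) d' → pm f' g = d * d'⁻¹ →
        ∃ φ : T →ₐ[R] T', φ.comp (l₂.comp l₁) = f' ∧ pm φ (pm q₂ u) = d ∧
          pm φ (pm (l₂.comp q₁) u) = d' := by
    intro T' _ _ f' d d' hd hd' hg
    obtain ⟨ψ, h1, rfl⟩ := (hr.mem T' _ d).1 hd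
    obtain ⟨ψ', h2, rfl⟩ := (hr.mem T' _ d').1 hd'
    obtain ⟨m₁, h3, h4⟩ := U₁ T' f' ψ' h2
    obtain ⟨m₂, h5, h6⟩ := U₂ T' m₁ ψ (by
      rw [cov_comp_fn, cov_comp_fn, map_mul, pm_pm, pm_pm, ← AlgHom.comp_assoc, h3, h4, h1, hg,
        inv_mul_cancel_right])
    exact ⟨m₂, by rw [← AlgHom.comp_assoc, h5, h3], by rw [pm_pm, h6],
      by rw [pm_pm, ← AlgHom.comp_assoc, h5, h4]⟩
  refine ⟨T, inferInstance, inferInstance, l₂.comp l₁, pm q₂ u, pm (l₂.comp q₁) u,
    cov_ff _ (RingHom.Flat.comp hl₁ hl₂) fun m hm => ?_, (hr.mem T _ _).2 ⟨q₂, e₃, rfl⟩,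
    (hr.mem T _ _).2 ⟨l₂.comp q₁, by rw [AlgHom.comp_assoc, e₁]; rfl, rfl⟩, ?_, univ⟩
  · let : Field (S ⧸ m) := Ideal.Quotient.field m
    obtain ⟨F, _, _, f, c, c', h1, h2, h3⟩ := exists_cell_div ht hw hl hF
      ((Ideal.Quotient.mkₐ R m).comp j) (pm (Ideal.Quotient.mkₐ R m) g)
    obtain ⟨φ, hφ, -⟩ := univ F (f.comp (Ideal.Quotient.mkₐ R m)) c c' h1 h2 h3
    refine ⟨F, inferInstance, inferInstance, φ, fun x hx => ?_⟩
    refine (AlgHom.congr_fun hφ x).trans ?_
    rw [AlgHom.comp_apply, Ideal.Quotient.mkₐ_eq_mk, Ideal.Quotient.eq_zero_iff_mem.2 hx, map_zero]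
  · rw [e₄, map_mul, pm_pm, pm_pm, mul_inv_cancel_right]

end Pool.Agent.RED.X

namespace Pool.Agent.RED

alias exists_cell_div := X.exists_cell_div
alias exists_cell_cover := X.exists_cell_cover

end Pool.Agent.RED
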