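import Pool.Agent.P.MP_c1f06d_ag.g.Grd

open WithConv Pool.Agent.GR TensorProduct MvPolynomial

universe u

namespace Pool.Agent.RED.X

variable {R A : Type u} [CommRing R] [CommRing A] [HopfAlgebra R A]
  {S₀ S S' : Type u} [CommRing S₀] [Algebra R S₀] [CommRing S] [Algebra R S] [CommRing S']
  [Algebra R S'] {M : Type} [AddCommGroup M] {t : Pt R A (GA S₀ M)} {j : S₀ →ₐ[R] S}
  {Λ Λ' : AddSubmonoid M}

/-- Triangular maps are bijective. -/
theorem prod_tri {ι : Type} [Finite ι] (d : ι → ℕ) (u : ι → S) (hu : ∀ i, IsUnit (u i))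
    (G : ι → (ι → S) → S) (hG : ∀ i s s', (∀ k, d k < d i → s k = s' k) → G i s = G i s') :
    Function.Bijective fun (s : ι → S) i => u i * s i + G i s := by
  classical
  constructor
  · intro s s' h
    have key : ∀ N i, d i = N → s i = s' i := by
      intro N
      induction N using Nat.strong_induction_on with
      | _ N ih =>
        intro i hi
        have e : u i * s i + G i s = u i * s' i + G i s' := congrFun h i
        rw [hG i s s' fun k hk => ih _ (hi ▸ hk) k rfl, add_left_inj] at e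
        exact (hu i).mul_left_cancel e
    exact funext fun i => key _ i rfl
  · intro y
    have key : ∀ N : ℕ, ∃ s : ι → S, ∀ i, d i < N → u i * s i + G i s = y i := by
      intro N
      induction N with
      | zero => exact ⟨0, fun i hi => absurd hi (Nat.not_lt_zero _)⟩
      | succ N ih =>
        obtain ⟨s, hs⟩ := ih
        refine ⟨fun i => if d i = N then ((hu i).unit⁻¹ : Sˣ) * (y i - G i s) else s i,
          fun i hi => ?_⟩
        rw [hG i _ s fun k hk => if_neg (by omega)]
        beta_reduce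
        by_cases h : d i = N
        · rw [if_pos h, ← mul_assoc, IsUnit.mul_val_inv, one_mul]
          ring
        · rw [if_neg h]
          exact hs i (by omega)
    obtain ⟨N, hN⟩ := (Set.finite_range d).bddAbove
    obtain ⟨s, hs⟩ := key (N + 1)
    exact ⟨s, funext fun i => hs i (Nat.lt_succ_of_le (hN ⟨i, rfl⟩))⟩

theorem prod_reindex {ι κ : Type} {deg : ι → M} {X : Pt R A (MvPolynomial ι S₀)}
    (h : IsChart t Λ deg X) (e : κ ≃ ι) : ∃ X', IsChart t Λ (fun k => deg (e k)) X' := by
  have hx : ∀ (S : Type u) [CommRing S] [Algebra R S] (j : S₀ →ₐ[R] S) (s : κ → S),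
      xev (pm ((rename e.symm : MvPolynomial ι S₀ →ₐ[S₀] MvPolynomial κ S₀).restrictScalars R) X)
        j s = xev X j fun i => s (e.symm i) := by
    intro S _ _ j s
    rw [xev, xev, pm_pm]
    congr 2
    ext <;> simp
  refine ⟨pm ((rename e.symm : MvPolynomial ι S₀ →ₐ[S₀] MvPolynomial κ S₀).restrictScalars R) X,
    fun S _ _ j => ⟨fun s _ => ?_, fun s _ s' _ hs => ?_, fun g hg => ?_⟩, fun S _ _ j => ?_,
    fun S _ _ j τ s => ?_⟩
  · rw [hx]
    exact (h.bij S j).mapsTo trivial
  · rw [hx, hx] at hs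
    have := (h.bij S j).injOn trivial trivial hs
    funext k
    simpa using congrFun this (e k)
  · obtain ⟨s, -, hs⟩ := (h.bij S j).surjOn hg
    refine ⟨fun k => s (e k), trivial, ?_⟩
    rw [hx, ← hs]
    simp
  · rw [hx]
    exact h.zero S j
  · rw [hx, hx, h.eqv]
    simp

theorem prod_exists_chart {ι : Type} {deg : ι → M} (hw : Wts t deg)
    (hinj : Function.Injective deg) (hΛ : Pos Λ) {n : ℕ} {w : Fin n → M}
    (hw1 : Function.Injective w) (hw2 : Set.range w = Set.range deg ∩ Λ) :
    (∀ k, w k ∈ Λ ∧ w k ≠ 0) ∧ ∃ X, IsChart t Λ w X := by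
  have h1 : ∀ k, ∃ i : {i // deg i ∈ Λ}, deg i = w k := by
    intro k
    have : w k ∈ Set.range deg ∩ Λ := hw2 ▸ Set.mem_range_self k
    obtain ⟨⟨i, hi⟩, h2⟩ := this
    exact ⟨⟨i, hi ▸ h2⟩, hi⟩
  choose f hf using h1
  have hb : Function.Bijective f := by
    refine ⟨fun k k' h => hw1 (by rw [← hf, ← hf, h]), fun i => ?_⟩
    have : deg i ∈ Set.range w := hw2 ▸ ⟨Set.mem_range_self _, i.2⟩
    obtain ⟨k, hk⟩ := this
    exact ⟨k, Subtype.ext (hinj (by rw [hf, hk]))⟩
  obtain ⟨X, hX⟩ := hw.2 Λ hΛ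
  obtain ⟨X', hX'⟩ := prod_reindex hX (Equiv.ofBijective f hb)
  refine ⟨fun k => ⟨hf k ▸ (f k).2, hf k ▸ hw.1 _⟩, X', ?_⟩
  have e : (fun k => deg (Equiv.ofBijective f hb k)) = w := funext hf
  rwa [e] at hX'

theorem prod_coeff {ι : Type} (w : ι → M) (p : MvPolynomial ι S₀) (m : ι →₀ ℕ) :
    coeff m ((aevalTower ((cst R (MvPolynomial ι S₀) M).comp
      (IsScalarTower.toAlgHom R S₀ (MvPolynomial ι S₀)))
      (fun k => AddMonoidAlgebra.single (w k) (X k)) p).coeff (Finsupp.weight w m)) =
      coeff m p := by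
  classical
  have hm : ∀ (m' : ι →₀ ℕ) (c : S₀), aevalTower ((cst R (MvPolynomial ι S₀) M).comp
      (IsScalarTower.toAlgHom R S₀ (MvPolynomial ι S₀)))
      (fun k => AddMonoidAlgebra.single (w k) (X k)) (monomial m' c) =
      AddMonoidAlgebra.single (Finsupp.weight w m') (monomial m' c) := by
    intro m' c
    induction m' using Finsupp.induction_linear generalizing c with
    | zero => simp
    | add a b ha hb =>
      rw [← mul_one c, ← monomial_mul, map_mul, ha, hb, AddMonoidAlgebra.single_mul_single,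
        map_add]
    | single k e =>
      rw [← C_mul_X_pow_eq_monomial, map_mul, map_pow, aevalTower_X, aevalTower_C,
        AddMonoidAlgebra.single_pow, Finsupp.weight_single]
      simp [AddMonoidAlgebra.single_mul_single]
  induction p using MvPolynomial.induction_on' with
  | monomial m' c =>
    rw [hm, AddMonoidAlgebra.coeff_single, Finsupp.single_apply]
    split_ifs with h
    · rfl
    · rw [coeff_zero, coeff_monomial, if_neg fun e => h (by rw [e])]
  | add p q hp hq =>
    rw [map_add, AddMonoidAlgebra.coeff_add, Finsupp.add_apply, coeff_add, coeff_add, hp, hq]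

/-- An equivariant family in `U_Λ` has homogeneous coordinates. -/
theorem prod_form {ι : Type} {w : ι → M} {X P : Pt R A (MvPolynomial ι S₀)}
    (hX : IsChart t Λ w X) (hP : InU Λ t (IsScalarTower.toAlgHom R S₀ _) P)
    (hc : cj t (IsScalarTower.toAlgHom R S₀ _) P = xev P ((cst R (MvPolynomial ι S₀) M).comp
      (IsScalarTower.toAlgHom R S₀ (MvPolynomial ι S₀)))
      fun k => AddMonoidAlgebra.single (w k) (MvPolynomial.X k)) :
    ∃ F : ι → MvPolynomial ι S₀, (∀ i m, coeff m (F i) ≠ 0 → Finsupp.weight w m = w i) ∧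
      ∀ (S : Type u) [CommRing S] [Algebra R S] (j : S₀ →ₐ[R] S) (s : ι → S),
        xev P j s = xev X j fun i => aevalTower j s (F i) := by
  classical
  obtain ⟨F, -, hF⟩ := (hX.bij _ _).surjOn hP
  have h1 : ∀ (S : Type u) [CommRing S] [Algebra R S] (j : S₀ →ₐ[R] S) (s : ι → S),
      xev P j s = xev X j fun i => aevalTower j s (F i) := by
    intro S _ _ j s
    rw [xev, ← hF, pm_xev, aevalTower_comp_toAlgHom]
  refine ⟨F, fun i m hm => ?_, h1⟩
  rw [h1, ← hF, hX.cj_xev] at hc
  have h2 := congrFun ((hX.bij _ _).injOn trivial trivial hc) i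
  have h3 := prod_coeff (R := R) w (F i) m
  rw [← h2, AddMonoidAlgebra.coeff_single, Finsupp.single_apply] at h3
  by_contra hne
  rw [if_neg (Ne.symm hne), coeff_zero] at h3
  exact hm h3.symm

theorem prod_cv_zero {α : M} {x : Pt R A (Polynomial S₀)} (h : IsRoot t α x) : cv x j 0 = 1 := by
  have e := h.add S j 0 0
  rw [add_zero] at e
  exact left_eq_mul.1 e

/-- A coordinate axis of a chart lies in the group of the ray. -/
theorem prod_axis [Module.Free ℤ M] {ι : Type} [DecidableEq ι] {w : ι → M}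
    {X : Pt R A (MvPolynomial ι S₀)} (hX : IsChart t Λ w X) (i : ι) (hi : w i ≠ 0) (a : S) :
    InU (ray (w i)) t j (xev X j (Pi.single i a)) := by
  classical
  have hev : ∀ p : Polynomial S, ∀ m, m ∉ ray (w i) ∨ m = 0 →
      (Polynomial.aevalTower (cst R S M) (AddMonoidAlgebra.single (w i) a) p).coeff m =
        if m = 0 then Polynomial.aevalTower (AlgHom.id R S) 0 p else 0 := by
    intro p m hm
    induction p using Polynomial.induction_on' with
    | add p q hp hq =>
      rw [map_add, AddMonoidAlgebra.coeff_add, Finsupp.add_apply, hp, hq, map_add]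
      split_ifs <;> simp
    | monomial e c =>
      rw [← Polynomial.C_mul_X_pow_eq_monomial, map_mul, map_mul, map_pow, map_pow,
        Polynomial.aevalTower_X, Polynomial.aevalTower_X, Polynomial.aevalTower_C,
        Polynomial.aevalTower_C, AddMonoidAlgebra.single_pow]
      change (AddMonoidAlgebra.single 0 c * _ : GA S M).coeff m = _
      rw [AddMonoidAlgebra.single_mul_single, zero_add, AddMonoidAlgebra.coeff_single,
        Finsupp.single_apply]
      rcases Nat.eq_zero_or_pos e with rfl | he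
      · simp [eq_comm]
      · have h1 : e • w i ≠ m := by
          rintro rfl
          rcases hm with hm | hm
          · exact hm ⟨e, 1, one_pos, one_smul _ _⟩
          · rw [← natCast_zsmul] at hm
            exact (smul_ne_zero (by exact_mod_cast he.ne') hi) hm
        rw [if_neg h1, zero_pow he.ne']
        simp
  refine inU_of_pm (pos_ray hi)
    (xev X ((IsScalarTower.toAlgHom R S (Polynomial S)).comp j) (Pi.single i Polynomial.X))
    (Polynomial.aevalTower (cst R S M) (AddMonoidAlgebra.single (w i) a))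
    (Polynomial.aevalTower (AlgHom.id R S) 0) ?_ (fun p m hm => ?_) (fun p => ?_) ?_
  · rw [pm_xev, hX.cj_xev, ← AlgHom.comp_assoc, Polynomial.aevalTower_comp_toAlgHom]
    congr 1
    funext k
    by_cases h : k = i
    · subst h; simp
    · simp [Pi.single_eq_of_ne h]
  · rw [hev p m (Or.inl hm), if_neg fun e : m = 0 => hm (e ▸ zero_mem _)]
  · rw [hev p 0 (Or.inr rfl), if_pos rfl]
  · rw [pm_xev, ← hX.zero S ((Polynomial.aevalTower (AlgHom.id R S) 0).comp
      ((IsScalarTower.toAlgHom R S (Polynomial S)).comp j))]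
    congr 1
    funext k
    by_cases h : k = i
    · subst h; simp
    · simp [Pi.single_eq_of_ne h]

/-- The shape of a homogeneous coordinate. -/
theorem prod_lin {ι : Type} [DecidableEq ι] {w : ι → M} (hw : Function.Injective w) (l : M →+ ℤ)
    (hl : ∀ k, 0 < l (w k)) (F : MvPolynomial ι S₀) (i : ι)
    (hF : ∀ m, coeff m F ≠ 0 → Finsupp.weight w m = w i) :
    ∃ G : MvPolynomial ι S₀, F = C (coeff (Finsupp.single i 1) F) * X i + G ∧
      (∀ k ∈ G.vars, l (w k) < l (w i)) ∧ constantCoeff G = 0 := by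
  have hc : ∀ m, coeff m (F - C (coeff (Finsupp.single i 1) F) * X i) ≠ 0 →
      m ≠ Finsupp.single i 1 ∧ coeff m F ≠ 0 := by
    intro m hm
    rw [coeff_sub, C_mul_X_eq_monomial, coeff_monomial] at hm
    by_cases h : Finsupp.single i 1 = m
    · subst h
      simp at hm
    · rw [if_neg h, sub_zero] at hm
      exact ⟨Ne.symm h, hm⟩
  refine ⟨F - C (coeff (Finsupp.single i 1) F) * X i, by ring, fun k hk => ?_, ?_⟩
  · obtain ⟨m, hm, hkm⟩ := (mem_vars_iff_mem_support _).1 hk
    obtain ⟨h1, h2⟩ := hc m (mem_support_iff.1 hm)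
    have h3 := hF m h2
    obtain ⟨m', rfl⟩ : ∃ m', m = Finsupp.single k 1 + m' :=
      exists_add_of_le (Finsupp.single_le_iff.2 (Nat.one_le_iff_ne_zero.2
        (Finsupp.mem_support_iff.1 hkm)))
    rw [map_add, Finsupp.weight_single, one_smul] at h3
    by_cases h0 : m' = 0
    · subst h0
      rw [map_zero, add_zero] at h3
      exact absurd (by rw [add_zero, hw h3]) h1
    · have h4 : 0 < l (Finsupp.weight w m') := by
        rw [Finsupp.weight_apply, Finsupp.sum, map_sum]
        refine Finset.sum_pos (fun a ha => ?_) (Finsupp.support_nonempty_iff.2 h0)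
        rw [map_nsmul]
        exact nsmul_pos (hl a) (Finsupp.mem_support_iff.1 ha)
      rw [← h3, map_add]
      linarith
  · by_contra h
    have h3 := hF 0 (hc 0 h).2
    have h4 := hl i
    rw [← h3, map_zero, map_zero] at h4
    exact lt_irrefl _ h4

theorem prod_congr {ι : Type} (G : MvPolynomial ι S₀) (s s' : ι → S)
    (h : ∀ k ∈ G.vars, s k = s' k) : aevalTower j s G = aevalTower j s' G :=
  eval₂Hom_congr' (f₁ := (j : S₀ →+* S)) rfl (fun k hk _ => h k hk) rfl

theorem prod_single {ι : Type} [DecidableEq ι] {G : MvPolynomial ι S₀} {i : ι} (hi : i ∉ G.vars)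
    (h0 : constantCoeff G = 0) (b : S) : aevalTower j (Pi.single i b) G = 0 := by
  rw [prod_congr G _ (fun _ => 0) fun k hk => Pi.single_eq_of_ne (fun e : k = i => hi (e ▸ hk)) _]
  have := eval₂Hom_zero'_apply (j : S₀ →+* S) G
  rw [h0, map_zero] at this
  exact this

theorem prod_pm_list (f : S →ₐ[R] S') {n : ℕ} (xs : Fin n → Pt R A (Polynomial S₀))
    (s : Fin n → S) : pm f (List.ofFn fun k => cv (xs k) j (s k)).prod =
      (List.ofFn fun k => cv (xs k) (f.comp j) (f (s k))).prod := by
  rw [map_list_prod, List.map_ofFn]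
  congr 2
  funext k
  exact pm_cv _ _ _ _

theorem prod_ofFn_single {G : Type*} [Monoid G] {n : ℕ} (g : Fin n → G) (i : Fin n)
    (h : ∀ k, k ≠ i → g k = 1) : (List.ofFn g).prod = g i := by
  induction n with
  | zero => exact i.elim0
  | succ n ih =>
    rw [List.ofFn_succ, List.prod_cons]
    rcases Fin.eq_zero_or_eq_succ i with rfl | ⟨i, rfl⟩
    · rw [List.prod_eq_one, mul_one]
      intro x hx
      obtain ⟨k, rfl⟩ := List.mem_ofFn.1 hx
      exact h _ (Fin.succ_ne_zero k)
    · rw [h 0 (Fin.succ_ne_zero i).symm, one_mul]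
      exact ih _ i fun k hk => h _ fun e => hk (Fin.succ_injective _ e)

variable {ι : Type} {deg : ι → M} {α β : M} {x y : Pt R A (Polynomial S₀)}

/-- `U_Λ` is the product of its root groups in any order. -/
theorem prod_bij [Module.Free ℤ M] [Finite ι] (ht : IsHom t) (hw : Wts t deg)
    (hinj : Function.Injective deg) (hΛ : Pos Λ) {n : ℕ} (w : Fin n → M)
    (hw1 : Function.Injective w) (hw2 : Set.range w = Set.range deg ∩ Λ)
    (hw3 : ∀ k, ray (w k) ≤ Λ) (xs : Fin n → Pt R A (Polynomial S₀))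
    (hx : ∀ k, IsRoot t (w k) (xs k)) (j : S₀ →ₐ[R] S) :
    Set.BijOn (fun s : Fin n → S => (List.ofFn fun k => cv (xs k) j (s k)).prod) Set.univ
      {g : Pt R A S | InU Λ t j g} := by
  obtain ⟨hwm, X, hX⟩ := prod_exists_chart hw hinj hΛ hw1 hw2
  have hP : ∀ (S : Type u) [CommRing S] [Algebra R S] (j : S₀ →ₐ[R] S) (s : Fin n → S),
      xev (List.ofFn fun k => cv (xs k) (IsScalarTower.toAlgHom R S₀ (MvPolynomial (Fin n) S₀))
        (MvPolynomial.X k)).prod j s = (List.ofFn fun k => cv (xs k) j (s k)).prod := by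
    intro S _ _ j s
    rw [xev, prod_pm_list, aevalTower_comp_toAlgHom]
    simp only [aevalTower_X]
  obtain ⟨F, hF, hF'⟩ := prod_form hX (P := (List.ofFn fun k => cv (xs k)
      (IsScalarTower.toAlgHom R S₀ (MvPolynomial (Fin n) S₀)) (MvPolynomial.X k)).prod)
    (List.prod_induction _ (fun a b ha hb => InU.mul hΛ ha hb) InU.one fun g hg => by
      obtain ⟨k, rfl⟩ := List.mem_ofFn.1 hg
      exact InU.mono (((hx k).bij _ _).mapsTo trivial) (hw3 k)) (by
      rw [hP]
      have e : ∀ L : List (Pt R A (MvPolynomial (Fin n) S₀)),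
          cj t (IsScalarTower.toAlgHom R S₀ _) L.prod =
            (L.map (cj t (IsScalarTower.toAlgHom R S₀ _))).prod := by
        intro L
        induction L with
        | nil => simp [cj]
        | cons a L ih => rw [List.prod_cons, cj_mul, ih, List.map_cons, List.prod_cons]
      rw [e, List.map_ofFn]
      congr 2
      funext k
      exact (hx k).cj_cv _)
  obtain ⟨l, hl⟩ := hΛ
  have hl' : ∀ k, 0 < l (w k) := fun k => hl _ (hwm k).1 (hwm k).2
  choose G hG1 hG2 hG3 using fun i => prod_lin hw1 l hl' (F i) i (hF i)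
  have hev : ∀ (S : Type u) [CommRing S] [Algebra R S] (j : S₀ →ₐ[R] S) (s : Fin n → S) i,
      aevalTower j s (F i) = j (coeff (Finsupp.single i 1) (F i)) * s i + aevalTower j s (G i) := by
    intro S _ _ j s i
    conv_lhs => rw [hG1 i]
    rw [map_add, map_mul, aevalTower_C, aevalTower_X]
  have hu : ∀ i, IsUnit (coeff (Finsupp.single i 1) (F i)) := by
    intro i
    obtain ⟨b, -, hb⟩ := ((hx i).bij S₀ (AlgHom.id R S₀)).surjOn
      (prod_axis hX i (hwm i).2 (1 : S₀))
    have h1 := hF' S₀ (AlgHom.id R S₀) (Pi.single i b)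
    rw [hP, prod_ofFn_single _ i (fun k hk => by
      rw [Pi.single_eq_of_ne hk]; exact prod_cv_zero (hx k)), Pi.single_eq_same, hb] at h1
    have h2 := congrFun ((hX.bij _ _).injOn trivial trivial h1) i
    rw [hev, prod_single (fun h => lt_irrefl _ (hG2 i i h)) (hG3 i), Pi.single_eq_same,
      Pi.single_eq_same, add_zero] at h2
    exact IsUnit.of_mul_eq_one b h2.symm
  have hb := prod_tri (fun k => (l (w k)).toNat) (fun i => j (coeff (Finsupp.single i 1) (F i)))
    (fun i => (hu i).map j) (fun i s => aevalTower j s (G i)) fun i s s' h =>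
      prod_congr _ _ _ fun k hk => h k (by have := hG2 i k hk; have := hl' k; omega)
  have e : (fun s : Fin n → S => (List.ofFn fun k => cv (xs k) j (s k)).prod) =
      xev X j ∘ fun (s : Fin n → S) i =>
        j (coeff (Finsupp.single i 1) (F i)) * s i + aevalTower j s (G i) := by
    funext s
    rw [← hP, hF']
    simp only [hev, Function.comp_apply]
  rw [e]
  exact (hX.bij S j).comp (Set.bijOn_univ.2 hb)

/-- The rational cone spanned by two weights. -/
def prodCone (α β : M) : AddSubmonoid M where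
  carrier := {m | ∃ p p' q : ℕ, 0 < q ∧ q • m = p • α + p' • β}
  zero_mem' := ⟨0, 0, 1, one_pos, by simp⟩
  add_mem' := by
    rintro a b ⟨p, p', q, hq, h⟩ ⟨r, r', q', hq', h'⟩
    refine ⟨q' * p + q * r, q' * p' + q * r', q * q', Nat.mul_pos hq hq', ?_⟩
    have e : (q * q') • (a + b) = q' • q • a + q • q' • b := by
      rw [smul_add, smul_smul, smul_smul, mul_comm q' q]
    rw [e, h, h']
    simp only [smul_add, add_smul, smul_smul]
    abel

theorem prod_exists_pos [Module.Free ℤ M] (hind : LinearIndependent ℤ ![α, β]) :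
    ∃ l : M →+ ℤ, 0 < l α ∧ 0 < l β := by
  have hp := LinearIndependent.pair_iff.1 hind
  have hα : α ≠ 0 := fun h => one_ne_zero (hp 1 0 (by simp [h])).1
  obtain ⟨l1, h1, -⟩ := exists_generic (∅ : Finset M) (by simp) hα
  have hγ : (-l1 β) • α + l1 α • β ≠ 0 := fun h => h1.ne' (hp _ _ h).2
  obtain ⟨l2, h2, -⟩ := exists_generic (∅ : Finset M) (by simp) hγ
  simp only [map_add, map_zsmul, smul_eq_mul] at h2
  refine ⟨l1 + (|l1 β| + 1) • (l1 α • l2 - l2 α • l1), ?_, ?_⟩
  · simp only [AddMonoidHom.add_apply, AddMonoidHom.smul_apply, AddMonoidHom.sub_apply,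
      smul_eq_mul]
    nlinarith
  · simp only [AddMonoidHom.add_apply, AddMonoidHom.smul_apply, AddMonoidHom.sub_apply,
      smul_eq_mul]
    nlinarith [neg_abs_le (l1 β), abs_nonneg (l1 β)]

/-- Root groups commute when no other weight lies in the rational cone they span. -/
theorem IsRoot.comm [Module.Free ℤ M] [Finite ι] (ht : IsHom t) (hw : Wts t deg)
    (hinj : Function.Injective deg) (hα : α ∈ Set.range deg) (hβ : β ∈ Set.range deg)
    (hind : LinearIndependent ℤ ![α, β])
    (hc : ∀ i, ∀ p p' q : ℕ, 0 < q → q • deg i = p • α + p' • β → deg i = α ∨ deg i = β)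
    (hx : IsRoot t α x) (hy : IsRoot t β y) (j : S₀ →ₐ[R] S) (a b : S) :
    cv x j a * cv y j b = cv y j b * cv x j a := by
  obtain ⟨l, hl1, hl2⟩ := prod_exists_pos hind
  have hΛ : Pos (prodCone α β) := by
    refine ⟨l, ?_⟩
    rintro m ⟨p, p', q, hq, h⟩ hm
    have h1 := congrArg l h
    simp only [map_add, map_nsmul, nsmul_eq_mul] at h1
    have hq' : (0 : ℤ) < q := by exact_mod_cast hq
    have h2 : (0 : ℤ) < p * l α + p' * l β := by
      rcases Nat.eq_zero_or_pos p with rfl | hp
      · rcases Nat.eq_zero_or_pos p' with rfl | hp'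
        · rw [zero_smul, zero_smul, add_zero, ← natCast_zsmul] at h
          exact absurd h (smul_ne_zero hq'.ne' hm)
        · positivity
      · positivity
    rw [← h1] at h2
    exact (pos_iff_pos_of_mul_pos h2).1 hq'
  have r1 : ray α ≤ prodCone α β := by
    rintro m ⟨p, q, hq, h⟩
    exact ⟨p, 0, q, hq, by rw [h, zero_smul, add_zero]⟩
  have r2 : ray β ≤ prodCone α β := by
    rintro m ⟨p, q, hq, h⟩
    exact ⟨0, p, q, hq, by rw [h, zero_smul, zero_add]⟩
  obtain ⟨-, X, hX⟩ := prod_exists_chart (w := ![α, β]) hw hinj hΛ hind.injective (by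
    ext m
    simp only [Matrix.range_cons, Matrix.range_empty, Set.union_empty, Set.mem_union,
      Set.mem_singleton_iff, Set.mem_inter_iff]
    constructor
    · rintro (rfl | rfl)
      · exact ⟨hα, 1, 0, 1, one_pos, by simp⟩
      · exact ⟨hβ, 0, 1, 1, one_pos, by simp⟩
    · rintro ⟨⟨i, rfl⟩, p, p', q, hq, h⟩
      exact hc i p p' q hq h)
  have hlin : ∀ (F : MvPolynomial (Fin 2) S₀) (i : Fin 2),
      (∀ m, coeff m F ≠ 0 → Finsupp.weight ![α, β] m = ![α, β] i) →
        F = C (coeff (Finsupp.single i 1) F) * MvPolynomial.X i := by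
    intro F i hF
    ext m
    rw [C_mul_X_eq_monomial, coeff_monomial]
    split_ifs with h
    · rw [h]
    · by_contra hm
      apply h
      have h1 := hF m hm
      rw [← one_smul ℕ (![α, β] i), ← Finsupp.weight_single] at h1
      have h2 : ∀ m : Fin 2 →₀ ℕ, Finsupp.weight ![α, β] m = (m 0 : ℤ) • α + (m 1 : ℤ) • β := by
        intro m
        rw [Finsupp.weight_apply, Finsupp.sum_fintype _ _ (fun _ => by simp),
          Fin.sum_univ_two]
        simp
      rw [h2, h2] at h1
      generalize (Finsupp.single i 1 : Fin 2 →₀ ℕ) = m' at h1 ⊢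
      have h3 := LinearIndependent.pair_iff.1 hind ((m 0 : ℤ) - m' 0) ((m 1 : ℤ) - m' 1) (by
        rw [sub_smul, sub_smul, sub_add_sub_comm, h1, sub_self])
      ext k
      fin_cases k
      · exact_mod_cast (sub_eq_zero.1 h3.1).symm
      · exact_mod_cast (sub_eq_zero.1 h3.2).symm
  have u1 := InU.mono ((hx.bij _ (IsScalarTower.toAlgHom R S₀ (MvPolynomial (Fin 2) S₀))).mapsTo
    (x := MvPolynomial.X 0) trivial) r1
  have u2 := InU.mono ((hy.bij _ (IsScalarTower.toAlgHom R S₀ (MvPolynomial (Fin 2) S₀))).mapsTo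
    (x := MvPolynomial.X 1) trivial) r2
  have hv : ∀ (z : Pt R A (Polynomial S₀)) (k : Fin 2) (S : Type u) [CommRing S] [Algebra R S]
      (j : S₀ →ₐ[R] S) (s : Fin 2 → S), pm (aevalTower j s)
        (cv z (IsScalarTower.toAlgHom R S₀ (MvPolynomial (Fin 2) S₀)) (MvPolynomial.X k)) =
        cv z j (s k) := by
    intro z k S _ _ j s
    rw [pm_cv, aevalTower_comp_toAlgHom, aevalTower_X]
  obtain ⟨F, hF, hF'⟩ := prod_form hX (InU.mul hΛ u1 u2) (by
    rw [xev, map_mul, hv, hv, cj_mul, hx.cj_cv, hy.cj_cv]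
    rfl)
  obtain ⟨G, hG, hG'⟩ := prod_form hX (InU.mul hΛ u2 u1) (by
    rw [xev, map_mul, hv, hv, cj_mul, hx.cj_cv, hy.cj_cv]
    rfl)
  simp only [xev, map_mul, hv] at hF' hG'
  have hFG : F = G := by
    funext i
    have h1 := hF' S₀ (AlgHom.id R S₀) (Pi.single i 1)
    have h2 := hG' S₀ (AlgHom.id R S₀) (Pi.single i 1)
    have h3 : cv x (AlgHom.id R S₀) ((Pi.single i 1 : Fin 2 → S₀) 0) *
        cv y (AlgHom.id R S₀) ((Pi.single i 1 : Fin 2 → S₀) 1) =
        cv y (AlgHom.id R S₀) ((Pi.single i 1 : Fin 2 → S₀) 1) *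
        cv x (AlgHom.id R S₀) ((Pi.single i 1 : Fin 2 → S₀) 0) := by
      fin_cases i
      · simp [prod_cv_zero hy]
      · simp [prod_cv_zero hx]
    have h4 := congrFun ((hX.bij S₀ (AlgHom.id R S₀)).injOn trivial trivial
      (h1.symm.trans (h3.trans h2))) i
    rw [hlin (F i) i (hF i), hlin (G i) i (hG i)] at h4
    simp only [map_mul, aevalTower_C, aevalTower_X, Pi.single_eq_same, mul_one,
      AlgHom.id_apply] at h4
    rw [hlin (F i) i (hF i), hlin (G i) i (hG i), h4]
  have h1 := hF' S j ![a, b]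
  have h2 := hG' S j ![a, b]
  rw [hFG] at h1
  exact h1.trans h2.symm

end Pool.Agent.RED.X

namespace Pool.Agent.RED

alias prod_bij := X.prod_bij
alias IsRoot.comm := X.IsRoot.comm

end Pool.Agent.RED
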