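import Pool.Agent.P.MP_c1f06d_ag.g.RDL
import Pool.Agent.P.MP_c1f06d_ag.g.AutA
import Pool.Agent.P.MP_c1f06d_ag.g.Cover
import Pool.Agent.P.MP_c1f06d_ag.g.Prod

/-! The consequences of the axioms of a pinning. -/

open TensorProduct Polynomial Pool.Agent.GR

universe u

namespace Pool.Agent.RED

section general

variable {R A : Type u} [CommRing R] [CommRing A] [HopfAlgebra R A]
  {S₀ S : Type u} [CommRing S₀] [Algebra R S₀] [CommRing S] [Algebra R S]
  {M : Type} [AddCommGroup M] {t : Pt R A (GA S₀ M)} {j : S₀ →ₐ[R] S}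

/-- `U_Λ` depends only on the weights that lie in `Λ`. -/
theorem Wts.inU_of {ι : Type} {deg : ι → M} (hw : Wts t deg) {Λ Λ' : AddSubmonoid M}
    (hΛ : Pos Λ') (h : ∀ i, deg i ∈ Λ' → deg i ∈ Λ) {g : Pt R A S} (hg : InU Λ' t j g) :
    InU Λ t j g := by
  obtain ⟨X, hX⟩ := hw.2 Λ' hΛ
  obtain ⟨s, -, rfl⟩ := (hX.bij S j).2.2 hg
  refine ⟨fun a => ?_, hg.2⟩
  rw [hX.cj_xev]
  show _ ∈ sup R S Λ
  rw [xev, pm_apply]
  generalize X.ofConv a = q
  induction q using MvPolynomial.induction_on with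
  | C c =>
    rw [MvPolynomial.aevalTower_C]
    exact single_mem_sup Λ.zero_mem _
  | add p q hp hq =>
    rw [map_add]
    exact add_mem hp hq
  | mul_X p i hp =>
    rw [map_mul, MvPolynomial.aevalTower_X]
    exact mul_mem hp (single_mem_sup (h i.1 i.2) _)

/-- The lift of the reflection normalises the torus. -/
theorem SL2.nn_tev (ht : IsHom t) {α : M} {cor : M →+ ℤ} (h2 : cor α = 2)
    {x y : Pt R A (Polynomial S₀)} (hx : IsRoot t α x) (hy : IsRoot t (-α) y)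
    (h : SL2 t cor 1 x y) (τ : TP M S) :
    cv x j 1 * cv y j (-1) * cv x j 1 * tev t j τ * (cv x j 1 * cv y j (-1) * cv x j 1)⁻¹ =
      tev t j (τ * (coc cor (τ (Multiplicative.ofAdd α)))⁻¹) := by
  set v := τ (Multiplicative.ofAdd α) with hv
  have e1 := h S j (v - 1) 1 v (by simp)
  have e2 := hx.eqv S j τ 1
  have e3 := hy.eqv S j τ (-1)
  have e4 := hx.eqv S j (coc cor v) (v⁻¹ : Sˣ)
  have c1 : chv τ α = v := rfl
  have c2 : chv τ (-α) = (v⁻¹ : Sˣ) := by rw [chv, ofAdd_neg, map_inv]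
  have c3 : chv (coc cor v) α * (v⁻¹ : Sˣ) = v := by
    rw [chv_coc, h2, zpow_two, Units.val_mul, Units.mul_inv_cancel_right]
  rw [c1, mul_one] at e2
  rw [c2] at e3
  rw [c3] at e4
  have a1 : cv x j v = cv x j (v - 1) * cv x j 1 := by rw [← hx.add, sub_add_cancel]
  have a2 : cv y j ((v⁻¹ : Sˣ) * -1) = (cv y j (1 * (v⁻¹ : Sˣ)))⁻¹ :=
    eq_inv_of_mul_eq_one_left (by rw [← hy.add, ← hy.cv_zero]; congr 1; ring)
  have a3 : cv y j (-1) = (cv y j 1)⁻¹ :=
    eq_inv_of_mul_eq_one_left (by rw [← hy.add, neg_add_cancel, hy.cv_zero])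
  have a4 : cv x j 1 = cv x j (v⁻¹ : Sˣ) * cv x j ((v - 1) * (v⁻¹ : Sˣ)) := by
    rw [← hx.add, sub_mul, Units.mul_inv, one_mul, add_sub_cancel]
  have key : tev t j τ * (cv x j 1 * cv y j (-1) * cv x j 1) * (tev t j τ)⁻¹ =
      tev t j (coc cor v) * (cv x j 1 * cv y j (-1) * cv x j 1) := by
    calc _ = (tev t j τ * cv x j 1 * (tev t j τ)⁻¹) * (tev t j τ * cv y j (-1) * (tev t j τ)⁻¹) *
          (tev t j τ * cv x j 1 * (tev t j τ)⁻¹) := by group
      _ = cv x j v * ((cv y j (1 * (v⁻¹ : Sˣ)))⁻¹ * (cv x j (v - 1) * cv y j 1)) *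
          (cv y j 1)⁻¹ * cv x j 1 := by rw [e2, e3, a2]; nth_rewrite 2 [a1]; group
      _ = _ := by rw [e1, ← e4, a3]; nth_rewrite 2 [a4]; group
  rw [mul_comm τ, ht S j, ht.tev_inv]
  generalize cv x j 1 * cv y j (-1) * cv x j 1 = n at key
  calc _ = (tev t j (coc cor v))⁻¹ * (tev t j (coc cor v) * n) * tev t j τ * n⁻¹ := by group
    _ = _ := by rw [← key]; group

variable {ι : Type} [Finite ι] {deg : ι → M} {l : M →+ ℤ} [Module.Free ℤ M] [Algebra.Smooth R A]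

/-- The open set where finitely many points lie in the cell. -/
theorem exists_cell_open (ht : IsHom t) (hw : Wts t deg) (hl : ∀ i, l (deg i) ≠ 0) (n : ℕ) :
    ∀ (S : Type u) [CommRing S] [Algebra R S] (j : S₀ →ₐ[R] S) (y : Fin n → Pt R A S),
      ∃ (T : Type u) (_ : CommRing T) (_ : Algebra R T) (φ : S →ₐ[R] T), (φ : S →+* T).Flat ∧
        (∀ i, InCell l t (φ.comp j) (pm φ (y i))) ∧
        ∀ (L : Type u) [CommRing L] [Algebra R L] (ψ : S →ₐ[R] L),
          (∀ i, InCell l t (ψ.comp j) (pm ψ (y i))) → ∃ m : T →ₐ[R] L, m.comp φ = ψ := by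
  obtain ⟨C, _, _, jC, u, hr⟩ := exists_repCell (l := l) ht hw
  have hfl : (fn jC u : S₀ ⊗[R] A →+* C).Flat := (hr.cell_smooth ht hw hl).flat
  induction n with
  | zero => exact fun S _ _ j y => ⟨S, inferInstance, inferInstance, AlgHom.id R S,
      RingHom.Flat.id S, fun i => i.elim0, fun L _ _ ψ _ => ⟨ψ, rfl⟩⟩
  | succ n ih =>
    intro S _ _ j y
    obtain ⟨W, _, _, l₁, q, h1, e, U⟩ := X.cov_push (fn jC u) hfl (fn j (y 0))
    rw [X.cov_comp_fn, X.cov_comp_fn] at e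
    obtain ⟨e1, e2⟩ := X.cov_fn_inj e
    obtain ⟨T, _, _, φ, h2, h3, U'⟩ := ih W (l₁.comp j) fun i => pm l₁ (y i.succ)
    refine ⟨T, inferInstance, inferInstance, φ.comp l₁, RingHom.Flat.comp h1 h2,
      Fin.cases (((hr.mem W _ _).2 ⟨q, e1, e2⟩).map φ) h3, fun L _ _ ψ hψ => ?_⟩
    obtain ⟨q', a1, a2⟩ := (hr.mem L _ _).1 (hψ 0)
    obtain ⟨m₁, rfl, -⟩ := U L ψ q' (by rw [X.cov_comp_fn, X.cov_comp_fn, a1, a2])
    obtain ⟨m₂, rfl⟩ := U' L m₁ fun i => hψ i.succ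
    exact ⟨m₂, rfl⟩

omit [Algebra.Smooth R A] in
theorem trans_inj_right (g : Pt R A S) : Function.Injective
    (fn (X.covL R A S) (X.covU R A S * pm (X.covL R A S) g)) := by
  have h := X.cov_comp_fn (fn (X.covL R A S) (X.covU R A S * pm (X.covL R A S) g⁻¹))
    (X.covL R A S) (X.covU R A S * pm (X.covL R A S) g)
  rw [map_mul, pm_pm, X.cov_fn_left, X.cov_fn_right, map_inv, inv_mul_cancel_right,
    X.cov_fn_id] at h
  exact Function.LeftInverse.injective fun x => AlgHom.congr_fun h x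

/-- Finitely many points can be moved into the cell. -/
theorem exists_cell_gen (ht : IsHom t) (hw : Wts t deg) (hl : ∀ i, l (deg i) ≠ 0) (hG : GI R A)
    (j : S₀ →ₐ[R] S) {n : ℕ} (g : Fin n → Pt R A S) :
    ∃ (T : Type u) (_ : CommRing T) (_ : Algebra R T) (φ : S →ₐ[R] T) (η : Pt R A T),
      (φ : S →+* T).FaithfullyFlat ∧ ∀ i, InCell l t (φ.comp j) (η * pm φ (g i)) := by
  obtain ⟨T, _, _, φ, h1, h2, U⟩ := exists_cell_open ht hw hl n (S ⊗[R] A)
    ((X.covL R A S).comp j) fun i => X.covU R A S * pm (X.covL R A S) (g i)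
  refine ⟨T, inferInstance, inferInstance, φ.comp (X.covL R A S), pm φ (X.covU R A S),
    X.cov_ff _ (RingHom.Flat.comp
      ((RingHom.flat_algebraMap_iff (R := S) (S := S ⊗[R] A)).2 inferInstance) h1) fun m hm => ?_,
    fun i => by
      have := h2 i
      rw [map_mul] at this
      exact this⟩
  let : Field (S ⧸ m) := Ideal.Quotient.field m
  obtain ⟨Ω, _, _, _, ⟨i⟩⟩ := X.cov_clos (R := R) (S ⧸ m)
  have := hG Ω
  obtain ⟨F, _, _, e, he⟩ := X.cov_frac (R := R) (Ω ⊗[R] A)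
  let p := i.comp (Ideal.Quotient.mkₐ R m)
  obtain ⟨ψ, hψ⟩ := U F (fn ((e.comp (X.covL R A Ω)).comp p) (pm e (X.covU R A Ω))) fun k => by
    rw [← AlgHom.comp_assoc, map_mul, pm_pm, X.cov_fn_left, X.cov_fn_right]
    refine (inCell_bc (j := p.comp j) (e.comp (X.covL R A Ω))).1
      (inCell_generic (ht.base _) (hw.base _) hl (e.comp (X.covL R A Ω)) _ ?_)
    have := he.comp (trans_inj_right (pm p (g k)))
    rwa [← AlgHom.coe_comp, X.cov_comp_fn, map_mul] at this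
  refine ⟨F, inferInstance, inferInstance, ψ, fun x hx => ?_⟩
  refine (AlgHom.congr_fun hψ (X.covL R A S x)).trans ?_
  refine (AlgHom.congr_fun (X.cov_fn_left _ _) x).trans ?_
  show e (X.covL R A Ω (i (Ideal.Quotient.mk m x))) = 0
  rw [Ideal.Quotient.eq_zero_iff_mem.2 hx, map_zero, map_zero, map_zero]

end general

namespace Pin

variable {D : RD} {R A B : Type u} [CommRing R] [CommRing A] [HopfAlgebra R A] [CommRing B]
  [Algebra R B] {P : Pin D R A B} {C C' : Type u} [CommRing C] [Algebra R C] [CommRing C']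
  [Algebra R C'] (f : B →ₐ[R] C)

theorem Pre.push {B' : Type u} [CommRing B'] [Algebra R B'] (h : P.Pre) (j : B →ₐ[R] B') :
    (P.push j).Pre :=
  ⟨h.hom.base j, h.zt.base j, h.wts.base j, fun b i => (h.root b i).base j, fun i => by
    have := (h.sl2 i).base j
    rwa [map_one] at this⟩

variable (P) in
theorem pm_nn (φ : C →ₐ[R] C') (i : Fin D.m) : pm φ (P.nn f i) = P.nn (φ.comp f) i := by
  simp only [nn, xa, map_mul, pm_cv, map_one, map_neg]

variable (P) in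
theorem pm_nw (φ : C →ₐ[R] C') (w : List (Fin D.m)) : pm φ (P.nw f w) = P.nw (φ.comp f) w := by
  induction w with
  | nil => exact map_one _
  | cons i w ih =>
    simp only [nw, List.map_cons, List.prod_cons, map_mul] at ih ⊢
    rw [pm_nn, ih]

variable (P) in
theorem pm_xr (φ : C →ₐ[R] C') (b : Bool) (j : Fin D.N) (s : C) :
    pm φ (P.xr f b j s) = P.xr (φ.comp f) b j (φ s) := by
  rw [xr, map_mul, map_mul, map_inv, pm_nw, xa, pm_cv, xr, xa]

variable (P) in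
theorem pm_un (φ : C →ₐ[R] C') (b : Bool) (s : Fin D.N → C) :
    pm φ (P.un f b s) = P.un (φ.comp f) b fun j => φ (s j) := by
  rw [un, map_list_prod, List.map_ofFn, un]
  congr 2
  exact funext fun j => P.pm_xr f φ b j (s j)

variable (P) in
theorem pm_cell (φ : C →ₐ[R] C') (p : (Fin D.N → C) × TP (XL D.r) C × (Fin D.N → C)) :
    pm φ (P.cell f p) =
      P.cell (φ.comp f) (fun j => φ (p.1 j), tm φ p.2.1, fun j => φ (p.2.2 j)) := by
  rw [cell, map_mul, map_mul, pm_un, pm_un, ta, pm_tev, cell, ta]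

theorem Pre.rootp (h : P.Pre) (i : Fin D.m) : IsRoot P.τ (D.al i) (P.x true i) := by
  simpa only [sg, one_smul] using h.root true i

theorem Pre.rootm (h : P.Pre) (i : Fin D.m) : IsRoot P.τ (-D.al i) (P.x false i) := by
  simpa only [sg, neg_smul, one_smul] using h.root false i

theorem Pre.nn_ta (h : P.Pre) (i : Fin D.m) (t : TP (XL D.r) C) :
    P.nn f i * P.ta f t * (P.nn f i)⁻¹ = P.ta f (twp t (D.rf i)) := by
  refine ((h.sl2 i).nn_tev h.hom (D.two i) (h.rootp i) (h.rootm i) t).trans ?_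
  refine congrArg _ (MonoidHom.ext fun m => ?_)
  show t m * (t (Multiplicative.ofAdd (D.al i)) ^ D.co i m.toAdd)⁻¹ =
    t (Multiplicative.ofAdd (m.toAdd - D.co i m.toAdd • D.al i))
  rw [ofAdd_sub, ofAdd_zsmul, _root_.map_div, map_zpow, div_eq_mul_inv]
  rfl

theorem Pre.cg_nn (h : P.Pre) (i : Fin D.m) :
    Au.cg (P.nn (AlgHom.id R B) i) P.τ = Au.tw (D.rf i) P.τ := by
  have e : ∀ t : Pt R A (GA B (XL D.r)),
      tev t ((cst R B _).comp (AlgHom.id R B)) (uT B _) = t := fun t => by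
    rw [tev_uT, bc, AddMonoidAlgebra.mapAlgHom_id, pm_id]
  rw [← e (Au.cg _ _), ← e (Au.tw _ _), Au.tev_cg, Au.tev_tw, pm_nn]
  exact h.nn_ta _ i _

theorem Pre.root_nw (h : P.Pre) (w : List (Fin D.m)) {α : XL D.r} {x : Pt R A B[X]}
    (hx : IsRoot P.τ α x) : IsRoot P.τ (D.sw w α) (Au.cgX (P.nw (AlgHom.id R B) w) x) := by
  induction w with
  | nil => simpa [nw, Au.cgX, D.sw_nil] using hx
  | cons i w ih =>
    let e : XL D.r ≃+ XL D.r :=
      { D.rf i with invFun := D.rf i, left_inv := D.rf_rf i, right_inv := D.rf_rf i }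
    have h1 := Au.isRoot_cg (P.nn (AlgHom.id R B) i) ih
    rw [h.cg_nn] at h1
    have h2 := Au.isRoot_tw e h1
    rw [Au.tw_tw, show (e : XL D.r →+ XL D.r).comp (D.rf i) = AddMonoidHom.id _ from
      AddMonoidHom.ext (D.rf_rf i), Au.tw_id] at h2
    have e2 : Au.cgX (P.nw (AlgHom.id R B) (i :: w)) x =
        Au.cgX (P.nn (AlgHom.id R B) i) (Au.cgX (P.nw (AlgHom.id R B) w) x) := by
      simp only [nw, Au.cgX, List.map_cons, List.prod_cons, map_mul]
      group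
    rw [e2]
    exact h2

theorem Pre.xroot (h : P.Pre) (b : Bool) (j : Fin D.N) : ∃ y : Pt R A B[X],
    IsRoot P.τ (D.rt (b, j)) y ∧ ∀ (C : Type u) [CommRing C] [Algebra R C] (f : B →ₐ[R] C)
      (s : C), cv y f s = P.xr f b j s :=
  ⟨_, D.rt_eq (b, j) ▸ h.root_nw (D.wd j) (h.root b (D.sm j)), fun C _ _ f s => by
    rw [Au.cv_cgX, pm_nw]
    rfl⟩

theorem Pre.comm (h : P.Pre) {i j : Fin D.m} (hij : i ≠ j) (s s' : C) :
    Commute (P.xa f true i s) (P.xa f false j s') := by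
  have nn : ∀ (k : Fin D.m) (l : XL D.r →+ ℤ) (q : ℕ),
      (∀ a, l (D.al a) = q * (Pi.single k 1 : Fin D.m → ℤ) a) → ∀ c, 0 ≤ l (D.be c) :=
    fun k l q hl c => AddSubmonoid.closure_le (S := (AddSubmonoid.nonneg ℤ).comap l).2 (by
      rintro _ ⟨a, rfl⟩
      show 0 ≤ l (D.al a)
      rw [hl, Pi.single_apply]
      split_ifs <;> simp) (D.pos c)
  have r1 : D.rt (true, D.ix i) = D.al i := by simp [D.rt_ix, sg]
  have r2 : D.rt (false, D.ix j) = -D.al j := by simp [D.rt_ix, sg]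
  refine IsRoot.comm h.hom h.wts D.rt_inj ⟨_, r1⟩ ⟨_, r2⟩ ?_ ?_ (h.rootp i) (h.rootm j) f s s'
  · rw [LinearIndependent.pair_iff]
    intro a b e
    obtain ⟨l, q, hq, hl⟩ := D.exists_coch (Pi.single i 1)
    obtain ⟨l', q', hq', hl'⟩ := D.exists_coch (Pi.single j 1)
    have e1 := congrArg l e
    have e2 := congrArg l' e
    simp only [map_add, map_zsmul, map_neg, hl, hl'] at e1 e2
    simp [hij, hij.symm, hq.ne', hq'.ne'] at e1 e2
    exact ⟨e1, e2⟩
  · rintro ⟨b, c⟩ p p' q hq e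
    cases b
    · obtain ⟨l, q', hq', hl⟩ := D.exists_coch (Pi.single i 1)
      have e1 := congrArg l e
      have e2 := nn i l q' hl c
      simp only [RD0.rt, map_add, map_nsmul, map_zsmul, map_neg, hl] at e1
      simp [sg, hij.symm] at e1
      have : p = 0 := by
        have : (p : ℤ) * q' ≤ 0 := by rw [← e1]; exact neg_nonpos.2 (by positivity)
        have : (0 : ℤ) < q' := by exact_mod_cast hq'
        by_contra h0
        have : (0 : ℤ) < p := by exact_mod_cast Nat.pos_of_ne_zero h0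
        nlinarith
      rw [this, zero_smul, zero_add, ← r2] at e
      exact .inr (r2 ▸ congrArg D.rt (D.rt_ray ⟨p', q, hq, e⟩))
    · obtain ⟨l, q', hq', hl⟩ := D.exists_coch (Pi.single j 1)
      have e1 := congrArg l e
      have e2 := nn j l q' hl c
      simp only [RD0.rt, map_add, map_nsmul, map_zsmul, map_neg, hl] at e1
      simp [sg, hij] at e1
      have : p' = 0 := by
        have : 0 ≤ -((p' : ℤ) * q') := by rw [← e1]; positivity
        have : (0 : ℤ) < q' := by exact_mod_cast hq'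
        by_contra h0
        have : (0 : ℤ) < p' := by exact_mod_cast Nat.pos_of_ne_zero h0
        nlinarith
      rw [this, zero_smul, add_zero, ← r1] at e
      exact .inl (r1 ▸ congrArg D.rt (D.rt_ray ⟨p, q, hq, e⟩))

theorem pos_rt {l : XL D.r →+ ℤ} (hl : ∀ i, 0 < l (D.al i)) (b : Bool) (p : Bool × Fin D.N) :
    0 < (sg b • l) (D.rt p) ↔ p.1 = b := by
  have := D.pos_be hl p.2
  obtain ⟨b', j⟩ := p
  cases b <;> cases b' <;> simp [RD0.rt, sg] at this ⊢ <;> omega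

theorem mem_hs_rt {l : XL D.r →+ ℤ} (hl : ∀ i, 0 < l (D.al i)) (b : Bool) (p : Bool × Fin D.N) :
    D.rt p ∈ hs (sg b • l) ↔ p.1 = b :=
  (or_iff_right (D.rt_ne p)).trans (pos_rt hl b p)

theorem Pre.un_bij (h : P.Pre) {l : XL D.r →+ ℤ} (hl : ∀ i, 0 < l (D.al i)) (b : Bool) :
    Set.BijOn (P.un f b) Set.univ {g | InU (hs (sg b • l)) P.τ f g} := by
  choose y hy1 hy2 using h.xroot b
  have := prod_bij h.hom h.wts D.rt_inj (pos_hs (sg b • l)) (fun k => D.rt (b, k))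
    (fun k k' e => congrArg Prod.snd (D.rt_inj e)) (Set.ext fun x => ⟨by
      rintro ⟨k, rfl⟩
      exact ⟨⟨_, rfl⟩, (mem_hs_rt hl b _).2 rfl⟩, by
      rintro ⟨⟨⟨b', k⟩, rfl⟩, hx⟩
      obtain rfl : b' = b := (mem_hs_rt hl b _).1 hx
      exact ⟨k, rfl⟩⟩) (fun k => ray_le_hs ((pos_rt hl b _).2 rfl)) y hy1 f
  simp only [hy2] at this
  exact this

theorem Pre.inU_mon (h : P.Pre) {l : XL D.r →+ ℤ} (hl : ∀ i, 0 < l (D.al i)) (b : Bool)
    (g : Pt R A C) : InU (D.mon b) P.τ f g ↔ InU (hs (sg b • l)) P.τ f g :=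
  ⟨fun hg => hg.mono (AddSubmonoid.closure_le.2 (by
      rintro _ ⟨i, rfl⟩
      exact (D.rt_ix b i ▸ (mem_hs_rt hl b (b, D.ix i)).2 rfl :))),
    h.wts.inU_of (pos_hs _) fun p hp => (D.rt_mon b p).2 ((mem_hs_rt hl b p).1 hp)⟩

theorem Pre.unp (h : P.Pre) {l : XL D.r →+ ℤ} (hl : ∀ i, 0 < l (D.al i)) :
    Set.BijOn (P.un f true) Set.univ {g | InU (hs l) P.τ f g} := by
  simpa only [sg, one_smul] using h.un_bij f hl true

theorem Pre.unm (h : P.Pre) {l : XL D.r →+ ℤ} (hl : ∀ i, 0 < l (D.al i)) :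
    Set.BijOn (P.un f false) Set.univ {g | InU (hs (-l)) P.τ f g} := by
  simpa only [sg, neg_smul, one_smul] using h.un_bij f hl false

theorem Pre.mem_cell (h : P.Pre) {l : XL D.r →+ ℤ} (hl : ∀ i, 0 < l (D.al i)) (g : Pt R A C) :
    g ∈ Set.range (P.cell f) ↔ InCell l P.τ f g := by
  constructor
  · rintro ⟨p, rfl⟩
    exact ⟨_, _, _, (h.unm f hl).1 trivial, h.hom.inG_tev _, (h.unp f hl).1 trivial, rfl⟩
  · rintro ⟨v, z, u, hv, hz, hu, rfl⟩
    obtain ⟨s, -, rfl⟩ := (h.unm f hl).2.2 hv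
    obtain ⟨s', -, rfl⟩ := (h.unp f hl).2.2 hu
    obtain ⟨τ, rfl, -⟩ := h.zt C f z hz
    exact ⟨(s, τ, s'), rfl⟩

theorem Pre.cell_inj (h : P.Pre) : Function.Injective (P.cell f) := fun p p' e => by
  obtain ⟨l, hl⟩ := D.exists_height
  obtain ⟨e1, e2, e3⟩ := cell_uniq h.hom ((h.unm f hl).1 trivial) (h.hom.inG_tev _)
    ((h.unp f hl).1 trivial) ((h.unm f hl).1 trivial) (h.hom.inG_tev _) ((h.unp f hl).1 trivial) e
  exact Prod.ext ((h.unm f hl).2.1 trivial trivial e1) (Prod.ext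
    ((h.zt C f _ (h.hom.inG_tev p.2.1)).unique rfl e2) ((h.unp f hl).2.1 trivial trivial e3))

theorem ne_rt {l : XL D.r →+ ℤ} (hl : ∀ i, 0 < l (D.al i)) (p : Bool × Fin D.N) :
    l (D.rt p) ≠ 0 := fun e => by
  have := (pos_rt hl p.1 p).2 rfl
  simp [e] at this

theorem Pre.flat [Algebra.Smooth R A] (h : P.Pre) :
    (val (cB D R B) P.ucell : B ⊗[R] A →+* Bc D B).Flat := by
  obtain ⟨l, hl⟩ := D.exists_height
  obtain ⟨C, _, _, jC, u, hr⟩ := exists_repCell (l := l) h.hom h.wts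
  have hfl := (hr.cell_smooth h.hom h.wts (ne_rt hl)).flat
  obtain ⟨φ, a1, a2⟩ := (hr.mem _ (cB D R B) P.ucell).1 ((h.mem_cell _ hl _).1 ⟨_, rfl⟩)
  obtain ⟨p, hp⟩ := (h.mem_cell jC hl u).2 ((hr.mem C jC u).2 ⟨AlgHom.id R C, rfl, rfl⟩)
  let ψ : Bc D B →ₐ[R] C := tl (MvPolynomial.aevalTower jC fun q : Bool × Fin D.N =>
    bif q.1 then p.2.2 q.2 else p.1 q.2) p.2.1
  have b0 : ∀ x, ψ (algebraMap _ (Bc D B) x) = MvPolynomial.aevalTower jC
      (fun q : Bool × Fin D.N => bif q.1 then p.2.2 q.2 else p.1 q.2) x :=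
    AlgHom.congr_fun (tl_comp_cst _ _)
  have b1 : ψ.comp (cB D R B) = jC := AlgHom.ext fun x =>
    (b0 (MvPolynomial.C x)).trans (MvPolynomial.aevalTower_C _ _ _)
  have b2 : pm ψ P.ucell = u := by
    rw [ucell, pm_cell, b1, ← hp]
    refine congrArg _ (Prod.ext (funext fun k => ?_) (Prod.ext (tp_ext fun m => ?_)
      (funext fun k => ?_)))
    · exact (b0 _).trans (MvPolynomial.aevalTower_X _ _ _)
    · exact (tl_single _ _ m 1).trans (by rw [map_one, one_mul])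
    · exact (b0 _).trans (MvPolynomial.aevalTower_X _ _ _)
  have c1 : ψ.comp φ = AlgHom.id R C := hr.uniq C _ _
    (by rw [AlgHom.comp_assoc, a1, b1]; rfl) (by rw [← pm_pm, a2, b2]; rfl)
  have c2 : φ.comp ψ = AlgHom.id R _ := by
    have e0 : (φ.comp ψ).comp (cB D R B) = cB D R B := by rw [AlgHom.comp_assoc, b1, a1]
    have e : pm (φ.comp ψ) P.ucell = P.ucell := by rw [← pm_pm, b2, a2]
    rw [ucell, pm_cell, e0] at e
    have e1 := h.cell_inj _ e
    have e2 : (φ.comp ψ).comp (cst R _ _) = cst R _ _ := by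
      refine MvPolynomial.algHom_ext' e0 ?_
      rintro ⟨_ | _, k⟩
      · exact congrFun (congrArg Prod.fst e1) k
      · exact congrFun (congrArg (fun p => p.2.2) e1) k
    have e3 := congrArg (fun p => p.2.1) e1
    exact AddMonoidAlgebra.algHom_ext (fun m => congrArg (chv · m) e3) e2
  rw [show val (cB D R B) P.ucell = φ.comp (fn jC u) by rw [X.cov_comp_fn, a1, a2]; rfl]
  exact RingHom.Flat.comp hfl (RingHom.Flat.of_bijective
    ⟨Function.LeftInverse.injective (g := ψ) (AlgHom.congr_fun c1),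
      Function.RightInverse.surjective (g := ψ) (AlgHom.congr_fun c2)⟩)

theorem Pre.ok [Algebra.Smooth R A] (hG : GI R A) {B : Type u} [CommRing B] [Algebra R B]
    {P : Pin D R A B} (h : P.Pre) : P.Ok := by
  obtain ⟨l, hl⟩ := D.exists_height
  refine ⟨h, fun C _ _ f => ⟨fun i j hij => h.comm f hij, h.nn_ta f, fun b => ?_,
    fun b s s' => ?_, h.cell_inj f, fun g hg => ?_, fun n g => ?_⟩, h.xroot, h.flat⟩
  · simpa only [h.inU_mon f hl] using h.un_bij f hl b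
  · obtain ⟨s'', -, e⟩ := (h.un_bij f hl b).2.2 (InU.mul (pos_hs _)
      ((h.un_bij f hl b).1 (Set.mem_univ s)) ((h.un_bij f hl b).1 (Set.mem_univ s')))
    exact ⟨s'', e.symm⟩
  · refine (h.mem_cell f hl g).2 (inCell_of_points h.hom h.wts (ne_rt hl) g fun m hm => ?_)
    obtain ⟨L, _, _, _, j, h1, h2⟩ := hg m hm
    exact ⟨L, inferInstance, inferInstance, inferInstance, j, h1, (h.mem_cell _ hl _).1 h2⟩
  · obtain ⟨T, _, _, φ, η, h1, h2⟩ := exists_cell_gen h.hom h.wts (ne_rt hl) hG f g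
    exact ⟨T, inferInstance, inferInstance, φ, η, h1, fun i => (h.mem_cell _ hl _).2 (h2 i)⟩

end Pin

end Pool.Agent.RED
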