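import Pool.Agent.P.MP_c1f06d_ag.g.EntZar
import Pool.Agent.P.MP_c1f06d_ag.r.Grad
import Pool.Agent.P.MP_c1f06d_ag.r.LU

/-! Normal subgroups of unipotent matrices in a reductive group are finite. -/

open TopologicalSpace Set WithConv Matrix Pool.Agent.RG Pool.Agent.GR Pool.Agent.GR.Hp

universe u

namespace Pool.Agent.RED.Ent

section alg

variable {k B : Type u} [CommRing k] [CommRing B] [Algebra k B]

theorem nil_mul (σ : B →ₐ[k] B) (s : ℕ) : ∀ (a b : ℕ) (x y : B), a + b = s →
    ((σ.toLinearMap - 1) ^ a) x = 0 → ((σ.toLinearMap - 1) ^ b) y = 0 →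
      ((σ.toLinearMap - 1) ^ s) (x * y) = 0 := by
  induction s with
  | zero =>
    intro a b x y h hx _
    obtain rfl : a = 0 := by omega
    rw [show x = 0 from hx, zero_mul, map_zero]
  | succ s ih =>
    intro a b x y h hx hy
    rcases a with _ | a
    · rw [show x = 0 from hx, zero_mul, map_zero]
    rcases b with _ | b
    · rw [show y = 0 from hy, mul_zero, map_zero]
    have e : (σ.toLinearMap - 1) (x * y) =
        (σ.toLinearMap - 1) x * σ y + x * (σ.toLinearMap - 1) y := by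
      simp only [LinearMap.sub_apply, AlgHom.toLinearMap_apply, Module.End.one_apply, map_mul]
      ring
    have e2 : σ y = (σ.toLinearMap - 1) y + y := by simp
    rw [pow_succ, Module.End.mul_apply, e, map_add,
      ih a (b + 1) _ _ (by omega) (by rwa [pow_succ, Module.End.mul_apply] at hx) (by
        rw [e2, map_add, hy, add_zero, ← Module.End.mul_apply, ← pow_succ, pow_succ',
          Module.End.mul_apply, hy, map_zero]),
      ih (a + 1) b _ _ (by omega) hx (by rwa [pow_succ, Module.End.mul_apply] at hy), add_zero]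

theorem nil_mono (D : Module.End k B) {a : ℕ} (b : ℕ) {x : B} (h : (D ^ a) x = 0) :
    (D ^ (b + a)) x = 0 := by
  rw [pow_add, Module.End.mul_apply, h, map_zero]

/-- The elements on which `σ` is unipotent. -/
def nilS (σ : B →ₐ[k] B) : Subalgebra k B where
  carrier := {f | ∃ m : ℕ, ((σ.toLinearMap - 1) ^ m) f = 0}
  mul_mem' := fun ⟨a, ha⟩ ⟨b, hb⟩ => ⟨a + b, nil_mul σ _ a b _ _ rfl ha hb⟩
  add_mem' := fun ⟨a, ha⟩ ⟨b, hb⟩ => ⟨a + b, by
    rw [map_add, nil_mono _ a hb, add_comm a b, nil_mono _ b ha, add_zero]⟩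
  algebraMap_mem' := fun r => ⟨1, by simp⟩

theorem pow_entry {n : ℕ} (D : Module.End k B) (w : Mat n B) (c : Mat n k)
    (h : ∀ i j, D (w i j) = ∑ l, c l j • w i l) (m : ℕ) (i j : Fin n) :
    (D ^ m) (w i j) = ∑ l, (c ^ m) l j • w i l := by
  induction m with
  | zero => simp [Matrix.one_apply]
  | succ m ih =>
    rw [pow_succ', Module.End.mul_apply, ih, map_sum]
    simp only [map_smul, h, pow_succ' c, Matrix.mul_apply, Finset.sum_smul, Finset.smul_sum,
      smul_smul]
    rw [Finset.sum_comm]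
    exact Finset.sum_congr rfl fun _ _ => Finset.sum_congr rfl fun _ _ => by rw [mul_comm]

theorem inv_sub_pow {n m : ℕ} (g : GL (Fin n) k) (h : ((g : Mat n k) - 1) ^ m = 0) :
    (((g⁻¹ : GL (Fin n) k) : Mat n k) - 1) ^ m = 0 := by
  have e : ((g⁻¹ : GL (Fin n) k) : Mat n k) - 1 =
      -((g⁻¹ : GL (Fin n) k) : Mat n k) * ((g : Mat n k) - 1) := by
    rw [neg_mul, mul_sub, Units.inv_mul, mul_one, neg_sub]
  have hc : Commute (-((g⁻¹ : GL (Fin n) k) : Mat n k)) ((g : Mat n k) - 1) :=
    ((Commute.refl (g : Mat n k)).units_inv_left.sub_right (Commute.one_right _)).neg_left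
  rw [e, hc.mul_pow, h, mul_zero]

/-- A block triangular matrix with zero diagonal blocks is nilpotent, uniformly. -/
theorem exists_pow {n : ℕ} (a : Fin n → ℤ) : ∃ m : ℕ, ∀ M : Mat n k, InP a M → lv a M = 1 →
    (M - 1) ^ m = 0 := by
  obtain ⟨K, hK⟩ := (Set.finite_range fun p : Fin n × Fin n => a p.1 - a p.2).bddAbove
  have hK' : ∀ i j, a i - a j ≤ K := fun i j => hK ⟨(i, j), rfl⟩
  refine ⟨K.toNat + 1, fun M h1 h2 => ?_⟩
  have h3 : ∀ i j, a i - a j < 1 → (M - 1) i j = 0 := fun i j e => by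
    rw [Matrix.sub_apply, ← h2, lv, of_apply]
    split_ifs with e'
    · exact sub_self _
    · rw [h1 i j (by omega), sub_zero]
  have h4 : ∀ (s : ℕ) i j, a i - a j < s → ((M - 1) ^ s) i j = 0 := by
    intro s
    induction s with
    | zero =>
      intro i j e
      rw [pow_zero, one_apply_ne]
      rintro rfl
      simp at e
    | succ s ih =>
      intro i j e
      rw [pow_succ, Matrix.mul_apply]
      refine Finset.sum_eq_zero fun l _ => ?_
      by_cases e1 : a i - a l < s
      · rw [ih i l e1, zero_mul]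
      · rw [h3 l j (by push_cast at e; omega), mul_zero]
  ext i j
  exact h4 _ i j (by have := hK' i j; push_cast; omega)

end alg

variable {Ω B : Type u} [Field Ω] [CommRing B] [HopfAlgebra Ω B] {n : ℕ} {u : Mat n B}

attribute [local instance] zar

theorem rightTrans_eq (g : WithConv (B →ₐ[Ω] Ω)) : rightTrans g = (uP * cP g).ofConv :=
  AlgHom.ext fun f => (pt_mul_apply uP (cP g) f).symm

theorem gm_rightTrans (h : IsRep (k := Ω) u) (g : WithConv (B →ₐ[Ω] Ω)) :
    gm (rightTrans g) h.gl = h.gl * gm (Algebra.ofId Ω B) (h.pts Ω g) := by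
  rw [rightTrans_eq]
  exact (h.pts B).map_mul uP (cP g)

/-- A point that is unipotent in a faithful representation is unipotent. -/
theorem isUnipotent_of_rep (h : IsRep (k := Ω) u) (hs : Function.Surjective (ev Ω h.gl))
    (g : WithConv (B →ₐ[Ω] Ω)) {m : ℕ} (hm : ((h.pts Ω g : Mat n Ω) - 1) ^ m = 0) :
    IsUnipotent g := by
  have e := gm_rightTrans h g
  have e' := congrArg (·⁻¹) e
  simp only [← map_inv, _root_.mul_inv_rev] at e'
  obtain ⟨g', hg'⟩ := exists_gl_sub (nilS (rightTrans g)) h.gl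
    (fun i j => ⟨m, by
      rw [pow_entry _ (h.gl : Mat n B) ((h.pts Ω g : Mat n Ω) - 1) (fun i j => ?_), hm]
      · simp
      · have h1 : rightTrans g ((h.gl : Mat n B) i j) = ∑ l, (h.gl : Mat n B) i l *
          algebraMap Ω B ((h.pts Ω g : Mat n Ω) l j) := congrArg (fun x => x.1 i j) e
        simp only [LinearMap.sub_apply, AlgHom.toLinearMap_apply, Module.End.one_apply, h1,
          Matrix.sub_apply, sub_smul, Finset.sum_sub_distrib, Matrix.one_apply, ite_smul,
          one_smul, zero_smul, Finset.sum_ite_eq', Finset.mem_univ, if_true]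
        simp only [Algebra.smul_def, mul_comm]⟩)
    (fun i j => ⟨m, by
      have h2 := pow_entry ((rightTrans g).toLinearMap - 1) ((h.gl⁻¹ : GL (Fin n) B) : Mat n B)ᵀ
        ((((h.pts Ω g)⁻¹ : GL (Fin n) Ω) : Mat n Ω) - 1)ᵀ (fun i j => by
          have h1 : rightTrans g (((h.gl⁻¹ : GL (Fin n) B) : Mat n B) j i) =
            ∑ l, algebraMap Ω B ((((h.pts Ω g)⁻¹ : GL (Fin n) Ω) : Mat n Ω) j l) *
              ((h.gl⁻¹ : GL (Fin n) B) : Mat n B) l i := by
            rw [← map_inv]
            exact congrArg (fun x => x.1 j i) e'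
          simp only [LinearMap.sub_apply, AlgHom.toLinearMap_apply, Module.End.one_apply, h1,
            transpose_apply, Matrix.sub_apply, sub_smul, Finset.sum_sub_distrib, Matrix.one_apply,
            ite_smul, one_smul, zero_smul, Finset.sum_ite_eq, Finset.mem_univ, if_true]
          simp only [Algebra.smul_def]) m j i
      rw [← transpose_pow, inv_sub_pow _ hm] at h2
      simpa using h2⟩)
  intro f
  obtain ⟨x, rfl⟩ := hs f
  have h3 := AlgHom.congr_fun (comp_ev' (nilS (rightTrans g)).val g') x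
  rw [hg'] at h3
  rw [← h3]
  exact (ev Ω g' x).2

/-- A normal subgroup of unipotent matrices is finite. -/
theorem finite_of_unip [Algebra.FiniteType Ω B] (hB : IsConnReductive Ω B)
    (h : IsRep (k := Ω) u) (hs : Function.Surjective (ev Ω h.gl))
    (K : Subgroup (WithConv (B →ₐ[Ω] Ω))) [K.Normal] (m : ℕ)
    (hK : ∀ g ∈ K, ((h.pts Ω g : Mat n Ω) - 1) ^ m = 0) :
    (K : Set (WithConv (B →ₐ[Ω] Ω))).Finite := by
  obtain ⟨K', h1, h2⟩ := exists_closure cont_mul cont_inv K
  have hc : IsClosed {g : WithConv (B →ₐ[Ω] Ω) | ((h.pts Ω g : Mat n Ω) - 1) ^ m = 0} := by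
    refine isClosed_iff.2 ⟨range fun p : Fin n × Fin n => ((u - 1) ^ m) p.1 p.2, fun g => ?_⟩
    have e : ((h.pts Ω g : Mat n Ω) - 1) ^ m = g.ofConv.mapMatrix ((u - 1) ^ m) := by
      rw [map_pow, map_sub, map_one]
      rfl
    rw [mem_ofPred_eq, e, forall_mem_range]
    exact ⟨fun h p => congrFun (congrFun h p.1) p.2, fun h => Matrix.ext fun i j => h (i, j)⟩
  have h3 : (K' : Set (WithConv (B →ₐ[Ω] Ω))) ⊆ _ := h1 ▸ closure_minimal hK hc
  exact (finite_of_closed hB K' (h1 ▸ isClosed_closure)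
    fun g hg => isUnipotent_of_rep h hs g (h3 hg)).subset (h1 ▸ subset_closure)

/-- The kernel on the graded module of a stable flag is finite. -/
theorem finite_ker_lv [Algebra.FiniteType Ω B] (hB : IsConnReductive Ω B)
    (h : IsRep (k := Ω) u) (hs : Function.Surjective (ev Ω h.gl)) (γ : GL (Fin n) Ω)
    (a : Fin n → ℤ) (hP : ∀ g, InP a ((γ⁻¹ * h.pts Ω g * γ : GL (Fin n) Ω) : Mat n Ω)) :
    {g | lv a ((γ⁻¹ * h.pts Ω g * γ : GL (Fin n) Ω) : Mat n Ω) = 1}.Finite := by
  let φ : WithConv (B →ₐ[Ω] Ω) →* Mat n Ω :=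
    { toFun := fun g => lv a ((γ⁻¹ * h.pts Ω g * γ : GL (Fin n) Ω) : Mat n Ω)
      map_one' := by
        rw [map_one, mul_one, inv_mul_cancel, Units.val_one]
        exact (InL.one a).lv_eq
      map_mul' := fun x y => by
        rw [← (hP x).lv_mul (hP y), ← Units.val_mul, map_mul]
        congr 2
        group }
  obtain ⟨m, hm⟩ := exists_pow (k := Ω) a
  refine finite_of_unip hB h hs φ.ker m fun g hg => ?_
  have h1 := hm _ (hP g) hg
  have e : (h.pts Ω g : Mat n Ω) - 1 = (γ : Mat n Ω) *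
      (((γ⁻¹ * h.pts Ω g * γ : GL (Fin n) Ω) : Mat n Ω) - 1) * (γ⁻¹ : GL (Fin n) Ω) := by
    rw [mul_sub, sub_mul, mul_one, Units.mul_inv, ← Units.val_mul, ← Units.val_mul]
    congr 2
    group
  rw [e, Units.conj_pow, h1, mul_zero, zero_mul]

end Pool.Agent.RED.Ent
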