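import Pool.Agent.P.MP_c1f06d_ag.g.HYon
import Pool.Agent.P.MP_c1f06d_ag.g.BC
import Pool.Agent.P.MP_c1f06d_ag.g.EntUni

/-! Tests of the definition `IsReductive`: unipotent points, `GL_n`, the additive group. -/

open WithConv Matrix Pool.Agent.RG Pool.Agent.GR Pool.Agent.GR.Hp Pool.Agent.GR.Co
open scoped TensorProduct

universe u

namespace Pool.Agent.RED.NV

section uni

variable {Ω B : Type u} [Field Ω] [CommRing B] [HopfAlgebra Ω B] {n : ℕ} {u : Mat n B}

/-- A unipotent point is a unipotent matrix in every representation. -/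
theorem nil_of_isUnipotent (h : IsRep (k := Ω) u) {g : WithConv (B →ₐ[Ω] Ω)}
    (hg : IsUnipotent g) : IsNilpotent ((h.pts Ω g : Mat n Ω) - 1) := by
  have e := Ent.gm_rightTrans h g
  choose m hm using fun p : Fin n × Fin n => hg (u p.1 p.2)
  refine ⟨Finset.univ.sup m, Matrix.ext fun i j => ?_⟩
  have h0 : (((rightTrans g).toLinearMap - 1) ^ Finset.univ.sup m) (u i j) = 0 := by
    obtain ⟨d, hd⟩ := Nat.exists_eq_add_of_le' (Finset.le_sup (f := m) (Finset.mem_univ (i, j)))
    rw [hd]
    exact Ent.nil_mono _ d (hm (i, j))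
  rw [Ent.pow_entry _ u ((h.pts Ω g : Mat n Ω) - 1) (fun i j => ?_)] at h0
  · have h2 := congrArg (Coalgebra.counit (R := Ω)) h0
    simp only [map_sum, map_smul, h.counit, Matrix.one_apply, smul_eq_mul, mul_ite, mul_one, mul_zero,
      Finset.sum_ite_eq, Finset.mem_univ, if_true, map_zero] at h2
    exact h2
  · have h1 : rightTrans g (u i j) = ∑ l, u i l * algebraMap Ω B ((h.pts Ω g : Mat n Ω) l j) :=
      congrArg (fun x => x.1 i j) e
    simp only [LinearMap.sub_apply, AlgHom.toLinearMap_apply, Module.End.one_apply, h1,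
      Matrix.sub_apply, sub_smul, Finset.sum_sub_distrib, Matrix.one_apply, ite_smul,
      one_smul, zero_smul, Finset.sum_ite_eq', Finset.mem_univ, if_true]
    simp only [Algebra.smul_def, mul_comm]

theorem isUnipotent_iff [Algebra.FiniteType Ω B] (g : WithConv (B →ₐ[Ω] Ω)) :
    IsUnipotent g ↔ ∀ (n : ℕ) (u : Matrix (Fin n) (Fin n) B),
      (∀ i j, Coalgebra.comul (R := Ω) (u i j) = ∑ l, u i l ⊗ₜ[Ω] u l j) →
      (∀ i j, Coalgebra.counit (R := Ω) (u i j) = (1 : Matrix (Fin n) (Fin n) Ω) i j) →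
      IsNilpotent (u.map g.ofConv - 1) := by
  refine ⟨fun hg n u h1 h2 => nil_of_isUnipotent ⟨h1, h2⟩ hg, fun H => ?_⟩
  obtain ⟨n, u, h, hs⟩ := exists_faithful (k := Ω) (A := B)
  obtain ⟨m, hm⟩ := H n u h.comul h.counit
  exact Ent.isUnipotent_of_rep h hs g hm

theorem isRep_of_mul (γ : GL (Fin n) B)
    (hm : gm (toConv (iL Ω B B) * toConv (iR Ω B B)).ofConv γ = gm (iL Ω B B) γ * gm (iR Ω B B) γ)
    (h1 : gm (1 : Pt Ω B Ω).ofConv γ = 1) : IsRep (k := Ω) (γ : Mat n B) := by
  refine ⟨fun i j => ?_, fun i j => congrArg (fun x => x.1 i j) h1⟩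
  have h2 : (toConv (iL Ω B B) * toConv (iR Ω B B)).ofConv (γ i j) =
      ∑ l, iL Ω B B (γ i l) * iR Ω B B (γ l j) := congrArg (fun x => x.1 i j) hm
  rw [pt_mul_apply, Algebra.TensorProduct.lift_includeLeft_includeRight] at h2
  simpa using h2

end uni

section dense

open Set Topology

variable {X Y : Type u} [TopologicalSpace X] [TopologicalSpace Y] {i : X → Y} (hi : IsInducing i)
  (hd : ∀ Z : Set Y, IsClosed Z → closure (Z ∩ range i) = Z)

include hi hd

theorem conn_iff : ConnectedSpace Y ↔ ConnectedSpace X := by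
  have hr : DenseRange i := by
    rw [DenseRange, dense_iff_closure_eq, ← univ_inter (range i), hd _ isClosed_univ]
  refine ⟨fun h => ?_, fun h => connectedSpace_iff_univ.2
    (hr.closure_range ▸ (isConnected_range hi.continuous).closure)⟩
  have : Nonempty X := hr.nonempty
  have : PreconnectedSpace X := ⟨isPreconnected_iff_subset_of_disjoint_closed.2 ?_⟩
  · exact ⟨inferInstance⟩
  intro u' v' hu' hv' h1 h2
  obtain ⟨u, hu, rfl⟩ := hi.isClosed_iff.1 hu'
  obtain ⟨v, hv, rfl⟩ := hi.isClosed_iff.1 hv'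
  have h3 : univ ⊆ u ∪ v := by
    rw [← hr.closure_range]
    exact closure_minimal (range_subset_iff.2 fun x => h1 (mem_univ x)) (hu.union hv)
  have h4 : univ ∩ (u ∩ v) = ∅ := by
    rw [univ_inter, ← hd _ (hu.inter hv), closure_empty_iff, eq_empty_iff_forall_notMem]
    rintro _ ⟨h5, x, rfl⟩
    exact (eq_empty_iff_forall_notMem.1 h2 x) ⟨trivial, h5⟩
  exact (isPreconnected_iff_subset_of_disjoint_closed.1 isPreconnected_univ u v hu hv h3 h4).imp
    (fun h x _ => h (mem_univ _)) fun h x _ => h (mem_univ _)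

theorem irred_preimage {Z : Set Y} (hZ : IsClosed Z) (h : IsIrreducible Z) :
    IsIrreducible (i ⁻¹' Z) := by
  refine ⟨?_, isPreirreducible_iff_isClosed_union_isClosed.2 fun u' v' hu' hv' h1 => ?_⟩
  · obtain ⟨_, h1, x, rfl⟩ := closure_nonempty_iff.1 ((hd Z hZ).symm ▸ h.nonempty)
    exact ⟨x, h1⟩
  · obtain ⟨u, hu, rfl⟩ := hi.isClosed_iff.1 hu'
    obtain ⟨v, hv, rfl⟩ := hi.isClosed_iff.1 hv'
    have h3 : Z ⊆ u ∪ v := by
      rw [← hd Z hZ]
      refine closure_minimal ?_ (hu.union hv)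
      rintro _ ⟨h2, x, rfl⟩
      exact h1 h2
    exact (isPreirreducible_iff_isClosed_union_isClosed.1 h.2 u v hu hv h3).imp
      (fun h => preimage_mono h) fun h => preimage_mono h

end dense

/-- `IsConnReductive` in the words of the Zariski topology on the rational points. -/
theorem isConnReductive_iff (Ω B : Type u) [Field Ω] [IsAlgClosed Ω] [CommRing B] [HopfAlgebra Ω B]
    [Algebra.FiniteType Ω B] :
    letI : TopologicalSpace (WithConv (B →ₐ[Ω] Ω)) := .induced
      (fun g => (⟨RingHom.ker g.ofConv, RingHom.ker_isPrime _⟩ : PrimeSpectrum B)) inferInstance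
    IsConnReductive Ω B ↔ ConnectedSpace (WithConv (B →ₐ[Ω] Ω)) ∧
      ∀ U : Subgroup (WithConv (B →ₐ[Ω] Ω)), IsClosed (U : Set (WithConv (B →ₐ[Ω] Ω))) →
        IsConnected (U : Set (WithConv (B →ₐ[Ω] Ω))) → U.Normal → (∀ g ∈ U, IsUnipotent g) →
          U = ⊥ := by
  let _ := Ent.zar (Ω := Ω) (B := B)
  have hi : Topology.IsInducing (Ent.toSpec (Ω := Ω) (B := B)) := ⟨rfl⟩
  have : IsJacobsonRing B := isJacobsonRing_of_finiteType (A := Ω)
  have hd : ∀ Z : Set (PrimeSpectrum B), IsClosed Z →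
      closure (Z ∩ Set.range (Ent.toSpec (Ω := Ω))) = Z := by
    intro Z hZ
    refine (closure_minimal Set.inter_subset_left hZ).antisymm
      ((JacobsonSpace.closure_inter_closedPoints hZ).ge.trans
        (closure_mono (Set.inter_subset_inter_right _ fun p hp => ?_)))
    obtain ⟨φ, hφ⟩ := Ent.exists_pt (Ω := Ω) ((PrimeSpectrum.isClosed_singleton_iff_isMaximal p).1 hp)
    exact ⟨toConv φ, PrimeSpectrum.ext (Ideal.ext hφ)⟩
  refine ⟨fun h => ⟨(conn_iff hi hd).1 h.conn, fun U h1 h2 h3 h4 => ?_⟩,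
    fun h => ⟨(conn_iff hi hd).2 h.1, fun U P hP h1 h2 h3 => ?_⟩⟩
  · have h5 : (U : Set (WithConv (B →ₐ[Ω] Ω))).Subsingleton := Set.not_nontrivial_iff.1 fun h6 =>
      @IsPreconnected.infinite_of_nontrivial _ Ent.zar Ent.zar_t1 _ h2.2 h6
        (Ent.finite_of_closed h U h1 h4)
    exact (Subgroup.eq_bot_iff_forall _).2 fun g hg => h5 hg U.one_mem
  · have e : (U : Set (WithConv (B →ₐ[Ω] Ω))) = Ent.toSpec ⁻¹' PrimeSpectrum.zeroLocus P :=
      Set.ext h1
    refine h.2 U (Ent.isClosed_iff.2 ⟨P, h1⟩) ?_ h2 h3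
    rw [e]
    exact (irred_preimage hi hd (PrimeSpectrum.isClosed_zeroLocus _)
      ((PrimeSpectrum.isIrreducible_zeroLocus_iff_of_radical P hP.isRadical).2 hP)).isConnected

/-- A normal subgroup of `GL_n` of a field that consists of unipotent matrices is trivial. -/
theorem eq_bot_of_unip {Ω : Type u} [Field Ω] {n : ℕ} (N : Subgroup (GL (Fin n) Ω)) (hN : N.Normal)
    (h : ∀ g ∈ N, IsNilpotent ((g : Mat n Ω) - 1)) : N = ⊥ := by
  have tr : ∀ g ∈ N, trace ((g : Mat n Ω) - 1) = 0 := fun g hg =>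
    (isNilpotent_trace_of_isNilpotent (h g hg)).eq_zero
  refine (Subgroup.eq_bot_iff_forall _).2 fun g hg => ?_
  set a : Mat n Ω := (g : Mat n Ω) - 1 with ha
  have key : ∀ t : GL (Fin n) Ω, 
      trace (a * ((t : Mat n Ω) * a * ((t⁻¹ : GL (Fin n) Ω) : Mat n Ω))) = 0 := by
    intro t
    have h1 := tr _ (hN.conj_mem g hg t)
    have h2 := tr _ (N.mul_mem hg (hN.conj_mem g hg t))
    have e1 : ((t * g * t⁻¹ : GL (Fin n) Ω) : Mat n Ω) - 1 =
        (t : Mat n Ω) * a * ((t⁻¹ : GL (Fin n) Ω) : Mat n Ω) := by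
      rw [ha, mul_sub, sub_mul, mul_one, Units.mul_inv, Units.val_mul, Units.val_mul]
    have e2 : ((g * (t * g * t⁻¹) : GL (Fin n) Ω) : Mat n Ω) - 1 =
        a * (((t * g * t⁻¹ : GL (Fin n) Ω) : Mat n Ω) - 1) + a +
          (((t * g * t⁻¹ : GL (Fin n) Ω) : Mat n Ω) - 1) := by
      rw [ha, Units.val_mul g]
      noncomm_ring
    rw [e2, trace_add, trace_add, h1, tr g hg, e1] at h2
    simpa using h2
  have off : ∀ i j, i ≠ j → a j i = 0 := by
    intro i j hij
    have hE : single i j (1 : Ω) * single i j (1 : Ω) = 0 := single_mul_single_of_ne _ _ _ _ hij.symm _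
    let t : GL (Fin n) Ω := ⟨1 + single i j 1, 1 - single i j 1,
      by rw [add_mul, mul_sub, mul_sub, hE]; simp, by rw [sub_mul, mul_add, mul_add, hE]; simp⟩
    have h0 := key 1
    have h1 : trace (a * ((1 + single i j 1) * a * (1 - single i j 1))) = 0 := key t
    have e : a * ((1 + single i j 1) * a * (1 - single i j 1)) =
        a * a + a * single i j 1 * a - a * (a * single i j 1) -
          a * single i j 1 * a * single i j 1 := by noncomm_ring
    simp only [Units.val_one, inv_one, one_mul, mul_one] at h0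
    rw [e, trace_sub, trace_sub, trace_add, h0, trace_mul_comm a (a * single i j 1), zero_add,
      sub_self, zero_sub, neg_eq_zero, trace_mul_single, op_smul_eq_mul, mul_one, mul_apply,
      Finset.sum_eq_single j (fun l _ hl => by rw [mul_single_apply_of_ne _ _ _ _ _ hl, zero_mul])
        (by simp), mul_single_apply_same, mul_one] at h1
    exact mul_self_eq_zero.1 h1
  have hd : a = diagonal fun i => a i i := by
    ext i j
    by_cases hij : i = j
    · subst hij
      rw [diagonal_apply_eq]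
    · rw [diagonal_apply_ne _ hij, off j i (Ne.symm hij)]
  obtain ⟨m, hm⟩ := h g hg
  rw [← ha, hd, diagonal_pow] at hm
  have hz : ∀ i, a i i = 0 := fun i => by
    have := congrFun (congrFun hm i) i
    rw [diagonal_apply_eq] at this
    exact IsNilpotent.eq_zero ⟨m, this⟩
  refine Units.ext (sub_eq_zero.1 ?_)
  rw [Units.val_one, ← ha, hd]
  simp [hz]

section gl

variable (R : Type u) [CommRing R] (n : ℕ)

/-- The group law of `GL_n` on the points of its coordinate ring. -/
noncomputable def natGL : NatGrp R (OGL R n) where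
  mul x y := ev R (gm x (ug R n) * gm y (ug R n))
  one := ev R 1
  inv := ev R (ug R n)⁻¹
  nat f x y := by rw [comp_ev, map_mul, gm_gm, gm_gm]
  assoc x y z := by simp only [gm_ev_ug, mul_assoc]
  one_mul x := by rw [← gm_gm, gm_ev_ug, map_one, one_mul, ev_gm_ug]
  inv_mul x := by rw [← gm_gm, gm_ev_ug, map_inv, inv_mul_cancel, comp_ev, map_one]

/-- The points of the coordinate ring of `GL_n`. -/
noncomputable def glPts (T : Type u) [CommRing T] [Algebra R T] :
    letI := (natGL R n).hopf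
    Pt R (OGL R n) T ≃* GL (Fin n) T :=
  letI := (natGL R n).hopf
  { toFun := fun x => gm x.ofConv (ug R n)
    invFun := fun g => toConv (ev R g)
    left_inv := fun x => congrArg toConv (ev_gm_ug _)
    right_inv := fun g => gm_ev_ug g
    map_mul' := fun x y => by
      rw [(natGL R n).hopf_mul x.ofConv y.ofConv]
      exact gm_ev_ug _ }

theorem smooth_ogl : Algebra.Smooth R (OGL R n) := by
  have h1 : Algebra.Smooth R (MvPolynomial (Fin n × Fin n) R) := ⟨inferInstance, inferInstance⟩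
  have h2 : Algebra.Smooth (MvPolynomial (Fin n × Fin n) R) (OGL R n) :=
    .of_isLocalization_Away (mvPolynomialX (Fin n) (Fin n) R).det
  exact .comp R (MvPolynomial (Fin n × Fin n) R) (OGL R n)

theorem domain_ogl (Ω : Type u) [Field Ω] [Algebra R Ω] : IsDomain (Ω ⊗[R] OGL R n) := by
  have h1 : IsDomain (OGL Ω n) := IsLocalization.isDomain_localization
    (powers_le_nonZeroDivisors_of_noZeroDivisors (det_mvPolynomialX_ne_zero (Fin n) Ω))
  let f : Ω ⊗[R] OGL R n →ₐ[Ω] OGL Ω n :=
    Algebra.TensorProduct.lift (Algebra.ofId Ω _) (ev R (ug Ω n)) fun _ _ => Commute.all _ _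
  let f' : OGL Ω n →ₐ[Ω] Ω ⊗[R] OGL R n := ev Ω (gm (iR R Ω _) (ug R n))
  have h2 : f'.comp f = AlgHom.id Ω _ := by
    refine Algebra.TensorProduct.ext (Subsingleton.elim _ _) (ogl_ext ?_)
    ext i j
    simp [f, f', ev_ug_apply]
  exact Function.Injective.isDomain (f : Ω ⊗[R] OGL R n →+* OGL Ω n)
    (Function.LeftInverse.injective (g := f') fun x => AlgHom.congr_fun h2 x)

theorem isReductive_ogl : letI := (natGL R n).hopf; IsReductive R (OGL R n) := by
  let _ := (natGL R n).hopf
  refine ⟨smooth_ogl R n, fun Ω _ _ _ => ⟨?_, fun U _ _ _ hU hu => ?_⟩⟩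
  · have := domain_ogl R n Ω
    infer_instance
  · let B := Ω ⊗[R] OGL R n
    let γ : GL (Fin n) B := gm (iR R Ω _) (ug R n)
    have hm : ∀ (T : Type u) [CommRing T] [Algebra Ω T] (x y : Pt Ω B T),
        gm (x * y).ofConv γ = gm x.ofConv γ * gm y.ofConv γ := by
      intro T _ _ x y
      let _ : Algebra R T := ((algebraMap Ω T).comp (algebraMap R Ω)).toAlgebra
      have : IsScalarTower R Ω T := .of_algebraMap_eq fun _ => rfl
      exact map_mul ((bcPt (R := R) (A := OGL R n) Ω T).symm.trans (glPts R n T)) x y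
    have hw : IsRep (k := Ω) (γ : Mat n B) := isRep_of_mul γ (hm _ _ _)
      (map_one ((bcPt (R := R) (A := OGL R n) Ω Ω).symm.trans (glPts R n Ω)))
    let e := (bcPt (R := R) (A := OGL R n) Ω Ω).symm.trans (glPts R n Ω)
    have h2 := eq_bot_of_unip (U.map e.toMonoidHom) (hU.map _ e.surjective) (by
      rintro _ ⟨g, hg, rfl⟩
      exact nil_of_isUnipotent hw (hu g hg))
    exact (Subgroup.map_eq_bot_iff_of_injective _ e.injective).1 h2

theorem exists_gl : ∃ (A : Type u) (_ : CommRing A) (_ : HopfAlgebra R A)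
    (e : ∀ (T : Type u) [CommRing T] [Algebra R T], WithConv (A →ₐ[R] T) ≃* GL (Fin n) T),
    (∀ (T T' : Type u) [CommRing T] [Algebra R T] [CommRing T'] [Algebra R T'] (f : T →ₐ[R] T')
      (x : A →ₐ[R] T), e T' (toConv (f.comp x)) =
        GeneralLinearGroup.map (f : T →+* T') (e T (toConv x))) ∧ IsReductive R A :=
  ⟨OGL R n, inferInstance, (natGL R n).hopf, glPts R n, fun _ _ _ _ _ _ _ _ => rfl,
    isReductive_ogl R n⟩

end gl

section ga

open Polynomial

variable (R : Type u) [CommRing R]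

/-- The group law of the additive group on the points of `R[X]`. -/
noncomputable def natGa : NatGrp R R[X] where
  mul x y := aeval (x X + y X)
  one := aeval 0
  inv := aeval (-X)
  nat f x y := by ext; simp
  assoc x y z := by ext; simp [add_assoc]
  one_mul x := by ext; simp
  inv_mul x := by ext; simp

/-- The points of the additive group. -/
noncomputable def gaPts (T : Type u) [CommRing T] [Algebra R T] :
    letI := (natGa R).hopf
    Pt R R[X] T ≃* Multiplicative T :=
  letI := (natGa R).hopf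
  { toFun := fun x => Multiplicative.ofAdd (x.ofConv X)
    invFun := fun t => toConv (aeval t.toAdd)
    left_inv := fun x => congrArg toConv (by ext; simp)
    right_inv := fun t => by simp
    map_mul' := fun x y => by
      rw [(natGa R).hopf_mul x.ofConv y.ofConv]
      exact congrArg Multiplicative.ofAdd (aeval_X _) }

/-- The upper unitriangular matrix with entry `x`. -/
def up {B : Type u} [CommRing B] (x : B) : GL (Fin 2) B :=
  ⟨!![1, x; 0, 1], !![1, -x; 0, 1], by simp [one_fin_two], by simp [one_fin_two]⟩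

theorem not_isReductive_ga [Nontrivial R] : letI := (natGa R).hopf; ¬ IsReductive R R[X] := by
  let _ := (natGa R).hopf
  intro h
  obtain ⟨m, hm⟩ := Ideal.exists_maximal R
  let _ := Ideal.Quotient.field m
  let Ω := AlgebraicClosure (R ⧸ m)
  let B := Ω ⊗[R] R[X]
  let x : B := 1 ⊗ₜ X
  have hd : IsDomain B := (polyEquivTensor' R Ω).symm.toMulEquiv.isDomain _
  have hx : ∀ (T : Type u) [CommRing T] [Algebra Ω T] (g g' : Pt Ω B T),
      (g * g').ofConv x = g.ofConv x + g'.ofConv x := by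
    intro T _ _ g g'
    let _ : Algebra R T := ((algebraMap Ω T).comp (algebraMap R Ω)).toAlgebra
    have : IsScalarTower R Ω T := .of_algebraMap_eq fun _ => rfl
    exact map_mul ((bcPt (R := R) (A := R[X]) Ω T).symm.trans (gaPts R T)) g g'
  let e := (bcPt (R := R) (A := R[X]) Ω Ω).symm.trans (gaPts R Ω)
  have h1 : (1 : Pt Ω B Ω).ofConv x = 0 := map_one e
  let γ : GL (Fin 2) B := up x
  have hγ : ∀ (T : Type u) [CommRing T] [Algebra Ω T] (g : B →ₐ[Ω] T),
      (gm g γ : Mat 2 T) = !![1, g x; 0, 1] := by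
    intro T _ _ g
    ext i j
    fin_cases i <;> fin_cases j <;> simp [γ, up]
  have hw : IsRep (k := Ω) (γ : Mat 2 B) := isRep_of_mul γ
    (Units.ext (by rw [Units.val_mul, hγ, hγ, hγ, hx]; simp [add_comm]))
    (Units.ext (by rw [hγ, h1, Units.val_one, one_fin_two]))
  have hs : Function.Surjective (ev Ω hw.gl) := by
    refine (AlgHom.range_eq_top _).1 (eq_top_iff.2 fun b _ => ?_)
    obtain ⟨q, rfl⟩ := (polyEquivTensor' R Ω).surjective b
    have h2 : polyEquivTensor' R Ω q = aeval x q := by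
      have : (polyEquivTensor' R Ω).toAlgHom = aeval x := by ext; simp [x]
      exact AlgHom.congr_fun this q
    rw [h2]
    have h3 : x ∈ (ev Ω hw.gl).range := ⟨_, ev_X hw.gl 0 1⟩
    exact aeval_subalgebra_coe q _ ⟨x, h3⟩ ▸ (aeval (⟨x, h3⟩ : (ev Ω hw.gl).range) q).2
  have h4 := (h.fibre Ω).red ⊤ ⊥ Ideal.isPrime_bot (fun g => by simp) inferInstance fun g _ =>
    Ent.isUnipotent_of_rep hw hs g (m := 2) (by
      rw [show (hw.pts Ω g : Mat 2 Ω) = _ from hγ Ω g.ofConv]
      ext i j
      fin_cases i <;> fin_cases j <;> simp [pow_two, Matrix.mul_apply, Matrix.one_apply])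
  have h5 : e.symm (Multiplicative.ofAdd 1) = 1 := by
    rw [← Subgroup.mem_bot, ← h4]
    trivial
  have h6 := e.symm.injective (h5.trans (map_one e.symm).symm)
  exact one_ne_zero (α := Ω) (congrArg Multiplicative.toAdd h6)

theorem exists_ga [Nontrivial R] : ∃ (A : Type u) (_ : CommRing A) (_ : HopfAlgebra R A)
    (e : ∀ (T : Type u) [CommRing T] [Algebra R T], WithConv (A →ₐ[R] T) ≃* Multiplicative T),
    (∀ (T T' : Type u) [CommRing T] [Algebra R T] [CommRing T'] [Algebra R T'] (f : T →ₐ[R] T')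
      (x : A →ₐ[R] T), (e T' (toConv (f.comp x))).toAdd = f (e T (toConv x)).toAdd) ∧
    Algebra.Smooth R A ∧ ¬ IsReductive R A :=
  ⟨R[X], inferInstance, (natGa R).hopf, gaPts R, fun _ _ _ _ _ _ _ _ => rfl,
    ⟨inferInstance, inferInstance⟩, not_isReductive_ga R⟩

end ga

end Pool.Agent.RED.NV
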