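import Pool.Agent.P.MP_c1f06d_ag.g.AqNull
import Pool.Agent.P.MP_c1f06d_ag.PresEx
import Pool.Agent.P.MP_c1f06d_ag.Dom

/-! Descent of affine quotients along field extensions. -/

open Matrix
open scoped TensorProduct

universe u

namespace Pool.Agent.GR.AQ

open Co

variable {k : Type u} [Field k] {n : ℕ}

/-- The points over `Ω` are dense in the zero set of `I`. -/
def Dense (I : Ideal (OGL k n)) (Ω : Type u) [Field Ω] [Algebra k Ω] : Prop :=
  ∀ (A : Type u) [CommRing A] [Algebra k A] [Algebra Ω A] [IsScalarTower k Ω A]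
    (g : GL (Fin n) A), Vz I g → Cl {s : GL (Fin n) Ω | Vz I s} g

theorem base_ev {Ω : Type u} [Field Ω] [Algebra k Ω] {A : Type u} [CommRing A] [Algebra k A]
    [Algebra Ω A] [IsScalarTower k Ω A] (g : GL (Fin n) A) (f : OGL k n) :
    ev Ω g (ev k (ug Ω n) f) = ev k g f :=
  (map_ev ((ev Ω g).restrictScalars k) (ug Ω n) f).trans
    (congrArg (fun x => ev k x f) (gm_ev_ug (k := Ω) g))

theorem vz_of_cl {I : Ideal (OGL k n)} {Ω : Type u} [Field Ω] [Algebra k Ω] {A : Type u}
    [CommRing A] [Algebra k A] [Algebra Ω A] [IsScalarTower k Ω A] {g : GL (Fin n) A}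
    (h : Cl {s : GL (Fin n) Ω | Vz I s} g) : Vz I g := fun f hf => by
  rw [← base_ev (Ω := Ω)]
  exact h _ fun s hs => (base_ev s f).trans (hs f hf)

theorem base_dense {I : Ideal (OGL k n)} {Ω R A : Type u} [Field Ω] [IsAlgClosed Ω] [Algebra k Ω]
    [CommRing R] [Algebra k R] [Algebra.FiniteType k R] [IsReduced (Ω ⊗[k] R)] [CommRing A]
    [Algebra k A] [Algebra Ω A] [IsScalarTower k Ω A] {w : GL (Fin n) R} (hw : Vz I w)
    (l : R →ₐ[k] A) : Cl {s : GL (Fin n) Ω | Vz I s} (gm l w) := by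
  intro f hf
  have hv : Vz I (gm (iR k Ω R) w) := hw.map _
  have h0 : ev Ω (gm (iR k Ω R) w) f = 0 := IsReduced.eq_zero _ (null_nil (Ω := Ω) fun φ => by
    rw [map_ev]
    exact hf _ (hv.map (φ.restrictScalars k)))
  let ψ : Ω ⊗[k] R →ₐ[Ω] A :=
    Algebra.TensorProduct.lift (Algebra.ofId Ω A) l fun _ _ => Commute.all _ _
  have h1 : gm ψ (gm (iR k Ω R) w) = gm l w := by
    ext i j
    simp [ψ]
  rw [← h1, ← map_ev, h0, map_zero]

theorem dense_of_reduced (I : Ideal (OGL k n)) (Ω : Type u) [Field Ω] [IsAlgClosed Ω]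
    [Algebra k Ω] [IsReduced (Ω ⊗[k] (OGL k n ⧸ I))] : Dense I Ω := by
  intro A _ _ _ _ g hg
  rw [← hg.gm_lift]
  exact base_dense (vz_uq I) _

theorem base_smooth_reduced (k : Type u) [Field k] (B : Type u) [CommRing B] [Algebra k B]
    [Algebra.Smooth k B] : IsReduced B := by
  refine isReduced_ofLocalizationMaximal B fun p hp => ?_
  obtain ⟨d, π, G, h1, h2, h3⟩ :=
    P.MP_c1f06d_ag.exists_locPres_of_smooth k B (Localization.AtPrime p) p
  obtain ⟨V, _, _, _, π', G', h⟩ := P.MP_c1f06d_ag.exists_pres_of_locPres π G h1 h2 h3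
  have := h.isDomain
  infer_instance

theorem dense_of_smooth (I : Ideal (OGL k n)) (Ω : Type u) [Field Ω] [IsAlgClosed Ω]
    [Algebra k Ω] [Algebra.Smooth k (OGL k n ⧸ I)] : Dense I Ω :=
  have := base_smooth_reduced Ω (Ω ⊗[k] (OGL k n ⧸ I))
  dense_of_reduced I Ω

theorem base_reduced_domain [PerfectField k] (Ω D : Type u) [Field Ω] [Algebra k Ω] [CommRing D]
    [IsDomain D] [Algebra k D] [Algebra.FiniteType k D] : IsReduced (Ω ⊗[k] D) := by
  have : Algebra.FinitePresentation k D := Algebra.FinitePresentation.of_finiteType.1 inferInstance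
  have : IsFractionRing D (Localization.AtPrime (⊥ : Ideal D)) := by
    simpa [Ideal.primeCompl_bot] using
      (inferInstance : IsLocalization (⊥ : Ideal D).primeCompl (Localization.AtPrime (⊥ : Ideal D)))
  let := IsFractionRing.toField D (K := Localization.AtPrime (⊥ : Ideal D))
  have : Algebra.IsSmoothAt k (⊥ : Ideal D) := Algebra.FormallySmooth.of_perfectField
  obtain ⟨f, hf, hs⟩ := Algebra.IsSmoothAt.exists_notMem_smooth k (⊥ : Ideal D)
  have := base_smooth_reduced Ω (Ω ⊗[k] Localization.Away f)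
  exact isReduced_of_injective _ (map_id_injective (L := Ω)
    (IsScalarTower.toAlgHom k D (Localization.Away f))
    (IsLocalization.injective _ (powers_le_nonZeroDivisors_of_noZeroDivisors hf)))

theorem base_reduced [PerfectField k] (Ω R : Type u) [Field Ω] [Algebra k Ω] [CommRing R]
    [IsReduced R] [Algebra k R] [Algebra.FiniteType k R] : IsReduced (Ω ⊗[k] R) := by
  refine ⟨fun x hx => eq_zero_of_ctr x fun φ => IsReduced.eq_zero _ ?_⟩
  refine nilpotent_iff_mem_prime.2 fun p hp => ?_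
  have := base_reduced_domain (k := k) Ω (R ⧸ p)
  have h1 : Algebra.TensorProduct.map (AlgHom.id k Ω) (Ideal.Quotient.mkₐ k p) x = 0 :=
    IsReduced.eq_zero _ (hx.map _)
  have h2 := ctr_map_id φ (Ideal.Quotient.mkₐ k p) x
  rw [h1, map_zero] at h2
  exact Ideal.Quotient.eq_zero_iff_mem.1 h2

theorem dense_of_radical [PerfectField k] {I : Ideal (OGL k n)} (hI : I.IsRadical) (Ω : Type u)
    [Field Ω] [IsAlgClosed Ω] [Algebra k Ω] : Dense I Ω :=
  have := (Ideal.isRadical_iff_quotient_reduced I).1 hI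
  have := base_reduced (k := k) Ω (OGL k n ⧸ I)
  dense_of_reduced I Ω

theorem base_desc {Ω O O' : Type u} [Field Ω] [Algebra k Ω] [CommRing O] [Algebra k O]
    [CommRing O'] [Algebra k O'] [Algebra Ω O'] [IsScalarTower k Ω O']
    (Φ : Ω ⊗[k] O ≃ₐ[Ω] O') (B : Subalgebra k O) (T : Subalgebra Ω O')
    (h : ∀ x, x ∈ T ↔ ∃ y, Φ (inc Ω B y) = x) [Algebra.FiniteType Ω T] [Algebra.Smooth T O']
    [Module.FaithfullyFlat T O'] :
    Algebra.FiniteType k B ∧ Algebra.Smooth B O ∧ Module.FaithfullyFlat B O := by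
  let j : Ω ⊗[k] B →ₐ[Ω] Ω ⊗[k] O := Algebra.TensorProduct.map (AlgHom.id Ω Ω) B.val
  have hj : ∀ y, j y = inc Ω B y := fun _ => rfl
  let e : Ω ⊗[k] B ≃ₐ[Ω] T := AlgEquiv.ofBijective
    ((Φ.toAlgHom.comp j).codRestrict T fun y => (h _).2 ⟨y, rfl⟩) ⟨fun y y' hy =>
      inc_injective B (Φ.injective (congrArg Subtype.val hy)), fun x => by
        obtain ⟨y, hy⟩ := (h x).1 x.2
        exact ⟨y, Subtype.ext hy⟩⟩
  let : Algebra O O' := ((Φ.toAlgHom.restrictScalars k).comp (iR k Ω O)).toRingHom.toAlgebra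
  let : Algebra B T := ((e.toAlgHom.restrictScalars k).comp (iR k Ω B)).toRingHom.toAlgebra
  have : IsScalarTower k O O' := IsScalarTower.of_algebraMap_eq fun x =>
    (((Φ.toAlgHom.restrictScalars k).comp (iR k Ω O)).commutes x).symm
  have : IsScalarTower k B T := IsScalarTower.of_algebraMap_eq fun x =>
    (((e.toAlgHom.restrictScalars k).comp (iR k Ω B)).commutes x).symm
  have : IsScalarTower B T O' := IsScalarTower.of_algebraMap_eq fun _ => rfl
  have p1 : Algebra.IsPushout k Ω O O' := by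
    let : Algebra O (Ω ⊗[k] O) := Algebra.TensorProduct.rightAlgebra
    exact Algebra.IsPushout.of_equiv Φ rfl
  have p2 : Algebra.IsPushout k Ω B T := by
    let : Algebra B (Ω ⊗[k] B) := Algebra.TensorProduct.rightAlgebra
    exact Algebra.IsPushout.of_equiv e rfl
  have p3 := p2.symm
  have p4 : Algebra.IsPushout B O T O' := (Algebra.IsPushout.comp_iff k B Ω T).1 p1.symm
  have p5 := p4.symm
  have : Module.FaithfullyFlat B T :=
    Module.FaithfullyFlat.of_linearEquiv B _ (Algebra.IsPushout.equiv k B Ω T).symm.toLinearEquiv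
  have : Algebra.FiniteType Ω (Ω ⊗[k] B) := Algebra.FiniteType.equiv inferInstance e.symm
  have : Algebra.Smooth T (T ⊗[B] O) := .of_equiv (Algebra.IsPushout.equiv B T O O').symm
  have hs : Algebra.Smooth B O := .of_smooth_tensorProduct_of_faithfullyFlat T
  refine ⟨.of_finiteType_tensorProduct_of_faithfullyFlat Ω, hs, ?_⟩
  have : Module.FaithfullyFlat B O' := Module.FaithfullyFlat.trans B T O'
  refine Module.FaithfullyFlat.of_comap_surjective fun p => ?_
  obtain ⟨q, rfl⟩ := PrimeSpectrum.comap_surjective_of_faithfullyFlat (B := O') p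
  exact ⟨q.comap (algebraMap O O'), rfl⟩

/-- The coordinate ring of `GL_n` after an extension of the ground field. -/
noncomputable def baseEquiv (k Ω : Type u) [Field k] [Field Ω] [Algebra k Ω] (n : ℕ) :
    Ω ⊗[k] OGL k n ≃ₐ[Ω] OGL Ω n :=
  AlgEquiv.ofAlgHom
    (Algebra.TensorProduct.lift (Algebra.ofId Ω _) (ev k (ug Ω n)) fun _ _ => Commute.all _ _)
    (ev Ω (gm (iR k Ω _) (ug k n)))
    (ogl_ext (by
      rw [← gm_gm, gm_ev_ug, gm_id]
      ext i j
      simp [ev_ug_apply]))
    (by
      refine Algebra.TensorProduct.ext' fun a f => ?_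
      rw [AlgHom.comp_apply, Algebra.TensorProduct.lift_tmul, map_mul, base_ev, ev_gm_ug,
        Algebra.ofId_apply, AlgHom.commutes]
      simp)

theorem baseEquiv_tmul {Ω : Type u} [Field Ω] [Algebra k Ω] (a : Ω) (f : OGL k n) :
    baseEquiv k Ω n (a ⊗ₜ f) = algebraMap Ω _ a * ev k (ug Ω n) f :=
  Algebra.TensorProduct.lift_tmul (Algebra.ofId Ω (OGL Ω n)) (ev k (ug Ω n))
    (fun _ _ => Commute.all _ _) a f

theorem ev_baseEquiv {Ω : Type u} [Field Ω] [Algebra k Ω] {A : Type u} [CommRing A] [Algebra k A]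
    (g : GL (Fin n) A) (x : Ω ⊗[k] OGL k n) :
    ev Ω (gm (iR k Ω A) g) (baseEquiv k Ω n x) =
      Algebra.TensorProduct.map (AlgHom.id k Ω) (ev k g) x := by
  induction x using TensorProduct.induction_on with
  | zero => simp
  | tmul a f =>
    rw [baseEquiv_tmul, map_mul, base_ev, AlgHom.commutes, ← map_ev]
    simp
  | add x y hx hy => simp only [map_add, hx, hy]

/-- The invariants of the zero set of `I`. -/
noncomputable def baseInv (I : Ideal (OGL k n)) : InvAlg k n where
  B :=
    { carrier := {f | ∀ (A : Type u) [CommRing A] [Algebra k A] (g g' : GL (Fin n) A),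
        Vz I g' → ev k (g * g') f = ev k g f}
      mul_mem' := fun ha hb A _ _ g g' h => by rw [map_mul, map_mul, ha A g g' h, hb A g g' h]
      add_mem' := fun ha hb A _ _ g g' h => by rw [map_add, map_add, ha A g g' h, hb A g g' h]
      algebraMap_mem' := fun r A _ _ g g' _ => by rw [AlgHom.commutes, AlgHom.commutes] }
  GG := Vz I
  nat := fun f _ h => h.map f
  mem := fun _ => Iff.rfl

theorem descend {I : Ideal (OGL k n)} (hI : IsGrp I) {Ω : Type u} [Field Ω] [Algebra k Ω]
    (Q : AffQuot Ω n)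
    (hQ : ∀ (A : Type u) [CommRing A] [Algebra k A] [Algebra Ω A] [IsScalarTower k Ω A]
      (g : GL (Fin n) A), Q.Pt g ↔ Vz I g) :
    ∃ Q' : AffQuot k n, ∀ (A : Type u) [CommRing A] [Algebra k A] (g : GL (Fin n) A),
      Q'.Pt g ↔ Vz I g := by
  have _ := hI
  have h : ∀ x, x ∈ Q.B ↔ ∃ y, baseEquiv k Ω n (inc Ω (baseInv I).B y) = x := by
    intro x
    constructor
    · intro hx
      obtain ⟨x, rfl⟩ := (baseEquiv k Ω n).surjective x
      obtain ⟨y, rfl⟩ := (baseInv I).exists_inc x fun A _ _ g g' hg => by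
        rw [← ev_baseEquiv, ← ev_baseEquiv, map_mul]
        exact ((hQ _ _).2 (Vz.map _ hg)).ev_mul _ _ hx
      exact ⟨y, rfl⟩
    · rintro ⟨y, rfl⟩
      induction y using TensorProduct.induction_on with
      | zero => rw [map_zero, map_zero]; exact zero_mem _
      | tmul a b =>
        rw [Algebra.TensorProduct.map_tmul, baseEquiv_tmul]
        refine mul_mem (Q.B.algebraMap_mem _) ((Q.mem_iff _).2 fun A _ _ g g' hg => ?_)
        let : Algebra k A := ((algebraMap Ω A).comp (algebraMap k Ω)).toAlgebra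
        have : IsScalarTower k Ω A := IsScalarTower.of_algebraMap_eq fun _ => rfl
        rw [base_ev, base_ev]
        exact b.2 A g g' ((hQ A g').1 hg)
      | add x y hx hy => rw [map_add, map_add]; exact add_mem hx hy
  have key : ∀ (A : Type u) [CommRing A] [Algebra k A] (g g' : GL (Fin n) A),
      (∀ b ∈ (baseInv I).B, ev k g b = ev k g' b) ↔ Vz I (g⁻¹ * g') := by
    intro A _ _ g g'
    constructor
    · intro e
      refine Vz.of_inj (iR k Ω A)
        (Algebra.TensorProduct.includeRight_injective (algebraMap k Ω).injective) ?_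
      rw [← hQ, map_mul, map_inv, Q.pt_iff]
      intro b hb
      obtain ⟨y, rfl⟩ := (h b).1 hb
      rw [ev_baseEquiv, ev_baseEquiv]
      clear hb
      induction y using TensorProduct.induction_on with
      | zero => simp
      | tmul a b => simp [e b b.2]
      | add x y hx hy => simp only [map_add, hx, hy]
    · intro e b hb
      have := hb A g _ e
      rw [mul_inv_cancel_left] at this
      exact this.symm
  have key1 : ∀ (A : Type u) [CommRing A] [Algebra k A] (g : GL (Fin n) A),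
      (∀ b ∈ (baseInv I).B, ev k g b = ev k (1 : GL (Fin n) A) b) ↔ Vz I g := by
    intro A _ _ g
    have := key A 1 g
    rw [inv_one, one_mul] at this
    rw [← this]
    exact forall₂_congr fun _ _ => eq_comm
  have := Q.ft
  have := Q.smooth
  have := Q.ff
  obtain ⟨h1, h2, h3⟩ := base_desc (baseEquiv k Ω n) (baseInv I).B Q.B h
  exact ⟨⟨(baseInv I).B, h1, h2, h3, fun A _ _ g g' => (key A g g').trans (key1 A _).symm⟩, key1⟩

end Pool.Agent.GR.AQ
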