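import Pool.Agent.P.MP_c1f06d_ag.r.Lin
import Pool.Agent.P.MP_c1f06d_ag.r.Grad

/-! Representations of `GL_n`, weights of a vector, behaviour under parabolic subgroups. -/

open Matrix hiding single
open AddMonoidAlgebra

universe u

namespace Pool.Agent.GR

/-- A representation of `GL_n`, through its functor of points. -/
structure Rp (k : Type u) [CommRing k] (n m : ℕ) where
  ρ : ∀ (A : Type u) [CommRing A] [Algebra k A], GL (Fin n) A →* GL (Fin m) A
  nat : ∀ {A A' : Type u} [CommRing A] [Algebra k A] [CommRing A'] [Algebra k A']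
    (f : A →ₐ[k] A') (g : GL (Fin n) A), gm f (ρ A g) = ρ A' (gm f g)

namespace Rp

variable {k : Type u} [Field k] {n m : ℕ} (P : Rp k n m) {A : Type u} [CommRing A] [Algebra k A]

/-- The character `d ^ δ` of the diagonal torus. -/
def chr (d : Fin n → Aˣ) (δ : Fin n → ℤ) : Aˣ := ∏ i, d i ^ δ i

theorem chr_add (d : Fin n → Aˣ) (δ δ' : Fin n → ℤ) : chr d (δ + δ') = chr d δ * chr d δ' := by
  simp [chr, _root_.zpow_add, Finset.prod_mul_distrib]

theorem chr_mul (d d' : Fin n → Aˣ) (δ : Fin n → ℤ) :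
    chr (fun i => d i * d' i) δ = chr d δ * chr d' δ := by
  simp [chr, mul_zpow, Finset.prod_mul_distrib]

theorem chr_single (d : Fin n → Aˣ) (i : Fin n) : chr d (Pi.single i 1) = d i := by
  rw [chr, Finset.prod_eq_single i] <;> simp +contextual

theorem chr_map {A' : Type u} [CommRing A'] (f : A →+* A') (d : Fin n → Aˣ) (δ : Fin n → ℤ) :
    chr (fun i => Units.map (f : A →* A') (d i)) δ = Units.map (f : A →* A') (chr d δ) := by
  simp [chr, map_prod]

theorem uu_add {Γ : Type} [AddCommGroup Γ] (a b : Γ) : uu A (a + b) = uu A a * uu A b :=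
  Units.ext (by simp [uu, single_mul_single])

theorem uu_zsmul {Γ : Type} [AddCommGroup Γ] (a : Γ) (z : ℤ) : uu A a ^ z = uu A (z • a) := by
  let f : Multiplicative Γ →* (GA A Γ)ˣ :=
    ⟨⟨fun a => uu A a.toAdd, Units.ext rfl⟩, fun a b => uu_add _ _⟩
  exact (map_zpow f (Multiplicative.ofAdd a) z).symm

theorem chr_uu {Γ : Type} [AddCommGroup Γ] (x : Fin n → Γ) (δ : Fin n → ℤ) :
    chr (fun i => uu A (x i)) δ = uu A (∑ i, δ i • x i) := by
  let f : Multiplicative Γ →* (GA A Γ)ˣ :=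
    ⟨⟨fun a => uu A a.toAdd, Units.ext rfl⟩, fun a b => uu_add _ _⟩
  simp only [chr, uu_zsmul]
  exact (map_prod f (fun i => Multiplicative.ofAdd (δ i • x i)) Finset.univ).symm

/-- The weight projectors. -/
noncomputable def E (δ : Fin n → ℤ) : Mat m k :=
  of fun i j => ((P.ρ _ (rho k fun i : Fin n => (Pi.single i 1 : Fin n → ℤ)) :
    Mat m (GA k (Fin n → ℤ))) i j).coeff δ

/-- A finite set that contains the weights. -/
noncomputable def wts : Finset (Fin n → ℤ) :=
  Finset.univ.biUnion fun p : Fin m × Fin m =>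
    ((P.ρ _ (rho k fun i : Fin n => (Pi.single i 1 : Fin n → ℤ)) :
      Mat m (GA k (Fin n → ℤ))) p.1 p.2).coeff.support

theorem E_eq_zero {δ : Fin n → ℤ} (h : δ ∉ P.wts) : P.E δ = 0 := by
  ext i j
  by_contra h0
  exact h (Finset.mem_biUnion.2 ⟨(i, j), Finset.mem_univ _, Finsupp.mem_support_iff.2 h0⟩)

theorem rho_dgU (d : Fin n → Aˣ) (i j : Fin m) : (P.ρ A (dgU d) : Mat m A) i j =
    ∑ δ ∈ P.wts, (chr d δ : A) * algebraMap k A (P.E δ i j) := by
  let g : Multiplicative (Fin n → ℤ) →* A :=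
    ⟨⟨fun δ => (chr d δ.toAdd : A), by simp [chr]⟩, fun a b => by
      simp only [toAdd_mul, chr_add, Units.val_mul]⟩
  let f : GA k (Fin n → ℤ) →ₐ[k] A := AddMonoidAlgebra.lift k A (Fin n → ℤ) g
  have hf : ∀ δ x, f (single δ x) = (chr d δ : A) * algebraMap k A x := fun δ x => by
    rw [AddMonoidAlgebra.lift_single, Algebra.smul_def, mul_comm]
    rfl
  have h1 : gm f (rho k fun i : Fin n => (Pi.single i 1 : Fin n → ℤ)) = dgU d := by
    ext i j
    rw [gm_apply]
    by_cases e : i = j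
    · subst e
      simp [rho, dgU, uu, hf, chr_single]
    · simp [rho, dgU, e]
  rw [← h1, ← P.nat, gm_apply]
  set φ := (P.ρ _ (rho k fun i : Fin n => (Pi.single i 1 : Fin n → ℤ)) :
    Mat m (GA k (Fin n → ℤ))) i j with hφ
  have h2 : φ = ∑ δ ∈ P.wts, single δ (φ.coeff δ) := by
    refine coeff_injective (Finsupp.ext fun δ => ?_)
    classical
    rw [coeff_sum, Finsupp.finsetSum_apply]
    simp only [coeff_single, Finsupp.single_apply]
    rw [Finset.sum_ite_eq' P.wts δ]
    split_ifs with e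
    · rfl
    · exact congrFun (congrFun (P.E_eq_zero e) i) j
  show f φ = _
  rw [h2, map_sum]
  exact Finset.sum_congr rfl fun δ _ => hf _ _

theorem sum_E : ∑ δ ∈ P.wts, P.E δ = 1 := by
  ext i j
  have h := P.rho_dgU (A := k) (fun _ => 1) i j
  have e : dgU (fun _ : Fin n => (1 : kˣ)) = 1 := Units.ext (by simp [dgU])
  rw [e, map_one] at h
  rw [Matrix.sum_apply, ← Units.val_one, h]
  simp [chr]

theorem E_mul (d : Fin n → Aˣ) (δ : Fin n → ℤ) :
    (P.E δ).map (algebraMap k A) * (P.ρ A (dgU d) : Mat m A) =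
      (chr d δ : A) • (P.E δ).map (algebraMap k A) := by
  classical
  by_cases hδ : δ ∈ P.wts
  swap
  · simp [P.E_eq_zero hδ]
  let ι := IsScalarTower.toAlgHom k A (GA A (Fin n → ℤ))
  let e : Fin n → (GA A (Fin n → ℤ))ˣ := fun i => uu A (Pi.single i 1 : Fin n → ℤ)
  let d' : Fin n → (GA A (Fin n → ℤ))ˣ := fun i =>
    Units.map ((ι : A →+* GA A (Fin n → ℤ)) : A →* GA A (Fin n → ℤ)) (d i)
  have he : ∀ δ, (chr e δ : GA A (Fin n → ℤ)) = single δ 1 := fun δ => by
    rw [chr_uu]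
    show single _ _ = _
    congr 1
    ext l
    simp [Finset.sum_apply, Pi.single_apply]
  have h1 : dgU (fun i => e i * d' i) = dgU e * gm ι (dgU d) := by
    ext i j
    by_cases h : i = j
    · subst h
      simp [dgU, d']
    · simp [dgU, h]
  have h2 := congrArg (fun g => (P.ρ _ g : Mat m (GA A (Fin n → ℤ)))) h1
  simp only [map_mul, Units.val_mul, ← P.nat] at h2
  ext i j
  have h3 := congrArg (fun φ : GA A (Fin n → ℤ) => φ.coeff δ) (congrFun (congrFun h2 i) j)
  have ha : ∀ x : k, algebraMap k (GA A (Fin n → ℤ)) x = single 0 (algebraMap k A x) :=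
    fun _ => rfl
  have hι : ∀ x, ι x = single 0 x := fun _ => rfl
  simp only [Matrix.mul_apply, rho_dgU P e, rho_dgU P (fun i => e i * d' i), chr_mul, Units.val_mul, he,
    d', chr_map, Units.coe_map, MonoidHom.coe_coe, RingHom.coe_coe, hι, ha, single_mul_single,
    add_zero, one_mul, Finset.sum_mul, coeff_sum, Finsupp.finsetSum_apply, coeff_single,
    Finsupp.single_apply, Finset.sum_ite_eq', if_pos hδ, gm_apply] at h3
  rw [Matrix.smul_apply, smul_eq_mul, map_apply, h3, Matrix.mul_apply]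
  rfl

theorem E_mulVec (d : Fin n → Aˣ) (δ : Fin n → ℤ) (y : Fin m → A) :
    (P.E δ).map (algebraMap k A) *ᵥ ((P.ρ A (dgU d) : Mat m A) *ᵥ y) =
      (chr d δ : A) • ((P.E δ).map (algebraMap k A) *ᵥ y) := by
  rw [mulVec_mulVec, E_mul, smul_mulVec]

/-- The pairing of a real coweight with a weight. -/
def pr (x : Fin n → ℝ) (δ : Fin n → ℤ) : ℝ := ∑ i, (δ i : ℝ) * x i

/-- All weights of `y` have degree at least `r`. -/
def Dg (x : Fin n → ℝ) (r : ℝ) (y : Fin m → k) : Prop := ∀ δ, P.E δ *ᵥ y ≠ 0 → r ≤ pr x δ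

theorem chr_rho (x : Fin n → ℝ) (δ : Fin n → ℤ) :
    (chr (fun i => uu k (x i)) δ : GA k ℝ) = single (pr x δ) 1 := by
  rw [chr_uu]
  show single _ _ = _
  simp [pr]

theorem map_mulVec_single (M : Mat m k) (y : Fin m → k) (i : Fin m) :
    (M.map (algebraMap k (GA k ℝ)) *ᵥ fun j => single 0 (y j)) i = single 0 ((M *ᵥ y) i) :=
  (RingHom.map_mulVec (algebraMap k (GA k ℝ)) M y i).symm

theorem dg_iff (x : Fin n → ℝ) (r : ℝ) (y : Fin m → k) : P.Dg x r y ↔ ∀ i s, s < r →
    (((P.ρ _ (rho k x) : Mat m (GA k ℝ)) *ᵥ fun j => single 0 (y j)) i).coeff s = 0 := by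
  classical
  constructor
  · intro h i s hs
    have e : ((P.ρ _ (rho k x) : Mat m (GA k ℝ)) *ᵥ fun j => single 0 (y j)) i =
        ∑ δ ∈ P.wts, single (pr x δ) ((P.E δ *ᵥ y) i) := by
      have e1 : (1 : Mat m (GA k ℝ)) = ∑ δ ∈ P.wts, (P.E δ).map (algebraMap k (GA k ℝ)) := by
        have := congrArg (algebraMap k (GA k ℝ)).mapMatrix P.sum_E
        rw [map_sum, map_one] at this
        exact this.symm
      rw [← one_mulVec (_ *ᵥ _), e1, sum_mulVec, Finset.sum_apply]
      refine Finset.sum_congr rfl fun δ _ => ?_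
      rw [rho, E_mulVec, chr_rho, Pi.smul_apply, map_mulVec_single, smul_eq_mul,
        single_mul_single, add_zero, one_mul]
    rw [e, coeff_sum, Finsupp.finsetSum_apply]
    refine Finset.sum_eq_zero fun δ _ => ?_
    rw [coeff_single, Finsupp.single_apply]
    split_ifs with e2
    · by_contra h0
      exact (h δ fun e3 => h0 (congrFun e3 i)).not_gt (e2 ▸ hs)
    · rfl
  · intro h δ h0
    by_contra hr
    refine h0 (funext fun i => ?_)
    have e := congrArg (fun φ : GA k ℝ => φ.coeff (pr x δ))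
      (congrFun (P.E_mulVec (fun i => uu k (x i)) δ fun j => single 0 (y j)) i)
    rw [chr_rho, Pi.smul_apply, map_mulVec_single, smul_eq_mul, single_mul_single, add_zero,
      one_mul] at e
    simp only [coeff_single, Finsupp.single_eq_same] at e
    rw [Pi.zero_apply, ← e, mulVec, dotProduct, coeff_sum, Finsupp.finsetSum_apply]
    refine Finset.sum_eq_zero fun l _ => ?_
    rw [map_apply, ga_alg, coeff_single_mul_apply, neg_zero, zero_add]
    exact mul_eq_zero_of_right _ (h l _ (not_le.1 hr))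

theorem Dg.smul {x : Fin n → ℝ} {r : ℝ} {y : Fin m → k} (h : P.Dg x r y) (t : k) :
    P.Dg x r (t • y) := fun δ h0 => h δ fun e => h0 (by rw [mulVec_smul, e, smul_zero])

theorem rho_const (g : GL (Fin n) k) (y : Fin m → k) :
    ((P.ρ _ (gm (IsScalarTower.toAlgHom k k (GA k ℝ)) g) : Mat m (GA k ℝ)) *ᵥ
      fun j => single 0 (y j)) = fun j => single 0 (((P.ρ k g : Mat m k) *ᵥ y) j) := by
  rw [← P.nat]
  exact funext fun i => map_mulVec_single _ y i

/-- Degrees do not drop under the parabolic subgroup of `x`. -/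
theorem Dg.par {x : Fin n → ℝ} {r : ℝ} {y : Fin m → k} (h : P.Dg x r y) (p : GL (Fin n) k)
    (h1 : ∀ i j, x i < x j → (p : Mat n k) i j = 0)
    (h2 : ∀ i j, x i < x j → ((p⁻¹ : GL (Fin n) k) : Mat n k) i j = 0) :
    P.Dg x r ((P.ρ k p : Mat m k) *ᵥ y) := by
  classical
  let T : ℝ → ℝ → Submodule k k := fun r s => if s < r then ⊥ else ⊤
  have hT : ∀ r s x, x ∈ T r s ↔ (s < r → x = 0) := fun r s x => by
    by_cases e : s < r
    · simp only [T, if_pos e, Submodule.mem_bot]
      exact ⟨fun h _ => h, fun h => h e⟩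
    · simp only [T, if_neg e, Submodule.mem_top]
      exact ⟨fun _ h => (e h).elim, fun _ => trivial⟩
  have hm : ∀ r, GMul (T 0) (T r) (T r) := fun r a b x y hx hy => (hT _ _ _).2 fun e => by
    by_cases e1 : a < 0
    · rw [(hT _ _ _).1 hx e1, zero_mul]
    · rw [(hT _ _ _).1 hy (by linarith [not_lt.1 e1]), mul_zero]
  have one : (1 : k) ∈ T 0 0 := (hT _ _ _).2 fun e => (lt_irrefl _ e).elim
  let ι := IsScalarTower.toAlgHom k k (GA k ℝ)
  have hc : ∀ p : GL (Fin n) k, (∀ i j, x i < x j → (p : Mat n k) i j = 0) → ∀ i j,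
      ((rho k x * gm ι p * (rho k x)⁻¹ : GL (Fin n) (GA k ℝ)) : Mat n (GA k ℝ)) i j ∈
        gsub (T 0) one (hm 0) := fun p hp i j => by
    rw [conj_const]
    exact coeff_single_mem ((hT _ _ _).2 fun e => hp i j (sub_neg.1 e))
  obtain ⟨q, hq⟩ := exists_gl_sub (gsub (T 0) one (hm 0)) _ (hc p h1) (by
    have := hc p⁻¹ h2
    rwa [show rho k x * gm ι p⁻¹ * (rho k x)⁻¹ = (rho k x * gm ι p * (rho k x)⁻¹)⁻¹ by
      rw [map_inv]; group] at this)
  rw [dg_iff] at h ⊢
  intro i s hs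
  rw [← rho_const, mulVec_mulVec, ← Units.val_mul, ← map_mul,
    show rho k x * gm ι p = rho k x * gm ι p * (rho k x)⁻¹ * rho k x by group, ← hq, map_mul,
    ← P.nat, Units.val_mul, ← mulVec_mulVec, mulVec, dotProduct, coeff_sum,
    Finsupp.finsetSum_apply]
  refine Finset.sum_eq_zero fun l _ => (hT r s _).1 ((hm r).coeff_mul ?_ ?_ s) hs
  · exact ((P.ρ _ q : Mat m (gsub (T 0) one (hm 0))) i l).2
  · exact fun s => (hT _ _ _).2 (h l s)

/-- Degrees under a permutation matrix. -/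
theorem Dg.perm {x : Fin n → ℝ} {r : ℝ} {y : Fin m → k} (h : P.Dg x r y)
    (w : Equiv.Perm (Fin n)) :
    P.Dg (fun i => x (w.symm i)) r ((P.ρ k (pmat k w) : Mat m k) *ᵥ y) := by
  let ι := IsScalarTower.toAlgHom k k (GA k ℝ)
  have e : gm ι (pmat k w) = pmat (GA k ℝ) w := by
    ext i j : 2
    simp [pmat]
  rw [dg_iff] at h ⊢
  intro i s hs
  rw [← rho_const, mulVec_mulVec, ← Units.val_mul, ← map_mul, e, rho,
    ← pmat_conj w fun i => uu k (x i), ← e, map_mul,
    ← P.nat, Units.val_mul, ← mulVec_mulVec, mulVec, dotProduct, coeff_sum,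
    Finsupp.finsetSum_apply]
  refine Finset.sum_eq_zero fun l _ => ?_
  rw [gm_apply, ga_inc, coeff_single_mul_apply, neg_zero, zero_add]
  exact mul_eq_zero_of_right _ (h l s hs)

end Rp

end Pool.Agent.GR
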