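import Pool.Agent.P.MP_c1f06d_ag.g.Kempf

/-! Spaces of functions on `GL_n` that are stable under left translation. -/

open Matrix
open scoped TensorProduct

universe u

namespace Pool.Agent.GR

open Co InvAlg

variable {k : Type u} [Field k] {n : ℕ}

/-- The left translate of `f` along the linear form `φ`. -/
noncomputable def ltr (φ : OGL k n →ₗ[k] k) : OGL k n →ₗ[k] OGL k n :=
  ctr φ (OGL k n) ∘ₗ (com k n).toLinearMap

/-- The space `E` is stable under left translations. -/
def LS (E : Submodule k (OGL k n)) : Prop := ∀ f ∈ E, ∀ φ, ltr φ f ∈ E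

theorem pm_com {A : Type u} [CommRing A] [Algebra k A] (g g' : GL (Fin n) A) (f : OGL k n) :
    pm (ev k g) (ev k g') (com k n f) = ev k (g * g') f := by
  rw [com, map_ev, map_mul, gm_gm, gm_gm, pm_iL, pm_iR, gm_ev_ug, gm_ev_ug]

theorem ev_ltr {A : Type u} [CommRing A] [Algebra k A] (φ : OGL k n →ₗ[k] k) (g : GL (Fin n) A)
    (f : OGL k n) :
    ev k g (ltr φ f) = ctr φ A (ev k (gm (iL k _ _) (ug k n) * gm (iR k _ A) g) f) := by
  rw [← map_com, ← ctr_map_id]
  rfl

theorem ctr_alg {A : Type u} [CommRing A] [Algebra k A] (t : OGL k n →ₐ[k] k)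
    (x : OGL k n ⊗[k] A) : ctr t.toLinearMap A x = pm ((Algebra.ofId k A).comp t) (AlgHom.id k A) x := by
  induction x using TensorProduct.induction_on with
  | zero => simp
  | tmul a m => simp [ctr_tmul, Algebra.smul_def]
  | add x y hx hy => simp only [map_add, hx, hy]

/-- Translation by a rational point. -/
theorem ev_ltr_ev {A : Type u} [CommRing A] [Algebra k A] (γ : GL (Fin n) k) (g : GL (Fin n) A)
    (f : OGL k n) : ev k g (ltr (ev k γ).toLinearMap f) = ev k (gm (Algebra.ofId k A) γ * g) f := by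
  rw [ev_ltr, ctr_alg, map_ev, map_mul, gm_gm, gm_gm, pm_iL, pm_iR, gm_id, ← gm_gm, gm_ev_ug]

theorem ltr_one (f : OGL k n) : ltr (ev k (1 : GL (Fin n) k)).toLinearMap f = f := by
  have h := ev_ltr_ev 1 (ug k n) f
  rwa [map_one, one_mul, ev_ug] at h

theorem LS.exists_sum {E : Submodule k (OGL k n)} (hE : LS E) {ι : Type*} [Fintype ι]
    (e : Module.Basis ι k E) {f : OGL k n} (hf : f ∈ E) :
    ∃ a : ι → OGL k n, com k n f = ∑ j, a j ⊗ₜ (e j : OGL k n) := by
  classical
  obtain ⟨y, hy⟩ := mem_range_of_ctr E (com k n f) (hE f hf)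
  refine ⟨fun j => TensorProduct.equivFinsuppOfBasisRight e y j, ?_⟩
  rw [← hy]
  conv_lhs => rw [← (TensorProduct.equivFinsuppOfBasisRight e).symm_apply_apply y,
    TensorProduct.equivFinsuppOfBasisRight_symm_apply, Finsupp.sum_fintype _ _ (by simp)]
  simp

theorem tmul_indep {E : Submodule k (OGL k n)} {ι : Type*} [Fintype ι] (e : Module.Basis ι k E)
    {A : Type u} [CommRing A] [Algebra k A] (a : ι → A)
    (h : ∑ j, a j ⊗ₜ[k] (e j : OGL k n) = 0) : a = 0 := by
  classical
  have h1 : ∑ j, a j ⊗ₜ[k] e j = 0 :=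
    Module.Flat.lTensor_preserves_injective_linearMap (M := A) E.subtype E.injective_subtype
      (by simpa using h)
  funext i
  have h2 := congrArg (fun y => TensorProduct.equivFinsuppOfBasisRight e y i) h1
  simpa [Finsupp.single_apply] using h2

/-- The representation on a left stable space of finite dimension. -/
theorem LS.exists_rp {E : Submodule k (OGL k n)} (hE : LS E) {m : ℕ}
    (e : Module.Basis (Fin m) k E) : ∃ P : Rp k n m,
      ∀ (A : Type u) [CommRing A] [Algebra k A] (g g' : GL (Fin n) A) (i : Fin m),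
        ev k (g * g') (e i : OGL k n) =
          ∑ j, (P.ρ A g : Mat m A) i j * ev k g' (e j : OGL k n) := by
  choose a ha using fun i => hE.exists_sum e (e i).2
  have h1 : ∀ (A : Type u) [CommRing A] [Algebra k A] (g g' : GL (Fin n) A) (i : Fin m),
      ev k (g * g') (e i : OGL k n) = ∑ j, ev k g (a i j) * ev k g' (e j : OGL k n) := by
    intro A _ _ g g' i
    rw [← pm_com, ha, map_sum]
    simp
  have h2 : ∀ (A : Type u) [CommRing A] [Algebra k A] (x : Fin m → A) (j : Fin m),
      iL k A (OGL k n) (x j) * ev k (gm (iR k A _) (ug k n)) (e j : OGL k n) =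
        x j ⊗ₜ[k] (e j : OGL k n) := by
    intro A _ _ x j
    rw [ev_gm_ug]
    simp
  have h3 : ∀ (A : Type u) [CommRing A] [Algebra k A] (x y : Fin m → A),
      ∑ j, iL k A (OGL k n) (x j) * ev k (gm (iR k A _) (ug k n)) (e j : OGL k n) =
        ∑ j, iL k A (OGL k n) (y j) * ev k (gm (iR k A _) (ug k n)) (e j : OGL k n) → x = y := by
    intro A _ _ x y h
    refine sub_eq_zero.1 (tmul_indep e _ ?_)
    simp only [h2] at h
    simp only [Pi.sub_apply, TensorProduct.sub_tmul, Finset.sum_sub_distrib, h, sub_self]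
  let M : ∀ (A : Type u) [CommRing A] [Algebra k A], GL (Fin n) A →* Mat m A := fun A _ _ =>
    { toFun := fun g => of fun i j => ev k g (a i j)
      map_one' := Matrix.ext fun i => congrFun (h3 A _ _ (by
        have := h1 _ (gm (iL k A (OGL k n)) 1) (gm (iR k A _) (ug k n)) i
        simp only [← map_ev (iL k A (OGL k n))] at this
        simp only [of_apply]
        rw [← this, map_one, one_mul, Finset.sum_eq_single i]
        · rw [one_apply_eq, map_one, one_mul]
        · intro j _ hj
          rw [one_apply_ne' hj, map_zero, zero_mul]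
        · simp))
      map_mul' := fun g g' => Matrix.ext fun i => congrFun (h3 A _ _ (by
        have e1 := h1 _ (gm (iL k A (OGL k n)) (g * g')) (gm (iR k A _) (ug k n)) i
        have e2 := h1 _ (gm (iL k A (OGL k n)) g)
          (gm (iL k A (OGL k n)) g' * gm (iR k A _) (ug k n)) i
        simp only [h1 _ (gm (iL k A (OGL k n)) g'), ← map_ev (iL k A (OGL k n))] at e1 e2
        simp only [of_apply, mul_apply, map_sum, map_mul, Finset.sum_mul]
        rw [← e1, map_mul, mul_assoc, e2, Finset.sum_comm]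
        simp only [Finset.mul_sum, mul_assoc])) }
  refine ⟨⟨fun A _ _ => (M A).toHomUnits, fun f g => ?_⟩, h1⟩
  ext i j
  exact map_ev f g (a i j)

/-- A finite set in a left stable space lies in a left stable space of finite dimension. -/
theorem LS.exists_fin {E : Submodule k (OGL k n)} (hE : LS E) (s : Finset (OGL k n))
    (hs : ∀ f ∈ s, f ∈ E) : ∃ E₀ : Submodule k (OGL k n), E₀ ≤ E ∧ LS E₀ ∧ Module.Finite k E₀ ∧
      ∀ f ∈ s, f ∈ E₀ := by
  classical
  have key : ∀ f : OGL k n, ∃ E₀ : Submodule k (OGL k n), E₀.FG ∧ ∀ φ, ltr φ f ∈ E₀ := fun f => by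
    obtain ⟨t, ht⟩ := TensorProduct.exists_finset (com k n f)
    refine ⟨Submodule.span k (t.image Prod.snd), Submodule.fg_span (Finset.finite_toSet _),
      fun φ => ?_⟩
    show ctr φ _ (com k n f) ∈ _
    rw [ht, map_sum]
    refine Submodule.sum_mem _ fun p hp => ?_
    rw [ctr_tmul]
    exact Submodule.smul_mem _ _ (Submodule.subset_span (Finset.mem_image_of_mem _ hp))
  choose F hF1 hF2 using key
  let E₀ := Submodule.span k {x | ∃ f ∈ s, ∃ φ, ltr φ f = x}
  have hle : E₀ ≤ s.sup F := Submodule.span_le.2 (by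
    rintro _ ⟨f, hf, φ, rfl⟩
    exact Finset.le_sup (f := F) hf (hF2 f φ))
  have hfin : Module.Finite k (s.sup F : Submodule k (OGL k n)) :=
    Module.Finite.iff_fg.2 (Submodule.fg_finset_sup s F fun f _ => hF1 f)
  refine ⟨E₀, Submodule.span_le.2 ?_, fun x hx ψ => ?_, Submodule.finiteDimensional_of_le hle,
    fun f hf => Submodule.subset_span ⟨f, hf, _, ltr_one f⟩⟩
  · rintro _ ⟨f, hf, φ, rfl⟩
    exact hE f (hs f hf) φ
  refine Submodule.span_le.2 (?_ : _ ⊆ (E₀.comap (ltr ψ) : Set (OGL k n))) hx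
  rintro _ ⟨f, hf, φ, rfl⟩
  let χ : OGL k n →ₗ[k] k := ψ ∘ₗ ltr φ
  refine Submodule.subset_span ⟨f, hf, χ, ?_⟩
  let α := pm (iL k (OGL k n) (OGL k n ⊗[k] OGL k n))
    ((iR k (OGL k n) (OGL k n ⊗[k] OGL k n)).comp (iL k (OGL k n) (OGL k n)))
  let β := pm (α.comp (com k n))
    ((iR k (OGL k n) (OGL k n ⊗[k] OGL k n)).comp (iR k (OGL k n) (OGL k n)))
  have h1 : ∀ x : OGL k n ⊗[k] OGL k n, ctr χ _ x = ctr ψ _ (ctr φ _ (β x)) := fun x => by
    induction x using TensorProduct.induction_on with
    | zero => simp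
    | add x y hx hy => simp only [map_add, hx, hy]
    | tmul a b =>
      rw [ctr_tmul, Algebra.TensorProduct.lift_tmul]
      show ψ (ctr φ _ (com k n a)) • b = ctr ψ _ (ctr φ _ (α (com k n a) * _))
      generalize com k n a = y
      induction y using TensorProduct.induction_on with
      | zero => simp
      | add x y hx hy => simp only [map_add, add_smul, add_mul, hx, hy]
      | tmul a a' => simp [α, ctr_tmul, smul_smul]
  have h2 : β (com k n f) =
      Algebra.TensorProduct.map (AlgHom.id k (OGL k n)) (com k n) (com k n f) := by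
    have e : β.comp (com k n) =
        (Algebra.TensorProduct.map (AlgHom.id k (OGL k n)) (com k n)).comp (com k n) := by
      apply ogl_ext
      have e0 : gm (com k n) (ug k n) = gm (iL k _ _) (ug k n) * gm (iR k _ _) (ug k n) :=
        gm_ev_ug _
      rw [← gm_gm, ← gm_gm, e0, map_mul, map_mul, gm_gm, gm_gm, gm_gm, gm_gm, pm_iL, pm_iR, map_iL,
        map_iR, ← gm_gm (com k n), ← gm_gm (com k n), e0, map_mul, map_mul, gm_gm, gm_gm, pm_iL,
        pm_iR, mul_assoc]
      rfl
    exact DFunLike.congr_fun e f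
  show ctr χ _ (com k n f) = ctr ψ _ (com k n (ctr φ _ (com k n f)))
  rw [h1, h2, ctr_map_id]

theorem eq_zero_of_points [IsAlgClosed k] {f : OGL k n} (h : ∀ g : GL (Fin n) k, ev k g f = 0) :
    f = 0 := by
  have hft : Algebra.FiniteType k (OGL k n) :=
    Algebra.FiniteType.trans (S := MvPolynomial (Fin n × Fin n) k) inferInstance inferInstance
  have : IsJacobsonRing (OGL k n) := isJacobsonRing_of_finiteType (A := k)
  have h1 : f ∈ (⊥ : Ideal (OGL k n)).jacobson := Ideal.mem_sInf.2 fun M hM => by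
    obtain ⟨t, ht⟩ := point_of_max (Ω := k) M hM.2
    rw [← ht, ← ev_gm_ug t]
    exact h _
  have : IsReduced (OGL k n) :=
    isReduced_localizationPreserves (Submonoid.powers (mvPolynomialX (Fin n) (Fin n) k).det) _
      inferInstance
  rwa [IsJacobsonRing.out inferInstance Ideal.isRadical_bot] at h1

/-- Over an algebraically closed field it suffices to translate by rational points. -/
theorem ls_of_points [IsAlgClosed k] {E : Submodule k (OGL k n)}
    (h : ∀ f ∈ E, ∀ γ : GL (Fin n) k, ltr (ev k γ).toLinearMap f ∈ E) : LS E := by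
  classical
  intro f hf φ
  have h1 : E.mkQ.lTensor (OGL k n) (com k n f) = 0 := by
    let b := Module.Basis.ofVectorSpace k (OGL k n ⧸ E)
    apply (TensorProduct.equivFinsuppOfBasisRight b).injective
    ext i
    rw [map_zero, Finsupp.zero_apply]
    refine eq_zero_of_points fun γ => ?_
    have e : ∀ y : OGL k n ⊗[k] (OGL k n ⧸ E), ev k γ (TensorProduct.equivFinsuppOfBasisRight b y i) =
        b.repr (ctr (ev k γ).toLinearMap _ y) i := fun y => by
      induction y using TensorProduct.induction_on with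
      | zero => simp
      | tmul a m => simp [ctr_tmul, mul_comm]
      | add x y hx hy => simp only [map_add, Finsupp.add_apply, hx, hy]
    rw [e, ctr_lTensor]
    rw [show E.mkQ (ctr (ev k γ).toLinearMap _ (com k n f)) = 0 from
      (Submodule.Quotient.mk_eq_zero E).2 (h f hf γ), map_zero, Finsupp.zero_apply]
  have h2 := ctr_lTensor φ E.mkQ (com k n f)
  rw [h1, map_zero] at h2
  exact (Submodule.Quotient.mk_eq_zero E).1 h2.symm

variable {W F : Type u} [CommRing W] [IsDomain W] [ValuationRing W] [Field F]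
  [Algebra W F] [IsFractionRing W F] [Algebra k W] [Algebra k F] [IsScalarTower k W F]

/-- Kempf's theorem for a left stable space of functions. -/
theorem LS.kempf [IsAlgClosed k] {ι : Type} [DecidableEq ι] (c : Fin n → ι)
    {E : Submodule k (OGL k n)} (hE : LS E) {f₀ : OGL k n} (hf₀ : f₀ ∈ E)
    (h1 : ev k (1 : GL (Fin n) k) f₀ ≠ 0) (σ : GL (Fin n) F) (hσ : InL c (σ : Mat n F))
    (hdet : ∀ δ, ∃ u : Wˣ, algebraMap W F u = bdet c δ (σ : Mat n F))
    (h0 : ∀ f ∈ E, ∃ w ∈ IsLocalRing.maximalIdeal W, algebraMap W F w = ev k σ f) :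
    ∃ (h : GL (Fin n) k) (a : Fin n → ℤ), InL c (h : Mat n k) ∧ (∃ i j, c i = c j ∧ a i ≠ a j) ∧
      ∀ g : GL (Fin n) k, InL c (g : Mat n k) →
        (∃ t : k, ∀ f ∈ E, ev k g f = t * ev k (1 : GL (Fin n) k) f) →
        InP a ((h * g * h⁻¹ : GL (Fin n) k) : Mat n k) := by
  obtain ⟨E₀, hle, hE₀, hfin, hs⟩ := hE.exists_fin {f₀} (by simpa using hf₀)
  let e := Module.finBasis k E₀
  obtain ⟨P, hP⟩ := hE₀.exists_rp e
  have hv : ∀ (A : Type u) [CommRing A] [Algebra k A] (g : GL (Fin n) A)
      (i : Fin (Module.finrank k E₀)), ((P.ρ A g : Mat (Module.finrank k E₀) A) *ᵥ 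
        fun j => algebraMap k A (ev k (1 : GL (Fin n) k) (e j : OGL k n))) i =
        ev k g (e i : OGL k n) := fun A _ _ g i => by
    rw [← mul_one g, hP, mul_one, mulVec, dotProduct]
    refine Finset.sum_congr rfl fun j _ => congrArg _ ?_
    have := map_ev (Algebra.ofId k A) (1 : GL (Fin n) k) (e j : OGL k n)
    rwa [map_one] at this
  obtain ⟨h, a, h2, h3, h4⟩ := P.kempf (W := W) c
    (v := fun j => ev k (1 : GL (Fin n) k) (e j : OGL k n)) (fun e0 => h1 (by
      have e1 := congrArg (fun x : E₀ => ev k (1 : GL (Fin n) k) (x : OGL k n))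
        (e.sum_repr ⟨f₀, hs _ (Finset.mem_singleton_self _)⟩)
      simp only [Submodule.coe_sum, Submodule.coe_smul, map_sum, map_smul] at e1
      rw [← e1]
      exact Finset.sum_eq_zero fun j _ => by rw [congrFun e0 j, Pi.zero_apply, smul_zero]))
    σ hσ hdet fun i => (hv F σ i).symm ▸ h0 _ (hle (e i).2)
  refine ⟨h, a, h2, h3, fun g hg ⟨t, ht⟩ => h4 g hg ⟨t, funext fun i => ?_⟩⟩
  exact (hv k g i).trans (ht _ (hle (e i).2))

end Pool.Agent.GR
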