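import Pool.Agent.P.MP_c1f06d_ag.g.AqNull
import Pool.Agent.P.MP_c1f06d_ag.g.KempfA
import Pool.Agent.P.MP_c1f06d_ag.g.Loc

/-! Finite dimensional spaces of translates. -/

open Matrix
open scoped TensorProduct

universe u

namespace Pool.Agent.GR.AQ

open Co

variable {Ω : Type u} [Field Ω] [IsAlgClosed Ω] {n : ℕ}

omit [IsAlgClosed Ω] in
theorem loc_ext {f f' : OGL Ω n} (h : ev Ω (ug Ω n) f = ev Ω (ug Ω n) f') : f = f' := by
  rwa [ev_ug] at h

/-- The span of the left translates of a finite set of functions, as a representation. -/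
theorem exists_lrep (s : Finset (OGL Ω n)) : ∃ (m : ℕ) (f : Fin m → OGL Ω n) (P : Rp Ω n m),
    LinearIndependent Ω f ∧ (∀ a ∈ s, a ∈ Submodule.span Ω (Set.range f)) ∧
    (∀ N : Submodule Ω (OGL Ω n), (∀ a ∈ s, ∀ y, lt y a ∈ N) → ∀ i, f i ∈ N) ∧
    ∀ (A : Type u) [CommRing A] [Algebra Ω A] (x y : GL (Fin n) A) (i : Fin m),
      ev Ω (x * y) (f i) = ∑ j, (P.ρ A x : Mat m A) i j * ev Ω y (f j) := by
  let E := Submodule.span Ω {f | ∃ a ∈ s, ∃ y, lt y a = f}
  have hE : LS E := ls_of_points fun f hf γ => by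
    refine Submodule.span_le.2 (?_ : _ ⊆ (E.comap (ltr (ev Ω γ).toLinearMap) : Set (OGL Ω n))) hf
    rintro _ ⟨a, ha, y, rfl⟩
    refine Submodule.subset_span ⟨a, ha, y * γ, loc_ext ?_⟩
    rw [ev_ltr_ev, ev_lt, ev_lt, MonoidHom.map_mul, mul_assoc]
  obtain ⟨E₀, hle, hE₀, hfin, hs⟩ := hE.exists_fin s fun a ha =>
    Submodule.subset_span ⟨a, ha, 1, loc_ext (by rw [ev_lt, MonoidHom.map_one, one_mul])⟩
  let e := Module.finBasis Ω E₀
  obtain ⟨P, hP⟩ := hE₀.exists_rp e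
  refine ⟨_, fun i => (e i : OGL Ω n), P, e.linearIndependent.map' E₀.subtype E₀.ker_subtype,
    fun a ha => ?_, fun N hN i => ?_, hP⟩
  · have := congrArg (Submodule.map E₀.subtype) e.span_eq
    rw [Submodule.map_span, ← Set.range_comp, Submodule.map_subtype_top] at this
    exact this.ge (hs a ha)
  · refine Submodule.span_le.2 ?_ (hle (e i).2)
    rintro _ ⟨a, ha, y, rfl⟩
    exact hN a ha y

/-- The same for right translates. -/
theorem exists_rrep (s : Finset (OGL Ω n)) : ∃ (m : ℕ) (f : Fin m → OGL Ω n) (P : Rp Ω n m),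
    LinearIndependent Ω f ∧ (∀ a ∈ s, a ∈ Submodule.span Ω (Set.range f)) ∧
    ∀ (A : Type u) [CommRing A] [Algebra Ω A] (x y : GL (Fin n) A) (i : Fin m),
      ev Ω (x * y) (f i) = ∑ j, ev Ω x (f j) * (P.ρ A y : Mat m A) j i := by
  classical
  let σ : OGL Ω n →ₐ[Ω] OGL Ω n := ev Ω (ug Ω n)⁻¹
  have hσ : ∀ a, σ (σ a) = a := fun a => by
    show ev Ω _ (ev Ω _ a) = a
    rw [ev_ev_inv, inv_inv, ev_ug]
    rfl
  obtain ⟨m, f, P, h1, h2, -, h3⟩ := exists_lrep (s.image σ)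
  let M : ∀ (A : Type u) [CommRing A] [Algebra Ω A], GL (Fin n) A →* Mat m A := fun A _ _ =>
    { toFun := fun g => (P.ρ A g⁻¹ : Mat m A)ᵀ
      map_one' := by rw [inv_one, map_one, Units.val_one, transpose_one]
      map_mul' := fun g g' => by rw [_root_.mul_inv_rev, map_mul, Units.val_mul, transpose_mul] }
  refine ⟨m, fun i => σ (f i), ⟨fun A _ _ => (M A).toHomUnits, fun φ g => ?_⟩,
    h1.map' σ.toLinearMap (LinearMap.ker_eq_bot.2 (Function.LeftInverse.injective hσ)),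
    fun a ha => ?_, fun A _ _ x y i => ?_⟩
  · ext i j
    show φ ((P.ρ _ g⁻¹).1 j i) = (P.ρ _ (gm φ g)⁻¹).1 j i
    rw [← map_inv, ← P.nat]
    rfl
  · have := Submodule.mem_map_of_mem (f := σ.toLinearMap) (h2 _ (Finset.mem_image_of_mem σ ha))
    rwa [Submodule.map_span, ← Set.range_comp, AlgHom.toLinearMap_apply, hσ] at this
  · show ev Ω _ (ev Ω _ _) = ∑ j, ev Ω x (ev Ω _ _) * (P.ρ A y⁻¹ : Mat m A) i j
    simp only [ev_ev_inv, _root_.mul_inv_rev, h3, mul_comm]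

/-- The value at a product is a sum of products, the right factors lying in the span of the
translates. -/
theorem exists_sum (a : OGL Ω n) : ∃ (m : ℕ) (c f : Fin m → OGL Ω n),
    (∀ N : Submodule Ω (OGL Ω n), (∀ y, lt y a ∈ N) → ∀ i, f i ∈ N) ∧
    ∀ (A : Type u) [CommRing A] [Algebra Ω A] (x y : GL (Fin n) A),
      ev Ω (x * y) a = ∑ j, ev Ω x (c j) * ev Ω y (f j) := by
  obtain ⟨m, f, P, -, h2, h3, h4⟩ := exists_lrep {a}
  obtain ⟨c, hc⟩ := (Submodule.mem_span_range_iff_exists_fun Ω).1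
    (h2 a (Finset.mem_singleton_self a))
  refine ⟨m, fun j => ∑ i, c i • (P.ρ _ (ug Ω n)).1 i j, f,
    fun N hN => h3 N fun b hb => by rw [Finset.mem_singleton.1 hb]; exact hN, fun A _ _ x y => ?_⟩
  have e : ∀ i j, ev Ω x ((P.ρ _ (ug Ω n)).1 i j) = (P.ρ A x : Mat m A) i j := fun i j => by
    conv_rhs => rw [← gm_ev_ug (k := Ω) x, ← P.nat]
    rfl
  rw [← hc]
  simp only [map_sum, map_smul, h4, e, Finset.sum_mul, Finset.smul_sum, smul_mul_assoc]
  exact Finset.sum_comm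

/-- A condition on the values of all translates passes to products with a point over `R`. -/
theorem ev_mul_mem {R K : Type u} [CommRing R] [Algebra Ω R] [CommRing K] [Algebra Ω K]
    [Algebra R K] [IsScalarTower Ω R K] (M : Submodule R K) (a : OGL Ω n) (x : GL (Fin n) K)
    (h : ∀ y, ev Ω x (lt y a) ∈ M) (g : GL (Fin n) R) :
    ev Ω (gm (IsScalarTower.toAlgHom Ω R K) g * x) a ∈ M := by
  obtain ⟨m, c, f, h1, h2⟩ := exists_sum a
  rw [h2]
  refine M.sum_mem fun j _ => ?_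
  rw [← map_ev, IsScalarTower.coe_toAlgHom', ← Algebra.smul_def]
  exact M.smul_mem _ (h1 ((M.restrictScalars Ω).comap (ev Ω x).toLinearMap) h j)

/-- Points with the same invariants are in the same coset. -/
theorem SEP.coset {S : Set (GL (Fin n) Ω)} (h : SEP S) {A : Type u} [CommRing A] [Algebra Ω A]
    {g g' : GL (Fin n) A} (e : ∀ b ∈ inv S, ev Ω g b = ev Ω g' b) : Cl S (g⁻¹ * g') := by
  obtain ⟨t, h1, h2⟩ := h
  refine h2 A _ fun b hb => ?_
  obtain ⟨m, c, f, h3, h4⟩ := exists_sum b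
  rw [← inv_mul_cancel g, h4, h4]
  exact Finset.sum_congr rfl fun j _ => by
    rw [e _ (h3 (Subalgebra.toSubmodule (inv S)) (fun y => lt_mem_inv y (h1 b hb)) j)]

end Pool.Agent.GR.AQ
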