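import Pool.Agent.P.MP_c1f06d_ag.g.AqSm
import Pool.Agent.P.MP_c1f06d_ag.g.AqLoc

/-! The affine quotient over an algebraically closed field. -/

open Matrix
open scoped TensorProduct

universe u

namespace Pool.Agent.GR.AQ

open Co

/-- If `b ⊗ 1 = 1 ⊗ b` over a subring over which `D` is flat, then outside every prime of `D`
there is a denominator of `b`. -/
theorem aqFin_den {B D : Type u} [CommRing B] [CommRing D] [Algebra B D] [Module.Flat B D]
    (b : D) (hb : (b ⊗ₜ[B] (1 : D)) = (1 : D) ⊗ₜ[B] b) (P : Ideal D) (hP : P ≠ ⊤) :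
    ∃ s r : B, algebraMap B D s ∉ P ∧ algebraMap B D s * b = algebraMap B D r := by
  set N : Submodule B D := LinearMap.range (Algebra.linearMap B D) with hN
  set ψ : B →ₗ[B] D ⧸ N := LinearMap.toSpanSingleton B (D ⧸ N) (N.mkQ b) with hψ
  have hex := Module.Flat.lTensor_exact D (LinearMap.exact_subtype_ker_map ψ)
  have h0 : ψ.lTensor D ((1 : D) ⊗ₜ[B] (1 : B)) = 0 := by
    have e : ψ.lTensor D ((1 : D) ⊗ₜ[B] (1 : B)) = N.mkQ.lTensor D ((1 : D) ⊗ₜ[B] b) := by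
      simp [hψ]
    have e1 : N.mkQ (1 : D) = 0 := (Submodule.Quotient.mk_eq_zero N).2 ⟨1, by simp⟩
    rw [e, ← hb, LinearMap.lTensor_tmul, e1, TensorProduct.tmul_zero]
  obtain ⟨z, hz⟩ := (hex _).1 h0
  by_contra hc
  push Not at hc
  have key : ∀ z : D ⊗[B] (LinearMap.ker ψ),
      TensorProduct.rid B D ((LinearMap.ker ψ).subtype.lTensor D z) ∈ P := by
    intro z
    induction z with
    | zero => simp
    | add x y hx hy => rw [map_add, map_add]; exact P.add_mem hx hy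
    | tmul d s =>
      rw [LinearMap.lTensor_tmul, TensorProduct.rid_tmul, Algebra.smul_def]
      refine P.mul_mem_right _ ?_
      by_contra hs
      have h1 : (s : B) • N.mkQ b = 0 := s.2
      rw [← map_smul] at h1
      obtain ⟨r, hr⟩ := (Submodule.Quotient.mk_eq_zero N).1 h1
      exact hc s r hs (by rw [← Algebra.smul_def, ← hr]; rfl)
  have := key z
  rw [hz, TensorProduct.rid_tmul, one_smul] at this
  exact hP ((Ideal.eq_top_iff_one P).2 this)

variable {Ω : Type u} [Field Ω] [IsAlgClosed Ω] {n : ℕ}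

omit [IsAlgClosed Ω] in
theorem aqFin_lt_lt (y : GL (Fin n) Ω) (b : OGL Ω n) : lt y (lt y⁻¹ b) = b := by
  have : lt y (lt y⁻¹ b) = ev Ω (cst _ y * ug Ω n) (lt y⁻¹ b) := rfl
  rw [this, ev_lt, ← mul_assoc, ← MonoidHom.map_mul, inv_mul_cancel, MonoidHom.map_one, one_mul,
    ev_ug]
  rfl

/-- A finitely generated stable algebra of invariants that contains a given finite set. -/
theorem aqFin_pkg (S : Set (GL (Fin n) Ω)) (t : Finset (OGL Ω n)) (ht : ∀ b ∈ t, b ∈ inv S) :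
    ∃ B : Subalgebra Ω (OGL Ω n), B.FG ∧ B ≤ inv S ∧ (∀ b ∈ t, b ∈ B) ∧
      (∀ y, ∀ b ∈ B, lt y b ∈ B) ∧
      ∀ (A : Type u) [CommRing A] [Algebra Ω A] (x g g' : GL (Fin n) A),
        (∀ b ∈ B, ev Ω g b = ev Ω g' b) → ∀ b ∈ B, ev Ω (x * g) b = ev Ω (x * g') b := by
  classical
  obtain ⟨m, f, P, -, h2, h3, h4⟩ := exists_lrep t
  have hf : ∀ i, f i ∈ Algebra.adjoin Ω (Set.range f) := fun i => Algebra.subset_adjoin ⟨i, rfl⟩
  refine ⟨Algebra.adjoin Ω (Set.range f), ⟨Finset.univ.image f, by simp⟩, ?_, ?_, ?_, ?_⟩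
  · rw [Algebra.adjoin_le_iff]
    rintro _ ⟨i, rfl⟩
    exact h3 (inv S).toSubmodule (fun a ha y => lt_mem_inv y (ht a ha)) i
  · intro b hb
    exact Algebra.span_le_adjoin Ω _ (h2 b hb)
  · intro y
    have : Algebra.adjoin Ω (Set.range f) ≤ (Algebra.adjoin Ω (Set.range f)).comap (lt y) := by
      rw [Algebra.adjoin_le_iff]
      rintro _ ⟨i, rfl⟩
      change ev Ω (cst _ y * ug Ω n) (f i) ∈ Algebra.adjoin Ω (Set.range f)
      rw [h4, ev_ug]
      refine Subalgebra.sum_mem _ fun j _ => Subalgebra.mul_mem _ ?_ (hf j)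
      rw [← P.nat (Algebra.ofId Ω _) y]
      exact Subalgebra.algebraMap_mem _ _
    exact fun b hb => this hb
  · intro A _ _ x g g' h
    have : Algebra.adjoin Ω (Set.range f) ≤ AlgHom.equalizer (ev Ω (x * g)) (ev Ω (x * g')) := by
      rw [Algebra.adjoin_le_iff]
      rintro _ ⟨i, rfl⟩
      change ev Ω (x * g) (f i) = ev Ω (x * g') (f i)
      rw [h4, h4]
      exact Finset.sum_congr rfl fun j _ => by rw [h _ (hf j)]
    exact fun b hb => this hb

/-- Invariants have equal images in the tensor square over a separating algebra. -/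
theorem aqFin_tmul {S : Set (GL (Fin n) Ω)} (B : Subalgebra Ω (OGL Ω n))
    (hs : ∀ (A : Type u) [CommRing A] [Algebra Ω A] (g g' : GL (Fin n) A),
      (∀ b ∈ B, ev Ω g b = ev Ω g' b) → Cl S (g⁻¹ * g')) {b : OGL Ω n} (hb : b ∈ inv S) :
    (b ⊗ₜ[B] (1 : OGL Ω n)) = (1 : OGL Ω n) ⊗ₜ[B] b := by
  let l : OGL Ω n →ₐ[Ω] OGL Ω n ⊗[B] OGL Ω n := Algebra.TensorProduct.includeLeft
  let r : OGL Ω n →ₐ[Ω] OGL Ω n ⊗[B] OGL Ω n :=
    (Algebra.TensorProduct.includeRight : OGL Ω n →ₐ[B] _).restrictScalars Ω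
  have h1 := hs _ (gm l (ug Ω n)) (gm r (ug Ω n)) fun c hc => by
    rw [ev_gm_ug, ev_gm_ug]
    have := TensorProduct.smul_tmul (R := B) (⟨c, hc⟩ : B) (1 : OGL Ω n) (1 : OGL Ω n)
    simpa [l, r, Algebra.smul_def] using this
  have h2 := inv_all hb (gm l (ug Ω n)) h1
  rw [mul_inv_cancel_left, ev_gm_ug, ev_gm_ug] at h2
  exact h2.symm

theorem exists_aq (S : Subgroup (GL (Fin n) Ω)) (h1 : SEP (S : Set (GL (Fin n) Ω)))
    (h2 : SIMPLE (S : Set (GL (Fin n) Ω))) :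
    ∃ Q : AffQuot Ω n, ∀ (A : Type u) [CommRing A] [Algebra Ω A] (g : GL (Fin n) A),
      Q.Pt g ↔ Cl (S : Set (GL (Fin n) Ω)) g := by
  classical
  have hdom : IsDomain (OGL Ω n) := IsLocalization.isDomain_localization
    (powers_le_nonZeroDivisors_of_noZeroDivisors (det_mvPolynomialX_ne_zero (Fin n) Ω))
  obtain ⟨t0, ht0, hsep⟩ := h1
  have sep : ∀ B : Subalgebra Ω (OGL Ω n), (∀ b ∈ t0, b ∈ B) →
      (∀ (A : Type u) [CommRing A] [Algebra Ω A] (x g g' : GL (Fin n) A),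
        (∀ b ∈ B, ev Ω g b = ev Ω g' b) → ∀ b ∈ B, ev Ω (x * g) b = ev Ω (x * g') b) →
      ∀ (A : Type u) [CommRing A] [Algebra Ω A] (g g' : GL (Fin n) A),
        (∀ b ∈ B, ev Ω g b = ev Ω g' b) → Cl (S : Set (GL (Fin n) Ω)) (g⁻¹ * g') := by
    intro B hB hc A _ _ g g' h
    refine hsep A _ fun b hb => ?_
    rw [← hc A g⁻¹ g g' h b (hB b hb), inv_mul_cancel]
  obtain ⟨B0, ⟨s0, hs0⟩, i0, m0, l0, c0⟩ := aqFin_pkg (S : Set (GL (Fin n) Ω)) t0 ht0
  have ft0 : Algebra.FiniteType Ω B0 := (Subalgebra.fg_iff_finiteType B0).1 ⟨s0, hs0⟩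
  have sm0 : Algebra.Smooth B0 (OGL Ω n) := smooth_sub S B0 i0 l0 (sep B0 m0 c0)
  have hopen : IsOpen (Set.range (PrimeSpectrum.comap (algebraMap B0 (OGL Ω n)))) :=
    PrimeSpectrum.isOpenMap_comap_of_hasGoingDown_of_finitePresentation.isOpen_range
  obtain ⟨_, ⟨a, rfl⟩, ha0, ha⟩ :=
    PrimeSpectrum.isTopologicalBasis_basic_opens.exists_subset_of_mem_open
      (Set.mem_range_self (f := PrimeSpectrum.comap (algebraMap B0 (OGL Ω n)))
        ⟨⊥, Ideal.isPrime_bot⟩) hopen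
  have hane : (a : OGL Ω n) ≠ 0 := fun e => ha0 (show (a : OGL Ω n) ∈ (⊥ : Ideal _) from e)
  -- translates of the open set lie in the image
  have himg : ∀ (y : GL (Fin n) Ω) (q : Ideal B0), q.IsPrime →
      (⟨lt y a, l0 y _ a.2⟩ : B0) ∉ q →
      ∃ P : Ideal (OGL Ω n), P.IsPrime ∧ ∀ b : B0, (b : OGL Ω n) ∈ P ↔ b ∈ q := by
    intro y q hq hy
    let φ : B0 →+* B0 := ((lt y).toRingHom.comp B0.val.toRingHom).codRestrict B0
      fun b => l0 y _ b.2
    obtain ⟨P', hP'⟩ := ha (show (⟨q.comap φ, Ideal.comap_isPrime φ q⟩ : PrimeSpectrum B0) ∈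
      (PrimeSpectrum.basicOpen a : Set _) from hy)
    refine ⟨P'.asIdeal.comap (lt y⁻¹), Ideal.comap_isPrime _ _, fun b => ?_⟩
    have e : ∀ c : B0, (c : OGL Ω n) ∈ P'.asIdeal ↔ φ c ∈ q := fun c =>
      SetLike.ext_iff.1 (congrArg PrimeSpectrum.asIdeal hP') c
    have e2 : φ ⟨lt y⁻¹ b, l0 _ _ b.2⟩ = b := Subtype.ext (aqFin_lt_lt y b)
    have e3 := e ⟨lt y⁻¹ b, l0 _ _ b.2⟩
    rw [e2] at e3
    exact e3
  have htop := h2 a (i0 a.2) hane
    (Ideal.span (Set.range fun y => (⟨lt y a, lt_mem_inv y (i0 a.2)⟩ :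
      inv (S : Set (GL (Fin n) Ω))))) fun y => Ideal.subset_span ⟨y, rfl⟩
  obtain ⟨c, hc⟩ := Finsupp.mem_ideal_span_range_iff_exists_finsupp.1
    ((Ideal.eq_top_iff_one _).1 htop)
  have hsub : ∀ b ∈ s0, b ∈ B0 := fun b hb => hs0 ▸ Algebra.subset_adjoin hb
  obtain ⟨B1, fg1, i1, m1, l1, c1⟩ := aqFin_pkg (S : Set (GL (Fin n) Ω))
    (s0 ∪ c.support.image fun y => (c y : OGL Ω n)) (by
      intro b hb
      rcases Finset.mem_union.1 hb with hb | hb
      · exact i0 (hsub b hb)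
      · obtain ⟨y, -, rfl⟩ := Finset.mem_image.1 hb
        exact (c y).2)
  have h01 : B0 ≤ B1 := by
    rw [← hs0, Algebra.adjoin_le_iff]
    exact fun b hb => m1 b (Finset.mem_union_left _ hb)
  have ft1 : Algebra.FiniteType Ω B1 := (Subalgebra.fg_iff_finiteType B1).1 fg1
  have sep1 := sep B1 (fun b hb => h01 (m0 b hb)) c1
  have sm1 : Algebra.Smooth B1 (OGL Ω n) := smooth_sub S B1 i1 l1 sep1
  have ff : Module.FaithfullyFlat B1 (OGL Ω n) := by
    refine Module.FaithfullyFlat.of_comap_surjective fun p => ?_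
    let ι : B0 →+* B1 := (Subalgebra.inclusion h01).toRingHom
    obtain ⟨y, hy⟩ : ∃ y, (⟨lt y a, l0 y _ a.2⟩ : B0) ∉ p.asIdeal.comap ι := by
      by_contra hn
      push Not at hn
      refine p.2.ne_top ((Ideal.eq_top_iff_one _).2 ?_)
      have e : (1 : B1) = ∑ y ∈ c.support.attach, (⟨c y.1, m1 _ (Finset.mem_union_right _
          (Finset.mem_image_of_mem _ y.2))⟩ : B1) * ι ⟨lt y.1 a, l0 _ _ a.2⟩ := by
        apply Subtype.ext
        have := congrArg Subtype.val hc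
        rw [Finsupp.sum, ← Finset.sum_attach] at this
        simpa [ι] using this.symm
      rw [e]
      exact Ideal.sum_mem _ fun y _ => Ideal.mul_mem_left _ _ (hn y.1)
    obtain ⟨P, hP, hPq⟩ := himg y _ (Ideal.comap_isPrime ι p.asIdeal) hy
    refine ⟨⟨P, hP⟩, PrimeSpectrum.ext (Ideal.ext fun b => ?_)⟩
    obtain ⟨s, r, hs, hr⟩ := aqFin_den (B := B0) (b : OGL Ω n)
      (aqFin_tmul B0 (sep B0 m0 c0) (i1 b.2)) P hP.ne_top
    have hs' : ι s ∉ p.asIdeal := fun h => hs ((hPq s).2 h)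
    have hr' : ι s * b = ι r := Subtype.ext hr
    change (b : OGL Ω n) ∈ P ↔ b ∈ p.asIdeal
    constructor
    · intro h
      have : ι r ∈ p.asIdeal := (hPq r).1 (by
        change algebraMap B0 (OGL Ω n) r ∈ P
        rw [← hr]; exact P.mul_mem_left _ h)
      exact (p.2.mem_or_mem (hr' ▸ this)).resolve_left hs'
    · intro h
      have : algebraMap B0 (OGL Ω n) r ∈ P := (hPq r).2 (by
        change ι r ∈ p.asIdeal
        rw [← hr']; exact p.asIdeal.mul_mem_left _ h)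
      exact (hP.mem_or_mem (hr ▸ this)).resolve_left hs
  refine ⟨⟨B1, ft1, sm1, ff, fun A _ _ g g' => ⟨fun h b hb => ?_, fun h b hb => ?_⟩⟩,
    fun A _ _ g => ⟨fun h => hsep A g fun b hb => h b (h01 (m0 b hb)), fun h b hb => ?_⟩⟩
  · rw [← c1 A g⁻¹ g g' h b hb, inv_mul_cancel]
  · have := c1 A g _ _ h b hb
    rw [mul_inv_cancel_left, mul_one] at this
    exact this.symm
  · have := inv_all (i1 hb) 1 h
    rwa [one_mul] at this

end Pool.Agent.GR.AQ
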