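import Pool.Agent.P.MP_c1f06d_ag.r.Lin

/-! Composition series of a set of matrices. -/

open Matrix

universe u

namespace Pool.Agent.GR

variable {n : ℕ} {A : Type u} [CommRing A]

theorem lv_conj {ι : Type} [DecidableEq ι] {c : Fin n → ι} {h h' : Mat n A} (hh : InL c h)
    (hh' : InL c h') (M : Mat n A) : lv c (h * M * h') = h * lv c M * h' := by
  ext i j
  simp only [lv, of_apply, mul_apply, Finset.sum_mul]
  split_ifs with e
  · refine Finset.sum_congr rfl fun l _ => Finset.sum_congr rfl fun p _ => ?_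
    split_ifs with e'
    · rfl
    · by_cases e1 : c i = c p
      · rw [hh' l j fun e2 => e' (e1.symm.trans (e.trans e2.symm)), mul_zero, mul_zero]
      · rw [hh i p e1, zero_mul, zero_mul, zero_mul, zero_mul]
  · refine (Finset.sum_eq_zero fun l _ => Finset.sum_eq_zero fun p _ => ?_).symm
    split_ifs with e'
    · by_cases e1 : c i = c p
      · rw [hh' l j fun e2 => e (e1.trans (e'.trans e2)), mul_zero]
      · rw [hh i p e1, zero_mul, zero_mul]
    · rw [mul_zero, zero_mul]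

/-- A frame in which `S` is block triangular with irreducible diagonal blocks. -/
theorem exists_flag (S : Set (GL (Fin n) A)) : ∃ (γ : GL (Fin n) A) (a : Fin n → ℤ),
    (∀ g ∈ S, InP a ((γ⁻¹ * g * γ : GL (Fin n) A) : Mat n A)) ∧
    ∀ (h : GL (Fin n) A) (b : Fin n → ℤ), InL a (h : Mat n A) →
      (∀ g ∈ S, InP b ((h : Mat n A) * lv a ((γ⁻¹ * g * γ : GL (Fin n) A) : Mat n A) *
        ((h⁻¹ : GL (Fin n) A) : Mat n A))) → ∀ i j, a i = a j → b i = b j := by
  classical
  let Q : ℕ → Prop := fun t => ∃ (γ : GL (Fin n) A) (a : Fin n → ℤ),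
    (∀ g ∈ S, InP a ((γ⁻¹ * g * γ : GL (Fin n) A) : Mat n A)) ∧
      (Finset.univ.filter fun p : Fin n × Fin n => a p.1 = a p.2).card = t
  have hQ : ∃ t, Q t := ⟨_, 1, 0, fun _ _ _ _ h => (lt_irrefl _ h).elim, rfl⟩
  obtain ⟨γ, a, h1, h2⟩ := Nat.find_spec hQ
  refine ⟨γ, a, h1, fun h b hh hb i0 j0 e0 => by_contra fun e1 => ?_⟩
  obtain ⟨K, hK⟩ : ∃ K : ℤ, ∀ i j, b i - b j < K := by
    obtain ⟨K, hK⟩ := (Set.finite_range fun p : Fin n × Fin n => b p.1 - b p.2).bddAbove
    exact ⟨K + 1, fun i j => Int.lt_add_one_iff.2 (hK ⟨(i, j), rfl⟩)⟩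
  have hK0 : 0 < K := by simpa using hK i0 i0
  have hlt : ∀ i j, a i < a j → K * a i + b i < K * a j + b j := fun i j e => by
    have := hK i j
    nlinarith [Int.add_one_le_iff.2 e]
  refine Nat.find_min hQ (m := (Finset.univ.filter fun p : Fin n × Fin n =>
    K * a p.1 + b p.1 = K * a p.2 + b p.2).card) ?_
      ⟨γ * h⁻¹, fun i => K * a i + b i, fun g hg i j e => ?_, rfl⟩
  · rw [← h2]
    refine Finset.card_lt_card ⟨fun p hp => Finset.mem_filter.2 ⟨Finset.mem_univ _, ?_⟩,
      fun hs => e1 ?_⟩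
    · have e := (Finset.mem_filter.1 hp).2
      exact le_antisymm (not_lt.1 fun e2 => (hlt _ _ e2).ne' e)
        (not_lt.1 fun e2 => (hlt _ _ e2).ne e)
    · have e := (Finset.mem_filter.1 (hs (Finset.mem_filter.2
        ⟨Finset.mem_univ (i0, j0), e0⟩))).2
      simp only [e0] at e
      exact add_left_cancel e
  · have e2 : (γ * h⁻¹)⁻¹ * g * (γ * h⁻¹) = h * (γ⁻¹ * g * γ) * h⁻¹ := by group
    have hP : ∀ {M : Mat n A}, InL a M → InP a M := fun hM i j e => hM i j e.ne
    rw [e2, Units.val_mul, Units.val_mul h]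
    rcases lt_trichotomy (a i) (a j) with e3 | e3 | e3
    · exact ((hP hh).mul (h1 g hg)).mul (hP hh.inv) i j e3
    · have e4 := hb g hg i j (by simpa only [e3, add_lt_add_iff_left] using e)
      rwa [← lv_conj hh hh.inv, lv, of_apply, if_pos e3] at e4
    · exact ((hlt _ _ e3).not_gt e).elim

end Pool.Agent.GR
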