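import Pool.Agent.P.MP_c1f06d_ag.g.AqDefs
import Pool.Agent.P.MP_c1f06d_ag.g.Flag

/-! Composition series and decompositions into irreducible blocks. -/

open Matrix
open scoped TensorProduct

universe u

namespace Pool.Agent.GR.AQ

open Co

variable {Ω : Type u} [Field Ω] {n : ℕ}

/-- A composition series. -/
theorem exists_flag (S : Set (GL (Fin n) Ω)) : ∃ (γ : GL (Fin n) Ω) (a : Fin n → ℤ),
    (∀ s ∈ S, InP a ((γ⁻¹ * s * γ : GL (Fin n) Ω) : Mat n Ω)) ∧
    ∀ (h : GL (Fin n) Ω) (a' : Fin n → ℤ), InL a (h : Mat n Ω) →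
      (∀ s ∈ S, InP a' ((h : Mat n Ω) * lv a ((γ⁻¹ * s * γ : GL (Fin n) Ω) : Mat n Ω) *
        ((h⁻¹ : GL (Fin n) Ω) : Mat n Ω))) → ∀ i j, a i = a j → a' i = a' j := by
  exact GR.exists_flag S

/-- Every stable subspace of the sum of the blocks other than `i0` has a stable complement. -/
def SSimple {ι : Type} (c : Fin n → ι) (i0 : ι) (S : Set (GL (Fin n) Ω)) : Prop :=
  ∀ U : Submodule Ω (Fin n → Ω), (∀ v ∈ U, ∀ i, c i = i0 → v i = 0) →
    (∀ s ∈ S, ∀ v ∈ U, (s : Mat n Ω) *ᵥ v ∈ U) →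
    ∃ U' : Submodule Ω (Fin n → Ω), (∀ s ∈ S, ∀ v ∈ U', (s : Mat n Ω) *ᵥ v ∈ U') ∧ Disjoint U U' ∧
      ∀ v, v ∈ U ⊔ U' ↔ ∀ i, c i = i0 → v i = 0

/-- An idempotent with coordinate image is diagonal after a unipotent change of frame. -/
theorem aqflag_split {c' : Fin n → ℕ} (Z : Fin n → Prop) {b : ℕ} (hZ : ∀ l, Z l → c' l = b)
    (E : Mat n Ω) (h1 : ∀ l m, ¬ Z l → E l m = 0) (h2 : ∀ l m, Z m → E l m = (1 : Mat n Ω) l m)
    (h3 : ∀ l m, c' m ≠ b → E l m = 0) :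
    ∃ β : GL (Fin n) Ω, InL c' (β : Mat n Ω) ∧ ∀ t : GL (Fin n) Ω,
      E * (t : Mat n Ω) = (t : Mat n Ω) * E → ∀ l m, ¬ (Z l ↔ Z m) →
        ((β⁻¹ * t * β : GL (Fin n) Ω) : Mat n Ω) l m = 0 := by
  classical
  let D : Mat n Ω := diagonal fun l => if Z l then 1 else 0
  have d1 : ∀ l, D l l = if Z l then 1 else 0 := fun l => diagonal_apply_eq _ _
  have d2 : ∀ {l m}, l ≠ m → D l m = 0 := fun e => diagonal_apply_ne _ e
  have hDE : D * E = E := by
    ext l m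
    rw [diagonal_mul]
    split_ifs with e
    · rw [one_mul]
    · rw [zero_mul, h1 l m e]
  have hED : E * D = D := by
    ext l m
    rw [mul_diagonal]
    split_ifs with e
    · rw [mul_one, h2 l m e]
      by_cases e' : l = m
      · subst e'
        rw [one_apply_eq, d1, if_pos e]
      · rw [one_apply_ne e', d2 e']
    · by_cases e' : l = m
      · subst e'
        rw [mul_zero, d1, if_neg e]
      · rw [mul_zero, d2 e']
  have hDD : D * D = D := by
    rw [diagonal_mul_diagonal]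
    refine congrArg diagonal (funext fun l => ?_)
    split_ifs <;> simp
  have hEE : E * E = E := by
    calc E * E = E * (D * E) := by rw [hDE]
      _ = E := by rw [← Matrix.mul_assoc, hED, hDE]
  have hN : (E - D) * (E - D) = 0 := by
    rw [sub_mul, mul_sub, mul_sub, hEE, hED, hDE, hDD, sub_self]
  let β : GL (Fin n) Ω := ⟨1 - (E - D), 1 + (E - D),
    by rw [sub_mul, mul_add, mul_add, hN]; simp, by rw [mul_sub, add_mul, add_mul, hN]; simp⟩
  have hβ : E * (β : Mat n Ω) = (β : Mat n Ω) * D := by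
    show E * (1 - (E - D)) = (1 - (E - D)) * D
    rw [mul_sub, mul_sub, sub_mul, sub_mul, hEE, hED, hDD]
    simp
  have hβ' : D * ((β⁻¹ : GL (Fin n) Ω) : Mat n Ω) = ((β⁻¹ : GL (Fin n) Ω) : Mat n Ω) * E := by
    rw [Units.eq_inv_mul_iff_mul_eq, ← Matrix.mul_assoc, ← hβ, Matrix.mul_assoc, Units.mul_inv,
      Matrix.mul_one]
  refine ⟨β, fun l m e => ?_, fun t ht l m e => ?_⟩
  · have e' : l ≠ m := fun e' => e (congrArg c' e')
    show (1 - (E - D)) l m = 0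
    rw [Matrix.sub_apply, Matrix.sub_apply, one_apply_ne e', d2 e', sub_zero, zero_sub,
      neg_eq_zero]
    by_cases z : Z l
    · exact h3 l m fun e2 => e ((hZ l z).trans e2.symm)
    · exact h1 l m z
  · have k : D * ((β⁻¹ * t * β : GL (Fin n) Ω) : Mat n Ω) =
        ((β⁻¹ * t * β : GL (Fin n) Ω) : Mat n Ω) * D := by
      rw [Units.val_mul, Units.val_mul, ← Matrix.mul_assoc, ← Matrix.mul_assoc, hβ',
        Matrix.mul_assoc _ E, ht, Matrix.mul_assoc _ _ D, ← hβ]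
      simp only [Matrix.mul_assoc]
    have k' := congrFun (congrFun k l) m
    rw [diagonal_mul, mul_diagonal] at k'
    by_cases z : Z l
    · have z' : ¬ Z m := fun z' => e ⟨fun _ => z', fun _ => z⟩
      rwa [if_pos z, if_neg z', one_mul, mul_zero] at k'
    · have z' : Z m := by_contra fun z' => e ⟨fun x => absurd x z, fun x => absurd x z'⟩
      rw [if_neg z, if_pos z', zero_mul, mul_one] at k'
      exact k'.symm

theorem aqflag_mulVec {Z : Fin n → Prop} {M : Mat n Ω} (hM : ∀ l m, ¬ Z l → Z m → M l m = 0)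
    {v : Fin n → Ω} (hv : ∀ l, ¬ Z l → v l = 0) : ∀ l, ¬ Z l → (M *ᵥ v) l = 0 := fun l hl => by
  show ∑ m, M l m * v m = 0
  refine Finset.sum_eq_zero fun m _ => ?_
  by_cases z : Z m
  · rw [hM l m hl z, zero_mul]
  · rw [hv m z, mul_zero]

/-- A stable coordinate subspace of a block is the image of an idempotent that commutes. -/
theorem aqflag_idem {ι : Type} {c : Fin n → ι} {i0 : ι} {S : Set (GL (Fin n) Ω)}
    (h : SSimple c i0 S) (γ : GL (Fin n) Ω) (hγ : InL (fun i => c i = i0) (γ : Mat n Ω))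
    {c' : Fin n → ℕ} {b : ℕ} (hb : ∀ l, c' l = b → c l ≠ i0) (Z : Fin n → Prop)
    (hZ : ∀ l, Z l → c' l = b)
    (hL : ∀ s ∈ S, InL c' ((γ⁻¹ * s * γ : GL (Fin n) Ω) : Mat n Ω))
    (hS : ∀ s ∈ S, ∀ l m, ¬ Z l → Z m → ((γ⁻¹ * s * γ : GL (Fin n) Ω) : Mat n Ω) l m = 0) :
    ∃ E : Mat n Ω, (∀ l m, ¬ Z l → E l m = 0) ∧ (∀ l m, Z m → E l m = (1 : Mat n Ω) l m) ∧
      (∀ l m, c' m ≠ b → E l m = 0) ∧ ∀ s ∈ S, E * ((γ⁻¹ * s * γ : GL (Fin n) Ω) : Mat n Ω) =
        ((γ⁻¹ * s * γ : GL (Fin n) Ω) : Mat n Ω) * E := by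
  classical
  let g : Mat n Ω := γ
  let g' : Mat n Ω := (γ⁻¹ : GL (Fin n) Ω)
  have hgg' : g * g' = 1 := Units.mul_inv γ
  have hg'g : g' * g = 1 := Units.inv_mul γ
  have hW : ∀ v : Fin n → Ω, (∀ l, ¬ c' l = b → v l = 0) → ∀ i, c i = i0 → (g *ᵥ v) i = 0 :=
    fun v hv i hi => aqflag_mulVec (Z := fun l => c l ≠ i0)
      (fun l m hl hm => hγ l m fun e => hm ((iff_of_eq e).1 (not_not.1 hl)))
      (fun l hl => hv l fun e => hl (hb l e)) i (not_not.2 hi)
  let U : Submodule Ω (Fin n → Ω) :=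
    { carrier := {v | ∀ l, ¬ Z l → (g' *ᵥ v) l = 0}
      add_mem' := fun ha hb l hl => by rw [mulVec_add, Pi.add_apply, ha l hl, hb l hl, add_zero]
      zero_mem' := fun l _ => by rw [mulVec_zero, Pi.zero_apply]
      smul_mem' := fun a v hv l hl => by rw [mulVec_smul, Pi.smul_apply, hv l hl, smul_zero] }
  have hts : ∀ s : GL (Fin n) Ω, ((γ⁻¹ * s * γ : GL (Fin n) Ω) : Mat n Ω) =
      g' * (s : Mat n Ω) * g := fun s => by rw [Units.val_mul, Units.val_mul]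
  have hUs : ∀ s ∈ S, ∀ v ∈ U, (s : Mat n Ω) *ᵥ v ∈ U := fun s hs v hv l hl => by
    have := aqflag_mulVec (hS s hs) hv l hl
    rwa [hts, mulVec_mulVec, Matrix.mul_assoc, hgg', Matrix.mul_one, ← mulVec_mulVec] at this
  obtain ⟨U', k1, k2, k3⟩ := h U (fun v hv i hi => by
    have := hW (g' *ᵥ v) (fun l hl => hv l fun z => hl (hZ l z)) i hi
    rwa [mulVec_mulVec, hgg', one_mulVec] at this) hUs
  obtain ⟨U'', k4, k5⟩ := k2.symm.exists_isCompl
  let p : (Fin n → Ω) →ₗ[Ω] (Fin n → Ω) := U.subtype ∘ₗ U.projectionOnto U'' k5.symm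
  have p1 : ∀ v, p v ∈ U := fun v => (U.projectionOnto U'' k5.symm v).2
  have p2 : ∀ v ∈ U, p v = v := fun v hv =>
    congrArg Subtype.val (Submodule.projectionOnto_apply_left k5.symm ⟨v, hv⟩)
  have p3 : ∀ v ∈ U', p v = 0 := fun v hv =>
    congrArg Subtype.val (Submodule.projectionOnto_apply_of_mem_right k5.symm (k4 hv))
  have p4 : ∀ s ∈ S, ∀ v, (∀ i, c i = i0 → v i = 0) →
      p ((s : Mat n Ω) *ᵥ v) = (s : Mat n Ω) *ᵥ p v := fun s hs v hv => by
    obtain ⟨x, hx, y, hy, rfl⟩ := Submodule.mem_sup.1 ((k3 v).2 hv)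
    rw [mulVec_add, map_add, map_add, p2 x hx, p3 y hy, p2 _ (hUs s hs x hx),
      p3 _ (k1 s hs y hy), add_zero, add_zero]
  let ε : Mat n Ω := diagonal fun l => if c' l = b then 1 else 0
  have hε : ∀ v l, (ε *ᵥ v) l = (if c' l = b then 1 else 0) * v l := fun v l =>
    mulVec_diagonal _ _ _
  let P : Mat n Ω := LinearMap.toMatrix' p
  have hP : ∀ v, P *ᵥ v = p v := fun v => by
    rw [← toLin'_apply, toLin'_toMatrix']
  have hE : ∀ v, (g' * P * g * ε) *ᵥ v = g' *ᵥ p (g *ᵥ (ε *ᵥ v)) := fun v => by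
    rw [← hP, mulVec_mulVec, mulVec_mulVec, mulVec_mulVec]
  have hent : ∀ (M : Mat n Ω) l m, M l m = (M *ᵥ Pi.single m 1) l := fun M l m => by
    rw [mulVec_single_one]; rfl
  refine ⟨g' * P * g * ε, fun l m hl => ?_, fun l m hm => ?_, fun l m hm => ?_, fun s hs => ?_⟩
  · rw [hent (g' * P * g * ε), hE]
    exact p1 _ l hl
  · have e : ε *ᵥ (Pi.single m 1 : Fin n → Ω) = Pi.single m 1 := by
      funext x
      rw [hε]
      by_cases e : x = m
      · rw [e, if_pos (hZ m hm), one_mul]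
      · rw [Pi.single_eq_of_ne e, mul_zero]
    rw [hent (g' * P * g * ε), hE, e, p2, mulVec_mulVec, hg'g, ← hent]
    intro x hx
    rw [mulVec_mulVec, hg'g, one_mulVec]
    exact Pi.single_eq_of_ne (fun e' : x = m => hx (e' ▸ hm)) _
  · rw [mul_diagonal, if_neg hm, mul_zero]
  · have e : ε * (g' * (s : Mat n Ω) * g) = (g' * (s : Mat n Ω) * g) * ε := by
      ext l m
      rw [diagonal_mul, mul_diagonal]
      by_cases e : c' l = c' m
      · rw [e, mul_comm]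
      · rw [← hts, hL s hs l m e, mul_zero, zero_mul]
    refine ext_of_mulVec_single fun m => ?_
    rw [hts, ← mulVec_mulVec, ← mulVec_mulVec _ (g' * (s : Mat n Ω) * g), hE, hE,
      mulVec_mulVec _ ε, e, ← mulVec_mulVec _ _ ε, mulVec_mulVec _ g, ← Matrix.mul_assoc,
      ← Matrix.mul_assoc, hgg', Matrix.one_mul, ← mulVec_mulVec _ _ g,
      p4 s hs _ (hW _ fun l hl => by rw [hε, if_neg hl, zero_mul]), mulVec_mulVec,
      mulVec_mulVec _ _ g', Matrix.mul_assoc _ g, hgg', Matrix.mul_one]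

theorem exists_blocks {ι : Type} {c : Fin n → ι} {i0 : ι} {S : Set (GL (Fin n) Ω)}
    (hL : ∀ s ∈ S, InL c (s : Mat n Ω)) (h : SSimple c i0 S) :
    ∃ (γ : GL (Fin n) Ω) (c' : Fin n → ℕ), InL (fun i => c i = i0) (γ : Mat n Ω) ∧
      (∀ i, c' i = 0 ↔ c i = i0) ∧
      (∀ s ∈ S, InL c' ((γ⁻¹ * s * γ : GL (Fin n) Ω) : Mat n Ω)) ∧
      Irr c' (· ≠ 0) {g | γ * g * γ⁻¹ ∈ S} := by
  classical
  let Q : ℕ → Prop := fun t => ∃ (γ : GL (Fin n) Ω) (c' : Fin n → ℕ),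
    InL (fun i => c i = i0) (γ : Mat n Ω) ∧ (∀ i, c' i = 0 ↔ c i = i0) ∧
      (∀ s ∈ S, InL c' ((γ⁻¹ * s * γ : GL (Fin n) Ω) : Mat n Ω)) ∧
      (Finset.univ.filter fun p : Fin n × Fin n => c' p.1 = c' p.2).card = t
  have hQ : ∃ t, Q t := by
    refine ⟨_, 1, fun i => if c i = i0 then 0 else 1, InL.one _, fun i => ?_, fun s hs i j e => ?_,
      rfl⟩
    · by_cases e : c i = i0 <;> simp [e]
    · rw [inv_one, one_mul, mul_one]
      exact hL s hs i j fun e' => e (by simp only [e'])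
  obtain ⟨γ, c', h1, h2, h3, h4⟩ := Nat.find_spec hQ
  have key : ∀ (g : GL (Fin n) Ω) (a : Fin n → ℤ), InL c' (g : Mat n Ω) →
      (∀ s ∈ {g | γ * g * γ⁻¹ ∈ S}, InP a ((g * s * g⁻¹ : GL (Fin n) Ω) : Mat n Ω)) →
      ∀ i j, c' i = c' j → c' i ≠ 0 → ¬ a j < a i := by
    intro g a hg ha i j e0 e1 e2
    have hc : ∀ {M : Mat n Ω}, InL c' M → InL (fun i => c i = i0) M := fun hM l m e =>
      hM l m fun e' => e (propext ((h2 l).symm.trans (e' ▸ h2 m)))
    have hγ : InL (fun i => c i = i0) ((γ * g⁻¹ : GL (Fin n) Ω) : Mat n Ω) := h1.mul (hc hg.inv)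
    have ec : ∀ s : GL (Fin n) Ω, (γ * g⁻¹)⁻¹ * s * (γ * g⁻¹) = g * (γ⁻¹ * s * γ) * g⁻¹ :=
      fun s => by group
    have hL1 : ∀ s ∈ S, InL c' (((γ * g⁻¹)⁻¹ * s * (γ * g⁻¹) : GL (Fin n) Ω) : Mat n Ω) :=
      fun s hs => by
        rw [ec]
        exact (hg.mul (h3 s hs)).mul hg.inv
    have hP1 : ∀ s ∈ S, InP a (((γ * g⁻¹)⁻¹ * s * (γ * g⁻¹) : GL (Fin n) Ω) : Mat n Ω) :=
      fun s hs => by
        rw [ec]
        refine ha _ ?_
        have : γ * (γ⁻¹ * s * γ) * γ⁻¹ = s := by group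
        show γ * (γ⁻¹ * s * γ) * γ⁻¹ ∈ S
        rwa [this]
    let Z : Fin n → Prop := fun l => c' l = c' i ∧ a i ≤ a l
    obtain ⟨E, k1, k2, k3, k4⟩ := aqflag_idem h (γ * g⁻¹) hγ (c' := c') (b := c' i)
      (fun l e e' => e1 (e ▸ (h2 l).2 e')) Z (fun l z => z.1) hL1 (fun s hs l m hl hm => by
        by_cases e : c' l = c' i
        · exact hP1 s hs l m (lt_of_lt_of_le (not_le.1 fun e' => hl ⟨e, e'⟩) hm.2)
        · exact hL1 s hs l m fun e' => e (e'.trans hm.1))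
    obtain ⟨β, b1, b2⟩ := aqflag_split Z (fun l z => z.1) E k1 k2 k3
    obtain ⟨K, hK⟩ : ∃ K : ℕ, ∀ l, c' l < K := by
      obtain ⟨K, hK⟩ := (Set.finite_range c').bddAbove
      exact ⟨K + 1, fun l => Nat.lt_succ_of_le (hK ⟨l, rfl⟩)⟩
    refine Nat.find_min hQ (m := (Finset.univ.filter fun p : Fin n × Fin n =>
      (if Z p.1 then K else c' p.1) = (if Z p.2 then K else c' p.2)).card) ?_
        ⟨γ * g⁻¹ * β, fun l => if Z l then K else c' l, hγ.mul (hc b1), fun l => ?_,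
          fun s hs l m e => ?_, rfl⟩
    · rw [← h4]
      refine Finset.card_lt_card ⟨fun p hp => Finset.mem_filter.2 ⟨Finset.mem_univ _, ?_⟩,
        fun hs => ?_⟩
      · have e := (Finset.mem_filter.1 hp).2
        split_ifs at e with z z' z'
        · exact z.1.trans z'.1.symm
        · exact absurd e (hK _).ne'
        · exact absurd e (hK _).ne
        · exact e
      · have e := (Finset.mem_filter.1 (hs (Finset.mem_filter.2
          ⟨Finset.mem_univ (i, j), e0⟩))).2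
        have z : Z i := ⟨rfl, le_rfl⟩
        have z' : ¬ Z j := fun z' => z'.2.not_gt e2
        rw [if_pos z, if_neg z'] at e
        exact absurd e (hK _).ne'
    · beta_reduce
      split_ifs with z
      · exact ⟨fun e => absurd (e ▸ hK l) (Nat.not_lt_zero _),
          fun e => absurd (z.1.symm.trans ((h2 l).2 e)) e1⟩
      · exact h2 l
    · have ec' : (γ * g⁻¹ * β)⁻¹ * s * (γ * g⁻¹ * β) =
          β⁻¹ * ((γ * g⁻¹)⁻¹ * s * (γ * g⁻¹)) * β := by group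
      rw [ec']
      by_cases z : Z l ↔ Z m
      · refine ((b1.inv.mul (hL1 s hs)).mul b1) l m fun e' => e ?_
        exact if_congr z rfl e'
      · exact b2 _ (k4 s hs) l m z
  exact ⟨γ, c', h1, h2, h3, fun g a hg ha i j e0 e1 =>
    le_antisymm (not_lt.1 (key g a hg ha i j e0 e1))
      (not_lt.1 (key g a hg ha j i e0.symm (e0 ▸ e1)))⟩

end Pool.Agent.GR.AQ
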