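import Pool.Agent.P.MP_c1f06d_ag.g.AqNull

/-! Conjugation and extensions of finite index. -/

open Matrix
open scoped TensorProduct

universe u

namespace Pool.Agent.GR.AQ

open Co

variable {Ω : Type u} [Field Ω] {n : ℕ}

namespace Up

/-- The function `x ↦ f (γ * x * δ)`. -/
noncomputable def tw (γ δ : GL (Fin n) Ω) : OGL Ω n →ₐ[Ω] OGL Ω n := (lt γ).comp (rt δ)

theorem ev_tw (γ δ : GL (Fin n) Ω) {A : Type u} [CommRing A] [Algebra Ω A] (x : GL (Fin n) A)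
    (f : OGL Ω n) : ev Ω x (tw γ δ f) = ev Ω (cst A γ * x * cst A δ) f := by
  rw [tw, AlgHom.comp_apply, ev_lt, ev_rt]

theorem ev_tw' (γ δ x : GL (Fin n) Ω) (f : OGL Ω n) :
    ev Ω x (tw γ δ f) = ev Ω (γ * x * δ) f := ev_tw γ δ x f

theorem ev_rt' (δ x : GL (Fin n) Ω) (f : OGL Ω n) : ev Ω x (rt δ f) = ev Ω (x * δ) f :=
  ev_rt δ x f

theorem ext_ug {f f' : OGL Ω n} (h : ev Ω (ug Ω n) f = ev Ω (ug Ω n) f') : f = f' := by
  rwa [ev_ug] at h

theorem rt_rt (γ : GL (Fin n) Ω) (f : OGL Ω n) : rt γ (rt γ⁻¹ f) = f :=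
  ext_ug (by rw [ev_rt, ev_rt, MonoidHom.map_inv, mul_inv_cancel_right])

theorem rt_lt (γ y : GL (Fin n) Ω) (f : OGL Ω n) : rt γ (lt y f) = lt y (rt γ f) :=
  ext_ug (by rw [ev_rt, ev_lt, ev_lt, ev_rt, mul_assoc])

theorem dom : IsDomain (OGL Ω n) :=
  IsLocalization.isDomain_localization
    (powers_le_nonZeroDivisors_of_noZeroDivisors (det_mvPolynomialX_ne_zero (Fin n) Ω))

/-- Representatives of the cosets of a subgroup of finite index. -/
theorem exists_reps {G : Type u} [Group G] {S₀ S : Subgroup G} (hle : S₀ ≤ S) {t : Set G}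
    (ht : t.Finite) (hc : ∀ s ∈ S, ∃ y ∈ t, y⁻¹ * s ∈ S₀) :
    ∃ (Q : Type u) (_ : Fintype Q) (c : Q → G), (∀ q, c q ∈ S) ∧ (∃ q, c q ∈ S₀) ∧
      ∀ s ∈ S, ∃ σ : Q ≃ Q, ∀ q, ∃ h ∈ S₀, c (σ q) = s * c q * h := by
  have fin : Finite (S ⧸ S₀.subgroupOf S) := by
    have : Finite (Subtype.val ⁻¹' t : Set S) :=
      (ht.preimage Subtype.val_injective.injOn).to_subtype
    refine Finite.of_surjective
      (fun y : (Subtype.val ⁻¹' t : Set S) => (QuotientGroup.mk y.1 : S ⧸ S₀.subgroupOf S)) ?_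
    intro q
    obtain ⟨s, rfl⟩ := QuotientGroup.mk_surjective q
    obtain ⟨y, hy, e⟩ := hc s s.2
    have hyS : y ∈ S := by
      have := S.mul_mem s.2 (S.inv_mem (hle e))
      rwa [_root_.mul_inv_rev, inv_inv, mul_inv_cancel_left] at this
    exact ⟨⟨⟨y, hyS⟩, hy⟩, QuotientGroup.eq.2 e⟩
  refine ⟨S ⧸ S₀.subgroupOf S, Fintype.ofFinite _, fun q => (q.out : S), fun q => q.out.2,
    ⟨QuotientGroup.mk 1, ?_⟩, fun s hs => ⟨MulAction.toPerm (⟨s, hs⟩ : S), fun q => ?_⟩⟩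
  · obtain ⟨h, e⟩ := QuotientGroup.mk_out_eq_mul (S₀.subgroupOf S) 1
    simp only [e, one_mul]
    exact h.2
  · obtain ⟨h, e⟩ := QuotientGroup.mk_out_eq_mul (S₀.subgroupOf S) ((⟨s, hs⟩ : S) * q.out)
    refine ⟨(h : S), h.2, ?_⟩
    have e' : MulAction.toPerm (⟨s, hs⟩ : S) q = QuotientGroup.mk ((⟨s, hs⟩ : S) * q.out) :=
      (MulAction.Quotient.mk_smul_out (S₀.subgroupOf S) (⟨s, hs⟩ : S) q).symm
    simp only [e', e]
    rfl

end Up

open Up

theorem Good.conj {S S' : Set (GL (Fin n) Ω)} (h : Good S) (γ : GL (Fin n) Ω)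
    (e : ∀ g, g ∈ S' ↔ γ⁻¹ * g * γ ∈ S) : Good S' := by
  have e' : ∀ s ∈ S, γ * s * γ⁻¹ ∈ S' := fun s hs => (e _).2 (by
    rwa [show γ⁻¹ * (γ * s * γ⁻¹) * γ = s by group])
  refine ⟨fun Δ h1 hΔ => ?_, fun a ha h0 P hP => ?_⟩
  · obtain ⟨r, r1, hr⟩ := h.inv (tw γ γ⁻¹ Δ) (by rw [ev_tw', mul_one, mul_inv_cancel, h1])
      fun x s hs => by
        rw [ev_tw', ev_tw', ev_tw', ← hΔ _ _ (e' s hs),
          show γ * (x * s) * γ⁻¹ = γ * x * γ⁻¹ * (γ * s * γ⁻¹) by group]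
    refine ⟨tw γ⁻¹ γ r, by rw [ev_tw', mul_one, inv_mul_cancel, r1], fun x s hs => ?_⟩
    have := hr (γ⁻¹ * x * γ) _ ((e s).1 hs)
    rw [ev_tw', show γ * (γ⁻¹ * s * γ) * γ⁻¹ = s by group,
      show γ⁻¹ * x * γ * (γ⁻¹ * s * γ) = γ⁻¹ * (x * s) * γ by group] at this
    rw [ev_tw', ev_tw', this]
  · have hψ : ∀ b : AQ.inv S, ((rt γ).comp (AQ.inv S).val) b ∈ AQ.inv S' := fun b x s hs => by
      change ev Ω _ (rt γ b) = ev Ω _ (rt γ b)
      rw [ev_rt', ev_rt', ← b.2 (x * γ) _ ((e s).1 hs),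
        show x * γ * (γ⁻¹ * s * γ) = x * s * γ by group]
    have ha' : rt γ⁻¹ a ∈ AQ.inv S := fun x s hs => by
      rw [ev_rt', ev_rt', ← ha (x * γ⁻¹) _ (e' s hs),
        show x * γ⁻¹ * (γ * s * γ⁻¹) = x * s * γ⁻¹ by group]
    have := h.simple _ ha' (fun z => h0 (by rw [← rt_rt γ a, z, map_zero]))
      (P.comap (((rt γ).comp (AQ.inv S).val).codRestrict _ hψ)) fun y => by
        rw [Ideal.mem_comap]
        convert hP y using 1
        refine Subtype.ext ?_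
        change rt γ (lt y (rt γ⁻¹ a)) = lt y a
        rw [rt_lt, rt_rt]
    exact Ideal.comap_eq_top_iff.1 this

theorem cl_conj {S S' : Set (GL (Fin n) Ω)} (γ : GL (Fin n) Ω)
    (e : ∀ g, g ∈ S' ↔ γ⁻¹ * g * γ ∈ S) {A : Type u} [CommRing A] [Algebra Ω A]
    (g : GL (Fin n) A) : Cl S' g ↔ Cl S ((cst A γ)⁻¹ * g * cst A γ) := by
  refine ⟨fun h f hf => ?_, fun h f hf => ?_⟩
  · rw [← MonoidHom.map_inv, ← ev_tw]
    exact h _ fun s hs => by
      rw [ev_tw']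
      exact hf _ ((e s).1 hs)
  · have := h (tw γ γ⁻¹ f) fun s hs => by
      rw [ev_tw']
      exact hf _ ((e _).2 (by rwa [show γ⁻¹ * (γ * s * γ⁻¹) * γ = s by group]))
    rwa [ev_tw, MonoidHom.map_inv, show cst A γ * ((cst A γ)⁻¹ * g * cst A γ) * (cst A γ)⁻¹ = g by
      group] at this

theorem Good.up [IsAlgClosed Ω] {S₀ S : Subgroup (GL (Fin n) Ω)}
    (h : Good (S₀ : Set (GL (Fin n) Ω))) (hle : S₀ ≤ S) {t : Set (GL (Fin n) Ω)} (ht : t.Finite)
    (hc : ∀ s ∈ S, ∃ y ∈ t, y⁻¹ * s ∈ S₀) : Good (S : Set (GL (Fin n) Ω)) := by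
  obtain ⟨Q, _, c, cS, ⟨q₀, hq₀⟩, hσ⟩ := exists_reps hle ht hc
  have key : ∀ {M : Type u} [CommMonoid M] (F : GL (Fin n) Ω → M),
      (∀ y ∈ S, ∀ z ∈ S₀, F (y * z) = F y) → ∀ s ∈ S, ∏ q, F (s * c q) = ∏ q, F (c q) := by
    intro M _ F hF s hs
    obtain ⟨σ, e⟩ := hσ s hs
    rw [← Equiv.prod_comp σ fun q => F (c q)]
    refine Finset.prod_congr rfl fun q _ => ?_
    obtain ⟨z, hz, e⟩ := e q
    rw [e, hF _ (S.mul_mem hs (cS q)) z hz]
  refine ⟨fun Δ h1 hΔ => ?_, fun a ha h0 P hP => ?_⟩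
  · obtain ⟨r₀, r1, hr⟩ := h.inv Δ h1 fun x s hs => hΔ x s (hle hs)
    have := dom (Ω := Ω) (n := n)
    have hne : ∏ q, rt (c q) r₀ ≠ 0 := Finset.prod_ne_zero_iff.2 fun q _ z => by
      have := ev_rt' (c q) (c q)⁻¹ r₀
      rw [z, map_zero, inv_mul_cancel, r1] at this
      exact zero_ne_one this
    obtain ⟨y, hy⟩ : ∃ y : GL (Fin n) Ω, ev Ω y (∏ q, rt (c q) r₀) ≠ 0 := by
      by_contra hn
      exact hne (eq_zero_of_ev fun x => not_not.1 fun hx => hn ⟨x, hx⟩)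
    obtain ⟨R, evR⟩ : ∃ R : OGL Ω n, ∀ x : GL (Fin n) Ω,
        ev Ω x R = ∏ q, ev Ω (c q) Δ * ev Ω (y * x * c q) r₀ :=
      ⟨∏ q, ev Ω (c q) Δ • tw y (c q) r₀, fun x => by
        rw [map_prod]
        exact Finset.prod_congr rfl fun q _ => by rw [map_smul, ev_tw', smul_eq_mul]⟩
    have R1 : ev Ω (1 : GL (Fin n) Ω) R ≠ 0 := by
      rw [evR, mul_one]
      refine Finset.prod_ne_zero_iff.2 fun q _ => mul_ne_zero (fun z => ?_) fun z => hy ?_
      · have := hΔ (c q)⁻¹ _ (cS q)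
        rw [inv_mul_cancel, h1, z, mul_zero] at this
        exact one_ne_zero this
      · rw [map_prod]
        exact Finset.prod_eq_zero (Finset.mem_univ q) (by rw [ev_rt', z])
    have RS : ∀ x, ∀ s ∈ S, ev Ω (x * s) R * ev Ω s Δ ^ Fintype.card Q = ev Ω x R := by
      intro x s hs
      rw [evR, evR, ← key (fun z => ev Ω z Δ * ev Ω (y * x * z) r₀) (fun z _ w hw => by
        rw [hΔ z w (hle hw), ← hr (y * x * z) w hw, mul_assoc (y * x) z w]
        ring) s hs, ← Finset.card_univ, ← Finset.prod_const, ← Finset.prod_mul_distrib]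
      refine Finset.prod_congr rfl fun q _ => ?_
      rw [hΔ s _ (cS q), show y * (x * s) * c q = y * x * (s * c q) by group]
      ring
    obtain ⟨N, hN⟩ : ∃ N, Fintype.card Q = N + 1 :=
      Nat.exists_eq_succ_of_ne_zero (Fintype.card_pos_iff.2 ⟨q₀⟩).ne'
    refine ⟨(ev Ω (1 : GL (Fin n) Ω) R)⁻¹ • (Δ ^ N * R), ?_, fun x s hs => ?_⟩
    · rw [map_smul, map_mul, map_pow, h1, one_pow, one_mul, smul_eq_mul, inv_mul_cancel₀ R1]
    · rw [map_smul, map_smul, map_mul, map_mul, map_pow, map_pow, hΔ x s hs, ← RS x s hs, hN,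
        smul_eq_mul, smul_eq_mul]
      ring
  · have hi : AQ.inv (S : Set (GL (Fin n) Ω)) ≤ AQ.inv (S₀ : Set (GL (Fin n) Ω)) :=
      fun b hb x s hs => hb x s (hle hs)
    refine (Ideal.map_eq_top_iff (Subalgebra.inclusion hi).toRingHom
      (Subalgebra.inclusion_injective hi) fun b => ?_).1
      (h.simple a (hi ha) h0 _ fun y => Ideal.mem_map_of_mem _ (hP y))
    obtain ⟨p, hp⟩ : ∃ p : Polynomial (OGL Ω n),
      p = ∏ q, (Polynomial.X - Polynomial.C (rt (c q) b)) := ⟨_, rfl⟩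
    have evp : ∀ x : GL (Fin n) Ω, p.map (ev Ω x).toRingHom =
        ∏ q, (Polynomial.X - Polynomial.C (ev Ω (x * c q) b)) := fun x => by
      rw [hp, Polynomial.map_prod]
      refine Finset.prod_congr rfl fun q _ => ?_
      rw [Polynomial.map_sub, Polynomial.map_X, Polynomial.map_C, ← ev_rt']
      rfl
    have hl : p ∈ Polynomial.lifts (AQ.inv (S : Set (GL (Fin n) Ω))).val.toRingHom := by
      rw [Polynomial.lifts_iff_coeff_lifts]
      refine fun m => ⟨⟨p.coeff m, fun x s hs => ?_⟩, rfl⟩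
      have e : p.map (ev Ω (x * s)).toRingHom = p.map (ev Ω x).toRingHom := by
        rw [evp, evp, ← key (fun z => Polynomial.X - Polynomial.C (ev Ω (x * z) b))
          (fun z _ w hw => by rw [← mul_assoc, b.2 _ w hw]) s hs]
        simp only [mul_assoc]
      have := congrArg (Polynomial.coeff · m) e
      simp only [Polynomial.coeff_map] at this
      exact this
    obtain ⟨p', e, -, hm⟩ := Polynomial.lifts_and_natDegree_eq_and_monic hl
      (hp ▸ Polynomial.monic_prod_of_monic _ _ fun q _ => Polynomial.monic_X_sub_C _)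
    refine ⟨p', hm, Subtype.ext ?_⟩
    have e0 : rt (c q₀) (b : OGL Ω n) = b := sub_eq_zero.1 (eq_zero_of_ev fun x => by
      rw [map_sub, ev_rt', b.2 x _ hq₀, sub_self])
    have e1 : p.eval (b : OGL Ω n) = 0 := by
      rw [hp, Polynomial.eval_prod]
      exact Finset.prod_eq_zero (Finset.mem_univ q₀) (by simp [e0])
    rw [← e, Polynomial.eval_map] at e1
    exact (Polynomial.hom_eval₂ p' _ (AQ.inv (S₀ : Set (GL (Fin n) Ω))).val.toRingHom b).trans e1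

end Pool.Agent.GR.AQ
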