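import Pool.Agent.P.MP_c1f06d_ag.g.AqSimple
import Pool.Agent.P.MP_c1f06d_ag.g.AqUp
import Pool.Agent.P.MP_c1f06d_ag.g.AqFin
import Pool.Agent.P.MP_c1f06d_ag.g.AqBase
import Pool.Agent.P.MP_c1f06d_ag.g.AqFlag

/-! Affine quotients of `GL_n` by groups with finite kernel on a semisimple representation. -/

open Matrix
open scoped TensorProduct

universe u

namespace Pool.Agent.GR.AQ

open Co

variable {k Ω : Type u} [Field k] [Field Ω] [IsAlgClosed Ω] [Algebra k Ω] {n : ℕ} {ι : Type}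

theorem exists_affQuot_of_good {I : Ideal (OGL k n)} (hI : IsGrp I) (hd : Dense I Ω)
    (hg : Good {s : GL (Fin n) Ω | Vz I s}) :
    ∃ Q : AffQuot k n, ∀ (A : Type u) [CommRing A] [Algebra k A] (g : GL (Fin n) A),
      Q.Pt g ↔ Vz I g := by
  obtain ⟨Q, hQ⟩ := exists_aq (hI.sub Ω) (INV.sep (S := hI.sub Ω) hg.inv) hg.simple
  exact descend hI Q fun A _ _ _ _ g => (hQ A g).trans ⟨vz_of_cl, hd A g⟩

theorem good_of_blocks (S : Subgroup (GL (Fin n) Ω)) (γ : GL (Fin n) Ω) (c : Fin n → ι) (i0 : ι)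
    (hL : ∀ s ∈ S, InL c ((γ⁻¹ * s * γ : GL (Fin n) Ω) : Mat n Ω))
    (hirr : Irr c (· ≠ i0) {g | γ * g * γ⁻¹ ∈ S})
    (hK : {κ | Cl (S : Set (GL (Fin n) Ω)) κ ∧ γ⁻¹ * κ * γ ∈ VG c i0 Ω}.Finite) :
    Good (S : Set (GL (Fin n) Ω)) := by
  have e : ∀ g, g ∈ (S : Set (GL (Fin n) Ω)) ↔
      γ⁻¹ * g * γ ∈ (S.comap (MulAut.conj γ).toMonoidHom : Set (GL (Fin n) Ω)) := fun g => by
    simp [mul_assoc]
  refine (good_core (S := S.comap (MulAut.conj γ).toMonoidHom) (c := c) (i0 := i0)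
    (fun s hs => by simpa [mul_assoc] using hL _ hs) hirr
    ((hK.image fun κ => γ⁻¹ * κ * γ).subset fun κ h => ?_)).conj γ e
  have e' : γ⁻¹ * (γ * κ * γ⁻¹) * γ = κ := by group
  exact ⟨γ * κ * γ⁻¹, ⟨(cl_conj γ e _).2 (by rw [cst_self, e']; exact h.1), e'.symm ▸ h.2⟩, e'⟩

theorem good_of_ss (S : Subgroup (GL (Fin n) Ω)) (c : Fin n → ι) (i0 : ι)
    (hL : ∀ s ∈ S, InL c (s : Mat n Ω)) (h : SSimple c i0 (S : Set (GL (Fin n) Ω)))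
    (hK : {κ : GL (Fin n) Ω | Ker c i0 (S : Set (GL (Fin n) Ω)) κ}.Finite) :
    Good (S : Set (GL (Fin n) Ω)) := by
  obtain ⟨γ, c', h1, h2, h3, h4⟩ := exists_blocks hL h
  refine good_of_blocks S γ c' 0 h3 h4 (hK.subset fun κ h => ⟨h.1, ?_⟩)
  have h5 : InL (fun i => c i = i0) ((γ⁻¹ * κ * γ : GL (Fin n) Ω) : Mat n Ω) := fun i j e =>
    h.2.1 i j fun e' => e (propext ((h2 i).symm.trans (e' ▸ h2 j)))
  have e : pr (fun i => c i = i0) (· ≠ True) κ = 1 := by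
    have h6 : pr (fun i => c i = i0) (· ≠ True) (γ⁻¹ * κ * γ) = 1 :=
      (mem_VG.2 ⟨h5, fun i j hi => (mem_VG.1 h.2).2 i j fun e => hi (eq_true ((h2 i).1 e))⟩).2
    have e' : κ = γ * (γ⁻¹ * κ * γ) * γ⁻¹ := by group
    rw [e', pr_mul _ (h1.mul h5) h1.inv, pr_mul _ h1 h5, h6, mul_one, pr_inv _ h1, mul_inv_cancel]
  have h7 := (mem_VG.1 (show κ ∈ VG (fun i => c i = i0) True Ω from
    ⟨fun i j e => Cl.inL hL h.1 i j fun e' => e (congrArg (· = i0) e'), e⟩)).2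
  exact mem_VG.2 ⟨Cl.inL hL h.1, fun i j hi => h7 i j fun e => hi (of_eq_true e)⟩

/-- Irreducible blocks after a conjugation. -/
theorem exists_affQuot {I : Ideal (OGL k n)} (hI : IsGrp I) (hd : Dense I Ω) (γ : GL (Fin n) Ω)
    (c : Fin n → ι) (i0 : ι)
    (hL : ∀ s : GL (Fin n) Ω, Vz I s → InL c ((γ⁻¹ * s * γ : GL (Fin n) Ω) : Mat n Ω))
    (hirr : Irr c (· ≠ i0) {g | Vz I (γ * g * γ⁻¹)})
    (hK : {κ : GL (Fin n) Ω | Vz I κ ∧ γ⁻¹ * κ * γ ∈ VG c i0 Ω}.Finite) :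
    ∃ Q : AffQuot k n, ∀ (A : Type u) [CommRing A] [Algebra k A] (g : GL (Fin n) A),
      Q.Pt g ↔ Vz I g :=
  exists_affQuot_of_good hI hd (good_of_blocks (hI.sub Ω) γ c i0 hL hirr
    (hK.subset fun _ h => ⟨vz_of_cl h.1, h.2⟩))

/-- A subgroup `I₀` of finite index is semisimple outside the block `i0`. -/
theorem exists_affQuot_ss {I I₀ : Ideal (OGL k n)} (hI : IsGrp I) (hI₀ : IsGrp I₀) (hle : I ≤ I₀)
    (hd : Dense I Ω) {t : Set (GL (Fin n) Ω)} (ht : t.Finite)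
    (hc : ∀ s : GL (Fin n) Ω, Vz I s → ∃ y ∈ t, Vz I₀ (y⁻¹ * s)) (c : Fin n → ι) (i0 : ι)
    (hL : ∀ s : GL (Fin n) Ω, Vz I₀ s → InL c (s : Mat n Ω))
    (h : SSimple c i0 {s : GL (Fin n) Ω | Vz I₀ s})
    (hK : {κ : GL (Fin n) Ω | Vz I₀ κ ∧ κ ∈ VG c i0 Ω}.Finite) :
    ∃ Q : AffQuot k n, ∀ (A : Type u) [CommRing A] [Algebra k A] (g : GL (Fin n) A),
      Q.Pt g ↔ Vz I g :=
  exists_affQuot_of_good hI hd (Good.up (S := hI.sub Ω) (good_of_ss (hI₀.sub Ω) c i0 hL h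
    (hK.subset fun _ h => ⟨vz_of_cl h.1, h.2⟩)) (fun _ h f hf => h f (hle hf)) ht hc)

end Pool.Agent.GR.AQ
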