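import Pool.Agent.P.MP_c1f06d_ag.g.AqDefs

/-! Finite group schemes: characteristic polynomials and norms. -/

open Matrix
open scoped TensorProduct

universe u

namespace Pool.Agent.GR.AQ

open Co

variable {Ω : Type u} [Field Ω] {n : ℕ} {J : Ideal (OGL Ω n)}

section gen

variable {R : Type u} [CommRing R] [Algebra Ω R] {ι : Type} [Fintype ι] [DecidableEq ι]
  {A A' : Type u} [CommRing A] [Algebra Ω A] [CommRing A'] [Algebra Ω A']

omit [Fintype ι] [DecidableEq ι] in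
theorem chr_repr (b : Module.Basis ι Ω R) (φ : A →ₐ[Ω] A') (w : A ⊗[Ω] R) (i : ι) :
    (Algebra.TensorProduct.basis A' b).repr
        (Algebra.TensorProduct.map φ (AlgHom.id Ω R) w) i =
      φ ((Algebra.TensorProduct.basis A b).repr w i) := by
  induction w using TensorProduct.induction_on with
  | zero => simp
  | tmul a r => simp [Algebra.TensorProduct.basis_repr_tmul]
  | add x y hx hy => simp only [map_add, Finsupp.add_apply, hx, hy]

theorem chr_nat (b : Module.Basis ι Ω R) (φ : A →ₐ[Ω] A') (z : A ⊗[Ω] R) :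
    Algebra.leftMulMatrix (Algebra.TensorProduct.basis A' b)
        (Algebra.TensorProduct.map φ (AlgHom.id Ω R) z) =
      (Algebra.leftMulMatrix (Algebra.TensorProduct.basis A b) z).map (φ : A →+* A') := by
  ext i j
  rw [Matrix.map_apply, Algebra.leftMulMatrix_eq_repr_mul, Algebra.leftMulMatrix_eq_repr_mul,
    RingHom.coe_coe, ← chr_repr b φ,
    map_mul (Algebra.TensorProduct.map φ (AlgHom.id Ω R))]
  simp [Algebra.TensorProduct.basis_apply]

theorem chr_aut {T : Type u} [CommRing T] [Algebra A T] (b : Module.Basis ι A T)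
    (σ : T ≃ₐ[A] T) (z : T) :
    (Algebra.leftMulMatrix b (σ z)).charpoly = (Algebra.leftMulMatrix b z).charpoly := by
  have := Module.Free.of_basis b
  have := Module.Finite.of_basis b
  have h : Algebra.lmul A T (σ z) = σ.toLinearEquiv.conj (Algebra.lmul A T z) := by
    ext w
    simp [LinearEquiv.conj_apply]
  rw [Algebra.leftMulMatrix_apply, Algebra.leftMulMatrix_apply, LinearMap.charpoly_toMatrix,
    LinearMap.charpoly_toMatrix, h, LinearEquiv.charpoly_conj]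

end gen

/-- `ku` is a universal point of the zero set of `J`. -/
structure ChrUniv (J : Ideal (OGL Ω n)) {R : Type u} [CommRing R] [Algebra Ω R]
    (ku : GL (Fin n) R) : Prop where
  vz : Vz J ku
  ex : ∀ (T : Type u) [CommRing T] [Algebra Ω T] (g : GL (Fin n) T), Vz J g →
    ∃ φ : R →ₐ[Ω] T, gm φ ku = g
  uniq : ∀ (T : Type u) [CommRing T] [Algebra Ω T] (f f' : R →ₐ[Ω] T), gm f ku = gm f' ku → f = f'

theorem chrUniv_uq (J : Ideal (OGL Ω n)) : ChrUniv J (uq J) :=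
  ⟨vz_uq J, fun _ _ _ _ h => ⟨h.lift, h.gm_lift⟩, fun _ _ _ _ _ h =>
    Ideal.Quotient.algHom_ext Ω (ogl_ext (by rw [← gm_gm, ← gm_gm]; exact h))⟩

section univ

variable {R : Type u} [CommRing R] [Algebra Ω R] {ku : GL (Fin n) R}
  {A A' : Type u} [CommRing A] [Algebra Ω A] [CommRing A'] [Algebra Ω A']

theorem chr_lift (hu : ChrUniv J ku) (A : Type u) [CommRing A] [Algebra Ω A] {T : Type u}
    [CommRing T] [Algebra Ω T] [Algebra A T] [IsScalarTower Ω A T] {g : GL (Fin n) T}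
    (h : Vz J g) : ∃ σ : A ⊗[Ω] R →ₐ[A] T, gm (σ.restrictScalars Ω) (gm (iR Ω A R) ku) = g := by
  obtain ⟨φ, hφ⟩ := hu.ex T g h
  refine ⟨Algebra.TensorProduct.lift (Algebra.ofId A T) φ fun _ _ => Commute.all _ _, ?_⟩
  rw [gm_gm, ← hφ]
  congr 2
  exact AlgHom.ext fun x => by simp

theorem chr_fix {T : Type u} [CommRing T] [Algebra Ω T] [Algebra A T] [IsScalarTower Ω A T]
    (σ : A ⊗[Ω] R →ₐ[A] T) (x : GL (Fin n) A) :
    gm (σ.restrictScalars Ω) (gm (iL Ω A R) x) = gm (IsScalarTower.toAlgHom Ω A T) x := by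
  have e : (σ.restrictScalars Ω).comp (iL Ω A R) = IsScalarTower.toAlgHom Ω A T :=
    AlgHom.ext fun a => σ.commutes a
  rw [gm_gm, e]

theorem chr_iL : IsScalarTower.toAlgHom Ω A (A ⊗[Ω] R) = iL Ω A R := rfl

/-- The value of `f` at `x` times the universal point. -/
noncomputable def chrZ (ku : GL (Fin n) R) (f : OGL Ω n) (x : GL (Fin n) A) : A ⊗[Ω] R :=
  ev Ω (gm (iL Ω A R) x * gm (iR Ω A R) ku) f

theorem chrZ_nat (f : OGL Ω n) (φ : A →ₐ[Ω] A') (x : GL (Fin n) A) :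
    Algebra.TensorProduct.map φ (AlgHom.id Ω R) (chrZ ku f x) = chrZ ku f (gm φ x) := by
  have e1 : (Algebra.TensorProduct.map φ (AlgHom.id Ω R)).comp (iL Ω A R) =
      (iL Ω A' R).comp φ := AlgHom.ext fun a => by simp
  have e2 : (Algebra.TensorProduct.map φ (AlgHom.id Ω R)).comp (iR Ω A R) =
      iR Ω A' R := AlgHom.ext fun a => by simp
  rw [chrZ, chrZ, map_ev, MonoidHom.map_mul, gm_gm, gm_gm, gm_gm, e1, e2]

theorem chr_exists_aut (hJ : IsGrp J) (hu : ChrUniv J ku) {κ : GL (Fin n) A} (hκ : Vz J κ) :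
    ∃ σ : A ⊗[Ω] R ≃ₐ[A] A ⊗[Ω] R,
      ∀ (f : OGL Ω n) (x : GL (Fin n) A), σ (chrZ ku f x) = chrZ ku f (x * κ) := by
  have hc : ∀ (κ κ' : GL (Fin n) A) (σ σ' : A ⊗[Ω] R →ₐ[A] A ⊗[Ω] R),
      gm (σ.restrictScalars Ω) (gm (iR Ω A R) ku) = gm (iL Ω A R) κ * gm (iR Ω A R) ku →
      gm (σ'.restrictScalars Ω) (gm (iR Ω A R) ku) = gm (iL Ω A R) κ' * gm (iR Ω A R) ku →
      κ' * κ = 1 → σ.comp σ' = AlgHom.id A _ := by
    intro κ κ' σ σ' h h' e
    have e2 : (σ.restrictScalars Ω).comp ((σ'.restrictScalars Ω).comp (iR Ω A R)) = iR Ω A R := by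
      refine hu.uniq _ _ _ ?_
      rw [← gm_gm, ← gm_gm, h', MonoidHom.map_mul, h, chr_fix, chr_iL, ← mul_assoc,
        ← MonoidHom.map_mul, e, MonoidHom.map_one, one_mul]
    exact Algebra.TensorProduct.ext (Subsingleton.elim _ _) e2
  obtain ⟨σ, hσ⟩ := chr_lift hu A (hJ.mul (hκ.map (iL Ω A R)) (hu.vz.map (iR Ω A R)))
  obtain ⟨σ', hσ'⟩ := chr_lift hu A (hJ.mul ((hJ.inv hκ).map (iL Ω A R)) (hu.vz.map (iR Ω A R)))
  refine ⟨AlgEquiv.ofAlgHom σ σ' (hc _ _ _ _ hσ hσ' (inv_mul_cancel κ))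
    (hc _ _ _ _ hσ' hσ (mul_inv_cancel κ)), fun f x => ?_⟩
  show σ.restrictScalars Ω (chrZ ku f x) = _
  rw [chrZ, chrZ, map_ev, MonoidHom.map_mul, hσ, chr_fix, chr_iL, MonoidHom.map_mul, mul_assoc]

variable {ι : Type} [Fintype ι] [DecidableEq ι]

theorem chr_eval (hJ : IsGrp J) (hu : ChrUniv J ku) (b : Module.Basis ι Ω R) (f : OGL Ω n)
    (x : GL (Fin n) A) : (Algebra.leftMulMatrix (Algebra.TensorProduct.basis A b)
      (chrZ ku f x)).charpoly.eval (ev Ω x f) = 0 := by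
  have h1 := Matrix.aeval_self_charpoly (Algebra.leftMulMatrix
    (Algebra.TensorProduct.basis A b) (chrZ ku f x))
  rw [Polynomial.aeval_algHom_apply] at h1
  have h2 := Algebra.leftMulMatrix_injective _ (h1.trans (map_zero _).symm)
  obtain ⟨σ, hσ⟩ := chr_lift hu A (hJ.one A)
  have h3 : σ (chrZ ku f x) = ev Ω x f := by
    show σ.restrictScalars Ω _ = _
    rw [chrZ, map_ev, MonoidHom.map_mul, hσ, chr_fix, mul_one]
    rfl
  have h4 := congrArg σ h2
  rw [← Polynomial.aeval_algHom_apply, h3, map_zero, Polynomial.coe_aeval_eq_eval] at h4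
  exact h4

theorem chr_coeff (b : Module.Basis ι Ω R) (f : OGL Ω n) (φ : A →ₐ[Ω] A') (x : GL (Fin n) A)
    (j : ℕ) : φ ((Algebra.leftMulMatrix (Algebra.TensorProduct.basis A b)
      (chrZ ku f x)).charpoly.coeff j) = (Algebra.leftMulMatrix (Algebra.TensorProduct.basis A' b)
      (chrZ ku f (gm φ x))).charpoly.coeff j := by
  rw [← chrZ_nat, chr_nat, Matrix.charpoly_map, Polynomial.coeff_map]
  rfl

theorem chr_pow (hJ : IsGrp J) (hu : ChrUniv J ku) (b : Module.Basis ι Ω R) (f : OGL Ω n)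
    (h1 : ev Ω (1 : GL (Fin n) Ω) f = 1)
    (hf : ∀ (A : Type u) [CommRing A] [Algebra Ω A] (κ κ' : GL (Fin n) A), Vz J κ → Vz J κ' →
      ev Ω (κ * κ') f = ev Ω κ f * ev Ω κ' f) {κ : GL (Fin n) A} (hκ : Vz J κ) :
    ev Ω κ f ^ Fintype.card ι = 1 := by
  obtain ⟨σ, hσ⟩ := chr_exists_aut hJ hu hκ
  have hv := hu.vz.map (iR Ω A R)
  have e0 : chrZ ku f (1 : GL (Fin n) A) = ev Ω (gm (iR Ω A R) ku) f := by
    rw [chrZ, MonoidHom.map_one, one_mul]
  have e1 : σ (chrZ ku f 1) = algebraMap A _ (ev Ω κ f) * chrZ ku f (1 : GL (Fin n) A) := by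
    rw [hσ, one_mul, e0, chrZ, hf _ _ _ (hκ.map _) hv, ← map_ev]
    rfl
  have e2 : IsUnit (chrZ ku f (1 : GL (Fin n) A)) := by
    refine IsUnit.of_mul_eq_one (ev Ω (gm (iR Ω A R) ku)⁻¹ f) ?_
    rw [e0, ← hf _ _ _ hv (hJ.inv hv), mul_inv_cancel, ev_one, h1, map_one]
  have e3 : Algebra.norm A (σ (chrZ ku f 1)) = Algebra.norm A (chrZ ku f (1 : GL (Fin n) A)) := by
    rw [Algebra.norm_eq_matrix_det (Algebra.TensorProduct.basis A b),
      Algebra.norm_eq_matrix_det (Algebra.TensorProduct.basis A b),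
      Matrix.det_eq_sign_charpoly_coeff, Matrix.det_eq_sign_charpoly_coeff, chr_aut]
  rw [e1, map_mul, Algebra.norm_algebraMap_of_basis (Algebra.TensorProduct.basis A b)] at e3
  exact (e2.map (Algebra.norm A)).mul_right_cancel (e3.trans (one_mul _).symm)

end univ

theorem chr_poly (hJ : IsGrp J) [Module.Finite Ω (OGL Ω n ⧸ J)] (f : OGL Ω n) :
    ∃ p : Polynomial (OGL Ω n), p.Monic ∧ p.eval f = 0 ∧
      ∀ (j : ℕ) (A : Type u) [CommRing A] [Algebra Ω A] (x κ : GL (Fin n) A), Vz J κ →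
        ev Ω (x * κ) (p.coeff j) = ev Ω x (p.coeff j) := by
  have h := chr_eval hJ (chrUniv_uq J) (Module.finBasis Ω (OGL Ω n ⧸ J)) f (ug Ω n)
  rw [ev_ug] at h
  refine ⟨_, Matrix.charpoly_monic _, h, fun j A _ _ x κ hκ => ?_⟩
  obtain ⟨σ, hσ⟩ := chr_exists_aut hJ (chrUniv_uq J) hκ
  rw [chr_coeff, chr_coeff, gm_ev_ug, gm_ev_ug, ← hσ, chr_aut]

theorem chr_ord (hJ : IsGrp J) [Module.Finite Ω (OGL Ω n ⧸ J)] (f : OGL Ω n)
    (h1 : ev Ω (1 : GL (Fin n) Ω) f = 1)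
    (hf : ∀ (A : Type u) [CommRing A] [Algebra Ω A] (κ κ' : GL (Fin n) A), Vz J κ → Vz J κ' →
      ev Ω (κ * κ') f = ev Ω κ f * ev Ω κ' f) :
    ∃ N, 0 < N ∧ ∀ (A : Type u) [CommRing A] [Algebra Ω A] (κ : GL (Fin n) A), Vz J κ →
      ev Ω κ f ^ N = 1 := by
  have : Nontrivial (OGL Ω n ⧸ J) := (hJ.one Ω).lift.toRingHom.domain_nontrivial
  refine ⟨Module.finrank Ω (OGL Ω n ⧸ J), Module.finrank_pos, fun A _ _ κ hκ => ?_⟩
  have h := chr_pow hJ (chrUniv_uq J) (Module.finBasis Ω (OGL Ω n ⧸ J)) f h1 hf hκ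
  rwa [Fintype.card_fin] at h

end Pool.Agent.GR.AQ
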