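import Pool.Agent.P.MP_c1f06d_ag.r.Lin
import Pool.Agent.P.MP_c1f06d_ag.r.Coact
import Pool.Agent.P.MP_c1f06d_ag.r.NS

/-! Closed subgroups of `GL_n`, closures of abstract subgroups, invariants. -/

open Matrix

universe u

namespace Pool.Agent.GR.AQ

open Co

section ring

variable {k : Type u} [CommRing k] {n : ℕ} {A A' : Type u} [CommRing A] [Algebra k A]
  [CommRing A'] [Algebra k A']

/-- All functions of `I` vanish at `g`. -/
def Vz (I : Ideal (OGL k n)) {A : Type u} [CommRing A] [Algebra k A] (g : GL (Fin n) A) : Prop :=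
  ∀ f ∈ I, ev k g f = 0

/-- The zero set of `I` is a subgroup over every ring. -/
structure IsGrp (I : Ideal (OGL k n)) : Prop where
  one : ∀ (A : Type u) [CommRing A] [Algebra k A], Vz I (1 : GL (Fin n) A)
  mul : ∀ {A : Type u} [CommRing A] [Algebra k A] {g g' : GL (Fin n) A},
    Vz I g → Vz I g' → Vz I (g * g')
  inv : ∀ {A : Type u} [CommRing A] [Algebra k A] {g : GL (Fin n) A}, Vz I g → Vz I g⁻¹

theorem Vz.map {I : Ideal (OGL k n)} (φ : A →ₐ[k] A') {g : GL (Fin n) A} (h : Vz I g) :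
    Vz I (gm φ g) := fun f hf => by rw [← map_ev, h f hf, map_zero]

theorem Vz.of_inj {I : Ideal (OGL k n)} (φ : A →ₐ[k] A') (hφ : Function.Injective φ)
    {g : GL (Fin n) A} (h : Vz I (gm φ g)) : Vz I g := fun f hf =>
  hφ (by rw [map_ev, h f hf, map_zero])

theorem vz_sup {I J : Ideal (OGL k n)} {g : GL (Fin n) A} : Vz (I ⊔ J) g ↔ Vz I g ∧ Vz J g :=
  ⟨fun h => ⟨fun f hf => h f (Ideal.mem_sup_left hf), fun f hf => h f (Ideal.mem_sup_right hf)⟩,
    fun h f hf => by
      obtain ⟨a, ha, b, hb, rfl⟩ := Submodule.mem_sup.1 hf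
      rw [map_add, h.1 a ha, h.2 b hb, add_zero]⟩

theorem IsGrp.sup {I J : Ideal (OGL k n)} (hI : IsGrp I) (hJ : IsGrp J) : IsGrp (I ⊔ J) :=
  ⟨fun A _ _ => vz_sup.2 ⟨hI.one A, hJ.one A⟩,
    fun h h' => vz_sup.2 ⟨hI.mul (vz_sup.1 h).1 (vz_sup.1 h').1,
      hJ.mul (vz_sup.1 h).2 (vz_sup.1 h').2⟩,
    fun h => vz_sup.2 ⟨hI.inv (vz_sup.1 h).1, hJ.inv (vz_sup.1 h).2⟩⟩

/-- The points of a closed subgroup. -/
def IsGrp.sub {I : Ideal (OGL k n)} (h : IsGrp I) (A : Type u) [CommRing A] [Algebra k A] :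
    Subgroup (GL (Fin n) A) where
  carrier := {g | Vz I g}
  one_mem' := h.one A
  mul_mem' := h.mul
  inv_mem' := h.inv

/-- The universal point of the zero set of `I`. -/
noncomputable def uq (I : Ideal (OGL k n)) : GL (Fin n) (OGL k n ⧸ I) :=
  gm (Ideal.Quotient.mkₐ k I) (ug k n)

theorem ev_uq (I : Ideal (OGL k n)) (f : OGL k n) : ev k (uq I) f = Ideal.Quotient.mk I f := by
  rw [uq, ev_gm_ug]; rfl

theorem vz_uq (I : Ideal (OGL k n)) : Vz I (uq I) := fun f hf => by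
  rw [ev_uq]; exact Ideal.Quotient.eq_zero_iff_mem.2 hf

/-- The algebra map of a point of the zero set. -/
noncomputable def Vz.lift {I : Ideal (OGL k n)} {g : GL (Fin n) A} (h : Vz I g) :
    (OGL k n ⧸ I) →ₐ[k] A := Ideal.Quotient.liftₐ I (ev k g) h

theorem Vz.lift_mk {I : Ideal (OGL k n)} {g : GL (Fin n) A} (h : Vz I g) (f : OGL k n) :
    h.lift (Ideal.Quotient.mk I f) = ev k g f := rfl

theorem Vz.gm_lift {I : Ideal (OGL k n)} {g : GL (Fin n) A} (h : Vz I g) :
    gm h.lift (uq I) = g := by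
  rw [uq, gm_gm]
  exact gm_ev_ug g

/-- A rational point as a point over `A`. -/
noncomputable abbrev cst (A : Type u) [CommRing A] [Algebra k A] : GL (Fin n) k →* GL (Fin n) A :=
  gm (Algebra.ofId k A)

theorem gm_cst (φ : A →ₐ[k] A') (y : GL (Fin n) k) : gm φ (cst A y) = cst A' y := by
  rw [gm_gm, Subsingleton.elim (φ.comp _) (Algebra.ofId k A')]

theorem cst_self (y : GL (Fin n) k) : cst k y = y := rfl

theorem ev_cst (y : GL (Fin n) k) (f : OGL k n) : ev k (cst A y) f = algebraMap k A (ev k y f) :=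
  (map_ev (Algebra.ofId k A) y f).symm

theorem ev_one (f : OGL k n) :
    ev k (1 : GL (Fin n) A) f = algebraMap k A (ev k (1 : GL (Fin n) k) f) := by
  rw [← ev_cst, MonoidHom.map_one]

/-- Left translation `f ↦ f (y * ·)`. -/
noncomputable def lt (y : GL (Fin n) k) : OGL k n →ₐ[k] OGL k n := ev k (cst _ y * ug k n)

/-- Right translation `f ↦ f (· * y)`. -/
noncomputable def rt (y : GL (Fin n) k) : OGL k n →ₐ[k] OGL k n := ev k (ug k n * cst _ y)

theorem ev_lt (y : GL (Fin n) k) (x : GL (Fin n) A) (f : OGL k n) :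
    ev k x (lt y f) = ev k (cst A y * x) f := by
  rw [lt, map_ev, MonoidHom.map_mul, gm_cst, gm_ev_ug]

theorem ev_rt (y : GL (Fin n) k) (x : GL (Fin n) A) (f : OGL k n) :
    ev k x (rt y f) = ev k (x * cst A y) f := by
  rw [rt, map_ev, MonoidHom.map_mul, gm_cst, gm_ev_ug]

theorem ev_ev_inv (x : GL (Fin n) A) (f : OGL k n) :
    ev k x (ev k (ug k n)⁻¹ f) = ev k x⁻¹ f := by
  rw [map_ev, MonoidHom.map_inv, gm_ev_ug]

instance ogl_ft : Algebra.FiniteType k (OGL k n) :=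
  Algebra.FiniteType.trans (S := MvPolynomial (Fin n × Fin n) k) inferInstance inferInstance

variable {ι : Type}

open Classical in
/-- The matrix that is `M` on the rows of the blocks in `T` and the unit matrix elsewhere. -/
noncomputable def prM (c : Fin n → ι) (T : ι → Prop) (M : Mat n A) : Mat n A :=
  of fun i j => if T (c i) then M i j else (1 : Mat n A) i j

theorem prM_mul {c : Fin n → ι} (T : ι → Prop) {M : Mat n A} (hM : InL c M) (N : Mat n A) :
    prM c T (M * N) = prM c T M * prM c T N := by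
  ext i j
  rw [mul_apply]
  by_cases h : T (c i)
  · simp only [prM, of_apply, if_pos h, mul_apply]
    refine Finset.sum_congr rfl fun l _ => ?_
    by_cases e : c i = c l
    · rw [if_pos (e ▸ h)]
    · rw [hM i l e, zero_mul, zero_mul]
  · simp only [prM, of_apply, if_neg h]
    rw [Finset.sum_eq_single i, one_apply_eq, one_mul, if_neg h]
    · intro l _ hl
      rw [one_apply_ne hl.symm, zero_mul]
    · simp

theorem prM_one (c : Fin n → ι) (T : ι → Prop) : prM c T (1 : Mat n A) = 1 := by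
  ext i j
  simp [prM]

open Classical in
/-- The projection of the block group to the blocks in `T`. -/
noncomputable def pr (c : Fin n → ι) (T : ι → Prop) (g : GL (Fin n) A) : GL (Fin n) A :=
  if h : InL c (g : Mat n A) then
    ⟨prM c T g, prM c T (g⁻¹ : GL (Fin n) A),
      by rw [← prM_mul T h, Units.mul_inv, prM_one],
      by rw [← prM_mul T h.inv, Units.inv_mul, prM_one]⟩
  else 1

theorem pr_val {c : Fin n → ι} (T : ι → Prop) {g : GL (Fin n) A} (h : InL c (g : Mat n A)) :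
    (pr c T g : Mat n A) = prM c T g := by
  rw [pr, dif_pos h]

theorem pr_inL (c : Fin n → ι) (T : ι → Prop) (g : GL (Fin n) A) : InL c (pr c T g : Mat n A) := by
  by_cases h : InL c (g : Mat n A)
  · intro i j e
    rw [pr_val T h, prM, of_apply, h i j e, InL.one c i j e, ite_self]
  · rw [pr, dif_neg h]
    exact InL.one c

theorem pr_mul {c : Fin n → ι} (T : ι → Prop) {g g' : GL (Fin n) A} (h : InL c (g : Mat n A))
    (h' : InL c (g' : Mat n A)) : pr c T (g * g') = pr c T g * pr c T g' :=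
  Units.ext (by
    rw [Units.val_mul, pr_val T h, pr_val T h', pr_val T (g := g * g') (h.mul h'), Units.val_mul,
      prM_mul T h])

theorem pr_one (c : Fin n → ι) (T : ι → Prop) : pr c T (1 : GL (Fin n) A) = 1 :=
  Units.ext (by rw [pr_val T (g := 1) (InL.one c), Units.val_one, prM_one])

theorem pr_inv {c : Fin n → ι} (T : ι → Prop) {g : GL (Fin n) A} (h : InL c (g : Mat n A)) :
    pr c T g⁻¹ = (pr c T g)⁻¹ :=
  eq_inv_of_mul_eq_one_right (by rw [← pr_mul T h h.inv, mul_inv_cancel, pr_one])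

theorem inL_map {c : Fin n → ι} (φ : A →ₐ[k] A') {g : GL (Fin n) A} (h : InL c (g : Mat n A)) :
    InL c (gm φ g : Mat n A') := fun i j e => by
  rw [gm_apply, h i j e, map_zero]

theorem gm_pr {c : Fin n → ι} (T : ι → Prop) (φ : A →ₐ[k] A') {g : GL (Fin n) A}
    (h : InL c (g : Mat n A)) : gm φ (pr c T g) = pr c T (gm φ g) := by
  ext i j
  rw [gm_apply, pr_val T h, pr_val T (inL_map φ h)]
  simp only [prM, of_apply, one_apply, apply_ite φ, map_one, map_zero]
  rfl

/-- The points of the block group that are trivial outside the block `i0`. -/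
def VG (c : Fin n → ι) (i0 : ι) (A : Type u) [CommRing A] : Subgroup (GL (Fin n) A) where
  carrier := {g | InL c (g : Mat n A) ∧ pr c (· ≠ i0) g = 1}
  one_mem' := ⟨InL.one c, pr_one _ _⟩
  mul_mem' := fun h h' => ⟨h.1.mul h'.1, by rw [pr_mul _ h.1 h'.1, h.2, h'.2, mul_one]⟩
  inv_mem' := fun h => ⟨h.1.inv, by rw [pr_inv _ h.1, h.2, inv_one]⟩

theorem mem_VG {c : Fin n → ι} {i0 : ι} {g : GL (Fin n) A} : g ∈ VG c i0 A ↔
    InL c (g : Mat n A) ∧ ∀ i j, c i ≠ i0 → (g : Mat n A) i j = (1 : Mat n A) i j := by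
  refine and_congr_right fun h => ⟨fun e i j hi => ?_, fun e => Units.ext ?_⟩
  · have := congrFun (congrFun ((pr_val _ h).symm.trans (congrArg Units.val e)) i) j
    rwa [prM, of_apply, if_pos hi] at this
  · rw [pr_val _ h]
    ext i j
    rw [prM, of_apply]
    split_ifs with hi
    exacts [e i j hi, rfl]

theorem VG_map {c : Fin n → ι} {i0 : ι} (φ : A →ₐ[k] A') {g : GL (Fin n) A}
    (h : g ∈ VG c i0 A) : gm φ g ∈ VG c i0 A' :=
  ⟨inL_map φ h.1, by rw [← gm_pr _ φ h.1, h.2, MonoidHom.map_one]⟩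

theorem pr_mem_VG (c : Fin n → ι) (i0 : ι) (g : GL (Fin n) A) : pr c (· = i0) g ∈ VG c i0 A := by
  refine mem_VG.2 ⟨pr_inL _ _ _, fun i j hi => ?_⟩
  by_cases h : InL c (g : Mat n A)
  · rw [pr_val _ h, prM, of_apply, if_neg hi]
  · rw [pr, dif_neg h]
    rfl

theorem pr_of_VG {c : Fin n → ι} {i0 : ι} {g : GL (Fin n) A} (h : g ∈ VG c i0 A) :
    pr c (· = i0) g = g := by
  refine Units.ext ?_
  rw [pr_val _ h.1]
  ext i j
  rw [prM, of_apply]
  split_ifs with hi
  exacts [rfl, ((mem_VG.1 h).2 i j hi).symm]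

end ring

variable {Ω : Type u} [Field Ω] {n : ℕ}

/-- The functions that vanish on a set of rational points. -/
def vI (S : Set (GL (Fin n) Ω)) : Ideal (OGL Ω n) where
  carrier := {f | ∀ s ∈ S, ev Ω s f = 0}
  zero_mem' := fun _ _ => map_zero _
  add_mem' := fun ha hb s hs => by rw [map_add, ha s hs, hb s hs, add_zero]
  smul_mem' := fun a _ hb s hs => by rw [smul_eq_mul, map_mul, hb s hs, mul_zero]

/-- `g` is a point of the reduced closure of `S`. -/
def Cl (S : Set (GL (Fin n) Ω)) {A : Type u} [CommRing A] [Algebra Ω A] (g : GL (Fin n) A) :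
    Prop := Vz (vI S) g

theorem Cl.map {S : Set (GL (Fin n) Ω)} {A A' : Type u} [CommRing A] [Algebra Ω A] [CommRing A']
    [Algebra Ω A'] (φ : A →ₐ[Ω] A') {g : GL (Fin n) A} (h : Cl S g) : Cl S (gm φ g) :=
  Vz.map φ h

theorem cl_of_mem {S : Set (GL (Fin n) Ω)} {s : GL (Fin n) Ω} (h : s ∈ S) : Cl S s :=
  fun _ hf => hf s h

theorem cl_cst {S : Set (GL (Fin n) Ω)} {s : GL (Fin n) Ω} (h : s ∈ S) (A : Type u) [CommRing A]
    [Algebra Ω A] : Cl S (cst A s) := (cl_of_mem h).map _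

theorem Cl.mono {S S' : Set (GL (Fin n) Ω)} (h : S ⊆ S') {A : Type u} [CommRing A] [Algebra Ω A]
    {g : GL (Fin n) A} (hg : Cl S g) : Cl S' g := fun f hf => hg f fun s hs => hf s (h hs)

/-- Two functions that agree on `S` agree on its closure. -/
theorem Cl.ev_eq {S : Set (GL (Fin n) Ω)} {A : Type u} [CommRing A] [Algebra Ω A]
    {g : GL (Fin n) A} (hg : Cl S g) {f f' : OGL Ω n} (h : ∀ s ∈ S, ev Ω s f = ev Ω s f') :
    ev Ω g f = ev Ω g f' := by
  rw [← sub_eq_zero, ← map_sub]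
  exact hg _ fun s hs => by rw [map_sub, h s hs, sub_self]

theorem Cl.inL {ι : Type} {c : Fin n → ι} {S : Set (GL (Fin n) Ω)}
    (hL : ∀ s ∈ S, InL c (s : Mat n Ω)) {A : Type u} [CommRing A] [Algebra Ω A]
    {g : GL (Fin n) A} (hg : Cl S g) : InL c (g : Mat n A) := fun i j e =>
  (ev_ug_apply (k := Ω) g i j).symm.trans
    (hg _ fun s hs => (ev_ug_apply s i j).trans (hL s hs i j e))

/-- The functions invariant under right translation by `S`. -/
def inv (S : Set (GL (Fin n) Ω)) : Subalgebra Ω (OGL Ω n) where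
  carrier := {b | ∀ x, ∀ s ∈ S, ev Ω (x * s) b = ev Ω x b}
  mul_mem' := fun ha hb x s hs => by rw [map_mul, map_mul, ha x s hs, hb x s hs]
  add_mem' := fun ha hb x s hs => by rw [map_add, map_add, ha x s hs, hb x s hs]
  algebraMap_mem' := fun r x s _ => by rw [AlgHom.commutes, AlgHom.commutes]

theorem lt_mem_inv {S : Set (GL (Fin n) Ω)} (y : GL (Fin n) Ω) {b : OGL Ω n} (hb : b ∈ inv S) :
    lt y b ∈ inv S := fun x s hs => by
  rw [ev_lt, ev_lt, ← mul_assoc]
  exact hb _ s hs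

/-- The inverse of the character of a semi-invariant is the character of a semi-invariant. -/
def INV (S : Set (GL (Fin n) Ω)) : Prop :=
  ∀ Δ : OGL Ω n, ev Ω (1 : GL (Fin n) Ω) Δ = 1 →
    (∀ x, ∀ s ∈ S, ev Ω (x * s) Δ = ev Ω x Δ * ev Ω s Δ) →
    ∃ r : OGL Ω n, ev Ω (1 : GL (Fin n) Ω) r = 1 ∧
      ∀ x, ∀ s ∈ S, ev Ω (x * s) r * ev Ω s Δ = ev Ω x r

/-- The left translates of a nonzero invariant generate the unit ideal of the invariants. -/
def SIMPLE (S : Set (GL (Fin n) Ω)) : Prop :=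
  ∀ (a : OGL Ω n) (ha : a ∈ inv S), a ≠ 0 → ∀ P : Ideal (inv S),
    (∀ y, (⟨lt y a, lt_mem_inv y ha⟩ : inv S) ∈ P) → P = ⊤

/-- Finitely many invariants cut out the closure of `S`. -/
def SEP (S : Set (GL (Fin n) Ω)) : Prop :=
  ∃ t : Finset (OGL Ω n), (∀ b ∈ t, b ∈ inv S) ∧
    ∀ (A : Type u) [CommRing A] [Algebra Ω A] (g : GL (Fin n) A),
      (∀ b ∈ t, ev Ω g b = ev Ω (1 : GL (Fin n) A) b) → Cl S g

/-- The two properties that give an affine quotient. -/
structure Good (S : Set (GL (Fin n) Ω)) : Prop where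
  inv : INV S
  simple : SIMPLE S

/-- `S` is irreducible on the blocks in `T`. -/
def Irr {ι : Type} (c : Fin n → ι) (T : ι → Prop) (S : Set (GL (Fin n) Ω)) : Prop :=
  ∀ (h : GL (Fin n) Ω) (a : Fin n → ℤ), InL c (h : Mat n Ω) →
    (∀ s ∈ S, InP a ((h * s * h⁻¹ : GL (Fin n) Ω) : Mat n Ω)) →
      ∀ i j, c i = c j → T (c i) → a i = a j

/-- The group generated by `S` and the points trivial outside the block `i0`. -/
def big {ι : Type} (c : Fin n → ι) (i0 : ι) (S : Subgroup (GL (Fin n) Ω))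
    (hL : ∀ s ∈ S, InL c (s : Mat n Ω)) : Subgroup (GL (Fin n) Ω) where
  carrier := {y | InL c (y : Mat n Ω) ∧ ∃ s ∈ S, pr c (· ≠ i0) y = pr c (· ≠ i0) s}
  one_mem' := ⟨InL.one c, 1, S.one_mem, rfl⟩
  mul_mem' := fun ⟨h, s, hs, e⟩ ⟨h', s', hs', e'⟩ => ⟨h.mul h', s * s', S.mul_mem hs hs', by
    rw [pr_mul _ h h', pr_mul _ (hL s hs) (hL s' hs'), e, e']⟩
  inv_mem' := fun ⟨h, s, hs, e⟩ => ⟨h.inv, s⁻¹, S.inv_mem hs, by
    rw [pr_inv _ h, pr_inv _ (hL s hs), e]⟩

/-- The kernel of the closure of `S` on the blocks other than `i0`. -/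
def Ker {ι : Type} (c : Fin n → ι) (i0 : ι) (S : Set (GL (Fin n) Ω)) {A : Type u} [CommRing A]
    [Algebra Ω A] (κ : GL (Fin n) A) : Prop := Cl S κ ∧ κ ∈ VG c i0 A

end Pool.Agent.GR.AQ
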