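import Pool.Agent.P.MP_c1f06d_ag.g.AqLoc

/-! Functions invariant under the kernel come from the image. -/

open Matrix
open scoped TensorProduct

universe u

namespace Pool.Agent.GR.AQ

open Co

theorem dsc_range {L T : Type u} [CommRing L] (hL : IsField L) [CommRing T] [Algebra L T] (x : T)
    (h : x ⊗ₜ[L] (1 : T) = (1 : T) ⊗ₜ[L] x) : ∃ l : L, algebraMap L T l = x := by
  let := hL.toField
  rcases subsingleton_or_nontrivial T with hT | hT
  · exact ⟨0, Subsingleton.elim _ _⟩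
  obtain ⟨φ, hφ⟩ := (Algebra.linearMap L T).exists_leftInverse_of_injective
    (LinearMap.ker_eq_bot.2 (algebraMap L T).injective)
  have h1 : φ 1 = 1 := by
    have := LinearMap.congr_fun hφ 1
    simpa using this
  have := congrArg (fun z => TensorProduct.lid L T (LinearMap.rTensor T φ z)) h
  simp only [LinearMap.rTensor_tmul, TensorProduct.lid_tmul, h1, one_smul] at this
  exact ⟨φ x, by rw [Algebra.algebraMap_eq_smul_one, this]⟩

theorem dsc_isField {B : Type u} [CommRing B] [IsReduced B] (q : Ideal B) [hq : q.IsPrime]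
    (hm : q ∈ (⊥ : Ideal B).minimalPrimes) : IsField (Localization.AtPrime q) := by
  rw [IsLocalRing.isField_iff_maximalIdeal_eq, ← Localization.AtPrime.map_eq_maximalIdeal,
    Ideal.map_eq_bot_iff_le_ker]
  intro x hx
  have h1 : algebraMap B (Localization.AtPrime q) x ∈
      ((⊥ : Ideal B).map (algebraMap B (Localization.AtPrime q))).radical := by
    rw [IsLocalization.AtPrime.radical_map_of_mem_minimalPrimes (A := Localization.AtPrime q) q ⊥ hm]
    exact Ideal.mem_map_of_mem _ hx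
  obtain ⟨k, hk⟩ := h1
  rw [Ideal.map_bot, Ideal.mem_bot] at hk
  exact IsNilpotent.eq_zero ⟨k, hk⟩

/-- An element on which any two maps over `B` agree lies generically in `B`. -/
theorem dsc_gen {B C : Type u} [CommRing B] [IsReduced B] [CommRing C] [Algebra B C] (q : Ideal B)
    [hq : q.IsPrime] (hm : q ∈ (⊥ : Ideal B).minimalPrimes) (x : C)
    (hx : ∀ (T : Type u) [CommRing T] [Algebra B T] (φ ψ : C →ₐ[B] T), φ x = ψ x) :
    ∃ t : B, t ∉ q ∧ ∃ a : B, algebraMap B C t * x = algebraMap B C a := by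
  let L := Localization.AtPrime q
  have e := hx ((L ⊗[B] C) ⊗[L] (L ⊗[B] C))
    ((Algebra.TensorProduct.includeLeft : L ⊗[B] C →ₐ[B] _).comp Algebra.TensorProduct.includeRight)
    (((Algebra.TensorProduct.includeRight : L ⊗[B] C →ₐ[L] _).restrictScalars B).comp
      Algebra.TensorProduct.includeRight)
  obtain ⟨l, hl⟩ := dsc_range (dsc_isField q hm) ((1 : L) ⊗ₜ[B] x) e
  obtain ⟨⟨a, t⟩, rfl⟩ := IsLocalization.mk'_surjective q.primeCompl l
  have h2 : TensorProduct.mk B L C 1 ((t : B) • x) = TensorProduct.mk B L C 1 (a • (1 : C)) := by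
    rw [map_smul, map_smul, TensorProduct.mk_apply, TensorProduct.mk_apply, ← hl,
      Algebra.TensorProduct.algebraMap_apply, TensorProduct.smul_tmul', TensorProduct.smul_tmul']
    congr 1
    simp only [Algebra.smul_def, mul_one]
    exact IsLocalization.mk'_spec' L a t
  obtain ⟨t', ht'⟩ := IsLocalizedModule.exists_of_eq (S := q.primeCompl) h2
  refine ⟨(t' * t : q.primeCompl), (t' * t).2, t' * a, ?_⟩
  simp only [Submonoid.smul_def, Algebra.smul_def, mul_one] at ht'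
  rw [Submonoid.coe_mul, map_mul, map_mul, mul_assoc, ht']

theorem dsc_sub {k C : Type u} [CommRing k] [CommRing C] [IsReduced C] [Algebra k C]
    (B : Subalgebra k C) (q : Ideal B) [hq : q.IsPrime] (hm : q ∈ (⊥ : Ideal B).minimalPrimes)
    (x : C) (hx : ∀ (T : Type u) [CommRing T] [Algebra k T] (φ ψ : C →ₐ[k] T),
      (∀ b ∈ B, φ b = ψ b) → φ x = ψ x) : ∃ t : B, t ∉ q ∧ (t : C) * x ∈ B := by
  have : IsReduced B := isReduced_of_injective B.val Subtype.val_injective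
  obtain ⟨t, ht, a, ha⟩ := dsc_gen q hm x (fun T _ _ φ ψ => by
    let : Algebra k T := ((algebraMap B T).comp (algebraMap k B)).toAlgebra
    have : IsScalarTower k B T := IsScalarTower.of_algebraMap_eq' rfl
    exact hx T (φ.restrictScalars k) (ψ.restrictScalars k) fun b hb =>
      (φ.commutes ⟨b, hb⟩).trans (ψ.commutes ⟨b, hb⟩).symm)
  exact ⟨t, ht, (show (t : C) * x = (a : C) from ha) ▸ a.2⟩

variable {Ω : Type u} [Field Ω] [IsAlgClosed Ω] {n : ℕ} {ι : Type} {c : Fin n → ι} {i0 : ι}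
  {S : Subgroup (GL (Fin n) Ω)}

/-- The functions that are invariant under the kernel on the closure. -/
def dscK (c : Fin n → ι) (i0 : ι) (S : Set (GL (Fin n) Ω)) : Submodule Ω (OGL Ω n) where
  carrier := {h | ∀ (A : Type u) [CommRing A] [Algebra Ω A] (g κ : GL (Fin n) A),
      Cl S g → Ker c i0 S κ → ev Ω (g * κ) h = ev Ω g h}
  zero_mem' := fun A _ _ g κ _ _ => by rw [map_zero, map_zero]
  add_mem' := fun ha hb A _ _ g κ hg hκ => by
    rw [map_add, map_add, ha A g κ hg hκ, hb A g κ hg hκ]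
  smul_mem' := fun r _ ha A _ _ g κ hg hκ => by rw [map_smul, map_smul, ha A g κ hg hκ]

/-- The image of `S` in the blocks other than `i0`. -/
def dscS (c : Fin n → ι) (i0 : ι) (S : Subgroup (GL (Fin n) Ω))
    (hL : ∀ s ∈ S, InL c (s : Mat n Ω)) : Subgroup (GL (Fin n) Ω) where
  carrier := {y | ∃ s ∈ S, pr c (· ≠ i0) s = y}
  one_mem' := ⟨1, S.one_mem, pr_one _ _⟩
  mul_mem' := by
    rintro _ _ ⟨s, hs, rfl⟩ ⟨s', hs', rfl⟩
    exact ⟨s * s', S.mul_mem hs hs', pr_mul _ (hL s hs) (hL s' hs')⟩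
  inv_mem' := by
    rintro _ ⟨s, hs, rfl⟩
    exact ⟨s⁻¹, S.inv_mem hs, pr_inv _ (hL s hs)⟩

/-- The functions on the closure that factor through the projection. -/
noncomputable def dscP (c : Fin n → ι) (i0 : ι) (S : Set (GL (Fin n) Ω)) :
    OGL Ω n →ₐ[Ω] (OGL Ω n ⧸ vI S) := ev Ω (pr c (· ≠ i0) (uq (vI S)))

omit [IsAlgClosed Ω] in
theorem dsc_lift {S : Set (GL (Fin n) Ω)} (hL : ∀ s ∈ S, InL c (s : Mat n Ω)) {A : Type u}
    [CommRing A] [Algebra Ω A] {g : GL (Fin n) A} (hg : Cl S g) (q : OGL Ω n) :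
    Vz.lift hg (dscP c i0 S q) = ev Ω (pr c (· ≠ i0) g) q := by
  rw [dscP, map_ev, gm_pr _ _ (Cl.inL hL (vz_uq _)), Vz.gm_lift hg]

omit [IsAlgClosed Ω] in
theorem dsc_ker (hL : ∀ s ∈ S, InL c (s : Mat n Ω)) {q : OGL Ω n}
    (hq : q ∈ vI (dscS c i0 S hL : Set (GL (Fin n) Ω))) :
    dscP c i0 (S : Set (GL (Fin n) Ω)) q = 0 := by
  obtain ⟨q', hq'⟩ := exists_pr c (· ≠ i0) q
  rw [dscP, ← hq' _ _ (Cl.inL hL (vz_uq _))]
  exact vz_uq _ q' fun s hs => by
    rw [hq' _ _ (hL s hs)]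
    exact hq _ ⟨s, hs, rfl⟩

omit [IsAlgClosed Ω] in
theorem dsc_one (hL : ∀ s ∈ S, InL c (s : Mat n Ω))
    (p : Ideal (dscP c i0 (S : Set (GL (Fin n) Ω))).range) [p.IsPrime]
    (hm : p ∈ (⊥ : Ideal _).minimalPrimes) {h : OGL Ω n}
    (hK : h ∈ dscK c i0 (S : Set (GL (Fin n) Ω))) :
    ∃ t : (dscP c i0 (S : Set (GL (Fin n) Ω))).range, t ∉ p ∧
      (t : OGL Ω n ⧸ vI (S : Set (GL (Fin n) Ω))) * Ideal.Quotient.mk _ h ∈
        (dscP c i0 (S : Set (GL (Fin n) Ω))).range := by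
  have : IsReduced (OGL Ω n ⧸ vI (S : Set (GL (Fin n) Ω))) := by
    rw [← Ideal.isRadical_iff_quotient_reduced]
    rintro f ⟨k, hk⟩ s hs
    have := hk s hs
    rw [map_pow] at this
    exact IsNilpotent.eq_zero ⟨k, this⟩
  refine dsc_sub _ p hm _ fun T _ _ φ ψ e => ?_
  have hu : Cl (S : Set (GL (Fin n) Ω)) (uq (vI (S : Set (GL (Fin n) Ω)))) := vz_uq _
  have hφ := hu.map φ
  have hψ := hu.map ψ
  have hp : pr c (· ≠ i0) (gm φ (uq (vI (S : Set (GL (Fin n) Ω))))) =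
      pr c (· ≠ i0) (gm ψ (uq (vI (S : Set (GL (Fin n) Ω))))) := by
    rw [← gm_pr _ _ (hu.inL hL), ← gm_pr _ _ (hu.inL hL)]
    ext i j
    rw [gm_apply, gm_apply, ← ev_ug_apply (k := Ω)]
    exact e _ ⟨_, rfl⟩
  have hG := isGrp_vI S
  have := hK T _ ((gm ψ (uq _))⁻¹ * gm φ (uq _)) hψ
    ⟨hG.mul (hG.inv hψ) hφ, (hψ.inL hL).inv.mul (hφ.inL hL), by
      rw [pr_mul _ (hψ.inL hL).inv (hφ.inL hL), pr_inv _ (hψ.inL hL), hp, inv_mul_cancel]⟩
  rwa [mul_inv_cancel_left, ← map_ev, ← map_ev, ev_uq] at this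

theorem desc (hL : ∀ s ∈ S, InL c (s : Mat n Ω)) (h : OGL Ω n)
    (hK : ∀ (A : Type u) [CommRing A] [Algebra Ω A] (g κ : GL (Fin n) A),
      Cl (S : Set (GL (Fin n) Ω)) g → Ker c i0 (S : Set (GL (Fin n) Ω)) κ →
        ev Ω (g * κ) h = ev Ω g h) :
    ∃ q : OGL Ω n, ∀ (A : Type u) [CommRing A] [Algebra Ω A] (g : GL (Fin n) A),
      Cl (S : Set (GL (Fin n) Ω)) g → ev Ω g h = ev Ω (pr c (· ≠ i0) g) q := by
  have hG := isGrp_vI S
  set π := dscP c i0 (S : Set (GL (Fin n) Ω)) with hπ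
  let dd : Ideal (OGL Ω n) :=
    { carrier := {q | ∀ s ∈ S, π q * Ideal.Quotient.mk _ (lt s h) ∈ π.range}
      zero_mem' := fun s _ => by rw [map_zero, zero_mul]; exact zero_mem _
      add_mem' := fun ha hb s hs => by rw [map_add, add_mul]; exact add_mem (ha s hs) (hb s hs)
      smul_mem' := fun a _ hb s hs => by
        rw [smul_eq_mul, map_mul, mul_assoc]; exact mul_mem ⟨a, rfl⟩ (hb s hs) }
  have hdd : ∀ q, q ∈ dd ↔ ∀ s ∈ S, π q * Ideal.Quotient.mk _ (lt s h) ∈ π.range := fun _ => Iff.rfl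
  have hle : vI (dscS c i0 S hL : Set (GL (Fin n) Ω)) ≤ dd := fun q hq => (hdd q).2 fun s _ => by
    rw [hπ, dsc_ker hL hq, zero_mul]; exact zero_mem _
  have hst : ∀ s0 ∈ S, ∀ q ∈ dd, lt (pr c (· ≠ i0) s0) q ∈ dd := by
    intro s0 hs0 q hq
    have hu : Cl (S : Set (GL (Fin n) Ω)) (uq (vI (S : Set (GL (Fin n) Ω)))) := vz_uq _
    have hc := cl_cst (S := (S : Set (GL (Fin n) Ω))) hs0 (OGL Ω n ⧸ vI (S : Set (GL (Fin n) Ω)))
    have hσ : Cl (S : Set (GL (Fin n) Ω)) _ := hG.mul hc hu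
    have e1 : ∀ f, Vz.lift hσ (π f) = π (lt (pr c (· ≠ i0) s0) f) := fun f => by
      rw [hπ, dsc_lift hL hσ, pr_mul _ (hc.inL hL) (hu.inL hL), ← gm_pr _ _ (hL s0 hs0), dscP, ev_lt]
    refine (hdd _).2 fun s hs => ?_
    obtain ⟨q', hq'⟩ := (hdd q).1 hq (s * s0⁻¹) (S.mul_mem hs (S.inv_mem hs0))
    refine ⟨lt (pr c (· ≠ i0) s0) q', ?_⟩
    have := congrArg (Vz.lift hσ) hq'
    rw [map_mul, Vz.lift_mk hσ, ev_lt, ← mul_assoc, ← MonoidHom.map_mul, inv_mul_cancel_right,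
      ← ev_lt, ev_uq, e1] at this
    exact (e1 q').symm.trans this
  have htop : dd = ⊤ := by
    by_contra hne
    obtain ⟨y, hy⟩ := exists_vz hne
    have hG' := isGrp_vI (dscS c i0 S hL)
    have hy' : Vz (vI (dscS c i0 S hL : Set (GL (Fin n) Ω))) y := fun f hf => hy f (hle hf)
    have hge : dd ≤ vI (dscS c i0 S hL : Set (GL (Fin n) Ω)) := by
      intro q hq s' hs'
      have h1 : rt y q ∈ vI (dscS c i0 S hL : Set (GL (Fin n) Ω)) := by
        rintro _ ⟨s, hs, rfl⟩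
        rw [ev_rt, cst_self, ← cst_self (pr c (· ≠ i0) s), ← ev_lt]
        exact hy _ (hst s hs q hq)
      have := hG'.mul (cl_of_mem hs') (hG'.inv hy') _ h1
      rwa [ev_rt, cst_self, inv_mul_cancel_right] at this
    have : Nontrivial (OGL Ω n ⧸ vI (S : Set (GL (Fin n) Ω))) :=
      (Vz.lift (cl_of_mem (S := (S : Set (GL (Fin n) Ω))) S.one_mem)).toRingHom.domain_nontrivial
    obtain ⟨p, hm⟩ := Ideal.nonempty_minimalPrimes (R := π.range) (I := ⊥) bot_ne_top
    have : p.IsPrime := hm.1.1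
    obtain ⟨m, cc, f, -, hsum⟩ := exists_sum h
    let N : Submodule Ω (OGL Ω n) := Submodule.span Ω {g | ∃ s ∈ S, lt s h = g}
    have hN : N ≤ Submodule.span Ω (Set.range f) := by
      refine Submodule.span_le.2 ?_
      rintro _ ⟨s, -, rfl⟩
      rw [lt, hsum]
      refine Submodule.sum_mem _ fun j _ => ?_
      rw [ev_cst, ev_ug, ← Algebra.smul_def]
      exact Submodule.smul_mem _ _ (Submodule.subset_span ⟨j, rfl⟩)
    have hNK : N ≤ dscK c i0 (S : Set (GL (Fin n) Ω)) := by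
      refine Submodule.span_le.2 ?_
      rintro _ ⟨s, hs, rfl⟩ A _ _ g κ hg hκ
      rw [ev_lt, ev_lt, ← mul_assoc]
      exact hK A _ κ (hG.mul (cl_cst hs A) hg) hκ
    have : FiniteDimensional Ω (Submodule.span Ω (Set.range f)) :=
      FiniteDimensional.span_of_finite Ω (Set.finite_range f)
    have : FiniteDimensional Ω N := Submodule.finiteDimensional_of_le hN
    obtain ⟨F, hF⟩ : N.FG := Module.Finite.iff_fg.1 inferInstance
    have hFK : ∀ g ∈ F, g ∈ dscK c i0 (S : Set (GL (Fin n) Ω)) := fun g hg =>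
      hNK (hF ▸ Submodule.subset_span hg)
    choose t ht hta using fun g : F => dsc_one hL p hm (hFK g.1 g.2)
    have hT : ∏ g : F, t g ∉ p := Submonoid.prod_mem p.primeCompl fun g _ => ht g
    have hall : ∀ g ∈ Submodule.span Ω (F : Set (OGL Ω n)),
        ((∏ g : F, t g : π.range) : OGL Ω n ⧸ vI (S : Set (GL (Fin n) Ω))) *
          Ideal.Quotient.mk _ g ∈ π.range := by
      intro g hg
      induction hg using Submodule.span_induction with
      | mem g hg =>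
        classical
        rw [← Finset.prod_erase_mul _ _ (Finset.mem_univ (⟨g, hg⟩ : F)), Subalgebra.coe_mul,
          mul_assoc]
        exact mul_mem (Subtype.property _) (hta ⟨g, hg⟩)
      | zero => rw [map_zero, mul_zero]; exact zero_mem _
      | add a b _ _ ha hb => rw [map_add, mul_add]; exact add_mem ha hb
      | smul r a _ ha =>
        rw [← Ideal.Quotient.mkₐ_eq_mk Ω, map_smul, mul_smul_comm]
        exact Subalgebra.smul_mem _ ha r
    obtain ⟨q, hq⟩ := (∏ g : F, t g).2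
    have hq' : π q = ((∏ g : F, t g : π.range) : OGL Ω n ⧸ vI (S : Set (GL (Fin n) Ω))) := hq
    have hqd : q ∈ dd := (hdd q).2 fun s hs => by
      rw [hq']
      exact hall _ (hF.symm ▸ Submodule.subset_span ⟨s, hs, rfl⟩)
    have h0 : (∏ g : F, t g) = 0 := Subtype.ext (hq'.symm.trans (dsc_ker hL (hge hqd)))
    exact hT (h0 ▸ p.zero_mem)
  obtain ⟨q, hq⟩ := (hdd 1).1 (htop ▸ Submodule.mem_top) 1 S.one_mem
  refine ⟨q, fun A _ _ g hg => ?_⟩
  have := congrArg (Vz.lift hg) hq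
  rw [map_one, one_mul, Vz.lift_mk hg, ev_lt, MonoidHom.map_one, one_mul] at this
  rw [← this]
  exact dsc_lift hL hg q

end Pool.Agent.GR.AQ
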