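import Pool.Agent.P.MP_c1f06d_ag.g.AqDefs

/-! Valuation rings and points. -/

open Matrix
open scoped TensorProduct

universe u

namespace Pool.Agent.GR.AQ

open Co

/-- A valuation ring centred at a given prime. -/
theorem exists_val {B K : Type u} [CommRing B] [Field K] (φ : B →+* K) (p : Ideal B) [p.IsPrime]
    (h : RingHom.ker φ ≤ p) :
    ∃ W : ValuationSubring K, ∀ b, φ b ∈ W ∧ (φ b ∈ W.nonunits ↔ b ∈ p) := by
  have hu : ∀ y : p.primeCompl, IsUnit (φ y) := fun y =>
    isUnit_iff_ne_zero.2 fun e => y.2 (h e)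
  obtain ⟨W, hW, hl⟩ := IsLocalRing.exists_factor_valuationRing
    (IsLocalization.lift (S := Localization.AtPrime p) hu)
  refine ⟨W, fun b => ?_⟩
  have e : IsLocalization.lift (S := Localization.AtPrime p) hu (algebraMap B _ b) = φ b :=
    IsLocalization.lift_eq hu b
  have hb : φ b ∈ W := e ▸ hW _
  refine ⟨hb, ?_⟩
  rw [← IsLocalization.AtPrime.to_map_mem_maximal_iff (Localization.AtPrime p) p,
    IsLocalRing.mem_maximalIdeal, mem_nonunits_iff,
    ← isUnit_map_iff (RingHom.codRestrict _ W.toSubring hW), ← e]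
  exact W.coe_mem_nonunits_iff (a := ⟨_, hW _⟩)

/-- A transcendental element is small at some valued point. -/
theorem exists_val_pt {Ω R : Type u} [Field Ω] [CommRing R] [Algebra Ω R] {η : R}
    (h : Transcendental Ω η) : ∃ (K : Type u) (_ : Field K) (_ : IsAlgClosed K) (_ : Algebra Ω K)
      (W : ValuationSubring K) (φ : R →ₐ[Ω] K),
      (∀ t, algebraMap Ω K t ∈ W) ∧ φ η ∈ W.nonunits := by
  have hi : Function.Injective (Polynomial.aeval η : Polynomial Ω →ₐ[Ω] R) :=
    transcendental_iff_injective.1 h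
  obtain ⟨P, hP, -, hd⟩ := Ideal.exists_le_prime_disjoint (⊥ : Ideal R)
    ((nonZeroDivisors (Polynomial Ω)).map (Polynomial.aeval η : Polynomial Ω →ₐ[Ω] R))
    (Set.disjoint_left.2 fun _ h0 ⟨f, hf, e⟩ =>
      nonZeroDivisors.ne_zero hf (hi (by rw [e, map_zero]; exact h0)))
  let φ : R →ₐ[Ω] AlgebraicClosure (FractionRing (R ⧸ P)) :=
    (IsScalarTower.toAlgHom Ω (R ⧸ P) _).comp (Ideal.Quotient.mkₐ Ω P)
  have hφ : ∀ r, φ r = 0 → r ∈ P := fun r e =>
    Ideal.Quotient.eq_zero_iff_mem.1 (IsFractionRing.injective (R ⧸ P) (FractionRing (R ⧸ P))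
      ((algebraMap (FractionRing (R ⧸ P)) (AlgebraicClosure (FractionRing (R ⧸ P)))).injective
        (e.trans (by rw [map_zero, map_zero]))))
  have hX : (Ideal.span {(Polynomial.X : Polynomial Ω)}).IsPrime :=
    (Ideal.span_singleton_prime Polynomial.X_ne_zero).2 Polynomial.prime_X
  obtain ⟨W, hW⟩ := exists_val (φ.comp (Polynomial.aeval η)).toRingHom
    (Ideal.span {(Polynomial.X : Polynomial Ω)}) fun f hf => by
      by_cases e : f = 0
      · rw [e]
        exact Ideal.zero_mem _
      · exact (Set.disjoint_left.1 hd (hφ _ hf) ⟨f, mem_nonZeroDivisors_of_ne_zero e, rfl⟩).elim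
  refine ⟨_, inferInstance, inferInstance, inferInstance, W, φ, fun t => ?_, ?_⟩
  · rw [← (φ.comp (Polynomial.aeval η)).commutes t]
    exact (hW _).1
  · have := (hW Polynomial.X).2.2 (Ideal.subset_span rfl)
    rwa [AlgHom.toRingHom_eq_coe, RingHom.coe_coe, AlgHom.comp_apply, Polynomial.aeval_X] at this

theorem eps_mul_eps {n : ℕ} {ι : Type} [DecidableEq ι] (c : Fin n → ι) (A : Type u) [CommRing A]
    (a b : ι) : eps A c a * eps A c b = if a = b then eps A c a else 0 := by
  rw [eps, eps, diagonal_mul_diagonal]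
  split_ifs with e
  · subst e
    congr 1
    funext i
    split_ifs <;> simp
  · rw [← diagonal_zero]
    congr 1
    funext i
    by_cases h1 : c i = a
    · rw [if_neg fun h2 : c i = b => e (h1.symm.trans h2), mul_zero]
    · rw [if_neg h1, zero_mul]

theorem sum_eps_image {n : ℕ} {ι : Type} [DecidableEq ι] (c : Fin n → ι) (A : Type u)
    [CommRing A] : ∑ a ∈ Finset.univ.image c, eps A c a = 1 := by
  ext i j
  rw [Matrix.sum_apply]
  by_cases e : i = j
  · subst e
    simp [eps]
  · simp [eps, e]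

/-- If the conjugates of the block idempotents are integral, the point is integral up to the
block group. -/
theorem split_int {n : ℕ} {ι : Type} [DecidableEq ι] (c : Fin n → ι) {K : Type u} [Field K]
    (W : ValuationSubring K) (x : GL (Fin n) K)
    (h : ∀ b i j, ((x : Mat n K) * eps K c b * ((x⁻¹ : GL (Fin n) K) : Mat n K)) i j ∈ W) :
    ∃ (g : GL (Fin n) W) (m : GL (Fin n) K), InL c (m : Mat n K) ∧
      x = GeneralLinearGroup.map (algebraMap W K) g * m := by
  let E : ι → Mat n W := fun b => of fun i j => ⟨_, h b i j⟩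
  have hE : ∀ b, (E b).map (algebraMap W K) =
      (x : Mat n K) * eps K c b * ((x⁻¹ : GL (Fin n) K) : Mat n K) := fun _ => rfl
  have hm : Function.Injective fun X : Mat n W => X.map (algebraMap W K) :=
    Matrix.map_injective Subtype.val_injective
  have hmul : ∀ a b, (E a * E b).map (algebraMap W K) = (x : Mat n K) *
      (eps K c a * eps K c b) * ((x⁻¹ : GL (Fin n) K) : Mat n K) := fun a b => by
    rw [Matrix.map_mul, hE, hE]
    simp only [mul_assoc, Units.inv_mul_cancel_left]
  have hI : Idem (Finset.univ.image c) E := by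
    refine ⟨fun a _ => hm ?_, fun a _ b _ hne => hm ?_, hm ?_⟩
    · show (E a * E a).map _ = (E a).map _
      rw [hmul, eps_mul_eps, if_pos rfl, hE]
    · show (E a * E b).map _ = (0 : Mat n W).map _
      rw [hmul, eps_mul_eps, if_neg hne, Matrix.map_zero _ (map_zero _), mul_zero, zero_mul]
    · show (algebraMap W K).mapMatrix (∑ a ∈ _, E a) = (algebraMap W K).mapMatrix 1
      rw [map_sum, map_one, Finset.sum_congr rfl fun a _ =>
        (RingHom.mapMatrix_apply (algebraMap W K) _).trans (hE a), ← Finset.sum_mul,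
        ← Finset.mul_sum, sum_eps_image, mul_one, Units.mul_inv]
  obtain ⟨β, a, -, -, -, hβ⟩ := diag_idem hI (c := fun _ => ()) fun _ _ _ _ h => absurd rfl h
  obtain ⟨y, hy⟩ : ∃ y, y = (GeneralLinearGroup.map (algebraMap W K) β)⁻¹ * x := ⟨_, rfl⟩
  have h1 : ∀ i j, a i ≠ c j → (y : Mat n K) i j = 0 := fun i j e => by
    have e1 : (y : Mat n K) * eps K c (c j) * ((y⁻¹ : GL (Fin n) K) : Mat n K) =
        eps K a (c j) := by
      have e2 : eps K a (c j) = (eps W a (c j)).map (algebraMap W K) := by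
        ext i i'
        by_cases e : i = i' <;> simp [eps, e, apply_ite (algebraMap W K)]
      rw [e2, ← hβ _ (Finset.mem_image_of_mem c (Finset.mem_univ j)), Matrix.map_mul,
        Matrix.map_mul, hE, hy, _root_.mul_inv_rev, inv_inv, Units.val_mul, Units.val_mul]
      simp only [mul_assoc]
      rfl
    have e3 := congrFun (congrFun ((Units.mul_inv_eq_iff_eq_mul y).1 e1) i) j
    rwa [eps, eps, mul_diagonal, diagonal_mul, if_pos rfl, if_neg e, mul_one, zero_mul] at e3
  have hd : (y : Mat n K).det ≠ 0 := ((isUnit_iff_isUnit_det _).1 y.isUnit).ne_zero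
  rw [det_apply] at hd
  obtain ⟨w, -, hw⟩ := Finset.exists_ne_zero_of_sum_ne_zero hd
  have h2 : ∀ j, a (w j) = c j := fun j => by_contra fun e =>
    hw (smul_eq_zero_of_right _ (Finset.prod_eq_zero (Finset.mem_univ j) (h1 _ _ e)))
  have h3 : GeneralLinearGroup.map (algebraMap W K) (pmat W w) = pmat K w := by
    ext i j
    by_cases e : i = w j <;> simp [pmat, e]
  refine ⟨β * pmat W w, (pmat K w)⁻¹ * y, fun i j e => ?_, ?_⟩
  · rw [Units.val_mul, mul_apply]
    refine Finset.sum_eq_zero fun l _ => ?_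
    by_cases e' : w i = l
    · rw [h1 l j (e' ▸ (h2 i).symm ▸ e), mul_zero]
    · exact mul_eq_zero_of_left (if_neg e') _
  · rw [map_mul, h3, hy, mul_assoc, mul_inv_cancel_left, mul_inv_cancel_left]

end Pool.Agent.GR.AQ
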