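import Pool.Agent.P.MP_c1f06d_ag.g.Loc
import Pool.Agent.P.MP_c1f06d_ag.g.AqDefs

/-! The grading of functions on `GL_n` by the centre of a Levi subgroup. -/

open Matrix hiding single
open AddMonoidAlgebra

universe u

namespace Pool.Agent.GR.AQ

open Co Rp

variable {Ω : Type u} [Field Ω] {n : ℕ} {ι : Type} [Fintype ι] [DecidableEq ι] (c : Fin n → ι)
  {A : Type u} [CommRing A] [Algebra Ω A]

/-- The character `t ^ z` of the centre. -/
def tz (t : ι → Aˣ) (z : ι → ℤ) : Aˣ := ∏ δ, t δ ^ z δ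

omit [DecidableEq ι] in
theorem tz_add (t : ι → Aˣ) (z z' : ι → ℤ) : tz t (z + z') = tz t z * tz t z' := by
  simp [tz, _root_.zpow_add, Finset.prod_mul_distrib]

omit [DecidableEq ι] in
theorem tz_zero (t : ι → Aˣ) : tz t 0 = 1 := by simp [tz]

theorem tz_single (t : ι → Aˣ) (δ : ι) : tz t (Pi.single δ 1) = t δ := by
  rw [tz, Finset.prod_eq_single δ] <;> simp +contextual

theorem tz_uu (z : ι → ℤ) :
    (tz (fun δ => uu A (Pi.single δ 1 : ι → ℤ)) z : GA A (ι → ℤ)) = single z 1 := by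
  let f : Multiplicative (ι → ℤ) →* (GA A (ι → ℤ))ˣ :=
    ⟨⟨fun a => uu A a.toAdd, Units.ext rfl⟩, fun a b => uu_add _ _⟩
  have e : tz (fun δ => uu A (Pi.single δ 1 : ι → ℤ)) z =
      uu A (∑ δ, z δ • (Pi.single δ 1 : ι → ℤ)) := by
    simp only [tz, uu_zsmul]
    exact (map_prod f (fun δ => Multiplicative.ofAdd (z δ • (Pi.single δ 1 : ι → ℤ)))
      Finset.univ).symm
  rw [e]
  show single _ _ = _
  congr 1
  ext l
  simp [Finset.sum_apply, Pi.single_apply]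

/-- The block scalar matrix. -/
def zc (t : ι → Aˣ) : GL (Fin n) A := dgU fun i => t (c i)

omit [Fintype ι] [DecidableEq ι] in
theorem zc_inL (t : ι → Aˣ) : InL c (zc c t : Mat n A) := fun _ _ h =>
  diagonal_apply_ne _ fun e => h (congrArg c e)

omit [Fintype ι] [DecidableEq ι] in
theorem zc_comm (t : ι → Aˣ) {g : GL (Fin n) A} (hg : InL c (g : Mat n A)) :
    zc c t * g = g * zc c t := by
  ext i j
  simp only [zc, dgU, Units.val_mul, diagonal_mul, mul_diagonal]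
  by_cases e : c i = c j
  · rw [e, mul_comm]
  · rw [hg i j e, mul_zero, zero_mul]

omit [Fintype ι] [DecidableEq ι] in
theorem zc_mul (t t' : ι → Aˣ) : zc c (t * t') = zc c t * zc c t' :=
  Units.ext (by simp [zc, dgU])

omit [Fintype ι] [DecidableEq ι] in
theorem zc_one : zc c (1 : ι → Aˣ) = 1 := Units.ext (by simp [zc, dgU])

omit [Fintype ι] in
theorem bdet_zc (t : ι → Aˣ) (δ : ι) : bdet c δ (zc c t : Mat n A) =
    (t δ : A) ^ (Finset.univ.filter fun i => c i = δ).card := by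
  rw [zc, bdet_dgU, ← Finset.prod_filter, Finset.prod_congr rfl fun i hi => by
    rw [(Finset.mem_filter.1 hi).2], Finset.prod_const]

omit [Fintype ι] in
theorem exists_scale {F : Type u} [Field F] [IsAlgClosed F] (hc : Function.Surjective c)
    {g : GL (Fin n) F} (hg : InL c (g : Mat n F)) :
    ∃ t : ι → Fˣ, ∀ δ, bdet c δ ((g * zc c t : GL (Fin n) F) : Mat n F) = 1 := by
  have h : ∀ δ, ∃ t : Fˣ, bdet c δ (g : Mat n F) *
      (t : F) ^ (Finset.univ.filter fun i => c i = δ).card = 1 := fun δ => by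
    obtain ⟨i, hi⟩ := hc δ
    have h0 : 0 < (Finset.univ.filter fun i => c i = δ).card :=
      Finset.card_pos.2 ⟨i, Finset.mem_filter.2 ⟨Finset.mem_univ _, hi⟩⟩
    obtain ⟨t, ht⟩ := IsAlgClosed.exists_pow_nat_eq (bdet c δ (g : Mat n F))⁻¹ h0
    have h1 := (bdet_isUnit hg δ).ne_zero
    refine ⟨Units.mk0 t fun e => inv_ne_zero h1 ?_, ?_⟩
    · rw [← ht, e, zero_pow h0.ne']
    · rw [Units.val_mk0, ht, mul_inv_cancel₀ h1]
  choose t ht using h
  exact ⟨t, fun δ => by rw [Units.val_mul, bdet_mul hg, bdet_zc, ht]⟩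

/-- The universal point of the centre. -/
noncomputable def zu (A : Type u) [CommRing A] : GL (Fin n) (GA A (ι → ℤ)) :=
  zc c fun δ => uu A (Pi.single δ 1 : ι → ℤ)

/-- The inclusion into the group algebra. -/
noncomputable abbrev ga (Ω A : Type u) [Field Ω] [CommRing A] [Algebra Ω A] (ι : Type) :
    A →ₐ[Ω] GA A (ι → ℤ) := IsScalarTower.toAlgHom Ω A (GA A (ι → ℤ))

/-- The coaction of the centre. -/
noncomputable def cmp : OGL Ω n →ₐ[Ω] GA (OGL Ω n) (ι → ℤ) :=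
  ev Ω (gm (ga Ω _ ι) (ug Ω n) * zu c _)

omit [Fintype ι] in
theorem ev_cmp (x : GL (Fin n) A) (f : OGL Ω n) (z : ι → ℤ) :
    ev Ω x ((cmp c f).coeff z) = (ev Ω (gm (ga Ω A ι) x * zu c A) f).coeff z := by
  have e : (mapAlgHom (ι → ℤ) (ev Ω x)).comp (ga Ω _ ι) = (ga Ω A ι).comp (ev Ω x) :=
    AlgHom.ext fun a => by simp
  rw [← coeff_mapAlgHom, cmp, map_ev, map_mul, Co.gm_gm, e, ← Co.gm_gm, gm_ev_ug]
  exact congrArg (fun g => (ev Ω (gm (ga Ω A ι) x * g) f).coeff z)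
    (gm_rho (ev Ω x) fun i => (Pi.single (c i) 1 : ι → ℤ))

/-- `f` is homogeneous of degree `z`. -/
def HG (z : ι → ℤ) (f : OGL Ω n) : Prop :=
  ∀ (A : Type u) [CommRing A] [Algebra Ω A] (x : GL (Fin n) A) (t : ι → Aˣ),
    ev Ω (x * zc c t) f = (tz t z : A) * ev Ω x f

variable {c}

theorem HG.cmp_eq {z : ι → ℤ} {f : OGL Ω n} (h : HG c z f) : cmp c f = single z f := by
  rw [cmp, zu, h, tz_uu, ev_gm_ug, ga_inc, single_mul_single, add_zero, one_mul]

omit [DecidableEq ι] in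
theorem HG.mul {z z' : ι → ℤ} {f f' : OGL Ω n} (h : HG c z f) (h' : HG c z' f') :
    HG c (z + z') (f * f') := fun A _ _ x t => by
  rw [map_mul, map_mul, h, h', tz_add, Units.val_mul]
  ring

omit [DecidableEq ι] in
theorem HG.const (r : Ω) : HG c 0 (algebraMap Ω (OGL Ω n) r) := fun A _ _ x t => by
  rw [tz_zero, AlgHom.commutes, AlgHom.commutes, Units.val_one, one_mul]

omit [DecidableEq ι] in
theorem HG.pow {z : ι → ℤ} {f : OGL Ω n} (h : HG c z f) (m : ℕ) : HG c (m • z) (f ^ m) := by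
  induction m with
  | zero => simpa using HG.const (c := c) (1 : Ω)
  | succ m ih =>
    rw [succ_nsmul, pow_succ]
    exact ih.mul h

omit [DecidableEq ι] in
theorem HG.lt {z : ι → ℤ} {f : OGL Ω n} (h : HG c z f) (y : GL (Fin n) Ω) : HG c z (lt y f) :=
  fun A _ _ x t => by rw [ev_lt, ev_lt, ← mul_assoc, h]

variable (c)

theorem hg_cmp (f : OGL Ω n) (z : ι → ℤ) : HG c z ((cmp c f).coeff z) := by
  intro A _ _ x t
  let g : Multiplicative (ι → ℤ) →* GA A (ι → ℤ) :=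
    ⟨⟨fun w => single w.toAdd (tz t w.toAdd : A), by simp [tz_zero, one_def]⟩, fun a b => by
      simp only [toAdd_mul, tz_add, Units.val_mul, single_mul_single]⟩
  let τ : GA A (ι → ℤ) →ₐ[Ω] GA A (ι → ℤ) :=
    (AddMonoidAlgebra.lift A (GA A (ι → ℤ)) (ι → ℤ) g).restrictScalars Ω
  have hτ : ∀ w a, τ (single w a) = single w ((tz t w : A) * a) := fun w a => by
    show AddMonoidAlgebra.lift A (GA A (ι → ℤ)) (ι → ℤ) g _ = _
    rw [AddMonoidAlgebra.lift_single, mul_comm]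
    exact smul_single _ _ _
  have hc : ∀ φ : GA A (ι → ℤ), (τ φ).coeff z = (tz t z : A) * φ.coeff z := fun φ => by
    induction φ using induction_linear with
    | zero => simp
    | add a b ha hb => simp [ha, hb, mul_add]
    | single w a =>
      rw [hτ, coeff_single, coeff_single, Finsupp.single_apply, Finsupp.single_apply]
      split_ifs with e
      · rw [e]
      · rw [mul_zero]
  have e1 : τ.comp (ga Ω A ι) = ga Ω A ι := AlgHom.ext fun a => by
    rw [AlgHom.comp_apply, ga_inc, hτ, tz_zero, Units.val_one, one_mul]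
  have e2 : gm τ (zu c A) = gm (ga Ω A ι) (zc c t) * zu c A := by
    ext i j : 2
    by_cases e : i = j
    · subst e
      simp [zu, zc, dgU, uu, hτ, tz_single, single_mul_single]
    · simp [zu, zc, dgU, e]
  rw [ev_cmp, ev_cmp, ← hc, map_ev, MonoidHom.map_mul (gm τ), Co.gm_gm, e1, e2, MonoidHom.map_mul,
    mul_assoc]

omit [Fintype ι] in
theorem sum_cmp (f : OGL Ω n) : ∑ z ∈ (cmp c f).coeff.support, (cmp c f).coeff z = f := by
  let ε : GA (OGL Ω n) (ι → ℤ) →ₐ[Ω] OGL Ω n :=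
    (AddMonoidAlgebra.lift (OGL Ω n) (OGL Ω n) (ι → ℤ) 1).restrictScalars Ω
  have hε : ∀ w a, ε (single w a) = a := fun w a => by
    show AddMonoidAlgebra.lift (OGL Ω n) (OGL Ω n) (ι → ℤ) 1 _ = _
    rw [AddMonoidAlgebra.lift_single, MonoidHom.one_apply, smul_eq_mul, mul_one]
  have e1 : ε.comp (ga Ω _ ι) = AlgHom.id Ω _ := AlgHom.ext fun a => hε 0 a
  have e2 : gm ε (zu c _) = 1 := by
    ext i j : 2
    by_cases e : i = j
    · subst e
      simp [zu, zc, dgU, uu, hε]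
    · simp [zu, zc, dgU, e]
  have e3 : ε (cmp c f) = f := by
    rw [cmp, map_ev, MonoidHom.map_mul, Co.gm_gm, e1, e2, mul_one, Co.gm_id, ev_ug]
    rfl
  conv_rhs => rw [← e3, ← sum_coeff_single (cmp c f), Finsupp.sum, map_sum]
  exact Finset.sum_congr rfl fun z _ => (hε _ _).symm

omit [Fintype ι] in
theorem cmp_lt (y : GL (Fin n) Ω) (f : OGL Ω n) (z : ι → ℤ) :
    (cmp c (lt y f)).coeff z = lt y ((cmp c f).coeff z) := by
  conv_rhs => rw [lt, ev_cmp, MonoidHom.map_mul, gm_cst, mul_assoc]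
  rw [cmp, ev_lt]

omit [Fintype ι] [DecidableEq ι] in
theorem semi_all [IsAlgClosed Ω] {f : OGL Ω n} {s : GL (Fin n) Ω} {r : Ω}
    (h : ∀ x, ev Ω (x * s) f = ev Ω x f * r) (x : GL (Fin n) A) :
    ev Ω (x * cst A s) f = ev Ω x f * algebraMap Ω A r := by
  have e : rt s f = f * algebraMap Ω _ r := sub_eq_zero.1 (eq_zero_of_points fun g => by
    rw [map_sub, ev_rt, map_mul, AlgHom.commutes, cst_self, h]
    exact sub_self _)
  rw [← ev_rt, e, map_mul, AlgHom.commutes]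

omit [Fintype ι] in
theorem semi_cmp [IsAlgClosed Ω] {f : OGL Ω n} {s : GL (Fin n) Ω} (hs : InL c (s : Mat n Ω))
    {r : Ω} (h : ∀ x, ev Ω (x * s) f = ev Ω x f * r) (z : ι → ℤ) (x : GL (Fin n) Ω) :
    ev Ω (x * s) ((cmp c f).coeff z) = ev Ω x ((cmp c f).coeff z) * r := by
  have e : gm (ga Ω Ω ι) s = cst _ s := by
    rw [Subsingleton.elim (ga Ω Ω ι) (Algebra.ofId _ _)]
  rw [ev_cmp, ev_cmp, MonoidHom.map_mul, mul_assoc, zu, ← zc_comm c _ (inL_map _ hs), ← mul_assoc,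
    e, semi_all h, ga_alg, coeff_mul_single_apply, neg_zero, add_zero]

/-- Semi-invariants of the Levi subgroup. -/
theorem semi_L (e : ι → ℤ) : ∃ r : OGL Ω n, ev Ω (1 : GL (Fin n) Ω) r = 1 ∧
    ∀ (A : Type u) [CommRing A] [Algebra Ω A] (x s : GL (Fin n) A) (v : ι → Aˣ),
      InL c (s : Mat n A) → (∀ δ, (v δ : A) = bdet c δ (s : Mat n A)) →
        ev Ω (x * s) r = ev Ω x r * (tz v e : A) := by
  have key : ∀ δ (m : ℤ), ∃ r : OGL Ω n, ev Ω (1 : GL (Fin n) Ω) r = 1 ∧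
      ∀ (A : Type u) [CommRing A] [Algebra Ω A] (x s : GL (Fin n) A) (v : Aˣ),
        InL c (s : Mat n A) → (v : A) = bdet c δ (s : Mat n A) →
          ev Ω (x * s) r = ev Ω x r * ((v ^ m : Aˣ) : A) := fun δ m => by
    have h1 : ∀ (A : Type u) [CommRing A] [Algebra Ω A] (x : GL (Fin n) A),
        ev Ω x (bdet c δ (ug Ω n : Mat n (OGL Ω n))ᵀ) = bdet c δ (x : Mat n A)ᵀ := fun A _ _ x => by
      refine (map_bdet (ev Ω x : OGL Ω n →+* A) c δ _).trans (congrArg _ ?_)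
      ext i j
      exact ev_ug_apply x j i
    have h2 : ∀ (A : Type u) [CommRing A] [Algebra Ω A] (x : GL (Fin n) A),
        ev Ω x (bdet c δ (((ug Ω n)⁻¹ : GL (Fin n) (OGL Ω n)) : Mat n (OGL Ω n))) =
          bdet c δ ((x⁻¹ : GL (Fin n) A) : Mat n A) := fun A _ _ x => by
      refine (map_bdet (ev Ω x : OGL Ω n →+* A) c δ _).trans (congrArg _ ?_)
      conv_rhs => rw [← gm_ev_ug (k := Ω) x, ← MonoidHom.map_inv]
      rfl
    obtain ⟨p, rfl | rfl⟩ := m.eq_nat_or_neg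
    · refine ⟨bdet c δ (ug Ω n : Mat n (OGL Ω n))ᵀ ^ p, ?_, fun A _ _ x s v hs hv => ?_⟩
      · rw [map_pow, h1, Units.val_one, transpose_one, bdet_one, one_pow]
      have hT : InL c (s : Mat n A)ᵀ := fun i j h => hs j i (Ne.symm h)
      have e1 : bdet c δ (s : Mat n A)ᵀ = bdet c δ (s : Mat n A) := by
        rw [bdet, bdet, ← det_transpose, hs.eps_comm]
        simp [eps]
      rw [map_pow, map_pow, h1, h1, Units.val_mul, transpose_mul, bdet_mul hT, e1, zpow_natCast,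
        Units.val_pow_eq_pow_val, hv, mul_pow, mul_comm]
    · refine ⟨bdet c δ (((ug Ω n)⁻¹ : GL (Fin n) (OGL Ω n)) : Mat n (OGL Ω n)) ^ p, ?_,
        fun A _ _ x s v hs hv => ?_⟩
      · rw [map_pow, h2, inv_one, Units.val_one, bdet_one, one_pow]
      have e1 : bdet c δ ((s⁻¹ : GL (Fin n) A) : Mat n A) = ((v⁻¹ : Aˣ) : A) := by
        rw [← Units.mul_right_inj v, Units.mul_inv, hv, ← bdet_mul hs, Units.mul_inv, bdet_one]
      rw [map_pow, map_pow, h2, h2, _root_.mul_inv_rev, Units.val_mul, bdet_mul hs.inv, e1,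
        _root_.zpow_neg, zpow_natCast, ← inv_pow, Units.val_pow_eq_pow_val, mul_pow, mul_comm]
  choose r h1 h2 using fun δ => key δ (e δ)
  refine ⟨∏ δ, r δ, by simp [h1], fun A _ _ x s v hs hv => ?_⟩
  rw [map_prod, map_prod, tz, Units.coe_prod, ← Finset.prod_mul_distrib]
  exact Finset.prod_congr rfl fun δ _ => h2 δ A x s (v δ) hs (hv δ)

omit [Fintype ι] [DecidableEq ι] in
theorem ltr_ev (y : GL (Fin n) Ω) (f : OGL Ω n) : ltr (ev Ω y).toLinearMap f = lt y f := by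
  have h := ev_ltr_ev y (ug Ω n) f
  rwa [ev_ug] at h

theorem exists_vs {B F : Type u} [CommRing B] [Field F] (ψ : B →+* F) (hψ : Function.Injective ψ)
    (I : Ideal B) (hI : I ≠ ⊤) :
    ∃ W : ValuationSubring F, (∀ b, ψ b ∈ W) ∧ ∀ b ∈ I, ψ b ∈ W.nonunits := by
  obtain ⟨W, h1, h2⟩ := Ideal.image_subset_nonunits_valuationSubring
    (I.map ψ.rangeRestrict) fun e => hI (by
      have hb : Function.Bijective ψ.rangeRestrict :=
        ⟨fun a b h => hψ (congrArg Subtype.val h), ψ.rangeRestrict_surjective⟩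
      rw [← Ideal.comap_map_of_bijective ψ.rangeRestrict hb (I := I), e, Ideal.comap_top])
  exact ⟨W, fun b => h1 ⟨b, rfl⟩, fun b hb => h2 ⟨_, Ideal.mem_map_of_mem _ hb, rfl⟩⟩

omit [Fintype ι] in
/-- No point with trivial block determinants kills a space of semi-invariants of an irreducible
set. -/
theorem no_limit [IsAlgClosed Ω] {F : Type u} [Field F] [Algebra Ω F] (W : ValuationSubring F)
    (hW : ∀ r, algebraMap Ω F r ∈ W) {E : Submodule Ω (OGL Ω n)} (hE : LS E) {f₀ : OGL Ω n}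
    (hf₀ : f₀ ∈ E) (h1 : ev Ω (1 : GL (Fin n) Ω) f₀ ≠ 0) (σ : GL (Fin n) F)
    (hσ : InL c (σ : Mat n F)) (hdet : ∀ δ, bdet c δ (σ : Mat n F) = 1)
    (h0 : ∀ f ∈ E, ev Ω σ f ∈ W.nonunits) {S : Set (GL (Fin n) Ω)} (hirr : Irr c (fun _ => True) S)
    (hS : ∀ s ∈ S, InL c (s : Mat n Ω) ∧ ∃ (t : ι → Ωˣ) (r : Ω), ∀ f ∈ E,
      ev Ω (s * zc c t) f = r * ev Ω (1 : GL (Fin n) Ω) f) : False := by
  let : Algebra Ω W := ((algebraMap Ω F).codRestrict W hW).toAlgebra
  have : IsScalarTower Ω W F := IsScalarTower.of_algebraMap_eq fun _ => rfl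
  obtain ⟨h, a, h2, ⟨i, j, h3, h4⟩, h5⟩ := hE.kempf (W := W) c hf₀ h1 σ hσ
    (fun δ => ⟨1, by rw [hdet, Units.val_one, map_one]⟩) fun f hf => by
      obtain ⟨hw, hw'⟩ := W.mem_nonunits_iff_exists_mem_maximalIdeal.1 (h0 f hf)
      exact ⟨_, hw', rfl⟩
  refine h4 (hirr h a h2 (fun s hs => ?_) i j h3 trivial)
  obtain ⟨h6, t, h7⟩ := hS s hs
  have h8 := h5 (s * zc c t) (h6.mul (zc_inL c t)) h7
  have h9 : InP a (zc c t : Mat n Ω) := fun i j e =>
    diagonal_apply_ne _ fun e' => e.ne (congrArg a e')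
  have e : h * s * h⁻¹ = h * (s * zc c t) * h⁻¹ * (zc c t)⁻¹ := by
    rw [← mul_assoc h, mul_assoc (h * s), zc_comm c t h2.inv]
    group
  rw [e]
  exact h8.mul h9.inv

end Pool.Agent.GR.AQ
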