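import Pool.Agent.P.MP_c1f06d_ag.g.AqLoc
import Pool.Agent.P.MP_c1f06d_ag.g.AqVal
import Pool.Agent.P.MP_c1f06d_ag.g.KGrad

/-! Groups that are irreducible on all blocks. -/

open Matrix
open scoped TensorProduct

universe u

namespace Pool.Agent.GR.AQ

open Co

variable {Ω : Type u} [Field Ω] [IsAlgClosed Ω] {n : ℕ} {ι : Type} {c : Fin n → ι}
  {S : Subgroup (GL (Fin n) Ω)}

section fin

variable [Fintype ι] [DecidableEq ι]

theorem fin_ord (hc : Function.Surjective c) (hL : ∀ s ∈ S, InL c (s : Mat n Ω))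
    (hirr : Irr c (fun _ => True) (S : Set (GL (Fin n) Ω))) {z : ι → ℤ} {Δ : OGL Ω n}
    (hz : HG c z Δ) (h1 : ev Ω (1 : GL (Fin n) Ω) Δ = 1)
    (h2 : ∀ x, ∀ s ∈ S, ev Ω (x * s) Δ = ev Ω x Δ * ev Ω s Δ) :
    ∃ K : ℕ, 0 < K ∧ ∀ s ∈ S, ∀ t : ι → Ωˣ,
      (∀ δ, bdet c δ ((s * zc c t : GL (Fin n) Ω) : Mat n Ω) = 1) →
        ev Ω (s * zc c t) Δ ^ K = 1 := by
  let N : Subgroup (GL (Fin n) Ω) :=
    { carrier := {g | (∃ s ∈ S, ∃ t, g = s * zc c t) ∧ ∀ δ, bdet c δ (g : Mat n Ω) = 1}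
      one_mem' := ⟨⟨1, S.one_mem, 1, by rw [zc_one, mul_one]⟩, fun δ => bdet_one c δ⟩
      mul_mem' := by
        rintro _ _ ⟨⟨s, hs, t, rfl⟩, e⟩ ⟨⟨s', hs', t', rfl⟩, e'⟩
        refine ⟨⟨s * s', S.mul_mem hs hs', t * t', ?_⟩, fun δ => ?_⟩
        · rw [zc_mul, mul_assoc, ← mul_assoc (zc c t), zc_comm c t (hL s' hs')]
          simp only [mul_assoc]
        · have h : InL c ((s * zc c t : GL (Fin n) Ω) : Mat n Ω) := (hL s hs).mul (zc_inL c t)
          rw [Units.val_mul, bdet_mul h, e', mul_one]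
          exact e δ
      inv_mem' := by
        rintro _ ⟨⟨s, hs, t, rfl⟩, e⟩
        have h : InL c ((s * zc c t : GL (Fin n) Ω) : Mat n Ω) := (hL s hs).mul (zc_inL c t)
        refine ⟨⟨s⁻¹, S.inv_mem hs, t⁻¹, ?_⟩, fun δ => ?_⟩
        · have e1 : (zc c t)⁻¹ = zc c t⁻¹ :=
            inv_eq_of_mul_eq_one_right (by rw [← zc_mul, mul_inv_cancel, zc_one])
          rw [← zc_comm c _ (hL _ (S.inv_mem hs)), _root_.mul_inv_rev, e1]
        · rw [← one_mul (bdet c δ _), ← e δ, ← bdet_mul h, Units.mul_inv, bdet_one, e δ] }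
  have hN : ∀ g ∈ N, InL c (g : Mat n Ω) := by
    rintro _ ⟨⟨s, hs, t, rfl⟩, -⟩
    exact (hL s hs).mul (zc_inL c t)
  have h3 : ∀ x, ∀ g ∈ N, ev Ω (x * g) Δ = ev Ω x Δ * ev Ω g Δ := by
    rintro x _ ⟨⟨s, hs, t, rfl⟩, -⟩
    rw [← mul_assoc, hz, hz, h2 x s hs]
    ring
  have halg : IsAlgebraic Ω (Ideal.Quotient.mk (vI (N : Set (GL (Fin n) Ω))) Δ) := by
    by_contra h
    obtain ⟨K, _, _, _, W, φ, hW, hφ⟩ := exists_val_pt h
    have hcl : Cl (N : Set (GL (Fin n) Ω)) (gm φ (uq (vI (N : Set (GL (Fin n) Ω))))) :=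
      (vz_uq _).map φ
    let E : Submodule Ω (OGL Ω n) :=
      { carrier := {f | ∀ x, ∀ g ∈ N, ev Ω (x * g) f = ev Ω x f * ev Ω g Δ}
        add_mem' := fun ha hb x g hg => by rw [map_add, map_add, ha x g hg, hb x g hg, add_mul]
        zero_mem' := fun x g _ => by rw [map_zero, map_zero, zero_mul]
        smul_mem' := fun r _ ha x g hg => by rw [map_smul, map_smul, ha x g hg, smul_mul_assoc] }
    have hE : LS E := ls_of_points fun f hf y x g hg => by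
      rw [ltr_ev, ev_lt, ev_lt, ← mul_assoc]
      exact hf _ g hg
    have hb : ∀ (A : Type u) [CommRing A] [Algebra Ω A] (x : GL (Fin n) A) δ,
        ev Ω x (bdet c δ (ug Ω n : Mat n (OGL Ω n))) = bdet c δ (x : Mat n A) := fun A _ _ x δ => by
      refine (map_bdet (ev Ω x : OGL Ω n →+* A) c δ _).trans (congrArg _ ?_)
      ext i j
      exact ev_ug_apply x i j
    refine no_limit c W hW hE (f₀ := Δ) h3 (h1 ▸ one_ne_zero) _ (hcl.inL hN) (fun δ => ?_)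
      (fun f hf => ?_) hirr fun s hs => ⟨hL s hs, ?_⟩
    · rw [← hb, hcl.ev_eq (f' := 1) fun g hg => by rw [hb, hg.2 δ, map_one], map_one]
    · rw [hcl.ev_eq (f' := ev Ω (1 : GL (Fin n) Ω) f • Δ) fun g hg => by
        rw [map_smul, smul_eq_mul, ← hf 1 g hg, one_mul], map_smul, ← map_ev, ev_uq,
        Algebra.smul_def, W.mem_nonunits_iff, map_mul]
      exact lt_of_le_of_lt (mul_le_of_le_one_left' ((W.valuation_le_one_iff _).2 (hW _))) hφ
    · obtain ⟨t, ht⟩ := exists_scale c hc (hL s hs)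
      exact ⟨t, ev Ω (s * zc c t) Δ, fun f hf => by
        rw [mul_comm, ← hf 1 _ ⟨⟨s, hs, t, rfl⟩, ht⟩, one_mul]⟩
  obtain ⟨p, hp, hp0⟩ := halg
  have h4 : ∀ g ∈ N, p.IsRoot (ev Ω g Δ) := fun g hg => by
    rw [← Ideal.Quotient.mkₐ_eq_mk Ω, Polynomial.aeval_algHom_apply, Ideal.Quotient.mkₐ_eq_mk,
      Ideal.Quotient.eq_zero_iff_mem] at hp0
    have := hp0 g hg
    rwa [← Polynomial.aeval_algHom_apply, Polynomial.coe_aeval_eq_eval] at this
  let θ : N →* Ω := ⟨⟨fun g => ev Ω (g : GL (Fin n) Ω) Δ, h1⟩, fun g g' => h3 _ _ g'.2⟩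
  have hfin : Finite θ.toHomUnits.range := by
    refine Set.Finite.of_finite_image (f := Units.val)
      ((Polynomial.finite_setOfPred_isRoot hp).subset ?_) Units.val_injective.injOn
    rintro _ ⟨_, ⟨g, rfl⟩, rfl⟩
    exact h4 g g.2
  refine ⟨Nat.card θ.toHomUnits.range, Nat.card_pos, fun s hs t ht => ?_⟩
  have h5 := pow_card_eq_one' (x := (⟨_, ⟨s * zc c t, ⟨s, hs, t, rfl⟩, ht⟩, rfl⟩ :
    θ.toHomUnits.range))
  exact congrArg (fun x : θ.toHomUnits.range => ((x : Ωˣ) : Ω)) h5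

theorem exists_u (hc : Function.Surjective c) (hL : ∀ s ∈ S, InL c (s : Mat n Ω))
    (hirr : Irr c (fun _ => True) (S : Set (GL (Fin n) Ω))) {z : ι → ℤ} {Δ : OGL Ω n}
    (hz : HG c z Δ) (h1 : ev Ω (1 : GL (Fin n) Ω) Δ = 1)
    (h2 : ∀ x, ∀ s ∈ S, ev Ω (x * s) Δ = ev Ω x Δ * ev Ω s Δ) :
    ∃ (N : ℕ) (u : OGL Ω n), 0 < N ∧ ev Ω (1 : GL (Fin n) Ω) u = 1 ∧
      (∀ x, ∀ s ∈ S, ev Ω (x * s) u * ev Ω s Δ ^ N = ev Ω x u) ∧
      ∀ (A : Type u) [CommRing A] [Algebra Ω A] (m : GL (Fin n) A) (t : ι → Aˣ),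
        InL c (m : Mat n A) → (∀ δ, bdet c δ ((m * zc c t : GL (Fin n) A) : Mat n A) = 1) →
          ev Ω m u = (tz t z : A) ^ N := by
  obtain ⟨K, hK, h3⟩ := fin_ord hc hL hirr hz h1 h2
  let d : ι → ℕ := fun δ => (Finset.univ.filter fun i => c i = δ).card
  have hd : ∀ δ, 0 < d δ := fun δ => by
    obtain ⟨i, hi⟩ := hc δ
    exact Finset.card_pos.2 ⟨i, Finset.mem_filter.2 ⟨Finset.mem_univ _, hi⟩⟩
  choose M hM using fun δ => Finset.dvd_prod_of_mem d (Finset.mem_univ δ)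
  obtain ⟨u, h4, h5⟩ := semi_L (Ω := Ω) c fun δ => -(K * M δ * z δ)
  have h6 : ∀ (A : Type u) [CommRing A] [Algebra Ω A] (x m : GL (Fin n) A) (t : ι → Aˣ),
      InL c (m : Mat n A) → (∀ δ, bdet c δ ((m * zc c t : GL (Fin n) A) : Mat n A) = 1) →
        ev Ω (x * m) u = ev Ω x u * (tz t z : A) ^ (K * ∏ δ, d δ) := fun A _ _ x m t hm ht => by
    rw [h5 A x m (fun δ => (t δ ^ d δ)⁻¹) hm fun δ => ?_, ← Units.val_pow_eq_pow_val]
    · congr 2
      rw [tz, tz, ← Finset.prod_pow]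
      refine Finset.prod_congr rfl fun δ _ => ?_
      rw [hM δ, ← zpow_natCast, ← zpow_natCast, ← _root_.zpow_neg, ← _root_.zpow_mul,
        ← _root_.zpow_mul]
      congr 1
      push_cast
      ring
    · have := ht δ
      rw [Units.val_mul, bdet_mul hm, bdet_zc] at this
      rw [← Units.mul_left_inj (t δ ^ d δ), Units.inv_mul]
      exact this.symm
  refine ⟨K * ∏ δ, d δ, u, Nat.mul_pos hK (Finset.prod_pos fun δ _ => hd δ), h4,
    fun x s hs => ?_, fun A _ _ m t hm ht => ?_⟩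
  · obtain ⟨t, ht⟩ := exists_scale c hc (hL s hs)
    have h7 := h3 s hs t ht
    rw [hz] at h7
    rw [h6 Ω x s t (hL s hs) ht, mul_assoc, ← mul_pow, pow_mul, h7, one_pow, mul_one]
  · have := h6 A 1 m t hm ht
    rwa [one_mul, ev_one, h4, map_one, one_mul] at this

theorem inv_fin (hc : Function.Surjective c) (hL : ∀ s ∈ S, InL c (s : Mat n Ω))
    (hirr : Irr c (fun _ => True) (S : Set (GL (Fin n) Ω))) : INV (S : Set (GL (Fin n) Ω)) := by
  intro Δ h1 h2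
  obtain ⟨z, hz⟩ : ∃ z, ev Ω (1 : GL (Fin n) Ω) ((cmp c Δ).coeff z) ≠ 0 := by
    by_contra h
    rw [← sum_cmp c Δ, map_sum, Finset.sum_eq_zero fun z _ => by_contra fun e => h ⟨z, e⟩] at h1
    exact zero_ne_one h1
  let Δ' := algebraMap Ω _ (ev Ω (1 : GL (Fin n) Ω) ((cmp c Δ).coeff z))⁻¹ * (cmp c Δ).coeff z
  have h3 : ev Ω (1 : GL (Fin n) Ω) Δ' = 1 := by
    rw [map_mul, AlgHom.commutes]
    exact inv_mul_cancel₀ hz
  have h4 : ∀ x, ∀ s ∈ S, ev Ω (x * s) Δ' = ev Ω x Δ' * ev Ω s Δ := fun x s hs => by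
    rw [map_mul, map_mul, AlgHom.commutes, AlgHom.commutes,
      semi_cmp c (hL s hs) (fun x => h2 x s hs), mul_assoc]
  have h5 : ∀ s ∈ S, ev Ω s Δ' = ev Ω s Δ := fun s hs => by
    rw [← one_mul s, h4 1 s hs, h3, one_mul, one_mul]
  obtain ⟨N, u, hN, h6, h7, -⟩ := exists_u hc hL hirr
    (zero_add z ▸ (HG.const _).mul (hg_cmp c Δ z)) h3 fun x s hs => by rw [h4 x s hs, h5 s hs]
  obtain ⟨N, rfl⟩ := Nat.exists_eq_succ_of_ne_zero hN.ne'
  refine ⟨Δ ^ N * u, by rw [map_mul, map_pow, h1, h6, one_pow, one_mul], fun x s hs => ?_⟩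
  rw [map_mul, map_mul, map_pow, map_pow, h2 x s hs, ← h7 x s hs, h5 s hs, pow_succ]
  ring

theorem closed_fin (hc : Function.Surjective c) (hL : ∀ s ∈ S, InL c (s : Mat n Ω))
    (hirr : Irr c (fun _ => True) (S : Set (GL (Fin n) Ω))) {K : Type u} [Field K] [IsAlgClosed K]
    [Algebra Ω K] (W : ValuationSubring K) (x : GL (Fin n) K)
    (hx : ∀ b ∈ inv (S : Set (GL (Fin n) Ω)), ev Ω x b ∈ W) {a : OGL Ω n}
    (ha : a ∈ inv (S : Set (GL (Fin n) Ω))) (h0 : a ≠ 0) :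
    ∃ y, ev Ω x (lt y a) ∉ W.nonunits := by
  by_contra hcon
  have h1 : ∀ y, ev Ω x (lt y a) ∈ W.nonunits := fun y => by_contra fun e => hcon ⟨y, e⟩
  have hW : ∀ r, algebraMap Ω K r ∈ W := fun r => by
    simpa using hx _ ((inv (S : Set (GL (Fin n) Ω))).algebraMap_mem r)
  let : Algebra Ω W := ((algebraMap Ω K).codRestrict W hW).toAlgebra
  have : IsScalarTower Ω W K := IsScalarTower.of_algebraMap_eq fun _ => rfl
  have he : ∀ (A : Type u) [CommRing A] [Algebra Ω A] (y : GL (Fin n) A) b i j,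
      ev Ω y (((ug Ω n : Mat n (OGL Ω n)) * eps (OGL Ω n) c b *
        (((ug Ω n)⁻¹ : GL (Fin n) (OGL Ω n)) : Mat n (OGL Ω n)) : Mat n (OGL Ω n)) i j) =
      ((y : Mat n A) * eps A c b * ((y⁻¹ : GL (Fin n) A) : Mat n A) : Mat n A) i j :=
      fun A _ _ y b i j => by
    conv_rhs => rw [← gm_ev_ug (k := Ω) y, ← MonoidHom.map_inv]
    simp only [mul_apply, map_sum, map_mul, eps, diagonal_apply, apply_ite (ev Ω y), map_one,
      map_zero]
    rfl
  obtain ⟨g, m, hm, e⟩ := split_int c W x fun b i j => he K x b i j ▸ hx _ fun y s hs => by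
    rw [he, he, _root_.mul_inv_rev, Units.val_mul, Units.val_mul, mul_assoc (y : Mat n Ω),
      ← (hL s hs).eps_comm]
    simp only [mul_assoc, Units.mul_inv_cancel_left]
  have em : m = gm (IsScalarTower.toAlgHom Ω W K) g⁻¹ * x := by
    rw [e, MonoidHom.map_inv]
    exact (inv_mul_cancel_left _ _).symm
  let M : Submodule W K :=
    { carrier := W.nonunits
      add_mem' := fun ha hb => W.nonunits.add_mem ha hb
      zero_mem' := W.nonunits.zero_mem
      smul_mem' := fun r b hb => by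
        show (r : K) * b ∈ W.nonunits
        rw [W.mem_nonunits_iff, map_mul]
        exact lt_of_le_of_lt (mul_le_of_le_one_left' (W.valuation_le_one r)) hb }
  have hll : ∀ (y y' : GL (Fin n) Ω) (f : OGL Ω n), lt y (lt y' f) = lt (y' * y) f :=
    fun y y' f => by
      rw [lt, ev_lt, ← mul_assoc, ← MonoidHom.map_mul]
      rfl
  have h2 : ∀ y, ev Ω m (lt y a) ∈ M := fun y =>
    em ▸ ev_mul_mem M _ x (fun y' => hll y' y a ▸ h1 _) g⁻¹
  obtain ⟨z, hz⟩ : ∃ z, (cmp c a).coeff z ≠ 0 := by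
    by_contra h
    exact h0 ((sum_cmp c a).symm.trans
      (Finset.sum_eq_zero fun z _ => by_contra fun e => h ⟨z, e⟩))
  have h3 : ∀ y, ev Ω m (lt y ((cmp c a).coeff z)) ∈ M := fun y => by
    obtain ⟨p, c', f, h4, h5⟩ := exists_sum (lt y a)
    have e1 : zu c K = gm (AddMonoidAlgebra.mapAlgHom (ι → ℤ) (Algebra.ofId Ω K)) (zu c Ω) :=
      (gm_rho (Algebra.ofId Ω K) fun i => (Pi.single (c i) 1 : ι → ℤ)).symm
    rw [← cmp_lt, ev_cmp, zu, ← zc_comm c _ (inL_map _ hm), ← zu, h5, AddMonoidAlgebra.coeff_sum,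
      Finsupp.finsetSum_apply]
    refine M.sum_mem fun j _ => ?_
    rw [← map_ev, ga_inc, AddMonoidAlgebra.coeff_mul_single_apply, e1, ← map_ev,
      AddMonoidAlgebra.coeff_mapAlgHom, Algebra.ofId_apply, ← Algebra.smul_def]
    exact (M.restrictScalars Ω).smul_mem _ (h4 ((M.restrictScalars Ω).comap (ev Ω m).toLinearMap)
      (fun y' => hll y' y a ▸ h2 _) j)
  have hi : (cmp c a).coeff z ∈ inv (S : Set (GL (Fin n) Ω)) := fun y s hs => by
    rw [semi_cmp c (hL s hs) (r := 1) (fun y => by rw [ha y s hs, mul_one]), mul_one]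
  obtain ⟨y₀, hy₀⟩ : ∃ y : GL (Fin n) Ω, ev Ω y ((cmp c a).coeff z) ≠ 0 := by
    by_contra h
    exact hz (eq_zero_of_points fun y => by_contra fun e => h ⟨y, e⟩)
  let Δ := algebraMap Ω _ (ev Ω y₀ ((cmp c a).coeff z))⁻¹ * lt y₀ ((cmp c a).coeff z)
  have h4 : ev Ω (1 : GL (Fin n) Ω) Δ = 1 := by
    rw [map_mul, AlgHom.commutes, ev_lt, mul_one]
    exact inv_mul_cancel₀ hy₀
  have h5 : Δ ∈ inv (S : Set (GL (Fin n) Ω)) :=
    mul_mem (Subalgebra.algebraMap_mem _ _) (lt_mem_inv y₀ hi)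
  have h6 : ∀ s ∈ S, ev Ω s Δ = 1 := fun s hs => by rw [← one_mul s, h5 1 s hs, h4]
  obtain ⟨N, u, hN, -, h7, h8⟩ := exists_u hc hL hirr
    (zero_add z ▸ (HG.const _).mul ((hg_cmp c a z).lt y₀)) h4 fun x s hs => by
      rw [h5 x s hs, h6 s hs, mul_one]
  have hu : u ∈ inv (S : Set (GL (Fin n) Ω)) := fun y s hs => by
    rw [← h7 y s hs, h6 s hs, one_pow, mul_one]
  obtain ⟨t, ht⟩ := exists_scale c hc hm
  have h9 : W.valuation (tz t z : K) ≤ 1 := by
    obtain ⟨w, hw⟩ : ev Ω m u ∈ LinearMap.range (Algebra.linearMap W K) :=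
      em ▸ ev_mul_mem (LinearMap.range (Algebra.linearMap W K)) u x
        (fun y => ⟨⟨_, hx _ (lt_mem_inv y hu)⟩, rfl⟩) g⁻¹
    have h10 : W.valuation (tz t z : K) ^ N ≤ 1 := by
      rw [← map_pow, ← h8 K m t hm ht, ← hw]
      exact W.valuation_le_one w
    exact (pow_le_one_iff hN.ne').1 h10
  let E : Submodule Ω (OGL Ω n) :=
    { carrier := {f | f ∈ inv (S : Set (GL (Fin n) Ω)) ∧
        ∀ y, ev Ω (m * zc c t) (lt y f) ∈ W.nonunits}
      add_mem' := fun ha hb => ⟨add_mem ha.1 hb.1, fun y => by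
        rw [map_add, map_add]
        exact W.nonunits.add_mem (ha.2 y) (hb.2 y)⟩
      zero_mem' := ⟨zero_mem _, fun y => by
        rw [map_zero, map_zero]
        exact W.nonunits.zero_mem⟩
      smul_mem' := fun r _ ha => ⟨Subalgebra.smul_mem _ ha.1 r, fun y => by
        rw [map_smul, map_smul]
        exact (M.restrictScalars Ω).smul_mem r (ha.2 y)⟩ }
  have hE : LS E := ls_of_points fun f hf y =>
    ltr_ev y f ▸ ⟨lt_mem_inv y hf.1, fun y' => hll y' y f ▸ hf.2 _⟩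
  refine no_limit c W hW hE (f₀ := lt y₀ ((cmp c a).coeff z)) ⟨lt_mem_inv y₀ hi, fun y => ?_⟩
    (by rwa [ev_lt, mul_one]) _ (hm.mul (zc_inL c t)) ht (fun f hf => ?_) hirr
    fun s hs => ⟨hL s hs, 1, 1, fun f hf => by
      rw [zc_one, mul_one, one_mul, ← hf.1 1 s hs, one_mul]⟩
  · rw [hll, (hg_cmp c a z).lt, W.mem_nonunits_iff, map_mul]
    exact lt_of_le_of_lt (mul_le_of_le_one_left' h9) (h3 _)
  · have := hf.2 1
    rwa [← ltr_ev, ltr_one] at this

end fin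

omit [IsAlgClosed Ω] in
theorem irr_range (hirr : Irr c (fun _ => True) (S : Set (GL (Fin n) Ω))) :
    Irr (Set.rangeFactorization c) (fun _ => True) (S : Set (GL (Fin n) Ω)) :=
  fun h a h1 h2 i j e _ => hirr h a (fun i j e' => h1 i j fun e2 => e' (congrArg Subtype.val e2))
    h2 i j (congrArg Subtype.val e) trivial

theorem inv_irr (hL : ∀ s ∈ S, InL c (s : Mat n Ω))
    (hirr : Irr c (fun _ => True) (S : Set (GL (Fin n) Ω))) : INV (S : Set (GL (Fin n) Ω)) := by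
  classical
  exact inv_fin (c := Set.rangeFactorization c) Set.rangeFactorization_surjective
    (fun s hs i j e => hL s hs i j fun e' => e (Subtype.ext e')) (irr_range hirr)

theorem closed_irr (hL : ∀ s ∈ S, InL c (s : Mat n Ω))
    (hirr : Irr c (fun _ => True) (S : Set (GL (Fin n) Ω))) {K : Type u} [Field K] [IsAlgClosed K]
    [Algebra Ω K] (W : ValuationSubring K) (x : GL (Fin n) K)
    (hx : ∀ b ∈ inv (S : Set (GL (Fin n) Ω)), ev Ω x b ∈ W) {a : OGL Ω n}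
    (ha : a ∈ inv (S : Set (GL (Fin n) Ω))) (h0 : a ≠ 0) :
    ∃ y, ev Ω x (lt y a) ∉ W.nonunits := by
  classical
  exact closed_fin (c := Set.rangeFactorization c) Set.rangeFactorization_surjective
    (fun s hs i j e => hL s hs i j fun e' => e (Subtype.ext e')) (irr_range hirr) W x hx ha h0

end Pool.Agent.GR.AQ
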