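import Pool.Agent.P.MP_c1f06d_ag.g.AqTheta
import Pool.Agent.P.MP_c1f06d_ag.g.AqChr
import Pool.Agent.P.MP_c1f06d_ag.g.AqDsc

/-! From the large group to the group: the step with finite kernel. -/

open Matrix
open scoped TensorProduct

universe u

namespace Pool.Agent.GR.AQ

open Co

variable {Ω : Type u} [Field Ω] [IsAlgClosed Ω] {n : ℕ} {ι : Type} {c : Fin n → ι} {i0 : ι}
  {S : Subgroup (GL (Fin n) Ω)} (hL : ∀ s ∈ S, InL c (s : Mat n Ω))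

omit [IsAlgClosed Ω] in
theorem le_big {s : GL (Fin n) Ω} (hs : s ∈ S) : s ∈ big c i0 S hL := ⟨hL s hs, s, hs, rfl⟩

omit [IsAlgClosed Ω] in
theorem vg_big {a : GL (Fin n) Ω} (ha : a ∈ VG c i0 Ω) : a ∈ big c i0 S hL :=
  ⟨ha.1, 1, S.one_mem, by rw [ha.2, pr_one]⟩

theorem vg_of_pr {A : Type u} [CommRing A] {y g : GL (Fin n) A} (hy : InL c (y : Mat n A))
    (hg : InL c (g : Mat n A)) (e : pr c (· ≠ i0) y = pr c (· ≠ i0) g) :
    y * g⁻¹ ∈ VG c i0 A :=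
  ⟨hy.mul hg.inv, by rw [pr_mul _ hy hg.inv, pr_inv _ hg, e, mul_inv_cancel]⟩

theorem vg_conj {A : Type u} [CommRing A] {g a : GL (Fin n) A} (hg : InL c (g : Mat n A))
    (ha : a ∈ VG c i0 A) : g * a * g⁻¹ ∈ VG c i0 A :=
  vg_of_pr (hg.mul ha.1) hg (by rw [pr_mul _ hg ha.1, ha.2, mul_one])

theorem pr_vg_mul {A : Type u} [CommRing A] {a g : GL (Fin n) A} (ha : a ∈ VG c i0 A)
    (hg : InL c (g : Mat n A)) : pr c (· ≠ i0) (a * g) = pr c (· ≠ i0) g := by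
  rw [pr_mul _ ha.1 hg, ha.2, one_mul]

omit [IsAlgClosed Ω] in
theorem big_dec {y : GL (Fin n) Ω} (hy : y ∈ big c i0 S hL) :
    ∃ a ∈ VG c i0 Ω, ∃ s ∈ S, y = a * s := by
  obtain ⟨h, s, hs, e⟩ := hy
  exact ⟨y * s⁻¹, vg_of_pr h (hL s hs) e, s, hs, (inv_mul_cancel_right y s).symm⟩

theorem int_of_coeff {R T : Type u} [CommRing R] [CommRing T] (φ : R →+* T) {p : Polynomial T}
    (hp : p.Monic) (hc : ∀ j, p.coeff j ∈ Set.range φ) {x : T} (hx : p.eval x = 0) :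
    φ.IsIntegralElem x := by
  obtain ⟨q, hq, -, hm⟩ := Polynomial.lifts_and_natDegree_eq_and_monic
    ((Polynomial.lifts_iff_coeff_lifts (f := φ) p).2 hc) hp
  exact ⟨q, hm, by rw [Polynomial.eval₂_eq_eval_map, hq, hx]⟩

omit [IsAlgClosed Ω] in
theorem irr_big (hirr : Irr c (· ≠ i0) (S : Set (GL (Fin n) Ω))) :
    Irr c (fun _ => True) (big c i0 S hL : Set (GL (Fin n) Ω)) := by
  have key : ∀ (h : GL (Fin n) Ω) (a : Fin n → ℤ), InL c (h : Mat n Ω) →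
      (∀ s ∈ (big c i0 S hL : Set (GL (Fin n) Ω)),
        InP a ((h * s * h⁻¹ : GL (Fin n) Ω) : Mat n Ω)) →
      ∀ i j, c i = i0 → c j = i0 → ¬ a i < a j := by
    intro h a hh hP i j hi hj hlt
    have hij : i ≠ j := fun e => by rw [e] at hlt; exact lt_irrefl _ hlt
    let t : GL (Fin n) Ω := ⟨transvection i j 1, transvection i j (-1),
      by rw [transvection_mul_transvection_same _ _ hij, add_neg_cancel, transvection_zero],
      by rw [transvection_mul_transvection_same _ _ hij, neg_add_cancel, transvection_zero]⟩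
    have tv : ∀ k l, (t : Mat n Ω) k l = (1 : Mat n Ω) k l + if i = k ∧ j = l then 1 else 0 :=
      fun k l => rfl
    have ht : t ∈ VG c i0 Ω := by
      refine mem_VG.2 ⟨fun k l e => ?_, fun k l e => ?_⟩
      · rw [tv, InL.one c k l e, zero_add, if_neg]
        rintro ⟨rfl, rfl⟩
        exact e (hi.trans hj.symm)
      · rw [tv, if_neg, add_zero]
        rintro ⟨rfl, rfl⟩
        exact e hi
    have h2 := hP _ (vg_big hL (vg_conj hh.inv ht)) i j hlt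
    rw [show h * (h⁻¹ * t * h⁻¹⁻¹) * h⁻¹ = t by group, tv, one_apply_ne hij, zero_add,
      if_pos ⟨rfl, rfl⟩] at h2
    exact one_ne_zero h2
  intro h a hh hP i j hij _
  by_cases hi : c i = i0
  · exact le_antisymm (not_lt.1 (key h a hh hP j i (hij ▸ hi) hi))
      (not_lt.1 (key h a hh hP i j hi (hij ▸ hi)))
  · exact hirr h a hh (fun s hs => hP s (le_big hL hs)) i j hij hi

include hL in
/-- The ideal of the kernel. -/
theorem exists_kerI (hK : {κ : GL (Fin n) Ω | Ker c i0 (S : Set (GL (Fin n) Ω)) κ}.Finite) :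
    ∃ J : Ideal (OGL Ω n), IsGrp J ∧ Module.Finite Ω (OGL Ω n ⧸ J) ∧
      ∀ (A : Type u) [CommRing A] [Algebra Ω A] (κ : GL (Fin n) A),
        Vz J κ ↔ Ker c i0 (S : Set (GL (Fin n) Ω)) κ := by
  have _ := hL
  have e : ∀ (A : Type u) [CommRing A] [Algebra Ω A] (κ : GL (Fin n) A),
      Vz (vI (S : Set (GL (Fin n) Ω)) ⊔ vI (VG c i0 Ω : Set (GL (Fin n) Ω))) κ ↔
        Ker c i0 (S : Set (GL (Fin n) Ω)) κ := fun A _ _ κ =>
    vz_sup.trans (and_congr Iff.rfl (cl_VG c i0))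
  refine ⟨_, (isGrp_vI S).sup (isGrp_vI (VG c i0 Ω)), finite_of_pts ?_, e⟩
  exact hK.subset fun κ h => (e Ω κ).1 h

theorem lift_big (hK : {κ : GL (Fin n) Ω | Ker c i0 (S : Set (GL (Fin n) Ω)) κ}.Finite)
    {K : Type u} [Field K] [IsAlgClosed K] [Algebra Ω K] {y : GL (Fin n) K}
    (hy : Cl (big c i0 S hL : Set (GL (Fin n) Ω)) y) :
    ∃ a ∈ VG c i0 K, ∃ g, Cl (S : Set (GL (Fin n) Ω)) g ∧ y = a * g := by
  obtain ⟨J, hJ, hfin, hJK⟩ := exists_kerI hL hK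
  have hu : Cl (S : Set (GL (Fin n) Ω)) (uq (vI (S : Set (GL (Fin n) Ω)))) := vz_uq _
  have hyL : InL c (y : Mat n K) := Cl.inL (fun s hs => hs.1) hy
  let π : OGL Ω n →ₐ[Ω] (OGL Ω n ⧸ vI (S : Set (GL (Fin n) Ω))) :=
    ev Ω (pr c (· ≠ i0) (uq (vI (S : Set (GL (Fin n) Ω)))))
  have hker : ∀ q ∈ RingHom.ker π, ev Ω (pr c (· ≠ i0) y) q = 0 := by
    intro q hq
    obtain ⟨q', hq'⟩ := exists_pr c (· ≠ i0) q
    rw [← hq' K y hyL]
    refine hy _ fun z hz => ?_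
    obtain ⟨hz, s, hs, e⟩ := hz
    have hs' : Vz (vI (S : Set (GL (Fin n) Ω))) s := cl_of_mem hs
    rw [hq' Ω z hz, e, ← hs'.gm_lift, ← gm_pr _ _ (Cl.inL hL hu), ← map_ev]
    exact (congrArg hs'.lift hq).trans (map_zero _)
  let φ : (OGL Ω n ⧸ RingHom.ker π) →ₐ[Ω] K :=
    Ideal.Quotient.liftₐ _ (ev Ω (pr c (· ≠ i0) y)) hker
  let _ : Algebra (OGL Ω n ⧸ RingHom.ker π) (OGL Ω n ⧸ vI (S : Set (GL (Fin n) Ω))) :=
    (Ideal.kerLiftAlg π).toRingHom.toAlgebra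
  have _ : Algebra.IsIntegral (OGL Ω n ⧸ RingHom.ker π)
      (OGL Ω n ⧸ vI (S : Set (GL (Fin n) Ω))) := ⟨fun x => by
    obtain ⟨f, rfl⟩ := Ideal.Quotient.mk_surjective x
    obtain ⟨p, hp, hf, hc⟩ := chr_poly hJ f
    refine int_of_coeff _ (hp.map (Ideal.Quotient.mk _)) (fun j => ?_) ?_
    · obtain ⟨q, hq⟩ := desc (i0 := i0) hL (p.coeff j)
        fun A _ _ g κ _ hκ => hc j A g κ ((hJK A κ).2 hκ)
      refine ⟨Ideal.Quotient.mk _ q, ?_⟩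
      rw [Polynomial.coeff_map, ← ev_uq _ (p.coeff j), hq _ _ hu]
      rfl
    · rw [Polynomial.eval_map, Polynomial.eval₂_hom, hf, map_zero]⟩
  obtain ⟨ψ, hψ⟩ := lift_integral (C := OGL Ω n ⧸ vI (S : Set (GL (Fin n) Ω)))
    (Ideal.kerLiftAlg_injective π) φ.toRingHom
  have hψ' : ∀ q, ψ (π q) = ev Ω (pr c (· ≠ i0) y) q := fun q =>
    RingHom.congr_fun hψ (Ideal.Quotient.mk _ q)
  let ψ' : (OGL Ω n ⧸ vI (S : Set (GL (Fin n) Ω))) →ₐ[Ω] K :=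
    { ψ with
      commutes' := fun r => by
        have := hψ' (algebraMap Ω _ r)
        rwa [AlgHom.commutes, AlgHom.commutes] at this }
  have hg := hu.map ψ'
  refine ⟨_, vg_of_pr hyL (Cl.inL hL hg) ?_, _, hg, (inv_mul_cancel_right _ _).symm⟩
  rw [← gm_pr _ _ (Cl.inL hL hu)]
  ext i j
  rw [gm_apply, ← ev_ug_apply (k := Ω), ← hψ']
  exact congrArg ψ (ev_ug_apply _ i j)

theorem kext (hb : INV (big c i0 S hL : Set (GL (Fin n) Ω))) (σ : OGL Ω n)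
    (hσ : ∀ (A : Type u) [CommRing A] [Algebra Ω A] (x κ : GL (Fin n) A),
      Ker c i0 (S : Set (GL (Fin n) Ω)) κ → ev Ω (x * κ) σ = ev Ω x σ) :
    ∃ E ∈ inv (S : Set (GL (Fin n) Ω)), ∀ (A : Type u) [CommRing A] [Algebra Ω A],
      ∀ a ∈ VG c i0 A, ev Ω a E = ev Ω a σ := by
  obtain ⟨m, cc, f, hN, hsum⟩ := exists_sum σ
  let N : Submodule Ω (OGL Ω n) :=
    { carrier := {τ | ∀ (A : Type u) [CommRing A] [Algebra Ω A] (x κ : GL (Fin n) A),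
        Ker c i0 (S : Set (GL (Fin n) Ω)) κ → ev Ω (x * κ) τ = ev Ω x τ}
      zero_mem' := fun A _ _ x κ _ => by rw [map_zero, map_zero]
      add_mem' := fun ha hb A _ _ x κ h => by rw [map_add, map_add, ha A x κ h, hb A x κ h]
      smul_mem' := fun r _ ha A _ _ x κ h => by rw [map_smul, map_smul, ha A x κ h] }
  have hf : ∀ l, f l ∈ N := hN N fun y A _ _ x κ h => by
    rw [ev_lt, ev_lt, ← mul_assoc, hσ A _ κ h]
  choose hh hhh using fun l => exists_pr c (· = i0) (ev Ω (ug Ω n)⁻¹ (f l))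
  have hq := fun l => desc (i0 := i0) hL (hh l) fun A _ _ g κ hg hκ => by
    have hgL := Cl.inL hL hg
    have hk : g * κ⁻¹ * g⁻¹ ∈ VG c i0 A := vg_conj hgL ((VG c i0 A).inv_mem hκ.2)
    have hG := isGrp_vI S
    have e : (pr c (· = i0) (g * κ))⁻¹ = (pr c (· = i0) g)⁻¹ * (g * κ⁻¹ * g⁻¹) := by
      rw [← pr_of_VG hk, pr_mul _ (hgL.mul hκ.2.1.inv) hgL.inv, pr_mul _ hgL hκ.2.1.inv,
        pr_mul _ hgL hκ.2.1, pr_inv _ hgL, pr_inv _ hκ.2.1]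
      group
    rw [hhh l A _ (hgL.mul hκ.2.1), hhh l A _ hgL, ev_ev_inv, ev_ev_inv, e]
    exact hf l A _ _ ⟨hG.mul (hG.mul hg (hG.inv hκ.1)) (hG.inv hg), hk⟩
  choose q hq using hq
  choose c' hc' using fun l => exists_pr c (· = i0) (cc l)
  choose q' hq' using fun l => exists_pr c (· ≠ i0) (q l)
  have hΦ : ∀ a ∈ VG c i0 Ω, ∀ s ∈ S, ev Ω (a * s) (∑ l, c' l * q' l) = ev Ω a σ := by
    intro a ha s hs
    have hs' := hL s hs
    conv_rhs => rw [← mul_inv_cancel_right a (pr c (· = i0) s), hsum]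
    rw [map_sum]
    refine Finset.sum_congr rfl fun l _ => ?_
    rw [map_mul, hc' l Ω _ (ha.1.mul hs'), hq' l Ω _ (ha.1.mul hs'), pr_vg_mul ha hs',
      ← hq l Ω s (cl_of_mem hs), hhh l Ω s hs', ev_ev_inv, pr_mul _ ha.1 hs', pr_of_VG ha]
  obtain ⟨E, hE, hE'⟩ := hb.ext (S := (S : Set (GL (Fin n) Ω))) (fun s hs => le_big hL hs)
    (∑ l, c' l * q' l) (fun _ => 1) fun γ hγ s hs => by
      obtain ⟨a, ha, s0, hs0, rfl⟩ := big_dec hL hγ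
      rw [one_mul, mul_assoc, hΦ a ha _ (S.mul_mem hs0 hs), hΦ a ha _ hs0]
  refine ⟨E, fun x s hs => by rw [hE x s hs, one_mul], fun A _ _ a ha => ?_⟩
  refine Cl.ev_eq ((cl_VG c i0).2 ha) fun b hb' => ?_
  rw [hE' b (vg_big hL hb'), ← hΦ b hb' 1 S.one_mem, mul_one]

theorem int_of_inv (hK : {κ : GL (Fin n) Ω | Ker c i0 (S : Set (GL (Fin n) Ω)) κ}.Finite)
    (hb : INV (big c i0 S hL : Set (GL (Fin n) Ω))) {K : Type u} [Field K] [Algebra Ω K]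
    (W : ValuationSubring K) {a : GL (Fin n) K} (ha : a ∈ VG c i0 K)
    (h : ∀ b ∈ inv (S : Set (GL (Fin n) Ω)), ev Ω a b ∈ W) (f : OGL Ω n) : ev Ω a f ∈ W := by
  obtain ⟨J, hJ, hfin, hJK⟩ := exists_kerI hL hK
  obtain ⟨p, hp, hf, hc⟩ := chr_poly hJ f
  have hi : IsIntegral W (ev Ω a f) := by
    refine int_of_coeff _ (hp.map (ev Ω a).toRingHom) (fun j => ?_) ?_
    · obtain ⟨E, hE, hE'⟩ := kext hL hb (p.coeff j) fun A _ _ x κ hκ =>
        hc j A x κ ((hJK A κ).2 hκ)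
      exact ⟨⟨_, h E hE⟩, (hE' K a ha).trans (Polynomial.coeff_map _ _).symm⟩
    · rw [Polynomial.eval_map]
      exact (Polynomial.eval₂_hom (ev Ω a).toRingHom f).trans (by rw [hf, map_zero])
  obtain ⟨w, hw⟩ := IsIntegrallyClosed.isIntegral_iff.1 hi
  rw [← hw]
  exact w.2

theorem inv_core (hK : {κ : GL (Fin n) Ω | Ker c i0 (S : Set (GL (Fin n) Ω)) κ}.Finite)
    (hb : INV (big c i0 S hL : Set (GL (Fin n) Ω))) : INV (S : Set (GL (Fin n) Ω)) := by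
  obtain ⟨J, hJ, hfin, hJK⟩ := exists_kerI hL hK
  intro Δ h1 hΔ
  have hG := isGrp_vI S
  have hm : ∀ (A : Type u) [CommRing A] [Algebra Ω A] (x g : GL (Fin n) A),
      Cl (S : Set (GL (Fin n) Ω)) g → ev Ω (x * g) Δ = ev Ω x Δ * ev Ω g Δ :=
    fun A _ _ x g hg => by
      have := dens2 (S₁ := Set.univ) (S₂ := (S : Set (GL (Fin n) Ω)))
        (fun A _ _ x y => ev Ω (x * y) Δ - ev Ω x Δ * ev Ω y Δ)
        (fun A A' _ _ _ _ φ x y => by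
          rw [map_sub, map_mul φ, map_ev, map_ev, map_ev, MonoidHom.map_mul])
        (fun x _ s hs => sub_eq_zero.2 (hΔ x s hs)) (cl_univ x) hg
      exact sub_eq_zero.1 this
  obtain ⟨N, hN, hord⟩ := chr_ord hJ Δ h1 fun A _ _ κ κ' _ h' => hm A κ κ' ((hJK A κ').1 h').1
  obtain ⟨q, hq⟩ := desc (i0 := i0) hL (ev Ω (ug Ω n)⁻¹ Δ ^ N) fun A _ _ g κ hg hκ => by
    rw [map_pow, map_pow, ev_ev_inv, ev_ev_inv, _root_.mul_inv_rev, hm A _ _ (hG.inv hg), mul_pow,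
      hord A _ (hJ.inv ((hJK A κ).2 hκ)), one_mul]
  obtain ⟨φ, hφ⟩ := exists_pr c (· ≠ i0) q
  have hΦ : ∀ a ∈ VG c i0 Ω, ∀ s ∈ S, ev Ω (a * s) φ = ev Ω s⁻¹ Δ ^ N := by
    intro a ha s hs
    rw [hφ Ω _ (ha.1.mul (hL s hs)), pr_vg_mul ha (hL s hs), ← hq Ω s (cl_of_mem hs), map_pow,
      ev_ev_inv]
  obtain ⟨E, hE, hE'⟩ := hb.ext (S := (S : Set (GL (Fin n) Ω))) (fun s hs => le_big hL hs)
    φ (fun s => ev Ω s⁻¹ Δ ^ N) fun γ hγ s hs => by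
      obtain ⟨a, ha, s0, hs0, rfl⟩ := big_dec hL hγ
      rw [mul_assoc, hΦ a ha _ (S.mul_mem hs0 hs), hΦ a ha _ hs0, _root_.mul_inv_rev,
        hΔ _ _ (S.inv_mem hs0), mul_pow]
  obtain ⟨M, rfl⟩ := Nat.exists_eq_succ_of_ne_zero hN.ne'
  refine ⟨Δ ^ M * E, ?_, fun x s hs => ?_⟩
  · have e := hΦ 1 (VG c i0 Ω).one_mem 1 S.one_mem
    rw [mul_one, inv_one, h1, one_pow] at e
    rw [map_mul, map_pow, h1, one_pow, one_mul, hE' 1 (big c i0 S hL).one_mem, e]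
  · have e : ev Ω s⁻¹ Δ * ev Ω s Δ = 1 := by rw [← hΔ _ s hs, inv_mul_cancel, h1]
    rw [map_mul, map_mul, map_pow, map_pow, hΔ x s hs, hE x s hs]
    calc (ev Ω x Δ * ev Ω s Δ) ^ M * (ev Ω s⁻¹ Δ ^ (M + 1) * ev Ω x E) * ev Ω s Δ
        = ev Ω x Δ ^ M * ev Ω x E * (ev Ω s⁻¹ Δ * ev Ω s Δ) ^ (M + 1) := by ring
      _ = _ := by rw [e, one_pow, mul_one]

end Pool.Agent.GR.AQ
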