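import Pool.Agent.P.MP_c1f06d_ag.g.AqDefs

/-! Density of rational points. -/

open Matrix
open scoped TensorProduct

universe u

namespace Pool.Agent.GR.AQ

open Co

attribute [local irreducible] ev

variable {Ω : Type u} [Field Ω] {n : ℕ}

/-- A natural function of two points that vanishes on `S₁ × S₂` vanishes on the closures. -/
theorem dens2 {S₁ S₂ : Set (GL (Fin n) Ω)}
    (F : ∀ (A : Type u) [CommRing A] [Algebra Ω A], GL (Fin n) A → GL (Fin n) A → A)
    (nat : ∀ (A A' : Type u) [CommRing A] [Algebra Ω A] [CommRing A'] [Algebra Ω A']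
      (φ : A →ₐ[Ω] A') x y, φ (F A x y) = F A' (gm φ x) (gm φ y))
    (h : ∀ s₁ ∈ S₁, ∀ s₂ ∈ S₂, F Ω s₁ s₂ = 0) {A : Type u} [CommRing A] [Algebra Ω A]
    {x y : GL (Fin n) A} (hx : Cl S₁ x) (hy : Cl S₂ y) : F A x y = 0 := by
  have e : ∀ (B : Type u) [CommRing B] [Algebra Ω B] (x y : GL (Fin n) B),
      pm (ev Ω x) (ev Ω y) (F _ (gm (iL Ω _ _) (ug Ω n)) (gm (iR Ω _ _) (ug Ω n))) = F B x y := by
    intro B _ _ x y
    rw [nat, gm_gm, gm_gm, pm_iL, pm_iR, gm_ev_ug, gm_ev_ug]
  let t := F _ (gm (iL Ω A _) x) (gm (iR Ω A _) (ug Ω n))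
  obtain ⟨z, hz⟩ := mem_range_of_ctr ((vI S₂).restrictScalars Ω) t fun φ s₂ hs₂ => by
    have h1 : F A x (cst A s₂) = 0 := by
      have h2 := hx (F _ (ug Ω n) (cst _ s₂)) fun s₁ hs₁ => by
        rw [nat, gm_ev_ug, gm_cst]
        exact h s₁ hs₁ s₂ hs₂
      rwa [nat, gm_ev_ug, gm_cst] at h2
    have h3 : F (A ⊗[Ω] Ω) (gm (iL Ω A Ω) x) (gm (iR Ω A Ω) s₂) = 0 := by
      have h4 := nat _ _ (iL Ω A Ω) x (cst A s₂)
      rw [h1, map_zero, gm_cst] at h4
      rw [Subsingleton.elim (iR Ω A Ω) (Algebra.ofId Ω _)]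
      exact h4.symm
    rw [ctr_map_id, nat, gm_gm, gm_gm, map_iL, map_iR, ← gm_gm, gm_ev_ug, h3, map_zero]
  have h5 : pm (AlgHom.id Ω A) (ev Ω y) t = F A x y := by
    rw [nat, gm_gm, gm_gm, pm_iL, pm_iR, gm_ev_ug, gm_id]
  rw [← h5, ← hz]
  clear hz
  induction z using TensorProduct.induction_on with
  | zero => simp only [map_zero]
  | tmul a b =>
    rw [LinearMap.lTensor_tmul, Algebra.TensorProduct.lift_tmul]
    exact mul_eq_zero_of_right _ (hy _ b.2)
  | add a b ha hb => simp only [map_add, ha, hb, add_zero]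

theorem isGrp_vI (S : Subgroup (GL (Fin n) Ω)) : IsGrp (vI (S : Set (GL (Fin n) Ω))) := by
  refine ⟨fun A _ _ => ?_, fun hx hy f hf => ?_, fun {A} _ _ g hg f hf => ?_⟩
  · have := cl_cst (S := (S : Set (GL (Fin n) Ω))) S.one_mem A
    rwa [MonoidHom.map_one] at this
  · exact dens2 (fun A _ _ x y => ev Ω (x * y) f)
      (fun A A' _ _ _ _ φ x y => by simp only [map_ev, MonoidHom.map_mul])
      (fun s₁ h₁ s₂ h₂ => hf (s₁ * s₂) (S.mul_mem h₁ h₂)) hx hy
  · rw [← ev_ev_inv]
    exact hg _ fun s hs => by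
      rw [ev_ev_inv]
      exact hf _ (S.inv_mem hs)

/-- A point of a nonzero algebra of finite type over an algebraically closed extension, with
integral values. -/
theorem exists_pt (L K R : Type u) [Field L] [Field K] [IsAlgClosed K] [Algebra L K] [CommRing R]
    [Algebra L R] [Algebra.FiniteType L R] [Nontrivial R] :
    ∃ φ : R →ₐ[L] K, ∀ r, IsIntegral L (φ r) := by
  obtain ⟨m, hm⟩ := Ideal.exists_maximal R
  let := Ideal.Quotient.field m
  have : Module.Finite L (R ⧸ m) := finite_of_finite_type_of_isJacobsonRing L (R ⧸ m)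
  let e : (R ⧸ m) →ₐ[L] K := IsAlgClosed.lift
  exact ⟨e.comp (Ideal.Quotient.mkₐ L m), fun r =>
    (Algebra.IsIntegral.isIntegral (Ideal.Quotient.mk m r)).map e⟩

/-- Points with values in an algebraically closed field lift along injective integral maps. -/
theorem lift_integral {C' C K : Type u} [CommRing C'] [CommRing C] [Field K] [IsAlgClosed K]
    [Algebra C' C] [Algebra.IsIntegral C' C] (hinj : Function.Injective (algebraMap C' C))
    (φ : C' →+* K) : ∃ ψ : C →+* K, ψ.comp (algebraMap C' C) = φ := by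
  have := RingHom.ker_isPrime φ
  obtain ⟨Q, -, hQ, e⟩ := Ideal.exists_ideal_over_prime_of_isIntegral (S := C) (RingHom.ker φ) ⊥
    (fun x hx => by
      rw [(injective_iff_map_eq_zero _).1 hinj x hx]
      exact Ideal.zero_mem _)
  have hk : ∀ a ∈ Q.comap (algebraMap C' C), φ a = 0 := fun a ha => by rwa [e] at ha
  let _ : Algebra (C' ⧸ Q.comap (algebraMap C' C)) K := (Ideal.Quotient.lift _ φ hk).toAlgebra
  have : FaithfulSMul (C' ⧸ Q.comap (algebraMap C' C)) K :=
    (faithfulSMul_iff_algebraMap_injective _ _).2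
      (RingHom.lift_injective_of_ker_le_ideal _ hk e.ge)
  have : FaithfulSMul (C' ⧸ Q.comap (algebraMap C' C)) (C ⧸ Q) :=
    (faithfulSMul_iff_algebraMap_injective _ _).2 Ideal.algebraMap_quotient_injective
  let l : (C ⧸ Q) →ₐ[C' ⧸ Q.comap (algebraMap C' C)] K := IsAlgClosed.lift
  exact ⟨l.toRingHom.comp (Ideal.Quotient.mk Q), RingHom.ext fun a =>
    l.commutes (Ideal.Quotient.mk _ a)⟩

variable [IsAlgClosed Ω]

theorem null_nil {R : Type u} [CommRing R] [Algebra Ω R] [Algebra.FiniteType Ω R] {r : R}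
    (h : ∀ φ : R →ₐ[Ω] Ω, φ r = 0) : IsNilpotent r := by
  have : IsJacobsonRing R := isJacobsonRing_of_finiteType (A := Ω)
  have h1 : r ∈ (nilradical R).jacobson := Ideal.mem_sInf.2 fun M hM => by
    obtain ⟨t, ht⟩ := point_of_max (Ω := Ω) M hM.2
    exact (ht r).1 (h t)
  rwa [IsJacobsonRing.out inferInstance (I := nilradical R) (Ideal.radical_isRadical _)] at h1

/-- A radical ideal is the ideal of its rational points. -/
theorem vI_vz {I : Ideal (OGL Ω n)} (hI : I.IsRadical) : vI {g | Vz I g} = I := by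
  refine le_antisymm (fun f hf => ?_) fun f hf g hg => hg f hf
  have := (Ideal.isRadical_iff_quotient_reduced I).1 hI
  refine Ideal.Quotient.eq_zero_iff_mem.1 (null_nil (Ω := Ω) fun φ => ?_).eq_zero
  rw [← ev_uq, map_ev]
  exact hf _ ((vz_uq I).map φ)

/-- A proper ideal has a rational zero. -/
theorem exists_vz {I : Ideal (OGL Ω n)} (hI : I ≠ ⊤) : ∃ g : GL (Fin n) Ω, Vz I g := by
  have := Ideal.Quotient.nontrivial_iff.2 hI
  obtain ⟨φ⟩ := ns_point (Ω := Ω) (OGL Ω n ⧸ I)
  exact ⟨_, (vz_uq I).map φ⟩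

theorem eq_zero_of_ev {f : OGL Ω n} (h : ∀ x : GL (Fin n) Ω, ev Ω x f = 0) : f = 0 := by
  have : IsReduced (OGL Ω n) :=
    isReduced_localizationPreserves (Submonoid.powers (mvPolynomialX (Fin n) (Fin n) Ω).det) _
      inferInstance
  refine (null_nil (Ω := Ω) fun φ => ?_).eq_zero
  rw [← ev_gm_ug φ]
  exact h _

theorem cl_univ {A : Type u} [CommRing A] [Algebra Ω A] (g : GL (Fin n) A) :
    Cl (Set.univ : Set (GL (Fin n) Ω)) g := by
  intro f hf
  rw [eq_zero_of_ev (f := f) fun x => hf x trivial, map_zero]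

theorem cl_VG {ι : Type} (c : Fin n → ι) (i0 : ι) {A : Type u} [CommRing A] [Algebra Ω A]
    {g : GL (Fin n) A} : Cl (VG c i0 Ω : Set (GL (Fin n) Ω)) g ↔ g ∈ VG c i0 A := by
  classical
  constructor
  · intro h
    refine mem_VG.2 ⟨h.inL fun s hs => hs.1, fun i j hi => ?_⟩
    have := h.ev_eq (f := ug Ω n i j) (f' := (1 : Mat n (OGL Ω n)) i j) fun s hs => by
      rw [ev_ug_apply, (mem_VG.1 hs).2 i j hi, one_apply, one_apply, apply_ite (ev Ω s), map_one,
        map_zero]
    rwa [ev_ug_apply, one_apply, apply_ite (ev Ω g), map_one, map_zero, ← one_apply] at this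
  intro h f hf
  let X : Mat n (MvPolynomial (Fin n × Fin n) Ω) := of fun i j =>
    if c i = i0 ∧ c j = i0 then MvPolynomial.X (i, j) else (1 : Mat n _) i j
  have hX : ∀ i j, X i j = if c i = i0 ∧ c j = i0 then MvPolynomial.X (i, j) else (1 : Mat n _) i j :=
    fun _ _ => rfl
  let T := Localization.Away X.det
  have : IsReduced T := isReduced_localizationPreserves (Submonoid.powers X.det) _ inferInstance
  have : Algebra.FiniteType Ω T :=
    Algebra.FiniteType.trans (S := MvPolynomial (Fin n × Fin n) Ω) inferInstance inferInstance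
  let a : GL (Fin n) T := GeneralLinearGroup.mk'' ((algebraMap _ T).mapMatrix X) (by
    rw [← RingHom.map_det]
    exact IsLocalization.Away.algebraMap_isUnit _)
  have ha : ∀ i j, (a : Mat n T) i j = algebraMap _ T (X i j) := fun _ _ => rfl
  have h1 : ∀ i j, ¬ (c i = i0 ∧ c j = i0) → (a : Mat n T) i j = (1 : Mat n T) i j :=
    fun i j e => by
      rw [ha, hX, if_neg e, one_apply, one_apply, apply_ite (algebraMap _ T), map_one,
        map_zero]
  have h2 : a ∈ VG c i0 T := mem_VG.2 ⟨fun i j e => by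
    rw [h1 i j fun e' => e (e'.1.trans e'.2.symm), InL.one c i j e],
    fun i j e => h1 i j fun e' => e e'.1⟩
  have h3 : ev Ω a f = 0 := (null_nil (Ω := Ω) fun φ => by
    rw [map_ev]
    exact hf _ (VG_map φ h2)).eq_zero
  let p : MvPolynomial (Fin n × Fin n) Ω →ₐ[Ω] A :=
    MvPolynomial.aeval fun q => (g : Mat n A) q.1 q.2
  have h4 : p.mapMatrix X = (g : Mat n A) := by
    ext i j
    rw [AlgHom.mapMatrix_apply, map_apply, hX]
    split_ifs with e
    · exact MvPolynomial.aeval_X _ _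
    · rw [one_apply, apply_ite p, map_one, map_zero, ← one_apply]
      by_cases e' : c i = i0
      · have e2 : c i ≠ c j := fun e2 => e ⟨e', e2 ▸ e'⟩
        rw [h.1 i j e2, InL.one c i j e2]
      · exact ((mem_VG.1 h).2 i j e').symm
  let ψ : T →ₐ[Ω] A := IsLocalization.Away.liftAlgHom X.det (f := p) (by
    rw [AlgHom.map_det, h4]
    exact (isUnit_iff_isUnit_det _).1 g.isUnit)
  have h5 : gm ψ a = g := by
    ext i j
    rw [gm_apply, ha, IsLocalization.Away.liftAlgHom_apply, IsLocalization.Away.lift_eq]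
    exact congrFun (congrFun h4 i) j
  rw [← h5, ← map_ev, h3, map_zero]

/-- Invariance holds over every ring. -/
theorem inv_all {S : Set (GL (Fin n) Ω)} {b : OGL Ω n} (hb : b ∈ inv S) {A : Type u} [CommRing A]
    [Algebra Ω A] (x : GL (Fin n) A) {g : GL (Fin n) A} (hg : Cl S g) :
    ev Ω (x * g) b = ev Ω x b := by
  have h := dens2 (fun A _ _ x y => ev Ω (x * y) b - ev Ω x b)
    (fun A A' _ _ _ _ φ x y => by simp only [map_sub, map_ev, MonoidHom.map_mul])
    (fun x _ s hs => by simp only [hb x s hs, sub_self]) (cl_univ x) hg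
  exact sub_eq_zero.1 h

/-- An algebra of finite type with finitely many rational points is finite. -/
theorem finite_of_pts {I : Ideal (OGL Ω n)} (h : {g : GL (Fin n) Ω | Vz I g}.Finite) :
    Module.Finite Ω (OGL Ω n ⧸ I) := by
  have : IsJacobsonRing (OGL Ω n ⧸ I) := isJacobsonRing_of_finiteType (A := Ω)
  have hf : {M : Ideal (OGL Ω n ⧸ I) | M.IsMaximal}.Finite := by
    have := h.to_subtype
    refine (Set.finite_range fun g : {g : GL (Fin n) Ω | Vz I g} =>
      RingHom.ker (Vz.lift g.2)).subset fun M hM => ?_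
    obtain ⟨t, ht⟩ := point_of_max (Ω := Ω) M hM
    refine ⟨⟨_, (vz_uq I).map t⟩, Ideal.ext fun a => ?_⟩
    obtain ⟨a, rfl⟩ := Ideal.Quotient.mk_surjective a
    rw [← ht, RingHom.mem_ker, Vz.lift_mk, ← map_ev, ev_uq]
  refine (Module.finite_iff_krullDimLE_zero Ω _).2 (Ring.krullDimLE_zero_iff.2 fun P hP => ?_)
  have h1 : sInf {M | P ≤ M ∧ M.IsMaximal} = P := IsJacobsonRing.out inferInstance hP.isRadical
  have h2 : {M | P ≤ M ∧ M.IsMaximal}.Finite := hf.subset fun _ h => h.2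
  obtain ⟨M, hM, hle⟩ := (hP.inf_le' (s := h2.toFinset) (f := id)).1 (by
    rw [Finset.inf_id_eq_sInf, h2.coe_toFinset, h1])
  have hM := h2.mem_toFinset.1 hM
  rw [le_antisymm hM.1 hle]
  exact hM.2

omit [IsAlgClosed Ω] in
/-- A function of the projection is a function. -/
theorem exists_pr {ι : Type} (c : Fin n → ι) (T : ι → Prop) (q : OGL Ω n) : ∃ q' : OGL Ω n,
    ∀ (A : Type u) [CommRing A] [Algebra Ω A] (g : GL (Fin n) A), InL c (g : Mat n A) →
      ev Ω g q' = ev Ω (pr c T g) q := by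
  let I : Ideal (OGL Ω n) := Ideal.span {f | ∃ i j, c i ≠ c j ∧ ug Ω n i j = f}
  have h1 : InL c (uq I : Mat n (OGL Ω n ⧸ I)) := fun i j e =>
    (Ideal.Quotient.eq_zero_iff_mem (I := I) (a := ug Ω n i j)).2
      (Ideal.subset_span ⟨i, j, e, rfl⟩)
  obtain ⟨q', hq⟩ := Ideal.Quotient.mk_surjective (ev Ω (pr c T (uq I)) q)
  refine ⟨q', fun A _ _ g hg => ?_⟩
  have h2 : Vz I g := fun f hf => (Ideal.span_le (I := RingHom.ker (ev Ω g))).2 (by
    rintro _ ⟨i, j, e, rfl⟩
    exact (ev_ug_apply g i j).trans (hg i j e)) hf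
  rw [← h2.lift_mk, hq, map_ev, gm_pr _ _ h1, h2.gm_lift]

end Pool.Agent.GR.AQ
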