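import Pool.Agent.P.MP_c1f06d_ag.g.AqKer
import Pool.Agent.P.MP_c1f06d_ag.g.AqKem
import Pool.Agent.P.MP_c1f06d_ag.g.AqUp

/-! The ring of invariants has no stable ideal. -/

open Matrix
open scoped TensorProduct

universe u

namespace Pool.Agent.GR.AQ

open Co

attribute [local irreducible] ev

/-- A point with integral values and prescribed values on a subring whose fraction field is
integral. -/
theorem exists_int_pt {Ω D K : Type u} [Field Ω] [CommRing D] [IsDomain D] [Field K]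
    [IsAlgClosed K] [Algebra Ω D] [Algebra.FiniteType Ω D] [Algebra Ω K] (j : D →ₐ[Ω] K)
    (hj : Function.Injective j) (B : Subalgebra Ω D) (W : ValuationSubring K)
    (h : ∀ b ∈ B, j b ∈ W ∧ (j b)⁻¹ ∈ W) :
    ∃ ψ : D →ₐ[Ω] K, (∀ b ∈ B, ψ b = j b) ∧ ∀ f, ψ f ∈ W := by
  let L := FractionRing B
  let l : L →+* K := IsFractionRing.lift (g := j.toRingHom.comp B.val.toRingHom)
    (hj.comp Subtype.val_injective)
  have hl : ∀ b : B, l (algebraMap B L b) = j b := fun b => IsFractionRing.lift_algebraMap _ b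
  have hW : ∀ z, l z ∈ W := fun z => by
    obtain ⟨a, b, -, rfl⟩ := IsFractionRing.div_surjective B z
    rw [map_div₀, hl, hl, div_eq_mul_inv]
    exact W.mul_mem _ _ (h _ a.2).1 (h _ b.2).2
  let _ : Algebra L K := l.toAlgebra
  let _ : Algebra L W := (l.codRestrict W hW).toAlgebra
  have : IsScalarTower L W K := IsScalarTower.of_algebraMap_eq fun _ => rfl
  have : Algebra.FiniteType B D := Algebra.FiniteType.of_restrictScalars_finiteType Ω B D
  have : Nontrivial (L ⊗[B] D) :=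
    Algebra.TensorProduct.nontrivial_of_algebraMap_injective_of_isDomain B L D
      (IsFractionRing.injective B L) Subtype.val_injective
  obtain ⟨φ, hφ⟩ := exists_pt L K (L ⊗[B] D)
  have e : ∀ b : B, φ (1 ⊗ₜ (b : D)) = j b := fun b => by
    rw [← hl]
    exact (congrArg φ ((Algebra.TensorProduct.includeRight (R := B) (A := L) (B := D)).commutes
      b)).trans (φ.commutes (algebraMap B L b))
  refine ⟨⟨φ.toRingHom.comp (Algebra.TensorProduct.includeRight (R := B) (A := L)).toRingHom,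
    fun r => (e ⟨_, B.algebraMap_mem r⟩).trans (j.commutes r)⟩, fun b hb => e ⟨b, hb⟩, fun f => ?_⟩
  obtain ⟨y, hy⟩ := IsIntegrallyClosed.isIntegral_iff.1
    ((hφ (1 ⊗ₜ f)).tower_top : IsIntegral W (φ (1 ⊗ₜ f)))
  exact hy ▸ y.2

variable {Ω : Type u} [Field Ω] [IsAlgClosed Ω] {n : ℕ} {ι : Type} {c : Fin n → ι} {i0 : ι}
  {S : Subgroup (GL (Fin n) Ω)}

omit [IsAlgClosed Ω] in
theorem lt_lt (y z : GL (Fin n) Ω) (f : OGL Ω n) : lt y (lt z f) = lt (z * y) f := by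
  rw [lt, ev_lt, lt, MonoidHom.map_mul, mul_assoc]

/-- Values in `W` or in its maximal ideal are kept under left multiplication by an integral
point. -/
theorem ev_int {K : Type u} [Field K] [Algebra Ω K] (W : ValuationSubring K)
    {g : GL (Fin n) K} (hg : ∀ f, ev Ω g f ∈ W) (x : GL (Fin n) K) (a : OGL Ω n) :
    ((∀ y, ev Ω x (lt y a) ∈ W) → ev Ω (g⁻¹ * x) a ∈ W) ∧
      ((∀ y, ev Ω x (lt y a) ∈ W.nonunits) → ev Ω (g⁻¹ * x) a ∈ W.nonunits) := by
  obtain ⟨m, b, f, h1, h2⟩ := exists_sum a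
  have hc : ∀ t, algebraMap Ω K t ∈ W := fun t => by
    rw [← (ev Ω g).commutes]
    exact hg _
  have hn : ∀ w ∈ W, ∀ z ∈ W.nonunits, w * z ∈ W.nonunits := fun w hw z hz => by
    rw [W.mem_nonunits_iff] at hz ⊢
    rw [map_mul]
    exact (mul_le_of_le_one_left' ((W.valuation_le_one_iff w).2 hw)).trans_lt hz
  rw [h2]
  refine ⟨fun h => sum_mem fun i _ => W.mul_mem _ _ (ev_ev_inv g (b i) ▸ hg _) ?_,
    fun h => sum_mem fun i _ => hn _ (ev_ev_inv g (b i) ▸ hg _) _ ?_⟩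
  · exact h1
      { W.toSubring.toAddSubgroup.toAddSubmonoid.comap (ev Ω x) with
        smul_mem' := fun t f hf => by
          show ev Ω x (t • f) ∈ W
          rw [map_smul, Algebra.smul_def]
          exact W.mul_mem _ _ (hc t) hf } h i
  · exact h1
      { W.nonunits.toAddSubgroup.toAddSubmonoid.comap (ev Ω x) with
        smul_mem' := fun t f hf => by
          show ev Ω x (t • f) ∈ W.nonunits
          rw [map_smul, Algebra.smul_def]
          exact hn _ (hc t) _ hf } h i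

theorem simple_core (hL : ∀ s ∈ S, InL c (s : Mat n Ω))
    (hirr : Irr c (· ≠ i0) (S : Set (GL (Fin n) Ω)))
    (hK : {κ : GL (Fin n) Ω | Ker c i0 (S : Set (GL (Fin n) Ω)) κ}.Finite) {K : Type u} [Field K]
    [IsAlgClosed K] [Algebra Ω K] (j : OGL Ω n →ₐ[Ω] K) (hj : Function.Injective j) :
    SIMPLE (S : Set (GL (Fin n) Ω)) := by
  have hL2 : ∀ s ∈ big c i0 S hL, InL c (s : Mat n Ω) := fun s hs => hs.1
  have hb := inv_irr hL2 (irr_big hL hirr)
  refine fun a ha h0 P hP => by_contra fun hne => ?_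
  have := Up.dom (Ω := Ω) (n := n)
  obtain ⟨x, hx⟩ : ∃ x : GL (Fin n) K, ∀ f, ev Ω x f = j f :=
    ⟨gm j (ug Ω n), fun f => by rw [ev_gm_ug]⟩
  have hle : inv (big c i0 S hL : Set (GL (Fin n) Ω)) ≤ inv (S : Set (GL (Fin n) Ω)) :=
    fun b hb x s hs => hb x s (le_big hL hs)
  obtain ⟨l, hl⟩ : ∃ l : GL (Fin n) Ω → inv (S : Set (GL (Fin n) Ω)) →+* inv (S : Set (GL (Fin n) Ω)),
      ∀ y b, (l y b : OGL Ω n) = lt y b := ⟨fun y => ((lt y).toRingHom.comp
        (inv _).val.toRingHom).codRestrict _ fun b => lt_mem_inv y b.2, fun _ _ => rfl⟩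
  obtain ⟨I, hIa, hIP, hI⟩ : ∃ I : Ideal (inv (S : Set (GL (Fin n) Ω))), (∀ y, l y ⟨a, ha⟩ ∈ I) ∧
      I ≤ P ∧ ∀ y, I ≤ I.comap (l y) := by
    refine ⟨Ideal.span (Set.range fun y => l y ⟨a, ha⟩), fun y => Ideal.subset_span ⟨y, rfl⟩,
      Ideal.span_le.2 ?_, fun y => Ideal.span_le.2 ?_⟩
    · rintro _ ⟨y, rfl⟩
      exact Set.mem_of_eq_of_mem (Subtype.ext (hl y _)) (hP y)
    · rintro _ ⟨z, rfl⟩
      exact Ideal.subset_span ⟨z * y, Subtype.ext (by rw [hl, hl, hl, lt_lt])⟩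
  have hv : ∀ p : Ideal (inv (S : Set (GL (Fin n) Ω))), p.IsPrime → ∃ W : ValuationSubring K,
      ∀ b : inv (S : Set (GL (Fin n) Ω)), ev Ω x b.1 ∈ W ∧ (ev Ω x b.1 ∈ W.nonunits ↔ b ∈ p) :=
    fun p _ => exists_val ((ev Ω x).toRingHom.comp (inv _).val.toRingHom) p fun b hb => by
      rw [show b = 0 from Subtype.ext (hj ((hx b).symm.trans (hb.trans (map_zero j).symm)))]
      exact p.zero_mem
  by_cases h2 : ∃ b ∈ I, (b : OGL Ω n) ∈ inv (big c i0 S hL : Set (GL (Fin n) Ω)) ∧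
      (b : OGL Ω n) ≠ 0
  · obtain ⟨b, hbI, hb2, hb0⟩ := h2
    obtain ⟨p, hp, hPp⟩ := Ideal.exists_le_maximal P hne
    obtain ⟨W, hW⟩ := hv p hp.isPrime
    obtain ⟨y, hy⟩ := closed_irr hL2 (irr_big hL hirr) W x (fun b hb => (hW ⟨b, hle hb⟩).1) hb2 hb0
    rw [← hl] at hy
    exact hy ((hW _).2.2 (hPp (hIP (hI y hbI))))
  let M : Submonoid (inv (S : Set (GL (Fin n) Ω))) :=
    { carrier := {b | (b : OGL Ω n) ∈ inv (big c i0 S hL : Set (GL (Fin n) Ω)) ∧ (b : OGL Ω n) ≠ 0}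
      one_mem' := ⟨one_mem _, one_ne_zero⟩
      mul_mem' := fun h h' => ⟨mul_mem h.1 h'.1, mul_ne_zero h.2 h'.2⟩ }
  obtain ⟨p, hp, hIp, hd⟩ := I.exists_le_prime_disjoint M
    (Set.disjoint_left.2 fun b h h' => h2 ⟨b, h, h'⟩)
  obtain ⟨W, hW⟩ := hv p hp
  obtain ⟨ψ, h3, h4⟩ := exists_int_pt j hj (inv (big c i0 S hL : Set (GL (Fin n) Ω))) W
    fun b hb => by
      rw [← hx]
      refine ⟨(hW ⟨b, hle hb⟩).1, by_contra fun e => ?_⟩
      refine Set.disjoint_left.1 hd ((hW ⟨b, hle hb⟩).2.1 (W.mem_nonunits_iff_or.2 (Or.inr e)))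
        ⟨hb, fun e' : b = 0 => e ?_⟩
      rw [e', map_zero, _root_.inv_zero]
      exact W.zero_mem
  obtain ⟨w, hw⟩ : ∃ w : GL (Fin n) K, ∀ f, ev Ω w f = ψ f :=
    ⟨gm ψ (ug Ω n), fun f => by rw [ev_gm_ug]⟩
  have hk : ∀ f, ev Ω w f ∈ W := fun f => (hw f).symm ▸ h4 f
  obtain ⟨a', ha', g, hg, e⟩ := lift_big hL hK ((INV.sep hb).coset (g := w) (g' := x)
    fun b hb => by rw [hw, h3 b hb, hx])
  have h6 : ∀ b ∈ inv (S : Set (GL (Fin n) Ω)), ev Ω a' b = ev Ω (w⁻¹ * x) b := fun b hb => by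
    rw [e, inv_all hb a' hg]
  have h7 := int_of_inv hL hK hb W ha' fun b hb => by
    rw [h6 b hb]
    exact (ev_int W hk _ b).1 fun y => (hW ⟨_, lt_mem_inv y hb⟩).1
  refine h0 (eq_zero_of_ev fun y => ?_)
  have h9 := (ev_int W h7 a' (lt y a)).2 fun z => by
    rw [lt_lt, h6 _ (lt_mem_inv _ ha)]
    refine (ev_int W hk _ _).2 fun v => ?_
    have h8 := (hW _).2.2 (hIp (hIa (y * z * v)))
    rwa [hl, ← lt_lt] at h8
  rw [inv_mul_cancel, ev_lt, mul_one, ev_cst, W.mem_nonunits_iff_or, map_eq_zero, ← map_inv₀,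
    ← (ev Ω a').commutes] at h9
  exact h9.resolve_right fun h => h (h7 _)

theorem good_core (hL : ∀ s ∈ S, InL c (s : Mat n Ω))
    (hirr : Irr c (· ≠ i0) (S : Set (GL (Fin n) Ω)))
    (hK : {κ : GL (Fin n) Ω | Ker c i0 (S : Set (GL (Fin n) Ω)) κ}.Finite) :
    Good (S : Set (GL (Fin n) Ω)) :=
  have := Up.dom (Ω := Ω) (n := n)
  ⟨inv_core hL hK (inv_irr (fun _ hs => hs.1) (irr_big hL hirr)), simple_core hL hirr hK
    (IsScalarTower.toAlgHom Ω _ (AlgebraicClosure (FractionRing (OGL Ω n))))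
    ((algebraMap (FractionRing (OGL Ω n)) _).injective.comp (IsFractionRing.injective _ _))⟩

end Pool.Agent.GR.AQ
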