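import Pool.Agent.P.MP_c1f06d_ag.g.AqNull

/-! Smoothness by homogeneity. -/

open Matrix
open scoped TensorProduct

universe u

namespace Pool.Agent.GR.AQ

open Co

variable {Ω : Type u} [Field Ω] [IsAlgClosed Ω] {n : ℕ}

/-- An algebra that is smooth at one prime and whose automorphisms are transitive on the rational
points is smooth. -/
theorem sm_homog {R A : Type u} [CommRing R] [CommRing A] [Algebra Ω A] [Algebra R A]
    [Algebra.FiniteType Ω A] [Algebra.FinitePresentation R A]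
    (hp : ∃ p, p ∈ Algebra.smoothLocus R A)
    (h : ∀ x y : A →ₐ[Ω] Ω, ∃ (e : A ≃+* A) (r : R →+* R), Function.Bijective r ∧
      (∀ c, e (algebraMap R A (r c)) = algebraMap R A c) ∧ ∀ a, x a = y (e a)) :
    Algebra.Smooth R A := by
  obtain ⟨p, hp⟩ := hp
  obtain ⟨_, ⟨f, rfl⟩, hpf, hf⟩ :=
    PrimeSpectrum.isTopologicalBasis_basic_opens.exists_subset_of_mem_open hp
      Algebra.isOpen_smoothLocus
  obtain ⟨x, hx⟩ : ∃ x : A →ₐ[Ω] Ω, x f ≠ 0 := by
    by_contra hc
    have hn : IsNilpotent f := null_nil (Ω := Ω) fun φ => by_contra fun e => hc ⟨φ, e⟩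
    exact hpf (nilradical_le_prime p.asIdeal hn)
  refine ⟨Algebra.smoothLocus_eq_univ_iff.1 ?_, inferInstance⟩
  by_contra hc
  obtain ⟨I, hI⟩ := (PrimeSpectrum.isClosed_iff_zeroLocus_ideal _).1
    (Algebra.isOpen_smoothLocus (R := R) (A := A)).isClosed_compl
  have hne : I ≠ ⊤ := by
    rintro rfl
    rw [Submodule.top_coe, PrimeSpectrum.zeroLocus_univ, Set.compl_empty_iff] at hI
    exact hc hI
  have := Ideal.Quotient.nontrivial_iff.2 hne
  obtain ⟨φ, -⟩ := exists_pt Ω Ω (A ⧸ I)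
  obtain ⟨e, r, hr, he, hy⟩ := h x (φ.comp (Ideal.Quotient.mkₐ Ω I))
  let y := φ.comp (Ideal.Quotient.mkₐ Ω I)
  have hP : (RingHom.ker x).IsPrime := RingHom.ker_isPrime _
  have hQ : (RingHom.ker y).IsPrime := RingHom.ker_isPrime _
  have h1 : (algebraMap R (Localization.AtPrime (RingHom.ker x))).FormallySmooth :=
    RingHom.formallySmooth_algebraMap.2 (hf (a := ⟨RingHom.ker x, hP⟩) hx)
  have hk : RingHom.ker x = (RingHom.ker y).comap e := by
    ext a
    rw [Ideal.mem_comap, RingHom.mem_ker, RingHom.mem_ker, hy]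
  have h2 := ((RingHom.FormallySmooth.of_bijective hr).comp h1).comp
    (RingHom.FormallySmooth.of_bijective
      (f := (Localization.localRingEquiv _ _ e hk).toRingHom)
      (Localization.localRingEquiv _ _ e hk).bijective)
  have h3 : (Localization.localRingEquiv _ _ e hk).toRingHom.comp
      ((algebraMap R (Localization.AtPrime (RingHom.ker x))).comp r) = algebraMap R _ := by
    ext c
    rw [IsScalarTower.algebraMap_apply R A, ← he c]
    exact Localization.localRingHom_to_map _ _ (e : A →+* A) hk _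
  rw [h3] at h2
  have h4 : (⟨RingHom.ker y, hQ⟩ : PrimeSpectrum A) ∈ (Algebra.smoothLocus R A)ᶜ := by
    rw [hI]
    intro a ha
    change φ (Ideal.Quotient.mk I a) = 0
    rw [Ideal.Quotient.eq_zero_iff_mem.2 ha, map_zero]
  exact h4 (RingHom.formallySmooth_algebraMap.1 h2)

omit [IsAlgClosed Ω] in
theorem sm_ext {I : Ideal (OGL Ω n)} {A : Type u} [CommRing A] [Algebra Ω A]
    {f f' : (OGL Ω n ⧸ I) →ₐ[Ω] A} (h : gm f (uq I) = gm f' (uq I)) : f = f' := by
  rw [uq, gm_gm, gm_gm] at h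
  exact Ideal.Quotient.algHom_ext Ω (ogl_ext h)

theorem sm_fld (K : Type u) [CommRing K] [Algebra Ω K] [Algebra.EssFiniteType Ω K] [IsReduced K]
    [IsLocalRing K] [Ring.KrullDimLE 0 K] : Algebra.FormallySmooth Ω K := by
  let := (Ring.KrullDimLE.isField_of_isReduced (R := K)).toField
  exact Algebra.FormallySmooth.of_perfectField

/-- The reduced closure of a subgroup is smooth. -/
theorem smooth_vI (S : Subgroup (GL (Fin n) Ω)) :
    Algebra.Smooth Ω (OGL Ω n ⧸ vI (S : Set (GL (Fin n) Ω))) := by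
  have hG := isGrp_vI S
  set I := vI (S : Set (GL (Fin n) Ω)) with hI
  have : Algebra.FinitePresentation Ω (OGL Ω n ⧸ I) :=
    Algebra.FinitePresentation.of_finiteType.1 inferInstance
  refine sm_homog (Ω := Ω) ?_ fun x y => ?_
  · have : Nontrivial (OGL Ω n ⧸ I) := (hG.one Ω).lift.toRingHom.domain_nontrivial
    have : IsReduced (OGL Ω n ⧸ I) := (Ideal.isRadical_iff_quotient_reduced I).1 <| by
      rintro f ⟨m, hm⟩ s hs
      have := hm s hs
      rw [map_pow] at this
      exact IsNilpotent.eq_zero ⟨m, this⟩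
    obtain ⟨q, hq⟩ := Ideal.nonempty_minimalPrimes (I := (⊥ : Ideal (OGL Ω n ⧸ I))) bot_ne_top
    have : q.IsPrime := hq.1.1
    have := Ring.KrullDimLE.of_isLocalization q hq (Localization.AtPrime q)
    exact ⟨⟨q, inferInstance⟩, sm_fld (Localization.AtPrime q)⟩
  · have hv : ∀ {z : GL (Fin n) Ω}, Vz I z → Vz I (cst (OGL Ω n ⧸ I) z * uq I) := fun hz =>
      hG.mul (hz.map _) (vz_uq I)
    have hz : Vz I (gm x (uq I) * (gm y (uq I))⁻¹) :=
      hG.mul ((vz_uq I).map x) (hG.inv ((vz_uq I).map y))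
    have hc : ∀ {z z' : GL (Fin n) Ω} (h : Vz I z) (h' : Vz I z'), z' * z = 1 →
        (hv h).lift.comp (hv h').lift = AlgHom.id Ω _ := fun h h' e => sm_ext <| by
      rw [← gm_gm, Vz.gm_lift, MonoidHom.map_mul, gm_cst, Vz.gm_lift, ← mul_assoc,
        ← MonoidHom.map_mul, e, MonoidHom.map_one, one_mul, gm_id]
    refine ⟨(AlgEquiv.ofAlgHom (hv hz).lift (hv (hG.inv hz)).lift
      (hc hz (hG.inv hz) (inv_mul_cancel _)) (hc (hG.inv hz) hz (mul_inv_cancel _))).toRingEquiv,
      RingHom.id Ω, Function.bijective_id, fun c => (hv hz).lift.commutes c, fun a => ?_⟩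
    have : x = y.comp (hv hz).lift := sm_ext <| by
      rw [← gm_gm, Vz.gm_lift, MonoidHom.map_mul, gm_cst, cst_self, inv_mul_cancel_right]
    exact DFunLike.congr_fun this a

/-- Generic smoothness from the lifting property of a torsor. -/
theorem sm_gen {B D : Type u} [CommRing B] [CommRing D] [IsDomain B] [IsDomain D] [Algebra B D]
    [FaithfulSMul B D] [Algebra.FinitePresentation B D]
    (H : ∀ (Q : Type u) [CommRing Q] [Algebra B Q] (I : Ideal Q), I ^ 2 = ⊥ → (D →ₐ[B] Q) →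
      ∀ f : D →ₐ[B] Q ⧸ I, ∃ e : D →ₐ[B] Q, (Ideal.Quotient.mkₐ B I).comp e = f) :
    ∃ p, p ∈ Algebra.smoothLocus B D := by
  have key : ∀ (T : Type u) [CommRing T] [Algebra B T], (D →ₐ[B] T) →
      Algebra.FormallySmooth T (T ⊗[B] D) := fun T _ _ j => by
    refine Algebra.FormallySmooth.of_comp_surjective fun Q _ _ I hI f => ?_
    let : Algebra B Q := ((algebraMap T Q).comp (algebraMap B T)).toAlgebra
    have : IsScalarTower B T Q := IsScalarTower.of_algebraMap_eq' rfl
    obtain ⟨e, he⟩ := H Q I hI ((IsScalarTower.toAlgHom B T Q).comp j)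
      ((f.restrictScalars B).comp Algebra.TensorProduct.includeRight)
    exact ⟨Algebra.TensorProduct.lift (Algebra.ofId T Q) e fun _ _ => Commute.all _ _,
      Algebra.TensorProduct.ext (Subsingleton.elim _ _) (AlgHom.ext fun d => by
        simpa using DFunLike.congr_fun he d)⟩
  have key' : ∀ (L T : Type u) [CommRing L] [CommRing T] [Algebra B L] [Algebra B T] [Algebra L T]
      [IsScalarTower B L T], (D →ₐ[B] T) → Algebra.Smooth T (T ⊗[L] (L ⊗[B] D)) :=
    fun L T _ _ _ _ _ _ j =>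
      have := key T j
      ⟨.of_equiv (Algebra.TensorProduct.cancelBaseChange B L T T D).symm, inferInstance⟩
  let L := FractionRing B
  let E := L ⊗[B] D
  let : Algebra D E := Algebra.TensorProduct.rightAlgebra
  have : IsDomain E := IsLocalization.isDomain_of_le_nonZeroDivisors E
    (algebraMapSubmonoid_le_nonZeroDivisors_of_faithfulSMul D (le_refl (nonZeroDivisors B)))
  have : Algebra.Smooth E (E ⊗[L] E) := key' L E Algebra.TensorProduct.includeRight
  have : Algebra.Smooth L E := .of_smooth_tensorProduct_of_faithfullyFlat E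
  have : Algebra.FormallySmooth B L := .of_isLocalization (nonZeroDivisors B)
  have : Algebra.FormallySmooth B E := .comp B L E
  have := IsLocalization.isLocalization_isLocalization_atPrime_isLocalization
    (Algebra.algebraMapSubmonoid D (nonZeroDivisors B)) (Localization.AtPrime (⊥ : Ideal E))
    (⊥ : Ideal E)
  exact ⟨⟨(⊥ : Ideal E).comap (algebraMap D E), inferInstance⟩,
    Algebra.FormallySmooth.of_equiv (A := Localization.AtPrime (⊥ : Ideal E))
      ((IsLocalization.algEquiv ((⊥ : Ideal E).comap (algebraMap D E)).primeCompl _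
        (Localization.AtPrime ((⊥ : Ideal E).comap (algebraMap D E)))).restrictScalars B)⟩

/-- `GL_n` is smooth over a stable ring of invariants of finite type that separates cosets. -/
theorem smooth_sub (S : Subgroup (GL (Fin n) Ω)) (B : Subalgebra Ω (OGL Ω n))
    [Algebra.FiniteType Ω B] (hB : B ≤ inv (S : Set (GL (Fin n) Ω)))
    (hl : ∀ y, ∀ b ∈ B, lt y b ∈ B)
    (hs : ∀ (A : Type u) [CommRing A] [Algebra Ω A] (g g' : GL (Fin n) A),
      (∀ b ∈ B, ev Ω g b = ev Ω g' b) → Cl (S : Set (GL (Fin n) Ω)) (g⁻¹ * g')) :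
    Algebra.Smooth B (OGL Ω n) := by
  have : IsDomain (OGL Ω n) := IsLocalization.isDomain_localization
    (powers_le_nonZeroDivisors_of_noZeroDivisors (det_mvPolynomialX_ne_zero (Fin n) Ω))
  have : IsNoetherianRing B := Algebra.FiniteType.isNoetherianRing Ω B
  have : Algebra.FinitePresentation B (OGL Ω n) := Algebra.FinitePresentation.of_finiteType.1
    (Algebra.FiniteType.of_restrictScalars_finiteType Ω B _)
  refine sm_homog (Ω := Ω) (sm_gen fun Q _ _ I hI j f => ?_) fun x y => ?_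
  · let : Algebra Ω Q := ((algebraMap B Q).comp (algebraMap Ω B)).toAlgebra
    have : IsScalarTower Ω B Q := IsScalarTower.of_algebraMap_eq' rfl
    have := smooth_vI S
    have h0 := hs (Q ⧸ I) (gm (Ideal.Quotient.mkₐ Ω I) (gm (j.restrictScalars Ω) (ug Ω n)))
      (gm (f.restrictScalars Ω) (ug Ω n)) fun b hb => by
        rw [← map_ev, ev_gm_ug, ev_gm_ug]
        exact (congrArg (Ideal.Quotient.mk I) (j.commutes ⟨b, hb⟩)).trans (f.commutes ⟨b, hb⟩).symm
    obtain ⟨φ, hφ⟩ := Algebra.FormallySmooth.exists_lift I ⟨2, hI⟩ (Vz.lift h0)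
    refine ⟨{ ev Ω (gm (j.restrictScalars Ω) (ug Ω n) * gm φ (uq _)) with
      commutes' := fun b => ?_ }, AlgHom.ext fun d => ?_⟩
    · refine (inv_all (hB b.2) _ ((vz_uq _).map φ)).trans ?_
      rw [ev_gm_ug]
      exact j.commutes b
    · refine (map_ev (Ideal.Quotient.mkₐ Ω I) _ d).trans ?_
      rw [MonoidHom.map_mul, gm_gm φ, ← gm_gm, gm_gm φ, hφ, Vz.gm_lift, mul_inv_cancel_left,
        ev_gm_ug]
      rfl
  · have hc : ∀ {z z' : GL (Fin n) Ω}, z' * z = 1 → ∀ a, lt z (lt z' a) = a := fun e a => by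
      rw [lt, ev_lt, ← mul_assoc, ← MonoidHom.map_mul, e, MonoidHom.map_one, one_mul, ev_ug]
      rfl
    obtain ⟨ρ, hρ⟩ : ∃ ρ : GL (Fin n) Ω → B →+* B, ∀ w b, (ρ w b).1 = lt w b.1 :=
      ⟨fun w => ((lt w).toRingHom.comp B.val.toRingHom).codRestrict B fun b => hl w b b.2,
        fun _ _ => rfl⟩
    have hr : ∀ {z z' : GL (Fin n) Ω}, z' * z = 1 → ∀ b, ρ z (ρ z' b) = b := fun e b =>
      Subtype.ext (by rw [hρ, hρ, hc e])
    obtain ⟨z, hz⟩ : ∃ z, ∀ a, x a = y (lt z a) := ⟨gm x (ug Ω n) * (gm y (ug Ω n))⁻¹, fun a => by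
      rw [← ev_gm_ug y, ev_lt, cst_self, gm_ev_ug, inv_mul_cancel_right, ev_gm_ug]⟩
    refine ⟨RingEquiv.ofBijective (lt z) (Function.bijective_iff_has_inverse.2
      ⟨lt z⁻¹, hc (mul_inv_cancel z), hc (inv_mul_cancel z)⟩), ρ z⁻¹,
      Function.bijective_iff_has_inverse.2 ⟨ρ z, hr (inv_mul_cancel z), hr (mul_inv_cancel z)⟩,
      fun b => ?_, hz⟩
    change lt z (ρ z⁻¹ b).1 = b.1
    rw [hρ, hc (inv_mul_cancel z)]

end Pool.Agent.GR.AQ
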