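import Pool.Agent.P.MP_c1f06d_ag.g.AqLoc

/-! Separation by invariants and extension of semi-invariants. -/

open Matrix
open scoped TensorProduct

universe u

namespace Pool.Agent.GR.AQ

open Co

section aux

variable {Ω : Type u} [Field Ω] {n m d : ℕ} {A A' : Type u} [CommRing A] [Algebra Ω A]
  [CommRing A'] [Algebra Ω A']

theorem th_basis (U : Submodule Ω (Fin m → Ω)) : ∃ (d : ℕ) (io : Matrix (Fin m) (Fin d) Ω)
    (p : Matrix (Fin d) (Fin m) Ω), p * io = 1 ∧ (∀ w, io *ᵥ w ∈ U) ∧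
      ∀ v ∈ U, io *ᵥ (p *ᵥ v) = v := by
  let e := (Module.finBasis Ω U).equivFun
  obtain ⟨g, hg⟩ := U.subtype.exists_leftInverse_of_injective U.ker_subtype
  refine ⟨_, LinearMap.toMatrix' (U.subtype ∘ₗ e.symm.toLinearMap),
    LinearMap.toMatrix' (e.toLinearMap ∘ₗ g), ?_, fun w => ?_, fun v hv => ?_⟩
  · rw [← LinearMap.toMatrix'_comp, ← LinearMap.toMatrix'_id]
    refine congrArg _ (LinearMap.ext fun w => ?_)
    have := LinearMap.congr_fun hg (e.symm w)
    simp only [LinearMap.comp_apply, LinearMap.id_apply, LinearEquiv.coe_coe] at this ⊢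
    rw [this, e.apply_symm_apply]
  · rw [LinearMap.toMatrix'_mulVec]
    exact (e.symm w).2
  · rw [LinearMap.toMatrix'_mulVec, LinearMap.toMatrix'_mulVec]
    have := LinearMap.congr_fun hg ⟨v, hv⟩
    simp only [LinearMap.comp_apply, LinearMap.id_apply, LinearEquiv.coe_coe,
      Submodule.subtype_apply] at this ⊢
    rw [e.symm_apply_apply, this]

theorem th_sum (f : Fin m → OGL Ω n) (v : Fin m → Ω) (x : GL (Fin n) A) :
    ev Ω x (∑ i, v i • f i) = (fun i => ev Ω x (f i)) ⬝ᵥ fun i => algebraMap Ω A (v i) := by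
  simp only [map_sum, Algebra.smul_def, map_mul, AlgHom.commutes, dotProduct, mul_comm]

theorem th_mul {f : Fin m → OGL Ω n} {M : Mat m A} {x y : GL (Fin n) A}
    (h : ∀ i, ev Ω (x * y) (f i) = ∑ j, ev Ω x (f j) * M j i) (v : Fin m → Ω) :
    ev Ω (x * y) (∑ i, v i • f i) =
      (fun i => ev Ω x (f i)) ⬝ᵥ M *ᵥ fun i => algebraMap Ω A (v i) := by
  rw [th_sum, dotProduct_mulVec]
  exact congrArg (· ⬝ᵥ _) (funext h)

variable (P : Rp Ω n m) (io : Matrix (Fin m) (Fin d) Ω) (p : Matrix (Fin d) (Fin m) Ω)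

/-- The compression of the representation to a subspace. -/
noncomputable def thR (x : GL (Fin n) A) : Mat d A :=
  p.map (algebraMap Ω A) * ((P.ρ A x : Mat m A) * io.map (algebraMap Ω A))

theorem th_rho (φ : A →ₐ[Ω] A') (x : GL (Fin n) A) :
    (P.ρ A x : Mat m A).map φ = (P.ρ A' (gm φ x) : Mat m A') := by
  rw [← P.nat]
  rfl

theorem th_cst {a b : ℕ} (φ : A →ₐ[Ω] A') (M : Matrix (Fin a) (Fin b) Ω) :
    (M.map (algebraMap Ω A)).map φ = M.map (algebraMap Ω A') := by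
  ext i j
  exact φ.commutes _

theorem thR_map (φ : A →ₐ[Ω] A') (x : GL (Fin n) A) :
    (thR P io p x).map φ = thR P io p (gm φ x) := by
  rw [thR, thR, Matrix.map_mul, Matrix.map_mul, th_cst, th_cst, th_rho]

theorem thR_det (φ : A →ₐ[Ω] A') (x : GL (Fin n) A) :
    φ (thR P io p x).det = (thR P io p (gm φ x)).det := by
  rw [← thR_map, AlgHom.map_det]
  rfl

/-- The matrix `Θ` at a point. -/
noncomputable def thM (r : OGL Ω n) (x : GL (Fin n) A) : Mat m A :=
  ev Ω x r • ((thR P io p x).det • (1 : Mat m A) - (P.ρ A x : Mat m A) * io.map (algebraMap Ω A) *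
    (thR P io p x).adjugate * p.map (algebraMap Ω A))

theorem thM_map (r : OGL Ω n) (φ : A →ₐ[Ω] A') (x : GL (Fin n) A) :
    (thM P io p r x).map φ = thM P io p r (gm φ x) := by
  have e : (thR P io p x).adjugate.map φ = (thR P io p (gm φ x)).adjugate := by
    rw [← thR_map]
    exact φ.map_adjugate _
  rw [thM, thM, ← map_ev, ← thR_det, ← e, ← th_rho, ← th_cst φ io, ← th_cst φ p, ← Matrix.map_mul,
    ← Matrix.map_mul, ← Matrix.map_mul]
  ext i j
  simp only [map_apply, Matrix.smul_apply, Matrix.sub_apply, smul_eq_mul, map_mul, map_sub,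
    Matrix.one_apply, apply_ite φ, map_one, map_zero]

end aux

variable {Ω : Type u} [Field Ω] [IsAlgClosed Ω] {n : ℕ}

/-- An invariant matrix that kills the functions vanishing on `S`. -/
theorem theta {S : Subgroup (GL (Fin n) Ω)} (h : INV (S : Set (GL (Fin n) Ω))) {m : ℕ}
    (f : Fin m → OGL Ω n) (P : Rp Ω n m)
    (hP : ∀ (A : Type u) [CommRing A] [Algebra Ω A] (x y : GL (Fin n) A) (i : Fin m),
      ev Ω (x * y) (f i) = ∑ j, ev Ω x (f j) * (P.ρ A y : Mat m A) j i) :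
    ∃ Θ : Mat m (OGL Ω n), (∀ i j, Θ i j ∈ inv (S : Set (GL (Fin n) Ω))) ∧
      (∀ v : Fin m → Ω, ∑ i, v i • f i ∈ vI (S : Set (GL (Fin n) Ω)) →
        ∀ (A : Type u) [CommRing A] [Algebra Ω A] (x : GL (Fin n) A),
          (Θ.map (ev Ω x) * (P.ρ A x : Mat m A)) *ᵥ (fun i => algebraMap Ω A (v i)) = 0) ∧
      (fun i => ev Ω (1 : GL (Fin n) Ω) (f i)) ᵥ* Θ.map (ev Ω (1 : GL (Fin n) Ω)) =
        fun i => ev Ω (1 : GL (Fin n) Ω) (f i) := by
  let U : Submodule Ω (Fin m → Ω) :=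
    ((vI (S : Set (GL (Fin n) Ω))).restrictScalars Ω).comap (Fintype.linearCombination Ω f)
  obtain ⟨d, io, p, h1, h2, h3⟩ := th_basis U
  have hR : ∀ x : GL (Fin n) Ω, thR P io p x = p * ((P.ρ Ω x : Mat m Ω) * io) := fun x => rfl
  have hs : ∀ s ∈ S, (P.ρ Ω s : Mat m Ω) * io = io * thR P io p s := fun s hs => by
    refine ext_of_mulVec_single fun k => ?_
    rw [hR, ← mulVec_mulVec, ← mulVec_mulVec, ← mulVec_mulVec, ← mulVec_mulVec, h3]
    intro t ht
    rw [Fintype.linearCombination_apply, th_sum]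
    exact (th_mul (hP Ω t s) _).symm.trans (h2 _ _ (S.mul_mem ht hs))
  have hm : ∀ x, ∀ s ∈ S, thR P io p (x * s) = thR P io p x * thR P io p s := fun x s hs' => by
    rw [hR, map_mul, Units.val_mul, Matrix.mul_assoc, hs s hs', hR x]
    simp only [Matrix.mul_assoc]
  have h0 : thR P io p (1 : GL (Fin n) Ω) = 1 := by
    rw [hR, map_one, Units.val_one, Matrix.one_mul, h1]
  have hd : ∀ x : GL (Fin n) Ω, ev Ω x (thR P io p (ug Ω n)).det = (thR P io p x).det := fun x => by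
    rw [thR_det, gm_ev_ug]
  obtain ⟨r, r1, r2⟩ := h (thR P io p (ug Ω n)).det (by rw [hd, h0, det_one])
    fun x s hs' => by rw [hd, hd, hd, hm x s hs', det_mul]
  have hT : ∀ (A : Type u) [CommRing A] [Algebra Ω A] (x : GL (Fin n) A),
      (thM P io p r (ug Ω n)).map (ev Ω x) = thM P io p r x := fun A _ _ x => by
    rw [thM_map, gm_ev_ug]
  have hM : ∀ x : GL (Fin n) Ω, thM P io p r x = ev Ω x r • ((thR P io p x).det • (1 : Mat m Ω) -
    (P.ρ Ω x : Mat m Ω) * io * (thR P io p x).adjugate * p) := fun x => rfl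
  refine ⟨thM P io p r (ug Ω n), fun i j x s hs' => ?_, fun v hv A _ _ x => ?_, ?_⟩
  · have e : thM P io p r (x * s) = thM P io p r x := by
      rw [hM, hM, ← r2 x s hs', hd, hm x s hs', det_mul, adjugate_mul_distrib, map_mul,
        Units.val_mul, Matrix.mul_assoc _ _ io, hs s hs', mul_smul (ev Ω (x * s) r),
        smul_sub (thR P io p s).det, smul_smul, mul_comm (thR P io p s).det]
      simp only [Matrix.mul_assoc]
      rw [← Matrix.mul_assoc (thR P io p s), mul_adjugate]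
      simp only [Matrix.smul_mul, Matrix.mul_smul, Matrix.one_mul]
    exact congrFun (congrFun ((hT Ω _).trans (e.trans (hT Ω _).symm)) i) j
  · have e : (fun i => algebraMap Ω A (v i)) =
        io.map (algebraMap Ω A) *ᵥ fun i => algebraMap Ω A ((p *ᵥ v) i) := by
      funext i
      conv_lhs => rw [← h3 v hv]
      exact RingHom.map_mulVec _ _ _ i
    have z : thM P io p r x * (P.ρ A x : Mat m A) * io.map (algebraMap Ω A) = 0 := by
      rw [thM, Matrix.smul_mul, Matrix.smul_mul, Matrix.mul_assoc, Matrix.sub_mul,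
        Matrix.mul_assoc _ (p.map _), ← thR, Matrix.mul_assoc _ _ (thR P io p x), adjugate_mul]
      simp
    rw [hT, e, mulVec_mulVec, z, zero_mulVec]
  · have z : (fun i => ev Ω (1 : GL (Fin n) Ω) (f i)) ᵥ* io = 0 := by
      funext k
      have := (th_sum f _ (1 : GL (Fin n) Ω)).symm.trans (h2 (Pi.single k 1) 1 S.one_mem)
      rw [mulVec_single_one] at this
      exact this
    rw [hT, hM, r1, h0, det_one, adjugate_one, map_one, Units.val_one, one_smul, one_smul,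
      Matrix.one_mul, Matrix.mul_one, vecMul_sub, vecMul_one, ← vecMul_vecMul, z, zero_vecMul,
      sub_zero]

theorem INV.sep {S : Subgroup (GL (Fin n) Ω)} (h : INV (S : Set (GL (Fin n) Ω))) :
    SEP (S : Set (GL (Fin n) Ω)) := by
  classical
  have : IsNoetherianRing (OGL Ω n) := Algebra.FiniteType.isNoetherianRing Ω _
  obtain ⟨s, hs⟩ := IsNoetherian.noetherian (vI (S : Set (GL (Fin n) Ω)))
  obtain ⟨m, f, P, -, h1, hP⟩ := exists_rrep s
  obtain ⟨Θ, t1, t2, t3⟩ := theta h f P hP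
  refine ⟨Finset.univ.image fun q : Fin m × Fin m => Θ q.1 q.2, fun b hb => ?_,
    fun A _ _ g hg a ha => ?_⟩
  · obtain ⟨q, -, rfl⟩ := Finset.mem_image.1 hb
    exact t1 _ _
  · have e : Θ.map (ev Ω g) = Θ.map (ev Ω (1 : GL (Fin n) A)) := by
      ext i j
      exact hg _ (Finset.mem_image_of_mem _ (Finset.mem_univ (i, j)))
    have e1 : (fun i => ev Ω (1 : GL (Fin n) A) (f i)) ᵥ* Θ.map (ev Ω g) =
        fun i => ev Ω (1 : GL (Fin n) A) (f i) := by
      funext j
      have := congrArg (algebraMap Ω A) (congrFun t3 j)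
      rw [e]
      simpa only [vecMul, dotProduct, map_apply, map_sum, map_mul, ← ev_one] using this
    rw [← hs] at ha
    refine (Submodule.span_le (p := RingHom.ker (ev Ω g))).2 (fun b hb => ?_) ha
    obtain ⟨v, rfl⟩ := (Submodule.mem_span_range_iff_exists_fun Ω).1 (h1 b hb)
    have := th_mul (hP A 1 g) v
    rw [one_mul, ← e1, ← dotProduct_mulVec, mulVec_mulVec,
      t2 v (hs ▸ Submodule.subset_span hb), dotProduct_zero] at this
    exact this

theorem INV.ext {S₂ : Subgroup (GL (Fin n) Ω)} (h : INV (S₂ : Set (GL (Fin n) Ω)))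
    {S : Set (GL (Fin n) Ω)} (hS : ∀ s ∈ S, s ∈ S₂) (φ : OGL Ω n) (θ : GL (Fin n) Ω → Ω)
    (hφ : ∀ γ ∈ S₂, ∀ s ∈ S, ev Ω (γ * s) φ = θ s * ev Ω γ φ) :
    ∃ E : OGL Ω n, (∀ x, ∀ s ∈ S, ev Ω (x * s) E = θ s * ev Ω x E) ∧
      ∀ γ ∈ S₂, ev Ω γ E = ev Ω γ φ := by
  obtain ⟨m, f, P, -, h1, hP⟩ := exists_rrep {φ}
  obtain ⟨Θ, t1, t2, t3⟩ := theta h f P hP
  obtain ⟨v, rfl⟩ := (Submodule.mem_span_range_iff_exists_fun Ω).1
    (h1 φ (Finset.mem_singleton_self φ))
  let N : Mat m (OGL Ω n) := Θ * (P.ρ _ (ug Ω n) : Mat m (OGL Ω n))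
  have hE : ∀ x : GL (Fin n) Ω, ev Ω x (∑ i, ∑ j, (ev Ω (1 : GL (Fin n) Ω) (f i) * v j) • N i j) =
      (fun i => ev Ω (1 : GL (Fin n) Ω) (f i)) ⬝ᵥ (Θ.map (ev Ω x) * (P.ρ Ω x : Mat m Ω)) *ᵥ v :=
    fun x => by
      have e : Θ.map (ev Ω x) * (P.ρ Ω x : Mat m Ω) = N.map (ev Ω x) := by
        rw [Matrix.map_mul, th_rho, gm_ev_ug]
      simp only [e, map_sum, map_smul, smul_eq_mul, dotProduct, mulVec, map_apply, Finset.mul_sum]
      exact Finset.sum_congr rfl fun i _ => Finset.sum_congr rfl fun j _ => by ring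
  have hi : ∀ x, ∀ s ∈ S₂, Θ.map (ev Ω (x * s)) = Θ.map (ev Ω x) := fun x s hs => by
    ext i j
    exact t1 i j x s hs
  refine ⟨∑ i, ∑ j, (ev Ω (1 : GL (Fin n) Ω) (f i) * v j) • N i j, fun x s hs => ?_,
    fun γ hγ => ?_⟩
  rotate_left
  · rw [hE]
    have := hi 1 γ hγ
    rw [one_mul] at this
    rw [this, ← mulVec_mulVec, dotProduct_mulVec, t3]
    have := th_mul (hP Ω 1 γ) v
    rw [one_mul] at this
    exact this.symm
  · have z := t2 ((P.ρ Ω s : Mat m Ω) *ᵥ v - θ s • v) (fun γ hγ => by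
      have := hφ γ hγ s hs
      rw [th_mul (hP Ω γ s), th_sum] at this
      rw [th_sum]
      exact (dotProduct_sub _ _ _).trans
        (sub_eq_zero.2 (this.trans (dotProduct_smul (θ s) _ v).symm)))
      Ω x
    change _ *ᵥ ((P.ρ Ω s : Mat m Ω) *ᵥ v - θ s • v) = 0 at z
    rw [mulVec_sub, sub_eq_zero, mulVec_smul] at z
    rw [hE, hE, hi x s (hS s hs), map_mul, Units.val_mul, ← Matrix.mul_assoc, ← mulVec_mulVec, z,
      dotProduct_smul, smul_eq_mul]

end Pool.Agent.GR.AQ
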