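import Pool.Agent.P.MP_c1f06d_ag.g.Cell
import Pool.Agent.P.MP_c1f06d_ag.g.Chart

open WithConv Pool.Agent.GR TensorProduct AddMonoidAlgebra

universe u

namespace Pool.Agent.RED.X

variable {R A : Type u} [CommRing R] [CommRing A] [HopfAlgebra R A]
  {S₀ S S' : Type u} [CommRing S₀] [Algebra R S₀] [CommRing S] [Algebra R S] [CommRing S']
  [Algebra R S'] {M : Type} [AddCommGroup M] {t : Pt R A (GA S₀ M)}

theorem zts_tp_lift {ι : Type} (b : Module.Basis ι ℤ M) (f : S →ₐ[R] S') (τ' : TP M S')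
    (h : ∀ k, ∃ v : Sˣ, f v = chv τ' (b k)) : ∃ τ : TP M S, tm f τ = τ' := by
  choose v hv using h
  let φ : M →ₗ[ℤ] Additive Sˣ := b.constr ℤ fun k => Additive.ofMul (v k)
  refine ⟨AddMonoidHom.toMultiplicativeLeft φ.toAddMonoidHom, ?_⟩
  have : (MonoidHom.toAdditiveRight (tm f (AddMonoidHom.toMultiplicativeLeft
      φ.toAddMonoidHom))).toIntLinearMap = (MonoidHom.toAdditiveRight τ').toIntLinearMap := by
    refine b.ext fun k => Units.ext ?_
    show f (Additive.toMul (φ (b k)) : Sˣ) = chv τ' (b k)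
    rw [← hv, Module.Basis.constr_basis]
    rfl
  exact MonoidHom.ext fun m => LinearMap.congr_fun this m.toAdd

theorem zts_unit (f : S →ₐ[R] S') (hf : Function.Surjective f)
    (hJ : ∀ x, f x = 0 → x * x = 0) {x : S} (h : IsUnit (f x)) : IsUnit x := by
  obtain ⟨y', hy⟩ := h.exists_right_inv
  obtain ⟨y, rfl⟩ := hf y'
  have := hJ (x * y - 1) (by rw [map_sub, map_mul, hy, map_one, sub_self])
  exact IsUnit.of_mul_eq_one (y * (2 - x * y)) (by linear_combination -this)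

theorem zts_dual {C F N : Type u} [CommRing C] [Field F] [Algebra C F] [AddCommGroup N]
    [Module C N] (hJ : (RingHom.ker (algebraMap C F)).IsMaximal) (h : ∀ l : N →ₗ[C] F, l = 0) :
    (⊤ : Submodule C N) ≤ RingHom.ker (algebraMap C F) • ⊤ := by
  intro x _
  let J := RingHom.ker (algebraMap C F)
  let := Ideal.Quotient.field J
  rw [← Submodule.Quotient.mk_eq_zero, ← Module.forall_dual_apply_eq_zero_iff (C ⧸ J)]
  intro φ
  let i : (C ⧸ J) →ₐ[C] F := Ideal.kerLiftAlg (Algebra.ofId C F)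
  have := LinearMap.congr_fun (h (i.toLinearMap ∘ₗ φ.restrictScalars C ∘ₗ Submodule.mkQ _)) x
  exact Ideal.kerLiftAlg_injective (Algebra.ofId C F) (this.trans (map_zero i).symm)

theorem zts_tev_uT : tev t (cst R S₀ M) (uT S₀ M) = t := by
  have : tl (cst R S₀ M) (uT S₀ M) = AlgHom.id R _ := by
    ext <;> simp [chv_uT, single_mul_single]
  rw [tev, this, pm_id]

theorem zts_tl (j : S₀ →ₐ[R] S) (τ : TP M S) (x : GA S₀ M) :
    tl j τ x = x.coeff.sum fun m r => j r * chv τ m := by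
  conv_lhs => rw [← sum_coeff_single x]
  simp [Finsupp.sum]

section rep

variable {C : Type u} [CommRing C] [Algebra R C] {jC : S₀ →ₐ[R] C} {u : Pt R A C}
  {π : C →ₐ[R] GA S₀ M}

/-- The data of the proof: `C` represents the centraliser and `π` is the torus in it. -/
structure ZD (t : Pt R A (GA S₀ M)) (jC : S₀ →ₐ[R] C) (u : Pt R A C) (π : C →ₐ[R] GA S₀ M) :
    Prop where
  hom : IsHom t
  rep : Rep (fun _ _ _ j g => InG ⊥ t j g) jC u
  base : π.comp jC = cst R S₀ M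
  pt : pm π u = t

namespace ZD

theorem univ (h : ZD t jC u π) : InG ⊥ t jC u :=
  (h.rep.mem C jC u).2 ⟨AlgHom.id R C, rfl, rfl⟩

theorem tl_comp (h : ZD t jC u π) (j : S₀ →ₐ[R] S) (τ : TP M S) :
    ((tl j τ).comp π).comp jC = j := by
  rw [AlgHom.comp_assoc, h.base, tl_comp_cst]

theorem pm_tl (h : ZD t jC u π) (j : S₀ →ₐ[R] S) (τ : TP M S) :
    pm ((tl j τ).comp π) u = tev t j τ := by
  rw [← pm_pm, h.pt, tev]

theorem eq_tl (h : ZD t jC u π) {φ : C →ₐ[R] S} {j : S₀ →ₐ[R] S} {τ : TP M S}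
    (h1 : φ.comp jC = j) (h2 : pm φ u = tev t j τ) : φ = (tl j τ).comp π :=
  h.rep.uniq S _ _ (by rw [h1, h.tl_comp]) (by rw [h2, h.pm_tl])

theorem kill (h : ZD t jC u π) {φ : C →ₐ[R] S} {j : S₀ →ₐ[R] S} {τ : TP M S}
    (h1 : φ.comp jC = j) (h2 : pm φ u = tev t j τ) {x : C} (hx : π x = 0) : φ x = 0 := by
  rw [h.eq_tl h1 h2, AlgHom.comp_apply, hx, map_zero]

theorem factor (h : ZD t jC u π) (hπ : Function.Surjective π) (φ : C →ₐ[R] S)
    (hφ : ∀ x, π x = 0 → φ x = 0) : ∃ τ, pm φ u = tev t (φ.comp jC) τ := by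
  let ψ := AlgHom.liftOfSurjective π hπ φ hφ
  have h1 : ψ.comp π = φ := AlgHom.liftOfSurjective_comp _ _ _ _
  refine ⟨tm ψ (uT S₀ M), ?_⟩
  rw [← h1, ← pm_pm, h.pt, AlgHom.comp_assoc, h.base, ← pm_tev, zts_tev_uT]

theorem single_mem (h : ZD t jC u π) (a : A) (m : M) :
    single m ((t.ofConv a).coeff m) ∈ π.range := by
  have h1 := h.hom (GA (GA S₀ M) M) ((cst R _ M).comp (cst R S₀ M)) (uT _ M)
    (tm (cst R _ M) (uT S₀ M))
  have h2 : (mapAlgHom M π).comp (cst R C M) = (cst R _ M).comp π := by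
    ext
    simp [mapAlgHom_single]
  rw [tev_uT, ← pm_tev, zts_tev_uT, ← h.base, ← bc_bc] at h1
  nth_rewrite 3 [← h.pt] at h1
  rw [pm_pm, ← h2, ← pm_pm, bc, ← map_mul, h.base] at h1
  refine ⟨((bc jC t * pm (cst R C M) u).ofConv a).coeff m, ?_⟩
  have h3 := congrArg (fun g : Pt R A (GA (GA S₀ M) M) => (g.ofConv a).coeff m) h1
  simp only [pm_apply, coeff_mapAlgHom] at h3
  refine h3.symm.trans ?_
  rw [tev, pm_apply]
  induction t.ofConv a using induction_linear with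
  | zero => simp
  | add x y hx hy => simp [hx, hy, single_add]
  | single n r =>
    rw [tl_single, chv_mul, chv_uT, chv_tm, chv_uT]
    by_cases e : m = n
    · simp [e, cst_apply, single_mul_single]
    · simp [cst_apply, single_mul_single, Finsupp.single_eq_of_ne e]

theorem neg_mem (h : ZD t jC u π) {m : M} (hm : single m 1 ∈ π.range) :
    single (-m) 1 ∈ π.range := by
  obtain ⟨ι, h1, h2⟩ := (h.rep.mem C jC u⁻¹).1 h.univ.inv
  obtain ⟨c, hc⟩ := hm
  have h3 : π.comp ι = (tl (cst R S₀ M) (uT S₀ M)⁻¹).comp π := h.eq_tl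
    (by rw [AlgHom.comp_assoc, h1, h.base])
    (by rw [← pm_pm, h2, map_inv, h.pt, h.hom.tev_inv, zts_tev_uT])
  refine ⟨ι c, (AlgHom.congr_fun h3 c).trans ?_⟩
  rw [AlgHom.comp_apply, show π c = _ from hc, tl_single, map_one, one_mul]
  rfl

theorem tev_inj (h : ZD t jC u π) (hπ : Function.Surjective π) (j : S₀ →ₐ[R] S) {τ τ' : TP M S}
    (e : tev t j τ = tev t j τ') : τ = τ' := by
  have h1 := h.eq_tl (h.tl_comp j τ) ((h.pm_tl j τ).trans e)
  refine tp_ext fun m => ?_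
  obtain ⟨c, hc⟩ := hπ (single m 1)
  simpa [hc] using AlgHom.congr_fun h1 c

/-- The kernel of `π` is finitely generated. -/
theorem fg [Module.Free ℤ M] [Module.Finite ℤ M] [Algebra.FiniteType R A] (h : ZD t jC u π)
    (hπ : Function.Surjective π) : (RingHom.ker (π : C →+* GA S₀ M)).FG := by
  classical
  let b := Module.Free.chooseBasis ℤ M
  choose a ha using hπ
  let K₁ : Ideal C := Ideal.span (Set.range fun k => a (single (b k) 1) * a (single (-b k) 1) - 1)
  have h1 : ∀ x ∈ K₁, π x = 0 := fun x hx => by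
    refine (Ideal.span_le (I := RingHom.ker (π : C →+* GA S₀ M))).2 ?_ hx
    rintro _ ⟨k, rfl⟩
    simp [ha, single_mul_single, one_def]
  let π₁ := Ideal.Quotient.liftₐ K₁ π h1
  obtain ⟨τ, hτ⟩ := zts_tp_lift b π₁ (uT S₀ M) fun k =>
    ⟨Units.mkOfMulEqOne (Ideal.Quotient.mk K₁ (a (single (b k) 1)))
      (Ideal.Quotient.mk K₁ (a (single (-b k) 1))) (by
        rw [← map_mul, ← map_one (Ideal.Quotient.mk K₁), Ideal.Quotient.eq]
        exact Ideal.subset_span ⟨k, rfl⟩), ha _⟩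
  have h2 : pm π₁ (tev t ((Ideal.Quotient.mkₐ R K₁).comp jC) τ) = t := by
    rw [pm_tev, hτ, ← AlgHom.comp_assoc, Ideal.Quotient.liftₐ_comp, h.base, zts_tev_uT]
  obtain ⟨s, hs⟩ := Algebra.FiniteType.out (R := R) (A := A)
  choose c hc using fun x => Ideal.Quotient.mk_surjective (I := K₁)
    ((tev t ((Ideal.Quotient.mkₐ R K₁).comp jC) τ).ofConv x)
  let K₀ : Ideal C := K₁ ⊔ Ideal.span ((fun x => u.ofConv x - c x) '' s)
  have h3 : RingHom.ker (π : C →+* GA S₀ M) = K₀ := by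
    refine le_antisymm (fun x hx => ?_) (sup_le h1 (Ideal.span_le.2 ?_))
    · let q := Ideal.Quotient.factorₐ R (le_sup_left : K₁ ≤ K₀)
      refine Ideal.Quotient.eq_zero_iff_mem.1 (h.kill (φ := Ideal.Quotient.mkₐ R K₀)
        (τ := tm q τ) rfl ?_ hx)
      have h4 : (Ideal.Quotient.mkₐ R K₀).comp jC = q.comp ((Ideal.Quotient.mkₐ R K₁).comp jC) :=
        rfl
      rw [h4, ← pm_tev]
      refine WithConv.ext (AlgHom.ext_of_adjoin_eq_top hs fun x hx => ?_)
      rw [pm_apply, pm_apply, ← hc]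
      exact Ideal.Quotient.eq.2 (Ideal.mem_sup_right (Ideal.subset_span ⟨x, hx, rfl⟩))
    · rintro _ ⟨x, -, rfl⟩
      have h4 : π (c x) = t.ofConv x := by
        rw [← h2, pm_apply, ← hc]
        rfl
      show π _ = 0
      rw [map_sub, h4, ← pm_apply, h.pt, sub_self]
  rw [h3]
  exact Submodule.FG.sup (Submodule.fg_span (Set.finite_range _))
    (Submodule.fg_span (s.finite_toSet.image _))

/-- The first order section of `π`. -/
theorem sect [Module.Free ℤ M] (hπ : Function.Surjective π) :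
    ∃ (π₂ : (C ⧸ RingHom.ker (π : C →+* GA S₀ M) ^ 2) →ₐ[R] GA S₀ M)
      (τ : TP M (C ⧸ RingHom.ker (π : C →+* GA S₀ M) ^ 2)),
      π₂.comp (Ideal.Quotient.mkₐ R _) = π ∧ Function.Surjective π₂ ∧
        (∀ x, π₂ x = 0 → x * x = 0) ∧ tm π₂ τ = uT S₀ M := by
  let π₂ := Ideal.Quotient.liftₐ (RingHom.ker (π : C →+* GA S₀ M) ^ 2) π fun x hx =>
    Ideal.pow_le_self two_ne_zero hx
  have h1 : Function.Surjective π₂ := fun y =>
    let ⟨x, hx⟩ := hπ y
    ⟨Ideal.Quotient.mk _ x, hx⟩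
  have h2 : ∀ x, π₂ x = 0 → x * x = 0 := fun x hx => by
    obtain ⟨x, rfl⟩ := Ideal.Quotient.mk_surjective x
    rw [← map_mul, Ideal.Quotient.eq_zero_iff_mem, pow_two]
    exact Ideal.mul_mem_mul hx hx
  obtain ⟨τ, hτ⟩ := zts_tp_lift (Module.Free.chooseBasis ℤ M) π₂ (uT S₀ M) fun k => by
    obtain ⟨x, hx⟩ := h1 (chv (uT S₀ M) (Module.Free.chooseBasis ℤ M k))
    obtain ⟨v, rfl⟩ := zts_unit π₂ h1 h2 (x := x) (hx ▸ Units.isUnit _)
    exact ⟨v, hx⟩
  exact ⟨π₂, τ, Ideal.Quotient.liftₐ_comp _ _ _, h1, h2, hτ⟩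

variable [IsLocalRing S₀] {F : Type u} [Field F] [Algebra R F] {j : S₀ →ₐ[R] F}

theorem surj (h : ZD t jC u π) (hj : ∀ x ∈ IsLocalRing.maximalIdeal S₀, j x = 0)
    (hz : ZT (bc j t)) : Function.Surjective π := by
  let N : AddSubgroup M :=
    { carrier := {m | single m 1 ∈ π.range}
      zero_mem' := π.range.one_mem
      add_mem' := fun {a b} ha hb => by
        have := π.range.mul_mem ha hb
        rwa [single_mul_single, mul_one] at this
      neg_mem' := h.neg_mem }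
  have hc : ∀ x, cst R S₀ M x ∈ π.range := fun x => ⟨jC x, AlgHom.congr_fun h.base x⟩
  let τ : TP M (GA F (M ⧸ N)) :=
    (uT F (M ⧸ N)).comp (AddMonoidHom.toMultiplicative (QuotientAddGroup.mk' N))
  have hτ : ∀ m, chv τ m = single (m : M ⧸ N) 1 := fun m => rfl
  have h1 : tev (bc j t) (cst R F (M ⧸ N)) 1 = tev (bc j t) (cst R F (M ⧸ N)) τ := by
    refine pt_ext fun a => ?_
    rw [tev_bc, tev_bc, tev, tev, pm_apply, pm_apply, zts_tl, zts_tl]
    refine Finsupp.sum_congr fun m _ => ?_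
    by_cases hu : IsUnit ((t.ofConv a).coeff m)
    · obtain ⟨y, hy⟩ := hu.exists_left_inv
      have h2 : m ∈ N := by
        have := π.range.mul_mem (hc y) (h.single_mem a m)
        rwa [cst_apply, single_mul_single, zero_add, hy] at this
      rw [hτ, (QuotientAddGroup.eq_zero_iff m).2 h2]
      rfl
    · rw [AlgHom.comp_apply, hj _ hu, map_zero, zero_mul, zero_mul]
  have h2 : τ = 1 := (hz _ _ _ ((h.hom.base j).inG_tev 1)).unique h1 rfl
  have h3 : ∀ m, m ∈ N := fun m => by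
    have := hτ m
    rw [h2, chv_one, one_def, single_left_inj one_ne_zero] at this
    exact (QuotientAddGroup.eq_zero_iff m).1 this.symm
  intro x
  show x ∈ π.range
  induction x using induction_linear with
  | zero => exact zero_mem _
  | add x y hx hy => exact add_mem hx hy
  | single m r =>
    have := π.range.mul_mem (hc r) (h3 m)
    rwa [cst_apply, single_mul_single, zero_add, mul_one] at this

/-- Near the identity of the closed fibre the centraliser is the torus. -/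
theorem exists_ann [Module.Free ℤ M] (h : ZD t jC u π) (hπ : Function.Surjective π)
    (hK : (RingHom.ker (π : C →+* GA S₀ M)).FG)
    (hj : ∀ x ∈ IsLocalRing.maximalIdeal S₀, j x = 0) (hz : ZT (bc j t)) :
    ∃ r : C, IsUnit (tl (AlgHom.id R S₀) 1 (π r)) ∧ ∀ x, π x = 0 → r * x = 0 := by
  let K := RingHom.ker (π : C →+* GA S₀ M)
  let ε : C →ₐ[R] S₀ := (tl (AlgHom.id R S₀) 1).comp π
  have hε : ∀ x, ε (jC x) = x := AlgHom.congr_fun (h.tl_comp (AlgHom.id R S₀) 1)
  let : Algebra C F := ((j.comp ε : C →ₐ[R] F) : C →+* F).toAlgebra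
  have he : ∀ x, algebraMap C F x = j (ε x) := fun _ => rfl
  have hu : ∀ x, j x ≠ 0 → IsUnit x := fun x hx => by
    by_contra hn
    exact hx (hj x hn)
  have hJ : (RingHom.ker (algebraMap C F)).IsMaximal := by
    have : RingHom.ker (algebraMap C F) = (IsLocalRing.maximalIdeal S₀).comap ε := by
      ext x
      refine ⟨fun hx hx' => ?_, fun hx => hj _ hx⟩
      exact (hx'.map j).ne_zero hx
    rw [this]
    exact Ideal.comap_isMaximal_of_surjective ε fun x => ⟨_, hε x⟩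
  obtain ⟨π₂, τ, h1, -, -, h4⟩ := sect hπ
  let q := Ideal.Quotient.mkₐ R (K ^ 2)
  let σ := tl (q.comp jC) τ
  have h5 : π₂.comp σ = AlgHom.id R _ := by
    have h6 : ∀ x, π₂ (q (jC x)) = single 0 x := fun x =>
      (AlgHom.congr_fun h1 _).trans (AlgHom.congr_fun h.base x)
    have h7 : ∀ m, π₂ (chv τ m) = single m 1 := fun m => by rw [← chv_tm, h4, chv_uT]
    refine AlgHom.ext fun x => ?_
    induction x using induction_linear with
    | zero => simp
    | add x y hx hy => rw [map_add, map_add, hx, hy]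
    | single m r => simp [σ, h6, h7, single_mul_single]
  have hd : ∀ c, ∃ d : K, q d = q c - σ (π c) := fun c => by
    obtain ⟨d, hd⟩ := Ideal.Quotient.mk_surjective (q c - σ (π c))
    refine ⟨⟨d, ?_⟩, hd⟩
    show π d = 0
    refine (AlgHom.congr_fun h1 d).symm.trans ((congrArg π₂ hd).trans ?_)
    rw [map_sub, sub_eq_zero]
    exact (AlgHom.congr_fun h1 c).trans (AlgHom.congr_fun h5 _).symm
  choose d hd using hd
  have key : ∀ l : K →ₗ[C] F, l = 0 := fun l => by
    have l0 : ∀ x : K, q x = 0 → l x = 0 := fun ⟨x, hx⟩ h0 => by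
      have h2 : x ∈ K * K := pow_two K ▸ Ideal.Quotient.eq_zero_iff_mem.1 h0
      have : ∃ hx, l ⟨x, hx⟩ = 0 := by
        refine Submodule.mul_induction_on (C := fun x => ∃ hx, l ⟨x, hx⟩ = 0) h2
          (fun a ha b hb => ⟨K.mul_mem_left a hb, ?_⟩) fun a b ⟨ha, ea⟩ ⟨hb, eb⟩ =>
            ⟨K.add_mem ha hb, (map_add l ⟨a, ha⟩ ⟨b, hb⟩).trans (by rw [ea, eb, add_zero])⟩
        refine (map_smul l a ⟨b, hb⟩).trans ?_
        rw [Algebra.smul_def, he, show ε a = 0 by
          rw [AlgHom.comp_apply, show π a = 0 from ha, map_zero], map_zero, zero_mul]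
      exact this.2
    have l1 : ∀ x y : K, q x = q y → l x = l y := fun x y e => by
      rw [← sub_eq_zero, ← map_sub]
      exact l0 _ (by rw [Submodule.coe_sub, map_sub, e, sub_self])
    have l2 : ∀ x, l (d (jC x)) = 0 := fun x => l0 _ (by
      rw [hd, show π (jC x) = _ from AlgHom.congr_fun h.base x, sub_eq_zero]
      exact (AlgHom.congr_fun (tl_comp_cst (q.comp jC) τ) x).symm)
    let Φ : C →ₐ[R] TrivSqZeroExt F F :=
      { toFun := fun c => (j (ε c), l (d c))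
        map_one' := TrivSqZeroExt.ext (by simp) (by simpa using l2 1)
        map_zero' := TrivSqZeroExt.ext (by simp) (by simpa using l2 0)
        map_add' := fun x y => TrivSqZeroExt.ext (by simp) (by
          show l (d (x + y)) = l (d x) + l (d y)
          rw [← map_add]
          exact l1 _ _ (by simp only [Submodule.coe_add, map_add, hd]; ring))
        map_mul' := fun x y => TrivSqZeroExt.ext (by simp) (by
          have h2 : q (d x) * q (d y) = 0 := by
            rw [← map_mul]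
            exact Ideal.Quotient.eq_zero_iff_mem.2 (pow_two K ▸ Ideal.mul_mem_mul (d x).2 (d y).2)
          have h3 : l (d (x * y)) = l (x • d y + y • d x) := l1 _ _ (by
            rw [hd, hd] at h2
            simp only [Submodule.coe_add, Submodule.coe_smul, smul_eq_mul, map_add, map_mul, hd]
            linear_combination -h2)
          show l (d (x * y)) = _
          rw [h3, map_add, map_smul, map_smul, Algebra.smul_def, Algebra.smul_def, he, he]
          simp [mul_comm])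
        commutes' := fun r => TrivSqZeroExt.ext (by simp [TrivSqZeroExt.algebraMap_eq_inl'])
          (by simpa [TrivSqZeroExt.algebraMap_eq_inl'] using l2 (algebraMap R S₀ r)) }
    have h6 : Φ.comp jC = (TrivSqZeroExt.inlAlgHom R F F).comp j :=
      AlgHom.ext fun x => TrivSqZeroExt.ext (congrArg j (hε x)) (l2 x)
    obtain ⟨τ', h7, -⟩ := hz _ (TrivSqZeroExt.inlAlgHom R F F) (pm Φ u)
      ((inG_bc _).2 ((h.rep.mem _ _ _).2 ⟨Φ, h6, rfl⟩))
    refine LinearMap.ext fun x => ?_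
    have h8 : l (d x) = 0 :=
      congrArg TrivSqZeroExt.snd (h.kill h6 (h7.trans (tev_bc _ _ _ _)) x.2)
    rw [← l1 (d x) x (by rw [hd, show π x = 0 from x.2, map_zero, sub_zero]), h8]
    rfl
  have : Module.Finite C K := Module.Finite.iff_fg.2 hK
  obtain ⟨r, hr1, hr2⟩ := Submodule.exists_sub_one_mem_and_smul_eq_zero_of_fg_of_le_smul _ _
    Module.Finite.fg_top (zts_dual hJ key)
  refine ⟨r, hu _ ?_, fun x hx => congrArg Subtype.val (hr2 ⟨x, hx⟩ trivial)⟩
  rw [RingHom.mem_ker, map_sub, map_one, sub_eq_zero] at hr1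
  exact hr1.trans_ne one_ne_zero

end ZD

end rep

/-- `ZT` spreads from one point over the closed point. -/
theorem ZT.spread [Module.Free ℤ M] [Algebra.Smooth R A] [Module.Finite ℤ M] [IsLocalRing S₀]
    (ht : IsHom t)
    (hF : ∀ (Ω : Type u) [Field Ω] [IsAlgClosed Ω] [Algebra R Ω], IsDomain (Ω ⊗[R] A))
    {K : Type u} [Field K] [Algebra R K] (j : S₀ →ₐ[R] K)
    (hj : ∀ x ∈ IsLocalRing.maximalIdeal S₀, j x = 0) (h : ZT (bc j t)) : ZT t := by
  obtain ⟨C, _, _, jC, u, hC⟩ := exists_repZ ht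
  obtain ⟨π, p1, p2⟩ := (hC.mem _ (cst R S₀ M) _).1 (ht.inG_tev (uT S₀ M))
  have z : ZD t jC u π := ⟨ht, hC, p1, p2.trans zts_tev_uT⟩
  have hπ := z.surj hj h
  have hK := z.fg hπ
  obtain ⟨r, r1, r2⟩ := z.exists_ann hπ hK hj h
  have one : ∀ {T : Type u} [CommRing T] [Algebra R T] (φ : C →ₐ[R] T), pm φ u = 1 →
      IsUnit (φ r) := fun φ hφ => by
    have := hC.uniq _ φ ((φ.comp jC).comp ((tl (AlgHom.id R S₀) 1).comp π))
      (by rw [AlgHom.comp_assoc, z.tl_comp, AlgHom.comp_id])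
      (by rw [← pm_pm, z.pm_tl, ht.tev_one, map_one, hφ])
    rw [this]
    exact r1.map (φ.comp jC)
  have hsq : RingHom.ker (π : C →+* GA S₀ M) ≤ RingHom.ker (π : C →+* GA S₀ M) ^ 2 := by
    obtain ⟨π₂, τ, h1, h2, h3, h4⟩ := ZD.sect hπ
    let q := Ideal.Quotient.mkₐ R (RingHom.ker (π : C →+* GA S₀ M) ^ 2)
    obtain ⟨φ, f1, f2⟩ := (hC.mem _ _ _).1 ((z.univ.map q).mul (ht.inG_tev τ).inv)
    have h5 : IsUnit (φ r) := zts_unit π₂ h2 h3 (one (π₂.comp φ) (by
      rw [← pm_pm, f2, map_mul, map_inv, pm_pm, pm_tev, ← AlgHom.comp_assoc, h1, h4, z.base,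
        zts_tev_uT, z.pt, mul_inv_cancel]))
    obtain ⟨τ', h6⟩ := z.factor hπ φ fun x hx =>
      h5.mul_right_eq_zero.1 (by rw [← map_mul, r2 x hx, map_zero])
    rw [f2, f1, mul_inv_eq_iff_eq_mul, ← ht] at h6
    exact fun x hx => Ideal.Quotient.eq_zero_iff_mem.1 (z.kill rfl h6 hx)
  have hjac : RingHom.ker (π : C →+* GA S₀ M) ≤ Ideal.jacobson ⊥ := by
    refine le_sInf fun p ⟨_, hp⟩ x hx => ?_
    let := Ideal.Quotient.field p
    let Ω := AlgebraicClosure (C ⧸ p)
    let φ : C →ₐ[R] Ω := (IsScalarTower.toAlgHom R (C ⧸ p) Ω).comp (Ideal.Quotient.mkₐ R p)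
    have ht' := ht.base (φ.comp jC)
    have := hF Ω
    obtain ⟨n, deg, hw⟩ := exists_wts ht'
    obtain ⟨C', _, _, jC', u', hC'⟩ := exists_repZ ht'
    have := Rep.isDomain_Z ht' hw hC'
    obtain ⟨ψ, g1, g2⟩ := (hC.mem _ _ u').1 ((inG_bc jC').1
      ((hC'.mem C' jC' u').2 ⟨AlgHom.id R C', rfl, rfl⟩))
    obtain ⟨e, -, e2⟩ := (hC'.mem Ω (AlgHom.id R Ω) 1).1 InG.one
    obtain ⟨φ', k1, k2⟩ := (hC'.mem Ω (AlgHom.id R Ω) (pm φ u)).1
      ((inG_bc _).2 (z.univ.map φ))
    have h1 : IsUnit (e (ψ r)) := one (e.comp ψ) (by rw [← pm_pm, g2, e2])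
    have h2 : ψ x = 0 := (mul_eq_zero.1 (by rw [← map_mul, r2 x hx, map_zero])).resolve_left
      fun h0 : ψ r = 0 => h1.ne_zero (by rw [h0, map_zero])
    have h3 : φ'.comp ψ = φ := hC.uniq _ _ _
      (by rw [AlgHom.comp_assoc, g1, ← AlgHom.comp_assoc, k1, AlgHom.id_comp])
      (by rw [← pm_pm, g2, k2])
    have h4 : φ x = 0 := by rw [← h3, AlgHom.comp_apply, h2, map_zero]
    exact Ideal.Quotient.eq_zero_iff_mem.1 ((map_eq_zero (algebraMap (C ⧸ p) Ω)).1 h4)
  have h0 := Submodule.eq_bot_of_le_smul_of_le_jacobson_bot _ _ hK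
    (by rwa [smul_eq_mul, ← pow_two]) hjac
  intro S _ _ j' g hg
  obtain ⟨φ, rfl, rfl⟩ := (hC.mem S j' g).1 hg
  obtain ⟨τ, hτ⟩ := z.factor hπ φ fun x hx => by
    rw [show x = 0 from (Submodule.eq_bot_iff _).1 h0 x hx, map_zero]
  exact ⟨τ, hτ, fun τ' h' => z.tev_inj hπ _ (h'.symm.trans hτ)⟩

end Pool.Agent.RED.X

namespace Pool.Agent.RED

alias ZT.spread := X.ZT.spread

end Pool.Agent.RED
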