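import Pool.Agent.P.MP_c1f06d_ag.g.Root
import Pool.Agent.P.MP_c1f06d_ag.g.Prod
import Pool.Agent.P.MP_c1f06d_ag.g.Cell
import Pool.Agent.P.MP_c1f06d_ag.g.Cover
import Pool.Agent.P.MP_c1f06d_ag.g.Chart
import Pool.Agent.P.MP_c1f06d_ag.g.ZTs
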