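import Pool.Agent.P.MP_c1f06d_ag.g.AutA
import Pool.Agent.P.MP_c1f06d_ag.g.BStmt

/-! The root datum is determined by the torus. -/

open WithConv Pool.Agent.GR Polynomial

universe u

namespace Pool.Agent.RED.Au

variable {R A : Type u} [CommRing R] [CommRing A] [HopfAlgebra R A]
  {S₀ S S' : Type u} [CommRing S₀] [Algebra R S₀] [CommRing S] [Algebra R S] [CommRing S']
  [Algebra R S'] {M : Type} [AddCommGroup M] {t : Pt R A (GA S₀ M)} {α β : M}
  {x y x' y' : Pt R A (Polynomial S₀)}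

theorem cv_inj (h : IsRoot t α x) (j : S₀ →ₐ[R] S) : Function.Injective (cv x j) :=
  fun _ _ e => (h.bij S j).2.1 trivial trivial e

theorem cv_zero (h : IsRoot t α x) (j : S₀ →ₐ[R] S) : cv x j 0 = 1 := by
  have := h.add S j 0 0
  rw [add_zero] at this
  exact mul_eq_left.1 this.symm

theorem cv_neg (h : IsRoot t α x) (j : S₀ →ₐ[R] S) (a : S) : cv x j (-a) = (cv x j a)⁻¹ :=
  eq_inv_of_mul_eq_one_left (by rw [← h.add, neg_add_cancel, cv_zero h])

theorem cv_mem (h : IsRoot t α x) (j : S₀ →ₐ[R] S) (a : S) : InU (ray α) t j (cv x j a) :=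
  (h.bij S j).1 trivial

/-- A curve in a root group is given by a polynomial. -/
theorem exists_poly (h : IsRoot t α x)
    (hy : InU (ray α) t (IsScalarTower.toAlgHom R S₀ S₀[X]) (cv y (IsScalarTower.toAlgHom R S₀ S₀[X]) X)) :
    ∃ p : S₀[X], ∀ (S : Type u) [CommRing S] [Algebra R S] (j : S₀ →ₐ[R] S) (a : S),
      cv y j a = cv x j (aevalTower j a p) := by
  obtain ⟨p, -, hp⟩ := (h.bij _ _).2.2 hy
  refine ⟨p, fun S _ _ j a => ?_⟩
  have := congrArg (pm (aevalTower j a)) hp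
  rw [pm_cv, pm_cv, aevalTower_comp_toAlgHom, aevalTower_X] at this
  exact this.symm

theorem coeff_aeval [DecidableEq M] (p : S₀[X]) (m : M) (n : ℕ) :
    ((aevalTower ((cst R S₀[X] M).comp (IsScalarTower.toAlgHom R S₀ S₀[X]))
      (AddMonoidAlgebra.single β X) p).coeff m).coeff n = if n • β = m then p.coeff n else 0 := by
  induction p using Polynomial.induction_on' with
  | add p q hp hq =>
    rw [map_add, AddMonoidAlgebra.coeff_add, Finsupp.add_apply, coeff_add, hp, hq, coeff_add]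
    split_ifs <;> simp
  | monomial k a =>
    rw [← C_mul_X_pow_eq_monomial, map_mul, map_pow, aevalTower_C, aevalTower_X,
      AddMonoidAlgebra.single_pow, AlgHom.comp_apply, cst_apply, AddMonoidAlgebra.single_mul_single,
      zero_add, AddMonoidAlgebra.coeff_single, Finsupp.single_apply]
    by_cases h : n = k
    · subst h
      split_ifs <;> simp
    · split_ifs <;> simp [coeff_X_pow, h]

/-- A nonzero equivariant polynomial has a monomial of the right weight. -/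
theorem exists_deg (h : IsRoot t α x) (h' : IsRoot t β y) (hr : ray β ≤ ray α) [Nontrivial S₀] :
    ∃ n : ℕ, n • β = α := by
  classical
  let j := IsScalarTower.toAlgHom R S₀ S₀[X]
  obtain ⟨p, hp⟩ := exists_poly (y := y) h ((cv_mem h' j X).mono hr)
  have hp0 : p ≠ 0 := by
    rintro rfl
    have e0 := hp S₀ (AlgHom.id R S₀) 0
    have e1 := hp S₀ (AlgHom.id R S₀) 1
    rw [map_zero] at e0 e1
    exact zero_ne_one (cv_inj h' _ (e0.trans e1.symm))
  have e : aevalTower j X p = p := by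
    have : aevalTower j X = AlgHom.id R S₀[X] := by
      ext <;> simp [j]
    rw [this]
    rfl
  have h1 := h'.cj_cv (j := j) X
  rw [hp, e, h.cj_cv, hp] at h1
  have h2 := congrArg (fun z : GA S₀[X] M => (z.coeff α).coeff p.natDegree) (cv_inj h _ h1)
  simp only [j, coeff_aeval] at h2
  refine ⟨p.natDegree, by_contra fun hn => hp0 ?_⟩
  rw [if_neg hn] at h2
  simpa using h2

theorem ray_le (h : β ∈ ray α) : ray β ≤ ray α := by
  obtain ⟨p, q, hq, e⟩ := h
  rintro m ⟨p', q', hq', e'⟩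
  exact ⟨p' * p, q * q', Nat.mul_pos hq hq', by rw [mul_smul, e', smul_comm, e, mul_smul]⟩

theorem self_mem_ray (α : M) : α ∈ ray α := ⟨1, 1, one_pos, rfl⟩

theorem mem_ray_symm [Module.Free ℤ M] (h : β ∈ ray α) (hβ : β ≠ 0) : α ∈ ray β := by
  obtain ⟨p, q, hq, e⟩ := h
  refine ⟨q, p, Nat.pos_of_ne_zero ?_, e.symm⟩
  rintro rfl
  rw [zero_smul, ← natCast_zsmul, smul_eq_zero] at e
  rcases e with e | e
  · omega
  · exact hβ e

/-- Two roots on the same ray are equal. -/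
theorem root_eq [Module.Free ℤ M] [Nontrivial S₀] (h : IsRoot t α x) (h' : IsRoot t β y)
    (hβ : β ≠ 0) (hr : β ∈ ray α) : β = α := by
  obtain ⟨n, hn⟩ := exists_deg h h' (ray_le hr)
  obtain ⟨m, hm⟩ := exists_deg h' h (ray_le (mem_ray_symm hr hβ))
  have h1 : ((m * n : ℕ) - 1 : ℤ) • β = 0 := by
    rw [sub_smul, natCast_zsmul, mul_smul, hn, hm, one_smul, sub_self]
  rcases smul_eq_zero.1 h1 with e | e
  · have : m * n = 1 := by omega
    rw [← hn, Nat.eq_one_of_mul_eq_one_left this, one_smul]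
  · exact absurd e hβ

/-- A root is one of the weights, if each weight is a root. -/
theorem root_mem [Module.Free ℤ M] [Nontrivial S₀] {ι : Type} {deg : ι → M} (hw : Wts t deg)
    (hd : ∀ i, ∃ z, IsRoot t (deg i) z) (h : IsRoot t α x) (hα : α ≠ 0) : ∃ i, deg i = α := by
  obtain ⟨Y, hY⟩ := hw.2 (ray α) (pos_ray hα)
  by_cases hi : ∃ i, deg i ∈ ray α
  · obtain ⟨i, hi⟩ := hi
    obtain ⟨z, hz⟩ := hd i
    exact ⟨i, root_eq h hz (hw.1 i) hi⟩
  · have : IsEmpty {i // deg i ∈ ray α} := ⟨fun i => hi ⟨i.1, i.2⟩⟩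
    obtain ⟨s, -, hs⟩ := (hY.bij S₀ (AlgHom.id R S₀)).2.2 (cv_mem h _ 0)
    obtain ⟨s', -, hs'⟩ := (hY.bij S₀ (AlgHom.id R S₀)).2.2 (cv_mem h _ 1)
    rw [Subsingleton.elim s s', hs'] at hs
    exact absurd (cv_inj h _ hs) one_ne_zero

theorem tev_inj (ht : IsHom t) (hz : ZT t) (j : S₀ →ₐ[R] S) : Function.Injective (tev t j) :=
  fun τ _ e => (hz S j _ (ht.inG_tev τ)).unique rfl e

/-- Uniqueness in the rank one cell. -/
theorem rank_one_uniq [Module.Free ℤ M] (ht : IsHom t) (hz : ZT t) {l : M →+ ℤ} (hl : 0 < l α)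
    (hx : IsRoot t α x) (hy : IsRoot t (-α) y) {j : S₀ →ₐ[R] S} {a a' b b' : S} {τ τ' : TP M S}
    (h : cv y j b * tev t j τ * cv x j a = cv y j b' * tev t j τ' * cv x j a') :
    b = b' ∧ τ = τ' ∧ a = a' := by
  have h1 : ray (-α) ≤ hs (-l) := ray_le_hs (by simpa using hl)
  obtain ⟨e1, e2, e3⟩ := cell_uniq ht ((cv_mem hy j b).mono h1) (ht.inG_tev τ)
    ((cv_mem hx j a).mono (ray_le_hs hl)) ((cv_mem hy j b').mono h1) (ht.inG_tev τ')
    ((cv_mem hx j a').mono (ray_le_hs hl)) h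
  exact ⟨cv_inj hy j e1, tev_inj ht hz j e2, cv_inj hx j e3⟩

theorem SL2_scale {cor : M →+ ℤ} {c : S₀} (h : SL2 t cor c x y) (p q : S₀)
    (hx : ∀ (S : Type u) [CommRing S] [Algebra R S] (j : S₀ →ₐ[R] S) (a : S),
      cv x' j a = cv x j (j p * a))
    (hy : ∀ (S : Type u) [CommRing S] [Algebra R S] (j : S₀ →ₐ[R] S) (a : S),
      cv y' j a = cv y j (j q * a)) : SL2 t cor (c * p * q) x' y' := fun S _ _ j a b s hs => by
  rw [hx, hy, hx, hy, h S j _ _ s (by rw [hs, map_mul, map_mul]; ring), mul_assoc (j q),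
    mul_assoc (j p)]

/-- The constant and the coroot of the rank one relation are unique. -/
theorem sl2_uniq [Module.Free ℤ M] [Nontrivial S₀] (ht : IsHom t) (hz : ZT t) {l : M →+ ℤ}
    (hl : 0 < l α) (hx : IsRoot t α x) (hy : IsRoot t (-α) y) {cor cor' : M →+ ℤ} {c c' : S₀}
    (hc : IsUnit c) (h : SL2 t cor c x y) (h' : SL2 t cor' c' x y) : c' = c ∧ cor' = cor := by
  have hcc : c' = c := by
    let j := IsScalarTower.toAlgHom R S₀ (DualNumber S₀)
    have hu : ∀ d : S₀, ∃ s : (DualNumber S₀)ˣ, (s : DualNumber S₀) = 1 + j d * DualNumber.eps * 1 :=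
      fun d => ⟨⟨1 + j d * DualNumber.eps * 1, 1 - j d * DualNumber.eps * 1,
        by linear_combination (-(j d) ^ 2) * DualNumber.eps_mul_eps (R := S₀),
        by linear_combination (-(j d) ^ 2) * DualNumber.eps_mul_eps (R := S₀)⟩, rfl⟩
    obtain ⟨s, hs⟩ := hu c
    obtain ⟨s', hs'⟩ := hu c'
    have e := (rank_one_uniq ht hz hl hx hy ((h _ j _ 1 s hs).symm.trans (h' _ j _ 1 s' hs'))).1
    rw [one_mul, one_mul, Units.val_inj, inv_inj] at e
    rw [e, hs'] at hs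
    simpa [j, TrivSqZeroExt.algebraMap_eq_inl] using congrArg TrivSqZeroExt.snd hs
  subst hcc
  refine ⟨rfl, AddMonoidHom.ext fun m => ?_⟩
  obtain ⟨d, rfl⟩ := hc
  let j := cst R S₀ ℤ
  let s : (GA S₀ ℤ)ˣ := uu S₀ 1
  have hs : (s : GA S₀ ℤ) = 1 + j d * (j (d⁻¹ : S₀ˣ) * (s - 1)) * 1 := by
    rw [← mul_assoc, ← map_mul, Units.mul_inv, map_one]
    ring
  have e := (rank_one_uniq ht hz hl hx hy ((h _ j _ 1 s hs).symm.trans (h' _ j _ 1 s hs))).2.1
  have e1 : ∀ n : ℤ, ((s ^ n : (GA S₀ ℤ)ˣ) : GA S₀ ℤ) = AddMonoidAlgebra.single n 1 := fun n => by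
    have := congrArg Units.val (map_zpow (uT S₀ ℤ) (Multiplicative.ofAdd 1) n)
    rw [← ofAdd_zsmul, smul_eq_mul, mul_one] at this
    exact this.symm
  have e2 : ((s ^ cor m : (GA S₀ ℤ)ˣ) : GA S₀ ℤ) = (s ^ cor' m : (GA S₀ ℤ)ˣ) :=
    congrArg (fun τ => chv τ m) e
  rw [e1, e1] at e2
  exact (AddMonoidAlgebra.single_left_injective one_ne_zero e2).symm

/-- Comparison of two rank one relations for the same root. -/
theorem sl2_cmp [Module.Free ℤ M] [Nontrivial S₀] (ht : IsHom t) (hz : ZT t) {l : M →+ ℤ}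
    (hl : 0 < l α) (hx : IsRoot t α x) (hy : IsRoot t (-α) y) (hx' : IsRoot t α x')
    (hy' : IsRoot t (-α) y') {cor cor' : M →+ ℤ} (h : SL2 t cor 1 x y) (h' : SL2 t cor' 1 x' y') :
    cor' = cor ∧ ∃ p : S₀ˣ,
      (∀ (S : Type u) [CommRing S] [Algebra R S] (j : S₀ →ₐ[R] S) (a : S),
        cv x' j a = cv x j (j p * a)) ∧
      ∀ (S : Type u) [CommRing S] [Algebra R S] (j : S₀ →ₐ[R] S) (a : S),
        cv y' j a = cv y j (j (p⁻¹ : S₀ˣ) * a) := by
  have hα : α ≠ 0 := by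
    rintro rfl
    simp at hl
  obtain ⟨p, hp⟩ := hx.uniq hα hx'
  obtain ⟨q, hq⟩ := hy.uniq (neg_ne_zero.2 hα) hy'
  obtain ⟨e1, e2⟩ := sl2_uniq ht hz hl hx' hy' isUnit_one h' (SL2_scale h p q hp hq)
  rw [one_mul, ← Units.val_mul, Units.val_eq_one] at e1
  exact ⟨e2.symm, p, hp, by rwa [inv_eq_of_mul_eq_one_right e1]⟩

end Pool.Agent.RED.Au
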