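import Pool.Agent.P.MP_c1f06d_ag.g.GDefs

open TensorProduct Polynomial Matrix Pool.Agent.GR

universe u

namespace Pool.Agent.RED

section points

variable {R : Type u} [CommRing R] {A : Type u} [CommRing A] [HopfAlgebra R A]
  {B C C' : Type u} [CommRing B] [Algebra R B] [CommRing C] [Algebra R C] [CommRing C']
  [Algebra R C']

/-- The value of a function on `G_B` at a point. -/
noncomputable def val (f : B →ₐ[R] C) (g : Pt R A C) : B ⊗[R] A →ₐ[R] C :=
  Algebra.TensorProduct.lift f g.ofConv fun _ _ => Commute.all _ _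

variable (R A) in
/-- The geometric fibres are integral. -/
def GI : Prop :=
  ∀ (Ω : Type u) [Field Ω] [IsAlgClosed Ω] [Algebra R Ω], IsDomain (Ω ⊗[R] A)

/-- The matrix `u` of functions is a representation. -/
def IsRep {n : ℕ} (R : Type u) [CommRing R] {A : Type u} [CommRing A] [HopfAlgebra R A]
    (u : GL (Fin n) A) : Prop :=
  ∀ (C : Type u) [CommRing C] [Algebra R C] (g g' : Pt R A C),
    gm (g * g').ofConv u = gm g.ofConv u * gm g'.ofConv u

end points

/-- `u` identifies `Spec O` with the group of the affine quotient `Q`. -/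
structure Emb {k O : Type u} [Field k] [CommRing O] [HopfAlgebra k O] {n : ℕ} (u : GL (Fin n) O)
    (Q : AffQuot k n) : Prop where
  rep : IsRep k u
  surj : Function.Surjective (ev k u)
  pt : ∀ (C : Type u) [CommRing C] [Algebra k C] (g : GL (Fin n) C),
    Q.Pt g ↔ ∃ x : Pt k O C, gm x.ofConv u = g

section hom

variable (k R : Type u) [CommRing k] [CommRing R] [Algebra k R] (A₁ A₂ : Type u) [CommRing A₁]
  [HopfAlgebra k A₁] [CommRing A₂] [HopfAlgebra R A₂] (B : Type u) [CommRing B] [Algebra k B]
  [Algebra R B] [IsScalarTower k R B]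

/-- Morphisms of `B`-schemes from `Spec A₁` (over `k`) to `Spec A₂` (over `R`). -/
abbrev Hm : Type u := A₂ →ₐ[R] B ⊗[k] A₁

variable {k R A₁ A₂ B}

/-- The map on points. -/
noncomputable def app (φ : Hm k R A₁ A₂ B) {C : Type u} [CommRing C] [Algebra k C] [Algebra R C]
    [IsScalarTower k R C] (f : B →ₐ[R] C) (g : Pt k A₁ C) : Pt R A₂ C :=
  WithConv.toConv ((Algebra.TensorProduct.lift f g.ofConv fun _ _ => Commute.all _ _).comp φ)

/-- Base change of a morphism. -/
noncomputable def push (φ : Hm k R A₁ A₂ B) {B' : Type u} [CommRing B'] [Algebra k B']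
    [Algebra R B'] [IsScalarTower k R B'] (j : B →ₐ[R] B') : Hm k R A₁ A₂ B' :=
  (Algebra.TensorProduct.map j (AlgHom.id k A₁)).comp φ

/-- A homomorphism. -/
def IsMul (φ : Hm k R A₁ A₂ B) : Prop :=
  ∀ (C : Type u) [CommRing C] [Algebra k C] [Algebra R C] [IsScalarTower k R C] (f : B →ₐ[R] C)
    (g g' : Pt k A₁ C), app φ f (g * g') = app φ f g * app φ f g'

/-- An isomorphism of groups. -/
def IsIso (φ : Hm k R A₁ A₂ B) : Prop :=
  IsMul φ ∧ ∀ (C : Type u) [CommRing C] [Algebra k C] [Algebra R C] [IsScalarTower k R C]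
    (f : B →ₐ[R] C), Function.Bijective (app φ f)

end hom

/-- The character lattice. -/
abbrev XL (r : ℕ) : Type := Fin r → ℤ

/-- The data of a based root datum with a word for each positive root. -/
structure RD0 where
  r : ℕ
  m : ℕ
  N : ℕ
  al : Fin m → XL r
  co : Fin m → XL r →+ ℤ
  wd : Fin N → List (Fin m)
  sm : Fin N → Fin m
  ix : Fin m → Fin N

namespace RD0

variable (D : RD0)

/-- The simple reflection. -/
def rf (i : Fin D.m) : XL D.r →+ XL D.r where
  toFun x := x - D.co i x • D.al i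
  map_zero' := by simp
  map_add' x y := by rw [map_add, add_smul]; abel

/-- The element of the Weyl group of a word. -/
def sw : List (Fin D.m) → XL D.r →+ XL D.r
  | [] => AddMonoidHom.id _
  | i :: l => (D.rf i).comp (sw l)

/-- The positive roots. -/
def be (j : Fin D.N) : XL D.r := D.sw (D.wd j) (D.al (D.sm j))

end RD0

/-- A based root datum with a word for each positive root. -/
structure RD extends RD0 where
  two : ∀ i, co i (al i) = 2
  indep : LinearIndependent ℤ al
  wd_ix : ∀ i, wd (ix i) = []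
  sm_ix : ∀ i, sm (ix i) = i
  inj : Function.Injective toRD0.be
  pos : ∀ j, toRD0.be j ∈ AddSubmonoid.closure (Set.range al)
  perm : ∀ i j, ∃ j', toRD0.rf i (toRD0.be j) = toRD0.be j' ∨
    toRD0.rf i (toRD0.be j) = -toRD0.be j'

/-- A diagram automorphism. -/
structure DA (D : RD) where
  θ : XL D.r ≃+ XL D.r
  π : Equiv.Perm (Fin D.m)
  al : ∀ i, θ (D.al (π i)) = D.al i
  co : ∀ i x, D.co i (θ x) = D.co (π i) x

/-- The sign. -/
def sg : Bool → ℤ
  | true => 1
  | false => -1

/-- All roots. -/
def RD0.rt (D : RD0) (p : Bool × Fin D.N) : XL D.r := sg p.1 • D.be p.2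

/-- The monoid generated by the simple roots of one sign. -/
def RD0.mon (D : RD0) (b : Bool) : AddSubmonoid (XL D.r) :=
  AddSubmonoid.closure (Set.range fun i => sg b • D.al i)

/-- The point `x ↦ t (θ x)`. -/
def twp {M : Type} [AddCommGroup M] {C : Type u} [CommRing C] (t : TP M C) (θ : M →+ M) : TP M C :=
  t.comp θ.toMultiplicative

/-- The universal point of the torus. -/
noncomputable def utp (M : Type) [AddCommGroup M] (C : Type u) [CommRing C] : TP M (GA C M) where
  toFun x := uu C x.toAdd
  map_one' := Units.ext rfl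
  map_mul' := fun _ _ => Units.ext (by simp [uu, AddMonoidAlgebra.single_mul_single])

/-- The data of a pinning of `Spec A` over the `R`-algebra `B`. -/
structure Pin (D : RD) (R A B : Type u) [CommRing R] [CommRing A] [HopfAlgebra R A] [CommRing B]
    [Algebra R B] where
  x : Bool → Fin D.m → Pt R A B[X]
  τ : Pt R A (GA B (XL D.r))

namespace Pin

variable {D : RD} {R A B : Type u} [CommRing R] [CommRing A] [HopfAlgebra R A] [CommRing B]
  [Algebra R B] (P : Pin D R A B) {C : Type u} [CommRing C] [Algebra R C] (f : B →ₐ[R] C)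

/-- The simple root subgroups. -/
noncomputable def xa (b : Bool) (i : Fin D.m) (s : C) : Pt R A C := cv (P.x b i) f s

/-- The torus. -/
noncomputable def ta (t : TP (XL D.r) C) : Pt R A C := tev P.τ f t

/-- The lift of a simple reflection. -/
noncomputable def nn (i : Fin D.m) : Pt R A C :=
  P.xa f true i 1 * P.xa f false i (-1) * P.xa f true i 1

/-- The lift of a word. -/
noncomputable def nw (l : List (Fin D.m)) : Pt R A C := (l.map (P.nn f)).prod

/-- The root subgroups. -/
noncomputable def xr (b : Bool) (j : Fin D.N) (s : C) : Pt R A C :=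
  P.nw f (D.wd j) * P.xa f b (D.sm j) s * (P.nw f (D.wd j))⁻¹

/-- The ordered product of the root subgroups of one sign. -/
noncomputable def un (b : Bool) (s : Fin D.N → C) : Pt R A C :=
  (List.ofFn fun j => P.xr f b j (s j)).prod

/-- The big cell. -/
noncomputable def cell (p : (Fin D.N → C) × TP (XL D.r) C × (Fin D.N → C)) : Pt R A C :=
  P.un f false p.1 * P.ta f p.2.1 * P.un f true p.2.2

/-- Base change of a pinning. -/
noncomputable def push {B' : Type u} [CommRing B'] [Algebra R B'] (j : B →ₐ[R] B') :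
    Pin D R A B' where
  x b i := pm (Polynomial.mapAlgHom j) (P.x b i)
  τ := bc j P.τ

variable (D B) in
/-- The ring of functions on the big cell. -/
abbrev Bc : Type u := GA (MvPolynomial (Bool × Fin D.N) B) (XL D.r)

variable (D R B) in
/-- The constants. -/
noncomputable abbrev cB : B →ₐ[R] Bc D B := IsScalarTower.toAlgHom R B (Bc D B)

/-- The universal point of the big cell. -/
noncomputable def ucell : Pt R A (Bc D B) :=
  P.cell (cB D R B) (fun j => algebraMap _ (Bc D B) (MvPolynomial.X (R := B) (false, j)),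
    utp _ _, fun j => algebraMap _ (Bc D B) (MvPolynomial.X (R := B) (true, j)))

/-- The axioms of a pinning. -/
structure Pre : Prop where
  hom : IsHom P.τ
  zt : ZT P.τ
  wts : Wts P.τ D.rt
  root : ∀ b i, IsRoot P.τ (sg b • D.al i) (P.x b i)
  sl2 : ∀ i, SL2 P.τ (D.co i) 1 (P.x true i) (P.x false i)

/-- The consequences of the axioms at one test ring. -/
structure OkAt : Prop where
  comm : ∀ i j, i ≠ j → ∀ s s', Commute (P.xa f true i s) (P.xa f false j s')
  nn_ta : ∀ i t, P.nn f i * P.ta f t * (P.nn f i)⁻¹ = P.ta f (twp t (D.rf i))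
  unip : ∀ b, Set.BijOn (P.un f b) Set.univ {g | InU (D.mon b) P.τ f g}
  un_mul : ∀ b s s', ∃ s'', P.un f b s * P.un f b s' = P.un f b s''
  cell_inj : Function.Injective (P.cell f)
  loc : ∀ g : Pt R A C, (∀ m : Ideal C, m.IsMaximal → ∃ (L : Type u) (_ : CommRing L)
    (_ : Algebra R L) (_ : Nontrivial L) (j : C →ₐ[R] L), (∀ c ∈ m, j c = 0) ∧
      pm j g ∈ Set.range (P.cell (j.comp f))) → g ∈ Set.range (P.cell f)
  gen : ∀ (n : ℕ) (g : Fin n → Pt R A C), ∃ (C' : Type u) (_ : CommRing C') (_ : Algebra R C')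
    (j : C →ₐ[R] C') (η : Pt R A C'), (j : C →+* C').FaithfullyFlat ∧
      ∀ i, η * pm j (g i) ∈ Set.range (P.cell (j.comp f))

/-- The consequences of the axioms. -/
structure Ok : Prop where
  pre : P.Pre
  at' : ∀ (C : Type u) [CommRing C] [Algebra R C] (f : B →ₐ[R] C), P.OkAt f
  xroot : ∀ b j, ∃ y : Pt R A B[X], IsRoot P.τ (D.rt (b, j)) y ∧
    ∀ (C : Type u) [CommRing C] [Algebra R C] (f : B →ₐ[R] C) (s : C), cv y f s = P.xr f b j s
  flat : (val (cB D R B) P.ucell : B ⊗[R] A →+* Bc D B).Flat

end Pin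

/-- The morphism `φ` sends one pinning to the other, up to the diagram automorphism given by `θ`
and `π`. -/
def RespT {D : RD} {k R : Type u} [CommRing k] [CommRing R] [Algebra k R] {A₁ A₂ : Type u}
    [CommRing A₁] [HopfAlgebra k A₁] [CommRing A₂] [HopfAlgebra R A₂] {B : Type u} [CommRing B]
    [Algebra k B] [Algebra R B] [IsScalarTower k R B] (φ : Hm k R A₁ A₂ B) (P₁ : Pin D k A₁ B)
    (P₂ : Pin D R A₂ B) (θ : XL D.r →+ XL D.r) (π : Fin D.m → Fin D.m) : Prop :=
  ∀ (C : Type u) [CommRing C] [Algebra k C] [Algebra R C] [IsScalarTower k R C] (f : B →ₐ[R] C),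
    (∀ t, app φ f (P₁.ta (f.restrictScalars k) t) = P₂.ta f (twp t θ)) ∧
    ∀ b i s, app φ f (P₁.xa (f.restrictScalars k) b i s) = P₂.xa f b (π i) s

section form

variable {k O : Type u} [Field k] [CommRing O] [HopfAlgebra k O]

variable (k O) in
/-- In every faithful triangular representation the kernel on the graded module has finitely many
points over the algebraic closure. -/
def FK : Prop :=
  ∀ (n : ℕ) (u : GL (Fin n) O) (a : Fin n → ℤ), IsRep k u → Function.Surjective (ev k u) →
    InP a (u : Mat n O) → Set.Finite {x : Pt k O (AlgebraicClosure k) |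
      lv a ((gm x.ofConv u : GL (Fin n) _) : Mat n (AlgebraicClosure k)) = 1}

/-- On a jointly injective family of rings the automorphism `c` is an inner automorphism times
one of the `d γ`. -/
def Loc {Γ : Type} (d : Γ → Hm k k O O k) {B : Type u} [CommRing B] [Algebra k B]
    (c : Hm k k O O B) : Prop :=
  ∀ b : B, b ≠ 0 → ∃ (B' : Type u) (_ : CommRing B') (_ : Algebra k B')
    (j : B →ₐ[k] B') (g : Pt k O B') (γ : Γ), j b ≠ 0 ∧
      ∀ (C : Type u) [CommRing C] [Algebra k C] (f : B' →ₐ[k] C) (x : Pt k O C),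
        app c (f.comp j) x = pm f g * app (d γ) (Algebra.ofId k C) x * (pm f g)⁻¹

/-- The linear model of the pinned group `Spec O` with the finite set `d` of automorphisms. -/
structure Model {D : RD} (P : Pin D k O k) {Γ : Type} (d : Γ → Hm k k O O k) where
  n : ℕ
  r' : ℕ
  G : AffQuot k n
  H : AffQuot k n
  χ : Fin n → XL D.r
  χ' : Fin n → Fin r' → ℤ
  hN : H.Normalizes G
  hI : G.GeomIntegral
  hT : G.SplitTorus χ
  hW : G.WideTorus H χ χ'
  u : GL (Fin n) O
  emb : Emb u G
  tor : ∀ (C : Type u) [CommRing C] [Algebra k C] (t : TP (XL D.r) C),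
    gm (P.ta (Algebra.ofId k C) t).ofConv u = dgU fun i => t (Multiplicative.ofAdd (χ i))
  Rel : ∀ (B : Type u) [CommRing B] [Algebra k B], Hm k k O O B → GL (Fin n) B → Prop
  ex : ∀ (B : Type u) [CommRing B] [Algebra k B] (c : Hm k k O O B), IsIso c → Loc d c →
    ∃ η, Rel B c η ∧ H.Pt η
  uniq : ∀ (B : Type u) [CommRing B] [Algebra k B] (c : Hm k k O O B) (η η' : GL (Fin n) B),
    IsIso c → Rel B c η → Rel B c η' → η = η'
  nat : ∀ (B B' : Type u) [CommRing B] [Algebra k B] [CommRing B'] [Algebra k B']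
    (j : B →ₐ[k] B') (c : Hm k k O O B) (η : GL (Fin n) B), Rel B c η → Rel B' (push c j) (gm j η)
  one : ∀ (B : Type u) [CommRing B] [Algebra k B],
    Rel B Algebra.TensorProduct.includeRight 1
  mul : ∀ (B : Type u) [CommRing B] [Algebra k B] (c c' c'' : Hm k k O O B)
    (η η' : GL (Fin n) B), Rel B c η → Rel B c' η' →
      (∀ (C : Type u) [CommRing C] [Algebra k C] (f : B →ₐ[k] C) (x : Pt k O C),
        app c'' f x = app c f (app c' f x)) → Rel B c'' (η * η')
  conj : ∀ (B : Type u) [CommRing B] [Algebra k B] (c : Hm k k O O B) (η : GL (Fin n) B),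
    IsIso c → Rel B c η → ∀ (C : Type u) [CommRing C] [Algebra k C] (f : B →ₐ[k] C)
      (x : Pt k O C), gm f η * gm x.ofConv u * (gm f η)⁻¹ = gm (app c f x).ofConv u

end form

end Pool.Agent.RED
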