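import Pool.Agent.P.MP_c1f06d_ag.g.Defs

/-! The Weyl group is transitive on bases. -/

namespace Pool.Agent.RED.RD

variable (D : RD)

theorem tr_coef {x : XL D.r} (h : x ∈ AddSubmonoid.closure (Set.range D.al)) :
    ∃ c : Fin D.m → ℕ, x = ∑ k, (c k : ℤ) • D.al k := by
  induction h using AddSubmonoid.closure_induction with
  | mem x hx =>
    obtain ⟨i, rfl⟩ := hx
    exact ⟨Pi.single i 1, by simp [Pi.single_apply]⟩
  | zero => exact ⟨0, by simp⟩
  | add x y _ _ hx hy =>
    obtain ⟨a, rfl⟩ := hx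
    obtain ⟨b, rfl⟩ := hy
    exact ⟨a + b, by simp [add_smul, Finset.sum_add_distrib]⟩

theorem tr_sum {x y : XL D.r} (hx : x ∈ AddSubmonoid.closure (Set.range D.al))
    (hy : y ∈ AddSubmonoid.closure (Set.range D.al)) {i : Fin D.m} {n : ℤ}
    (h : x + y = n • D.al i) : ∃ a b : ℕ, x = a • D.al i ∧ y = b • D.al i ∧ (a : ℤ) + b = n := by
  obtain ⟨a, rfl⟩ := D.tr_coef hx
  obtain ⟨b, rfl⟩ := D.tr_coef hy
  have h0 := Fintype.linearIndependent_iff.1 D.indep
    (fun k => (a k : ℤ) + b k - if k = i then n else 0) (by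
      simp only [sub_smul, add_smul, Finset.sum_sub_distrib, Finset.sum_add_distrib, h, ite_smul,
        zero_smul, Finset.sum_ite_eq', Finset.mem_univ, if_true, sub_self])
  have h1 : ∀ k, k ≠ i → a k = 0 ∧ b k = 0 := fun k hk => by
    have := h0 k
    simp only [if_neg hk] at this
    omega
  refine ⟨a i, b i, ?_, ?_, ?_⟩
  · rw [Finset.sum_eq_single i (fun k _ hk => by simp [(h1 k hk).1]) (by simp), natCast_zsmul]
  · rw [Finset.sum_eq_single i (fun k _ hk => by simp [(h1 k hk).2]) (by simp), natCast_zsmul]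
  · have := h0 i
    simp only [if_true] at this
    omega

theorem tr_rf_rf (i : Fin D.m) (x : XL D.r) : D.rf i (D.rf i x) = x := by
  change x - D.co i x • D.al i - D.co i (x - D.co i x • D.al i) • D.al i = x
  rw [map_sub, map_zsmul, D.two, smul_eq_mul, sub_sub, ← add_smul,
    show D.co i x + (D.co i x - D.co i x * 2) = 0 by ring, zero_smul, sub_zero]

theorem tr_sw_inj (l : List (Fin D.m)) : Function.Injective (D.sw l) := by
  induction l with
  | nil => exact fun _ _ h => h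
  | cons i l ih => exact (Function.LeftInverse.injective (D.tr_rf_rf i)).comp ih

theorem tr_be_ne (j : Fin D.N) : D.be j ≠ 0 := fun h =>
  D.indep.ne_zero (D.sm j) (D.tr_sw_inj (D.wd j) (h.trans (map_zero _).symm))

theorem tr_be_ix (i : Fin D.m) : D.be (D.ix i) = D.al i := by
  rw [RD0.be, D.wd_ix, D.sm_ix]
  rfl

theorem tr_neg (j : Fin D.N) : -D.be j ∉ AddSubmonoid.closure (Set.range D.al) := fun h => by
  obtain ⟨a, b, h1, -, h3⟩ := D.tr_sum (D.pos j) h (i := D.sm j) (n := 0) (by simp)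
  have : a = 0 := by omega
  exact D.tr_be_ne j (by rw [h1, this, zero_smul])

theorem tr_cases (p : Bool × Fin D.N) : D.rt p = D.be p.2 ∨ D.rt p = -D.be p.2 := by
  obtain ⟨b, j⟩ := p
  cases b <;> simp [RD0.rt, sg]

theorem tr_rf_rt (i : Fin D.m) (p : Bool × Fin D.N) : ∃ q, D.rf i (D.rt p) = D.rt q := by
  obtain ⟨j, hj⟩ := D.perm i p.2
  rcases D.tr_cases p with h | h <;> rcases hj with e | e
  · exact ⟨(true, j), by rw [h, e]; simp [RD0.rt, sg]⟩
  · exact ⟨(false, j), by rw [h, e]; simp [RD0.rt, sg]⟩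
  · exact ⟨(false, j), by rw [h, map_neg, e]; simp [RD0.rt, sg]⟩
  · exact ⟨(true, j), by rw [h, map_neg, e]; simp [RD0.rt, sg]⟩

theorem tr_base (φ : XL D.r ≃+ XL D.r) (h : ∀ p, ∃ q, φ (D.rt p) = D.rt q)
    (hp : ∀ j, φ (D.be j) ∈ AddSubmonoid.closure (Set.range D.al)) :
    ∃ π : Equiv.Perm (Fin D.m), ∀ i, φ (D.al (π i)) = D.al i := by
  have h1 : ∀ j, ∃ j', φ (D.be j) = D.be j' := fun j => by
    obtain ⟨q, hq⟩ := h (true, j)
    have e : D.rt (true, j) = D.be j := by simp [RD0.rt, sg]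
    rw [e] at hq
    rcases D.tr_cases q with k | k
    · exact ⟨_, hq.trans k⟩
    · exact absurd (k ▸ hq ▸ hp j) (D.tr_neg _)
  choose σ hσ using h1
  have hs : Function.Surjective σ := Finite.surjective_of_injective fun a b e =>
    D.inj (φ.injective (by rw [hσ, hσ, e]))
  have hM : ∀ x ∈ AddSubmonoid.closure (Set.range D.al),
      φ x ∈ AddSubmonoid.closure (Set.range D.al) := fun x hx => by
    induction hx using AddSubmonoid.closure_induction with
    | mem x hx =>
      obtain ⟨i, rfl⟩ := hx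
      exact D.tr_be_ix i ▸ hp _
    | zero => simp
    | add x y _ _ hx hy => exact map_add φ x y ▸ add_mem hx hy
  have hd : ∀ x ∈ AddSubmonoid.closure (Set.range D.al), x = 0 ∨
      ∃ k, ∃ y ∈ AddSubmonoid.closure (Set.range D.al), x = D.al k + y := fun x hx => by
    induction hx using AddSubmonoid.closure_induction with
    | mem x hx =>
      obtain ⟨i, rfl⟩ := hx
      exact Or.inr ⟨i, 0, zero_mem _, by simp⟩
    | zero => exact Or.inl rfl
    | add x y _ hy' hx hy =>
      rcases hx with rfl | ⟨k, z, hz, rfl⟩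
      · rwa [zero_add]
      · exact Or.inr ⟨k, z + y, add_mem hz hy', add_assoc _ _ _⟩
  have h2 : ∀ i, ∃ k, φ (D.al k) = D.al i := fun i => by
    obtain ⟨j, hj⟩ := hs (D.ix i)
    obtain ⟨k, y, hy, e⟩ := (hd _ (D.pos j)).resolve_left (D.tr_be_ne j)
    obtain ⟨a, b, k1, -, k3⟩ := D.tr_sum (hM _ (AddSubmonoid.subset_closure ⟨k, rfl⟩)) (hM y hy)
      (i := i) (n := 1) (by rw [← map_add, ← e, hσ, hj, D.tr_be_ix, one_smul])
    have ha : a ≠ 0 := fun ha => D.indep.ne_zero k
      (φ.injective (by rw [k1, ha, zero_smul, map_zero]))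
    exact ⟨k, by rw [k1, show a = 1 by omega, one_smul]⟩
  choose π hπ using h2
  have hi : Function.Injective π := fun a b e =>
    D.indep.injective (by rw [← hπ a, ← hπ b, e])
  exact ⟨Equiv.ofBijective π (Finite.injective_iff_bijective.1 hi), hπ⟩

open Classical in
theorem tr_ind (n : ℕ) : ∀ φ : XL D.r ≃+ XL D.r, (∀ p, ∃ q, φ (D.rt p) = D.rt q) →
    (Finset.univ.filter fun j => φ (D.be j) ∉ AddSubmonoid.closure (Set.range D.al)).card = n →
    ∃ (l : List (Fin D.m)) (π : Equiv.Perm (Fin D.m)),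
      ∀ i, φ (D.sw l (D.al (π i))) = D.al i := by
  induction n using Nat.strong_induction_on with
  | _ n ih =>
  intro φ h hn
  by_cases h0 : ∀ i, φ (D.al i) ∈ AddSubmonoid.closure (Set.range D.al)
  · obtain ⟨π, hπ⟩ := D.tr_base φ h fun j => by
      obtain ⟨c, hc⟩ := D.tr_coef (D.pos j)
      rw [hc, map_sum]
      exact sum_mem fun k _ => by
        rw [natCast_zsmul, map_nsmul]
        exact nsmul_mem (h0 k) _
    exact ⟨[], π, hπ⟩
  obtain ⟨i, hi⟩ := not_forall.1 h0
  have hneg : -φ (D.al i) ∈ AddSubmonoid.closure (Set.range D.al) := by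
    obtain ⟨q, hq⟩ := h (true, D.ix i)
    have e : D.rt (true, D.ix i) = D.al i := by simp [RD0.rt, sg, D.tr_be_ix]
    rw [e] at hq
    rcases D.tr_cases q with k | k
    · exact absurd (hq ▸ k ▸ D.pos _) hi
    · rw [hq, k, neg_neg]
      exact D.pos _
  let ρ : XL D.r ≃+ XL D.r :=
    { D.rf i with invFun := D.rf i, left_inv := D.tr_rf_rf i, right_inv := D.tr_rf_rf i }
  have key : ∀ j, φ (D.rf i (D.be j)) ∉ AddSubmonoid.closure (Set.range D.al) →
      ∃ j', D.rf i (D.be j) = D.be j' := fun j hj => by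
    obtain ⟨j', e | e⟩ := D.perm i j
    · exact ⟨j', e⟩
    · obtain ⟨a, b, -, k2, -⟩ := D.tr_sum (D.pos j) (D.pos j') (i := i) (n := D.co i (D.be j)) (by
        have : D.be j - D.co i (D.be j) • D.al i = -D.be j' := e
        rw [← sub_neg_eq_add, ← this, sub_sub_cancel])
      refine absurd ?_ hj
      rw [e, k2, map_neg, map_nsmul, ← smul_neg]
      exact nsmul_mem hneg _
  choose! σ hσ using key
  suffices H : (Finset.univ.filter fun j =>
      φ (D.rf i (D.be j)) ∉ AddSubmonoid.closure (Set.range D.al)).card < n by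
    obtain ⟨l, π, hl⟩ := ih _ H (ρ.trans φ) (fun p => by
      obtain ⟨q, hq⟩ := D.tr_rf_rt i p
      obtain ⟨q', hq'⟩ := h q
      exact ⟨q', (congrArg φ hq).trans hq'⟩) rfl
    exact ⟨i :: l, π, hl⟩
  rw [← hn]
  have hix : D.ix i ∈ Finset.univ.filter
      fun j => φ (D.be j) ∉ AddSubmonoid.closure (Set.range D.al) := by
    simpa [D.tr_be_ix] using hi
  refine lt_of_le_of_lt (Finset.card_le_card_of_injOn σ (fun j hj => ?_) fun a ha b hb e => ?_)
    (Finset.card_erase_lt_of_mem hix)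
  · have hj' : φ (D.rf i (D.be j)) ∉ AddSubmonoid.closure (Set.range D.al) :=
      (Finset.mem_filter.1 hj).2
    refine Finset.mem_erase.2 ⟨fun e => ?_, Finset.mem_filter.2 ⟨Finset.mem_univ _, hσ j hj' ▸ hj'⟩⟩
    have e1 : D.be j = -D.be (D.ix i) := by
      rw [← D.tr_rf_rf i (D.be j), hσ j hj', e, D.tr_be_ix]
      change D.al i - D.co i (D.al i) • D.al i = _
      rw [D.two, two_smul]
      abel
    exact D.tr_neg _ (e1 ▸ D.pos j)
  · have ha' : φ (D.rf i (D.be a)) ∉ AddSubmonoid.closure (Set.range D.al) :=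
      (Finset.mem_filter.1 ha).2
    have hb' : φ (D.rf i (D.be b)) ∉ AddSubmonoid.closure (Set.range D.al) :=
      (Finset.mem_filter.1 hb).2
    exact D.inj (Function.LeftInverse.injective (D.tr_rf_rf i) (by rw [hσ a ha', hσ b hb', e]))

/-- The Weyl group is transitive on bases. -/
theorem trans (θ : XL D.r ≃+ XL D.r) (h : ∀ p, ∃ q, θ (D.rt q) = D.rt p) :
    ∃ (l : List (Fin D.m)) (π : Equiv.Perm (Fin D.m)),
      ∀ i, θ (D.sw l (D.al (π i))) = D.al i := by
  refine D.tr_ind _ θ (fun p => ?_) rfl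
  have hm : Set.MapsTo θ.symm (Set.range D.rt) (Set.range D.rt) := by
    rintro _ ⟨p, rfl⟩
    obtain ⟨q, hq⟩ := h p
    exact ⟨q, by rw [← hq, θ.symm_apply_apply]⟩
  obtain ⟨_, ⟨q, rfl⟩, e⟩ := (((Set.finite_range D.rt).injOn_iff_bijOn_of_mapsTo hm).1
    θ.symm.injective.injOn).surjOn ⟨p, rfl⟩
  exact ⟨q, by rw [← e, θ.apply_symm_apply]⟩

end Pool.Agent.RED.RD
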