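import Pool.Agent.P.MP_c1f06d_ag.g.AutB
import Pool.Agent.P.MP_c1f06d_ag.g.Defs
import Pool.Agent.P.MP_c1f06d_ag.g.RDTrans

/-! Automorphisms over an algebraically closed field. -/

open WithConv Pool.Agent.GR Polynomial
open scoped TensorProduct

universe u

namespace Pool.Agent.RED.Au

/-- A natural isomorphism of the groups of points over `S₀`. -/
structure NA (R A A' S₀ : Type u) [CommRing R] [CommRing A] [HopfAlgebra R A] [CommRing A']
    [HopfAlgebra R A'] [CommRing S₀] [Algebra R S₀] where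
  φ : ∀ (T : Type u) [CommRing T] [Algebra R T], (S₀ →ₐ[R] T) → Pt R A T ≃* Pt R A' T
  nat : ∀ (T T' : Type u) [CommRing T] [Algebra R T] [CommRing T'] [Algebra R T'] (f : T →ₐ[R] T')
    (j : S₀ →ₐ[R] T) (x : Pt R A T), pm f (φ T j x) = φ T' (f.comp j) (pm f x)

variable {R A A' : Type u} [CommRing R] [CommRing A] [HopfAlgebra R A] [CommRing A']
  [HopfAlgebra R A'] {S₀ S : Type u} [CommRing S₀] [Algebra R S₀] [CommRing S] [Algebra R S]
  {M : Type} [AddCommGroup M]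

namespace NA

variable (ψ : NA R A A' S₀) {t : Pt R A (GA S₀ M)} {Λ : AddSubmonoid M} {j : S₀ →ₐ[R] S}
  {g : Pt R A S}

/-- The inverse. -/
noncomputable def symm : NA R A' A S₀ where
  φ T _ _ j := (ψ.φ T j).symm
  nat T T' _ _ _ _ f j x := (ψ.φ T' (f.comp j)).injective (by
    rw [← ψ.nat, MulEquiv.apply_symm_apply, MulEquiv.apply_symm_apply])

/-- The image of a torus. -/
noncomputable def tor (t : Pt R A (GA S₀ M)) : Pt R A' (GA S₀ M) := ψ.φ _ (cst R S₀ M) t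

/-- The image of a curve. -/
noncomputable def crv (x : Pt R A S₀[X]) : Pt R A' S₀[X] :=
  ψ.φ _ (IsScalarTower.toAlgHom R S₀ S₀[X]) x

theorem symm_tor (t : Pt R A (GA S₀ M)) : ψ.symm.tor (ψ.tor t) = t :=
  (ψ.φ _ (cst R S₀ M)).symm_apply_apply t

theorem tev_tor (t : Pt R A (GA S₀ M)) (j : S₀ →ₐ[R] S) (τ : TP M S) :
    tev (ψ.tor t) j τ = ψ.φ S j (tev t j τ) := by
  rw [tev, tor, ψ.nat, tl_cst, tev]

theorem cv_crv (x : Pt R A S₀[X]) (j : S₀ →ₐ[R] S) (a : S) :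
    cv (ψ.crv x) j a = ψ.φ S j (cv x j a) := by
  rw [cv, crv, ψ.nat, aevalTower_comp_toAlgHom, cv]

theorem cj_tor (t : Pt R A (GA S₀ M)) (j : S₀ →ₐ[R] S) (g : Pt R A S) :
    cj (ψ.tor t) j (ψ.φ S j g) = ψ.φ _ ((cst R S M).comp j) (cj t j g) := by
  rw [cj_eq, cj_eq, tev_tor, ψ.nat, map_mul, map_mul, map_inv]

/-- The constants of the subalgebra. -/
noncomputable def cs (R S : Type u) [CommRing R] [CommRing S] [Algebra R S] (Λ : AddSubmonoid M) :
    S →ₐ[R] sup R S Λ := (cst R S M).codRestrict _ fun s => single_mem_sup Λ.zero_mem s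

theorem pm_sup {y : Pt R A (sup R S Λ)} (hy : pm (sup R S Λ).val y = cj t j g) :
    pm (sup R S Λ).val (ψ.φ _ ((cs R S Λ).comp j) y) = cj (ψ.tor t) j (ψ.φ S j g) := by
  rw [ψ.nat, hy, cj_tor]
  rfl

theorem inG (h : InG Λ t j g) : InG Λ (ψ.tor t) j (ψ.φ S j g) :=
  let ⟨_, hy⟩ := RED.inG_iff.1 h
  RED.inG_iff.2 ⟨_, ψ.pm_sup hy⟩

theorem inU (hΛ : Pos Λ) (h : InU Λ t j g) : InU Λ (ψ.tor t) j (ψ.φ S j g) := by
  obtain ⟨y, hy⟩ := RED.inG_iff.1 h.1
  have h1 := IsLim.of_pm hΛ (ψ.pm_sup hy)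
  rw [ψ.nat, (IsLim.of_pm hΛ hy).uniq h.2, map_one] at h1
  exact ⟨ψ.inG h.1, h1⟩

theorem inG' {g : Pt R A' S} (h : InG Λ (ψ.tor t) j g) : InG Λ t j ((ψ.φ S j).symm g) := by
  have := ψ.symm.inG h
  rwa [symm_tor] at this

theorem inU' (hΛ : Pos Λ) {g : Pt R A' S} (h : InU Λ (ψ.tor t) j g) :
    InU Λ t j ((ψ.φ S j).symm g) := by
  have := ψ.symm.inU hΛ h
  rwa [symm_tor] at this

theorem isHom (h : IsHom t) : IsHom (ψ.tor t) := fun S _ _ j τ τ' => by
  rw [tev_tor, tev_tor, tev_tor, h, map_mul]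

theorem zt (h : ZT t) : ZT (ψ.tor t) := fun S _ _ j g hg => by
  obtain ⟨τ, h1, h2⟩ := h S j _ (ψ.inG' hg)
  refine ⟨τ, ?_, fun τ' h3 => h2 τ' ?_⟩
  · show g = _
    rw [tev_tor, ← h1, MulEquiv.apply_symm_apply]
  · have h4 : g = _ := h3
    rw [h4, tev_tor, MulEquiv.symm_apply_apply]

theorem isRoot {α : M} (hα : Pos (ray α)) {x : Pt R A S₀[X]} (h : IsRoot t α x) :
    IsRoot (ψ.tor t) α (ψ.crv x) := by
  refine ⟨fun S _ _ j => ⟨fun a _ => ?_, fun a _ b _ e => ?_, fun g hg => ?_⟩,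
    fun S _ _ j a b => ?_, fun S _ _ j τ a => ?_⟩
  · rw [cv_crv]
    exact ψ.inU hα (cv_mem h j a)
  · rw [cv_crv, cv_crv] at e
    exact cv_inj h j ((ψ.φ S j).injective e)
  · obtain ⟨a, -, e⟩ := (h.bij S j).2.2 (ψ.inU' hα hg)
    exact ⟨a, trivial, by rw [cv_crv, e, MulEquiv.apply_symm_apply]⟩
  · rw [cv_crv, cv_crv, cv_crv, h.add, map_mul]
  · rw [cv_crv, cv_crv, tev_tor, ← h.eqv, map_mul, map_mul, map_inv]

theorem sl2 {cor : M →+ ℤ} {c : S₀} {x y : Pt R A S₀[X]} (h : SL2 t cor c x y) :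
    SL2 (ψ.tor t) cor c (ψ.crv x) (ψ.crv y) := fun S _ _ j a b s hs => by
  rw [cv_crv, cv_crv, cv_crv, cv_crv, tev_tor, ← map_mul, h S j a b s hs, map_mul, map_mul]

end NA

theorem tor_ext {t t' : Pt R A (GA S₀ M)}
    (h : ∀ (S : Type u) [CommRing S] [Algebra R S] (j : S₀ →ₐ[R] S) (τ : TP M S),
      tev t j τ = tev t' j τ) : t = t' := by
  have e : ∀ t : Pt R A (GA S₀ M), tev t (cst R S₀ M) (uT S₀ M) = t := fun t => by
    have : tl (cst R S₀ M) (uT S₀ M) = AlgHom.id R _ := by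
      ext <;> simp [chv_uT, cst_apply, AddMonoidAlgebra.single_mul_single]
    rw [tev, this, pm_id]
  rw [← e t, h, e]

/-- A torus point with prescribed values on independent characters. -/
theorem exists_tp {Ω : Type u} [Field Ω] [IsAlgClosed Ω] {ι : Type} {v : ι → M}
    (hv : LinearIndependent ℤ v) (p : ι → Ωˣ) : ∃ σ : TP M Ω, ∀ i, chv σ (v i) = p i := by
  let _ : DivisibleBy (Additive Ωˣ) ℤ := divisibleByOfSMulRightSurj _ _ fun {n} hn a => by
    obtain ⟨z, hz⟩ := IsAlgClosed.exists_pow_nat_eq ((a.toMul : Ωˣ) : Ω) (Int.natAbs_pos.2 hn)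
    have h0 : z ≠ 0 := by
      rintro rfl
      rw [zero_pow (Int.natAbs_ne_zero.2 hn)] at hz
      exact a.toMul.ne_zero hz.symm
    have h1 : n.natAbs • Additive.ofMul (Units.mk0 z h0) = a := congrArg Additive.ofMul
      (Units.ext (by simpa using hz) : Units.mk0 z h0 ^ n.natAbs = a.toMul)
    refine ⟨n.sign • Additive.ofMul (Units.mk0 z h0), ?_⟩
    show n • n.sign • _ = a
    rw [smul_smul, Int.mul_sign_self, natCast_zsmul, h1]
  obtain ⟨F, hF⟩ := (Module.Baer.of_divisible (Additive Ωˣ)).extension_property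
    (Finsupp.linearCombination ℤ v) hv (Finsupp.linearCombination ℤ fun i => Additive.ofMul (p i))
  refine ⟨AddMonoidHom.toMultiplicativeLeft F.toAddMonoidHom, fun i => ?_⟩
  have := LinearMap.congr_fun hF (Finsupp.single i 1)
  simp only [LinearMap.comp_apply, Finsupp.linearCombination_single, one_smul] at this
  exact congrArg (fun z : Additive Ωˣ => ((z.toMul : Ωˣ) : Ω)) this

variable {D : RD}

theorem rf_rf (i : Fin D.m) (x : XL D.r) : D.rf i (D.rf i x) = x := by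
  show x - D.co i x • D.al i - D.co i (x - D.co i x • D.al i) • D.al i = x
  rw [map_sub, map_zsmul, D.two, smul_eq_mul, sub_smul, mul_smul, two_smul, smul_add]
  abel

theorem sw_bij (l : List (Fin D.m)) : Function.Bijective (D.sw l) := by
  induction l with
  | nil => exact Function.bijective_id
  | cons i l ih => exact (Function.Involutive.bijective (rf_rf i)).comp ih

theorem nw_ta {P : Pin D R A S₀} {f : S₀ →ₐ[R] S} (h : P.OkAt f) (l : List (Fin D.m))
    (τ : TP (XL D.r) S) : P.ta f τ = P.nw f l * P.ta f (tc τ (D.sw l)) * (P.nw f l)⁻¹ := by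
  induction l generalizing τ with
  | nil =>
    have e : P.nw f [] = 1 := rfl
    rw [e, one_mul, inv_one, mul_one]
    exact congrArg (P.ta f) (tp_ext fun _ => rfl)
  | cons i l ih =>
    have e : τ = twp (tc τ (D.rf i)) (D.rf i) :=
      tp_ext fun m => (congrArg (chv τ) (rf_rf i m)).symm
    have e2 : P.nw f (i :: l) = P.nn f i * P.nw f l := rfl
    rw [e2, e, ← h.nn_ta, ih, ← e]
    have e3 : tc (tc τ (D.rf i)) (D.sw l) = tc τ (D.sw (i :: l)) := rfl
    rw [e3]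
    group

theorem pm_nw (P : Pin D R A S₀) (f : S₀ →ₐ[R] S) (l : List (Fin D.m)) :
    pm f (P.nw (AlgHom.id R S₀) l) = P.nw f l := by
  rw [Pin.nw, Pin.nw, map_list_prod, List.map_map]
  congr 2
  funext i
  simp only [Function.comp_apply, Pin.nn, Pin.xa, map_mul, pm_cv, AlgHom.comp_id, map_one, map_neg]

/-- An automorphism moves the pinning by a diagram automorphism and an inner automorphism. -/
theorem aut_core {Ω : Type u} [Field Ω] [IsAlgClosed Ω] [Algebra R Ω] {P : Pin D R A Ω}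
    (hP : P.Ok) (ψ : NA R A A Ω) (g : Pt R A Ω) (e : XL D.r ≃+ XL D.r)
    (he : ψ.tor P.τ = cg g (tw (e : XL D.r →+ XL D.r) P.τ)) :
    ∃ (g : Pt R A Ω) (γ : DA D), ∀ (T : Type u) [CommRing T] [Algebra R T] (j : Ω →ₐ[R] T),
      (∀ τ, ψ.φ T j (P.ta j τ) = pm j g * P.ta j (twp τ γ.θ) * (pm j g)⁻¹) ∧
      ∀ b i s, ψ.φ T j (P.xa j b i s) = pm j g * P.xa j b (γ.π i) s * (pm j g)⁻¹ := by
  have h0 := hP.pre
  have back : ∀ {g : Pt R A Ω} {t : Pt R A (GA Ω (XL D.r))}, ψ.tor P.τ = cg g t →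
      t = cg g⁻¹ (ψ.tor P.τ) := fun h => by rw [h, cg_cg, inv_mul_cancel, cg_one]
  obtain ⟨l, π, hπ⟩ := D.trans e fun p => by
    obtain ⟨y, hy, -⟩ := hP.xroot p.1 p.2
    have h1 := isRoot_cg g⁻¹ (ψ.isRoot (pos_ray (h0.wts.1 p)) hy)
    rw [← back he] at h1
    have h2 := isRoot_tw e.symm h1
    rw [tw_tw, show (e.symm : XL D.r →+ XL D.r).comp (e : XL D.r →+ XL D.r) = AddMonoidHom.id _ from
      AddMonoidHom.ext e.symm_apply_apply, tw_id] at h2
    obtain ⟨q, hq⟩ := root_mem h0.wts (fun q => (hP.xroot q.1 q.2).imp fun _ h => h.1) h2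
      fun h => h0.wts.1 p (e.symm.map_eq_zero_iff.1 h)
    exact ⟨q, by rw [hq, e.apply_symm_apply]⟩
  let θ : XL D.r ≃+ XL D.r := (AddEquiv.ofBijective (D.sw l) (sw_bij l)).trans e
  have hθ : ∀ i, θ (D.al (π i)) = D.al i := hπ
  let g1 := g * P.nw (AlgHom.id R Ω) l
  have h1 : ψ.tor P.τ = cg g1 (tw (θ : XL D.r →+ XL D.r) P.τ) := tor_ext fun T _ _ j τ => by
    have := nw_ta (hP.at' T j) l (tc τ (e : XL D.r →+ XL D.r))
    rw [Pin.ta, Pin.ta] at this
    rw [he, tev_cg, tev_cg, tev_tw, tev_tw, map_mul, pm_nw, this]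
    simp only [mul_assoc, _root_.mul_inv_rev]
    rfl
  have hne : ∀ b i, sg b • D.al i ≠ 0 := fun b i h => by
    have := congrArg (D.co i) h
    rw [map_zsmul, D.two, map_zero] at this
    cases b <;> simp [sg] at this
  have r2 : ∀ b i, IsRoot (tw (θ : XL D.r →+ XL D.r) P.τ) (sg b • D.al i) (P.x b (π i)) :=
    fun b i => by
    have := isRoot_tw θ (h0.root b (π i))
    rwa [map_zsmul, hθ] at this
  have r3 : ∀ b i, IsRoot (tw (θ : XL D.r →+ XL D.r) P.τ) (sg b • D.al i)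
      (cgX g1⁻¹ (ψ.crv (P.x b i))) := fun b i => by
    rw [back h1]
    exact isRoot_cg _ (ψ.isRoot (pos_ray (hne b i)) (h0.root b i))
  have cmp := fun i => sl2_cmp (α := D.al i) (l := D.co i) (isHom_tw _ h0.hom) (zt_tw θ h0.zt)
    (by rw [D.two]; exact two_pos) (by simpa [sg] using r2 true i) (by simpa [sg] using r2 false i)
    (by simpa [sg] using r3 true i) (by simpa [sg] using r3 false i) (sl2_tw θ (h0.sl2 (π i)))
    (by rw [back h1]; exact sl2_cg _ (ψ.sl2 (h0.sl2 i)))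
  choose hco p hp hq using cmp
  obtain ⟨σ, hσ⟩ := exists_tp (D.indep.comp π π.injective) p
  refine ⟨g1 * P.ta (AlgHom.id R Ω) σ, ⟨θ, π, hθ, fun i x => by rw [hco i]; simp⟩,
    fun T _ _ j => ⟨fun τ => ?_, fun b i s => ?_⟩⟩
  · rw [map_mul, Pin.ta, Pin.ta, Pin.ta, pm_tev, AlgHom.comp_id, ← ψ.tev_tor, h1, tev_cg, tev_tw,
      mul_assoc _ (tev P.τ j (tm j σ)), h0.hom.tev_comm]
    simp only [mul_assoc, _root_.mul_inv_rev, mul_inv_cancel_left]
    rfl
  · have h2 : pm j g1 * cv (cgX g1⁻¹ (ψ.crv (P.x b i))) j s * (pm j g1)⁻¹ =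
        ψ.φ T j (P.xa j b i s) := by
      rw [cv_cgX, ψ.cv_crv, map_inv, Pin.xa]
      group
    have h3 := (h0.root b (π i)).eqv T j (tm j σ) s
    have h4 : cv (cgX g1⁻¹ (ψ.crv (P.x b i))) j s =
        cv (P.x b (π i)) j (chv (tm j σ) (sg b • D.al (π i)) * s) := by
      have h5 : chv σ (D.al (π i)) = p i := hσ i
      cases b
      · rw [hq, chv_tm]
        congr 3
        refine Units.inv_eq_of_mul_eq_one_right ?_
        rw [← h5, ← chv_add]
        simp [sg, chv]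
      · rw [hp, chv_tm, ← h5]
        simp [sg]
    rw [← h2, h4, ← h3, map_mul _ g1, Pin.ta, pm_tev, AlgHom.comp_id, Pin.xa]
    group

section final

variable {k O : Type u} [Field k] [CommRing O] [HopfAlgebra k O]

theorem app_eq {B C : Type u} [CommRing B] [Algebra k B] [CommRing C] [Algebra k C]
    (φ : Hm k k O O B) (f : B →ₐ[k] C) (x : Pt k O C) : app φ f x =
      pm (Algebra.TensorProduct.lift f x.ofConv fun _ _ => Commute.all _ _) (toConv φ) := rfl

theorem app_nat {B C C' : Type u} [CommRing B] [Algebra k B] [CommRing C] [Algebra k C]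
    [CommRing C'] [Algebra k C'] (φ : Hm k k O O B) (f : B →ₐ[k] C) (j : C →ₐ[k] C')
    (x : Pt k O C) : pm j (app φ f x) = app φ (j.comp f) (pm j x) := by
  rw [app_eq, app_eq, pm_pm]
  congr 2
  ext <;> simp

theorem alg_eq {C : Type u} [CommRing C] (i₁ i₂ : Algebra k C)
    (h : @IsScalarTower k k C _ i₂.toSMul i₁.toSMul) : i₁ = i₂ :=
  Algebra.algebra_ext _ _ fun r =>
    @IsScalarTower.algebraMap_apply k k C _ _ _ _ i₂ i₁ h r

/-- The natural isomorphism of an isomorphism. -/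
noncomputable def ofIso {B : Type u} [CommRing B] [Algebra k B] {c : Hm k k O O B} (hc : IsIso c) :
    NA k O O B where
  φ T _ _ j := MulEquiv.ofBijective (MonoidHom.mk' (app c j) (hc.1 T j)) (hc.2 T j)
  nat _ _ _ _ _ _ f j x := app_nat c j f x

/-- AUT from the uniqueness theorem and the conjugacy of tori. -/
theorem aut_of {Q : Pin D k O k} (Ω : Type u) [Field Ω] [IsAlgClosed Ω] [Algebra k Ω]
    (h : (Q.push (Algebra.ofId k Ω)).Ok)
    (huniq : ∀ (P₂ : Pin D k O Ω) (φ ψ : Hm k k O O Ω), IsMul φ → IsMul ψ →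
      RespT φ (Q.push (Algebra.ofId k Ω)) P₂ (AddMonoidHom.id _) id →
      RespT ψ (Q.push (Algebra.ofId k Ω)) P₂ (AddMonoidHom.id _) id → φ = ψ)
    (hconj : ∀ t t' : Pt k O (GA Ω (XL D.r)), IsHom t → ZT t → IsHom t' → ZT t' →
      ∃ (g : Pt k O Ω) (e : XL D.r ≃+ XL D.r), ∀ (T : Type u) [CommRing T] [Algebra k T]
        (j : Ω →ₐ[k] T) (τ : TP (XL D.r) T),
          tev t' j τ = pm j g * tev t j (tc τ (e : XL D.r →+ XL D.r)) * (pm j g)⁻¹)
    {c : Hm k k O O Ω} (hc : IsIso c) :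
    ∃ (g : Pt k O Ω) (γ : DA D), ∀ d : Hm k k O O k, IsMul d → RespT d Q Q γ.θ γ.π →
      ∀ (C : Type u) [CommRing C] [Algebra k C] (f : Ω →ₐ[k] C) (x : Pt k O C),
        app c f x = pm f g * app d (Algebra.ofId k C) x * (pm f g)⁻¹ := by
  let ψ := ofIso hc
  obtain ⟨g0, e, he⟩ := hconj _ _ h.pre.hom h.pre.zt (ψ.isHom h.pre.hom) (ψ.zt h.pre.zt)
  obtain ⟨g, γ, hγ⟩ := aut_core h ψ g0 e (tor_ext fun T _ _ j τ => by rw [he, tev_cg, tev_tw])
  refine ⟨g, γ, fun d hd hr => ?_⟩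
  let i : Ω →ₐ[k] Ω ⊗[k] O := Algebra.TensorProduct.includeLeft
  let c' : Hm k k O O Ω := (pm i g * app d (Algebra.ofId k _)
    (toConv Algebra.TensorProduct.includeRight) * (pm i g)⁻¹).ofConv
  have hc' : ∀ (C : Type u) [CommRing C] [Algebra k C] (f : Ω →ₐ[k] C) (x : Pt k O C),
      app c' f x = pm f g * app d (Algebra.ofId k C) x * (pm f g)⁻¹ := fun C _ _ f x => by
    rw [app_eq, toConv_ofConv, map_mul, map_mul, map_inv, pm_pm, app_nat,
      Algebra.TensorProduct.lift_comp_includeLeft, Subsingleton.elim (AlgHom.comp _ _)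
        (Algebra.ofId k C)]
    congr 3
    exact pext fun a => by simp
  let P₂ : Pin D k O Ω := ⟨fun b i => ψ.crv ((Q.push (Algebra.ofId k Ω)).x b i),
    ψ.tor (Q.push (Algebra.ofId k Ω)).τ⟩
  have e1 : ∀ (C : Type u) [CommRing C] [Algebra k C] (f : Ω →ₐ[k] C) τ,
      (Q.push (Algebra.ofId k Ω)).ta f τ = Q.ta (Algebra.ofId k C) τ := fun C _ _ f τ => by
    rw [Pin.ta, Pin.push, tev_bc, Subsingleton.elim (f.comp _) (Algebra.ofId k C), Pin.ta]
  have e2 : ∀ (C : Type u) [CommRing C] [Algebra k C] (f : Ω →ₐ[k] C) b i s,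
      (Q.push (Algebra.ofId k Ω)).xa f b i s = Q.xa (Algebra.ofId k C) b i s :=
    fun C _ _ f b i s => by
    rw [Pin.xa, Pin.push, cv_bc, Subsingleton.elim (f.comp _) (Algebra.ofId k C), Pin.xa]
  have key : c = c' := by
    refine huniq P₂ c c' hc.1 (fun C _ i₁ i₂ h f => ?_) (fun C _ i₁ i₂ h f => ?_)
      fun C _ i₁ i₂ h f => ?_
    all_goals obtain rfl := alg_eq i₁ i₂ h
    · intro x y
      rw [hc', hc', hc', hd C (Algebra.ofId k C)]
      group
    · exact ⟨fun τ => (ψ.tev_tor _ f τ).symm, fun b i s => (ψ.cv_crv _ f s).symm⟩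
    · refine ⟨fun τ => ?_, fun b i s => ?_⟩
      · refine (hc' C f _).trans (Eq.trans ?_ (((hγ C f).1 τ).symm.trans (ψ.tev_tor _ f τ).symm))
        rw [e1 C f, ← (hr C (Algebra.ofId k C)).1 τ]
        exact congrArg (fun z => pm f g * app d (Algebra.ofId k C) z * (pm f g)⁻¹) (e1 C f τ)
      · refine (hc' C f _).trans (Eq.trans ?_ (((hγ C f).2 b i s).symm.trans (ψ.cv_crv _ f s).symm))
        rw [e2 C f b (γ.π i), ← (hr C (Algebra.ofId k C)).2 b i s]
        exact congrArg (fun z => pm f g * app d (Algebra.ofId k C) z * (pm f g)⁻¹) (e2 C f b i s)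
  intro C _ _ f x
  rw [key, hc']

end final

end Pool.Agent.RED.Au
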