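import Pool.Agent.P.MP_c1f06d_ag.PresEx
import Pool.Agent.P.MP_c1f06d_ag.Dom

open Polynomial IsLocalRing Pool.Agent.P.MP_c1f06d_ag

universe u

namespace Pool.Agent.RED

section pres

variable {D T : Type u} [CommRing D] [IsDomain D] [IsIntegrallyClosed D] [CommRing T]
  [IsLocalRing T] {π : D[X] →+* T} {G : D[X]}

theorem locPres_prime (h : LocPres π G) (hG : G.Monic) (hG' : IsUnit (π (derivative G))) :
    ∃ G1 : D[X], Prime G1 ∧ G1.Monic ∧ π G1 = 0 ∧ IsUnit (π (derivative G1)) ∧
      ∀ a, π a = 0 → G1 ∣ a := by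
  obtain ⟨G1, H, hp, e, e0, -⟩ := exists_prime_factor π _ G rfl hG h.map_G hG'
  have hl : H.leadingCoeff * G1.leadingCoeff = 1 := by
    rw [mul_comm, ← leadingCoeff_mul, ← e]; exact hG
  have hu : IsUnit (C H.leadingCoeff) := isUnit_C.2 (IsUnit.of_mul_eq_one _ hl)
  have has : Associated G1 (C H.leadingCoeff * G1) := associated_unit_mul_right _ _ hu
  refine ⟨C H.leadingCoeff * G1, has.prime hp, ?_, by rw [map_mul, e0, mul_zero], ?_,
    fun a ha => ?_⟩
  · rw [Monic, leadingCoeff_mul, leadingCoeff_C, hl]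
  · rw [e, derivative_mul, map_add, map_mul, map_mul, e0, zero_mul, add_zero] at hG'
    rw [derivative_C_mul, map_mul]
    exact (hu.map π).mul (isUnit_of_mul_isUnit_left hG')
  · obtain ⟨s, hs, hd⟩ := h.ker a ha
    rcases hp.dvd_or_dvd ((Dvd.intro _ e.symm).trans hd) with ⟨c, rfl⟩ | h1
    · rw [map_mul, e0, zero_mul] at hs
      exact absurd hs not_isUnit_zero
    · exact has.symm.dvd.trans h1

theorem locPres_dom (h : LocPres π G) (hG : G.Monic) (hG' : IsUnit (π (derivative G))) :
    IsDomain T := by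
  obtain ⟨G1, hp, -, e0, -, hk⟩ := locPres_prime h hG hG'
  have key : ∀ a, G1 ∣ a → π a = 0 := by
    rintro a ⟨c, rfl⟩
    rw [map_mul, e0, zero_mul]
  have : NoZeroDivisors T := by
    refine ⟨fun {x y} hxy => ?_⟩
    obtain ⟨a, s, hs, ha⟩ := h.surj x
    obtain ⟨b, t, ht, hb⟩ := h.surj y
    rcases hp.dvd_or_dvd (hk (a * b) (by
      rw [map_mul, ← ha, ← hb]; linear_combination (π s * π t) * hxy)) with h2 | h2
    · left; rw [key a h2] at ha; exact hs.mul_left_eq_zero.1 ha
    · right; rw [key b h2] at hb; exact ht.mul_left_eq_zero.1 hb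
  exact NoZeroDivisors.to_isDomain T

theorem locPres_normal (h : LocPres π G) (hG : G.Monic) (hG' : IsUnit (π (derivative G))) :
    IsIntegrallyClosed T := by
  have := locPres_dom h hG hG'
  obtain ⟨G1, hp, hm, e0, hd, hk⟩ := locPres_prime h hG hG'
  let F := FractionRing T
  let L := FractionRing D
  let ι := algebraMap T F
  have hι : Function.Injective ι := IsFractionRing.injective T F
  let _ : Algebra D F := (ι.comp (π.comp C)).toAlgebra
  have hDF : Function.Injective (algebraMap D F) := by
    refine (injective_iff_map_eq_zero _).2 fun d hd0 => ?_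
    have h1 : G1 ∣ C d := hk _ (hι (by rw [map_zero]; exact hd0))
    by_contra hne
    have h2 := natDegree_le_of_dvd h1 (C_ne_zero.2 hne)
    rw [natDegree_C, Nat.le_zero, hm.natDegree_eq_zero] at h2
    exact hp.not_isUnit (h2 ▸ isUnit_one)
  let _ : Algebra L F := (IsFractionRing.lift hDF : L →+* F).toAlgebra
  have : IsScalarTower D L F :=
    IsScalarTower.of_algebraMap_eq fun d => (IsFractionRing.lift_algebraMap hDF d).symm
  let x : F := ι (π X)
  have hx : ∀ a : D[X], aeval x a = ι (π a) := fun a => by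
    have : (aeval x : D[X] →ₐ[D] F).toRingHom = ι.comp π :=
      Polynomial.ringHom_ext (fun d => by simp; rfl) (by simp [x])
    exact RingHom.congr_fun this a
  have hx' : ∀ a : D[X], aeval x (a.map (algebraMap D L)) = ι (π a) := fun a => by
    rw [aeval_map_algebraMap, hx]
  have hxi : IsIntegral D x := ⟨G1, hm, by rw [← aeval_def, hx, e0, map_zero]⟩
  have hirr : Irreducible (G1.map (algebraMap D L)) :=
    (hm.irreducible_iff_irreducible_map_fraction_map (K := L)).1 hp.irreducible
  have hmin : G1.map (algebraMap D L) = minpoly L x :=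
    minpoly.eq_of_irreducible_of_monic hirr (by rw [hx', e0, map_zero]) (hm.map _)
  have hsur : Function.Surjective (aeval x : L[X] →ₐ[L] F) := by
    have hfield : ∀ z ∈ (IntermediateField.adjoin L {x}), z ∈ (aeval x : L[X] →ₐ[L] F).range :=
      fun z hz => by
        rw [← Algebra.adjoin_singleton_eq_range_aeval,
          ← IntermediateField.adjoin_simple_toSubalgebra_of_isAlgebraic
            (hxi.tower_top (A := L)).isAlgebraic]
        exact hz
    have hT : ∀ t : T, ι t ∈ IntermediateField.adjoin L {x} := fun t => by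
      have hp : ∀ a : D[X], ι (π a) ∈ IntermediateField.adjoin L {x} := fun a => by
        rw [← hx']
        exact IntermediateField.algebra_adjoin_le_adjoin L {x} (aeval_mem_adjoin_singleton L x)
      obtain ⟨a, s, hs, ha⟩ := h.surj t
      have : ι t = ι (π a) / ι (π s) := by
        rw [eq_div_iff (hs.map ι).ne_zero, ← map_mul, ha]
      rw [this]
      exact div_mem (hp a) (hp s)
    intro z
    obtain ⟨a, b, -, rfl⟩ := IsFractionRing.div_surjective (A := T) z
    exact hfield _ (div_mem (hT a) (hT b))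
  refine (isIntegrallyClosed_iff F).2 fun {z} hz => ?_
  let _ : Algebra D[X] T := π.toAlgebra
  let S' := (Algebra.ofId D[X] T).range
  let Mu : Submonoid S' := (IsUnit.submonoid T).comap S'.val
  have : IsLocalization Mu T := by
    refine (isLocalization_iff _ _).2 ⟨fun y => y.2, fun r => ?_, fun {a b} e => ⟨1, ?_⟩⟩
    · obtain ⟨a, s, hs, ha⟩ := h.surj r
      exact ⟨⟨⟨π a, a, rfl⟩, ⟨π s, s, rfl⟩, hs⟩, ha⟩
    · rw [Subtype.ext e]
  obtain ⟨⟨⟨_, s, rfl⟩, hs⟩, hsz⟩ := IsIntegral.exists_multiple_integral_of_isLocalization Mu z hz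
  have hs' : IsUnit (π s) := hs
  have hsz' : IsIntegral D (ι (π s) * z) := by
    obtain ⟨P, hP, hP0⟩ := hsz
    let B := integralClosure D F
    let ψ : S' →+* B := RingHom.codRestrict (algebraMap S' F) B.toSubring (by
      rintro ⟨_, a, rfl⟩
      change IsIntegral D (ι (π a))
      rw [← hx]
      exact IsIntegral.of_mem_of_fg _ hxi.fg_adjoin_singleton _ (aeval_mem_adjoin_singleton D x))
    have h1 : IsIntegral B (ι (π s) * z) :=
      ⟨P.map ψ, hP.map ψ, by
        rw [Submonoid.smul_def, Algebra.smul_def] at hP0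
        rw [eval₂_map]
        exact hP0⟩
    exact isIntegral_trans _ h1
  obtain ⟨g, hg, hgi⟩ := exists_derivative_mul_eq_and_isIntegral_coeff
    (φ := (aeval x : L[X] →ₐ[L] F).restrictScalars D) hsur (hm.map (algebraMap D L))
    (fun i => by rw [coeff_map]; exact isIntegral_algebraMap)
    (by rw [hmin]; exact minpoly.ker_aeval_eq_span_minpoly L x) hsz'
  obtain ⟨g0, rfl⟩ : g ∈ Polynomial.lifts (algebraMap D L) :=
    (lifts_iff_coeff_lifts g).2 fun i => IsIntegrallyClosed.isIntegral_iff.1 (hgi i)
  obtain ⟨w, hw⟩ := (hd.mul hs').exists_left_inv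
  refine ⟨w * π g0, ?_⟩
  have hg' : ι (π (derivative G1)) * (ι (π s) * z) = ι (π g0) := by
    rw [← hx', ← hx' g0, ← derivative_map]
    exact hg
  change ι _ = z
  rw [map_mul, ← hg', ← mul_assoc (ι _) (ι (π s)), ← map_mul, ← mul_assoc, ← map_mul, hw, map_one,
    one_mul]

end pres

/-- Local rings of smooth algebras over a normal domain are normal domains. -/
theorem smooth_normal (V A T : Type u) [CommRing V] [IsDomain V] [IsIntegrallyClosed V]
    [CommRing A] [Algebra V A] [Algebra.Smooth V A] (p : Ideal A) [p.IsPrime] [CommRing T]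
    [Algebra A T] [IsLocalization.AtPrime T p] : IsDomain T ∧ IsIntegrallyClosed T := by
  have := IsLocalization.AtPrime.isLocalRing T p
  obtain ⟨d, π, G, h1, h2, h3⟩ := exists_locPres_of_smooth V A T p
  have := isIntegrallyClosed_mvPolynomial V d
  exact ⟨locPres_dom h1 h2 h3, locPres_normal h1 h2 h3⟩

/-- The local ring of a smooth algebra at a point over the closed point. -/
theorem loc_cover {R C K : Type u} [CommRing R] [IsLocalRing R] [IsDomain R]
    [IsIntegrallyClosed R] [CommRing C] [Algebra R C] [Algebra.Smooth R C] [Field K] [Algebra R K]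
    (hK : ∀ r ∈ maximalIdeal R, algebraMap R K r = 0) (j : C →ₐ[R] K) :
    ∃ (R' : Type u) (_ : CommRing R') (_ : Algebra R R') (_ : IsLocalRing R') (_ : IsDomain R')
      (_ : IsIntegrallyClosed R') (_ : Module.FaithfullyFlat R R') (_ : Algebra C R')
      (_ : IsScalarTower R C R') (c : Ideal C) (_ : c.IsPrime) (_ : IsLocalization.AtPrime R' c)
      (j' : R' →ₐ[R] K), (∀ x, j' (algebraMap C R' x) = j x) ∧
        ∀ r, j' r = 0 ↔ r ∈ maximalIdeal R' := by
  let c : Ideal C := RingHom.ker j
  have : c.IsPrime := RingHom.ker_isPrime j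
  let R' := Localization.AtPrime c
  obtain ⟨h1, h2⟩ := smooth_normal R C R' c
  have hu : ∀ y : c.primeCompl, IsUnit (j y) := fun y => isUnit_iff_ne_zero.2 y.2
  let j' : R' →ₐ[R] K := IsLocalization.liftAlgHom hu
  have hj : ∀ x, j' (algebraMap C R' x) = j x := fun x => IsLocalization.lift_eq hu x
  have hk : ∀ r, j' r = 0 ↔ r ∈ maximalIdeal R' := fun r => by
    obtain ⟨⟨a, s⟩, rfl⟩ := IsLocalization.mk'_surjective c.primeCompl r
    rw [IsLocalization.AtPrime.mk'_mem_maximal_iff R' c a s]
    have e : j' (IsLocalization.mk' R' a s) * j s = j a := by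
      rw [← hj, ← hj, ← map_mul, IsLocalization.mk'_spec]
    exact ⟨fun h0 => by rw [h0, zero_mul] at e; exact e.symm,
      fun ha => (hu s).mul_left_eq_zero.1 (e.trans ha)⟩
  have : Module.Flat R R' := Module.Flat.trans R C R'
  have : IsLocalHom (algebraMap R R') := ⟨fun r hr => by
    by_contra hn
    have := (hk _).1 ((j'.commutes r).trans (hK r hn))
    exact this hr⟩
  exact ⟨R', inferInstance, inferInstance, inferInstance, h1, h2,
    Module.FaithfullyFlat.of_flat_of_isLocalHom, inferInstance, inferInstance, c, inferInstance,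
    inferInstance, j', hj, hk⟩

end Pool.Agent.RED
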