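import Pool.Agent.P.MP_c1f06d_ag.g.Blocks
import Pool.Agent.P.MP_c1f06d_ag.g.Norm

open TensorProduct Polynomial Matrix Pool.Agent.GR Pool.Agent.RG

universe u

namespace Pool.Agent.RED

theorem perfect_of_bot (k : Type u) [Field k] (h : (⊥ : Subfield k) = ⊤) : PerfectField k := by
  obtain ⟨p, hp⟩ := CharP.exists k
  rcases CharP.char_is_prime_or_zero k p with h1 | rfl
  · have : Fact p.Prime := ⟨h1⟩
    have : ExpChar k p := .prime h1
    have : PerfectRing k p := .ofSurjective k p fun x =>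
      ⟨x, (Subfield.mem_bot_iff_pow_eq_self k p).1 (h ▸ Subfield.mem_top x)⟩
    exact PerfectRing.toPerfectField k p
  · have := CharP.charP_to_charZero k
    infer_instance

theorem DA.ext' {D : RD} {a b : DA D} (h : a.θ = b.θ) : a = b := by
  obtain ⟨θ, π, h1, h2⟩ := a
  obtain ⟨θ', π', h1', h2'⟩ := b
  obtain rfl : θ = θ' := h
  obtain rfl : π = π' := Equiv.ext fun i =>
    D.indep.injective (θ.injective ((h1 i).trans (h1' i).symm))
  rfl

theorem DA.finite {D : RD} (W : Finset (XL D.r)) (hW : Submodule.span ℤ (W : Set (XL D.r)) = ⊤) :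
    Finite {γ : DA D // ∀ x, γ.θ x ∈ W ↔ x ∈ W} := by
  refine Finite.of_injective (fun γ => fun x : W => (⟨γ.1.θ x, (γ.2 x).2 x.2⟩ : W))
    fun a b h => Subtype.ext (DA.ext' (AddEquiv.ext fun x => ?_))
  have : (a.1.θ : XL D.r →+ XL D.r).toIntLinearMap = (b.1.θ : XL D.r →+ XL D.r).toIntLinearMap :=
    LinearMap.ext_on hW fun y hy => congrArg Subtype.val (congrFun h ⟨y, hy⟩)
  exact LinearMap.congr_fun this x

theorem app_nat {k R : Type u} [CommRing k] [CommRing R] [Algebra k R] {A₁ A₂ : Type u}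
    [CommRing A₁] [HopfAlgebra k A₁] [CommRing A₂] [HopfAlgebra R A₂] {B : Type u} [CommRing B]
    [Algebra k B] [Algebra R B] [IsScalarTower k R B] (φ : Hm k R A₁ A₂ B) {C C' : Type u}
    [CommRing C] [Algebra k C] [Algebra R C] [IsScalarTower k R C] [CommRing C'] [Algebra k C']
    [Algebra R C'] [IsScalarTower k R C'] (f : B →ₐ[R] C) (j : C →ₐ[R] C') (x : Pt k A₁ C) :
    pm j (app φ f x) = app φ (j.comp f) (pm (j.restrictScalars k) x) := by
  refine WithConv.ext (AlgHom.ext fun a => ?_)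
  simp only [app, pm_apply, AlgHom.comp_apply]
  generalize φ a = z
  induction z with
  | zero => simp
  | add a b ha hb => simp only [map_add, ha, hb]
  | tmul a b => simp

theorem bridge' (k : Type u) [Field k] (hk0 : (⊥ : Subfield k) = ⊤)
    (V : Type u) [CommRing V] [IsDomain V] [ValuationRing V]
    (C : Type u) [CommRing C] [Algebra V C] [Algebra.Smooth V C] (p : Ideal C)
    [p.IsPrime] (R : Type u) [CommRing R] [Algebra C R] [IsLocalization.AtPrime R p] [Algebra k R]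
    (A : Type u) [CommRing A] [HopfAlgebra R A] (hA : IsReductive R A) :
    ∃ (n r r' : ℕ) (G H : AffQuot k n) (χ : Fin n → Fin r → ℤ) (χ' : Fin n → Fin r' → ℤ)
      (z : H.B →ₐ[k] R) (u : GL (Fin n) A), H.Normalizes G ∧ G.GeomIntegral ∧ G.SplitTorus χ ∧
      G.WideTorus H χ χ' ∧ Presents G H z u := by
  have := IsLocalization.AtPrime.isLocalRing R p
  obtain ⟨_, _⟩ := smooth_normal V C R p
  have := perfect_of_bot k hk0
  have := hA.smooth
  let Ω := AlgebraicClosure (IsLocalRing.ResidueField R)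
  have hG := gi_of_red hA
  obtain ⟨D, P₀, hP₀⟩ := fib hA Ω
  obtain ⟨O, _, _, _, Q, ψ, hGO, hQ, hψ⟩ := form (k := k) hG Ω (hP₀.ok hG)
  have hF := fk hA Ω hψ
  obtain ⟨C₁, _, _, _, c, _, _, _, P, hP⟩ := spread hA Ω (fun a ha => by
    rw [IsScalarTower.algebraMap_apply R (IsLocalRing.ResidueField R) Ω,
      show algebraMap R (IsLocalRing.ResidueField R) a = 0 from
        (IsLocalRing.residue_eq_zero_iff a).2 ha, map_zero]) P₀ hP₀
  let _ : Algebra k C₁ := ((algebraMap R C₁).comp (algebraMap k R)).toAlgebra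
  have : IsScalarTower k R C₁ := .of_algebraMap_eq fun _ => rfl
  let S := Localization.AtPrime c
  obtain ⟨φ, hφ, hr⟩ := iso ((hQ.push (Algebra.ofId k S)).ok hGO) (hP.ok hG)
  obtain ⟨W, hW, hmono⟩ := mono hP.hom hP.zt
  have := DA.finite W hW
  have hd0 := fun γ : DA D => da_lift hGO (hQ.ok hGO) γ
  choose d hd using hd0
  obtain ⟨M⟩ := model hGO hF (hQ.ok hGO) (Γ := {γ : DA D // ∀ x, γ.θ x ∈ W ↔ x ∈ W})
    Subtype.val (fun γ => d γ.1) (fun γ => hd γ.1)
    ⟨⟨⟨AddEquiv.refl _, 1, fun _ => rfl, fun _ _ => rfl⟩, fun _ => Iff.rfl⟩, rfl⟩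
    (fun a b => ⟨⟨⟨a.1.θ.trans b.1.θ, a.1.π * b.1.π, fun i => by
        simp [a.1.al, b.1.al], fun i x => by simp [a.1.co, b.1.co]⟩,
      fun x => (b.2 _).trans (a.2 x)⟩, rfl⟩)
    (fun a => ⟨⟨⟨a.1.θ.symm, a.1.π.symm, fun i => by
        rw [AddEquiv.symm_apply_eq, ← a.1.al (a.1.π.symm i), Equiv.apply_symm_apply],
        fun i x => by rw [← a.1.θ.apply_symm_apply x, a.1.co, Equiv.apply_symm_apply,
          AddEquiv.symm_apply_apply]⟩,
      fun x => by rw [← a.2, AddEquiv.apply_symm_apply]⟩, rfl⟩)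
  obtain ⟨F⟩ := frame M c hφ fun Ω' _ _ _ _ _ hinj a b => by
    obtain ⟨c', hc', hc⟩ := coc_ex hφ a b
    obtain ⟨g, γ, hγ⟩ := aut hGO (hQ.ok hGO) M.emb Ω' hc'
    have key := fun (T : Type u) [CommRing T] [Algebra k T] [Algebra R T] [IsScalarTower k R T]
      (f : Ω' →ₐ[R] T) (x : Pt k O T) =>
        (hc T f x).symm.trans (congrArg (app φ (f.comp b))
          (hγ (d γ) (hd γ).1.1 (hd γ).2 T (f.restrictScalars k) x))
    refine ⟨g, ⟨γ, hmono Ω' hinj b a (app φ b g) γ.θ fun T _ _ f τ => ?_⟩, key⟩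
    let _ : Algebra k T := ((algebraMap R T).comp (algebraMap k R)).toAlgebra
    have : IsScalarTower k R T := .of_algebraMap_eq fun _ => rfl
    have e1 : ∀ (e : S →ₐ[R] T) (σ : TP (XL D.r) T),
        app φ e (Q.ta (Algebra.ofId k T) σ) = tev P.τ e σ := fun e σ => by
      have h1 := (hr T e).1 σ
      rw [Pin.ta, Pin.push, tev_bc,
        Subsingleton.elim ((e.restrictScalars k).comp _) (Algebra.ofId k T)] at h1
      exact h1
    have mulφ : ∀ e : S →ₐ[R] T, ∃ m : Pt k O T →* Pt R A T, ∀ y, m y = app φ e y := fun e =>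
      ⟨MonoidHom.mk' (app φ e) (hφ.1 T e), fun _ => rfl⟩
    obtain ⟨m, hm⟩ := mulφ (f.comp b)
    have h2 := ((hd γ).2 T (Algebra.ofId k T)).1 τ
    rw [Subsingleton.elim ((Algebra.ofId k T).restrictScalars k) (Algebra.ofId k T)] at h2
    rw [← e1, key, ← hm, map_mul, map_mul, map_inv, hm, hm, h2, e1, app_nat]
  obtain ⟨z, u, h⟩ := glue M.hN F
  exact ⟨M.n, D.r, M.r', M.G, M.H, M.χ, M.χ', z, u, M.hN, M.hI, M.hT, M.hW, h⟩

end Pool.Agent.RED
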