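import Pool.Agent.P.MP_c1f06d_ag.Dom

open TensorProduct nonZeroDivisors

universe u

namespace Pool.Agent.RG

/-- In a reduced Artinian ring every element is associated with an idempotent. -/
theorem exists_idem {T : Type u} [CommRing T] [IsArtinianRing T] [IsReduced T] (x : T) :
    ∃ y : T, x * y * x = x := by
  obtain ⟨n, y, hy⟩ := IsArtinian.exists_pow_succ_smul_dvd x (1 : T)
  refine ⟨y, ?_⟩
  simp only [smul_eq_mul, mul_one, Nat.succ_eq_add_one] at hy
  have h : IsNilpotent (x * y * x - x) := ⟨n + 1, by
    have : (x * y * x - x) ^ (n + 1) = (x ^ (n + 1) * y - x ^ n) * (x * (x * y - 1) ^ n) := by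
      rw [show x * y * x - x = x * (x * y - 1) by ring, mul_pow]
      ring
    rw [this, hy, sub_self, zero_mul]⟩
  exact sub_eq_zero.1 h.eq_zero

/-- A local ring of a standard etale algebra over a normal domain is a normal domain. -/
theorem loc_normal_etale (D E S : Type u) [CommRing D] [IsDomain D] [IsIntegrallyClosed D]
    [CommRing E] [Algebra D E] [Algebra.Etale D E] [CommRing S] [IsLocalRing S] [Algebra E S]
    (M : Submonoid E) [IsLocalization M S] : IsDomain S ∧ IsIntegrallyClosed S := by
  let _ : Algebra D S := ((algebraMap E S).comp (algebraMap D E)).toAlgebra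
  have : IsScalarTower D E S := IsScalarTower.of_algebraMap_eq fun _ => rfl
  let L := FractionRing D
  have hb : Function.Bijective (toIntegralClosure D S L) :=
    toIntegralClosure_bijective_of_tower (S := E) toIntegralClosure_bijective_of_smooth
      (toIntegralClosure_bijective_of_isLocalization M)
  have hint : ∀ x : S ⊗[D] L, IsIntegral S x → ∃ s, algebraMap S (S ⊗[D] L) s = x := by
    intro x hx
    obtain ⟨w, hw⟩ := hb.2 ⟨x, hx⟩
    have hw' : Algebra.TensorProduct.map (AlgHom.id S S) (integralClosure D L).val w = x :=
      congrArg Subtype.val hw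
    rw [← hw']
    clear hw hw'
    induction w with
    | zero => exact ⟨0, by simp⟩
    | add a b ha hb =>
      obtain ⟨s, hs⟩ := ha
      obtain ⟨t, ht⟩ := hb
      exact ⟨s + t, by rw [map_add, map_add, hs, ht]⟩
    | tmul s y =>
      obtain ⟨d, hd⟩ := IsIntegrallyClosed.algebraMap_eq_of_integral (K := L) y.2
      refine ⟨d • s, ?_⟩
      show (d • s) ⊗ₜ[D] (1 : L) = s ⊗ₜ[D] (y : L)
      rw [← hd, smul_tmul, Algebra.algebraMap_eq_smul_one]
  have : Module.Flat E S := IsLocalization.flat S M
  have : Module.Flat D S := Module.Flat.trans D E S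
  have hinj : Function.Injective (algebraMap S (S ⊗[D] L)) :=
    Algebra.TensorProduct.includeLeft_injective (S := D) (IsFractionRing.injective D L)
  have : Algebra.FormallyUnramified E S := Algebra.FormallyUnramified.of_isLocalization M
  have : Algebra.FormallyUnramified D S := Algebra.FormallyUnramified.comp D E S
  have : Algebra.EssFiniteType E S := Algebra.EssFiniteType.of_isLocalization S M
  have : Algebra.EssFiniteType D S := Algebra.EssFiniteType.comp D E S
  have : IsReduced (L ⊗[D] S) := Algebra.FormallyUnramified.isReduced_of_field L _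
  have : Module.Finite L (L ⊗[D] S) := Algebra.FormallyUnramified.finite_of_free _ _
  have : IsArtinianRing (L ⊗[D] S) := IsArtinianRing.of_finite L _
  let e := Algebra.TensorProduct.comm D L S
  have hun : ∀ x : S ⊗[D] L, x ≠ 0 → IsUnit x := by
    intro x hx
    obtain ⟨y, hy⟩ := exists_idem (e.symm x)
    have h1 : x * e y * x = x := by
      have := congrArg e hy
      rwa [map_mul, map_mul, e.apply_symm_apply] at this
    have h2 : x * e y * (x * e y) = x * e y := by rw [← mul_assoc, h1]
    obtain ⟨s, hs⟩ := hint (x * e y) ⟨Polynomial.X ^ 2 - Polynomial.X, by monicity!, by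
      simp [sq, h2]⟩
    have h3 : s * (1 - s) = 0 := hinj (by rw [map_mul, map_sub, map_one, hs, map_zero, mul_sub,
      h2, mul_one, sub_self])
    rcases IsLocalRing.isUnit_or_isUnit_one_sub_self s with h | h
    · exact isUnit_of_mul_isUnit_left (hs ▸ h.map (algebraMap S (S ⊗[D] L)))
    · refine absurd ?_ hx
      rw [← h1, ← hs, h.mul_left_eq_zero.1 h3, map_zero, zero_mul]
  have : Nontrivial (S ⊗[D] L) := hinj.nontrivial
  have hF : IsField (S ⊗[D] L) := ⟨exists_pair_ne _, mul_comm, fun h => (hun _ h).exists_right_inv⟩
  let _ := hF.toField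
  have : IsDomain S := hinj.isDomain _
  have : FaithfulSMul S (S ⊗[D] L) := (faithfulSMul_iff_algebraMap_injective _ _).2 hinj
  have : IsFractionRing S (S ⊗[D] L) := IsFractionRing.of_field _ _ fun z => by
    obtain ⟨⟨a, b⟩, h⟩ := IsLocalization.surj (Algebra.algebraMapSubmonoid S D⁰) z
    refine ⟨a, b, ?_⟩
    rw [← h, mul_div_cancel_right₀ _ (IsLocalization.map_units (S ⊗[D] L) b).ne_zero]
  exact ⟨inferInstance, (isIntegrallyClosed_iff (S ⊗[D] L)).2 fun h => hint _ h⟩

/-- A local ring at a smooth point over a normal domain is a normal domain. -/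
theorem loc_normal_at (D C S : Type u) [CommRing D] [IsDomain D] [IsIntegrallyClosed D]
    [CommRing C] [Algebra D C] [Algebra.FinitePresentation D C] (q : Ideal C) [q.IsPrime]
    [Algebra.IsSmoothAt D q] [CommRing S] [Algebra C S] [IsLocalization.AtPrime S q] :
    IsDomain S ∧ IsIntegrallyClosed S := by
  obtain ⟨f, hf, n, _, _, hst⟩ :=
    Algebra.IsSmoothAt.exists_isStandardEtale_mvPolynomial (R := D) (p := q)
  have := P.MP_c1f06d_ag.isIntegrallyClosed_mvPolynomial D n
  have hle : Submonoid.powers f ≤ q.primeCompl := Submonoid.powers_le.2 hf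
  let _ := IsLocalization.localizationAlgebraOfSubmonoidLe (Localization.Away f) S _ _ hle
  have := IsLocalization.localization_isScalarTower_of_submonoid_le (Localization.Away f) S _ _ hle
  have := IsLocalization.isLocalization_of_submonoid_le (Localization.Away f) S _ _ hle
  have : IsLocalRing S := IsLocalization.AtPrime.isLocalRing S q
  exact loc_normal_etale (MvPolynomial (Fin n) D) (Localization.Away f) S
    (q.primeCompl.map (algebraMap C (Localization.Away f)))

/-- A local ring of a smooth algebra over a normal domain is a normal domain. -/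
theorem loc_normal (D C S : Type u) [CommRing D] [IsDomain D] [IsIntegrallyClosed D]
    [CommRing C] [Algebra D C] [Algebra.Smooth D C] (q : Ideal C) [q.IsPrime]
    [CommRing S] [Algebra C S] [IsLocalization.AtPrime S q] :
    IsDomain S ∧ IsIntegrallyClosed S := loc_normal_at D C S q

/-- Essentially smooth algebras. -/
class ES (R T : Type u) [CommRing R] [CommRing T] [Algebra R T] : Prop where
  fs : Algebra.FormallySmooth R T
  ft : Algebra.EssFiniteType R T
  flat : Module.Flat R T

namespace ES

variable (R S T : Type u) [CommRing R] [CommRing S] [CommRing T]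

instance (priority := 100) of_smooth [Algebra R T] [Algebra.Smooth R T] : ES R T :=
  ⟨inferInstance, inferInstance, inferInstance⟩

theorem of_isLocalization [Algebra R T] (M : Submonoid R) [IsLocalization M T] : ES R T :=
  ⟨.of_isLocalization M, .of_isLocalization T M, IsLocalization.flat T M⟩

theorem comp [Algebra R S] [Algebra S T] [Algebra R T] [IsScalarTower R S T] [h : ES R S]
    [h' : ES S T] : ES R T :=
  have := h.fs; have := h.ft; have := h.flat; have := h'.fs; have := h'.ft; have := h'.flat
  ⟨.comp R S T, .comp R S T, .trans R S T⟩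

instance baseChange [Algebra R S] [Algebra R T] [h : ES R T] : ES S (S ⊗[R] T) :=
  have := h.fs; have := h.ft; have := h.flat
  ⟨inferInstance, inferInstance, inferInstance⟩

instance tensor [Algebra R S] [Algebra R T] [ES R S] [ES R T] : ES R (S ⊗[R] T) :=
  comp R S _

theorem of_equiv [Algebra R S] [Algebra R T] [h : ES R S] (e : S ≃ₐ[R] T) : ES R T :=
  have := h.fs; have := h.ft; have := h.flat
  ⟨.of_equiv e, .of_surjective e.toAlgHom e.surjective, .of_linearEquiv e.symm.toLinearEquiv⟩

/-- The local ring of a smooth algebra is essentially smooth. -/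
theorem of_loc (C : Type u) [CommRing C] [Algebra R C] [Algebra.Smooth R C] [Algebra C T]
    [Algebra R T] [IsScalarTower R C T] (M : Submonoid C) [IsLocalization M T] : ES R T :=
  have := of_isLocalization C T M
  comp R C T

/-- Local rings of an essentially smooth algebra over a field are normal domains. -/
theorem loc_field (K : Type u) [Field K] [Algebra K T] [h : ES K T] (q : Ideal T) [q.IsPrime] :
    IsDomain (Localization.AtPrime q) ∧ IsIntegrallyClosed (Localization.AtPrime q) := by
  have := h.fs; have := h.ft
  let C := Algebra.EssFiniteType.subalgebra K T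
  have : Algebra.FinitePresentation K C := Algebra.FinitePresentation.of_finiteType.1 inferInstance
  have := IsLocalization.isLocalization_isLocalization_atPrime_isLocalization
    (Algebra.EssFiniteType.submonoid K T) (Localization.AtPrime q) q
  have : Algebra.IsSmoothAt K (q.comap (algebraMap C T)) :=
    Algebra.FormallySmooth.of_equiv (A := Localization.AtPrime q)
      ((IsLocalization.algEquiv (q.comap (algebraMap C T)).primeCompl _ _).restrictScalars K)
  exact loc_normal_at K C _ (q.comap (algebraMap C T))

theorem isReduced_field (K : Type u) [Field K] [Algebra K T] [ES K T] : IsReduced T :=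
  isReduced_ofLocalizationMaximal T fun q _ =>
    have := (loc_field T K q).1
    inferInstance

/-- An essentially smooth algebra over a domain is reduced. -/
theorem isReduced [IsDomain R] [Algebra R T] [h : ES R T] : IsReduced T := by
  have := h.flat
  have := isReduced_field (FractionRing R ⊗[R] T) (FractionRing R)
  exact isReduced_of_injective (Algebra.TensorProduct.includeRight : T →ₐ[R] FractionRing R ⊗[R] T)
    (Algebra.TensorProduct.includeRight_injective (IsFractionRing.injective R _))

end ES

/-- An element of an essentially smooth algebra over a domain `R` that vanishes at all geometric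
points over the generic point of `R` is zero. -/
theorem geo_ext (R : Type u) {T : Type u} [CommRing R] [IsDomain R] [CommRing T] [Algebra R T]
    [h : ES R T] (x : T) (hx : ∀ (Ω : Type u) [Field Ω] [IsAlgClosed Ω] [Algebra R Ω],
      Function.Injective (algebraMap R Ω) → ∀ φ : T →ₐ[R] Ω, φ x = 0) : x = 0 := by
  have := h.flat
  have := ES.isReduced R T
  by_contra h0
  let N : Submonoid T :=
    { carrier := {t | ∃ (r : R) (m : ℕ), r ≠ 0 ∧ t = r • x ^ m}
      one_mem' := ⟨1, 0, one_ne_zero, by simp⟩
      mul_mem' := by
        rintro _ _ ⟨r, m, hr, rfl⟩ ⟨r', m', hr', rfl⟩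
        exact ⟨r * r', m + m', mul_ne_zero hr hr', by rw [smul_mul_smul_comm, pow_add]⟩ }
  obtain ⟨q, hq, -, hd⟩ := Ideal.exists_le_prime_disjoint (⊥ : Ideal T) N (by
    rw [Set.disjoint_left]
    rintro _ ht ⟨r, m, hr, rfl⟩
    have h1 : x ^ m = 0 := (Module.Flat.isSMulRegular_of_nonZeroDivisors (M := T)
      (mem_nonZeroDivisors_of_ne_zero hr)).right_eq_zero_of_smul ht
    exact h0 (IsNilpotent.eq_zero ⟨m, h1⟩))
  let Ω := AlgebraicClosure q.ResidueField
  let φ : T →ₐ[R] Ω := IsScalarTower.toAlgHom R T Ω
  have hφ : ∀ t, φ t = 0 → t ∈ q := fun t ht => by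
    have : algebraMap q.ResidueField Ω (algebraMap T q.ResidueField t) = 0 := ht
    rwa [map_eq_zero, Ideal.algebraMap_residueField_eq_zero] at this
  refine Set.disjoint_left.1 hd (hφ x (hx Ω ?_ φ)) ⟨1, 1, one_ne_zero, by simp⟩
  refine (injective_iff_map_eq_zero _).2 fun r hr => by_contra fun hr0 => ?_
  refine Set.disjoint_left.1 hd (hφ (algebraMap R T r) ((φ.commutes r).trans hr))
    ⟨r, 0, hr0, by simp [Algebra.algebraMap_eq_smul_one]⟩

/-- The base ring `R` of the problem and the local rings of smooth `R`-algebras are normal
domains. -/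
theorem locDom (V : Type u) [CommRing V] [IsDomain V] [ValuationRing V] (C : Type u) [CommRing C]
    [Algebra V C] [Algebra.Smooth V C] (p : Ideal C) [p.IsPrime] (R : Type u) [CommRing R]
    [Algebra C R] [IsLocalization.AtPrime R p] (C1 : Type u) [CommRing C1] [Algebra R C1]
    [Algebra.Smooth R C1] (c : Ideal C1) [c.IsPrime] (S : Type u) [CommRing S] [Algebra C1 S]
    [IsLocalization.AtPrime S c] : IsDomain S ∧ IsIntegrallyClosed S := by
  obtain ⟨_, _⟩ := loc_normal V C R p
  exact loc_normal R C1 S c

/-- A flat local ring over the closed point is faithfully flat. -/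
theorem ff_of_loc (R S : Type u) [CommRing R] [IsLocalRing R] [CommRing S] [IsLocalRing S]
    [Algebra R S] [h : ES R S]
    (hm : ∀ r ∈ IsLocalRing.maximalIdeal R, algebraMap R S r ∈ IsLocalRing.maximalIdeal S) :
    Module.FaithfullyFlat R S := by
  have := h.flat
  have : IsLocalHom (algebraMap R S) := ⟨fun a ha => by
    by_contra hu
    exact hm a hu ha⟩
  exact Module.FaithfullyFlat.of_flat_of_isLocalHom

end Pool.Agent.RG
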