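import Pool.Agent.P.MP_c1f06d_ag.g.RStmt

open TensorProduct WithConv Algebra.TensorProduct

universe u

namespace Pool.Agent.RG

variable {R : Type u} [CommRing R] {A : Type u} [CommRing A] [HopfAlgebra R A]
  {T : Type u} [CommRing T] [Algebra R T]

/-- The group of `T`-points of `Spec A`, for any `R`-algebra `T`. -/
noncomputable instance (priority := 50) ptGroup : Group (WithConv (A →ₐ[R] T)) where
  inv f := toConv <| f.ofConv.comp (HopfAlgebra.antipodeAlgHom R A)
  inv_mul_cancel f := by
    have H : (lmul' R).comp (Algebra.TensorProduct.map f.ofConv f.ofConv) =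
      f.ofConv.comp (lmul' R) := by ext <;> simp
    trans toConv <| ((lmul' R).comp (Algebra.TensorProduct.map f.ofConv f.ofConv)).comp
      ((Algebra.TensorProduct.map
      (HopfAlgebra.antipodeAlgHom R A) (.id _ _)).comp (Bialgebra.comulAlgHom R A))
    · rw [AlgHom.comp_assoc, ← AlgHom.comp_assoc (Algebra.TensorProduct.map f.ofConv f.ofConv),
        ← Algebra.TensorProduct.map_comp]; rfl
    rw [H, AlgHom.comp_assoc, WithConv.ext_iff, ← AlgHom.toLinearMap_injective.eq_iff]
    change f.ofConv.toLinearMap.comp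
      (toConv (HopfAlgebra.antipode R (A := A)) * toConv LinearMap.id).ofConv =
      ofConv (1 : WithConv <| A →ₗ[R] T)
    rw [LinearMap.antipode_mul_id]
    ext
    simp

example {Ω B : Type u} [Field Ω] [CommRing B] [HopfAlgebra Ω B] :
    (ptGroup : Group (WithConv (B →ₐ[Ω] Ω))) = AlgHom.convGroup := rfl

theorem pt_mul_apply (x y : WithConv (A →ₐ[R] T)) (a : A) :
    (x * y).ofConv a = Algebra.TensorProduct.lift x.ofConv y.ofConv
      (fun _ _ => Commute.all _ _) (Coalgebra.comul a) := AlgHom.convMul_apply x y a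

theorem pt_one_apply (a : A) :
    (1 : WithConv (A →ₐ[R] T)).ofConv a = algebraMap R T (Coalgebra.counit a) := rfl

theorem pt_inv_apply (x : WithConv (A →ₐ[R] T)) (a : A) :
    (x⁻¹).ofConv a = x.ofConv (HopfAlgebra.antipode R a) := rfl

/-- Functoriality of points in the test algebra. -/
noncomputable def ptMap {T' : Type u} [CommRing T'] [Algebra R T'] (f : T →ₐ[R] T') :
    WithConv (A →ₐ[R] T) →* WithConv (A →ₐ[R] T') where
  toFun x := toConv (f.comp x.ofConv)
  map_one' := WithConv.ext (AlgHom.ext fun a => f.commutes _)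
  map_mul' x y := WithConv.ext (AlgHom.comp_convMul_distrib f x y)

@[simp] theorem ptMap_apply {T' : Type u} [CommRing T'] [Algebra R T'] (f : T →ₐ[R] T')
    (x : WithConv (A →ₐ[R] T)) (a : A) : (ptMap f x).ofConv a = f (x.ofConv a) := rfl

end Pool.Agent.RG
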