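import Pool.Agent.P.MP_c1f06d_ag.g.Pres
import Pool.Agent.P.MP_c1f06d_ag.g.Pts
import Pool.Agent.P.MP_c1f06d_ag.r.Frame

open Matrix TensorProduct Pool.Agent.GR Pool.Agent.P.MP_c1f06d_ag WithConv

universe u

namespace Pool.Agent.RG

/-- A frame of `Spec A` over `S`: along every `a : S → T` the matrix `v a x` identifies the
`T`-points `x` of `Spec A` with `G(T)`, and two frames differ by the cocycle `h` with values
in `H`. -/
structure FrameData {k : Type u} [Field k] {n : ℕ} (G H : AffQuot k n) (R : Type u) [CommRing R]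
    [Algebra k R] (S : Type u) [CommRing S] [Algebra R S] (A : Type u) [CommRing A]
    [HopfAlgebra R A] where
  v : ∀ (T : Type u) [CommRing T] [Algebra R T], (S →ₐ[R] T) → WithConv (A →ₐ[R] T) →* GL (Fin n) T
  h : ∀ (T : Type u) [CommRing T] [Algebra R T], (S →ₐ[R] T) → (S →ₐ[R] T) → GL (Fin n) T
  v_nat : ∀ (T T' : Type u) [CommRing T] [Algebra R T] [CommRing T'] [Algebra R T']
    (f : T →ₐ[R] T') (a : S →ₐ[R] T) (x : WithConv (A →ₐ[R] T)),
      gm f (v T a x) = v T' (f.comp a) (ptMap f x)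
  v_inj : ∀ (T : Type u) [CommRing T] [Algebra R T] (a : S →ₐ[R] T), Function.Injective (v T a)
  v_pts : ∀ (T : Type u) [CommRing T] [Algebra R T] [Algebra k T] [IsScalarTower k R T]
    (a : S →ₐ[R] T) (g : GL (Fin n) T), G.Pt g ↔ ∃ x, v T a x = g
  h_nat : ∀ (T T' : Type u) [CommRing T] [Algebra R T] [CommRing T'] [Algebra R T']
    (f : T →ₐ[R] T') (a b : S →ₐ[R] T), gm f (h T a b) = h T' (f.comp a) (f.comp b)
  h_mul : ∀ (T : Type u) [CommRing T] [Algebra R T] (a b c : S →ₐ[R] T),
    h T b c * h T a b = h T a c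
  h_pt : ∀ (T : Type u) [CommRing T] [Algebra R T] [Algebra k T] [IsScalarTower k R T]
    (a b : S →ₐ[R] T), H.Pt (h T a b)
  conj : ∀ (T : Type u) [CommRing T] [Algebra R T] (a b : S →ₐ[R] T) (x : WithConv (A →ₐ[R] T)),
    v T b x = h T a b * v T a x * (h T a b)⁻¹

/-- GLUE: a frame over a local faithfully flat `S` presents `Spec A` as a `G_z`. -/
theorem glue {k : Type u} [Field k] {n : ℕ} {G H : AffQuot k n} (hN : H.Normalizes G)
    {R : Type u} [CommRing R] [Algebra k R] {S : Type u} [CommRing S] [IsLocalRing S] [Algebra R S]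
    [Module.FaithfullyFlat R S] {A : Type u} [CommRing A] [HopfAlgebra R A]
    (F : FrameData G H R S A) : ∃ (z : H.B →ₐ[k] R) (u : GL (Fin n) A), Presents G H z u := by
  obtain ⟨h0, hu, hh0⟩ := h90 (R := R) (S := S) (fun T _ _ a b => (F.h T a b : Mat n T))
    (fun T T' _ _ _ _ f a b => congrArg (fun g : GL (Fin n) T' => (g : Mat n T'))
      (F.h_nat T T' f a b))
    (fun T _ _ a => congrArg (fun g : GL (Fin n) T => (g : Mat n T))
      (mul_eq_left.1 (F.h_mul T a a a)))
    (fun T _ _ a b c => congrArg (fun g : GL (Fin n) T => (g : Mat n T)) (F.h_mul T a b c))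
  let hh : GL (Fin n) S := GeneralLinearGroup.mk'' h0 hu
  have hcoc : ∀ (T : Type u) [CommRing T] [Algebra R T] (a b : S →ₐ[R] T),
      F.h T a b * gm a hh = gm b hh := fun T _ _ a b => Units.ext (hh0 T a b)
  let _ : Algebra k S := ((algebraMap R S).comp (algebraMap k R)).toAlgebra
  have : IsScalarTower k R S := IsScalarTower.of_algebraMap_eq fun _ => rfl
  have hi : Function.Injective (IsScalarTower.toAlgHom k R S) :=
    FaithfulSMul.algebraMap_injective R S
  have hz0 : ∀ b : H.B, ev k hh⁻¹ b ∈ (IsScalarTower.toAlgHom k R S).range := by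
    intro b
    refine mem_range_of_includeLeft_eq (R := R) _ ?_
    let il : S →ₐ[R] S ⊗[R] S := Algebra.TensorProduct.includeLeft
    let ir : S →ₐ[R] S ⊗[R] S := Algebra.TensorProduct.includeRight
    have h1 := (H.pt_iff (gm ir hh)⁻¹ (gm il hh)⁻¹).1 (by
      rw [inv_inv, ← hcoc _ il ir, mul_inv_cancel_right]
      exact F.h_pt _ il ir) b b.2
    have h2 := Co.map_ev (il.restrictScalars k) hh⁻¹ b
    have h3 := Co.map_ev (ir.restrictScalars k) hh⁻¹ b
    rw [MonoidHom.map_inv] at h2 h3
    exact h2.trans (h1.symm.trans h3.symm)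
  let z : H.B →ₐ[k] R := (AlgEquiv.ofInjective _ hi).symm.toAlgHom.comp
    (((ev k hh⁻¹).comp H.B.val).codRestrict _ hz0)
  have hz : ∀ b : H.B, algebraMap R S (z b) = ev k hh⁻¹ b := fun b =>
    congrArg Subtype.val ((AlgEquiv.ofInjective _ hi).apply_symm_apply ⟨_, hz0 b⟩)
  let w : ∀ (T : Type u) [CommRing T] [Algebra R T], (S →ₐ[R] T) → WithConv (A →ₐ[R] T) →
      GL (Fin n) T := fun T _ _ a x => (gm a hh)⁻¹ * F.v T a x * gm a hh
  have w_ind : ∀ (T : Type u) [CommRing T] [Algebra R T] (a b : S →ₐ[R] T) x,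
      w T b x = w T a x := by
    intro T _ _ a b x
    simp only [w]
    rw [F.conj T a b, ← hcoc T a b]
    group
  have w_nat : ∀ (T T' : Type u) [CommRing T] [Algebra R T] [CommRing T'] [Algebra R T']
      (f : T →ₐ[R] T') (a : S →ₐ[R] T) x, gm f (w T a x) = w T' (f.comp a) (ptMap f x) := by
    intro T T' _ _ _ _ f a x
    simp only [w]
    rw [MonoidHom.map_mul, MonoidHom.map_mul, MonoidHom.map_inv, F.v_nat, gm_comp]
  have w_mul : ∀ (T : Type u) [CommRing T] [Algebra R T] (a : S →ₐ[R] T) x y,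
      w T a (x * y) = w T a x * w T a y := by
    intro T _ _ a x y
    simp only [w]
    rw [MonoidHom.map_mul]
    group
  have w_inj : ∀ (T : Type u) [CommRing T] [Algebra R T] (a : S →ₐ[R] T) x y,
      w T a x = w T a y → x = y := fun T _ _ a x y h =>
    F.v_inj T a (mul_left_cancel (mul_right_cancel h))
  have desc : ∀ (T : Type u) [CommRing T] [Algebra R T], ∃ (U : Type u) (_ : CommRing U)
      (_ : Algebra R U) (p1 p2 : T ⊗[R] S →ₐ[R] U),
      p1.comp Algebra.TensorProduct.includeLeft = p2.comp Algebra.TensorProduct.includeLeft ∧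
      ∀ x, p1 x = p2 x → x ∈ (Algebra.TensorProduct.includeLeft : T →ₐ[R] T ⊗[R] S).range := by
    intro T _ _
    refine ⟨(T ⊗[R] S) ⊗[T] (T ⊗[R] S), inferInstance, inferInstance,
      Algebra.TensorProduct.includeLeft,
      (Algebra.TensorProduct.includeRight (R := T) (A := T ⊗[R] S)).restrictScalars R,
      AlgHom.ext fun t => ?_, fun x hx => mem_range_of_includeLeft_eq (R := T) x hx⟩
    show algebraMap T (T ⊗[R] S) t ⊗ₜ[T] (1 : T ⊗[R] S) = 1 ⊗ₜ[T] algebraMap T (T ⊗[R] S) t
    rw [Algebra.algebraMap_eq_smul_one, TensorProduct.smul_tmul]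
  have linj : ∀ (T : Type u) [CommRing T] [Algebra R T],
      Function.Injective (Algebra.TensorProduct.includeLeft : T →ₐ[R] T ⊗[R] S) := fun T _ _ =>
    FaithfulSMul.algebraMap_injective T (T ⊗[R] S)
  obtain ⟨u, hu⟩ : ∃ u : GL (Fin n) A, gm (Algebra.TensorProduct.includeLeft : A →ₐ[R] A ⊗[R] S) u =
      w _ Algebra.TensorProduct.includeRight (toConv Algebra.TensorProduct.includeLeft) := by
    obtain ⟨U, _, _, p1, p2, hp, hd⟩ := desc A
    have h1 : gm p1 (w (A ⊗[R] S) Algebra.TensorProduct.includeRight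
        (toConv Algebra.TensorProduct.includeLeft)) = gm p2 (w (A ⊗[R] S)
        Algebra.TensorProduct.includeRight (toConv Algebra.TensorProduct.includeLeft)) := by
      rw [w_nat, w_nat, w_ind _ (p2.comp Algebra.TensorProduct.includeRight)]
      exact congrArg (fun x => w U _ (toConv x)) hp
    have h2 := congrArg (·⁻¹) h1
    simp only [← MonoidHom.map_inv] at h2
    exact exists_gm_of_range _ (linj A) _
      (fun s t => hd _ (congrArg (fun g : GL (Fin n) U => g.1 s t) h1))
      fun s t => hd _ (congrArg (fun g : GL (Fin n) U => g.1 s t) h2)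
  have hw : ∀ (T : Type u) [CommRing T] [Algebra R T] (a : S →ₐ[R] T) (x : WithConv (A →ₐ[R] T)),
      gm x.ofConv u = w T a x := by
    intro T _ _ a x
    let f : A ⊗[R] S →ₐ[R] T := Algebra.TensorProduct.lift x.ofConv a fun _ _ => Commute.all _ _
    have e1 : f.comp Algebra.TensorProduct.includeLeft = x.ofConv := by
      ext; simp [f]
    have e2 : f.comp Algebra.TensorProduct.includeRight = a := by
      ext; simp [f]
    have := congrArg (gm f) hu
    rw [gm_comp, w_nat, e1, e2] at this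
    exact this.trans (congrArg (fun y => w T a (toConv y)) e1)
  have uinj : ∀ (T : Type u) [CommRing T] [Algebra R T] (x y : A →ₐ[R] T),
      gm x u = gm y u → x = y := by
    intro T _ _ x y h
    let i : T →ₐ[R] T ⊗[R] S := Algebra.TensorProduct.includeLeft
    have h1 := congrArg (gm i) h
    rw [gm_comp, gm_comp] at h1
    have h2 := w_inj _ Algebra.TensorProduct.includeRight (toConv (i.comp x)) (toConv (i.comp y))
      ((hw _ _ _).symm.trans (h1.trans (hw _ _ _)))
    exact AlgHom.ext fun a => linj T (DFunLike.congr_fun (congrArg ofConv h2) a)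
  have key : ∀ (T : Type u) [CommRing T] [Algebra R T] (g : GL (Fin n) (T ⊗[R] S)),
      G.TwPt H z g ↔ ∃ x : A →ₐ[R] T ⊗[R] S, gm x u = g := by
    intro T _ _ g
    let _ : Algebra k (T ⊗[R] S) := ((algebraMap R _).comp (algebraMap k R)).toAlgebra
    have : IsScalarTower k R (T ⊗[R] S) := IsScalarTower.of_algebraMap_eq fun _ => rfl
    let a : S →ₐ[R] T ⊗[R] S := Algebra.TensorProduct.includeRight
    rw [AffQuot.twPt_iff_pt hN (gm a hh)⁻¹ (fun b => ?_), F.v_pts _ a, inv_inv]
    · constructor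
      · rintro ⟨x, hx⟩
        refine ⟨x.ofConv, ?_⟩
        rw [hw _ a]
        simp only [w]
        rw [hx]
        group
      · rintro ⟨x, rfl⟩
        refine ⟨toConv x, ?_⟩
        rw [hw _ a (toConv x)]
        simp only [w]
        group
    · have h2 := Co.map_ev (a.restrictScalars k) hh⁻¹ b
      rw [MonoidHom.map_inv, ← hz] at h2
      exact h2.symm.trans (a.commutes _)
  refine ⟨z, u, fun i j => ?_, fun T _ _ x y h => uinj T x y (Units.ext (Matrix.ext h)),
    fun T _ _ g => ?_⟩
  · let x : WithConv (A →ₐ[R] A ⊗[R] A) := toConv Algebra.TensorProduct.includeLeft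
    let y : WithConv (A →ₐ[R] A ⊗[R] A) := toConv Algebra.TensorProduct.includeRight
    let l : A ⊗[R] A →ₐ[R] (A ⊗[R] A) ⊗[R] S := Algebra.TensorProduct.includeLeft
    have h1 : gm (x * y).ofConv u = gm x.ofConv u * gm y.ofConv u := by
      apply gm_inj l (linj _)
      rw [MonoidHom.map_mul, gm_comp, gm_comp, gm_comp]
      refine (hw _ Algebra.TensorProduct.includeRight (ptMap l (x * y))).trans ?_
      rw [MonoidHom.map_mul, w_mul, ← hw, ← hw]
      rfl
    have h2 : (x * y).ofConv (u i j) = Coalgebra.comul (u i j) := by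
      rw [pt_mul_apply]
      generalize Coalgebra.comul (R := R) (u i j) = t
      induction t with
      | zero => simp
      | add a b ha hb => simp only [map_add, ha, hb]
      | tmul a b => simp [x, y]
    rw [← h2]
    refine (congrArg (fun g : GL (Fin n) (A ⊗[R] A) => g.1 i j) h1).trans ?_
    refine (Matrix.mul_apply.trans (Finset.sum_congr rfl fun l _ => ?_) :
      ((gm x.ofConv u).1 * (gm y.ofConv u).1) i j = _)
    show (u i l ⊗ₜ[R] (1 : A)) * ((1 : A) ⊗ₜ[R] u l j) = _
    simp
  · let i : T →ₐ[R] T ⊗[R] S := Algebra.TensorProduct.includeLeft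
    have h1 : G.TwPt H z g ↔ G.TwPt H z (gm i g) :=
      ⟨AffQuot.twPt_map i, AffQuot.twPt_of_ff (T' := T ⊗[R] S)⟩
    rw [h1, key]
    constructor
    · rintro ⟨x, hx⟩
      obtain ⟨U, _, _, p1, p2, hp, hd⟩ := desc T
      have h2 : p1.comp x = p2.comp x := uinj U _ _ (by
        rw [← gm_comp, ← gm_comp, hx, gm_comp, gm_comp, hp])
      let x0 : A →ₐ[R] T := (AlgEquiv.ofInjective i (linj T)).symm.toAlgHom.comp
        (x.codRestrict _ fun a => hd _ (DFunLike.congr_fun h2 a))
      have h3 : ∀ a, i (x0 a) = x a := fun a =>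
        congrArg Subtype.val ((AlgEquiv.ofInjective i (linj T)).apply_symm_apply ⟨_, _⟩)
      refine ⟨x0, fun s t => linj T ?_⟩
      exact (congrArg (fun g : GL (Fin n) (T ⊗[R] S) => g.1 s t) hx).symm.trans (h3 _).symm
    · rintro ⟨x, hx⟩
      refine ⟨i.comp x, ?_⟩
      rw [← gm_comp]
      exact congrArg (gm i) (Units.ext (Matrix.ext fun s t => (hx s t).symm))

end Pool.Agent.RG
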