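import Pool.Agent.P.MP_c1f06d_ag.g.Defs
import Pool.Agent.P.MP_c1f06d_ag.g.Glue
import Pool.Agent.P.MP_c1f06d_ag.g.Geo

open TensorProduct Polynomial Matrix Pool.Agent.GR Pool.Agent.RG

universe u

namespace Pool.Agent.RED

namespace Coc

theorem alg_eq {k C : Type u} [CommRing k] [CommRing C] (i1 i2 : Algebra k C)
    (h : @IsScalarTower k k C _ i2.toSMul i1.toSMul) : i1 = i2 := by
  refine Algebra.algebra_ext _ _ fun r => ?_
  have := @IsScalarTower.smul_assoc k k C _ i2.toSMul i1.toSMul h r 1 1
  rw [smul_eq_mul, mul_one, @one_smul k C _ i2.toModule.toDistribMulAction.toMulAction] at this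
  rw [@Algebra.algebraMap_eq_smul_one k C _ _ i1, @Algebra.algebraMap_eq_smul_one k C _ _ i2]
  exact this.symm

section

variable {k R : Type u} [CommRing k] [CommRing R] [Algebra k R] {A₁ A₂ : Type u}
  [CommRing A₁] [HopfAlgebra k A₁] [CommRing A₂] [HopfAlgebra R A₂] {B : Type u} [CommRing B]
  [Algebra k B] [Algebra R B] [IsScalarTower k R B]

theorem nat (φ : Hm k R A₁ A₂ B) {C C' : Type u}
    [CommRing C] [Algebra k C] [Algebra R C] [IsScalarTower k R C] [CommRing C'] [Algebra k C']
    [Algebra R C'] [IsScalarTower k R C'] (f : B →ₐ[R] C) (j : C →ₐ[R] C') (x : Pt k A₁ C) :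
    pm j (app φ f x) = app φ (j.comp f) (pm (j.restrictScalars k) x) := by
  refine WithConv.ext (AlgHom.ext fun a => ?_)
  simp only [app, pm_apply, AlgHom.comp_apply]
  generalize φ a = z
  induction z with
  | zero => simp
  | add a b ha hb => simp only [map_add, ha, hb]
  | tmul a b => simp

theorem app_push (φ : Hm k R A₁ A₂ B) {B' C : Type u} [CommRing B'] [Algebra k B'] [Algebra R B']
    [IsScalarTower k R B'] [CommRing C] [Algebra k C] [Algebra R C] [IsScalarTower k R C]
    (j : B →ₐ[R] B') (f : B' →ₐ[R] C) (x : Pt k A₁ C) :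
    app (push φ j) f x = app φ (f.comp j) x := by
  refine WithConv.ext (AlgHom.ext fun a => ?_)
  simp only [app, push, AlgHom.comp_apply]
  generalize φ a = z
  induction z with
  | zero => simp
  | add a b ha hb => simp only [map_add, ha, hb]
  | tmul a b => simp

theorem isIso_push {φ : Hm k R A₁ A₂ B} (h : IsIso φ) {B' : Type u} [CommRing B'] [Algebra k B']
    [Algebra R B'] [IsScalarTower k R B'] (j : B →ₐ[R] B') : IsIso (push φ j) :=
  ⟨fun C _ _ _ _ f g g' => by rw [app_push, app_push, app_push, h.1], fun C _ _ _ _ f => by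
    rw [show app (push φ j) f = app φ (f.comp j) from funext (app_push φ j f)]
    exact h.2 C _⟩

/-- A `k`-algebra under `B` is an `R`-algebra under `B`. -/
theorem under {C : Type u} [CommRing C] [Algebra k C] (f : B →ₐ[k] C) :
    ∃ (_ : Algebra R C) (_ : IsScalarTower k R C) (f' : B →ₐ[R] C), f'.restrictScalars k = f := by
  let _ : Algebra R C := ((f : B →+* C).comp (algebraMap R B)).toAlgebra
  refine ⟨inferInstance, IsScalarTower.of_algebraMap_eq fun x => ?_,
    { (f : B →+* C) with commutes' := fun _ => rfl }, rfl⟩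
  show _ = f (algebraMap R B (algebraMap k R x))
  rw [← IsScalarTower.algebraMap_apply, f.commutes]

/-- The isomorphism on points. -/
noncomputable def eqv {φ : Hm k R A₁ A₂ B} (h : IsIso φ) {C : Type u} [CommRing C] [Algebra k C]
    [Algebra R C] [IsScalarTower k R C] (f : B →ₐ[R] C) : Pt k A₁ C ≃* Pt R A₂ C :=
  MulEquiv.ofBijective (MonoidHom.mk' (app φ f) (h.1 C f)) (h.2 C f)

theorem eqv_apply {φ : Hm k R A₁ A₂ B} (h : IsIso φ) {C : Type u} [CommRing C] [Algebra k C]
    [Algebra R C] [IsScalarTower k R C] (f : B →ₐ[R] C) (x : Pt k A₁ C) :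
    eqv h f x = app φ f x := rfl

end

/-- The `k`-algebra structure through `R`. -/
noncomputable abbrev thru (k R T : Type u) [CommRing k] [CommRing R] [Algebra k R] [CommRing T]
    [Algebra R T] : Algebra k T := ((algebraMap R T).comp (algebraMap k R)).toAlgebra

theorem thru_tower (k R T : Type u) [CommRing k] [CommRing R] [Algebra k R] [CommRing T]
    [Algebra R T] : letI := thru k R T; IsScalarTower k R T :=
  letI := thru k R T
  IsScalarTower.of_algebraMap_eq fun _ => rfl

theorem eq_thru (k R T : Type u) [CommRing k] [CommRing R] [Algebra k R] [CommRing T]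
    [Algebra R T] [i : Algebra k T] [IsScalarTower k R T] : i = thru k R T :=
  Algebra.algebra_ext _ _ fun r => IsScalarTower.algebraMap_apply k R T r

end Coc

open Coc

variable {k R : Type u} [Field k] [CommRing R] [Algebra k R] {A : Type u} [CommRing A]
  [HopfAlgebra R A] {D : RD} {O : Type u} [CommRing O] [HopfAlgebra k O]

/-- COC: the automorphism that compares two pull-backs of an isomorphism. -/
theorem coc_ex {S B : Type u} [CommRing S] [Algebra k S] [Algebra R S] [IsScalarTower k R S]
    [CommRing B] [Algebra k B] [Algebra R B] [IsScalarTower k R B] {φ : Hm k R O A S}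
    (hφ : IsIso φ) (a b : S →ₐ[R] B) : ∃ c : Hm k k O O B, IsIso c ∧
      ∀ (T : Type u) [CommRing T] [Algebra k T] [Algebra R T] [IsScalarTower k R T]
        (f : B →ₐ[R] T) (x : Pt k O T),
        app φ (f.comp b) (app c (f.restrictScalars k) x) = app φ (f.comp a) x := by
  let iL : B →ₐ[R] B ⊗[k] O := Algebra.TensorProduct.includeLeft
  obtain ⟨y, hy⟩ := (hφ.2 (B ⊗[k] O) (iL.comp b)).2
    (app φ (iL.comp a) (WithConv.toConv Algebra.TensorProduct.includeRight))
  have key : ∀ (T : Type u) [CommRing T] [Algebra k T] [Algebra R T] [IsScalarTower k R T]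
      (f : B →ₐ[R] T) (x : Pt k O T), app φ (f.comp b)
        (app (k := k) (R := k) (B := B) y.ofConv (f.restrictScalars k) x) = app φ (f.comp a) x := by
    intro T _ _ _ _ f x
    let F : B ⊗[k] O →ₐ[R] T := Algebra.TensorProduct.lift f x.ofConv fun _ _ => Commute.all _ _
    have e1 : F.comp iL = f := by
      ext; simp [F, iL]
    have e2 : pm (F.restrictScalars k) (WithConv.toConv Algebra.TensorProduct.includeRight) = x :=
      WithConv.ext (AlgHom.ext fun o => by simp [F])
    have e3 : pm (F.restrictScalars k) y =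
        app (k := k) (R := k) (B := B) y.ofConv (f.restrictScalars k) x := by
      refine WithConv.ext (AlgHom.ext fun o => ?_)
      simp only [app, pm_apply, AlgHom.comp_apply]
      generalize y.ofConv o = z
      induction z with
      | zero => simp
      | add a b ha hb => simp only [map_add, ha, hb]
      | tmul a b => simp [F]
    have h1 := congrArg (pm F) hy
    rwa [nat, nat, ← AlgHom.comp_assoc, ← AlgHom.comp_assoc, e1, e2, e3] at h1
  refine ⟨y.ofConv, ⟨fun C _ i1 i2 h f g g' => ?_, fun C _ i1 i2 h f => ?_⟩, key⟩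
  · obtain rfl := alg_eq i1 i2 h
    obtain ⟨_, _, f', rfl⟩ := under (R := R) f
    apply (hφ.2 C (f'.comp b)).1
    rw [hφ.1, key, key, key, hφ.1]
  · obtain rfl := alg_eq i1 i2 h
    obtain ⟨_, _, f', rfl⟩ := under (R := R) f
    refine (Function.Bijective.of_comp_iff' (hφ.2 C (f'.comp b)) _).1 ?_
    rw [show app φ (f'.comp b) ∘ app (k := k) (R := k) (B := B) y.ofConv (f'.restrictScalars k) =
      app φ (f'.comp a) from funext (key C f')]
    exact hφ.2 C _

/-- FRAME (h81, h40): the cocycle of the isomorphism lies in `H`. -/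
theorem frame [IsDomain R] {Q : Pin D k O k} {Γ : Type} {d : Γ → Hm k k O O k} (M : Model Q d)
    {C : Type u} [CommRing C] [Algebra k C] [Algebra R C] [IsScalarTower k R C]
    [Algebra.Smooth R C] (c : Ideal C) [c.IsPrime] {φ : Hm k R O A (Localization.AtPrime c)}
    (hφ : IsIso φ)
    (hl : ∀ (Ω : Type u) [Field Ω] [IsAlgClosed Ω] [Algebra k Ω] [Algebra R Ω]
      [IsScalarTower k R Ω], Function.Injective (algebraMap R Ω) →
      ∀ a b : Localization.AtPrime c →ₐ[R] Ω, ∃ (g : Pt k O Ω) (γ : Γ),
        ∀ (T : Type u) [CommRing T] [Algebra k T] [Algebra R T] [IsScalarTower k R T]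
          (f : Ω →ₐ[R] T) (x : Pt k O T), app φ (f.comp a) x = app φ (f.comp b)
            (pm (f.restrictScalars k) g * app (d γ) (Algebra.ofId k T) x *
              (pm (f.restrictScalars k) g)⁻¹)) :
    Nonempty (FrameData M.G M.H R (Localization.AtPrime c) A) := by
  let S := Localization.AtPrime c
  have : ES R S := ES.of_loc R S C c.primeCompl
  let il : S →ₐ[R] S ⊗[R] S := Algebra.TensorProduct.includeLeft
  let ir : S →ₐ[R] S ⊗[R] S := Algebra.TensorProduct.includeRight
  obtain ⟨c0, hc0, hc⟩ := coc_ex hφ il ir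
  obtain ⟨η, hη, hH⟩ := M.ex (S ⊗[R] S) c0 hc0 fun b0 hb0 => by
    by_contra hno
    refine hb0 (geo_ext R b0 fun Ω _ _ _ hinj ψ => by_contra fun hψ => hno ?_)
    let _ := thru k R Ω
    have := thru_tower k R Ω
    obtain ⟨g, γ, hg⟩ := hl Ω hinj (ψ.comp il) (ψ.comp ir)
    refine ⟨Ω, inferInstance, inferInstance, ψ.restrictScalars k, g, γ, hψ, fun T _ _ f x => ?_⟩
    obtain ⟨_, _, f', rfl⟩ := under (R := R) f
    apply (hφ.2 T (f'.comp (ψ.comp ir))).1
    rw [← hg T f' x]
    exact hc T (f'.comp ψ) x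
  let L : ∀ (T : Type u) [CommRing T] [Algebra R T], (S →ₐ[R] T) → (S →ₐ[R] T) →
      (S ⊗[R] S →ₐ[R] T) := fun T _ _ a b =>
    Algebra.TensorProduct.lift a b fun _ _ => Commute.all _ _
  have hLl : ∀ (T : Type u) [CommRing T] [Algebra R T] (a b : S →ₐ[R] T),
      (L T a b).comp il = a := fun T _ _ a b => by ext; simp [L, il]
  have hLr : ∀ (T : Type u) [CommRing T] [Algebra R T] (a b : S →ₐ[R] T),
      (L T a b).comp ir = b := fun T _ _ a b => by ext; simp [L, ir]
  have hLn : ∀ (T T' : Type u) [CommRing T] [Algebra R T] [CommRing T'] [Algebra R T']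
      (f : T →ₐ[R] T') (a b : S →ₐ[R] T), f.comp (L T a b) = L T' (f.comp a) (f.comp b) :=
    fun T T' _ _ _ _ f a b => by ext <;> simp [L]
  have hcL : ∀ (T : Type u) [CommRing T] [Algebra k T] [Algebra R T] [IsScalarTower k R T]
      (a b : S →ₐ[R] T) (x : Pt k O T),
      app φ b (app c0 ((L T a b).restrictScalars k) x) = app φ a x := by
    intro T _ _ _ _ a b x
    have := hc T (L T a b) x
    rwa [hLl, hLr] at this
  let ρ : ∀ (T : Type u) [CommRing T] [Algebra k T], Pt k O T →* GL (Fin M.n) T :=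
    fun T _ _ => MonoidHom.mk' (fun x => gm x.ofConv M.u) (M.emb.rep T)
  refine ⟨{
    v := fun T _ _ a =>
      letI := thru k R T
      haveI := thru_tower k R T
      (ρ T).comp (eqv hφ a).symm.toMonoidHom
    h := fun T _ _ a b => gm (L T a b) η
    v_nat := fun T T' _ _ _ _ f a x => ?_
    v_inj := fun T _ _ a x y h => ?_
    v_pts := fun T _ _ i _ a g => ?_
    h_nat := fun T T' _ _ _ _ f a b => by rw [gm_comp, hLn]
    h_mul := fun T _ _ a b e => ?_
    h_pt := fun T _ _ _ _ a b => hH.map ((L T a b).restrictScalars k)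
    conj := fun T _ _ a b x => ?_ }⟩
  · let _ := thru k R T
    have := thru_tower k R T
    let _ := thru k R T'
    have := thru_tower k R T'
    obtain ⟨y, rfl⟩ := (eqv hφ a).surjective x
    show gm f (gm ((eqv hφ a).symm (eqv hφ a y)).ofConv M.u) =
      gm ((eqv hφ (f.comp a)).symm (pm f (app φ a y))).ofConv M.u
    rw [MulEquiv.symm_apply_apply, nat, ← eqv_apply hφ, MulEquiv.symm_apply_apply]
    rfl
  · let _ := thru k R T
    have := thru_tower k R T
    apply (eqv hφ a).symm.injective
    refine WithConv.ext (AlgHom.ext fun o => ?_)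
    obtain ⟨w, rfl⟩ := M.emb.surj o
    rw [Co.map_ev, Co.map_ev]
    exact congrArg (fun g => ev k g w) h
  · obtain rfl := eq_thru k R T
    let _ := thru k R T
    rw [M.emb.pt]
    exact ⟨fun ⟨x, hx⟩ => ⟨eqv hφ a x, (congrArg (fun y : Pt k O T => gm y.ofConv M.u)
      ((eqv hφ a).symm_apply_apply x)).trans hx⟩, fun ⟨x, hx⟩ => ⟨_, hx⟩⟩
  · let _ := thru k R T
    have := thru_tower k R T
    refine M.uniq T (push c0 ((L T a e).restrictScalars k)) _ _ (isIso_push hc0 _)
      (M.mul T _ _ _ _ _ (M.nat _ T ((L T b e).restrictScalars k) c0 η hη)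
        (M.nat _ T ((L T a b).restrictScalars k) c0 η hη) fun U _ _ f x => ?_)
      (M.nat _ T ((L T a e).restrictScalars k) c0 η hη)
    obtain ⟨_, _, f', rfl⟩ := under (R := R) f
    have e1 : ∀ a b : S →ₐ[R] T, (f'.restrictScalars k).comp ((L T a b).restrictScalars k) =
        (L U (f'.comp a) (f'.comp b)).restrictScalars k := fun a b => by
      rw [← hLn]
      rfl
    rw [app_push, app_push, app_push, e1, e1, e1]
    apply (hφ.2 U (f'.comp e)).1
    rw [hcL, hcL, hcL]
  · let _ := thru k R T
    have := thru_tower k R T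
    obtain ⟨y, rfl⟩ := (eqv hφ a).surjective x
    have h1 := M.conj _ c0 η hc0 hη T ((L T a b).restrictScalars k) y
    show gm ((eqv hφ b).symm (app φ a y)).ofConv M.u =
      gm (L T a b) η * gm ((eqv hφ a).symm (eqv hφ a y)).ofConv M.u * (gm (L T a b) η)⁻¹
    rw [MulEquiv.symm_apply_apply, ← hcL T a b, ← eqv_apply hφ, MulEquiv.symm_apply_apply]
    exact h1.symm

end Pool.Agent.RED
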