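import Pool.Agent.P.MP_c1f06d_ag.g.Defs
import Pool.Agent.P.MP_c1f06d_ag.g.AutA

open TensorProduct Polynomial Pool.Agent.GR

universe u

namespace Pool.Agent.RED

namespace DL

variable {D : RD}

theorem rf_rt (i : Fin D.m) (p : Bool × Fin D.N) : ∃ q, D.rf i (D.rt p) = D.rt q := by
  obtain ⟨b, j⟩ := p
  obtain ⟨j', h | h⟩ := D.perm i j
  · exact ⟨(b, j'), by simp only [RD0.rt, map_zsmul, h]⟩
  · refine ⟨(!b, j'), ?_⟩
    simp only [RD0.rt, map_zsmul, h]
    cases b <;> simp [sg]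

theorem sw_rt (l : List (Fin D.m)) (p : Bool × Fin D.N) : ∃ q, D.sw l (D.rt p) = D.rt q := by
  induction l with
  | nil => exact ⟨p, rfl⟩
  | cons i l ih =>
    obtain ⟨q, hq⟩ := ih
    obtain ⟨q', hq'⟩ := rf_rt i q
    exact ⟨q', by rw [← hq', ← hq]; rfl⟩

theorem rt_ix (b : Bool) (i : Fin D.m) : D.rt (b, D.ix i) = sg b • D.al i := by
  simp only [RD0.rt, RD0.be, D.wd_ix, D.sm_ix]
  rfl

theorem be_add_ne (h0 : ∀ p, D.rt p ≠ 0) (j j' : Fin D.N) : D.be j + D.be j' ≠ 0 := by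
  intro h
  obtain ⟨c, hc⟩ := AddSubmonoid.mem_closure_range_iff_of_fintype.1 (D.pos j)
  obtain ⟨c', hc'⟩ := AddSubmonoid.mem_closure_range_iff_of_fintype.1 (D.pos j')
  have h1 := Fintype.linearIndependent_iff.1 D.indep (fun i => ((c i + c' i : ℕ) : ℤ)) (by
    rw [← h, hc, hc', ← Finset.sum_add_distrib]
    exact Finset.sum_congr rfl fun i _ => by rw [natCast_zsmul, add_smul])
  refine h0 (true, j) ?_
  have h2 : ∀ i, c i = 0 := fun i => by
    have := h1 i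
    omega
  simp [RD0.rt, hc, h2]

theorem rt_inj (h0 : ∀ p, D.rt p ≠ 0) : Function.Injective D.rt := by
  rintro ⟨b, j⟩ ⟨b', j'⟩ h
  cases b <;> cases b' <;> simp only [RD0.rt, sg, one_smul, neg_smul, neg_inj] at h
  · rw [D.inj h]
  · exact (be_add_ne h0 j j' (by rw [← h, add_neg_cancel])).elim
  · exact (be_add_ne h0 j j' (by rw [h, neg_add_cancel])).elim
  · rw [D.inj h]

theorem map_rf (γ : DA D) (i : Fin D.m) (x : XL D.r) :
    γ.θ (D.rf (γ.π i) x) = D.rf i (γ.θ x) := by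
  show γ.θ (x - D.co (γ.π i) x • D.al (γ.π i)) = γ.θ x - D.co i (γ.θ x) • D.al i
  rw [map_sub, map_zsmul, γ.al, γ.co]

theorem map_sw (γ : DA D) (l : List (Fin D.m)) (x : XL D.r) :
    γ.θ (D.sw l x) = D.sw (l.map γ.π.symm) (γ.θ x) := by
  induction l with
  | nil => rfl
  | cons i l ih =>
    show γ.θ (D.rf i (D.sw l x)) = D.rf (γ.π.symm i) (D.sw (l.map γ.π.symm) (γ.θ x))
    rw [← ih, ← map_rf, Equiv.apply_symm_apply]

theorem map_rt (γ : DA D) (p : Bool × Fin D.N) : ∃ q, D.rt q = γ.θ (D.rt p) := by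
  obtain ⟨q, hq⟩ := sw_rt ((D.wd p.2).map γ.π.symm) (p.1, D.ix (γ.π.symm (D.sm p.2)))
  refine ⟨q, ?_⟩
  rw [← hq, rt_ix, ← γ.al, Equiv.apply_symm_apply, ← map_zsmul, ← map_sw, map_zsmul]
  rfl

theorem exists_perm (h0 : ∀ p, D.rt p ≠ 0) (γ : DA D) :
    ∃ e : Equiv.Perm (Bool × Fin D.N), ∀ p, D.rt (e p) = γ.θ (D.rt p) := by
  choose f hf using map_rt γ
  have hi : Function.Injective f := fun p p' h =>
    rt_inj h0 (γ.θ.injective (by rw [← hf, ← hf, h]))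
  exact ⟨Equiv.ofBijective f hi.bijective_of_finite, hf⟩

variable {R A B : Type u} [CommRing R] [CommRing A] [HopfAlgebra R A] [CommRing B] [Algebra R B]

theorem xev_rename {ι ι' : Type} (e : ι → ι') (X : Pt R A (MvPolynomial ι B)) {S : Type u}
    [CommRing S] [Algebra R S] (j : B →ₐ[R] S) (s : ι' → S) :
    xev (pm ((MvPolynomial.rename e).restrictScalars R) X) j s = xev X j (s ∘ e) := by
  rw [xev, xev, pm_pm]
  congr 2
  ext <;> simp

theorem wts_reindex {M : Type} [AddCommGroup M] {t : Pt R A (GA B M)} {ι ι' : Type}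
    {deg : ι → M} {deg' : ι' → M} (h : Wts t deg) (e : ι ≃ ι') (he : ∀ i, deg' (e i) = deg i) :
    Wts t deg' := by
  refine ⟨fun i => ?_, fun Λ hΛ => ?_⟩
  · rw [← e.apply_symm_apply i, he]
    exact h.1 _
  obtain ⟨X, hX⟩ := h.2 Λ hΛ
  let e' : {i // deg i ∈ Λ} ≃ {i // deg' i ∈ Λ} := e.subtypeEquiv fun i => by rw [he]
  refine ⟨pm ((MvPolynomial.rename e').restrictScalars R) X, fun S _ _ j => ?_,
    fun S _ _ j => ?_, fun S _ _ j τ s => ?_⟩
  · have : xev (pm ((MvPolynomial.rename e').restrictScalars R) X) j =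
        xev X j ∘ fun s => s ∘ e' := funext fun s => xev_rename e' X j s
    rw [this]
    exact (hX.bij S j).comp (Set.bijOn_univ.2 (Equiv.arrowCongr e'.symm (Equiv.refl S)).bijective)
  · rw [xev_rename]
    exact hX.zero S j
  · rw [xev_rename, xev_rename, hX.eqv]
    congr 1
    funext i
    exact congrArg (fun m => chv τ m * s (e' i)) (he i).symm

/-- The pinning twisted by a diagram automorphism. -/
noncomputable def twist (Q : Pin D R A B) (γ : DA D) : Pin D R A B where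
  x b i := Q.x b (γ.π i)
  τ := Au.tw (γ.θ : XL D.r →+ XL D.r) Q.τ

theorem twist_pre {Q : Pin D R A B} (h : Q.Pre) (γ : DA D) : (twist Q γ).Pre := by
  obtain ⟨e, he⟩ := exists_perm h.wts.1 γ
  refine ⟨Au.isHom_tw _ h.hom, Au.zt_tw _ h.zt, wts_reindex (Au.wts_tw γ.θ h.wts) e he,
    fun b i => ?_, fun i => ?_⟩
  · have := Au.isRoot_tw γ.θ (h.root b (γ.π i))
    rwa [map_zsmul, γ.al] at this
  · have := Au.sl2_tw γ.θ (h.sl2 (γ.π i))
    have hc : (D.co (γ.π i)).comp (γ.θ.symm : XL D.r →+ XL D.r) = D.co i :=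
      AddMonoidHom.ext fun x => by
        rw [← γ.θ.apply_symm_apply x, γ.co, γ.θ.apply_symm_apply]
        rfl
    rwa [hc] at this

end DL

/-- Diagram automorphisms lift, from the two blocks `Pin.Pre.ok` and `iso`. -/
theorem da_lift_of {k O : Type u} [Field k] [CommRing O] [HopfAlgebra k O] {D : RD}
    (hok : ∀ P : Pin D k O k, P.Pre → P.Ok)
    (hiso : ∀ P₁ P₂ : Pin D k O k, P₁.Ok → P₂.Ok →
      ∃ φ : Hm k k O O k, IsIso φ ∧ RespT φ P₁ P₂ (AddMonoidHom.id _) id)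
    {Q : Pin D k O k} (h : Q.Ok) (γ : DA D) :
    ∃ d : Hm k k O O k, IsIso d ∧ RespT d Q Q γ.θ γ.π := by
  obtain ⟨φ, h1, h2⟩ := hiso Q (DL.twist Q γ) h (hok _ (DL.twist_pre h.pre γ))
  refine ⟨φ, h1, fun C i1 i2 i3 i4 f => ?_⟩
  have h3 := @h2 C i1 i2 i3 i4 f
  exact ⟨fun t => (h3.1 t).trans (Au.tev_tw _ _ _ _), h3.2⟩

end Pool.Agent.RED
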