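import Pool.Agent.P.MP_c1f06d_ag.g.Defs
import Pool.Agent.P.MP_c1f06d_ag.g.BC
import Pool.Agent.P.MP_c1f06d_ag.g.EntUni
import Pool.Agent.P.MP_c1f06d_ag.r.Coact

/-! Integral geometric fibres, and finite kernels for a form over the ground field. -/

open TensorProduct Matrix WithConv Pool.Agent.GR Pool.Agent.RG

universe u

namespace Pool.Agent.RED

namespace Ent

variable {k B : Type u} [Field k] [CommRing B] [HopfAlgebra k B] {n : ℕ}

theorem isRep_hp {w : GL (Fin n) B} (h : IsRep k w) : Hp.IsRep (k := k) (w : Mat n B) := by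
  refine ⟨fun i j => ?_, fun i j => ?_⟩
  · have h1 := congrArg (fun g : GL (Fin n) (B ⊗[k] B) => g.1 i j) (h (B ⊗[k] B)
      (toConv Algebra.TensorProduct.includeLeft) (toConv Algebra.TensorProduct.includeRight))
    have h2 : ∀ b, (toConv (Algebra.TensorProduct.includeLeft (S := k)) *
        toConv Algebra.TensorProduct.includeRight : Pt k B (B ⊗[k] B)).ofConv b =
          Coalgebra.comul b := fun b => by
      rw [pt_mul_apply, Algebra.TensorProduct.lift_includeLeft_includeRight]
      rfl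
    refine (h2 _).symm.trans (h1.trans ?_)
    show ∑ l : Fin n, _ = _
    refine Finset.sum_congr rfl fun l _ => ?_
    show (w i l ⊗ₜ[k] (1 : B)) * ((1 : B) ⊗ₜ[k] w l j) = _
    simp
  · have h1 := h k 1 1
    rw [mul_one, left_eq_mul] at h1
    exact congrArg (fun g : GL (Fin n) k => g.1 i j) h1

theorem gl_isRep_hp {w : GL (Fin n) B} (h : IsRep k w) : (isRep_hp h).gl = w := Units.ext rfl

theorem hp_isRep {u : Mat n B} (h : Hp.IsRep (k := k) u) : IsRep k h.gl :=
  fun C _ _ g g' => (h.pts C).map_mul g g'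

end Ent

section main

variable {k R : Type u} [Field k] [CommRing R] [Algebra k R] {A : Type u} [CommRing A]
  [HopfAlgebra R A]

/-- The geometric fibres of a reductive group are integral. -/
theorem gi_of_red (hA : IsReductive R A) : GI R A := fun Ω _ _ _ => by
  have := hA.smooth
  have := (hA.fibre Ω).conn
  exact Ent.isDomain_of_conn (Ω := Ω)

variable {O : Type u} [CommRing O] [HopfAlgebra k O]

theorem Ent.pm_app {B : Type u} [CommRing B] [Algebra k B] [Algebra R B] [IsScalarTower k R B]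
    (φ : Hm k R O A B) {C C' : Type u} [CommRing C] [Algebra k C] [Algebra R C]
    [IsScalarTower k R C] [CommRing C'] [Algebra k C'] [Algebra R C'] [IsScalarTower k R C']
    (f : B →ₐ[R] C) (y : C →ₐ[R] C') (x : Pt k O C) :
    pm y (app φ f x) = app φ (y.comp f) (pm (y.restrictScalars k) x) := by
  refine WithConv.ext (AlgHom.ext fun a => ?_)
  show y (Algebra.TensorProduct.lift f x.ofConv (fun _ _ => Commute.all _ _) (φ a)) =
    Algebra.TensorProduct.lift (y.comp f) (pm (y.restrictScalars k) x).ofConv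
      (fun _ _ => Commute.all _ _) (φ a)
  generalize φ a = z
  induction z with
  | zero => simp
  | add a b ha hb => simp only [map_add, ha, hb]
  | tmul a b =>
    simp only [Algebra.TensorProduct.lift_tmul, map_mul]
    rfl

/-- A faithful representation of a form gives a faithful representation of the fibre. -/
theorem Ent.transfer (Ω : Type u) [Field Ω] [Algebra k Ω] [Algebra R Ω] [IsScalarTower k R Ω]
    {ψ : Hm k R O A Ω} (h : IsIso ψ) {n : ℕ} {u : GL (Fin n) O} (hu : IsRep k u)
    (hs : Function.Surjective (ev k u)) :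
    ∃ w : GL (Fin n) (Ω ⊗[R] A), IsRep Ω w ∧ Function.Surjective (ev Ω w) ∧ ∀ x : Pt k O Ω,
      gm (bcPt Ω Ω (app ψ (AlgHom.id R Ω) x)).ofConv w = gm x.ofConv u := by
  obtain ⟨x0, hx0⟩ := (h.2 (Ω ⊗[R] A) (IsScalarTower.toAlgHom R Ω _)).2
    (toConv Algebra.TensorProduct.includeRight)
  have key : ∀ (C : Type u) [CommRing C] [Algebra k C] [Algebra R C] [Algebra Ω C]
      [IsScalarTower k R C] [IsScalarTower R Ω C] (x : Pt k O C),
      gm (bcPt Ω C (app ψ (IsScalarTower.toAlgHom R Ω C) x)).ofConv (gm x0.ofConv u) =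
        gm x.ofConv u := by
    intro C _ _ _ _ _ _ x
    set y := (bcPt Ω C (app ψ (IsScalarTower.toAlgHom R Ω C) x)).ofConv with hy
    have h1 := Ent.pm_app ψ (IsScalarTower.toAlgHom R Ω _) (y.restrictScalars R) x0
    have h2 : (y.restrictScalars R).comp (IsScalarTower.toAlgHom R Ω _) =
        IsScalarTower.toAlgHom R Ω C := AlgHom.ext fun c => y.commutes c
    have h3 : pm (y.restrictScalars R) (toConv Algebra.TensorProduct.includeRight) =
        app ψ (IsScalarTower.toAlgHom R Ω C) x := WithConv.ext (AlgHom.ext fun a => by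
      show y (1 ⊗ₜ a) = _
      rw [hy, bcPt_tmul, one_smul])
    rw [hx0, h2, h3] at h1
    conv_rhs => rw [(h.2 C _).1 h1]
    rfl
  refine ⟨gm x0.ofConv u, fun C _ _ g g' => ?_, ?_, key Ω⟩
  · let _ : Algebra R C := ((algebraMap Ω C).comp (algebraMap R Ω)).toAlgebra
    let _ : Algebra k C := ((algebraMap R C).comp (algebraMap k R)).toAlgebra
    have : IsScalarTower R Ω C := IsScalarTower.of_algebraMap_eq fun _ => rfl
    have : IsScalarTower k R C := IsScalarTower.of_algebraMap_eq fun _ => rfl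
    obtain ⟨z, rfl⟩ := (bcPt (R := R) (A := A) Ω C).surjective g
    obtain ⟨z', rfl⟩ := (bcPt (R := R) (A := A) Ω C).surjective g'
    obtain ⟨x, rfl⟩ := (h.2 C (IsScalarTower.toAlgHom R Ω C)).2 z
    obtain ⟨x', rfl⟩ := (h.2 C (IsScalarTower.toAlgHom R Ω C)).2 z'
    rw [← map_mul, ← h.1, key, key, key, hu]
  · let N := (ev Ω (gm x0.ofConv u)).range
    have hk : IsScalarTower k Ω (Ω ⊗[R] A) := inferInstance
    have : IsScalarTower k R N := IsScalarTower.of_algebraMap_eq fun c =>
      Subtype.ext (IsScalarTower.algebraMap_apply k R (Ω ⊗[R] A) c)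
    obtain ⟨g', hg'⟩ := exists_gl_sub N (gm x0.ofConv u)
      (fun i j => ⟨_, Hp.ev_X _ i j⟩) fun i j => ⟨((Co.ug Ω n)⁻¹ : GL (Fin n) _) i j, by
        show gm (ev Ω (gm x0.ofConv u)) (Co.ug Ω n)⁻¹ i j = _
        rw [map_inv, Co.gm_ev_ug]⟩
    have hmem : ∀ a, x0.ofConv a ∈ N := fun a => by
      obtain ⟨f, rfl⟩ := hs a
      have e := Co.map_ev (N.val.restrictScalars k) g' f
      have e' : (ev k g' f).1 = ev k (gm N.val g') f := e
      rw [Co.map_ev, ← hg', ← e']
      exact (ev k g' f).2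
    let x1 : Pt k O N := toConv (x0.ofConv.codRestrict (N.restrictScalars k) hmem)
    have h1 := Ent.pm_app ψ (IsScalarTower.toAlgHom R Ω N) (N.val.restrictScalars R) x1
    have h2 : ∀ a : A, (1 : Ω) ⊗ₜ[R] a ∈ N := fun a => by
      have h3 := congrArg (fun z : Pt R A _ => z.ofConv a) (h1.trans hx0)
      have h4 : ((app ψ (IsScalarTower.toAlgHom R Ω N) x1).ofConv a).1 = (1 : Ω) ⊗ₜ[R] a := h3
      exact h4 ▸ ((app ψ (IsScalarTower.toAlgHom R Ω N) x1).ofConv a).2
    intro z
    show z ∈ N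
    induction z with
    | zero => exact N.zero_mem
    | add a b ha hb => exact N.add_mem ha hb
    | tmul c a => simpa [smul_tmul'] using N.smul_mem (h2 a) c

/-- The kernel on the graded module is finite. -/
theorem fk (hA : IsReductive R A) (Ω : Type u) [Field Ω] [IsAlgClosed Ω] [Algebra k Ω]
    [Algebra R Ω] [IsScalarTower k R Ω] {ψ : Hm k R O A Ω} (h : IsIso ψ) : FK k O := by
  intro n u a hu hs hP
  have := hA.smooth
  obtain ⟨w, h1, h2, h3⟩ := Ent.transfer Ω h hu hs
  have hb := h.2 Ω (AlgHom.id R Ω)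
  have h4 := Ent.finite_ker_lv (hA.fibre Ω) (Ent.isRep_hp h1) h2 1 a fun g => by
    obtain ⟨z, rfl⟩ := (bcPt (R := R) (A := A) Ω Ω).surjective g
    obtain ⟨x, rfl⟩ := hb.2 z
    rw [inv_one, one_mul, mul_one, Hp.IsRep.pts_apply, Ent.gl_isRep_hp h1, h3]
    exact fun i j e => (congrArg x.ofConv (hP i j e)).trans (map_zero _)
  let ι : AlgebraicClosure k →ₐ[k] Ω := IsAlgClosed.lift
  refine Set.Finite.of_injOn (f := fun x => bcPt Ω Ω (app ψ (AlgHom.id R Ω) (pm ι x)))
    (fun x hx => ?_) (fun x _ y _ e => ?_) h4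
  · show lv a _ = 1
    rw [inv_one, one_mul, mul_one, Hp.IsRep.pts_apply, Ent.gl_isRep_hp h1, h3]
    ext i j
    have h5 := congrArg ι (congrFun (congrFun hx i) j)
    simp only [lv, of_apply, Matrix.one_apply, apply_ite ι, map_zero, map_one] at h5 ⊢
    exact h5
  · have e2 := hb.1 ((bcPt Ω Ω).injective e)
    exact WithConv.ext (AlgHom.ext fun b =>
      ι.injective (congrArg (fun z : Pt k O Ω => z.ofConv b) e2))

end main

end Pool.Agent.RED
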