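import Pool.Agent.P.MP_c1f06d_ag.g.HDbl
import Pool.Agent.P.MP_c1f06d_ag.g.EntFK
import Pool.Agent.P.MP_c1f06d_ag.g.Flag

/-! A connected reductive group over an algebraically closed field has an affine quotient model. -/

open Matrix Pool.Agent.GR Pool.Agent.GR.Co Pool.Agent.RG

universe u

namespace Pool.Agent.RED

section ker

variable {k B : Type u} [Field k] [CommRing B] [HopfAlgebra k B] {n : ℕ} {w : GL (Fin n) B}

theorem vz_ker (h : IsRep k w) (hs : Function.Surjective (ev k w)) {T : Type u} [CommRing T]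
    [Algebra k T] (g : GL (Fin n) T) :
    AQ.Vz (RingHom.ker (ev k w)) g ↔ ∃ x : Pt k B T, gm x.ofConv w = g := by
  have := ((Ent.isRep_hp h).mem_range_pts (by rwa [Ent.gl_isRep_hp h]) g).symm
  simp only [Hp.IsRep.pts_apply, Ent.gl_isRep_hp h] at this
  exact this

theorem IsRep.gm_one (h : IsRep k w) (T : Type u) [CommRing T] [Algebra k T] :
    gm (1 : Pt k B T).ofConv w = 1 := by
  have h1 := h T 1 1
  rwa [mul_one, left_eq_mul] at h1

theorem isGrp_ker (h : IsRep k w) (hs : Function.Surjective (ev k w)) :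
    AQ.IsGrp (RingHom.ker (ev k w)) := by
  refine ⟨fun T _ _ => (vz_ker h hs _).2 ⟨1, h.gm_one T⟩,
    fun {T} _ _ g g' h1 h2 => ?_, fun {T} _ _ g h1 => ?_⟩
  · obtain ⟨x, rfl⟩ := (vz_ker h hs _).1 h1
    obtain ⟨y, rfl⟩ := (vz_ker h hs _).1 h2
    exact (vz_ker h hs _).2 ⟨x * y, h T x y⟩
  · obtain ⟨x, rfl⟩ := (vz_ker h hs _).1 h1
    exact (vz_ker h hs _).2 ⟨x⁻¹, eq_inv_of_mul_eq_one_left (by
      rw [← h, inv_mul_cancel, h.gm_one])⟩

theorem gm_conj (γ : GL (Fin n) k) {T : Type u} [CommRing T] [Algebra k T] (x : B →ₐ[k] T) :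
    gm x ((AQ.cst B γ)⁻¹ * w * AQ.cst B γ) = (AQ.cst T γ)⁻¹ * gm x w * AQ.cst T γ := by
  rw [map_mul, map_mul, map_inv, AQ.gm_cst]

theorem IsRep.conj (h : IsRep k w) (γ : GL (Fin n) k) :
    IsRep k ((AQ.cst B γ)⁻¹ * w * AQ.cst B γ) := fun C _ _ x y => by
  rw [gm_conj, gm_conj, gm_conj, h]
  group

theorem conj_surj (hs : Function.Surjective (ev k w)) (γ : GL (Fin n) k) :
    Function.Surjective (ev k ((AQ.cst B γ)⁻¹ * w * AQ.cst B γ)) := fun b => by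
  obtain ⟨f, rfl⟩ := hs b
  refine ⟨ev k (AQ.cst _ γ * ug k n * (AQ.cst _ γ)⁻¹) f, ?_⟩
  rw [map_ev, map_mul, map_mul, map_inv, AQ.gm_cst, gm_ev_ug]
  congr 2
  group

/-- The doubled matrix is an embedding onto the doubled group. -/
theorem emb_dbl (h : IsRep k w) (hs : Function.Surjective (ev k w)) {a : Fin n → ℤ}
    (hP : InP a (w : Mat n B)) {Q : AffQuot k (n + n)}
    (hQ : ∀ (T : Type u) [CommRing T] [Algebra k T] (g : GL (Fin (n + n)) T), Q.Pt g ↔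
      ∃ ζ : GL (Fin n) T, AQ.Vz (RingHom.ker (ev k w)) ζ ∧
        (g : Mat (n + n) T) = dbl a (ζ : Mat n T)) : Emb (dblU w hP) Q := by
  have e : ∀ (T : Type u) [CommRing T] [Algebra k T] (x : B →ₐ[k] T),
      (gm x (dblU w hP) : Mat (n + n) T) = dbl a (gm x w : Mat n T) := fun T _ _ x =>
    dbl_map (x : B →+* T) a _
  have hx : ∀ (T : Type u) [CommRing T] [Algebra k T] (x : B →ₐ[k] T),
      InP a (gm x w : Mat n T) := fun T _ _ x i j e' => (congrArg x (hP i j e')).trans (map_zero _)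
  refine ⟨fun C _ _ x y => Units.ext ?_, dblU_surj hP hs, fun C _ _ g => (hQ C g).trans ⟨?_, ?_⟩⟩
  · rw [Units.val_mul, e, e, e, h, Units.val_mul, dbl_mul (hx _ _) (hx _ _)]
  · rintro ⟨ζ, h1, h2⟩
    obtain ⟨x, rfl⟩ := (vz_ker h hs _).1 h1
    exact ⟨x, Units.ext ((e _ _).trans h2.symm)⟩
  · rintro ⟨x, rfl⟩
    exact ⟨_, (vz_ker h hs _).2 ⟨x, rfl⟩, e _ _⟩

end ker

/-- ENTRY. -/
theorem entry {Ω B : Type u} [Field Ω] [IsAlgClosed Ω] [CommRing B] [HopfAlgebra Ω B]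
    [Algebra.Smooth Ω B] (hB : IsConnReductive Ω B) :
    ∃ (n : ℕ) (u : GL (Fin n) B) (Q : AffQuot Ω n), Emb u Q := by
  obtain ⟨n, u, h, hs⟩ := Hp.exists_faithful (k := Ω) (A := B)
  obtain ⟨γ, a, h1, h2⟩ := Pool.Agent.GR.exists_flag (Set.range (h.pts Ω))
  have hr := (Ent.hp_isRep h).conj γ
  have hs' := conj_surj hs γ
  have hw : ∀ x : Pt Ω B Ω, gm x.ofConv ((AQ.cst B γ)⁻¹ * h.gl * AQ.cst B γ) =
      γ⁻¹ * h.pts Ω x * γ := fun x => gm_conj γ x.ofConv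
  set w := (AQ.cst B γ)⁻¹ * h.gl * AQ.cst B γ
  have := Ent.smooth_reduced Ω B
  have hP : InP a (w : Mat n B) := fun i j e => Ent.eq_zero_of_pts (Ω := Ω) _ fun φ => by
    have h3 := h1 _ ⟨WithConv.toConv φ, rfl⟩ i j e
    rwa [← hw] at h3
  have : Algebra.Smooth Ω (OGL Ω n ⧸ RingHom.ker (ev Ω w)) :=
    Algebra.Smooth.of_equiv (Ideal.quotientKerAlgEquivOfSurjective hs').symm
  obtain ⟨Q, hQ⟩ := aq_dbl' Ω Ω _ (isGrp_ker hr hs') a
    (fun T _ _ g hg => by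
      obtain ⟨x, rfl⟩ := (vz_ker hr hs' g).1 hg
      exact fun i j e => (congrArg x.ofConv (hP i j e)).trans (map_zero _)) 1 a
    (fun g _ => by
      rw [inv_one, Units.val_one, one_mul, mul_one]
      exact inL_lv a _)
    (fun t b ht hb => h2 t b ht (by
      rintro _ ⟨x, rfl⟩
      have h3 := hb _ ((vz_ker hr hs' _).2 ⟨x, rfl⟩)
      rwa [inv_one, Units.val_one, one_mul, mul_one, hw] at h3))
    (((Ent.finite_ker_lv hB h hs γ a fun x => h1 _ ⟨x, rfl⟩).image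
      fun x => γ⁻¹ * h.pts Ω x * γ).subset (by
      rintro g ⟨h3, h4⟩
      obtain ⟨x, rfl⟩ := (vz_ker hr hs' g).1 h3
      rw [hw] at h4
      exact ⟨x, h4, (hw x).symm⟩))
  exact ⟨_, _, Q, emb_dbl hr hs' hP hQ⟩

end Pool.Agent.RED
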