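import Pool.Agent.P.MP_c1f06d_ag.g.FibB
import Pool.Agent.P.MP_c1f06d_ag.g.Entry
import Pool.Agent.P.MP_c1f06d_ag.g.EntFK

open TensorProduct Pool.Agent.GR Pool.Agent.RG

universe u

namespace Pool.Agent.RED

variable {R : Type u} [CommRing R] {A : Type u} [CommRing A] [HopfAlgebra R A]

theorem fib (hA : IsReductive R A) (Ω : Type u) [Field Ω] [IsAlgClosed Ω] [Algebra R Ω] :
    ∃ (D : RD) (P : Pin D R A Ω), P.Pre := by
  have := hA.smooth
  have := gi_of_red hA Ω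
  obtain ⟨n, u, Q, h⟩ := entry (hA.fibre Ω)
  exact (Real.ofFib h).pin (Real.ofFib h).prime

theorem fib_sl2 (hA : IsReductive R A) (Ω : Type u) [Field Ω] [IsAlgClosed Ω] [Algebra R Ω]
    {r : ℕ} {t : Pt R A (GA Ω (XL r))} (ht : IsHom t) (hz : ZT t) {α : XL r} (hα : α ≠ 0)
    {x y : Pt R A (Polynomial Ω)} (hx : IsRoot t α x) (hy : IsRoot t (-α) y) :
    ∃ (cor : XL r →+ ℤ) (c : Ω), cor α = 2 ∧ c ≠ 0 ∧ SL2 t cor c x y := by
  have := hA.smooth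
  obtain ⟨n, u, Q, h⟩ := entry (hA.fibre Ω)
  exact (Real.ofFib h).sl2 ht hz hα hx hy

end Pool.Agent.RED
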