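import Pool.Agent.P.MP_c1f06d_ag.g.IsoF

open TensorProduct Polynomial Pool.Agent.GR

universe u

namespace Pool.Agent.RED

open Iso

attribute [local instance] twRing twAlg alRing alAlg

variable {k R : Type u} [CommRing k] [CommRing R] [Algebra k R] {A : Type u} [CommRing A]
  [HopfAlgebra R A] {D : RD} {O : Type u} [CommRing O] [HopfAlgebra k O]
  {B : Type u} [CommRing B] [Algebra k B] [Algebra R B] [IsScalarTower k R B]

theorem Iso.app_nat (φ : Hm k R O A B) {C C' : Type u} [CommRing C] [Algebra k C] [Algebra R C]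
    [IsScalarTower k R C] [CommRing C'] [Algebra k C'] [Algebra R C'] [IsScalarTower k R C']
    (f : B →ₐ[R] C) (j : C →ₐ[R] C') (x : Pt k O C) :
    pm j (app φ f x) = app φ (j.comp f) (pm (j.restrictScalars k) x) := by
  refine WithConv.ext (AlgHom.ext fun a => ?_)
  simp only [app, pm_apply, AlgHom.comp_apply]
  generalize φ a = z
  induction z with
  | zero => simp
  | add a b ha hb => simp only [map_add, ha, hb]
  | tmul a b => simp

/-- The universal point. -/
noncomputable def Iso.uO (k B O : Type u) [CommRing k] [CommRing B] [Algebra k B] [CommRing O]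
    [HopfAlgebra k O] : Pt k O (B ⊗[k] O) := WithConv.toConv Algebra.TensorProduct.includeRight

theorem Iso.app_uO (φ : Hm k R O A B) :
    (app φ (IsScalarTower.toAlgHom R B (B ⊗[k] O)) (uO k B O)).ofConv = φ := by
  refine AlgHom.ext fun a => ?_
  simp only [app, AlgHom.comp_apply]
  generalize φ a = z
  induction z with
  | zero => simp
  | add a b ha hb => simp only [map_add, ha, hb]
  | tmul a b => simp [uO]

/-- The isomorphism theorem, over any ground ring. -/
theorem iso' {P₁ : Pin D k O B} {P₂ : Pin D R A B} (h₁ : P₁.Ok) (h₂ : P₂.Ok) :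
    ∃ φ : Hm k R O A B, IsIso φ ∧ RespT φ P₁ P₂ (AddMonoidHom.id _) id := by
  obtain ⟨e, nat, he⟩ := exists_iso (aPin h₁) (aPin h₂)
  let f₀ : B →ₐ[R] B ⊗[k] O := IsScalarTower.toAlgHom R B (B ⊗[k] O)
  let φ : Hm k R O A B :=
    (pm (out f₀) (e (Al f₀) (pm (inn (f₀.restrictScalars k)) (uO k B O)))).ofConv
  have key : ∀ (C : Type u) [CommRing C] [Algebra k C] [Algebra R C] [IsScalarTower k R C]
      (f : B →ₐ[R] C) (g : Pt k O C),
      app φ f g = pm (out f) (e (Al f) (pm (inn (f.restrictScalars k)) g)) := by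
    intro C _ _ _ _ f g
    let v : B ⊗[k] O →ₐ[R] C := Algebra.TensorProduct.lift f g.ofConv fun _ _ => Commute.all _ _
    let V : Al f₀ →ₐ[B] Al f :=
      { (v : B ⊗[k] O →+* C) with
        commutes' := fun b => show v (b ⊗ₜ 1) = f b by simp [v] }
    have h1 := nat _ _ V (pm (inn (f₀.restrictScalars k)) (uO k B O))
    have h2 : (hGF k O B).mp V (pm (inn (f₀.restrictScalars k)) (uO k B O)) =
        pm (inn (f.restrictScalars k)) g := pt_ext fun a => show v (1 ⊗ₜ a) = g.ofConv a by simp [v]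
    rw [h2] at h1
    rw [← h1]
    rfl
  refine ⟨φ, ⟨fun C _ _ _ _ f g g' => ?_, fun C _ _ _ _ f => ?_⟩, fun C _ _ _ _ f =>
    ⟨fun t => ?_, fun b i s => ?_⟩⟩
  · rw [key, key, key, map_mul, ← map_mul (pm (out f))]
    exact congrArg _ ((he (Al f)).1 _ _)
  · rw [show app φ f = _ from funext (key C f)]
    refine Function.Bijective.comp (g := pm (out f)) ⟨pm_inj _ fun _ _ h => h,
      fun y => ⟨pm (inn f) y, rfl⟩⟩ (Function.Bijective.comp (he (Al f)).2.1
        ⟨pm_inj _ fun _ _ h => h, fun y => ⟨pm (out (f.restrictScalars k)) y, rfl⟩⟩)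
  · rw [key, Pin.ta, pm_tev]
    exact (congrArg (pm (out f)) ((he (Al f)).2.2.1 t)).trans (pm_tev P₂.τ _ (out f) t)
  · rw [key, Pin.xa, pm_cv]
    exact (congrArg (pm (out f)) ((he (Al f)).2.2.2.1 (b, i) s)).trans (pm_cv _ _ (out f) s)

/-- A homomorphism is determined by its values on the pinning, over any ground ring. -/
theorem uniq' {P₁ : Pin D k O B} (h₁ : P₁.Ok) {P₂ : Pin D R A B} {θ : XL D.r →+ XL D.r}
    {π : Fin D.m → Fin D.m} {φ ψ : Hm k R O A B} (hφ : IsMul φ) (hψ : IsMul ψ)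
    (h : RespT φ P₁ P₂ θ π) (h' : RespT ψ P₁ P₂ θ π) : φ = ψ := by
  let f₀ : B →ₐ[R] B ⊗[k] O := IsScalarTower.toAlgHom R B (B ⊗[k] O)
  obtain ⟨C, _, _, j, η, hj, hη⟩ := (h₁.at' _ (f₀.restrictScalars k)).gen 2 ![1, uO k B O]
  let _ : Algebra R C := ((j : B ⊗[k] O →+* C).comp (algebraMap R (B ⊗[k] O))).toAlgebra
  have : IsScalarTower k R C := .of_algebraMap_eq fun c => by
    rw [← j.commutes, IsScalarTower.algebraMap_apply k R (B ⊗[k] O)]
    rfl
  let j' : B ⊗[k] O →ₐ[R] C := { (j : B ⊗[k] O →+* C) with commutes' := fun _ => rfl }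
  let E : Subgroup (Pt k O C) := (MonoidHom.mk' (app φ (j'.comp f₀)) (hφ C _)).eqLocus
    (MonoidHom.mk' (app ψ (j'.comp f₀)) (hψ C _))
  have hx : ∀ b i s, P₁.xa (j.comp (f₀.restrictScalars k)) b i s ∈ E := fun b i s =>
    ((h C (j'.comp f₀)).2 b i s).trans ((h' C (j'.comp f₀)).2 b i s).symm
  have ht : ∀ t, P₁.ta (j.comp (f₀.restrictScalars k)) t ∈ E := fun t =>
    ((h C (j'.comp f₀)).1 t).trans ((h' C (j'.comp f₀)).1 t).symm
  have hn : ∀ w, P₁.nw (j.comp (f₀.restrictScalars k)) w ∈ E := fun w =>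
    list_prod_mem fun y hy => by
      obtain ⟨i, _, rfl⟩ := List.mem_map.1 hy
      exact mul_mem (mul_mem (hx _ _ _) (hx _ _ _)) (hx _ _ _)
  have hu : ∀ b s, P₁.un (j.comp (f₀.restrictScalars k)) b s ∈ E := fun b s =>
    list_prod_mem fun y hy => by
      obtain ⟨i, rfl⟩ := List.mem_ofFn.1 hy
      exact mul_mem (mul_mem (hn _) (hx _ _ _)) (inv_mem (hn _))
  have hc : ∀ i, η * pm j (![1, uO k B O] i) ∈ E := fun i => by
    obtain ⟨p, hp⟩ := hη i
    rw [← hp]
    exact mul_mem (mul_mem (hu _ _) (ht _)) (hu _ _)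
  have h1 : pm j (uO k B O) ∈ E := by simpa using mul_mem (inv_mem (hc 0)) (hc 1)
  rw [← app_uO φ, ← app_uO ψ]
  refine congrArg _ (pm_inj j' hj.injective ?_)
  rw [Iso.app_nat, Iso.app_nat]
  exact h1

end Pool.Agent.RED

namespace Pool.Agent.RED

variable {k R : Type u} [Field k] [CommRing R] [Algebra k R] {A : Type u} [CommRing A]
  [HopfAlgebra R A] {D : RD} {O : Type u} [CommRing O] [HopfAlgebra k O]

/-- The isomorphism theorem. -/
theorem iso {B : Type u} [CommRing B] [Algebra k B] [Algebra R B] [IsScalarTower k R B]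
    {P₁ : Pin D k O B} {P₂ : Pin D R A B} (h₁ : P₁.Ok) (h₂ : P₂.Ok) :
    ∃ φ : Hm k R O A B, IsIso φ ∧ RespT φ P₁ P₂ (AddMonoidHom.id _) id := iso' h₁ h₂

/-- A homomorphism is determined by its values on the pinning. -/
theorem uniq {B : Type u} [CommRing B] [Algebra k B] [Algebra R B] [IsScalarTower k R B]
    {P₁ : Pin D k O B} (h₁ : P₁.Ok) {P₂ : Pin D R A B} {θ : XL D.r →+ XL D.r}
    {π : Fin D.m → Fin D.m} {φ ψ : Hm k R O A B} (hφ : IsMul φ) (hψ : IsMul ψ)
    (h : RespT φ P₁ P₂ θ π) (h' : RespT ψ P₁ P₂ θ π) : φ = ψ := uniq' h₁ hφ hψ h h'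

end Pool.Agent.RED
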