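import Pool.Agent.P.MP_c1f06d_ag.g.HTop
import Pool.Agent.P.MP_c1f06d_ag.g.Iso

universe u

namespace Pool.Agent.RED

/-- MODEL. -/
theorem model {k : Type u} [Field k] {D : RD} {O : Type u} [CommRing O] [HopfAlgebra k O]
    [PerfectField k] [Algebra.Smooth k O] (hG : GI k O) (hF : FK k O) {Q : Pin D k O k}
    (h : Q.Ok) {Γ : Type} [Finite Γ] (γ : Γ → DA D) (d : Γ → Hm k k O O k)
    (hd : ∀ a, IsIso (d a) ∧ RespT (d a) Q Q (γ a).θ (γ a).π)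
    (h1 : ∃ a, (γ a).θ = AddEquiv.refl _)
    (hm : ∀ a b, ∃ c, (γ c).θ = (γ a).θ.trans (γ b).θ) (hi : ∀ a, ∃ b, (γ b).θ = (γ a).θ.symm) :
    Nonempty (Model Q d) :=
  Mo.model' (fun _ _ _ _ a b c e => uniq h a b c e) hG hF h γ d hd h1 hm hi

end Pool.Agent.RED
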