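import Pool.Agent.P.MP_c1f06d_ag.g.Defs
import Pool.Agent.P.MP_c1f06d_ag.g.BC

/-! The finite set of weights that is preserved by monodromy. -/

open TensorProduct Polynomial Matrix Pool.Agent.GR Pool.Agent.RG

universe u

namespace Pool.Agent.RED

namespace Mono

/-- An idempotent matrix over a domain that dies in a nonzero ring is zero. -/
theorem idem_zero {D Ω : Type u} [CommRing D] [IsDomain D] [CommRing Ω] [Nontrivial Ω]
    (φ : D →+* Ω) {n : ℕ} {e : Mat n D} (he : e * e = e) (h : e.map φ = 0) : e = 0 := by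
  have h1 : φ (1 - e).det = 1 := by
    rw [RingHom.map_det, map_sub, map_one, RingHom.mapMatrix_apply, h, sub_zero, det_one]
  have h2 : (1 - e).det ≠ 0 := fun h0 => by
    rw [h0, map_zero] at h1
    exact zero_ne_one h1
  have h3 : (1 - e).det • e = 0 := by
    rw [← Matrix.one_mul e, ← smul_mul_assoc, Matrix.one_mul, ← adjugate_mul, Matrix.mul_assoc,
      Matrix.sub_mul, Matrix.one_mul, he, sub_self, Matrix.mul_zero]
  exact (smul_eq_zero.1 h3).resolve_left h2

variable {R : Type u} [CommRing R] {S T : Type u} [CommRing S] [Algebra R S] [CommRing T]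
  [Algebra R T] {M : Type} [AddCommGroup M] {n : ℕ}

/-- The component of degree `x` of a matrix over the group algebra. -/
noncomputable def cf (E : Mat n (GA S M)) (x : M) : Mat n S := of fun i j => (E i j).coeff x

theorem cst_eq (s : S) : cst R S M s = AddMonoidAlgebra.single 0 s := rfl

theorem chv_utp (m : M) : chv (utp M S) m = AddMonoidAlgebra.single m 1 := rfl

theorem cf_cst_mul (g : Mat n S) (E : Mat n (GA S M)) (x : M) :
    cf (g.map (cst R S M) * E) x = g * cf E x := by
  ext i j
  simp [cf, mul_apply, AddMonoidAlgebra.coeff_sum]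

theorem cf_mul_cst (g : Mat n S) (E : Mat n (GA S M)) (x : M) :
    cf (E * g.map (cst R S M)) x = cf E x * g := by
  ext i j
  simp [cf, mul_apply, AddMonoidAlgebra.coeff_sum]

theorem coeff_tl (j : S →ₐ[R] T) (θ : M ≃+ M) (f : GA S M) (x : M) :
    (tl ((cst R T M).comp j) (twp (utp M T) θ) f).coeff (θ x) = j (f.coeff x) := by
  classical
  induction f using AddMonoidAlgebra.induction_linear with
  | zero => simp
  | add a b ha hb => simp only [map_add, AddMonoidAlgebra.coeff_add, Finsupp.add_apply, ha, hb]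
  | single m s =>
    have : chv (twp (utp M T) (θ : M →+ M)) m = AddMonoidAlgebra.single (θ m) 1 := rfl
    rw [tl_single, this, AlgHom.comp_apply, cst_eq, AddMonoidAlgebra.single_mul_single, zero_add,
      mul_one, AddMonoidAlgebra.coeff_single, AddMonoidAlgebra.coeff_single, Finsupp.single_apply,
      Finsupp.single_apply]
    simp only [θ.injective.eq_iff]
    split_ifs <;> simp

theorem cf_tl (j : S →ₐ[R] T) (θ : M ≃+ M) (E : Mat n (GA S M)) (x : M) :
    cf (E.map (tl ((cst R T M).comp j) (twp (utp M T) θ))) (θ x) = (cf E x).map j := by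
  ext i l
  exact coeff_tl j θ _ x

theorem cf_tl' (j : S →ₐ[R] T) (E : Mat n (GA S M)) (x : M) :
    cf (E.map (tl ((cst R T M).comp j) (utp M T))) x = (cf E x).map j :=
  cf_tl j (AddEquiv.refl M) E x

theorem tl_in (f : GA S M) :
    tl ((cst R (GA S M) M).comp (cst R S M)) (tm (cst R (GA S M) M) (utp M S)) f =
      cst R (GA S M) M f := by
  induction f using AddMonoidAlgebra.induction_linear with
  | zero => simp
  | add a b ha hb => simp only [map_add, ha, hb]
  | single m s =>
    rw [tl_single, chv_tm, AlgHom.comp_apply, ← map_mul, chv_utp, cst_eq s,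
      AddMonoidAlgebra.single_mul_single, zero_add, mul_one]

theorem coeff_diag (f : GA S M) (x : M) :
    ((tl ((cst R (GA S M) M).comp (cst R S M))
      (tm (cst R (GA S M) M) (utp M S) * utp M (GA S M)) f).coeff x).coeff x = f.coeff x := by
  classical
  induction f using AddMonoidAlgebra.induction_linear with
  | zero => simp
  | add a b ha hb => simp only [map_add, AddMonoidAlgebra.coeff_add, Finsupp.add_apply, ha, hb]
  | single m s =>
    have : chv (tm (cst R (GA S M) M) (utp M S) * utp M (GA S M)) m =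
      AddMonoidAlgebra.single 0 (AddMonoidAlgebra.single m 1) * AddMonoidAlgebra.single m 1 := rfl
    rw [tl_single, this, AlgHom.comp_apply, cst_eq, cst_eq]
    simp only [AddMonoidAlgebra.single_mul_single, zero_add, mul_one,
      AddMonoidAlgebra.coeff_single, Finsupp.single_apply]
    split_ifs with h <;> simp [h]

/-- The components of a homomorphism from the torus are idempotent. -/
theorem cf_idem {E : GL (Fin n) (GA S M)}
    (h : ∀ τ τ' : TP M (GA (GA S M) M), gm (tl ((cst R (GA S M) M).comp (cst R S M)) (τ * τ')) E =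
      gm (tl ((cst R (GA S M) M).comp (cst R S M)) τ) E *
        gm (tl ((cst R (GA S M) M).comp (cst R S M)) τ') E) (x : M) :
    cf E.val x * cf E.val x = cf E.val x := by
  have h1 := congrArg (fun z : GL (Fin n) (GA (GA S M) M) => cf (cf z.val x) x)
    (h (tm (cst R (GA S M) M) (utp M S)) (utp M (GA S M)))
  have h2 : (gm (tl ((cst R (GA S M) M).comp (cst R S M)) (tm (cst R (GA S M) M) (utp M S))) E).val
      = E.val.map (cst R (GA S M) M) := Matrix.ext fun i j => tl_in (R := R) (E.val i j)
  have h3 : (gm (tl ((cst R (GA S M) M).comp (cst R S M)) (utp M (GA S M))) E).val =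
      E.val.map (tl ((cst R (GA S M) M).comp (cst R S M)) (utp M (GA S M))) := rfl
  simp only [Units.val_mul] at h1
  rw [h2, h3, cf_cst_mul, cf_tl', cf_mul_cst] at h1
  rw [← h1]
  ext i j
  exact coeff_diag _ x

theorem tl_cst (j : S →ₐ[R] T) (τ : TP M T) : (tl j τ).comp (cst R S M) = j := by
  ext s
  simp [chv]

theorem tl_congr (j : S →ₐ[R] T) {τ τ' : TP M T} {f : GA S M}
    (h : ∀ m, f.coeff m ≠ 0 → chv τ m = chv τ' m) : tl j τ f = tl j τ' f := by
  conv_lhs => rw [← AddMonoidAlgebra.sum_coeff_single f]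
  conv_rhs => rw [← AddMonoidAlgebra.sum_coeff_single f]
  simp only [Finsupp.sum, map_sum, tl_single]
  exact Finset.sum_congr rfl fun m hm => by rw [h m (Finsupp.mem_support_iff.1 hm)]

variable {A : Type u} [CommRing A] [HopfAlgebra R A]

theorem inG_one {t : Pt R A (GA S M)} (j : S →ₐ[R] T) : InG ⊥ t j 1 := fun a m hm => by
  classical
  rw [cj, map_one, mul_one, mul_inv_cancel, one_apply, IsScalarTower.algebraMap_apply R T (GA T M)]
  show (AddMonoidAlgebra.single (0 : M) _).coeff m = 0
  rw [AddMonoidAlgebra.coeff_single, Finsupp.single_apply, if_neg]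
  rintro rfl
  exact hm (zero_mem _)

end Mono

open Mono

variable {R : Type u} [CommRing R] {A : Type u} [CommRing A] [HopfAlgebra R A]

/-- MONO: the finite set of weights that is preserved by monodromy. -/
theorem mono [IsDomain R] [Algebra.FiniteType R A] {S : Type u} [CommRing S] [IsDomain S]
    [Algebra R S] [Module.Flat R S] {r : ℕ} {t : Pt R A (GA S (XL r))} (h : IsHom t)
    (hz : ZT t) :
    ∃ W : Finset (XL r), Submodule.span ℤ (W : Set (XL r)) = ⊤ ∧
      ∀ (Ω : Type u) [Field Ω] [Algebra R Ω], Function.Injective (algebraMap R Ω) →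
        ∀ (a b : S →ₐ[R] Ω) (g : Pt R A Ω) (θ : XL r ≃+ XL r),
          (∀ (C : Type u) [CommRing C] [Algebra R C] (f : Ω →ₐ[R] C) (τ : TP (XL r) C),
            tev t (f.comp b) τ = pm f g * tev t (f.comp a) (twp τ θ) * (pm f g)⁻¹) →
          ∀ x, θ x ∈ W ↔ x ∈ W := by
  classical
  let K := FractionRing R
  let N := Algebra.algebraMapSubmonoid S (nonZeroDivisors R)
  have hN : N ≤ nonZeroDivisors S := by
    rintro _ ⟨c, hc, rfl⟩
    refine mem_nonZeroDivisors_of_ne_zero fun h0 => ?_
    have := (Module.Flat.isSMulRegular_of_nonZeroDivisors (M := S) hc)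
      (show c • (1 : S) = c • (0 : S) by rw [smul_zero, ← Algebra.algebraMap_eq_smul_one, h0])
    exact one_ne_zero this
  let L := Localization N
  have : IsDomain L := IsLocalization.isDomain_localization hN
  let i : S →ₐ[R] L := IsScalarTower.toAlgHom R S L
  let jK : K →ₐ[R] L := IsLocalization.liftAlgHom (M := nonZeroDivisors R) (f := Algebra.ofId R L)
    fun y => by
      have := IsLocalization.map_units L (⟨_, y, y.2, rfl⟩ : N)
      rwa [← IsScalarTower.algebraMap_apply] at this
  obtain ⟨n, ⟨ρ⟩⟩ := exists_mrep (R := R) (A := A) K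
  let E : GL (Fin n) (GA L (XL r)) := ρ.ρ _ ((cst R L _).comp jK) (bc i t)
  have key : ∀ (T : Type u) [CommRing T] [Algebra R T] (j : L →ₐ[R] T) (τ : TP (XL r) T),
      ρ.ρ T (j.comp jK) (tev t (j.comp i) τ) = gm (tl j τ) E := fun T _ _ j τ => by
    rw [ρ.nat, ← AlgHom.comp_assoc, tl_cst, ← tev_bc]
    rfl
  have idem : ∀ x, cf E.val x * cf E.val x = cf E.val x := cf_idem (R := R) fun τ τ' => by
    rw [← key, ← key, ← key, h, map_mul]
  let W : Finset (XL r) := Finset.univ.biUnion fun p : Fin n × Fin n => (E.val p.1 p.2).coeff.support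
  have hW : ∀ x, x ∈ W ↔ cf E.val x ≠ 0 := fun x => by
    simp only [W, Finset.mem_biUnion, Finset.mem_univ, true_and, Finsupp.mem_support_iff, Ne,
      ← Matrix.ext_iff, not_forall, Prod.exists]
    rfl
  refine ⟨W, eq_top_iff.2 fun x _ => ?_, fun Ω _ _ hΩ a b g θ hg x => ?_⟩
  · let V := Submodule.span ℤ (W : Set (XL r))
    let T := GA L (XL r ⧸ V)
    let τ : TP (XL r) T := (utp (XL r ⧸ V) L).comp V.mkQ.toAddMonoidHom.toMultiplicative
    have hτ : ∀ m, chv τ m = AddMonoidAlgebra.single (V.mkQ m) 1 := fun _ => rfl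
    have h1 : gm (tl (cst R L _) τ) E = gm (tl (cst R L _) 1) E := by
      ext p q : 2
      refine tl_congr _ fun m hm => ?_
      have : V.mkQ m = 0 := (Submodule.Quotient.mk_eq_zero V).2 (Submodule.subset_span
        (Finset.mem_biUnion.2 ⟨(p, q), Finset.mem_univ _, Finsupp.mem_support_iff.2 hm⟩))
      rw [hτ, this]
      rfl
    rw [← key, ← key] at h1
    have h2 := ρ.inj _ _ h1
    have h3 : tev t ((cst R L (XL r ⧸ V)).comp i) 1 = 1 := by
      have := h T ((cst R L (XL r ⧸ V)).comp i) 1 1
      rw [show (1 * 1 : TP (XL r) T) = 1 from MonoidHom.ext fun _ => mul_one _] at this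
      exact mul_eq_left.1 this.symm
    have h4 := (hz T _ 1 (inG_one _)).unique (h2.trans h3).symm h3.symm
    have h5 : chv τ x = AddMonoidAlgebra.single 0 1 := by
      rw [h4]
      rfl
    rw [hτ] at h5
    exact (Submodule.Quotient.mk_eq_zero V).1
      (AddMonoidAlgebra.single_left_injective one_ne_zero h5)
  · have ext : ∀ a : S →ₐ[R] Ω, ∃ a' : L →ₐ[R] Ω, a'.comp i = a := fun a =>
      ⟨IsLocalization.liftAlgHom (M := N) (f := a) fun ⟨_, c, hc, rfl⟩ => by
        refine Ne.isUnit ?_
        show a (algebraMap R S c) ≠ 0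
        rw [a.commutes]
        exact fun h0 => nonZeroDivisors.ne_zero hc (hΩ (h0.trans (map_zero _).symm)),
        AlgHom.ext fun s => IsLocalization.lift_eq _ s⟩
    obtain ⟨a, rfl⟩ := ext a
    obtain ⟨b, rfl⟩ := ext b
    have hab : a.comp jK = b.comp jK :=
      IsLocalization.algHom_ext (nonZeroDivisors R) (Subsingleton.elim _ _)
    have h1 := congrArg (ρ.ρ _ (((cst R Ω (XL r)).comp b).comp jK))
      (hg _ (cst R Ω (XL r)) (utp _ _))
    rw [map_mul, map_mul, map_inv, ← AlgHom.comp_assoc, ← AlgHom.comp_assoc, key,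
      AlgHom.comp_assoc _ b, ← ρ.nat, ← hab, ← AlgHom.comp_assoc, key, ← map_inv] at h1
    generalize ρ.ρ Ω (a.comp jK) g = γ at h1
    have h2 : cf (E.val.map (tl ((cst R Ω (XL r)).comp b) (utp _ _))) (θ x) =
        cf (γ.val.map (cst R Ω (XL r)) * E.val.map (tl ((cst R Ω (XL r)).comp a)
          (twp (utp _ _) θ)) * γ⁻¹.val.map (cst R Ω (XL r))) (θ x) :=
      congrArg (fun z : GL (Fin n) (GA Ω (XL r)) => cf z.val (θ x)) h1
    rw [cf_mul_cst, cf_cst_mul, cf_tl, cf_tl'] at h2
    rw [hW, hW, not_iff_not]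
    constructor
    · intro h0
      refine idem_zero (a : L →+* Ω) (idem x) ?_
      rw [h0, Matrix.map_zero _ (map_zero b), eq_comm, Units.mul_left_eq_zero,
        Units.mul_right_eq_zero] at h2
      exact h2
    · intro h0
      refine idem_zero (b : L →+* Ω) (idem _) ?_
      rw [h0, Matrix.map_zero _ (map_zero a), Matrix.mul_zero, Matrix.zero_mul] at h2
      exact h2

end Pool.Agent.RED
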