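import Pool.Agent.P.MP_c1f06d_ag.g.TorD

/-! Averaging over a diagonalisable group; lifting and conjugacy of homomorphisms. -/

set_option autoImplicit false

open WithConv AddMonoidAlgebra Pool.Agent.RG
open scoped TensorProduct

universe u

namespace Pool.Agent.RED.Tor

variable {R A : Type u} [CommRing R] [CommRing A] [HopfAlgebra R A]
  {S S' T T' : Type u} [CommRing S] [Algebra R S] [CommRing S'] [Algebra R S']
  [CommRing T] [Algebra R T] [CommRing T'] [Algebra R T'] {M : Type} [AddCommGroup M]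

/-- The inclusion of constants. -/
noncomputable abbrev sz (R T : Type u) [CommRing R] [CommRing T] [Algebra R T] (M : Type)
    [AddCommGroup M] : T →ₐ[R] T[M] := singleZeroAlgHom

/-- The universal point of the diagonalisable group. -/
noncomputable abbrev up (T : Type u) [CommRing T] (M : Type) [AddCommGroup M] :
    Multiplicative M →* T[M] := AddMonoidAlgebra.of T M

/-- Image of a point of the diagonalisable group. -/
abbrev pc (h : T →ₐ[R] T') (θ : Multiplicative M →* T) : Multiplicative M →* T' :=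
  (h : T →* T').comp θ

theorem ga_ext {φ ψ : S[M] →ₐ[R] T} (h : ∀ x s, φ (single x s) = ψ (single x s)) : φ = ψ :=
  AlgHom.toLinearMap_injective (AddMonoidAlgebra.lhom_ext' fun x => LinearMap.ext fun s => h x s)

theorem comp_evT (h : T →ₐ[R] T') (f : S →ₐ[R] T) (θ : Multiplicative M →* T) :
    h.comp (evT f θ) = evT (h.comp f) (pc h θ) :=
  ga_ext fun x s => by rw [AlgHom.comp_apply, evT_single, evT_single, map_mul]; rfl

theorem evT_map (f : S' →ₐ[R] T) (h : S →ₐ[R] S') (θ : Multiplicative M →* T) :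
    (evT f θ).comp (mapAlgHom M h) = evT (f.comp h) θ :=
  ga_ext fun x s => by rw [AlgHom.comp_apply, mapAlgHom_single, evT_single, evT_single]; rfl

theorem evT_sz (f : S →ₐ[R] T) (θ : Multiplicative M →* T) : (evT f θ).comp (sz R S M) = f :=
  AlgHom.ext fun s => (evT_single f θ 0 s).trans (by simp)

theorem evT_up (f : S →ₐ[R] T) (θ : Multiplicative M →* T) : pc (evT f θ) (up S M) = θ :=
  MonoidHom.ext fun x => (evT_single f θ x.toAdd 1).trans (by simp)

theorem evT_id : evT (sz R S M) (up S M) = AlgHom.id R S[M] :=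
  ga_ext fun x s => by rw [evT_single]; simp [single_mul_single]

theorem map_sz (h : T →ₐ[R] T') : (mapAlgHom M h).comp (sz R T M) = (sz R T' M).comp h :=
  AlgHom.ext fun _ => mapAlgHom_single _ _ _

theorem map_up (h : T →ₐ[R] T') : pc (mapAlgHom M h) (up T M) = up T' M :=
  MonoidHom.ext fun x => (mapAlgHom_single h x.toAdd 1).trans (by simp)

theorem pc_mul (h : T →ₐ[R] T') (θ θ' : Multiplicative M →* T) :
    pc h (θ * θ') = pc h θ * pc h θ' := MonoidHom.ext fun _ => map_mul h _ _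

theorem pm_tv (h : T →ₐ[R] T') (t : Pt R A S[M]) (f : S →ₐ[R] T) (θ : Multiplicative M →* T) :
    pm h (tv t f θ) = tv t (h.comp f) (pc h θ) := by
  rw [tv, tv, pm_pm, comp_evT]

theorem tv_map (t : Pt R A S[M]) (h : S →ₐ[R] S') (f : S' →ₐ[R] T)
    (θ : Multiplicative M →* T) : tv (pm (mapAlgHom M h) t) f θ = tv t (f.comp h) θ := by
  rw [tv, tv, pm_pm, evT_map]

theorem tv_up (t : Pt R A S[M]) : tv t (sz R S M) (up S M) = t := by
  rw [tv, evT_id, pm_id]

theorem tv_mul_of {t : Pt R A S[M]} {f : S →ₐ[R] T}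
    (h : ∀ θ θ' : Multiplicative M →* T, tv t f (θ * θ') = tv t f θ * tv t f θ')
    (θ₀ θ θ' : Multiplicative M →* T) (e : ∀ x, θ₀ x = θ x * θ' x) :
    tv t f θ₀ = tv t f θ * tv t f θ' :=
  (congrArg (tv t f) (MonoidHom.ext e : θ₀ = θ * θ')).trans (h θ θ')

theorem isHom_of_tv {t : Pt R A S[M]} (h : ∀ θ θ' : Multiplicative M →* S[M × M],
    tv t (sz R S _) (θ * θ') = tv t (sz R S _) θ * tv t (sz R S _) θ') : IsHom t := by
  have key : ∀ φ : M →+ M × M, pm (dm R S φ) t =
      tv t (sz R S _) ((up S _).comp (AddMonoidHom.toMultiplicative φ)) := fun φ =>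
    congrArg (pm · t) (ga_ext fun x s => by
      rw [evT_single, mapDomainAlgHom_apply, mapDomain_single]
      simp [single_mul_single])
  exact (key _).trans ((tv_mul_of h _ _ _ fun x => by simp [single_mul_single]).trans
    (congrArg₂ (· * ·) (key (AddMonoidHom.inl M M)) (key (AddMonoidHom.inr M M))).symm)

/-- `g` is constant modulo `I`, and `b` is its coefficient of degree zero. -/
def Av (I : Ideal T) (g : Pt R A T[M]) (b : Pt R A T) : Prop :=
  ∀ a, (∀ x, x ≠ 0 → (g.ofConv a).coeff x ∈ I) ∧ (g.ofConv a).coeff 0 = b.ofConv a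

/-- Elements that are constant modulo `I`. -/
def avs (R : Type u) [CommRing R] [Algebra R T] (M : Type) [AddCommGroup M] (I : Ideal T) :
    Subalgebra R T[M] where
  carrier := {φ | ∀ x, x ≠ 0 → φ.coeff x ∈ I}
  mul_mem' := fun {φ ψ} ha hb x hx => by
    rw [coeff_mul_apply_left]
    refine Submodule.sum_mem _ fun y _ => ?_
    by_cases hy : y = 0
    · exact I.mul_mem_left _ (hb _ (by simpa [hy] using hx))
    · exact I.mul_mem_right _ (ha y hy)
  add_mem' := fun ha hb x hx => add_mem (ha x hx) (hb x hx)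
  algebraMap_mem' := fun r x hx => by
    show (single 0 (algebraMap R T r) : T[M]).coeff x ∈ I
    rw [coeff_single, Finsupp.single_eq_of_ne hx]
    exact zero_mem _

/-- The coefficient of degree zero is multiplicative on `avs`. -/
noncomputable def av0 {I : Ideal T} (hI : ∀ x ∈ I, ∀ y ∈ I, x * y = 0) : avs R M I →ₐ[R] T where
  toFun φ := φ.1.coeff 0
  map_one' := by
    show (single 0 1 : T[M]).coeff 0 = _
    simp
  map_mul' φ ψ := by
    show (φ.1 * ψ.1).coeff 0 = _
    rw [coeff_mul_apply_left, Finsupp.sum_eq_single 0]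
    · simp
    · intro a _ ha
      rw [add_zero]
      exact hI _ (φ.2 a ha) _ (ψ.2 _ (neg_ne_zero.2 ha))
    · simp
  map_zero' := rfl
  map_add' _ _ := rfl
  commutes' r := by
    show (single 0 (algebraMap R T r) : T[M]).coeff 0 = _
    simp

section Av

variable {I : Ideal T} {g g' : Pt R A T[M]} {b b' : Pt R A T}

theorem av_iff (hI : ∀ x ∈ I, ∀ y ∈ I, x * y = 0) :
    Av I g b ↔ ∃ q : Pt R A (avs R M I), pm (avs R M I).val q = g ∧ pm (av0 hI) q = b := by
  constructor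
  · intro h
    obtain ⟨q, rfl⟩ := exists_pm_sub (avs R M I) g fun a => (h a).1
    exact ⟨q, rfl, pt_ext fun a => (h a).2⟩
  · rintro ⟨q, rfl, rfl⟩ a
    exact ⟨(q.ofConv a).2, rfl⟩

theorem Av.mul (hI : ∀ x ∈ I, ∀ y ∈ I, x * y = 0) (h : Av I g b) (h' : Av I g' b') :
    Av I (g * g') (b * b') := by
  obtain ⟨q, rfl, rfl⟩ := (av_iff hI).1 h
  obtain ⟨q', rfl, rfl⟩ := (av_iff hI).1 h'
  exact (av_iff hI).2 ⟨q * q', map_mul _ _ _, map_mul _ _ _⟩

theorem Av.inv (h : Av I g b) : Av I g⁻¹ b⁻¹ := fun _ => h _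

theorem Av.const (b : Pt R A T) : Av I (pm (sz R T M) b) b := fun a =>
  ⟨fun x hx => by
    show (single 0 (b.ofConv a) : T[M]).coeff x ∈ I
    rw [coeff_single, Finsupp.single_eq_of_ne hx]
    exact zero_mem _, by
    show (single 0 (b.ofConv a) : T[M]).coeff 0 = _
    simp⟩

theorem Av.unique (h : Av I g b) (h' : Av I g b') : b = b' :=
  pt_ext fun a => (h a).2.symm.trans (h' a).2

theorem Av.map {I' : Ideal T'} (h : Av I g b) (f : T →ₐ[R] T') (hf : ∀ x ∈ I, f x ∈ I') :
    Av I' (pm (mapAlgHom M f) g) (pm f b) := fun a =>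
  ⟨fun x hx => by
    rw [pm_apply, coeff_mapAlgHom]
    exact hf _ ((h a).1 x hx), by
    rw [pm_apply, coeff_mapAlgHom, (h a).2]; rfl⟩

theorem coeff_shift (θ : Multiplicative M →* T) (φ : T[M]) (x : M) :
    (evT (sz R T M) (pc (sz R T M) θ * up T M) φ).coeff x =
      φ.coeff x * θ (Multiplicative.ofAdd x) := by
  classical
  induction φ using AddMonoidAlgebra.induction_linear with
  | zero => simp
  | add p q hp hq => rw [map_add, coeff_add, coeff_add, Finsupp.add_apply, Finsupp.add_apply, hp,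
      hq, add_mul]
  | single y s =>
    rw [evT_single]
    show (single 0 s * (single 0 (θ (Multiplicative.ofAdd y)) * single y 1) : T[M]).coeff x = _
    rw [single_mul_single, single_mul_single, zero_add, zero_add, mul_one, coeff_single,
      coeff_single, Finsupp.single_apply, Finsupp.single_apply]
    split_ifs with e
    · rw [e]
    · rw [zero_mul]

/-- The average is invariant under translation. -/
theorem Av.shift (h : Av I g b) (θ : Multiplicative M →* T) :
    Av I (tv g (sz R T M) (pc (sz R T M) θ * up T M)) b := fun a =>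
  ⟨fun x hx => by
    rw [tv, pm_apply, coeff_shift]
    exact I.mul_mem_right _ ((h a).1 x hx), by
    rw [tv, pm_apply, coeff_shift, (h a).2, ofAdd_zero, map_one, mul_one]⟩

theorem exists_av (f : T →ₐ[R] T') (hI : ∀ x, f x = 0 → ∀ y, f y = 0 → x * y = 0)
    (g : Pt R A T[M]) (c : Pt R A T') (h : pm (mapAlgHom M f) g = pm (sz R T' M) c) :
    ∃ b, Av (RingHom.ker (f : T →+* T')) g b ∧ pm f b = c := by
  have h1 : Av ⊥ (pm (mapAlgHom M f) g) c := h ▸ Av.const c
  obtain ⟨q, rfl⟩ := exists_pm_sub (avs R M (RingHom.ker (f : T →+* T'))) g fun a x hx => by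
    have := (h1 a).1 x hx
    rwa [pm_apply, coeff_mapAlgHom] at this
  have h2 := (av_iff (I := RingHom.ker (f : T →+* T')) hI).2 ⟨q, rfl, rfl⟩
  exact ⟨_, h2, (h2.map (I' := ⊥) f fun x hx => hx).unique h1⟩

end Av

theorem sq_zero_map (f : S →ₐ[R] S') (hJ : ∀ x, f x = 0 → ∀ y, f y = 0 → x * y = 0)
    (φ : S[M]) (hφ : mapAlgHom M f φ = 0) (ψ : S[M]) (hψ : mapAlgHom M f ψ = 0) : φ * ψ = 0 := by
  have key : ∀ (φ : S[M]), mapAlgHom M f φ = 0 → ∀ x, f (φ.coeff x) = 0 := fun φ h x => by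
    rw [← coeff_mapAlgHom, h]; rfl
  refine AddMonoidAlgebra.ext (Finsupp.ext fun x => ?_)
  rw [coeff_mul_apply_left]
  exact Finset.sum_eq_zero fun y _ => hJ _ (key φ hφ _) _ (key ψ hψ _)

theorem sq_zero_of {f : S →ₐ[R] S'} (hJ : RingHom.ker (f : S →+* S') ^ 2 = ⊥) (x : S)
    (hx : f x = 0) (y : S) (hy : f y = 0) : x * y = 0 := by
  have : x * y ∈ RingHom.ker (f : S →+* S') ^ 2 := pow_two (RingHom.ker (f : S →+* S')) ▸
    Ideal.mul_mem_mul hx hy
  rwa [hJ] at this

/-- Two homomorphisms that agree modulo a square-zero ideal are conjugate. -/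
theorem tconj (f : S →ₐ[R] S') (hJ : RingHom.ker (f : S →+* S') ^ 2 = ⊥)
    (t₁ t₂ : Pt R A S[M]) (h₁ : IsHom t₁) (h₂ : IsHom t₂)
    (h : pm (mapAlgHom M f) t₁ = pm (mapAlgHom M f) t₂) :
    ∃ g : Pt R A S, pm f g = 1 ∧ t₂ = pm (sz R S M) g * t₁ * (pm (sz R S M) g)⁻¹ := by
  obtain ⟨g, hg, hg1⟩ := exists_av f (sq_zero_of hJ) (t₂ * t₁⁻¹) 1
    (by rw [map_mul, map_inv, h, mul_inv_cancel, map_one])
  have hI := sq_zero_map (M := M) f (sq_zero_of hJ)
  refine ⟨g, hg1, ?_⟩
  have h1 := hg.map (I' := RingHom.ker (mapAlgHom M f : S[M] →+* S'[M])) (sz R S M)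
    fun x hx => (mapAlgHom_single f 0 x).trans (by rw [show f x = 0 from hx, single_zero])
  have e : ∀ t : Pt R A S[M], IsHom t →
      tv (pm (mapAlgHom M (sz R S M)) t) (sz R _ M) (pc (sz R _ M) (up S M) * up _ M) =
        pm (sz R _ M) t * pm (mapAlgHom M (sz R S M)) t := fun t ht => by
    rw [tv_map, ht.tv_mul, ← pm_tv, tv_up, ← tv_map, tv_up]
  have h2 := h1.shift (up S M)
  have h3 := ((Av.const t₂).mul hI h1).mul hI (Av.const t₁).inv
  rw [tv, map_mul, map_mul, map_inv, map_inv, ← tv, ← tv, e t₁ h₁, e t₂ h₂] at h2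
  rw [map_mul, map_inv] at h3
  have h4 := h2.unique (b' := t₂ * pm (sz R S M) g * t₁⁻¹) (by
    refine Eq.mpr (congrArg (Av _ · _) ?_) h3
    group)
  calc t₂ = t₂ * pm (sz R S M) g * t₁⁻¹ * t₁ * (pm (sz R S M) g)⁻¹ := by group
    _ = _ := by rw [← h4]

/-- The defect of `t` from being a homomorphism. -/
noncomputable def cc (t : Pt R A S[M]) (f : S →ₐ[R] T) (θ θ' : Multiplicative M →* T) :
    Pt R A T :=
  tv t f θ * tv t f θ' * (tv t f (θ * θ'))⁻¹

theorem pm_cc (h : T →ₐ[R] T') (t : Pt R A S[M]) (f : S →ₐ[R] T)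
    (θ θ' : Multiplicative M →* T) :
    pm h (cc t f θ θ') = cc t (h.comp f) (pc h θ) (pc h θ') := by
  rw [cc, cc, map_mul, map_mul, map_inv, pm_tv, pm_tv, pm_tv, pc_mul]

theorem cc_map (t : Pt R A S[M]) (f : S →ₐ[R] S') (h : IsHom (pm (mapAlgHom M f) t))
    (f' : S' →ₐ[R] T) (θ θ' : Multiplicative M →* T) : cc t (f'.comp f) θ θ' = 1 := by
  rw [cc, ← tv_map t f f', ← tv_map t f f', ← tv_map t f f', h.tv_mul, mul_inv_cancel]

theorem ker_map (f : S →ₐ[R] S') (φ : S[M]) :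
    mapAlgHom M f φ = 0 ↔ ∀ x, f (φ.coeff x) = 0 :=
  ⟨fun h x => by rw [← coeff_mapAlgHom, h]; rfl,
    fun h => AddMonoidAlgebra.ext (Finsupp.ext fun x => by rw [coeff_mapAlgHom, h]; rfl)⟩

theorem map_surj (f : S →ₐ[R] S') (hf : Function.Surjective f) :
    Function.Surjective (mapAlgHom M f) := fun φ => by
  induction φ using AddMonoidAlgebra.induction_linear with
  | zero => exact ⟨0, map_zero _⟩
  | add p q hp hq =>
    obtain ⟨p', rfl⟩ := hp
    obtain ⟨q', rfl⟩ := hq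
    exact ⟨p' + q', map_add _ _ _⟩
  | single y s =>
    obtain ⟨s', rfl⟩ := hf s
    exact ⟨single y s', mapAlgHom_single _ _ _⟩

/-- A lift of a homomorphism can be corrected to a homomorphism. -/
theorem tlift_aux (f : S →ₐ[R] S') (hJ : ∀ x, f x = 0 → ∀ y, f y = 0 → x * y = 0)
    (t : Pt R A S[M]) (h : IsHom (pm (mapAlgHom M f) t)) :
    ∃ b : Pt R A S[M], pm (mapAlgHom M f) b = 1 ∧ IsHom (b⁻¹ * t) := by
  obtain ⟨b, hb, hb1⟩ := exists_av (mapAlgHom M f) (sq_zero_map f hJ)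
    (cc t ((sz R _ M).comp (sz R S M)) (pc (sz R _ M) (up S M)) (up _ M)) 1 (by
      rw [pm_cc, map_one, ← AlgHom.comp_assoc, map_sz, AlgHom.comp_assoc, map_sz,
        ← AlgHom.comp_assoc, cc_map t f h])
  refine ⟨b, hb1, isHom_of_tv fun θ θ' => ?_⟩
  have hI := sq_zero_map (M := M × M) f hJ
  have hav : ∀ ϑ : Multiplicative M →* S[M × M],
      Av (RingHom.ker (mapAlgHom (M × M) f : S[M × M] →+* S'[M × M]))
        (cc t ((sz R _ M).comp (sz R S _)) (pc (sz R _ M) ϑ) (up _ M)) (tv b (sz R S _) ϑ) :=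
    fun ϑ => by
    have h1 := hb.map (I' := RingHom.ker (mapAlgHom (M × M) f : S[M × M] →+* S'[M × M]))
      (evT (sz R S _) ϑ) fun x hx => by
        have e : (mapAlgHom (M × M) f).comp (evT (sz R S _) ϑ) =
            (evT (sz R S' _) (pc (mapAlgHom (M × M) f) ϑ)).comp (mapAlgHom M f) := by
          rw [comp_evT, evT_map, map_sz]
        show ((mapAlgHom (M × M) f).comp (evT (sz R S _) ϑ)) x = 0
        rw [e, AlgHom.comp_apply, show mapAlgHom M f x = 0 from hx, map_zero]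
    rw [pm_cc, map_up, ← AlgHom.comp_assoc, map_sz, AlgHom.comp_assoc, evT_sz] at h1
    have e : pc (mapAlgHom M (evT (sz R S _) ϑ)) (pc (sz R S[M] M) (up S M)) =
        pc (sz R _ M) ϑ := by
      show pc ((mapAlgHom M (evT (sz R S _) ϑ)).comp (sz R S[M] M)) (up S M) = _
      rw [map_sz]
      exact congrArg (pc (sz R _ M)) (evT_up _ ϑ)
    rwa [e] at h1
  have h2 := (hav θ).shift θ'
  rw [tv, pm_cc, evT_up, ← AlgHom.comp_assoc, evT_sz] at h2
  have e : pc (evT (sz R S[M × M] M) (pc (sz R _ M) θ' * up _ M)) (pc (sz R _ M) θ) =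
      pc (sz R _ M) θ := by
    show pc ((evT (sz R S[M × M] M) (pc (sz R _ M) θ' * up _ M)).comp (sz R _ M)) θ = _
    rw [evT_sz]
  rw [e] at h2
  have h3 := (((Av.const (tv t (sz R S _) θ)).mul hI (hav θ')).mul hI
    (Av.const (tv t (sz R S _) θ)).inv).mul hI h2
  have h4 := (Av.const (cc t (sz R S _) θ θ')).mul hI (hav (θ * θ'))
  rw [pm_tv] at h3
  rw [pm_cc, pc_mul] at h4
  have h5 := h3.unique (b' := cc t (sz R S _) θ θ' * tv b (sz R S _) (θ * θ')) (by
    refine Eq.mpr (congrArg (Av _ · _) ?_) h4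
    simp only [cc, mul_assoc, inv_mul_cancel_left])
  have e' : ∀ ϑ : Multiplicative M →* S[M × M], tv (b⁻¹ * t) (sz R S _) ϑ =
      (tv b (sz R S _) ϑ)⁻¹ * tv t (sz R S _) ϑ := fun ϑ => by
    rw [tv, map_mul, map_inv]; rfl
  rw [e', e', e', ← inv_mul_eq_iff_eq_mul.2 h5, cc]
  group

/-- Homomorphisms lift along square-zero extensions. -/
theorem tlift [Algebra.FormallySmooth R A] (f : S →ₐ[R] S') (hf : Function.Surjective f)
    (hJ : RingHom.ker (f : S →+* S') ^ 2 = ⊥) (t' : Pt R A S'[M]) (h : IsHom t') :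
    ∃ t : Pt R A S[M], IsHom t ∧ pm (mapAlgHom M f) t = t' := by
  obtain ⟨t, rfl⟩ := pm_surj (mapAlgHom M f) (map_surj f hf) ⟨2, by
    rw [pow_two, Ideal.zero_eq_bot, eq_bot_iff, Ideal.mul_le]
    exact fun x hx y hy => sq_zero_map f (sq_zero_of hJ) x hx y hy⟩ t'
  obtain ⟨b, hb, hb'⟩ := tlift_aux f (sq_zero_of hJ) t h
  exact ⟨_, hb', by rw [map_mul, map_inv, hb, inv_one, one_mul]⟩

end Pool.Agent.RED.Tor
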