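import Pool.Agent.P.MP_c1f06d_ag.g.Grp
import Pool.Agent.P.MP_c1f06d_ag.g.TorB

open WithConv Pool.Agent.GR TensorProduct

universe u

namespace Pool.Agent.RED

variable {R A : Type u} [CommRing R] [CommRing A] [HopfAlgebra R A]
  {S₀ S S' : Type u} [CommRing S₀] [Algebra R S₀] [CommRing S] [Algebra R S] [CommRing S']
  [Algebra R S'] {M : Type} [AddCommGroup M]

/-- The point of the torus given by a map of the character group to `N`. -/
noncomputable def tu (S : Type u) [CommRing S] {N : Type} [AddCommGroup N] (φ : M →+ N) :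
    TP M (GA S N) :=
  MonoidHom.toHomUnits ((AddMonoidAlgebra.of S N).comp (AddMonoidHom.toMultiplicative φ))

theorem chv_tu {N : Type} [AddCommGroup N] (φ : M →+ N) (m : M) :
    chv (tu S φ) m = AddMonoidAlgebra.single (φ m) 1 := rfl

theorem ga_ext {f g : GA S₀ M →ₐ[R] S}
    (h : ∀ m a, f (AddMonoidAlgebra.single m a) = g (AddMonoidAlgebra.single m a)) : f = g :=
  AlgHom.toLinearMap_injective (AddMonoidAlgebra.lhom_ext' fun m => LinearMap.ext fun a => h m a)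

theorem tl_tu (j : S₀ →ₐ[R] S) {N : Type} [AddCommGroup N] (φ : M →+ N) :
    tl ((cst R S N).comp j) (tu S φ) = (Tor.dm R S φ).comp (AddMonoidAlgebra.mapAlgHom M j) := by
  refine ga_ext fun m a => ?_
  rw [tl_single, chv_tu, AlgHom.comp_apply, cst_apply, AddMonoidAlgebra.single_mul_single,
    AlgHom.comp_apply, AddMonoidAlgebra.mapAlgHom_single, AddMonoidAlgebra.mapDomainAlgHom_apply,
    AddMonoidAlgebra.mapDomain_single, zero_add, mul_one]

theorem tev_tu (t : Pt R A (GA S₀ M)) (j : S₀ →ₐ[R] S) {N : Type} [AddCommGroup N]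
    (φ : M →+ N) : tev t ((cst R S N).comp j) (tu S φ) = pm (Tor.dm R S φ) (bc j t) := by
  rw [tev, tl_tu, bc, pm_pm]

theorem tev_univ (t : Pt R A (GA S₀ M)) (j : S₀ →ₐ[R] S) :
    tev t ((cst R S M).comp j) (tu S (AddMonoidHom.id M)) = bc j t := by
  have e : Tor.dm R S (AddMonoidHom.id M) = AlgHom.id R _ := ga_ext fun m a => by
    rw [AddMonoidAlgebra.mapDomainAlgHom_apply, AddMonoidAlgebra.mapDomain_single]
    rfl
  rw [tev_tu, e, pm_id]

theorem bc_id (t : Pt R A (GA S₀ M)) : bc (AlgHom.id R S₀) t = t := by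
  have e : AddMonoidAlgebra.mapAlgHom M (AlgHom.id R S₀) = AlgHom.id R _ := ga_ext fun m a => by
    rw [AddMonoidAlgebra.mapAlgHom_single]
    rfl
  rw [bc, e, pm_id]

theorem isHom_iff (t : Pt R A (GA S₀ M)) : IsHom t ↔ Tor.IsHom t := by
  constructor
  · intro h
    have h1 := h (GA S₀ (M × M)) ((cst R S₀ (M × M)).comp (AlgHom.id R S₀))
      (tu S₀ (AddMonoidHom.inl M M)) (tu S₀ (AddMonoidHom.inr M M))
    have e : tu S₀ (AddMonoidHom.inl M M) * tu S₀ (AddMonoidHom.inr M M) =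
        tu S₀ ((AddMonoidHom.id M).prod (AddMonoidHom.id M)) := by
      refine MonoidHom.ext fun m => Units.ext ?_
      change AddMonoidAlgebra.single ((m.toAdd, 0) : M × M) (1 : S₀) *
        AddMonoidAlgebra.single ((0, m.toAdd) : M × M) 1 =
          AddMonoidAlgebra.single ((m.toAdd, m.toAdd) : M × M) 1
      simp [AddMonoidAlgebra.single_mul_single]
    rw [e, tev_tu, tev_tu, tev_tu, bc_id] at h1
    exact h1
  · intro h S _ _ j τ τ'
    exact h.tv_mul j ((Units.coeHom S).comp τ) ((Units.coeHom S).comp τ')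

theorem IsHom.conj {t : Pt R A (GA S₀ M)} (h : IsHom t) (g : Pt R A S₀) :
    IsHom (pm (cst R S₀ M) g * t * (pm (cst R S₀ M) g)⁻¹) := fun S _ _ j τ τ' => by
  have := h S j τ τ'
  simp only [tev, map_mul, map_inv, pm_pm, tl_comp_cst] at this ⊢
  rw [this]
  group

/-- `g` conjugates the torus `t₁` to the torus `t₂`. -/
def Trp (t₁ t₂ : Pt R A (GA S₀ M)) (j : S₀ →ₐ[R] S) (g : Pt R A S) : Prop :=
  pm (cst R S M) g * bc j t₁ * (pm (cst R S M) g)⁻¹ = bc j t₂

theorem map_cst (f : S →ₐ[R] S') :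
    (AddMonoidAlgebra.mapAlgHom M f).comp (cst R S M) = (cst R S' M).comp f := by
  ext s
  simp [AddMonoidAlgebra.mapAlgHom_single]

theorem pm_trp (t₁ : Pt R A (GA S₀ M)) (j : S₀ →ₐ[R] S) (g : Pt R A S) (f : S →ₐ[R] S') :
    pm (AddMonoidAlgebra.mapAlgHom M f) (pm (cst R S M) g * bc j t₁ * (pm (cst R S M) g)⁻¹) =
      pm (cst R S' M) (pm f g) * bc (f.comp j) t₁ * (pm (cst R S' M) (pm f g))⁻¹ := by
  rw [map_mul, map_mul, map_inv, pm_pm (cst R S M), map_cst, ← bc_bc, pm_pm f]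
  rfl

theorem Trp.map {t₁ t₂ : Pt R A (GA S₀ M)} {j : S₀ →ₐ[R] S} {g : Pt R A S} (h : Trp t₁ t₂ j g)
    (f : S →ₐ[R] S') : Trp t₁ t₂ (f.comp j) (pm f g) := by
  unfold Trp at h ⊢
  rw [← pm_trp, h, ← bc_bc]
  rfl

theorem Trp.tev {t₁ t₂ : Pt R A (GA S₀ M)} {j : S₀ →ₐ[R] S} {g : Pt R A S} (h : Trp t₁ t₂ j g)
    (τ : TP M S) : g * tev t₁ j τ * g⁻¹ = tev t₂ j τ := by
  have := congrArg (pm (tl (AlgHom.id R S) τ)) h
  rw [map_mul, map_mul, map_inv, pm_pm, tl_comp_cst, pm_id] at this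
  have e := fun t : Pt R A (GA S₀ M) => tev_bc j (AlgHom.id R S) t τ
  rw [AlgHom.id_comp] at e
  rw [← e, ← e]
  exact this

theorem trp_of_tev {t₁ t₂ : Pt R A (GA S₀ M)} {j : S₀ →ₐ[R] S} {g : Pt R A S}
    (h : ∀ τ : TP M (GA S M), pm (cst R S M) g * tev t₁ ((cst R S M).comp j) τ *
      (pm (cst R S M) g)⁻¹ = tev t₂ ((cst R S M).comp j) τ) : Trp t₁ t₂ j g := by
  have := h (tu S (AddMonoidHom.id M))
  rwa [tev_univ, tev_univ] at this

theorem trp_bc (t₁ t₂ : Pt R A (GA S₀ M)) (j : S₀ →ₐ[R] S) (j' : S →ₐ[R] S') (g : Pt R A S') :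
    Trp (bc j t₁) (bc j t₂) j' g ↔ Trp t₁ t₂ (j'.comp j) g := by
  rw [Trp, Trp, bc_bc, bc_bc]

variable [Algebra.Smooth R A]

/-- Transporters lift along square-zero extensions. -/
theorem Trp.lift {t₁ t₂ : Pt R A (GA S₀ M)} (h₁ : IsHom t₁) (h₂ : IsHom t₂) (j : S₀ →ₐ[R] S)
    (f : S →ₐ[R] S') (hf : Function.Surjective f) (hJ : RingHom.ker (f : S →+* S') ^ 2 = ⊥)
    {g' : Pt R A S'} (h : Trp t₁ t₂ (f.comp j) g') : ∃ g, Trp t₁ t₂ j g ∧ pm f g = g' := by
  obtain ⟨g₁, rfl⟩ := Tor.pm_surj f hf ⟨2, hJ⟩ g'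
  obtain ⟨g₀, h0, h1⟩ := Tor.tconj f hJ _ _ ((isHom_iff _).1 ((h₁.base j).conj g₁))
    ((isHom_iff _).1 (h₂.base j)) (by
      refine (pm_trp t₁ j g₁ f).trans (h.trans ?_)
      rw [← bc_bc]
      rfl)
  refine ⟨g₀ * g₁, ?_, by rw [map_mul, h0, one_mul]⟩
  rw [Trp, h1, map_mul, mul_inv_rev]
  simp only [mul_assoc]
  rfl

/-- The transporter of two tori is a smooth affine scheme. -/
theorem exists_trp {t₁ t₂ : Pt R A (GA S₀ M)} (h₁ : IsHom t₁) (h₂ : IsHom t₂) :
    ∃ (N : Type u) (_ : CommRing N) (_ : Algebra R N) (_ : Algebra S₀ N)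
      (_ : IsScalarTower R S₀ N) (_ : Algebra.Smooth S₀ N) (n : Pt R A N),
      Trp t₁ t₂ (IsScalarTower.toAlgHom R S₀ N) n ∧
      ∀ (S : Type u) [CommRing S] [Algebra R S] (j : S₀ →ₐ[R] S) (g : Pt R A S), Trp t₁ t₂ j g →
        ∃! φ : N →ₐ[R] S, φ.comp (IsScalarTower.toAlgHom R S₀ N) = j ∧ pm φ n = g := by
  classical
  obtain ⟨s, hs⟩ : (⊤ : Subalgebra R A).FG := Algebra.FiniteType.out
  let U := S₀ ⊗[R] A
  let ι : S₀ →ₐ[R] U := Algebra.TensorProduct.includeLeft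
  let gu : Pt R A U := toConv Algebra.TensorProduct.includeRight
  let D : A → GA U M := fun a =>
    (pm (cst R U M) gu * bc ι t₁ * (pm (cst R U M) gu)⁻¹).ofConv a - (bc ι t₂).ofConv a
  let F : Finset U := s.biUnion fun a => (D a).coeff.support.image (D a).coeff
  let I : Ideal U := Ideal.span (F : Set U)
  have key : ∀ (S : Type u) [CommRing S] [Algebra R S] (φ : U →ₐ[R] S),
      Trp t₁ t₂ (φ.comp ι) (pm φ gu) ↔ ∀ x ∈ I, φ x = 0 := by
    intro S _ _ φ
    have e : Trp t₁ t₂ (φ.comp ι) (pm φ gu) ↔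
        ∀ a ∈ s, AddMonoidAlgebra.mapAlgHom M φ (D a) = 0 := by
      rw [Trp, ← pm_trp, ← bc_bc]
      refine ⟨fun h a _ => ?_, fun h => WithConv.ext (AlgHom.ext_of_adjoin_eq_top hs fun a ha => ?_)⟩
      · rw [map_sub, sub_eq_zero]
        exact congrArg (fun g : Pt R A (GA S M) => g.ofConv a) h
      · have := h a ha
        rw [map_sub, sub_eq_zero] at this
        exact this
    rw [e]
    constructor
    · intro h
      refine (Ideal.span_le (I := RingHom.ker φ)).2 fun x hx => ?_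
      obtain ⟨a, ha, hx⟩ := Finset.mem_biUnion.1 hx
      obtain ⟨m, -, rfl⟩ := Finset.mem_image.1 hx
      have := congrArg (fun y : GA S M => y.coeff m) (h a ha)
      simpa using this
    · intro h a ha
      ext m
      by_cases hm : m ∈ (D a).coeff.support
      · have := h _ (Ideal.subset_span (Finset.mem_biUnion.2 ⟨a, ha, Finset.mem_image_of_mem _ hm⟩))
        simpa using this
      · simp [Finsupp.notMem_support_iff.1 hm]
  let N := U ⧸ I
  let q : U →ₐ[R] N := Ideal.Quotient.mkₐ R I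
  have hq : IsScalarTower.toAlgHom R S₀ N = q.comp ι := rfl
  have huniv : ∀ (S : Type u) [CommRing S] [Algebra R S] (j : S₀ →ₐ[R] S) (g : Pt R A S),
      Trp t₁ t₂ j g → ∃! φ : N →ₐ[R] S,
        φ.comp (IsScalarTower.toAlgHom R S₀ N) = j ∧ pm φ (pm q gu) = g := by
    intro S _ _ j g hg
    let ψ : U →ₐ[R] S := Algebra.TensorProduct.lift j g.ofConv fun _ _ => Commute.all _ _
    have e1 : ψ.comp ι = j := Algebra.TensorProduct.lift_comp_includeLeft _ _ _
    have e2 : pm ψ gu = g := WithConv.ext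
      (Algebra.TensorProduct.lift_comp_includeRight j g.ofConv fun _ _ => Commute.all _ _)
    refine ⟨Ideal.Quotient.liftₐ I ψ ((key S ψ).1 (by rwa [e1, e2])), ⟨e1, e2⟩, fun φ hφ => ?_⟩
    refine Ideal.Quotient.algHom_ext R (Algebra.TensorProduct.ext (hφ.1.trans e1.symm) ?_)
    exact congrArg ofConv (hφ.2.trans e2.symm)
  have hn : Trp t₁ t₂ (IsScalarTower.toAlgHom R S₀ N) (pm q gu) :=
    (key N q).2 fun x hx => Ideal.Quotient.eq_zero_iff_mem.2 hx
  have : Algebra.FinitePresentation S₀ N := Algebra.FinitePresentation.quotient ⟨F, rfl⟩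
  have : Algebra.FormallySmooth S₀ N := by
    refine Algebra.FormallySmooth.of_comp_surjective fun T _ _ J hJ φ' => ?_
    let _ : Algebra R T := ((algebraMap S₀ T).comp (algebraMap R S₀)).toAlgebra
    have : IsScalarTower R S₀ T := IsScalarTower.of_algebraMap_eq fun _ => rfl
    let f : T →ₐ[R] T ⧸ J := Ideal.Quotient.mkₐ R J
    have e : (φ'.restrictScalars R).comp (IsScalarTower.toAlgHom R S₀ N) =
        f.comp (IsScalarTower.toAlgHom R S₀ T) := AlgHom.ext fun x => φ'.commutes x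
    have h' := hn.map (φ'.restrictScalars R)
    obtain ⟨g, hg, hg'⟩ := Trp.lift h₁ h₂ _ f Ideal.Quotient.mk_surjective
      (by rwa [show RingHom.ker (f : T →+* T ⧸ J) = J from Ideal.mk_ker]) (e ▸ h')
    obtain ⟨φ, ⟨h1, h2⟩, -⟩ := huniv T _ g hg
    refine ⟨⟨φ.toRingHom, fun x => AlgHom.congr_fun h1 x⟩, AlgHom.ext fun x => ?_⟩
    refine AlgHom.congr_fun ((huniv _ _ _ h').unique (y₁ := f.comp φ) ⟨?_, ?_⟩ ⟨rfl, rfl⟩) x
    · rw [e, AlgHom.comp_assoc, h1]
    · rw [← pm_pm, h2, hg']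
  exact ⟨N, inferInstance, inferInstance, inferInstance, inferInstance, ⟨inferInstance,
    inferInstance⟩, pm q gu, hn, huniv⟩

/-- Finitely many transporters at a point spread out over a smooth algebra. -/
theorem spread_trp [Algebra.Smooth R S₀] {ι : Type} [Finite ι] (t₁ t₂ : ι → Pt R A (GA S₀ M))
    (h₁ : ∀ i, IsHom (t₁ i)) (h₂ : ∀ i, IsHom (t₂ i)) (j : S₀ →ₐ[R] S) (g : ι → Pt R A S)
    (hg : ∀ i, Trp (t₁ i) (t₂ i) j (g i)) :
    ∃ (C : Type u) (_ : CommRing C) (_ : Algebra R C) (_ : Algebra.Smooth R C) (f : S₀ →ₐ[R] C)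
      (j' : C →ₐ[R] S) (n : ι → Pt R A C), j'.comp f = j ∧
        ∀ i, Trp (t₁ i) (t₂ i) f (n i) ∧ pm j' (n i) = g i := by
  classical
  have := Fintype.ofFinite ι
  suffices ∀ s : Finset ι, ∃ (C : Type u) (_ : CommRing C) (_ : Algebra R C)
      (_ : Algebra.Smooth R C) (f : S₀ →ₐ[R] C) (j' : C →ₐ[R] S) (n : ι → Pt R A C),
      j'.comp f = j ∧ ∀ i ∈ s, Trp (t₁ i) (t₂ i) f (n i) ∧ pm j' (n i) = g i by
    obtain ⟨C, _, _, _, f, j', n, h, h'⟩ := this Finset.univ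
    exact ⟨C, inferInstance, inferInstance, inferInstance, f, j', n, h,
      fun i => h' i (Finset.mem_univ i)⟩
  intro s
  induction s using Finset.induction_on with
  | empty =>
    exact ⟨S₀, inferInstance, inferInstance, inferInstance, AlgHom.id R S₀, j, fun _ => 1, rfl,
      fun i hi => absurd hi (Finset.notMem_empty i)⟩
  | insert i s hi ih =>
    obtain ⟨C, _, _, _, f, j', n, h, h'⟩ := ih
    obtain ⟨N, _, _, _, _, _, n', hn, hu⟩ := exists_trp ((h₁ i).base f) ((h₂ i).base f)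
    obtain ⟨φ, ⟨e1, e2⟩, -⟩ := hu S j' (g i) ((trp_bc _ _ _ _ _).2 (h ▸ hg i))
    have := Algebra.Smooth.comp R C N
    let f' := IsScalarTower.toAlgHom R C N
    refine ⟨N, inferInstance, inferInstance, inferInstance, f'.comp f, φ,
      Function.update (fun k => pm f' (n k)) i n', by rw [← AlgHom.comp_assoc, e1, h],
      fun k hk => ?_⟩
    rcases Finset.mem_insert.1 hk with rfl | hk
    · rw [Function.update_self]
      exact ⟨(trp_bc _ _ _ _ _).1 hn, e2⟩
    · rw [Function.update_of_ne (ne_of_mem_of_not_mem hk hi)]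
      exact ⟨(h' k hk).1.map f', by rw [pm_pm, e1, (h' k hk).2]⟩

end Pool.Agent.RED
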