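import Pool.Agent.P.MP_c1f06d_ag.g.BStmt
import Pool.Agent.P.MP_c1f06d_ag.g.AutA
import Pool.Agent.P.MP_c1f06d_ag.g.Trp

open WithConv Pool.Agent.GR Pool.Agent.RED.Au

universe u

namespace Pool.Agent.RED

variable {R A : Type u} [CommRing R] [CommRing A] [HopfAlgebra R A]
  {S₀ S S' : Type u} [CommRing S₀] [Algebra R S₀] [CommRing S] [Algebra R S] [CommRing S']
  [Algebra R S'] {M : Type} [AddCommGroup M] {t : Pt R A (GA S₀ M)} {α : M} {cor : M →+ ℤ}
  {x y : Pt R A (Polynomial S₀)} {s : M →+ M}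

theorem coc_mul (l : M →+ ℤ) (u v : Sˣ) : coc l (u * v) = coc l u * coc l v :=
  MonoidHom.ext fun m => mul_zpow u v (l m.toAdd)

theorem coc_one (l : M →+ ℤ) : coc l (1 : Sˣ) = 1 :=
  MonoidHom.ext fun m => one_zpow (l m.toAdd)

theorem tc_refl (hs : ∀ m, s m = m - cor m • α) (τ : TP M S) :
    coc cor (τ (Multiplicative.ofAdd α)) * tc τ s = τ := by
  refine MonoidHom.ext fun m => ?_
  change τ (Multiplicative.ofAdd α) ^ cor m.toAdd * τ (Multiplicative.ofAdd (s m.toAdd)) = τ m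
  rw [← map_zpow, ← map_mul, hs, ← ofAdd_zsmul, ← ofAdd_add, add_sub_cancel, ofAdd_toAdd]

theorem refl_refl (hs : ∀ m, s m = m - cor m • α) (h2 : cor α = 2) (m : M) : s (s m) = m := by
  rw [hs, hs, map_sub, map_zsmul, h2]
  module

theorem chv_neg (τ : TP M S) (m : M) :
    chv τ (-m) = ((τ (Multiplicative.ofAdd m))⁻¹ : Sˣ) := by
  rw [chv, ofAdd_neg, map_inv]

theorem IsRoot.hx (hx : IsRoot t α x) (h2 : cor α = 2) (j : S₀ →ₐ[R] S) (v : Sˣ) (a : S) :
    tev t j (coc cor v) * cv x j a = cv x j (v * v * a) * tev t j (coc cor v) := by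
  rw [← mul_inv_eq_iff_eq_mul, hx.eqv, chv_coc, h2, zpow_two, Units.val_mul]

theorem IsRoot.hy (hy : IsRoot t (-α) y) (h2 : cor α = 2) (j : S₀ →ₐ[R] S) (v : Sˣ) (a : S) :
    tev t j (coc cor v) * cv y j a =
      cv y j ((v⁻¹ : Sˣ) * (v⁻¹ : Sˣ) * a) * tev t j (coc cor v) := by
  rw [← mul_inv_eq_iff_eq_mul, hy.eqv, chv_coc, map_neg, h2, zpow_neg, zpow_two, mul_inv,
    Units.val_mul]

theorem IsRoot.cv_neg (hx : IsRoot t α x) (j : S₀ →ₐ[R] S) (a : S) :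
    cv x j (-a) = (cv x j a)⁻¹ :=
  eq_inv_of_mul_eq_one_left (by rw [← hx.add, neg_add_cancel, hx.cv_zero])

/-- The representative of the reflection. -/
noncomputable def nref (x y : Pt R A (Polynomial S₀)) (d : S₀) (j : S₀ →ₐ[R] S) : Pt R A S :=
  cv x j (-j d) * cv y j 1 * cv x j (-j d)

theorem pm_nref (d : S₀) (j : S₀ →ₐ[R] S) (f : S →ₐ[R] S') :
    pm f (nref x y d j) = nref x y d (f.comp j) := by
  simp only [nref, map_mul, pm_cv, map_neg, map_one, AlgHom.comp_apply]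

theorem SL2.nv {c d : S₀} (h : SL2 t cor c x y) (hcd : c * d = 1) (hx : IsRoot t α x)
    (h2 : cor α = 2) (j : S₀ →ₐ[R] S) (v : Sˣ) :
    cv y j (v⁻¹ : Sˣ) =
      cv x j (j d * v) * nref x y d j * (tev t j (coc cor v))⁻¹ * cv x j (j d * v) := by
  have hj : j c * j d = 1 := by rw [← map_mul, hcd, map_one]
  have h1 := h S j (j d * (v - 1)) 1 v (by linear_combination (1 - (v : S)) * hj)
  have h3 := hx.hx h2 j v (j d * (v⁻¹ : Sˣ))
  have e1 : (v : S) * v * (j d * (v⁻¹ : Sˣ)) = j d * v := by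
    linear_combination (v : S) * j d * v.mul_inv
  have e2 : cv x j (j d * (v - 1)) = cv x j (j d * v) * cv x j (-j d) := by
    rw [← hx.add]; congr 1; ring
  have e3 : cv x j (-j d) * cv x j (j d * (v⁻¹ : Sˣ)) =
      (cv x j (j d * (v - 1) * (v⁻¹ : Sˣ)))⁻¹ := by
    rw [← hx.add, ← hx.cv_neg]; congr 1; linear_combination j d * v.mul_inv
  rw [e1] at h3
  rw [one_mul, e2] at h1
  calc _ = cv x j (j d * v) * cv x j (-j d) * cv y j 1 *
        (cv x j (j d * (v - 1) * (v⁻¹ : Sˣ)))⁻¹ * (tev t j (coc cor v))⁻¹ := by rw [h1]; group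
    _ = _ := by rw [← e3, nref, eq_mul_inv_of_mul_eq h3.symm]; group

theorem SL2.trp {c d : S₀} (h : SL2 t cor c x y) (hcd : c * d = 1) (ht : IsHom t)
    (hx : IsRoot t α x) (hy : IsRoot t (-α) y) (h2 : cor α = 2) (hs : ∀ m, s m = m - cor m • α)
    (j : S₀ →ₐ[R] S) : Trp t (tw s t) j (nref x y d j)⁻¹ := by
  refine trp_of_tev fun τ => ?_
  rw [map_inv, pm_nref, tev_tw]
  generalize (cst R S M).comp j = j'
  have h1 := h.nv hcd hx h2 j' (τ (Multiplicative.ofAdd α))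
  have h3 : tev t j' τ * nref x y d j' * (tev t j' τ)⁻¹ =
      nref x y d j' * (tev t j' (coc cor (τ (Multiplicative.ofAdd α))))⁻¹ := by
    have e1 := hx.eqv _ j' τ (-j' d)
    have e2 := hy.eqv _ j' τ 1
    rw [chv_neg, mul_one, h1] at e2
    rw [mul_neg, mul_comm (chv τ α), hx.cv_neg j' (j' d * _)] at e1
    calc _ = (tev t j' τ * cv x j' (-j' d) * (tev t j' τ)⁻¹) *
          (tev t j' τ * cv y j' 1 * (tev t j' τ)⁻¹) *
          (tev t j' τ * cv x j' (-j' d) * (tev t j' τ)⁻¹) := by rw [nref]; group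
      _ = _ := by rw [e1, e2, chv]; group
  have h4 := ht _ j' (coc cor (τ (Multiplicative.ofAdd α))) (tc τ s)
  rw [tc_refl hs] at h4
  calc _ = (nref x y d j')⁻¹ * (tev t j' τ * nref x y d j' * (tev t j' τ)⁻¹) * tev t j' τ := by group
    _ = _ := by rw [h3, h4]; group

/-- The decomposition of the opposite root group along the Bruhat cell. -/
def Dec (t : Pt R A (GA S₀ M)) (cor : M →+ ℤ) (x y : Pt R A (Polynomial S₀)) (n : Pt R A S₀)
    (c₁ c₂ : S₀) (j : S₀ →ₐ[R] S) (u : Sˣ) : Prop :=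
  cv y j (u⁻¹ : Sˣ) = cv x j (j c₁ * u) * tev t j (coc cor u) * pm j n * cv x j (j c₂ * u)

section dec

variable {n : Pt R A S₀} {c₁ c₂ : S₀}

theorem dec_map (j : S₀ →ₐ[R] S) (u : Sˣ) (f : S →ₐ[R] S') :
    Dec t cor x y n c₁ c₂ (f.comp j) (Units.map (f : S →* S') u) ↔ pm f (cv y j (u⁻¹ : Sˣ)) =
      pm f (cv x j (j c₁ * u) * tev t j (coc cor u) * pm j n * cv x j (j c₂ * u)) := by
  simp only [Dec, map_mul, pm_cv, pm_tev, tm_coc, pm_pm]
  rfl

theorem dec_all [Module.Free ℤ M] (hα : α ≠ 0) (ht : IsHom t) (hx : IsRoot t α x)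
    (hy : IsRoot t (-α) y) (hs : ∀ m, s m = m - cor m • α)
    (hn : Trp t (tw s t) (AlgHom.id R S₀) n)
    (h : cv y (AlgHom.id R S₀) 1 = cv x (AlgHom.id R S₀) c₁ * n * cv x (AlgHom.id R S₀) c₂)
    (j : S₀ →ₐ[R] S) (u : Sˣ) : Dec t cor x y n c₁ c₂ j u := by
  have key : ∀ (S : Type u) [CommRing S] [Algebra R S] (j : S₀ →ₐ[R] S) (τ : TP M S),
      Dec t cor x y n c₁ c₂ j (τ (Multiplicative.ofAdd α)) := fun S _ _ j τ => by
    have h1 := congrArg (pm j) h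
    rw [map_mul, map_mul, pm_cv, pm_cv, pm_cv, AlgHom.comp_id, map_one] at h1
    have h2 := (hn.map j).tev τ
    rw [AlgHom.comp_id, tev_tw] at h2
    have h4 := ht _ j (coc cor (τ (Multiplicative.ofAdd α))) (tc τ s)
    rw [tc_refl hs] at h4
    have e2 := hy.eqv _ j τ 1
    rw [chv_neg, mul_one, h1] at e2
    rw [Dec, ← e2, mul_comm (j c₁), mul_comm (j c₂)]
    calc _ = (tev t j τ * cv x j (j c₁) * (tev t j τ)⁻¹) *
          (tev t j τ * (pm j n * tev t j τ * (pm j n)⁻¹)⁻¹) * pm j n *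
          (tev t j τ * cv x j (j c₂) * (tev t j τ)⁻¹) := by group
      _ = _ := by rw [hx.eqv, hx.eqv, h2, h4, mul_inv_cancel_right]; rfl
  let φ : ℤ →+ M := zmultiplesHom M α
  have hφ : Function.Injective φ := smul_left_injective ℤ hα
  have h1 : Dec t cor x y n c₁ c₂ (cst R S₀ ℤ) (uu S₀ (1 : ℤ)) := by
    refine pm_inj (Tor.dm R S₀ φ) (AddMonoidAlgebra.mapDomain_injective hφ) ((dec_map _ _ _).1 ?_)
    have e1 : (Tor.dm R S₀ φ).comp (cst R S₀ ℤ) = cst R S₀ M := by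
      refine AlgHom.ext fun z => ?_
      rw [AlgHom.comp_apply, cst_apply, cst_apply, AddMonoidAlgebra.mapDomainAlgHom_apply,
        AddMonoidAlgebra.mapDomain_single, map_zero]
    have e2 : Units.map (Tor.dm R S₀ φ : GA S₀ ℤ →* GA S₀ M) (uu S₀ (1 : ℤ)) =
        uT S₀ M (Multiplicative.ofAdd α) := Units.ext
      (AddMonoidAlgebra.mapDomain_single.trans (congrArg (AddMonoidAlgebra.single · 1) (one_smul ℤ α)))
    rw [e1, e2]
    exact key _ _ _
  have h2 := (dec_map _ _ (tl j (coc (AddMonoidHom.id ℤ) u))).2 (congrArg _ h1)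
  have e3 : Units.map (tl j (coc (AddMonoidHom.id ℤ) u) : GA S₀ ℤ →* S) (uu S₀ (1 : ℤ)) = u :=
    Units.ext ((tl_single j _ (1 : ℤ) 1).trans (by simp [chv_coc]))
  rwa [tl_comp_cst, e3] at h2

theorem dec_unit [Module.Free ℤ M] (hα : α ≠ 0) (ht : IsHom t) (hx : IsRoot t α x)
    (hy : IsRoot t (-α) y) (h2 : cor α = 2)
    (h : ∀ (S : Type u) [CommRing S] [Algebra R S] (j : S₀ →ₐ[R] S) (u : Sˣ),
      Dec t cor x y n c₁ c₂ j u) : IsUnit c₁ := by
  by_contra hn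
  obtain ⟨m, hm, hc⟩ := exists_max_ideal_of_mem_nonunits hn
  obtain ⟨l, hl, -⟩ := exists_generic ∅ (by simp) hα
  let j : S₀ →ₐ[R] GA (S₀ ⧸ m) ℤ := (cst R _ ℤ).comp (Ideal.Quotient.mkₐ R m)
  have hj : j c₁ = 0 := by
    rw [AlgHom.comp_apply, show Ideal.Quotient.mkₐ R m c₁ = 0 from
      Ideal.Quotient.eq_zero_iff_mem.2 hc, map_zero]
  let u := uu (S₀ ⧸ m) (1 : ℤ)
  have h1 := h _ j 1
  have h3 := h _ j u
  rw [Dec, hj, zero_mul, hx.cv_zero, one_mul] at h1 h3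
  rw [coc_one, ht.tev_one, one_mul, ← mul_inv_eq_iff_eq_mul] at h1
  rw [← h1, ← mul_assoc, hy.hy h2, mul_assoc, ← hx.cv_neg, ← hx.add] at h3
  have hm' : ray (-α) ≤ hs (-l) := ray_le_hs (by simpa using hl)
  have h4 := (cell_uniq ht (((hy.bij _ j).mapsTo (Set.mem_univ _)).mono hm') InG.one InU.one
    (((hy.bij _ j).mapsTo (Set.mem_univ _)).mono hm') (ht.inG_tev _)
    (((hx.bij _ j).mapsTo (Set.mem_univ _)).mono (ray_le_hs hl))
    (by rw [mul_one, mul_one]; exact h3)).1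
  have h5 := (hy.bij _ j).injOn (Set.mem_univ _) (Set.mem_univ _) h4
  rw [inv_one, Units.val_one, mul_one, ← Units.val_mul, Units.val_inj, left_eq_mul] at h5
  have := Ideal.Quotient.nontrivial_iff.2 hm.ne_top
  have h6 := congrArg (fun z : (GA (S₀ ⧸ m) ℤ)ˣ => (z : GA (S₀ ⧸ m) ℤ).coeff 0) h5
  change (Finsupp.single (-1 : ℤ) (1 : S₀ ⧸ m)) 0 = (Finsupp.single (0 : ℤ) (1 : S₀ ⧸ m)) 0 at h6
  simp at h6

theorem sl2_of_dec (ht : IsHom t) (hx : IsRoot t α x) (hy : IsRoot t (-α) y) (h2 : cor α = 2)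
    {c : S₀} (hc : c * c₁ = 1)
    (h : ∀ (S : Type u) [CommRing S] [Algebra R S] (j : S₀ →ₐ[R] S) (u : Sˣ),
      Dec t cor x y n c₁ c₂ j u) : SL2 t cor c x y := by
  let P : ∀ (S : Type u) [CommRing S] [Algebra R S], (S₀ →ₐ[R] S) → S → S → Sˣ → Prop :=
    fun S _ _ j a b v => cv x j a * cv y j b =
      cv y j (b * (v⁻¹ : Sˣ)) * tev t j (coc cor v) * cv x j (j (c * c₂) * (a * (v⁻¹ : Sˣ)))
  have pmap : ∀ {S S' : Type u} [CommRing S] [Algebra R S] [CommRing S'] [Algebra R S']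
      (j : S₀ →ₐ[R] S) (a b : S) (v : Sˣ) (f : S →ₐ[R] S'),
      P S' (f.comp j) (f a) (f b) (Units.map (f : S →* S') v) ↔ pm f (cv x j a * cv y j b) =
        pm f (cv y j (b * (v⁻¹ : Sˣ)) * tev t j (coc cor v) *
          cv x j (j (c * c₂) * (a * (v⁻¹ : Sˣ)))) := fun j a b v f => by
    simp only [P, map_mul, pm_cv, pm_tev, tm_coc]
    rfl
  have h1 : ∀ (S : Type u) [CommRing S] [Algebra R S] (j : S₀ →ₐ[R] S) (a b : S) (v : Sˣ),
      (v : S) = 1 + j c * a * b → IsUnit b → P S j a b v := by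
    rintro S _ _ j a _ v hv ⟨b, rfl⟩
    have hj : j c * j c₁ = 1 := by rw [← map_mul, hc, map_one]
    have e1 := h S j b⁻¹
    have e2 := h S j (b⁻¹ * v⁻¹)
    have e3 : tev t j (coc cor b⁻¹) = tev t j (coc cor v) * tev t j (coc cor (b⁻¹ * v⁻¹)) := by
      rw [← ht, ← coc_mul, mul_comm b⁻¹, mul_inv_cancel_left]
    rw [Dec, inv_inv, e3] at e1
    have e4 := hx.hx h2 j v (-(j c₁ * (b⁻¹ * v⁻¹ : Sˣ)))
    have e5 := hy.hy h2 j v ((b⁻¹ * v⁻¹)⁻¹ : Sˣ)
    have r1 : cv x j a * cv x j (j c₁ * (b⁻¹ : Sˣ)) *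
        cv x j (v * v * -(j c₁ * (b⁻¹ * v⁻¹ : Sˣ))) = 1 := by
      rw [← hx.add, ← hx.add, ← hx.cv_zero (j := j), Units.val_mul]
      congr 1
      linear_combination (-(j c₁ * (b⁻¹ : Sˣ))) * hv - (v : S) * j c₁ * (b⁻¹ : Sˣ) * v.mul_inv -
        a * j c * j c₁ * b.mul_inv - a * hj
    have r2 : ((v⁻¹ : Sˣ) * (v⁻¹ : Sˣ) * ((b⁻¹ * v⁻¹)⁻¹ : Sˣ) : S) = b * (v⁻¹ : Sˣ) := by
      rw [mul_inv, inv_inv, inv_inv, Units.val_mul]
      linear_combination ((v⁻¹ : Sˣ) : S) * b * v.mul_inv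
    have r3 : cv x j (j (c * c₂) * (a * (v⁻¹ : Sˣ))) =
        (cv x j (j c₂ * (b⁻¹ * v⁻¹ : Sˣ)))⁻¹ * cv x j (j c₂ * (b⁻¹ : Sˣ)) := by
      rw [← hx.cv_neg, ← hx.add, Units.val_mul, map_mul]
      congr 1
      linear_combination (-(j c₂ * (b⁻¹ : Sˣ) * (v⁻¹ : Sˣ))) * hv +
        j c₂ * (b⁻¹ : Sˣ) * v.mul_inv - j c * j c₂ * a * (v⁻¹ : Sˣ) * b.mul_inv
    rw [r2] at e5
    rw [hx.cv_neg] at e4
    change _ = _
    rw [← e5, r3, e2, e1, eq_inv_of_mul_eq_one_left r1 |> fun h => eq_mul_inv_of_mul_eq h,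
      eq_mul_inv_of_mul_eq e4.symm]
    group
  have h3 : ∀ (S : Type u) [CommRing S] [Algebra R S] (j : S₀ →ₐ[R] S) (a b : S) (v : Sˣ),
      (v : S) = 1 + j c * a * b → P S j a b v := by
    intro S _ _ j a b v hv
    let q : Polynomial S := 1 + Polynomial.C (j c * a) * Polynomial.X
    let W := Localization.Away q
    let i : S →ₐ[R] W := IsScalarTower.toAlgHom R S W
    let b' : W := algebraMap (Polynomial S) W Polynomial.X
    let v' : Wˣ := (IsLocalization.Away.algebraMap_isUnit (S := W) q).unit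
    let W' := Localization.Away b'
    let f : W →ₐ[R] W' := IsScalarTower.toAlgHom R W W'
    have hb : b' ∈ nonZeroDivisors W :=
      IsLocalization.nonZeroDivisors_le_comap (Submonoid.powers q) W
        Polynomial.monic_X.mem_nonZeroDivisors
    have hf : Function.Injective f := IsLocalization.injective W' (Submonoid.powers_le.2 hb)
    have hv' : (v' : W) = 1 + (i.comp j) c * i a * b' := by
      rw [IsUnit.unit_spec, map_add, map_one, map_mul, AlgHom.comp_apply, ← map_mul i]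
      rfl
    have p1 : P W (i.comp j) (i a) b' v' := pm_inj f hf ((pmap _ _ _ _ f).1 (h1 _ _ _ _ _
      (by simpa using congrArg f hv') (IsLocalization.Away.algebraMap_isUnit b')))
    let e0 : Polynomial S →ₐ[R] S := Polynomial.aevalTower (AlgHom.id R S) b
    have hq : e0 q = v := by simp [e0, q, hv]
    let e : W →ₐ[R] S := IsLocalization.liftAlgHom (M := Submonoid.powers q) (f := e0) (by
      rintro ⟨_, k, rfl⟩
      simp only [map_pow, hq]
      exact v.isUnit.pow k)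
    have he : ∀ p, e (algebraMap (Polynomial S) W p) = e0 p := fun p => IsLocalization.lift_eq _ p
    have hi : ∀ z, e (i z) = z := fun z => (he (Polynomial.C z)).trans (by simp [e0])
    have p2 := (pmap _ _ _ _ e).2 (congrArg _ p1)
    rwa [show e.comp (i.comp j) = j from AlgHom.ext fun z => hi _, hi,
      show e b' = b from (he _).trans (by simp [e0]),
      show Units.map (e : W →* S) v' = v from Units.ext ((he q).trans hq)] at p2
  intro S _ _ j a b v hv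
  have h4 : cv x j (a * (v⁻¹ : Sˣ)) * cv y j 0 = _ := h3 S j (a * (v⁻¹ : Sˣ)) 0 1 (by simp)
  rw [zero_mul, hy.cv_zero, mul_one, one_mul, coc_one, ht.tev_one, one_mul, inv_one, Units.val_one,
    mul_one] at h4
  rw [h4]
  exact h3 S j a b v hv

end dec

/-- A point fixed by the kernel of `β` has its weights on the line of `β`. -/
theorem InU.to_ray (ht : IsHom t) {l : M →+ ℤ} {β : M} (hl : 0 < l β) {j : S₀ →ₐ[R] S}
    {g : Pt R A S} (hg : InU (hs l) t j g) {N : Type} [AddCommGroup N] (φ : M →+ N)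
    (hφ : ∀ m, φ m = 0 → ∃ k : ℤ, m = k • β)
    (h : tev t ((cst R S N).comp j) (tu S φ) * pm (cst R S N) g *
      (tev t ((cst R S N).comp j) (tu S φ))⁻¹ = pm (cst R S N) g) : InU (ray β) t j g := by
  classical
  refine ⟨fun a m hm => ?_, hg.2⟩
  by_cases h1 : m ∈ hs l
  · have h2 := coeff_cj_conj (j := (cst R S N).comp j) ht (tu S φ) (pm (cst R S N) g) a m
    rw [h, coeff_cj_map, chv_tu, cst_apply, AddMonoidAlgebra.single_mul_single, add_zero,
      one_mul] at h2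
    have h3 : φ m ≠ 0 := fun h0 => by
      obtain ⟨k, rfl⟩ := hφ m h0
      have hk : 0 ≤ k := by
        rcases h1 with h1 | h1
        · exact absurd (h1 ▸ zero_mem _) hm
        · rw [map_zsmul, smul_eq_mul] at h1
          exact ((mul_pos_iff_of_pos_right hl).1 h1).le
      obtain ⟨p, rfl⟩ := Int.eq_ofNat_of_zero_le hk
      exact hm ⟨p, 1, one_pos, by simp⟩
    have h4 := congrArg (fun z : GA S N => z.coeff 0) h2
    simpa [Finsupp.single_apply, h3] using h4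
  · exact hg.1 a m h1

theorem Trp.flip {β : M} (hss : ∀ m, s (s m) = m) {g w : Pt R A S₀}
    (hg : Trp t (tw s t) (AlgHom.id R S₀) g) :
    InU (ray (s β)) t (AlgHom.id R S₀) w ↔ InU (ray β) t (AlgHom.id R S₀) (g * w * g⁻¹) := by
  let e : M ≃+ M := { s with invFun := s, left_inv := hss, right_inv := hss }
  have h1 : cg g t = tw (e : M →+ M) t := by
    rw [Trp, bc_id, bc_id] at hg
    exact hg
  have h2 : ∀ m, e m ∈ ray (s β) ↔ m ∈ ray β := mem_ray e β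
  rw [← inU_tw e h2, ← h1]
  refine ⟨fun h => inU_cg g h, fun h => ?_⟩
  have := inU_cg' g h
  simpa [mul_assoc] using this

theorem SL2.inCell {c d : S₀} (h : SL2 t cor c x y) (hcd : c * d = 1) (ht : IsHom t)
    (hx : IsRoot t α x) (hy : IsRoot t (-α) y) (h2 : cor α = 2) (hs : ∀ m, s m = m - cor m • α)
    [Module.Free ℤ M] {l : M →+ ℤ} (hl : 0 < l α) (μ : S₀ˣ) :
    InCell l t (AlgHom.id R S₀) ((nref x y d (AlgHom.id R S₀))⁻¹ * cv y (AlgHom.id R S₀) μ) := by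
  have hsα : s (-α) = α := by rw [map_neg, hs, h2]; module
  have e2 := h.nv hcd hx h2 (AlgHom.id R S₀) μ⁻¹
  rw [inv_inv] at e2
  have hX := (hx.bij S₀ (AlgHom.id R S₀)).mapsTo
    (Set.mem_univ (AlgHom.id R S₀ d * (μ⁻¹ : S₀ˣ)))
  have h3 := h.trp hcd ht hx hy h2 hs (AlgHom.id R S₀)
  refine ⟨_, _, _, ((h3.flip (refl_refl hs h2) (β := -α)).1 (hsα.symm ▸ hX)).mono
    (ray_le_hs (by simpa using hl)), (ht.inG_tev (coc cor μ⁻¹)).inv,
    InU.mono hX (ray_le_hs hl), ?_⟩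
  rw [e2]
  group

theorem grp_fix {G : Type*} [Group G] {T g y v z u : G} (e1 : g * T * g⁻¹ = T)
    (e2 : T * y * T⁻¹ = y) (e3 : g * y = v * z * u) (e4 : T * z = z * T) :
    T * v * T⁻¹ * z * (T * u * T⁻¹) = v * z * u :=
  calc _ = T * v * (T⁻¹ * (z * T)) * u * T⁻¹ := by group
    _ = T * (v * z * u) * T⁻¹ := by rw [← e4]; group
    _ = T * g * T⁻¹ * (T * y * T⁻¹) := by rw [← e3]; group
    _ = _ := by rw [e2, ← mul_inv_eq_iff_eq_mul.1 e1, mul_inv_cancel_right, e3]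

theorem cell_ray (ht : IsHom t) (hy : IsRoot t (-α) y) (hs' : ∀ m, s m = m - cor m • α)
    {g : Pt R A S₀} (hg : Trp t (tw s t) (AlgHom.id R S₀) g) {l : M →+ ℤ} (hl : 0 < l α)
    {v z u : Pt R A S₀} (hv : InU (hs (-l)) t (AlgHom.id R S₀) v) (hz : InG ⊥ t (AlgHom.id R S₀) z)
    (hu : InU (hs l) t (AlgHom.id R S₀) u) (e : g * cv y (AlgHom.id R S₀) 1 = v * z * u) :
    InU (ray (-α)) t (AlgHom.id R S₀) v ∧ InU (ray α) t (AlgHom.id R S₀) u := by
  obtain ⟨N, _, φ, hφα, hφ⟩ : ∃ (N : Type) (_ : AddCommGroup N) (φ : M →+ N), φ α = 0 ∧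
      ∀ m, φ m = 0 → ∃ k : ℤ, m = k • α :=
    ⟨_, inferInstance, QuotientAddGroup.mk' (AddSubgroup.zmultiples α),
      (QuotientAddGroup.eq_zero_iff α).2 (AddSubgroup.mem_zmultiples α), fun m hm => by
        obtain ⟨k, hk⟩ := (QuotientAddGroup.eq_zero_iff m).1 hm
        exact ⟨k, hk.symm⟩⟩
  let j₁ := (cst R S₀ N).comp (AlgHom.id R S₀)
  have e1 := (hg.map (cst R S₀ N)).tev (tu S₀ φ)
  rw [tev_tw, show tc (tu S₀ φ) s = tu S₀ φ from tp_ext fun m => by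
    rw [chv_tc, chv_tu, chv_tu, hs', map_sub, map_zsmul, hφα, smul_zero, sub_zero]] at e1
  have e2 := hy.eqv _ j₁ (tu S₀ φ) 1
  rw [chv_tu, map_neg, hφα, neg_zero, mul_one] at e2
  have e3 := congrArg (pm (cst R S₀ N)) e
  rw [map_mul, map_mul, map_mul, pm_cv, map_one] at e3
  have e4 := (hz.map (cst R S₀ N)).commute ht (tu S₀ φ)
  have hτ := ht.inG_tev (j := j₁) (tu S₀ φ)
  obtain ⟨h4, -, h5⟩ := cell_uniq ht ((hv.map (cst R S₀ N)).conj ht (pos_hs _) hτ) (hz.map _)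
    ((hu.map (cst R S₀ N)).conj ht (pos_hs _) hτ) (hv.map _) (hz.map _) (hu.map _)
    (grp_fix e1 e2 e3 e4)
  refine ⟨hv.to_ray ht (by simpa using hl) φ (fun m hm => ?_) h4, hu.to_ray ht hl φ hφ h5⟩
  obtain ⟨k, rfl⟩ := hφ m hm
  exact ⟨-k, by simp⟩

/-- The rank one relation from the reflection and one point in the cell. -/
theorem sl2_of_cell [Module.Free ℤ M] (ht : IsHom t) (hα : α ≠ 0) (hx : IsRoot t α x)
    (hy : IsRoot t (-α) y) (h2 : cor α = 2) (hs : ∀ m, s m = m - cor m • α) {g : Pt R A S₀}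
    (hg : Trp t (tw s t) (AlgHom.id R S₀) g) {l : M →+ ℤ} (hl : 0 < l α)
    (h : InCell l t (AlgHom.id R S₀) (g * cv y (AlgHom.id R S₀) 1)) :
    ∃ c₀ : S₀ˣ, SL2 t cor c₀ x y := by
  have hss := refl_refl hs h2
  have hsα : s (-α) = α := by rw [map_neg, hs, h2]; module
  obtain ⟨v, z, u, hv, hz, hu, e⟩ := h
  obtain ⟨h6, h5⟩ := cell_ray ht hy hs hg hl hv hz hu e
  obtain ⟨c₂, -, rfl⟩ := (hx.bij S₀ _).surjOn h5
  have h7 := (hg.flip hss (β := -α) (w := g⁻¹ * v * g)).2 (by simpa [mul_assoc] using h6)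
  rw [hsα] at h7
  obtain ⟨c₁, -, hc₁⟩ := (hx.bij S₀ _).surjOn h7
  have hn : Trp t (tw s t) (AlgHom.id R S₀) (g⁻¹ * z) := by
    refine trp_of_tev fun τ => ?_
    have e1 := (hg.map (cst R S₀ M)).tev (tc τ s)
    rw [tev_tw, show tc (tc τ s) s = τ from tp_ext fun m => by rw [chv_tc, chv_tc, hss]] at e1
    have e2 := (hz.map (cst R S₀ M)).commute ht τ
    rw [tev_tw, map_mul, map_inv, mul_assoc (pm _ g)⁻¹, ← e2, ← e1]
    group
  have hd := fun (S : Type u) [CommRing S] [Algebra R S] (j : S₀ →ₐ[R] S) (u : Sˣ) =>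
    dec_all (c₁ := c₁) (c₂ := c₂) hα ht hx hy hs hn (by
      rw [hc₁, eq_inv_mul_of_mul_eq e]; group) j u
  obtain ⟨w, rfl⟩ := dec_unit hα ht hx hy h2 hd
  exact ⟨w⁻¹, sl2_of_dec ht hx hy h2 w.inv_mul hd⟩

/-- The rank one relation spreads from a point over the closed point, given the reflection. -/
theorem SL2.spreadN [Module.Free ℤ M] [Algebra.Smooth R A] [IsLocalRing S₀] {ι : Type} [Finite ι]
    {deg : ι → M} (ht : IsHom t) (hw : Wts t deg) (hα : α ≠ 0) (hx : IsRoot t α x)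
    (hy : IsRoot t (-α) y) (h2 : cor α = 2) (hs : ∀ m, s m = m - cor m • α) {g : Pt R A S₀}
    (hg : Trp t (tw s t) (AlgHom.id R S₀) g) {K : Type u} [CommRing K] [Nontrivial K] [Algebra R K]
    (j : S₀ →ₐ[R] K) (hj : ∀ z ∈ IsLocalRing.maximalIdeal S₀, j z = 0)
    {x' y' : Pt R A (Polynomial K)} (hx' : IsRoot (bc j t) α x') (hy' : IsRoot (bc j t) (-α) y')
    {c d : K} (hcd : c * d = 1) (h : SL2 (bc j t) cor c x' y')
    (hgj : pm j g = (nref x' y' d (AlgHom.id R K))⁻¹) : ∃ c₀ : S₀ˣ, SL2 t cor c₀ x y := by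
  classical
  have := Fintype.ofFinite ι
  obtain ⟨l, hl, hl'⟩ := exists_generic (Finset.univ.image deg) (by simpa using hw.1) hα
  refine sl2_of_cell ht hα hx hy h2 hs hg hl (inCell_of_points ht hw (fun k => hl' _ (by simp)) _
    fun m hm => ⟨K, inferInstance, inferInstance, inferInstance, j,
      fun z hz => hj z (IsLocalRing.eq_maximalIdeal hm ▸ hz), ?_⟩)
  obtain ⟨μ, hμ⟩ := hy'.uniq (neg_ne_zero.2 hα) (hy.base j)
  have e1 := hμ K (AlgHom.id R K) 1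
  rw [cv_bc, mul_one, AlgHom.id_comp] at e1
  have h3 := (inCell_bc _).1 (h.inCell hcd (ht.base j) hx' hy' h2 hs hl μ)
  rw [map_mul, pm_cv, map_one, hgj, AlgHom.comp_id, e1]
  exact h3

end Pool.Agent.RED
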