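import Pool.Agent.P.MP_c1f06d_ag.g.TorA
import Pool.Agent.P.MP_c1f06d_ag.g.TorB

/-! A homomorphism from a diagonalisable group over a field spreads out over a smooth algebra. -/

set_option autoImplicit false

open WithConv AddMonoidAlgebra Pool.Agent.RG
open scoped TensorProduct

universe u

namespace Pool.Agent.RED.Tor

theorem smooth_of_local {R C P L : Type u} [CommRing R] [CommRing C] [Algebra R C] [CommRing P]
    [IsLocalRing P] [Algebra R P] [Algebra.FormallySmooth R P] [CommRing L] [Nontrivial L]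
    [Algebra R L] [Algebra C L] [IsScalarTower R C L] (N : Submonoid C) [IsLocalization N L]
    (F : P →ₐ[R] L) (hF : Function.Surjective F)
    (H : ∀ (S : Type u) [CommRing S] [IsLocalRing S] [Algebra R S] (f : S →ₐ[R] L),
      Function.Surjective f → RingHom.ker (f : S →+* L) ^ 2 = ⊥ →
        ∃ g' : C →ₐ[R] S, f.comp g' = IsScalarTower.toAlgHom R C L) :
    Algebra.FormallySmooth R L := by
  have hs : Function.Surjective F.kerSquareLift := fun x => by
    obtain ⟨y, rfl⟩ := hF x
    exact ⟨Ideal.Quotient.mk _ y, rfl⟩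
  have := F.kerSquareLift.toRingHom.domain_nontrivial
  have := IsLocalRing.of_surjective' (Ideal.Quotient.mk (RingHom.ker F.toRingHom ^ 2))
    Ideal.Quotient.mk_surjective
  obtain ⟨g', hg'⟩ := H _ F.kerSquareLift hs
    ((congrArg (· ^ 2) F.ker_kerSquareLift).trans (Ideal.cotangentIdeal_square _))
  have hl := IsLocalHom.of_surjective F.kerSquareLift.toRingHom hs
  have hu' : ∀ y : N, IsUnit (g' y) := fun y => hl.map_nonunit _ (by
    have h1 : F.kerSquareLift (g' y) = algebraMap C L y := DFunLike.congr_fun hg' (y : C)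
    exact h1 ▸ IsLocalization.map_units L y)
  exact (Algebra.FormallySmooth.iff_split_surjection F hF).2
    ⟨IsLocalization.liftAlgHom hu', AlgHom.coe_ringHom_injective
      (IsLocalization.ringHom_ext N (RingHom.ext fun c =>
        (congrArg F.kerSquareLift (IsLocalization.lift_eq hu' c)).trans
          (DFunLike.congr_fun hg' c)))⟩

/-- Smoothness near a point can be tested on square-zero extensions of local rings. -/
theorem spread_of_local {R C K : Type u} [CommRing R] [CommRing C] [Algebra R C]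
    [Algebra.FinitePresentation R C] [Field K] [Algebra R K] (j : C →ₐ[R] K)
    (H : ∀ (S L : Type u) [CommRing S] [IsLocalRing S] [Algebra R S] [CommRing L] [Algebra R L]
      (f : S →ₐ[R] L) (g : C →ₐ[R] L) (j' : L →ₐ[R] K), Function.Surjective f →
      RingHom.ker (f : S →+* L) ^ 2 = ⊥ → j'.comp g = j → ∃ g' : C →ₐ[R] S, f.comp g' = g) :
    ∃ (C' : Type u) (_ : CommRing C') (_ : Algebra R C') (_ : Algebra.Smooth R C')
      (i : C →ₐ[R] C') (j' : C' →ₐ[R] K), j'.comp i = j := by
  let q : Ideal C := RingHom.ker (j : C →+* K)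
  have hq : q.IsPrime := RingHom.ker_isPrime _
  have hu : ∀ c : C, c ∉ q → IsUnit (j c) := fun c hc => isUnit_iff_ne_zero.2 hc
  obtain ⟨n, F₀, hF₀⟩ := Algebra.FiniteType.iff_quotient_mvPolynomial''.1
    (inferInstance : Algebra.FiniteType R C)
  let p : Ideal (MvPolynomial (Fin n) R) := q.comap F₀
  have : Algebra.FormallySmooth (MvPolynomial (Fin n) R) (Localization.AtPrime p) :=
    .of_isLocalization p.primeCompl
  have : Algebra.FormallySmooth R (Localization.AtPrime p) :=
    .comp R (MvPolynomial (Fin n) R) _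
  let k : Localization.AtPrime q →ₐ[R] K :=
    IsLocalization.liftAlgHom (M := q.primeCompl) (f := j) fun y => hu y y.2
  have hk : k.comp (IsScalarTower.toAlgHom R C _) = j :=
    AlgHom.ext fun c => IsLocalization.lift_eq (M := q.primeCompl) (fun y => hu y y.2) c
  have hF : Function.Surjective (Localization.localAlgHom p q F₀ rfl) :=
    RingHom.surjective_localRingHom_of_surjective F₀.toRingHom hF₀ q
  have : Algebra.IsSmoothAt R q := smooth_of_local q.primeCompl _ hF fun S _ _ _ f hf hJ =>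
    H S _ f _ k hf hJ hk
  obtain ⟨f, hf, hsm⟩ := Algebra.IsSmoothAt.exists_notMem_smooth R q
  exact ⟨Localization.Away f, inferInstance, inferInstance, hsm, IsScalarTower.toAlgHom R C _,
    IsLocalization.Away.liftAlgHom (f := j) f (hu f hf),
    AlgHom.ext fun c => IsLocalization.Away.lift_eq f (hu f hf) c⟩

variable {R A : Type u} [CommRing R] [CommRing A] [HopfAlgebra R A]
  {S S' : Type u} [CommRing S] [Algebra R S] [CommRing S'] [Algebra R S']
  {M : Type} [AddCommGroup M]

theorem coeff_box (φ ψ : S[M]) (x y : M) :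
    (dm R S (AddMonoidHom.inl M M) φ * dm R S (AddMonoidHom.inr M M) ψ).coeff (x, y) =
      φ.coeff x * ψ.coeff y := by
  classical
  induction φ using AddMonoidAlgebra.induction_linear with
  | zero => simp
  | add p q hp hq => simp only [map_add, add_mul, coeff_add, Finsupp.add_apply, hp, hq]
  | single a s =>
    induction ψ using AddMonoidAlgebra.induction_linear with
    | zero => simp
    | add p q hp hq => simp only [map_add, mul_add, coeff_add, Finsupp.add_apply, hp, hq]
    | single b r =>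
      rw [mapDomainAlgHom_apply, mapDomainAlgHom_apply, mapDomain_single, mapDomain_single,
        single_mul_single]
      simp only [coeff_single, Finsupp.single_apply]
      by_cases h1 : a = x <;> by_cases h2 : b = y <;> simp [h1, h2]

theorem IsHom.coeff_eq {t : Pt R A S[M]} (h : IsHom t) {ι : Type*} {a : A} {s : Finset ι}
    {b c : ι → A} (e : Coalgebra.comul (R := R) a = ∑ i ∈ s, b i ⊗ₜ[R] c i) (x : M) :
    (t.ofConv a).coeff x = ∑ i ∈ s, (t.ofConv (b i)).coeff x * (t.ofConv (c i)).coeff x := by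
  have h1 := congrArg (fun g : Pt R A S[M × M] => (g.ofConv a).coeff (x, x)) h
  simp only [mul_apply_of _ _ e, pm_apply, coeff_sum, Finsupp.finsetSum_apply, coeff_box] at h1
  rw [← h1]
  exact (Finsupp.mapDomain_apply (f := (AddMonoidHom.id M).prod (AddMonoidHom.id M))
    (fun _ _ e => congrArg Prod.fst e) _ x).symm

/-- Over a local ring a weight absent from the closed fibre is absent. -/
theorem IsHom.supp_bound [IsLocalRing S] {t : Pt R A S[M]} (h : IsHom t) {m : ℕ} {e : Fin m → A}
    {a : Fin m → Fin m → A} (he : ∀ j, Coalgebra.comul (R := R) (e j) = ∑ i, e i ⊗ₜ[R] a i j)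
    (x : M) (hx : ∀ i j, (t.ofConv (a i j)).coeff x ∈ IsLocalRing.maximalIdeal S) (j : Fin m) :
    (t.ofConv (e j)).coeff x = 0 := by
  have := Submodule.eq_bot_of_le_smul_of_le_jacobson_bot (IsLocalRing.maximalIdeal S)
    (Submodule.span S (Set.range fun i => (t.ofConv (e i)).coeff x))
    (Submodule.fg_span (Set.finite_range _)) (Submodule.span_le.2 (by
      rintro _ ⟨i, rfl⟩
      show (t.ofConv (e i)).coeff x ∈ _
      rw [h.coeff_eq (he i)]
      exact Submodule.sum_mem _ fun l _ => mul_comm ((t.ofConv (a l i)).coeff x) _ ▸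
        Submodule.smul_mem_smul (hx l i) (Submodule.subset_span ⟨l, rfl⟩)))
    (IsLocalRing.maximalIdeal_le_jacobson _)
  exact this.le (Submodule.subset_span ⟨j, rfl⟩)

/-- The homomorphisms with prescribed values on generators are cut out by finitely many
equations. -/
theorem exists_eqs [Algebra.FinitePresentation R A] {m : ℕ} {e : Fin m → A}
    {a : Fin m → Fin m → A} (hg : Algebra.adjoin R (Set.range e) = ⊤)
    (he : ∀ j, Coalgebra.comul (R := R) (e j) = ∑ i, e i ⊗ₜ[R] a i j) (y : Fin m → S[M]) :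
    ∃ I : Ideal S, I.FG ∧ ∀ (T : Type u) [CommRing T] [Algebra R T] (g : S →ₐ[R] T),
      (∀ z ∈ I, g z = 0) ↔
        ∃ t : Pt R A T[M], IsHom t ∧ ∀ j, t.ofConv (e j) = mapAlgHom M g (y j) := by
  classical
  have hF : Function.Surjective (MvPolynomial.aeval e : MvPolynomial (Fin m) R →ₐ[R] A) := by
    rw [← AlgHom.range_eq_top, ← Algebra.adjoin_range_eq_range_aeval, hg]
  obtain ⟨Z, hZ⟩ := Algebra.FinitePresentation.ker_fG_of_surjective _ hF
  choose p hp using fun i j => hF (a i j)
  let w : Fin m → S[M × M] := fun j =>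
    dm R S ((AddMonoidHom.id M).prod (AddMonoidHom.id M)) (y j) -
      ∑ i, dm R S (AddMonoidHom.inl M M) (y i) *
        dm R S (AddMonoidHom.inr M M) (MvPolynomial.aeval y (p i j))
  refine ⟨Ideal.span ((⋃ ρ ∈ (Z : Set (MvPolynomial (Fin m) R)),
      Set.range (MvPolynomial.aeval y ρ).coeff) ∪ ⋃ j, Set.range (w j).coeff),
    Submodule.fg_span ((Z.finite_toSet.biUnion fun _ _ => Finsupp.finite_range _).union
      (Set.finite_iUnion fun _ => Finsupp.finite_range _)), fun T _ _ g => ?_⟩
  have key : ∀ t : Pt R A T[M], (∀ j, t.ofConv (e j) = mapAlgHom M g (y j)) →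
      (∀ ρ, t.ofConv (MvPolynomial.aeval e ρ) = mapAlgHom M g (MvPolynomial.aeval y ρ)) ∧
        (IsHom t ↔ ∀ j, mapAlgHom (M × M) g (w j) = 0) := fun t ht => by
    have h1 : ∀ ρ, t.ofConv (MvPolynomial.aeval e ρ) = mapAlgHom M g (MvPolynomial.aeval y ρ) :=
      fun ρ => DFunLike.congr_fun (MvPolynomial.algHom_ext
        (f := t.ofConv.comp (MvPolynomial.aeval e))
        (g := (mapAlgHom M g).comp (MvPolynomial.aeval y)) fun j => by simp [ht]) ρ
    have h2 : ∀ (φ : M →+ M × M) v, mapAlgHom (M × M) g (dm R S φ v) =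
        dm R T φ (mapAlgHom M g v) := fun φ v => (DFunLike.congr_fun (dm_nat g φ) v).symm
    have h3 : ∀ j, mapAlgHom (M × M) g (w j) =
        (pm (dm R T ((AddMonoidHom.id M).prod (AddMonoidHom.id M))) t).ofConv (e j) -
          (pm (dm R T (AddMonoidHom.inl M M)) t *
            pm (dm R T (AddMonoidHom.inr M M)) t).ofConv (e j) := fun j => by
      rw [mul_apply_of _ _ (he j), map_sub, map_sum, h2, pm_apply, ht]
      refine congrArg _ (Finset.sum_congr rfl fun i _ => ?_)
      rw [map_mul, h2, h2, pm_apply, pm_apply, ht, ← h1, hp]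
    refine ⟨h1, fun h j => by rw [h3, h, sub_self], fun h => WithConv.ext ?_⟩
    refine AlgHom.ext_of_adjoin_eq_top hg ?_
    rintro _ ⟨j, rfl⟩
    exact sub_eq_zero.1 ((h3 j).symm.trans (h j))
  constructor
  · intro h
    have hk : RingHom.ker (MvPolynomial.aeval e : MvPolynomial (Fin m) R →ₐ[R] A).toRingHom ≤
        RingHom.ker ((mapAlgHom M g).comp (MvPolynomial.aeval y)).toRingHom := by
      rw [← hZ, Ideal.span_le]
      exact fun ρ hρ => (ker_map g _).2 fun x =>
        h _ (Ideal.subset_span (Or.inl (Set.mem_biUnion hρ ⟨x, rfl⟩)))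
    have ht : ∀ j, AlgHom.liftOfSurjective _ hF _ hk (e j) = mapAlgHom M g (y j) := fun j => by
      simpa using AlgHom.liftOfSurjective_apply _ hF _ hk (MvPolynomial.X j)
    exact ⟨toConv _, (key (toConv _) ht).2.2 fun j => (ker_map g _).2 fun x =>
      h _ (Ideal.subset_span (Or.inr (Set.mem_iUnion.2 ⟨j, x, rfl⟩))), ht⟩
  · rintro ⟨t, h, ht⟩
    show _ ≤ RingHom.ker (g : S →+* T)
    rw [Ideal.span_le]
    rintro z (hz | hz)
    · obtain ⟨ρ, hρ, x, rfl⟩ := Set.mem_iUnion₂.1 hz
      refine (ker_map g _).1 ?_ x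
      rw [← (key t ht).1, show MvPolynomial.aeval e ρ = 0 from hZ.le (Ideal.subset_span hρ),
        map_zero]
    · obtain ⟨j, x, rfl⟩ := Set.mem_iUnion.1 hz
      exact (ker_map g _).1 ((key t ht).2.1 h j) x

/-- A homomorphism over a field spreads out over a smooth algebra. -/
theorem torus_spread [Algebra.Smooth R A] {K : Type u} [Field K] [Algebra R K]
    (t₀ : Pt R A K[M]) (h : IsHom t₀) :
    ∃ (C : Type u) (_ : CommRing C) (_ : Algebra R C) (_ : Algebra.Smooth R C)
      (j : C →ₐ[R] K) (t : Pt R A C[M]), IsHom t ∧ pm (mapAlgHom M j) t = t₀ := by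
  classical
  obtain ⟨m, e, a, hg, -, he⟩ := serre (R := R) (∅ : Finset A)
  let π : Finset M := Finset.univ.biUnion fun ij : Fin m × Fin m =>
    (t₀.ofConv (a ij.1 ij.2)).coeff.support
  have hπ : ∀ x, x ∉ π → ∀ i j, (t₀.ofConv (a i j)).coeff x = 0 := fun x hx i j =>
    Finsupp.notMem_support_iff.1 fun h' => hx (Finset.mem_biUnion.2 ⟨(i, j), Finset.mem_univ _, h'⟩)
  let y : Fin m → (MvPolynomial (Fin m × π) R)[M] := fun j =>
    ∑ x : π, single x.1 (MvPolynomial.X (j, x))
  have hy : ∀ (T : Type u) [CommRing T] [Algebra R T] (g : MvPolynomial (Fin m × π) R →ₐ[R] T) j,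
      (∀ x : π, (mapAlgHom M g (y j)).coeff x.1 = g (MvPolynomial.X (j, x))) ∧
        ∀ x, x ∉ π → (mapAlgHom M g (y j)).coeff x = 0 := fun T _ _ g j => by
    simp only [coeff_mapAlgHom, y, coeff_sum, Finsupp.finsetSum_apply, coeff_single]
    refine ⟨fun x => congrArg g ?_, fun x hx => ?_⟩
    · rw [Finset.sum_eq_single x (fun b _ hb => Finsupp.single_eq_of_ne' (Subtype.val_injective.ne hb))
        (by simp), Finsupp.single_eq_same]
    · rw [Finset.sum_eq_zero fun b _ => Finsupp.single_eq_of_ne' fun e : b.1 = x => hx (e ▸ b.2),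
        map_zero]
  obtain ⟨I, hI, hr⟩ := exists_eqs hg he y
  have ext : ∀ {T : Type u} [CommRing T] [Algebra R T] (t t' : Pt R A T),
      (∀ j, t.ofConv (e j) = t'.ofConv (e j)) → t = t' := fun t t' h =>
    WithConv.ext (AlgHom.ext_of_adjoin_eq_top hg (by rintro _ ⟨j, rfl⟩; exact h j))
  obtain ⟨u, hu, hu'⟩ := (hr _ (Ideal.Quotient.mkₐ R I)).1 fun z hz =>
    Ideal.Quotient.eq_zero_iff_mem.2 hz
  have hu2 : ∀ {T : Type u} [CommRing T] [Algebra R T] (g : (_ ⧸ I) →ₐ[R] T) j,
      (pm (mapAlgHom M g) u).ofConv (e j) = mapAlgHom M (g.comp (Ideal.Quotient.mkₐ R I)) (y j) :=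
    fun g j => AddMonoidAlgebra.ext (Finsupp.ext fun x => by
      rw [pm_apply, hu', coeff_mapAlgHom, coeff_mapAlgHom, coeff_mapAlgHom]; rfl)
  have univ : ∀ (T : Type u) [CommRing T] [Algebra R T] [IsLocalRing T] (t : Pt R A T[M])
      (k : T →ₐ[R] K), IsHom t → pm (mapAlgHom M k) t = t₀ →
      ∃ g : (_ ⧸ I) →ₐ[R] T, pm (mapAlgHom M g) u = t := fun T _ _ _ t k ht hk => by
    let g : MvPolynomial (Fin m × π) R →ₐ[R] T :=
      MvPolynomial.aeval fun jx => (t.ofConv (e jx.1)).coeff jx.2.1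
    have h1 : ∀ j, t.ofConv (e j) = mapAlgHom M g (y j) := fun j =>
      AddMonoidAlgebra.ext (Finsupp.ext fun x => by
        by_cases hx : x ∈ π
        · rw [(hy T g j).1 ⟨x, hx⟩, MvPolynomial.aeval_X]
        · rw [(hy T g j).2 x hx]
          refine ht.supp_bound he x (fun i l hun => ?_) j
          have h2 := hπ x hx i l
          rw [← hk, pm_apply, coeff_mapAlgHom] at h2
          exact (hun.map k).ne_zero h2)
    exact ⟨Ideal.Quotient.liftₐ I g ((hr T g).2 ⟨t, ht, h1⟩), ext _ _ fun j => by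
      rw [hu2, Ideal.Quotient.liftₐ_comp, h1]⟩
  have inj : ∀ {T : Type u} [CommRing T] [Algebra R T] (g g' : (_ ⧸ I) →ₐ[R] T),
      pm (mapAlgHom M g) u = pm (mapAlgHom M g') u → g = g' := fun g g' h =>
    Ideal.Quotient.algHom_ext R (MvPolynomial.algHom_ext fun jx => by
      rw [← (hy _ _ jx.1).1 jx.2, ← (hy _ _ jx.1).1 jx.2, ← hu2, ← hu2, h])
  have cmp : ∀ {T T' : Type u} [CommRing T] [Algebra R T] [CommRing T'] [Algebra R T']
      (f : T →ₐ[R] T') (g : (_ ⧸ I) →ₐ[R] T),
      pm (mapAlgHom M f) (pm (mapAlgHom M g) u) = pm (mapAlgHom M (f.comp g)) u := fun f g =>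
    pt_ext fun b => AddMonoidAlgebra.ext (Finsupp.ext fun x => by
      simp only [pm_apply, coeff_mapAlgHom, AlgHom.comp_apply])
  obtain ⟨j₀, hj₀⟩ := univ K t₀ (AlgHom.id R K) h (pt_ext fun b =>
    AddMonoidAlgebra.ext (Finsupp.ext fun x => by rw [pm_apply, coeff_mapAlgHom]; rfl))
  have := Algebra.FinitePresentation.quotient (R := R) hI
  obtain ⟨C, _, _, _, i, j, hij⟩ := spread_of_local j₀ fun S L _ _ _ _ _ f g j' hf hJ hj => by
    obtain ⟨t, ht, ht'⟩ := tlift f hf hJ _ (hu.map g)
    obtain ⟨g', hg'⟩ := univ S t (j'.comp f) ht (by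
      rw [← hj₀, ← hj, ← cmp, ← ht']
      exact pt_ext fun b => AddMonoidAlgebra.ext (Finsupp.ext fun x => by
        simp only [pm_apply, coeff_mapAlgHom, AlgHom.comp_apply]))
    exact ⟨g', inj _ _ (by rw [← cmp, hg', ht'])⟩
  exact ⟨C, _, _, ‹_›, j, _, hu.map i, by rw [cmp, hij, hj₀]⟩

end Pool.Agent.RED.Tor
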