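import Pool.Agent.P.MP_c1f06d_ag.g.BStmt

open WithConv Pool.Agent.GR MvPolynomial

universe u

namespace Pool.Agent.RED

variable {R A : Type u} [CommRing R] [CommRing A] [HopfAlgebra R A]
  {S₀ S : Type u} [CommRing S₀] [Algebra R S₀] [CommRing S] [Algebra R S]
  {M : Type} [AddCommGroup M] {t : Pt R A (GA S₀ M)} {Λ : AddSubmonoid M}

theorem sqz_eval {ι : Type} [Fintype ι] (j : S₀ →ₐ[R] S) (s : ι → S) (hs : ∀ i k, s i * s k = 0)
    (p : MvPolynomial ι S₀) : aevalTower j s p =
      j (constantCoeff p) + ∑ i, j (constantCoeff (pderiv i p)) * s i := by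
  classical
  induction p using MvPolynomial.induction_on with
  | C c => simp
  | add p q hp hq =>
    simp only [map_add, hp, hq, add_mul, Finset.sum_add_distrib]
    ring
  | mul_X p k hp =>
    rw [map_mul, hp, aevalTower_X, add_mul, Finset.sum_mul,
      Finset.sum_eq_zero fun i _ => by rw [mul_assoc, hs, mul_zero], Finset.sum_eq_single k]
    · simp
    · intro i _ hi
      simp [pderiv_X_of_ne hi.symm]
    · simp

/-- The linear part of a change of charts. -/
theorem IsChart.lin {ι ι' : Type} [Fintype ι] {deg : ι → M} {deg' : ι' → M}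
    {X : Pt R A (MvPolynomial ι S₀)} {X' : Pt R A (MvPolynomial ι' S₀)} (h : IsChart t Λ deg X)
    (h' : IsChart t Λ deg' X') : ∃ a : Matrix ι' ι S₀,
      (∀ (S : Type u) [CommRing S] [Algebra R S] (j : S₀ →ₐ[R] S) (s : ι → S),
        (∀ i k, s i * s k = 0) → xev X j s = xev X' j fun k => ∑ i, j (a k i) * s i) ∧
      ∀ k i, deg i ≠ deg' k → a k i = 0 := by
  classical
  let c : S₀ →ₐ[R] MvPolynomial ι S₀ := IsScalarTower.toAlgHom R S₀ _
  obtain ⟨p, -, hp⟩ := (h'.bij _ c).surjOn ((h.bij _ c).mapsTo (Set.mem_univ MvPolynomial.X))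
  have key : ∀ (S : Type u) [CommRing S] [Algebra R S] (j : S₀ →ₐ[R] S) (s : ι → S),
      xev X j s = xev X' j fun k => aevalTower j s (p k) := fun S _ _ j s => by
    have := congrArg (pm (aevalTower j s)) hp
    rw [pm_xev, pm_xev] at this
    have e : (aevalTower j s : MvPolynomial ι S₀ →ₐ[R] S).comp c = j := by
      ext x
      simp [c]
    simp only [e, aevalTower_X] at this
    exact this.symm
  have h0 : ∀ k, constantCoeff (p k) = 0 := fun k => by
    have h1 := key S₀ (AlgHom.id R S₀) 0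
    rw [h.zero, ← h'.zero S₀ (AlgHom.id R S₀)] at h1
    have h2 := congrFun ((h'.bij _ _).injOn (Set.mem_univ _) (Set.mem_univ _) h1) k
    rw [sqz_eval _ _ (by simp)] at h2
    simpa using h2.symm
  have lin : ∀ (S : Type u) [CommRing S] [Algebra R S] (j : S₀ →ₐ[R] S) (s : ι → S),
      (∀ i k, s i * s k = 0) →
        xev X j s = xev X' j fun k => ∑ i, j (constantCoeff (pderiv i (p k))) * s i :=
    fun S _ _ j s hs => by
      rw [key]
      simp only [sqz_eval j s hs, h0, map_zero, zero_add]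
  refine ⟨fun k i => constantCoeff (pderiv i (p k)), lin, fun k i hd => ?_⟩
  let D := TrivSqZeroExt S₀ S₀
  let j : S₀ →ₐ[R] GA D M := (cst R D M).comp (TrivSqZeroExt.inlAlgHom R S₀ S₀)
  let s : ι → GA D M := Pi.single i (AddMonoidAlgebra.single 0 (TrivSqZeroExt.inr 1))
  have hs : ∀ i k, s i * s k = 0 := fun a b => by
    by_cases ha : a = i
    · by_cases hb : b = i
      · simp [s, D, ha, hb, AddMonoidAlgebra.single_mul_single]
      · simp [s, hb]
    · simp [s, ha]
  have h1 := h.eqv _ j (uT D M) s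
  rw [lin _ j s hs, h'.eqv, lin _ j _ fun a b => by
    rw [mul_mul_mul_comm, hs, mul_zero]] at h1
  have h2 := congrFun ((h'.bij _ _).injOn (Set.mem_univ _) (Set.mem_univ _) h1) k
  rw [Finset.sum_eq_single i (fun b _ hb => by simp [s, hb]) (by simp),
    Finset.sum_eq_single i (fun b _ hb => by simp [s, hb]) (by simp)] at h2
  have h3 := congrArg (fun y : GA D M => (y.coeff (deg' k)).snd) h2
  have e : ∀ x, j x = AddMonoidAlgebra.single 0 (TrivSqZeroExt.inl x) := fun _ => rfl
  simpa [chv_uT, s, e, D, AddMonoidAlgebra.single_mul_single, Finsupp.single_apply, hd] using h3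

/-- The weights of a chart are determined by the group. -/
theorem IsChart.uniq [Nontrivial S₀] {ι ι' : Type} [Finite ι] [Finite ι'] {deg : ι → M}
    {deg' : ι' → M} {X : Pt R A (MvPolynomial ι S₀)} {X' : Pt R A (MvPolynomial ι' S₀)}
    (h : IsChart t Λ deg X) (h' : IsChart t Λ deg' X') : ∃ e : ι ≃ ι', ∀ i, deg' (e i) = deg i := by
  classical
  have := Fintype.ofFinite ι
  have := Fintype.ofFinite ι'
  have aux : ∀ {ι ι' : Type} [Fintype ι] [Fintype ι'] {deg : ι → M} {deg' : ι' → M}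
      {X : Pt R A (MvPolynomial ι S₀)} {X' : Pt R A (MvPolynomial ι' S₀)}
      (h : IsChart t Λ deg X) (a : Matrix ι' ι S₀) (b : Matrix ι ι' S₀),
      (∀ (S : Type u) [CommRing S] [Algebra R S] (j : S₀ →ₐ[R] S) (s : ι → S),
        (∀ i k, s i * s k = 0) → xev X j s = xev X' j fun k => ∑ i, j (a k i) * s i) →
      (∀ (S : Type u) [CommRing S] [Algebra R S] (j : S₀ →ₐ[R] S) (s : ι' → S),
        (∀ i k, s i * s k = 0) → xev X' j s = xev X j fun k => ∑ i, j (b k i) * s i) →
      (∀ k i, deg' i ≠ deg k → b k i = 0) → ∀ m : M,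
      (b.submatrix Subtype.val Subtype.val : Matrix {i // deg i = m} {i // deg' i = m} S₀) *
        (a.submatrix Subtype.val Subtype.val : Matrix {i // deg' i = m} {i // deg i = m} S₀) = 1 := by
    intro ι ι' _ _ deg deg' X X' h a b ha hb hd m
    ext i i'
    let j : S₀ →ₐ[R] TrivSqZeroExt S₀ S₀ := TrivSqZeroExt.inlAlgHom R S₀ S₀
    let s : ι → TrivSqZeroExt S₀ S₀ :=
      fun k => TrivSqZeroExt.inr (Pi.single (M := fun _ => S₀) i'.1 1 k)
    have e : ∀ k, ∑ i, j (a k i) * s i = TrivSqZeroExt.inr (a k i') := fun k => by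
      rw [Finset.sum_eq_single i'.1 (fun b _ hb => by simp [s, hb]) (by simp)]
      simp only [s, j, TrivSqZeroExt.inlAlgHom_apply, TrivSqZeroExt.inl_mul_inr, Pi.single_eq_same,
        smul_eq_mul, mul_one]
    have h1 := ha _ j s fun _ _ => TrivSqZeroExt.inr_mul_inr _ _ _
    simp only [e] at h1
    rw [hb _ j _ fun _ _ => TrivSqZeroExt.inr_mul_inr _ _ _] at h1
    have h2 := congrArg TrivSqZeroExt.snd
      (congrFun ((h.bij _ _).injOn (Set.mem_univ _) (Set.mem_univ _) h1) i)
    simp only [s, j, TrivSqZeroExt.snd_inr, TrivSqZeroExt.snd_sum, TrivSqZeroExt.inlAlgHom_apply,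
      TrivSqZeroExt.inl_mul_inr, smul_eq_mul] at h2
    rw [Matrix.mul_apply, Matrix.one_apply]
    simp only [Matrix.submatrix_apply]
    rw [← Finset.sum_subtype (Finset.univ.filter fun k => deg' k = m) (by simp)
      fun k => b i k * a k i', Finset.sum_filter_of_ne fun k _ hk => by
        by_contra hn
        exact hk (by rw [hd i k (by rwa [i.2]), zero_mul]), ← h2, Pi.single_apply]
    simp only [Subtype.ext_iff]
  obtain ⟨a, ha, ha'⟩ := h.lin h'
  obtain ⟨b, hb, hb'⟩ := h'.lin h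
  let e := Equiv.ofFiberEquiv (f := deg) (g := deg') fun m => Fintype.equivOfCardEq
    (Matrix.square_of_invertible _ _ (aux h a b ha hb hb' m) (aux h' b a hb ha ha' m))
  exact ⟨e, fun i => Equiv.ofFiberEquiv_map _ i⟩

theorem xev_rename {ι ι' : Type} (e : ι → ι') (X : Pt R A (MvPolynomial ι S₀)) (j : S₀ →ₐ[R] S)
    (s : ι' → S) : xev (pm ((rename e).restrictScalars R) X) j s = xev X j (s ∘ e) := by
  rw [xev, xev, pm_pm]
  congr 2
  ext <;> simp

theorem IsChart.reindex {ι ι' : Type} {deg : ι → M} {deg' : ι' → M}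
    {X : Pt R A (MvPolynomial ι S₀)} (h : IsChart t Λ deg X) (e : ι ≃ ι')
    (he : ∀ i, deg' (e i) = deg i) : IsChart t Λ deg' (pm ((rename e).restrictScalars R) X) := by
  refine ⟨fun S _ _ j => ?_, fun S _ _ j => ?_, fun S _ _ j τ s => ?_⟩
  · have : xev (pm ((rename e).restrictScalars R) X) j = xev X j ∘ fun s => s ∘ e :=
      funext fun s => xev_rename e X j s
    rw [this]
    exact (h.bij S j).comp (Set.bijOn_univ.2 (Equiv.arrowCongr e.symm (Equiv.refl S)).bijective)
  · rw [xev_rename]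
    exact h.zero S j
  · rw [xev_rename, xev_rename, h.eqv]
    congr 1
    funext i
    simp [he]

theorem Wts.reindex {ι ι' : Type} {deg : ι → M} {deg' : ι' → M} (h : Wts t deg) (e : ι ≃ ι')
    (he : ∀ i, deg' (e i) = deg i) : Wts t deg' := by
  refine ⟨fun k => ?_, fun Λ hΛ => ?_⟩
  · rw [← e.apply_symm_apply k, he]
    exact h.1 _
  · obtain ⟨X, hX⟩ := h.2 Λ hΛ
    exact ⟨_, hX.reindex (e.subtypeEquiv fun i => by rw [he]) fun i => he i⟩

/-- The list of weights is determined by the torus. -/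
theorem Wts.uniq [Nontrivial S₀] [Module.Free ℤ M] {ι ι' : Type} [Finite ι] [Finite ι']
    {deg : ι → M} {deg' : ι' → M} (h : Wts t deg) (h' : Wts t deg') :
    ∃ e : ι ≃ ι', ∀ i, deg' (e i) = deg i := by
  have key : ∀ m, Nonempty ({i // deg i = m} ≃ {i // deg' i = m}) := fun m => by
    by_cases hm : m = 0
    · have : IsEmpty {i // deg i = m} := ⟨fun i => h.1 _ (i.2.trans hm)⟩
      have : IsEmpty {i // deg' i = m} := ⟨fun i => h'.1 _ (i.2.trans hm)⟩
      exact ⟨Equiv.equivOfIsEmpty _ _⟩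
    · obtain ⟨X, hX⟩ := h.2 _ (pos_ray hm)
      obtain ⟨X', hX'⟩ := h'.2 _ (pos_ray hm)
      obtain ⟨e, he⟩ := hX.uniq hX'
      exact ⟨((Equiv.subtypeSubtypeEquivSubtype (p := fun i => deg i ∈ ray m)
        (q := fun i => deg i = m) fun h => h ▸ self_mem_ray _).symm.trans
          (e.subtypeEquiv fun i => by rw [← he i])).trans
        (Equiv.subtypeSubtypeEquivSubtype (p := fun i => deg' i ∈ ray m)
          (q := fun i => deg' i = m) fun h => h ▸ self_mem_ray _)⟩
  exact ⟨Equiv.ofFiberEquiv fun m => (key m).some, fun i => Equiv.ofFiberEquiv_map _ i⟩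

theorem IsRoot.chart {α : M} {x : Pt R A (Polynomial S₀)} (h : IsRoot t α x) :
    ∃ X, IsChart t (ray α) (fun _ : Unit => α) X := by
  let c : S₀ →ₐ[R] MvPolynomial Unit S₀ := IsScalarTower.toAlgHom R S₀ _
  have e : ∀ (S : Type u) [CommRing S] [Algebra R S] (j : S₀ →ₐ[R] S) (s : Unit → S),
      xev (cv x c (MvPolynomial.X ())) j s = cv x j (s ()) := fun S _ _ j s => by
    rw [xev, pm_cv, aevalTower_X]
    congr 1
    ext y
    simp [c]
  refine ⟨cv x c (MvPolynomial.X ()), fun S _ _ j => ?_, fun S _ _ j => ?_, fun S _ _ j τ s => ?_⟩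
  · have : xev (cv x c (MvPolynomial.X ())) j = cv x j ∘ fun s => s () := funext (e S j)
    rw [this]
    exact (h.bij S j).comp (Set.bijOn_univ.2 (Equiv.funUnique Unit S).bijective)
  · rw [e]
    exact h.cv_zero
  · rw [e, e, h.eqv]

/-- A root is a weight, and the only one on its ray. -/
theorem IsRoot.wt [Nontrivial S₀] [Module.Free ℤ M] {ι : Type} [Finite ι] {deg : ι → M} {α : M}
    {x : Pt R A (Polynomial S₀)} (h : IsRoot t α x) (hα : α ≠ 0) (hw : Wts t deg) :
    ∃ i, deg i = α ∧ ∀ k, deg k ∈ ray α → k = i := by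
  obtain ⟨X, hX⟩ := h.chart
  obtain ⟨X', hX'⟩ := hw.2 _ (pos_ray hα)
  obtain ⟨e, he⟩ := hX.uniq hX'
  exact ⟨e (), he (), fun k hk => congrArg Subtype.val
    (e.symm.injective (a₁ := ⟨k, hk⟩) (a₂ := e ()) rfl)⟩

/-- The weights over a local ring are those of the closed fibre. -/
theorem Wts.spread [Algebra.Smooth R A] [IsLocalRing S₀] [Nontrivial S] [Module.Free ℤ M]
    (ht : IsHom t) (j : S₀ →ₐ[R] S) {ι : Type} [Finite ι] {deg : ι → M} (h : Wts (bc j t) deg) :
    Wts t deg := by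
  obtain ⟨n, d, hd⟩ := exists_wts ht
  obtain ⟨e, he⟩ := (hd.base j).uniq h
  exact hd.reindex e he

end Pool.Agent.RED
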