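import Pool.Agent.P.MP_c1f06d_ag.g.EntFK
import Pool.Agent.P.MP_c1f06d_ag.g.SLs
import Pool.Agent.P.MP_c1f06d_ag.g.WUniq
import Pool.Agent.P.MP_c1f06d_ag.g.Norm
import Pool.Agent.P.MP_c1f06d_ag.g.TorC

open TensorProduct Pool.Agent.GR Pool.Agent.RG Pool.Agent.RED.Au

universe u

namespace Pool.Agent.RED

variable {R : Type u} [CommRing R] {A : Type u} [CommRing A] [HopfAlgebra R A] {D : RD}

theorem loc_cover' {C K : Type u} [IsLocalRing R] [IsDomain R] [IsIntegrallyClosed R] [CommRing C]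
    [Algebra R C] [Algebra.Smooth R C] [Field K] [Algebra R K]
    (hK : ∀ r ∈ IsLocalRing.maximalIdeal R, algebraMap R K r = 0) (j : C →ₐ[R] K) :
    haveI := RingHom.ker_isPrime j
    IsDomain (Localization.AtPrime (RingHom.ker j)) ∧
      Module.FaithfullyFlat R (Localization.AtPrime (RingHom.ker j)) ∧
      ∃ j' : Localization.AtPrime (RingHom.ker j) →ₐ[R] K, (∀ x, j' (algebraMap C _ x) = j x) ∧
        ∀ r ∈ IsLocalRing.maximalIdeal _, j' r = 0 := by
  have := RingHom.ker_isPrime j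
  let R' := Localization.AtPrime (RingHom.ker j)
  have hu : ∀ y : (RingHom.ker j).primeCompl, IsUnit (j y) := fun y => isUnit_iff_ne_zero.2 y.2
  let j' : R' →ₐ[R] K := IsLocalization.liftAlgHom hu
  have hj : ∀ x, j' (algebraMap C R' x) = j x := fun x => IsLocalization.lift_eq hu x
  have : Module.Flat R R' := Module.Flat.trans R C R'
  have : IsLocalHom (algebraMap R R') := ⟨fun r hr => by
    by_contra hn
    exact (hr.map j').ne_zero ((j'.commutes r).trans (hK r hn))⟩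
  refine ⟨(smooth_normal R C R' (RingHom.ker j)).1, Module.FaithfullyFlat.of_flat_of_isLocalHom,
    j', hj, fun r hr => ?_⟩
  obtain ⟨⟨a, s⟩, rfl⟩ := IsLocalization.mk'_surjective (RingHom.ker j).primeCompl r
  have e : j' (IsLocalization.mk' R' a s) * j s = j a := by
    rw [← hj, ← hj, ← map_mul, IsLocalization.mk'_spec]
  exact (hu s).mul_left_eq_zero.1
    (e.trans ((IsLocalization.AtPrime.mk'_mem_maximal_iff R' _ a s).1 hr))

theorem SL2.norm {S₀ : Type u} [CommRing S₀] [Algebra R S₀] {M : Type} [AddCommGroup M]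
    {t : Pt R A (GA S₀ M)} {β : M} {cor : M →+ ℤ} {x y : Pt R A (Polynomial S₀)} {c : S₀ˣ}
    (h : SL2 t cor c x y) (hy : IsRoot t β y) : ∃ y', IsRoot t β y' ∧ SL2 t cor 1 x y' := by
  obtain ⟨y', h1, h2⟩ := hy.scale c⁻¹
  refine ⟨y', h1, fun S _ _ j a b s hs => ?_⟩
  have hj : j c * j (c⁻¹ : S₀ˣ) = 1 := by rw [← map_mul, c.mul_inv, map_one]
  rw [h2, h2, ← mul_assoc (j _)]
  refine h S j a _ s ?_
  rw [hs, map_one]
  linear_combination (-(a * b)) * hj

theorem Pin.Pre.rootP {B : Type u} [CommRing B] [Algebra R B] {P : Pin D R A B} (h : P.Pre)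
    (i : Fin D.m) : IsRoot P.τ (D.al i) (P.x true i) := by
  simpa [sg] using h.root true i

theorem Pin.Pre.rootM {B : Type u} [CommRing B] [Algebra R B] {P : Pin D R A B} (h : P.Pre)
    (i : Fin D.m) : IsRoot P.τ (-D.al i) (P.x false i) := by
  simpa [sg] using h.root false i

theorem pre_of_local [Algebra.Smooth R A] (hG : GI R A) {S : Type u} [CommRing S] [IsLocalRing S]
    [Algebra R S] {Ω : Type u} [Field Ω] [Algebra R Ω] (j : S →ₐ[R] Ω)
    (hj : ∀ z ∈ IsLocalRing.maximalIdeal S, j z = 0) {t : Pt R A (GA S (XL D.r))} (ht : IsHom t)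
    {P₀ : Pin D R A Ω} (h : P₀.Pre) (e : bc j t = P₀.τ) (n : Fin D.m → Pt R A S)
    (hn : ∀ i, Trp t (tw (D.rf i) t) (AlgHom.id R S) (n i))
    (hn' : ∀ i, pm j (n i) = (nref (P₀.x true i) (P₀.x false i) 1 (AlgHom.id R Ω))⁻¹) :
    ∃ P : Pin D R A S, P.τ = t ∧ P.Pre := by
  have h1 : Wts (bc j t) D.rt := by rw [e]; exact h.wts
  have h2 : ∀ i, IsRoot (bc j t) (D.al i) (P₀.x true i) := by rw [e]; exact h.rootP
  have h3 : ∀ i, IsRoot (bc j t) (-D.al i) (P₀.x false i) := by rw [e]; exact h.rootM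
  have h4 : ∀ i, SL2 (bc j t) (D.co i) 1 (P₀.x true i) (P₀.x false i) := by rw [e]; exact h.sl2
  have h5 : ZT (bc j t) := by rw [e]; exact h.zt
  have hal : ∀ i, D.al i ≠ 0 := fun i => D.indep.ne_zero i
  have hw : Wts t D.rt := Wts.spread ht j h1
  have hr : ∀ {α : XL D.r} {x' : Pt R A (Polynomial Ω)}, α ≠ 0 → IsRoot (bc j t) α x' →
      ∃ x, IsRoot t α x := fun hα hx => by
    obtain ⟨k, rfl, hk'⟩ := hx.wt hα h1
    exact exists_isRoot ht hw k hk'
  have hs : ∀ i, ∃ x y, IsRoot t (D.al i) x ∧ IsRoot t (-D.al i) y ∧ SL2 t (D.co i) 1 x y := by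
    intro i
    obtain ⟨x, hx⟩ := hr (hal i) (h2 i)
    obtain ⟨y, hy⟩ := hr (neg_ne_zero.2 (hal i)) (h3 i)
    obtain ⟨c₀, hc⟩ := SL2.spreadN ht hw (hal i) hx hy (D.two i) (s := D.rf i) (fun _ => rfl)
      (hn i) j hj (h2 i) (h3 i) (one_mul 1) (h4 i) (hn' i)
    obtain ⟨y', h6, h7⟩ := hc.norm hy
    exact ⟨x, y', hx, h6, h7⟩
  choose x y hx hy hxy using hs
  have hz : ZT t := ZT.spread ht hG j hj h5
  have hb : ∀ b i, IsRoot t (sg b • D.al i) (cond b x y i) := fun b i => by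
    cases b
    · simpa [sg] using hy i
    · simpa [sg] using hx i
  exact ⟨⟨fun b => cond b x y, t⟩, rfl, ⟨ht, hz, hw, hb, hxy⟩⟩

/-- A pinning over a point above the closed point spreads to a local ring of a smooth algebra. -/
theorem spread' [IsLocalRing R] [IsDomain R] [IsIntegrallyClosed R] [Algebra.Smooth R A]
    (hG : GI R A) (Ω : Type u) [Field Ω] [Algebra R Ω]
    (hΩ : ∀ a ∈ IsLocalRing.maximalIdeal R, algebraMap R Ω a = 0) (P₀ : Pin D R A Ω)
    (h : P₀.Pre) : ∃ (C : Type u) (_ : CommRing C) (_ : Algebra R C) (_ : Algebra.Smooth R C)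
      (c : Ideal C) (_ : c.IsPrime), IsDomain (Localization.AtPrime c) ∧
        Module.FaithfullyFlat R (Localization.AtPrime c) ∧
        ∃ P : Pin D R A (Localization.AtPrime c), P.Pre := by
  obtain ⟨C₀, _, _, _, j₀, t₀, ht₀, e₀⟩ := Tor.torus_spread P₀.τ ((isHom_iff _).1 h.hom)
  replace ht₀ := (isHom_iff _).2 ht₀
  replace e₀ : bc j₀ t₀ = P₀.τ := e₀
  obtain ⟨C, _, _, _, f, j₁, n, e₁, hn⟩ := spread_trp (fun _ => t₀) (fun i => tw (D.rf i) t₀)
    (fun _ => ht₀) (fun i => isHom_tw _ ht₀) j₀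
    (fun i => (nref (P₀.x true i) (P₀.x false i) 1 (AlgHom.id R Ω))⁻¹) fun i => by
      have := (h.sl2 i).trp (one_mul 1) h.hom (h.rootP i) (h.rootM i) (D.two i) (s := D.rf i)
        (fun _ => rfl) (AlgHom.id R Ω)
      rwa [← e₀, ← bc_tw, trp_bc] at this
  have := RingHom.ker_isPrime j₁
  obtain ⟨h1, h2, j, hj, hk⟩ := loc_cover' hΩ j₁
  let g : C →ₐ[R] Localization.AtPrime (RingHom.ker j₁) := IsScalarTower.toAlgHom R C _
  have hg : j.comp g = j₁ := AlgHom.ext hj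
  obtain ⟨P, -, hP⟩ := pre_of_local hG j hk (ht₀.base (g.comp f)) h
    (by rw [bc_bc, ← AlgHom.comp_assoc, hg, e₁, e₀]) (fun i => pm g (n i))
    (fun i => by
      rw [← bc_tw, trp_bc]
      exact (hn i).1.map g)
    fun i => by rw [pm_pm, hg, (hn i).2]
  exact ⟨C, inferInstance, inferInstance, inferInstance, RingHom.ker j₁, inferInstance, h1, h2,
    P, hP⟩

theorem spread [IsLocalRing R] [IsDomain R] [IsIntegrallyClosed R] (hA : IsReductive R A)
    (Ω : Type u) [Field Ω] [Algebra R Ω]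
    (hΩ : ∀ a ∈ IsLocalRing.maximalIdeal R, algebraMap R Ω a = 0) (P₀ : Pin D R A Ω)
    (h : P₀.Pre) : ∃ (C : Type u) (_ : CommRing C) (_ : Algebra R C) (_ : Algebra.Smooth R C)
      (c : Ideal C) (_ : c.IsPrime), IsDomain (Localization.AtPrime c) ∧
        Module.FaithfullyFlat R (Localization.AtPrime c) ∧
        ∃ P : Pin D R A (Localization.AtPrime c), P.Pre :=
  have := hA.smooth
  spread' (gi_of_red hA) Ω hΩ P₀ h

end Pool.Agent.RED
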