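import Pool.Agent.P.MP_c1f06d_ag.g.RDTrans
import Pool.Agent.P.MP_c1f06d_ag.g.EntFK
import Pool.Agent.P.MP_c1f06d_ag.g.Fib
import Pool.Agent.P.MP_c1f06d_ag.g.PreOk
import Pool.Agent.P.MP_c1f06d_ag.g.Spread
import Pool.Agent.P.MP_c1f06d_ag.g.DaLift
import Pool.Agent.P.MP_c1f06d_ag.g.AutC
import Pool.Agent.P.MP_c1f06d_ag.g.FibA
import Pool.Agent.P.MP_c1f06d_ag.g.Mono
import Pool.Agent.P.MP_c1f06d_ag.g.Coc
import Pool.Agent.P.MP_c1f06d_ag.g.Iso
import Pool.Agent.P.MP_c1f06d_ag.g.Form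
import Pool.Agent.P.MP_c1f06d_ag.g.Model

open TensorProduct Polynomial Matrix Pool.Agent.GR Pool.Agent.RG

universe u

namespace Pool.Agent.RED

variable {k R : Type u} [Field k] [CommRing R] [Algebra k R] {A : Type u} [CommRing A]
  [HopfAlgebra R A] {D : RD} {O : Type u} [CommRing O] [HopfAlgebra k O]

/-- Diagram automorphisms lift. -/
theorem da_lift [Algebra.Smooth k O] (hG : GI k O) {Q : Pin D k O k} (h : Q.Ok) (γ : DA D) :
    ∃ d : Hm k k O O k, IsIso d ∧ RespT d Q Q γ.θ γ.π :=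
  da_lift_of (fun _ hP => hP.ok hG) (fun _ _ => iso) h γ

/-- Automorphisms over an algebraically closed field. -/
theorem aut [Algebra.Smooth k O] (hG : GI k O) {Q : Pin D k O k} (h : Q.Ok) {n : ℕ}
    {G : AffQuot k n} {u : GL (Fin n) O} (hu : Emb u G)
    (Ω : Type u) [Field Ω] [IsAlgClosed Ω] [Algebra k Ω] {c : Hm k k O O Ω} (hc : IsIso c) :
    ∃ (g : Pt k O Ω) (γ : DA D), ∀ d : Hm k k O O k, IsMul d → RespT d Q Q γ.θ γ.π →
      ∀ (C : Type u) [CommRing C] [Algebra k C] (f : Ω →ₐ[k] C) (x : Pt k O C),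
        app c f x = pm f g * app d (Algebra.ofId k C) x * (pm f g)⁻¹ := by
  have h1 := (h.pre.push (Algebra.ofId k Ω)).ok hG
  refine Au.aut_of Ω h1 (fun _ _ _ hφ hψ => uniq h1 hφ hψ) (fun t t' ht hz ht' hz' => ?_) hc
  obtain ⟨H, X, -⟩ := Real.ofEmb hu Ω
  exact X.conj ht hz ht' hz'

end Pool.Agent.RED
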