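import Pool.Agent.P.MP_c1f06d_ag.g.BTop

open Matrix TensorProduct Pool.Agent.GR

universe u

namespace Pool.Agent.RG

/-- A reductive group over `R` is a `G_z` over the prime field `k`. -/
theorem bridge (k : Type u) [Field k] (hk0 : (⊥ : Subfield k) = ⊤)
    (V : Type u) [CommRing V] [IsDomain V] [ValuationRing V]
    [Algebra k V] (C : Type u) [CommRing C] [Algebra V C] [Algebra.Smooth V C] (p : Ideal C)
    [p.IsPrime] (R : Type u) [CommRing R] [Algebra C R] [IsLocalization.AtPrime R p] [Algebra k R]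
    (_hk : ∀ c, algebraMap k R c = algebraMap C R (algebraMap V C (algebraMap k V c)))
    (A : Type u) [CommRing A] [HopfAlgebra R A] (hA : IsReductive R A) :
    ∃ (n r r' : ℕ) (G H : AffQuot k n) (χ : Fin n → Fin r → ℤ) (χ' : Fin n → Fin r' → ℤ)
      (z : H.B →ₐ[k] R) (u : GL (Fin n) A), H.Normalizes G ∧ G.GeomIntegral ∧ G.SplitTorus χ ∧
      G.WideTorus H χ χ' ∧ Presents G H z u :=
  RED.bridge' k hk0 V C p R A hA

end Pool.Agent.RG
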