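import Mathlib

/-! Components of closed subgroups of a noetherian group with continuous translations. -/

open TopologicalSpace Set

namespace Pool.Agent.RED.Ent

variable {G : Type*} [Group G] [TopologicalSpace G]

/-- `Z` is an irreducible component of `K`. -/
def Comp (K Z : Set G) : Prop := Maximal (fun Y => IsIrreducible Y ∧ Y ⊆ K) Z

omit [Group G] in
theorem Comp.image {K Z : Set G} (h : Comp K Z) (φ ψ : G → G) (hφ : Continuous φ)
    (hψ : Continuous ψ) (h1 : ∀ x, φ (ψ x) = x) (h2 : ∀ x, ψ (φ x) = x) (k1 : ∀ x ∈ K, φ x ∈ K)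
    (k2 : ∀ x ∈ K, ψ x ∈ K) : Comp K (φ '' Z) := by
  refine ⟨⟨h.1.1.image φ hφ.continuousOn, ?_⟩, fun Y hY hZY y hy => ?_⟩
  · rintro _ ⟨x, hx, rfl⟩
    exact k1 x (h.1.2 hx)
  · have h3 : ψ '' Y ⊆ Z := h.2 ⟨hY.1.image ψ hψ.continuousOn, by
      rintro _ ⟨x, hx, rfl⟩
      exact k2 x (hY.2 hx)⟩ fun x hx => ⟨φ x, hZY ⟨x, hx, rfl⟩, h2 x⟩
    exact ⟨ψ y, h3 ⟨y, hy, rfl⟩, h1 y⟩

omit [Group G] in
theorem comp_facts [NoetherianSpace G] {K : Set G} (hK : IsClosed K) :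
    {Z | Comp K Z}.Finite ∧ (∀ Z, Comp K Z → IsClosed Z) ∧ ∀ x ∈ K, ∃ Z, Comp K Z ∧ x ∈ Z := by
  obtain ⟨S, hS, h1, h2, h3⟩ := NoetherianSpace.exists_finite_set_isClosed_irreducible hK
  have key : ∀ Y, IsIrreducible Y → Y ⊆ K → ∃ t ∈ S, Y ⊆ t := fun Y hY hYK => by
    obtain ⟨t, ht, h⟩ := isIrreducible_iff_sUnion_isClosed.1 hY hS.toFinset
      (fun z hz => h1 z (hS.mem_toFinset.1 hz)) (by rwa [hS.coe_toFinset, ← h3])
    exact ⟨t, hS.mem_toFinset.1 ht, h⟩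
  have hsub : ∀ t ∈ S, t ⊆ K := fun t ht => by
    rw [h3]
    exact subset_sUnion_of_mem ht
  have hmem : ∀ Z, Comp K Z → Z ∈ S := fun Z hZ => by
    obtain ⟨t, ht, h⟩ := key Z hZ.1.1 hZ.1.2
    rwa [Subset.antisymm h (hZ.2 ⟨h2 t ht, hsub t ht⟩ h)]
  refine ⟨hS.subset hmem, fun Z hZ => h1 Z (hmem Z hZ), fun x hx => ?_⟩
  obtain ⟨t, ht, h⟩ := key {x} isIrreducible_singleton (singleton_subset_iff.2 hx)
  obtain ⟨t', h4, h5⟩ := hS.exists_le_maximal ht
  refine ⟨t', ⟨⟨h2 t' h5.1, hsub t' h5.1⟩, fun Y hY hle => ?_⟩, h4 (h rfl)⟩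
  obtain ⟨t'', h6, h7⟩ := key Y hY.1 hY.2
  exact h7.trans (h5.2 h6 (hle.trans h7))

/-- The identity component. -/
theorem exists_comp [NoetherianSpace G] (hL : ∀ a b : G, Continuous fun x => a * x * b)
    (K : Subgroup G) [hN : K.Normal] (hK : IsClosed (K : Set G)) :
    ∃ U : Subgroup G, U ≤ K ∧ U.Normal ∧ IsClosed (U : Set G) ∧ IsIrreducible (U : Set G) ∧
      ∃ s : Set G, s.Finite ∧ ∀ x ∈ K, ∃ a ∈ s, a⁻¹ * x ∈ U := by
  obtain ⟨hfin, hcl, hcov⟩ := comp_facts hK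
  have tr : ∀ Z, Comp (K : Set G) Z → ∀ a b : G, a * b ∈ K →
      Comp (K : Set G) ((fun x => a * x * b) '' Z) := fun Z hZ a b hab => by
    refine hZ.image _ (fun x => a⁻¹ * x * b⁻¹) (hL a b) (hL a⁻¹ b⁻¹) (fun x => by group)
      (fun x => by group) (fun x hx => ?_) fun x hx => ?_
    · have := K.mul_mem (hN.conj_mem x hx a) hab
      have e : a * x * a⁻¹ * (a * b) = a * x * b := by group
      rwa [e] at this
    · have h3 := hN.conj_mem _ (K.mul_mem hx (K.inv_mem hab)) a⁻¹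
      have e : a⁻¹ * (x * (a * b)⁻¹) * a⁻¹⁻¹ = a⁻¹ * x * b⁻¹ := by group
      rwa [e] at h3
  obtain ⟨Z0, hZ0, -⟩ := hcov 1 K.one_mem
  have hx : ∃ x ∈ Z0, ∀ Z, Comp (K : Set G) Z → x ∈ Z → Z = Z0 := by
    by_contra hc
    push Not at hc
    have hf : {Z | Comp (K : Set G) Z ∧ Z ≠ Z0}.Finite := hfin.subset fun Z hZ => hZ.1
    obtain ⟨t, ht, h⟩ := isIrreducible_iff_sUnion_isClosed.1 hZ0.1.1 hf.toFinset
      (fun z hz => hcl z (hf.mem_toFinset.1 hz).1) (by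
        rw [hf.coe_toFinset]
        intro x hx
        obtain ⟨Z, h1, h2, h3⟩ := hc x hx
        exact ⟨Z, ⟨h1, h3⟩, h2⟩)
    have ht' := hf.mem_toFinset.1 ht
    exact ht'.2 (Subset.antisymm (hZ0.2 ht'.1.1 h) h)
  obtain ⟨x, hx0, hx⟩ := hx
  have hxK : x ∈ K := hZ0.1.2 hx0
  obtain ⟨U, hU, hU1⟩ := hcov 1 K.one_mem
  have uniq : ∀ Z, Comp (K : Set G) Z → (1 : G) ∈ Z → Z = U := fun Z hZ h1 => by
    have e1 := hx _ (tr Z hZ x 1 (by simpa using hxK)) ⟨1, h1, by simp⟩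
    have e2 := hx _ (tr U hU x 1 (by simpa using hxK)) ⟨1, hU1, by simp⟩
    exact (image_injective.2 fun y z h => by simpa using h) (e1.trans e2.symm)
  have hdiv : ∀ Z, Comp (K : Set G) Z → ∀ g ∈ Z, ∀ h ∈ Z, g⁻¹ * h ∈ U := fun Z hZ g hg h hh => by
    rw [← uniq _ (tr Z hZ g⁻¹ 1 (by simpa using hZ.1.2 hg)) ⟨g, hg, by simp⟩]
    exact ⟨h, hh, by simp⟩
  have hinv : ∀ g ∈ U, g⁻¹ ∈ U := fun g hg => by simpa using hdiv U hU g hg 1 hU1
  let U' : Subgroup G :=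
    { carrier := U
      one_mem' := hU1
      inv_mem' := fun {g} hg => hinv g hg
      mul_mem' := fun {g h} hg hh => by simpa using hdiv U hU g⁻¹ (hinv g hg) h hh }
  refine ⟨U', hU.1.2, ⟨fun g hg a => ?_⟩, hcl U hU, hU.1.1, ?_⟩
  · show a * g * a⁻¹ ∈ U
    rw [← uniq _ (tr U hU a a⁻¹ (by simp)) ⟨1, hU1, by simp⟩]
    exact ⟨g, hg, rfl⟩
  · have hpt : ∀ Z : Set G, ∃ a : G, Comp (K : Set G) Z → a ∈ Z := fun Z => by
      by_cases h : Comp (K : Set G) Z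
      · obtain ⟨a, ha⟩ := h.1.1.nonempty
        exact ⟨a, fun _ => ha⟩
      · exact ⟨1, fun h' => absurd h' h⟩
    choose p hp using hpt
    refine ⟨p '' {Z | Comp (K : Set G) Z}, hfin.image p, fun y hy => ?_⟩
    obtain ⟨Z, hZ, hyZ⟩ := hcov y hy
    exact ⟨p Z, ⟨Z, hZ, rfl⟩, hdiv Z hZ _ (hp Z hZ) y hyZ⟩

/-- The closure of a normal subgroup is a normal subgroup. -/
theorem exists_closure (hL : ∀ a b : G, Continuous fun x => a * x * b)
    (hI : Continuous fun x : G => x⁻¹) (K : Subgroup G) [hN : K.Normal] :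
    ∃ K' : Subgroup G, (K' : Set G) = closure (K : Set G) ∧ K'.Normal := by
  have m1 : ∀ a ∈ K, ∀ y ∈ closure (K : Set G), a * y ∈ closure (K : Set G) := fun a ha y hy => by
    simpa using map_mem_closure (hL a 1) hy fun x hx => by
      show a * x * 1 ∈ (K : Set G)
      simpa using K.mul_mem ha hx
  refine ⟨{ carrier := closure (K : Set G)
            one_mem' := subset_closure K.one_mem
            inv_mem' := fun {g} hg => map_mem_closure hI hg fun x hx => K.inv_mem hx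
            mul_mem' := fun {g h} hg hh => ?_ }, rfl, ⟨fun g hg a => ?_⟩⟩
  · have := map_mem_closure (t := closure (K : Set G)) (hL 1 h) hg fun x hx => by
      simpa using m1 x hx h hh
    simpa using this
  · exact map_mem_closure (f := fun x => a * x * a⁻¹) (hL a a⁻¹) hg fun x hx => hN.conj_mem x hx a

omit [Group G] in
/-- A continuous map with finite image on an irreducible space with closed points is constant. -/
theorem const_of_finite [T1Space G] (hG : IsIrreducible (univ : Set G)) {φ : G → G}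
    (hφ : Continuous φ) (hf : (range φ).Finite) (x y : G) : φ x = φ y := by
  have h1 : IsIrreducible (range φ) := by simpa using hG.image φ hφ.continuousOn
  have hf' : ((fun z : G => ({z} : Set G)) '' range φ).Finite := hf.image _
  obtain ⟨t, ht, h⟩ := isIrreducible_iff_sUnion_isClosed.1 h1 hf'.toFinset
    (fun z hz => by
      obtain ⟨w, -, rfl⟩ := hf'.mem_toFinset.1 hz
      exact isClosed_singleton) (by
      rw [hf'.coe_toFinset]
      exact fun z hz => ⟨{z}, ⟨z, hz, rfl⟩, rfl⟩)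
  obtain ⟨w, -, rfl⟩ := hf'.mem_toFinset.1 ht
  exact (h ⟨x, rfl⟩).trans (h ⟨y, rfl⟩).symm

end Pool.Agent.RED.Ent
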