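import Pool.Agent.P.MP_c1f06d_ag.g.EntTop
import Pool.Agent.P.MP_c1f06d_ag.g.Pts
import Pool.Agent.P.MP_c1f06d_ag.g.Hopf
import Pool.Agent.P.MP_c1f06d_ag.PresEx
import Pool.Agent.P.MP_c1f06d_ag.Dom

/-! The Zariski topology on the rational points of an affine algebraic group. -/

open TopologicalSpace Set WithConv Pool.Agent.RG Pool.Agent.GR Pool.Agent.GR.Hp

universe u

namespace Pool.Agent.RED.Ent

section alg

/-- A smooth algebra over a field is reduced. -/
theorem smooth_reduced (k : Type u) [Field k] (B : Type u) [CommRing B] [Algebra k B]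
    [Algebra.Smooth k B] : IsReduced B := by
  refine isReduced_ofLocalizationMaximal B fun p hp => ?_
  obtain ⟨d, π, G, h1, h2, h3⟩ :=
    P.MP_c1f06d_ag.exists_locPres_of_smooth k B (Localization.AtPrime p) p
  obtain ⟨V, _, _, _, π', G', h⟩ := P.MP_c1f06d_ag.exists_pres_of_locPres π G h1 h2 h3
  have := h.isDomain
  infer_instance

variable {Ω B : Type u} [Field Ω] [IsAlgClosed Ω] [CommRing B] [Algebra Ω B]
  [Algebra.FiniteType Ω B]

theorem exists_pt {m : Ideal B} (hm : m.IsMaximal) : ∃ φ : B →ₐ[Ω] Ω, ∀ f, φ f = 0 ↔ f ∈ m := by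
  have : IsJacobsonRing B := isJacobsonRing_of_finiteType (A := Ω)
  let := Ideal.Quotient.field m
  have : Module.Finite Ω (B ⧸ m) := finite_of_finite_type_of_isJacobsonRing Ω (B ⧸ m)
  have hb : Function.Bijective (algebraMap Ω (B ⧸ m)) :=
    IsAlgClosed.algebraMap_bijective_of_isIntegral
  let e := AlgEquiv.ofBijective (Algebra.ofId Ω (B ⧸ m)) hb
  refine ⟨e.symm.toAlgHom.comp (Ideal.Quotient.mkₐ Ω m), fun f => ?_⟩
  rw [← Ideal.Quotient.eq_zero_iff_mem]
  exact map_eq_zero_iff e.symm e.symm.injective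

/-- The Nullstellensatz. -/
theorem eq_zero_of_pts [IsReduced B] (f : B) (hf : ∀ φ : B →ₐ[Ω] Ω, φ f = 0) : f = 0 := by
  have : IsJacobsonRing B := isJacobsonRing_of_finiteType (A := Ω)
  have h1 : (⊥ : Ideal B).jacobson = ⊥ := IsJacobsonRing.out ‹_› Ideal.isRadical_bot
  rw [← Ideal.mem_bot, ← h1, Ideal.jacobson, Ideal.mem_sInf]
  rintro m ⟨-, hm⟩
  obtain ⟨φ, hφ⟩ := exists_pt (Ω := Ω) hm
  exact (hφ f).1 (hf φ)

end alg

variable {Ω B : Type u} [Field Ω] [CommRing B] [HopfAlgebra Ω B]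

/-- The prime ideal of a point. -/
def toSpec (g : WithConv (B →ₐ[Ω] Ω)) : PrimeSpectrum B :=
  ⟨RingHom.ker g.ofConv, RingHom.ker_isPrime _⟩

/-- The Zariski topology. -/
@[reducible] def zar : TopologicalSpace (WithConv (B →ₐ[Ω] Ω)) := induced toSpec inferInstance

attribute [local instance] zar

theorem isClosed_iff {Z : Set (WithConv (B →ₐ[Ω] Ω))} :
    IsClosed Z ↔ ∃ S : Set B, ∀ g, g ∈ Z ↔ ∀ f ∈ S, g.ofConv f = 0 := by
  rw [isClosed_induced_iff]
  constructor
  · rintro ⟨t, ht, rfl⟩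
    obtain ⟨S, rfl⟩ := (PrimeSpectrum.isClosed_iff_zeroLocus t).1 ht
    exact ⟨S, fun g => Iff.rfl⟩
  · rintro ⟨S, hS⟩
    exact ⟨_, PrimeSpectrum.isClosed_zeroLocus S, Set.ext fun g => (hS g).symm⟩

theorem isClosed_zero (f : B) : IsClosed {g : WithConv (B →ₐ[Ω] Ω) | g.ofConv f = 0} :=
  isClosed_iff.2 ⟨{f}, fun g => by simp⟩

theorem cont_word (w : WithConv (B →ₐ[Ω] B)) :
    Continuous fun x : WithConv (B →ₐ[Ω] Ω) => ptMap x.ofConv w := by
  refine continuous_iff_isClosed.2 fun Z hZ => ?_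
  obtain ⟨S, hS⟩ := isClosed_iff.1 hZ
  refine isClosed_iff.2 ⟨w.ofConv '' S, fun g => ?_⟩
  rw [mem_preimage, hS, forall_mem_image]
  rfl

/-- The universal point. -/
def uP : WithConv (B →ₐ[Ω] B) := toConv (AlgHom.id Ω B)

/-- A rational point as a point over `B`. -/
noncomputable def cP (a : WithConv (B →ₐ[Ω] Ω)) : WithConv (B →ₐ[Ω] B) :=
  ptMap (Algebra.ofId Ω B) a

theorem ptMap_uP {T : Type u} [CommRing T] [Algebra Ω T] (x : WithConv (B →ₐ[Ω] T)) :
    ptMap x.ofConv uP = x := rfl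

theorem ptMap_cP (x a : WithConv (B →ₐ[Ω] Ω)) : ptMap x.ofConv (cP a) = a :=
  WithConv.ext (AlgHom.ext fun _ => x.ofConv.commutes _)

theorem cont_mul (a b : WithConv (B →ₐ[Ω] Ω)) : Continuous fun x => a * x * b := by
  refine (cont_word (cP a * uP * cP b)).congr fun x => ?_
  rw [(ptMap x.ofConv).map_mul, (ptMap x.ofConv).map_mul, ptMap_uP, ptMap_cP, ptMap_cP]

theorem cont_inv : Continuous fun x : WithConv (B →ₐ[Ω] Ω) => x⁻¹ := by
  have h := cont_word (Ω := Ω) (B := B) uP⁻¹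
  simp only [map_inv, ptMap_uP] at h
  exact h

theorem cont_comm (a : WithConv (B →ₐ[Ω] Ω)) : Continuous fun x => x * a * x⁻¹ := by
  have h := cont_word (uP * cP a * uP⁻¹)
  simp only [map_mul, map_inv, ptMap_uP, ptMap_cP] at h
  exact h

theorem zar_t1 : T1Space (WithConv (B →ₐ[Ω] Ω)) := by
  refine ⟨fun a => isClosed_iff.2 ⟨{f | a.ofConv f = 0}, fun g => ⟨?_, fun h => ?_⟩⟩⟩
  · rintro rfl f hf
    exact hf
  · refine WithConv.ext (AlgHom.ext fun f => ?_)
    have := h (f - algebraMap Ω B (a.ofConv f)) (by simp)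
    simpa [sub_eq_zero] using this

theorem zar_noeth [Algebra.FiniteType Ω B] : NoetherianSpace (WithConv (B →ₐ[Ω] Ω)) := by
  have := Algebra.FiniteType.isNoetherianRing Ω B
  exact Topology.IsInducing.noetherianSpace (i := toSpec) ⟨rfl⟩

/-- The ideal of a set of points. -/
def vanI (Z : Set (WithConv (B →ₐ[Ω] Ω))) : Ideal B where
  carrier := {f | ∀ g ∈ Z, g.ofConv f = 0}
  zero_mem' := fun _ _ => map_zero _
  add_mem' := fun ha hb g hg => by rw [map_add, ha g hg, hb g hg, add_zero]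
  smul_mem' := fun c _ ha g hg => by rw [smul_eq_mul, map_mul, ha g hg, mul_zero]

theorem mem_iff_vanI {Z : Set (WithConv (B →ₐ[Ω] Ω))} (hZ : IsClosed Z) (g) :
    g ∈ Z ↔ ∀ f ∈ vanI Z, g.ofConv f = 0 := by
  refine ⟨fun h f hf => hf g h, fun h => ?_⟩
  obtain ⟨S, hS⟩ := isClosed_iff.1 hZ
  exact (hS g).2 fun f hf => h f fun x hx => (hS x).1 hx f hf

theorem vanI_prime {Z : Set (WithConv (B →ₐ[Ω] Ω))} (hZ : IsIrreducible Z) : (vanI Z).IsPrime := by
  refine ⟨fun h => ?_, fun {f f'} h => ?_⟩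
  · obtain ⟨g, hg⟩ := hZ.nonempty
    have := (Ideal.eq_top_iff_one _).1 h g hg
    simp at this
  · exact isPreirreducible_iff_isClosed_union_isClosed.1 hZ.2 _ _ (isClosed_zero f)
      (isClosed_zero f') fun g hg => mul_eq_zero.1 (by rw [← map_mul]; exact h g hg)

/-- A closed normal subgroup that consists of unipotent elements is finite. -/
theorem finite_of_closed [Algebra.FiniteType Ω B] (hB : IsConnReductive Ω B)
    (K : Subgroup (WithConv (B →ₐ[Ω] Ω))) [K.Normal] (hK : IsClosed (K : Set (WithConv (B →ₐ[Ω] Ω))))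
    (hu : ∀ g ∈ K, IsUnipotent g) : (K : Set (WithConv (B →ₐ[Ω] Ω))).Finite := by
  have := zar_noeth (Ω := Ω) (B := B)
  obtain ⟨U, h1, h2, h3, h4, s, hs, h5⟩ := exists_comp cont_mul K hK
  have h6 := hB.red U _ (vanI_prime h4) (mem_iff_vanI h3) h2 fun g hg => hu g (h1 hg)
  refine hs.subset fun x hx => ?_
  obtain ⟨a, ha, h7⟩ := h5 x hx
  rw [h6, Subgroup.mem_bot, inv_mul_eq_one] at h7
  exact h7 ▸ ha

/-- The coordinate ring of a smooth connected group is a domain. -/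
theorem isDomain_of_conn [IsAlgClosed Ω] [Algebra.Smooth Ω B] [ConnectedSpace (PrimeSpectrum B)] :
    IsDomain B := by
  have := zar_noeth (Ω := Ω) (B := B)
  have := smooth_reduced Ω B
  obtain ⟨U, -, -, h3, h4, s, hs, h5⟩ :=
    exists_comp (G := WithConv (B →ₐ[Ω] Ω)) cont_mul ⊤ (by simp)
  have hc : IsClosed (U : Set (WithConv (B →ₐ[Ω] Ω)))ᶜ := by
    have e : (U : Set (WithConv (B →ₐ[Ω] Ω)))ᶜ =
        ⋃ a ∈ {a ∈ s | a ∉ U}, (fun x => a⁻¹ * x * 1) ⁻¹' (U : Set _) := by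
      ext x
      simp only [mem_compl_iff, SetLike.mem_coe, mem_ofPred_eq, mul_one, mem_iUnion, mem_preimage,
        exists_prop]
      constructor
      · intro hx
        obtain ⟨a, ha, h⟩ := h5 x trivial
        exact ⟨a, ⟨ha, fun h' => hx (by simpa using U.mul_mem h' h)⟩, h⟩
      · rintro ⟨a, ⟨-, ha⟩, h⟩ hx
        exact ha (by simpa using U.mul_mem hx (U.inv_mem h))
    rw [e]
    exact (hs.subset fun a ha => ha.1).isClosed_biUnion fun a _ => h3.preimage (cont_mul _ _)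
  have hP := vanI_prime h4
  set I := vanI (U : Set (WithConv (B →ₐ[Ω] Ω)))
  set J := vanI (U : Set (WithConv (B →ₐ[Ω] Ω)))ᶜ
  have hmul : ∀ f ∈ I, ∀ f' ∈ J, f * f' = 0 := fun f hf f' hf' =>
    eq_zero_of_pts (Ω := Ω) _ fun φ => by
      rw [map_mul]
      by_cases h : toConv φ ∈ U
      · rw [show φ f = 0 from hf _ h, zero_mul]
      · rw [show φ f' = 0 from hf' _ h, mul_zero]
  have hsup : I ⊔ J = ⊤ := by
    by_contra h
    obtain ⟨m, hm, hle⟩ := Ideal.exists_le_maximal _ h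
    obtain ⟨φ, hφ⟩ := exists_pt (Ω := Ω) hm
    exact (mem_iff_vanI hc (toConv φ)).2 (fun f hf => (hφ f).2 (hle (Ideal.mem_sup_right hf)))
      ((mem_iff_vanI h3 (toConv φ)).2 fun f hf => (hφ f).2 (hle (Ideal.mem_sup_left hf)))
  have hcompl : (PrimeSpectrum.zeroLocus (I : Set B))ᶜ = PrimeSpectrum.zeroLocus (J : Set B) := by
    ext p
    simp only [mem_compl_iff, PrimeSpectrum.mem_zeroLocus, SetLike.coe_subset_coe]
    constructor
    · intro h f' hf'
      by_contra h'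
      exact h fun f hf => (p.2.mem_or_mem (hmul f hf f' hf' ▸ p.1.zero_mem)).resolve_right h'
    · intro h h'
      exact p.2.ne_top (top_le_iff.1 (hsup ▸ sup_le h' h))
  have hcl : IsClopen (PrimeSpectrum.zeroLocus (I : Set B)) :=
    ⟨PrimeSpectrum.isClosed_zeroLocus _, by
      rw [← isClosed_compl_iff, hcompl]
      exact PrimeSpectrum.isClosed_zeroLocus _⟩
  have huniv := hcl.eq_univ ⟨⟨I, hP⟩, fun _ h => h⟩
  have hI : I = ⊥ := by
    refine eq_bot_iff.2 fun f hf => eq_zero_of_pts (Ω := Ω) f fun φ => ?_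
    have : toSpec (toConv φ) ∈ PrimeSpectrum.zeroLocus (I : Set B) := huniv ▸ trivial
    exact this hf
  rw [hI] at hP
  exact IsDomain.of_bot_isPrime B

theorem irred_univ [IsAlgClosed Ω] [Algebra.FiniteType Ω B] [IsDomain B] :
    IsIrreducible (univ : Set (WithConv (B →ₐ[Ω] Ω))) := by
  refine ⟨⟨1, trivial⟩, isPreirreducible_iff_isClosed_union_isClosed.2 fun Z Z' hZ hZ' h => ?_⟩
  by_contra hc
  obtain ⟨h1, h2⟩ := not_or.1 hc
  obtain ⟨x, -, hx⟩ := not_subset.1 h1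
  obtain ⟨y, -, hy⟩ := not_subset.1 h2
  rw [mem_iff_vanI hZ] at hx
  rw [mem_iff_vanI hZ'] at hy
  push Not at hx hy
  obtain ⟨f, hf, hx⟩ := hx
  obtain ⟨f', hf', hy⟩ := hy
  have : f * f' = 0 := eq_zero_of_pts (Ω := Ω) _ fun φ => by
    rw [map_mul]
    rcases h (mem_univ (toConv φ)) with h | h
    · rw [show φ f = 0 from hf _ h, zero_mul]
    · rw [show φ f' = 0 from hf' _ h, mul_zero]
  rcases mul_eq_zero.1 this with h | h
  · exact hx (by rw [h, map_zero])
  · exact hy (by rw [h, map_zero])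

/-- A word map with finitely many values is constant. -/
theorem word_const [IsAlgClosed Ω] [Algebra.FiniteType Ω B] [IsDomain B]
    (w : WithConv (B →ₐ[Ω] B))
    (hw : (range fun x : WithConv (B →ₐ[Ω] Ω) => ptMap x.ofConv w).Finite)
    (x y : WithConv (B →ₐ[Ω] Ω)) : ptMap x.ofConv w = ptMap y.ofConv w := by
  have := zar_t1 (Ω := Ω) (B := B)
  exact const_of_finite irred_univ (cont_word w) hw x y

/-- An element with finitely many conjugates is central. -/
theorem central_of_finite [IsAlgClosed Ω] [Algebra.FiniteType Ω B] [IsDomain B]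
    (a : WithConv (B →ₐ[Ω] Ω)) (ha : (range fun x : WithConv (B →ₐ[Ω] Ω) => x * a * x⁻¹).Finite)
    (x : WithConv (B →ₐ[Ω] Ω)) : x * a = a * x := by
  have := zar_t1 (Ω := Ω) (B := B)
  have h := const_of_finite irred_univ (cont_comm a) ha x 1
  simp only [one_mul, inv_one, mul_one] at h
  exact mul_inv_eq_iff_eq_mul.1 h

end Pool.Agent.RED.Ent
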