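import Pool.Agent.P.MP_c1f06d_ag.g.HsBru

open Matrix

universe u

namespace Pool.Agent.GR

theorem hsOne_addHom {r : ℕ} (D : Finset (Fin r → ℤ)) (hD : ∀ d ∈ D, d ≠ 0) :
    ∃ μ : (Fin r → ℤ) →+ ℤ, ∀ d ∈ D, μ d ≠ 0 := by
  let L : (Fin r → ℤ) → MvPolynomial (Fin r) ℤ := fun d =>
    ∑ j, MvPolynomial.C (d j) * MvPolynomial.X j
  have hL : ∀ d t, MvPolynomial.eval t (L d) = ∑ j, d j * t j := fun d t => by simp [L]
  have h1 : ∏ d ∈ D, L d ≠ 0 := Finset.prod_ne_zero_iff.2 fun d hd e => hD d hd (funext fun j => by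
    have := hL d (Pi.single j 1)
    rw [e, map_zero] at this
    simpa [Pi.single_apply] using this.symm)
  obtain ⟨t, ht⟩ : ∃ t, MvPolynomial.eval t (∏ d ∈ D, L d) ≠ 0 := by
    by_contra hc
    exact h1 (MvPolynomial.funext fun t => by
      rw [map_zero]
      exact not_not.1 fun e => hc ⟨t, e⟩)
  rw [map_prod, Finset.prod_ne_zero_iff] at ht
  refine ⟨⟨⟨fun d => ∑ j, d j * t j, by simp⟩, fun a b => ?_⟩, fun d hd => hL d t ▸ ht d hd⟩
  simp [add_mul, Finset.sum_add_distrib]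

theorem hsOne_sep {n r : ℕ} (χ : Fin n → Fin r → ℤ) {α : Fin r → ℤ} (hα : α ≠ 0) :
    ∃ μ : (Fin r → ℤ) →+ ℤ, (∀ i j, μ (χ i) = μ (χ j) → χ i = χ j) ∧ 0 < μ α := by
  obtain ⟨μ, hμ⟩ := hsOne_addHom (insert α ((Finset.univ.image fun p : Fin n × Fin n =>
    χ p.1 - χ p.2).filter (· ≠ 0))) fun d hd => by
      rcases Finset.mem_insert.1 hd with e | e
      · rwa [e]
      · exact (Finset.mem_filter.1 e).2
  have h1 : ∀ i j, μ (χ i) = μ (χ j) → χ i = χ j := fun i j e => by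
    by_contra hc
    exact hμ (χ i - χ j) (Finset.mem_insert_of_mem (Finset.mem_filter.2
      ⟨Finset.mem_image.2 ⟨(i, j), Finset.mem_univ _, rfl⟩, sub_ne_zero.2 hc⟩))
      (by rw [map_sub, e, sub_self])
  rcases lt_or_gt_of_ne (hμ α (Finset.mem_insert_self _ _)) with e | e
  · exact ⟨-μ, fun i j e => h1 i j (neg_injective e), neg_pos.2 e⟩
  · exact ⟨μ, h1, e⟩

theorem hsOne_sub {k ι : Type*} [Field k] [IsAlgClosed k] (f : MvPolynomial ι k)
    (h : ∀ s, MvPolynomial.eval s f = 0 ↔ s = 0) : Subsingleton ι := by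
  classical
  refine ⟨fun i j => by_contra fun hij => ?_⟩
  have h1 : ∀ u v : ι → k, ∃ q : Polynomial k, ∀ y,
      q.eval y = MvPolynomial.eval (u + y • v) f := fun u v =>
    ⟨MvPolynomial.aeval (fun l => Polynomial.C (u l) + Polynomial.X * Polynomial.C (v l)) f,
      fun y => by
        rw [← Polynomial.coe_aeval_eq_eval, ← AlgHom.comp_apply, MvPolynomial.comp_aeval]
        simp only [map_add, map_mul, Polynomial.aeval_C, Polynomial.aeval_X]
        rfl⟩
  have h2 : ∀ x : k, x ≠ 0 → MvPolynomial.eval (Pi.single j 1 + x • Pi.single i 1) f =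
      MvPolynomial.eval (0 + x • Pi.single i 1) f := fun x hx => by
    obtain ⟨q, hq⟩ := h1 (x • Pi.single i 1) (Pi.single j 1)
    have h3 : q.degree = 0 := by
      by_contra hc
      obtain ⟨y, hy⟩ := IsAlgClosed.exists_root q hc
      have := congrFun ((h _).1 ((hq y).symm.trans hy)) i
      simp [hij, hx] at this
    have h4 := hq 1
    have h5 := hq 0
    rw [Polynomial.eq_C_of_degree_eq_zero h3, Polynomial.eval_C] at h4 h5
    rw [one_smul, add_comm] at h4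
    rw [zero_smul, add_comm] at h5
    rw [← h4, ← h5]
  obtain ⟨q, hq⟩ := h1 (Pi.single j 1) (Pi.single i 1)
  obtain ⟨q', hq'⟩ := h1 0 (Pi.single i 1)
  have h6 : q = q' := Polynomial.eq_of_infinite_eval_eq q q'
    ((Set.finite_singleton (0 : k)).infinite_compl.mono fun x hx => by
      show q.eval x = q'.eval x
      rw [hq, hq', h2 x hx])
  have h7 := hq 0
  rw [h6, hq', zero_smul, add_zero, add_zero, (h 0).2 rfl] at h7
  simpa using congrFun ((h _).1 h7.symm) j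

namespace HS

variable {k : Type u} [Field k] {n r r' : ℕ} {H : HS k n} {χ : Fin n → Fin r → ℤ}

theorem ZT.one [IsAlgClosed k] (Z : H.ZT χ) {α : Fin r → ℤ} {ι : Type} [Finite ι] [Nonempty ι]
    {deg : ι → Fin r → ℤ} {X : GL (Fin n) (MvPolynomial ι k)}
    (hX : H.MChart χ (mray α) deg X) :
    Subsingleton ι ∧ ∃ g ∈ H.G k, SuppU χ (mray (-α)) (g : Mat n k) ∧ g ≠ 1 := by
  let x : (ι → k) → GL (Fin n) k := fun s => gm (MvPolynomial.aeval s) X
  have hx : ∀ s, x s ∈ H.G k ∧ SuppU χ (mray α) (x s : Mat n k) := fun s =>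
    (hX.bij k).mapsTo (Set.mem_univ s)
  have hx1 : ∀ s, x s = 1 → s = 0 := fun s e =>
    (hX.bij k).injOn (Set.mem_univ s) (Set.mem_univ 0) (e.trans hX.zero.symm)
  have h10 : (1 : ι → k) ≠ 0 := one_ne_zero
  have hα : α ≠ 0 := by
    rintro rfl
    refine h10 (hx1 1 (Units.ext (sub_eq_zero.1 (Matrix.ext fun i j => (hx 1).2 i j ?_))))
    refine or_iff_not_imp_left.2 fun e => ?_
    obtain ⟨p, q, hq, e⟩ := not_not.1 e
    rw [smul_zero, smul_eq_zero] at e
    exact sub_eq_zero.1 (e.resolve_left hq.ne')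
  obtain ⟨μ, hμ, hμα⟩ := hsOne_sep χ (neg_ne_zero.2 hα)
  have h1 : ∀ s, s ≠ 0 → ∃ w ∈ H.G k, ∃ σ, Flip χ (-α) w σ ∧ ∀ m, IsUnit
      (De (fun i => μ (χ i)) m ((w⁻¹ * x s : GL (Fin n) k) : Mat n k)) := fun s hs => by
    obtain ⟨hU, hl⟩ := (suppU_iff (μ := -μ) (by simpa using hμα)).1 (hx s).2
    refine (Z.bru hμ hμα (hx s).1 fun i j e => hl i j fun ⟨p, q, hq, e'⟩ =>
      e ⟨-p, q, hq, by rw [e', neg_smul_neg]⟩).resolve_left fun hP => hs (hx1 s (Units.ext ?_))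
    have hU' : InU (-fun i => μ (χ i)) (x s : Mat n k) := hU
    rw [← (hP.inL hU'.1).lv_eq, ← lv_neg]
    exact hU'.2
  obtain ⟨w, hw, σ, hF, -⟩ := h1 1 h10
  refine ⟨?_, w * x 1 * w⁻¹, mul_mem (mul_mem hw (hx 1).1) (inv_mem hw), ?_, fun e =>
    h10 (hx1 1 (by simpa using e))⟩
  · let f : MvPolynomial ι k := ∏ i, De (fun i => μ (χ i)) (μ (χ i))
      ((gm (Algebra.ofId k (MvPolynomial ι k)) w⁻¹ * X : GL (Fin n) _) : Mat n _)
    have hf : ∀ s, MvPolynomial.eval s f = ∏ i, De (fun i => μ (χ i)) (μ (χ i))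
        ((w⁻¹ * x s : GL (Fin n) k) : Mat n k) := fun s => by
      have e : gm (MvPolynomial.aeval s) (gm (Algebra.ofId k (MvPolynomial ι k)) w⁻¹ * X) =
          w⁻¹ * x s := by
        rw [map_mul, gm_comp, Subsingleton.elim ((MvPolynomial.aeval s).comp _) (AlgHom.id k k)]
        rfl
      rw [map_prod, ← e]
      exact Finset.prod_congr rfl fun i _ => (De_map _ _ _ _).symm
    refine hsOne_sub f fun s => ⟨fun e => by_contra fun hs => ?_, ?_⟩
    · obtain ⟨w', -, σ', hF', hd⟩ := h1 s hs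
      have hl := (Flip.uniq Z.span (neg_ne_zero.2 hα) hF hF').2
      have hl' : InP (-fun i => μ (χ i)) ((w⁻¹ * w' : GL (Fin n) k) : Mat n k) :=
        InL.inP' fun i j e => hl i j fun e' => e (congrArg μ e')
      rw [hf, Finset.prod_eq_zero_iff] at e
      obtain ⟨i, -, hi⟩ := e
      have e2 : w⁻¹ * x s = w⁻¹ * w' * (w'⁻¹ * x s) := by group
      rw [e2, Units.val_mul (w⁻¹ * w'), De_mul_left hl'] at hi
      exact ((hl'.isUnit_De' _).mul (hd _)).ne_zero hi
    · rintro rfl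
      obtain ⟨i, hi⟩ := Flip.De_eq_zero Z.span hμα.ne' hF.inv
      rw [hf, show x 0 = 1 from hX.zero, mul_one]
      exact Finset.prod_eq_zero (Finset.mem_univ i) hi
  · have hF2 := hF.neg'
    rw [neg_neg] at hF2
    exact hF2.suppU (hx 1).2

end HS

end Pool.Agent.GR
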