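import Pool.Agent.P.MP_c1f06d_ag.g.RCa

open Finset

namespace Pool.Agent.RED

namespace RC

variable {M : Type} [AddCommGroup M] {D : RC M} {μ : M →+ ℤ} {α β γ : M}

/-- Fundamental coweights `ν α` up to the common factor `N`. -/
structure Cow (D : RC M) (μ : M →+ ℤ) where
  N : ℤ
  ν : M → M →+ ℤ
  pos : 0 < N
  self : ∀ α ∈ D.Δ μ, ν α α = N
  ne : ∀ α ∈ D.Δ μ, ∀ δ ∈ D.Δ μ, δ ≠ α → ν α δ = 0

theorem Reg.cow (hμ : D.Reg μ) : Nonempty (Cow D μ) :=
  let ⟨N, ν, h1, h2, h3⟩ := exists_cow hμ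
  ⟨⟨N, ν, h1, h2, h3⟩⟩

theorem Reg.mem_span (hμ : D.Reg μ) (h : β ∈ D.Φ) : β ∈ AddSubgroup.closure (D.Δ μ : Set M) := by
  have key : ∀ x ∈ D.Pos μ, x ∈ AddSubgroup.closure (D.Δ μ : Set M) := fun x hx =>
    AddSubmonoid.closure_le (S := (AddSubgroup.closure (D.Δ μ : Set M)).toAddSubmonoid).2
      AddSubgroup.subset_closure (Pos_closure hx)
  rcases hμ.pos_or_neg h with h1 | h1
  · exact key _ h1
  · exact neg_mem_iff.1 (key _ h1)

theorem Reg.span_eq (hμ : D.Reg μ) :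
    AddSubgroup.closure (D.Φ : Set M) = AddSubgroup.closure (D.Δ μ : Set M) :=
  le_antisymm ((AddSubgroup.closure_le _).2 fun _ h => hμ.mem_span h)
    (AddSubgroup.closure_mono fun _ h => Δ_Φ h)

namespace Cow

variable (W : Cow D μ)

/-- The coordinate of `x` at the simple root `l`. -/
def crd (l x : M) : ℤ := W.ν l x / W.N

theorem dvd {l x : M} (hl : l ∈ D.Δ μ) (hx : x ∈ AddSubgroup.closure (D.Δ μ : Set M)) :
    W.N ∣ W.ν l x := by
  induction hx using AddSubgroup.closure_induction with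
  | mem x hx =>
    by_cases e : x = l
    · rw [e, W.self l hl]
    · rw [W.ne l hl x hx e]
      exact dvd_zero _
  | zero => simp
  | add x y _ _ hx hy => rw [map_add]; exact dvd_add hx hy
  | neg x _ hx => rw [map_neg]; exact hx.neg_right

theorem mul_crd {l x : M} (hl : l ∈ D.Δ μ) (hx : x ∈ AddSubgroup.closure (D.Δ μ : Set M)) :
    W.N * W.crd l x = W.ν l x := Int.mul_ediv_cancel' (W.dvd hl hx)

theorem crd_add {l x y : M} (hl : l ∈ D.Δ μ) (hx : x ∈ AddSubgroup.closure (D.Δ μ : Set M))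
    (hy : y ∈ AddSubgroup.closure (D.Δ μ : Set M)) : W.crd l (x + y) = W.crd l x + W.crd l y :=
  mul_left_cancel₀ W.pos.ne' (by
    rw [mul_add, W.mul_crd hl hx, W.mul_crd hl hy, W.mul_crd hl (add_mem hx hy), map_add])

theorem crd_neg {l x : M} (hl : l ∈ D.Δ μ) (hx : x ∈ AddSubgroup.closure (D.Δ μ : Set M)) :
    W.crd l (-x) = -W.crd l x :=
  mul_left_cancel₀ W.pos.ne' (by
    rw [mul_neg, W.mul_crd hl hx, W.mul_crd hl (AddSubgroup.neg_mem _ hx), map_neg])

theorem crd_sub {l x y : M} (hl : l ∈ D.Δ μ) (hx : x ∈ AddSubgroup.closure (D.Δ μ : Set M))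
    (hy : y ∈ AddSubgroup.closure (D.Δ μ : Set M)) : W.crd l (x - y) = W.crd l x - W.crd l y := by
  rw [sub_eq_add_neg, W.crd_add hl hx (AddSubgroup.neg_mem _ hy), W.crd_neg hl hy, sub_eq_add_neg]

theorem crd_zero (l : M) : W.crd l 0 = 0 := by simp [crd]

theorem crd_self {l : M} (hl : l ∈ D.Δ μ) : W.crd l l = 1 := by
  rw [crd, W.self l hl, Int.ediv_self W.pos.ne']

theorem crd_ne {l x : M} (hl : l ∈ D.Δ μ) (hx : x ∈ D.Δ μ) (e : x ≠ l) : W.crd l x = 0 := by
  rw [crd, W.ne l hl x hx e, Int.zero_ediv]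

/-- Expansion in simple roots. -/
theorem sum_crd {x : M} (hx : x ∈ AddSubgroup.closure (D.Δ μ : Set M)) :
    ∑ l ∈ D.Δ μ, W.crd l x • l = x := by
  induction hx using AddSubgroup.closure_induction with
  | mem x hx =>
    rw [Finset.sum_eq_single_of_mem x hx fun l hl e => by rw [W.crd_ne hl hx e.symm, zero_smul],
      W.crd_self hx, one_smul]
  | zero => simp [crd_zero]
  | add x y hx' hy' hx hy =>
    rw [Finset.sum_congr rfl fun l hl => by rw [W.crd_add hl hx' hy', add_smul],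
      Finset.sum_add_distrib, hx, hy]
  | neg x hx' hx =>
    rw [Finset.sum_congr rfl fun l hl => by rw [W.crd_neg hl hx', neg_smul],
      Finset.sum_neg_distrib, hx]

theorem ν_nonneg' {l x : M} (hl : l ∈ D.Δ μ) (hx : x ∈ AddSubmonoid.closure (D.Δ μ : Set M)) :
    0 ≤ W.ν l x := by
  induction hx using AddSubmonoid.closure_induction with
  | mem x hx =>
    by_cases e : x = l
    · rw [e, W.self l hl]
      exact W.pos.le
    · rw [W.ne l hl x hx e]
  | zero => simp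
  | add x y _ _ hx hy => rw [map_add]; exact add_nonneg hx hy

theorem ν_nonneg {l : M} (hl : l ∈ D.Δ μ) (h : β ∈ D.Pos μ) : 0 ≤ W.ν l β :=
  W.ν_nonneg' hl (Pos_closure h)

theorem crd_nonneg {l : M} (hl : l ∈ D.Δ μ) (h : β ∈ D.Pos μ) : 0 ≤ W.crd l β :=
  Int.ediv_nonneg (W.ν_nonneg hl h) W.pos.le

/-- A positive root other than the simple root `α` involves another simple root. -/
theorem exists_ν_pos (hμ : D.Reg μ) (hα : α ∈ D.Δ μ) (h : β ∈ D.Pos μ) (hne : β ≠ α) :
    ∃ δ ∈ D.Δ μ, δ ≠ α ∧ 0 < W.ν δ β := by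
  by_contra hc
  push Not at hc
  have h1 := W.sum_crd (hμ.mem_span (mem_Pos.1 h).1)
  rw [Finset.sum_eq_single_of_mem α hα fun l hl e => by
    rw [crd, le_antisymm (hc l hl e) (W.ν_nonneg hl h), Int.zero_ediv, zero_smul]] at h1
  rcases D.red α (Δ_Φ hα) β (mem_Pos.1 h).1 _ 1 one_ne_zero (by rw [one_smul, h1]) with e | e
  · exact hne e
  · have h2 := (mem_Pos.1 h).2
    have h3 := Δ_pos hα
    rw [e, map_neg] at h2
    omega

end Cow

/-- A simple reflection permutes the other positive roots. -/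
theorem Reg.s_Pos (hμ : D.Reg μ) (hα : α ∈ D.Δ μ) (h : β ∈ D.Pos μ) (hne : β ≠ α) :
    D.s α β ∈ D.Pos μ := by
  obtain ⟨W⟩ := hμ.cow
  obtain ⟨δ, hδ, hd, hp⟩ := W.exists_ν_pos hμ hα h hne
  refine (hμ.pos_or_neg (s_mem (Δ_Φ hα) (mem_Pos.1 h).1)).resolve_right fun h1 => ?_
  have h2 := W.ν_nonneg hδ h1
  rw [map_neg, s_apply, map_sub, map_zsmul, W.ne δ hδ α hα hd.symm, smul_zero] at h2
  omega

theorem Reg.s_Pos_ne (hα : α ∈ D.Δ μ) (h : β ∈ D.Pos μ) : D.s α β ≠ α := fun e => by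
  have h1 := s_s (Δ_Φ hα) β
  rw [e, s_self (Δ_Φ hα)] at h1
  have h2 := (mem_Pos.1 h).2
  have h3 := Δ_pos hα
  rw [← h1, map_neg] at h2
  omega

/-- A cocharacter that kills the simple root `α` and is positive on the other positive roots. -/
theorem Reg.exists_wall (hμ : D.Reg μ) (hα : α ∈ D.Δ μ) :
    ∃ κ : M →+ ℤ, κ α = 0 ∧ ∀ β ∈ D.Pos μ, β ≠ α → 0 < κ β := by
  classical
  obtain ⟨W⟩ := hμ.cow
  refine ⟨∑ δ ∈ (D.Δ μ).erase α, W.ν δ, ?_, fun β h hne => ?_⟩
  · rw [AddMonoidHom.finsetSum_apply]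
    exact Finset.sum_eq_zero fun δ hδ =>
      W.ne δ (Finset.mem_of_mem_erase hδ) α hα (Finset.ne_of_mem_erase hδ).symm
  · obtain ⟨δ, hδ, hd, hp⟩ := W.exists_ν_pos hμ hα h hne
    rw [AddMonoidHom.finsetSum_apply]
    exact Finset.sum_pos' (fun l hl => W.ν_nonneg (Finset.mem_of_mem_erase hl) h)
      ⟨δ, Finset.mem_erase.2 ⟨hd, hδ⟩, hp⟩

/-- A cocharacter positive on `α` and on `-β`, for distinct simple roots. -/
theorem Reg.exists_mixed (hμ : D.Reg μ) (hα : α ∈ D.Δ μ) (hβ : β ∈ D.Δ μ) (hne : β ≠ α) :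
    ∃ l : M →+ ℤ, 0 < l α ∧ 0 < l (-β) := by
  obtain ⟨W⟩ := hμ.cow
  refine ⟨W.ν α - W.ν β, ?_, ?_⟩
  · rw [AddMonoidHom.sub_apply, W.self α hα, W.ne β hβ α hα hne.symm, sub_zero]
    exact W.pos
  · rw [map_neg, AddMonoidHom.sub_apply, W.self β hβ, W.ne α hα β hβ hne, zero_sub, neg_neg]
    exact W.pos

theorem eq_of_nsmul (hα : α ∈ D.Φ) (a : ℕ) (h : a • α ∈ D.Φ) : a • α = α := by
  rcases D.red α hα _ h a 1 one_ne_zero (by rw [one_smul, natCast_zsmul]) with e | e
  · exact e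
  · have := congrArg (D.cor α) e
    rw [map_neg, map_nsmul, D.two α hα, nsmul_eq_mul] at this
    omega

/-- The only roots `a α - b β` are `α` and `-β`. -/
theorem Reg.mixed (hμ : D.Reg μ) (hα : α ∈ D.Δ μ) (hβ : β ∈ D.Δ μ) (hne : β ≠ α) (a b : ℕ)
    (h : a • α + b • (-β) ∈ D.Φ) : a • α + b • (-β) = α ∨ a • α + b • (-β) = -β := by
  obtain ⟨W⟩ := hμ.cow
  have hN := W.pos
  rcases hμ.pos_or_neg h with h1 | h1
  · have h2 := W.ν_nonneg hβ h1
    rw [map_add, map_nsmul, map_nsmul, map_neg, W.self β hβ, W.ne β hβ α hα hne.symm, smul_zero,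
      nsmul_eq_mul] at h2
    have hb : b = 0 := by
      by_contra hb
      nlinarith [(show (1 : ℤ) ≤ b by omega)]
    rw [hb, zero_smul, add_zero] at h ⊢
    exact Or.inl (eq_of_nsmul (Δ_Φ hα) a h)
  · have h2 := W.ν_nonneg hα h1
    rw [map_neg, map_add, map_nsmul, map_nsmul, map_neg, W.self α hα, W.ne α hα β hβ hne, neg_zero,
      smul_zero, nsmul_eq_mul] at h2
    have ha : a = 0 := by
      by_contra ha
      nlinarith [(show (1 : ℤ) ≤ a by omega)]
    rw [ha, zero_smul, zero_add] at h ⊢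
    exact Or.inr (eq_of_nsmul (neg_mem (Δ_Φ hβ)) b h)

variable (D) in
/-- The action of the word `w = [a₁, …, a_m]` by `s_{a₁} ∘ … ∘ s_{a_m}`. -/
def act : List M → M →+ M
  | [] => AddMonoidHom.id M
  | a :: w => (D.s a).comp (act w)

@[simp] theorem act_nil (x : M) : D.act [] x = x := rfl

@[simp] theorem act_cons (a : M) (w : List M) (x : M) : D.act (a :: w) x = D.s a (D.act w x) := rfl

theorem act_append (w w' : List M) (x : M) : D.act (w ++ w') x = D.act w (D.act w' x) := by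
  induction w with
  | nil => rfl
  | cons a w ih => rw [List.cons_append, act_cons, act_cons, ih]

theorem act_mem {w : List M} (hw : ∀ a ∈ w, a ∈ D.Φ) (h : β ∈ D.Φ) : D.act w β ∈ D.Φ := by
  induction w with
  | nil => exact h
  | cons a w ih =>
    exact s_mem (hw a List.mem_cons_self) (ih fun b hb => hw b (List.mem_cons_of_mem _ hb))

theorem act_reverse_act {w : List M} (hw : ∀ a ∈ w, a ∈ D.Φ) (x : M) :
    D.act w.reverse (D.act w x) = x := by
  induction w with
  | nil => rfl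
  | cons a w ih =>
    rw [List.reverse_cons, act_append, act_cons, act_nil, act_cons, s_s (hw a List.mem_cons_self),
      ih fun b hb => hw b (List.mem_cons_of_mem _ hb)]

theorem act_act_reverse {w : List M} (hw : ∀ a ∈ w, a ∈ D.Φ) (x : M) :
    D.act w (D.act w.reverse x) = x := by
  have := act_reverse_act (D := D) (w := w.reverse) (fun a ha => hw a (List.mem_reverse.1 ha)) x
  rwa [List.reverse_reverse] at this

theorem act_sub_mem {w : List M} {S : AddSubgroup M} (hw : ∀ a ∈ w, a ∈ S) (x : M) :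
    D.act w x - x ∈ S := by
  induction w with
  | nil => simp
  | cons a w ih =>
    rw [act_cons, s_apply, sub_right_comm]
    exact S.sub_mem (ih fun b hb => hw b (List.mem_cons_of_mem _ hb))
      (S.zsmul_mem (hw a List.mem_cons_self) _)

theorem exists_simple_pos (h : β ∈ D.Pos μ) : ∃ α ∈ D.Δ μ, 0 < D.cor α β := by
  by_contra hc
  push Not at hc
  have key : ∀ x ∈ AddSubmonoid.closure (D.Δ μ : Set M), D.cor β x ≤ 0 := by
    intro x hx
    induction hx using AddSubmonoid.closure_induction with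
    | mem x hx => exact not_lt.1 fun hp => not_lt.2 (hc x hx) (cor_pos_comm (mem_Pos.1 h).1 (Δ_Φ hx) hp)
    | zero => simp
    | add x y _ _ hx hy => rw [map_add]; exact add_nonpos hx hy
  have := key β (Pos_closure h)
  rw [D.two β (mem_Pos.1 h).1] at this
  omega

theorem Reg.word_pos (hμ : D.Reg μ) (h : β ∈ D.Pos μ) :
    ∃ (w : List M) (α : M), (∀ a ∈ w, a ∈ D.Δ μ) ∧ α ∈ D.Δ μ ∧ D.act w α = β := by
  induction hn : (μ β).toNat using Nat.strong_induction_on generalizing β with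
  | _ n ih =>
    obtain ⟨a, ha, hp⟩ := exists_simple_pos h
    by_cases e : β = a
    · exact ⟨[], a, by simp, ha, e.symm⟩
    · have h1 := hμ.s_Pos ha h e
      have h2 := (mem_Pos.1 h1).2
      have h3 : μ (D.s a β) < μ β := by
        rw [s_apply, map_sub, map_zsmul, smul_eq_mul]
        have := mul_pos hp (Δ_pos ha)
        omega
      obtain ⟨w, c, hw, hc, e'⟩ := ih _ (by omega) h1 rfl
      refine ⟨a :: w, c, ?_, hc, by rw [act_cons, e', s_s (Δ_Φ ha)]⟩
      intro b hb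
      rcases List.mem_cons.1 hb with rfl | hb
      exacts [ha, hw b hb]

/-- Every root is conjugate to a simple root by a word in simple reflections. -/
theorem Reg.word (hμ : D.Reg μ) (h : β ∈ D.Φ) :
    ∃ (w : List M) (α : M), (∀ a ∈ w, a ∈ D.Δ μ) ∧ α ∈ D.Δ μ ∧ D.act w α = β := by
  rcases hμ.pos_or_neg h with h1 | h1
  · exact hμ.word_pos h1
  · obtain ⟨w, c, hw, hc, e⟩ := hμ.word_pos h1
    refine ⟨w ++ [c], c, fun b hb => ?_, hc, ?_⟩
    · rcases List.mem_append.1 hb with hb | hb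
      · exact hw b hb
      · rwa [List.mem_singleton.1 hb]
    · rw [act_append, act_cons, act_nil, s_self (Δ_Φ hc), map_neg, e, neg_neg]

/-- The Weyl group is transitive on chambers. -/
theorem Reg.chamber (hμ : D.Reg μ) {μ' : M →+ ℤ} (hμ' : D.Reg μ') :
    ∃ w : List M, (∀ a ∈ w, a ∈ D.Δ μ) ∧ ∀ β ∈ D.Pos μ, 0 < μ' (D.act w β) := by
  classical
  induction hn : ((D.Pos μ).filter fun β => μ' β < 0).card using Nat.strong_induction_on
    generalizing μ' with
  | _ n ih =>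
    by_cases hc : ∃ a ∈ D.Δ μ, μ' a < 0
    · obtain ⟨a, ha, hneg⟩ := hc
      have hreg : D.Reg (μ'.comp (D.s a)) := fun β hβ => hμ' _ (s_mem (Δ_Φ ha) hβ)
      have hlt : ((D.Pos μ).filter fun β => (μ'.comp (D.s a)) β < 0).card < n := by
        have hm : a ∈ (D.Pos μ).filter fun β => μ' β < 0 := Finset.mem_filter.2 ⟨Δ_Pos ha, hneg⟩
        rw [← hn, ← Finset.card_erase_add_one hm, Nat.lt_add_one_iff]
        refine Finset.card_le_card_of_injOn (D.s a) (fun β hβ => ?_) fun x _ y _ e => ?_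
        · obtain ⟨h1, h2⟩ := Finset.mem_filter.1 hβ
          have hne : β ≠ a := by
            rintro rfl
            rw [AddMonoidHom.comp_apply, s_self (Δ_Φ ha), map_neg] at h2
            omega
          exact Finset.mem_erase.2 ⟨Reg.s_Pos_ne ha h1,
            Finset.mem_filter.2 ⟨hμ.s_Pos ha h1 hne, h2⟩⟩
        · rw [← s_s (Δ_Φ ha) x, e, s_s (Δ_Φ ha)]
      obtain ⟨w, hw, h⟩ := ih _ hlt hreg rfl
      refine ⟨a :: w, fun b hb => ?_, h⟩
      rcases List.mem_cons.1 hb with rfl | hb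
      exacts [ha, hw b hb]
    · push Not at hc
      refine ⟨[], by simp, fun β hβ => ?_⟩
      have key : ∀ x ∈ AddSubmonoid.closure (D.Δ μ : Set M), 0 ≤ μ' x := by
        intro x hx
        induction hx using AddSubmonoid.closure_induction with
        | mem x hx => exact hc x hx
        | zero => simp
        | add x y _ _ hx hy => rw [map_add]; exact add_nonneg hx hy
      exact lt_of_le_of_ne (key β (Pos_closure hβ)) (hμ' β (mem_Pos.1 hβ).1).symm

/-- Roots are primitive in the root lattice. -/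
theorem Cow.prim (W : Cow D μ) (hμ : D.Reg μ) (h : β ∈ D.Φ) :
    ∃ d : M → ℤ, ∑ l ∈ D.Δ μ, W.crd l β * d l = 1 := by
  obtain ⟨w, α, hw, hα, e⟩ := hμ.word h
  have hw' : ∀ a ∈ w, a ∈ D.Φ := fun a ha => Δ_Φ (hw a ha)
  refine ⟨fun l => W.crd α (D.act w.reverse l), mul_left_cancel₀ W.pos.ne' ?_⟩
  have h1 := congrArg (fun x => W.ν α (D.act w.reverse x)) (W.sum_crd (hμ.mem_span h))
  simp only [map_sum, map_zsmul, smul_eq_mul] at h1
  conv_rhs at h1 => rw [← e, act_reverse_act hw', W.self α hα]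
  rw [mul_one, Finset.mul_sum]
  refine Eq.trans (Finset.sum_congr rfl fun l hl => ?_) h1
  rw [← W.mul_crd hα (hμ.mem_span (act_mem (fun a ha => hw' a (List.mem_reverse.1 ha)) (Δ_Φ hl)))]
  ring

/-- Some coordinate of a root is nonzero in any nontrivial ring. -/
theorem Cow.crd_cast_ne (W : Cow D μ) (hμ : D.Reg μ) (h : β ∈ D.Φ) (k : Type*) [Ring k]
    [Nontrivial k] : ∃ l ∈ D.Δ μ, ((W.crd l β : ℤ) : k) ≠ 0 := by
  obtain ⟨d, hd⟩ := W.prim hμ h
  by_contra hc
  push Not at hc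
  have := congrArg (Int.cast : ℤ → k) hd
  rw [Int.cast_sum, Finset.sum_eq_zero fun l hl => by rw [Int.cast_mul, hc l hl, zero_mul],
    Int.cast_one] at this
  exact zero_ne_one this

end RC

end Pool.Agent.RED
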