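import Pool.Agent.P.MP_c1f06d_ag.g.Defs
import Pool.Agent.P.MP_c1f06d_ag.g.RCb

open Matrix

namespace Pool.Agent.RED

theorem sg_mul_self (b : Bool) : sg b * sg b = 1 := by cases b <;> rfl

theorem sg_smul_smul {M : Type} [AddCommGroup M] (b : Bool) (x : M) : sg b • sg b • x = x := by
  rw [smul_smul, sg_mul_self, one_smul]

namespace RD

variable (D : RD)

theorem rf_apply (i : Fin D.m) (x : XL D.r) : D.rf i x = x - D.co i x • D.al i := rfl

theorem rf_rf (i : Fin D.m) (x : XL D.r) : D.rf i (D.rf i x) = x := by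
  rw [rf_apply, rf_apply, map_sub, map_zsmul, D.two, smul_eq_mul, sub_smul, mul_smul, two_smul,
    smul_add]
  abel

theorem rf_al (i : Fin D.m) : D.rf i (D.al i) = -D.al i := by
  rw [rf_apply, D.two, two_smul]; abel

theorem sw_nil (x : XL D.r) : D.sw [] x = x := rfl

theorem sw_cons (i : Fin D.m) (l : List (Fin D.m)) (x : XL D.r) :
    D.sw (i :: l) x = D.rf i (D.sw l x) := rfl

theorem sw_append (l l' : List (Fin D.m)) (x : XL D.r) :
    D.sw (l ++ l') x = D.sw l (D.sw l' x) := by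
  induction l with
  | nil => rfl
  | cons i l ih => rw [List.cons_append, sw_cons, sw_cons, ih]

theorem sw_reverse_sw (l : List (Fin D.m)) (x : XL D.r) : D.sw l.reverse (D.sw l x) = x := by
  induction l with
  | nil => rfl
  | cons i l ih => rw [List.reverse_cons, sw_append, sw_cons, sw_nil, sw_cons, rf_rf, ih]

theorem sw_sw_reverse (l : List (Fin D.m)) (x : XL D.r) : D.sw l (D.sw l.reverse x) = x := by
  have := D.sw_reverse_sw l.reverse x
  rwa [List.reverse_reverse] at this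

theorem be_ix (i : Fin D.m) : D.be (D.ix i) = D.al i := by
  rw [RD0.be, D.wd_ix, D.sm_ix, sw_nil]

theorem rt_ix (b : Bool) (i : Fin D.m) : D.rt (b, D.ix i) = sg b • D.al i := by
  rw [RD0.rt, be_ix]

theorem rt_eq (p : Bool × Fin D.N) :
    D.rt p = D.sw (D.wd p.2) (sg p.1 • D.al (D.sm p.2)) := by
  rw [map_zsmul]; rfl

theorem rt_not (b : Bool) (j : Fin D.N) : D.rt (!b, j) = -D.rt (b, j) := by
  cases b <;> simp [RD0.rt, sg]

/-- Cocharacters with prescribed signs on the simple roots. -/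
theorem exists_coch (v : Fin D.m → ℤ) :
    ∃ (l : XL D.r →+ ℤ) (q : ℕ), 0 < q ∧ ∀ i, l (D.al i) = q * v i := by
  let A : Matrix (Fin D.m) (Fin D.r) ℤ := Matrix.of D.al
  have hG : (A * Aᵀ).det ≠ 0 := by
    intro h0
    obtain ⟨c, hc, hc0⟩ := Matrix.exists_mulVec_eq_zero_iff.2 h0
    have h1 : (Aᵀ *ᵥ c) ⬝ᵥ (Aᵀ *ᵥ c) = 0 := by
      rw [Matrix.dotProduct_mulVec, Matrix.vecMul_transpose, Matrix.mulVec_mulVec, hc0,
        zero_dotProduct]
    have h2 : ∑ i, c i • D.al i = 0 := by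
      rw [← dotProduct_self_eq_zero.1 h1]
      funext k
      simp [A, Matrix.mulVec, dotProduct, mul_comm]
    exact hc (funext (Fintype.linearIndependent_iff.1 D.indep c h2))
  let l : XL D.r →+ ℤ :=
    { toFun := fun x => (A * Aᵀ).det * (v ⬝ᵥ ((A * Aᵀ).adjugate *ᵥ (A *ᵥ x)))
      map_zero' := by simp
      map_add' := fun x y => by rw [Matrix.mulVec_add, Matrix.mulVec_add, dotProduct_add, mul_add] }
  refine ⟨l, ((A * Aᵀ).det * (A * Aᵀ).det).toNat, ?_, fun i => ?_⟩
  · have := mul_self_pos.2 hG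
    omega
  · have e : A *ᵥ D.al i = (A * Aᵀ) *ᵥ Pi.single i 1 := by
      rw [← Matrix.mulVec_mulVec, Matrix.mulVec_single_one]
      rfl
    show (A * Aᵀ).det * (v ⬝ᵥ ((A * Aᵀ).adjugate *ᵥ (A *ᵥ D.al i))) = _
    rw [e, Matrix.mulVec_mulVec, Matrix.adjugate_mul, Matrix.smul_mulVec, Matrix.one_mulVec,
      dotProduct_smul, dotProduct_single_one, Int.toNat_of_nonneg (mul_self_nonneg _), smul_eq_mul,
      mul_assoc]

theorem al_ne (i : Fin D.m) : D.al i ≠ 0 := D.indep.ne_zero i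

theorem be_ne (j : Fin D.N) : D.be j ≠ 0 := fun h => D.al_ne (D.sm j) (by
  rw [← D.sw_reverse_sw (D.wd j) (D.al (D.sm j))]
  exact (congrArg (D.sw (D.wd j).reverse) h).trans (map_zero _))

theorem rt_ne (p : Bool × Fin D.N) : D.rt p ≠ 0 := fun h => D.be_ne p.2 (by
  rw [← sg_smul_smul p.1 (D.be p.2)]
  exact (congrArg (sg p.1 • ·) h).trans (smul_zero _))

/-- A cocharacter that is positive on the simple roots is positive on the positive roots. -/
theorem pos_be {l : XL D.r →+ ℤ} (hl : ∀ i, 0 < l (D.al i)) (j : Fin D.N) : 0 < l (D.be j) := by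
  have key : ∀ x ∈ AddSubmonoid.closure (Set.range D.al), x = 0 ∨ 0 < l x := fun x hx =>
    AddSubmonoid.closure_le (S := hs l).2 (by rintro _ ⟨i, rfl⟩; exact Or.inr (hl i)) hx
  exact (key _ (D.pos j)).resolve_left (D.be_ne j)

theorem exists_height : ∃ l : XL D.r →+ ℤ, ∀ i, 0 < l (D.al i) := by
  obtain ⟨l, q, hq, h⟩ := D.exists_coch fun _ => 1
  exact ⟨l, fun i => by rw [h]; omega⟩

theorem rt_inj : Function.Injective D.rt := by
  obtain ⟨l, hl⟩ := D.exists_height
  rintro ⟨b, j⟩ ⟨b', j'⟩ h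
  have h1 := congrArg l h
  have h2 := D.pos_be hl j
  have h3 := D.pos_be hl j'
  simp only [RD0.rt, map_zsmul, smul_eq_mul] at h1
  have e : b = b' := by
    cases b <;> cases b' <;> simp only [sg] at h1 <;> first | rfl | omega
  subst e
  refine Prod.ext rfl (D.inj ?_)
  rw [← sg_smul_smul b (D.be j), ← sg_smul_smul b (D.be j')]
  exact congrArg (sg b • ·) h

theorem rt_mon (b : Bool) (p : Bool × Fin D.N) : D.rt p ∈ D.mon b ↔ p.1 = b := by
  constructor
  · intro h
    obtain ⟨l, hl⟩ := D.exists_height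
    have key : ∀ x ∈ D.mon b, 0 ≤ sg b * l x := by
      intro x hx
      induction hx using AddSubmonoid.closure_induction with
      | mem x hx =>
        obtain ⟨i, rfl⟩ := hx
        rw [map_zsmul, smul_eq_mul, ← mul_assoc, sg_mul_self, one_mul]
        exact (hl i).le
      | zero => simp
      | add x y _ _ hx hy => rw [map_add, mul_add]; exact add_nonneg hx hy
    have h1 := key _ h
    have h2 := D.pos_be hl p.2
    rw [RD0.rt, map_zsmul, smul_eq_mul] at h1
    obtain ⟨b', j⟩ := p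
    cases b <;> cases b' <;> simp only [sg] at h1 h2 <;> first | rfl | omega
  · rintro rfl
    have key : ∀ x ∈ AddSubmonoid.closure (Set.range D.al), sg p.1 • x ∈ D.mon p.1 := by
      intro x hx
      induction hx using AddSubmonoid.closure_induction with
      | mem x hx =>
        obtain ⟨i, rfl⟩ := hx
        exact AddSubmonoid.subset_closure ⟨i, rfl⟩
      | zero => rw [smul_zero]; exact zero_mem _
      | add x y _ _ hx hy => rw [smul_add]; exact add_mem hx hy
    exact key _ (D.pos p.2)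

theorem rf_rt (i : Fin D.m) (p : Bool × Fin D.N) : ∃ q, D.rf i (D.rt p) = D.rt q := by
  obtain ⟨j, h | h⟩ := D.perm i p.2
  · exact ⟨(p.1, j), by rw [RD0.rt, map_zsmul, h]; rfl⟩
  · exact ⟨(!p.1, j), by rw [RD0.rt, map_zsmul, h, rt_not, smul_neg]; rfl⟩

theorem sw_rt (l : List (Fin D.m)) (p : Bool × Fin D.N) : ∃ q, D.sw l (D.rt p) = D.rt q := by
  induction l with
  | nil => exact ⟨p, rfl⟩
  | cons i l ih =>
    obtain ⟨q, hq⟩ := ih
    rw [sw_cons, hq]
    exact D.rf_rt i q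

theorem sw_span (l : List (Fin D.m)) {x : XL D.r} (hx : x ∈ Submodule.span ℤ (Set.range D.al)) :
    D.sw l x ∈ Submodule.span ℤ (Set.range D.al) := by
  induction l with
  | nil => exact hx
  | cons i l ih =>
    exact Submodule.sub_mem _ ih (Submodule.smul_mem _ _ (Submodule.subset_span ⟨i, rfl⟩))

theorem rt_span (p : Bool × Fin D.N) : D.rt p ∈ Submodule.span ℤ (Set.range D.al) := by
  rw [rt_eq]
  exact D.sw_span _ (Submodule.smul_mem _ _ (Submodule.subset_span ⟨_, rfl⟩))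

theorem coord_eq {c : Fin D.m → ℤ} {i : Fin D.m} {n k : ℤ}
    (h : n • ∑ a, c a • D.al a = k • D.al i) (a : Fin D.m) :
    n * c a = (Pi.single i k : Fin D.m → ℤ) a := by
  have h1 : ∑ a, (n * c a - (Pi.single i k : Fin D.m → ℤ) a) • D.al a = 0 := by
    simp only [sub_smul, Finset.sum_sub_distrib, mul_smul, ← Finset.smul_sum, h]
    rw [Finset.sum_eq_single i (fun b _ hb => by rw [Pi.single_eq_of_ne hb, zero_smul])
      (fun hi => absurd (Finset.mem_univ i) hi), Pi.single_eq_same, sub_self]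
  exact sub_eq_zero.1 (Fintype.linearIndependent_iff.1 D.indep _ h1 a)

/-- Roots are primitive in the root lattice. -/
theorem rt_prim {p : Bool × Fin D.N} {d : ℤ} {y : XL D.r}
    (hy : y ∈ Submodule.span ℤ (Set.range D.al)) (h : D.rt p = d • y) : d = 1 ∨ d = -1 := by
  obtain ⟨c, hc⟩ := (Submodule.mem_span_range_iff_exists_fun ℤ).1
    (D.sw_span (D.wd p.2).reverse hy)
  have h1 := congrArg (D.sw (D.wd p.2).reverse) h
  rw [rt_eq, sw_reverse_sw, map_zsmul, ← hc] at h1
  have h2 := D.coord_eq h1.symm (D.sm p.2)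
  rw [Pi.single_eq_same] at h2
  refine Int.eq_one_or_neg_one_of_mul_eq_one (v := c (D.sm p.2) * sg p.1) ?_
  rw [← mul_assoc, h2, sg_mul_self]

/-- Reducedness. -/
theorem rt_ray {p q : Bool × Fin D.N} (h : D.rt q ∈ ray (D.rt p)) : q = p := by
  obtain ⟨k, n, hn, h⟩ := h
  obtain ⟨q', hq'⟩ := D.sw_rt (D.wd p.2).reverse q
  obtain ⟨c, hc⟩ := (Submodule.mem_span_range_iff_exists_fun ℤ).1 (D.rt_span q')
  have h1 := congrArg (D.sw (D.wd p.2).reverse) h
  rw [map_nsmul, map_nsmul, hq', D.rt_eq p, sw_reverse_sw, ← hc, ← natCast_zsmul, ← natCast_zsmul,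
    smul_smul] at h1
  have h2 := D.coord_eq h1
  have h3 : D.rt q' = c (D.sm p.2) • D.al (D.sm p.2) := by
    rw [← hc]
    refine Finset.sum_eq_single _ (fun a _ ha => ?_) fun hi => absurd (Finset.mem_univ _) hi
    have := h2 a
    rw [Pi.single_eq_of_ne ha, mul_eq_zero] at this
    rw [this.resolve_left (by omega), zero_smul]
  have h4 := D.rt_prim (Submodule.subset_span ⟨_, rfl⟩) h3
  have h5 := h2 (D.sm p.2)
  rw [Pi.single_eq_same] at h5
  have h6 : c (D.sm p.2) = sg p.1 := by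
    rcases h4 with e | e <;> rw [e] at h5 ⊢ <;> cases hb : p.1 <;> rw [hb] at h5 <;>
      simp only [sg] at h5 ⊢ <;> omega
  refine D.rt_inj ?_
  rw [← D.sw_sw_reverse (D.wd p.2) (D.rt q), hq', h3, h6, ← rt_eq]

end RD

section rc

variable {M : Type} [AddCommGroup M]

theorem rd_sep [Module.Free ℤ M] (m : M) (h : ∀ ν : M →+ ℤ, ν m = 0) : m = 0 :=
  (Module.forall_dual_apply_eq_zero_iff ℤ m).1 fun φ => h φ.toAddMonoidHom

theorem rd_exists_reg (sep : ∀ m : M, (∀ ν : M →+ ℤ, ν m = 0) → m = 0) (S : Finset M)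
    (h0 : (0 : M) ∉ S) : ∃ μ : M →+ ℤ, ∀ β ∈ S, μ β ≠ 0 := by
  classical
  induction S using Finset.induction_on with
  | empty => exact ⟨0, by simp⟩
  | insert a S ha ih =>
    obtain ⟨μ, hμ⟩ := ih fun h => h0 (Finset.mem_insert_of_mem h)
    by_cases h1 : μ a ≠ 0
    · exact ⟨μ, fun β hβ => (Finset.mem_insert.1 hβ).elim (fun e => e ▸ h1) (hμ β)⟩
    rw [not_not] at h1
    obtain ⟨ν, hν⟩ : ∃ ν : M →+ ℤ, ν a ≠ 0 := by
      by_contra hc
      push Not at hc
      exact h0 (sep a hc ▸ Finset.mem_insert_self a S)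
    refine ⟨(∑ β ∈ S, |ν β| + 1) • μ + ν, fun β hβ => ?_⟩
    rw [AddMonoidHom.add_apply, AddMonoidHom.smul_apply, smul_eq_mul]
    rcases Finset.mem_insert.1 hβ with rfl | hβ
    · rwa [h1, mul_zero, zero_add]
    · have h2 : |ν β| ≤ ∑ β ∈ S, |ν β| :=
        Finset.single_le_sum (f := fun β => |ν β|) (fun _ _ => abs_nonneg _) hβ
      have h3 := hμ β hβ
      intro e
      have h4 : |ν β| = (∑ β ∈ S, |ν β| + 1) * |μ β| := by
        rw [← abs_neg, ← eq_neg_of_add_eq_zero_left e, abs_mul,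
          abs_of_nonneg (by linarith [abs_nonneg (ν β)])]
      have h5 : 1 ≤ |μ β| := Int.one_le_abs h3
      nlinarith [abs_nonneg (ν β)]

/-- The input of the root combinatorics from reducedness along rays. -/
def rdOfRay [Module.Free ℤ M] (Φ : Finset M) (cor : M → M →+ ℤ) (h2 : ∀ a ∈ Φ, cor a a = 2)
    (hrefl : ∀ a ∈ Φ, ∀ b ∈ Φ, b - cor a b • a ∈ Φ)
    (hred : ∀ a ∈ Φ, ∀ b ∈ Φ, b ∈ ray a → b = a) : RC M where
  Φ := Φ
  cor := cor
  sep := rd_sep
  two := h2
  refl := hrefl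
  red a ha b hb p q hq h := by
    have hneg : -a ∈ Φ := by
      have := hrefl a ha a ha
      rwa [h2 a ha, two_smul, sub_add_cancel_left] at this
    have key : ∀ (c : M) (p q : ℤ), c ∈ Φ → 0 < q → 0 ≤ p → q • b = p • c → b = c := by
      intro c p q hc hq hp h
      lift q to ℕ using hq.le
      lift p to ℕ using hp
      exact hred c hc b hb ⟨p, q, by exact_mod_cast hq, by simpa using h⟩
    rcases lt_or_gt_of_ne hq with hq | hq <;> rcases le_total 0 p with hp | hp
    · exact Or.inr (key _ p (-q) hneg (by omega) hp (by rw [neg_smul, h, smul_neg]))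
    · exact Or.inl (key _ (-p) (-q) ha (by omega) (by omega) (by rw [neg_smul, h, neg_smul]))
    · exact Or.inl (key _ p q ha hq hp h)
    · exact Or.inr (key _ (-p) q hneg hq (by omega) (by rw [h, smul_neg, neg_smul, neg_neg]))

theorem rd_indep {E : RC M} {μ : M →+ ℤ} (hμ : E.Reg μ) :
    LinearIndependent ℤ fun a : E.Δ μ => (a : M) := by
  obtain ⟨W⟩ := hμ.cow
  classical
  rw [linearIndependent_iff']
  intro s g h i hi
  have h1 := congrArg (W.ν i) h
  rw [map_sum, map_zero, Finset.sum_eq_single_of_mem i hi fun b _ e => by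
    rw [map_zsmul, W.ne i i.2 b b.2 fun e' => e (Subtype.ext e'), smul_zero],
    map_zsmul, W.self i i.2, smul_eq_mul] at h1
  exact (mul_eq_zero.1 h1).resolve_right W.pos.ne'

theorem rd_word {E : RC M} {μ : M →+ ℤ} (hμ : E.Reg μ) {β : M} (h : β ∈ E.Φ) :
    ∃ (w : List (E.Δ μ)) (α : E.Δ μ), E.act (w.map Subtype.val) α = β ∧
      (β ∈ E.Δ μ → w = [] ∧ α = β) := by
  by_cases hb : β ∈ E.Δ μ
  · exact ⟨[], ⟨β, hb⟩, rfl, fun _ => ⟨rfl, rfl⟩⟩
  · obtain ⟨w, α, h1, h2, h3⟩ := hμ.word h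
    exact ⟨w.pmap Subtype.mk h1, ⟨α, h2⟩, by
      rw [List.map_pmap, List.pmap_eq_map, List.map_id']; exact h3, fun e => absurd e hb⟩

end rc

/-- A finite reduced set of roots with reflections has a base and words. -/
theorem rc {r : ℕ} (Φ : Finset (XL r)) (cor : XL r → XL r →+ ℤ) (h0 : 0 ∉ Φ)
    (hred : ∀ α ∈ Φ, ∀ β ∈ Φ, β ∈ ray α → β = α) (h2 : ∀ α ∈ Φ, cor α α = 2)
    (hs : ∀ α ∈ Φ, ∀ β ∈ Φ, β - cor α β • α ∈ Φ) :
    ∃ (D : RD) (h : D.r = r), (∀ x : XL D.r, (∃ p, D.rt p = x) ↔ h ▸ x ∈ Φ) ∧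
      ∀ i (x : XL D.r), D.co i x = cor (h ▸ D.al i) (h ▸ x) := by
  let E : RC (XL r) := rdOfRay Φ cor h2 hs hred
  obtain ⟨μ, hμ⟩ : ∃ μ, E.Reg μ := rd_exists_reg rd_sep Φ h0
  let eS := (E.Δ μ).equivFin
  let eP := (E.Pos μ).equivFin
  have hw := fun j : Fin (E.Pos μ).card => rd_word hμ (RC.mem_Pos.1 (eP.symm j).2).1
  choose w sr hact hsim using hw
  let D0 : RD0 :=
    { r := r
      m := (E.Δ μ).card
      N := (E.Pos μ).card
      al := fun i => eS.symm i
      co := fun i => cor (eS.symm i)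
      wd := fun j => (w j).map eS
      sm := fun j => eS (sr j)
      ix := fun i => eP ⟨eS.symm i, RC.Δ_Pos (eS.symm i).2⟩ }
  have hsw : ∀ (l : List (E.Δ μ)) (x : XL r),
      D0.sw (l.map eS) x = E.act (l.map Subtype.val) x := by
    intro l x
    induction l with
    | nil => rfl
    | cons a l ih =>
      rw [List.map_cons, List.map_cons, RC.act_cons, ← ih]
      show D0.sw (l.map eS) x - cor (eS.symm (eS a)) (D0.sw (l.map eS) x) •
        ((eS.symm (eS a) : E.Δ μ) : XL r) = _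
      rw [Equiv.symm_apply_apply]
      rfl
  have hbe : ∀ j, D0.be j = (eP.symm j : E.Pos μ) := by
    intro j
    rw [← hact j, ← hsw]
    show D0.sw ((w j).map eS) ((eS.symm (eS (sr j)) : E.Δ μ) : XL r) = _
    rw [Equiv.symm_apply_apply]
  have hix : ∀ i, ((eP.symm (D0.ix i) : E.Pos μ) : XL r) = (eS.symm i : E.Δ μ) := fun i => by
    show ((eP.symm (eP _) : E.Pos μ) : XL r) = _
    rw [Equiv.symm_apply_apply]
  have hsurj : ∀ β ∈ E.Pos μ, ∃ j, D0.be j = β := fun β hβ =>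
    ⟨eP ⟨β, hβ⟩, by rw [hbe, Equiv.symm_apply_apply]⟩
  have hΦ : ∀ j, D0.be j ∈ E.Φ := fun j => by rw [hbe]; exact (RC.mem_Pos.1 (eP.symm j).2).1
  let D : RD :=
    { D0 with
      two := fun i => h2 _ (RC.Δ_Φ (eS.symm i).2)
      indep := (rd_indep hμ).comp eS.symm eS.symm.injective
      wd_ix := fun i => by
        show (w (D0.ix i)).map eS = []
        rw [(hsim _ (by rw [hix]; exact (eS.symm i).2)).1, List.map_nil]
      sm_ix := fun i => by
        show eS (sr (D0.ix i)) = i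
        rw [← Equiv.eq_symm_apply]
        exact Subtype.ext ((hsim _ (by rw [hix]; exact (eS.symm i).2)).2.trans (hix i))
      inj := fun j j' h => by
        rw [hbe, hbe] at h
        exact eP.symm.injective (Subtype.ext h)
      pos := fun j => by
        rw [hbe]
        refine AddSubmonoid.closure_mono (fun a ha => ?_) (RC.Pos_closure (eP.symm j).2)
        exact ⟨eS ⟨a, ha⟩, congrArg Subtype.val (eS.symm_apply_apply ⟨a, ha⟩)⟩
      perm := fun i j => by
        rcases hμ.pos_or_neg (RC.s_mem (RC.Δ_Φ (eS.symm i).2) (hΦ j)) with h | h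
        · obtain ⟨j', hj'⟩ := hsurj _ h
          exact ⟨j', Or.inl hj'.symm⟩
        · obtain ⟨j', hj'⟩ := hsurj _ h
          exact ⟨j', Or.inr (by rw [hj', neg_neg]; rfl)⟩ }
  refine ⟨D, rfl, fun x => ⟨?_, fun hx => ?_⟩, fun _ _ => rfl⟩
  · rintro ⟨⟨b, j⟩, rfl⟩
    show sg b • D0.be j ∈ E.Φ
    cases b
    · rw [show sg false = -1 from rfl, neg_one_smul]; exact RC.neg_mem (hΦ j)
    · rw [show sg true = 1 from rfl, one_smul]; exact hΦ j
  · rcases hμ.pos_or_neg (β := x) hx with h | h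
    · obtain ⟨j, hj⟩ := hsurj _ h
      exact ⟨(true, j), (one_smul _ _).trans hj⟩
    · obtain ⟨j, hj⟩ := hsurj _ h
      exact ⟨(false, j), (neg_one_smul _ _).trans (neg_eq_iff_eq_neg.2 hj)⟩

end Pool.Agent.RED
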