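import Pool.Agent.P.MP_c1f06d_ag.g.FibA
import Pool.Agent.P.MP_c1f06d_ag.g.HsOne
import Pool.Agent.P.MP_c1f06d_ag.g.HsMax
import Pool.Agent.P.MP_c1f06d_ag.g.RDL
import Pool.Agent.P.MP_c1f06d_ag.g.WUniq

/-! The pinning of a geometric fibre. -/

open WithConv Pool.Agent.GR Matrix
open scoped TensorProduct

universe u

namespace Pool.Agent.GR

variable {k : Type u} [Field k] {n r : ℕ} {H : HS k n} {χ : Fin n → Fin r → ℤ} {α β : Fin r → ℤ}
  {σ : (Fin r → ℤ) →+ (Fin r → ℤ)}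

theorem Flip.suppU' {A : Type u} [CommRing A] {g : GL (Fin n) A} (h : Flip χ α g σ)
    {M : GL (Fin n) A} (hM : SuppU χ (mray β) (M : Mat n A)) :
    SuppU χ (mray (σ β)) ((g * M * g⁻¹ : GL (Fin n) A) : Mat n A) := by
  intro i j hij
  have e : ((g * M * g⁻¹ : GL (Fin n) A) : Mat n A) - 1 =
      (g : Mat n A) * ((M : Mat n A) - 1) * ((g⁻¹ : GL (Fin n) A) : Mat n A) := by
    rw [Matrix.mul_sub, Matrix.sub_mul, Matrix.mul_one, Units.mul_inv, Units.val_mul, Units.val_mul]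
  rw [e]
  refine h.conj_zero fun p q hp hq => hM p q (hij.imp (fun h1 ⟨a, b, hb, e⟩ => h1 ⟨a, b, hb, by
    rw [hp, hq, ← map_sub, ← map_nsmul, e, map_nsmul]⟩) fun h1 => ?_)
  rw [← h.invol (χ p), ← hp, h1, hq, h.invol]

theorem HS.MRoot.flip {x : GL (Fin n) (Polynomial k)} (hx : H.MRoot χ β x) {g : GL (Fin n) k}
    (hg : g ∈ H.G k) (fl : Flip χ α g σ) : H.MRoot χ (σ β)
      (gm (Algebra.ofId k _) g * x * (gm (Algebra.ofId k _) g)⁻¹) := by
  have e : ∀ (A : Type u) [CommRing A] [Algebra k A] (a : A), gm (Polynomial.aeval a)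
      (gm (Algebra.ofId k _) g * x * (gm (Algebra.ofId k _) g)⁻¹) = gm (Algebra.ofId k A) g *
        gm (Polynomial.aeval a) x * (gm (Algebra.ofId k A) g)⁻¹ := fun A _ _ a => by
    rw [map_mul, map_mul, map_inv, gm_comp, Subsingleton.elim (AlgHom.comp _ _) (Algebra.ofId k A)]
  refine ⟨fun A _ _ => ?_, fun A _ _ a b => ?_, fun A _ _ τ a => ?_⟩ <;> simp only [e]
  · have hA := H.G_map (Algebra.ofId k A) hg
    have fA := fl.gm (Algebra.ofId k A)
    refine ⟨fun a _ => ⟨mul_mem (mul_mem hA (hx.mem a).1) (inv_mem hA), fA.suppU' (hx.mem a).2⟩,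
      fun a _ b _ h => hx.inj (by simpa using h), fun M hM => ?_⟩
    have := fA.inv.suppU' hM.2
    rw [fl.invol] at this
    obtain ⟨a, -, ha⟩ := (hx.bij A).surjOn
      ⟨mul_mem (mul_mem (inv_mem hA) hM.1) (inv_mem (inv_mem hA)), this⟩
    exact ⟨a, trivial, by simp only [ha]; group⟩
  · rw [hx.add]
    group
  · have e1 := (fl.gm (Algebra.ofId k A)).mul_tp (τ.comp (AddMonoidHom.toMultiplicative σ))
    rw [show (τ.comp (AddMonoidHom.toMultiplicative σ)).comp (AddMonoidHom.toMultiplicative σ) = τ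
      from MonoidHom.ext fun m => congrArg τ (fl.invol m)] at e1
    rw [eq_mul_inv_iff_mul_eq.2 e1.symm]
    refine Eq.trans ?_ (congrArg (fun y => _ * y * _)
      (hx.eqv A (τ.comp (AddMonoidHom.toMultiplicative σ)) a))
    group

theorem exists_flip {cor : (Fin r → ℤ) →+ ℤ} (h2 : cor α = 2) {g : GL (Fin n) k}
    (h : Intw χ (fun j => χ j - cor (χ j) • α) (g : Mat n k)) :
    ∃ σ, Flip χ α g σ ∧ ∀ x, σ x = x - cor x • α :=
  ⟨AddMonoidHom.id _ - (zmultiplesHom _ α).comp cor, ⟨h, fun x => ⟨-cor x, 1, one_pos, by simp⟩, by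
    simp [h2, two_mul], fun x => by
      show x - cor x • α - cor (x - cor x • α) • α = x
      rw [map_sub, map_zsmul, h2, smul_eq_mul]
      module⟩, fun _ => rfl⟩

end Pool.Agent.GR

namespace Pool.Agent.RED

variable {R A K : Type u} [CommRing R] [CommRing A] [HopfAlgebra R A] [Field K] [Algebra R K]
  {n r : ℕ} {H : HS K n} {X : Real R A H} {t : Pt R A (GA K (XL r))} {χ : Fin n → XL r}
  {ι : Type} {deg : ι → XL r}

theorem Real.exists_wt (h : X.Dg t χ) (hw : Wts t deg) {α : XL r} (hα : α ≠ 0) {g : GL (Fin n) K}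
    (hg : g ∈ H.G K) (hs : SuppU χ (mray α) (g : Mat n K)) (h1 : g ≠ 1) : ∃ i, deg i ∈ ray α := by
  by_contra h0
  obtain ⟨y, hy⟩ := hw.2 _ (pos_ray hα)
  have hy' := Real.mchart h (pos_ray hα) hy
  obtain ⟨s, -, rfl⟩ := (hy'.bij K).surjOn ⟨hg, hs⟩
  obtain rfl : s = 0 := funext fun i => (h0 ⟨i.1, i.2⟩).elim
  exact h1 hy'.zero

theorem Real.roots [IsAlgClosed K] [Finite ι] (h : X.Dg t χ) (Z : H.ZT χ) (hw : Wts t deg) :
    (∀ i k, deg k ∈ ray (deg i) → k = i) ∧ ∀ i, ∃ (x y : Pt R A (Polynomial K)) (cor : XL r →+ ℤ),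
      IsRoot t (deg i) x ∧ IsRoot t (-deg i) y ∧ cor (deg i) = 2 ∧ SL2 t cor 1 x y ∧
        ∀ k, ∃ k', deg k' = deg k - cor (deg k) • deg i := by
  have h1 : ∀ i, (∀ k, deg k ∈ ray (deg i) → k = i) ∧ ∃ k, deg k ∈ ray (-deg i) := fun i => by
    obtain ⟨y, hy⟩ := hw.2 _ (pos_ray (hw.1 i))
    have : Nonempty {k // deg k ∈ ray (deg i)} := ⟨⟨i, self_mem_ray _⟩⟩
    obtain ⟨hs, g, hg, hu, h1⟩ := Z.one (Real.mchart h (pos_ray (hw.1 i)) hy)
    exact ⟨fun k hk => congrArg Subtype.val (hs.elim ⟨k, hk⟩ ⟨i, self_mem_ray _⟩),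
      Real.exists_wt h hw (neg_ne_zero.2 (hw.1 i)) hg hu h1⟩
  choose x hx using fun i => exists_isRoot h.isHom hw i (h1 i).1
  have hx' := fun i => Real.mroot h (hw.1 i) (hx i)
  choose o ho using fun i => (h1 i).2
  have h2 := fun i => Z.sl2 (hw.1 i) (hw.1 _) (ho i) (hx' i) (hx' _)
  have h3 : ∀ β y, β ≠ 0 → H.MRoot χ β y → ∃ i, deg i = β := fun β y hβ hy => by
    obtain ⟨i, p, q, hq, e⟩ := Real.exists_wt h hw hβ (hy.mem 1).1 (hy.mem 1).2 fun e =>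
      one_ne_zero (hy.inj (e.trans hy.zero.symm))
    refine ⟨i, ?_⟩
    rw [(Z.sl2 (hw.1 (o i)) hβ (ray_symm (hw.1 _) ⟨p, q, hq, by
      rw [(h2 i).1, smul_neg, e, smul_neg]⟩) (hx' _) hy).1, (h2 i).1, neg_neg]
  refine ⟨fun i => (h1 i).1, fun i => ?_⟩
  obtain ⟨e, cor, c, hc2, hc, hs, g, hg, hi⟩ := h2 i
  obtain ⟨y, hy, ey⟩ := (hx (o i)).scale (Units.mk0 c hc)⁻¹
  obtain ⟨σ, fl, hσ⟩ := exists_flip hc2 hi
  refine ⟨x i, y, cor, hx i, e ▸ hy, hc2, fun T _ _ j a b s hs' => ?_, fun k => hσ _ ▸ h3 _ _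
    (fun e => hw.1 k (by rw [← fl.invol (deg k), e, map_zero])) ((hx' k).flip hg fl)⟩
  rw [ey, ey, ← mul_assoc (j _)]
  refine h.sl2 hs T j a _ s ?_
  rw [hs', mul_assoc (j c), mul_left_comm a, ← mul_assoc (j c), ← map_mul, mul_assoc]
  simp [hc]

theorem Real.pin [IsAlgClosed K] [Algebra.Smooth R A] (X : Real R A H) (hp : (H.van K).IsPrime) :
    ∃ (D : RD) (P : Pin D R A K), P.Pre := by
  classical
  obtain ⟨γ, r, χ, Z⟩ := H.maxtor hp
  obtain ⟨t, h⟩ := (X.rb γ).exists_tor Z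
  obtain ⟨N, deg, hw⟩ := exists_wts h.isHom
  obtain ⟨h1, h2⟩ := Real.roots (X := X.rb γ) h Z hw
  choose x y cor hx hy hc hs hr using h2
  have hi : Function.Injective deg := fun a b e => h1 b a (e ▸ self_mem_ray _)
  obtain ⟨D, rfl, e1, e2⟩ := rc (Finset.univ.image deg) (Function.extend deg cor 0)
    (by simpa using hw.1)
    (by simpa using fun a b e => congrArg deg (h1 a b e))
    (by simpa [hi.extend_apply] using hc) (by simpa [hi.extend_apply] using hr)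
  simp only [Finset.mem_image, Finset.mem_univ, true_and] at e1 e2
  choose a ha using fun i => (e1 (D.al i)).1 ⟨(true, D.ix i), by simp [D.rt_ix, sg]⟩
  choose f hf using fun i => (e1 (deg i)).2 ⟨i, rfl⟩
  refine ⟨D, ⟨fun b i => cond b (x (a i)) (y (a i)), t⟩, h.isHom, Real.zt (X := X.rb γ) h Z,
    hw.reindex (Equiv.ofBijective f ⟨fun i j e => hi (by rw [← hf, e, hf]), fun p => ?_⟩) hf,
    fun b i => ?_, fun i => ?_⟩
  · obtain ⟨i, e⟩ := (e1 _).1 ⟨p, rfl⟩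
    exact ⟨i, D.rt_inj (by rw [hf, e])⟩
  · cases b
    · simpa [sg, ha] using hy (a i)
    · simpa [sg, ha] using hx (a i)
  · rw [show D.co i = cor (a i) from AddMonoidHom.ext fun m => by rw [e2, ← ha, hi.extend_apply]]
    exact hs (a i)

theorem Real.sl2 (X : Real R A H) (ht : IsHom t) (hz : ZT t) {α : XL r} (hα : α ≠ 0)
    {x y : Pt R A (Polynomial K)} (hx : IsRoot t α x) (hy : IsRoot t (-α) y) :
    ∃ (cor : XL r →+ ℤ) (c : K), cor α = 2 ∧ c ≠ 0 ∧ SL2 t cor c x y := by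
  obtain ⟨γ, χ, h⟩ := X.exists_diag ht
  obtain ⟨-, cor, c, h2, hc, hs, -⟩ := (Real.mzt (X := X.rb γ) h hz).sl2 hα (neg_ne_zero.2 hα)
    (self_mem_ray _) (Real.mroot (X := X.rb γ) h hα hx)
    (Real.mroot (X := X.rb γ) h (neg_ne_zero.2 hα) hy)
  exact ⟨cor, c, h2, hc, h.sl2 hs⟩

end Pool.Agent.RED
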