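import Mathlib

open TensorProduct

universe u

namespace Pool.Agent.RED.Fm

variable {k Ω X E T : Type u} [Field k] [CommRing Ω] [Algebra k Ω] [CommRing X] [Algebra k X]
  [CommRing E] [Algebra Ω E]

/-- Contraction of the first factor. -/
noncomputable def ctr (l : Ω →ₗ[k] k) : Ω ⊗[k] X →ₗ[k] X :=
  (TensorProduct.lid k X).toLinearMap ∘ₗ l.rTensor X

@[simp] theorem ctr_tmul (l : Ω →ₗ[k] k) (a : Ω) (x : X) : ctr l (a ⊗ₜ x) = l a • x := by
  simp [ctr]

theorem mem_of_ctr (W : Submodule Ω (Ω ⊗[k] X)) (z : Ω ⊗[k] X)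
    (h : ∀ l : Ω →ₗ[k] k, (1 : Ω) ⊗ₜ[k] ctr l z ∈ W) : z ∈ W := by
  classical
  let b := Module.Basis.ofVectorSpace k Ω
  obtain ⟨c, hc⟩ := TensorProduct.eq_repr_basis_left b z
  have e : ∀ i, ctr (b.coord i) z = c i := fun i => by
    rw [← hc, map_finsuppSum, Finsupp.sum_eq_single i]
    · simp
    · intro j _ hj
      simp [Finsupp.single_eq_of_ne' hj]
    · simp
  rw [← hc]
  refine W.sum_mem fun i _ => ?_
  have := W.smul_mem (b i) (h (b.coord i))
  rwa [e, smul_tmul', smul_eq_mul, mul_one] at this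

theorem ctr_mem (κ : E →ₐ[Ω] Ω ⊗[k] X) (l : Ω →ₗ[k] k) (z : (Ω ⊗[k] Ω) ⊗[Ω] E) :
    (ctr l).lTensor Ω (Algebra.TensorProduct.lift
      (Algebra.TensorProduct.map (AlgHom.id Ω Ω) Algebra.TensorProduct.includeLeft :
        Ω ⊗[k] Ω →ₐ[Ω] Ω ⊗[k] (Ω ⊗[k] X))
      ((Algebra.TensorProduct.map (AlgHom.id Ω Ω) Algebra.TensorProduct.includeRight).comp κ)
      (fun _ _ => Commute.all _ _) z) ∈ κ.range := by
  induction z with
  | zero => simp
  | add a b ha hb => simp only [map_add]; exact add_mem ha hb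
  | tmul t w =>
    rw [Algebra.TensorProduct.lift_tmul, AlgHom.comp_apply]
    induction t with
    | zero => simp
    | add a b ha hb => simp only [map_add, add_mul]; exact add_mem ha hb
    | tmul a b =>
      have : ∀ y : Ω ⊗[k] X, (ctr l).lTensor Ω ((a ⊗ₜ[k] (b ⊗ₜ[k] (1 : X))) *
          Algebra.TensorProduct.map (AlgHom.id Ω Ω) Algebra.TensorProduct.includeRight y) =
          (l b • a) • y := fun y => by
        induction y with
        | zero => simp
        | add y y' ha hb => simp only [map_add, mul_add, smul_add, ha, hb]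
        | tmul c q =>
          rw [Algebra.TensorProduct.map_tmul, Algebra.TensorProduct.includeRight_apply,
            Algebra.TensorProduct.tmul_mul_tmul, Algebra.TensorProduct.tmul_mul_tmul,
            LinearMap.lTensor_tmul, ctr_tmul, mul_one, one_mul, ← smul_tmul, smul_tmul',
            smul_eq_mul, smul_mul_assoc, AlgHom.id_apply]
      exact (this _).symm ▸ κ.range.smul_mem (κ.mem_range_self w) _

theorem lift_inj {K E Y T : Type u} [Field K] [CommRing E] [Algebra K E] [CommRing Y] [Algebra K Y]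
    [CommRing T] [Algebra K T] (κ : E →ₐ[K] Y) (hκ : Function.Injective κ) {z : T ⊗[K] E} {w : E}
    (h : (1 : T) ⊗ₜ[K] κ w = Algebra.TensorProduct.lift
      (Algebra.TensorProduct.includeLeft : T →ₐ[K] T ⊗[K] Y)
      (Algebra.TensorProduct.includeRight.comp κ) (fun _ _ => Commute.all _ _) z) :
    z = 1 ⊗ₜ w := by
  refine Module.Flat.lTensor_preserves_injective_linearMap (M := T) κ.toLinearMap hκ ?_
  rw [LinearMap.lTensor_tmul, AlgHom.toLinearMap_apply, h]
  clear h
  induction z with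
  | zero => simp
  | add a b ha hb => simp only [map_add, ha, hb]
  | tmul t w => simp

/-- A subalgebra of `Ω ⊗ X` that is stable under contractions is defined over `k`. -/
theorem sub_desc (κ : E →ₐ[Ω] Ω ⊗[k] X) (hκ : Function.Injective κ)
    (h : ∀ (l : Ω →ₗ[k] k) (w : E), (1 : Ω) ⊗ₜ[k] ctr l (κ w) ∈ κ.range) :
    ∃ (O : Subalgebra k X) (ψ : E ≃ₐ[Ω] Ω ⊗[k] O),
      ∀ w, Algebra.TensorProduct.map (AlgHom.id Ω Ω) O.val (ψ w) = κ w := by
  let O : Subalgebra k X := (κ.range.restrictScalars k).comap Algebra.TensorProduct.includeRight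
  let m : Ω ⊗[k] O →ₐ[Ω] Ω ⊗[k] X := Algebra.TensorProduct.map (AlgHom.id Ω Ω) O.val
  have hm : Function.Injective m :=
    Module.Flat.lTensor_preserves_injective_linearMap (M := Ω) O.val.toLinearMap
      Subtype.val_injective
  have hr : κ.range = m.range := by
    refine le_antisymm ?_ ?_
    · rintro _ ⟨w, rfl⟩
      exact mem_of_ctr (Subalgebra.toSubmodule m.range) _ fun l => ⟨1 ⊗ₜ ⟨_, h l w⟩, rfl⟩
    · rintro _ ⟨z, rfl⟩
      induction z with
      | zero => simp
      | add a b ha hb => rw [map_add]; exact add_mem ha hb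
      | tmul a q =>
        have : a • ((1 : Ω) ⊗ₜ[k] (q : X)) ∈ κ.range := κ.range.smul_mem q.2 a
        rwa [smul_tmul', smul_eq_mul, mul_one] at this
  refine ⟨O, (AlgEquiv.ofInjective κ hκ).trans ((Subalgebra.equivOfEq _ _ hr).trans
    (AlgEquiv.ofInjective m hm).symm), fun w => ?_⟩
  exact congrArg Subtype.val ((AlgEquiv.ofInjective m hm).apply_symm_apply _)

omit [Algebra k Ω] in
/-- A ring with a chosen structure map. -/
theorem exists_via {C : Type u} [CommRing C] (g : Ω →+* C) :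
    ∃ (C' : Type u) (_ : CommRing C') (_ : Algebra Ω C') (e : C ≃+* C'),
      ∀ a, algebraMap Ω C' a = e (g a) :=
  ⟨C, inferInstance, g.toAlgebra, RingEquiv.refl C, fun _ => rfl⟩

theorem exists_lift {C : Type u} [CommRing C] [Algebra Ω C] (r : X →+* C)
    (h : ∀ a : k, r (algebraMap k X a) = algebraMap Ω C (algebraMap k Ω a)) :
    ∃ g : Ω ⊗[k] X →ₐ[Ω] C, ∀ q, g (1 ⊗ₜ q) = r q := by
  let _ : Algebra k C := ((algebraMap Ω C).comp (algebraMap k Ω)).toAlgebra
  have : IsScalarTower k Ω C := .of_algebraMap_eq fun _ => rfl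
  exact ⟨Algebra.TensorProduct.lift (Algebra.ofId Ω C) ({ r with commutes' := h } : X →ₐ[k] C)
    fun _ _ => Commute.all _ _, fun q => by simp⟩

theorem inj_of_flat {A B : Type u} [CommRing A] [IsDomain A] [CommRing B] [Nontrivial B]
    (f : A →+* B) (h : f.Flat) : Function.Injective f := by
  let _ := f.toAlgebra
  have : Module.Flat A B := h
  refine (injective_iff_map_eq_zero f).2 fun a ha => by_contra fun h0 => ?_
  have := Module.Flat.isSMulRegular_of_nonZeroDivisors (M := B)
    (mem_nonZeroDivisors_of_ne_zero h0)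
  refine one_ne_zero (this.right_eq_zero_of_smul (x := (1 : B)) ?_)
  rw [Algebra.smul_def, mul_one]
  exact ha

end Pool.Agent.RED.Fm
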