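import Pool.Agent.P.MP_c1f06d_ag.g.FmT
import Pool.Agent.P.MP_c1f06d_ag.g.Iso
import Pool.Agent.P.MP_c1f06d_ag.g.FmS
import Pool.Agent.P.MP_c1f06d_ag.g.PreOk
import Pool.Agent.P.MP_c1f06d_ag.g.Coc

open TensorProduct Polynomial Pool.Agent.GR WithConv

universe u

namespace Pool.Agent.RED.Fm

variable {D : RD}

/-- Coordinates on the big cell. -/
abbrev Co (D : RD) (C : Type u) [CommRing C] : Type u :=
  (Fin D.N → C) × TP (XL D.r) C × (Fin D.N → C)

/-- The image of coordinates under a ring homomorphism. -/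
def cmap {C C' : Type u} [CommRing C] [CommRing C'] (e : C →+* C') (p : Co D C) : Co D C' :=
  (fun j => e (p.1 j), (Units.map (e : C →* C')).comp p.2.1, fun j => e (p.2.2 j))

theorem cmap_cmap {C C' C'' : Type u} [CommRing C] [CommRing C'] [CommRing C''] (e : C →+* C')
    (e' : C' →+* C'') (p : Co D C) : cmap e' (cmap e p) = cmap (e'.comp e) p := rfl

section general

variable {R A B C C' : Type u} [CommRing R] [CommRing A] [HopfAlgebra R A] [CommRing B]
  [Algebra R B] [CommRing C] [Algebra R C] [CommRing C'] [Algebra R C'] (P : Pin D R A B)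

theorem pm_cell (f : B →ₐ[R] C) (g : C →ₐ[R] C') (p : Co D C) :
    pm g (P.cell f p) = P.cell (g.comp f) (cmap g p) := P.pm_cell f g p

theorem push_xa (j : B →ₐ[R] C) (f : C →ₐ[R] C') : (P.push j).xa f = P.xa (f.comp j) := by
  funext b i s
  exact cv_bc _ _ _ _

theorem push_ta (j : B →ₐ[R] C) (f : C →ₐ[R] C') : (P.push j).ta f = P.ta (f.comp j) := by
  funext t
  exact tev_bc _ _ _ _

theorem push_cell (j : B →ₐ[R] C) (f : C →ₐ[R] C') (p : Co D C') :
    (P.push j).cell f p = P.cell (f.comp j) p := by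
  have : (P.push j).nn f = P.nn (f.comp j) := by
    funext i
    simp only [Pin.nn, push_xa]
  simp only [Pin.cell, Pin.un, Pin.xr, Pin.nw, push_xa, push_ta, this]

end general

variable {Ω E : Type u} [Field Ω] [CommRing E] [HopfAlgebra Ω E] [Algebra.Smooth Ω E]
  {P : Pin D Ω E Ω}

/-- Base change of the pinned group along a ring homomorphism. -/
theorem exists_bc (hG : GI Ω E) (h : P.Pre) {T : Type u} [CommRing T] (b : Ω →+* T) :
    ∃ (A : Type u) (_ : CommRing A) (_ : HopfAlgebra T A) (P' : Pin D T A T) (ι : E →+* A),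
      P'.Ok ∧ ∀ (C : Type u) [CommRing C] [Algebra Ω C] [Algebra T C],
        (∀ a, algebraMap Ω C a = algebraMap T C (b a)) → ∃ β : Pt T A C →* Pt Ω E C,
          (∀ y w, (β y).ofConv w = y.ofConv (ι w)) ∧
          ∀ p, β (P'.cell (Algebra.ofId T C) p) = P.cell (Algebra.ofId Ω C) p := by
  let _ := b.toAlgebra
  obtain ⟨P', hP'⟩ := exists_respT (AlgHom.id T (T ⊗[Ω] E) : Hm Ω T E (T ⊗[Ω] E) T)
    (P.push (Algebra.ofId Ω T))
  have hi := isIso_bc Ω T E
  refine ⟨T ⊗[Ω] E, inferInstance, inferInstance, P', Algebra.TensorProduct.includeRight.toRingHom,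
    ((hP'.pre_iff hi).1 (h.push _)).ok (hG.bc T), fun C _ _ _ hC => ?_⟩
  have : IsScalarTower Ω T C := .of_algebraMap_eq hC
  refine ⟨(Coc.eqv hi (Algebra.ofId T C)).symm, fun y w => ?_, fun p => ?_⟩
  · obtain ⟨x, rfl⟩ := (Coc.eqv hi (Algebra.ofId T C)).surjective y
    rw [MonoidHom.coe_coe, MulEquiv.symm_apply_apply]
    simp [Coc.eqv_apply, app]
  · refine (MulEquiv.symm_apply_eq _).2 ?_
    rw [Coc.eqv_apply, ← hP'.cell hi.1, push_cell]
    congr 2
    exact Subsingleton.elim _ _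

/-- The comparison of two pull-backs of the pinned group. -/
theorem cmp (hG : GI Ω E) (h : P.Pre) {T : Type u} [CommRing T] [Algebra Ω T] (b : Ω →+* T) :
    ∃ Θ : E →+* T ⊗[Ω] E, ∀ (C C' : Type u) [CommRing C] [Algebra Ω C] [CommRing C']
      [Algebra Ω C'] (f : T →ₐ[Ω] C) (e : C →+* C'), (∀ a, algebraMap Ω C' a = e (f (b a))) →
        ∃ θ : Pt Ω E C →* Pt Ω E C', (∀ x w, (θ x).ofConv w =
          e (Algebra.TensorProduct.lift f x.ofConv (fun _ _ => Commute.all _ _) (Θ w))) ∧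
          ∀ p, θ (P.cell (Algebra.ofId Ω C) p) = P.cell (Algebra.ofId Ω C') (cmap e p) := by
  obtain ⟨A, _, _, P', ι, hP', hβ⟩ := exists_bc hG h b
  obtain ⟨φ, hφ, hr⟩ := iso ((h.push (Algebra.ofId Ω T)).ok hG) hP'
  refine ⟨(φ : A →+* T ⊗[Ω] E).comp ι, fun C C' _ _ _ _ f e he => ?_⟩
  let _ : Algebra T C := (f : T →+* C).toAlgebra
  have : IsScalarTower Ω T C := .of_algebraMap_eq fun a => (f.commutes a).symm
  let _ : Algebra T C' := (e.comp (f : T →+* C)).toAlgebra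
  let e' : C →ₐ[T] C' := { e with commutes' := fun _ => rfl }
  obtain ⟨β, h1, h2⟩ := hβ C' he
  refine ⟨β.comp ((pm e').comp (Coc.eqv hφ (Algebra.ofId T C)).toMonoidHom), fun x w => ?_,
    fun p => ?_⟩
  · refine (h1 _ w).trans (congrArg e ?_)
    show Algebra.TensorProduct.lift (Algebra.ofId T C) x.ofConv
      (fun _ _ => Commute.all _ _) (φ (ι w)) = _
    rw [RingHom.comp_apply, RingHom.coe_coe]
    generalize φ (ι w) = z
    induction z with
    | zero => simp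
    | add a b ha hb => simp only [map_add, ha, hb]
    | tmul a b => rfl
  · have := hr.cell hφ.1 (Algebra.ofId T C) p
    rw [push_cell, Subsingleton.elim (AlgHom.comp _ _) (Algebra.ofId Ω C)] at this
    show β (pm e' (app φ _ _)) = _
    rw [this, pm_cell, Subsingleton.elim (e'.comp _) (Algebra.ofId T C'), h2]
    rfl

variable (k : Type u) [Field k] [Algebra k Ω]

variable (D) in
/-- The universal coordinates. -/
noncomputable def uc : Co D (Pin.Bc D k) :=
  (fun j => algebraMap _ (Pin.Bc D k) (MvPolynomial.X (R := k) (false, j)), utp _ _,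
    fun j => algebraMap _ (Pin.Bc D k) (MvPolynomial.X (R := k) (true, j)))

/-- Evaluation at given coordinates. -/
noncomputable def evc {C : Type u} [CommRing C] [Algebra k C] (p : Co D C) : Pin.Bc D k →ₐ[k] C :=
  tl (MvPolynomial.aevalTower (Algebra.ofId k C) fun q : Bool × Fin D.N =>
    bif q.1 then p.2.2 q.2 else p.1 q.2) p.2.1

theorem cmap_evc {C : Type u} [CommRing C] [Algebra k C] (p : Co D C) :
    cmap (evc k p : Pin.Bc D k →+* C) (uc D k) = p := by
  have b0 : ∀ x, evc k p (algebraMap _ (Pin.Bc D k) x) = MvPolynomial.aevalTower (Algebra.ofId k C)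
      (fun q : Bool × Fin D.N => bif q.1 then p.2.2 q.2 else p.1 q.2) x :=
    AlgHom.congr_fun (tl_comp_cst _ _)
  refine Prod.ext (funext fun j => ?_) (Prod.ext (tp_ext fun m => ?_) (funext fun j => ?_))
  · exact (b0 _).trans (MvPolynomial.aevalTower_X _ _ _)
  · exact (tl_single _ _ m 1).trans (by rw [map_one, one_mul])
  · exact (b0 _).trans (MvPolynomial.aevalTower_X _ _ _)

variable (P) in
/-- The universal point of the cell, with coordinates over `k`. -/
noncomputable def ka : Pt Ω E (Ω ⊗[k] Pin.Bc D k) :=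
  P.cell (Algebra.ofId Ω _) (cmap Algebra.TensorProduct.includeRight.toRingHom (uc D k))

omit [Algebra.Smooth Ω E] in
theorem pm_ka {C : Type u} [CommRing C] [Algebra Ω C] (g : Ω ⊗[k] Pin.Bc D k →ₐ[Ω] C)
    (r : Pin.Bc D k →+* C) (h : ∀ q, g (1 ⊗ₜ q) = r q) :
    pm g (ka P k) = P.cell (Algebra.ofId Ω C) (cmap r (uc D k)) := by
  rw [ka, pm_cell, cmap_cmap, Subsingleton.elim (g.comp _) (Algebra.ofId Ω C)]
  congr 2
  exact RingHom.ext h

theorem ka_inj (hG : GI Ω E) (h : P.Pre) : Function.Injective (ka P k).ofConv := by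
  let _ : Algebra k (Pin.Bc D Ω) := ((algebraMap Ω _).comp (algebraMap k Ω)).toAlgebra
  obtain ⟨g, hg⟩ := exists_lift (k := k) (Ω := Ω) (evc k (uc D Ω) : Pin.Bc D k →+* Pin.Bc D Ω)
    fun a => (evc k (uc D Ω)).commutes a
  have e : pm g (ka P k) = P.ucell := by
    rw [pm_ka k g _ hg, cmap_evc, Subsingleton.elim (Algebra.ofId Ω _) (Pin.cB D Ω Ω)]
    rfl
  have := hG (AlgebraicClosure Ω)
  have : IsDomain (Ω ⊗[Ω] E) :=
    Function.Injective.isDomain
      (Algebra.TensorProduct.map (Algebra.ofId Ω (AlgebraicClosure Ω)) (AlgHom.id Ω E)).toRingHom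
      (Module.Flat.rTensor_preserves_injective_linearMap (M := E)
        (Algebra.ofId Ω (AlgebraicClosure Ω)).toLinearMap (algebraMap Ω _).injective)
  have hi := inj_of_flat _ (h.ok hG).flat
  intro w w' hw
  refine (Algebra.TensorProduct.lid Ω E).symm.injective (hi ?_)
  have := congrArg g hw
  rw [← pm_apply, ← pm_apply, e] at this
  simpa [val] using this

theorem cmp' (hG : GI Ω E) (h : P.Pre) {T : Type u} [CommRing T] [Algebra Ω T] (b : Ω →+* T) :
    ∃ Θ : E →+* T ⊗[Ω] E, ∀ (C C' : Type u) [CommRing C] [Algebra Ω C] [CommRing C']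
      [Algebra Ω C'] (f : T →ₐ[Ω] C) (e : C →+* C'), (∀ a, algebraMap Ω C' a = e (f (b a))) →
        (∃ θ : Pt Ω E C →* Pt Ω E C', ∀ x w, (θ x).ofConv w =
          e (Algebra.TensorProduct.lift f x.ofConv (fun _ _ => Commute.all _ _) (Θ w))) ∧
        ∀ (g : Ω ⊗[k] Pin.Bc D k →ₐ[Ω] C) (g' : Ω ⊗[k] Pin.Bc D k →ₐ[Ω] C'),
          (∀ q, g' (1 ⊗ₜ q) = e (g (1 ⊗ₜ q))) → ∀ w, g' ((ka P k).ofConv w) =
            e (Algebra.TensorProduct.lift f (g.comp (ka P k).ofConv)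
              (fun _ _ => Commute.all _ _) (Θ w)) := by
  obtain ⟨Θ, hΘ⟩ := cmp hG h b
  refine ⟨Θ, fun C C' _ _ _ _ f e he => ?_⟩
  obtain ⟨θ, h1, h2⟩ := hΘ C C' f e he
  refine ⟨⟨θ, h1⟩, fun g g' hg w => Eq.trans ?_ (h1 (pm g (ka P k)) w)⟩
  rw [pm_ka k g (g.toRingHom.comp Algebra.TensorProduct.includeRight.toRingHom) fun _ => rfl, h2,
    cmap_cmap, ← pm_ka k g' (e.comp (g.toRingHom.comp
      Algebra.TensorProduct.includeRight.toRingHom)) hg, pm_apply]

theorem ka_ctr (hG : GI Ω E) (h : P.Pre) (l : Ω →ₗ[k] k) (w : E) :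
    (1 : Ω) ⊗ₜ[k] ctr l ((ka P k).ofConv w) ∈ (ka P k).ofConv.range := by
  obtain ⟨Θ, hΘ⟩ := cmp' k hG h (T := Ω ⊗[k] Ω) Algebra.TensorProduct.includeRight.toRingHom
  let f : Ω ⊗[k] Ω →ₐ[Ω] Ω ⊗[k] (Ω ⊗[k] Pin.Bc D k) :=
    Algebra.TensorProduct.map (AlgHom.id Ω Ω) Algebra.TensorProduct.includeLeft
  let g : Ω ⊗[k] Pin.Bc D k →ₐ[Ω] Ω ⊗[k] (Ω ⊗[k] Pin.Bc D k) :=
    Algebra.TensorProduct.map (AlgHom.id Ω Ω) Algebra.TensorProduct.includeRight
  obtain ⟨C', _, _, e, he⟩ := exists_via (Ω := Ω) (C := Ω ⊗[k] (Ω ⊗[k] Pin.Bc D k)) (f.toRingHom.comp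
    (Algebra.TensorProduct.includeRight (R := k) (A := Ω) (B := Ω)).toRingHom)
  let g' : Ω ⊗[k] Pin.Bc D k →ₐ[Ω] C' :=
    { e.toRingHom.comp (Algebra.TensorProduct.includeRight (R := k) (A := Ω)).toRingHom with
      commutes' := fun a => (he a).symm }
  have e1 := (hΘ (Ω ⊗[k] (Ω ⊗[k] Pin.Bc D k)) C' f e.toRingHom fun a => he a).2 g g'
    (fun _ => rfl) w
  have e2 : (1 : Ω) ⊗ₜ[k] (ka P k).ofConv w = _ := e.injective e1
  have e3 := congrArg ((ctr l).lTensor Ω) e2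
  rw [LinearMap.lTensor_tmul] at e3
  exact e3.symm ▸ ctr_mem _ l _

variable {k}

theorem key (hG : GI Ω E) (h : P.Pre) {O : Type u} (ι : O → E) (v : O → Pin.Bc D k)
    (hι : ∀ q, (ka P k).ofConv (ι q) = 1 ⊗ₜ v q) (C C' : Type u) [CommRing C] [Algebra Ω C]
    [CommRing C'] [Algebra Ω C'] (e : C →+* C')
    (he : ∀ a : k, e (algebraMap Ω C (algebraMap k Ω a)) = algebraMap Ω C' (algebraMap k Ω a)) :
    ∃ θ : Pt Ω E C →* Pt Ω E C', ∀ x q, (θ x).ofConv (ι q) = e (x.ofConv (ι q)) := by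
  obtain ⟨T, _, _, u, hu⟩ := exists_via (e.comp (algebraMap Ω C))
  obtain ⟨Θ, hΘ⟩ := cmp' k hG h ((u : C' →+* T).comp (algebraMap Ω C'))
  have hfix : ∀ q, Θ (ι q) = 1 ⊗ₜ ι q := fun q => by
    let f : T →ₐ[Ω] T ⊗[Ω] (Ω ⊗[k] Pin.Bc D k) := Algebra.TensorProduct.includeLeft
    let g : Ω ⊗[k] Pin.Bc D k →ₐ[Ω] T ⊗[Ω] (Ω ⊗[k] Pin.Bc D k) := Algebra.TensorProduct.includeRight
    obtain ⟨C₁, _, _, e₁, he₁⟩ := exists_via (Ω := Ω) (C := T ⊗[Ω] (Ω ⊗[k] Pin.Bc D k))
      (f.toRingHom.comp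
      ((u : C' →+* T).comp (algebraMap Ω C')))
    obtain ⟨g', hg'⟩ := exists_lift (k := k) (Ω := Ω) (e₁.toRingHom.comp (g.toRingHom.comp
      (Algebra.TensorProduct.includeRight (R := k) (A := Ω)).toRingHom)) fun a => by
        rw [he₁]
        refine congrArg e₁ ?_
        show g (Algebra.TensorProduct.includeRight (algebraMap k _ a)) = f (u _)
        rw [AlgHom.commutes, IsScalarTower.algebraMap_apply k Ω, g.commutes, ← f.commutes, hu,
          RingHom.comp_apply, he]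
    have e1 := (hΘ (T ⊗[Ω] (Ω ⊗[k] Pin.Bc D k)) C₁ f e₁.toRingHom fun a => he₁ a).2 g g' hg' (ι q)
    rw [hι, hg'] at e1
    refine lift_inj (ka P k).ofConv (ka_inj k hG h) ?_
    rw [hι]
    exact e₁.injective e1
  obtain ⟨θ, h1⟩ := (hΘ T C' (AlgHom.id Ω T) u.symm fun a => (u.symm_apply_apply _).symm).1
  let e' : C →ₐ[Ω] T := { (u : C' →+* T).comp e with commutes' := fun a => (hu a).symm }
  refine ⟨θ.comp (pm e'), fun x q => ?_⟩
  rw [MonoidHom.comp_apply, h1, hfix, Algebra.TensorProduct.lift_tmul, map_one, one_mul]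
  exact u.symm_apply_apply _

end Pool.Agent.RED.Fm
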