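import Pool.Agent.P.MP_c1f06d_ag.g.Defs
import Pool.Agent.P.MP_c1f06d_ag.g.WUniq

open TensorProduct Polynomial Pool.Agent.GR

universe u

namespace Pool.Agent.RED

section desc

variable {k O Ω : Type u} [Field k] [CommRing O] [HopfAlgebra k O] [Field Ω] [Algebra k Ω]
  {M : Type} [AddCommGroup M] {t : Pt k O (GA k M)}

/-- Every algebra has a faithfully flat extension that contains the field extension. -/
theorem fmd_ext (Ω : Type u) [Field Ω] [Algebra k Ω] (S : Type u) [CommRing S] [Algebra k S] :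
    ∃ (T : Type u) (_ : CommRing T) (_ : Algebra k T) (f : S →ₐ[k] T) (_ : Ω →ₐ[k] T),
      Function.Injective f ∧ ∀ a : T, (∀ (U : Type u) [CommRing U] [Algebra k U]
        (i i' : T →ₐ[k] U), i.comp f = i'.comp f → i a = i' a) → ∃ s, f s = a := by
  refine ⟨S ⊗[k] Ω, inferInstance, inferInstance, Algebra.TensorProduct.includeLeft,
    Algebra.TensorProduct.includeRight, ?_, fun a ha => ?_⟩
  · exact FaithfulSMul.algebraMap_injective S (S ⊗[k] Ω)
  · have h1 := ha ((S ⊗[k] Ω) ⊗[S] (S ⊗[k] Ω)) Algebra.TensorProduct.includeLeft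
      (Algebra.TensorProduct.includeRight.restrictScalars k) (AlgHom.ext fun s =>
        Algebra.TensorProduct.tmul_one_eq_one_tmul (R := S) s)
    exact (Algebra.IsEffective.of_faithfullyFlat S (S ⊗[k] Ω) a).1 (sub_eq_zero.2 h1)

theorem fmd_comp {S T : Type u} [CommRing S] [Algebra k S] [CommRing T] [Algebra k T]
    (j : k →ₐ[k] S) (f : S →ₐ[k] T) (e : Ω →ₐ[k] T) :
    e.comp (Algebra.ofId k Ω) = f.comp j := Subsingleton.elim _ _

theorem IsHom.desc (h : IsHom (bc (Algebra.ofId k Ω) t)) : IsHom t := by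
  intro S _ _ j τ τ'
  obtain ⟨T, _, _, f, e, hf, -⟩ := fmd_ext (k := k) Ω S
  refine pm_inj f hf ?_
  have h1 := h T e (tm f τ) (tm f τ')
  rw [tev_bc, tev_bc, tev_bc, fmd_comp j f e] at h1
  rw [map_mul, pm_tev, pm_tev, pm_tev, ← h1]
  exact congrArg _ (tp_ext fun m => by rw [chv_tm, chv_mul, chv_mul, map_mul, chv_tm, chv_tm])

theorem ZT.desc (h : ZT (bc (Algebra.ofId k Ω) t)) : ZT t := by
  intro S _ _ j g hg
  obtain ⟨T, _, _, f, e, hf, hd⟩ := fmd_ext (k := k) Ω S
  have key : ∀ (U : Type u) [CommRing U] [Algebra k U] (i : T →ₐ[k] U),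
      ∃! τ : TP M U, pm (i.comp f) g = tev t ((i.comp f).comp j) τ := by
    intro U _ _ i
    have h1 := h U (i.comp e) (pm (i.comp f) g)
      ((inG_bc _).2 (by rw [fmd_comp j (i.comp f)]; exact hg.map _))
    simpa only [tev_bc, fmd_comp j (i.comp f)] using h1
  obtain ⟨τ', hτ', hu⟩ := key T (AlgHom.id k T)
  rw [AlgHom.id_comp] at hτ' hu
  have hr : ∀ m, ∃ s, f s = chv τ' m := fun m => hd _ fun U _ _ i i' hi => by
    have e1 := congrArg (pm i) hτ'
    have e2 := congrArg (pm i') hτ'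
    rw [pm_pm, pm_tev, ← AlgHom.comp_assoc] at e1 e2
    rw [← hi] at e2
    rw [← chv_tm, ← chv_tm, (key U i).unique e1 e2]
  choose s hs using hr
  have hm : ∀ m n, s (m + n) = s m * s n := fun m n => hf (by rw [map_mul, hs, hs, hs, chv_add])
  have h0 : s 0 = 1 := hf (by rw [hs, chv_zero, map_one])
  let τ : TP M S :=
    { toFun := fun m => ⟨s m.toAdd, s (-m.toAdd), by rw [← hm, add_neg_cancel, h0],
        by rw [← hm, neg_add_cancel, h0]⟩
      map_one' := Units.ext h0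
      map_mul' := fun a b => Units.ext (hm _ _) }
  have hτ : tm f τ = τ' := tp_ext fun m => hs m
  refine ⟨τ, pm_inj f hf (by rw [pm_tev, hτ, hτ']), fun σ hσ => tp_ext fun m => hf ?_⟩
  rw [← chv_tm, ← chv_tm, hτ, hu (tm f σ) (by rw [hσ, pm_tev])]

theorem IsRoot.desc {α : M} {x : Pt k O k[X]}
    (h : IsRoot (bc (Algebra.ofId k Ω) t) α (pm (Polynomial.mapAlgHom (Algebra.ofId k Ω)) x)) :
    IsRoot t α x := by
  have key : ∀ (S U : Type u) [CommRing S] [Algebra k S] [CommRing U] [Algebra k U]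
      (j : k →ₐ[k] S) (f : S →ₐ[k] U) (_ : Ω →ₐ[k] U), Set.BijOn (cv x (f.comp j)) Set.univ
        {g : Pt k O U | InU (ray α) t (f.comp j) g} := by
    intro S U _ _ _ _ j f e
    have h1 := h.bij U e
    rw [funext (cv_bc x _ e)] at h1
    simpa only [inU_bc, fmd_comp j f] using h1
  refine ⟨fun S _ _ j => ?_, fun S _ _ j a b => ?_, fun S _ _ j τ a => ?_⟩
  · obtain ⟨T, _, _, f, e, hf, hd⟩ := fmd_ext (k := k) Ω S
    refine ⟨fun a _ => InU.of_inj f hf ?_, fun a _ b _ hab => hf ?_, fun g hg => ?_⟩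
    · rw [pm_cv]
      exact (key S T j f e).mapsTo (Set.mem_univ _)
    · refine (key S T j f e).injOn (Set.mem_univ _) (Set.mem_univ _) ?_
      rw [← pm_cv, ← pm_cv, hab]
    · obtain ⟨a, -, ha⟩ := (key S T j f e).surjOn (InU.map hg f)
      obtain ⟨s, rfl⟩ := hd a fun U _ _ i i' hi => by
        have e1 := congrArg (pm i) ha
        have e2 := congrArg (pm i') ha
        rw [pm_pm, pm_cv, ← AlgHom.comp_assoc] at e1 e2
        rw [← hi] at e2
        exact (key S U j (i.comp f) (i.comp e)).injOn (Set.mem_univ _) (Set.mem_univ _)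
          (e1.trans e2.symm)
      exact ⟨s, Set.mem_univ _, pm_inj f hf (by rw [pm_cv, ha])⟩
  · obtain ⟨T, _, _, f, e, hf, -⟩ := fmd_ext (k := k) Ω S
    refine pm_inj f hf ?_
    have h1 := h.add T e (f a) (f b)
    rw [cv_bc, cv_bc, cv_bc, fmd_comp j f e] at h1
    rw [map_mul, pm_cv, pm_cv, pm_cv, map_add, h1]
  · obtain ⟨T, _, _, f, e, hf, -⟩ := fmd_ext (k := k) Ω S
    refine pm_inj f hf ?_
    have h1 := h.eqv T e (tm f τ) (f a)
    rw [cv_bc, cv_bc, tev_bc, fmd_comp j f e] at h1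
    rw [map_mul, map_mul, map_inv, pm_cv, pm_cv, pm_tev, map_mul, h1, chv_tm]

theorem SL2.desc {cor : M →+ ℤ} {x y : Pt k O k[X]}
    (h : SL2 (bc (Algebra.ofId k Ω) t) cor 1 (pm (Polynomial.mapAlgHom (Algebra.ofId k Ω)) x)
      (pm (Polynomial.mapAlgHom (Algebra.ofId k Ω)) y)) : SL2 t cor 1 x y := by
  intro S _ _ j a b s hs
  obtain ⟨T, _, _, f, e, hf, -⟩ := fmd_ext (k := k) Ω S
  refine pm_inj f hf ?_
  have h1 := h T e (f a) (f b) (Units.map (f : S →* T) s) (by
    rw [map_one] at hs ⊢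
    change f s = _
    rw [hs, map_add, map_one, map_mul, map_mul, map_one])
  rw [cv_bc, cv_bc, cv_bc, cv_bc, tev_bc, fmd_comp j f e] at h1
  rw [map_mul, map_mul, map_mul, pm_cv, pm_cv, pm_cv, pm_cv, pm_tev, h1, map_mul, map_mul, tm_coc]
  rfl

end desc

theorem Pin.Pre.desc {k O Ω : Type u} [Field k] [CommRing O] [HopfAlgebra k O]
    [Algebra.Smooth k O] (_hG : GI k O) [Field Ω] [Algebra k Ω] {D : RD} {Q : Pin D k O k}
    (h : (Q.push (Algebra.ofId k Ω)).Pre) : Q.Pre where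
  hom := h.hom.desc
  zt := h.zt.desc
  wts := Wts.spread h.hom.desc (Algebra.ofId k Ω) h.wts
  root b i := (h.root b i).desc
  sl2 i := (h.sl2 i).desc

end Pool.Agent.RED
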