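import Pool.Agent.P.MP_c1f06d_ag.g.HDefs

open Matrix WithConv Pool.Agent.GR Pool.Agent.GR.AQ
open scoped TensorProduct

universe u

namespace Pool.Agent.RED

section yon

open Algebra.TensorProduct

variable {k A : Type u} [CommRing k] [CommRing A] [Algebra k A] (N : NatGrp k A)

/-- The group of points of a natural group law. -/
@[reducible] def NatGrp.grp (T : Type u) [CommRing T] [Algebra k T] : Group (A →ₐ[k] T) :=
  @Group.ofLeftAxioms _ ⟨N.mul⟩ ⟨fun x => x.comp N.inv⟩ ⟨(Algebra.ofId k T).comp N.one⟩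
    N.assoc N.one_mul N.inv_mul

variable {T : Type u} [CommRing T] [Algebra k T]

theorem NatGrp.mul_one (x : A →ₐ[k] T) : N.mul x ((Algebra.ofId k T).comp N.one) = x :=
  @_root_.mul_one _ (N.grp T).toMonoid.toMulOneClass x

theorem NatGrp.mul_inv (x : A →ₐ[k] T) :
    N.mul x (x.comp N.inv) = (Algebra.ofId k T).comp N.one :=
  @mul_inv_cancel _ (N.grp T) x

/-- The comultiplication. -/
noncomputable def NatGrp.cm : A →ₐ[k] A ⊗[k] A := N.mul includeLeft includeRight

theorem NatGrp.comp_cm (f : A ⊗[k] A →ₐ[k] T) (x y : A →ₐ[k] T) (hx : ∀ a, f (a ⊗ₜ 1) = x a)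
    (hy : ∀ a, f (1 ⊗ₜ a) = y a) : f.comp N.cm = N.mul x y := by
  rw [NatGrp.cm, N.nat, show f.comp includeLeft = x from AlgHom.ext hx,
    show f.comp includeRight = y from AlgHom.ext hy]

theorem NatGrp.cm_assoc : (Algebra.TensorProduct.assoc k k k A A A).toAlgHom.comp
    ((Algebra.TensorProduct.map N.cm (.id k A)).comp N.cm) =
    (Algebra.TensorProduct.map (.id k A) N.cm).comp N.cm := by
  have h1 := N.comp_cm ((Algebra.TensorProduct.assoc k k k A A A).toAlgHom.comp includeLeft)
    includeLeft (includeRight.comp includeLeft) (fun a => by simp [one_def]) fun a => by simp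
  have h2 := N.comp_cm (includeRight : A ⊗[k] A →ₐ[k] A ⊗[k] (A ⊗[k] A))
    (includeRight.comp includeLeft) (includeRight.comp includeRight) (fun a => rfl) fun a => rfl
  rw [← AlgHom.comp_assoc, N.comp_cm _ _ (includeRight.comp includeRight)
    (fun a => (by simp : _ = ((Algebra.TensorProduct.assoc k k k A A A).toAlgHom.comp
      includeLeft).comp N.cm a)) (fun a => by simp [one_def]),
    N.comp_cm (Algebra.TensorProduct.map (.id k A) N.cm) includeLeft (includeRight.comp N.cm)
      (fun a => by simp) (fun a => by simp), h1, h2, N.assoc]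

theorem NatGrp.cm_left : (Algebra.TensorProduct.map N.one (.id k A)).comp N.cm =
    (Algebra.TensorProduct.lid k A).symm := by
  rw [N.comp_cm _ ((Algebra.ofId k _).comp N.one) includeRight
    (fun a => by simp [Algebra.ofId_apply]) (fun a => by simp), N.one_mul]
  ext a
  simp

theorem NatGrp.cm_right : (Algebra.TensorProduct.map (.id k A) N.one).comp N.cm =
    (Algebra.TensorProduct.rid k k A).symm := by
  rw [N.comp_cm _ includeLeft ((Algebra.ofId k _).comp N.one) (fun a => by simp)
    (fun a => (algebraMap_apply' (A := A) (B := k) (N.one a)).symm), N.mul_one]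
  ext a
  simp

end yon

/-- YON: the Hopf algebra of a natural group law. -/
@[reducible] noncomputable def NatGrp.hopf {k A : Type u} [CommRing k] [CommRing A] [Algebra k A]
    (N : NatGrp k A) : HopfAlgebra k A :=
  letI : Bialgebra k A := Bialgebra.ofAlgHom N.cm N.one N.cm_assoc N.cm_left N.cm_right
  HopfAlgebra.ofAlgHom N.inv
    ((N.comp_cm _ ((AlgHom.id k A).comp N.inv) (.id k A) (fun a => by simp)
      fun a => by simp).trans (N.inv_mul _))
    ((N.comp_cm _ (.id k A) ((AlgHom.id k A).comp N.inv) (fun a => by simp)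
      fun a => by simp).trans (N.mul_inv _))

theorem NatGrp.hopf_mul {k A : Type u} [CommRing k] [CommRing A] [Algebra k A] (N : NatGrp k A)
    {T : Type u} [CommRing T] [Algebra k T] (x y : A →ₐ[k] T) :
    letI := N.hopf
    (toConv x * toConv y : Pt k A T).ofConv = N.mul x y := by
  let _ := N.hopf
  rw [← N.comp_cm (Algebra.TensorProduct.lift x y fun _ _ => Commute.all _ _) x y
    (fun a => by simp) fun a => by simp]
  exact AlgHom.ext fun a => RG.pt_mul_apply (toConv x) (toConv y) a

theorem NatGrp.hopf_one {k A : Type u} [CommRing k] [CommRing A] [Algebra k A] (N : NatGrp k A)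
    {T : Type u} [CommRing T] [Algebra k T] :
    letI := N.hopf
    (1 : Pt k A T).ofConv = (Algebra.ofId k T).comp N.one := rfl

theorem NatGrp.hopf_inv {k A : Type u} [CommRing k] [CommRing A] [Algebra k A] (N : NatGrp k A)
    {T : Type u} [CommRing T] [Algebra k T] (x : A →ₐ[k] T) :
    letI := N.hopf
    ((toConv x)⁻¹ : Pt k A T).ofConv = x.comp N.inv := rfl

open AlgebraicGeometry CategoryTheory in
/-- SM: a geometrically reduced affine group of finite type over a field is smooth. -/
theorem smooth_of_hopf (k A : Type u) [Field k] [CommRing A] [HopfAlgebra k A]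
    [Algebra.FiniteType k A]
    (h : ∀ (W : Type u) [Field W] [Algebra k W], IsReduced (W ⊗[k] A)) : Algebra.Smooth k A := by
  let f : Spec (.of A) ⟶ Spec (.of k) := Spec.map (CommRingCat.ofHom (algebraMap k A))
  have h1 : LocallyOfFiniteType f :=
    locallyOfFiniteType_specOverSpec (R := .of k) (A := .of A)
  let _ : GrpObj (Over.mk f) := instGrpObjSpecAsOverSpec (R := .of k) (A := .of A)
  have h2 : GeometricallyReduced f := by
    refine ⟨geometrically_iff_of_commRing.2 fun W _ _ Y fst snd hp => ?_⟩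
    have := h W
    have : _root_.IsReduced (A ⊗[k] W) := isReduced_of_injective
      (Algebra.TensorProduct.comm k A W) (Algebra.TensorProduct.comm k A W).injective
    exact isReduced_of_isOpenImmersion (hp.isoPullback ≪≫ pullbackSpecIso k A W).hom
  have h3 := smooth_of_grpObj f
  rw [HasRingHomProperty.Spec_iff (P := @Smooth)] at h3
  exact RingHom.smooth_algebraMap.1 h3

section grp

open Co

variable {k : Type u} [CommRing k] {m : ℕ} {I : Ideal (OGL k m)}
  {T : Type u} [CommRing T] [Algebra k T]

theorem hYon_ext {x y : (OGL k m ⧸ I) →ₐ[k] T} (h : gm x (uq I) = gm y (uq I)) : x = y := by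
  rw [uq, gm_gm, gm_gm] at h
  exact Ideal.Quotient.algHom_ext k (ogl_ext h)

/-- The natural group law of a closed subgroup. -/
noncomputable def natOfIsGrp (hI : IsGrp I) : NatGrp k (OGL k m ⧸ I) where
  mul x y := (hI.mul ((vz_uq I).map x) ((vz_uq I).map y)).lift
  one := (hI.one k).lift
  inv := (hI.inv (vz_uq I)).lift
  nat f x y := hYon_ext (by
    rw [← gm_gm, Vz.gm_lift, Vz.gm_lift, map_mul, gm_gm, gm_gm])
  assoc x y z := hYon_ext (by simp only [Vz.gm_lift, mul_assoc])
  one_mul x := hYon_ext (by rw [Vz.gm_lift, ← gm_gm, Vz.gm_lift, map_one, one_mul])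
  inv_mul x := hYon_ext (by
    rw [Vz.gm_lift, ← gm_gm, ← gm_gm, Vz.gm_lift, Vz.gm_lift, map_inv, map_one, inv_mul_cancel])

theorem natOfIsGrp_mul (hI : IsGrp I) (x y : (OGL k m ⧸ I) →ₐ[k] T) :
    gm ((natOfIsGrp hI).mul x y) (uq I) = gm x (uq I) * gm y (uq I) := Vz.gm_lift _

end grp

/-- SM for a closed subgroup of `GL_m`. -/
theorem smooth_of_isGrp {k : Type u} [Field k] {m : ℕ} {I : Ideal (OGL k m)} (hI : IsGrp I)
    (h : ∀ (W : Type u) [Field W] [Algebra k W], IsReduced (W ⊗[k] (OGL k m ⧸ I))) :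
    Algebra.Smooth k (OGL k m ⧸ I) :=
  @smooth_of_hopf k (OGL k m ⧸ I) _ _ (natOfIsGrp hI).hopf
    (Algebra.FiniteType.of_surjective (Ideal.Quotient.mkₐ k I) Ideal.Quotient.mk_surjective) h

end Pool.Agent.RED
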