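import Pool.Agent.P.MP_c1f06d_ag.g.Defs
import Pool.Agent.P.MP_c1f06d_ag.g.HYon

/-! Descent of the group law, of smoothness and of geometric integrality along a field
extension. -/

open TensorProduct Polynomial Matrix Pool.Agent.GR

universe u

namespace Pool.Agent.RED

section H

open WithConv Algebra.TensorProduct

variable {k Ω E O : Type u} [Field k] [Field Ω] [Algebra k Ω] [CommRing E] [HopfAlgebra Ω E]
  [CommRing O] [Algebra k O]

theorem fmH_ext (ψ : E ≃ₐ[Ω] Ω ⊗[k] O) {C : Type u} [CommRing C] [Algebra Ω C]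
    {x y : Pt Ω E C} (h : ∀ q, x.ofConv (ψ.symm (1 ⊗ₜ q)) = y.ofConv (ψ.symm (1 ⊗ₜ q))) :
    x = y := by
  refine WithConv.ext (AlgHom.ext fun a => ?_)
  obtain ⟨w, rfl⟩ := ψ.symm.surjective a
  induction w with
  | zero => simp
  | tmul c q =>
    have : (c ⊗ₜ[k] q : Ω ⊗[k] O) = c • (1 ⊗ₜ q) := by simp [TensorProduct.smul_tmul']
    rw [this, map_smul, map_smul, map_smul, h]
  | add v w hv hw => simp only [map_add, hv, hw]

/-- The base change of a point. -/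
noncomputable def fmL (ψ : E ≃ₐ[Ω] Ω ⊗[k] O) {T : Type u} [CommRing T] [Algebra k T]
    (x : O →ₐ[k] T) : Pt Ω E (Ω ⊗[k] T) :=
  toConv ((Algebra.TensorProduct.map (AlgHom.id Ω Ω) x).comp ψ.toAlgHom)

variable (ψ : E ≃ₐ[Ω] Ω ⊗[k] O) {T T' : Type u} [CommRing T] [Algebra k T] [CommRing T']
  [Algebra k T']

theorem fmL_apply (x : O →ₐ[k] T) (q : O) : (fmL ψ x).ofConv (ψ.symm (1 ⊗ₜ q)) = 1 ⊗ₜ x q := by
  simp [fmL]

theorem fmH_inj (k Ω T : Type u) [Field k] [Field Ω] [Algebra k Ω] [CommRing T] [Algebra k T] :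
    Function.Injective (includeRight : T →ₐ[k] Ω ⊗[k] T) :=
  includeRight_injective (algebraMap k Ω).injective

theorem fmL_inj : Function.Injective (fmL ψ : (O →ₐ[k] T) → _) := fun x y h =>
  AlgHom.ext fun q => fmH_inj k Ω T (by
    have := fmL_apply ψ x q
    rw [h, fmL_apply] at this
    exact this.symm)

theorem fmL_nat (f : T →ₐ[k] T') (x : O →ₐ[k] T) :
    fmL ψ (f.comp x) = pm (Algebra.TensorProduct.map (AlgHom.id Ω Ω) f) (fmL ψ x) :=
  fmH_ext ψ fun q => by rw [pm_apply, fmL_apply, fmL_apply]; simp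

theorem fmH_eq {w : Ω ⊗[k] T} (h : (1 : Ω) ⊗ₜ[k] w =
    Algebra.TensorProduct.map (AlgHom.id Ω Ω) (includeRight : T →ₐ[k] Ω ⊗[k] T) w) :
    ∃ t : T, (1 : Ω) ⊗ₜ[k] t = w := by
  obtain ⟨l, hl⟩ := Module.Projective.exists_dual_eq_one k (one_ne_zero (α := Ω))
  let c : ∀ (M : Type u) [AddCommGroup M] [Module k M], Ω ⊗[k] M →ₗ[k] M := fun M _ _ =>
    (TensorProduct.lid k M).toLinearMap.comp (l.rTensor M)
  have hc : ∀ (M : Type u) [AddCommGroup M] [Module k M] (a : Ω) (m : M),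
      c M (a ⊗ₜ m) = l a • m := fun M _ _ a m => by simp [c]
  have h2 : ∀ v : Ω ⊗[k] T, c _ (Algebra.TensorProduct.map (AlgHom.id Ω Ω)
      (includeRight : T →ₐ[k] Ω ⊗[k] T) v) = 1 ⊗ₜ c T v := fun v => by
    induction v with
    | zero => simp
    | tmul a t => simp [hc]
    | add v w hv hw => simp only [map_add, hv, hw, TensorProduct.tmul_add]
  refine ⟨c T w, ?_⟩
  rw [← h2, ← h, hc, hl, one_smul]

theorem fmL_range {z : Pt Ω E (Ω ⊗[k] T)}
    (h : ∀ q, ∃ t : T, (1 : Ω) ⊗ₜ[k] t = z.ofConv (ψ.symm (1 ⊗ₜ q))) : ∃ x, fmL ψ x = z := by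
  let g : O →ₐ[k] Ω ⊗[k] T :=
    ((z.ofConv.comp ψ.symm.toAlgHom).restrictScalars k).comp includeRight
  have hg : ∀ q, g q ∈ (includeRight : T →ₐ[k] Ω ⊗[k] T).range := fun q => h q
  refine ⟨(AlgEquiv.ofInjective _ (fmH_inj k Ω T)).symm.toAlgHom.comp (g.codRestrict _ hg),
    fmH_ext ψ fun q => ?_⟩
  rw [fmL_apply]
  exact congrArg Subtype.val
    ((AlgEquiv.ofInjective _ (fmH_inj k Ω T)).apply_symm_apply (g.codRestrict _ hg q))

theorem fmL_sub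
    (key : ∀ (C C' : Type u) [CommRing C] [Algebra Ω C] [CommRing C'] [Algebra Ω C']
      (e : C →+* C'), (∀ a : k, e (algebraMap Ω C (algebraMap k Ω a)) =
        algebraMap Ω C' (algebraMap k Ω a)) → ∃ θ : Pt Ω E C →* Pt Ω E C', ∀ x q,
          (θ x).ofConv (ψ.symm (1 ⊗ₜ q)) = e (x.ofConv (ψ.symm (1 ⊗ₜ q))))
    (T : Type u) [CommRing T] [Algebra k T] :
    ∃ S : Subgroup (Pt Ω E (Ω ⊗[k] T)), ∀ z, z ∈ S ↔ ∃ x, fmL ψ x = z := by
  obtain ⟨θ, hθ⟩ := key (Ω ⊗[k] T) (Ω ⊗[k] (Ω ⊗[k] T))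
    (includeRight : Ω ⊗[k] T →ₐ[k] Ω ⊗[k] (Ω ⊗[k] T)).toRingHom fun a => by
      rw [← IsScalarTower.algebraMap_apply, ← IsScalarTower.algebraMap_apply]
      exact AlgHom.commutes _ a
  refine ⟨θ.eqLocus (pm (Algebra.TensorProduct.map (AlgHom.id Ω Ω) includeRight)), fun z =>
    ⟨fun hz => fmL_range ψ fun q => fmH_eq ?_, ?_⟩⟩
  · have hz' : θ z = pm (Algebra.TensorProduct.map (AlgHom.id Ω Ω) includeRight) z := hz
    rw [← pm_apply, ← hz', hθ]
    rfl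
  · rintro ⟨x, rfl⟩
    refine fmH_ext ψ fun q => ?_
    rw [hθ, pm_apply, fmL_apply]
    simp

theorem hopf_desc (ψ : E ≃ₐ[Ω] Ω ⊗[k] O)
    (key : ∀ (C C' : Type u) [CommRing C] [Algebra Ω C] [CommRing C'] [Algebra Ω C']
      (e : C →+* C'), (∀ a : k, e (algebraMap Ω C (algebraMap k Ω a)) =
        algebraMap Ω C' (algebraMap k Ω a)) → ∃ θ : Pt Ω E C →* Pt Ω E C', ∀ x q,
          (θ x).ofConv (ψ.symm (1 ⊗ₜ q)) = e (x.ofConv (ψ.symm (1 ⊗ₜ q)))) :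
    ∃ N : NatGrp k O, letI := N.hopf
      IsIso (ψ.toAlgHom : Hm k Ω O E Ω) := by
  have hm : ∀ (T : Type u) [CommRing T] [Algebra k T] (x y : O →ₐ[k] T),
      ∃ z, fmL ψ z = fmL ψ x * fmL ψ y := fun T _ _ x y => by
    obtain ⟨S, hS⟩ := fmL_sub ψ key T
    exact (hS _).1 (S.mul_mem ((hS _).2 ⟨x, rfl⟩) ((hS _).2 ⟨y, rfl⟩))
  choose mul hmul using hm
  obtain ⟨one, hone⟩ : ∃ z : O →ₐ[k] k, fmL ψ z = 1 := by
    obtain ⟨S, hS⟩ := fmL_sub ψ key k
    exact (hS _).1 S.one_mem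
  obtain ⟨inv, hinv⟩ : ∃ z : O →ₐ[k] O, fmL ψ z = (fmL ψ (AlgHom.id k O))⁻¹ := by
    obtain ⟨S, hS⟩ := fmL_sub ψ key O
    exact (hS _).1 (S.inv_mem ((hS _).2 ⟨_, rfl⟩))
  let N : NatGrp k O :=
    { mul := fun x y => mul _ x y
      one := one
      inv := inv
      nat := fun f x y => fmL_inj ψ (by rw [fmL_nat, hmul, hmul, map_mul, fmL_nat, fmL_nat])
      assoc := fun x y z => fmL_inj ψ (by simp only [hmul, mul_assoc])
      one_mul := fun x => fmL_inj ψ (by rw [hmul, fmL_nat, hone, map_one, one_mul])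
      inv_mul := fun x => fmL_inj ψ (by
        rw [hmul, fmL_nat, fmL_nat, hone, hinv, map_one, map_inv, ← fmL_nat, AlgHom.comp_id,
          inv_mul_cancel]) }
  refine ⟨N, ?_⟩
  let _ := N.hopf
  have ha : ∀ (C : Type u) [CommRing C] [Algebra k C] [Algebra Ω C] [IsScalarTower k Ω C]
      (f : Ω →ₐ[Ω] C) (g : Pt k O C) (q : O),
      (app (ψ.toAlgHom : Hm k Ω O E Ω) f g).ofConv (ψ.symm (1 ⊗ₜ q)) = g.ofConv q :=
    fun C _ _ _ _ f g q => by simp [app]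
  have hb : ∀ (C : Type u) [CommRing C] [Algebra k C] [Algebra Ω C] [IsScalarTower k Ω C]
      (f : Ω →ₐ[Ω] C) (g : Pt k O C), app (ψ.toAlgHom : Hm k Ω O E Ω) f g =
        pm (Algebra.TensorProduct.lift f (AlgHom.id k C) fun _ _ => Commute.all _ _)
          (fmL ψ g.ofConv) :=
    fun C _ _ _ _ f g => fmH_ext ψ fun q => by rw [ha, pm_apply, fmL_apply]; simp
  refine ⟨fun C _ _ _ _ f g g' => ?_, fun C _ _ _ _ f => ⟨fun g g' h => ?_, fun z => ?_⟩⟩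
  · have h1 : (g * g').ofConv = mul C g.ofConv g'.ofConv := N.hopf_mul g.ofConv g'.ofConv
    rw [hb, hb, hb, h1, hmul, map_mul]
  · exact WithConv.ext (AlgHom.ext fun q => by rw [← ha C f g, h, ha])
  · exact ⟨toConv (((z.ofConv.comp ψ.symm.toAlgHom).restrictScalars k).comp includeRight),
      fmH_ext ψ fun q => ha C f _ q⟩

omit [HopfAlgebra Ω E] in
theorem smooth_desc [Algebra Ω E] [Algebra.Smooth Ω E] (ψ : E ≃ₐ[Ω] Ω ⊗[k] O) :
    Algebra.Smooth k O :=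
  have : Algebra.Smooth Ω (Ω ⊗[k] O) := .of_equiv ψ
  .of_smooth_tensorProduct_of_faithfullyFlat Ω

theorem gi_desc (hG : GI Ω E) (ψ : E ≃ₐ[Ω] Ω ⊗[k] O) (K : Type u) [Field K] [Algebra k K] :
    IsDomain (K ⊗[k] O) := by
  obtain ⟨m, hm⟩ := Ideal.exists_maximal (Ω ⊗[k] K)
  let _ := Ideal.Quotient.field m
  let W := AlgebraicClosure ((Ω ⊗[k] K) ⧸ m)
  have h1 := hG W
  let j : K →ₐ[k] W := ((IsScalarTower.toAlgHom k ((Ω ⊗[k] K) ⧸ m) W).comp
    (Ideal.Quotient.mkₐ k m)).comp includeRight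
  have h2 : IsDomain (W ⊗[k] O) := MulEquiv.isDomain _
    ((Algebra.TensorProduct.congr (AlgEquiv.refl (R := Ω) (A₁ := W)) ψ).trans
      (cancelBaseChange k Ω Ω W O)).symm.toMulEquiv
  exact Function.Injective.isDomain (Algebra.TensorProduct.map j (AlgHom.id k O)).toRingHom
    (Module.Flat.rTensor_preserves_injective_linearMap (M := O) j.toLinearMap j.injective)

end H

end Pool.Agent.RED
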