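import Pool.Agent.P.MP_c1f06d_ag.g.Coc
import Pool.Agent.P.MP_c1f06d_ag.g.Grp
import Pool.Agent.P.MP_c1f06d_ag.g.BC
import Pool.Agent.P.MP_c1f06d_ag.g.RDL

/-! Transport of pinnings along an isomorphism. -/

open TensorProduct Polynomial Matrix Pool.Agent.GR

universe u

namespace Pool.Agent.RED

namespace FmT

section sup

variable {k A S₀ C : Type u} [CommRing k] [CommRing A] [HopfAlgebra k A] [CommRing S₀]
  [Algebra k S₀] [CommRing C] [Algebra k C] {M : Type} [AddCommGroup M] {t : Pt k A (GA S₀ M)}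
  {j : S₀ →ₐ[k] C} {Λ : AddSubmonoid M} {g : Pt k A C}

theorem inG_iff' : InG Λ t j g ↔
    ∃ y : Pt k A (sup C C Λ), pm ((sup C C Λ).val.restrictScalars k) y = cj t j g :=
  ⟨fun h => ⟨WithConv.toConv { ((cj t j g).ofConv : A →+* GA C M).codRestrict (sup C C Λ) h with
      commutes' := fun r => Subtype.ext ((cj t j g).ofConv.commutes r) }, rfl⟩,
    fun ⟨y, hy⟩ a => by
      rw [← hy]
      exact (y.ofConv a).2⟩

theorem inU_iff' (hΛ : Pos Λ) : InU Λ t j g ↔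
    ∃ y : Pt k A (sup C C Λ), pm ((sup C C Λ).val.restrictScalars k) y = cj t j g ∧
      pm ((e0 C C hΛ).restrictScalars k) y = 1 := by
  constructor
  · intro h
    obtain ⟨y, hy⟩ := inG_iff'.1 h.1
    refine ⟨y, hy, pt_ext fun a => ?_⟩
    rw [← h.2 a, ← hy]
    rfl
  · rintro ⟨y, hy, h1⟩
    refine ⟨inG_iff'.2 ⟨y, hy⟩, fun a => ?_⟩
    rw [← hy, ← h1]
    rfl

end sup

/-- A natural isomorphism of the groups of points over `B`. -/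
structure Dict (k R A₁ A₂ B : Type u) [CommRing k] [CommRing R] [CommRing A₁] [HopfAlgebra k A₁]
    [CommRing A₂] [HopfAlgebra R A₂] [CommRing B] [Algebra k B] [Algebra R B] where
  e : ∀ {C : Type u} [CommRing C] [Algebra k C] [Algebra R C] (f₁ : B →ₐ[k] C) (f₂ : B →ₐ[R] C),
    (∀ b, f₁ b = f₂ b) → Pt k A₁ C ≃* Pt R A₂ C
  nat : ∀ {C C' : Type u} [CommRing C] [Algebra k C] [Algebra R C] [CommRing C'] [Algebra k C']
    [Algebra R C'] (f₁ : B →ₐ[k] C) (f₂ : B →ₐ[R] C) (h : ∀ b, f₁ b = f₂ b) (f₁' : B →ₐ[k] C')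
    (f₂' : B →ₐ[R] C') (h' : ∀ b, f₁' b = f₂' b) (j₁ : C →ₐ[k] C') (j₂ : C →ₐ[R] C'),
    (∀ c, j₁ c = j₂ c) → j₂.comp f₂ = f₂' → ∀ x, pm j₂ (e f₁ f₂ h x) = e f₁' f₂' h' (pm j₁ x)

variable {k R A₁ A₂ B : Type u} [CommRing k] [CommRing R] [CommRing A₁] [HopfAlgebra k A₁]
  [CommRing A₂] [HopfAlgebra R A₂] [CommRing B] [Algebra k B] [Algebra R B]

theorem other (k : Type u) [CommRing k] [Algebra k B] {C : Type u} [CommRing C] [Algebra R C]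
    (f₂ : B →ₐ[R] C) : ∃ (_ : Algebra k C) (f₁ : B →ₐ[k] C), ∀ b, f₁ b = f₂ b :=
  letI : Algebra k C := ((f₂ : B →+* C).comp (algebraMap k B)).toAlgebra
  ⟨inferInstance, { (f₂ : B →+* C) with commutes' := fun _ => rfl }, fun _ => rfl⟩

namespace Dict

variable (E : Dict k R A₁ A₂ B)

/-- The inverse. -/
noncomputable def symm : Dict R k A₂ A₁ B where
  e f₂ f₁ h := (E.e f₁ f₂ fun b => (h b).symm).symm
  nat f₂ f₁ h f₂' f₁' h' j₂ j₁ hj hf x := by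
    rw [MulEquiv.eq_symm_apply, ← E.nat f₁ f₂ (fun b => (h b).symm) f₁' f₂' _ j₁ j₂
      (fun c => (hj c).symm) (AlgHom.ext fun b => by
        rw [AlgHom.comp_apply, hj, h, h', ← hf, AlgHom.comp_apply]), MulEquiv.apply_symm_apply]

variable {M : Type} [AddCommGroup M]

/-- The tori correspond. -/
def Tor (t₁ : Pt k A₁ (GA B M)) (t₂ : Pt R A₂ (GA B M)) : Prop :=
  ∀ (C : Type u) [CommRing C] [Algebra k C] [Algebra R C] (f₁ : B →ₐ[k] C) (f₂ : B →ₐ[R] C)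
    (h : ∀ b, f₁ b = f₂ b) (τ : TP M C), E.e f₁ f₂ h (tev t₁ f₁ τ) = tev t₂ f₂ τ

/-- The curves correspond. -/
def Cur (x₁ : Pt k A₁ B[X]) (x₂ : Pt R A₂ B[X]) : Prop :=
  ∀ (C : Type u) [CommRing C] [Algebra k C] [Algebra R C] (f₁ : B →ₐ[k] C) (f₂ : B →ₐ[R] C)
    (h : ∀ b, f₁ b = f₂ b) (s : C), E.e f₁ f₂ h (cv x₁ f₁ s) = cv x₂ f₂ s

variable {E} {t₁ : Pt k A₁ (GA B M)} {t₂ : Pt R A₂ (GA B M)} {x₁ y₁ : Pt k A₁ B[X]}
  {x₂ y₂ : Pt R A₂ B[X]}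

theorem Tor.symm (h : E.Tor t₁ t₂) : E.symm.Tor t₂ t₁ := fun C _ _ _ f₂ f₁ _ τ =>
  (MulEquiv.symm_apply_eq _).2 (h C f₁ f₂ _ τ).symm

theorem Cur.symm (h : E.Cur x₁ x₂) : E.symm.Cur x₂ x₁ := fun C _ _ _ f₂ f₁ _ s =>
  (MulEquiv.symm_apply_eq _).2 (h C f₁ f₂ _ s).symm

section at'

variable {C : Type u} [CommRing C] [Algebra k C] [Algebra R C] {f₁ : B →ₐ[k] C} {f₂ : B →ₐ[R] C}
  (h : ∀ b, f₁ b = f₂ b) {Λ : AddSubmonoid M}

theorem Tor.cj (hT : E.Tor t₁ t₂) (g : Pt k A₁ C) :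
    E.e ((cst k C M).comp f₁) ((cst R C M).comp f₂)
      (fun b => congrArg (algebraMap C (GA C M)) (h b)) (RED.cj t₁ f₁ g) =
      RED.cj t₂ f₂ (E.e f₁ f₂ h g) := by
  rw [cj_eq, cj_eq, map_mul, map_mul, map_inv, hT,
    E.nat f₁ f₂ h _ _ _ (cst k C M) (cst R C M) (fun _ => rfl) rfl]

theorem Tor.lift (hT : E.Tor t₁ t₂) {g : Pt k A₁ C} {y : Pt k A₁ (sup C C Λ)}
    (hy : pm ((sup C C Λ).val.restrictScalars k) y = RED.cj t₁ f₁ g) :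
    pm ((sup C C Λ).val.restrictScalars R) (E.e ((IsScalarTower.toAlgHom k C _).comp f₁)
      ((IsScalarTower.toAlgHom R C _).comp f₂) (fun b => congrArg _ (h b)) y) =
      RED.cj t₂ f₂ (E.e f₁ f₂ h g) := by
  rw [← hT.cj h, ← hy]
  exact E.nat _ _ _ _ _ _ _ _ (fun _ => rfl) rfl y

theorem Tor.inG₀ (hT : E.Tor t₁ t₂) {g : Pt k A₁ C} (hg : InG Λ t₁ f₁ g) :
    InG Λ t₂ f₂ (E.e f₁ f₂ h g) :=
  let ⟨_, hy⟩ := inG_iff'.1 hg
  inG_iff'.2 ⟨_, hT.lift h hy⟩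

theorem Tor.inU₀ (hT : E.Tor t₁ t₂) (hΛ : Pos Λ) {g : Pt k A₁ C} (hg : InU Λ t₁ f₁ g) :
    InU Λ t₂ f₂ (E.e f₁ f₂ h g) := by
  obtain ⟨y, hy, h1⟩ := (inU_iff' hΛ).1 hg
  refine (inU_iff' hΛ).2 ⟨_, hT.lift h hy, ?_⟩
  refine (E.nat _ _ _ f₁ f₂ h ((e0 C C hΛ).restrictScalars k) ((e0 C C hΛ).restrictScalars R)
    (fun _ => rfl) (AlgHom.ext fun b => ?_) y).trans (by rw [h1, map_one])
  exact (e0 C C hΛ).commutes (f₂ b)

theorem Tor.inG (hT : E.Tor t₁ t₂) {g : Pt k A₁ C} :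
    InG Λ t₂ f₂ (E.e f₁ f₂ h g) ↔ InG Λ t₁ f₁ g :=
  ⟨fun hg => by
    have := hT.symm.inG₀ (fun b => (h b).symm) hg
    rwa [show E.symm.e f₂ f₁ _ (E.e f₁ f₂ h g) = g from MulEquiv.symm_apply_apply _ _] at this,
    hT.inG₀ h⟩

theorem Tor.inU (hT : E.Tor t₁ t₂) (hΛ : Pos Λ) {g : Pt k A₁ C} :
    InU Λ t₂ f₂ (E.e f₁ f₂ h g) ↔ InU Λ t₁ f₁ g :=
  ⟨fun hg => by
    have := hT.symm.inU₀ (fun b => (h b).symm) hΛ hg
    rwa [show E.symm.e f₂ f₁ _ (E.e f₁ f₂ h g) = g from MulEquiv.symm_apply_apply _ _] at this,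
    hT.inU₀ h hΛ⟩

theorem Tor.bij (hT : E.Tor t₁ t₂) (hΛ : Pos Λ) {ι : Type u} {X : ι → Pt k A₁ C}
    (hX : Set.BijOn X Set.univ {g | InU Λ t₁ f₁ g}) :
    Set.BijOn (fun s => E.e f₁ f₂ h (X s)) Set.univ {g | InU Λ t₂ f₂ g} :=
  Set.BijOn.comp (g := E.e f₁ f₂ h) ((E.e f₁ f₂ h).toEquiv.bijOn fun _ => hT.inU h hΛ) hX

end at'

theorem Tor.isHom (hT : E.Tor t₁ t₂) (ht : IsHom t₁) : IsHom t₂ := fun C _ _ f₂ τ τ' => by
  obtain ⟨_, f₁, h⟩ := other k f₂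
  rw [← hT C f₁ f₂ h, ← hT C f₁ f₂ h, ← hT C f₁ f₂ h, ht, map_mul]

theorem Tor.zt (hT : E.Tor t₁ t₂) (ht : ZT t₁) : ZT t₂ := fun C _ _ f₂ g hg => by
  obtain ⟨_, f₁, h⟩ := other k f₂
  obtain ⟨g, rfl⟩ := (E.e f₁ f₂ h).surjective g
  simp only [← hT C f₁ f₂ h, (E.e f₁ f₂ h).injective.eq_iff]
  exact ht C f₁ g ((hT.inG h).1 hg)

theorem Tor.wts (hT : E.Tor t₁ t₂) {ι : Type} {deg : ι → M} (ht : Wts t₁ deg) : Wts t₂ deg := by
  refine ⟨ht.1, fun Λ hΛ => ?_⟩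
  obtain ⟨X, hX⟩ := ht.2 Λ hΛ
  let X' := E.e (IsScalarTower.toAlgHom k B _) (IsScalarTower.toAlgHom R B _) (fun _ => rfl) X
  have key : ∀ (C : Type u) [CommRing C] [Algebra k C] [Algebra R C] (f₁ : B →ₐ[k] C)
      (f₂ : B →ₐ[R] C) (h : ∀ b, f₁ b = f₂ b) s, xev X' f₂ s = E.e f₁ f₂ h (xev X f₁ s) := by
    intro C _ _ _ f₁ f₂ h s
    refine E.nat _ _ _ _ _ _ _ _ (fun c => ?_) (MvPolynomial.aevalTower_comp_toAlgHom _ _) X
    induction c using MvPolynomial.induction_on with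
    | C a => simp [h]
    | add a b ha hb => simp only [map_add, ha, hb]
    | mul_X a i ha => simp only [map_mul, ha, MvPolynomial.aevalTower_X]
  refine ⟨X', fun C _ _ f₂ => ?_, fun C _ _ f₂ => ?_, fun C _ _ f₂ τ s => ?_⟩ <;>
    obtain ⟨_, f₁, h⟩ := other k f₂
  · rw [funext (key C f₁ f₂ h)]
    exact hT.bij h hΛ (hX.bij C f₁)
  · rw [key C f₁ f₂ h, hX.zero, map_one]
  · rw [key C f₁ f₂ h, key C f₁ f₂ h, ← hX.eqv, map_mul, map_mul, map_inv, hT]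

theorem Tor.isRoot (hT : E.Tor t₁ t₂) (hx : E.Cur x₁ x₂) {α : M} (hα : Pos (ray α))
    (ht : IsRoot t₁ α x₁) : IsRoot t₂ α x₂ := by
  refine ⟨fun C _ _ f₂ => ?_, fun C _ _ f₂ a b => ?_, fun C _ _ f₂ τ s => ?_⟩ <;>
    obtain ⟨_, f₁, h⟩ := other k f₂
  · rw [← funext (hx C f₁ f₂ h)]
    exact hT.bij h hα (ht.bij C f₁)
  · rw [← hx C f₁ f₂ h, ← hx C f₁ f₂ h, ← hx C f₁ f₂ h, ht.add, map_mul]
  · rw [← hx C f₁ f₂ h, ← hx C f₁ f₂ h, ← ht.eqv, map_mul, map_mul, map_inv, hT]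

theorem Tor.sl2 (hT : E.Tor t₁ t₂) (hx : E.Cur x₁ x₂) (hy : E.Cur y₁ y₂) {cor : M →+ ℤ} {c : B}
    (ht : SL2 t₁ cor c x₁ y₁) : SL2 t₂ cor c x₂ y₂ := fun C _ _ f₂ a b s hs => by
  obtain ⟨_, f₁, h⟩ := other k f₂
  rw [← hx C f₁ f₂ h, ← hx C f₁ f₂ h, ← hy C f₁ f₂ h, ← hy C f₁ f₂ h, ← hT C f₁ f₂ h, ← map_mul,
    ht C f₁ a b s (by rw [h, hs]), map_mul, map_mul]

theorem pre {D : RD} {P₁ : Pin D k A₁ B} {P₂ : Pin D R A₂ B} (hT : E.Tor P₁.τ P₂.τ)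
    (hx : ∀ b i, E.Cur (P₁.x b i) (P₂.x b i)) (h : P₁.Pre) : P₂.Pre :=
  ⟨hT.isHom h.hom, hT.zt h.zt, hT.wts h.wts, fun b i => hT.isRoot (hx b i)
    (pos_ray (D.rt_ix b i ▸ D.rt_ne (b, D.ix i))) (h.root b i),
    fun i => hT.sl2 (hx _ i) (hx _ i) (h.sl2 i)⟩

end Dict

variable [Algebra k R] [IsScalarTower k R B]

theorem tower {C : Type u} [CommRing C] [Algebra k C] [Algebra R C] (f₁ : B →ₐ[k] C)
    (f₂ : B →ₐ[R] C) (h : ∀ b, f₁ b = f₂ b) : IsScalarTower k R C :=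
  IsScalarTower.of_algebraMap_eq fun a => by
    rw [← f₁.commutes, h, IsScalarTower.algebraMap_apply k R B, f₂.commutes]

/-- The dictionary of an isomorphism. -/
noncomputable def dict {φ : Hm k R A₁ A₂ B} (hφ : IsIso φ) : Dict k R A₁ A₂ B where
  e f₁ f₂ h := haveI := tower f₁ f₂ h; Coc.eqv hφ f₂
  nat f₁ f₂ h f₁' f₂' h' j₁ j₂ hj hf x := by
    have := tower f₁ f₂ h
    have := tower f₁' f₂' h'
    subst hf
    obtain rfl : j₁ = j₂.restrictScalars k := AlgHom.ext hj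
    exact Coc.nat φ f₂ j₂ x

end FmT

section T

variable {k R : Type u} [CommRing k] [CommRing R] [Algebra k R] {A₁ A₂ : Type u}
  [CommRing A₁] [HopfAlgebra k A₁] [CommRing A₂] [HopfAlgebra R A₂] {B : Type u} [CommRing B]
  [Algebra k B] [Algebra R B] [IsScalarTower k R B] {D : RD} {φ : Hm k R A₁ A₂ B}
  {P₁ : Pin D k A₁ B} {P₂ : Pin D R A₂ B}

theorem exists_respT (φ : Hm k R A₁ A₂ B) (P₁ : Pin D k A₁ B) :
    ∃ P₂ : Pin D R A₂ B, RespT φ P₁ P₂ (AddMonoidHom.id _) id := by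
  refine ⟨⟨fun b i => app φ (IsScalarTower.toAlgHom R B _) (P₁.x b i),
    app φ (cst R B _) P₁.τ⟩, fun C _ _ _ _ f => ⟨fun t => ?_, fun b i s => ?_⟩⟩
  · have := Coc.nat φ (cst R B _) (tl f t) P₁.τ
    rw [tl_comp_cst] at this
    exact this.symm
  · have := Coc.nat φ (IsScalarTower.toAlgHom R B _) (aevalTower f s) (P₁.x b i)
    rw [aevalTower_comp_toAlgHom] at this
    exact this.symm

theorem RespT.cell (hφ : IsMul φ) (h : RespT φ P₁ P₂ (AddMonoidHom.id _) id) {C : Type u}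
    [CommRing C] [Algebra k C] [Algebra R C] [IsScalarTower k R C] (f : B →ₐ[R] C)
    (p : (Fin D.N → C) × TP (XL D.r) C × (Fin D.N → C)) :
    app φ f (P₁.cell (f.restrictScalars k) p) = P₂.cell f p := by
  let m : Pt k A₁ C →* Pt R A₂ C := MonoidHom.mk' (app φ f) (hφ C f)
  have h1 : ∀ t, m (P₁.ta (f.restrictScalars k) t) = P₂.ta f t := (h C f).1
  have h2 : ∀ b i s, m (P₁.xa (f.restrictScalars k) b i s) = P₂.xa f b i s := (h C f).2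
  have h3 : ∀ i, m (P₁.nn (f.restrictScalars k) i) = P₂.nn f i := fun i => by
    rw [Pin.nn, Pin.nn, map_mul, map_mul, h2, h2]
  have h4 : ∀ l, m (P₁.nw (f.restrictScalars k) l) = P₂.nw f l := fun l => by
    rw [Pin.nw, Pin.nw, map_list_prod, List.map_map]
    exact congrArg (fun z => (l.map z).prod) (funext h3)
  have h5 : ∀ b j s, m (P₁.xr (f.restrictScalars k) b j s) = P₂.xr f b j s := fun b j s => by
    rw [Pin.xr, Pin.xr, map_mul, map_mul, map_inv, h2, h4]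
  have h6 : ∀ b s, m (P₁.un (f.restrictScalars k) b s) = P₂.un f b s := fun b s => by
    rw [Pin.un, Pin.un, map_list_prod, List.map_ofFn]
    exact congrArg (fun z => (List.ofFn z).prod) (funext fun j => h5 b j (s j))
  show m _ = _
  rw [Pin.cell, Pin.cell, map_mul, map_mul, h6, h6, h1]

theorem RespT.pre_iff (hφ : IsIso φ) (h : RespT φ P₁ P₂ (AddMonoidHom.id _) id) :
    P₁.Pre ↔ P₂.Pre := by
  have hT : (FmT.dict hφ).Tor P₁.τ P₂.τ := fun C _ _ _ f₁ f₂ e τ => by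
    have := FmT.tower f₁ f₂ e
    obtain rfl : f₁ = f₂.restrictScalars k := AlgHom.ext e
    exact (h C f₂).1 τ
  have hx : ∀ b i, (FmT.dict hφ).Cur (P₁.x b i) (P₂.x b i) := fun b i C _ _ _ f₁ f₂ e s => by
    have := FmT.tower f₁ f₂ e
    obtain rfl : f₁ = f₂.restrictScalars k := AlgHom.ext e
    exact (h C f₂).2 b i s
  exact ⟨FmT.Dict.pre hT hx, FmT.Dict.pre hT.symm fun b i => (hx b i).symm⟩

variable (k R A₁) in
/-- Base change is an isomorphism on points. -/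
theorem isIso_bc : IsIso (AlgHom.id R (R ⊗[k] A₁) : Hm k R A₁ (R ⊗[k] A₁) R) := by
  have key : ∀ (C : Type u) [CommRing C] [Algebra k C] [Algebra R C] [IsScalarTower k R C]
      (f : R →ₐ[R] C), app (AlgHom.id R (R ⊗[k] A₁) : Hm k R A₁ (R ⊗[k] A₁) R) f = bcPt R C := by
    intro C _ _ _ _ f
    refine funext fun g => WithConv.ext (Algebra.TensorProduct.ext (Subsingleton.elim _ _)
      (AlgHom.ext fun a => ?_))
    show Algebra.TensorProduct.lift f g.ofConv (fun _ _ => Commute.all _ _) (1 ⊗ₜ a) = (bcPt R C g).ofConv (1 ⊗ₜ a)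
    rw [bcPt_tmul, Algebra.TensorProduct.lift_tmul, map_one, one_mul, one_smul]
  exact ⟨fun C _ _ _ _ f g g' => by rw [key, map_mul], fun C _ _ _ _ f => by
    rw [key]
    exact (bcPt R C).bijective⟩

variable (R) in
theorem GI.bc (h : GI k A₁) : GI R (R ⊗[k] A₁) := fun Ω _ _ _ => by
  let _ := Coc.thru k R Ω
  have := Coc.thru_tower k R Ω
  have := h Ω
  exact (Algebra.TensorProduct.cancelBaseChange k R Ω Ω A₁).toMulEquiv.isDomain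

end T

end Pool.Agent.RED
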