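import Pool.Agent.P.MP_c1f06d_ag.g.FmC
import Pool.Agent.P.MP_c1f06d_ag.g.FmD
import Pool.Agent.P.MP_c1f06d_ag.g.FmH

open TensorProduct Polynomial Pool.Agent.GR WithConv

universe u

namespace Pool.Agent.RED

namespace Fm

variable {D : RD}

section general

variable {R A B C : Type u} [CommRing R] [CommRing A] [HopfAlgebra R A] [CommRing B]
  [Algebra R B] [CommRing C] [Algebra R C] {P : Pin D R A B}

theorem xr_zero (h : P.Pre) (f : B →ₐ[R] C) (b : Bool) (j : Fin D.N) : P.xr f b j 0 = 1 := by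
  rw [Pin.xr, Pin.xa, (h.root b _).cv_zero, mul_one, mul_inv_cancel]

theorem un_zero (h : P.Pre) (f : B →ₐ[R] C) (b : Bool) : P.un f b (fun _ => 0) = 1 :=
  List.prod_eq_one fun x hx => by
    obtain ⟨j, rfl⟩ := List.mem_ofFn.1 hx
    exact xr_zero h f b j

theorem un_single (h : P.Pre) (f : B →ₐ[R] C) (b : Bool) (i : Fin D.m) (s : C) :
    P.un f b (fun j => if j = D.ix i then s else 0) = P.xa f b i s := by
  rw [Pin.un, List.ofFn_eq_map, List.prod_map_eq_pow_single (D.ix i) _ fun j hj _ => by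
    rw [if_neg hj, xr_zero h], List.count_finRange, pow_one, if_pos rfl, Pin.xr, D.wd_ix, D.sm_ix]
  simp [Pin.nw]

/-- The coordinates of a point of a simple root group. -/
noncomputable def sing (b : Bool) (i : Fin D.m) (s : C) : Co D C :=
  (fun j => if j = D.ix i then bif b then 0 else s else 0, 1,
    fun j => if j = D.ix i then bif b then s else 0 else 0)

theorem cmap_sing {C' : Type u} [CommRing C'] (e : C →+* C') (b : Bool) (i : Fin D.m) (s : C) :
    cmap e (sing b i s) = sing b i (e s) := by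
  refine Prod.ext (funext fun j => ?_) (Prod.ext (MonoidHom.ext fun _ => Units.ext e.map_one)
    (funext fun j => ?_)) <;> cases b <;> simp [cmap, sing, apply_ite e]

theorem cell_sing (h : P.Pre) (f : B →ₐ[R] C) (b : Bool) (i : Fin D.m) (s : C) :
    P.cell f (sing b i s) = P.xa f b i s := by
  cases b <;> simp [Pin.cell, sing, un_zero h, un_single h, Pin.ta, h.hom.tev_one]

end general

variable {k Ω E : Type u} [Field k] [Field Ω] [Algebra k Ω] [CommRing E] [HopfAlgebra Ω E]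
  {P : Pin D Ω E Ω}

theorem app_evc {O : Type u} [CommRing O] [HopfAlgebra k O] (v : O →ₐ[k] Pin.Bc D k)
    (ψ : Hm k Ω O E Ω)
    (hψ : ∀ w, Algebra.TensorProduct.map (AlgHom.id Ω Ω) v (ψ w) = (ka P k).ofConv w)
    {C₀ C : Type u} [CommRing C₀] [Algebra k C₀] [CommRing C] [Algebra k C] [Algebra Ω C]
    [IsScalarTower k Ω C] (f : Ω →ₐ[Ω] C) (g : C₀ →ₐ[k] C) (p : Co D C₀) :
    app ψ f (pm g (toConv ((evc k p).comp v))) = P.cell f (cmap g p) := by
  rw [← cmap_evc k p, cmap_cmap, cmap_evc, Subsingleton.elim f (Algebra.ofId Ω C),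
    ← pm_ka k (Algebra.TensorProduct.lift (Algebra.ofId Ω C) (g.comp (evc k p))
      fun _ _ => Commute.all _ _) _ fun q => by simp]
  refine pt_ext fun w => ?_
  rw [pm_apply, ← hψ]
  show Algebra.TensorProduct.lift _ _ (fun _ _ => Commute.all _ _) (ψ w) = _
  generalize ψ w = z
  induction z with
  | zero => simp
  | add a b ha hb => simp only [map_add, ha, hb]
  | tmul a q => rfl

/-- The pinning given by coordinates. -/
noncomputable def pinOf {O : Type u} [CommRing O] [HopfAlgebra k O] (v : O →ₐ[k] Pin.Bc D k) :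
    Pin D k O k where
  x b i := toConv ((evc k (sing b i X)).comp v)
  τ := toConv ((evc k ((fun _ => 0, utp _ _, fun _ => 0) : Co D (GA k (XL D.r)))).comp v)

theorem resp_pinOf (h : P.Pre) {O : Type u} [CommRing O] [HopfAlgebra k O]
    (v : O →ₐ[k] Pin.Bc D k) (ψ : Hm k Ω O E Ω)
    (hψ : ∀ w, Algebra.TensorProduct.map (AlgHom.id Ω Ω) v (ψ w) = (ka P k).ofConv w) :
    RespT ψ ((pinOf v).push (Algebra.ofId k Ω)) P (AddMonoidHom.id _) id := fun C _ _ _ _ f => by
  refine ⟨fun t => ?_, fun b i s => ?_⟩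
  · have e : ∀ j : k →ₐ[k] C, cmap (tl j t : GA k (XL D.r) →+* C)
        ((fun _ => 0, utp _ _, fun _ => 0) : Co D (GA k (XL D.r))) = (fun _ => 0, t, fun _ => 0) :=
      fun j => Prod.ext (funext fun _ => map_zero _) (Prod.ext (tp_ext fun m =>
        (tl_single _ _ m 1).trans (by rw [map_one, one_mul])) (funext fun _ => map_zero _))
    rw [push_ta, Pin.ta, tev, pinOf, app_evc v ψ hψ, e, Pin.cell, un_zero h, un_zero h, one_mul,
      mul_one]
    rfl
  · rw [push_xa, Pin.xa, cv, pinOf, app_evc v ψ hψ, cmap_sing, cell_sing h]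
    simp

theorem form₀ [Algebra.Smooth Ω E] (hG : GI Ω E) (h : P.Pre) :
    ∃ (O : Type u) (_ : CommRing O) (_ : HopfAlgebra k O) (_ : Algebra.Smooth k O)
      (Q : Pin D k O k) (ψ : Hm k Ω O E Ω), GI k O ∧ Q.Pre ∧ IsIso ψ := by
  obtain ⟨O, ψ, hψ⟩ := sub_desc (ka P k).ofConv (ka_inj k hG h) (ka_ctr k hG h)
  obtain ⟨N, hN⟩ := hopf_desc ψ (key hG h (fun q : O => ψ.symm (1 ⊗ₜ q)) Subtype.val fun q => by
    rw [← hψ, AlgEquiv.apply_symm_apply]
    rfl)
  let _ := N.hopf
  have := smooth_desc ψ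
  have hO : GI k O := fun K _ _ _ => gi_desc hG ψ K
  exact ⟨O, inferInstance, inferInstance, inferInstance, pinOf O.val, ψ.toAlgHom, hO,
    Pin.Pre.desc hO (((resp_pinOf h O.val ψ.toAlgHom hψ).pre_iff hN).2 h), hN⟩

end Fm

variable {k R : Type u} [Field k] [CommRing R] [Algebra k R] {A : Type u} [CommRing A]
  [HopfAlgebra R A] {D : RD}

/-- FORM (descent to the ground field). -/
theorem form [Algebra.Smooth R A] (hG : GI R A) (Ω : Type u) [Field Ω] [Algebra k Ω] [Algebra R Ω]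
    [IsScalarTower k R Ω] {P : Pin D R A Ω} (h : P.Ok) :
    ∃ (O : Type u) (_ : CommRing O) (_ : HopfAlgebra k O) (_ : Algebra.Smooth k O)
      (Q : Pin D k O k) (ψ : Hm k R O A Ω), GI k O ∧ Q.Pre ∧ IsIso ψ := by
  have hi := isIso_bc R Ω A
  obtain ⟨P', hP'⟩ := exists_respT (AlgHom.id Ω (Ω ⊗[R] A) : Hm R Ω A (Ω ⊗[R] A) Ω) P
  obtain ⟨O, _, _, _, Q, ψ, hO, hQ, hψ⟩ := Fm.form₀ (k := k) (hG.bc Ω) ((hP'.pre_iff hi).1 h.pre)
  let φ : Hm k R O A Ω := (ψ.restrictScalars R).comp Algebra.TensorProduct.includeRight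
  have key : ∀ (C : Type u) [CommRing C] [Algebra k C] [Algebra R C] [IsScalarTower k R C]
      (f : Ω →ₐ[R] C), ∃ e : Pt k O C ≃* Pt R A C, ∀ x, app φ f x = e x := fun C _ _ _ _ f => by
    let _ : Algebra Ω C := (f : Ω →+* C).toAlgebra
    have : IsScalarTower R Ω C := .of_algebraMap_eq fun a => (f.commutes a).symm
    have : IsScalarTower k Ω C := .of_algebraMap_eq fun a =>
      ((f.restrictScalars k).commutes a).symm
    refine ⟨(Coc.eqv hψ (Algebra.ofId Ω C)).trans (bcPt Ω C).symm, fun x => pt_ext fun a => ?_⟩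
    show Algebra.TensorProduct.lift f x.ofConv (fun _ _ => Commute.all _ _) (ψ (1 ⊗ₜ a)) =
      Algebra.TensorProduct.lift (Algebra.ofId Ω C) x.ofConv (fun _ _ => Commute.all _ _)
        (ψ (1 ⊗ₜ a))
    generalize ψ (1 ⊗ₜ a) = z
    induction z with
    | zero => simp
    | add a b ha hb => simp only [map_add, ha, hb]
    | tmul a q => rfl
  refine ⟨O, inferInstance, inferInstance, inferInstance, Q, φ, hO, hQ,
    fun C _ _ _ _ f g g' => ?_, fun C _ _ _ _ f => ?_⟩
  · obtain ⟨e, he⟩ := key C f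
    rw [he, he, he, map_mul]
  · obtain ⟨e, he⟩ := key C f
    rw [show app φ f = e from funext he]
    exact e.bijective

end Pool.Agent.RED
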