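import Pool.Agent.P.MP_c1f06d_ag.r.Defs
import Pool.Agent.P.MP_c1f06d_ag.g.Pts

open WithConv Pool.Agent.GR

universe u

namespace Pool.Agent.RED

/-- Points of the group scheme `Spec A` with values in the `R`-algebra `S`. -/
abbrev Pt (R A S : Type u) [CommRing R] [CommRing A] [HopfAlgebra R A] [CommRing S]
    [Algebra R S] : Type u := WithConv (A →ₐ[R] S)

/-- Points of the split torus with character group `M`. -/
abbrev TP (M : Type) [AddCommGroup M] (S : Type u) [CommRing S] : Type u :=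
  Multiplicative M →* Sˣ

variable {R A : Type u} [CommRing R] [CommRing A] [HopfAlgebra R A]
  {S₀ S S' : Type u} [CommRing S₀] [Algebra R S₀] [CommRing S] [Algebra R S] [CommRing S']
  [Algebra R S'] {M : Type} [AddCommGroup M]

attribute [instance 2000] RG.ptGroup

theorem inv_def (f : Pt R A S) :
    f⁻¹ = toConv (f.ofConv.comp (HopfAlgebra.antipodeAlgHom R A)) := rfl

/-- Functoriality of points. -/
noncomputable abbrev pm (f : S →ₐ[R] S') : Pt R A S →* Pt R A S' := RG.ptMap f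

theorem pm_apply (f : S →ₐ[R] S') (g : Pt R A S) (a : A) :
    (pm f g).ofConv a = f (g.ofConv a) := rfl

theorem pm_pm (f : S₀ →ₐ[R] S) (f' : S →ₐ[R] S') (g : Pt R A S₀) :
    pm f' (pm f g) = pm (f'.comp f) g := rfl

@[simp] theorem pm_id (g : Pt R A S) : pm (AlgHom.id R S) g = g := rfl

theorem one_apply (a : A) :
    (1 : Pt R A S).ofConv a = algebraMap R S (Coalgebra.counit a) := rfl

/-- The constants of the group algebra. -/
noncomputable abbrev cst (R S : Type u) [CommRing R] [CommRing S] [Algebra R S] (M : Type)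
    [AddCommGroup M] : S →ₐ[R] GA S M := IsScalarTower.toAlgHom R S (GA S M)

/-- The map on functions given by a point `τ` of the torus over `j`. -/
noncomputable def tl (j : S₀ →ₐ[R] S) (τ : TP M S) : GA S₀ M →ₐ[R] S :=
  AddMonoidAlgebra.liftNCAlgHom j ((Units.coeHom S).comp τ) fun _ _ => Commute.all _ _

/-- The value `s ^ l` of the cocharacter `l`. -/
def coc (l : M →+ ℤ) (s : Sˣ) : TP M S where
  toFun m := s ^ l m.toAdd
  map_one' := by simp
  map_mul' a b := by simp [zpow_add]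

/-- The value of the character `m` at `τ`. -/
def chv (τ : TP M S) (m : M) : S := (τ (Multiplicative.ofAdd m) : Sˣ)

/-- Base change of the universal point `t` of a torus along `j`. -/
noncomputable def bc (j : S₀ →ₐ[R] S) (t : Pt R A (GA S₀ M)) : Pt R A (GA S M) :=
  pm (AddMonoidAlgebra.mapAlgHom M j) t

/-- The point `t(τ)`. -/
noncomputable def tev (t : Pt R A (GA S₀ M)) (j : S₀ →ₐ[R] S) (τ : TP M S) : Pt R A S :=
  pm (tl j τ) t

/-- `t` is a homomorphism from the torus to the group, over `S₀`. -/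
def IsHom (t : Pt R A (GA S₀ M)) : Prop :=
  ∀ (S : Type u) [CommRing S] [Algebra R S] (j : S₀ →ₐ[R] S) (τ τ' : TP M S),
    tev t j (τ * τ') = tev t j τ * tev t j τ'

/-- Conjugation of `g` by the universal point of the torus. -/
noncomputable def cj (t : Pt R A (GA S₀ M)) (j : S₀ →ₐ[R] S) (g : Pt R A S) : Pt R A (GA S M) :=
  bc j t * pm (cst R S M) g * (bc j t)⁻¹

/-- The orbit of `g` under conjugation has its weights in `Λ`. -/
def InG (Λ : AddSubmonoid M) (t : Pt R A (GA S₀ M)) (j : S₀ →ₐ[R] S) (g : Pt R A S) : Prop :=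
  ∀ a, ∀ m ∉ Λ, ((cj t j g).ofConv a).coeff m = 0

/-- The orbit of `g` has its weights in `Λ` and its part of weight zero is the identity. -/
def InU (Λ : AddSubmonoid M) (t : Pt R A (GA S₀ M)) (j : S₀ →ₐ[R] S) (g : Pt R A S) : Prop :=
  InG Λ t j g ∧ ∀ a, ((cj t j g).ofConv a).coeff 0 = (1 : Pt R A S).ofConv a

/-- The centraliser of the torus is the torus, and `t` is a monomorphism. -/
def ZT (t : Pt R A (GA S₀ M)) : Prop :=
  ∀ (S : Type u) [CommRing S] [Algebra R S] (j : S₀ →ₐ[R] S) (g : Pt R A S),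
    InG ⊥ t j g → ∃! τ : TP M S, g = tev t j τ

/-- A submonoid on which some cocharacter is positive away from zero. -/
def Pos (Λ : AddSubmonoid M) : Prop := ∃ l : M →+ ℤ, ∀ m ∈ Λ, m ≠ 0 → 0 < l m

/-- The half space of `l`, with zero. -/
def hs (l : M →+ ℤ) : AddSubmonoid M where
  carrier := {m | m = 0 ∨ 0 < l m}
  zero_mem' := Or.inl rfl
  add_mem' := by
    rintro a b (rfl | ha) (rfl | hb)
    · exact Or.inl (add_zero _)
    · exact Or.inr (by rwa [zero_add])
    · exact Or.inr (by rwa [add_zero])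
    · exact Or.inr (by rw [map_add]; exact add_pos ha hb)

/-- The rational ray through `α`. -/
def ray (α : M) : AddSubmonoid M where
  carrier := {m | ∃ p q : ℕ, 0 < q ∧ q • m = p • α}
  zero_mem' := ⟨0, 1, one_pos, by simp⟩
  add_mem' := by
    rintro a b ⟨p, q, hq, h⟩ ⟨p', q', hq', h'⟩
    refine ⟨q' * p + q * p', q * q', Nat.mul_pos hq hq', ?_⟩
    rw [smul_add, add_smul, mul_smul q' p, ← h, mul_smul q p', ← h', smul_smul, smul_smul,
      mul_comm q' q]

/-- The value at `s` of the family `X` parametrised by affine space. -/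
noncomputable def xev {ι : Type} (X : Pt R A (MvPolynomial ι S₀)) (j : S₀ →ₐ[R] S) (s : ι → S) :
    Pt R A S := pm (MvPolynomial.aevalTower j s) X

/-- `X` is an equivariant isomorphism from affine space with weights `deg` to `U_Λ`. -/
structure IsChart (t : Pt R A (GA S₀ M)) (Λ : AddSubmonoid M) {ι : Type} (deg : ι → M)
    (X : Pt R A (MvPolynomial ι S₀)) : Prop where
  bij : ∀ (S : Type u) [CommRing S] [Algebra R S] (j : S₀ →ₐ[R] S),
    Set.BijOn (xev X j) Set.univ {g : Pt R A S | InU Λ t j g}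
  zero : ∀ (S : Type u) [CommRing S] [Algebra R S] (j : S₀ →ₐ[R] S), xev X j 0 = 1
  eqv : ∀ (S : Type u) [CommRing S] [Algebra R S] (j : S₀ →ₐ[R] S) (τ : TP M S) (s : ι → S),
    tev t j τ * xev X j s * (tev t j τ)⁻¹ = xev X j fun i => chv τ (deg i) * s i

/-- `deg` lists the nonzero weights of the Lie algebra with multiplicity: all `U_Λ` have charts. -/
def Wts (t : Pt R A (GA S₀ M)) {ι : Type} (deg : ι → M) : Prop :=
  (∀ i, deg i ≠ 0) ∧ ∀ Λ : AddSubmonoid M, Pos Λ →
    ∃ X, IsChart t Λ (fun i : {i // deg i ∈ Λ} => deg i) X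

/-- The value at `a` of the curve `x`. -/
noncomputable def cv (x : Pt R A (Polynomial S₀)) (j : S₀ →ₐ[R] S) (a : S) : Pt R A S :=
  pm (Polynomial.aevalTower j a) x

/-- `x` is a parametrisation of the root group of `α`. -/
structure IsRoot (t : Pt R A (GA S₀ M)) (α : M) (x : Pt R A (Polynomial S₀)) : Prop where
  bij : ∀ (S : Type u) [CommRing S] [Algebra R S] (j : S₀ →ₐ[R] S),
    Set.BijOn (cv x j) Set.univ {g : Pt R A S | InU (ray α) t j g}
  add : ∀ (S : Type u) [CommRing S] [Algebra R S] (j : S₀ →ₐ[R] S) (a b : S),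
    cv x j (a + b) = cv x j a * cv x j b
  eqv : ∀ (S : Type u) [CommRing S] [Algebra R S] (j : S₀ →ₐ[R] S) (τ : TP M S) (a : S),
    tev t j τ * cv x j a * (tev t j τ)⁻¹ = cv x j (chv τ α * a)

/-- The rank one relation with constant `c`. -/
def SL2 (t : Pt R A (GA S₀ M)) (cor : M →+ ℤ) (c : S₀) (x y : Pt R A (Polynomial S₀)) : Prop :=
  ∀ (S : Type u) [CommRing S] [Algebra R S] (j : S₀ →ₐ[R] S) (a b : S) (s : Sˣ),
    (s : S) = 1 + j c * a * b →
      cv x j a * cv y j b =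
        cv y j (b * (s⁻¹ : Sˣ)) * tev t j (coc cor s) * cv x j (a * (s⁻¹ : Sˣ))

/-- The big cell of the cocharacter `l`. -/
def InCell (l : M →+ ℤ) (t : Pt R A (GA S₀ M)) (j : S₀ →ₐ[R] S) (g : Pt R A S) : Prop :=
  ∃ v z u, InU (hs (-l)) t j v ∧ InG ⊥ t j z ∧ InU (hs l) t j u ∧ g = v * z * u

@[simp] theorem tl_single (j : S₀ →ₐ[R] S) (τ : TP M S) (m : M) (a : S₀) :
    tl j τ (AddMonoidAlgebra.single m a) = j a * chv τ m := by
  simp [tl, chv]

theorem bc_bc (j : S₀ →ₐ[R] S) (j' : S →ₐ[R] S') (t : Pt R A (GA S₀ M)) :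
    bc j' (bc j t) = bc (j'.comp j) t := by
  rw [bc, bc, bc, pm_pm, AddMonoidAlgebra.mapRangeAlgHom_comp]

theorem tev_bc (j : S₀ →ₐ[R] S) (j' : S →ₐ[R] S') (t : Pt R A (GA S₀ M)) (τ : TP M S') :
    tev (bc j t) j' τ = tev t (j'.comp j) τ := by
  rw [tev, bc, tev, pm_pm]
  congr 2
  ext <;> simp [AddMonoidAlgebra.mapAlgHom_single]

theorem cj_bc (j : S₀ →ₐ[R] S) (j' : S →ₐ[R] S') (t : Pt R A (GA S₀ M)) (g : Pt R A S') :
    cj (bc j t) j' g = cj t (j'.comp j) g := by
  rw [cj, cj, bc_bc]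

/-- Functoriality of torus points. -/
def tm (f : S →ₐ[R] S') (τ : TP M S) : TP M S' := (Units.map (f : S →* S')).comp τ

@[simp] theorem chv_tm (f : S →ₐ[R] S') (τ : TP M S) (m : M) : chv (tm f τ) m = f (chv τ m) := rfl

theorem pm_tev (t : Pt R A (GA S₀ M)) (j : S₀ →ₐ[R] S) (f : S →ₐ[R] S') (τ : TP M S) :
    pm f (tev t j τ) = tev t (f.comp j) (tm f τ) := by
  rw [tev, tev, pm_pm]
  congr 2
  ext <;> simp

theorem pm_xev {ι : Type} (X : Pt R A (MvPolynomial ι S₀)) (j : S₀ →ₐ[R] S) (f : S →ₐ[R] S')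
    (s : ι → S) : pm f (xev X j s) = xev X (f.comp j) fun i => f (s i) := by
  rw [xev, xev, pm_pm]
  congr 2
  ext <;> simp

theorem pm_cv (x : Pt R A (Polynomial S₀)) (j : S₀ →ₐ[R] S) (f : S →ₐ[R] S') (a : S) :
    pm f (cv x j a) = cv x (f.comp j) (f a) := by
  rw [cv, cv, pm_pm]
  congr 2
  ext <;> simp

theorem pm_cj (t : Pt R A (GA S₀ M)) (j : S₀ →ₐ[R] S) (f : S →ₐ[R] S') (g : Pt R A S) :
    pm (AddMonoidAlgebra.mapAlgHom M f) (cj t j g) = cj t (f.comp j) (pm f g) := by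
  rw [cj, cj, map_mul, map_mul, map_inv, ← bc_bc, pm_pm (cst R S M), pm_pm f]
  congr 4
  ext
  simp [AddMonoidAlgebra.mapAlgHom_single]

theorem cj_mul (t : Pt R A (GA S₀ M)) (j : S₀ →ₐ[R] S) (g h : Pt R A S) :
    cj t j (g * h) = cj t j g * cj t j h := by
  simp only [cj, map_mul, mul_assoc, inv_mul_cancel_left]

end Pool.Agent.RED
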