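import Pool.Agent.P.MP_c1f06d_ag.g.Grp

open Pool.Agent.GR AddMonoidAlgebra

universe u

namespace Pool.Agent.RED

variable {S B : Type u} [CommRing S] [CommRing B] [Algebra S B] {M : Type} [AddCommGroup M]

/-- A grading of `B` by `M`, as a coaction, with a homogeneous augmentation. -/
structure Gr (δ : B →ₐ[S] GA B M) (ε : B →ₐ[S] S) : Prop where
  sum : ∀ b, ((δ b).coeff.sum fun _ c => c) = b
  idem : ∀ b m, δ ((δ b).coeff m) = single m ((δ b).coeff m)
  eps : ∀ b, ∀ m ≠ 0, ε ((δ b).coeff m) = 0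

/-- Homogeneous coordinates `x` at the augmentation, with the dual derivations `c`. -/
structure Coord (δ : B →ₐ[S] GA B M) (ε : B →ₐ[S] S) {n : ℕ} (d : Fin n → M) (x : Fin n → B)
    (c : Fin n → B →ₗ[S] S) : Prop where
  hom : ∀ i, δ (x i) = single (d i) (x i)
  eps : ∀ i, ε (x i) = 0
  dual : ∀ i k, c i (x k) = if i = k then 1 else 0
  der : ∀ i a b, c i (a * b) = ε a * c i b + c i a * ε b
  wt : ∀ i b, ∀ m ≠ d i, c i ((δ b).coeff m) = 0
  span : ∀ b, b - algebraMap S B (ε b) - ∑ i, c i b • x i ∈ RingHom.ker ε ^ 2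

end Pool.Agent.RED
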