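import Pool.Agent.P.MP_c1f06d_ag.g.GrD

open WithConv Pool.Agent.GR TensorProduct AddMonoidAlgebra

universe u

namespace Pool.Agent.RED

section abstract

variable {S B : Type u} [CommRing S] [CommRing B] [Algebra S B] {M : Type} [AddCommGroup M]
  {δ : B →ₐ[S] GA B M} {ε : B →ₐ[S] S}

theorem Gr.proj (h : Gr δ ε) (b : B) {m n : M} (hn : n ≠ m) :
    (δ ((δ b).coeff m)).coeff n = 0 := by
  rw [h.idem, coeff_single, Finsupp.single_eq_of_ne hn]

theorem Gr.proj_self (h : Gr δ ε) (b : B) (m : M) :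
    (δ ((δ b).coeff m)).coeff m = (δ b).coeff m := by
  rw [h.idem, coeff_single, Finsupp.single_eq_same]

theorem Gr.induction (h : Gr δ ε) {p : B → Prop} (h0 : p 0) (ha : ∀ a b, p a → p b → p (a + b))
    (hh : ∀ m b, δ b = single m b → p b) (b : B) : p b := by
  rw [← h.sum b]
  exact Finset.sum_induction _ p ha h0 fun m _ => hh m _ (h.idem b m)

theorem Gr.eps_zero (h : Gr δ ε) (b : B) : ε ((δ b).coeff 0) = ε b := by
  conv_rhs => rw [← h.sum b, Finsupp.sum, map_sum]
  rw [Finset.sum_eq_single 0 (fun m _ hm => h.eps b m hm)]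
  intro h0
  rw [Finsupp.notMem_support_iff.1 h0, map_zero]

/-- The degree preserving part of a map that preserves degrees modulo a square zero ideal. -/
theorem Gr.avg (h : Gr δ ε) {T : Type u} [CommRing T] (J : Ideal T) (hJ : J ^ 2 = ⊥)
    (ψ : B →+* GA T M) (hψ : ∀ m b, δ b = single m b → ∀ n ≠ m, (ψ b).coeff n ∈ J) :
    ∃ χ : B →+* T, ∀ m b, δ b = single m b → χ b = (ψ b).coeff m := by
  let χ : B →+ T :=
    { toFun := fun b => (δ b).coeff.sum fun m c => (ψ c).coeff m
      map_zero' := by simp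
      map_add' := fun a b => by
        rw [map_add, coeff_add, Finsupp.sum_add_index'] <;> simp }
  have hχ : ∀ m b, δ b = single m b → χ b = (ψ b).coeff m := fun m b hb => by
    show (δ b).coeff.sum (fun m c => (ψ c).coeff m) = _
    rw [hb, coeff_single, Finsupp.sum_single_index (by simp)]
  have hmul : ∀ a b, χ (a * b) = χ a * χ b := fun a b => by
    refine h.induction (p := fun a => χ (a * b) = χ a * χ b) (by simp)
      (fun x y hx hy => by rw [add_mul, map_add, map_add, hx, hy, add_mul]) (fun m a ha => ?_) a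
    refine h.induction (p := fun b => χ (a * b) = χ a * χ b) (by simp)
      (fun x y hx hy => by rw [mul_add, map_add, map_add, hx, hy, mul_add]) (fun n b hb => ?_) b
    rw [hχ (m + n) _ (by rw [map_mul, ha, hb, single_mul_single]), hχ m a ha, hχ n b hb, map_mul,
      coeff_mul_apply_left, Finsupp.sum, Finset.sum_eq_single m]
    · simp
    · intro k _ hk
      have := Ideal.mul_mem_mul (hψ m a ha k hk) (hψ n b hb (-k + (m + n)) fun e => hk (by
        have : -k + m = 0 := add_right_cancel (b := n) (by rw [add_assoc, e, zero_add])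
        exact neg_add_eq_zero.1 this))
      rwa [← pow_two, hJ] at this
    · intro h0
      rw [Finsupp.notMem_support_iff.1 h0, zero_mul]
  refine ⟨{ χ with map_mul' := hmul, map_one' := ?_ }, hχ⟩
  show χ 1 = 1
  rw [hχ 0 1 (map_one δ), map_one]
  simp [one_def]

end abstract

variable {R A : Type u} [CommRing R] [CommRing A] [HopfAlgebra R A]
  {S₀ S S' : Type u} [CommRing S₀] [Algebra R S₀] [CommRing S] [Algebra R S] [CommRing S']
  [Algebra R S'] {M : Type} [AddCommGroup M] {t : Pt R A (GA S₀ M)} {j : S₀ →ₐ[R] S}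
  {Λ Λ' : AddSubmonoid M}

/-- The map on functions attached to a point. -/
noncomputable def fn (j : S₀ →ₐ[R] S) (g : Pt R A S) : S₀ ⊗[R] A →ₐ[R] S :=
  Algebra.TensorProduct.lift j g.ofConv fun _ _ => Commute.all _ _

@[simp] theorem fn_tmul (j : S₀ →ₐ[R] S) (g : Pt R A S) (s : S₀) (a : A) :
    fn j g (s ⊗ₜ a) = j s * g.ofConv a := rfl

variable (R A S₀) in
/-- The structure map of the universal point. -/
noncomputable abbrev jU : S₀ →ₐ[R] S₀ ⊗[R] A := Algebra.TensorProduct.includeLeft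

variable (R A S₀) in
/-- The universal point. -/
noncomputable abbrev gU : Pt R A (S₀ ⊗[R] A) := toConv Algebra.TensorProduct.includeRight

theorem fn_comp_jU (g : Pt R A S) : (fn j g).comp (jU R A S₀) = j := by
  ext s
  simp

theorem pm_fn_gU (g : Pt R A S) : pm (fn j g) (gU R A S₀) = g := pt_ext fun a => by
  simp

theorem comp_fn (f : S →ₐ[R] S') (g : Pt R A S) : f.comp (fn j g) = fn (f.comp j) (pm f g) := by
  ext <;> simp

theorem fn_univ (φ : S₀ ⊗[R] A →ₐ[R] S) :
    fn (φ.comp (jU R A S₀)) (pm φ (gU R A S₀)) = φ := by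
  ext <;> simp [← Algebra.TensorProduct.one_def]

theorem fn_algebraMap (g : Pt R A S) (s : S₀) : fn j g (algebraMap S₀ _ s) = j s :=
  AlgHom.congr_fun (fn_comp_jU g) s

theorem fn_smul (g : Pt R A S) (s : S₀) (b : S₀ ⊗[R] A) : fn j g (s • b) = j s * fn j g b := by
  rw [Algebra.smul_def, map_mul, fn_algebraMap]

/-- The coaction of the torus on functions by conjugation. -/
noncomputable def dl (t : Pt R A (GA S₀ M)) : S₀ ⊗[R] A →ₐ[S₀] GA (S₀ ⊗[R] A) M :=
  Algebra.TensorProduct.lift (Algebra.ofId _ _) (cj t (jU R A S₀) (gU R A S₀)).ofConv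
    fun _ _ => Commute.all _ _

variable (R A S₀) in
/-- The counit. -/
noncomputable def ep : S₀ ⊗[R] A →ₐ[S₀] S₀ :=
  Algebra.TensorProduct.lift (AlgHom.id _ _) (1 : Pt R A S₀).ofConv fun _ _ => Commute.all _ _

theorem dl_eq (b : S₀ ⊗[R] A) :
    dl t b = fn ((cst R _ M).comp (jU R A S₀)) (cj t (jU R A S₀) (gU R A S₀)) b := rfl

theorem fn_one (b : S₀ ⊗[R] A) : fn j (1 : Pt R A S) b = j (ep R A S₀ b) := by
  have := AlgHom.congr_fun (comp_fn (j := AlgHom.id R S₀) j (1 : Pt R A S₀)) b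
  rw [map_one, AlgHom.comp_id] at this
  exact this.symm

theorem coeff_fn_cj (g : Pt R A S) (b : S₀ ⊗[R] A) (m : M) :
    (fn ((cst R S M).comp j) (cj t j g) b).coeff m = fn j g ((dl t b).coeff m) := by
  have h : (mapAlgHom M (fn j g)).comp ((cst R _ M).comp (jU R A S₀)) = (cst R S M).comp j := by
    ext1 s
    simp [mapAlgHom_single]
  rw [← coeff_mapAlgHom, dl_eq, ← AlgHom.comp_apply, comp_fn, h, pm_cj, fn_comp_jU, pm_fn_gU]

theorem coeff_cj (g : Pt R A S) (a : A) (m : M) :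
    ((cj t j g).ofConv a).coeff m = fn j g ((dl t (1 ⊗ₜ a)).coeff m) := by
  rw [← coeff_fn_cj, fn_tmul, map_one, one_mul]

theorem tl_one_apply (x : GA S M) : tl (AlgHom.id R S) 1 x = x.coeff.sum fun _ c => c := by
  conv_lhs => rw [← x.sum_coeff_single, Finsupp.sum, map_sum]
  simp [Finsupp.sum]

theorem tmul_ind {p : S₀ ⊗[R] A → Prop} (h0 : p 0) (ha : ∀ a b, p a → p b → p (a + b))
    (hs : ∀ (s : S₀) b, p b → p (s • b)) (h1 : ∀ a, p (1 ⊗ₜ a)) (b : S₀ ⊗[R] A) : p b := by
  induction b with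
  | zero => exact h0
  | add x y hx hy => exact ha _ _ hx hy
  | tmul s a => simpa [TensorProduct.smul_tmul'] using hs s _ (h1 a)

theorem IsHom.gr (ht : IsHom t) : Gr (dl t) (ep R A S₀) where
  sum b := by
    rw [← tl_one_apply (R := R), dl_eq, ← AlgHom.comp_apply, comp_fn, ← tev_conj, ht.tev_one,
      ← AlgHom.comp_assoc, tl_comp_cst, one_mul, inv_one, mul_one, AlgHom.id_comp]
    exact AlgHom.congr_fun (fn_univ (AlgHom.id R _)) b
  idem b m := by
    refine tmul_ind (p := fun b => dl t ((dl t b).coeff m) = single m ((dl t b).coeff m))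
      (by simp) (fun x y hx hy => by simp [hx, hy, single_add])
      (fun s b hb => by simp [hb]) (fun a => ?_) b
    have h := coeff_cj_conj (j := (cst R _ M).comp (jU R A S₀)) ht (uT _ M)
      (pm (cst R _ M) (gU R A S₀)) a m
    rw [← cj_eq, coeff_cj, ← dl_eq, coeff_cj_map, chv_uT, cst_apply, single_mul_single, add_zero,
      one_mul] at h
    have e : dl t (1 ⊗ₜ a) = (cj t (jU R A S₀) (gU R A S₀)).ofConv a := by
      rw [dl_eq, fn_tmul, map_one, one_mul]
    rw [h, e]
  eps b m hm := by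
    have h := coeff_fn_cj (t := t) (j := AlgHom.id R S₀) 1 b m
    rw [cj_one, fn_one, fn_one] at h
    refine h.symm.trans ?_
    simp [cst_apply, Finsupp.single_eq_of_ne hm]

theorem inG_iff_fn {g : Pt R A S} :
    InG Λ t j g ↔ ∀ b, ∀ m ∉ Λ, fn j g ((dl t b).coeff m) = 0 := by
  refine ⟨fun h b m hm => ?_, fun h a m hm => by rw [coeff_cj, h _ m hm]⟩
  exact tmul_ind (p := fun b => fn j g ((dl t b).coeff m) = 0) (by simp)
    (fun x y hx hy => by simp [hx, hy]) (fun s b hb => by simp [fn_smul, hb])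
    (fun a => by rw [← coeff_cj, h a m hm]) b

theorem isLim_iff_fn {g z : Pt R A S} :
    IsLim t j g z ↔ ∀ b, fn j g ((dl t b).coeff 0) = fn j z b := by
  refine ⟨fun h b => ?_, fun h a => by rw [coeff_cj, h]; simp⟩
  exact tmul_ind (p := fun b => fn j g ((dl t b).coeff 0) = fn j z b) (by simp)
    (fun x y hx hy => by simp [hx, hy]) (fun s b hb => by simp [fn_smul, hb])
    (fun a => by rw [← coeff_cj, h a]; simp) b

theorem inU_iff_fn {g : Pt R A S} :
    InU Λ t j g ↔ (∀ b, ∀ m ∉ Λ, fn j g ((dl t b).coeff m) = 0) ∧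
      ∀ b, fn j g ((dl t b).coeff 0) = j (ep R A S₀ b) := by
  simp only [← fn_one]
  exact and_congr inG_iff_fn isLim_iff_fn

theorem fn_conj_hom (τ : TP M S) (g : Pt R A S) {m : M} {b : S₀ ⊗[R] A}
    (hb : dl t b = single m b) :
    fn j (tev t j τ * g * (tev t j τ)⁻¹) b = chv τ m * fn j g b := by
  have h : fn ((cst R S M).comp j) (cj t j g) b = single m (fn j g b) := by
    ext n
    rw [coeff_fn_cj, hb]
    by_cases hn : n = m
    · simp [hn]
    · simp [Finsupp.single_eq_of_ne hn]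
  have h2 := AlgHom.congr_fun
    (comp_fn (j := (cst R S M).comp j) (tl (AlgHom.id R S) τ) (cj t j g)) b
  rw [← AlgHom.comp_assoc, tl_comp_cst, AlgHom.id_comp, ← tev_conj, AlgHom.comp_apply, h] at h2
  rw [← h2]
  simp [mul_comm]

theorem pm_surj [Algebra.FormallySmooth R A] (f : S →ₐ[R] S') (hf : Function.Surjective f)
    (hJ : RingHom.ker (f : S →+* S') ^ 2 = ⊥) (g : Pt R A S') : ∃ g' : Pt R A S, pm f g' = g :=
  ⟨toConv (Algebra.FormallySmooth.liftOfSurjective g.ofConv f hf ⟨2, hJ⟩),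
    congrArg toConv (Algebra.FormallySmooth.comp_liftOfSurjective g.ofConv f hf ⟨2, hJ⟩)⟩

theorem coeff_mul_mem_of_sq (J : Ideal S) (hJ : J ^ 2 = ⊥) {x y : GA S M}
    (hx : ∀ m, x.coeff m ∈ J) (hy : ∀ m, y.coeff m ∈ J) : x * y = 0 := by
  ext m
  rw [coeff_mul_apply_left]
  refine Finset.sum_eq_zero fun h _ => ?_
  have := Ideal.mul_mem_mul (hx h) (hy (-h + m))
  rwa [← pow_two, hJ] at this

theorem InG.lift [Algebra.Smooth R A] (ht : IsHom t) (f : S →ₐ[R] S') (hf : Function.Surjective f)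
    (hJ : RingHom.ker (f : S →+* S') ^ 2 = ⊥) {g' : Pt R A S'} (h : InG Λ t (f.comp j) g') :
    ∃ g, InG Λ t j g ∧ pm f g = g' := by
  obtain ⟨y', hy'⟩ := inG_iff.1 h
  let F : sup R S Λ →ₐ[R] sup R S' Λ :=
    ((mapAlgHom M f).comp (sup R S Λ).val).codRestrict _ fun x m hm => by
      rw [AlgHom.comp_apply, coeff_mapAlgHom]
      exact (congrArg f (x.2 m hm)).trans (map_zero f)
  have hF : ∀ x m, (F x).1.coeff m = f (x.1.coeff m) := fun x m => coeff_mapAlgHom f _ m
  have hF1 : Function.Surjective F := fun x => by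
    classical
    let σ : S' → S := fun c => if c = 0 then 0 else Function.surjInv hf c
    have hσ : ∀ c, f (σ c) = c := fun c => by
      by_cases hc : c = 0
      · simp [σ, hc]
      · simp [σ, hc, Function.surjInv_eq]
    refine ⟨⟨⟨x.1.coeff.mapRange σ (by simp [σ])⟩, fun m hm => ?_⟩, Subtype.ext ?_⟩
    · show σ (x.1.coeff m) = 0
      rw [x.2 m hm]
      simp [σ]
    · ext m
      rw [hF]
      exact hσ _
  have hF2 : RingHom.ker (F : sup R S Λ →+* sup R S' Λ) ^ 2 = ⊥ := by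
    rw [pow_two, eq_bot_iff, Ideal.mul_le]
    intro x hx y hy
    have e : ∀ x ∈ RingHom.ker (F : sup R S Λ →+* sup R S' Λ), ∀ m,
        x.1.coeff m ∈ RingHom.ker (f : S →+* S') := fun x hx m => by
      have : F x = 0 := hx
      show f _ = 0
      rw [← hF, this]
      rfl
    exact Subtype.ext (coeff_mul_mem_of_sq _ hJ (e x hx) (e y hy))
  obtain ⟨y, hy⟩ := pm_surj F hF1 hF2 y'
  let ψ := fn ((cst R S M).comp j) (pm (sup R S Λ).val y)
  have hψ : ∀ b n, f ((ψ b).coeff n) = fn (f.comp j) g' ((dl t b).coeff n) := fun b n => by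
    have e : (mapAlgHom M f).comp ((cst R S M).comp j) = (cst R S' M).comp (f.comp j) := by
      ext1 s
      simp [mapAlgHom_single]
    rw [← coeff_fn_cj, ← hy', ← hy, ← coeff_mapAlgHom, ← AlgHom.comp_apply, comp_fn, e]
    rfl
  obtain ⟨χ, hχ⟩ := ht.gr.avg _ hJ (ψ : _ →+* GA S M) fun m b hb n hn => by
    show f ((ψ b).coeff n) = 0
    rw [hψ, hb, coeff_single, Finsupp.single_eq_of_ne hn, map_zero]
  have hχ0 : ∀ s : S₀, χ (algebraMap S₀ _ s) = j s := fun s => by
    rw [hχ 0 _ ((dl t).commutes s)]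
    show (ψ _).coeff 0 = _
    rw [fn_algebraMap]
    simp
  let χ' : S₀ ⊗[R] A →ₐ[R] S := ⟨χ, fun r => by
    rw [IsScalarTower.algebraMap_apply R S₀]
    exact (hχ0 _).trans (j.commutes r)⟩
  have hj : χ'.comp (jU R A S₀) = j := AlgHom.ext hχ0
  have hfn : fn j (pm χ' (gU R A S₀)) = χ' := by
    conv_lhs => rw [← hj]
    exact fn_univ χ'
  refine ⟨pm χ' (gU R A S₀), inG_iff_fn.2 fun b m hm => ?_, ?_⟩
  · rw [hfn]
    refine (hχ m _ (ht.gr.idem b m)).trans ?_
    have : ∀ b, ψ b ∈ sup R S Λ := tmul_ind (by simp) (fun x y hx hy => by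
      rw [map_add]; exact add_mem hx hy) (fun s b hb => by
        rw [fn_smul]
        exact mul_mem (single_mem_sup Λ.zero_mem _) hb) fun a => by
          rw [fn_tmul, map_one, one_mul]
          exact (y.ofConv a).2
    exact this _ m hm
  · have : ∀ b, f (χ b) = fn (f.comp j) g' b := fun b =>
      ht.gr.induction (p := fun b => f (χ b) = fn (f.comp j) g' b) (by simp)
        (fun x y hx hy => by simp [hx, hy]) (fun m b hb => by
          rw [hχ m b hb]
          refine (hψ b m).trans ?_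
          rw [hb, coeff_single, Finsupp.single_eq_same]) b
    exact pt_ext fun a => (this (1 ⊗ₜ a)).trans (by simp)

theorem InU.lift [Algebra.Smooth R A] (ht : IsHom t) (hΛ : Pos Λ) (f : S →ₐ[R] S')
    (hf : Function.Surjective f) (hJ : RingHom.ker (f : S →+* S') ^ 2 = ⊥) {g' : Pt R A S'}
    (h : InU Λ t (f.comp j) g') : ∃ g, InU Λ t j g ∧ pm f g = g' := by
  obtain ⟨g, hg, rfl⟩ := h.1.lift ht f hf hJ
  obtain ⟨z, -, h2, h3⟩ := hg.split ht hΛ
  have : pm f z = 1 := pt_ext fun a => by rw [pm_apply, h3, ← coeff_cj_map, h.2]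
  exact ⟨_, h2, by rw [map_mul, map_inv, this, inv_one, mul_one]⟩

theorem tangent_mem {f : S →ₐ[R] S'} {g : Pt R A S} (hg : pm f g = 1) (a : A) :
    g.ofConv a - (1 : Pt R A S).ofConv a ∈ RingHom.ker (f : S →+* S') := by
  show f _ = 0
  rw [map_sub, ← pm_apply, ← pm_apply, hg, map_one, sub_self]

theorem tangent_mul (f : S →ₐ[R] S') (hJ : RingHom.ker (f : S →+* S') ^ 2 = ⊥)
    {g h : Pt R A S} (hg : pm f g = 1) (hh : pm f h = 1) (a : A) :
    (g * h).ofConv a = g.ofConv a + h.ofConv a - (1 : Pt R A S).ofConv a := by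
  let d : WithConv (A →ₗ[R] S) := toConv g.ofConv.toLinearMap
  let d' : WithConv (A →ₗ[R] S) := toConv h.ofConv.toLinearMap
  have h0 : (d - 1) * (d' - 1) = 0 := by
    refine WithConv.ext (LinearMap.ext fun a => ?_)
    rw [LinearMap.convMul_apply]
    induction (Coalgebra.comul a : A ⊗[R] A) with
    | zero => simp
    | add x y hx hy => rw [map_add, map_add, hx, hy]; simp
    | tmul x y =>
      have := Ideal.mul_mem_mul (tangent_mem hg x) (tangent_mem hh y)
      rw [← pow_two, hJ] at this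
      exact this
  have h1 : d * d' = d + d' - 1 := by
    rw [← sub_eq_zero, ← h0]
    noncomm_ring
  exact congrArg (fun x : WithConv (A →ₗ[R] S) => x.ofConv a) h1

theorem tangent_comm (f : S →ₐ[R] S') (hJ : RingHom.ker (f : S →+* S') ^ 2 = ⊥)
    {g h : Pt R A S} (hg : pm f g = 1) (hh : pm f h = 1) : g * h = h * g :=
  pt_ext fun a => by rw [tangent_mul f hJ hg hh, tangent_mul f hJ hh hg, add_comm]

theorem tangent_prod (f : S →ₐ[R] S') (hJ : RingHom.ker (f : S →+* S') ^ 2 = ⊥) {ι : Type}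
    (n : ι → Pt R A S) (hn : ∀ i, pm f (n i) = 1) (l : List ι) :
    pm f (l.map n).prod = 1 ∧ ∀ a, (l.map n).prod.ofConv a = (1 : Pt R A S).ofConv a +
      (l.map fun i => (n i).ofConv a - (1 : Pt R A S).ofConv a).sum := by
  induction l with
  | nil => simp
  | cons i l ih =>
    rw [List.map_cons, List.prod_cons]
    refine ⟨by rw [map_mul, hn, ih.1, one_mul], fun a => ?_⟩
    rw [tangent_mul f hJ (hn i) ih.1, ih.2, List.map_cons, List.sum_cons]
    ring

variable (R A S₀) in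
theorem exists_gens [Algebra.FiniteType R A] :
    ∃ s : Finset (S₀ ⊗[R] A), Algebra.adjoin S₀ (s : Set (S₀ ⊗[R] A)) = ⊤ :=
  (inferInstance : Algebra.FiniteType S₀ (S₀ ⊗[R] A)).out

/-- A tangent vector is the product of its weight components. -/
theorem tangent_split [Algebra.FiniteType R A] (ht : IsHom t) (f : S →ₐ[R] S')
    (hJ : RingHom.ker (f : S →+* S') ^ 2 = ⊥) {g : Pt R A S} (hg : pm f g = 1) :
    ∃ (s : Finset M) (n : M → Pt R A S), (∀ m, pm f (n m) = 1) ∧ InG ⊥ t j (n 0) ∧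
      (∀ m, m ≠ 0 → ∀ Λ : AddSubmonoid M, m ∈ Λ → InU Λ t j (n m)) ∧
      (∀ m a, ∀ m' ≠ 0, m' ≠ m → ((cj t j (n m)).ofConv a).coeff m' = 0) ∧
      g = (s.toList.map n).prod := by
  classical
  have G := ht.gr
  let e := fn j (1 : Pt R A S)
  let D : S₀ ⊗[R] A →ₗ[R] S := (fn j g).toLinearMap - e.toLinearMap
  have hD : ∀ b, D b ∈ RingHom.ker (f : S →+* S') := fun b => by
    show f (fn j g b - fn j 1 b) = 0
    rw [map_sub, ← AlgHom.comp_apply, ← AlgHom.comp_apply, comp_fn, comp_fn, hg, map_one, sub_self]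
  have hDD : ∀ a b, D a * D b = 0 := fun a b => by
    have := Ideal.mul_mem_mul (hD a) (hD b)
    rwa [← pow_two, hJ] at this
  have hDm : ∀ a b, D (a * b) = e a * D b + D a * e b := fun a b => by
    have := hDD a b
    simp only [D, LinearMap.sub_apply, AlgHom.toLinearMap_apply, map_mul] at this ⊢
    linear_combination this
  have hDs : ∀ s : S₀, D (algebraMap S₀ _ s) = 0 := fun s => by
    simp only [D, e, LinearMap.sub_apply, AlgHom.toLinearMap_apply, fn_algebraMap, sub_self]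
  have he : ∀ m b, dl t b = single m b → m ≠ 0 → e b = 0 := fun m b hb hm => by
    have := G.eps b m hm
    rw [hb, coeff_single, Finsupp.single_eq_same] at this
    rw [fn_one, this, map_zero]
  let π : M → S₀ ⊗[R] A → S₀ ⊗[R] A := fun m b => (dl t b).coeff m
  have hπ : ∀ m k b, dl t b = single k b → π m b = if m = k then b else 0 := fun m k b hb => by
    simp only [π, hb, coeff_single, Finsupp.single_apply, eq_comm]
  have hπa : ∀ m a b, π m (a + b) = π m a + π m b := fun m a b => by simp [π]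
  have hP : ∀ m a b, D (π m (a * b)) = e a * D (π m b) + D (π m a) * e b := fun m a b => by
    refine G.induction (p := fun a => D (π m (a * b)) = e a * D (π m b) + D (π m a) * e b)
      (by simp [π]) (fun x y hx hy => by
        rw [add_mul, hπa, hπa, map_add, map_add, map_add, hx, hy]; ring) (fun k a ha => ?_) a
    refine G.induction (p := fun b => D (π m (a * b)) = e a * D (π m b) + D (π m a) * e b)
      (by simp [π]) (fun x y hx hy => by
        rw [mul_add, hπa, hπa, map_add, map_add, map_add, hx, hy]; ring) (fun k' b hb => ?_) b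
    rw [hπ m (k + k') _ (by rw [map_mul, ha, hb, single_mul_single]), hπ m k a ha, hπ m k' b hb,
      apply_ite D, apply_ite D, apply_ite D, map_zero, hDm]
    by_cases h1 : k = 0
    · by_cases h2 : k' = 0
      · subst h1 h2
        rw [add_zero]
        split_ifs <;> simp
      · subst h1
        rw [zero_add, he k' b hb h2]
        split_ifs <;> simp
    · rw [he k a ha h1]
      by_cases h2 : k' = 0
      · subst h2
        rw [add_zero]
        split_ifs <;> simp
      · rw [he k' b hb h2]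
        split_ifs <;> simp
  have hPs : ∀ m (s : S₀), D (π m (algebraMap S₀ _ s)) = 0 := fun m s => by
    rw [hπ m 0 _ ((dl t).commutes s), apply_ite D, hDs, map_zero, ite_self]
  let N : M → S₀ ⊗[R] A →ₐ[R] S := fun m =>
    { toFun := fun b => e b + D (π m b)
      map_one' := by
        have := hPs m 1
        rw [map_one] at this
        rw [this, map_one, add_zero]
      map_mul' := fun a b => by
        rw [hP, map_mul]
        linear_combination -hDD (π m a) (π m b)
      map_zero' := by simp [π]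
      map_add' := fun a b => by
        rw [hπa, map_add, map_add]
        ring
      commutes' := fun r => by
        rw [e.commutes, IsScalarTower.algebraMap_apply R S₀ (S₀ ⊗[R] A), hPs, add_zero] }
  have hN : ∀ m b, fn j (pm (N m) (gU R A S₀)) b = e b + D (π m b) := fun m b => by
    have hj : (N m).comp (jU R A S₀) = j := AlgHom.ext fun s => by
      show e (algebraMap S₀ _ s) + D (π m (algebraMap S₀ _ s)) = _
      rw [hPs, add_zero, fn_algebraMap]
    conv_lhs => rw [← hj, fn_univ]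
    rfl
  have hpure : ∀ m b, ∀ m' ≠ 0, m' ≠ m →
      fn j (pm (N m) (gU R A S₀)) ((dl t b).coeff m') = 0 := fun m b m' h0 h1 => by
    rw [hN, he m' _ (G.idem b m') h0, hπ m m' _ (G.idem b m'), if_neg h1.symm, map_zero, add_zero]
  obtain ⟨s₀, hs₀⟩ := exists_gens R A S₀
  let s := s₀.biUnion fun b => (dl t b).coeff.support
  have hs : ∀ m ∉ s, ∀ b, D (π m b) = 0 := fun m hm b => by
    have hb : b ∈ Algebra.adjoin S₀ (s₀ : Set (S₀ ⊗[R] A)) := hs₀ ▸ Algebra.mem_top
    induction hb using Algebra.adjoin_induction with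
    | mem x hx =>
      have : π m x = 0 := Finsupp.notMem_support_iff.1 fun h =>
        hm (Finset.mem_biUnion.2 ⟨x, hx, h⟩)
      rw [this, map_zero]
    | algebraMap r => exact hPs m r
    | add x y _ _ hx hy => rw [hπa, map_add, hx, hy, add_zero]
    | mul x y _ _ hx hy => rw [hP, hx, hy, mul_zero, zero_mul, add_zero]
  have hn : ∀ m, pm f (pm (N m) (gU R A S₀)) = 1 := fun m => pt_ext fun a => by
    show f (e (1 ⊗ₜ a) + D _) = _
    rw [map_add, show f (D _) = 0 from hD _, add_zero, fn_tmul, map_one, one_mul, ← pm_apply,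
      map_one]
  refine ⟨s, fun m => pm (N m) (gU R A S₀), hn,
    inG_iff_fn.2 fun b m hm => hpure 0 b m (by simpa using hm) (by simpa using hm),
    fun m hm Λ hΛ => inU_iff_fn.2 ⟨fun b k hk => hpure m b k ?_ ?_, fun b => ?_⟩,
    fun m a m' h0 h1 => by rw [coeff_cj, hpure m _ m' h0 h1], pt_ext fun a => ?_⟩
  · rintro rfl
    exact hk Λ.zero_mem
  · rintro rfl
    exact hk hΛ
  · rw [hN, hπ m 0 _ (G.idem b 0), if_neg hm, map_zero D, add_zero, fn_one, G.eps_zero]
  · rw [(tangent_prod f hJ _ hn _).2, Finset.sum_map_toList]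
    have h1 : ∀ m, (pm (N m) (gU R A S₀)).ofConv a - (1 : Pt R A S).ofConv a =
        D (π m (1 ⊗ₜ a)) := fun m => by
      show e (1 ⊗ₜ a) + D (π m (1 ⊗ₜ a)) - _ = _
      rw [fn_tmul, map_one, one_mul, add_sub_cancel_left]
    have h2 : D (1 ⊗ₜ a) = ∑ m ∈ s, D (π m (1 ⊗ₜ a)) := by
      conv_lhs => rw [← G.sum (1 ⊗ₜ a), Finsupp.sum, map_sum]
      rw [Finset.sum_subset (Finset.subset_union_left (s₂ := s)) fun m _ hm => by
          rw [Finsupp.notMem_support_iff.1 hm, map_zero],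
        Finset.sum_subset (Finset.subset_union_right
          (s₁ := (dl t (1 ⊗ₜ a)).coeff.support)) fun m _ hm => hs m hm _]
    simp only [h1, ← h2]
    simp [D, e]

/-- The ring `C` with the point `u` represents the subfunctor `P` of the points over `S₀`. -/
structure Rep (P : ∀ (S : Type u) [CommRing S] [Algebra R S], (S₀ →ₐ[R] S) → Pt R A S → Prop)
    {C : Type u} [CommRing C] [Algebra R C] (jC : S₀ →ₐ[R] C) (u : Pt R A C) : Prop where
  mem : ∀ (S : Type u) [CommRing S] [Algebra R S] (j : S₀ →ₐ[R] S) (g : Pt R A S),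
    P S j g ↔ ∃ φ : C →ₐ[R] S, φ.comp jC = j ∧ pm φ u = g
  uniq : ∀ (S : Type u) [CommRing S] [Algebra R S] (φ φ' : C →ₐ[R] S),
    φ.comp jC = φ'.comp jC → pm φ u = pm φ' u → φ = φ'
  fp : (jC : S₀ →+* C).FinitePresentation

/-- A closed subfunctor is represented by the quotient. -/
theorem quot_mem (I : Ideal (S₀ ⊗[R] A)) (g : Pt R A S) :
    (∀ b ∈ I, fn j g b = 0) ↔ ∃ φ : ((S₀ ⊗[R] A) ⧸ I) →ₐ[R] S,
      φ.comp ((Ideal.Quotient.mkₐ R I).comp (jU R A S₀)) = j ∧
        pm φ (pm (Ideal.Quotient.mkₐ R I) (gU R A S₀)) = g := by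
  constructor
  · intro h
    have e : (Ideal.Quotient.liftₐ I (fn j g) h).comp (Ideal.Quotient.mkₐ R I) = fn j g :=
      Ideal.Quotient.liftₐ_comp _ _ _
    exact ⟨Ideal.Quotient.liftₐ I (fn j g) h, by rw [← AlgHom.comp_assoc, e, fn_comp_jU],
      by rw [pm_pm, e, pm_fn_gU]⟩
  · rintro ⟨φ, rfl, rfl⟩ b hb
    rw [pm_pm, ← AlgHom.comp_assoc, fn_univ, AlgHom.comp_apply, Ideal.Quotient.mkₐ_eq_mk,
      Ideal.Quotient.eq_zero_iff_mem.2 hb, map_zero]

theorem quot_uniq (I : Ideal (S₀ ⊗[R] A)) (φ φ' : ((S₀ ⊗[R] A) ⧸ I) →ₐ[R] S)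
    (h1 : φ.comp ((Ideal.Quotient.mkₐ R I).comp (jU R A S₀)) =
      φ'.comp ((Ideal.Quotient.mkₐ R I).comp (jU R A S₀)))
    (h2 : pm φ (pm (Ideal.Quotient.mkₐ R I) (gU R A S₀)) =
      pm φ' (pm (Ideal.Quotient.mkₐ R I) (gU R A S₀))) : φ = φ' := by
  refine Ideal.Quotient.algHom_ext _ ?_
  rw [← fn_univ (φ.comp _), ← fn_univ (φ'.comp _), AlgHom.comp_assoc, AlgHom.comp_assoc, h1,
    ← pm_pm, ← pm_pm, h2]

/-- The ideal of `G_Λ`. -/
def IG (t : Pt R A (GA S₀ M)) (Λ : AddSubmonoid M) : Ideal (S₀ ⊗[R] A) :=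
  Ideal.span {x | ∃ b, ∃ m ∉ Λ, x = (dl t b).coeff m}

theorem inG_iff_IG {g : Pt R A S} : InG Λ t j g ↔ ∀ b ∈ IG t Λ, fn j g b = 0 := by
  rw [inG_iff_fn]
  refine ⟨fun h => ?_, fun h b m hm => h _ (Ideal.subset_span ⟨b, m, hm, rfl⟩)⟩
  refine (Ideal.span_le (I := RingHom.ker (fn j g))).2 ?_
  rintro _ ⟨b, m, hm, rfl⟩
  exact h b m hm

theorem IG_fg [Algebra.FiniteType R A] : (IG t Λ).FG := by
  classical
  obtain ⟨s₀, hs₀⟩ := exists_gens R A S₀
  let s := s₀.biUnion fun b => ((dl t b).coeff.support.filter (· ∉ Λ)).image (dl t b).coeff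
  refine ⟨s, le_antisymm (Ideal.span_mono fun x hx => ?_) (Ideal.span_le.2 ?_)⟩
  · obtain ⟨b, -, hb⟩ := Finset.mem_biUnion.1 hx
    obtain ⟨m, hm, rfl⟩ := Finset.mem_image.1 hb
    exact ⟨b, m, (Finset.mem_filter.1 hm).2, rfl⟩
  · rintro _ ⟨b, m, hm, rfl⟩
    have hb : b ∈ Algebra.adjoin S₀ (s₀ : Set (S₀ ⊗[R] A)) := hs₀ ▸ Algebra.mem_top
    show (dl t b).coeff m ∈ Ideal.span _
    induction hb using Algebra.adjoin_induction generalizing m with
    | mem x hx =>
      by_cases h0 : (dl t x).coeff m = 0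
      · rw [h0]
        exact zero_mem _
      · exact Ideal.subset_span (Finset.mem_biUnion.2 ⟨x, hx, Finset.mem_image_of_mem _
          (Finset.mem_filter.2 ⟨Finsupp.mem_support_iff.2 h0, hm⟩)⟩)
    | algebraMap r =>
      rw [AlgHom.commutes, ((sup S₀ (S₀ ⊗[R] A) Λ).algebraMap_mem r) m hm]
      exact zero_mem _
    | add x y _ _ hx hy =>
      rw [map_add, coeff_add, Finsupp.add_apply]
      exact add_mem (hx m hm) (hy m hm)
    | mul x y _ _ hx hy =>
      rw [map_mul, coeff_mul_apply_left]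
      refine sum_mem fun k _ => ?_
      by_cases h1 : k ∈ Λ
      · exact Ideal.mul_mem_left _ _ (hy _ fun h2 => hm (by simpa using Λ.add_mem h1 h2))
      · exact Ideal.mul_mem_right _ _ (hx k h1)

theorem exists_repG [Algebra.Smooth R A] (t : Pt R A (GA S₀ M)) (Λ : AddSubmonoid M) :
    ∃ (C : Type u) (_ : CommRing C) (_ : Algebra R C) (jC : S₀ →ₐ[R] C) (u : Pt R A C),
      Rep (fun _ _ _ j g => InG Λ t j g) jC u := by
  refine ⟨(S₀ ⊗[R] A) ⧸ IG t Λ, inferInstance, inferInstance,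
    (Ideal.Quotient.mkₐ R _).comp (jU R A S₀), pm (Ideal.Quotient.mkₐ R _) (gU R A S₀),
    fun S _ _ j g => inG_iff_IG.trans (quot_mem _ g), fun S _ _ => quot_uniq _, ?_⟩
  exact RingHom.finitePresentation_algebraMap.2
    (Algebra.FinitePresentation.quotient (R := S₀) IG_fg)

theorem exists_repZ [Algebra.Smooth R A] (_ht : IsHom t) :
    ∃ (C : Type u) (_ : CommRing C) (_ : Algebra R C) (jC : S₀ →ₐ[R] C) (u : Pt R A C),
      Rep (fun _ _ _ j g => InG ⊥ t j g) jC u := exists_repG t ⊥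

end Pool.Agent.RED
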