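import Pool.Agent.P.MP_c1f06d_ag.g.HRep

open Matrix WithConv Pool.Agent.GR Pool.Agent.GR.Co Pool.Agent.GR.AQ
open scoped TensorProduct

universe u

namespace Pool.Agent.RED.Mo

variable {k O : Type u} [Field k] [CommRing O] [HopfAlgebra k O] {Γ : Type}
  {B T T' : Type u} [CommRing B] [Algebra k B] [CommRing T] [Algebra k T] [CommRing T']
  [Algebra k T']

/-- The automorphism `c` over the ground field, on points. -/
noncomputable abbrev ap (c : Hm k k O O k) (x : Pt k O T) : Pt k O T :=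
  app c (Algebra.ofId k T) x

theorem ap_nat (c : Hm k k O O k) (j : T →ₐ[k] T') (x : Pt k O T) :
    RED.pm j (ap c x) = ap c (RED.pm j x) := by
  rw [app_nat, Subsingleton.elim (j.comp _) (Algebra.ofId k T')]

/-- The `d a` form a group of automorphisms. -/
structure Gp (d : Γ → Hm k k O O k) : Prop where
  hom : ∀ a, IsMul (d a)
  one : ∃ a, ∀ (T : Type u) [CommRing T] [Algebra k T] (x : Pt k O T), ap (d a) x = x
  mul : ∀ a b, ∃ c, ∀ (T : Type u) [CommRing T] [Algebra k T] (x : Pt k O T),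
    ap (d c) x = ap (d a) (ap (d b) x)
  inv : ∀ a, ∃ b, ∀ (T : Type u) [CommRing T] [Algebra k T] (x : Pt k O T),
    ap (d a) (ap (d b) x) = x ∧ ap (d b) (ap (d a) x) = x

/-- A space of functions stable under both translations and the `d a`, with a basis. -/
structure Bi (d : Γ → Hm k k O O k) (m : ℕ) where
  e : Fin m → O
  li : LinearIndependent k e
  gen : Algebra.adjoin k (Set.range e) = ⊤
  r : GL (Fin m) O
  l : GL (Fin m) O
  s : Γ → GL (Fin m) k
  hr : Rp (k := k) e (r : Mat m O) fun _ _ _ y x => x * toConv y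
  hl : Rp (k := k) e (l : Mat m O) fun _ _ _ y x => (toConv y)⁻¹ * x
  hs : ∀ a, Rp e (((s a)⁻¹ : GL (Fin m) k) : Mat m k) fun _ _ _ _ x => ap (d a) x

theorem Rp.antipode {m : ℕ} {e : Fin m → O} {ζ : Mat m O} (op : ∀ (T : Type u) [CommRing T]
    [Algebra k T], Pt k O T → Pt k O T → Pt k O T) (h : Rp e ζ fun T _ _ y x => op T (toConv y) x) :
    Rp e (ζ.map (HopfAlgebra.antipodeAlgHom k O)) fun T _ _ y x => op T (toConv y)⁻¹ x :=
  fun T _ _ y x => h T (toConv y)⁻¹.ofConv x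

theorem exists_bi [Algebra.FiniteType k O] [Finite Γ] {d : Γ → Hm k k O O k} (h : Gp d) :
    ∃ m, Nonempty (Bi d m) := by
  classical
  have := Fintype.ofFinite Γ
  obtain ⟨S, hS⟩ := Algebra.FiniteType.out (R := k) (A := O)
  obtain ⟨n, e0, u, -, h2, h3, h4⟩ := (Hp.comod_self (k := k) (A := O)).exists_rep S
  let v : Γ × Fin n × Fin n → O := fun p => (ap (d p.1) (toConv (AlgHom.id k O))).ofConv (u p.2.1 p.2.2)
  have hv : ∀ (T : Type u) [CommRing T] [Algebra k T] (x : Pt k O T) p,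
      x.ofConv (v p) = (ap (d p.1) x).ofConv (u p.2.1 p.2.2) := fun T _ _ x p =>
    congrArg (fun y : Pt k O T => y.ofConv (u p.2.1 p.2.2)) (ap_nat (d p.1) x.ofConv _)
  have hu : ∀ (T : Type u) [CommRing T] [Algebra k T] (x y : Pt k O T) a i j,
      (x * y).ofConv (v (a, i, j)) = ∑ l, x.ofConv (v (a, i, l)) * y.ofConv (v (a, l, j)) := by
    intro T _ _ x y a i j
    simp only [hv]
    rw [ap, h.hom a]
    exact congrArg (fun g : GL (Fin n) T => g i j) ((h4.pts T).map_mul _ _)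
  obtain ⟨m, e, li, hm, H⟩ := exists_basis (k := k) v
  obtain ⟨R, hR⟩ := H O (fun _ _ _ y x => x * toConv y) fun ⟨a, i, j⟩ =>
    ⟨n, fun l => (a, i, l), fun l => v (a, l, j), fun T _ _ y x => hu T x _ a i j⟩
  obtain ⟨L, hL⟩ := H O (fun _ _ _ y x => (toConv y)⁻¹ * x) fun ⟨a, i, j⟩ =>
    ⟨n, fun l => (a, l, j), fun l => HopfAlgebra.antipode k (v (a, i, l)), fun T _ _ y x =>
      (hu T _ x a i j).trans (Finset.sum_congr rfl fun l _ => mul_comm _ _)⟩
  have hs : ∀ b, ∃ ζ : Mat m k, Rp e ζ fun _ _ _ _ x => ap (d b) x := fun b =>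
    H k _ fun ⟨a, i, j⟩ => by
      obtain ⟨c, hc⟩ := h.mul a b
      refine ⟨1, fun _ => (c, i, j), fun _ => 1, fun T _ _ y x => ?_⟩
      rw [Fin.sum_univ_one, hv, hv, ← hc, map_one, mul_one]
  choose ζ hζ using hs
  obtain ⟨r, hr⟩ := hR.exists_gl li (Rp.antipode (fun _ _ _ y x => x * y) hR)
    fun T _ _ y x => mul_inv_cancel_right _ _
  obtain ⟨l, hl⟩ := hL.exists_gl li (Rp.antipode (fun _ _ _ y x => y⁻¹ * x) hL)
    fun T _ _ y x => by rw [inv_inv, mul_inv_cancel_left]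
  have hs2 : ∀ a, ∃ g : GL (Fin m) k, (g : Mat m k) = ζ a := fun a =>
    let ⟨b, hb⟩ := h.inv a
    (hζ a).exists_gl li (hζ b) fun T _ _ _ x => (hb T x).2
  choose s hs using hs2
  refine ⟨m, ⟨e, li, eq_top_iff.2 ?_, r, l, fun a => (s a)⁻¹, hr ▸ hR, hl ▸ hL,
    fun a => by rw [inv_inv, hs]; exact hζ a⟩⟩
  rw [← hS, Algebra.adjoin_le_iff]
  intro y hy
  obtain ⟨a, ha⟩ := h.one
  have h5 : Submodule.span k (Set.range e0) ≤ Submodule.span k (Set.range e) := by
    rw [Submodule.span_le]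
    rintro _ ⟨j, rfl⟩
    have h6 := congrArg (Hp.cL Coalgebra.counit) (h3 j)
    have h7 : Hp.cL Coalgebra.counit (Coalgebra.comul (R := k) (e0 j)) = e0 j := by simp [Hp.cL]
    rw [h7, map_sum] at h6
    rw [h6]
    refine Submodule.sum_mem _ fun i _ => ?_
    rw [Hp.cL_tmul]
    refine Submodule.smul_mem _ _ ?_
    have := hm (a, i, j)
    simp only [v, ha] at this
    exact this
  exact Algebra.span_le_adjoin k _ (h5 (h2 y hy))

namespace Bi

variable {d : Γ → Hm k k O O k} {m : ℕ} (E : Bi d m)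

theorem rp_conj {e : Fin m → O} {ζ : GL (Fin m) B} {ψ : Fam k O B}
    (h : Rp e (ζ : Mat m B) ψ) (γ : GL (Fin m) k) :
    Rp (e ᵥ* (AQ.cst O γ : Mat m O))
      (((AQ.cst B γ)⁻¹ * ζ * AQ.cst B γ : GL (Fin m) B) : Mat m B) ψ := by
  intro T _ _ f x
  have e1 : ∀ y : Pt k O T, evv (e ᵥ* (AQ.cst O γ : Mat m O)) y =
      evv e y ᵥ* (AQ.cst T γ : Mat m T) := fun y => funext fun j => by
    simp only [evv, vecMul, dotProduct, map_sum, map_mul, gm_apply, Algebra.ofId_apply,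
      AlgHom.commutes]
  have e2 : (AQ.cst T γ : Mat m T) *
      (((AQ.cst B γ)⁻¹ * ζ * AQ.cst B γ : GL (Fin m) B) : Mat m B).map f =
        (ζ : Mat m B).map f * (AQ.cst T γ : Mat m T) := by
    have : AQ.cst T γ * gm f ((AQ.cst B γ)⁻¹ * ζ * AQ.cst B γ) = gm f ζ * AQ.cst T γ := by
      rw [(gm f).map_mul, (gm f).map_mul, (gm f).map_inv, gm_cst]
      group
    exact congrArg Units.val this
  rw [e1, e1, h, vecMul_vecMul, vecMul_vecMul, e2]

/-- Change of basis. -/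
noncomputable def conj (γ : GL (Fin m) k) : Bi d m where
  e := E.e ᵥ* (AQ.cst O γ : Mat m O)
  li := Fintype.linearIndependent_iff.2 fun c hc => by
    have h1 : (γ : Mat m k) *ᵥ c = 0 := funext (Fintype.linearIndependent_iff.1 E.li _ (by
      rw [← hc]
      simp only [mulVec, vecMul, dotProduct, Finset.sum_smul, Finset.smul_sum, gm_apply,
        Algebra.ofId_apply]
      rw [Finset.sum_comm]
      refine Finset.sum_congr rfl fun i _ => Finset.sum_congr rfl fun j _ => ?_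
      rw [mul_comm (E.e j), ← Algebra.smul_def, smul_smul, mul_comm]))
    have h2 := congrArg (((γ⁻¹ : GL (Fin m) k) : Mat m k) *ᵥ ·) h1
    simp only [mulVec_mulVec, Units.inv_mul, one_mulVec, mulVec_zero] at h2
    exact congrFun h2
  gen := by
    rw [eq_top_iff, ← E.gen, Algebra.adjoin_le_iff]
    rintro _ ⟨j, rfl⟩
    have : E.e = (E.e ᵥ* (AQ.cst O γ : Mat m O)) ᵥ* (AQ.cst O γ⁻¹ : Mat m O) := by
      rw [vecMul_vecMul, ← Units.val_mul, ← MonoidHom.map_mul, mul_inv_cancel, MonoidHom.map_one,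
        Units.val_one, vecMul_one]
    rw [congrFun this j, SetLike.mem_coe, vecMul, dotProduct]
    refine Subalgebra.sum_mem _ fun i _ => Subalgebra.mul_mem _ ?_ ?_
    · exact Algebra.subset_adjoin (Set.mem_range_self i)
    · exact Subalgebra.algebraMap_mem _ ((γ⁻¹ : GL (Fin m) k) i j)
  r := (AQ.cst O γ)⁻¹ * E.r * AQ.cst O γ
  l := (AQ.cst O γ)⁻¹ * E.l * AQ.cst O γ
  s a := γ⁻¹ * E.s a * γ
  hr := rp_conj E.hr γ
  hl := rp_conj E.hl γ
  hs a := by
    have := rp_conj (E.hs a) γ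
    rwa [cst_self, show γ⁻¹ * (E.s a)⁻¹ * γ = (γ⁻¹ * E.s a * γ)⁻¹ by group] at this

theorem up' {ζ ζ' : GL (Fin m) B}
    (h : ∀ (T : Type u) [CommRing T] [Algebra k T] (f : B →ₐ[k] T) (x : Pt k O T),
      evv E.e x ᵥ* (gm f ζ : Mat m T) = evv E.e x ᵥ* (gm f ζ' : Mat m T)) : ζ = ζ' :=
  Units.ext (up E.li h)

theorem evv_r (x y : Pt k O T) :
    evv E.e x ᵥ* (gm y.ofConv E.r : Mat m T) = evv E.e (x * y) := (E.hr T y.ofConv x).symm

theorem evv_l (x y : Pt k O T) :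
    evv E.e x ᵥ* (gm y.ofConv E.l : Mat m T) = evv E.e (y⁻¹ * x) := (E.hl T y.ofConv x).symm

theorem evv_s (a : Γ) (x : Pt k O T) :
    evv E.e (ap (d a) x) ᵥ* (AQ.cst T (E.s a) : Mat m T) = evv E.e x := by
  rw [E.hs a T (Algebra.ofId k T) x, vecMul_vecMul]
  have : AQ.cst T (E.s a)⁻¹ * AQ.cst T (E.s a) = 1 := by
    rw [← MonoidHom.map_mul, inv_mul_cancel, MonoidHom.map_one]
  exact (congrArg (evv E.e x ᵥ* ·) (congrArg Units.val this)).trans (vecMul_one _)

/-- Right translations. -/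
noncomputable def R (T : Type u) [CommRing T] [Algebra k T] : Pt k O T →* GL (Fin m) T :=
  MonoidHom.mk' (fun x => gm x.ofConv E.r) fun x y => E.up' fun T' _ _ f z => by
    rw [(gm f).map_mul, Units.val_mul, ← vecMul_vecMul]
    exact (E.evv_r z (RED.pm f (x * y))).trans (by
      rw [map_mul, ← mul_assoc, ← E.evv_r, ← E.evv_r]; rfl)

/-- Left translations. -/
noncomputable def L (T : Type u) [CommRing T] [Algebra k T] : Pt k O T →* GL (Fin m) T :=
  MonoidHom.mk' (fun x => gm x.ofConv E.l) fun x y => E.up' fun T' _ _ f z => by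
    rw [(gm f).map_mul, Units.val_mul, ← vecMul_vecMul]
    exact (E.evv_l z (RED.pm f (x * y))).trans (by
      rw [map_mul, _root_.mul_inv_rev, mul_assoc, ← E.evv_l, ← E.evv_l]; rfl)

theorem gm_R (f : T →ₐ[k] T') (x : Pt k O T) : gm f (E.R T x) = E.R T' (RED.pm f x) := rfl

theorem gm_L (f : T →ₐ[k] T') (x : Pt k O T) : gm f (E.L T x) = E.L T' (RED.pm f x) := rfl

theorem evv_R (x y : Pt k O T) : evv E.e x ᵥ* (E.R T y : Mat m T) = evv E.e (x * y) :=
  E.evv_r x y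

theorem evv_L (x y : Pt k O T) : evv E.e x ᵥ* (E.L T y : Mat m T) = evv E.e (y⁻¹ * x) :=
  E.evv_l x y

theorem evv_inj {x y : Pt k O T} (h : evv E.e x = evv E.e y) : x = y :=
  WithConv.ext (AlgHom.ext_of_adjoin_eq_top E.gen (by rintro _ ⟨j, rfl⟩; exact congrFun h j))

theorem L_R (x y : Pt k O T) : Commute (E.L T y) (E.R T x) := E.up' fun T' _ _ f z => by
  rw [(gm f).map_mul, (gm f).map_mul, Units.val_mul, Units.val_mul, ← vecMul_vecMul,
    ← vecMul_vecMul, gm_R, gm_L, evv_R, evv_L, evv_R, evv_L, mul_assoc]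

/-- The matrix `ζ` is the pull-back along the inverse of `c`. -/
def Rl (c : Hm k k O O B) (ζ : GL (Fin m) B) : Prop :=
  ∀ (T : Type u) [CommRing T] [Algebra k T] (f : B →ₐ[k] T) (x : Pt k O T),
    evv E.e (app c f x) ᵥ* (gm f ζ : Mat m T) = evv E.e x

variable {E}

theorem Rl.uniq {c : Hm k k O O B} (hc : IsIso c) {ζ ζ' : GL (Fin m) B} (h : E.Rl c ζ)
    (h' : E.Rl c ζ') : ζ = ζ' := E.up' fun T _ _ f x => by
  obtain ⟨y, rfl⟩ := (hc.2 T f).2 x
  rw [h, h']

theorem Rl.conjR {c : Hm k k O O B} (hc : IsIso c) {ζ : GL (Fin m) B} (h : E.Rl c ζ)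
    (f : B →ₐ[k] T) (x : Pt k O T) : gm f ζ * E.R T x * (gm f ζ)⁻¹ = E.R T (app c f x) := by
  rw [mul_inv_eq_iff_eq_mul]
  refine E.up' fun T' _ _ j z => ?_
  obtain ⟨y, rfl⟩ := (hc.2 T' (j.comp f)).2 z
  rw [(gm j).map_mul, (gm j).map_mul, Units.val_mul, Units.val_mul, ← vecMul_vecMul,
    ← vecMul_vecMul, gm_gm, gm_R, gm_R, h, evv_R, evv_R, app_nat, ← hc.1, h]

theorem Rl.conjL {c : Hm k k O O B} (hc : IsIso c) {ζ : GL (Fin m) B} (h : E.Rl c ζ)
    (f : B →ₐ[k] T) (x : Pt k O T) : gm f ζ * E.L T x * (gm f ζ)⁻¹ = E.L T (app c f x) := by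
  rw [mul_inv_eq_iff_eq_mul]
  refine E.up' fun T' _ _ j z => ?_
  obtain ⟨y, rfl⟩ := (hc.2 T' (j.comp f)).2 z
  have e := (MonoidHom.mk' (app c (j.comp f)) (hc.1 T' (j.comp f))).map_inv (RED.pm j x)
  rw [(gm j).map_mul, (gm j).map_mul, Units.val_mul, Units.val_mul, ← vecMul_vecMul,
    ← vecMul_vecMul, gm_gm, gm_L, gm_L, h, evv_L, evv_L, app_nat]
  exact ((congrArg (fun w => evv E.e (w * app c (j.comp f) y) ᵥ* _) e.symm).trans (by
    rw [MonoidHom.mk'_apply, ← hc.1, h])).symm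

theorem rl_s (E : Bi d m) (a : Γ) : E.Rl (d a) (E.s a) := fun T _ _ f x => by
  rw [Subsingleton.elim f (Algebra.ofId k T)]
  exact E.evv_s a x

theorem Rl.mul {c c' c'' : Hm k k O O B} {ζ ζ' : GL (Fin m) B} (h : E.Rl c ζ) (h' : E.Rl c' ζ')
    (e : ∀ (T : Type u) [CommRing T] [Algebra k T] (f : B →ₐ[k] T) (x : Pt k O T),
      app c'' f x = app c f (app c' f x)) : E.Rl c'' (ζ * ζ') := fun T _ _ f x => by
  rw [(gm f).map_mul, Units.val_mul, ← vecMul_vecMul, e, h, h']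

theorem Rl.push {c : Hm k k O O B} {ζ : GL (Fin m) B} (h : E.Rl c ζ) (j : B →ₐ[k] T) :
    E.Rl (push c j) (gm j ζ) := fun T' _ _ f x => by
  rw [app_push, gm_gm, h]

theorem rl_one (E : Bi d m) : E.Rl (Algebra.TensorProduct.includeRight : Hm k k O O B) 1 :=
  fun T _ _ f x => by rw [app_one, (gm f).map_one, Units.val_one, vecMul_one]

end Bi

end Pool.Agent.RED.Mo
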