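import Pool.Agent.P.MP_c1f06d_ag.g.HDefs

open Matrix Pool.Agent.GR

universe u

namespace Pool.Agent.RED

theorem CR.proj {K : Type u} [Field K] {m : ℕ} {T : Set (Mat m K)} (hT : CR T)
    (W : Submodule K (Fin m → K)) (hW : ∀ M ∈ T, ∀ v ∈ W, M *ᵥ v ∈ W) :
    ∃ p : Mat m K, (∀ v, p *ᵥ v ∈ W) ∧ (∀ v ∈ W, p *ᵥ v = v) ∧ ∀ M ∈ T, p * M = M * p := by
  obtain ⟨W', hc, hW'⟩ := hT W hW
  let f := W.projection W' hc
  have h1 : ∀ v ∈ W, f v = v := fun v hv => Submodule.projection_apply_left hc ⟨v, hv⟩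
  have h2 : ∀ v ∈ W', f v = 0 := fun v hv => Submodule.projection_apply_right hc ⟨v, hv⟩
  refine ⟨LinearMap.toMatrix' f, fun v => ?_, fun v hv => ?_, fun M hM => ?_⟩
  · rw [LinearMap.toMatrix'_mulVec]
    exact Submodule.projection_apply_mem hc v
  · rw [LinearMap.toMatrix'_mulVec, h1 v hv]
  · refine ext_iff_mulVec.2 fun v => ?_
    obtain ⟨w, hw, w', hw', rfl⟩ := Submodule.mem_sup.1 (hc.sup_eq_top ▸ Submodule.mem_top (x := v))
    rw [← mulVec_mulVec, ← mulVec_mulVec, LinearMap.toMatrix'_mulVec, LinearMap.toMatrix'_mulVec,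
      mulVec_add, map_add, map_add, h1 w hw, h2 w' hw', h1 _ (hW M hM w hw),
      h2 _ (hW' M hM w' hw'), add_zero, add_zero]

theorem CR.conj {K : Type u} [Field K] {m : ℕ} {T : Set (Mat m K)} (hT : CR T)
    (δ : GL (Fin m) K) (s : Fin m → Prop) [DecidablePred s]
    (hs : ∀ M ∈ T, ∀ i j, ¬ s i → s j →
      (((δ⁻¹ : GL (Fin m) K) : Mat m K) * M * (δ : Mat m K)) i j = 0) :
    ∃ P : Mat m K, (∀ i j, ¬ s i → P i j = 0) ∧
      P * diagonal (fun i => if s i then 1 else 0) = diagonal (fun i => if s i then 1 else 0) ∧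
      ∀ M ∈ T, Commute P (((δ⁻¹ : GL (Fin m) K) : Mat m K) * M * (δ : Mat m K)) := by
  let W : Submodule K (Fin m → K) :=
    { carrier := {v | ∀ i, ¬ s i → (((δ⁻¹ : GL (Fin m) K) : Mat m K) *ᵥ v) i = 0}
      add_mem' := fun ha hb i hi => by rw [mulVec_add, Pi.add_apply, ha i hi, hb i hi, add_zero]
      zero_mem' := fun i _ => by rw [mulVec_zero, Pi.zero_apply]
      smul_mem' := fun c _ ha i hi => by rw [mulVec_smul, Pi.smul_apply, ha i hi, smul_zero] }
  obtain ⟨p, h1, h2, h3⟩ := hT.proj W fun M hM v hv i hi => by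
    have e : ((δ⁻¹ : GL (Fin m) K) : Mat m K) *ᵥ M *ᵥ v =
        (((δ⁻¹ : GL (Fin m) K) : Mat m K) * M * (δ : Mat m K)) *ᵥ
          ((δ⁻¹ : GL (Fin m) K) : Mat m K) *ᵥ v := by
      rw [mulVec_mulVec, mulVec_mulVec, Units.mul_inv_cancel_right]
    rw [e, mulVec, dotProduct]
    refine Finset.sum_eq_zero fun j _ => ?_
    by_cases hj : s j
    · rw [hs M hM i j hi hj, zero_mul]
    · rw [hv j hj, mul_zero]
  refine ⟨((δ⁻¹ : GL (Fin m) K) : Mat m K) * p * (δ : Mat m K), fun i j hi => ?_,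
    ext_iff_mulVec.2 fun v => ?_, fun M hM => ?_⟩
  · have := h1 ((δ : Mat m K) *ᵥ Pi.single j 1) i hi
    rwa [mulVec_mulVec, mulVec_mulVec, mulVec_single_one] at this
  · rw [← mulVec_mulVec, ← mulVec_mulVec, ← mulVec_mulVec, h2 _ fun i hi => by
      rw [mulVec_mulVec, Units.inv_mul, one_mulVec, mulVec_diagonal, if_neg hi, zero_mul],
      mulVec_mulVec, Units.inv_mul, one_mulVec]
  · show _ * _ = _ * _
    simp only [mul_assoc, Units.mul_inv_cancel_left]
    rw [← mul_assoc p, h3 M hM, mul_assoc]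

/-- BLK: a completely reducible set is block diagonal with irreducible blocks. -/
theorem CR.blocks {K : Type u} [Field K] {m : ℕ} {T : Set (Mat m K)} (hT : CR T) :
    ∃ (γ : GL (Fin m) K) (c : Fin m → ℤ),
      (∀ M ∈ T, InL c (((γ⁻¹ : GL (Fin m) K) : Mat m K) * M * (γ : Mat m K))) ∧
      ∀ (h : GL (Fin m) K) (b : Fin m → ℤ), InL c (h : Mat m K) →
        (∀ M ∈ T, InP b ((h : Mat m K) * (((γ⁻¹ : GL (Fin m) K) : Mat m K) * M * (γ : Mat m K)) *
          ((h⁻¹ : GL (Fin m) K) : Mat m K))) → ∀ i j, c i = c j → b i = b j := by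
  classical
  let Q : ℕ → Prop := fun t => ∃ (γ : GL (Fin m) K) (c : Fin m → ℤ),
    (∀ M ∈ T, InL c (((γ⁻¹ : GL (Fin m) K) : Mat m K) * M * (γ : Mat m K))) ∧
      (Finset.univ.filter fun p : Fin m × Fin m => c p.1 = c p.2).card = t
  have hQ : ∃ t, Q t := ⟨_, 1, 0, fun _ _ _ _ h => (h rfl).elim, rfl⟩
  obtain ⟨γ, c, h1, h2⟩ := Nat.find_spec hQ
  refine ⟨γ, c, h1, fun h b hh hb => ?_⟩
  suffices key : ∀ i j, c i = c j → ¬ b i < b j from fun i j e =>
    le_antisymm (not_lt.1 (key j i e.symm)) (not_lt.1 (key i j e))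
  intro i0 j0 e0 e1
  have hN : ∀ M : Mat m K, (((γ * h⁻¹)⁻¹ : GL (Fin m) K) : Mat m K) * M *
      ((γ * h⁻¹ : GL (Fin m) K) : Mat m K) = (h : Mat m K) *
        (((γ⁻¹ : GL (Fin m) K) : Mat m K) * M * (γ : Mat m K)) *
          ((h⁻¹ : GL (Fin m) K) : Mat m K) := fun M => by
    rw [_root_.mul_inv_rev, inv_inv, Units.val_mul, Units.val_mul]
    simp only [mul_assoc]
  have hL : ∀ M ∈ T, InL c ((((γ * h⁻¹)⁻¹ : GL (Fin m) K) : Mat m K) * M *
      ((γ * h⁻¹ : GL (Fin m) K) : Mat m K)) := fun M hM =>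
    hN M ▸ (hh.mul (h1 M hM)).mul hh.inv
  let s : Fin m → Prop := fun i => c i = c j0 ∧ b j0 ≤ b i
  obtain ⟨P, hP1, hP2, hP3⟩ := hT.conj (γ * h⁻¹) s fun M hM i j hi hj => by
    by_cases e : c i = c j
    · exact (hN M ▸ hb M hM) i j (lt_of_lt_of_le (not_le.1 fun e' => hi ⟨e.trans hj.1, e'⟩) hj.2)
    · exact hL M hM i j e
  set E : Mat m K := diagonal fun i => if s i then 1 else 0 with hE
  let e : Mat m K := diagonal fun i => if c i = c j0 then 1 else 0
  have a1 : E * P = P := by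
    ext i j
    by_cases hi : s i <;> simp [hE, hi, hP1 i j]
  have a2 : e * E = E := by
    rw [hE, diagonal_mul_diagonal]
    exact congrArg diagonal (funext fun i => by
      by_cases hi : s i
      · rw [if_pos hi, if_pos hi.1, one_mul]
      · rw [if_neg hi, mul_zero])
  have a3 : E * E = E := by
    rw [hE, diagonal_mul_diagonal]
    exact congrArg diagonal (funext fun i => by split_ifs <;> simp)
  have a4 : P * e * E = E := by rw [mul_assoc, a2, hP2]
  have a5 : E * (P * e) = P * e := by rw [← mul_assoc, a1]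
  have a6 : P * e * (P * e) = P * e := by rw [← a5, ← mul_assoc (E * (P * e)), a5, a4, a5]
  have a7 : (P * e - E) * (P * e - E) = 0 := by
    rw [mul_sub, sub_mul, sub_mul, a6, a5, a4, a3, sub_self, sub_self, sub_self]
  let u : GL (Fin m) K := ⟨1 - (P * e - E), 1 + (P * e - E),
    by rw [mul_add, mul_one, sub_mul, one_mul, a7, sub_zero, sub_add_cancel],
    by rw [mul_sub, mul_one, add_mul, one_mul, a7, add_zero, add_sub_cancel_right]⟩
  have hu : InL c (u : Mat m K) := fun i j hij => by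
    have hne : i ≠ j := fun e => hij (congrArg c e)
    show (1 - (P * e - E)) i j = 0
    rw [Matrix.sub_apply, Matrix.sub_apply, one_apply_ne hne, hE, diagonal_apply_ne _ hne, mul_diagonal]
    by_cases hj : c j = c j0
    · rw [hP1 i j fun hi => hij (hi.1.trans hj.symm)]
      simp
    · simp [hj]
  have a8 : P * e * (u : Mat m K) = u * E := by
    show P * e * (1 - (P * e - E)) = (1 - (P * e - E)) * E
    rw [mul_sub, mul_sub, sub_mul, sub_mul, a6, a4, a3, mul_one, one_mul]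
    abel
  refine Nat.find_min hQ (m := (Finset.univ.filter fun p : Fin m × Fin m =>
    2 * c p.1 + (if s p.1 then 1 else 0) = 2 * c p.2 + (if s p.2 then 1 else 0)).card) ?_
      ⟨γ * h⁻¹ * u, fun i => 2 * c i + (if s i then 1 else 0), fun M hM i j hij => ?_, rfl⟩
  · rw [← h2]
    refine Finset.card_lt_card ⟨fun p hp => Finset.mem_filter.2 ⟨Finset.mem_univ _, ?_⟩,
      fun hs => ?_⟩
    · have := (Finset.mem_filter.1 hp).2
      split_ifs at this <;> omega
    · have := (Finset.mem_filter.1 (hs (Finset.mem_filter.2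
        ⟨Finset.mem_univ (i0, j0), e0⟩))).2
      rw [if_neg fun hi : s i0 => hi.2.not_gt e1, if_pos ⟨rfl, le_rfl⟩] at this
      omega
  · generalize hX : (((γ * h⁻¹)⁻¹ : GL (Fin m) K) : Mat m K) * M *
      ((γ * h⁻¹ : GL (Fin m) K) : Mat m K) = X
    have b0 : InL c X := hX ▸ hL M hM
    have b1 : Commute P X := hX ▸ hP3 M hM
    have b2 : Commute e X := by
      ext i j
      rw [diagonal_mul, mul_diagonal]
      by_cases e' : c i = c j
      · rw [e', mul_comm]
      · rw [b0 i j e', mul_zero, zero_mul]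
    have b3 : (((γ * h⁻¹ * u)⁻¹ : GL (Fin m) K) : Mat m K) * M *
        ((γ * h⁻¹ * u : GL (Fin m) K) : Mat m K) =
          ((u⁻¹ : GL (Fin m) K) : Mat m K) * X * (u : Mat m K) := by
      rw [← hX, _root_.mul_inv_rev (γ * h⁻¹), Units.val_mul u⁻¹, Units.val_mul _ u]
      simp only [mul_assoc]
    have b4 : E * ((u⁻¹ : GL (Fin m) K) : Mat m K) = (u⁻¹ : GL (Fin m) K) * (P * e) := by
      rw [Units.eq_inv_mul_iff_mul_eq, ← mul_assoc, ← a8, Units.mul_inv_cancel_right]
    have b5 : E * (((u⁻¹ : GL (Fin m) K) : Mat m K) * X * (u : Mat m K)) =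
        ((u⁻¹ : GL (Fin m) K) : Mat m K) * X * (u : Mat m K) * E := by
      rw [← mul_assoc, ← mul_assoc, b4, mul_assoc _ (P * e), (b1.mul_left b2).eq, mul_assoc,
        mul_assoc X, a8]
      simp only [mul_assoc]
    rw [b3]
    by_cases e' : c i = c j
    · have b6 := congrFun (congrFun b5 i) j
      rw [hE, diagonal_mul, mul_diagonal] at b6
      simp only [e'] at hij
      split_ifs at b6 hij <;> simp_all
    · exact (hu.inv.mul b0).mul hu i j e'

end Pool.Agent.RED
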