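import Pool.Agent.P.MP_c1f06d_ag.g.HDefs

open Matrix Pool.Agent.GR Pool.Agent.GR.AQ Pool.Agent.GR.Co
open scoped TensorProduct

universe u

namespace Pool.Agent.RED

variable {k : Type u} [Field k] {m : ℕ} {D : Type u} [CommRing D] [Algebra k D] {Γ : Type}

/-- The ideal of the schematic closure of the points `w γ`. -/
noncomputable def clI (k : Type u) [Field k] [Algebra k D] (w : Γ → GL (Fin m) D) :
    Ideal (OGL k m) := ⨅ γ, RingHom.ker (ev k (w γ))

theorem mem_clI {w : Γ → GL (Fin m) D} {f : OGL k m} : f ∈ clI k w ↔ ∀ γ, ev k (w γ) f = 0 := by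
  simp [clI, RingHom.mem_ker]

theorem vz_clI (w : Γ → GL (Fin m) D) (γ : Γ) : Vz (clI k w) (w γ) := fun _ hf => mem_clI.1 hf γ

theorem clI_sep (w : Γ → GL (Fin m) D) (b : OGL k m ⧸ clI k w)
    (h : ∀ γ, (vz_clI w γ).lift b = 0) : b = 0 := by
  obtain ⟨f, rfl⟩ := Ideal.Quotient.mk_surjective b
  exact Ideal.Quotient.eq_zero_iff_mem.2 (mem_clI.2 h)

theorem clI_sep_tensor (w : Γ → GL (Fin m) D) {C : Type u} [CommRing C] [Algebra k C]
    (x : C ⊗[k] (OGL k m ⧸ clI k w))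
    (h : ∀ γ, Algebra.TensorProduct.map (AlgHom.id k C) (vz_clI w γ).lift x = 0) : x = 0 :=
  eq_zero_of_ctr x fun φ => clI_sep w _ fun γ => by
    have e := ctr_lTensor φ (vz_clI w γ).lift.toLinearMap x
    have e2 : (vz_clI w γ).lift.toLinearMap.lTensor C x = 0 := h γ
    rw [e2, map_zero] at e
    exact e.symm

/-- Closed conditions pass to the closure. -/
theorem clI_ind (w : Γ → GL (Fin m) D) (C : Type u) [CommRing C] [Algebra k C]
    (F : ∀ (T : Type u) [CommRing T] [Algebra k T], GL (Fin m) T → (C →ₐ[k] T) → T)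
    (nat : ∀ (T T' : Type u) [CommRing T] [Algebra k T] [CommRing T'] [Algebra k T']
      (f : T →ₐ[k] T') (h : GL (Fin m) T) (y : C →ₐ[k] T), f (F T h y) = F T' (gm f h) (f.comp y))
    (h0 : ∀ (T : Type u) [CommRing T] [Algebra k T] (γ : Γ) (d : D →ₐ[k] T) (y : C →ₐ[k] T),
      F T (gm d (w γ)) y = 0) {T : Type u} [CommRing T] [Algebra k T] {h : GL (Fin m) T}
    (hh : Vz (clI k w) h) (y : C →ₐ[k] T) : F T h y = 0 := by
  have e : F (C ⊗[k] (OGL k m ⧸ clI k w)) (gm (iR k _ _) (uq (clI k w))) (iL k _ _) = 0 :=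
    clI_sep_tensor w _ fun γ => by
      refine (nat (C ⊗[k] (OGL k m ⧸ clI k w)) (C ⊗[k] D)
        (Algebra.TensorProduct.map (AlgHom.id k C) (vz_clI w γ).lift) _ _).trans ?_
      rw [gm_gm, Algebra.TensorProduct.map_comp_includeRight, ← gm_gm, Vz.gm_lift, h0]
  have e2 := nat (C ⊗[k] (OGL k m ⧸ clI k w)) T (Algebra.TensorProduct.lift y hh.lift fun _ _ => Commute.all _ _)
    (gm (iR k C _) (uq (clI k w))) (iL k _ _)
  rw [e, map_zero, gm_gm, Algebra.TensorProduct.lift_comp_includeRight',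
    Algebra.TensorProduct.lift_comp_includeLeft, Vz.gm_lift] at e2
  exact e2.symm

/-- Closed conditions without parameters. -/
theorem clI_ind0 (w : Γ → GL (Fin m) D)
    (F : ∀ (T : Type u) [CommRing T] [Algebra k T], GL (Fin m) T → T)
    (nat : ∀ (T T' : Type u) [CommRing T] [Algebra k T] [CommRing T'] [Algebra k T']
      (f : T →ₐ[k] T') (h : GL (Fin m) T), f (F T h) = F T' (gm f h))
    (h0 : ∀ γ, F D (w γ) = 0) {T : Type u} [CommRing T] [Algebra k T] {h : GL (Fin m) T}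
    (hh : Vz (clI k w) h) : F T h = 0 :=
  clI_ind w k (fun T _ _ h _ => F T h) (fun T T' _ _ _ _ f h _ => nat T T' f h)
    (fun T _ _ γ d _ => by rw [← nat, h0, map_zero]) hh (Algebra.ofId k T)

theorem vz_of_ext {I : Ideal (OGL k m)} (K : Type u) [CommRing K] [Nontrivial K] [Algebra k K]
    {T : Type u} [CommRing T] [Algebra k T] {g : GL (Fin m) T}
    (h : Vz I (gm (iL k T K) g)) : Vz I g :=
  h.of_inj _ (Algebra.TensorProduct.includeLeft_injective (FaithfulSMul.algebraMap_injective k K))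

theorem clI_isGrp (w : Γ → GL (Fin m) D) (h1 : Vz (clI k w) (1 : GL (Fin m) k))
    (hm : ∀ (T : Type u) [CommRing T] [Algebra k T] (γ γ' : Γ) (d d' : D →ₐ[k] T),
      Vz (clI k w) (gm d (w γ) * gm d' (w γ')))
    (hi : ∀ γ, Vz (clI k w) (w γ)⁻¹) : IsGrp (clI k w) := by
  have s1 : ∀ (T : Type u) [CommRing T] [Algebra k T] (γ : Γ) (d : D →ₐ[k] T) (h : GL (Fin m) T),
      Vz (clI k w) h → Vz (clI k w) (gm d (w γ) * h) := fun T _ _ γ d h hh f hf =>
    clI_ind w D (fun T _ _ h d => ev k (gm d (w γ) * h) f)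
      (fun T T' _ _ _ _ φ h d => by rw [map_ev, MonoidHom.map_mul, gm_gm])
      (fun T _ _ γ' d' d => hm T γ γ' d d' f hf) hh d
  refine ⟨fun T _ _ => ?_, fun {T} _ _ {g g'} hg hg' f hf => ?_, fun {T} _ _ {g} hg f hf => ?_⟩
  · have := h1.map (Algebra.ofId k T)
    rwa [MonoidHom.map_one] at this
  · have := clI_ind w (OGL k m ⧸ clI k w) (fun T _ _ h y => ev k (h * gm y (uq _)) f)
      (fun T T' _ _ _ _ φ h d => by rw [map_ev, MonoidHom.map_mul, gm_gm])
      (fun T _ _ γ d y => s1 T γ d _ ((vz_uq _).map y) f hf) hg hg'.lift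
    rwa [Vz.gm_lift] at this
  · exact clI_ind0 w (fun T _ _ h => ev k h⁻¹ f)
      (fun T T' _ _ _ _ φ h => (map_ev φ _ f).trans (congrArg (fun x => ev k x f) ((gm φ).map_inv h)))
      (fun γ => hi γ f hf) hg

theorem clI_reduced (w : Γ → GL (Fin m) D) (W : Type u) [CommRing W] [Algebra k W]
    [IsReduced (W ⊗[k] D)] : IsReduced (W ⊗[k] (OGL k m ⧸ clI k w)) :=
  ⟨fun x hx => clI_sep_tensor w x fun _ => (hx.map _).eq_zero⟩

theorem clI_conj {w w' : Γ → GL (Fin m) D} (c : GL (Fin m) k)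
    (e : ∀ γ, w' γ = (AQ.cst D c)⁻¹ * w γ * AQ.cst D c) {T : Type u} [CommRing T] [Algebra k T]
    {h : GL (Fin m) T} (hh : Vz (clI k w) h) : Vz (clI k w') ((AQ.cst T c)⁻¹ * h * AQ.cst T c) :=
  fun f hf => clI_ind0 w (fun T _ _ h => ev k ((AQ.cst T c)⁻¹ * h * AQ.cst T c) f)
    (fun T T' _ _ _ _ φ h => (map_ev φ _ f).trans (congrArg (fun x => ev k x f) (by
      rw [(gm φ).map_mul, (gm φ).map_mul, (gm φ).map_inv, gm_cst])))
    (fun γ => by rw [← e]; exact vz_clI w' γ f hf) hh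

end Pool.Agent.RED
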