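import Pool.Agent.P.MP_c1f06d_ag.g.HBlk
import Pool.Agent.P.MP_c1f06d_ag.g.AQ
import Pool.Agent.P.MP_c1f06d_ag.r.LU

/-! The doubled embedding. -/

open Matrix Pool.Agent.GR Pool.Agent.GR.AQ Pool.Agent.GR.Co

universe u

namespace Pool.Agent.RED

section blk

variable {m : ℕ} {A : Type u} [CommRing A]

/-- The matrix with two diagonal blocks. -/
def blk (M N : Mat m A) : Mat (m + m) A :=
  reindex finSumFinEquiv finSumFinEquiv (fromBlocks M 0 0 N)

theorem dbl_eq (a : Fin m → ℤ) (M : Mat m A) : dbl a M = blk M (lv a M) := rfl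

theorem blk_mul (M N M' N' : Mat m A) : blk M N * blk M' N' = blk (M * M') (N * N') := by
  simp only [blk, reindex_apply, submatrix_mul_equiv, fromBlocks_multiply, Matrix.mul_zero,
    Matrix.zero_mul, add_zero, zero_add]

theorem blk_one : blk (1 : Mat m A) 1 = 1 := by
  simp [blk]

theorem blk_apply (M N : Mat m A) (p q : Fin m ⊕ Fin m) :
    blk M N (finSumFinEquiv p) (finSumFinEquiv q) = fromBlocks M 0 0 N p q := by
  simp [blk]

theorem blk_map {A' : Type u} [CommRing A'] (f : A →+* A') (M N : Mat m A) :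
    (blk M N).map f = blk (M.map f) (N.map f) := by
  ext i j
  obtain ⟨p, rfl⟩ := finSumFinEquiv.surjective i
  obtain ⟨q, rfl⟩ := finSumFinEquiv.surjective j
  rw [map_apply, blk_apply, blk_apply]
  rcases p with p | p <;> rcases q with q | q <;> simp

theorem blk_inj {M N M' N' : Mat m A} (h : blk M N = blk M' N') : M = M' ∧ N = N' := by
  have := fromBlocks_inj.1 ((reindex finSumFinEquiv finSumFinEquiv).injective h)
  exact ⟨this.1, this.2.2.2⟩

theorem lv_map {A' : Type u} [CommRing A'] (f : A →+* A') (a : Fin m → ℤ) (M : Mat m A) :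
    (lv a M).map f = lv a (M.map f) := by
  ext i j
  simp only [lv, map_apply, of_apply, apply_ite f, map_zero]

theorem dbl_map {A' : Type u} [CommRing A'] (f : A →+* A') (a : Fin m → ℤ) (M : Mat m A) :
    (dbl a M).map f = dbl a (M.map f) := by
  rw [dbl_eq, blk_map, lv_map, dbl_eq]

theorem dbl_mul {a : Fin m → ℤ} {M N : Mat m A} (hM : InP a M) (hN : InP a N) :
    dbl a (M * N) = dbl a M * dbl a N := by
  rw [dbl_eq, dbl_eq, dbl_eq, blk_mul, hM.lv_mul hN]

theorem dbl_one (a : Fin m → ℤ) : dbl a (1 : Mat m A) = 1 := by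
  rw [dbl_eq, (InL.one a).lv_eq, blk_one]

/-- The invertible matrix with two diagonal blocks. -/
def blkU (g h : GL (Fin m) A) : GL (Fin (m + m)) A :=
  ⟨blk g h, blk (g⁻¹ : GL (Fin m) A) (h⁻¹ : GL (Fin m) A),
    by rw [blk_mul, Units.mul_inv, Units.mul_inv, blk_one],
    by rw [blk_mul, Units.inv_mul, Units.inv_mul, blk_one]⟩

/-- The doubled invertible matrix. -/
def dblU {a : Fin m → ℤ} (g : GL (Fin m) A) (h : InP a (g : Mat m A)) : GL (Fin (m + m)) A :=
  ⟨dbl a g, dbl a (g⁻¹ : GL (Fin m) A), by rw [← dbl_mul h h.inv, Units.mul_inv, dbl_one],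
    by rw [← dbl_mul h.inv h, Units.inv_mul, dbl_one]⟩

/-- The lower right block. -/
def low (M : Mat (m + m) A) : Mat m A :=
  of fun i j => M (finSumFinEquiv (Sum.inr i)) (finSumFinEquiv (Sum.inr j))

theorem low_blk (M N : Mat m A) : low (blk M N) = N := by
  ext i j
  rw [low, of_apply, blk_apply, fromBlocks_apply₂₂]

theorem low_one : low (1 : Mat (m + m) A) = 1 := by
  rw [← blk_one, low_blk]

/-- The colouring of the doubled index set. -/
def col (c : Fin m → ℤ) (i : Fin (m + m)) : Option ℤ :=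
  Sum.elim (fun _ => none) (fun j => some (c j)) (finSumFinEquiv.symm i)

theorem col_inl (c : Fin m → ℤ) (i : Fin m) : col c (finSumFinEquiv (Sum.inl i)) = none := by
  rw [col, Equiv.symm_apply_apply]
  rfl

theorem col_inr (c : Fin m → ℤ) (i : Fin m) : col c (finSumFinEquiv (Sum.inr i)) = some (c i) := by
  rw [col, Equiv.symm_apply_apply]
  rfl

theorem low_mul {c : Fin m → ℤ} {M : Mat (m + m) A} (hM : InL (col c) M) (N : Mat (m + m) A) :
    low (M * N) = low M * low N := by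
  ext i j
  rw [low, of_apply, Matrix.mul_apply, Matrix.mul_apply, ← finSumFinEquiv.sum_comp,
    Fintype.sum_sum_type, Finset.sum_eq_zero, zero_add]
  · rfl
  · intro l _
    rw [hM _ _ (by rw [col_inl, col_inr]; simp), zero_mul]

theorem inL_blk {c : Fin m → ℤ} (M : Mat m A) {N : Mat m A} (hN : InL c N) :
    InL (col c) (blk M N) := by
  intro i j e
  obtain ⟨p, rfl⟩ := finSumFinEquiv.surjective i
  obtain ⟨q, rfl⟩ := finSumFinEquiv.surjective j
  rw [blk_apply]
  rcases p with p | p <;> rcases q with q | q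
  · exact (e (by rw [col_inl, col_inl])).elim
  · rfl
  · rfl
  · exact hN p q fun e' => e (by rw [col_inr, col_inr, e'])

theorem inL_low {c : Fin m → ℤ} {M : Mat (m + m) A} (hM : InL (col c) M) : InL c (low M) :=
  fun i j e => hM _ _ (by rw [col_inr, col_inr]; simpa using e)

/-- The lower right block of an invertible block matrix. -/
def lowU {c : Fin m → ℤ} (g : GL (Fin (m + m)) A) (h : InL (col c) (g : Mat (m + m) A)) :
    GL (Fin m) A :=
  ⟨low g, low (g⁻¹ : GL (Fin (m + m)) A), by rw [← low_mul h, Units.mul_inv, low_one],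
    by rw [← low_mul h.inv, Units.inv_mul, low_one]⟩

end blk

theorem ev_mem {k T : Type u} [CommRing k] [CommRing T] [Algebra k T] {n : ℕ} (N : Subalgebra k T)
    (g : GL (Fin n) T) (h1 : ∀ i j, (g : Mat n T) i j ∈ N)
    (h2 : ∀ i j, ((g⁻¹ : GL (Fin n) T) : Mat n T) i j ∈ N) (f : OGL k n) : ev k g f ∈ N := by
  have inj : Function.Injective (N.val.toRingHom.mapMatrix : Mat n N → Mat n T) :=
    fun a b h => Matrix.ext fun i j => Subtype.ext (congrFun (congrFun h i) j)
  let g' : GL (Fin n) N := ⟨of fun i j => ⟨_, h1 i j⟩, of fun i j => ⟨_, h2 i j⟩,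
    inj (by rw [map_mul, map_one]; exact g.mul_inv), inj (by rw [map_mul, map_one]; exact g.inv_mul)⟩
  have e : gm N.val g' = g := Units.ext rfl
  rw [← e, ← map_ev]
  exact (ev k g' f).2

/-- The doubled matrix of a generating matrix generates. -/
theorem dblU_surj {k T : Type u} [CommRing k] [CommRing T] [Algebra k T] {m : ℕ} {a : Fin m → ℤ}
    {g : GL (Fin m) T} (h : InP a (g : Mat m T)) (hs : Function.Surjective (ev k g)) :
    Function.Surjective (ev k (dblU g h)) := by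
  intro x
  obtain ⟨f, rfl⟩ := hs x
  refine ev_mem (ev k (dblU g h)).range g (fun i j => ⟨ug k _ (finSumFinEquiv (Sum.inl i))
    (finSumFinEquiv (Sum.inl j)), (ev_ug_apply _ _ _).trans (blk_apply _ _ _ _)⟩)
    (fun i j => ⟨((ug k _)⁻¹ : GL (Fin (m + m)) _) (finSumFinEquiv (Sum.inl i))
      (finSumFinEquiv (Sum.inl j)), ?_⟩) f
  show gm (ev k (dblU g h)) (ug k _)⁻¹ _ _ = _
  rw [map_inv, gm_ev_ug]
  exact blk_apply _ _ _ _

/-- The doubled group has an affine quotient, given irreducible blocks. -/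
theorem aq_dbl' (k K : Type u) [Field k] [Field K] [IsAlgClosed K] [Algebra k K] {m : ℕ}
    (I : Ideal (OGL k m)) (hI : IsGrp I) [Algebra.Smooth k (OGL k m ⧸ I)] (a : Fin m → ℤ)
    (hP : ∀ (T : Type u) [CommRing T] [Algebra k T] (g : GL (Fin m) T), Vz I g →
      InP a (g : Mat m T)) (γ : GL (Fin m) K) (c : Fin m → ℤ)
    (h1 : ∀ g : GL (Fin m) K, Vz I g →
      InL c (((γ⁻¹ : GL (Fin m) K) : Mat m K) * lv a (g : Mat m K) * (γ : Mat m K)))
    (h2 : ∀ (h : GL (Fin m) K) (b : Fin m → ℤ), InL c (h : Mat m K) →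
      (∀ g : GL (Fin m) K, Vz I g → InP b ((h : Mat m K) *
        (((γ⁻¹ : GL (Fin m) K) : Mat m K) * lv a (g : Mat m K) * (γ : Mat m K)) *
          ((h⁻¹ : GL (Fin m) K) : Mat m K))) → ∀ i j, c i = c j → b i = b j)
    (hker : {g : GL (Fin m) K | Vz I g ∧ lv a (g : Mat m K) = 1}.Finite) :
    ∃ Q : AffQuot k (m + m), ∀ (T : Type u) [CommRing T] [Algebra k T] (g : GL (Fin (m + m)) T),
      Q.Pt g ↔ ∃ ζ : GL (Fin m) T, Vz I ζ ∧ (g : Mat (m + m) T) = dbl a (ζ : Mat m T) := by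
  let w := dblU (uq I) (hP _ _ (vz_uq I))
  have hs : Function.Surjective (ev k w) :=
    dblU_surj _ fun x => by
      obtain ⟨f, rfl⟩ := Ideal.Quotient.mk_surjective x
      exact ⟨f, ev_uq I f⟩
  let J : Ideal (OGL k (m + m)) := RingHom.ker (ev k w)
  have hJ : ∀ (T : Type u) [CommRing T] [Algebra k T] (g : GL (Fin (m + m)) T),
      Vz J g ↔ ∃ ζ : GL (Fin m) T, Vz I ζ ∧ (g : Mat (m + m) T) = dbl a (ζ : Mat m T) := by
    intro T _ _ g
    constructor
    · intro hg
      let x := AlgHom.liftOfSurjective (ev k w) hs (ev k g) hg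
      have hx : x.comp (ev k w) = ev k g := AlgHom.liftOfSurjective_comp _ _ _ _
      refine ⟨gm x (uq I), (vz_uq I).map x, ?_⟩
      rw [← gm_ev_ug (k := k) g, ← hx, ← gm_gm, gm_ev_ug]
      exact dbl_map (x : (OGL k m ⧸ I) →+* T) a _
    · rintro ⟨ζ, hζ, e⟩ f hf
      have e2 : g = gm hζ.lift w := Units.ext (by
        rw [e]
        conv_lhs => rw [← hζ.gm_lift]
        exact (dbl_map (hζ.lift : (OGL k m ⧸ I) →+* T) a _).symm)
      rw [e2, ← map_ev, show ev k w f = 0 from hf, map_zero]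
  have hG : IsGrp J := by
    refine ⟨fun T _ _ => (hJ T 1).2 ⟨1, hI.one T, (dbl_one a).symm⟩, fun {T} _ _ g g' h h' => ?_,
      fun {T} _ _ g h => ?_⟩
    · obtain ⟨ζ, h3, e⟩ := (hJ T g).1 h
      obtain ⟨ζ', h3', e'⟩ := (hJ T g').1 h'
      exact (hJ T _).2 ⟨ζ * ζ', hI.mul h3 h3', by
        rw [Units.val_mul, Units.val_mul, e, e', dbl_mul (hP _ _ h3) (hP _ _ h3')]⟩
    · obtain ⟨ζ, h3, e⟩ := (hJ T g).1 h
      obtain rfl : g = dblU ζ (hP _ _ h3) := Units.ext e
      exact (hJ T _).2 ⟨ζ⁻¹, hI.inv h3, rfl⟩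
  have : Algebra.Smooth k (OGL k (m + m) ⧸ J) :=
    Algebra.Smooth.of_equiv (Ideal.quotientKerAlgEquivOfSurjective hs).symm
  have hcj : ∀ (g : GL (Fin (m + m)) K) (ζ : GL (Fin m) K),
      (g : Mat (m + m) K) = dbl a (ζ : Mat m K) →
      (((blkU 1 γ)⁻¹ * g * blkU 1 γ : GL (Fin (m + m)) K) : Mat (m + m) K) = blk (ζ : Mat m K)
        (((γ⁻¹ : GL (Fin m) K) : Mat m K) * lv a (ζ : Mat m K) * (γ : Mat m K)) := by
    intro g ζ e
    rw [Units.val_mul, Units.val_mul, e, dbl_eq]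
    show blk _ _ * _ * blk _ _ = _
    rw [blk_mul, blk_mul]
    simp
  obtain ⟨Q, hQ⟩ := exists_affQuot hG (dense_of_smooth J K) (blkU 1 γ) (col c) none
    (fun s h => by
      obtain ⟨ζ, h3, e⟩ := (hJ K s).1 h
      rw [hcj s ζ e]
      exact inL_blk _ (h1 ζ h3))
    (fun h b hh hb i j e hi => by
      obtain ⟨p, rfl⟩ := finSumFinEquiv.surjective i
      obtain ⟨q, rfl⟩ := finSumFinEquiv.surjective j
      rcases p with p | p
      · exact (hi (col_inl c p)).elim
      rcases q with q | q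
      · exact (hi (e.trans (col_inl c q))).elim
      refine h2 (lowU h hh) (fun i => b (finSumFinEquiv (Sum.inr i))) (inL_low hh)
        (fun ζ h3 i j e' => ?_) p q (Option.some.inj (by rwa [col_inr, col_inr] at e))
      have h4 := hb ((blkU 1 γ)⁻¹ * dblU ζ (hP _ _ h3) * blkU 1 γ) ((hJ K _).2 ⟨ζ, h3, by
        rw [show ∀ x y : GL (Fin (m + m)) K, x * (x⁻¹ * y * x) * x⁻¹ = y from fun x y => by group]
        rfl⟩) _ _ e'
      rw [Units.val_mul, Units.val_mul, hcj _ ζ rfl] at h4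
      have h5 := low_mul (hh.mul (inL_blk (ζ : Mat m K) (h1 ζ h3)))
        ((h⁻¹ : GL (Fin (m + m)) K) : Mat (m + m) K)
      rw [low_mul hh, low_blk] at h5
      exact (congrFun (congrFun h5 i) j).symm.trans h4)
    (by
      refine Set.Finite.of_finite_image (f := Units.val) ((hker.image fun ζ : GL (Fin m) K =>
        dbl a (ζ : Mat m K)).subset ?_) Units.val_injective.injOn
      rintro _ ⟨g, ⟨h3, h4⟩, rfl⟩
      obtain ⟨ζ, h5, e⟩ := (hJ K g).1 h3
      refine ⟨ζ, ⟨h5, ?_⟩, e.symm⟩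
      have h6 : low (((blkU 1 γ)⁻¹ * g * blkU 1 γ : GL (Fin (m + m)) K) : Mat (m + m) K) =
          low 1 := Matrix.ext fun i j => (mem_VG.1 h4).2 _ _ (by rw [col_inr]; simp)
      rw [hcj g ζ e, low_blk, low_one] at h6
      have h7 := congrArg (fun M => (γ : Mat m K) * M * ((γ⁻¹ : GL (Fin m) K) : Mat m K)) h6
      simpa only [← mul_assoc, Units.mul_inv, one_mul, mul_one, Units.mul_inv_cancel_right] using h7)
  exact ⟨Q, fun T _ _ g => (hQ T g).trans (hJ T g)⟩

/-- DBL: the doubled group has an affine quotient. -/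
theorem aq_dbl (k K : Type u) [Field k] [Field K] [IsAlgClosed K] [Algebra k K] {m : ℕ}
    (I : Ideal (OGL k m)) (hI : IsGrp I) [Algebra.Smooth k (OGL k m ⧸ I)] (a : Fin m → ℤ)
    (hP : ∀ (T : Type u) [CommRing T] [Algebra k T] (g : GL (Fin m) T), Vz I g →
      InP a (g : Mat m T))
    (hCR : CR {M | ∃ g : GL (Fin m) K, Vz I g ∧ M = lv a (g : Mat m K)})
    (hker : {g : GL (Fin m) K | Vz I g ∧ lv a (g : Mat m K) = 1}.Finite) :
    ∃ Q : AffQuot k (m + m), ∀ (T : Type u) [CommRing T] [Algebra k T] (g : GL (Fin (m + m)) T),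
      Q.Pt g ↔ ∃ ζ : GL (Fin m) T, Vz I ζ ∧ (g : Mat (m + m) T) = dbl a (ζ : Mat m T) := by
  obtain ⟨γ, c, h1, h2⟩ := hCR.blocks
  exact aq_dbl' k K I hI a hP γ c (fun g hg => h1 _ ⟨g, hg, rfl⟩)
    (fun h b hh hb => h2 h b hh (by rintro _ ⟨g, hg, rfl⟩; exact hb g hg)) hker

end Pool.Agent.RED
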