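import Pool.Agent.P.MP_c1f06d_ag.g.AqDefs
import Pool.Agent.P.MP_c1f06d_ag.g.GDefs

open Matrix WithConv Pool.Agent.GR

universe u

namespace Pool.Agent.RED

/-- Complete reducibility of a set of matrices. -/
def CR {K : Type u} [Field K] {m : ℕ} (T : Set (Mat m K)) : Prop :=
  ∀ W : Submodule K (Fin m → K), (∀ M ∈ T, ∀ v ∈ W, M *ᵥ v ∈ W) →
    ∃ W' : Submodule K (Fin m → K), IsCompl W W' ∧ ∀ M ∈ T, ∀ v ∈ W', M *ᵥ v ∈ W'

/-- The matrix with diagonal blocks `M` and `lv a M`. -/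
def dbl {m : ℕ} {A : Type u} [CommRing A] (a : Fin m → ℤ) (M : Mat m A) : Mat (m + m) A :=
  reindex finSumFinEquiv finSumFinEquiv (fromBlocks M 0 0 (lv a M))

/-- A group law on the points of `Spec A`, natural in the test ring. -/
structure NatGrp (k A : Type u) [CommRing k] [CommRing A] [Algebra k A] where
  mul : ∀ {T : Type u} [CommRing T] [Algebra k T], (A →ₐ[k] T) → (A →ₐ[k] T) → (A →ₐ[k] T)
  one : A →ₐ[k] k
  inv : A →ₐ[k] A
  nat : ∀ {T T' : Type u} [CommRing T] [Algebra k T] [CommRing T'] [Algebra k T'] (f : T →ₐ[k] T')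
    (x y : A →ₐ[k] T), f.comp (mul x y) = mul (f.comp x) (f.comp y)
  assoc : ∀ {T : Type u} [CommRing T] [Algebra k T] (x y z : A →ₐ[k] T),
    mul (mul x y) z = mul x (mul y z)
  one_mul : ∀ {T : Type u} [CommRing T] [Algebra k T] (x : A →ₐ[k] T),
    mul ((Algebra.ofId k T).comp one) x = x
  inv_mul : ∀ {T : Type u} [CommRing T] [Algebra k T] (x : A →ₐ[k] T),
    mul (x.comp inv) x = (Algebra.ofId k T).comp one

/-- An automorphism of the group `Spec A` over the base `S₀`, on points. -/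
structure NAut (k A S₀ : Type u) [CommRing k] [CommRing A] [HopfAlgebra k A] [CommRing S₀]
    [Algebra k S₀] where
  φ : ∀ (T : Type u) [CommRing T] [Algebra k T], (S₀ →ₐ[k] T) → Pt k A T ≃* Pt k A T
  nat : ∀ (T T' : Type u) [CommRing T] [Algebra k T] [CommRing T'] [Algebra k T'] (f : T →ₐ[k] T')
    (j : S₀ →ₐ[k] T) (x : Pt k A T), pm f (φ T j x) = φ T' (f.comp j) (pm f x)

/-- The map `ψ` on points over `S₀` is, at enough points of `S₀`, one of the `σ γ` followed by an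
inner automorphism. -/
def Cls {k A S₀ : Type u} [CommRing k] [CommRing A] [HopfAlgebra k A] [CommRing S₀] [Algebra k S₀]
    {Γ : Type} (σ : Γ → NAut k A k)
    (ψ : ∀ (T : Type u) [CommRing T] [Algebra k T], (S₀ →ₐ[k] T) → Pt k A T → Pt k A T) : Prop :=
  ∀ s : S₀, s ≠ 0 → ∃ (K : Type u) (_ : CommRing K) (_ : Algebra k K) (p : S₀ →ₐ[k] K) (γ : Γ)
    (g : Pt k A K), p s ≠ 0 ∧ ∀ (T : Type u) [CommRing T] [Algebra k T] (j : K →ₐ[k] T)
      (x : Pt k A T),
      ψ T (j.comp p) x = pm j g * (σ γ).φ T (Algebra.ofId k T) x * (pm j g)⁻¹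

end Pool.Agent.RED
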