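import Pool.Agent.P.MP_c1f06d_ag.g.HBlk
import Pool.Agent.P.MP_c1f06d_ag.g.Flag
import Pool.Agent.P.MP_c1f06d_ag.r.LU

open Matrix Pool.Agent.GR

universe u

namespace Pool.Agent.RED

namespace Rad

variable {K : Type u} [Field K] {m : ℕ} {T T' : Set (Mat m K)}

/-- The subspace `W` is stable under `T`. -/
def Stab (T : Set (Mat m K)) (W : Submodule K (Fin m → K)) : Prop :=
  ∀ M ∈ T, ∀ v ∈ W, M *ᵥ v ∈ W

/-- A minimal nonzero stable subspace. -/
def Simp (T : Set (Mat m K)) (U : Submodule K (Fin m → K)) : Prop :=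
  Stab T U ∧ U ≠ ⊥ ∧ ∀ U' ≤ U, Stab T U' → U' = ⊥ ∨ U' = U

/-- The sum of the minimal stable subspaces inside `B`. -/
def soc (T : Set (Mat m K)) (B : Submodule K (Fin m → K)) : Submodule K (Fin m → K) :=
  sSup {U | Simp T U ∧ U ≤ B}

theorem soc_le (B : Submodule K (Fin m → K)) : soc T B ≤ B := sSup_le fun _ h => h.2

theorem soc_mono {B B' : Submodule K (Fin m → K)} (h : B ≤ B') : soc T B ≤ soc T B' :=
  sSup_le_sSup fun _ k => ⟨k.1, k.2.trans h⟩

theorem Stab.sup {W W' : Submodule K (Fin m → K)} (h : Stab T W) (h' : Stab T W') :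
    Stab T (W ⊔ W') := fun M hM v hv => by
  obtain ⟨a, ha, b, hb, rfl⟩ := Submodule.mem_sup.1 hv
  rw [mulVec_add]
  exact Submodule.add_mem_sup (h M hM a ha) (h' M hM b hb)

theorem Stab.inf {W W' : Submodule K (Fin m → K)} (h : Stab T W) (h' : Stab T W') :
    Stab T (W ⊓ W') := fun M hM v hv => ⟨h M hM v hv.1, h' M hM v hv.2⟩

theorem stab_soc (B : Submodule K (Fin m → K)) : Stab T (soc T B) := fun M hM _ hv =>
  (show soc T B ≤ (soc T B).comap M.mulVecLin from
    sSup_le fun _ hU w hw => le_sSup (s := {U | Simp T U ∧ U ≤ B}) hU (hU.1.1 M hM w hw)) hv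

theorem soc_ne {B : Submodule K (Fin m → K)} (h : Stab T B) (h0 : B ≠ ⊥) : soc T B ≠ ⊥ := by
  obtain ⟨U, ⟨h1, h2, h3⟩, h4⟩ := (wellFounded_lt (α := Submodule K (Fin m → K))).has_min
    {U | Stab T U ∧ U ≠ ⊥ ∧ U ≤ B} ⟨B, h, h0, le_rfl⟩
  have hU : Simp T U := ⟨h1, h2, fun U' hle hs => by
    by_cases e : U' = ⊥
    · exact Or.inl e
    · exact Or.inr (by_contra fun e' => h4 U' ⟨hs, e, hle.trans h3⟩ (lt_of_le_of_ne hle e'))⟩
  exact fun e => h2 (le_bot_iff.1 (e ▸ le_sSup (s := {U | Simp T U ∧ U ≤ B}) ⟨hU, h3⟩))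

theorem cr_of_soc (h : soc T ⊤ = ⊤) : CR T := by
  intro W hW
  obtain ⟨W', ⟨h1, h2⟩, h3⟩ := (wellFounded_gt (α := Submodule K (Fin m → K))).has_min
    {W' | Stab T W' ∧ Disjoint W W'} ⟨⊥, fun M _ v hv => by
      rw [(Submodule.mem_bot K).1 hv, mulVec_zero]; exact Submodule.zero_mem _, disjoint_bot_right⟩
  refine ⟨W', ⟨h2, codisjoint_iff.2 (top_le_iff.1 (h ▸ sSup_le fun U hU => ?_))⟩, h1⟩
  rcases hU.1.2.2 _ inf_le_left (hU.1.1.inf (Stab.sup hW h1)) with e | e
  · have hd : Disjoint W (W' ⊔ U) :=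
      h2.disjoint_sup_right_of_disjoint_sup_left (disjoint_iff.2 (by rw [inf_comm]; exact e))
    have e1 : W' ⊔ U = W' := by_contra fun e' =>
      h3 _ ⟨h1.sup hU.1.1, hd⟩ (lt_of_le_of_ne le_sup_left (Ne.symm e'))
    exact le_sup_of_le_right (sup_eq_left.1 e1)
  · exact inf_eq_left.1 e

/-- The preimage of a subspace under a semilinear map. -/
def pre (f : (Fin m → K) →+ Fin m → K) (hf : ∀ (c : K) v, ∃ c' : K, f (c • v) = c' • f v)
    (W : Submodule K (Fin m → K)) : Submodule K (Fin m → K) where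
  carrier := {v | f v ∈ W}
  add_mem' := fun ha hb => by
    show f _ ∈ W
    rw [map_add]; exact W.add_mem ha hb
  zero_mem' := by
    show f _ ∈ W
    rw [map_zero]; exact W.zero_mem
  smul_mem' := fun c v hv => by
    obtain ⟨c', e⟩ := hf c v
    show f _ ∈ W
    rw [e]; exact W.smul_mem _ hv

/-- A semilinear automorphism that normalises `T` and preserves `B` preserves the socle. -/
theorem soc_map {f g : (Fin m → K) →+ Fin m → K} (hfg : ∀ v, f (g v) = v) (hgf : ∀ v, g (f v) = v)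
    (hf : ∀ (c : K) v, ∃ c' : K, f (c • v) = c' • f v)
    (hg : ∀ (c : K) v, ∃ c' : K, g (c • v) = c' • g v)
    (h1 : ∀ M ∈ T, ∃ M' ∈ T, ∀ v, f (M *ᵥ v) = M' *ᵥ f v)
    (h2 : ∀ M ∈ T, ∃ M' ∈ T, ∀ v, g (M *ᵥ v) = M' *ᵥ g v)
    {B : Submodule K (Fin m → K)} (hB : ∀ v ∈ B, f v ∈ B) : ∀ v ∈ soc T B, f v ∈ soc T B := by
  refine fun v hv => (show soc T B ≤ pre f hf (soc T B) from sSup_le fun U hU w hw => ?_) hv
  have hs : Simp T (pre g hg U) := by
    refine ⟨fun M hM v hv => ?_, fun e => hU.1.2.1 ?_, fun U' hle hs => ?_⟩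
    · obtain ⟨M', hM', e⟩ := h2 M hM
      show g _ ∈ U
      rw [e]; exact hU.1.1 M' hM' _ hv
    · refine (Submodule.eq_bot_iff _).2 fun v hv => ?_
      have : f v ∈ pre g hg U := by
        show g _ ∈ U
        rw [hgf]; exact hv
      rw [← hgf v, (Submodule.eq_bot_iff _).1 e _ this, map_zero]
    · have hle' : pre f hf U' ≤ U := fun v hv => by
        have : g (f v) ∈ U := hle hv
        rwa [hgf] at this
      rcases hU.1.2.2 _ hle' (fun M hM v hv => by
        obtain ⟨M', hM', e⟩ := h1 M hM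
        show f _ ∈ U'
        rw [e]; exact hs M' hM' _ hv) with e | e
      · refine Or.inl ((Submodule.eq_bot_iff _).2 fun v hv => ?_)
        have : g v ∈ pre f hf U' := by
          show f _ ∈ U'
          rw [hfg]; exact hv
        rw [← hfg v, (Submodule.eq_bot_iff _).1 e _ this, map_zero]
      · refine Or.inr (le_antisymm hle fun v hv => ?_)
        have : g v ∈ pre f hf U' := e.symm ▸ hv
        have k : f (g v) ∈ U' := this
        rwa [hfg] at k
  refine le_sSup (s := {U | Simp T U ∧ U ≤ B}) ⟨hs, fun v hv => ?_⟩ (show g (f w) ∈ U from ?_)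
  · rw [← hfg v]; exact hB _ (hU.2 hv)
  · rw [hgf]; exact hw

/-- Clifford's theorem. -/
theorem clifford (hT : T' ⊆ T) (h : ∀ g ∈ T, ∃ g' : Mat m K, g * g' = 1 ∧ g' * g = 1 ∧
    ∀ x ∈ T', g * x * g' ∈ T' ∧ g' * x * g ∈ T') (hs : soc T ⊤ = ⊤) : soc T' ⊤ = ⊤ := by
  refine top_le_iff.1 (hs.ge.trans (sSup_le fun U hU => ?_))
  have h1 : Stab T (soc T' U) := by
    intro g hg
    obtain ⟨g', e1, e2, e3⟩ := h g hg
    refine soc_map (f := g.mulVecLin.toAddMonoidHom) (g := g'.mulVecLin.toAddMonoidHom)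
      (fun v => ?_) (fun v => ?_) (fun c v => ⟨c, mulVec_smul g c v⟩)
      (fun c v => ⟨c, mulVec_smul g' c v⟩) (fun x hx => ⟨_, (e3 x hx).1, fun v => ?_⟩)
      (fun x hx => ⟨_, (e3 x hx).2, fun v => ?_⟩) (hU.1.1 g hg)
    · show g *ᵥ g' *ᵥ v = v
      rw [mulVec_mulVec, e1, one_mulVec]
    · show g' *ᵥ g *ᵥ v = v
      rw [mulVec_mulVec, e2, one_mulVec]
    · show g *ᵥ x *ᵥ v = (g * x * g') *ᵥ g *ᵥ v
      rw [mulVec_mulVec, mulVec_mulVec, mul_assoc, e2, mul_one]
    · show g' *ᵥ x *ᵥ v = (g' * x * g) *ᵥ g' *ᵥ v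
      rw [mulVec_mulVec, mulVec_mulVec, mul_assoc, e1, mul_one]
  have h2 := (hU.1.2.2 _ (soc_le U) h1).resolve_left
    (soc_ne (fun M hM => hU.1.1 M (hT hM)) hU.1.2.1)
  exact (le_of_eq h2.symm).trans (soc_mono le_top)

variable {k : Type u} [Field k] [Algebra k K]

/-- Galois descent for subspaces. -/
theorem desc [IsGalois k K] {Z Q : Submodule K (Fin m → K)}
    (hZ : ∀ σ : K ≃ₐ[k] K, ∀ v ∈ Z, (fun i => σ (v i)) ∈ Z)
    (hQ : ∀ w : Fin m → k, (fun i => algebraMap k K (w i)) ∈ Z →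
      (fun i => algebraMap k K (w i)) ∈ Q) : Z ≤ Q := by
  classical
  intro v hv
  induction hn : (Finset.univ.filter fun i => v i ≠ 0).card using Nat.strong_induction_on
    generalizing v with
  | _ n ih =>
    have key : ∀ d ∈ Z, ∀ i, v i ≠ 0 → d i = 0 → (∀ j, v j = 0 → d j = 0) → d ∈ Q := by
      intro d hd i h1 h2 h3
      refine ih _ (hn ▸ Finset.card_lt_card ⟨fun j hj => ?_, fun hs => ?_⟩) hd rfl
      · exact Finset.mem_filter.2 ⟨Finset.mem_univ _, fun e => (Finset.mem_filter.1 hj).2 (h3 j e)⟩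
      · exact (Finset.mem_filter.1 (hs (Finset.mem_filter.2 ⟨Finset.mem_univ _, h1⟩))).2 h2
    by_cases h0 : v = 0
    · rw [h0]; exact Q.zero_mem
    obtain ⟨i, hi⟩ := Function.ne_iff.1 h0
    have hi : v i ≠ 0 := hi
    have hu : (v i)⁻¹ • v ∈ Z := Z.smul_mem _ hv
    by_cases hfix : ∀ (σ : K ≃ₐ[k] K) j, σ (((v i)⁻¹ • v) j) = ((v i)⁻¹ • v) j
    · choose w hw using fun j => (InfiniteGalois.mem_range_algebraMap_iff_fixed (k := k)
        (((v i)⁻¹ • v) j)).2 fun σ => hfix σ j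
      have e : (fun j => algebraMap k K (w j)) = (v i)⁻¹ • v := funext hw
      have := Q.smul_mem (v i) (hQ w (e ▸ hu))
      rwa [e, smul_smul, mul_inv_cancel₀ hi, one_smul] at this
    · push Not at hfix
      obtain ⟨σ, j, hj⟩ := hfix
      let d : Fin m → K := (fun l => σ (((v i)⁻¹ • v) l)) - (v i)⁻¹ • v
      have hd : d ∈ Z := Z.sub_mem (hZ σ _ hu) hu
      have hdj : d j ≠ 0 := sub_ne_zero.2 hj
      have hd0 : ∀ l, v l = 0 → d l = 0 := fun l e => by simp [d, e]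
      have h1 : d ∈ Q := key d hd i hi (by
        show σ ((v i)⁻¹ * v i) - (v i)⁻¹ * v i = 0
        rw [inv_mul_cancel₀ hi, map_one, sub_self]) hd0
      have h2 : v - (v j / d j) • d ∈ Q :=
        key _ (Z.sub_mem hv (Z.smul_mem _ hd)) j (fun e => hdj (hd0 j e))
          (by rw [Pi.sub_apply, Pi.smul_apply, smul_eq_mul, div_mul_cancel₀ _ hdj, sub_self])
          fun l e => by rw [Pi.sub_apply, Pi.smul_apply, e, hd0 l e, smul_zero, sub_zero]
      have := Q.add_mem h2 (Q.smul_mem (v j / d j) h1)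
      rwa [sub_add_cancel] at this

/-- A Galois stable subspace is the image of a rational projector. -/
theorem exists_proj [IsGalois k K] {Z : Submodule K (Fin m → K)}
    (hZ : ∀ σ : K ≃ₐ[k] K, ∀ v ∈ Z, (fun i => σ (v i)) ∈ Z) :
    ∃ p : Mat m k, (∀ v, p.map (algebraMap k K) *ᵥ v ∈ Z) ∧
      ∀ v ∈ Z, p.map (algebraMap k K) *ᵥ v = v := by
  let W : Submodule k (Fin m → k) :=
    (Z.restrictScalars k).comap (LinearMap.compLeft (Algebra.linearMap k K) (Fin m))
  obtain ⟨p, h1, h2, -⟩ := CR.proj (T := (∅ : Set (Mat m k))) (fun W _ =>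
    let ⟨W', h⟩ := W.exists_isCompl; ⟨W', h, fun _ h => h.elim⟩) W fun _ h => h.elim
  have hm : ∀ w : Fin m → k, p.map (algebraMap k K) *ᵥ (fun i => algebraMap k K (w i)) =
      fun i => algebraMap k K ((p *ᵥ w) i) := fun w =>
    funext fun i => (RingHom.map_mulVec (algebraMap k K) p w i).symm
  refine ⟨p, fun v => ?_, fun v hv => ?_⟩
  · have e : p.map (algebraMap k K) *ᵥ v =
        ∑ j, v j • fun i => algebraMap k K ((p *ᵥ Pi.single j 1) i) := by
      funext i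
      simp [mulVec, dotProduct, mul_comm, Pi.single_apply]
    rw [e]
    exact Z.sum_mem fun j _ => Z.smul_mem _ (h1 _)
  · exact desc (Q := LinearMap.eqLocus (p.map (algebraMap k K)).mulVecLin LinearMap.id) hZ
      (fun w hw => (hm w).trans (by rw [h2 w hw]; rfl)) hv

/-- A frame over `k` in which `S` is block triangular with as many blocks as possible. -/
theorem exists_flag (f : k →ₐ[k] K) (S : Set (GL (Fin m) K)) :
    ∃ (γ : GL (Fin m) k) (a : Fin m → ℤ),
    (∀ g ∈ S, InP a (((gm f γ)⁻¹ * g * gm f γ : GL (Fin m) K) : Mat m K)) ∧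
    ∀ (h : GL (Fin m) k) (b : Fin m → ℤ), InL a (h : Mat m k) →
      (∀ g ∈ S, InP b ((((gm f h)⁻¹ : GL (Fin m) K) : Mat m K) *
        lv a (((gm f γ)⁻¹ * g * gm f γ : GL (Fin m) K) : Mat m K) * (gm f h : Mat m K))) →
      ∀ i j, a i = a j → b i = b j := by
  classical
  let Q : ℕ → Prop := fun t => ∃ (γ : GL (Fin m) k) (a : Fin m → ℤ),
    (∀ g ∈ S, InP a (((gm f γ)⁻¹ * g * gm f γ : GL (Fin m) K) : Mat m K)) ∧
      (Finset.univ.filter fun p : Fin m × Fin m => a p.1 = a p.2).card = t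
  have hQ : ∃ t, Q t := ⟨_, 1, 0, fun _ _ _ _ h => (lt_irrefl _ h).elim, rfl⟩
  obtain ⟨γ, a, h1, h2⟩ := Nat.find_spec hQ
  refine ⟨γ, a, h1, fun h b hh hb i0 j0 e0 => by_contra fun e1 => ?_⟩
  obtain ⟨L, hK⟩ : ∃ L : ℤ, ∀ i j, b i - b j < L := by
    obtain ⟨L, hK⟩ := (Set.finite_range fun p : Fin m × Fin m => b p.1 - b p.2).bddAbove
    exact ⟨L + 1, fun i j => Int.lt_add_one_iff.2 (hK ⟨(i, j), rfl⟩)⟩
  have hK0 : 0 < L := by simpa using hK i0 i0
  have hlt : ∀ i j, a i < a j → L * a i + b i < L * a j + b j := fun i j e => by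
    have := hK i j
    nlinarith [Int.add_one_le_iff.2 e]
  refine Nat.find_min hQ (m := (Finset.univ.filter fun p : Fin m × Fin m =>
    L * a p.1 + b p.1 = L * a p.2 + b p.2).card) ?_
      ⟨γ * h, fun i => L * a i + b i, fun g hg i j e => ?_, rfl⟩
  · rw [← h2]
    refine Finset.card_lt_card ⟨fun p hp => Finset.mem_filter.2 ⟨Finset.mem_univ _, ?_⟩,
      fun hs => e1 ?_⟩
    · have e := (Finset.mem_filter.1 hp).2
      exact le_antisymm (not_lt.1 fun e2 => (hlt _ _ e2).ne' e)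
        (not_lt.1 fun e2 => (hlt _ _ e2).ne e)
    · have e := (Finset.mem_filter.1 (hs (Finset.mem_filter.2
        ⟨Finset.mem_univ (i0, j0), e0⟩))).2
      simp only [e0] at e
      exact add_left_cancel e
  · have e2 : (gm f (γ * h))⁻¹ * g * gm f (γ * h) =
        (gm f h)⁻¹ * ((gm f γ)⁻¹ * g * gm f γ) * gm f h := by
      rw [map_mul]; group
    have hP : ∀ {M : Mat m K}, InL a M → InP a M := fun hM i j e => hM i j e.ne
    have hh' : InL a (gm f h : Mat m K) := AQ.inL_map f hh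
    rw [e2, Units.val_mul, Units.val_mul (gm f h)⁻¹]
    rcases lt_trichotomy (a i) (a j) with e3 | e3 | e3
    · exact ((hP hh'.inv).mul (h1 g hg)).mul (hP hh') i j e3
    · have e4 := hb g hg i j (by simpa only [e3, add_lt_add_iff_left] using e)
      rwa [← lv_conj hh'.inv hh', lv, of_apply, if_pos e3] at e4
    · exact ((hlt _ _ e3).not_gt e).elim

/-- The vectors supported in the block `c`. -/
def blk (K : Type u) [Field K] (a : Fin m → ℤ) (c : ℤ) : Submodule K (Fin m → K) where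
  carrier := {v | ∀ i, a i ≠ c → v i = 0}
  add_mem' := fun ha hb i hi => by rw [Pi.add_apply, ha i hi, hb i hi, add_zero]
  zero_mem' := fun _ _ => rfl
  smul_mem' := fun _ _ ha i hi => by rw [Pi.smul_apply, ha i hi, smul_zero]

theorem inL_blk {a : Fin m → ℤ} {M : Mat m K} (hM : InL a M) {c : ℤ} :
    ∀ v ∈ blk K a c, M *ᵥ v ∈ blk K a c := fun v hv i hi => by
  show ∑ j, M i j * v j = 0
  refine Finset.sum_eq_zero fun j _ => ?_
  by_cases e : a j = c
  · rw [hM i j fun e' => hi (e'.trans e), zero_mul]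
  · rw [hv j e, mul_zero]

/-- A rational stable subspace of a block that cannot be refined is trivial. -/
theorem eq_blk [IsGalois k K] {a : Fin m → ℤ}
    (hmin : ∀ (h : GL (Fin m) k) (b : Fin m → ℤ), InL a (h : Mat m k) →
      (∀ M ∈ T, InP b ((((gm (Algebra.ofId k K) h)⁻¹ : GL (Fin m) K) : Mat m K) * M *
        (gm (Algebra.ofId k K) h : Mat m K))) → ∀ i j, a i = a j → b i = b j)
    {c : ℤ} {Z : Submodule K (Fin m → K)} (hs : Stab T Z) (hc : Z ≤ blk K a c) (h0 : Z ≠ ⊥)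
    (hZ : ∀ σ : K ≃ₐ[k] K, ∀ v ∈ Z, (fun i => σ (v i)) ∈ Z) : blk K a c ≤ Z := by
  obtain ⟨p₀, h1, h2⟩ := exists_proj hZ
  let φ := (algebraMap k K).mapMatrix (m := Fin m)
  have hφ : Function.Injective φ := Matrix.map_injective (algebraMap k K).injective
  have he : ∀ {ι : Type} [DecidableEq ι] (a : Fin m → ι) (c : ι), φ (eps k a c) = eps K a c := by
    intro ι _ a c
    ext i j
    simp only [φ, eps, RingHom.mapMatrix_apply, map_apply, diagonal_apply]
    split_ifs <;> simp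
  have hev : ∀ v ∈ blk K a c, eps K a c *ᵥ v = v := fun v hv => funext fun i => by
    rw [eps, mulVec_diagonal]
    split_ifs with e
    · rw [one_mul]
    · rw [zero_mul, hv i e]
  let p := p₀ * eps k a c
  have p1 : ∀ v, φ p *ᵥ v ∈ Z := fun v => by
    rw [map_mul, ← mulVec_mulVec]; exact h1 _
  have p2 : ∀ v ∈ Z, φ p *ᵥ v = v := fun v hv => by
    rw [map_mul, ← mulVec_mulVec, he, hev v (hc hv)]; exact h2 v hv
  have pp : p * p = p := hφ (ext_iff_mulVec.2 fun v => by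
    rw [map_mul, ← mulVec_mulVec, p2 _ (p1 v)])
  have pL : InL a p := fun i j e => by
    by_cases e1 : a j = c
    · have := hc (p1 (Pi.single j 1)) i fun e2 => e (e2.trans e1.symm)
      rw [mulVec_single_one] at this
      exact (algebraMap k K).injective (this.trans (map_zero _).symm)
    · show (p₀ * eps k a c) i j = 0
      rw [eps, mul_diagonal, if_neg e1, mul_zero]
  obtain ⟨β, s, hβ, -, -, hE⟩ := diag_idem (S := (Finset.univ : Finset Bool))
    (E := fun b => cond b p (1 - p)) (c := a)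
    ⟨fun b _ => by cases b <;> simp [pp, sub_mul, mul_sub],
      fun b _ b' _ e => by cases b <;> cases b' <;> simp_all [sub_mul, mul_sub], by simp⟩
    (fun b _ => by
      cases b
      · exact fun i j e => by
          rw [cond_false, Matrix.sub_apply, InL.one a i j e, pL i j e, sub_zero]
      · exact pL)
  set δ := gm (Algebra.ofId k K) β with hδ
  have E1 : ((δ⁻¹ : GL (Fin m) K) : Mat m K) * φ p * (δ : Mat m K) = eps K s true := by
    have := congrArg φ (hE true (Finset.mem_univ _))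
    rw [map_mul φ, map_mul φ, he] at this
    rw [hδ, ← map_inv]
    exact this
  have E2 : φ p = (δ : Mat m K) * eps K s true * ((δ⁻¹ : GL (Fin m) K) : Mat m K) := by
    rw [← E1, mul_assoc, mul_assoc, Units.mul_inv, mul_one, Units.mul_inv_cancel_left]
  have hδL : InL a (δ : Mat m K) := AQ.inL_map _ hβ
  have hb := hmin β (fun i => cond (s i) 1 0) hβ fun M hM i j e => by
    have e1 : s i = false ∧ s j = true := by
      beta_reduce at e
      cases hi : s i <;> cases hj : s j <;> simp_all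
    have e2 : φ p * (M * φ p) = M * φ p := ext_iff_mulVec.2 fun v => by
      rw [← mulVec_mulVec, ← mulVec_mulVec, p2 _ (hs M hM _ (p1 v))]
    have e3 : eps K s true * (((δ⁻¹ : GL (Fin m) K) : Mat m K) * M * δ * eps K s true) =
        ((δ⁻¹ : GL (Fin m) K) : Mat m K) * M * δ * eps K s true := by
      rw [← E1]
      simp only [mul_assoc, Units.mul_inv_cancel_left]
      rw [← mul_assoc M, ← mul_assoc (φ p), e2]
    have e4 := congrFun (congrFun e3 i) j
    rw [eps, diagonal_mul, mul_diagonal, e1.1, e1.2, if_neg Bool.false_ne_true, if_pos rfl,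
      zero_mul, mul_one] at e4
    exact e4.symm
  obtain ⟨z, hz, hz0⟩ := (Submodule.ne_bot_iff _).1 h0
  obtain ⟨i0, hi0⟩ : ∃ i, (((δ⁻¹ : GL (Fin m) K) : Mat m K) *ᵥ z) i ≠ 0 :=
    Function.ne_iff.1 fun e => hz0 (by
      rw [← one_mulVec z, ← Units.mul_inv δ, ← mulVec_mulVec, e]; exact mulVec_zero _)
  have a0 : a i0 = c := by_contra fun e => hi0 (inL_blk hδL.inv z (hc hz) i0 e)
  have s0 : s i0 = true := by
    by_contra e
    refine hi0 ?_
    rw [← p2 z hz, E2, mulVec_mulVec, ← mul_assoc, ← mul_assoc, Units.inv_mul, one_mul,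
      ← mulVec_mulVec, eps, mulVec_diagonal, if_neg e, zero_mul]
  intro v hv
  have e : φ p *ᵥ v = v := by
    have e1 : eps K s true *ᵥ ((δ⁻¹ : GL (Fin m) K) : Mat m K) *ᵥ v =
        ((δ⁻¹ : GL (Fin m) K) : Mat m K) *ᵥ v := funext fun i => by
      rw [eps, mulVec_diagonal]
      by_cases e : a i = c
      · have := hb i i0 (e.trans a0.symm)
        beta_reduce at this
        rw [s0] at this
        rw [if_pos (by cases hi : s i <;> simp_all), one_mul]
      · rw [inL_blk hδL.inv v hv i e, mul_zero]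
    rw [E2, ← mulVec_mulVec, ← mulVec_mulVec, e1, mulVec_mulVec, Units.mul_inv, one_mulVec]
  exact e ▸ p1 v

end Rad

open Rad in
/-- RAD: the radical filtration of a Galois stable group of matrices is defined over `k`, and the
graded pieces are completely reducible for every normal subgroup. -/
theorem exists_rad (k K : Type u) [Field k] [Field K] [Algebra k K] [IsGalois k K] {m : ℕ}
    (S : Subgroup (GL (Fin m) K))
    (hS : ∀ σ : K ≃ₐ[k] K, ∀ g ∈ S, gm (σ : K →ₐ[k] K) g ∈ S) :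
    ∃ (γ : GL (Fin m) k) (a : Fin m → ℤ),
      (∀ g ∈ S, InP a (((gm (Algebra.ofId k K) γ)⁻¹ * g * gm (Algebra.ofId k K) γ :
        GL (Fin m) K) : Mat m K)) ∧
      ∀ N : Subgroup (GL (Fin m) K), N ≤ S → (∀ g ∈ S, ∀ x ∈ N, g * x * g⁻¹ ∈ N) →
        CR {M | ∃ x ∈ N, M = lv a (((gm (Algebra.ofId k K) γ)⁻¹ * x * gm (Algebra.ofId k K) γ :
          GL (Fin m) K) : Mat m K)} := by
  obtain ⟨γ, a, h1, h2⟩ := Rad.exists_flag (Algebra.ofId k K) (S : Set (GL (Fin m) K))
  refine ⟨γ, a, h1, fun N hN hn => cr_of_soc ?_⟩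
  set δ := gm (Algebra.ofId k K) γ with hδ
  let ρ : GL (Fin m) K → Mat m K := fun x => lv a ((δ⁻¹ * x * δ : GL (Fin m) K) : Mat m K)
  have ρm : ∀ x ∈ S, ∀ y ∈ S, ρ (x * y) = ρ x * ρ y := fun x hx y hy => by
    have e : δ⁻¹ * (x * y) * δ = δ⁻¹ * x * δ * (δ⁻¹ * y * δ) := by group
    show lv a _ = _
    rw [e, Units.val_mul, (h1 x hx).lv_mul (h1 y hy)]
  have ρ1 : ρ 1 = 1 := by
    show lv a _ = _
    rw [mul_one, inv_mul_cancel, Units.val_one, (InL.one a).lv_eq]
  have hσ : ∀ (σ : K ≃ₐ[k] K) (x : GL (Fin m) K) (v : Fin m → K),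
      (fun i => σ ((ρ x *ᵥ v) i)) = ρ (gm (σ : K →ₐ[k] K) x) *ᵥ fun i => σ (v i) := by
    intro σ x v
    have e1 : gm (σ : K →ₐ[k] K) δ = δ := AQ.gm_cst _ _
    have e2 : ρ (gm (σ : K →ₐ[k] K) x) = (ρ x).map (σ : K →+* K) := by
      have e3 : δ⁻¹ * gm (σ : K →ₐ[k] K) x * δ = gm (σ : K →ₐ[k] K) (δ⁻¹ * x * δ) := by
        rw [map_mul, map_mul, map_inv, e1]
      ext i j
      show lv a _ i j = σ (lv a _ i j)
      rw [e3, lv, lv, of_apply, of_apply]
      split_ifs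
      · rfl
      · rw [map_zero]
    rw [e2]
    exact funext fun i => RingHom.map_mulVec (σ : K →+* K) (ρ x) v i
  refine clifford (T := {M | ∃ x ∈ S, M = ρ x}) ?_ ?_ (top_le_iff.1 fun v _ => ?_)
  · rintro _ ⟨x, hx, rfl⟩
    exact ⟨x, hN hx, rfl⟩
  · rintro _ ⟨g, hg, rfl⟩
    refine ⟨ρ g⁻¹, by rw [← ρm g hg _ (S.inv_mem hg), mul_inv_cancel, ρ1],
      by rw [← ρm _ (S.inv_mem hg) g hg, inv_mul_cancel, ρ1], ?_⟩
    rintro _ ⟨x, hx, rfl⟩
    refine ⟨⟨_, hn g hg x hx, ?_⟩, ⟨_, hn _ (S.inv_mem hg) x hx, ?_⟩⟩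
    · show ρ g * ρ x * ρ g⁻¹ = ρ _
      rw [ρm _ (S.mul_mem hg (hN hx)) _ (S.inv_mem hg), ρm g hg x (hN hx)]
    · show ρ g⁻¹ * ρ x * ρ g = ρ _
      rw [inv_inv, ρm _ (S.mul_mem (S.inv_mem hg) (hN hx)) _ hg, ρm _ (S.inv_mem hg) x (hN hx)]
  · rw [← Finset.univ_sum_single v]
    refine Submodule.sum_mem _ fun i _ => ?_
    have hi : ∀ x : K, Pi.single i x ∈ blk K a (a i) := fun x j e =>
      Pi.single_eq_of_ne (fun e' => e (congrArg a e')) _
    have hst : Stab {M | ∃ x ∈ S, M = ρ x} (blk K a (a i)) := by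
      rintro _ ⟨x, -, rfl⟩
      exact inL_blk (inL_lv a _)
    refine soc_mono le_top (eq_blk (k := k) (T := {M | ∃ x ∈ S, M = ρ x})
      (fun h b hh hb => h2 h b hh fun g hg => hb _ ⟨g, hg, rfl⟩)
      (stab_soc _) (soc_le _) (soc_ne hst fun e => ?_) (fun σ => ?_) (hi _))
    · have := congrFun ((Submodule.eq_bot_iff _).1 e _ (hi 1)) i
      rw [Pi.single_eq_same] at this
      exact one_ne_zero this
    · refine soc_map (f := (σ : K →+* K).toAddMonoidHom.compLeft (Fin m))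
        (g := (σ.symm : K →+* K).toAddMonoidHom.compLeft (Fin m))
        (fun v => funext fun j => σ.apply_symm_apply _) (fun v => funext fun j => σ.symm_apply_apply _)
        (fun c v => ⟨σ c, funext fun j => map_mul σ _ _⟩)
        (fun c v => ⟨σ.symm c, funext fun j => map_mul σ.symm _ _⟩) ?_ ?_ fun v hv j e => ?_
      · rintro _ ⟨x, hx, rfl⟩
        exact ⟨_, ⟨_, hS σ x hx, rfl⟩, hσ σ x⟩
      · rintro _ ⟨x, hx, rfl⟩
        exact ⟨_, ⟨_, hS σ.symm x hx, rfl⟩, hσ σ.symm x⟩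
      · show σ (v j) = 0
        rw [hv j e, map_zero]

end Pool.Agent.RED
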