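import Pool.Agent.P.MP_c1f06d_ag.g.HGr
import Pool.Agent.P.MP_c1f06d_ag.g.HRad

open Matrix WithConv Pool.Agent.GR Pool.Agent.GR.Co Pool.Agent.GR.AQ
open scoped TensorProduct

universe u

namespace Pool.Agent.RED.Mo

variable {k O : Type u} [Field k] [CommRing O] [HopfAlgebra k O] {Γ : Type}
  {T : Type u} [CommRing T] [Algebra k T]

theorem cr_conj {K : Type u} [Field K] {m : ℕ} {a : Fin m → ℤ} {N : Set (GL (Fin m) K)}
    {P : GL (Fin m) K → Prop} {γ β : GL (Fin m) K}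
    (hP : ∀ x ∈ N, InP a ((γ⁻¹ * x * γ : GL (Fin m) K) : Mat m K))
    (h : CR {M | ∃ x ∈ N, M = lv a ((γ⁻¹ * x * γ : GL (Fin m) K) : Mat m K)})
    (hβ : InP a (β : Mat m K)) (e : ∀ g, P g ↔ γ * β * g * (γ * β)⁻¹ ∈ N) :
    CR {M | ∃ g, P g ∧ M = lv a (g : Mat m K)} := by
  have h1 : {M | ∃ x ∈ N, M = lv a ((γ⁻¹ * x * γ : GL (Fin m) K) : Mat m K)} =
      {M | ∃ g ∈ (fun x => γ⁻¹ * x * γ) '' N, M = lv a (g : Mat m K)} := by
    ext M
    simp only [Set.mem_ofPred_eq, Set.exists_mem_image]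
  have h2 := CR.conjP (S := (fun x => γ⁻¹ * x * γ) '' N)
    (by rintro _ ⟨x, hx, rfl⟩; exact hP x hx) (h1 ▸ h) hβ
  have h3 : {M | ∃ g, P g ∧ M = lv a (g : Mat m K)} = {M | ∃ g ∈ (fun x => γ⁻¹ * x * γ) '' N,
      M = lv a ((β⁻¹ * g * β : GL (Fin m) K) : Mat m K)} := by
    ext M
    constructor
    · rintro ⟨g, hg, rfl⟩
      exact ⟨_, ⟨_, (e g).1 hg, rfl⟩, by congr 2; group⟩
    · rintro ⟨_, ⟨x, hx, rfl⟩, rfl⟩
      refine ⟨_, (e _).2 ?_, rfl⟩
      rwa [show γ * β * (β⁻¹ * (γ⁻¹ * x * γ) * β) * (γ * β)⁻¹ = x by group]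
  exact h3 ▸ h2

theorem dom_tensor (hG : GI k O) (W : Type u) [Field W] [Algebra k W] : IsDomain (W ⊗[k] O) :=
  have := hG (AlgebraicClosure W)
  (Module.Flat.rTensor_preserves_injective_linearMap (M := O)
    (IsScalarTower.toAlgHom k W (AlgebraicClosure W)).toLinearMap
      (algebraMap W (AlgebraicClosure W)).injective).isDomain
    (Algebra.TensorProduct.map (IsScalarTower.toAlgHom k W (AlgebraicClosure W)) (AlgHom.id k O))

theorem dom_tensor2 (hG : GI k O) (W : Type u) [Field W] [Algebra k W] :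
    IsDomain (W ⊗[k] (O ⊗[k] O)) := by
  have := dom_tensor hG W
  let F := FractionRing (W ⊗[k] O)
  have := dom_tensor hG F
  have := (Module.Flat.rTensor_preserves_injective_linearMap (M := O)
    (IsScalarTower.toAlgHom k (W ⊗[k] O) F).toLinearMap (IsFractionRing.injective _ F)).isDomain
    (Algebra.TensorProduct.map (IsScalarTower.toAlgHom k (W ⊗[k] O) F) (AlgHom.id k O))
  exact (Algebra.TensorProduct.assoc k k k W O O).symm.injective.isDomain _

namespace Bi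

variable {d : Γ → Hm k k O O k} {m : ℕ}

theorem red_IG (E : Bi d m) (hG : GI k O) (W : Type u) [Field W] [Algebra k W] :
    IsReduced (W ⊗[k] (OGL k m ⧸ E.IG)) :=
  have := dom_tensor hG W
  clI_reduced _ W

theorem red_IH (E : Bi d m) (hG : GI k O) (W : Type u) [Field W] [Algebra k W] :
    IsReduced (W ⊗[k] (OGL k m ⧸ E.IH)) :=
  have := dom_tensor2 hG W
  clI_reduced _ W

theorem vz_conj {D : Type u} {κ : Type} [CommRing D] [Algebra k D]
    {w w' : κ → GL (Fin m) D} (c : GL (Fin m) k)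
    (e : ∀ γ, w' γ = (AQ.cst D c)⁻¹ * w γ * AQ.cst D c) (g : GL (Fin m) T) :
    Vz (clI k w') g ↔ Vz (clI k w) (AQ.cst T c * g * (AQ.cst T c)⁻¹) := by
  refine ⟨fun h => ?_, fun h => ?_⟩
  · have := clI_conj (w := w') (w' := w) c⁻¹ (fun γ => by
      rw [e, (AQ.cst D).map_inv]; group) h
    rwa [(AQ.cst T).map_inv, inv_inv] at this
  · have := clI_conj c e h
    rwa [show (AQ.cst T c)⁻¹ * (AQ.cst T c * g * (AQ.cst T c)⁻¹) * AQ.cst T c = g by group] at this

theorem conj_R (E : Bi d m) (c : GL (Fin m) k) (x : Pt k O T) :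
    (E.conj c).R T x = (AQ.cst T c)⁻¹ * E.R T x * AQ.cst T c := by
  show gm x.ofConv ((AQ.cst O c)⁻¹ * E.r * AQ.cst O c) = _
  rw [(gm _).map_mul, (gm _).map_mul, (gm _).map_inv, gm_cst]
  rfl

theorem conj_L (E : Bi d m) (c : GL (Fin m) k) (x : Pt k O T) :
    (E.conj c).L T x = (AQ.cst T c)⁻¹ * E.L T x * AQ.cst T c := by
  show gm x.ofConv ((AQ.cst O c)⁻¹ * E.l * AQ.cst O c) = _
  rw [(gm _).map_mul, (gm _).map_mul, (gm _).map_inv, gm_cst]
  rfl

theorem conj_w (E : Bi d m) (c : GL (Fin m) k) (a : Γ) :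
    (E.conj c).w a = (AQ.cst _ c)⁻¹ * E.w a * AQ.cst _ c := by
  rw [w, w, conj_R, conj_L]
  show _ * AQ.cst _ (c⁻¹ * E.s a * c) = _
  rw [(AQ.cst _).map_mul, (AQ.cst _).map_mul, (AQ.cst _).map_inv]
  group

/-- A frame adapted to the radical filtration and to the torus. -/
structure Good (E : Bi d m) {M : Type} [AddCommGroup M] (t : Pt k O (GA k M)) (a : Fin m → ℤ)
    (χ : Fin m → M) : Prop where
  hP : ∀ (T : Type u) [CommRing T] [Algebra k T] (g : GL (Fin m) T), Vz E.IH g →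
    InP a (g : Mat m T)
  crG : CR {M | ∃ g : GL (Fin m) (AlgebraicClosure k), Vz E.IG g ∧
    M = lv a (g : Mat m (AlgebraicClosure k))}
  crH : CR {M | ∃ g : GL (Fin m) (AlgebraicClosure k), Vz E.IH g ∧
    M = lv a (g : Mat m (AlgebraicClosure k))}
  tor : E.R _ t = rho k χ

theorem exists_good [PerfectField k] (E : Bi d m) (h : Gp d) (hG : GI k O) {M : Type}
    [AddCommGroup M] {t : Pt k O (GA k M)} (ht : IsHom t) :
    ∃ (E' : Bi d m) (a : Fin m → ℤ) (χ : Fin m → M), E'.Good t a χ := by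
  let K := AlgebraicClosure k
  obtain ⟨γ, a, h1, h2⟩ := exists_rad k K ((isGrp_IH (E := E) h).sub K) fun σ g hg => Vz.map _ hg
  have hr : IsReduced (OGL k m ⧸ E.IH) :=
    have := E.red_IH hG k
    isReduced_of_injective _ (Algebra.TensorProduct.lid k (OGL k m ⧸ E.IH)).symm.injective
  have e : ∀ (T T' : Type u) [CommRing T] [Algebra k T] [CommRing T'] [Algebra k T']
      (f : T →ₐ[k] T') (g : GL (Fin m) T), gm f ((AQ.cst T γ)⁻¹ * g * AQ.cst T γ) =
        (AQ.cst T' γ)⁻¹ * gm f g * AQ.cst T' γ := fun T T' _ _ _ _ f g => by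
    rw [(gm f).map_mul, (gm f).map_mul, (gm f).map_inv, gm_cst]
  have h3 : ∀ (T : Type u) [CommRing T] [Algebra k T] (g : GL (Fin m) T), Vz E.IH g →
      InP a (((AQ.cst T γ)⁻¹ * g * AQ.cst T γ : GL (Fin m) T) : Mat m T) := by
    intro T _ _ g hg i j hij
    have h4 : ((AQ.cst _ γ)⁻¹ * uq E.IH * AQ.cst _ γ : GL (Fin m) (OGL k m ⧸ E.IH)) i j = 0 :=
      zero_of_points k K _ fun p => by
      rw [← Co.gm_apply, e]
      exact h1 _ ((vz_uq _).map p) i j hij
    rw [← hg.gm_lift, ← e]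
    exact (congrArg hg.lift h4).trans (map_zero _)
  obtain ⟨β, χ, hβ, hχ⟩ := diag_tor a ((AQ.cst _ γ)⁻¹ * E.R _ t * AQ.cst _ γ)
    (h3 _ _ (gen_R h t).vz) fun T _ _ τ τ' => by
      rw [e, e, e, gm_R, gm_R, gm_R]
      have := congrArg (E.R T) (ht T (Algebra.ofId k T) τ τ')
      rw [(E.R T).map_mul] at this
      exact (congrArg (fun x => (AQ.cst T γ)⁻¹ * x * AQ.cst T γ) this).trans (by
        simp only [tev]
        group)
  have hb : ∀ (T : Type u) [CommRing T] [Algebra k T], InP a (AQ.cst T β : Mat m T) :=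
    fun T _ _ i j hij => by rw [Co.gm_apply, hβ i j hij, map_zero]
  have vH := fun (T : Type u) [CommRing T] [Algebra k T] (g : GL (Fin m) T) =>
    vz_conj (γ * β) (E.conj_w (γ * β)) g
  have vG := fun g : GL (Fin m) K => vz_conj (w := fun _ : Unit => E.r)
    (w' := fun _ => (E.conj (γ * β)).r) (γ * β) (fun _ => rfl) g
  simp only [MonoidHom.map_mul] at vH vG
  refine ⟨E.conj (γ * β), a, χ, fun T _ _ g hg => ?_, ?_, ?_, ?_⟩
  · have := ((hb T).inv.mul (h3 T _ ((vH T g).1 hg))).mul (hb T)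
    rw [← Units.val_mul, ← Units.val_mul] at this
    rwa [show (AQ.cst T β)⁻¹ * ((AQ.cst T γ)⁻¹ * (AQ.cst T γ * AQ.cst T β * g *
      (AQ.cst T γ * AQ.cst T β)⁻¹) * AQ.cst T γ) * AQ.cst T β = g by group] at this
  · have hle : E.isGrp_IG.sub K ≤ (isGrp_IH (E := E) h).sub K := fun g hg => by
      obtain ⟨x, rfl⟩ := (E.vz_IG g).1 hg
      exact (gen_R h x).vz
    exact cr_conj (fun x hx => h1 x (hle hx)) (h2 _ hle fun g hg x hx => normal h hg hx) (hb K) vG
  · exact cr_conj h1 (h2 _ le_rfl fun g hg x hx => Subgroup.mul_mem _ (Subgroup.mul_mem _ hg hx)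
      (Subgroup.inv_mem _ hg)) (hb K) (vH K)
  · rw [conj_R, ← hχ, (AQ.cst _).map_mul]
    group

end Bi

end Pool.Agent.RED.Mo
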