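import Pool.Agent.P.MP_c1f06d_ag.g.HDefs
import Pool.Agent.P.MP_c1f06d_ag.r.LU

open Matrix Pool.Agent.GR

universe u

namespace Pool.Agent.RED

/-- The point of the torus given by a map of character groups. -/
noncomputable def hTor_pt (k : Type u) [CommRing k] {M N : Type} [AddCommGroup M] [AddCommGroup N]
    (f : M →+ N) : TP M (GA k N) where
  toFun x := uu k (f x.toAdd)
  map_one' := Units.ext (by simp [uu, AddMonoidAlgebra.one_def])
  map_mul' := fun _ _ => Units.ext (by simp [uu, AddMonoidAlgebra.single_mul_single])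

theorem hTor_chv (k : Type u) [CommRing k] {M N : Type} [AddCommGroup M] [AddCommGroup N]
    (f : M →+ N) (x : M) : chv (hTor_pt k f) x = AddMonoidAlgebra.single (f x) 1 := rfl

theorem hTor_chv_mul {T : Type u} [CommRing T] {M : Type} [AddCommGroup M] (τ τ' : TP M T) (x : M) :
    chv (τ * τ') x = chv τ x * chv τ' x := rfl

theorem hTor_zero (k K : Type u) {B : Type u} [Field k] [Field K] [IsAlgClosed K]
    [Algebra k K] [CommRing B] [IsReduced B] [Algebra k B] [Algebra.FiniteType k B] (b : B)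
    (hb : ∀ p : B →ₐ[k] K, p b = 0) : b = 0 := by
  have : IsJacobsonRing B := isJacobsonRing_of_finiteType (A := k)
  have h : b ∈ (⊥ : Ideal B).jacobson := by
    refine Ideal.mem_sInf.2 fun {J} hJ => ?_
    have := hJ.2
    letI := Ideal.Quotient.field J
    have : Module.Finite k (B ⧸ J) := finite_of_finite_type_of_isJacobsonRing k (B ⧸ J)
    let φ : (B ⧸ J) →ₐ[k] K := IsAlgClosed.lift
    exact Ideal.Quotient.eq_zero_iff_mem.1 (φ.toRingHom.injective
      ((hb (φ.comp (Ideal.Quotient.mkₐ k J))).trans (map_zero _).symm))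
  rwa [IsJacobsonRing.out inferInstance (Ideal.isRadical_bot (R := B)), Ideal.mem_bot] at h

/-- TD: a torus in `P a` is diagonal in a frame that lies in `P a`. -/
theorem diag_tor {k : Type u} [Field k] {m : ℕ} {M : Type} [AddCommGroup M] (a : Fin m → ℤ)
    (t : GL (Fin m) (GA k M)) (hP : InP a (t : Mat m (GA k M)))
    (ht : ∀ (T : Type u) [CommRing T] [Algebra k T] (τ τ' : TP M T),
      gm (tl (Algebra.ofId k T) (τ * τ')) t =
        gm (tl (Algebra.ofId k T) τ) t * gm (tl (Algebra.ofId k T) τ') t) :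
    ∃ (γ : GL (Fin m) k) (χ : Fin m → M), InP a (γ : Mat m k) ∧
      (AQ.cst (GA k M) γ)⁻¹ * t * AQ.cst (GA k M) γ = rho k χ := by
  classical
  obtain ⟨S, hS⟩ : ∃ S : Finset M, ∀ i j, ((t : Mat m (GA k M)) i j).coeff.support ⊆ S :=
    ⟨Finset.univ.biUnion fun q : Fin m × Fin m => ((t : Mat m (GA k M)) q.1 q.2).coeff.support,
      fun i j => Finset.subset_biUnion_of_mem
        (fun q : Fin m × Fin m => ((t : Mat m (GA k M)) q.1 q.2).coeff.support)
        (Finset.mem_univ (i, j))⟩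
  set p : M → Mat m k := fun x => of fun i j => ((t : Mat m (GA k M)) i j).coeff x with hp
  have dec : ∀ i j, (t : Mat m (GA k M)) i j = ∑ x ∈ S, AddMonoidAlgebra.single x (p x i j) :=
    fun i j => by
      conv_lhs => rw [← ((t : Mat m (GA k M)) i j).sum_coeff_single]
      exact Finsupp.sum_of_support_subset _ (hS i j) _ fun _ _ => by simp
  have ev : ∀ (T : Type u) [CommRing T] [Algebra k T] (τ : TP M T) (i j : Fin m),
      (gm (tl (Algebra.ofId k T) τ) t : Mat m T) i j =
        ∑ x ∈ S, algebraMap k T (p x i j) * chv τ x := fun T _ _ τ i j => by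
    change tl (Algebra.ofId k T) τ ((t : Mat m (GA k M)) i j) = _
    rw [dec, map_sum]
    simp only [tl_single, Algebra.ofId_apply]
  have mul : ∀ x ∈ S, ∀ y ∈ S, p x * p y = if x = y then p x else 0 := fun x hx y hy => by
    ext i j
    have e := congrArg (fun g : GL (Fin m) (GA k (M × M)) =>
      ((g : Mat m (GA k (M × M))) i j).coeff (x, y))
      (ht (GA k (M × M)) (hTor_pt k (AddMonoidHom.inl M M)) (hTor_pt k (AddMonoidHom.inr M M)))
    simp only [Units.val_mul, mul_apply, ev, hTor_chv_mul, hTor_chv, Finset.sum_mul_sum,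
      AddMonoidAlgebra.coe_algebraMap, Function.comp_apply, Algebra.algebraMap_self, RingHom.id_apply,
      AddMonoidAlgebra.single_mul_single, AddMonoidAlgebra.coeff_sum, Finsupp.finsetSum_apply,
      AddMonoidAlgebra.coeff_single, Finsupp.single_apply, AddMonoidHom.inl_apply,
      AddMonoidHom.inr_apply, Prod.mk_add_mk, zero_add, add_zero, mul_one, Prod.mk.injEq, ite_and,
      Finset.sum_ite_eq', Finset.sum_ite_irrel, Finset.sum_const_zero, hx, hy, if_true] at e
    rw [mul_apply, ← e]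
    split_ifs <;> rfl
  have one : ∑ x ∈ S, p x = 1 := by
    have e := ht k 1 1
    rw [show (1 * 1 : TP M k) = 1 from MonoidHom.ext fun _ => mul_one _, left_eq_mul] at e
    ext i j
    have e' := ev k 1 i j
    rw [e] at e'
    rw [Matrix.sum_apply]
    simpa [chv] using e'.symm
  have hpP : ∀ x, InP a (p x) := fun x i j h => by simp [hp, hP i j h]
  have lsum : ∀ f : M → Mat m k, lv a (∑ x ∈ S, f x) = ∑ x ∈ S, lv a (f x) := fun f => by
    ext i j
    simp only [lv, of_apply, Matrix.sum_apply]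
    split_ifs <;> simp
  have l0 : lv a (0 : Mat m k) = 0 := by
    ext i j
    simp [lv]
  have mulq : ∀ x ∈ S, ∀ y ∈ S, lv a (p x) * lv a (p y) = if x = y then lv a (p x) else 0 :=
    fun x hx y hy => by
      rw [← (hpP x).lv_mul (hpP y), mul x hx y hy]
      split_ifs
      exacts [rfl, l0]
  have oneq : ∑ x ∈ S, lv a (p x) = 1 := by rw [← lsum, one, (InL.one a).lv_eq]
  have hI : Idem S fun x => lv a (p x) :=
    ⟨fun x hx => by rw [mulq x hx x hx, if_pos rfl], fun x hx y hy h => by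
      rw [mulq x hx y hy, if_neg h], oneq⟩
  have hU : GR.InU a (∑ x ∈ S, lv a (p x) * p x) := by
    refine ⟨fun i j h => ?_, ?_⟩
    · rw [Matrix.sum_apply]
      exact Finset.sum_eq_zero fun x _ => (inL_lv a _).inP.mul (hpP x) i j h
    · rw [lsum, ← oneq]
      refine Finset.sum_congr rfl fun x hx => ?_
      rw [(inL_lv a _).inP.lv_mul (hpP x), (inL_lv a _).lv_eq, hI.1 x hx]
  obtain ⟨U, hUe⟩ := hU.isUnit
  have hUP : InP a (U : Mat m k) := hUe ▸ hU.1
  have com : ∀ y ∈ S, (U : Mat m k) * p y = lv a (p y) * U := fun y hy => by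
    rw [hUe, Finset.sum_mul, Finset.mul_sum]
    refine Finset.sum_congr rfl fun x hx => ?_
    rw [mul_assoc, mul x hx y hy, ← mul_assoc, mulq y hy x hx]
    by_cases h : x = y
    · rw [if_pos h, if_pos h.symm, h]
    · rw [if_neg h, if_neg (Ne.symm h), mul_zero, zero_mul]
  obtain ⟨β, χ, hβ, -, hχ, hd⟩ := diag_idem hI (c := a) fun x _ => inL_lv a _
  refine ⟨U⁻¹ * β, χ, hUP.inv.mul hβ.inP, Units.ext ?_⟩
  have hc : ∀ x ∈ S, (((U⁻¹ * β)⁻¹ : GL (Fin m) k) : Mat m k) * p x *
      ((U⁻¹ * β : GL (Fin m) k) : Mat m k) = eps k χ x := fun x hx => by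
    rw [← hd x hx, _root_.mul_inv_rev, inv_inv, Units.val_mul, Units.val_mul, mul_assoc _ _ (p x),
      com x hx]
    simp only [mul_assoc, Units.mul_inv_cancel_left]
  have dec' : (t : Mat m (GA k M)) = ∑ x ∈ S, (AddMonoidAlgebra.single x 1 : GA k M) •
      (algebraMap k (GA k M)).mapMatrix (p x) := by
    ext1 i j
    rw [dec, Matrix.sum_apply]
    simp [AddMonoidAlgebra.single_mul_single]
  rw [← map_inv, Units.val_mul, Units.val_mul, dec', Finset.mul_sum, Finset.sum_mul]
  have hc' : ∀ x ∈ S, (AQ.cst (GA k M) (U⁻¹ * β)⁻¹ : Mat m (GA k M)) *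
      ((AddMonoidAlgebra.single x 1 : GA k M) • (algebraMap k (GA k M)).mapMatrix (p x)) *
        (AQ.cst (GA k M) (U⁻¹ * β) : Mat m (GA k M)) = (AddMonoidAlgebra.single x 1 : GA k M) •
          (algebraMap k (GA k M)).mapMatrix (eps k χ x) := fun x hx => by
    rw [← hc x hx, RingHom.map_mul, RingHom.map_mul, mul_smul_comm, smul_mul_assoc]
    rfl
  rw [Finset.sum_congr rfl hc']
  ext1 i j
  rw [Matrix.sum_apply]
  by_cases h : i = j
  · subst h
    rw [Finset.sum_eq_single_of_mem (χ i) (hχ i) fun x _ hx => by simp [eps, hx.symm]]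
    simp [eps, rho, dgU, uu]
  · simp [eps, rho, dgU, h]

/-- Complete reducibility of the Levi parts is invariant under a change of frame in `P a`. -/
theorem CR.conjP {K : Type u} [Field K] {m : ℕ} {a : Fin m → ℤ} {S : Set (GL (Fin m) K)}
    (hS : ∀ g ∈ S, InP a (g : Mat m K)) (h : CR {M | ∃ g ∈ S, M = lv a (g : Mat m K)})
    {β : GL (Fin m) K} (hβ : InP a (β : Mat m K)) :
    CR {M | ∃ g ∈ S, M = lv a ((β⁻¹ * g * β : GL (Fin m) K) : Mat m K)} := by
  intro W hW
  have h1 : lv a (β : Mat m K) * lv a ((β⁻¹ : GL (Fin m) K) : Mat m K) = 1 := by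
    rw [← hβ.lv_mul hβ.inv, Units.mul_inv, (InL.one a).lv_eq]
  have h2 : lv a ((β⁻¹ : GL (Fin m) K) : Mat m K) * lv a (β : Mat m K) = 1 := by
    rw [← hβ.inv.lv_mul hβ, Units.inv_mul, (InL.one a).lv_eq]
  have h3 : ∀ g ∈ S, ∀ v, lv a (β : Mat m K) *ᵥ
      (lv a ((β⁻¹ * g * β : GL (Fin m) K) : Mat m K) *ᵥ v) =
        lv a (g : Mat m K) *ᵥ (lv a (β : Mat m K) *ᵥ v) := fun g hg v => by
    rw [Units.val_mul, Units.val_mul, (hβ.inv.mul (hS g hg)).lv_mul hβ, hβ.inv.lv_mul (hS g hg),
      mulVec_mulVec, mulVec_mulVec, ← mul_assoc, ← mul_assoc, h1, one_mul]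
  let e : (Fin m → K) ≃ₗ[K] (Fin m → K) := Matrix.toLin'OfInv h2 h1
  have he : ∀ v, e v = lv a (β : Mat m K) *ᵥ v := fun _ => rfl
  obtain ⟨W', hc, hW'⟩ := h (W.map e.toLinearMap) (by
    rintro _ ⟨g, hg, rfl⟩ _ ⟨v, hv, rfl⟩
    exact ⟨_, hW _ ⟨g, hg, rfl⟩ v hv, h3 g hg v⟩)
  refine ⟨W'.comap e.toLinearMap, ?_, ?_⟩
  · have := (Submodule.orderIsoMapComap e).symm.isCompl hc
    rwa [Submodule.orderIsoMapComap_symm_apply, Submodule.orderIsoMapComap_symm_apply,
      Submodule.comap_map_eq_of_injective e.injective] at this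
  · rintro _ ⟨g, hg, rfl⟩ v hv
    change e _ ∈ W'
    rw [he, h3 g hg v]
    exact hW' _ ⟨g, hg, rfl⟩ _ hv

/-- FIN: a point with values in a domain whose specialisations lie in a finite set is constant. -/
theorem const_of_finite {k K A D : Type u} [Field k] [Field K] [IsAlgClosed K] [Algebra k K]
    [CommRing A] [Algebra k A] [CommRing D] [IsDomain D] [Algebra k D] [Algebra K D]
    [IsScalarTower k K D] [Algebra.FiniteType K D] (x : A →ₐ[k] D) (F : Set (A →ₐ[k] K))
    (hF : F.Finite) (hx : ∀ p : D →ₐ[K] K, (p.restrictScalars k).comp x ∈ F) (p : D →ₐ[K] K)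
    (f : A) : x f = algebraMap K D (p (x f)) := by
  have h0 : ∏ y ∈ hF.toFinset, (x f - algebraMap K D (y f)) = 0 := hTor_zero K K _ fun q => by
    rw [map_prod]
    refine Finset.prod_eq_zero (hF.mem_toFinset.2 (hx q)) ?_
    rw [map_sub, q.commutes]
    exact sub_self _
  obtain ⟨y, -, hy⟩ := Finset.prod_eq_zero_iff.1 h0
  rw [sub_eq_zero.1 hy, p.commutes]
  rfl

/-- RED: an element of a reduced algebra of finite type that vanishes at all points over an
algebraically closed field is zero. -/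
theorem zero_of_points (k K : Type u) {B : Type u} [Field k] [Field K] [IsAlgClosed K]
    [Algebra k K] [CommRing B] [IsReduced B] [Algebra k B] [Algebra.FiniteType k B] (b : B)
    (hb : ∀ p : B →ₐ[k] K, p b = 0) : b = 0 := by
  exact hTor_zero k K b hb

end Pool.Agent.RED
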