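import Pool.Agent.P.MP_c1f06d_ag.g.HBi
import Pool.Agent.P.MP_c1f06d_ag.g.HTor

open Matrix WithConv Pool.Agent.GR Pool.Agent.GR.Co Pool.Agent.GR.AQ
open scoped TensorProduct

universe u

namespace Pool.Agent.RED.Mo

variable {k O : Type u} [Field k] [CommRing O] [HopfAlgebra k O] {Γ : Type}
  {B T T' : Type u} [CommRing B] [Algebra k B] [CommRing T] [Algebra k T] [CommRing T']
  [Algebra k T']

theorem vz_ker {m : ℕ} {u : GL (Fin m) O} (hs : Function.Surjective (ev k u)) (g : GL (Fin m) T) :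
    Vz (clI k fun _ : Unit => u) g ↔ ∃ x : Pt k O T, gm x.ofConv u = g := by
  refine ⟨fun hg => ?_, fun ⟨x, hx⟩ => hx ▸ (vz_clI (fun _ : Unit => u) ()).map _⟩
  have hk : RingHom.ker (ev k u) ≤ RingHom.ker (ev k g) := fun f hf => hg f (mem_clI.2 fun _ => hf)
  have hx := AlgHom.liftOfSurjective_comp (ev k u) hs (ev k g) hk
  refine ⟨toConv (AlgHom.liftOfSurjective (ev k u) hs (ev k g) hk), ?_⟩
  have e := congrArg (fun φ : OGL k m →ₐ[k] T => gm φ (ug k m)) hx
  simp only [← gm_gm, gm_ev_ug] at e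
  exact e

namespace Bi

variable {d : Γ → Hm k k O O k} {m : ℕ} (E : Bi d m)

theorem surj_of {n : ℕ} {u : GL (Fin n) O} {ζ : Mat m O}
    (h : evv E.e (1 : Pt k O O) ᵥ* ζ = E.e) (hz : ∀ i j, ζ i j ∈ (ev k u).range) :
    Function.Surjective (ev k u) := by
  rw [← AlgHom.range_eq_top, eq_top_iff, ← E.gen, Algebra.adjoin_le_iff]
  rintro _ ⟨j, rfl⟩
  rw [← congrFun h j, SetLike.mem_coe, vecMul, dotProduct]
  exact Subalgebra.sum_mem _ fun i _ => Subalgebra.mul_mem _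
    (Subalgebra.algebraMap_mem _ (Coalgebra.counit (E.e i))) (hz i j)

theorem evv_one_r : evv E.e (1 : Pt k O O) ᵥ* (E.r : Mat m O) = E.e :=
  (E.evv_R 1 (toConv (AlgHom.id k O))).trans (by rw [one_mul]; rfl)

theorem surj_r : Function.Surjective (ev k E.r) :=
  E.surj_of E.evv_one_r fun i j => ⟨_, ev_ug_apply E.r i j⟩

theorem surj_l : Function.Surjective (ev k E.l) := by
  refine E.surj_of (ζ := ((E.l⁻¹ : GL (Fin m) O) : Mat m O)) ?_ fun i j =>
    ⟨(ug k m)⁻¹ i j, ?_⟩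
  · have := E.evv_L 1 (toConv (AlgHom.id k O))⁻¹
    rw [(E.L O).map_inv, inv_inv, mul_one] at this
    exact this
  · have : gm (ev k E.l) (ug k m)⁻¹ = E.l⁻¹ := by rw [(gm _).map_inv, gm_ev_ug]
    exact congrArg (fun g : GL (Fin m) O => g i j) this

theorem R_inj {x y : Pt k O T} (h : E.R T x = E.R T y) : x = y :=
  E.evv_inj (by rw [← one_mul x, ← E.evv_R, h, E.evv_R, one_mul])

/-- The ideal of the group of right translations. -/
noncomputable def IG : Ideal (OGL k m) := clI k fun _ : Unit => E.r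

theorem vz_IG (g : GL (Fin m) T) : Vz E.IG g ↔ ∃ x, E.R T x = g := vz_ker E.surj_r g

theorem isGrp_IG : IsGrp E.IG :=
  ⟨fun T _ _ => (E.vz_IG _).2 ⟨1, (E.R T).map_one⟩, fun {T} _ _ {_ _} h h' =>
    let ⟨x, hx⟩ := (E.vz_IG _).1 h
    let ⟨y, hy⟩ := (E.vz_IG _).1 h'
    (E.vz_IG _).2 ⟨x * y, by rw [(E.R T).map_mul, hx, hy]⟩, fun {T} _ _ {_} h =>
    let ⟨x, hx⟩ := (E.vz_IG _).1 h
    (E.vz_IG _).2 ⟨x⁻¹, by rw [(E.R T).map_inv, hx]⟩⟩

/-- The universal generators. -/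
noncomputable def w (a : Γ) : GL (Fin m) (O ⊗[k] O) :=
  E.L _ (toConv (iL k O O)) * E.R _ (toConv (iR k O O)) * AQ.cst _ (E.s a)

/-- The ideal of the closure of the group of translations and automorphisms. -/
noncomputable def IH : Ideal (OGL k m) := clI k E.w

/-- The generators. -/
def Gen (g : GL (Fin m) T) : Prop := ∃ y x a, g = E.L T y * E.R T x * AQ.cst T (E.s a)

theorem gen_w (f : O ⊗[k] O →ₐ[k] T) (a : Γ) : E.Gen (gm f (E.w a)) :=
  ⟨_, _, a, by rw [w, (gm f).map_mul, (gm f).map_mul, gm_L, gm_R, gm_cst]⟩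

variable {E}

theorem Gen.vz {g : GL (Fin m) T} (h : E.Gen g) : Vz E.IH g := by
  obtain ⟨y, x, a, rfl⟩ := h
  let f : O ⊗[k] O →ₐ[k] T :=
    Algebra.TensorProduct.lift y.ofConv x.ofConv fun _ _ => Commute.all _ _
  have e1 : RED.pm f (toConv (iL k O O)) = y := WithConv.ext (AlgHom.ext fun _ => by simp [f])
  have e2 : RED.pm f (toConv (iR k O O)) = x := WithConv.ext (AlgHom.ext fun _ => by simp [f])
  have := (vz_clI E.w a).map f
  rwa [w, (gm f).map_mul, (gm f).map_mul, gm_L, gm_R, gm_cst, e1, e2] at this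

theorem _root_.Pool.Agent.RED.Mo.Gp.iso (h : Gp d) (a : Γ) : IsIso (d a) := by
  obtain ⟨b, hb⟩ := h.inv a
  refine ⟨h.hom a, fun C _ i1 i2 ht f => ?_⟩
  have e : i1 = i2 := Algebra.algebra_ext _ _ fun r => by
    have := @IsScalarTower.smul_assoc k k C _ i2.toSMul i1.toSMul ht r 1 1
    rw [smul_eq_mul, mul_one, @one_smul k C _ i2.toModule.toDistribMulAction.toMulAction] at this
    rw [@Algebra.algebraMap_eq_smul_one k C _ _ i1, @Algebra.algebraMap_eq_smul_one k C _ _ i2,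
      this]
  subst e
  rw [Subsingleton.elim f (Algebra.ofId k C)]
  exact Function.bijective_iff_has_inverse.2 ⟨ap (d b), fun x => (hb C x).2, fun x => (hb C x).1⟩

theorem s_R (h : Gp d) (a : Γ) (x : Pt k O T) :
    AQ.cst T (E.s a) * E.R T x = E.R T (ap (d a) x) * AQ.cst T (E.s a) :=
  mul_inv_eq_iff_eq_mul.1 ((E.rl_s a).conjR (h.iso a) _ x)

theorem s_L (h : Gp d) (a : Γ) (x : Pt k O T) :
    AQ.cst T (E.s a) * E.L T x = E.L T (ap (d a) x) * AQ.cst T (E.s a) :=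
  mul_inv_eq_iff_eq_mul.1 ((E.rl_s a).conjL (h.iso a) _ x)

theorem s_one (h : Gp d) : ∃ a, E.s a = 1 :=
  let ⟨a, ha⟩ := h.one
  ⟨a, (E.rl_s a).uniq (h.iso a) fun T _ _ f x => by
    rw [(gm f).map_one, Units.val_one, vecMul_one, Subsingleton.elim f (Algebra.ofId k T)]
    exact congrArg _ (ha T x)⟩

theorem s_mul (h : Gp d) (a b : Γ) : ∃ c, E.s c = E.s a * E.s b :=
  let ⟨c, hc⟩ := h.mul a b
  ⟨c, (E.rl_s c).uniq (h.iso c) ((E.rl_s a).mul (E.rl_s b) fun T _ _ f x => by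
    rw [Subsingleton.elim f (Algebra.ofId k T)]
    exact hc T x)⟩

theorem s_inv (h : Gp d) (a : Γ) : ∃ b, E.s b = (E.s a)⁻¹ := by
  obtain ⟨b, hb⟩ := h.inv a
  refine ⟨b, eq_inv_of_mul_eq_one_right (E.up' fun T _ _ f x => ?_)⟩
  have := ((E.rl_s a).mul (c'' := Algebra.TensorProduct.includeRight) (E.rl_s b)
    fun T _ _ f x => by
      rw [Subsingleton.elim f (Algebra.ofId k T), app_one]
      exact (hb T x).1.symm) T f x
  rw [app_one] at this
  rw [this, (gm f).map_one, Units.val_one, vecMul_one]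

theorem Gen.mul (h : Gp d) {g g' : GL (Fin m) T} (hg : E.Gen g) (hg' : E.Gen g') :
    E.Gen (g * g') := by
  obtain ⟨y, x, a, rfl⟩ := hg
  obtain ⟨y', x', b, rfl⟩ := hg'
  obtain ⟨c, hc⟩ := s_mul (E := E) h a b
  refine ⟨y * ap (d a) y', x * ap (d a) x', c, ?_⟩
  rw [hc, (E.L T).map_mul, (E.R T).map_mul, (AQ.cst T).map_mul]
  simp only [mul_assoc]
  rw [← mul_assoc (AQ.cst T _), s_L h, mul_assoc, ← mul_assoc (AQ.cst T _), s_R h,
    ← mul_assoc (E.R T x), ← (E.L_R x _).eq]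
  simp only [mul_assoc]

theorem gen_R (h : Gp d) (x : Pt k O T) : E.Gen (E.R T x) :=
  let ⟨a, ha⟩ := s_one (E := E) h
  ⟨1, x, a, by rw [ha, (E.L T).map_one, (AQ.cst T).map_one, one_mul, mul_one]⟩

theorem gen_L (h : Gp d) (x : Pt k O T) : E.Gen (E.L T x) :=
  let ⟨a, ha⟩ := s_one (E := E) h
  ⟨x, 1, a, by rw [ha, (E.R T).map_one, (AQ.cst T).map_one, mul_one, mul_one]⟩

theorem gen_s (a : Γ) : E.Gen (AQ.cst T (E.s a)) :=
  ⟨1, 1, a, by rw [(E.R T).map_one, (E.L T).map_one, one_mul, one_mul]⟩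

theorem Gen.inv (h : Gp d) {g : GL (Fin m) T} (hg : E.Gen g) : E.Gen g⁻¹ := by
  obtain ⟨y, x, a, rfl⟩ := hg
  obtain ⟨b, hb⟩ := s_inv (E := E) h a
  rw [_root_.mul_inv_rev, _root_.mul_inv_rev, ← (AQ.cst T).map_inv, ← hb, ← (E.R T).map_inv,
    ← (E.L T).map_inv]
  exact (gen_s b).mul h ((gen_R h _).mul h (gen_L h _))

theorem isGrp_IH (h : Gp d) : IsGrp E.IH :=
  clI_isGrp _ (by have := (gen_R (E := E) h (1 : Pt k O k)).vz; rwa [(E.R k).map_one] at this)
    (fun _ _ _ a b f f' => ((E.gen_w f a).mul h (E.gen_w f' b)).vz)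
    fun a => ((E.gen_w (AlgHom.id k _) a).inv h).vz

theorem normal (h : Gp d) {η g : GL (Fin m) T} (hη : Vz E.IH η) (hg : Vz E.IG g) :
    Vz E.IG (η * g * η⁻¹) := by
  obtain ⟨x, rfl⟩ := (E.vz_IG _).1 hg
  intro f hf
  refine clI_ind E.w O (fun T _ _ η y => ev k (η * E.R T (toConv y) * η⁻¹) f)
    (fun T T' _ _ _ _ φ η y => (map_ev φ _ f).trans (congrArg (fun x => ev k x f) (by
      rw [(gm φ).map_mul, (gm φ).map_mul, (gm φ).map_inv]; rfl)))
    (fun T _ _ a p y => ?_) hη x.ofConv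
  obtain ⟨y', x', b, e⟩ := E.gen_w p a
  refine (E.vz_IG _).2 ⟨x' * ap (d b) (toConv y) * x'⁻¹, ?_⟩ f hf
  rw [e, eq_mul_inv_iff_mul_eq, mul_assoc _ _ (E.R T (toConv y)), s_R h, ← mul_assoc, ← mul_assoc,
    ← mul_assoc, ← (E.L_R _ _).eq, mul_assoc _ _ (E.R T x'), mul_assoc _ (E.R T x'),
    ← (E.R T).map_mul, ← (E.R T).map_mul, inv_mul_cancel_right]

theorem covec (h : Gp d) {η : GL (Fin m) T} (hη : Vz E.IH η) :
    ∃ g : Pt k O T, evv E.e (1 : Pt k O T) ᵥ* (η : Mat m T) = evv E.e g := by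
  have hs : Function.Surjective (MvPolynomial.aeval (R := k) E.e) := by
    rw [← AlgHom.range_eq_top, ← Algebra.adjoin_range_eq_range_aeval, E.gen]
  have hk : ∀ p, MvPolynomial.aeval (R := k) E.e p = 0 →
      MvPolynomial.aeval (R := k) (evv E.e (1 : Pt k O T) ᵥ* (η : Mat m T)) p = 0 := by
    intro p hp
    let F : ∀ (T : Type u) [CommRing T] [Algebra k T], GL (Fin m) T → T := fun T _ _ η =>
      MvPolynomial.aeval (R := k) (evv E.e (1 : Pt k O T) ᵥ* (η : Mat m T)) p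
    refine clI_ind0 (T := T) (h := η) E.w F (fun T T' _ _ _ _ φ η => ?_) (fun a => ?_) hη
    · refine (MvPolynomial.comp_aeval_apply _ φ p).trans
        (congrArg (fun v => MvPolynomial.aeval (R := k) v p) (funext fun j => ?_))
      rw [evv_pm, map_one]
      rfl
    · obtain ⟨y, x, b, e⟩ := E.gen_w (AlgHom.id k _) a
      obtain ⟨z, hz⟩ := ((h.iso b).2 _ (Algebra.ofId k _)).2 (y⁻¹ * 1 * x)
      have e2 : evv E.e (1 : Pt k O (O ⊗[k] O)) ᵥ* (E.w a : Mat m (O ⊗[k] O)) = evv E.e z := by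
        rw [Co.gm_id] at e
        rw [e, Units.val_mul, Units.val_mul, ← vecMul_vecMul, ← vecMul_vecMul, evv_L, evv_R, ← hz,
          evv_s]
      have := congrArg z.ofConv hp
      rw [map_zero, MvPolynomial.comp_aeval_apply] at this
      exact (congrArg (fun v => MvPolynomial.aeval (R := k) v p) e2).trans this
  refine ⟨toConv (AlgHom.liftOfSurjective _ hs _ hk), funext fun j => ?_⟩
  have := AlgHom.congr_fun (AlgHom.liftOfSurjective_comp _ hs _ hk) (MvPolynomial.X j)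
  rw [AlgHom.comp_apply, MvPolynomial.aeval_X, MvPolynomial.aeval_X] at this
  exact this.symm

/-- A point of the closure that centralises the right translations is a left translation. -/
theorem eq_L (h : Gp d) {η : GL (Fin m) B} (hη : Vz E.IH η)
    (hc : ∀ (T : Type u) [CommRing T] [Algebra k T] (f : B →ₐ[k] T) (x : Pt k O T),
      Commute (gm f η) (E.R T x)) : ∃ g, η = E.L B g := by
  obtain ⟨g, hg⟩ := covec h hη
  refine ⟨g⁻¹, E.up' fun T _ _ f x => ?_⟩
  have e : evv E.e (1 : Pt k O T) ᵥ* (gm f η : Mat m T) = evv E.e (RED.pm f g) :=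
    funext fun j => by
      have := evv_pm (e := E.e) f 1 (η : Mat m B) j
      rw [map_one, hg] at this
      exact this.symm
  rw [gm_L, evv_L, map_inv, inv_inv, ← one_mul x, ← evv_R, vecMul_vecMul, ← Units.val_mul,
    ← (hc T f x).eq, Units.val_mul, ← vecMul_vecMul, e, evv_R, one_mul]

theorem ker_fin (h : Gp d) [Algebra.FiniteType k O] (hG : GI k O) (hF : FK k O) {a : Fin m → ℤ}
    (hP : ∀ (T : Type u) [CommRing T] [Algebra k T] (g : GL (Fin m) T), Vz E.IH g →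
      InP a (g : Mat m T)) :
    {g : GL (Fin m) (AlgebraicClosure k) |
      Vz E.IG g ∧ lv a (g : Mat m (AlgebraicClosure k)) = 1}.Finite ∧
    {g : GL (Fin m) (AlgebraicClosure k) |
      Vz E.IH g ∧ lv a (g : Mat m (AlgebraicClosure k)) = 1}.Finite := by
  let K := AlgebraicClosure k
  have hR := hF _ E.r a (fun C _ _ => (E.R C).map_mul) E.surj_r
    (hP O _ (gen_R h (toConv (AlgHom.id k O))).vz)
  have hL := hF _ E.l a (fun C _ _ => (E.L C).map_mul) E.surj_l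
    (hP O _ (gen_L h (toConv (AlgHom.id k O))).vz)
  refine ⟨(hR.image (E.R K)).subset fun g hg => ?_, (hL.image (E.L K)).subset fun η hη => ?_⟩
  · obtain ⟨x, rfl⟩ := (E.vz_IG _).1 hg.1
    exact ⟨x, hg.2, rfl⟩
  have := hG K
  let D := K ⊗[k] O
  let xu : Pt k O D := toConv (iR k K O)
  let ηu : GL (Fin m) D := gm (iL k K O) η
  have hu : Vz E.IH ηu := hη.1.map _
  obtain ⟨x', hx'⟩ := (E.vz_IG _).1 (normal h hu ((E.vz_IG _).2 ⟨xu, rfl⟩))
  have hp : ∀ p : D →ₐ[K] K, gm (p.restrictScalars k) ηu = η := fun p =>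
    Units.ext (Matrix.ext fun i j => p.commutes _)
  have hq : ∀ p : D →ₐ[K] K, E.R K (RED.pm (p.restrictScalars k) (x' * xu⁻¹)) =
      η * E.R K (RED.pm (p.restrictScalars k) xu) * η⁻¹ *
        (E.R K (RED.pm (p.restrictScalars k) xu))⁻¹ := fun p => by
    rw [← gm_R, (E.R D).map_mul, (E.R D).map_inv, hx', (gm _).map_mul, (gm _).map_mul,
      (gm _).map_mul, (gm _).map_inv, (gm _).map_inv, hp, gm_R]
  let p0 : D →ₐ[K] K := Algebra.TensorProduct.lift (AlgHom.id K K) (1 : Pt k O K).ofConv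
    fun _ _ => Commute.all _ _
  have e0 : RED.pm (p0.restrictScalars k) xu = 1 :=
    WithConv.ext (AlgHom.ext fun f => by simp [p0, xu, D])
  have e1 : RED.pm (p0.restrictScalars k) (x' * xu⁻¹) = 1 := E.R_inj (by
    rw [hq, e0, (E.R K).map_one, mul_one, mul_inv_cancel, inv_one, mul_one])
  have e2 : x' * xu⁻¹ = 1 := WithConv.ext (AlgHom.ext fun f => by
    rw [const_of_finite (x' * xu⁻¹).ofConv _ (hR.image ofConv) (fun p => ⟨RED.pm
      (p.restrictScalars k) (x' * xu⁻¹), ?_, rfl⟩) p0 f]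
    · have : p0 ((x' * xu⁻¹).ofConv f) = algebraMap k K (Coalgebra.counit f) :=
        congrArg (fun y : Pt k O K => y.ofConv f) e1
      rw [this, ← IsScalarTower.algebraMap_apply]
      rfl
    · have h1 := hP K _ hη.1
      have h2 := hP K _ (gen_R (E := E) h (RED.pm (p.restrictScalars k) xu)).vz
      have h3 : lv a ((η⁻¹ : GL (Fin m) K) : Mat m K) = 1 := by
        have := h1.lv_mul h1.inv
        rw [Units.mul_inv, hη.2, one_mul, (InL.one a).lv_eq] at this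
        exact this.symm
      show lv a (E.R K _ : Mat m K) = 1
      rw [hq, Units.val_mul, Units.val_mul, Units.val_mul, ((h1.mul h2).mul h1.inv).lv_mul h2.inv,
        (h1.mul h2).lv_mul h1.inv, h1.lv_mul h2, hη.2, h3, one_mul, mul_one, ← h2.lv_mul h2.inv,
        Units.mul_inv, (InL.one a).lv_eq])
  obtain ⟨g, rfl⟩ := eq_L h hη.1 fun T _ _ f x => by
    let q : D →ₐ[k] T := Algebra.TensorProduct.lift f x.ofConv fun _ _ => Commute.all _ _
    have e3 : RED.pm q xu = x := WithConv.ext (AlgHom.ext fun f => by simp [q, xu, D])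
    have e4 : gm q ηu = gm f η := by
      rw [gm_gm, Algebra.TensorProduct.lift_comp_includeLeft]
    rw [mul_inv_eq_one.1 e2, eq_mul_inv_iff_mul_eq] at hx'
    have := congrArg (gm q) hx'
    rw [(gm q).map_mul, (gm q).map_mul, gm_R, e3, e4] at this
    exact this.symm
  exact ⟨g, hη.2, rfl⟩

theorem exists_rl {c : Hm k k O O B} (hc : IsIso c) (hl : Loc d c) :
    ∃ ζ : GL (Fin m) B, E.Rl c ζ ∧ Vz E.IH ζ := by
  let ψ : Fam k O B := fun T _ _ f => (Equiv.ofBijective _ (hc.2 T f)).symm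
  have h1 : ∀ (T : Type u) [CommRing T] [Algebra k T] (f : B →ₐ[k] T) (x : Pt k O T),
      app c f (ψ T f x) = x := fun T _ _ f x => (Equiv.ofBijective _ (hc.2 T f)).apply_symm_apply x
  have h2 : ∀ (T : Type u) [CommRing T] [Algebra k T] (f : B →ₐ[k] T) (x : Pt k O T),
      ψ T f (app c f x) = x := fun T _ _ f x => (Equiv.ofBijective _ (hc.2 T f)).symm_apply_apply x
  have key : ∀ b : B, b ≠ 0 → ∃ (B' : Type u) (_ : CommRing B') (_ : Algebra k B') (j : B →ₐ[k] B')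
      (ζ : GL (Fin m) B'), j b ≠ 0 ∧ E.Gen ζ ∧ E.Rl (push c j) ζ := by
    intro b hb
    obtain ⟨B', _, _, j, g, a, h3, h4⟩ := hl b hb
    refine ⟨B', inferInstance, inferInstance, j, _, h3, ⟨g, g, a, rfl⟩, fun T _ _ f x => ?_⟩
    rw [app_push, h4, (gm f).map_mul, (gm f).map_mul, Units.val_mul, Units.val_mul,
      ← vecMul_vecMul, ← vecMul_vecMul, gm_L, gm_R, gm_cst, evv_L, evv_R, ← mul_assoc, ← mul_assoc,
      inv_mul_cancel, one_mul, inv_mul_cancel_right, evv_s]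
  obtain ⟨ζ, hζ⟩ := exists_rp E.li ψ (fun T T' _ _ _ _ j f x => (hc.2 T' (j.comp f)).1 (by
      rw [← app_nat, h1, h1])) fun b hb => by
    obtain ⟨B', _, _, j, ζ, h3, -, h4⟩ := key b hb
    refine ⟨B', inferInstance, inferInstance, j, ζ, h3, fun T _ _ f x => ?_⟩
    have := h4 T f (ψ T (f.comp j) x)
    rw [app_push, h1] at this
    exact this.symm
  obtain ⟨ζ', hζ'⟩ := exists_rp E.li (fun T _ _ f x => app c f x)
    (fun T T' _ _ _ _ j f x => app_nat c f j x) fun b hb => by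
    obtain ⟨B', _, _, j, ζ, h3, -, h4⟩ := key b hb
    refine ⟨B', inferInstance, inferInstance, j, (ζ⁻¹ : GL (Fin m) B'), h3,
      fun T _ _ f x => ?_⟩
    have := h4 T f x
    rw [app_push] at this
    show _ = _ ᵥ* (gm f ζ⁻¹ : Mat m T)
    rw [← this, vecMul_vecMul, ← Units.val_mul, ← (gm f).map_mul, mul_inv_cancel, (gm f).map_one,
      Units.val_one, vecMul_one]
  obtain ⟨z, rfl⟩ := hζ.exists_gl E.li hζ' h1
  have hz : E.Rl c z := fun T _ _ f x => (hζ T f _).symm.trans (by rw [h2])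
  refine ⟨z, hz, fun f hf => by_contra fun hb => ?_⟩
  obtain ⟨B', _, _, j, ζ, h3, h4, h5⟩ := key _ hb
  have e : gm j z = ζ := E.up' fun T _ _ f x => by
    obtain ⟨y, rfl⟩ := (hc.2 T (f.comp j)).2 x
    rw [← app_push, h5, hz.push j]
  exact h3 (by rw [map_ev, e]; exact h4.vz f hf)

end Bi

end Pool.Agent.RED.Mo
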