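import Pool.Agent.P.MP_c1f06d_ag.g.Coc

open Matrix Pool.Agent.GR TensorProduct

universe u

namespace Pool.Agent.RED.Mo

variable {k O : Type u} [Field k] [CommRing O] [HopfAlgebra k O] {D : RD} {Q : Pin D k O k}

theorem grp_app_id {T : Type u} [CommRing T] [Algebra k T] (f : k →ₐ[k] T) (x : Pt k O T) :
    app (k := k) (R := k) (B := k) Algebra.TensorProduct.includeRight f x = x :=
  WithConv.ext (AlgHom.ext fun o => by simp [app])

/-- The composite of two endomorphisms. -/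
noncomputable def grpCmp (φ ψ : Hm k k O O k) : Hm k k O O k :=
  (app φ (Algebra.ofId k (k ⊗[k] O)) (WithConv.toConv ψ)).ofConv

theorem grp_app_cmp (φ ψ : Hm k k O O k) {T : Type u} [CommRing T] [Algebra k T] (f : k →ₐ[k] T)
    (x : Pt k O T) : app (grpCmp φ ψ) f x = app φ f (app ψ f x) := by
  have := Coc.nat φ (Algebra.ofId k (k ⊗[k] O))
    (Algebra.TensorProduct.lift f x.ofConv fun _ _ => Commute.all _ _) (WithConv.toConv ψ)
  rw [Subsingleton.elim (AlgHom.comp _ (Algebra.ofId k (k ⊗[k] O))) f] at this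
  exact this

theorem grp_mul_id : IsMul (k := k) (R := k) (B := k) (A₁ := O) (A₂ := O)
    Algebra.TensorProduct.includeRight := fun C _ i1 i2 h f g g' => by
  obtain rfl := Coc.alg_eq i1 i2 h
  rw [grp_app_id, grp_app_id, grp_app_id]

theorem grp_mul_cmp {φ ψ : Hm k k O O k} (h : IsMul φ) (h' : IsMul ψ) : IsMul (grpCmp φ ψ) :=
  fun C _ i1 i2 e f g g' => by
  obtain rfl := Coc.alg_eq i1 i2 e
  rw [grp_app_cmp, grp_app_cmp, grp_app_cmp, h', h]

theorem grp_resp_id : RespT (k := k) (R := k) (B := k) Algebra.TensorProduct.includeRight Q Q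
    (AddMonoidHom.id _) id := fun C _ i1 i2 h f => by
  obtain rfl := Coc.alg_eq i1 i2 h
  exact ⟨fun t => grp_app_id _ _, fun b i s => grp_app_id _ _⟩

theorem grp_resp_cmp {φ ψ : Hm k k O O k} {θ θ' : XL D.r →+ XL D.r} {π π' : Fin D.m → Fin D.m}
    (h : RespT φ Q Q θ π) (h' : RespT ψ Q Q θ' π') :
    RespT (grpCmp φ ψ) Q Q (θ'.comp θ) (π ∘ π') := fun C _ i1 i2 e f => by
  obtain rfl := Coc.alg_eq i1 i2 e
  refine ⟨fun t => ?_, fun b i s => ?_⟩
  · rw [grp_app_cmp, (h' C f).1]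
    exact (h C f).1 _
  · rw [grp_app_cmp, (h' C f).2]
    exact (h C f).2 _ _ _

theorem grp_pi (c : DA D) {π : Fin D.m → Fin D.m} (h : ∀ i, c.θ (D.al (π i)) = D.al i) :
    ⇑c.π = π :=
  funext fun i => D.indep.injective (c.θ.injective ((c.al i).trans (h i).symm))

/-- P4: the lifts of a group of diagram automorphisms form a group. -/
theorem grp (hu : ∀ (φ ψ : Hm k k O O k) (θ : XL D.r →+ XL D.r) (π : Fin D.m → Fin D.m),
      IsMul φ → IsMul ψ → RespT φ Q Q θ π → RespT ψ Q Q θ π → φ = ψ) {Γ : Type} (γ : Γ → DA D) (d : Γ → Hm k k O O k)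
    (hd : ∀ a, IsIso (d a) ∧ RespT (d a) Q Q (γ a).θ (γ a).π)
    (h1 : ∃ a, (γ a).θ = AddEquiv.refl _)
    (hm : ∀ a b, ∃ c, (γ c).θ = (γ a).θ.trans (γ b).θ) (hi : ∀ a, ∃ b, (γ b).θ = (γ a).θ.symm) :
    (∃ a, ∀ (T : Type u) [CommRing T] [Algebra k T] (x : Pt k O T),
      app (d a) (Algebra.ofId k T) x = x) ∧
    (∀ a b, ∃ c, ∀ (T : Type u) [CommRing T] [Algebra k T] (x : Pt k O T),
      app (d c) (Algebra.ofId k T) x =
        app (d a) (Algebra.ofId k T) (app (d b) (Algebra.ofId k T) x)) ∧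
    ∀ a, ∃ b, ∀ (T : Type u) [CommRing T] [Algebra k T] (x : Pt k O T),
      app (d a) (Algebra.ofId k T) (app (d b) (Algebra.ofId k T) x) = x ∧
      app (d b) (Algebra.ofId k T) (app (d a) (Algebra.ofId k T) x) = x := by
  have one : ∀ a, (γ a).θ = AddEquiv.refl _ → d a = Algebra.TensorProduct.includeRight := by
    intro a ha
    have h2 := (hd a).2
    rw [grp_pi (γ a) (π := id) fun i => by rw [ha]; rfl, ha] at h2
    exact hu _ _ _ _ (hd a).1.1 grp_mul_id h2 grp_resp_id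
  have mul : ∀ a b c, (γ c).θ = (γ a).θ.trans (γ b).θ → d c = grpCmp (d a) (d b) := by
    intro a b c hc
    have h2 := (hd c).2
    rw [grp_pi (γ c) (π := (γ a).π ∘ (γ b).π) fun i => by
      rw [hc, AddEquiv.trans_apply, Function.comp_apply, (γ a).al, (γ b).al], hc,
      show (((γ a).θ.trans (γ b).θ : XL D.r ≃+ XL D.r) : XL D.r →+ XL D.r) =
        ((γ b).θ : XL D.r →+ XL D.r).comp (γ a).θ from AddMonoidHom.ext fun _ => rfl] at h2
    exact hu _ _ _ _ (hd c).1.1 (grp_mul_cmp (hd a).1.1 (hd b).1.1) h2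
      (grp_resp_cmp (hd a).2 (hd b).2)
  obtain ⟨e, he⟩ := h1
  refine ⟨⟨e, fun T _ _ x => by rw [one e he, grp_app_id]⟩, fun a b => ?_, fun a => ?_⟩
  · obtain ⟨c, hc⟩ := hm a b
    exact ⟨c, fun T _ _ x => by rw [mul a b c hc, grp_app_cmp]⟩
  · obtain ⟨b, hb⟩ := hi a
    refine ⟨b, fun T _ _ x => ⟨?_, ?_⟩⟩
    · rw [← grp_app_cmp, ← mul a b e (by rw [he, hb, AddEquiv.self_trans_symm]), one e he,
        grp_app_id]
    · rw [← grp_app_cmp, ← mul b a e (by rw [he, hb, AddEquiv.symm_trans_self]), one e he,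
        grp_app_id]

end Pool.Agent.RED.Mo
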