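import Pool.Agent.P.MP_c1f06d_ag.g.FibA
import Pool.Agent.P.MP_c1f06d_ag.g.PreOk

open Matrix Pool.Agent.GR
open scoped TensorProduct

universe u

namespace Pool.Agent.RED.Mo

variable {k O : Type u} [Field k] [CommRing O] [HopfAlgebra k O] {D : RD} {Q : Pin D k O k}

/-- The torus of the pinning is diagonal with weights `χ` in the representation `u`. -/
def TorW (Q : Pin D k O k) {n : ℕ} (u : GL (Fin n) O) (χ : Fin n → XL D.r) : Prop :=
  ∀ (C : Type u) [CommRing C] [Algebra k C] (t : TP (XL D.r) C),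
    gm (Q.ta (Algebra.ofId k C) t).ofConv u = dgU fun i => t (Multiplicative.ofAdd (χ i))

theorem hp_chv {C : Type u} [CommRing C] {t : TP (XL D.r) C} (ht : ∀ i, chv t (D.al i) = 1)
    {m : XL D.r} (hm : m ∈ Submodule.span ℤ (Set.range D.al)) : chv t m = 1 := by
  have : Submodule.span ℤ (Set.range D.al) ≤ (MonoidHom.toAdditiveRight t).ker.toIntSubmodule :=
    Submodule.span_le.2 (by rintro _ ⟨i, rfl⟩; exact congrArg Additive.ofMul (Units.ext (ht i)))
  exact congrArg (fun x : Additive Cˣ => (x.toMul : C)) (this hm)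

/-- P1: points of the torus killed by the simple roots are central. -/
theorem cen (h : Q.Ok) {C : Type u} [CommRing C] [Algebra k C] (t : TP (XL D.r) C)
    (ht : ∀ i, chv t (D.al i) = 1) (g : Pt k O C) : Commute (Q.ta (Algebra.ofId k C) t) g := by
  obtain ⟨T, _, _, j, η, hj, hη⟩ := (h.at' C (Algebra.ofId k C)).gen 2 ![g, 1]
  have key : ∀ y ∈ Set.range (Q.cell (j.comp (Algebra.ofId k C))),
      Commute (pm j (Q.ta (Algebra.ofId k C) t)) y := by
    rintro _ ⟨p, rfl⟩
    rw [Pin.ta, pm_tev]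
    have h1 : ∀ b s, Commute (tev Q.τ (j.comp (Algebra.ofId k C)) (tm j t))
        (Q.un (j.comp (Algebra.ofId k C)) b s) := fun b s =>
      Commute.list_prod_right _ _ fun x hx => by
        obtain ⟨i, rfl⟩ := List.mem_ofFn.1 hx
        obtain ⟨y, hy, e⟩ := h.xroot b i
        have := hy.eqv T (j.comp (Algebra.ofId k C)) (tm j t) (s i)
        rw [chv_tm, hp_chv ht (D.rt_span _), map_one, one_mul, e] at this
        exact mul_inv_eq_iff_eq_mul.1 this
    exact ((h1 _ _).mul_right (h.pre.hom.tev_comm _ _)).mul_right (h1 _ _)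
  have h2 := (key _ (hη 1)).inv_right.mul_right (key _ (hη 0))
  simp only [Matrix.cons_val_one, Matrix.cons_val_zero, map_one, mul_one,
    inv_mul_cancel_left] at h2
  exact pm_inj j hj.injective (by rw [map_mul, map_mul]; exact h2)

/-- P1': the matrix entries vanish outside the classes modulo the root lattice. -/
theorem cen_mat (h : Q.Ok) {n : ℕ} {u : GL (Fin n) O} (hu : IsRep k u) {χ : Fin n → XL D.r}
    (ht : TorW Q u χ) {C : Type u} [CommRing C] [Algebra k C] (g : Pt k O C) (i j : Fin n)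
    (hij : χ i - χ j ∉ Submodule.span ℤ (Set.range D.al)) : gm g.ofConv u i j = 0 := by
  classical
  let N := (Submodule.span ℤ (Set.range D.al)).toAddSubgroup
  let τ := (uT C (XL D.r ⧸ N)).comp (QuotientAddGroup.mk' N).toMultiplicative
  have e := congrArg (fun x => (hu.pts _ x : Mat n (GA C (XL D.r ⧸ N))) i j)
    (cen h τ (fun a => by
      have : QuotientAddGroup.mk' N (D.al a) = 0 :=
        (QuotientAddGroup.eq_zero_iff _).2 (Submodule.subset_span ⟨a, rfl⟩)
      exact congrArg (fun m => (AddMonoidAlgebra.single m 1 : GA C _)) this)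
      (pm (cst k C _) g)).eq
  simp only [map_mul, Units.val_mul] at e
  rw [show hu.pts _ (Q.ta _ τ) = _ from ht _ τ] at e
  have e' : (AddMonoidAlgebra.single (QuotientAddGroup.mk' N (χ i)) 1 : GA C _) *
      AddMonoidAlgebra.single 0 (gm g.ofConv u i j) =
      AddMonoidAlgebra.single 0 (gm g.ofConv u i j) *
        AddMonoidAlgebra.single (QuotientAddGroup.mk' N (χ j)) 1 :=
    (diagonal_mul _ _ i j).symm.trans (e.trans (mul_diagonal _ _ i j))
  have hne : QuotientAddGroup.mk' N (χ j) ≠ QuotientAddGroup.mk' N (χ i) := fun e =>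
    hij ((QuotientAddGroup.eq_zero_iff (N := N) _).1 (by
      rw [← QuotientAddGroup.mk'_apply, map_sub, e, sub_self]))
  simpa only [AddMonoidAlgebra.single_mul_single, AddMonoidAlgebra.coeff_single,
    Finsupp.single_apply, hne, add_zero, zero_add, one_mul, if_true, if_false] using
    congrArg (fun x : GA C _ => x.coeff (QuotientAddGroup.mk' N (χ i))) e'

theorem hp_cell_one (h : Q.Ok) {C : Type u} [CommRing C] [Algebra k C] (f : k →ₐ[k] C) :
    Q.cell f (0, 1, 0) = 1 := by
  have : ∀ b, Q.un f b 0 = 1 := fun b => List.prod_eq_one fun x hx => by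
    obtain ⟨i, rfl⟩ := List.mem_ofFn.1 hx
    obtain ⟨y, hy, e⟩ := h.xroot b i
    rw [← e]
    exact hy.cv_zero
  rw [Pin.cell, this, this, Pin.ta, h.pre.hom.tev_one, one_mul, one_mul]

theorem hp_root {n : ℕ} {u : GL (Fin n) O} (hu : IsRep k u) {χ : Fin n → XL D.r}
    (ht : TorW Q u χ) {α : XL D.r} {y : Pt k O (Polynomial k)} (hy : IsRoot Q.τ α y) {C : Type u}
    [CommRing C] [Algebra k C] (f : k →ₐ[k] C) {a : C} (ha : a * a = 0) {i j : Fin n}
    (h0 : χ i ≠ χ j) (h1 : χ i - χ j ≠ α) : (hu.pts C (cv y f a) : Mat n C) i j = 0 := by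
  classical
  have e := congrArg (fun x => (hu.pts _ x : Mat n (GA C (XL D.r))) i j) (hy.cj_cv (j := f) a)
  rw [cj_eq, map_mul, map_mul, map_inv, Subsingleton.elim (AlgHom.comp _ f) (Algebra.ofId k _),
    show hu.pts _ (tev Q.τ _ _) = rho C χ from ht _ (uT C _)] at e
  have e1 := (rho_conj (R := k) χ (hu.pts C (cv y f a)) i j).symm.trans e
  have e2 : ∀ P : Polynomial k, (Polynomial.aevalTower (Algebra.ofId k (GA C (XL D.r)))
      (AddMonoidAlgebra.single α a) P).coeff (χ i - χ j) = 0 := fun P => by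
    rw [← P.X_mul_divX_add, ← P.divX.X_mul_divX_add]
    simp [mul_add, ← mul_assoc, AddMonoidAlgebra.single_mul_single, ha,
      h1.symm, (sub_ne_zero.2 h0).symm]
  simpa using (congrArg (fun x : GA C _ => x.coeff (χ i - χ j)) e1).trans (e2 _)

/-- P2: the nonzero weights of the Lie algebra are roots. -/
theorem tang (h : Q.Ok) {n : ℕ} {u : GL (Fin n) O} (hu : IsRep k u) {χ : Fin n → XL D.r}
    (ht : TorW Q u χ) (g : Pt k O (DualNumber k)) (hg : pm (TrivSqZeroExt.fstHom k k k) g = 1)
    (i j : Fin n) (h0 : (gm g.ofConv u i j).snd ≠ 0) (hij : χ i ≠ χ j) :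
    ∃ p, χ i - χ j = D.rt p := by
  by_contra hn
  push Not at hn
  let f := Algebra.ofId k (DualNumber k)
  let φ := TrivSqZeroExt.fstHom k k k
  obtain ⟨p, rfl⟩ := (h.at' _ f).loc g fun m hm => ⟨k, _, _, inferInstance, φ, fun c hc => by
    by_contra h1
    exact hm.ne_top (m.eq_top_of_isUnit_mem hc
      (TrivSqZeroExt.isUnit_iff_isUnit_fst.2 (Ne.isUnit h1))), _, (hp_cell_one h _).trans hg.symm⟩
  have e := (h.at' _ _).cell_inj ((Q.pm_cell f φ p).symm.trans (hg.trans (hp_cell_one h _).symm))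
  let S : Submonoid (Pt k O (DualNumber k)) :=
    { carrier := {x | pm φ x = 1 ∧ ((hu.pts _ x : Mat n (DualNumber k)) i j).snd = 0}
      one_mem' := ⟨map_one _, by
        rw [map_one, Units.val_one, one_apply_ne fun e => hij (congrArg χ e)]; rfl⟩
      mul_mem' := fun {x y} hx hy => ⟨by rw [map_mul, hx.1, hy.1, one_mul], by
        have : ∀ z : Pt k O (DualNumber k), pm φ z = 1 → ∀ a b,
            ((hu.pts _ z : Mat n (DualNumber k)) a b).fst = (1 : Mat n k) a b := fun z hz a b =>
          congrArg (fun w : GL (Fin n) k => (w : Mat n k) a b)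
            ((congrArg (hu.pts k) hz).trans (map_one _))
        rw [map_mul, Units.val_mul, Matrix.mul_apply, TrivSqZeroExt.snd_sum]
        simp [this _ hx.1, this _ hy.1, hx.2, hy.2, Finset.sum_add_distrib, Matrix.one_apply]⟩ }
  have h1 : ∀ b s, (∀ l, φ (s l) = 0) → Q.un f b s ∈ S := fun b s hs =>
    S.list_prod_mem (l := List.ofFn fun j => Q.xr f b j (s j)) fun x hx => by
      obtain ⟨l, rfl⟩ := List.mem_ofFn.1 hx
      obtain ⟨y, hy, e⟩ := h.xroot b l
      rw [← e]
      refine ⟨by rw [pm_cv, hs, hy.cv_zero], ?_⟩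
      rw [hp_root hu ht hy f ?_ hij (hn _)]
      · rfl
      · have : (s l).fst = 0 := hs l
        ext <;> simp [this]
  have h2 : Q.ta f p.2.1 ∈ S := ⟨by
    rw [Pin.ta, pm_tev, show tm φ p.2.1 = 1 from congrArg (·.2.1) e, h.pre.hom.tev_one], by
    rw [show hu.pts _ (Q.ta f _) = _ from ht _ _]
    exact congrArg TrivSqZeroExt.snd (diagonal_apply_ne _ fun e => hij (congrArg χ e))⟩
  exact h0 (mul_mem (mul_mem (h1 _ _ (congrFun (congrArg (·.1) e))) h2)
    (h1 _ _ (congrFun (congrArg (·.2.2) e)))).2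

/-- P3: roots are primitive in the root lattice. -/
theorem prim (D : RD) (p : Bool × Fin D.N) (N : ℤ) {q : XL D.r}
    (hq : q ∈ Submodule.span ℤ (Set.range D.al)) (e : D.rt p = N • q) : IsUnit N :=
  Int.isUnit_iff.2 (D.rt_prim hq e)

/-- P5: the split torus. -/
theorem split (h : Q.Ok) {n : ℕ} {u : GL (Fin n) O} {G : AffQuot k n} (hu : Emb u G)
    {χ : Fin n → XL D.r} (ht : TorW Q u χ) : G.SplitTorus χ := by
  obtain ⟨H, X, hX⟩ := Real.ofEmb hu k
  have hd : X.Dg Q.τ χ := by
    have := ht _ (uT k (XL D.r))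
    rw [Pin.ta, Subsingleton.elim (Algebra.ofId k _) ((cst k k _).comp (AlgHom.id k k)), tev_uT, bc,
      AddMonoidAlgebra.mapAlgHom_id, pm_id] at this
    exact (hX _ _ _).trans this
  have Z := Real.mzt hd h.pre.zt
  refine ⟨Z.span, fun A _ _ t g hg => (hu.pt A g).2 ⟨Q.ta (Algebra.ofId k A)
    { toFun m := ∏ j, t j ^ m.toAdd j
      map_one' := by simp
      map_mul' a b := by simp [_root_.zpow_add, Finset.prod_mul_distrib] },
    (ht A _).trans (Units.ext hg.symm)⟩, ?_⟩
  rintro ξ ⟨g, hg, e⟩ hξ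
  obtain ⟨x, rfl⟩ := (hu.pt _ g).1 hg
  obtain ⟨τ, hτ⟩ := Z.zt _ _ ((X.mem _ _).2 ⟨x, hX _ _ x⟩) fun a b h => by
    refine (e a b).trans ?_
    rw [hξ a b h, one_apply_ne fun e => h (congrArg χ e)]
    simp
  have e1 : ∀ a, (τ (Multiplicative.ofAdd (χ a)) : DualNumber k) =
      TrivSqZeroExt.inl 1 + TrivSqZeroExt.inr (ξ a a) := fun a => by
    have := e a a
    rw [hτ, one_apply_eq] at this
    exact (diagonal_apply_eq _ a).symm.trans this
  have e2 : ∀ m, (chv τ m).fst = 1 := fun m => by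
    have := mem_of_chi Z.span (MonoidHom.toAdditiveRight ((Units.map
      (TrivSqZeroExt.fstHom k k k : DualNumber k →* k)).comp τ)).ker
      (fun a => congrArg Additive.ofMul (Units.ext (by
        simpa using congrArg TrivSqZeroExt.fst (e1 a)))) m
    exact congrArg (fun x : Additive kˣ => (x.toMul : k)) this
  let l : XL D.r →+ k := AddMonoidHom.mk' (fun m => (chv τ m).snd) fun a b => by
    simp [chv_add, e2, add_comm]
  refine ⟨fun j => l (Pi.single j 1), Matrix.ext fun a b => ?_⟩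
  by_cases hab : a = b
  · subst hab
    have : l (χ a) = ξ a a := (congrArg TrivSqZeroExt.snd (e1 a)).trans (by simp)
    rw [AffQuot.dL, diagonal_apply_eq, ← this]
    conv_lhs => rw [pi_eq_sum_univ' (χ a), map_sum]
    simp only [map_zsmul]
    simp only [zsmul_eq_mul]
  · have := congrArg TrivSqZeroExt.snd (e a b)
    rw [hτ, show tp χ τ a b = 0 from diagonal_apply_ne _ hab] at this
    rw [AffQuot.dL, diagonal_apply_ne _ hab]
    simpa using this.symm

/-- P6: geometric integrality. -/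
theorem geomInt (hG : GI k O) {n : ℕ} {u : GL (Fin n) O} {G : AffQuot k n} (hu : Emb u G) :
    G.GeomIntegral := by
  intro W _ _ f f'
  have := hG (AlgebraicClosure W)
  have : IsDomain (W ⊗[k] O) := Function.Injective.isDomain (Algebra.TensorProduct.map
    (IsScalarTower.toAlgHom k W (AlgebraicClosure W)) (AlgHom.id k O))
    (Module.Flat.rTensor_preserves_injective_linearMap (M := O)
      (IsScalarTower.toAlgHom k W (AlgebraicClosure W)).toLinearMap (algebraMap W _).injective)
  let v : GL (Fin n) (W ⊗[k] O) := gm (Algebra.TensorProduct.includeRight : O →ₐ[k] W ⊗[k] O) u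
  have key : ∀ f, G.Vanishes W f ↔ ev W v f = 0 := fun f =>
    ⟨fun h => h _ v ((hu.pt _ v).2 ⟨WithConv.toConv _, rfl⟩), fun h A _ _ _ _ g hg => by
      obtain ⟨x, rfl⟩ := (hu.pt A g).1 hg
      let φ : W ⊗[k] O →ₐ[W] A :=
        Algebra.TensorProduct.lift (Algebra.ofId W A) x.ofConv fun _ _ => Commute.all _ _
      have e : gm x.ofConv u = gm φ v := Units.ext (Matrix.ext fun a b => by
        simp [φ, v])
      rw [e, ← Co.map_ev, h, map_zero]⟩
  simp only [key, map_mul]
  exact mul_eq_zero.1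

end Pool.Agent.RED.Mo
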