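import Pool.Agent.P.MP_c1f06d_ag.g.Defs
import Pool.Agent.P.MP_c1f06d_ag.g.Hopf
import Pool.Agent.P.MP_c1f06d_ag.g.HClos

open Matrix WithConv Pool.Agent.GR Pool.Agent.GR.Co
open scoped TensorProduct

universe u

namespace Pool.Agent.RED.Mo

variable {k O : Type u} [Field k] [CommRing O] [HopfAlgebra k O] {m : ℕ} {e : Fin m → O}
  {B T T' : Type u} [CommRing B] [Algebra k B] [CommRing T] [Algebra k T] [CommRing T']
  [Algebra k T']

theorem app_nat (c : Hm k k O O B) (f : B →ₐ[k] T) (j : T →ₐ[k] T') (x : Pt k O T) :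
    RED.pm j (app c f x) = app c (j.comp f) (RED.pm j x) := by
  refine WithConv.ext (AlgHom.ext fun a => ?_)
  simp only [app, pm_apply, AlgHom.comp_apply]
  generalize c a = z
  induction z with
  | zero => simp
  | add a b ha hb => simp only [map_add, ha, hb]
  | tmul a b => simp

theorem app_push (c : Hm k k O O B) {B' : Type u} [CommRing B'] [Algebra k B'] (j : B →ₐ[k] B')
    (f : B' →ₐ[k] T) (x : Pt k O T) : app (push c j) f x = app c (f.comp j) x := by
  refine WithConv.ext (AlgHom.ext fun a => ?_)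
  simp only [app, push, AlgHom.comp_apply]
  generalize c a = z
  induction z with
  | zero => simp
  | add a b ha hb => simp only [map_add, ha, hb]
  | tmul a b => simp

theorem app_one (f : B →ₐ[k] T) (x : Pt k O T) :
    app (Algebra.TensorProduct.includeRight : Hm k k O O B) f x = x :=
  WithConv.ext (AlgHom.ext fun a => by simp [app])

/-- The values of the functions `e j` at a point. -/
def evv (e : Fin m → O) (x : Pt k O T) : Fin m → T := fun j => x.ofConv (e j)

theorem evv_pm (f : T →ₐ[k] T') (x : Pt k O T) (ζ : Mat m T) (j : Fin m) :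
    f ((evv e x ᵥ* ζ) j) = (evv e (RED.pm f x) ᵥ* ζ.map f) j := by
  simp only [vecMul, dotProduct, map_sum, map_mul]
  rfl

theorem tens_eq (ζ : Mat m B) (j : Fin m) :
    (evv e (toConv (iL k O B)) ᵥ* ζ.map (iR k O B)) j = ∑ i, e i ⊗ₜ[k] ζ i j := by
  simp [vecMul, dotProduct, evv]

theorem ctr_sum {φ : Fin m → O →ₗ[k] k} (hφ : ∀ i j, φ i (e j) = (1 : Mat m k) i j)
    (v : Fin m → B) (i : Fin m) : ctr (φ i) B (∑ l, e l ⊗ₜ[k] v l) = v i := by
  rw [map_sum, Finset.sum_eq_single i, ctr_tmul, hφ, one_apply_eq, one_smul]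
  · intro l _ hl
    rw [ctr_tmul, hφ, one_apply_ne hl.symm, zero_smul]
  · simp

/-- A matrix is determined by its action on the values. -/
theorem up (he : LinearIndependent k e) {ζ ζ' : Mat m B}
    (h : ∀ (T : Type u) [CommRing T] [Algebra k T] (f : B →ₐ[k] T) (x : Pt k O T),
      evv e x ᵥ* ζ.map f = evv e x ᵥ* ζ'.map f) : ζ = ζ' := by
  obtain ⟨φ, hφ⟩ := Hp.exists_dual he
  ext i j
  have := congrFun (h (O ⊗[k] B) (iR k O B) (toConv (iL k O B))) j
  rw [tens_eq, tens_eq] at this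
  rw [← ctr_sum hφ (fun l => ζ l j) i, this, ctr_sum hφ]

/-- Maps on points over the base `B`. -/
abbrev Fam (k O B : Type u) [Field k] [CommRing O] [HopfAlgebra k O] [CommRing B] [Algebra k B] :=
  ∀ (T : Type u) [CommRing T] [Algebra k T], (B →ₐ[k] T) → Pt k O T → Pt k O T

/-- The matrix `ζ` represents `ψ`. -/
def Rp (e : Fin m → O) (ζ : Mat m B) (ψ : Fam k O B) : Prop :=
  ∀ (T : Type u) [CommRing T] [Algebra k T] (f : B →ₐ[k] T) (x : Pt k O T),
    evv e (ψ T f x) = evv e x ᵥ* ζ.map f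

theorem exists_rp (he : LinearIndependent k e) (ψ : Fam k O B)
    (nat : ∀ (T T' : Type u) [CommRing T] [Algebra k T] [CommRing T'] [Algebra k T']
      (j : T →ₐ[k] T') (f : B →ₐ[k] T) (x : Pt k O T),
        RED.pm j (ψ T f x) = ψ T' (j.comp f) (RED.pm j x))
    (h : ∀ b : B, b ≠ 0 → ∃ (B' : Type u) (_ : CommRing B') (_ : Algebra k B') (j : B →ₐ[k] B')
      (ζ : Mat m B'), j b ≠ 0 ∧ Rp e ζ fun T _ _ f x => ψ T (f.comp j) x) :
    ∃ ζ : Mat m B, Rp e ζ ψ := by
  obtain ⟨φ, hφ⟩ := Hp.exists_dual he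
  let w : Pt k O (O ⊗[k] B) := ψ _ (iR k O B) (toConv (iL k O B))
  have key : ∀ j, evv e w j = ∑ i, e i ⊗ₜ[k] ctr (φ i) B (evv e w j) := by
    intro j
    rw [← sub_eq_zero]
    refine eq_zero_of_ctr _ fun l => by_contra fun hb => ?_
    obtain ⟨B', _, _, p, ζ, h1, h2⟩ := h _ hb
    let P : O ⊗[k] B →ₐ[k] O ⊗[k] B' := Algebra.TensorProduct.map (AlgHom.id k O) p
    have e1 : p.toLinearMap.lTensor O (evv e w j) = ∑ i, e i ⊗ₜ[k] ζ i j := by
      have e2 : RED.pm P w = ψ _ ((iR k O B').comp p) (toConv (iL k O B')) := by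
        refine (nat _ _ P _ _).trans ?_
        rw [Algebra.TensorProduct.map_comp_includeRight]
        congr 1
        exact WithConv.ext (AlgHom.ext fun a => by simp [P])
      rw [← tens_eq, ← h2 (O ⊗[k] B') (iR k O B') (toConv (iL k O B'))]
      exact congrArg (fun y => evv e y j) e2
    refine h1 ((ctr_lTensor l p.toLinearMap _).symm.trans ?_)
    rw [map_sub, e1, map_sum, Finset.sum_congr rfl fun i _ => ?_, sub_self, map_zero]
    rw [LinearMap.lTensor_tmul, ← ctr_lTensor, e1, ctr_sum hφ]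
  refine ⟨of fun i j => ctr (φ i) B (evv e w j), fun T _ _ f x => funext fun j => ?_⟩
  let q : O ⊗[k] B →ₐ[k] T := Algebra.TensorProduct.lift x.ofConv f fun _ _ => Commute.all _ _
  have e2 : RED.pm q w = ψ T f x := by
    refine (nat _ _ q _ _).trans ?_
    rw [Algebra.TensorProduct.lift_comp_includeRight']
    congr 1
    exact WithConv.ext (AlgHom.ext fun a => by simp [q])
  rw [← e2]
  refine (congrArg q (key j)).trans ?_
  simp [q, vecMul, dotProduct, evv]

/-- A basis of the span of a finite family, with the matrices of the maps that preserve it. -/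
theorem exists_basis {ι : Type} [Finite ι] (v : ι → O) : ∃ (m : ℕ) (e : Fin m → O),
    LinearIndependent k e ∧ (∀ a, v a ∈ Submodule.span k (Set.range e)) ∧
    ∀ (B : Type u) [CommRing B] [Algebra k B] (ψ : Fam k O B),
      (∀ a, ∃ (n : ℕ) (σ : Fin n → ι) (c : Fin n → B), ∀ (T : Type u) [CommRing T] [Algebra k T]
        (f : B →ₐ[k] T) (x : Pt k O T),
        (ψ T f x).ofConv (v a) = ∑ b, x.ofConv (v (σ b)) * f (c b)) →
      ∃ ζ : Mat m B, Rp e ζ ψ := by
  obtain ⟨κ, a, ha, hs, hl⟩ := exists_linearIndependent' k v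
  have : Finite κ := Finite.of_injective a ha
  obtain ⟨m, ⟨σ⟩⟩ := Finite.exists_equiv_fin κ
  have hm : ∀ b, v b ∈ Submodule.span k (Set.range (v ∘ a ∘ σ.symm)) := fun b => by
    rw [← Function.comp_assoc, σ.symm.surjective.range_comp, hs]
    exact Submodule.subset_span ⟨b, rfl⟩
  refine ⟨m, v ∘ a ∘ σ.symm, hl.comp σ.symm σ.symm.injective, hm, fun B _ _ ψ h => ?_⟩
  choose n τ c hc using h
  choose β hβ using fun b => (Submodule.mem_span_range_iff_exists_fun k).1 (hm b)
  refine ⟨of fun i j => ∑ b, β (τ _ b) i • c (a (σ.symm j)) b,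
    fun T _ _ f x => funext fun j => ?_⟩
  refine (hc _ T f x).trans ?_
  simp only [vecMul, dotProduct, map_apply, of_apply, map_sum, Finset.mul_sum, map_smul]
  rw [Finset.sum_comm]
  refine Finset.sum_congr rfl fun b _ => ?_
  rw [← hβ (τ _ b), map_sum, Finset.sum_mul]
  refine Finset.sum_congr rfl fun i _ => ?_
  rw [map_smul, smul_mul_assoc, mul_smul_comm]
  rfl

theorem Rp.mul_eq_one (he : LinearIndependent k e) {ζ ζ' : Mat m B} {ψ ψ' : Fam k O B}
    (h : Rp e ζ ψ) (h' : Rp e ζ' ψ')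
    (hi : ∀ (T : Type u) [CommRing T] [Algebra k T] (f : B →ₐ[k] T) (x : Pt k O T),
      ψ' T f (ψ T f x) = x) : ζ * ζ' = 1 :=
  up he fun T _ _ f x => by
    rw [Matrix.map_mul, ← vecMul_vecMul, ← h, ← h', hi, Matrix.map_one _ (map_zero f) (map_one f),
      vecMul_one]

theorem Rp.exists_gl (he : LinearIndependent k e) {ζ ζ' : Mat m B} {ψ ψ' : Fam k O B}
    (h : Rp e ζ ψ) (h' : Rp e ζ' ψ')
    (hi : ∀ (T : Type u) [CommRing T] [Algebra k T] (f : B →ₐ[k] T) (x : Pt k O T),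
      ψ' T f (ψ T f x) = x) : ∃ g : GL (Fin m) B, (g : Mat m B) = ζ :=
  ⟨⟨ζ, ζ', h.mul_eq_one he h' hi, mul_eq_one_comm.1 (h.mul_eq_one he h' hi)⟩, rfl⟩

end Pool.Agent.RED.Mo
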