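import Pool.Agent.P.MP_c1f06d_ag.g.HPin
import Pool.Agent.P.MP_c1f06d_ag.r.TwD

open Matrix Pool.Agent.GR

universe u

namespace Pool.Agent.RED.Mo

section lattice

/-- The root lattice. -/
abbrev hwQ (D : RD) : Submodule ℤ (XL D.r) := Submodule.span ℤ (Set.range D.al)

/-- The map from coordinates to the root lattice. -/
noncomputable def hwL (D : RD) : (Fin D.m → ℤ) →ₗ[ℤ] XL D.r := Fintype.linearCombination ℤ D.al

theorem hwL_inj (D : RD) : Function.Injective (hwL D) :=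
  D.indep.fintypeLinearCombination_injective

theorem hwL_range (D : RD) : LinearMap.range (hwL D) = hwQ D := Fintype.range_linearCombination _ _

theorem hwL_mem (D : RD) (a : Fin D.m → ℤ) : hwL D a ∈ hwQ D :=
  (hwL_range D).le (LinearMap.mem_range_self _ _)

theorem hwL_da {D : RD} (γ : DA D) (a : Fin D.m → ℤ) :
    γ.θ (hwL D a) = hwL D fun i => a (γ.π i) := by
  simp only [hwL, Fintype.linearCombination_apply, map_sum, map_zsmul]
  rw [← Equiv.sum_comp γ.π]
  simp only [γ.al]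

/-- Coordinates along the root lattice and a choice of representatives of its classes. -/
structure HwD (D : RD) {n : ℕ} (χ : Fin n → XL D.r) where
  c : XL D.r → Fin D.m → ℤ
  σ : XL D.r → Option (Fin n)
  hc : ∀ x y, x - y ∈ hwQ D → hwL D (c x - c y) = x - y
  hσ : ∀ x y, x - y ∈ hwQ D → σ x = σ y
  rep : ∀ i, ∃ l, σ (χ i) = some l ∧ χ i - χ l ∈ hwQ D

theorem hw_exists (D : RD) {n : ℕ} (χ : Fin n → XL D.r) : Nonempty (HwD D χ) := by
  classical
  have h1 : ∀ x : XL D.r, ∃ a, hwL D a = x - Quotient.out ((hwQ D).mkQ x) := fun x =>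
    (hwL_range D).ge ((Submodule.Quotient.eq _).1 (Quotient.out_eq ((hwQ D).mkQ x)).symm)
  choose c hc using h1
  have h2 : ∀ x y, x - y ∈ hwQ D → (hwQ D).mkQ x = (hwQ D).mkQ y := fun x y h =>
    (Submodule.Quotient.eq _).2 h
  let s : XL D.r ⧸ hwQ D → Option (Fin n) := fun b =>
    if h : ∃ l, b = (hwQ D).mkQ (χ l) then some h.choose else none
  refine ⟨⟨c, fun x => s ((hwQ D).mkQ x), fun x y h => ?_, fun x y h => by rw [h2 x y h],
    fun i => ?_⟩⟩
  · rw [map_sub, hc, hc, h2 x y h, sub_sub_sub_cancel_right]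
  · have h : ∃ l, (hwQ D).mkQ (χ i) = (hwQ D).mkQ (χ l) := ⟨i, rfl⟩
    exact ⟨h.choose, dif_pos h, (Submodule.Quotient.eq _).1 h.choose_spec⟩

variable {D : RD} {n : ℕ} {χ : Fin n → XL D.r} (W : HwD D χ)

/-- The weights of the wide torus. -/
def HwD.w (x : XL D.r) : Fin (D.m + n) → ℤ :=
  Fin.append (W.c x) fun l => if W.σ x = some l then 1 else 0

theorem HwD.pair_w {T : Type u} [CommRing T] (x : XL D.r) (h : Fin (D.m + n) → T) :
    pair (W.w x) h = pair (W.c x) (fun l => h (Fin.castAdd n l)) +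
      ∑ l, if W.σ x = some l then h (Fin.natAdd D.m l) else 0 := by
  simp [pair, HwD.w, Fin.sum_univ_add]

theorem HwD.c_da (γ : DA D) {x y : XL D.r} (h : x - y ∈ hwQ D) :
    γ.θ x - γ.θ y ∈ hwQ D ∧ ∀ i, W.c (γ.θ x) i - W.c (γ.θ y) i = W.c x (γ.π i) - W.c y (γ.π i) := by
  have e : γ.θ x - γ.θ y = hwL D fun i => (W.c x - W.c y) (γ.π i) := by
    rw [← map_sub, ← W.hc x y h, hwL_da]
  have h1 : γ.θ x - γ.θ y ∈ hwQ D := e ▸ hwL_mem D _
  exact ⟨h1, congrFun (hwL_inj D ((W.hc _ _ h1).trans e))⟩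

/-- The span of the weights, as functions, is stable under diagram automorphisms. -/
theorem HwD.da (γ : DA D) {T : Type u} [CommRing T] (h : Fin (D.m + n) → T) :
    ∃ h' : Fin (D.m + n) → T, ∀ i, pair (W.w (γ.θ (χ i))) h = pair (W.w (χ i)) h' := by
  let h1 : Fin D.m → T := fun l => h (Fin.castAdd n (γ.π.symm l))
  let g : XL D.r → T := fun x => pair (W.w (γ.θ x)) h - pair (W.c x) h1
  have hg : ∀ x y, x - y ∈ hwQ D → g x = g y := fun x y hxy => by
    obtain ⟨e1, e2⟩ := W.c_da γ hxy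
    have e3 : pair (W.c (γ.θ x)) (fun l => h (Fin.castAdd n l)) -
        pair (W.c (γ.θ y)) (fun l => h (Fin.castAdd n l)) = pair (W.c x) h1 - pair (W.c y) h1 := by
      simp only [pair, ← Finset.sum_sub_distrib, ← sub_mul, ← Int.cast_sub, e2]
      rw [← Equiv.sum_comp γ.π fun l => ((W.c x l - W.c y l : ℤ) : T) * h1 l]
      simp only [h1, Equiv.symm_apply_apply]
    simp only [g, W.pair_w, W.hσ _ _ e1]
    linear_combination e3
  refine ⟨Fin.append h1 fun l => g (χ l), fun i => ?_⟩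
  obtain ⟨l, e, hl⟩ := W.rep i
  rw [W.pair_w (χ i), e]
  simp only [Fin.append_left, Fin.append_right, Option.some.injEq, Finset.sum_ite_eq,
    Finset.mem_univ, if_true]
  rw [← hg _ _ hl]
  exact (add_sub_cancel _ _).symm

end lattice

section diag

variable {k : Type u} [Field k] {n : ℕ} {A A' : Type u} [CommRing A] [Algebra k A] [CommRing A']
  [Algebra k A']

omit [Algebra k A] in
theorem hw_conj (a b : Fin n → Aˣ) (g : GL (Fin n) A)
    (h : ∀ i j, g i j = 0 ∨ a i * (a j)⁻¹ = b i * (b j)⁻¹) :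
    dgU a * g * (dgU a)⁻¹ = dgU b * g * (dgU b)⁻¹ := by
  have e : ∀ (a : Fin n → Aˣ) i j, (dgU a * g * (dgU a)⁻¹) i j =
      ((a i * (a j)⁻¹ : Aˣ) : A) * g i j := fun a i j => by
    show (diagonal (fun i => (a i : A)) * (g : Mat n A) *
      diagonal fun i => (((a i)⁻¹ : Aˣ) : A)) i j = _
    rw [mul_diagonal, diagonal_mul, Units.val_mul, mul_right_comm]
  ext i j
  rw [e, e]
  rcases h i j with h | h
  · rw [h, mul_zero, mul_zero]
  · rw [h]

theorem hw_gm (f : A →ₐ[k] A') (a : Fin n → Aˣ) :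
    gm f (dgU a) = dgU fun i => Units.map (f : A →* A') (a i) :=
  Units.ext (diagonal_map (map_zero (f : A →+* A')))

/-- A torus that normalises `G` is centralised by `G` modulo the Lie algebra of `G`. -/
theorem hw_ad {G : AffQuot k n} {r : ℕ} {χ' : Fin n → Fin r → ℤ}
    (hN : ∀ (t : Fin r → (DualNumber A)ˣ) (d g : GL (Fin n) (DualNumber A)),
      (d : Mat n (DualNumber A)) = AffQuot.dT χ' t → G.Pt g → G.Pt (d * g * d⁻¹))
    {g : GL (Fin n) A} (hg : G.Pt g) (h : Fin r → A) :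
    G.toHS.InLie (AffQuot.dL χ' h - GR.cj g (AffQuot.dL χ' h)) := by
  obtain ⟨t, ht⟩ := TwD.dualU_dL χ' h
  have h1 := hg.map (TrivSqZeroExt.inlAlgHom k A A)
  have h2 := G.toHS.memM_val.2 ((G.mem_toHS_G _).2 ((hN t _ _ ht h1).mul h1.inv))
  rw [Units.val_mul, Units.val_mul, Units.val_mul, dualU_val, dualU_inv_val, gm_val, gm_inv_val,
    ← dual_zero, ← dual_zero, dual_mul, dual_mul, dual_mul] at h2
  refine (congrArg G.toHS.MemM ?_).mp h2
  congr 1
  · rw [one_mul, mul_one, Units.mul_inv]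
  · rw [GR.cj, mul_zero, zero_add, one_mul, mul_zero, zero_add, mul_one, add_mul, mul_neg, neg_mul,
      mul_assoc (AffQuot.dL χ' h), Units.mul_inv, mul_one, neg_add_eq_sub]

/-- The space `Lie G + Lie T'` over `k`. -/
noncomputable def hwV (G : AffQuot k n) {r : ℕ} (χ' : Fin n → Fin r → ℤ) : Submodule k (Mat n k) :=
  G.toHS.lie ⊔ LinearMap.range (TwD.dLl χ' k)

theorem hw_single {r : ℕ} (χ' : Fin n → Fin r → ℤ) (h : Fin r → A) :
    AffQuot.dL χ' h = ∑ l, h l • (AffQuot.dL χ' (Pi.single l (1 : k))).map (algebraMap k A) := by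
  have e : h = ∑ l, h l • fun j => algebraMap k A ((Pi.single l (1 : k) : Fin r → k) j) := by
    funext j
    simp [Finset.sum_apply, Pi.single_apply, apply_ite (algebraMap k A)]
  conv_lhs => rw [e]
  simp only [TwD.dL_map]
  exact (map_sum (TwD.dLl χ' A) _ _).trans
    (Finset.sum_congr rfl fun l _ => map_smul (TwD.dLl χ' A) _ _)

theorem hw_sp {G : AffQuot k n} {r : ℕ} {χ' : Fin n → Fin r → ℤ} {Y : Mat n A} :
    Y ∈ sp (hwV G χ') A ↔ ∃ h : Fin r → A, G.toHS.InLie (Y - AffQuot.dL χ' h) := by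
  constructor
  · intro hY
    have h2 : sp (hwV G χ') A ≤ G.toHS.gA A ⊔ LinearMap.range (TwD.dLl χ' A) := by
      rw [sp, Submodule.span_le]
      rintro _ ⟨l, rfl⟩
      obtain ⟨Z, hZ, e⟩ := sbas_mem (A := A) (hwV G χ') l
      obtain ⟨ξ, hξ, _, ⟨h, rfl⟩, rfl⟩ := Submodule.mem_sup.1 hZ
      rw [e, Matrix.map_add _ (map_add _)]
      exact Submodule.add_mem_sup ((G.toHS.mem_lie.1 hξ).map (Algebra.ofId k A))
        ⟨_, (TwD.dL_map χ' (algebraMap k A) h).symm⟩
    obtain ⟨ξ, hξ, _, ⟨h, rfl⟩, rfl⟩ := Submodule.mem_sup.1 (h2 hY)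
    exact ⟨h, (add_sub_cancel_right ξ _).symm ▸ hξ⟩
  · rintro ⟨h, hh⟩
    rw [← sub_add_cancel Y (AffQuot.dL χ' h)]
    refine add_mem (mem_sp.2 ((HS.inLie_iff_inS.1 hh).mono le_sup_left)) ?_
    rw [hw_single (k := k)]
    exact Submodule.sum_mem _ fun l _ => Submodule.smul_mem _ _
      (mem_sp.2 (inS_of_mem _ (Submodule.mem_sup_right ⟨_, rfl⟩)))

end diag

variable {k O : Type u} [Field k] [CommRing O] [HopfAlgebra k O] {D : RD} {Q : Pin D k O k}

theorem hw_norm (h : Q.Ok) {n : ℕ} {u : GL (Fin n) O} {G : AffQuot k n} (hu : Emb u G)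
    {χ : Fin n → XL D.r} (ht : TorW Q u χ) (W : HwD D χ) (A : Type u) [CommRing A] [Algebra k A]
    (t : Fin (D.m + n) → Aˣ) (d g : GL (Fin n) A)
    (hd : (d : Mat n A) = AffQuot.dT (fun i => W.w (χ i)) t) (hg : G.Pt g) :
    G.Pt (d * g * d⁻¹) := by
  have h0 : ∀ i j, g i j = 0 ∨ χ i - χ j ∈ hwQ D := fun i j => by
    obtain ⟨x, rfl⟩ := (hu.pt A g).1 hg
    exact or_iff_not_imp_right.2 (cen_mat h hu.rep ht x i j)
  let φ : GA A (Fin D.m → ℤ) →ₐ[k] GA A (XL D.r) :=
    AddMonoidAlgebra.mapDomainAlgHom k A (hwL D).toAddMonoidHom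
  have hφ : Function.Injective φ := AddMonoidAlgebra.mapDomain_injective (hwL_inj D)
  have e1 : φ.comp (cst k A _) = cst k A _ := AlgHom.ext fun a => by
    simp [φ, cst_apply]
  have e2 : ∀ a, Units.map (φ : GA A (Fin D.m → ℤ) →* GA A (XL D.r)) (uu A a) = uu A (hwL D a) :=
    fun a => Units.ext (by simp [φ, uu])
  have h1 : G.Pt (dgU fun i => uu A (χ i)) := (hu.pt _ _).2 ⟨_, ht _ (utp _ A)⟩
  have h2 : G.Pt (dgU (fun i => uu A (W.c (χ i))) * gm (cst k A _) g *
      (dgU fun i => uu A (W.c (χ i)))⁻¹) := by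
    refine AffQuot.Pt.of_inj φ hφ ?_
    rw [map_mul, map_mul, map_inv, hw_gm, Co.gm_gm, e1, hw_conj _ fun i => uu A (χ i)]
    · exact (h1.mul (hg.map _)).mul h1.inv
    · refine fun i j => (h0 i j).imp (fun e => ?_) fun e => ?_
      · rw [Co.gm_apply, e, map_zero]
      · rw [e2, e2, ← uu_neg, ← uu_neg, ← uu_add, ← uu_add, ← sub_eq_add_neg, ← sub_eq_add_neg,
          ← map_sub, W.hc _ _ e]
  let τ : TP (Fin D.m → ℤ) A :=
    { toFun := fun x => ∏ l, t (Fin.castAdd n l) ^ x.toAdd l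
      map_one' := by simp
      map_mul' := fun x y => by simp [_root_.zpow_add, Finset.prod_mul_distrib] }
  have e3 : ∀ a, Units.map (tl (AlgHom.id k A) τ : GA A (Fin D.m → ℤ) →* A) (uu A a) =
      ∏ l, t (Fin.castAdd n l) ^ a l := fun a => Units.ext (by
    show tl (AlgHom.id k A) τ (AddMonoidAlgebra.single a 1) = _
    rw [tl_single, map_one, one_mul]
    rfl)
  have h3 := h2.map (tl (AlgHom.id k A) τ)
  rw [map_mul, map_mul, map_inv, hw_gm, Co.gm_gm, tl_comp_cst, Co.gm_id] at h3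
  rw [show d = dgU fun i => ∏ j, t j ^ W.w (χ i) j from Units.ext hd]
  refine hw_conj _ _ g (fun i j => (h0 i j).imp_right fun e => ?_) ▸ h3
  simp only [e3, HwD.w, Fin.prod_univ_add, Fin.append_left, Fin.append_right, W.hσ _ _ e]
  rw [mul_inv, mul_mul_mul_comm, mul_inv_cancel, mul_one]

theorem hw_roots (h : Q.Ok) {n : ℕ} {u : GL (Fin n) O} {G : AffQuot k n} (hu : Emb u G)
    {χ : Fin n → XL D.r} (ht : TorW Q u χ) (W : HwD D χ) (ξ : Mat n k) (hξ : G.InLie ξ)
    (i j : Fin n) (h0 : ξ i j ≠ 0) (hij : χ i ≠ χ j) :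
    ∃ l, ((W.w (χ i) l - W.w (χ j) l : ℤ) : k) ≠ 0 := by
  obtain ⟨g, hg, e⟩ := hξ
  obtain ⟨x, rfl⟩ := (hu.pt _ g).1 hg
  have h1 : (gm x.ofConv u i j).snd ≠ 0 := by
    rw [e]
    simpa using h0
  have h2 : pm (TrivSqZeroExt.fstHom k k k) x = 1 := by
    have e1 : gm (pm (TrivSqZeroExt.fstHom k k k) x).ofConv u = 1 := by
      ext a b
      have := congrArg TrivSqZeroExt.fst (e a b)
      simpa using this
    have e2 : gm (1 : Pt k O k).ofConv u = 1 := by
      have := hu.rep k 1 1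
      rw [mul_one] at this
      exact left_eq_mul.1 this
    refine pt_ext fun a => ?_
    obtain ⟨b, rfl⟩ := hu.surj a
    rw [Co.map_ev, Co.map_ev, e1, e2]
  obtain ⟨p, hp⟩ := tang h hu.rep ht x h2 i j h1 hij
  have h3 : χ i - χ j ∈ hwQ D := by
    by_contra hn
    exact h1 (by rw [cen_mat h hu.rep ht x i j hn]; rfl)
  by_contra hn
  have h4 : ∀ l, (ringChar k : ℤ) ∣ (W.c (χ i) - W.c (χ j)) l := fun l => by
    rw [← CharP.intCast_eq_zero_iff k]
    by_contra h5
    exact hn ⟨Fin.castAdd n l, by simpa [HwD.w] using h5⟩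
  choose b hb using h4
  have h5 : D.rt p = (ringChar k : ℤ) • hwL D b := by
    rw [← hp, ← W.hc _ _ h3, ← map_smul]
    exact congrArg _ (funext hb)
  have h6 := Int.isUnit_iff_natAbs_eq.1 (prim D p _ (hwL_mem D b) h5)
  exact CharP.ringChar_ne_one (R := k) (by simpa using h6)

/-- An element that centralises `G` fixes `Lie G` and the diagonal matrices of type `χ`. -/
theorem hw_cen {n : ℕ} {u : GL (Fin n) O} {G : AffQuot k n} (hu : Emb u G)
    {χ : Fin n → XL D.r} (ht : TorW Q u χ) {T : Type u} [CommRing T] [Algebra k T]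
    {l : GL (Fin n) T} (hl : ∀ (T' : Type u) [CommRing T'] [Algebra k T'] (f : T →ₐ[k] T')
      (y : Pt k O T'), Commute (gm f l) (gm y.ofConv u)) :
    (∀ ξ : Mat n T, G.toHS.InLie ξ → GR.cj l ξ = ξ) ∧
      ∀ f : XL D.r → T, GR.cj l (diagonal fun i => f (χ i)) = diagonal fun i => f (χ i) := by
  have key : ∀ ξ : Mat n T, (l : Mat n T) * ξ = ξ * l → GR.cj l ξ = ξ := fun ξ e => by
    rw [GR.cj, e, mul_assoc, Units.mul_inv, mul_one]
  refine ⟨fun ξ hξ => key ξ ?_, fun f => key _ ?_⟩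
  · obtain ⟨y, hy⟩ := (hu.pt _ _).1 ((G.mem_toHS_G _).1 ((G.toHS.dualU_mem_G ξ).2 hξ))
    have e := congrArg Units.val (hl _ (TrivSqZeroExt.inlAlgHom k T T) y).eq
    rw [hy, Units.val_mul, Units.val_mul, dualU_val, gm_val, ← dual_zero, dual_mul, dual_mul] at e
    ext i j
    have e' := congrArg (fun M : Mat n (DualNumber T) => (M i j).snd) e
    simpa only [dual_snd, zero_mul, mul_zero, add_zero, zero_add] using e'
  · ext i j
    rw [mul_diagonal, diagonal_mul]
    by_cases hij : χ i = χ j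
    · rw [hij, mul_comm]
    have e := congrArg (fun M : GL (Fin n) (GA T (XL D.r)) => M i j)
      (hl _ (cst k T (XL D.r)) (Q.ta (Algebra.ofId k _) (utp _ T))).eq
    rw [ht] at e
    have e' : (AddMonoidAlgebra.single 0 (l i j) : GA T (XL D.r)) *
        AddMonoidAlgebra.single (χ j) 1 =
        AddMonoidAlgebra.single (χ i) 1 * AddMonoidAlgebra.single 0 (l i j) :=
      (mul_diagonal _ _ i j).symm.trans (e.trans (diagonal_mul _ _ i j))
    have e'' : l i j = 0 := by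
      simpa [AddMonoidAlgebra.single_mul_single, hij] using
        congrArg (fun x : GA T (XL D.r) => x.coeff (χ j)) e'
    rw [e'', zero_mul, mul_zero]

/-- P7: the wide torus. The group `H` is the closure of products `l * x * s`, where `l` centralises
`G` and `s` permutes the weights by an automorphism that preserves the root lattice. -/
theorem wide (h : Q.Ok) {n : ℕ} {u : GL (Fin n) O} {G H : AffQuot k n} (hu : Emb u G)
    {χ : Fin n → XL D.r} (ht : TorW Q u χ)
    (hH : ∀ F : ∀ (T : Type u) [CommRing T] [Algebra k T], GL (Fin n) T → T,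
      (∀ (T T' : Type u) [CommRing T] [Algebra k T] [CommRing T'] [Algebra k T'] (f : T →ₐ[k] T')
        (η : GL (Fin n) T), f (F T η) = F T' (gm f η)) →
      (∀ (T : Type u) [CommRing T] [Algebra k T] (l s : GL (Fin n) T) (x : Pt k O T) (γ : DA D),
        (∀ (T' : Type u) [CommRing T'] [Algebra k T'] (f : T →ₐ[k] T') (y : Pt k O T'),
          Commute (gm f l) (gm y.ofConv u)) →
        (∀ i j, γ.θ (χ i) ≠ χ j → s i j = 0) → F T (l * gm x.ofConv u * s) = 0) →
      ∀ (T : Type u) [CommRing T] [Algebra k T] (η : GL (Fin n) T), H.Pt η → F T η = 0) :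
    ∃ (r' : ℕ) (χ' : Fin n → Fin r' → ℤ), G.WideTorus H χ χ' := by
  obtain ⟨W⟩ := hw_exists D χ
  let χ' : Fin n → Fin (D.m + n) → ℤ := fun i => W.w (χ i)
  refine ⟨_, χ', hw_norm h hu ht W, fun A _ _ η a hη => ?_, hw_roots h hu ht W⟩
  let V := hwV G χ'
  have key : ∀ Z ∈ LinearMap.range (TwD.dLl χ' k),
      GR.cj η (Z.map (algebraMap k A)) ∈ sp V A := by
    rintro _ ⟨b, rfl⟩
    let Y : ∀ (T : Type u) [CommRing T] [Algebra k T], GL (Fin n) T → Mat n T := fun T _ _ η =>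
      GR.cj η ((AffQuot.dL χ' b).map (algebraMap k T))
    refine mem_sp.2 ⟨scrd V (Y A η), Matrix.ext fun i j => sub_eq_zero.1 ?_⟩
    refine hH (fun T _ _ η => svec V (scrd V (Y T η)) i j - Y T η i j) ?_ ?_ A η hη
    · intro T T' _ _ _ _ f η
      have e : (Y T η).map f = Y T' (gm f η) :=
        (GR.cj_map f η _).trans (congrArg _ (Matrix.ext fun _ _ => f.commutes _))
      have e' := svec_map V f (scrd V (Y T η))
      simp only [← scrd_map, e] at e'
      rw [map_sub, ← e', ← e]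
      rfl
    · intro T _ _ l s x γ hl hs
      obtain ⟨c1, c2⟩ := hw_cen hu ht hl
      obtain ⟨b', hb'⟩ := W.da γ fun j => algebraMap k T (b j)
      have e1 : GR.cj s ((AffQuot.dL χ' b).map (algebraMap k T)) = AffQuot.dL χ' b' := by
        rw [TwD.dL_map, GR.cj, Units.mul_inv_eq_iff_eq_mul, TwD.dL_eq, TwD.dL_eq]
        ext a a'
        rw [mul_diagonal, diagonal_mul]
        by_cases ha : γ.θ (χ a) = χ a'
        · rw [← hb', ha, mul_comm]
        · rw [hs a a' ha, zero_mul, mul_zero]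
      have h1 := hw_ad (hw_norm h hu ht W (DualNumber T)) ((hu.pt _ _).2 ⟨x, rfl⟩) b'
      have e2 := c1 _ h1
      have e3 : GR.cj l (AffQuot.dL χ' b') = AffQuot.dL χ' b' := c2 fun y => pair (W.w y) b'
      rw [GR.cj_sub', e3, GR.cj_cj] at e2
      have h2 : Y T (l * gm x.ofConv u * s) ∈ sp V T := by
        refine hw_sp.2 ⟨b', ?_⟩
        show G.toHS.InLie (GR.cj _ _ - _)
        rw [← GR.cj_cj, e1, ← neg_sub, e2]
        exact h1.neg
      rw [(mem_sp.1 h2).svec_scrd, sub_self]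
  have h1 : GR.cj η (AffQuot.dL χ' a) ∈ sp V A := by
    rw [hw_single (k := k), GR.cj_sum]
    refine Submodule.sum_mem _ fun l _ => ?_
    rw [GR.cj_smul]
    exact Submodule.smul_mem _ _ (key _ ⟨_, rfl⟩)
  obtain ⟨a', ha'⟩ := hw_sp.1 h1
  exact ⟨a', (TwD.inLie_iff _).2 ha'⟩

end Pool.Agent.RED.Mo
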