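import Pool.Agent.P.MP_c1f06d_ag.g.HGood
import Pool.Agent.P.MP_c1f06d_ag.g.HDbl
import Pool.Agent.P.MP_c1f06d_ag.g.HWide
import Pool.Agent.P.MP_c1f06d_ag.g.HGrp
import Pool.Agent.P.MP_c1f06d_ag.g.HYon

open Matrix WithConv Pool.Agent.GR Pool.Agent.GR.Co Pool.Agent.GR.AQ
open scoped TensorProduct

universe u

namespace Pool.Agent.RED.Mo

variable {k O : Type u} [Field k] [CommRing O] [HopfAlgebra k O] {Γ : Type} {m : ℕ}
  {T T' : Type u} [CommRing T] [Algebra k T] [CommRing T'] [Algebra k T'] {a : Fin m → ℤ}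

omit [Algebra k T] in
theorem dblU_mul {g g' : GL (Fin m) T} (h : InP a (g : Mat m T)) (h' : InP a (g' : Mat m T))
    {g'' : GL (Fin m) T} (h'' : InP a (g'' : Mat m T)) (e : g * g' = g'') :
    dblU g h * dblU g' h' = dblU g'' h'' :=
  Units.ext (by subst e; exact (dbl_mul h h').symm)

theorem gm_dblU (f : T →ₐ[k] T') {g : GL (Fin m) T} (h : InP a (g : Mat m T)) {g' : GL (Fin m) T'}
    (h' : InP a (g' : Mat m T')) (e : gm f g = g') : gm f (dblU g h) = dblU g' h' :=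
  Units.ext (by subst e; exact dbl_map (f : T →+* T') a _)

theorem inP_gm (f : T →ₐ[k] T') {g : GL (Fin m) T} (h : InP a (g : Mat m T)) :
    InP a (gm f g : Mat m T') := fun i j e => by rw [Co.gm_apply, h i j e, map_zero]

omit [Algebra k T] in
theorem dblU_conj {η g g' : GL (Fin m) T} (hη : InP a (η : Mat m T)) (h : InP a (g : Mat m T))
    (h' : InP a (g' : Mat m T)) (e : η * g * η⁻¹ = g') :
    dblU η hη * dblU g h * (dblU η hη)⁻¹ = dblU g' h' := by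
  rw [mul_inv_eq_iff_eq_mul] at e ⊢
  rw [dblU_mul hη h (hη.mul h) rfl, dblU_mul h' hη (hη.mul h) e.symm]

/-- The weights of the doubled representation. -/
def dw {M : Type} (χ : Fin m → M) (i : Fin (m + m)) : M :=
  χ (Sum.elim id id (finSumFinEquiv.symm i))

omit [Algebra k T] in
theorem dbl_supp {M : Type} {χ : Fin m → M} {P : M → M → Prop} {X : Mat m T}
    (h : ∀ i j, P (χ i) (χ j) → X i j = 0) (i j : Fin (m + m)) (e : P (dw χ i) (dw χ j)) :
    dbl a X i j = 0 := by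
  obtain ⟨p, rfl⟩ := finSumFinEquiv.surjective i
  obtain ⟨q, rfl⟩ := finSumFinEquiv.surjective j
  simp only [dw, Equiv.symm_apply_apply] at e
  rw [dbl_eq, blk_apply]
  rcases p with p | p <;> rcases q with q | q
  · exact h p q e
  · rfl
  · rfl
  · rw [fromBlocks_apply₂₂, lv, of_apply, h p q e, ite_self]

omit [Algebra k T] in
theorem dbl_diag {M : Type} (χ : Fin m → M) (t : M → T) :
    dbl a (diagonal fun i => t (χ i)) = diagonal fun i => t (dw χ i) := by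
  have e : InL a (diagonal fun i => t (χ i)) := fun i j e =>
    diagonal_apply_ne _ fun h => e (h ▸ rfl)
  rw [dbl_eq, e.lv_eq, blk, fromBlocks_diagonal, reindex_apply, submatrix_diagonal_equiv]
  congr 1
  funext i
  simp only [dw, Function.comp_apply]
  cases finSumFinEquiv.symm i <;> rfl

theorem model' {D : RD} {Q : Pin D k O k}
    (hu : ∀ (φ ψ : Hm k k O O k) (θ : XL D.r →+ XL D.r) (π : Fin D.m → Fin D.m),
      IsMul φ → IsMul ψ → RespT φ Q Q θ π → RespT ψ Q Q θ π → φ = ψ)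
    [PerfectField k] [Algebra.Smooth k O] (hG : GI k O) (hF : FK k O)
    (h : Q.Ok) [Finite Γ] (γ : Γ → DA D) (d : Γ → Hm k k O O k)
    (hd : ∀ a, IsIso (d a) ∧ RespT (d a) Q Q (γ a).θ (γ a).π)
    (h1 : ∃ a, (γ a).θ = AddEquiv.refl _)
    (hm : ∀ a b, ∃ c, (γ c).θ = (γ a).θ.trans (γ b).θ) (hi : ∀ a, ∃ b, (γ b).θ = (γ a).θ.symm) :
    Nonempty (Model Q d) := by
  obtain ⟨g1, g2, g3⟩ := grp hu γ d hd h1 hm hi
  have hp : Gp d := ⟨fun a => (hd a).1.1, g1, g2, g3⟩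
  obtain ⟨m, ⟨E0⟩⟩ := exists_bi hp
  obtain ⟨E, a, χ, hP, crG, crH, tor⟩ := E0.exists_good hp hG h.pre.hom
  obtain ⟨kG, kH⟩ := Bi.ker_fin hp hG hF hP
  have pR : ∀ (T : Type u) [CommRing T] [Algebra k T] (x : Pt k O T), InP a (E.R T x : Mat m T) :=
    fun T _ _ x => hP T _ (Bi.gen_R hp x).vz
  have pL : ∀ (T : Type u) [CommRing T] [Algebra k T] (x : Pt k O T), InP a (E.L T x : Mat m T) :=
    fun T _ _ x => hP T _ (Bi.gen_L hp x).vz
  have pG : ∀ (T : Type u) [CommRing T] [Algebra k T] (g : GL (Fin m) T), Vz E.IG g →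
      InP a (g : Mat m T) := fun T _ _ g hg => by
    obtain ⟨x, rfl⟩ := (E.vz_IG g).1 hg
    exact pR T x
  have := smooth_of_isGrp E.isGrp_IG (E.red_IG hG)
  have := smooth_of_isGrp (Bi.isGrp_IH (E := E) hp) (E.red_IH hG)
  obtain ⟨G, hGq⟩ := aq_dbl k (AlgebraicClosure k) E.IG E.isGrp_IG a pG crG kG
  obtain ⟨H, hHq⟩ := aq_dbl k (AlgebraicClosure k) E.IH (Bi.isGrp_IH hp) a hP crH kH
  have pr : InP a (E.r : Mat m O) := pR O (toConv (AlgHom.id k O))
  let u := dblU E.r pr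
  have eu : ∀ (T : Type u) [CommRing T] [Algebra k T] (x : Pt k O T),
      gm x.ofConv u = dblU (E.R T x) (pR T x) := fun T _ _ x => gm_dblU _ _ _ rfl
  have emb : Emb u G := ⟨fun T _ _ x y => by
      rw [eu, eu, eu, dblU_mul _ _ (pR T (x * y)) ((E.R T).map_mul x y).symm],
    dblU_surj pr E.surj_r, fun T _ _ g => (hGq T g).trans ⟨fun ⟨ζ, h2, h3⟩ => by
      obtain ⟨x, rfl⟩ := (E.vz_IG ζ).1 h2
      exact ⟨x, (eu T x).trans (Units.ext h3.symm)⟩, fun ⟨x, hx⟩ =>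
      ⟨E.R T x, (E.vz_IG _).2 ⟨x, rfl⟩, by rw [← hx, eu]; rfl⟩⟩⟩
  have tr : ∀ (T : Type u) [CommRing T] [Algebra k T] (t : TP (XL D.r) T),
      (E.R T (Q.ta (Algebra.ofId k T) t) : Mat m T) =
        diagonal fun i => chv t (χ i) := fun T _ _ t => by
    have := congrArg (gm (tl (Algebra.ofId k T) t)) tor
    rw [Bi.gm_R] at this
    refine (congrArg Units.val this).trans (Matrix.ext fun i j => ?_)
    rw [Co.gm_apply]
    show tl _ t (diagonal (fun i => AddMonoidAlgebra.single (χ i) (1 : k)) i j) = _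
    rw [diagonal_apply, diagonal_apply]
    split_ifs
    · rw [tl_single, map_one, one_mul]
    · exact map_zero _
  have ht : TorW Q u (dw χ) := fun T _ _ t => Units.ext (by
    rw [eu]
    show dbl a _ = _
    rw [tr, dbl_diag χ (chv t)]
    rfl)
  have hs : ∀ b i j, (γ b).θ (χ i) ≠ χ j → E.s b i j = 0 := fun b i j e => by
    have h2 := congrArg (fun g : GL (Fin m) (GA k (XL D.r)) => g i j)
      (Bi.s_R (E := E) hp b (Q.ta (Algebra.ofId k _) (utp _ k)))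
    have h3 : ap (d b) (Q.ta (Algebra.ofId k (GA k (XL D.r))) (utp _ k)) =
        Q.ta (Algebra.ofId k _) (twp (utp _ k) (γ b).θ) :=
      ((hd b).2 _ (Algebra.ofId k _)).1 (utp _ k)
    simp only [h3, Units.val_mul, tr, mul_diagonal, diagonal_mul] at h2
    have h4 : AddMonoidAlgebra.single 0 (E.s b i j) * AddMonoidAlgebra.single (χ j) (1 : k) =
        AddMonoidAlgebra.single ((γ b).θ (χ i)) (1 : k) *
          AddMonoidAlgebra.single 0 (E.s b i j) := h2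
    rw [AddMonoidAlgebra.single_mul_single, AddMonoidAlgebra.single_mul_single, zero_add, add_zero,
      mul_one, one_mul] at h4
    have h5 := congrArg (fun z : GA k (XL D.r) => z.coeff (χ j)) h4
    simpa [e] using h5
  obtain ⟨r', χ', hW⟩ := wide (H := H) h emb ht fun F nat h0 T _ _ η hη => by
    obtain ⟨ζ, h2, h3⟩ := (hHq T η).1 hη
    have pu := hP _ _ (vz_uq E.IH)
    have h4 : F _ (dblU (uq E.IH) pu) = 0 := clI_sep E.w _ fun b => by
      have ps := hP (O ⊗[k] O) _ (Bi.gen_s (E := E) b).vz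
      have vb : Vz E.IH (E.w b) := vz_clI E.w b
      refine (nat _ (O ⊗[k] O) vb.lift _).trans ?_
      rw [gm_dblU _ pu (hP _ _ vb) vb.gm_lift, ← dblU_mul (g := E.L _ (toConv (iL k O O)) *
          E.R _ (toConv (iR k O O))) ((pL _ _).mul (pR _ _)) ps (hP _ _ vb) rfl,
        ← dblU_mul (pL _ _) (pR _ _) _ rfl, ← eu]
      refine h0 _ _ _ _ (γ b) (fun T' _ _ f y => ?_) fun i j e => dbl_supp
        (P := fun x y => (γ b).θ x ≠ y) (fun i j e => ?_) i j e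
      · rw [eu, gm_dblU f _ (pL T' _) (E.gm_L f _), Commute, SemiconjBy,
          dblU_mul _ _ ((pL _ _).mul (pR _ _)) rfl,
          dblU_mul _ _ ((pL _ _).mul (pR _ _)) (E.L_R _ _).eq.symm]
      · rw [Co.gm_apply, hs b i j e, map_zero]
    have h5 := nat _ T h2.lift (dblU (uq E.IH) pu)
    rw [h4, map_zero, gm_dblU _ pu (hP _ _ h2) h2.gm_lift] at h5
    rw [show η = dblU ζ (hP _ _ h2) from Units.ext h3]
    exact h5.symm
  refine ⟨⟨m + m, r', G, H, dw χ, χ', fun T _ _ η g hη hg => ?_, geomInt hG emb, split h emb ht,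
    hW, u, emb, ht, fun B _ _ c η => 
      ∃ (ζ : GL (Fin m) B) (p : InP a (ζ : Mat m B)), E.Rl c ζ ∧ η = dblU ζ p,
    fun B _ _ c hc hl => ?_, fun B _ _ c η η' hc ⟨ζ, p, h2, h3⟩ ⟨ζ', p', h4, h5⟩ => ?_,
    fun B B' _ _ _ _ j c η ⟨ζ, p, h2, h3⟩ =>
      ⟨_, inP_gm j p, h2.push j, h3 ▸ gm_dblU j p _ rfl⟩,
    fun B _ _ => ⟨1, InP.one a, E.rl_one, Units.ext (dbl_one a).symm⟩,
    fun B _ _ c c' c'' η η' ⟨ζ, p, h2, h3⟩ ⟨ζ', p', h4, h5⟩ e =>
      ⟨ζ * ζ', p.mul p', h2.mul h4 e, by rw [h3, h5]; exact dblU_mul _ _ _ rfl⟩,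
    fun B _ _ c η hc ⟨ζ, p, h2, h3⟩ T _ _ f x => ?_⟩⟩
  · obtain ⟨ζ, h2, h3⟩ := (hHq T η).1 hη
    obtain ⟨ξ, h4, h5⟩ := (hGq T g).1 hg
    have h6 := Bi.normal hp h2 h4
    rw [show η = dblU ζ (hP _ _ h2) from Units.ext h3, show g = dblU ξ (pG _ _ h4) from
      Units.ext h5, dblU_conj _ _ (pG _ _ h6) rfl]
    exact (hGq T _).2 ⟨_, h6, rfl⟩
  · obtain ⟨ζ, h2, h3⟩ := Bi.exists_rl (E := E) hc hl
    exact ⟨dblU ζ (hP _ _ h3), ⟨ζ, _, h2, rfl⟩, (hHq B _).2 ⟨ζ, h3, rfl⟩⟩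
  · obtain rfl := h2.uniq hc h4
    rw [h3, h5]
  · rw [h3, gm_dblU f p (inP_gm f p) rfl, eu, eu, dblU_conj _ _ _ (h2.conjR hc f x)]

end Pool.Agent.RED.Mo
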