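import Pool.Agent.P.MP_c1f06d_ag.g.HsDefs

open Matrix

universe u

namespace Pool.Agent.GR

/-- The rational line through `α`. -/
def mline {Γ : Type} [AddCommGroup Γ] (α : Γ) : AddSubgroup Γ where
  carrier := {m | ∃ (p : ℤ) (q : ℕ), 0 < q ∧ (q : ℤ) • m = p • α}
  zero_mem' := ⟨0, 1, one_pos, by simp⟩
  add_mem' := by
    rintro a b ⟨p, q, hq, h⟩ ⟨p', q', hq', h'⟩
    refine ⟨q' * p + q * p', q * q', Nat.mul_pos hq hq', ?_⟩
    rw [smul_add, add_smul, mul_smul (q' : ℤ) p, ← h, mul_smul (q : ℤ) p', ← h', smul_smul,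
      smul_smul, mul_comm (q' : ℤ) q, Nat.cast_mul]
  neg_mem' := by
    rintro a ⟨p, q, hq, h⟩
    exact ⟨-p, q, hq, by rw [smul_neg, h, neg_smul]⟩

variable {n r : ℕ} {χ : Fin n → Fin r → ℤ} {A : Type u} [CommRing A]

/-- `M` commutes with the kernel of `α`. -/
def InLine (χ : Fin n → Fin r → ℤ) (α : Fin r → ℤ) (M : Mat n A) : Prop :=
  ∀ i j, χ i - χ j ∉ mline α → M i j = 0

/-- `g` normalises the torus and acts on characters by a reflection `σ` in `α`. -/
structure Flip (χ : Fin n → Fin r → ℤ) (α : Fin r → ℤ) (g : GL (Fin n) A)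
    (σ : (Fin r → ℤ) →+ (Fin r → ℤ)) : Prop where
  intw : Intw χ (fun j => σ (χ j)) (g : Mat n A)
  line : ∀ x, σ x - x ∈ mline α
  neg : σ α = -α
  invol : ∀ x, σ (σ x) = x

theorem mray_le {α δ : Fin r → ℤ} (h : δ ∈ mray α) : δ ∈ mline α := by
  obtain ⟨p, q, hq, e⟩ := h
  exact ⟨p, q, hq, by rw [natCast_zsmul, natCast_zsmul, e]⟩

theorem self_mem_mline (α : Fin r → ℤ) : α ∈ mline α := ⟨1, 1, one_pos, by simp⟩

theorem mline_neg {α δ : Fin r → ℤ} : δ ∈ mline (-α) ↔ δ ∈ mline α := by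
  constructor <;> rintro ⟨p, q, hq, e⟩ <;> exact ⟨-p, q, hq, by simp [e]⟩

theorem smul_cancel {q : ℕ} (hq : 0 < q) {x y : Fin r → ℤ} (h : (q : ℤ) • x = (q : ℤ) • y) :
    x = y := smul_right_injective _ (by exact_mod_cast hq.ne') h

section line

variable {μ : (Fin r → ℤ) →+ ℤ} {α δ : Fin r → ℤ}

theorem line_map (h : δ ∈ mline α) : ∃ (p : ℤ) (q : ℕ), 0 < q ∧ (q : ℤ) • δ = p • α ∧
    ∀ ν : (Fin r → ℤ) →+ ℤ, q * ν δ = p * ν α := by
  obtain ⟨p, q, hq, e⟩ := h
  exact ⟨p, q, hq, e, fun ν => by simpa only [map_zsmul, smul_eq_mul] using congrArg ν e⟩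

theorem line_zero (hα : μ α ≠ 0) (h : δ ∈ mline α) (h0 : μ δ = 0) : δ = 0 := by
  obtain ⟨p, q, hq, e, e'⟩ := line_map h
  have : p = 0 := by simpa [h0, hα] using e' μ
  exact smul_cancel hq (by simp [e, this])

theorem line_pos (hα : 0 < μ α) (h : δ ∈ mline α) (h0 : 0 ≤ μ δ) : δ ∈ mray α := by
  obtain ⟨p, q, hq, e, e'⟩ := line_map h
  have hp : 0 ≤ p := by
    have := e' μ
    by_contra hp
    nlinarith [mul_pos (neg_pos.2 (not_le.1 hp)) hα, mul_nonneg (Int.natCast_nonneg q) h0]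
  lift p to ℕ using hp
  exact ⟨p, q, hq, by rwa [natCast_zsmul, natCast_zsmul] at e⟩

theorem ray_nonneg (hα : 0 < μ α) (h : δ ∈ mray α) : 0 ≤ μ δ := by
  obtain ⟨p, q, hq, e⟩ := h
  have e' : (q : ℤ) * μ δ = p * μ α := by
    have := congrArg μ e
    rwa [map_nsmul, map_nsmul, nsmul_eq_mul, nsmul_eq_mul] at this
  have hq' : (0 : ℤ) < q := by exact_mod_cast hq
  by_contra h
  nlinarith [mul_pos hq' (neg_pos.2 (not_le.1 h)), mul_nonneg (Int.natCast_nonneg p) hα.le]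

theorem exists_pos (hα : α ≠ 0) : ∃ μ : (Fin r → ℤ) →+ ℤ, 0 < μ α := by
  obtain ⟨j, hj⟩ := Function.ne_iff.1 hα
  exact ⟨⟨⟨fun x => α j * x j, by simp⟩, fun x y => by simp [mul_add]⟩, mul_self_pos.2 hj⟩

end line

theorem suppU_iff {μ : (Fin r → ℤ) →+ ℤ} {α : Fin r → ℤ} (hα : 0 < μ α) {M : Mat n A} :
    SuppU χ (mray α) M ↔ InU (fun i => μ (χ i)) M ∧ InLine χ α M := by
  have hne : ∀ i j, χ i - χ j ∉ mline α → (M - 1) i j = M i j := fun i j h => by
    have : i ≠ j := fun e => h (by rw [e, sub_self]; exact zero_mem _)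
    rw [Matrix.sub_apply, one_apply_ne this, sub_zero]
  rw [inU_iff]
  constructor
  · refine fun h => ⟨fun i j hij => h i j (or_iff_not_imp_left.2 fun h1 => ?_), fun i j hij => ?_⟩
    · have h2 := not_not.1 h1
      have h3 := ray_nonneg hα h2
      rw [map_sub] at h3
      exact sub_eq_zero.1 (line_zero hα.ne' (mray_le h2) (by rw [map_sub]; omega))
    · rw [← hne i j hij]
      exact h i j (Or.inl fun h1 => hij (mray_le h1))
  · rintro ⟨h1, h2⟩ i j hij
    by_cases hl : χ i - χ j ∈ mline α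
    · refine h1 i j (hij.elim (fun h => not_lt.1 fun h' => h (line_pos hα hl ?_)) fun h => ?_)
      · rw [map_sub]
        omega
      · rw [h]
    · rw [hne i j hl, h2 i j hl]

theorem Flip.inv {α : Fin r → ℤ} {g : GL (Fin n) A} {σ : (Fin r → ℤ) →+ (Fin r → ℤ)}
    (h : Flip χ α g σ) : Flip χ α g⁻¹ σ :=
  ⟨by simpa only [h.invol] using h.intw.inv.comp σ, h.line, h.neg, h.invol⟩

theorem Flip.neg' {α : Fin r → ℤ} {g : GL (Fin n) A} {σ : (Fin r → ℤ) →+ (Fin r → ℤ)}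
    (h : Flip χ α g σ) : Flip χ (-α) g σ :=
  ⟨h.intw, fun x => mline_neg.2 (h.line x), by rw [map_neg, h.neg], h.invol⟩

/-- Entries of a conjugate by an element of the normaliser. -/
theorem Flip.conj_zero {α : Fin r → ℤ} {g : GL (Fin n) A} {σ : (Fin r → ℤ) →+ (Fin r → ℤ)}
    (h : Flip χ α g σ) {M : Mat n A} {i j : Fin n}
    (hM : ∀ p q, χ i = σ (χ p) → χ j = σ (χ q) → M p q = 0) :
    ((g : Mat n A) * M * ((g⁻¹ : GL (Fin n) A) : Mat n A)) i j = 0 := by
  rw [mul_apply]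
  refine Finset.sum_eq_zero fun q _ => ?_
  by_cases hq : χ q = σ (χ j)
  · rw [mul_apply, Finset.sum_eq_zero, zero_mul]
    intro p _
    by_cases hp : χ i = σ (χ p)
    · rw [hM p q hp (by rw [hq, h.invol]), mul_zero]
    · rw [h.intw i p hp, zero_mul]
  · rw [h.inv.intw q j hq, mul_zero]

/-- A flip exchanges the two root groups. -/
theorem Flip.suppU {α : Fin r → ℤ} {g : GL (Fin n) A} {σ : (Fin r → ℤ) →+ (Fin r → ℤ)}
    (h : Flip χ α g σ) {M : Mat n A} (hM : SuppU χ (mray α) M) :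
    SuppU χ (mray (-α)) ((g : Mat n A) * M * ((g⁻¹ : GL (Fin n) A) : Mat n A)) := by
  intro i j hij
  have e : (g : Mat n A) * M * ((g⁻¹ : GL (Fin n) A) : Mat n A) - 1 =
      (g : Mat n A) * (M - 1) * ((g⁻¹ : GL (Fin n) A) : Mat n A) := by
    rw [Matrix.mul_sub, Matrix.sub_mul, Matrix.mul_one, Units.mul_inv]
  rw [e]
  refine h.conj_zero fun p q hp hq => hM p q (hij.imp (fun h1 ⟨a, b, hb, e⟩ => h1 ⟨a, b, hb, by
    rw [hp, hq, ← map_sub, ← map_nsmul, e, map_nsmul, h.neg]⟩) fun h1 => ?_)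
  rw [← h.invol (χ p), ← hp, h1, hq, h.invol]

theorem exists_col [Nontrivial A] (g : GL (Fin n) A) (j : Fin n) :
    ∃ i, (g : Mat n A) i j ≠ 0 := by
  by_contra h
  push Not at h
  have e := congrFun (congrFun g.inv_mul j) j
  simp [mul_apply, h] at e

theorem exists_row [Nontrivial A] (g : GL (Fin n) A) (i : Fin n) :
    ∃ j, (g : Mat n A) i j ≠ 0 := by
  by_contra h
  push Not at h
  have e := congrFun (congrFun g.mul_inv i) i
  simp [mul_apply, h] at e

theorem add_ext_chi {M : Type*} [AddCommGroup M] (hs : Submodule.span ℤ (Set.range χ) = ⊤)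
    {a a' : (Fin r → ℤ) →+ M} (h : ∀ i, a (χ i) = a' (χ i)) : a = a' :=
  AddMonoidHom.toIntLinearMap_injective (LinearMap.ext_on_range hs h)

theorem mem_of_chi (hs : Submodule.span ℤ (Set.range χ) = ⊤) (S : AddSubgroup (Fin r → ℤ))
    (h : ∀ i, χ i ∈ S) (x : Fin r → ℤ) : x ∈ S := by
  have : Submodule.span ℤ (Set.range χ) ≤ S.toIntSubmodule :=
    Submodule.span_le.2 (by rintro _ ⟨i, rfl⟩; exact h i)
  exact this (hs ▸ Submodule.mem_top)

/-- A flip is not in the big cell. -/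
theorem Flip.De_eq_zero {F : Type u} [Field F] (hs : Submodule.span ℤ (Set.range χ) = ⊤)
    {μ : (Fin r → ℤ) →+ ℤ} {α : Fin r → ℤ} (hα : μ α ≠ 0) {g : GL (Fin n) F}
    {σ : (Fin r → ℤ) →+ (Fin r → ℤ)} (h : Flip χ α g σ) :
    ∃ i, De (fun i => μ (χ i)) (μ (χ i)) (g : Mat n F) = 0 := by
  by_contra hc
  push Not at hc
  have h1 : ∀ j, ∃ i, χ i = σ (χ j) ∧ μ (χ j) ≤ μ (χ i) := fun j => by
    by_contra hj
    push Not at hj
    refine hc j (det_eq_zero_of_column_eq_zero j fun i => ?_)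
    rw [crn_apply]
    split_ifs with e
    · exact h.intw i j fun e' => (hj i e').not_ge e.1
    · exact one_apply_ne fun e' => e (by simp [e'])
  have h2 : μ.comp σ = μ := add_ext_chi hs fun j => by
    obtain ⟨i, e, l⟩ := h1 j
    obtain ⟨i', e', l'⟩ := h1 i
    rw [e, h.invol] at e'
    rw [e'] at l'
    rw [AddMonoidHom.comp_apply, ← e]
    omega
  have h3 := DFunLike.congr_fun h2 α
  rw [AddMonoidHom.comp_apply, h.neg, map_neg] at h3
  omega

/-- An element of the normaliser that keeps the direction of `α` centralises the torus. -/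
theorem nonflip {μ : (Fin r → ℤ) →+ ℤ} {α : Fin r → ℤ} (hα : μ α ≠ 0)
    {σ : (Fin r → ℤ) →+ (Fin r → ℤ)} (hX : ∀ j, ∃ i, χ i = σ (χ j))
    (hl : ∀ x, σ x - x ∈ mline α) (hp : 0 < μ α * μ (σ α)) (j : Fin n) : σ (χ j) = χ j := by
  have key : ∀ ν : (Fin r → ℤ) →+ ℤ, 0 < ν α * ν (σ α) → ¬ 0 < ν (σ (χ j) - χ j) := by
    intro ν hν h0
    have pos : ∀ δ ∈ mline α, 0 < ν δ → 0 < ν (σ δ) := fun δ hδ hd => by
      obtain ⟨p, q, hq, -, e⟩ := line_map hδ
      have e1 := e ν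
      have e2 : (q : ℤ) * ν (σ δ) = p * ν (σ α) := e (ν.comp σ)
      have hq' : (0 : ℤ) < q := by exact_mod_cast hq
      by_contra h
      have h1 : 0 < p * ν α := e1 ▸ mul_pos hq' hd
      have h2 : p * ν (σ α) ≤ 0 := e2 ▸ mul_nonpos_of_nonneg_of_nonpos hq'.le (not_lt.1 h)
      nlinarith [mul_pos h1 hν, mul_nonneg (neg_nonneg.2 h2) (mul_self_nonneg (ν α))]
    choose f hf using hX
    have st : ∀ m : ℕ, 0 < ν (σ (χ (f^[m] j)) - χ (f^[m] j)) := fun m => by
      induction m with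
      | zero => exact h0
      | succ m ih =>
        rw [Function.iterate_succ_apply', hf, ← map_sub]
        exact pos _ (hl _) ih
    have mono : StrictMono fun m : ℕ => ν (χ (f^[m] j)) := strictMono_nat_of_lt_succ fun m => by
      have := st m
      rw [map_sub] at this
      rw [Function.iterate_succ_apply', hf]
      omega
    obtain ⟨a, b, hab, e⟩ := Finite.exists_ne_map_eq_of_infinite fun m : ℕ => f^[m] j
    exact hab (mono.injective (by simp only [e]))
  have h1 := key μ hp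
  have h2 := key (-μ) (by simpa using hp)
  rw [AddMonoidHom.neg_apply] at h2
  exact sub_eq_zero.1 (line_zero hα (hl _) (by omega))

theorem Intw.exists_col [Nontrivial A] {ι : Type} {a b : Fin n → ι} {g : GL (Fin n) A}
    (h : Intw a b (g : Mat n A)) (j : Fin n) : ∃ i, a i = b j := by
  obtain ⟨i, hi⟩ := GR.exists_col g j
  exact ⟨i, by_contra fun e => hi (h i j e)⟩

/-- The reflection is unique. -/
theorem Flip.uniq [Nontrivial A] (hs : Submodule.span ℤ (Set.range χ) = ⊤) {α : Fin r → ℤ}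
    (hα : α ≠ 0) {g g' : GL (Fin n) A} {σ σ' : (Fin r → ℤ) →+ (Fin r → ℤ)} (h : Flip χ α g σ)
    (h' : Flip χ α g' σ') : σ = σ' ∧ InL χ ((g⁻¹ * g' : GL (Fin n) A) : Mat n A) := by
  obtain ⟨μ, hμ⟩ := exists_pos hα
  have h1 : ∀ j, σ (σ' (χ j)) = χ j := nonflip (σ := σ.comp σ') hμ.ne' (fun j => by
      obtain ⟨i, e⟩ := h'.intw.exists_col j
      obtain ⟨i', e'⟩ := h.intw.exists_col i
      exact ⟨i', by rw [e', e]; rfl⟩)
    (fun x => by simpa using add_mem (h.line (σ' x)) (h'.line x))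
    (by simpa [h.neg, h'.neg] using hμ.ne')
  have h2 : σ = σ' := add_ext_chi hs fun j => by rw [← h1 j, h.invol, h1]
  subst h2
  refine ⟨rfl, fun i j e => h.intw.inv.mul h'.intw i j fun e' => e ?_⟩
  rw [← h.invol (χ i), show σ (χ i) = σ (χ j) from e', h.invol]

theorem uu_inj [Nontrivial A] {Γ : Type} [AddCommGroup Γ] {a b : Γ} (h : uu A a = uu A b) :
    a = b := AddMonoidAlgebra.single_left_injective one_ne_zero (congrArg Units.val h)

/-- An identity `rho c * q = q * tp χ τ` makes `q` an intertwiner. -/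
theorem intw_of_tp (k : Type u) [Field k] {F : Type u} [Field F] [Algebra k F] {Γ : Type}
    [AddCommGroup Γ] (hs : Submodule.span ℤ (Set.range χ) = ⊤) {c : Fin n → Γ}
    {q : GL (Fin n) F} {τ : Multiplicative (Fin r → ℤ) →* (GA F Γ)ˣ}
    (h : (gm (IsScalarTower.toAlgHom k F (GA F Γ)) q)⁻¹ * rho F c *
      gm (IsScalarTower.toAlgHom k F (GA F Γ)) q = tp χ τ) :
    ∃ σ : (Fin r → ℤ) →+ Γ, Intw c (fun j => σ (χ j)) (q : Mat n F) := by
  rw [mul_assoc, inv_mul_eq_iff_eq_mul] at h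
  have h1 : ∀ i j, (q : Mat n F) i j ≠ 0 → τ (Multiplicative.ofAdd (χ j)) = uu F (c i) := by
    intro i j hij
    have e := congrArg (fun g : GL (Fin n) (GA F Γ) => (g : Mat n (GA F Γ)) i j) h
    simp only [Units.val_mul, rho, tp, dgU, diagonal_mul, mul_diagonal, gm_apply] at e
    rw [mul_comm] at e
    have hu : IsUnit (IsScalarTower.toAlgHom k F (GA F Γ) ((q : Mat n F) i j)) :=
      (Ne.isUnit hij).map _
    exact Units.ext (hu.mul_left_cancel e).symm
  have h2 : ∀ x, ∃ δ, τ (Multiplicative.ofAdd x) = uu F δ :=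
    mem_of_chi hs
      { carrier := {x | ∃ δ, τ (Multiplicative.ofAdd x) = uu F δ}
        zero_mem' := ⟨0, by rw [ofAdd_zero, map_one, uu_zero]⟩
        add_mem' := by
          rintro a b ⟨d, hd⟩ ⟨e, he⟩
          exact ⟨d + e, by rw [ofAdd_add, map_mul, hd, he, uu_add]⟩
        neg_mem' := by
          rintro a ⟨d, hd⟩
          exact ⟨-d, by rw [ofAdd_neg, map_inv, hd, uu_neg]⟩ } fun j => by
      obtain ⟨i, hi⟩ := exists_col q j
      exact ⟨_, h1 i j hi⟩
  choose s hs' using h2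
  refine ⟨AddMonoidHom.mk' s fun a b => uu_inj (A := F) (by
    rw [← hs', uu_add, ← hs', ← hs', ofAdd_add, map_mul]), fun i j e => by_contra fun hij => ?_⟩
  exact e (uu_inj (A := F) ((h1 i j hij).symm.trans (hs' _)))

theorem intw_rho {Γ ι : Type} [AddCommGroup Γ] (a : Fin n → ι) (c : Fin n → Γ) :
    Intw a a ((rho A c : GL (Fin n) (GA A Γ)) : Mat n (GA A Γ)) := intw_diagonal a _

theorem Intw.gm {k : Type u} [Field k] [Algebra k A] {A' : Type u} [CommRing A'] [Algebra k A']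
    (f : A →ₐ[k] A') {ι : Type} {a b : Fin n → ι} {g : GL (Fin n) A}
    (h : Intw a b (g : Mat n A)) : Intw a b ((gm f g : GL (Fin n) A') : Mat n A') :=
  fun i j e => by rw [gm_apply, h i j e, map_zero]

namespace HS

variable {k : Type u} [Field k] {H : HS k n} [Algebra k A]

theorem ZT.fixA (Z : H.ZT χ) (A : Type u) [CommRing A] [Algebra k A] : H.Fixed χ (H.pt A) :=
  H.pt_map (Algebra.ofId k A) ▸ Z.fix.comp (Algebra.ofId k A)

theorem ZT.rho_mem (Z : H.ZT χ) (A : Type u) [CommRing A] [Algebra k A] :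
    rho A χ ∈ H.G (GA A (Fin r → ℤ)) := by
  have := Z.fixA A
  unfold Fixed orb at this
  rwa [H.pt_map] at this

theorem ZT.tp_mem (Z : H.ZT χ) (τ : Multiplicative (Fin r → ℤ) →* Aˣ) : tp χ τ ∈ H.G A := by
  let f : GA A (Fin r → ℤ) →ₐ[k] A :=
    (AddMonoidAlgebra.lift A A _ ((Units.coeHom A).comp τ)).restrictScalars k
  have e : gm f (rho A χ) = tp χ τ := by
    ext i j : 2
    show f (diagonal (fun i => ((uu A (χ i) : (GA A _)ˣ) : GA A _)) i j) =
      diagonal (fun i => (τ (Multiplicative.ofAdd (χ i)) : A)) i j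
    by_cases e : i = j
    · simp [e, f, uu_val]
    · simp [e]
  exact e ▸ H.G_map f (Z.rho_mem A)

theorem ZT.frame (Z : H.ZT χ) (F : Type u) [Field F] [Algebra k F] : H.Frame χ (H.pt F) where
  fix := Z.fixA F
  zt := fun q a hq ha => by
    have hq' : Intw χ χ (q : Mat n F) := hq
    set ι := IsScalarTower.toAlgHom k F (GA F ℤ) with hι
    have h1 : (gm ι q)⁻¹ * rho F a * gm ι q ∈ H.G (GA F ℤ) := by
      refine (H.mem_St_act _ _ _).1 ?_
      unfold Fixed orb at ha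
      rwa [H.act_nat, H.pt_map] at ha
    obtain ⟨τ, hτ⟩ := Z.zt _ _ h1 (((hq'.gm ι).inv.mul (intw_rho χ a)).mul (hq'.gm ι))
    obtain ⟨σ, hσ⟩ := intw_of_tp k Z.span hτ
    refine ⟨σ, fun i => ?_⟩
    obtain ⟨j, hj⟩ := exists_row q i
    rw [by_contra fun e => hj (hq' i j e)]
    exact by_contra fun e => hj (hσ i j e)

/-- An element that conjugates a regular cocharacter into the torus normalises the torus. -/
theorem ZT.norm (Z : H.ZT χ) {F : Type u} [Field F] [Algebra k F] {μ a : (Fin r → ℤ) →+ ℤ}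
    (hμ : ∀ i j, μ (χ i) = μ (χ j) → χ i = χ j) {g : GL (Fin n) F} (hg : g ∈ H.G F)
    (h : Intw (fun i => a (χ i)) (fun i => μ (χ i)) (g : Mat n F)) :
    ∃ σ : (Fin r → ℤ) →+ (Fin r → ℤ), Intw χ (fun j => σ (χ j)) (g : Mat n F) := by
  set ι := IsScalarTower.toAlgHom k F (GA F (Fin r → ℤ)) with hι
  obtain ⟨τ, hτ⟩ := Z.zt _ ((gm ι g)⁻¹ * rho F χ * gm ι g)
    (mul_mem (mul_mem (inv_mem (H.G_map ι hg)) (Z.rho_mem F)) (H.G_map ι hg)) fun i j e =>
      (((h.gm ι).inv.mul (intw_rho _ χ)).mul (h.gm ι)) i j fun e' => e (hμ i j e')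
  exact intw_of_tp k Z.span hτ

/-- Bruhat decomposition in rank one. -/
theorem ZT.bru (Z : H.ZT χ) {F : Type u} [Field F] [Algebra k F] {μ : (Fin r → ℤ) →+ ℤ}
    (hμ : ∀ i j, μ (χ i) = μ (χ j) → χ i = χ j) {α : Fin r → ℤ} (hα : 0 < μ α)
    {g : GL (Fin n) F} (hg : g ∈ H.G F) (hl : InLine χ α (g : Mat n F)) :
    InP (fun i => μ (χ i)) (g : Mat n F) ∨ ∃ w ∈ H.G F, ∃ σ, Flip χ α w σ ∧
      ∀ m, IsUnit (De (fun i => μ (χ i)) m ((w⁻¹ * g : GL (Fin n) F) : Mat n F)) := by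
  let c : Fin n → (Fin r → ℤ) ⧸ mline α := fun i => QuotientAddGroup.mk' (mline α) (χ i)
  have hc : ∀ i j, c i = c j ↔ χ i - χ j ∈ mline α := fun i j => QuotientAddGroup.eq_iff_sub_mem
  obtain ⟨u, b, w, e, hu, hb, hw⟩ := bruhat (fun i => μ (χ i)) (fun i => μ (χ i)) c g
    fun i j h => hl i j fun h' => h ((hc i j).2 h')
  obtain ⟨a, ha, p, hp, pc, pi⟩ := (Z.frame F).br ((Z.fixA F).push (QuotientAddGroup.mk' _)) μ hμ
    (β := 1) (by rw [inv_one, H.act_one]; exact (Z.fixA F).push μ)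
    (by rw [inv_one, mul_one, ← e]; exact hg) (InL.one _) hu hb hw
  rw [mul_one] at pi
  obtain ⟨σ, hσ⟩ := Z.norm hμ hp pi
  have h0 : ∀ j, ∃ i, χ i = σ (χ j) ∧ c i = c j ∧ a (χ i) = μ (χ j) := fun j => by
    obtain ⟨i, hi⟩ := exists_col p j
    exact ⟨i, by_contra fun e => hi (hσ i j e), by_contra fun e => hi (pc i j e),
      by_contra fun e => hi (pi i j e)⟩
  have hX : ∀ j, ∃ i, χ i = σ (χ j) := fun j => (h0 j).imp fun _ h => h.1
  have h1 : ∀ x, σ x - x ∈ mline α := fun x =>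
    mem_of_chi Z.span ((mline α).comap (σ - AddMonoidHom.id (Fin r → ℤ))) (fun j => by
      obtain ⟨i, e1, e2, -⟩ := h0 j
      show σ (χ j) - χ j ∈ mline α
      exact e1 ▸ (hc i j).1 e2) x
  have h2 : a.comp σ = μ := add_ext_chi Z.span fun j => by
    obtain ⟨i, e1, -, e3⟩ := h0 j
    rw [AddMonoidHom.comp_apply, ← e1, e3]
  have hσα : σ α ∈ mline α := by simpa using add_mem (h1 α) (self_mem_mline α)
  have iw : Intw (fun i => a (χ i)) (fun i => μ (χ i)) (pmat F w : Mat n F) := by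
    simpa only [ha] using intw_pmat (A := F) (fun i => μ (χ i)) w
  rcases lt_trichotomy (μ (σ α)) 0 with h3 | h3 | h3
  · obtain ⟨s, t, ht, e1, e2⟩ := line_map hσα
    have ht' : (0 : ℤ) < t := by exact_mod_cast ht
    have e3 : (t : ℤ) * μ (σ (σ α)) = s * μ (σ α) := e2 (μ.comp σ)
    have hs : s < 0 := by
      by_contra h
      nlinarith [e2 μ, mul_nonneg (not_lt.1 h) hα.le, mul_pos ht' (neg_pos.2 h3)]
    have h4 : ∀ j, σ (σ (χ j)) = χ j := nonflip (σ := σ.comp σ) hα.ne' (fun j => by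
        obtain ⟨i, e⟩ := hX j
        obtain ⟨i', e'⟩ := hX i
        exact ⟨i', by rw [e', e]; rfl⟩)
      (fun x => by simpa using add_mem (h1 (σ x)) (h1 x)) (mul_pos hα (by
        refine (mul_pos_iff_of_pos_left ht').1 ?_
        exact e3 ▸ mul_pos_of_neg_of_neg hs h3))
    have h5 : ∀ x, σ (σ x) = x :=
      DFunLike.congr_fun (add_ext_chi (a := σ.comp σ) (a' := AddMonoidHom.id _) Z.span h4)
    have h6 : s = -t := by
      rw [h5] at e3
      have e4 : (s + t) * ((t - s) * μ α) = 0 := by linear_combination t * e3 + s * e2 μ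
      rcases mul_eq_zero.1 e4 with h | h
      · omega
      · exact absurd h (mul_pos (by omega) hα).ne'
    have fl : Flip χ α p σ := ⟨hσ, h1, smul_cancel ht (by rw [e1, h6, neg_smul, smul_neg]), h5⟩
    refine Or.inr ⟨p, hp, σ, fl, fun m => ?_⟩
    have e5 : p⁻¹ * g = p⁻¹ * u * p⁻¹⁻¹ * (p⁻¹ * pmat F w * b) := by rw [e]; group
    have p1 : InP (-fun i => μ (χ i)) ((p⁻¹ * u * p⁻¹⁻¹ : GL (Fin n) F) : Mat n F) :=
      fun i j hij => fl.inv.conj_zero fun x y hx hy => by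
        by_cases hxy : c x = c y
        · refine hu.1 x y ?_
          obtain ⟨s', t', ht', -, e6⟩ := line_map ((hc x y).1 hxy)
          have e7 : (t' : ℤ) * μ (σ (χ x - χ y)) = s' * μ (σ α) := e6 (μ.comp σ)
          rw [fl.neg, map_sub, ← hx, ← hy, map_sub, map_neg] at e7
          have e8 := e6 μ
          rw [map_sub] at e8
          have e9 : μ (χ x) - μ (χ y) = μ (χ j) - μ (χ i) :=
            mul_left_cancel₀ (by exact_mod_cast ht'.ne' : (t' : ℤ) ≠ 0) (by linarith)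
          simp only [Pi.neg_apply] at hij
          show μ (χ x) < μ (χ y)
          omega
        · exact hu.2 x y hxy
    have p2 : InP (fun i => μ (χ i)) ((p⁻¹ * pmat F w * b : GL (Fin n) F) : Mat n F) :=
      (InL.inP (pi.inv.mul iw)).mul hb.1
    rw [e5, Units.val_mul, De_mul_left p1]
    exact (p1.isUnit_De' m).mul (p2.isUnit_De m)
  · have := DFunLike.congr_fun h2 α
    rw [AddMonoidHom.comp_apply, line_zero hα.ne' hσα h3, map_zero] at this
    omega
  · have h4 := nonflip hα.ne' hX h1 (mul_pos hα h3)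
    have h5 : ∀ j, a (χ j) = μ (χ j) := fun j => by rw [← h2, AddMonoidHom.comp_apply, h4]
    simp only [h5] at iw
    rw [e]
    exact Or.inl ((hu.1.mul (InL.inP iw)).mul hb.1)

end HS

end Pool.Agent.GR
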