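import Pool.Agent.P.MP_c1f06d_ag.r.Weyl
import Pool.Agent.P.MP_c1f06d_ag.r.LU
import Pool.Agent.P.MP_c1f06d_ag.r.Coact

open Matrix

universe u

namespace Pool.Agent.GR

section

variable {n : ℕ} {A : Type u} [CommRing A] {Γ : Type} [AddCommGroup Γ]

/-- The point `τ` of the diagonal torus with weights `χ`. -/
def tp (χ : Fin n → Γ) (τ : Multiplicative Γ →* Aˣ) : GL (Fin n) A :=
  dgU fun i => τ (Multiplicative.ofAdd (χ i))

/-- `M - 1` is supported in the nonzero degrees of `Λ`. -/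
def SuppU (χ : Fin n → Γ) (Λ : AddSubmonoid Γ) (M : Mat n A) : Prop :=
  ∀ i j, χ i - χ j ∉ Λ ∨ χ i = χ j → (M - 1) i j = 0

/-- The rational ray through `α`. -/
def mray (α : Γ) : AddSubmonoid Γ where
  carrier := {m | ∃ p q : ℕ, 0 < q ∧ q • m = p • α}
  zero_mem' := ⟨0, 1, one_pos, by simp⟩
  add_mem' := by
    rintro a b ⟨p, q, hq, h⟩ ⟨p', q', hq', h'⟩
    refine ⟨q' * p + q * p', q * q', Nat.mul_pos hq hq', ?_⟩
    rw [smul_add, add_smul, mul_smul q' p, ← h, mul_smul q p', ← h', smul_smul, smul_smul,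
      mul_comm q' q]

/-- The value `s ^ l` of the cocharacter `l`. -/
def mcoc (l : Γ →+ ℤ) (s : Aˣ) : Multiplicative Γ →* Aˣ where
  toFun m := s ^ l m.toAdd
  map_one' := by simp
  map_mul' a b := by simp [_root_.zpow_add]

end

namespace HS

variable {k : Type u} [Field k] {n r : ℕ} (H : HS k n)

/-- The same space with base point `γ⁻¹ y₀`. -/
noncomputable def rb (γ : GL (Fin n) k) : HS k n where
  B := H.B
  ft := H.ft
  act := H.act
  act_one := H.act_one
  act_mul := H.act_mul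
  act_nat := H.act_nat
  y0 := H.act γ⁻¹ H.y0
  t2 := H.t2
  t4 := fun f hf => by
    have e : ∀ (A : Type u) [CommRing A] [Algebra k A] (g : GL (Fin n) A),
        ev k g (ev k (Co.ug k n * gm (Algebra.ofId k _) γ) f) =
          ev k (g * gm (Algebra.ofId k A) γ) f := fun A _ _ g => by
      rw [Co.map_ev, map_mul, Co.gm_ev_ug, gm_comp,
        Subsingleton.elim ((ev k g).comp _) (Algebra.ofId k A)]
    have e2 : ∀ (A : Type u) [CommRing A] [Algebra k A],
        (Algebra.ofId k A).comp (H.act γ⁻¹ H.y0) =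
          H.act (gm (Algebra.ofId k A) γ)⁻¹ ((Algebra.ofId k A).comp H.y0) := fun A _ _ => by
      rw [H.act_nat, map_inv]
    obtain ⟨b, hb⟩ := H.t4 (ev k (Co.ug k n * gm (Algebra.ofId k _) γ) f) fun A _ _ g g' hg => by
      rw [e, e, ← hf A (g * gm (Algebra.ofId k A) γ)
        ((gm (Algebra.ofId k A) γ)⁻¹ * g' * gm (Algebra.ofId k A) γ) (by
          rw [e2, ← H.act_mul, mul_inv_cancel_right, H.act_mul, hg])]
      congr 2
      group
    refine ⟨b, fun A _ _ g => ?_⟩
    rw [e2, ← H.act_mul, hb, e, inv_mul_cancel_right]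

theorem pt_rb (γ : GL (Fin n) k) (A : Type u) [CommRing A] [Algebra k A] :
    (H.rb γ).pt A = H.act (gm (Algebra.ofId k A) γ)⁻¹ (H.pt A) := by
  show (Algebra.ofId k A).comp (H.act γ⁻¹ H.y0) = _
  rw [H.act_nat, map_inv]
  rfl

theorem mem_G_rb (γ : GL (Fin n) k) {A : Type u} [CommRing A] [Algebra k A] (g : GL (Fin n) A) :
    g ∈ (H.rb γ).G A ↔
      gm (Algebra.ofId k A) γ * g * (gm (Algebra.ofId k A) γ)⁻¹ ∈ H.G A := by
  rw [← mem_St_frame, ← pt_rb]
  rfl

/-- The diagonal torus with weights `χ` lies in `G` and is its own centraliser. -/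
structure ZT (χ : Fin n → Fin r → ℤ) : Prop where
  span : Submodule.span ℤ (Set.range χ) = ⊤
  fix : H.Fixed χ (H.pt k)
  zt : ∀ (A : Type u) [CommRing A] [Algebra k A], ∀ g ∈ H.G A, InL χ (g : Mat n A) →
    ∃ τ, g = tp χ τ

/-- `X` is an equivariant isomorphism from affine space with weights `deg` to `U_Λ`. -/
structure MChart (χ : Fin n → Fin r → ℤ) (Λ : AddSubmonoid (Fin r → ℤ)) {ι : Type}
    (deg : ι → Fin r → ℤ) (X : GL (Fin n) (MvPolynomial ι k)) : Prop where
  bij : ∀ (A : Type u) [CommRing A] [Algebra k A],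
    Set.BijOn (fun s : ι → A => gm (MvPolynomial.aeval s) X) Set.univ
      {g | g ∈ H.G A ∧ SuppU χ Λ (g : Mat n A)}
  zero : gm (MvPolynomial.aeval (0 : ι → k)) X = 1

/-- `x` is a parametrisation of the root group of `α`. -/
structure MRoot (χ : Fin n → Fin r → ℤ) (α : Fin r → ℤ) (x : GL (Fin n) (Polynomial k)) :
    Prop where
  bij : ∀ (A : Type u) [CommRing A] [Algebra k A],
    Set.BijOn (fun a : A => gm (Polynomial.aeval a) x) Set.univ
      {g | g ∈ H.G A ∧ SuppU χ (mray α) (g : Mat n A)}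
  add : ∀ (A : Type u) [CommRing A] [Algebra k A] (a b : A),
    gm (Polynomial.aeval (a + b)) x = gm (Polynomial.aeval a) x * gm (Polynomial.aeval b) x
  eqv : ∀ (A : Type u) [CommRing A] [Algebra k A] (τ : Multiplicative (Fin r → ℤ) →* Aˣ) (a : A),
    tp χ τ * gm (Polynomial.aeval a) x * (tp χ τ)⁻¹ =
      gm (Polynomial.aeval ((τ (Multiplicative.ofAdd α) : A) * a)) x

end HS

/-- The rank one relation with constant `c`. -/
def MSL2 {k : Type u} [Field k] {n r : ℕ} (χ : Fin n → Fin r → ℤ) (cor : (Fin r → ℤ) →+ ℤ) (c : k)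
    (x y : GL (Fin n) (Polynomial k)) : Prop :=
  ∀ (A : Type u) [CommRing A] [Algebra k A] (a b : A) (s : Aˣ),
    (s : A) = 1 + algebraMap k A c * a * b →
      gm (Polynomial.aeval a) x * gm (Polynomial.aeval b) y =
        gm (Polynomial.aeval (b * (s⁻¹ : Aˣ))) y * tp χ (mcoc cor s) *
          gm (Polynomial.aeval (a * (s⁻¹ : Aˣ))) x

end Pool.Agent.GR
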