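import Pool.Agent.P.MP_c1f06d_ag.g.IsoD

universe u

namespace Pool.Agent.RED.Iso

variable {K : Type u} [CommRing K] {D : RD}
  {T T' : Type u} [CommRing T] [Algebra K T] [CommRing T'] [Algebra K T']

/-- Apply a function to the parameters of a word. -/
def wm {T T' : Type u} (f : Bool × Fin D.m → T → T') (w : Wd D T) : Wd D T' :=
  w.map fun l => (l.1, f l.1 l.2)

/-- The inverse word. -/
def winv {T : Type u} [CommRing T] (w : Wd D T) : Wd D T := (wm (fun _ s => -s) w).reverse

/-- All letters of `w` have the sign `b`. -/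
def Sg {T : Type u} (b : Bool) (w : Wd D T) : Prop := ∀ l ∈ w, l.1.1 = b

theorem Sg.wm {T T' : Type u} {b : Bool} {w : Wd D T} (h : Sg b w) (f : Bool × Fin D.m → T → T') :
    Sg b (wm f w) := by
  intro l hl
  obtain ⟨l', hl', rfl⟩ := List.mem_map.1 hl
  exact h l' hl'

theorem Sg.cons {T : Type u} {b : Bool} {w : Wd D T} (h : Sg b w) (a : Fin D.m) (s : T) :
    Sg b (((b, a), s) :: w) := by
  intro l hl
  rcases List.mem_cons.1 hl with rfl | hl
  · rfl
  · exact h l hl

theorem Sg.nil {T : Type u} (b : Bool) : Sg b ([] : Wd D T) := fun _ h => by simp at h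

/-- The word of a product of simple reflections. -/
def nw (T : Type u) [CommRing T] : List (Fin D.m) → Wd D T
  | [] => []
  | a :: w => ((true, a), 1) :: ((false, a), -1) :: ((true, a), 1) :: nw T w

/-- The word of a root curve. -/
def zw (D : RD) {T : Type u} [CommRing T] (b : Bool) (j : Fin D.N) (s : T) : Wd D T :=
  nw T (D.wd j) ++ ((b, D.sm j), s) :: winv (nw T (D.wd j))

/-- The word of a product of root curves. -/
def Uw (D : RD) {T : Type u} [CommRing T] (b : Bool) (L : List (Fin D.N)) (s : Fin D.N → T) :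
    Wd D T := (L.map fun j => zw D b j (s j)).flatten

namespace APre

variable {G : GF K} (p : APre G D)

@[simp] theorem val_nil : p.val ([] : Wd D T) = 1 := rfl

@[simp] theorem val_cons (l : (Bool × Fin D.m) × T) (w : Wd D T) :
    p.val (l :: w) = p.x l.1 l.2 * p.val w := by simp [val]

theorem val_append (w w' : Wd D T) : p.val (w ++ w') = p.val w * p.val w' := by simp [val]

theorem t_inv (τ : TP (XL D.r) T) : p.t τ⁻¹ = (p.t τ)⁻¹ := by
  have : τ⁻¹ * τ = 1 := inv_mul_cancel τ
  rw [eq_inv_iff_mul_eq_one, ← map_mul, this, map_one]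

theorem x_zero (l : Bool × Fin D.m) : p.x l (0 : T) = 1 := by
  have := p.x_add l (0 : T) 0
  rw [add_zero] at this
  exact mul_eq_left.1 this.symm

theorem x_neg (l : Bool × Fin D.m) (s : T) : p.x l (-s) = (p.x l s)⁻¹ := by
  rw [eq_inv_iff_mul_eq_one, ← p.x_add, neg_add_cancel, p.x_zero]

theorem val_winv (w : Wd D T) : p.val (winv w) = (p.val w)⁻¹ := by
  induction w with
  | nil => simp [winv, wm]
  | cons l w ih =>
    have : winv (l :: w) = winv w ++ [(l.1, -l.2)] := by simp [winv, wm]
    rw [this, val_append, ih]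
    simp [x_neg]

theorem mp_val (f : T →ₐ[K] T') (w : Wd D T) : G.mp f (p.val w) = p.val (wm (fun _ => f) w) := by
  induction w with
  | nil => simp [wm]
  | cons l w ih =>
    rw [val_cons, map_mul, ih, p.x_nat]
    simp [wm]

theorem t_val (τ : TP (XL D.r) T) (w : Wd D T) :
    p.t τ * p.val w * (p.t τ)⁻¹ = p.val (wm (fun l s => chv τ (lt D l) * s) w) := by
  induction w with
  | nil => simp [wm]
  | cons l w ih =>
    have : wm (fun l s => chv τ (lt D l) * s) (l :: w) =
      (l.1, chv τ (lt D l.1) * l.2) :: wm (fun l s => chv τ (lt D l) * s) w := rfl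
    rw [this, val_cons, val_cons, ← ih, ← p.x_eqv]
    group

theorem val_nw (w : List (Fin D.m)) : p.val (nw T w) = p.N T w := by
  induction w with
  | nil => rfl
  | cons a w ih => simp [nw, N, n, ih, mul_assoc]

theorem val_zw (b : Bool) (j : Fin D.N) (s : T) : p.val (zw D b j s) = p.z b j s := by
  rw [zw, val_append, val_cons, val_winv, val_nw, z, mul_assoc]

theorem val_Uw (b : Bool) (L : List (Fin D.N)) (s : Fin D.N → T) :
    p.val (Uw D b L s) = p.U b L s := by
  induction L with
  | nil => rfl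
  | cons β L ih =>
    have : Uw D b (β :: L) s = zw D b β (s β) ++ Uw D b L s := by simp [Uw]
    rw [this, val_append, ih, val_zw]
    simp [U]

theorem mp_N (f : T →ₐ[K] T') (w : List (Fin D.m)) : G.mp f (p.N T w) = p.N T' w := by
  induction w with
  | nil => simp [N]
  | cons a w ih =>
    simp only [N, List.map_cons, List.prod_cons, map_mul] at ih ⊢
    rw [ih]
    simp [n, p.x_nat]

theorem mp_z (f : T →ₐ[K] T') (b : Bool) (j : Fin D.N) (s : T) :
    G.mp f (p.z b j s) = p.z b j (f s) := by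
  simp [z, mp_N, p.x_nat]

theorem z_add (b : Bool) (j : Fin D.N) (s r : T) : p.z b j (s + r) = p.z b j s * p.z b j r := by
  simp [z, p.x_add, mul_assoc]

theorem z_zero (b : Bool) (j : Fin D.N) : p.z b j (0 : T) = 1 := by simp [z, p.x_zero]

theorem z_neg (b : Bool) (j : Fin D.N) (s : T) : p.z b j (-s) = (p.z b j s)⁻¹ := by
  rw [eq_inv_iff_mul_eq_one, ← p.z_add, neg_add_cancel, p.z_zero]

theorem z_simple (b : Bool) (a : Fin D.m) (s : T) : p.z b (D.ix a) s = p.x (b, a) s := by
  simp [z, D.wd_ix, D.sm_ix, N]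

@[simp] theorem U_nil (b : Bool) (s : Fin D.N → T) : p.U b [] s = 1 := rfl

@[simp] theorem U_cons (b : Bool) (j : Fin D.N) (L : List (Fin D.N)) (s : Fin D.N → T) :
    p.U b (j :: L) s = p.z b j (s j) * p.U b L s := by simp [U]

theorem mp_U (f : T →ₐ[K] T') (b : Bool) (L : List (Fin D.N)) (s : Fin D.N → T) :
    G.mp f (p.U b L s) = p.U b L fun j => f (s j) := by
  induction L with
  | nil => simp
  | cons β L ih => simp [ih, mp_z]

theorem U_congr (b : Bool) {L : List (Fin D.N)} {s s' : Fin D.N → T} (h : ∀ j ∈ L, s j = s' j) :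
    p.U b L s = p.U b L s' := by
  unfold U
  rw [List.map_congr_left fun β hβ => by rw [h β hβ]]

theorem U_zero (b : Bool) (L : List (Fin D.N)) : p.U b L (0 : Fin D.N → T) = 1 := by
  induction L with
  | nil => simp
  | cons β L ih => simp [ih, z_zero]

theorem U_single (b : Bool) {L : List (Fin D.N)} (hL : L.Nodup) {β : Fin D.N} (hβ : β ∈ L)
    (s : T) : p.U b L (Pi.single β s) = p.z b β s := by
  induction L with
  | nil => simp at hβ
  | cons γ L ih =>
    rw [List.nodup_cons] at hL
    by_cases e : γ = β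
    · subst e
      rw [U_cons, p.U_congr b (s' := 0) fun δ hδ =>
        Pi.single_eq_of_ne (by rintro rfl; exact hL.1 hδ) _]
      simp [U_zero]
    · rw [U_cons, Pi.single_eq_of_ne e, z_zero, one_mul,
        ih hL.2 ((List.mem_cons.1 hβ).resolve_left (Ne.symm e))]

theorem mp_un (f : T →ₐ[K] T') (b : Bool) (s : Fin D.N → T) :
    G.mp f (p.un b s) = p.un b fun j => f (s j) := p.mp_U f b _ s

theorem un_zero (b : Bool) : p.un b (0 : Fin D.N → T) = 1 := p.U_zero b _

theorem un_single (b : Bool) (j : Fin D.N) (s : T) : p.un b (Pi.single j s) = p.z b j s :=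
  p.U_single b (List.nodup_finRange _) (List.mem_finRange j) s

theorem mp_c (f : T →ₐ[K] T') (s : Bool → Fin D.N → T) (τ : TP (XL D.r) T) :
    G.mp f (p.c s τ) = p.c (fun b j => f (s b j)) (tm f τ) := by
  simp [c, mp_un, p.t_nat]

theorem c_one : p.c (0 : Bool → Fin D.N → T) 1 = 1 := by simp [c, un_zero]

theorem c_single (b : Bool) (s : Fin D.N → T) : p.c (Pi.single b s) 1 = p.un b s := by
  cases b <;> simp [c, un_zero]

end APre

/-- A positive letter with small parameter moves through a negative word. -/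
theorem pass (I : Ideal T) (hI : ∀ x ∈ I, IsUnit (1 + x)) (a : Fin D.m) (v : Wd D T)
    (hv : Sg false v) : ∀ s ∈ I, ∃ (v' : Wd D T) (τ : TP (XL D.r) T) (s' : T), Sg false v' ∧
      ∀ (G : GF K) (p : APre G D),
        p.x (true, a) s * p.val v = p.val v' * p.t τ * p.x (true, a) s' := by
  induction v with
  | nil => exact fun s _ => ⟨[], 1, s, Sg.nil _, fun G p => by simp⟩
  | cons l v ih =>
    intro s hs
    obtain ⟨⟨b0, b⟩, r⟩ := l
    obtain rfl : b0 = false := hv _ List.mem_cons_self
    have hv' : Sg false v := fun l hl => hv l (List.mem_cons_of_mem _ hl)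
    by_cases e : a = b
    · subst e
      obtain ⟨u, hu⟩ := hI (s * r) (I.mul_mem_right r hs)
      obtain ⟨v', τ, s', h1, h2⟩ := ih hv' (s * (u⁻¹ : Tˣ)) (I.mul_mem_right _ hs)
      refine ⟨_, coc (D.co a) u * τ, s',
        (h1.wm fun l s => chv (coc (D.co a) u) (lt D l) * s).cons a (r * (u⁻¹ : Tˣ)),
        fun G p => ?_⟩
      rw [p.val_cons, p.val_cons, ← mul_assoc, p.sl2 a s r u hu, mul_assoc, h2, ← p.t_val, map_mul]
      group
    · obtain ⟨v', τ, s', h1, h2⟩ := ih hv' s hs
      refine ⟨_, τ, s', h1.cons b r, fun G p => ?_⟩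
      rw [p.val_cons, p.val_cons, ← mul_assoc, (p.comm a b s r e).eq, mul_assoc, h2]
      group

/-- A word with small parameters can be rewritten in triangular form. -/
theorem rew (I : Ideal T) (hI : ∀ x ∈ I, IsUnit (1 + x)) (w : Wd D T) (hw : ∀ l ∈ w, l.2 ∈ I) :
    ∃ (v : Wd D T) (τ : TP (XL D.r) T) (v' : Wd D T), Sg false v ∧ Sg true v' ∧
      ∀ (G : GF K) (p : APre G D), p.val w = p.val v * p.t τ * p.val v' := by
  induction w with
  | nil => exact ⟨[], 1, [], Sg.nil _, Sg.nil _, fun G p => by simp⟩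
  | cons l w ih =>
    obtain ⟨v, τ, v', h1, h2, h3⟩ := ih fun l hl => hw l (List.mem_cons_of_mem _ hl)
    obtain ⟨⟨b, a⟩, s⟩ := l
    cases b with
    | false =>
      refine ⟨_, τ, v', h1.cons a s, h2, fun G p => ?_⟩
      rw [p.val_cons, p.val_cons, h3]
      group
    | true =>
      obtain ⟨v1, τ1, s1, h4, h5⟩ := pass (K := K) I hI a v h1 s (hw _ List.mem_cons_self)
      refine ⟨v1, τ1 * τ, _, h4, h2.cons a (chv τ⁻¹ (lt D (true, a)) * s1), fun G p => ?_⟩
      rw [p.val_cons, p.val_cons, h3, ← mul_assoc, ← mul_assoc, h5, ← p.x_eqv, map_mul, p.t_inv]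
      group

end Pool.Agent.RED.Iso
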