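import Pool.Agent.P.MP_c1f06d_ag.g.IsoA
import Pool.Agent.P.MP_c1f06d_ag.g.RDL

open Polynomial

universe u

namespace Pool.Agent.RED.Iso

variable {K : Type u} [CommRing K] {D : RD}
  {T T' : Type u} [CommRing T] [Algebra K T] [CommRing T'] [Algebra K T']

theorem lt_eq (b : Bool) (a : Fin D.m) : lt D (b, a) = D.rt (b, D.ix a) := (D.rt_ix b a).symm

theorem exists_pos (D : RD) (b : Bool) : ∃ l : XL D.r →+ ℤ, ∀ j, 0 < l (D.rt (b, j)) := by
  obtain ⟨l, hl⟩ := D.exists_height
  cases b
  · exact ⟨-l, fun j => by simpa [RD0.rt, sg] using D.pos_be hl j⟩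
  · exact ⟨l, fun j => by simpa [RD0.rt, sg] using D.pos_be hl j⟩

theorem exists_fund (b : Bool) (a : Fin D.m) : ∃ l : XL D.r →+ ℤ, l (D.rt (b, D.ix a)) = 0 ∧
    ∀ j, j ≠ D.ix a → 0 < l (D.rt (b, j)) := by
  obtain ⟨l, q, hq, hl⟩ := D.exists_coch fun i => if i = a then 0 else 1
  have key : ∀ x ∈ AddSubmonoid.closure (Set.range D.al), 0 ≤ l x ∧ (l x = 0 → x ∈ ray (D.al a)) := by
    intro x hx
    induction hx using AddSubmonoid.closure_induction with
    | mem x hx =>
      obtain ⟨i, rfl⟩ := hx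
      rw [hl]
      by_cases e : i = a
      · subst e
        exact ⟨by simp, fun _ => ⟨1, 1, one_pos, rfl⟩⟩
      · simp only [e, if_false, mul_one]
        exact ⟨by omega, fun h => by omega⟩
    | zero => exact ⟨by simp, fun _ => zero_mem _⟩
    | add x y _ _ hx hy =>
      rw [map_add]
      exact ⟨add_nonneg hx.1 hy.1, fun h =>
        add_mem (hx.2 (by have := hx.1; have := hy.1; omega))
          (hy.2 (by have := hx.1; have := hy.1; omega))⟩
  have h0 : l (D.be (D.ix a)) = 0 := by rw [D.be_ix, hl]; simp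
  have h1 : ∀ j, j ≠ D.ix a → 0 < l (D.be j) := fun j hj => by
    refine lt_of_le_of_ne (key _ (D.pos j)).1 fun h => hj ?_
    have := D.rt_ray (p := (true, D.ix a)) (q := (true, j)) (by
      simpa [RD0.rt, sg, D.be_ix] using (key _ (D.pos j)).2 h.symm)
    exact congrArg Prod.snd this
  cases b
  · exact ⟨-l, by simpa [RD0.rt, sg] using h0, fun j hj => by simpa [RD0.rt, sg] using h1 j hj⟩
  · exact ⟨l, by simpa [RD0.rt, sg] using h0, fun j hj => by simpa [RD0.rt, sg] using h1 j hj⟩

/-- The constants. -/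
noncomputable abbrev cP (K T : Type u) [CommRing K] [CommRing T] [Algebra K T] : T →ₐ[K] T[X] :=
  IsScalarTower.toAlgHom K T T[X]

/-- Evaluation of polynomials. -/
noncomputable abbrev eP (K : Type u) {T : Type u} [CommRing K] [CommRing T] [Algebra K T] (c : T) :
    T[X] →ₐ[K] T := (aeval c).restrictScalars K

/-- Scaling by the cocharacter `l`. -/
noncomputable def sc {M : Type} [AddCommGroup M] (l : M →+ ℤ) (β : M) (s : T) : T[X] :=
  C s * X ^ (l β).toNat

/-- Conjugation by a cocharacter, as a family over the affine line. -/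
theorem exists_scale (K T : Type u) [CommRing K] [CommRing T] [Algebra K T] {M : Type}
    [AddCommGroup M] (l : M →+ ℤ) :
    ∃ (L : Type u) (_ : CommRing L) (_ : Algebra K L) (i : T[X] →ₐ[K] L) (τ : TP M L),
      Function.Injective i ∧ ∀ β, 0 ≤ l β → ∀ s : T,
        i (sc l β s) = chv τ β * (i.comp (cP K T)) s := by
  let L := Localization.Away (X : T[X])
  obtain ⟨u, hu⟩ : IsUnit (algebraMap T[X] L X) := IsLocalization.Away.algebraMap_isUnit X
  refine ⟨L, inferInstance, inferInstance, IsScalarTower.toAlgHom K T[X] L, coc l u,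
    IsLocalization.injective L (M := Submonoid.powers (X : T[X])) ?_, fun β hβ s => ?_⟩
  · exact Submonoid.powers_le.2 X_mem_nonzeroDivisors
  · have : chv (coc l u) β = (u : L) ^ (l β).toNat := by
      show ((u ^ l β : Lˣ) : L) = _
      conv_lhs => rw [← Int.toNat_of_nonneg hβ, zpow_natCast, Units.val_pow_eq_pow_val]
    rw [this, hu, sc, map_mul, map_pow, mul_comm]
    rfl

namespace APin

variable {G : GF K} (p : APin G D)

theorem t_U (τ : TP (XL D.r) T) (b : Bool) (L : List (Fin D.N)) (s : Fin D.N → T) :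
    p.t τ * p.U b L s * (p.t τ)⁻¹ = p.U b L fun j => chv τ (D.rt (b, j)) * s j := by
  induction L with
  | nil => simp
  | cons β L ih =>
    rw [p.U_cons, p.U_cons, ← ih, ← p.z_eqv τ]
    group

theorem t_un (τ : TP (XL D.r) T) (b : Bool) (s : Fin D.N → T) :
    p.t τ * p.un b s * (p.t τ)⁻¹ = p.un b fun j => chv τ (D.rt (b, j)) * s j := p.t_U τ b _ s

theorem mp_un_sc {L' : Type u} [CommRing L'] [Algebra K L'] {l : XL D.r →+ ℤ} {i : T[X] →ₐ[K] L'}
    {τ : TP (XL D.r) L'}
    (h : ∀ β, 0 ≤ l β → ∀ s : T, i (sc l β s) = chv τ β * (i.comp (cP K T)) s)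
    {b : Bool} (hl : ∀ j, 0 ≤ l (D.rt (b, j))) (s : Fin D.N → T) :
    G.mp i (p.un b fun j => sc l (D.rt (b, j)) (s j)) =
      p.t τ * G.mp (i.comp (cP K T)) (p.un b s) * (p.t τ)⁻¹ := by
  rw [p.mp_un, p.mp_un, p.t_un τ]
  exact congrArg _ (funext fun j => h _ (hl j) _)

theorem mp_val_sc {L' : Type u} [CommRing L'] [Algebra K L'] {l : XL D.r →+ ℤ} {i : T[X] →ₐ[K] L'}
    {τ : TP (XL D.r) L'}
    (h : ∀ β, 0 ≤ l β → ∀ s : T, i (sc l β s) = chv τ β * (i.comp (cP K T)) s)
    {w : Wd D T} (hl : ∀ a ∈ w, 0 ≤ l (lt D a.1)) :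
    G.mp i (p.val (wm (fun a s => sc l (lt D a) s) w)) =
      p.t τ * G.mp (i.comp (cP K T)) (p.val w) * (p.t τ)⁻¹ := by
  rw [p.mp_val, p.mp_val, p.t_val]
  congr 1
  simp only [wm, List.map_map]
  exact List.map_congr_left fun a ha => Prod.ext rfl (h _ (hl a ha) _)

theorem un_inj (b : Bool) {s s' : Fin D.N → T} (h : p.un b s = p.un b s') : s = s' := by
  have := (p.c_inj (Pi.single b s) (Pi.single b s') 1 1 (by rw [p.c_single, p.c_single, h])).1
  simpa using congrFun this b

/-- The coordinate of a simple root is additive. -/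
theorem kap_add (b : Bool) (a : Fin D.m) {s s' s'' : Fin D.N → T}
    (h : p.un b s * p.un b s' = p.un b s'') : s'' (D.ix a) = s (D.ix a) + s' (D.ix a) := by
  obtain ⟨l, h0, hl⟩ := exists_fund b a
  obtain ⟨L, _, _, i, τ, hi, hs⟩ := exists_scale K T l
  have hl' : ∀ j, 0 ≤ l (D.rt (b, j)) := fun j => by
    by_cases e : j = D.ix a
    · rw [e, h0]
    · exact (hl j e).le
  have h1 : (p.un b fun j => sc l (D.rt (b, j)) (s j)) * (p.un b fun j => sc l (D.rt (b, j)) (s' j))
      = p.un b fun j => sc l (D.rt (b, j)) (s'' j) := by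
    apply G.inj i hi
    rw [map_mul, p.mp_un_sc hs hl', p.mp_un_sc hs hl', p.mp_un_sc hs hl', ← h, map_mul]
    group
  have h2 : ∀ r : Fin D.N → T, G.mp (eP K (0 : T)) (p.un b fun j => sc l (D.rt (b, j)) (r j)) =
      p.un b (Pi.single (D.ix a) (r (D.ix a))) := fun r => by
    rw [p.mp_un]
    refine congrArg _ (funext fun j => ?_)
    by_cases e : j = D.ix a
    · subst e
      simp [sc, h0]
    · have : (l (D.rt (b, j))).toNat ≠ 0 := by have := hl j e; omega
      simp [sc, Pi.single_eq_of_ne e, this]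
  have h3 := congrArg (G.mp (eP K (0 : T))) h1
  rw [map_mul, h2, h2, h2, p.un_single, p.un_single, ← p.z_add, ← p.un_single] at h3
  simpa using (congrFun (p.un_inj b h3) (D.ix a)).symm

theorem val_un {b : Bool} {w : Wd D T} (h : Sg b w) : ∃ r, p.val w = p.un b r := by
  induction w with
  | nil => exact ⟨0, (p.un_zero _).symm⟩
  | cons l w ih =>
    obtain ⟨⟨b0, a⟩, s⟩ := l
    obtain rfl : b0 = b := h _ List.mem_cons_self
    obtain ⟨r, hr⟩ := ih fun l hl => h l (List.mem_cons_of_mem _ hl)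
    obtain ⟨r'', hr''⟩ := p.un_mul b0 (Pi.single (D.ix a) s) r
    exact ⟨r'', by rw [p.val_cons, hr, ← hr'', p.un_single, p.z_simple]⟩

theorem inv_un (b : Bool) (s : Fin D.N → T) : ∃ r, (p.un b s)⁻¹ = p.un b r := by
  have : ∀ L : List (Fin D.N), ∃ r, (p.U b L s)⁻¹ = p.un b r := by
    intro L
    induction L with
    | nil => exact ⟨0, by simp [p.un_zero]⟩
    | cons β L ih =>
      obtain ⟨r, hr⟩ := ih
      obtain ⟨r', hr'⟩ := p.un_mul b r (Pi.single β (-s β))
      exact ⟨r', by rw [p.U_cons, mul_inv_rev, hr, ← hr', p.un_single, p.z_neg]⟩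
  exact this _

/-- The sum of the parameters of the letters `a`. -/
def _root_.Pool.Agent.RED.Iso.ksum (a : Fin D.m) (w : Wd D T) : T :=
  (w.map fun l => if l.1.2 = a then l.2 else 0).sum

theorem val_kap (a : Fin D.m) {b : Bool} {w : Wd D T} (h : Sg b w) {r : Fin D.N → T}
    (hr : p.val w = p.un b r) : r (D.ix a) = ksum a w := by
  induction w generalizing r with
  | nil =>
    have := congrFun (p.un_inj b (hr.symm.trans (p.un_zero b).symm)) (D.ix a)
    simpa [ksum] using this
  | cons l w ih =>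
    obtain ⟨⟨b0, c⟩, s⟩ := l
    obtain rfl : b0 = b := h _ List.mem_cons_self
    have h' : Sg b0 w := fun l hl => h l (List.mem_cons_of_mem _ hl)
    obtain ⟨r', hr'⟩ := p.val_un h'
    rw [p.val_cons, hr', ← p.z_simple, ← p.un_single] at hr
    rw [p.kap_add b0 a hr, ih h' hr']
    by_cases e : c = a
    · subst e
      simp [ksum]
    · have : D.ix a ≠ D.ix c := fun e' => e (by rw [← D.sm_ix a, e', D.sm_ix])
      simp [ksum, e, Pi.single_eq_of_ne this]

/-- Adding a factor that commutes with everything. -/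
theorem U_mul_z (b : Bool) {L : List (Fin D.N)} (hL : L.Nodup) {δ : Fin D.N} (hδ : δ ∈ L)
    (s : Fin D.N → T) (j : T) (hc : ∀ β, Commute (p.z b β (s β)) (p.z b δ j)) :
    p.U b L s * p.z b δ j = p.U b L (s + Pi.single δ j) := by
  induction L with
  | nil => simp at hδ
  | cons β L ih =>
    rw [List.nodup_cons] at hL
    by_cases e : β = δ
    · subst e
      have h1 : Commute (p.U b L s) (p.z b β j) := by
        refine Commute.list_prod_left _ _ fun y hy => ?_
        obtain ⟨γ, _, rfl⟩ := List.mem_map.1 hy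
        exact hc γ
      rw [p.U_cons, p.U_cons, mul_assoc, h1.eq, ← mul_assoc, ← p.z_add]
      congr 1
      · simp
      · exact p.U_congr b fun γ hγ => by
          rw [Pi.add_apply, Pi.single_eq_of_ne (by rintro rfl; exact hL.1 hγ), add_zero]
    · rw [p.U_cons, p.U_cons, mul_assoc, ih hL.2 ((List.mem_cons.1 hδ).resolve_left (Ne.symm e)),
        Pi.add_apply, Pi.single_eq_of_ne e, add_zero]

/-- A product of root elements with parameters in an ideal of square zero, in cell form. -/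
theorem abel (J : Ideal T) (hJ : J * J = ⊥) (F : List ((Bool × Fin D.N) × T))
    (hF : ∀ f ∈ F, f.2 ∈ J) :
    ∃ s : Bool → Fin D.N → T, (∀ b j, s b j ∈ J) ∧
      (F.map fun f => p.z f.1.1 f.1.2 f.2).prod = p.c s 1 ∧
      ∀ b j, s b j = (F.map fun f => if f.1 = (b, j) then f.2 else 0).sum := by
  have hz : ∀ b β, ∀ j ∈ J, G.mp (Ideal.Quotient.mkₐ K J) (p.z b β j) = 1 := fun b β j hj => by
    rw [p.mp_z, Ideal.Quotient.mkₐ_eq_mk, Ideal.Quotient.eq_zero_iff_mem.2 hj, p.z_zero]
  have hU : ∀ (b : Bool) (s : Fin D.N → T), (∀ β, s β ∈ J) →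
      G.mp (Ideal.Quotient.mkₐ K J) (p.un b s) = 1 := fun b s hs => by
    rw [p.mp_un, ← p.un_zero b]
    exact congrArg _ (funext fun β => Ideal.Quotient.eq_zero_iff_mem.2 (hs β))
  induction F with
  | nil => exact ⟨0, fun _ _ => J.zero_mem, p.c_one.symm, fun _ _ => rfl⟩
  | cons f F ih =>
    obtain ⟨s, hs, h1, h2⟩ := ih fun f hf => hF f (List.mem_cons_of_mem _ hf)
    obtain ⟨⟨b, δ⟩, j⟩ := f
    have hj : j ∈ J := hF _ List.mem_cons_self
    have e : ∀ b' β, (s + Pi.single b (Pi.single δ j) : Bool → Fin D.N → T) b' β =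
        (if (b, δ) = (b', β) then j else 0) + s b' β := fun b' β => by
      by_cases e1 : b' = b
      · subst e1
        by_cases e2 : β = δ
        · subst e2
          simp [add_comm]
        · simp [Ne.symm e2]
      · simp [Ne.symm e1]
    have c1 := G.sq J hJ _ _ (hz b δ j hj) (hU false _ (hs false))
    have c2 := G.sq J hJ _ _ (hz b δ j hj) (hU true _ (hs true))
    have c3 : p.un b (s b) * p.z b δ j = p.un b (s b + Pi.single δ j) :=
      p.U_mul_z b (List.nodup_finRange _) (List.mem_finRange δ) (s b) j fun β =>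
        G.sq J hJ _ _ (hz b β _ (hs b β)) (hz b δ j hj)
    refine ⟨s + Pi.single b (Pi.single δ j), fun b' β => ?_, ?_, fun b' β => ?_⟩
    · rw [e]
      refine J.add_mem ?_ (hs b' β)
      split_ifs
      · exact hj
      · exact J.zero_mem
    · rw [List.map_cons, List.prod_cons, h1, APre.c, APre.c, map_one, mul_one, mul_one,
        ← mul_assoc, c1.eq]
      cases b
      · simp [← c3]
      · simp [← c3, mul_assoc, c2.eq]
    · rw [e, List.map_cons, List.sum_cons, h2]

end APin

end Pool.Agent.RED.Iso
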