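import Pool.Agent.P.MP_c1f06d_ag.g.IsoB

open Polynomial

universe u

namespace Pool.Agent.RED.Iso

variable {K : Type u} [CommRing K] {D : RD}
  {T T' : Type u} [CommRing T] [Algebra K T] [CommRing T'] [Algebra K T']

/-- Polynomials embed in a ring in which the variable is topologically nilpotent. -/
theorem exists_small (K T : Type u) [CommRing K] [CommRing T] [Algebra K T] :
    ∃ (T₁ : Type u) (_ : CommRing T₁) (_ : Algebra K T₁) (f : T[X] →ₐ[K] T₁) (I : Ideal T₁),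
      Function.Injective f ∧ (∀ x ∈ I, IsUnit (1 + x)) ∧ f X ∈ I := by
  refine ⟨PowerSeries T, inferInstance, inferInstance,
    { coeToPowerSeries.ringHom with commutes' := fun c => ?_ },
    RingHom.ker PowerSeries.constantCoeff, Polynomial.coe_injective T, fun x hx => ?_, ?_⟩
  · show ((C (algebraMap K T c) : T[X]) : PowerSeries T) = _
    rw [coe_C, PowerSeries.algebraMap_apply]
  · rw [PowerSeries.isUnit_iff_constantCoeff, map_add, RingHom.mem_ker.1 hx]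
    simp
  · show PowerSeries.constantCoeff ((X : T[X]) : PowerSeries T) = 0
    simp

/-- The word with all parameters multiplied by the variable. -/
noncomputable def wX (w : Wd D T) : Wd D T[X] := wm (fun _ s => C s * X) w

theorem APre.mp_wX {G : GF K} (p : APre G D) (w : Wd D T) :
    G.mp (eP K (1 : T)) (p.val (wX w)) = p.val w := by
  rw [p.mp_val]
  congr 1
  simp only [wX, wm, List.map_map]
  conv_rhs => rw [← List.map_id w]
  exact List.map_congr_left fun a _ => Prod.ext rfl (by simp)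

theorem exists_tri (K : Type u) [CommRing K] [Algebra K T] (w : Wd D T) :
    ∃ (T₁ : Type u) (_ : CommRing T₁) (_ : Algebra K T₁) (f : T[X] →ₐ[K] T₁)
      (v : Wd D T₁) (τ : TP (XL D.r) T₁) (v' : Wd D T₁), Function.Injective f ∧ Sg false v ∧ Sg true v' ∧
      ∀ (G : GF K) (p : APre G D), G.mp f (p.val (wX w)) = p.val v * p.t τ * p.val v' := by
  obtain ⟨T₁, _, _, f, I, hf, hI, hX⟩ := exists_small K T
  obtain ⟨v, τ, v', h1, h2, h3⟩ := rew (K := K) I hI (wm (fun _ => f) (wX w)) fun l hl => by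
    simp only [wX, wm, List.map_map, List.mem_map] at hl
    obtain ⟨a, _, rfl⟩ := hl
    show f (C a.2 * X) ∈ I
    rw [map_mul]
    exact I.mul_mem_left _ hX
  exact ⟨T₁, _, _, f, v, τ, v', hf, h1, h2, fun G p => by rw [p.mp_val, h3]⟩

theorem APin.coord {G : GF K} (p : APin G D) (φ : T →ₐ[K] T') {s : Bool → Fin D.N → T}
    {τ : TP (XL D.r) T} {s' : Bool → Fin D.N → T'} {τ' : TP (XL D.r) T'}
    (h : G.mp φ (p.c s τ) = p.c s' τ') : (fun b j => φ (s b j)) = s' ∧ tm φ τ = τ' :=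
  p.c_inj _ _ _ _ (by rw [← p.mp_c, h])

theorem APin.tri {G : GF K} (p : APin G D) {v v' : Wd D T} (hv : Sg false v) (hv' : Sg true v')
    (τ : TP (XL D.r) T) : ∃ s : Bool → Fin D.N → T, p.val v = p.un false (s false) ∧
      p.val v' = p.un true (s true) ∧ p.val v * p.t τ * p.val v' = p.c s τ := by
  obtain ⟨σ, a⟩ := p.val_un hv
  obtain ⟨ρ, b⟩ := p.val_un hv'
  exact ⟨fun e => cond e ρ σ, a, b, by rw [a, b]; rfl⟩

variable {G₁ G₂ : GF K} (p₁ : APin G₁ D) (p₂ : APin G₂ D)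

/-- The coordinates of simple roots agree on words that lie in both cells. -/
theorem mtch (b : Bool) (a : Fin D.m) (w : Wd D T) {s₁ s₂ : Bool → Fin D.N → T}
    {τ₁ τ₂ : TP (XL D.r) T} (h₁ : p₁.val w = p₁.c s₁ τ₁) (h₂ : p₂.val w = p₂.c s₂ τ₂) :
    s₁ b (D.ix a) = s₂ b (D.ix a) := by
  obtain ⟨T₁, _, _, f, v, τ, v', hf, hv, hv', h⟩ := exists_tri K w
  obtain ⟨σ₁, a₁, b₁, e₁⟩ := p₁.tri hv hv' τ
  obtain ⟨σ₂, a₂, b₂, e₂⟩ := p₂.tri hv hv' τ
  rw [← h] at e₁ e₂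
  have k : σ₁ b (D.ix a) = σ₂ b (D.ix a) := by
    cases b
    · exact (p₁.val_kap a hv a₁).trans (p₂.val_kap a hv a₂).symm
    · exact (p₁.val_kap a hv' b₁).trans (p₂.val_kap a hv' b₂).symm
  obtain ⟨W, W₁, _, _, _, _, l, F, l₁, hF, hc, ⟨x₁, θ₁, c₁⟩, u₁⟩ :=
    p₁.fc f hf (p₁.val (wX w))
  obtain ⟨W', W₁', _, _, _, _, l', F', l₁', hF', hc', ⟨x₂, θ₂, c₂⟩, u₂⟩ :=
    p₂.fc F hF (G₂.mp l (p₂.val (wX w)))
  obtain ⟨m, hm⟩ := u₁ T (eP K (1 : T)) ⟨_, _, (p₁.mp_wX w).trans h₁⟩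
  obtain ⟨m', hm'⟩ := u₂ T m ⟨_, _, by rw [G₂.mp_mp, hm, p₂.mp_wX, h₂]⟩
  have q₁ := congrFun₂ (p₁.coord (l₁'.comp F) (s := x₁) (τ := θ₁) (by
    rw [← c₁, G₁.mp_mp, AlgHom.comp_assoc, hc, ← AlgHom.comp_assoc, ← G₁.mp_mp, e₁,
      p₁.mp_c])).1 b (D.ix a)
  have q₂ := congrFun₂ (p₂.coord F' (s := x₂) (τ := θ₂) (by
    rw [← c₂, G₂.mp_mp, hc', G₂.mp_mp, AlgHom.comp_assoc, hc, ← AlgHom.comp_assoc, ← G₂.mp_mp, e₂,
      p₂.mp_c])).1 b (D.ix a)
  have q : l' (x₁ b (D.ix a)) = x₂ b (D.ix a) := hF' (by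
    rw [q₂, ← k, ← q₁]
    exact AlgHom.congr_fun hc' _)
  have t₁ := congrFun₂ (p₁.coord m (s := x₁) (τ := θ₁) (by
    rw [← c₁, G₁.mp_mp, hm, p₁.mp_wX, h₁])).1 b (D.ix a)
  have t₂ := congrFun₂ (p₂.coord m' (s := x₂) (τ := θ₂) (by
    rw [← c₂, G₂.mp_mp, hm', G₂.mp_mp, hm, p₂.mp_wX, h₂])).1 b (D.ix a)
  rw [← t₁, ← t₂, ← q]
  exact (AlgHom.congr_fun hm' _).symm

/-- A word that is trivial in the first group and a product of first order root elements in the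
second group is trivial. -/
theorem first_order (J : Ideal T) (hJ : J * J = ⊥) (b : Bool) (w : Wd D T) (q : Fin D.N → T)
    (hq : ∀ j, q j ∈ J) (h₁ : p₁.val w = 1) (h₂ : p₂.val w = p₂.un b q) (β : Fin D.N) :
    q β = 0 := by
  have key : ∀ γ, ∃ f : (Bool × Fin D.N) × T, f.2 ∈ J ∧
      (p₂.N T (D.wd β))⁻¹ * p₂.z b γ (q γ) * p₂.N T (D.wd β) = p₂.z f.1.1 f.1.2 f.2 ∧
      (if f.1 = (b, D.ix (D.sm β)) then f.2 else 0) = if γ = β then q β else 0 := fun γ => by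
    by_cases e : γ = β
    · subst e
      refine ⟨((b, D.ix (D.sm γ)), q γ), hq γ, ?_, by simp⟩
      rw [p₂.z_simple, APre.z]
      simp [mul_assoc]
    · obtain ⟨δ, h2, h3⟩ := p₂.z_cj (b, β) (b, γ) fun h => e (congrArg Prod.snd h)
      obtain ⟨c, hc⟩ := h3 T (q γ)
      exact ⟨(δ, c * q γ), J.mul_mem_left _ (hq γ), hc, by simp [e, h2]⟩
  choose F hF using key
  obtain ⟨s, _, e1, e2⟩ := p₂.abel J hJ ((List.finRange D.N).map F) fun f hf => by
    obtain ⟨γ, _, rfl⟩ := List.mem_map.1 hf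
    exact (hF γ).1
  have e3 : ∀ L : List (Fin D.N), (p₂.N T (D.wd β))⁻¹ * p₂.U b L q * p₂.N T (D.wd β) =
        ((L.map F).map fun f => p₂.z f.1.1 f.1.2 f.2).prod := fun L => by
    induction L with
    | nil => simp
    | cons γ L ih =>
      rw [p₂.U_cons, List.map_cons, List.map_cons, List.prod_cons, ← ih, ← (hF γ).2.1]
      group
  have e4 := mtch p₁ p₂ b (D.sm β) (winv (nw T (D.wd β)) ++ w ++ nw T (D.wd β)) (s₁ := 0)
    (τ₁ := 1) (by rw [p₁.val_append, p₁.val_append, p₁.val_winv, h₁, p₁.c_one]; simp)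
    (by rw [p₂.val_append, p₂.val_append, p₂.val_winv, p₂.val_nw, h₂, APre.un, e3, e1])
  rw [e2, List.map_map, Function.comp_def,
    List.map_congr_left (g := fun γ => if γ = β then q β else 0)
    fun γ _ => (hF γ).2.2, List.sum_map_eq_nsmul_single β _ fun γ h _ => if_neg h,
    List.count_eq_one_of_mem (List.nodup_finRange _) (List.mem_finRange β)] at e4
  simpa using e4.symm

/-- Words of one sign have the same coordinates in both groups. -/
theorem diag (b : Bool) {w : Wd D T} (hw : Sg b w) {r : Fin D.N → T} (h : p₁.val w = p₁.un b r) :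
    p₂.val w = p₂.un b r := by
  obtain ⟨r₂, h₂⟩ := p₂.val_un hw
  obtain ⟨r', h'⟩ := p₂.inv_un b r
  obtain ⟨q, hq⟩ := p₂.un_mul b r' r₂
  rw [← h', ← h₂] at hq
  obtain ⟨l, hl⟩ := exists_pos D b
  have hl1 : ∀ j, 0 ≤ l (D.rt (b, j)) := fun j => (hl j).le
  have hl2 : ∀ a ∈ w, 0 ≤ l (lt D a.1) := fun a ha => by
    have : a.1 = (b, a.1.2) := Prod.ext (hw a ha) rfl
    rw [this, lt_eq]
    exact hl1 _
  obtain ⟨L, _, _, i, τ, hi, hs⟩ := exists_scale K T l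
  let w₀ : Wd D T[X] := winv (Uw D b (List.finRange D.N) fun j => sc l (D.rt (b, j)) (r j)) ++
    wm (fun a s => sc l (lt D a) s) w
  have e₁ : p₁.val w₀ = 1 := by
    apply G₁.inj i hi
    rw [p₁.val_append, p₁.val_winv, p₁.val_Uw, map_mul, map_inv, ← APre.un, p₁.mp_un_sc hs hl1,
      p₁.mp_val_sc hs hl2, h, inv_mul_cancel, map_one]
  have e₂ : p₂.val w₀ = p₂.un b fun j => sc l (D.rt (b, j)) (q j) := by
    apply G₂.inj i hi
    rw [p₂.val_append, p₂.val_winv, p₂.val_Uw, map_mul, map_inv, ← APre.un, p₂.mp_un_sc hs hl1,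
      p₂.mp_val_sc hs hl2, p₂.mp_un_sc hs hl1, ← hq, map_mul, map_inv]
    group
  have key : ∀ n : ℕ, ∀ β, (l (D.rt (b, β))).toNat = n → q β = 0 := by
    intro n
    induction n using Nat.strong_induction_on with
    | _ n ih =>
      intro β hn
      have hn0 : 0 < n := by have := hl β; omega
      let I : Ideal T[X] := Ideal.span {X ^ (n + 1)}
      let π : T[X] →ₐ[K] T[X] ⧸ I := Ideal.Quotient.mkₐ K I
      have hJ : Ideal.span {π (X ^ n)} * Ideal.span {π (X ^ n)} = ⊥ := by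
        rw [Ideal.span_singleton_mul_span_singleton, Ideal.span_singleton_eq_bot, ← map_mul,
          ← pow_add]
        exact Ideal.Quotient.eq_zero_iff_mem.2
          (Ideal.mem_span_singleton.2 (pow_dvd_pow _ (by omega)))
      have h0 := first_order p₁ p₂ _ hJ b (wm (fun _ => π) w₀)
        (fun γ => π (sc l (D.rt (b, γ)) (q γ))) (fun γ => by
          rcases lt_or_ge (l (D.rt (b, γ))).toNat n with h | h
          · rw [ih _ h γ rfl, sc, map_zero, zero_mul, map_zero]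
            exact Ideal.zero_mem _
          · exact Ideal.mem_span_singleton.2
              (map_dvd π (Dvd.dvd.mul_left (pow_dvd_pow _ h) _)))
        (by rw [← p₁.mp_val, e₁, map_one]) (by rw [← p₂.mp_val, e₂, p₂.mp_un]) β
      have h1 := X_pow_dvd_iff.1 (Ideal.mem_span_singleton.1
        (Ideal.Quotient.eq_zero_iff_mem.1 h0)) n (Nat.lt_succ_self n)
      rwa [sc, hn, coeff_C_mul_X_pow, if_pos rfl] at h1
  rw [show q = 0 from funext fun β => key _ β rfl, p₂.un_zero] at hq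
  exact (inv_mul_eq_one.1 hq).symm

/-- A word in the first cell lies in the second cell, with the same coordinates. -/
theorem cell_val (w : Wd D T) {s : Bool → Fin D.N → T} {τ : TP (XL D.r) T}
    (h₁ : p₁.val w = p₁.c s τ) : p₂.val w = p₂.c s τ := by
  obtain ⟨T₁, _, _, f, v, θ, v', hf, hv, hv', h⟩ := exists_tri K w
  obtain ⟨σ, a₁, b₁, e₁⟩ := p₁.tri hv hv' θ
  rw [← h] at e₁
  have e₂ : G₂.mp f (p₂.val (wX w)) = p₂.c σ θ := by
    rw [h, diag p₁ p₂ false hv a₁, diag p₁ p₂ true hv' b₁]; rfl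
  obtain ⟨W, W₁, _, _, _, _, l, F, l₁, hF, hc, ⟨x₁, θ₁, c₁⟩, u₁⟩ :=
    p₁.fc f hf (p₁.val (wX w))
  obtain ⟨m, hm⟩ := u₁ T (eP K (1 : T)) ⟨_, _, (p₁.mp_wX w).trans h₁⟩
  obtain ⟨q₁, q₂⟩ := p₁.coord F (s := x₁) (τ := θ₁) (by
    rw [← c₁, G₁.mp_mp, hc, ← G₁.mp_mp, e₁, p₁.mp_c])
  have e₃ : G₂.mp l (p₂.val (wX w)) = p₂.c x₁ θ₁ := by
    apply G₂.inj F hF
    rw [G₂.mp_mp, hc, ← G₂.mp_mp, e₂, p₂.mp_c, p₂.mp_c, q₁, q₂]
  obtain ⟨t₁, t₂⟩ := p₁.coord m (s := x₁) (τ := θ₁) (by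
    rw [← c₁, G₁.mp_mp, hm, p₁.mp_wX, h₁])
  rw [← p₂.mp_wX, ← hm, ← G₂.mp_mp, e₃, p₂.mp_c, t₁, t₂]

end Pool.Agent.RED.Iso
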