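import Pool.Agent.P.MP_c1f06d_ag.g.Defs

universe u

namespace Pool.Agent.RED.Iso

/-- A group valued sheaf on `K`-algebras. -/
structure GF (K : Type u) [CommRing K] where
  P : (T : Type u) → [CommRing T] → [Algebra K T] → Type u
  [grp : ∀ (T : Type u) [CommRing T] [Algebra K T], Group (P T)]
  mp : ∀ {T T' : Type u} [CommRing T] [Algebra K T] [CommRing T'] [Algebra K T'],
    (T →ₐ[K] T') → (P T →* P T')
  mp_mp : ∀ {T T' T'' : Type u} [CommRing T] [Algebra K T] [CommRing T'] [Algebra K T']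
    [CommRing T''] [Algebra K T''] (f : T →ₐ[K] T') (f' : T' →ₐ[K] T'') (g : P T),
    mp f' (mp f g) = mp (f'.comp f) g
  mp_id : ∀ {T : Type u} [CommRing T] [Algebra K T] (g : P T), mp (AlgHom.id K T) g = g
  inj : ∀ {T T' : Type u} [CommRing T] [Algebra K T] [CommRing T'] [Algebra K T']
    (f : T →ₐ[K] T'), Function.Injective f → Function.Injective (mp f)
  sq : ∀ {T : Type u} [CommRing T] [Algebra K T] (J : Ideal T), J * J = ⊥ → ∀ g h : P T,
    mp (Ideal.Quotient.mkₐ K J) g = 1 → mp (Ideal.Quotient.mkₐ K J) h = 1 → Commute g h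
  desc : ∀ {T T' : Type u} [CommRing T] [Algebra K T] [CommRing T'] [Algebra K T']
    (f : T →ₐ[K] T'), (f : T →+* T').FaithfullyFlat → ∀ g' : P T',
    (∀ (T'' : Type u) [CommRing T''] [Algebra K T''] (i i' : T' →ₐ[K] T''),
      i.comp f = i'.comp f → mp i g' = mp i' g') → ∃ g, mp f g = g'

attribute [instance] GF.grp

variable {K : Type u} [CommRing K]

/-- The root of a letter. -/
def lt (D : RD) (l : Bool × Fin D.m) : XL D.r := sg l.1 • D.al l.2

/-- Words in the simple root groups and their opposites. -/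
abbrev Wd (D : RD) (T : Type u) : Type u := List ((Bool × Fin D.m) × T)

/-- A torus and simple root curves with the rank one relations. -/
structure APre (G : GF K) (D : RD) where
  t : ∀ {T : Type u} [CommRing T] [Algebra K T], TP (XL D.r) T →* G.P T
  x : ∀ {T : Type u} [CommRing T] [Algebra K T], Bool × Fin D.m → T → G.P T
  t_nat : ∀ {T T' : Type u} [CommRing T] [Algebra K T] [CommRing T'] [Algebra K T']
    (f : T →ₐ[K] T') (τ : TP (XL D.r) T), G.mp f (t τ) = t (tm f τ)
  x_nat : ∀ {T T' : Type u} [CommRing T] [Algebra K T] [CommRing T'] [Algebra K T']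
    (f : T →ₐ[K] T') (l : Bool × Fin D.m) (s : T), G.mp f (x l s) = x l (f s)
  x_add : ∀ {T : Type u} [CommRing T] [Algebra K T] (l : Bool × Fin D.m) (s r : T),
    x l (s + r) = x l s * x l r
  x_eqv : ∀ {T : Type u} [CommRing T] [Algebra K T] (τ : TP (XL D.r) T) (l : Bool × Fin D.m)
    (s : T), t τ * x l s * (t τ)⁻¹ = x l (chv τ (lt D l) * s)
  sl2 : ∀ {T : Type u} [CommRing T] [Algebra K T] (a : Fin D.m) (s r : T) (v : Tˣ),
    (v : T) = 1 + s * r → x (true, a) s * x (false, a) r =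
      x (false, a) (r * (v⁻¹ : Tˣ)) * t (coc (D.co a) v) * x (true, a) (s * (v⁻¹ : Tˣ))
  comm : ∀ {T : Type u} [CommRing T] [Algebra K T] (a b : Fin D.m) (s r : T), a ≠ b →
    Commute (x (true, a) s) (x (false, b) r)

namespace APre

variable {G : GF K} {D : RD} (p : APre G D) {T : Type u} [CommRing T] [Algebra K T]

/-- The value of a word. -/
def val (w : Wd D T) : G.P T := (w.map fun l => p.x l.1 l.2).prod

/-- The representative of the simple reflection. -/
def n (T : Type u) [CommRing T] [Algebra K T] (a : Fin D.m) : G.P T :=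
  p.x (true, a) 1 * p.x (false, a) (-1) * p.x (true, a) 1

/-- The representative of a product of simple reflections. -/
def N (T : Type u) [CommRing T] [Algebra K T] (w : List (Fin D.m)) : G.P T := (w.map (p.n T)).prod

/-- The root curve of any root. -/
def z (b : Bool) (j : Fin D.N) (s : T) : G.P T :=
  p.N T (D.wd j) * p.x (b, D.sm j) s * (p.N T (D.wd j))⁻¹

/-- The ordered product of root curves. -/
def U (b : Bool) (L : List (Fin D.N)) (s : Fin D.N → T) : G.P T :=
  (L.map fun j => p.z b j (s j)).prod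

/-- The ordered product of all root curves of one sign. -/
def un (b : Bool) (s : Fin D.N → T) : G.P T := p.U b (List.finRange D.N) s

/-- The cell map. -/
def c (s : Bool → Fin D.N → T) (τ : TP (XL D.r) T) : G.P T :=
  p.un false (s false) * p.t τ * p.un true (s true)

/-- The big cell. -/
def Cell (g : G.P T) : Prop := ∃ s τ, g = p.c s τ

end APre

/-- A pinning. -/
structure APin (G : GF K) (D : RD) extends APre G D where
  z_eqv : ∀ {T : Type u} [CommRing T] [Algebra K T] (τ : TP (XL D.r) T) (b : Bool) (j : Fin D.N)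
    (s : T), t τ * toAPre.z b j s * (t τ)⁻¹ = toAPre.z b j (chv τ (D.rt (b, j)) * s)
  z_cj : ∀ β γ : Bool × Fin D.N, γ ≠ β → ∃ δ : Bool × Fin D.N, δ ≠ (β.1, D.ix (D.sm β.2)) ∧
    ∀ (T : Type u) [CommRing T] [Algebra K T] (s : T), ∃ e : T,
      (toAPre.N T (D.wd β.2))⁻¹ * toAPre.z γ.1 γ.2 s * toAPre.N T (D.wd β.2) =
        toAPre.z δ.1 δ.2 (e * s)
  c_inj : ∀ {T : Type u} [CommRing T] [Algebra K T] (s s' : Bool → Fin D.N → T)
    (τ τ' : TP (XL D.r) T), toAPre.c s τ = toAPre.c s' τ' → s = s' ∧ τ = τ'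
  un_mul : ∀ {T : Type u} [CommRing T] [Algebra K T] (b : Bool) (s s' : Fin D.N → T), ∃ s'',
    toAPre.un b s * toAPre.un b s' = toAPre.un b s''
  fc : ∀ {T T₁ : Type u} [CommRing T] [Algebra K T] [CommRing T₁] [Algebra K T₁]
    (f : T →ₐ[K] T₁), Function.Injective f → ∀ g : G.P T,
    ∃ (W W₁ : Type u) (_ : CommRing W) (_ : Algebra K W) (_ : CommRing W₁) (_ : Algebra K W₁)
      (l : T →ₐ[K] W) (F : W →ₐ[K] W₁) (l₁ : T₁ →ₐ[K] W₁), Function.Injective F ∧
      F.comp l = l₁.comp f ∧ toAPre.Cell (G.mp l g) ∧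
      ∀ (S : Type u) [CommRing S] [Algebra K S] (e : T →ₐ[K] S), toAPre.Cell (G.mp e g) →
        ∃ m : W →ₐ[K] S, m.comp l = e
  cov : ∀ {T : Type u} [CommRing T] [Algebra K T] (g : G.P T),
    ∃ (T' : Type u) (_ : CommRing T') (_ : Algebra K T') (f : T →ₐ[K] T'),
      (f : T →+* T').FaithfullyFlat ∧ G.mp f g ∈ Subgroup.closure {h : G.P T' | toAPre.Cell h}

end Pool.Agent.RED.Iso
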