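import Pool.Agent.P.MP_c1f06d_ag.g.IsoD

open TensorProduct WithConv

universe u

namespace Pool.Agent.RED.Iso

variable {R A S S' : Type u} [CommRing R] [CommRing A] [HopfAlgebra R A] [CommRing S] [Algebra R S]
  [CommRing S'] [Algebra R S']

theorem pm_injective (f : S →ₐ[R] S') (hf : Function.Injective f) :
    Function.Injective (pm (A := A) f) := by
  intro g h e
  refine WithConv.ext (AlgHom.ext fun a => hf ?_)
  rw [← pm_apply, ← pm_apply, e]

theorem isoH_mul {ι : Type u} {a : A} (r : Coalgebra.Repr R a ι) (x y : Pt R A S) :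
    (x * y).ofConv a = ∑ i ∈ r.index, x.ofConv (r.left i) * y.ofConv (r.right i) := by
  rw [RG.pt_mul_apply, ← r.eq, map_sum]
  simp

theorem isoH_sq (J : Ideal S) (hJ : J * J = ⊥) (g h : Pt R A S)
    (hg : pm (Ideal.Quotient.mkₐ R J) g = 1) (hh : pm (Ideal.Quotient.mkₐ R J) h = 1) (a : A) :
    (g * h).ofConv a = g.ofConv a + h.ofConv a - (1 : Pt R A S).ofConv a := by
  have key : ∀ k : Pt R A S, pm (Ideal.Quotient.mkₐ R J) k = 1 → ∀ b,
      k.ofConv b - (1 : Pt R A S).ofConv b ∈ J := by
    intro k hk b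
    rw [← Ideal.Quotient.eq]
    have h1 := pm_apply (Ideal.Quotient.mkₐ R J) k b
    have h2 := pm_apply (Ideal.Quotient.mkₐ R J) (1 : Pt R A S) b
    rw [hk] at h1
    rw [map_one] at h2
    exact h1.symm.trans h2
  let r := Coalgebra.Repr.arbitrary R a
  have e1 := isoH_mul r g 1
  have e2 := isoH_mul r 1 h
  have e3 := isoH_mul r (1 : Pt R A S) 1
  rw [mul_one] at e1 e3
  rw [one_mul] at e2
  rw [isoH_mul r, e1, e2, e3, ← Finset.sum_add_distrib, ← Finset.sum_sub_distrib]
  refine Finset.sum_congr rfl fun i _ => ?_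
  have h0 := Ideal.mul_mem_mul (key g hg (r.left i)) (key h hh (r.right i))
  rw [hJ, Ideal.mem_bot] at h0
  linear_combination h0

/-- Points congruent to `1` modulo an ideal of square zero commute. -/
theorem pm_sq (J : Ideal S) (hJ : J * J = ⊥) (g h : Pt R A S)
    (hg : pm (Ideal.Quotient.mkₐ R J) g = 1) (hh : pm (Ideal.Quotient.mkₐ R J) h = 1) :
    Commute g h := by
  refine WithConv.ext (AlgHom.ext fun a => ?_)
  rw [isoH_sq J hJ g h hg hh, isoH_sq J hJ h g hh hg, add_comm]

/-- Faithfully flat descent of points. -/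
theorem pm_desc (f : S →ₐ[R] S') (hf : (f : S →+* S').FaithfullyFlat) (g' : Pt R A S')
    (h : ∀ (T : Type u) [CommRing T] [Algebra R T] (i i' : S' →ₐ[R] T),
      i.comp f = i'.comp f → pm i g' = pm i' g') : ∃ g : Pt R A S, pm f g = g' := by
  let : Algebra S S' := (f : S →+* S').toAlgebra
  have : IsScalarTower R S S' := IsScalarTower.of_algebraMap_eq fun r => (f.commutes r).symm
  have : Module.FaithfullyFlat S S' := hf
  have hinj : Function.Injective f := hf.injective
  have h1 := h (S' ⊗[S] S') Algebra.TensorProduct.includeLeft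
    (Algebra.TensorProduct.includeRight.restrictScalars R) (AlgHom.ext fun s =>
      Algebra.TensorProduct.tmul_one_eq_one_tmul (R := S) s)
  have h2 : ∀ a, g'.ofConv a ∈ f.range := by
    intro a
    have h3 : g'.ofConv a ⊗ₜ[S] (1 : S') = 1 ⊗ₜ[S] g'.ofConv a :=
      congrArg (fun k : Pt R A (S' ⊗[S] S') => k.ofConv a) h1
    exact (Algebra.IsEffective.of_faithfullyFlat S S' (g'.ofConv a)).1 (sub_eq_zero.2 h3)
  refine ⟨toConv (((AlgEquiv.ofInjective f hinj).symm : f.range →ₐ[R] S).comp
    (g'.ofConv.codRestrict f.range h2)), WithConv.ext (AlgHom.ext fun a => ?_)⟩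
  exact congrArg Subtype.val ((AlgEquiv.ofInjective f hinj).apply_symm_apply ⟨_, h2 a⟩)

/-- Push-out of a faithfully flat map. -/
theorem exists_push {T : Type u} [CommRing T] [Algebra R T] (f : S →ₐ[R] S')
    (hf : (f : S →+* S').FaithfullyFlat) (e : S →ₐ[R] T) :
    ∃ (T' : Type u) (_ : CommRing T') (_ : Algebra R T') (f' : T →ₐ[R] T') (e' : S' →ₐ[R] T'),
      (f' : T →+* T').FaithfullyFlat ∧ f'.comp e = e'.comp f := by
  let : Algebra S S' := (f : S →+* S').toAlgebra
  let : Algebra S T := (e : S →+* T).toAlgebra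
  have : IsScalarTower R S S' := IsScalarTower.of_algebraMap_eq fun r => (f.commutes r).symm
  have : IsScalarTower R S T := IsScalarTower.of_algebraMap_eq fun r => (e.commutes r).symm
  have : Module.FaithfullyFlat S S' := hf
  refine ⟨T ⊗[S] S', inferInstance, inferInstance, Algebra.TensorProduct.includeLeft,
    Algebra.TensorProduct.includeRight.restrictScalars R, ?_, AlgHom.ext fun s =>
      Algebra.TensorProduct.tmul_one_eq_one_tmul (R := S) s⟩
  exact (RingHom.faithfullyFlat_algebraMap_iff (R := T) (S := T ⊗[S] S')).2 inferInstance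

/-- The fibre of a flat map over a point, and its behaviour under an injection. -/
theorem exists_fc {O B T T₁ : Type u} [CommRing O] [Algebra R O] [CommRing B] [Algebra R B]
    [CommRing T] [Algebra R T] [CommRing T₁] [Algebra R T₁] (c : O →ₐ[R] B)
    (hc : (c : O →+* B).Flat) (g : O →ₐ[R] T) (f : T →ₐ[R] T₁) (hf : Function.Injective f) :
    ∃ (W W₁ : Type u) (_ : CommRing W) (_ : Algebra R W) (_ : CommRing W₁) (_ : Algebra R W₁)
      (l : T →ₐ[R] W) (q : B →ₐ[R] W) (F : W →ₐ[R] W₁) (l₁ : T₁ →ₐ[R] W₁),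
      Function.Injective F ∧ F.comp l = l₁.comp f ∧ q.comp c = l.comp g ∧
      ∀ (S : Type u) [CommRing S] (e : T →+* S) (q' : B →+* S),
        q'.comp (c : O →+* B) = e.comp (g : O →+* T) →
          ∃ m : W →+* S, m.comp (l : T →+* W) = e ∧ m.comp (q : B →+* W) = q' := by
  let : Algebra O B := (c : O →+* B).toAlgebra
  let : Algebra O T := (g : O →+* T).toAlgebra
  let : Algebra O T₁ := (f.comp g : O →+* T₁).toAlgebra
  have : IsScalarTower R O B := IsScalarTower.of_algebraMap_eq fun r => (c.commutes r).symm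
  have : IsScalarTower R O T := IsScalarTower.of_algebraMap_eq fun r => (g.commutes r).symm
  have : IsScalarTower R O T₁ :=
    IsScalarTower.of_algebraMap_eq fun r => ((f.comp g).commutes r).symm
  have : Module.Flat O B := hc
  let f' : T →ₐ[O] T₁ := { (f : T →+* T₁) with commutes' := fun _ => rfl }
  refine ⟨T ⊗[O] B, T₁ ⊗[O] B, inferInstance, inferInstance, inferInstance, inferInstance,
    Algebra.TensorProduct.includeLeft, Algebra.TensorProduct.includeRight.restrictScalars R,
    (Algebra.TensorProduct.map f' (AlgHom.id O B)).restrictScalars R,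
    Algebra.TensorProduct.includeLeft,
    Module.Flat.rTensor_preserves_injective_linearMap (M := B) f'.toLinearMap hf,
    AlgHom.ext fun _ => rfl,
    AlgHom.ext fun o => (Algebra.TensorProduct.tmul_one_eq_one_tmul (R := O) o).symm, ?_⟩
  intro S _ e q' hq
  let : Algebra O S := (e.comp (g : O →+* T)).toAlgebra
  let e' : T →ₐ[O] S := { e with commutes' := fun _ => rfl }
  let q'' : B →ₐ[O] S := { q' with commutes' := fun o => RingHom.congr_fun hq o }
  refine ⟨(Algebra.TensorProduct.lift e' q'' fun _ _ => Commute.all _ _ : T ⊗[O] B →ₐ[O] S),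
    RingHom.ext fun t => ?_, RingHom.ext fun b => ?_⟩
  · change e t * q' 1 = e t
    rw [map_one, mul_one]
  · change e 1 * q' b = q' b
    rw [map_one, one_mul]

end Pool.Agent.RED.Iso
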