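import Pool.Agent.P.MP_c1f06d_ag.g.IsoC
import Pool.Agent.P.MP_c1f06d_ag.g.IsoH

universe u

namespace Pool.Agent.RED.Iso

variable {K : Type u} [CommRing K] {D : RD}
  {T T' : Type u} [CommRing T] [Algebra K T] [CommRing T'] [Algebra K T']
  {G₁ G₂ : GF K} (p₁ : APin G₁ D) (p₂ : APin G₂ D)

theorem APre.tw_mul {G : GF K} (p : APre G D) (τ τ' : TP (XL D.r) T) (w w' : Wd D T) :
    p.t τ * p.val w * (p.t τ' * p.val w') =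
      p.t (τ * τ') * p.val (wm (fun l s => chv τ'⁻¹ (lt D l) * s) w ++ w') := by
  rw [p.val_append, ← p.t_val, map_mul, p.t_inv]
  group

theorem APre.tw_inv {G : GF K} (p : APre G D) (τ : TP (XL D.r) T) (w : Wd D T) :
    (p.t τ * p.val w)⁻¹ = p.t τ⁻¹ * p.val (wm (fun l s => chv τ (lt D l) * s) (winv w)) := by
  rw [← p.t_val, p.val_winv, p.t_inv]
  group

/-- The subgroup of the product generated by the two pinnings. -/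
def HH (T : Type u) [CommRing T] [Algebra K T] : Subgroup (G₁.P T × G₂.P T) where
  carrier := {g | ∃ τ w, g.1 = p₁.t τ * p₁.val w ∧ g.2 = p₂.t τ * p₂.val w}
  one_mem' := ⟨1, [], by simp, by simp⟩
  mul_mem' := by
    rintro g g' ⟨τ, w, h1, h2⟩ ⟨τ', w', h1', h2'⟩
    exact ⟨_, _, by rw [Prod.fst_mul, h1, h1', p₁.tw_mul], by rw [Prod.snd_mul, h2, h2', p₂.tw_mul]⟩
  inv_mem' := by
    rintro g ⟨τ, w, h1, h2⟩
    exact ⟨_, _, by rw [Prod.fst_inv, h1, p₁.tw_inv], by rw [Prod.snd_inv, h2, p₂.tw_inv]⟩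

variable {p₁ p₂}

theorem HH.ker {g : G₂.P T} (h : (1, g) ∈ HH p₁ p₂ T) : g = 1 := by
  obtain ⟨τ, w, h1, h2⟩ := h
  have e : ∀ {G : GF K} (p : APre G D), p.c 0 τ⁻¹ = (p.t τ)⁻¹ := fun p => by
    simp [APre.c, p.un_zero, p.t_inv]
  have h3 := cell_val p₁ p₂ w (s := 0) (τ := τ⁻¹) (by
    rw [e]
    exact eq_inv_of_mul_eq_one_right h1.symm)
  rw [show g = _ from h2, h3, e, mul_inv_cancel]

theorem HH.uniq {g : G₁.P T} {h h' : G₂.P T} (a : (g, h) ∈ HH p₁ p₂ T) (b : (g, h') ∈ HH p₁ p₂ T) :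
    h = h' := by
  have := mul_mem (inv_mem a) b
  rw [Prod.inv_mk, Prod.mk_mul_mk, inv_mul_cancel] at this
  exact inv_mul_eq_one.1 (HH.ker this)

theorem HH.map (f : T →ₐ[K] T') {g : G₁.P T} {h : G₂.P T} (a : (g, h) ∈ HH p₁ p₂ T) :
    (G₁.mp f g, G₂.mp f h) ∈ HH p₁ p₂ T' := by
  obtain ⟨τ, w, h1, h2⟩ := a
  exact ⟨_, _, by rw [show g = _ from h1, map_mul, p₁.t_nat, p₁.mp_val],
    by rw [show h = _ from h2, map_mul, p₂.t_nat, p₂.mp_val]⟩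

theorem HH.swap {g : G₁.P T} {h : G₂.P T} (a : (g, h) ∈ HH p₁ p₂ T) : (h, g) ∈ HH p₂ p₁ T := by
  obtain ⟨τ, w, h1, h2⟩ := a
  exact ⟨τ, w, h2, h1⟩

variable (p₁ p₂)

theorem HH.t (τ : TP (XL D.r) T) : (p₁.t τ, p₂.t τ) ∈ HH p₁ p₂ T := ⟨τ, [], by simp, by simp⟩

theorem HH.val (w : Wd D T) : (p₁.val w, p₂.val w) ∈ HH p₁ p₂ T := ⟨1, w, by simp, by simp⟩

theorem HH.c (s : Bool → Fin D.N → T) (τ : TP (XL D.r) T) : (p₁.c s τ, p₂.c s τ) ∈ HH p₁ p₂ T := by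
  have h : ∀ b, (p₁.un b (s b), p₂.un b (s b)) ∈ HH p₁ p₂ T := fun b => by
    have := HH.val p₁ p₂ (Uw D b (List.finRange D.N) (s b))
    rwa [p₁.val_Uw, p₂.val_Uw] at this
  exact mul_mem (mul_mem (h false) (HH.t p₁ p₂ τ)) (h true)

theorem HH.cover (g : G₁.P T) : ∃ (T' : Type u) (_ : CommRing T') (_ : Algebra K T')
    (f : T →ₐ[K] T') (h : G₂.P T'), (f : T →+* T').FaithfullyFlat ∧
      (G₁.mp f g, h) ∈ HH p₁ p₂ T' := by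
  obtain ⟨T', _, _, f, hf, h⟩ := p₁.cov g
  have : Subgroup.closure {h : G₁.P T' | p₁.Cell h} ≤ (HH p₁ p₂ T').map (MonoidHom.fst _ _) :=
    (Subgroup.closure_le _).2 (by
      rintro _ ⟨s, τ, rfl⟩
      exact ⟨_, HH.c p₁ p₂ s τ, rfl⟩)
  obtain ⟨⟨a, b⟩, h1, h2⟩ := this h
  exact ⟨T', _, _, f, b, hf, by rw [← show a = _ from h2]; exact h1⟩

/-- The graph of the isomorphism. -/
def Gr (g₁ : G₁.P T) (g₂ : G₂.P T) : Prop :=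
  ∀ (T' : Type u) [CommRing T'] [Algebra K T'] (f : T →ₐ[K] T') (h : G₂.P T'),
    (G₁.mp f g₁, h) ∈ HH p₁ p₂ T' → G₂.mp f g₂ = h

theorem exists_gr (g₁ : G₁.P T) : ∃ g₂, Gr p₁ p₂ g₁ g₂ := by
  obtain ⟨T', _, _, f, h, hf, a⟩ := HH.cover p₁ p₂ g₁
  obtain ⟨g₂, e⟩ := G₂.desc f hf h fun T'' _ _ i i' hi => by
    have a1 := HH.map i a
    have a2 := HH.map i' a
    rw [G₁.mp_mp, hi] at a1
    rw [G₁.mp_mp] at a2
    exact HH.uniq a1 a2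
  refine ⟨g₂, fun S _ _ φ h' a' => ?_⟩
  obtain ⟨S', _, _, f', φ', hf', hc⟩ := exists_push f hf φ
  apply G₂.inj f' hf'.injective
  have a1 := HH.map φ' a
  have a2 := HH.map f' a'
  rw [G₁.mp_mp, ← hc] at a1
  rw [G₁.mp_mp] at a2
  rw [G₂.mp_mp, hc, ← G₂.mp_mp, e]
  exact HH.uniq a1 a2

variable {p₁ p₂}

theorem Gr.uniq {g₁ : G₁.P T} {g₂ g₂' : G₂.P T} (a : Gr p₁ p₂ g₁ g₂) (b : Gr p₁ p₂ g₁ g₂') :
    g₂ = g₂' := by
  obtain ⟨T', _, _, f, h, hf, c⟩ := HH.cover p₁ p₂ g₁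
  exact G₂.inj f hf.injective ((a T' f h c).trans (b T' f h c).symm)

theorem Gr.map {g₁ : G₁.P T} {g₂ : G₂.P T} (a : Gr p₁ p₂ g₁ g₂) (f : T →ₐ[K] T') :
    Gr p₁ p₂ (G₁.mp f g₁) (G₂.mp f g₂) := fun S _ _ φ h c => by
  rw [G₁.mp_mp] at c
  rw [G₂.mp_mp, a S _ h c]

theorem Gr.of {g₁ : G₁.P T} {g₂ : G₂.P T} (a : (g₁, g₂) ∈ HH p₁ p₂ T) : Gr p₁ p₂ g₁ g₂ :=
  fun _ _ _ φ _ c => HH.uniq (HH.map φ a) c

theorem Gr.mul {g₁ g₁' : G₁.P T} {g₂ g₂' : G₂.P T} (a : Gr p₁ p₂ g₁ g₂) (b : Gr p₁ p₂ g₁' g₂') :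
    Gr p₁ p₂ (g₁ * g₁') (g₂ * g₂') := by
  obtain ⟨g, c⟩ := exists_gr p₁ p₂ (g₁ * g₁')
  obtain ⟨T', _, _, f, h, hf, d⟩ := HH.cover p₁ p₂ g₁
  obtain ⟨T'', _, _, f', h', hf', d'⟩ := HH.cover p₁ p₂ (G₁.mp f g₁')
  have d1 := HH.map f' d
  rw [G₁.mp_mp] at d1 d'
  have : g = g₂ * g₂' := by
    apply G₂.inj (f'.comp f) (hf'.injective.comp hf.injective)
    rw [map_mul, a _ _ _ d1, b _ _ _ d']
    refine c _ _ _ ?_
    rw [map_mul]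
    exact mul_mem d1 d'
  rwa [← this]

theorem Gr.symm {g₁ : G₁.P T} {g₂ : G₂.P T} (a : Gr p₁ p₂ g₁ g₂) : Gr p₂ p₁ g₂ g₁ := by
  obtain ⟨g, c⟩ := exists_gr p₂ p₁ g₂
  obtain ⟨T', _, _, f, h, hf, d⟩ := HH.cover p₁ p₂ g₁
  have : g = g₁ := by
    apply G₁.inj f hf.injective
    refine c _ _ _ ?_
    rw [a _ _ _ d]
    exact HH.swap d
  rwa [← this]

variable (p₁ p₂)

/-- The isomorphism theorem for pinned group sheaves over any ring. -/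
theorem exists_iso : ∃ e : ∀ (T : Type u) [CommRing T] [Algebra K T], G₁.P T → G₂.P T,
    (∀ (T T' : Type u) [CommRing T] [Algebra K T] [CommRing T'] [Algebra K T'] (f : T →ₐ[K] T')
      (g : G₁.P T), G₂.mp f (e T g) = e T' (G₁.mp f g)) ∧
    ∀ (T : Type u) [CommRing T] [Algebra K T], (∀ g g', e T (g * g') = e T g * e T g') ∧
      Function.Bijective (e T) ∧ (∀ τ, e T (p₁.t τ) = p₂.t τ) ∧
      (∀ l s, e T (p₁.x l s) = p₂.x l s) ∧ ∀ s τ, e T (p₁.c s τ) = p₂.c s τ := by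
  have h : ∀ (T : Type u) [CommRing T] [Algebra K T] (g : G₁.P T), ∃ g₂, Gr p₁ p₂ g g₂ :=
    fun T _ _ g => exists_gr p₁ p₂ g
  choose e he using h
  refine ⟨e, fun T T' _ _ _ _ f g => ((he T g).map f).uniq (he _ _), fun T _ _ =>
    ⟨fun g g' => (he _ _).uniq ((he T g).mul (he T g')), ⟨fun g g' h => ?_, fun g₂ => ?_⟩,
      fun τ => (he _ _).uniq (Gr.of (HH.t p₁ p₂ τ)), fun l s => (he _ _).uniq (Gr.of ?_),
      fun s τ => (he _ _).uniq (Gr.of (HH.c p₁ p₂ s τ))⟩⟩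
  · exact (he T g).symm.uniq (h ▸ (he T g').symm)
  · obtain ⟨g₁, a⟩ := exists_gr p₂ p₁ g₂
    exact ⟨g₁, (he T g₁).uniq a.symm⟩
  · simpa using HH.val p₁ p₂ [(l, s)]

end Pool.Agent.RED.Iso
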