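import Pool.Agent.P.MP_c1f06d_ag.g.IsoE
import Pool.Agent.P.MP_c1f06d_ag.g.AutA
import Pool.Agent.P.MP_c1f06d_ag.g.Grp

open TensorProduct Polynomial Pool.Agent.GR

universe u

namespace Pool.Agent.RED.Iso

section hopf

variable {D : RD} {R A B : Type u} [CommRing R] [CommRing A] [HopfAlgebra R A] [CommRing B]
  [Algebra R B] {P : Pin D R A B} {C C' : Type u} [CommRing C] [Algebra R C] [CommRing C']
  [Algebra R C']

theorem pm_nw (P : Pin D R A B) (f : B →ₐ[R] C) (φ : C →ₐ[R] C') (w : List (Fin D.m)) :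
    pm φ (P.nw f w) = P.nw (φ.comp f) w := by
  induction w with
  | nil => exact map_one _
  | cons i w ih =>
    simp only [Pin.nw, List.map_cons, List.prod_cons, map_mul] at ih ⊢
    rw [ih]
    simp only [Pin.nn, Pin.xa, map_mul, pm_cv, map_one, map_neg]

theorem pm_xr (P : Pin D R A B) (f : B →ₐ[R] C) (φ : C →ₐ[R] C') (b : Bool) (j : Fin D.N) (s : C) :
    pm φ (P.xr f b j s) = P.xr (φ.comp f) b j (φ s) := by
  rw [Pin.xr, map_mul, map_mul, map_inv, pm_nw, Pin.xa, pm_cv, Pin.xr, Pin.xa]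

theorem pm_cell (P : Pin D R A B) (f : B →ₐ[R] C) (φ : C →ₐ[R] C')
    (p : (Fin D.N → C) × TP (XL D.r) C × (Fin D.N → C)) :
    pm φ (P.cell f p) =
      P.cell (φ.comp f) (fun j => φ (p.1 j), tm φ p.2.1, fun j => φ (p.2.2 j)) := by
  simp only [Pin.cell, Pin.un, Pin.ta, map_mul, map_list_prod, List.map_ofFn, pm_tev,
    Function.comp_def, pm_xr]

theorem root_nw (h : P.Ok) (w : List (Fin D.m)) {α : XL D.r} {x : Pt R A B[X]}
    (hx : IsRoot P.τ α x) : IsRoot P.τ (D.sw w α) (Au.cgX (P.nw (AlgHom.id R B) w) x) := by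
  induction w with
  | nil => simpa [Pin.nw, Au.cgX, D.sw_nil] using hx
  | cons i w ih =>
    have e0 : ∀ t : Pt R A (GA B (XL D.r)),
        tev t ((cst R B _).comp (AlgHom.id R B)) (uT B _) = t := fun t => by
      rw [tev_uT, bc, AddMonoidAlgebra.mapAlgHom_id, pm_id]
    have e1 : Au.cg (P.nn (AlgHom.id R B) i) P.τ = Au.tw (D.rf i) P.τ := by
      rw [← e0 (Au.cg _ _), ← e0 (Au.tw _ _), Au.tev_cg, Au.tev_tw]
      have := pm_nw P (AlgHom.id R B) ((cst R B (XL D.r)).comp (AlgHom.id R B)) [i]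
      simp only [Pin.nw, List.map_cons, List.map_nil, List.prod_cons, List.prod_nil, mul_one] at this
      rw [this]
      exact (h.at' _ _).nn_ta i _
    let e : XL D.r ≃+ XL D.r :=
      { D.rf i with invFun := D.rf i, left_inv := D.rf_rf i, right_inv := D.rf_rf i }
    have h1 := Au.isRoot_cg (P.nn (AlgHom.id R B) i) ih
    rw [e1] at h1
    have h2 := Au.isRoot_tw e h1
    rw [Au.tw_tw, show (e : XL D.r →+ XL D.r).comp (D.rf i) = AddMonoidHom.id _ from
      AddMonoidHom.ext (D.rf_rf i), Au.tw_id] at h2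
    have e2 : Au.cgX (P.nw (AlgHom.id R B) (i :: w)) x =
        Au.cgX (P.nn (AlgHom.id R B) i) (Au.cgX (P.nw (AlgHom.id R B) w) x) := by
      simp only [Pin.nw, Au.cgX, List.map_cons, List.prod_cons, map_mul]
      group
    rw [e2]
    exact h2

theorem xr_cj (h : P.Ok) (β γ : Bool × Fin D.N) (hne : γ ≠ β) : ∃ δ : Bool × Fin D.N,
    δ ≠ (β.1, D.ix (D.sm β.2)) ∧ ∀ (C : Type u) [CommRing C] [Algebra R C] (f : B →ₐ[R] C) (s : C),
      ∃ e : C, (P.nw f (D.wd β.2))⁻¹ * P.xr f γ.1 γ.2 s * P.nw f (D.wd β.2) =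
        P.xr f δ.1 δ.2 (e * s) := by
  obtain ⟨δ, hδ⟩ := D.sw_rt (D.wd β.2).reverse γ
  have h1 : D.sw (D.wd β.2) (D.rt δ) = D.rt γ := by rw [← hδ, D.sw_sw_reverse]
  refine ⟨δ, fun e => hne (D.rt_inj ?_), fun C _ _ f s => ?_⟩
  · rw [← h1, e, D.rt_ix, D.rt_eq β]
  · obtain ⟨y, hy, ey⟩ := h.xroot δ.1 δ.2
    obtain ⟨y', hy', ey'⟩ := h.xroot γ.1 γ.2
    have h2 := root_nw h (D.wd β.2) hy
    rw [h1] at h2
    obtain ⟨s', _, hs'⟩ := (h2.bij C f).surjOn ((hy'.bij C f).mapsTo (Set.mem_univ s))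
    rw [Au.cv_cgX, pm_nw, AlgHom.comp_id, ey, ey'] at hs'
    let π := Ideal.Quotient.mkₐ R (Ideal.span {s})
    have h3 := congrArg (pm π) hs'
    rw [map_mul, map_mul, map_inv, pm_xr, pm_xr,
      show π s = 0 from Ideal.Quotient.eq_zero_iff_mem.2 (Ideal.mem_span_singleton_self s), ← ey',
      hy'.cv_zero, mul_inv_eq_one, mul_eq_left, ← ey, ← hy.cv_zero (j := π.comp f)] at h3
    obtain ⟨e, he⟩ := Ideal.mem_span_singleton'.1 (Ideal.Quotient.eq_zero_iff_mem.1
      ((hy.bij _ _).injOn (Set.mem_univ _) (Set.mem_univ _) h3))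
    exact ⟨e, by rw [← hs', he]; group⟩

/-- The map on functions given by a point of the cell. -/
theorem exists_cl (P : Pin D R A B) (f : B →ₐ[R] C)
    (p : (Fin D.N → C) × TP (XL D.r) C × (Fin D.N → C)) :
    ∃ q : Pin.Bc D B →ₐ[R] C, q.comp (Pin.cB D R B) = f ∧ pm q P.ucell = P.cell f p := by
  let q : Pin.Bc D B →ₐ[R] C :=
    tl (MvPolynomial.aevalTower f fun x : Bool × Fin D.N => cond x.1 (p.2.2 x.2) (p.1 x.2)) p.2.1
  have h0 : ∀ y, q (algebraMap (MvPolynomial (Bool × Fin D.N) B) (Pin.Bc D B) y) =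
      MvPolynomial.aevalTower f (fun x : Bool × Fin D.N => cond x.1 (p.2.2 x.2) (p.1 x.2)) y :=
    fun y => AlgHom.congr_fun (tl_comp_cst _ p.2.1) y
  have h1 : q.comp (Pin.cB D R B) = f := AlgHom.ext fun b => by
    show q (algebraMap B (Pin.Bc D B) b) = f b
    rw [IsScalarTower.algebraMap_apply B (MvPolynomial (Bool × Fin D.N) B), h0]
    simp
  refine ⟨q, h1, ?_⟩
  rw [Pin.ucell, pm_cell, h1]
  congr 1
  refine Prod.ext (funext fun j => ?_) (Prod.ext (tp_ext fun m => ?_) (funext fun j => ?_))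
  · exact (h0 _).trans (by simp)
  · show q (AddMonoidAlgebra.single m 1) = _
    simp [q]
  · exact (h0 _).trans (by simp)

theorem val_nat (f : B →ₐ[R] C) (φ : C →ₐ[R] C') (g : Pt R A C) :
    φ.comp (val f g) = val (φ.comp f) (pm φ g) := by
  ext <;> simp [val]

end hopf

/-- A `B`-algebra as an `R`-algebra. -/
def Tw (_R _B T : Type u) : Type u := T

/-- The ring structure. -/
abbrev twRing (R B T : Type u) [i : CommRing T] : CommRing (Tw R B T) := i

attribute [local instance] twRing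

section tw

variable (R : Type u) {B T T' C : Type u} [CommRing R] [CommRing B] [Algebra R B] [CommRing T]
  [Algebra B T] [CommRing T'] [Algebra B T'] [CommRing C] [Algebra R C]

/-- The algebra structure. -/
abbrev twAlg : Algebra R (Tw R B T) :=
  RingHom.toAlgebra (S := Tw R B T) ((algebraMap B T).comp (algebraMap R B))

attribute [local instance] twAlg

variable (B T) in
/-- The structure map. -/
def tj : B →ₐ[R] Tw R B T := { algebraMap B T with commutes' := fun _ => rfl }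

/-- Functoriality. -/
def tf (f : T →ₐ[B] T') : Tw R B T →ₐ[R] Tw R B T' :=
  { (f : T →+* T') with commutes' := fun _ => f.commutes _ }

theorem tf_tj (f : T →ₐ[B] T') : (tf R f).comp (tj R B T) = tj R B T' := AlgHom.ext f.commutes

/-- An `R`-algebra with a map from `B` as a `B`-algebra. -/
def Al {R B C : Type u} [CommRing R] [CommRing B] [Algebra R B] [CommRing C] [Algebra R C]
  (_f : B →ₐ[R] C) : Type u := C

variable {R}

/-- The ring structure. -/
abbrev alRing (f : B →ₐ[R] C) : CommRing (Al f) := inferInstanceAs (CommRing C)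

attribute [local instance] alRing

/-- The algebra structure. -/
abbrev alAlg (f : B →ₐ[R] C) : Algebra B (Al f) := RingHom.toAlgebra (S := Al f) (f : B →+* C)

attribute [local instance] alAlg

/-- The identity, into the twisted ring. -/
def inn (f : B →ₐ[R] C) : C →ₐ[R] Tw R B (Al f) :=
  { RingHom.id C with commutes' := fun r => (f.commutes r).symm }

/-- The identity, out of the twisted ring. -/
def out (f : B →ₐ[R] C) : Tw R B (Al f) →ₐ[R] C :=
  { RingHom.id C with commutes' := fun r => f.commutes r }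

/-- A map of `R`-algebras over `B`. -/
def up (l : Tw R B T →ₐ[R] C) {f : B →ₐ[R] C} (h : l.comp (tj R B T) = f) : T →ₐ[B] Al f :=
  { (l : Tw R B T →+* C) with commutes' := fun b => AlgHom.congr_fun h b }

/-- A map of `R`-algebras over `B`. -/
def dn (l : Tw R B T →ₐ[R] Tw R B T') (h : l.comp (tj R B T) = tj R B T') : T →ₐ[B] T' :=
  { (l : Tw R B T →+* Tw R B T') with commutes' := fun b => AlgHom.congr_fun h b }

end tw

attribute [local instance] twAlg alRing alAlg

variable (R A B : Type u) [CommRing R] [CommRing A] [HopfAlgebra R A] [CommRing B] [Algebra R B]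

/-- The points of `Spec A` as a group sheaf on `B`-algebras. -/
noncomputable def hGF : GF B where
  P T _ _ := Pt R A (Tw R B T)
  mp f := pm (tf R f)
  mp_mp _ _ _ := rfl
  mp_id _ := rfl
  inj f hf := pm_injective (tf R f) hf
  sq J hJ g h hg hh := by
    refine pm_sq (S := Tw R B _) J hJ g h ?_ ?_
    · exact pt_ext fun a => (congrArg (fun x : Pt R A _ => x.ofConv a) hg :)
    · exact pt_ext fun a => (congrArg (fun x : Pt R A _ => x.ofConv a) hh :)
  desc {T T'} _ _ _ _ f hf g' h := pm_desc (tf R f) hf g' fun S _ _ i i' e => by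
    have e' : i'.comp (tj R B T') = i.comp (tj R B T') := by
      rw [← tf_tj R f, ← AlgHom.comp_assoc, ← AlgHom.comp_assoc, e]
    have := h _ (up i rfl) (up i' e') (AlgHom.ext fun x => AlgHom.congr_fun e x)
    exact pt_ext fun a => (congrArg (fun x : Pt R A _ => x.ofConv a) this :)

variable {R A B} {D : RD} {P : Pin D R A B}

/-- The rank one data of a pinning. -/
noncomputable def aPre (h : P.Ok) : APre (hGF R A B) D where
  t {T} _ _ := MonoidHom.mk' (fun τ => P.ta (tj R B T) τ) (h.pre.hom (Tw R B T) (tj R B T))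
  x {T} _ _ l s := P.xa (tj R B T) l.1 l.2 s
  t_nat f τ := (pm_tev P.τ _ (tf R f) τ).trans (by rw [tf_tj]; rfl)
  x_nat f l s := (pm_cv _ _ (tf R f) s).trans (by rw [tf_tj]; rfl)
  x_add {T} _ _ l s r := (h.pre.root l.1 l.2).add _ (tj R B T) s r
  x_eqv {T} _ _ τ l s := (h.pre.root l.1 l.2).eqv _ (tj R B T) τ s
  sl2 a s r v hv := h.pre.sl2 a (Tw R B _) _ s r v (by rw [map_one, one_mul]; exact hv)
  comm {T} _ _ a b s r e := (h.at' _ (tj R B T)).comm a b e s r

variable (h : P.Ok) {T : Type u} [CommRing T] [Algebra B T]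

theorem aPre_un (b : Bool) (s : Fin D.N → T) : (aPre h).un b s = P.un (tj R B T) b s := by
  rw [Pin.un, List.ofFn_eq_map]
  rfl

theorem aPre_c (s : Bool → Fin D.N → T) (τ : TP (XL D.r) T) :
    (aPre h).c s τ = P.cell (tj R B T) (s false, τ, s true) := by
  rw [APre.c, aPre_un, aPre_un]
  rfl

theorem aPre_cell (g : Pt R A (Tw R B T)) :
    (aPre h).Cell (T := T) g ↔ g ∈ Set.range (P.cell (tj R B T)) :=
  ⟨fun ⟨s, τ, e⟩ => ⟨_, (e.trans (aPre_c h s τ)).symm⟩, fun ⟨p, e⟩ =>
    ⟨fun b => cond b p.2.2 p.1, p.2.1, e.symm.trans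
      (aPre_c h (T := T) (fun b => cond b p.2.2 p.1) _).symm⟩⟩

theorem cell_inn {C : Type u} [CommRing C] [Algebra R C] (f : B →ₐ[R] C) {g : Pt R A C}
    (hg : g ∈ Set.range (P.cell f)) : (aPre h).Cell (T := Al f) (pm (inn f) g) := by
  obtain ⟨p, rfl⟩ := hg
  rw [aPre_cell, pm_cell]
  exact ⟨_, rfl⟩

/-- The abstract pinning of a pinning. -/
noncomputable def aPin : APin (hGF R A B) D where
  toAPre := aPre h
  z_eqv {T} _ _ τ b j s := by
    obtain ⟨y, hy, ey⟩ := h.xroot b j
    have := hy.eqv _ (tj R B T) τ s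
    rw [ey, ey] at this
    exact this
  z_cj β γ e := by
    obtain ⟨δ, h1, h2⟩ := xr_cj h β γ e
    exact ⟨δ, h1, fun T _ _ s => h2 _ (tj R B T) s⟩
  c_inj s s' τ τ' e := by
    rw [aPre_c, aPre_c] at e
    have := (h.at' _ _).cell_inj e
    refine ⟨funext fun b => ?_, congrArg (·.2.1) this⟩
    cases b
    · exact congrArg (·.1) this
    · exact congrArg (·.2.2) this
  un_mul {T} _ _ b s s' := by
    simp only [aPre_un]
    exact (h.at' _ (tj R B T)).un_mul b s s'
  fc {T T₁} _ _ _ _ f hf g := by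
    obtain ⟨W, W₁, _, _, _, _, l, q, F, l₁, hF, e1, e2, u⟩ :=
      exists_fc (val (Pin.cB D R B) P.ucell) h.flat (val (tj R B T) g) (tf R f) hf
    rw [val_nat, val_nat] at e2
    have e3 : q.comp (Pin.cB D R B) = l.comp (tj R B T) := AlgHom.ext fun b => by
      simpa [val] using AlgHom.congr_fun e2 (b ⊗ₜ 1)
    have e4 : pm q P.ucell = pm l g := pt_ext fun a => by
      simpa only [val, Algebra.TensorProduct.lift_tmul, map_one, one_mul] using
        AlgHom.congr_fun e2 (1 ⊗ₜ a)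
    have e5 : (F.comp (out (l.comp (tj R B T)))).comp (tj R B _) = l₁.comp (tj R B T₁) := by
      rw [← tf_tj R f, ← AlgHom.comp_assoc, ← e1]
      rfl
    refine ⟨Al (l.comp (tj R B T)), Al (l₁.comp (tj R B T₁)), _, _, _, _, up l rfl, up _ e5,
      up l₁ rfl, hF, AlgHom.ext fun x => AlgHom.congr_fun e1 x, ?_, fun S _ _ e he => ?_⟩
    · refine cell_inn h _ (g := pm l g) ?_
      rw [← e4, Pin.ucell, pm_cell, e3]
      exact ⟨_, rfl⟩
    · obtain ⟨p, hp⟩ := (aPre_cell h _).1 he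
      obtain ⟨q', a1, a2⟩ := exists_cl P (tj R B S) p
      have a3 : q'.comp (val (Pin.cB D R B) P.ucell) = (tf R e).comp (val (tj R B T) g) := by
        rw [val_nat, val_nat, a1, a2, tf_tj, hp]
        rfl
      obtain ⟨m, hm, _⟩ := u (Tw R B S) (tf R e) q' (congrArg AlgHom.toRingHom a3)
      exact ⟨{ m with commutes' := fun b => (RingHom.congr_fun hm _).trans (e.commutes b) },
        AlgHom.ext fun x => RingHom.congr_fun hm x⟩
  cov {T} _ _ g := by
    obtain ⟨C', _, _, j, η, hj, hη⟩ := (h.at' _ (tj R B T)).gen 2 ![(1 : Pt R A (Tw R B T)), g]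
    refine ⟨Al (j.comp (tj R B T)), _, _, up j rfl, hj, ?_⟩
    have a0 := Subgroup.subset_closure (k := {x | (aPre h).Cell x}) (cell_inn h _ (hη 0))
    have a1 := Subgroup.subset_closure (k := {x | (aPre h).Cell x}) (cell_inn h _ (hη 1))
    have e : (pm (inn (j.comp (tj R B T))) (η * pm j 1))⁻¹ *
        pm (inn (j.comp (tj R B T))) (η * pm j g) =
          pm (inn (j.comp (tj R B T))) (pm j g) := by
      rw [← map_inv, ← map_mul]
      simp
    exact e ▸ mul_mem (inv_mem a0) a1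

end Pool.Agent.RED.Iso
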