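import Mathlib

/-! Nearest points of polytopes and rational solutions of linear systems. -/

open Matrix

namespace Pool.Agent.GR.Kf

/-- A nonnegative real solution of integral linear equations gives a solution in `ℕ`. -/
theorem exists_nat {α : Type} [Fintype α] (t : α → ℝ) (h0 : ∀ a, 0 ≤ t a) (hne : t ≠ 0) :
    ∃ N : α → ℕ, N ≠ 0 ∧ ∀ q : α → ℤ, ∑ a, t a * q a = 0 → ∑ a, (N a : ℤ) * q a = 0 := by
  classical
  let V : Submodule ℚ ℝ := Submodule.span ℚ (Set.range t)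
  have : Module.Finite ℚ V := Module.Finite.span_of_finite ℚ (Set.finite_range t)
  let b := Module.finBasis ℚ V
  let t' : α → V := fun a => ⟨t a, Submodule.subset_span ⟨a, rfl⟩⟩
  let U : Set (Fin (Module.finrank ℚ V) → ℝ) :=
    ⋂ a, {β | t a ≠ 0 → 0 < ∑ l, (b.repr (t' a) l : ℝ) * β l}
  have hU : IsOpen U := isOpen_iInter_of_finite fun a => by
    by_cases e : t a = 0
    · simp [e]
    · simp only [ne_eq, e, not_false_eq_true, forall_const]
      exact isOpen_lt continuous_const (by fun_prop)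
  have hb : (fun l => (b l : ℝ)) ∈ U := Set.mem_iInter.2 fun a e => by
    have e1 := congrArg Subtype.val (b.sum_repr (t' a))
    simp only [Submodule.coe_sum, Submodule.coe_smul, Rat.smul_def] at e1
    rw [e1]
    exact lt_of_le_of_ne (h0 a) (Ne.symm e)
  obtain ⟨β, hβ⟩ := (DenseRange.piMap fun _ : Fin (Module.finrank ℚ V) =>
    (Rat.denseRange_cast (𝕜 := ℝ))).exists_mem_open hU ⟨_, hb⟩
  let φ : V →ₗ[ℚ] ℚ := b.constr ℚ β
  have hφ : ∀ a, t a ≠ 0 → 0 < φ (t' a) := fun a e => by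
    have e1 := Set.mem_iInter.1 hβ a e
    rw [Module.Basis.constr_apply_fintype]
    simp only [Pi.map_apply] at e1
    exact_mod_cast e1
  have hφ0 : ∀ a, 0 ≤ φ (t' a) := fun a => by
    by_cases e : t a = 0
    · rw [show t' a = 0 from Subtype.ext e, map_zero]
    · exact (hφ a e).le
  let M : ℕ := ∏ a, (φ (t' a)).den
  have hM : 0 < M := Finset.prod_pos fun a _ => (φ (t' a)).den_pos
  have hN : ∀ a, ∃ N : ℕ, (N : ℚ) = φ (t' a) * M := fun a => by
    obtain ⟨z, hz⟩ : (φ (t' a)).den ∣ M := Finset.dvd_prod_of_mem _ (Finset.mem_univ a)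
    refine ⟨(φ (t' a)).num.toNat * z, ?_⟩
    rw [hz, Nat.cast_mul, Nat.cast_mul, ← mul_assoc, Rat.mul_den_eq_num, ← Int.cast_natCast,
      Int.toNat_of_nonneg (Rat.num_nonneg.2 (hφ0 a))]
  choose N hN using hN
  refine ⟨N, fun e => ?_, fun q hq => ?_⟩
  · obtain ⟨a, ha⟩ := Function.ne_iff.1 hne
    have e1 := hN a
    rw [e] at e1
    exact (mul_pos (hφ a ha) (Nat.cast_pos.2 hM)).ne (by simpa using e1)
  · have e1 : ∑ a, (q a : ℚ) • t' a = 0 := Subtype.ext (by
      simp only [Submodule.coe_sum, Submodule.coe_smul, Rat.smul_def, Rat.cast_intCast,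
        Submodule.coe_zero, ← hq]
      exact Finset.sum_congr rfl fun a _ => mul_comm _ _)
    have e2 := congrArg (fun x => φ x * M) e1
    simp only [map_sum, map_smul, smul_eq_mul, map_zero, zero_mul, Finset.sum_mul, mul_assoc,
      ← hN] at e2
    have e3 : ((∑ a, (N a : ℤ) * q a : ℤ) : ℚ) = 0 := by
      rw [← e2]
      push_cast
      exact Finset.sum_congr rfl fun a _ => mul_comm _ _
    exact_mod_cast e3

variable {n : ℕ} {ι : Type} (c : Fin n → ι)

/-- The vector is constant on the blocks. -/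
def Cst (z : Fin n → ℝ) : Prop := ∀ i j, c i = c j → z i = z j

/-- The vector has sum zero on every block. -/
def Tl (x : Fin n → ℝ) : Prop := ∀ z, Cst c z → z ⬝ᵥ x = 0

/-- `x` is the point nearest to zero of the projection of the convex hull of `D`. -/
structure Opt (D : Finset (Fin n → ℤ)) (x : Fin n → ℝ) : Prop where
  tl : Tl c x
  le : ∀ δ ∈ D, x ⬝ᵥ x ≤ ∑ i, (δ i : ℝ) * x i
  cv : ∃ t : D → ℝ, (∀ δ, 0 ≤ t δ) ∧ ∑ δ, t δ = 1 ∧
    Cst c fun i => ∑ δ, t δ * (δ.1 i : ℝ) - x i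

theorem exists_opt (D : Finset (Fin n → ℤ)) (hD : D.Nonempty) : ∃ x, Opt c D x := by
  classical
  let Z : Submodule ℝ (EuclideanSpace ℝ (Fin n)) :=
    { carrier := {z | Cst c z.ofLp}
      add_mem' := fun ha hb i j h => by simp [ha i j h, hb i j h]
      zero_mem' := fun _ _ _ => rfl
      smul_mem' := fun r _ ha i j h => by simp [ha i j h] }
  let e : D → EuclideanSpace ℝ (Fin n) := fun δ => WithLp.toLp 2 fun i => (δ.1 i : ℝ)
  let f : (D → ℝ) →ₗ[ℝ] EuclideanSpace ℝ (Fin n) :=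
    (Zᗮ.starProjection : EuclideanSpace ℝ (Fin n) →ₗ[ℝ] EuclideanSpace ℝ (Fin n)) ∘ₗ
      Fintype.linearCombination ℝ e
  have hc : Convex ℝ (f '' stdSimplex ℝ D) := (convex_stdSimplex ℝ D).linear_image f
  have hk : IsCompact (f '' stdSimplex ℝ D) :=
    (isCompact_stdSimplex ℝ D).image f.continuous_of_finiteDimensional
  obtain ⟨δ0, hδ0⟩ := hD
  obtain ⟨x, hx, hmin⟩ := exists_norm_eq_iInf_of_complete_convex
    ⟨_, Set.mem_image_of_mem f (single_mem_stdSimplex ℝ (⟨δ0, hδ0⟩ : D))⟩ hk.isComplete hc 0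
  rw [norm_eq_iInf_iff_real_inner_le_zero hc hx] at hmin
  obtain ⟨t, ht, rfl⟩ := hx
  have hz : f t ∈ Zᗮ := Submodule.starProjection_apply_mem _ _
  have hin : ∀ a b : EuclideanSpace ℝ (Fin n), inner ℝ a b = a.ofLp ⬝ᵥ b.ofLp := fun a b => by
    simp [PiLp.inner_apply, dotProduct, mul_comm]
  have hs : ∀ y, y - Zᗮ.starProjection y ∈ Z := fun y => by
    have := Submodule.sub_starProjection_mem_orthogonal (K := Zᗮ) y
    rwa [Submodule.orthogonal_orthogonal] at this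
  refine ⟨(f t).ofLp, fun z hz' => ?_, fun δ hδ => ?_, t, ht.1, ht.2, ?_⟩
  · have := (Submodule.mem_orthogonal Z _).1 hz (WithLp.toLp 2 z) hz'
    rwa [hin] at this
  · have h1 := hmin _ (Set.mem_image_of_mem f (single_mem_stdSimplex ℝ (⟨δ, hδ⟩ : D)))
    have h2 : f (Pi.single ⟨δ, hδ⟩ 1) = Zᗮ.starProjection (e ⟨δ, hδ⟩) := by simp [f]
    have h3 := (Submodule.mem_orthogonal Z _).1 hz _ (hs (e ⟨δ, hδ⟩))
    rw [h2, zero_sub, inner_neg_left, inner_sub_right, real_inner_comm] at h1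
    rw [inner_sub_left] at h3
    have h4 : inner ℝ (f t) (f t) ≤ inner ℝ (e ⟨δ, hδ⟩) (f t) := by linarith
    rw [hin, hin] at h4
    exact h4
  · intro i j h
    have h1 := hs (Fintype.linearCombination ℝ e t) i j h
    simpa [Fintype.linearCombination_apply, e, f] using h1

variable {c}

theorem Opt.ge {D : Finset (Fin n → ℤ)} {x : Fin n → ℝ} (h : Opt c D x) {y : Fin n → ℝ}
    (hy : Tl c y) {r : ℝ} (hr : ∀ δ ∈ D, r ≤ ∑ i, (δ i : ℝ) * y i) : r ≤ x ⬝ᵥ y := by
  obtain ⟨t, h0, h1, h2⟩ := h.cv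
  have h3 := hy _ h2
  simp only [dotProduct, sub_mul, Finset.sum_sub_distrib, Finset.sum_mul, sub_eq_zero] at h3
  rw [dotProduct, ← h3, Finset.sum_comm]
  calc r = ∑ δ, t δ * r := by rw [← Finset.sum_mul, h1, one_mul]
    _ ≤ _ := Finset.sum_le_sum fun δ _ => by
      simp only [mul_assoc, ← Finset.mul_sum]
      exact mul_le_mul_of_nonneg_left (hr _ δ.2) (h0 δ)

theorem Opt.eq {D : Finset (Fin n → ℤ)} {x : Fin n → ℝ} (h : Opt c D x) {y : Fin n → ℝ}
    (hy : Tl c y) (hr : ∀ δ ∈ D, y ⬝ᵥ y ≤ ∑ i, (δ i : ℝ) * y i) (hx : x ⬝ᵥ x ≤ y ⬝ᵥ y) :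
    x = y := by
  have h1 := h.ge hy hr
  have h2 : (x - y) ⬝ᵥ (x - y) ≤ 0 := by
    rw [sub_dotProduct, dotProduct_sub, dotProduct_sub, dotProduct_comm y x]
    linarith
  exact sub_eq_zero.1 (dotProduct_self_eq_zero.1
    (le_antisymm h2 (Finset.sum_nonneg fun i _ => mul_self_nonneg _)))

theorem Opt.exists_nat {D : Finset (Fin n → ℤ)} (h : Opt c D 0) : ∃ N : D → ℕ, N ≠ 0 ∧
    ∀ i j, c i = c j → ∑ δ, (N δ : ℤ) * δ.1 i = ∑ δ, (N δ : ℤ) * δ.1 j := by
  obtain ⟨t, h0, h1, h2⟩ := h.cv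
  obtain ⟨N, hN, h3⟩ := Kf.exists_nat t h0 fun e => by simp [e] at h1
  refine ⟨N, hN, fun i j e => ?_⟩
  have h4 := h3 (fun δ => δ.1 i - δ.1 j) (by
    have := h2 i j e
    simp only [Pi.zero_apply, sub_zero] at this
    simp only [Int.cast_sub, mul_sub, Finset.sum_sub_distrib, this, sub_self])
  simpa only [mul_sub, Finset.sum_sub_distrib, sub_eq_zero] using h4

theorem Tl.perm {x : Fin n → ℝ} (h : Tl c x) (w : Equiv.Perm (Fin n)) (hw : ∀ j, c (w j) = c j) :
    Tl c fun i => x (w.symm i) := fun z hz => by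
  rw [← h z hz, dotProduct, dotProduct, ← Equiv.sum_comp w]
  exact Finset.sum_congr rfl fun i _ => by rw [Equiv.symm_apply_apply, hz _ _ (hw i)]

/-- An integral vector with the same order as a real vector. -/
theorem exists_int (x : Fin n → ℝ) : ∃ a : Fin n → ℤ, ∀ i j, a i < a j ↔ x i < x j := by
  classical
  refine ⟨fun i => (Finset.univ.filter fun l => x l < x i).card, fun i j => ?_⟩
  rw [Nat.cast_lt]
  refine ⟨fun h => not_le.1 fun h' => h.not_ge (Finset.card_le_card fun l hl => ?_),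
    fun h => Finset.card_lt_card ⟨fun l hl => ?_, fun hs => ?_⟩⟩
  · exact Finset.mem_filter.2 ⟨Finset.mem_univ _, (Finset.mem_filter.1 hl).2.trans_le h'⟩
  · exact Finset.mem_filter.2 ⟨Finset.mem_univ _, (Finset.mem_filter.1 hl).2.trans h⟩
  · exact lt_irrefl _ (Finset.mem_filter.1 (hs (Finset.mem_filter.2 ⟨Finset.mem_univ i, h⟩))).2

end Pool.Agent.GR.Kf
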