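import Pool.Agent.P.MP_c1f06d_ag.g.KempfA
import Pool.Agent.P.MP_c1f06d_ag.g.KempfB
import Pool.Agent.P.MP_c1f06d_ag.r.Coact
import Pool.Agent.P.MP_c1f06d_ag.r.NS

/-! The theorems of Hilbert–Mumford and Kempf for products of special linear groups. -/

open Matrix

universe u

namespace Pool.Agent.GR

section bdet

variable {n : ℕ} {A : Type u} [CommRing A] {ι : Type} [DecidableEq ι]

/-- The determinant of the block `δ`. -/
def bdet (c : Fin n → ι) (δ : ι) (M : Mat n A) : A := (eps A c δ * M + (1 - eps A c δ)).det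

theorem InL.eps_comm {c : Fin n → ι} {M : Mat n A} (hM : InL c M) (δ : ι) :
    eps A c δ * M = M * eps A c δ := by
  ext i j
  rw [eps, diagonal_mul, mul_diagonal, mul_comm]
  by_cases e : c i = c j
  · rw [e]
  · rw [hM i j e, zero_mul, zero_mul]

theorem bdet_mul {c : Fin n → ι} {M : Mat n A} (hM : InL c M) (N : Mat n A) (δ : ι) :
    bdet c δ (M * N) = bdet c δ M * bdet c δ N := by
  have he : eps A c δ * eps A c δ = eps A c δ := by
    rw [eps, diagonal_mul_diagonal]
    congr 1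
    funext i
    split_ifs <;> simp
  have h1 : eps A c δ * M * eps A c δ = eps A c δ * M := by
    rw [mul_assoc, ← hM.eps_comm, ← mul_assoc, he]
  rw [bdet, bdet, bdet, ← det_mul]
  congr 1
  simp only [add_mul, mul_add, mul_sub, sub_mul, one_mul, mul_one, ← mul_assoc, h1, he, sub_self,
    add_zero]
  abel

theorem bdet_one (c : Fin n → ι) (δ : ι) : bdet c δ (1 : Mat n A) = 1 := by simp [bdet]

theorem bdet_isUnit {c : Fin n → ι} {g : GL (Fin n) A} (hg : InL c (g : Mat n A)) (δ : ι) :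
    IsUnit (bdet c δ (g : Mat n A)) :=
  IsUnit.of_mul_eq_one _ (by rw [← bdet_mul hg, Units.mul_inv, bdet_one])

theorem map_bdet {A' : Type u} [CommRing A'] (f : A →+* A') (c : Fin n → ι) (δ : ι) (M : Mat n A) :
    f (bdet c δ M) = bdet c δ (M.map f) := by
  rw [bdet, bdet, RingHom.map_det]
  congr 1
  ext i j
  simp [eps, diagonal_mul, one_apply, diagonal_apply, apply_ite f]

theorem bdet_dgU (c : Fin n → ι) (δ : ι) (d : Fin n → Aˣ) :
    bdet c δ (dgU d : Mat n A) = ∏ i, if c i = δ then (d i : A) else 1 := by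
  rw [bdet, ← det_diagonal]
  congr 1
  ext i j
  by_cases e : i = j
  · subst e
    by_cases e' : c i = δ <;> simp [eps, dgU, e']
  · simp [eps, dgU, e]

end bdet

section smith

variable {n : ℕ} {W F : Type u} [CommRing W] [IsDomain W] [ValuationRing W] [Field F]
  [Algebra W F] [IsFractionRing W F]

/-- Elementary divisors inside a Levi subgroup. -/
theorem smithL {ι : Type} (c : Fin n → ι) (σ : GL (Fin n) F) (hσ : InL c (σ : Mat n F)) :
    ∃ (k₁ k₂ : GL (Fin n) W) (d : Fin n → Fˣ), InL c (k₁ : Mat n W) ∧ InL c (k₂ : Mat n W) ∧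
      σ = GeneralLinearGroup.map (algebraMap W F) k₁ * dgU d *
        GeneralLinearGroup.map (algebraMap W F) k₂ := by
  classical
  obtain ⟨_, ⟨⟨u, rfl⟩, hu⟩, _, ⟨⟨b, rfl⟩, hb⟩, w, d, h1, h2⟩ := elim
    ((GeneralLinearGroup.map (n := Fin n) (algebraMap W F)).range ⊓ PL 0 c F)
    ((GeneralLinearGroup.map (n := Fin n) (algebraMap W F)).range ⊓ PL 0 c F)
    (fun M => InL c (M : Mat n F))
    (fun u hu b hb M hM => (hu.2.2.mul hM).mul hb.2.2) (fun M hM j0 hj0 => by
      obtain ⟨i0, hi0⟩ := exists_col_ne M j0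
      obtain ⟨⟨i, j⟩, hij, hmax⟩ := Finset.exists_max_image
        (Finset.univ.filter fun p : Fin n × Fin n => ¬ Done (M : Mat n F) p.2)
        (fun p => ValuationRing.valuation W F ((M : Mat n F) p.1 p.2))
        ⟨(i0, j0), Finset.mem_filter.2 ⟨Finset.mem_univ _, hj0⟩⟩
      have hj : ¬ Done (M : Mat n F) j := (Finset.mem_filter.1 hij).2
      have h0 : (M : Mat n F) i j ≠ 0 := fun e => hi0 (by
        have := hmax (i0, j0) (Finset.mem_filter.2 ⟨Finset.mem_univ _, hj0⟩)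
        simpa [e] using this)
      have hc : c i = c j := by_contra fun e => h0 (hM i j e)
      have hd : ∀ k l, ¬ Done (M : Mat n F) l →
          (M : Mat n F) k l / (M : Mat n F) i j ∈ (algebraMap W F).range := fun k l hl => by
        refine (ValuationRing.mem_integer_iff W F _).1 ?_
        rw [Valuation.mem_integer_iff, map_div₀]
        exact div_le_one_of_le₀ (hmax (k, l) (Finset.mem_filter.2 ⟨Finset.mem_univ _, hl⟩))
          zero_le
      have hs : ∀ k l : Fin n, (Pi.single k 1 : Fin n → F) l ∈ (algebraMap W F).range :=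
        fun k l => by
          rw [Pi.single_apply]
          split_ifs
          exacts [one_mem _, zero_mem _]
      have r1 : ∀ k l, k ≠ l → (l = i → (M : Mat n F) k j = 0) →
          (rowOp (M : Mat n F) i j : Mat n F) k l = 0 := fun k l e h => by
        rw [← Matrix.mul_one (rowOp (M : Mat n F) i j : Mat n F), rowOp_mul, one_apply_ne e]
        by_cases e' : l = i
        · simp [h e']
        · simp [one_apply_ne' e']
      have r2 : ∀ k l, k ≠ l → (k = j → (M : Mat n F) i l = 0) →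
          (colOp (M : Mat n F) i j : Mat n F) k l = 0 := fun k l e h => by
        rw [← Matrix.one_mul (colOp (M : Mat n F) i j : Mat n F), mul_colOp, one_apply_ne e]
        by_cases e' : k = j
        · simp [h e']
        · simp [one_apply_ne e']
      refine ⟨i, j, hj, h0, ⟨trv_mem _ (fun k => ?_) (hs i), fun _ _ h => (lt_irrefl _ h).elim,
        fun k l h => r1 k l (fun e => h (congrArg c e)) fun e => hM k j (hc ▸ e ▸ h)⟩,
        ⟨trv_mem _ (hs j) fun l => ?_, fun _ _ h => (lt_irrefl _ h).elim,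
        fun k l h => r2 k l (fun e => h (congrArg c e)) fun e => hM i l (hc ▸ e ▸ h)⟩⟩
      · split_ifs
        exacts [zero_mem _, hd k j hj]
      · split_ifs with e
        · exact zero_mem _
        by_cases hl : Done (M : Mat n F) l
        · obtain ⟨p, _, h2, h3⟩ := hl
          rw [h2 i fun e' => h0 (e' ▸ h3 j (Ne.symm e)), zero_div]
          exact zero_mem _
        · exact hd i l hl) σ hσ
  have e : GeneralLinearGroup.map (algebraMap W F) u * σ *
      GeneralLinearGroup.map (algebraMap W F) b = pmat F w * dgU d := by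
    ext i j
    rw [h2, pmat_mul_dgU]
  have e2 : GeneralLinearGroup.map (algebraMap W F) (pmat W w) = pmat F w := by
    ext i j
    simp [pmat, apply_ite (algebraMap W F)]
  have hu' : InL c (u : Mat n W) := fun i j h =>
    IsFractionRing.injective W F ((hu.2 i j h).trans (map_zero _).symm)
  have hb' : InL c (b : Mat n W) := fun i j h =>
    IsFractionRing.injective W F ((hb.2 i j h).trans (map_zero _).symm)
  have hw : InL c (pmat W w : Mat n W) := fun i j h => if_neg fun e => (d j).ne_zero (by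
    have := h1 i j h
    rwa [h2, if_pos e] at this)
  refine ⟨u⁻¹ * pmat W w, b⁻¹, d, hu'.inv.mul hw, hb'.inv, ?_⟩
  rw [map_mul, map_inv, map_inv, e2, mul_assoc _ (pmat F w), ← e]
  group

end smith

namespace Rp

variable {k : Type u} [Field k] {n m : ℕ} (P : Rp k n m) {ι : Type}

theorem chr_sum {A : Type u} [CommRing A] {α : Type} (d : Fin n → Aˣ) (s : Finset α) (N : α → ℕ)
    (δ : α → Fin n → ℤ) : chr d (∑ a ∈ s, N a • δ a) = ∏ a ∈ s, chr d (δ a) ^ N a := by
  let g : Multiplicative (Fin n → ℤ) →* Aˣ :=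
    ⟨⟨fun δ => chr d δ.toAdd, by simp [chr]⟩, fun a b => chr_add _ _ _⟩
  exact (map_prod g (fun a => Multiplicative.ofAdd (δ a) ^ N a) s).trans
    (Finset.prod_congr rfl fun a _ => map_pow g _ _)

open Classical in
/-- The set of weights of a vector. -/
noncomputable def sup (y : Fin m → k) : Finset (Fin n → ℤ) :=
  P.wts.filter fun δ => P.E δ *ᵥ y ≠ 0

theorem mem_sup {y : Fin m → k} {δ : Fin n → ℤ} : δ ∈ P.sup y ↔ P.E δ *ᵥ y ≠ 0 := by
  classical
  rw [sup, Finset.mem_filter]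
  exact ⟨fun h => h.2, fun h => ⟨by_contra fun e => h (by rw [P.E_eq_zero e, zero_mulVec]), h⟩⟩

theorem sup_nonempty {y : Fin m → k} (hy : y ≠ 0) : (P.sup y).Nonempty := by
  by_contra h
  refine hy ?_
  rw [← one_mulVec y, ← P.sum_E, sum_mulVec]
  exact Finset.sum_eq_zero fun δ _ => by_contra fun e => h ⟨δ, P.mem_sup.2 e⟩

theorem rho_ne_zero (g : GL (Fin n) k) {y : Fin m → k} (hy : y ≠ 0) :
    (P.ρ k g : Mat m k) *ᵥ y ≠ 0 := fun e => hy (by
  rw [← one_mulVec y, ← (P.ρ k g).inv_mul, ← mulVec_mulVec, e, mulVec_zero])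

/-- Kempf's theorem: the stabiliser of the line of an unstable vector lies in a proper parabolic
subgroup. -/
theorem kempf_core (c : Fin n → ι) {v : Fin m → k} (hv : v ≠ 0) (g₁ : GL (Fin n) k)
    (hg₁ : InL c (g₁ : Mat n k)) (hun : ¬ Kf.Opt c (P.sup ((P.ρ k g₁ : Mat m k) *ᵥ v)) 0) :
    ∃ (h : GL (Fin n) k) (a : Fin n → ℤ), InL c (h : Mat n k) ∧ (∃ i j, c i = c j ∧ a i ≠ a j) ∧
      ∀ g : GL (Fin n) k, InL c (g : Mat n k) → (∃ t : k, (P.ρ k g : Mat m k) *ᵥ v = t • v) →
        InP a ((h * g * h⁻¹ : GL (Fin n) k) : Mat n k) := by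
  classical
  have hx : ∀ D : Finset (Fin n → ℤ), ∃ x, D.Nonempty → Kf.Opt c D x := fun D => by
    by_cases e : D.Nonempty
    · exact (Kf.exists_opt c D e).imp fun _ h _ => h
    · exact ⟨0, fun h => (e h).elim⟩
  choose X hX using hx
  obtain ⟨D, hD, hmax⟩ := Finset.exists_max_image (P.wts.powerset.filter fun D =>
    ∃ g : GL (Fin n) k, InL c (g : Mat n k) ∧ D = P.sup ((P.ρ k g : Mat m k) *ᵥ v))
    (fun D => X D ⬝ᵥ X D) ⟨_, Finset.mem_filter.2
      ⟨Finset.mem_powerset.2 (Finset.filter_subset _ _), g₁, hg₁, rfl⟩⟩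
  obtain ⟨h, hh, rfl⟩ := (Finset.mem_filter.1 hD).2
  have hopt : ∀ g : GL (Fin n) k, Kf.Opt c _ (X (P.sup ((P.ρ k g : Mat m k) *ᵥ v))) := fun g =>
    hX _ (P.sup_nonempty (P.rho_ne_zero g hv))
  set x := X (P.sup ((P.ρ k h : Mat m k) *ᵥ v)) with hxd
  have hle : ∀ g : GL (Fin n) k, InL c (g : Mat n k) →
      X (P.sup ((P.ρ k g : Mat m k) *ᵥ v)) ⬝ᵥ X (P.sup ((P.ρ k g : Mat m k) *ᵥ v)) ≤ x ⬝ᵥ x :=
    fun g hg => hmax _ (Finset.mem_filter.2
      ⟨Finset.mem_powerset.2 (Finset.filter_subset _ _), g, hg, rfl⟩)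
  have hx0 : x ⬝ᵥ x ≠ 0 := fun e => hun (by
    have h1 := hle g₁ hg₁
    rw [e] at h1
    have h2 := dotProduct_self_eq_zero.1
      (le_antisymm h1 (Finset.sum_nonneg fun i _ => mul_self_nonneg _))
    exact h2 ▸ hopt g₁)
  obtain ⟨a, ha⟩ := Kf.exists_int x
  have hdg : P.Dg x (x ⬝ᵥ x) ((P.ρ k h : Mat m k) *ᵥ v) := fun δ e =>
    (hopt h).le δ (P.mem_sup.2 e)
  have hpar : ∀ p ∈ PL a c k, P.Dg x (x ⬝ᵥ x) ((P.ρ k (p * h) : Mat m k) *ᵥ v) := fun p hp => by
    rw [map_mul, Units.val_mul, ← mulVec_mulVec]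
    exact Dg.par P hdg p (fun i j e => hp.1 i j ((ha i j).2 e))
      fun i j e => hp.1.inv i j ((ha i j).2 e)
  refine ⟨h, a, hh, by_contra fun e => hx0 ((hopt h).tl x fun i j hij => ?_), ?_⟩
  · have e1 : a i = a j := by_contra fun e1 => e ⟨i, j, hij, e1⟩
    exact le_antisymm (not_lt.1 fun e2 => ((ha j i).2 e2).ne e1.symm)
      (not_lt.1 fun e2 => ((ha i j).2 e2).ne e1)
  rintro g hg ⟨t, ht⟩
  obtain ⟨u, b, w, e, hu, hb, hw⟩ := bruhat a a c (h * g * h⁻¹) ((hh.mul hg).mul hh.inv)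
  have ht0 : t ≠ 0 := fun e0 => P.rho_ne_zero g hv (by rw [ht, e0, zero_smul])
  have e1 : pmat k w * (b * h) = u⁻¹ * h * g := by
    rw [← mul_assoc, ← inv_mul_cancel_left u (pmat k w), ← mul_assoc, mul_assoc u⁻¹, mul_assoc u⁻¹,
      ← e]
    group
  have h1 := hpar u⁻¹ (inv_mem hu)
  have h2 : P.Dg (fun i => x (w.symm i)) (x ⬝ᵥ x) ((P.ρ k (u⁻¹ * h) : Mat m k) *ᵥ v) := by
    have h3 := Dg.smul P (Dg.perm P (hpar b hb) w) t⁻¹
    rwa [mulVec_mulVec, ← Units.val_mul, ← map_mul, e1, map_mul, Units.val_mul, ← mulVec_mulVec,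
      ht, mulVec_smul, inv_smul_smul₀ ht0] at h3
  have hL : InL c ((u⁻¹ * h : GL (Fin n) k) : Mat n k) := hu.2.inv.mul hh
  have e2 : (fun i => x (w.symm i)) ⬝ᵥ (fun i => x (w.symm i)) = x ⬝ᵥ x :=
    Equiv.sum_comp w.symm fun i => x i * x i
  have e3 := (hopt (u⁻¹ * h)).eq (hopt h).tl (fun δ hδ => h1 δ (P.mem_sup.1 hδ)) (hle _ hL)
  have e4 := (hopt (u⁻¹ * h)).eq ((hopt h).tl.perm w hw)
    (fun δ hδ => e2 ▸ h2 δ (P.mem_sup.1 hδ)) (e2 ▸ hle _ hL)
  have e5 : ∀ j, x j = x (w j) := fun j => by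
    have := congrFun (e4.symm.trans e3) (w j)
    rwa [Equiv.symm_apply_apply] at this
  have hp : InP a (pmat k w : Mat n k) := fun i j hij => if_neg fun e' => by
    rw [ha, e', ← e5] at hij
    exact lt_irrefl _ hij
  rw [e]
  exact (hu.1.mul hp).mul hb.1

/-- A point over a nonzero ring at which given weights vanish gives such a point over `k`. -/
theorem exists_point [IsAlgClosed k] (c : Fin n → ι) (v : Fin m → k) {A : Type u} [CommRing A]
    [Nontrivial A] [Algebra k A] (g : GL (Fin n) A) (hg : InL c (g : Mat n A)) :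
    ∃ g₁ : GL (Fin n) k, InL c (g₁ : Mat n k) ∧ ∀ δ, (P.E δ).map (algebraMap k A) *ᵥ
      ((P.ρ A g : Mat m A) *ᵥ fun j => algebraMap k A (v j)) = 0 →
        P.E δ *ᵥ ((P.ρ k g₁ : Mat m k) *ᵥ v) = 0 := by
  have hft : Algebra.FiniteType k (OGL k n) :=
    Algebra.FiniteType.trans (S := MvPolynomial (Fin n × Fin n) k) inferInstance inferInstance
  obtain ⟨M, hM, hle⟩ := Ideal.exists_le_maximal (RingHom.ker (ev k g)) (RingHom.ker_ne_top _)
  obtain ⟨t, ht⟩ := point_of_max (Ω := k) M hM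
  have h0 : ∀ f, ev k g f = 0 → t f = 0 := fun f hf => (ht f).2 (hle hf)
  have key : ∀ {B : Type u} [CommRing B] [Algebra k B] (φ : OGL k n →ₐ[k] B) δ i,
      φ (((P.E δ).map (algebraMap k (OGL k n)) *ᵥ ((P.ρ _ (Co.ug k n) : Mat m (OGL k n)) *ᵥ
        fun j => algebraMap k _ (v j))) i) = ((P.E δ).map (algebraMap k B) *ᵥ
          ((P.ρ B (gm φ (Co.ug k n)) : Mat m B) *ᵥ fun j => algebraMap k B (v j))) i := by
    intro B _ _ φ δ i
    rw [← P.nat]
    simp [mulVec, dotProduct]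
  refine ⟨gm t (Co.ug k n), fun i j h => h0 _ ((Co.ev_ug_apply g i j).trans (hg i j h)),
    fun δ h => funext fun i => ?_⟩
  have h1 := h0 _ ((key (ev k g) δ i).trans (by rw [Co.gm_ev_ug, h, Pi.zero_apply]))
  rw [key] at h1
  exact h1

variable {W F : Type u} [CommRing W] [IsDomain W] [ValuationRing W] [Field F]
  [Algebra W F] [IsFractionRing W F] [Algebra k W] [Algebra k F] [IsScalarTower k W F]

/-- The criterion of Hilbert and Mumford. -/
theorem hm [IsAlgClosed k] [DecidableEq ι] (c : Fin n → ι) (v : Fin m → k) (σ : GL (Fin n) F)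
    (hσ : InL c (σ : Mat n F)) (hdet : ∀ δ, ∃ u : Wˣ, algebraMap W F u = bdet c δ (σ : Mat n F))
    (h0 : ∀ i, ∃ w ∈ IsLocalRing.maximalIdeal W, algebraMap W F w =
      ((P.ρ F σ : Mat m F) *ᵥ fun j => algebraMap k F (v j)) i) :
    ∃ g₁ : GL (Fin n) k, InL c (g₁ : Mat n k) ∧
      ¬ Kf.Opt c (P.sup ((P.ρ k g₁ : Mat m k) *ᵥ v)) 0 := by
  classical
  obtain ⟨k₁, k₂, d, h1, h2, e⟩ := smithL (W := W) c σ hσ
  let j := IsScalarTower.toAlgHom k W F
  let val := ValuationRing.valuation W F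
  let res : W →ₐ[k] IsLocalRing.ResidueField W := IsScalarTower.toAlgHom k W _
  have hle : ∀ w, val (algebraMap W F w) ≤ 1 := fun w =>
    (Valuation.mem_integer_iff _ _).1 ((ValuationRing.mem_integer_iff W F _).2 ⟨w, rfl⟩)
  have hun : ∀ w, IsUnit w → val (algebraMap W F w) = 1 := by
    rintro _ ⟨w, rfl⟩
    refine le_antisymm (hle _) ?_
    calc 1 = val (algebraMap W F w) * val (algebraMap W F (w⁻¹ : Wˣ)) := by
          rw [← map_mul, ← map_mul, Units.mul_inv, map_one, map_one]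
      _ ≤ val (algebraMap W F w) * 1 := mul_le_mul_right (hle _) _
      _ = _ := mul_one _
  have hlt : ∀ w ∈ IsLocalRing.maximalIdeal W, val (algebraMap W F w) < 1 := fun w hw =>
    lt_of_le_of_ne (hle w) fun e1 => by
      have hw0 : algebraMap W F w ≠ 0 := fun e2 => by simp [e2] at e1
      obtain ⟨w', hw'⟩ := (ValuationRing.mem_integer_iff W F (algebraMap W F w)⁻¹).1
        (by rw [Valuation.mem_integer_iff, map_inv₀, e1, inv_one])
      refine hw (IsUnit.of_mul_eq_one w' (IsFractionRing.injective W F ?_))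
      rw [map_mul, hw', mul_inv_cancel₀ hw0, map_one]
  have hmv : ∀ (M : Mat m W) (y : Fin m → F), (∀ i, val (y i) < 1) →
      ∀ i, val ((M.map (algebraMap W F) *ᵥ y) i) < 1 := fun M y hy i => by
    rw [mulVec, dotProduct]
    refine Valuation.map_sum_lt val one_ne_zero fun l _ => ?_
    rw [map_mul]
    exact lt_of_le_of_lt (mul_le_of_le_one_left' (hle _)) (hy l)
  let y : Fin m → W := (P.ρ W k₂ : Mat m W) *ᵥ fun l => algebraMap k W (v l)
  have hy : ∀ {B : Type u} [CommRing B] [Algebra k B] (φ : W →ₐ[k] B) δ i,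
      φ (((P.E δ).map (algebraMap k W) *ᵥ y) i) = ((P.E δ).map (algebraMap k B) *ᵥ
        ((P.ρ B (gm φ k₂) : Mat m B) *ᵥ fun l => algebraMap k B (v l))) i := by
    intro B _ _ φ δ i
    rw [← P.nat]
    simp [y, mulVec, dotProduct]
  have e1 : dgU d * gm j k₂ = gm j k₁⁻¹ * σ := by
    have e' : σ = gm j k₁ * dgU d * gm j k₂ := e
    rw [e', map_inv, mul_assoc, inv_mul_cancel_left]
  have h3 : ∀ i, val (((P.ρ F (dgU d) : Mat m F) *ᵥ ((P.ρ F (gm j k₂) : Mat m F) *ᵥ
      fun l => algebraMap k F (v l))) i) < 1 := by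
    rw [mulVec_mulVec, ← Units.val_mul, ← map_mul, e1, map_mul, ← P.nat, Units.val_mul,
      ← mulVec_mulVec]
    refine hmv (P.ρ W k₁⁻¹ : Mat m W) _ fun i => ?_
    obtain ⟨w, hw, e2⟩ := h0 i
    exact e2 ▸ hlt w hw
  obtain ⟨g₁, hg₁, h4⟩ := P.exists_point c v (gm res k₂) fun i l h => by
    rw [gm_apply, h2 i l h, map_zero]
  have h5 : ∀ δ ∈ P.sup ((P.ρ k g₁ : Mat m k) *ᵥ v), val (chr d δ : F) < 1 := fun δ hδ => by
    obtain ⟨i, hi⟩ := Function.ne_iff.1 fun e2 => P.mem_sup.1 hδ (h4 δ e2)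
    rw [← hy res] at hi
    have h6 := hmv ((P.E δ).map (algebraMap k W)) _ h3 i
    rw [Matrix.map_map, ← RingHom.coe_comp, ← IsScalarTower.algebraMap_eq, E_mulVec,
      Pi.smul_apply, ← hy j, smul_eq_mul, map_mul] at h6
    have h7 := hun _ (by_contra fun e2 => hi ((IsLocalRing.residue_eq_zero_iff _).2 e2))
    exact (mul_one (val (chr d δ : F))).symm.trans_lt (h7 ▸ h6)
  have h8 : ∀ δ, ∏ i, (if c i = δ then val (d i : F) else 1) = 1 := fun δ => by
    obtain ⟨u, hu⟩ := hdet δ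
    have hm : ∀ g : GL (Fin n) W, InL c (g : Mat n W) →
        InL c ((GeneralLinearGroup.map (algebraMap W F) g : GL (Fin n) F) : Mat n F) ∧
        val (bdet c δ ((GeneralLinearGroup.map (algebraMap W F) g : GL (Fin n) F) : Mat n F)) = 1 :=
      fun g hg => ⟨fun i l h => (congrArg (algebraMap W F) (hg i l h)).trans (map_zero _),
        (congrArg val (map_bdet (algebraMap W F) c δ (g : Mat n W))).symm.trans
          (hun _ (bdet_isUnit hg δ))⟩
    have h9 := hun u u.isUnit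
    have hd : InL c (dgU d : Mat n F) := fun i l h =>
      diagonal_apply_ne _ fun e2 => h (congrArg c e2)
    rw [hu, e, Units.val_mul, Units.val_mul, bdet_mul ((hm k₁ h1).1.mul hd),
      bdet_mul (hm k₁ h1).1, map_mul, map_mul, (hm k₁ h1).2, (hm k₂ h2).2, one_mul, mul_one,
      bdet_dgU, map_prod] at h9
    simpa only [apply_ite val, map_one] using h9
  refine ⟨g₁, hg₁, fun ho => ?_⟩
  obtain ⟨N, hN, h9⟩ := ho.exists_nat
  let z : Fin n → ℤ := fun i => ∑ δ, (N δ : ℤ) * δ.1 i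
  have h10 : val (chr d z : F) = 1 := by
    have : ∀ s : Finset ι, ∏ i, (if c i ∈ s then val (d i : F) ^ z i else 1) = 1 := fun s => by
      induction s using Finset.induction_on with
      | empty => simp
      | insert δ s hs ih =>
        obtain ⟨z0, hz0⟩ : ∃ z0, ∀ i, c i = δ → z i = z0 := by
          by_cases hδ : ∃ i, c i = δ
          · obtain ⟨i0, hi0⟩ := hδ
            exact ⟨z i0, fun i e2 => h9 i i0 (e2.trans hi0.symm)⟩
          · exact ⟨0, fun i e2 => (hδ ⟨i, e2⟩).elim⟩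
        have e4 : (∏ i, (if c i = δ then val (d i : F) else 1)) ^ z0 *
            ∏ i, (if c i ∈ s then val (d i : F) ^ z i else 1) = 1 := by
          rw [h8, ih, _root_.one_zpow, one_mul]
        rw [← Finset.prod_zpow, ← Finset.prod_mul_distrib] at e4
        refine Eq.trans (Finset.prod_congr rfl fun i _ => ?_) e4
        by_cases e2 : c i = δ
        · simp [e2, hs, hz0 i e2]
        · simp [e2]
    have h11 := this (Finset.univ.image c)
    simp only [Finset.mem_image, Finset.mem_univ, true_and, exists_apply_eq_apply, if_true] at h11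
    simpa [chr] using h11
  have h11 : val (chr d z : F) = ∏ δ, val (chr d δ.1 : F) ^ N δ := by
    have e2 : z = ∑ δ, N δ • δ.1 := funext fun i => by simp [z, Finset.sum_apply]
    rw [e2, chr_sum, Units.coe_prod, map_prod]
    simp only [Units.val_pow_eq_pow_val, map_pow]
  obtain ⟨δ, hδ⟩ := Function.ne_iff.1 hN
  rw [h11, ← Finset.mul_prod_erase _ _ (Finset.mem_univ δ)] at h10
  refine (lt_of_le_of_lt (mul_le_of_le_one_right' (Finset.prod_le_one' fun δ' _ =>
    pow_le_one' (h5 _ δ'.2).le _)) (pow_lt_one' (h5 _ δ.2) hδ)).ne h10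

/-- If a point `σ` of the Levi subgroup with unit block determinants moves `v` into the maximal
ideal, then the stabiliser of the line of `v` lies in a proper parabolic subgroup. -/
theorem kempf [IsAlgClosed k] [DecidableEq ι] (c : Fin n → ι) {v : Fin m → k} (hv : v ≠ 0)
    (σ : GL (Fin n) F) (hσ : InL c (σ : Mat n F))
    (hdet : ∀ δ, ∃ u : Wˣ, algebraMap W F u = bdet c δ (σ : Mat n F))
    (h0 : ∀ i, ∃ w ∈ IsLocalRing.maximalIdeal W, algebraMap W F w =
      ((P.ρ F σ : Mat m F) *ᵥ fun j => algebraMap k F (v j)) i) :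
    ∃ (h : GL (Fin n) k) (a : Fin n → ℤ), InL c (h : Mat n k) ∧ (∃ i j, c i = c j ∧ a i ≠ a j) ∧
      ∀ g : GL (Fin n) k, InL c (g : Mat n k) → (∃ t : k, (P.ρ k g : Mat m k) *ᵥ v = t • v) →
        InP a ((h * g * h⁻¹ : GL (Fin n) k) : Mat n k) := by
  obtain ⟨g₁, h1, h2⟩ := P.hm c v σ hσ hdet h0
  exact P.kempf_core c hv g₁ h1 h2

end Rp

end Pool.Agent.GR
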