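import Pool.Agent.P.MP_c1f06d_ag.g.ShS
import Pool.Agent.P.MP_c1f06d_ag.PresEx
import Pool.Agent.P.MP_c1f06d_ag.Dom

/-! Torsors on the big fppf site of `Spec R` give sheaf torsors. -/

open AlgebraicGeometry CategoryTheory Opposite WithConv Pool.Agent.RG Limits
open scoped TensorProduct MonObj

universe u

namespace Pool.Agent.RED.NV

variable {R : Type u} [CommRing R]

/-- The affine scheme of an `R`-algebra, over `Spec R`. -/
noncomputable abbrev sp (R T : Type u) [CommRing R] [CommRing T] [Algebra R T] :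
    Over (Spec (.of R)) := (Spec (.of T)).asOver (Spec (.of R))

/-- The morphism of an algebra map. -/
noncomputable abbrev sm {T T' : Type u} [CommRing T] [Algebra R T] [CommRing T'] [Algebra R T']
    (f : T →ₐ[R] T') : sp R T' ⟶ sp R T :=
  (Spec.map (CommRingCat.ofHom f.toRingHom)).asOver _

theorem sm_id {T : Type u} [CommRing T] [Algebra R T] : sm (AlgHom.id R T) = 𝟙 _ := by
  ext1
  exact Spec.map_id _

theorem sm_comp {T T' T'' : Type u} [CommRing T] [Algebra R T] [CommRing T'] [Algebra R T']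
    [CommRing T''] [Algebra R T''] (f : T →ₐ[R] T') (f' : T' →ₐ[R] T'') :
    sm (f'.comp f) = sm f' ≫ sm f := by
  ext1
  exact Spec.map_comp (CommRingCat.ofHom f.toRingHom) (CommRingCat.ofHom f'.toRingHom)

theorem glue_aux (P : (Over (Spec (.of R)))ᵒᵖ ⥤ Type u)
    (hP : Presieve.IsSheaf (Scheme.fppfTopology.over (Spec (.of R))) P)
    {T T' : Type u} [CommRing T] [Algebra R T] [CommRing T'] [Algebra R T']
    (f : T →ₐ[R] T') (h1 : (f : T →+* T').FaithfullyFlat) (h2 : (f : T →+* T').FinitePresentation)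
    (e' : P.obj (op (sp R T')))
    (h : ∀ (T'' : Type u) [CommRing T''] [Algebra R T''] (p q : T' →ₐ[R] T''),
      p.comp f = q.comp f → P.map (sm p).op e' = P.map (sm q).op e') :
    ∃ e, P.map (sm f).op e = e' := by
  have h3 : Flat (sm f).left ∧ Surjective (sm f).left :=
    (flat_and_surjective_SpecMap_iff (CommRingCat.ofHom f.toRingHom)).2 h1
  have := h3.1
  have := h3.2
  have : LocallyOfFinitePresentation (sm f).left :=
    (HasRingHomProperty.Spec_iff (P := @LocallyOfFinitePresentation)).2 h2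
  have h4 : Sieve.generate (Presieve.ofArrows (fun _ : Unit => sp R T') fun _ => sm f) ∈
      Scheme.fppfTopology.over (Spec (.of R)) (sp R T) := by
    rw [GrothendieckTopology.mem_over_iff]
    refine GrothendieckTopology.superset_covering _ ?_
      (Precoverage.generate_mem_toGrothendieck (sm f).left.singleton_mem_fppfPrecoverage)
    rw [Sieve.generate_le_iff]
    rintro _ _ ⟨⟩
    rw [Sieve.overEquiv_iff]
    exact ⟨sp R T', Over.homMk (𝟙 _) ((Category.id_comp _).trans (Over.w (sm f)).symm), sm f, ⟨()⟩,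
      Over.OverMorphism.ext (Category.id_comp _)⟩
  have h5 := (Presieve.isSheafFor_arrows_iff _ _).1 (hP.isSheafFor _ h4) (fun _ => e') ?_
  · obtain ⟨e, he, -⟩ := h5
    exact ⟨e, he ()⟩
  · intro _ _ Z g g' hg
    let _ : Algebra T T' := (f : T →+* T').toAlgebra
    have : IsScalarTower R T T' := .of_algebraMap_eq fun r => (f.commutes r).symm
    let p : T' →ₐ[R] T' ⊗[T] T' := Algebra.TensorProduct.includeLeft
    let q : T' →ₐ[R] T' ⊗[T] T' := (Algebra.TensorProduct.includeRight (R := T)).restrictScalars R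
    have hpq : p.comp f = q.comp f := AlgHom.ext fun t =>
      ((Algebra.TensorProduct.includeLeft (S := T)).commutes t).trans
        ((Algebra.TensorProduct.includeRight (R := T) (A := T') (B := T')).commutes t).symm
    let l : Z.left ⟶ (sp R (T' ⊗[T] T')).left :=
      pullback.lift g.left g'.left (congrArg (·.left) hg) ≫ (pullbackSpecIso T T' T').hom
    have hl : l ≫ (sm p).left = g.left := by
      erw [Category.assoc, pullbackSpecIso_hom_fst, pullback.lift_fst]
    have hl' : l ≫ (sm q).left = g'.left := by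
      erw [Category.assoc, pullbackSpecIso_hom_snd, pullback.lift_snd]
    let l' : Z ⟶ sp R (T' ⊗[T] T') := Over.homMk l (by
      rw [← Over.w (sm p), ← Category.assoc, hl, Over.w g])
    have e1 : g = l' ≫ sm p := Over.OverMorphism.ext hl.symm
    have e2 : g' = l' ≫ sm q := Over.OverMorphism.ext hl'.symm
    rw [e1, e2, op_comp, op_comp, P.map_comp, P.map_comp]
    exact congrArg (P.map l'.op) (h _ p q hpq)

theorem loc_aux (Q : Over (Spec (.of R)) → Prop) (hQ : ∀ {U U'}, (U' ⟶ U) → Q U → Q U')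
    (S : Sieve (Over.mk (𝟙 (Spec (.of R)))))
    (hS : S ∈ Scheme.fppfTopology.over (Spec (.of R)) _) (h : ∀ U φ, S (Y := U) φ → Q U) :
    ∃ (I : Type u) (S : I → Type u) (_ : ∀ i, CommRing (S i)) (_ : ∀ i, Algebra R (S i)),
      (∀ i, Module.Flat R (S i) ∧ Algebra.FinitePresentation R (S i) ∧ Q (sp R (S i))) ∧
        ∀ p : PrimeSpectrum R, ∃ (i : I) (q : PrimeSpectrum (S i)),
          PrimeSpectrum.comap (algebraMap R (S i)) q = p := by
  have : MorphismProperty.IsMultiplicative (@Flat.{u} ⊓ @LocallyOfFinitePresentation.{u}) :=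
    { id_mem := fun _ => ⟨inferInstance, inferInstance⟩
      comp_mem := fun _ _ ⟨_, _⟩ ⟨_, _⟩ => ⟨inferInstance, inferInstance⟩ }
  obtain ⟨𝒰, hU⟩ := Scheme.exists_cover_of_mem_grothendieckTopology
    (P := @Flat ⊓ @LocallyOfFinitePresentation) hS
  have key : ∀ p : PrimeSpectrum R, ∃ (T : Type u) (_ : CommRing T) (_ : Algebra R T),
      (Module.Flat R T ∧ Algebra.FinitePresentation R T ∧ Q (sp R T)) ∧
        ∃ q : PrimeSpectrum T, PrimeSpectrum.comap (algebraMap R T) q = p := by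
    intro p
    obtain ⟨i, y, hy⟩ := 𝒰.exists_eq p
    obtain ⟨T, j, hj, z, hz⟩ := (𝒰.X i).exists_Spec_apply_eq y
    obtain ⟨h1, h2⟩ := 𝒰.map_prop i
    obtain ⟨φ, hφ⟩ := Spec.map_surjective (j ≫ 𝒰.f i)
    let _ : Algebra R T := φ.hom.toAlgebra
    have h3 : Flat (Spec.map φ) := hφ ▸ inferInstance
    have h4 : LocallyOfFinitePresentation (Spec.map φ) := hφ ▸ inferInstance
    refine ⟨T, inferInstance, inferInstance, ⟨(HasRingHomProperty.Spec_iff (P := @Flat)).1 h3,
      (HasRingHomProperty.Spec_iff (P := @LocallyOfFinitePresentation)).1 h4, ?_⟩, z, ?_⟩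
    · have h5 := h _ _ ((Sieve.overEquiv_iff S (𝒰.f i)).1 (hU _ _ (Presieve.ofArrows.mk i)))
      exact hQ (Over.homMk (U := sp R T) (V := Over.mk (𝒰.f i ≫ 𝟙 _)) j
        ((congrArg (j ≫ ·) (Category.comp_id _)).trans hφ.symm)) h5
    · have : Spec.map φ z = p := by rw [hφ, Scheme.Hom.comp_apply, hz, hy]
      exact this
  choose T h1 h2 h3 h4 using key
  exact ⟨_, T, h1, h2, h3, fun p => ⟨p, h4 p⟩⟩

/-- The sheaf torsor of a torsor on the big fppf site. -/
noncomputable def ofFppf (A : Type u) [CommRing A] [HopfAlgebra R A]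
    (P : (Over (Spec (.of R)))ᵒᵖ ⥤ Type u)
    (hP : Presieve.IsSheaf (Scheme.fppfTopology.over (Spec (.of R))) P)
    [∀ U, MulAction (U ⟶ sp R A) (P.obj (op U))]
    (nat : ∀ {U U'} (φ : U' ⟶ U) (g : U ⟶ sp R A) (s : P.obj (op U)),
      P.map φ.op (g • s) = (φ ≫ g) • P.map φ.op s)
    (tr : ∀ U (s t : P.obj (op U)), ∃! g : U ⟶ sp R A, g • s = t)
    (S : Sieve (Over.mk (𝟙 (Spec (.of R)))))
    (hS : S ∈ Scheme.fppfTopology.over (Spec (.of R)) _)
    (h : ∀ U φ, S (Y := U) φ → Nonempty (P.obj (op U))) : SheafTorsor R A where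
  obj T := P.obj (op (sp R T))
  map f := P.map (sm f).op
  map_id e := by rw [sm_id, op_id, P.map_id]; rfl
  map_comp f f' e := by rw [sm_comp, op_comp, P.map_comp]; rfl
  act g e := sm g • e
  act_one e := (congrArg (· • e) (map_one Spec.mapMulEquiv)).trans (one_smul _ e)
  act_mul g g' e := by
    rw [show (Algebra.TensorProduct.lift g g' fun _ _ => Commute.all _ _).comp
      (Bialgebra.comulAlgHom R A) = (toConv g * toConv g').ofConv from
        AlgHom.ext fun a => (AlgHom.convMul_apply (toConv g) (toConv g') a).symm]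
    exact (congrArg (· • e) (map_mul Spec.mapMulEquiv (toConv g) (toConv g'))).trans
      (mul_smul _ _ e)
  map_act f g e := by rw [nat, sm_comp]
  trans e e' := by
    obtain ⟨g, h1, h2⟩ := tr _ e e'
    obtain ⟨g, rfl⟩ := Spec.mapMulEquiv.surjective g
    exact ⟨g.ofConv, h1, fun y hy =>
      congrArg ofConv (Spec.mapMulEquiv.injective (h2 (Spec.mapMulEquiv (toConv y)) hy))⟩
  glue f h1 h2 e' h := glue_aux P hP f h1 h2 e' h
  loc := loc_aux (fun U => Nonempty (P.obj (op U))) (fun φ ⟨s⟩ => ⟨P.map φ.op s⟩) S hS h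

/-- A stalk of a smooth scheme over `Spec V` is a localisation of a smooth `V`-algebra. -/
theorem exists_chart {V : Type u} [CommRing V] {X : Scheme.{u}} (f : X ⟶ Spec (.of V)) [Smooth f]
    (x : X) : ∃ (C : Type u) (_ : CommRing C) (_ : Algebra V C) (_ : Algebra.Smooth V C)
      (p : Ideal C) (_ : p.IsPrime) (_ : Algebra C (X.presheaf.stalk x)),
        IsLocalization.AtPrime (X.presheaf.stalk x) p := by
  obtain ⟨T, j, hj, z, rfl⟩ := X.exists_Spec_apply_eq x
  obtain ⟨φ, hφ⟩ := Spec.map_surjective (j ≫ f)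
  let _ : Algebra V T := φ.hom.toAlgebra
  have h3 : Smooth (Spec.map φ) := hφ ▸ inferInstance
  let e := (asIso (j.stalkMap z)).commRingCatIsoToRingEquiv
  let _ : Algebra T ((Spec T).presheaf.stalk z) := StructureSheaf.stalkAlgebra T z
  let _ : Algebra T (X.presheaf.stalk (j z)) :=
    (e.symm.toRingHom.comp (algebraMap T ((Spec T).presheaf.stalk z))).toAlgebra
  refine ⟨T, inferInstance, inferInstance,
    RingHom.smooth_algebraMap.1 ((HasRingHomProperty.Spec_iff (P := @Smooth)).1 h3), z.asIdeal,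
    z.2, inferInstance, ?_⟩
  have : IsLocalization.AtPrime ((Spec T).presheaf.stalk z) z.asIdeal :=
    StructureSheaf.IsLocalization.to_stalk T z
  exact IsLocalization.isLocalization_of_algEquiv z.asIdeal.primeCompl
    (AlgEquiv.ofRingEquiv (f := e.symm) fun _ => rfl)

theorem isDomain_loc (V C : Type u) [CommRing V] [IsDomain V] [ValuationRing V] [CommRing C]
    [Algebra V C] [Algebra.Smooth V C] (p : Ideal C) [p.IsPrime] (R : Type u) [CommRing R]
    [Algebra C R] [IsLocalization.AtPrime R p] : IsDomain R := by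
  have := IsLocalization.AtPrime.isLocalRing R p
  obtain ⟨d, π, G, h1, h2, h3⟩ := P.MP_c1f06d_ag.exists_locPres_of_smooth V C R p
  obtain ⟨V, _, _, _, π', G', h⟩ := P.MP_c1f06d_ag.exists_pres_of_locPres π G h1 h2 h3
  exact h.isDomain

theorem nonempty_top (P : (Over (Spec (.of R)))ᵒᵖ ⥤ Type u) (h : Nonempty (P.obj (op (sp R R)))) :
    Nonempty (P.obj (op (Over.mk (𝟙 _)))) := by
  have h1 : (sp R R).hom = 𝟙 (Spec (.of R)) := by
    show Spec.map (CommRingCat.ofHom (algebraMap R R)) = _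
    rw [Algebra.algebraMap_self, CommRingCat.ofHom_id, Spec.map_id]
  obtain ⟨s⟩ := h
  exact ⟨P.map (Over.homMk (U := Over.mk (𝟙 _)) (V := sp R R) (𝟙 _)
    ((Category.id_comp _).trans h1)).op s⟩

/-- Transfer of a statement on sheaf torsors to torsors on the big fppf site. -/
theorem transfer (R K A : CommRingCat.{u}) [Algebra R K] [HopfAlgebra R A]
    (H : ∀ F : SheafTorsor R A, Nonempty (F.obj K) → Nonempty (F.obj R))
    (G : Over (Spec R)) [GrpObj G] (e : G ≅ (Spec A).asOver (Spec R)) [IsMonHom e.hom]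
    (P : (Over (Spec R))ᵒᵖ ⥤ Type u)
    (hP : Presieve.IsSheaf (Scheme.fppfTopology.over (Spec R)) P)
    [∀ U, MulAction (U ⟶ G) (P.obj (op U))]
    (nat : ∀ {U U'} (φ : U' ⟶ U) (g : U ⟶ G) (s : P.obj (op U)),
      P.map φ.op (g • s) = (φ ≫ g) • P.map φ.op s)
    (tr : ∀ U (s t : P.obj (op U)), ∃! g : U ⟶ G, g • s = t)
    (loc : ∃ S ∈ Scheme.fppfTopology.over (Spec R) (Over.mk (𝟙 _)),
      ∀ U φ, S (Y := U) φ → Nonempty (P.obj (op U)))
    (h : Nonempty (P.obj (op ((Spec K).asOver (Spec R))))) :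
    Nonempty (P.obj (op (Over.mk (𝟙 _)))) := by
  obtain ⟨S, hS, hS'⟩ := loc
  let _ : ∀ U, MulAction (U ⟶ (Spec A).asOver (Spec R)) (P.obj (op U)) := fun U =>
    MulAction.compHom _ (IsMonHom.monoidHom e.inv U)
  have hs : ∀ U (g : U ⟶ (Spec A).asOver (Spec R)) (s : P.obj (op U)), g • s = (g ≫ e.inv) • s :=
    fun _ _ _ => rfl
  obtain ⟨s⟩ := H (ofFppf A P hP
    (fun φ g s => by rw [hs, hs, nat, Category.assoc])
    (fun U s t => by
      obtain ⟨g, h1, h2⟩ := tr U s t
      refine ⟨g ≫ e.hom, (hs _ _ _).trans ?_, fun y hy => ?_⟩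
      · rwa [Category.assoc, e.hom_inv_id, Category.comp_id]
      · rw [← h2 _ ((hs _ _ _).symm.trans hy), Category.assoc, e.inv_hom_id, Category.comp_id])
    S hS hS') h
  exact nonempty_top P ⟨s⟩

/-- The group object `G` is the spectrum of the Hopf algebra `A`. -/
def RepBy (R A : CommRingCat.{u}) [HopfAlgebra R A] (G : Over (Spec R)) [GrpObj G] : Prop :=
  ∃ e : G ≅ (Spec A).asOver (Spec R), IsMonHom e.hom

open MonoidalCategory Functor in
theorem repBy (R : CommRingCat.{u}) (G : Scheme.{u}) [G.Over (Spec R)]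
    [GrpObj (G.asOver (Spec R))] [IsAffine G] : RepBy R Γ(G, ⊤) (G.asOver (Spec R)) := by
  let Y := (algSpec R).obj (.op (CommAlgCat.of R Γ(G, ⊤)))
  let e : G.asOver (Spec R) ≅ Y := G.isoSpec.asOver (Spec R)
  let _ : GrpObj Y := .ofIso e
  have h : IsMonHom e.hom := isMonHom_ofIso e
  refine ⟨e, ?_, ?_⟩
  · show _ = LaxMonoidal.ε (algSpec R) ≫ (algSpec R).map
      (algSpec.fullyFaithful.preimage (OplaxMonoidal.η (algSpec R) ≫ η[Y]))
    rw [FullyFaithful.map_preimage, Monoidal.ε_η_assoc]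
    exact h.one_hom
  · show _ = (e.hom ⊗ₘ e.hom) ≫ LaxMonoidal.μ (algSpec R) _ _ ≫ (algSpec R).map
      (algSpec.fullyFaithful.preimage (OplaxMonoidal.δ (algSpec R) _ _ ≫ μ[Y]))
    rw [FullyFaithful.map_preimage, Monoidal.μ_δ_assoc]
    exact h.mul_hom

/-- A surjective flat morphism locally of finite presentation generates a covering sieve. -/
theorem exists_sieve {S : Scheme.{u}} (E : Over S) [Flat E.hom] [LocallyOfFinitePresentation E.hom]
    [Surjective E.hom] : ∃ C ∈ Scheme.fppfTopology.over S (Over.mk (𝟙 _)),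
      ∀ U φ, C (Y := U) φ → Nonempty (U ⟶ E) := by
  refine ⟨(Sieve.overEquiv _).symm (Sieve.generate (Presieve.singleton E.hom)),
    GrothendieckTopology.overEquiv_symm_mem_over _ _ _
      (Precoverage.generate_mem_toGrothendieck E.hom.singleton_mem_fppfPrecoverage),
    fun U φ h => ?_⟩
  obtain ⟨_, a, _, ⟨⟩, h1⟩ := (Sieve.overEquiv_symm_iff _ φ).1 h
  exact ⟨Over.homMk a (h1.trans ((Category.comp_id _).symm.trans (Over.w φ)))⟩

end Pool.Agent.RED.NV
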