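import Pool.Agent.P.MP_c1f06d_ag.g.ShTop
import Pool.Agent.P.MP_c1f06d_ag.g.NVs

/-! The main theorem in the language of schemes and of the big fppf site. No hand-in imports this
file. -/

open AlgebraicGeometry CategoryTheory Opposite Pool.Agent.RG
open scoped MonObj

universe u

namespace Pool.Agent.RED.NV

/-- The theorem on Mathlib's big fppf site: `X` is a smooth scheme over `V`, `R` its local ring at
`x`, `G` an affine group scheme over `R` whose Hopf algebra is reductive, `P` an fppf sheaf on the
schemes over `Spec R` with a natural simply transitive action of `G` and with sections on a covering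
sieve. A section over the fraction field of `R` gives a section over `R`. -/
theorem fppf_sheaf (k : Type u) [Field k] (V : Type u) [CommRing V] [IsDomain V] [ValuationRing V]
    [Algebra k V] (X : Scheme.{u}) (f : X ⟶ Spec (.of V)) [Smooth f] (x : X)
    (R : CommRingCat.{u}) (hR : R = X.presheaf.stalk x)
    (G : Scheme.{u}) [G.Over (Spec R)] [GrpObj (G.asOver (Spec R))] [IsAffine G]
    (hG : IsReductive R Γ(G, ⊤)) (P : (Over (Spec R))ᵒᵖ ⥤ Type u)
    (hP : Presieve.IsSheaf (Scheme.fppfTopology.over (Spec R)) P)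
    [∀ U, MulAction (U ⟶ G.asOver (Spec R)) (P.obj (op U))]
    (nat : ∀ {U U'} (φ : U' ⟶ U) (g : U ⟶ G.asOver (Spec R)) (s : P.obj (op U)),
      P.map φ.op (g • s) = (φ ≫ g) • P.map φ.op s)
    (tr : ∀ U (s t : P.obj (op U)), ∃! g : U ⟶ G.asOver (Spec R), g • s = t)
    (loc : ∃ S ∈ Scheme.fppfTopology.over (Spec R) (Over.mk (𝟙 _)),
      ∀ U φ, S (Y := U) φ → Nonempty (P.obj (op U)))
    (hK : Nonempty (P.obj (op ((Spec (.of (FractionRing R))).asOver (Spec R))))) :
    Nonempty (P.obj (op (Over.mk (𝟙 (Spec R))))) := by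
  have hc := exists_chart f x
  rw [← hR] at hc
  obtain ⟨C, _, _, _, p, _, _, _⟩ := hc
  have := isDomain_loc V C p R
  obtain ⟨e, _⟩ := repBy R G
  exact transfer R (.of (FractionRing R)) Γ(G, ⊤)
    (gs_sheaf k V C p R (FractionRing R) Γ(G, ⊤) hG) _ e P hP nat tr loc hK

/-- The same for a torsor that is a scheme `E`: flat, locally of finite presentation and surjective
over `Spec R`, with an action of `G` such that `G × E → E × E` is an isomorphism. -/
theorem fppf_scheme (k : Type u) [Field k] (V : Type u) [CommRing V] [IsDomain V] [ValuationRing V]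
    [Algebra k V] (X : Scheme.{u}) (f : X ⟶ Spec (.of V)) [Smooth f] (x : X)
    (R : CommRingCat.{u}) (hR : R = X.presheaf.stalk x)
    (G : Scheme.{u}) [G.Over (Spec R)] [GrpObj (G.asOver (Spec R))] [IsAffine G]
    (hG : IsReductive R Γ(G, ⊤)) (E : Over (Spec R)) [Flat E.hom]
    [LocallyOfFinitePresentation E.hom] [Surjective E.hom] [ModObj (G.asOver (Spec R)) E]
    [CategoryTheory.IsIso (ModObj.leftSMul (G.asOver (Spec R)) E)]
    (hK : Nonempty ((Spec (.of (FractionRing R))).asOver (Spec R) ⟶ E)) :
    Nonempty (Over.mk (𝟙 (Spec R)) ⟶ E) :=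
  letI : ∀ U, MulAction (U ⟶ G.asOver (Spec R)) ((yoneda.obj E).obj (op U)) :=
    fun U => Hom.mulAction U
  fppf_sheaf k V X f x R hR G hG (yoneda.obj E)
    (GrothendieckTopology.Subcanonical.isSheaf_of_isRepresentable _)
    (fun φ g s => ModObj.comp_smul φ g s) (ModObj.isIso_leftSMul_iff.1 inferInstance)
    (exists_sieve E) hK

end Pool.Agent.RED.NV
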