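import Mathlib

universe u

namespace Pool.Agent.RG

/-- A torsor under `G = Spec A` for the fppf topology, as a functor on `R`-algebras: `G(T)` acts
naturally and simply transitively on the sections over `T`, sections glue along faithfully flat
maps of finite presentation, and there are sections on the members of some fppf cover of
`Spec R`. -/
structure SheafTorsor (R A : Type u) [CommRing R] [CommRing A] [HopfAlgebra R A] where
  obj : ∀ (T : Type u) [CommRing T] [Algebra R T], Type u
  map : ∀ {T T' : Type u} [CommRing T] [Algebra R T] [CommRing T'] [Algebra R T'],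
    (T →ₐ[R] T') → obj T → obj T'
  map_id : ∀ {T : Type u} [CommRing T] [Algebra R T] (e : obj T), map (AlgHom.id R T) e = e
  map_comp : ∀ {T T' T'' : Type u} [CommRing T] [Algebra R T] [CommRing T'] [Algebra R T']
    [CommRing T''] [Algebra R T''] (f : T →ₐ[R] T') (f' : T' →ₐ[R] T'') (e : obj T),
      map (f'.comp f) e = map f' (map f e)
  act : ∀ {T : Type u} [CommRing T] [Algebra R T], (A →ₐ[R] T) → obj T → obj T
  act_one : ∀ {T : Type u} [CommRing T] [Algebra R T] (e : obj T),
    act ((Algebra.ofId R T).comp (Bialgebra.counitAlgHom R A)) e = e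
  act_mul : ∀ {T : Type u} [CommRing T] [Algebra R T] (g g' : A →ₐ[R] T) (e : obj T),
    act ((Algebra.TensorProduct.lift g g' fun _ _ => Commute.all _ _).comp
      (Bialgebra.comulAlgHom R A)) e = act g (act g' e)
  map_act : ∀ {T T' : Type u} [CommRing T] [Algebra R T] [CommRing T'] [Algebra R T']
    (f : T →ₐ[R] T') (g : A →ₐ[R] T) (e : obj T), map f (act g e) = act (f.comp g) (map f e)
  trans : ∀ {T : Type u} [CommRing T] [Algebra R T] (e e' : obj T), ∃! g, act g e = e'
  glue : ∀ {T T' : Type u} [CommRing T] [Algebra R T] [CommRing T'] [Algebra R T']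
    (f : T →ₐ[R] T'), (f : T →+* T').FaithfullyFlat → (f : T →+* T').FinitePresentation →
      ∀ e' : obj T', (∀ (T'' : Type u) [CommRing T''] [Algebra R T''] (p q : T' →ₐ[R] T''),
        p.comp f = q.comp f → map p e' = map q e') → ∃ e, map f e = e'
  loc : ∃ (ι : Type u) (S : ι → Type u) (_ : ∀ i, CommRing (S i)) (_ : ∀ i, Algebra R (S i)),
    (∀ i, Module.Flat R (S i) ∧ Algebra.FinitePresentation R (S i) ∧ Nonempty (obj (S i))) ∧
      ∀ p : PrimeSpectrum R, ∃ (i : ι) (q : PrimeSpectrum (S i)),
        PrimeSpectrum.comap (algebraMap R (S i)) q = p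

end Pool.Agent.RG
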