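import Pool.Agent.P.MP_c1f06d_ag.g.NV
import Pool.Agent.P.MP_c1f06d_ag.g.ShS

/-! The circle group, a torsor under it, and a singular local ring over which the torsor is
generically trivial and not trivial. -/

open WithConv Matrix MvPolynomial Pool.Agent.RG Pool.Agent.GR Pool.Agent.GR.Hp Pool.Agent.GR.Co
open scoped TensorProduct

universe u

namespace Pool.Agent.RED.NV

theorem descend_elt {R T T' : Type u} [CommRing R] [CommRing T] [Algebra R T] [CommRing T']
    [Algebra R T'] (f : T →ₐ[R] T') (hf : (f : T →+* T').FaithfullyFlat) (t : T')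
    (h : ∀ (T'' : Type u) [CommRing T''] [Algebra R T''] (p q : T' →ₐ[R] T''),
      p.comp f = q.comp f → p t = q t) : ∃ s, f s = t := by
  let _ : Algebra T T' := (f : T →+* T').toAlgebra
  have : IsScalarTower R T T' := .of_algebraMap_eq fun r => (f.commutes r).symm
  have : Module.FaithfullyFlat T T' := hf
  refine (Algebra.IsEffective.of_faithfullyFlat T T' t).1 ?_
  rw [Algebra.TensorProduct.includeLeftSubRight_apply, sub_eq_zero]
  exact h (T' ⊗[T] T') Algebra.TensorProduct.includeLeft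
    ((Algebra.TensorProduct.includeRight (R := T)).restrictScalars R) (AlgHom.ext fun t =>
      ((Algebra.TensorProduct.includeLeft (S := T)).commutes t).trans
        ((Algebra.TensorProduct.includeRight (R := T) (A := T') (B := T')).commutes t).symm)

section circ

variable (R : Type u) [CommRing R]

/-- The coordinate ring of the circle. -/
abbrev Circ : Type u :=
  MvPolynomial (Fin 2) R ⧸ Ideal.span {(X 0 ^ 2 + X 1 ^ 2 - 1 : MvPolynomial (Fin 2) R)}

/-- The first coordinate. -/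
noncomputable def cx : Circ R := Ideal.Quotient.mkₐ R _ (X 0)

/-- The second coordinate. -/
noncomputable def cy : Circ R := Ideal.Quotient.mkₐ R _ (X 1)

theorem c_rel : cx R ^ 2 + cy R ^ 2 = 1 := by
  rw [← sub_eq_zero, cx, cy, ← map_pow, ← map_pow, ← map_add, ← map_one (Ideal.Quotient.mkₐ R _),
    ← map_sub]
  exact Ideal.Quotient.eq_zero_iff_mem.2 (Ideal.mem_span_singleton_self _)

variable {R} {T : Type u} [CommRing T] [Algebra R T]

theorem pt_rel (g : Circ R →ₐ[R] T) : g (cx R) ^ 2 + g (cy R) ^ 2 = 1 := by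
  rw [← map_pow, ← map_pow, ← map_add, c_rel, map_one]

/-- The point of the circle with given coordinates. -/
noncomputable def clift (a b : T) (h : a ^ 2 + b ^ 2 = 1) : Circ R →ₐ[R] T :=
  Ideal.Quotient.liftₐ _ (aeval ![a, b]) fun f hf => by
    obtain ⟨c, rfl⟩ := Ideal.mem_span_singleton'.1 hf
    simp [h]

@[simp] theorem clift_x (a b : T) (h : a ^ 2 + b ^ 2 = 1) : clift (R := R) a b h (cx R) = a := by
  simp [clift, cx]

@[simp] theorem clift_y (a b : T) (h : a ^ 2 + b ^ 2 = 1) : clift (R := R) a b h (cy R) = b := by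
  simp [clift, cy]

theorem c_ext {g g' : Circ R →ₐ[R] T} (hx : g (cx R) = g' (cx R)) (hy : g (cy R) = g' (cy R)) :
    g = g' := by
  refine Ideal.Quotient.algHom_ext R (MvPolynomial.algHom_ext fun i => ?_)
  fin_cases i
  exacts [hx, hy]

variable (R)

/-- The group law of the circle. -/
noncomputable def natC : NatGrp R (Circ R) where
  mul g h := clift (g (cx R) * h (cx R) - g (cy R) * h (cy R))
    (g (cx R) * h (cy R) + g (cy R) * h (cx R))
    (by linear_combination (h (cx R) ^ 2 + h (cy R) ^ 2) * pt_rel g + pt_rel h)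
  one := clift 1 0 (by simp)
  inv := clift (cx R) (-cy R) (by linear_combination c_rel R)
  nat f x y := c_ext (by simp) (by simp)
  assoc x y z := c_ext (by simp only [clift_x, clift_y]; ring) (by simp only [clift_x, clift_y]; ring)
  one_mul x := c_ext (by simp) (by simp)
  inv_mul x := c_ext (by simpa [pow_two] using pt_rel x) (by simp [mul_comm])

theorem natC_x (g h : Circ R →ₐ[R] T) :
    (natC R).mul g h (cx R) = g (cx R) * h (cx R) - g (cy R) * h (cy R) :=
  clift_x _ _ (by linear_combination (h (cx R) ^ 2 + h (cy R) ^ 2) * pt_rel g + pt_rel h)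

theorem natC_y (g h : Circ R →ₐ[R] T) :
    (natC R).mul g h (cy R) = g (cx R) * h (cy R) + g (cy R) * h (cx R) :=
  clift_y _ _ (by linear_combination (h (cx R) ^ 2 + h (cy R) ^ 2) * pt_rel g + pt_rel h)

theorem smooth_circ (c : R) (hc : 2 * c = 1) : Algebra.Smooth R (Circ R) := by
  refine ⟨.of_comp_surjective fun B _ _ I hI g => ?_,
    Algebra.FinitePresentation.quotient (Submodule.fg_span_singleton _)⟩
  obtain ⟨a, ha⟩ := Ideal.Quotient.mk_surjective (g (cx R))
  obtain ⟨b, hb⟩ := Ideal.Quotient.mk_surjective (g (cy R))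
  have h0 : Ideal.Quotient.mk I (a ^ 2 + b ^ 2 - 1) = 0 := by
    rw [map_sub, map_add, map_pow, map_pow, ha, hb, pt_rel, map_one, sub_self]
  have h1 : (a ^ 2 + b ^ 2 - 1) ^ 2 = 0 := by
    rw [← Ideal.mem_bot, ← hI]
    exact Ideal.pow_mem_pow (Ideal.Quotient.eq_zero_iff_mem.1 h0) 2
  have h2 : 2 * algebraMap R B c = 1 := by
    rw [← map_one (algebraMap R B), ← hc, map_mul, map_ofNat]
  refine ⟨clift (a * (1 - algebraMap R B c * (a ^ 2 + b ^ 2 - 1)))
    (b * (1 - algebraMap R B c * (a ^ 2 + b ^ 2 - 1))) ?_, c_ext ?_ ?_⟩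
  · linear_combination (algebraMap R B c ^ 2 * (a ^ 2 + b ^ 2) - 1) * h1 -
      (a ^ 2 + b ^ 2 - 1) * (a ^ 2 + b ^ 2) * h2
  · rw [AlgHom.comp_apply, clift_x, Ideal.Quotient.mkₐ_eq_mk, map_mul, map_sub, map_mul, h0, ha]
    simp
  · rw [AlgHom.comp_apply, clift_y, Ideal.Quotient.mkₐ_eq_mk, map_mul, map_sub, map_mul, h0, hb]
    simp

theorem unit_aux {B : Type u} [CommRing B] (j x y : B) (h : x ^ 2 + y ^ 2 = 1) (hj : j ^ 2 = -1) :
    (x + j * y) * (x - j * y) = 1 := by linear_combination h - y ^ 2 * hj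

theorem domain_aux {Ω B : Type u} [Field Ω] [CommRing B] [Algebra Ω B] (c j : Ω) (hc : 2 * c = 1)
    (hj : j ^ 2 = -1) (x y : B) (hxy : x ^ 2 + y ^ 2 = 1)
    (h : ∀ (T : Type u) [CommRing T] [Algebra Ω T] (a b : T), a ^ 2 + b ^ 2 = 1 →
      ∃ f : B →ₐ[Ω] T, f x = a ∧ f y = b)
    (h' : ∀ g : B →ₐ[Ω] B, g x = x → g y = y → g = AlgHom.id Ω B) : IsDomain B := by
  let L := Localization.Away (Polynomial.X : Polynomial Ω)
  have h1 : IsDomain L := IsLocalization.isDomain_localization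
    (powers_le_nonZeroDivisors_of_noZeroDivisors Polynomial.X_ne_zero)
  let t : L := algebraMap (Polynomial Ω) L Polynomial.X
  let s : L := IsLocalization.Away.invSelf (Polynomial.X : Polynomial Ω)
  have hts : t * s = 1 := IsLocalization.Away.mul_invSelf _
  have h2 : ∀ (B : Type u) [CommRing B] [Algebra Ω B],
      2 * algebraMap Ω B c = 1 ∧ algebraMap Ω B j ^ 2 = -1 := fun B _ _ =>
    ⟨by rw [← map_ofNat (algebraMap Ω B), ← map_mul, hc, map_one],
      by rw [← map_pow, hj, map_neg, map_one]⟩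
  have hu := unit_aux _ x y hxy (h2 B).2
  obtain ⟨f, hx, hy⟩ := h L (algebraMap Ω L c * (t + s))
    (algebraMap Ω L c * (algebraMap Ω L j * (s - t))) (by
      linear_combination (algebraMap Ω L c ^ 2 * (s - t) ^ 2) * (h2 L).2 +
        4 * algebraMap Ω L c ^ 2 * hts + (2 * algebraMap Ω L c + 1) * (h2 L).1)
  let f' : L →ₐ[Ω] B := IsLocalization.Away.liftAlgHom (Polynomial.X : Polynomial Ω)
    (f := Polynomial.aeval (x + algebraMap Ω B j * y))
    (by rw [Polynomial.aeval_X]; exact .of_mul_eq_one _ hu)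
  have ht : f' t = x + algebraMap Ω B j * y := by simp [f', t]
  have hs : f' s = x - algebraMap Ω B j * y := by
    have := congrArg f' hts
    rw [map_mul, map_one, ht] at this
    linear_combination (x - algebraMap Ω B j * y) * this - f' s * hu
  have h3 : f'.comp f = AlgHom.id Ω _ := by
    refine h' _ ?_ ?_
    · rw [AlgHom.comp_apply, hx, map_mul, map_add, ht, hs, AlgHom.commutes]
      linear_combination x * (h2 B).1
    · rw [AlgHom.comp_apply, hy, map_mul, map_mul, map_sub, ht, hs, AlgHom.commutes,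
        AlgHom.commutes]
      linear_combination y * (h2 B).1 - 2 * algebraMap Ω B c * y * (h2 B).2
  exact Function.Injective.isDomain (f : B →+* L)
    (Function.LeftInverse.injective (g := f') fun x => AlgHom.congr_fun h3 x)

/-- A point at which a multiplicative function is not `1` is not unipotent. -/
theorem eq_one_of_char {Ω B : Type u} [Field Ω] [CommRing B] [HopfAlgebra Ω B] (v w : B)
    (hvw : v * w = 1)
    (hm : ∀ (T : Type u) [CommRing T] [Algebra Ω T] (g g' : Pt Ω B T),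
      (g * g').ofConv v = g.ofConv v * g'.ofConv v) (h1 : (1 : Pt Ω B Ω).ofConv v = 1)
    {g : Pt Ω B Ω} (hg : IsUnipotent g) : g.ofConv v = 1 := by
  let γ : GL (Fin 1) B := ⟨!![v], !![w], by ext i j; fin_cases i; fin_cases j; simp [hvw],
    by ext i j; fin_cases i; fin_cases j; simp [mul_comm w, hvw]⟩
  have hw : IsRep (k := Ω) (γ : Mat 1 B) := isRep_of_mul γ
    (by
      ext i j
      fin_cases i
      fin_cases j
      simpa [γ, Matrix.mul_apply] using hm _ (toConv (iL Ω B B)) (toConv (iR Ω B B)))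
    (by
      ext i j
      fin_cases i
      fin_cases j
      simpa [γ] using h1)
  have h2 := (isNilpotent_trace_of_isNilpotent (nil_of_isUnipotent hw hg)).eq_zero
  rw [trace_fin_one] at h2
  exact sub_eq_zero.1 h2

theorem isReductive_circ (c : R) (hc : 2 * c = 1) :
    letI := (natC R).hopf; IsReductive R (Circ R) := by
  let _ := (natC R).hopf
  refine ⟨smooth_circ R c hc, fun Ω _ _ _ => ?_⟩
  obtain ⟨j, hj⟩ := IsAlgClosed.exists_pow_nat_eq (-1 : Ω) two_pos
  have hc' : 2 * algebraMap R Ω c = 1 := by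
    rw [← map_ofNat (algebraMap R Ω), ← map_mul, hc, map_one]
  obtain ⟨x, hx⟩ : ∃ x : Ω ⊗[R] Circ R, x = 1 ⊗ₜ cx R := ⟨_, rfl⟩
  obtain ⟨y, hy⟩ : ∃ y : Ω ⊗[R] Circ R, y = 1 ⊗ₜ cy R := ⟨_, rfl⟩
  have hxy : x ^ 2 + y ^ 2 = 1 := by
    rw [hx, hy]
    exact pt_rel (iR R Ω (Circ R))
  have hext : ∀ (T : Type u) [CommRing T] [Algebra Ω T] (g g' : Ω ⊗[R] Circ R →ₐ[Ω] T),
      g x = g' x → g y = g' y → g = g' := by
    intro T _ _ g g' h1 h2
    let _ : Algebra R T := ((algebraMap Ω T).comp (algebraMap R Ω)).toAlgebra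
    have : IsScalarTower R Ω T := .of_algebraMap_eq fun _ => rfl
    rw [hx] at h1
    rw [hy] at h2
    exact Algebra.TensorProduct.ext (Subsingleton.elim _ _) (c_ext h1 h2)
  have hd := domain_aux _ j hc' hj x y hxy (fun T _ _ a b h => by
    let _ : Algebra R T := ((algebraMap Ω T).comp (algebraMap R Ω)).toAlgebra
    have : IsScalarTower R Ω T := .of_algebraMap_eq fun _ => rfl
    refine ⟨AlgHom.liftEquiv R Ω (Circ R) T (clift a b h), ?_, ?_⟩
    · rw [hx, AlgHom.liftEquiv_tmul, one_smul, clift_x]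
    · rw [hy, AlgHom.liftEquiv_tmul, one_smul, clift_y]) fun g h1 h2 =>
      hext (Ω ⊗[R] Circ R) g (AlgHom.id Ω (Ω ⊗[R] Circ R)) h1 h2
  have hm : ∀ (T : Type u) [CommRing T] [Algebra Ω T] (g g' : Pt Ω (Ω ⊗[R] Circ R) T),
      (g * g').ofConv x = g.ofConv x * g'.ofConv x - g.ofConv y * g'.ofConv y ∧
      (g * g').ofConv y = g.ofConv x * g'.ofConv y + g.ofConv y * g'.ofConv x := by
    intro T _ _ g g'
    let _ : Algebra R T := ((algebraMap Ω T).comp (algebraMap R Ω)).toAlgebra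
    have : IsScalarTower R Ω T := .of_algebraMap_eq fun _ => rfl
    have h1 := congrArg ofConv (map_mul (bcPt (R := R) (A := Circ R) Ω T).symm g g')
    rw [(natC R).hopf_mul] at h1
    rw [hx, hy]
    exact ⟨(AlgHom.congr_fun h1 (cx R)).trans (natC_x R _ _),
      (AlgHom.congr_fun h1 (cy R)).trans (natC_y R _ _)⟩
  have ho : (1 : Pt Ω (Ω ⊗[R] Circ R) Ω).ofConv x = 1 ∧
      (1 : Pt Ω (Ω ⊗[R] Circ R) Ω).ofConv y = 0 := by
    have h1 := congrArg ofConv (map_one (bcPt (R := R) (A := Circ R) Ω Ω).symm)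
    rw [(natC R).hopf_one] at h1
    rw [hx, hy]
    exact ⟨(AlgHom.congr_fun h1 (cx R)).trans
        ((congrArg (Algebra.ofId R Ω) (clift_x (1 : R) 0 (by simp))).trans (map_one _)),
      (AlgHom.congr_fun h1 (cy R)).trans
        ((congrArg (Algebra.ofId R Ω) (clift_y (1 : R) 0 (by simp))).trans (map_zero _))⟩
  have key : ∀ j : Ω, j ^ 2 = -1 → ∀ g : Pt Ω (Ω ⊗[R] Circ R) Ω, IsUnipotent g →
      g.ofConv x + j * g.ofConv y = 1 := by
    intro j hj g hg
    have hj' : ∀ (T : Type u) [CommRing T] [Algebra Ω T], algebraMap Ω T j ^ 2 = -1 :=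
      fun T _ _ => by rw [← map_pow, hj, map_neg, map_one]
    have := eq_one_of_char (x + algebraMap Ω _ j * y) (x - algebraMap Ω _ j * y)
      (unit_aux _ x y hxy (hj' _)) (fun T _ _ g g' => by
        simp only [map_add, map_mul, AlgHom.commutes, hm]
        linear_combination -g.ofConv y * g'.ofConv y * hj' T)
      (by rw [map_add, map_mul, ho.1, ho.2, mul_zero, add_zero]) hg
    rwa [map_add, map_mul, AlgHom.commutes] at this
  refine ⟨inferInstance, fun U _ _ _ _ hu => (Subgroup.eq_bot_iff_forall _).2 fun g hg => ?_⟩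
  have h1 := key j hj g (hu g hg)
  have h2 := key (-j) (by rw [neg_sq, hj]) g (hu g hg)
  refine WithConv.ext (hext _ _ _ (Eq.trans ?_ ho.1.symm) (Eq.trans ?_ ho.2.symm))
  · linear_combination algebraMap R Ω c * (h1 + h2) - (g.ofConv x - 1) * hc'
  · linear_combination -algebraMap R Ω c * j * (h1 - h2) - g.ofConv y * hc' +
      2 * algebraMap R Ω c * g.ofConv y * hj

end circ

/-- The Hopf algebra `A` with coordinates `x`, `y` represents the circle group. -/
structure IsCirc (R : Type u) {A : Type u} [CommRing R] [CommRing A] [HopfAlgebra R A] (x y : A) :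
    Prop where
  rel : x ^ 2 + y ^ 2 = 1
  pt : ∀ (T : Type u) [CommRing T] [Algebra R T] (a b : T), a ^ 2 + b ^ 2 = 1 →
    ∃! g : A →ₐ[R] T, g x = a ∧ g y = b
  one : Bialgebra.counitAlgHom R A x = 1 ∧ Bialgebra.counitAlgHom R A y = 0
  mul : ∀ {T : Type u} [CommRing T] [Algebra R T] (g h m : A →ₐ[R] T),
    m = (Algebra.TensorProduct.lift g h fun _ _ => Commute.all _ _).comp
      (Bialgebra.comulAlgHom R A) → m x = g x * h x - g y * h y ∧ m y = g x * h y + g y * h x

theorem isCirc (R : Type u) [CommRing R] : letI := (natC R).hopf; IsCirc R (cx R) (cy R) := by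
  let _ := (natC R).hopf
  refine ⟨c_rel R, fun T _ _ a b h => ⟨clift a b h, ⟨clift_x _ _ h, clift_y _ _ h⟩, fun g hg =>
    c_ext (hg.1.trans (clift_x _ _ h).symm) (hg.2.trans (clift_y _ _ h).symm)⟩,
    ⟨clift_x (1 : R) 0 (by simp), clift_y (1 : R) 0 (by simp)⟩, fun g h m hm => ?_⟩
  rw [hm.trans ((AlgHom.ext fun a => (pt_mul_apply (toConv g) (toConv h) a).symm).trans
    ((natC R).hopf_mul g h))]
  exact ⟨natC_x R _ _, natC_y R _ _⟩

theorem IsCirc.rel' {R A T : Type u} [CommRing R] [CommRing A] [HopfAlgebra R A] {x y : A}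
    (H : IsCirc R x y) [CommRing T] [Algebra R T] (g : A →ₐ[R] T) : g x ^ 2 + g y ^ 2 = 1 := by
  rw [← map_pow, ← map_pow, ← map_add, H.rel, map_one]

/-- Rotation of a solution of `x ^ 2 + y ^ 2 = -1`. -/
def rot {T : Type u} [CommRing T] (a b : T) (h : a ^ 2 + b ^ 2 = 1)
    (e : {p : T × T // p.1 ^ 2 + p.2 ^ 2 = -1}) : {p : T × T // p.1 ^ 2 + p.2 ^ 2 = -1} :=
  ⟨(a * e.1.1 - b * e.1.2, a * e.1.2 + b * e.1.1),
    by linear_combination (e.1.1 ^ 2 + e.1.2 ^ 2) * h + e.2⟩

theorem rot_one {T : Type u} [CommRing T] {a b : T} (h : a ^ 2 + b ^ 2 = 1) (e) (ha : a = 1)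
    (hb : b = 0) : rot a b h e = e := by
  subst ha hb
  ext <;> simp [rot]

theorem rot_mul {T : Type u} [CommRing T] {a b a' b' c d : T} (h : a ^ 2 + b ^ 2 = 1)
    (h' : a' ^ 2 + b' ^ 2 = 1) (h'' : c ^ 2 + d ^ 2 = 1) (e)
    (hc : c = a * a' - b * b' ∧ d = a * b' + b * a') :
    rot c d h'' e = rot a b h (rot a' b' h' e) := by
  obtain ⟨rfl, rfl⟩ := hc
  ext <;> simp only [rot] <;> ring

/-- The torsor `x ^ 2 + y ^ 2 = -1` under the circle group. -/
noncomputable def circTor {R A : Type u} [CommRing R] [CommRing A] [HopfAlgebra R A] {x y : A}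
    (H : IsCirc R x y) (S : Type u) [CommRing S] [Algebra R S] [Module.FaithfullyFlat R S]
    [Algebra.FinitePresentation R S] (j : S) (hj : j ^ 2 = -1) : SheafTorsor R A where
  obj T := {p : T × T // p.1 ^ 2 + p.2 ^ 2 = -1}
  map f e := ⟨(f e.1.1, f e.1.2), by rw [← map_pow, ← map_pow, ← map_add, e.2, map_neg, map_one]⟩
  map_id _ := rfl
  map_comp _ _ _ := rfl
  act g e := rot (g x) (g y) (H.rel' g) e
  act_one e := rot_one _ e (by rw [AlgHom.comp_apply, H.one.1, map_one])
    (by rw [AlgHom.comp_apply, H.one.2, map_zero])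
  act_mul g g' e := rot_mul _ _ _ e (H.mul g g' _ rfl)
  map_act f g e := Subtype.ext (Prod.ext (by simp [rot]) (by simp [rot]))
  trans e e' := by
    obtain ⟨g, ⟨h1, h2⟩, h3⟩ := H.pt _ (-(e'.1.1 * e.1.1 + e'.1.2 * e.1.2))
      (e'.1.1 * e.1.2 - e'.1.2 * e.1.1)
      (by linear_combination (e.1.1 ^ 2 + e.1.2 ^ 2) * e'.2 - e.2)
    refine ⟨g, Subtype.ext (Prod.ext ?_ ?_), fun g' hg => h3 g' ?_⟩
    · show g x * e.1.1 - g y * e.1.2 = e'.1.1
      linear_combination e.1.1 * h1 - e.1.2 * h2 - e'.1.1 * e.2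
    · show g x * e.1.2 + g y * e.1.1 = e'.1.2
      linear_combination e.1.2 * h1 + e.1.1 * h2 - e'.1.2 * e.2
    · have h4 : g' x * e.1.1 - g' y * e.1.2 = e'.1.1 := congrArg (·.1.1) hg
      have h5 : g' x * e.1.2 + g' y * e.1.1 = e'.1.2 := congrArg (·.1.2) hg
      exact ⟨by linear_combination g' x * e.2 - e.1.1 * h4 - e.1.2 * h5,
        by linear_combination g' y * e.2 + e.1.2 * h4 - e.1.1 * h5⟩
  glue f hf _ e h := by
    obtain ⟨a, ha⟩ := descend_elt f hf e.1.1 fun T _ _ p q hpq => congrArg (·.1.1) (h T p q hpq)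
    obtain ⟨b, hb⟩ := descend_elt f hf e.1.2 fun T _ _ p q hpq => congrArg (·.1.2) (h T p q hpq)
    refine ⟨⟨(a, b), hf.injective ?_⟩, Subtype.ext (Prod.ext ha hb)⟩
    show f (a ^ 2 + b ^ 2) = f (-1)
    rw [map_add, map_pow, map_pow, ha, hb, e.2, map_neg, map_one]
  loc := ⟨PUnit, fun _ => S, fun _ => inferInstance, fun _ => inferInstance,
    fun _ => ⟨inferInstance, inferInstance, ⟨⟨(j, 0), by simp [hj]⟩⟩⟩,
    fun p => ⟨⟨⟩, PrimeSpectrum.comap_surjective_of_faithfullyFlat p⟩⟩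

/-- The local ring at the origin of the real curve `x ^ 2 + y ^ 2 = 0`. -/
theorem exists_ring : ∃ (C : Type) (_ : CommRing C) (_ : IsDomain C) (_ : Algebra ℝ C)
    (_ : Algebra.FinitePresentation ℝ C) (_ : C →ₐ[ℝ] ℝ) (x y : C), y ≠ 0 ∧ x ^ 2 + y ^ 2 = 0 := by
  let θ : MvPolynomial (Fin 2) ℝ →ₐ[ℝ] Polynomial ℂ :=
    aeval ![Polynomial.C Complex.I * Polynomial.X, Polynomial.X]
  have hp : (RingHom.ker θ).IsPrime := RingHom.ker_isPrime θ
  have h1 : (Algebra.ofId ℝ ℂ).comp (aeval fun _ => (0 : ℝ)) =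
      ((Polynomial.aeval (0 : ℂ)).restrictScalars ℝ).comp θ := by
    refine MvPolynomial.algHom_ext fun i => ?_
    fin_cases i <;> simp [θ]
  refine ⟨MvPolynomial (Fin 2) ℝ ⧸ RingHom.ker θ, inferInstance, inferInstance, inferInstance,
    Algebra.FinitePresentation.of_finiteType.1 inferInstance,
    Ideal.Quotient.liftₐ _ (aeval fun _ => (0 : ℝ)) fun f hf => ?_,
    Ideal.Quotient.mk _ (X 0), Ideal.Quotient.mk _ (X 1), fun h => ?_, ?_⟩
  · have h2 := AlgHom.congr_fun h1 f
    rw [AlgHom.comp_apply, AlgHom.comp_apply, RingHom.mem_ker.1 hf, map_zero] at h2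
    exact (map_eq_zero_iff _ (algebraMap ℝ ℂ).injective).1 h2
  · have h2 := RingHom.mem_ker.1 (Ideal.Quotient.eq_zero_iff_mem.1 h)
    simp [θ] at h2
  · rw [← map_pow, ← map_pow, ← map_add, Ideal.Quotient.eq_zero_iff_mem, RingHom.mem_ker]
    have : (Polynomial.C Complex.I) ^ 2 = -1 := by rw [← map_pow, Complex.I_sq, map_neg, map_one]
    simp [θ, mul_pow, this]

theorem sharp : ¬ ∀ (k : Type) [Field k] (V : Type) [CommRing V] [IsDomain V] [ValuationRing V]
    [Algebra k V] (C : Type) [CommRing C] [IsDomain C] [Algebra V C]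
    [Algebra.FinitePresentation V C] [Module.Flat V C] (p : Ideal C)
    [p.IsPrime] (R : Type) [CommRing R] [Algebra C R] [IsLocalization.AtPrime R p]
    (K : Type) [Field K] [Algebra R K] [IsFractionRing R K]
    (A : Type) [CommRing A] [HopfAlgebra R A], IsReductive R A →
    ∀ F : SheafTorsor R A, Nonempty (F.obj K) → Nonempty (F.obj R) := by
  intro H
  obtain ⟨C, _, _, _, _, ψ, x, y, hy, hxy⟩ := exists_ring
  have hp : (RingHom.ker ψ).IsPrime := RingHom.ker_isPrime ψ
  obtain ⟨R, _, _, _⟩ : ∃ (R : Type) (_ : CommRing R) (_ : Algebra C R),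
      IsLocalization.AtPrime R (RingHom.ker ψ) :=
    ⟨Localization.AtPrime (RingHom.ker ψ), inferInstance, inferInstance, inferInstance⟩
  have := IsLocalization.isDomain_of_atPrime R (RingHom.ker ψ)
  let _ : Algebra ℝ R := ((algebraMap C R).comp (algebraMap ℝ C)).toAlgebra
  let K := FractionRing R
  let _ := (natC R).hopf
  have : Algebra.FinitePresentation ℝ ℂ := Algebra.FinitePresentation.of_finiteType.1 inferInstance
  have hj : ((1 : R) ⊗ₜ[ℝ] Complex.I) ^ 2 = -1 := by
    rw [Algebra.TensorProduct.tmul_pow, one_pow, Complex.I_sq, TensorProduct.tmul_neg]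
    rfl
  let φ : C →+* K := (algebraMap R K).comp (algebraMap C R)
  have hφ : φ y ≠ 0 := fun h => hy (IsLocalization.injective R
    (RingHom.ker ψ).primeCompl_le_nonZeroDivisors (IsFractionRing.injective R K
      (h.trans (by rw [map_zero, map_zero]))))
  obtain ⟨⟨⟨a, b⟩, hab⟩⟩ := H ℝ ℝ C (RingHom.ker ψ) R K (Circ R)
    (isReductive_circ R (algebraMap ℝ R (1 / 2)) (by
      rw [← map_ofNat (algebraMap ℝ R), ← map_mul]; norm_num))
    (circTor (isCirc R) (R ⊗[ℝ] ℂ) _ hj) ⟨⟨(φ x / φ y, 0), by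
      have := congrArg φ hxy
      rw [map_add, map_pow, map_pow, map_zero] at this
      rw [div_pow, zero_pow two_ne_zero, add_zero, div_eq_iff (pow_ne_zero 2 hφ)]
      linear_combination this⟩⟩
  let χ : R →+* ℝ := IsLocalization.lift (M := (RingHom.ker ψ).primeCompl) (g := (ψ : C →+* ℝ))
    fun s => isUnit_iff_ne_zero.2 s.2
  have h2 := congrArg χ hab
  rw [map_add, map_pow, map_pow, map_neg, map_one] at h2
  nlinarith [sq_nonneg (χ a), sq_nonneg (χ b)]

end Pool.Agent.RED.NV
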