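import Pool.Agent.P.MP_c1f06d_ag.g.Bridge
import Pool.Agent.P.MP_c1f06d_ag.g.Pts
import Pool.Agent.P.MP_c1f06d_ag.r.Top

open Matrix TensorProduct Pool.Agent.GR WithConv

universe u

namespace Pool.Agent.RG

section

variable {R : Type u} [CommRing R] {A : Type u} [CommRing A] [HopfAlgebra R A]
  {E : Type u} [CommRing E] [Algebra R E] (ρ : E →ₐ[R] A ⊗[R] E)

/-- The action of points of `Spec A` on points of `Spec E`. -/
noncomputable def cact {T : Type u} [CommRing T] [Algebra R T] (x : A →ₐ[R] T) (e : E →ₐ[R] T) :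
    E →ₐ[R] T :=
  (Algebra.TensorProduct.lift x e fun _ _ => Commute.all _ _).comp ρ

variable {ρ} {T : Type u} [CommRing T] [Algebra R T]

theorem cact_nat {T' : Type u} [CommRing T'] [Algebra R T'] (f : T →ₐ[R] T') (x : A →ₐ[R] T)
    (e : E →ₐ[R] T) : f.comp (cact ρ x e) = cact ρ (f.comp x) (f.comp e) := by
  unfold cact
  rw [← AlgHom.comp_assoc]
  congr 1
  ext <;> simp

theorem IsTorsor.cact_one (h : IsTorsor ρ) (e : E →ₐ[R] T) :
    cact ρ (1 : WithConv (A →ₐ[R] T)).ofConv e = e := by
  ext a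
  conv_rhs => rw [← h.one a]
  rw [cact, AlgHom.comp_apply]
  generalize ρ a = w
  induction w with
  | zero => simp
  | add a b ha hb => simp only [map_add, ha, hb]
  | tmul a b =>
    rw [Algebra.TensorProduct.lift_tmul]
    simp [Algebra.smul_def]

theorem IsTorsor.cact_mul (h : IsTorsor ρ) (x y : WithConv (A →ₐ[R] T)) (e : E →ₐ[R] T) :
    cact ρ (x * y).ofConv e = cact ρ x.ofConv (cact ρ y.ofConv e) := by
  ext a
  let L : A ⊗[R] (A ⊗[R] E) →ₐ[R] T := Algebra.TensorProduct.lift x.ofConv
    (Algebra.TensorProduct.lift y.ofConv e fun _ _ => Commute.all _ _) fun _ _ => Commute.all _ _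
  have h1 := congrArg L (h.mul a)
  have h2 : ∀ w, L (Algebra.TensorProduct.map (AlgHom.id R A) ρ w) =
      Algebra.TensorProduct.lift x.ofConv (cact ρ y.ofConv e) (fun _ _ => Commute.all _ _) w := by
    intro w
    induction w with
    | zero => simp
    | add a b ha hb => simp only [map_add, ha, hb]
    | tmul a b => simp [L, cact]
  have h3 : ∀ w, L (Algebra.TensorProduct.assoc R R R A A E
      (Algebra.TensorProduct.map (Bialgebra.comulAlgHom R A) (AlgHom.id R E) w)) =
      Algebra.TensorProduct.lift (x * y).ofConv e (fun _ _ => Commute.all _ _) w := by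
    intro w
    induction w with
    | zero => simp
    | add a b ha hb => simp only [map_add, ha, hb]
    | tmul a b =>
      rw [Algebra.TensorProduct.lift_tmul, Algebra.TensorProduct.map_tmul]
      have : (x * y).ofConv a = Algebra.TensorProduct.lift x.ofConv y.ofConv
          (fun _ _ => Commute.all _ _) (Bialgebra.comulAlgHom R A a) := AlgHom.convMul_apply x y a
      rw [this]
      generalize Bialgebra.comulAlgHom R A a = v
      induction v with
      | zero => simp
      | add a b ha hb => simp only [map_add, add_tmul, ha, hb, add_mul]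
      | tmul c d => simp [L, mul_assoc]
  rw [h2, h3] at h1
  exact h1

theorem IsTorsor.cact_bij (h : IsTorsor ρ) (e e' : E →ₐ[R] T) : ∃! x : A →ₐ[R] T,
    cact ρ x e = e' := by
  let Φ := AlgEquiv.ofBijective _ h.bij
  have hΦ1 : ∀ a, Φ (a ⊗ₜ 1) = ρ a := fun a => by
    simp [Φ, ← Algebra.TensorProduct.one_def]
  have hΦ2 : ∀ a, Φ (1 ⊗ₜ a) = 1 ⊗ₜ a := fun a => by
    simp [Φ]
  let m : E ⊗[R] E →ₐ[R] T := Algebra.TensorProduct.lift e' e fun _ _ => Commute.all _ _
  have key : ∀ x : A →ₐ[R] T, cact ρ x e = e' ↔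
      (Algebra.TensorProduct.lift x e fun _ _ => Commute.all _ _) = m.comp Φ.symm.toAlgHom := by
    intro x
    constructor
    · intro hx
      refine AlgHom.ext fun w => ?_
      obtain ⟨w, rfl⟩ := Φ.surjective w
      show _ = m (Φ.symm (Φ w))
      rw [Φ.symm_apply_apply]
      induction w with
      | zero => simp
      | add a b ha hb => simp only [map_add, ha, hb]
      | tmul a b =>
        have : a ⊗ₜ[R] b = (a ⊗ₜ 1) * (1 ⊗ₜ b) := by simp
        rw [this, map_mul, map_mul, map_mul, hΦ1, hΦ2]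
        simp [m, cact, ← hx]
    · intro hx
      ext a
      rw [cact, AlgHom.comp_apply, hx, ← hΦ1]
      show m (Φ.symm (Φ _)) = _
      rw [Φ.symm_apply_apply]
      simp [m]
  refine ⟨(m.comp Φ.symm.toAlgHom).comp Algebra.TensorProduct.includeLeft, (key _).2 ?_,
    fun y hy => ?_⟩
  · ext a
    · simp
    · have : m (Φ.symm (1 ⊗ₜ a)) = e a := by
        rw [← hΦ2, Φ.symm_apply_apply]
        simp [m]
      simpa using this.symm
  · rw [← (key y).1 hy]
    ext a
    simp

end

/-- A torsor under `Spec A` is a torsor under `G_z`. -/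
theorem Presents.torsor {k : Type u} [Field k] {n : ℕ} {G H : AffQuot k n} {R : Type u}
    [CommRing R] [Algebra k R] {z : H.B →ₐ[k] R} {A : Type u} [CommRing A] [HopfAlgebra R A]
    {u : GL (Fin n) A} (hu : Presents G H z u) {E : Type u} [CommRing E] [Algebra R E]
    {ρ : E →ₐ[R] A ⊗[R] E} (h : IsTorsor ρ) : G.IsTorsor H z E := by
  have hp := fun (T : Type u) [CommRing T] [Algebra R T] (g : {g : GL (Fin n) T // G.TwPt H z g}) =>
    (hu.pts T g.1).1 g.2
  choose pt hpt using hp
  have hmul : ∀ (T : Type u) [CommRing T] [Algebra R T] (x y : WithConv (A →ₐ[R] T)) i j,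
      (x * y).ofConv (u i j) = ∑ l, x.ofConv (u i l) * y.ofConv (u l j) := by
    intro T _ _ x y i j
    have : (x * y).ofConv (u i j) = Algebra.TensorProduct.lift x.ofConv y.ofConv
        (fun _ _ => Commute.all _ _) (Coalgebra.comul (u i j)) := AlgHom.convMul_apply x y _
    rw [this, hu.comul, map_sum]
    simp
  refine ⟨h.ff, fun T _ _ g e => cact ρ (pt T g) e, fun T _ _ e => ⟨fun g hg => ?_,
    fun g g' g'' hg => ?_, fun e' => ?_⟩, fun T T' _ _ _ _ f g g' e hg => ?_⟩
  · have h1 : toConv (pt T g) * toConv (pt T g) = toConv (pt T g) := by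
      refine WithConv.ext (hu.inj T _ _ fun i j => ?_)
      rw [hmul]
      simp only [← hpt, hg]
      exact (congrFun (congrFun (mul_one (1 : Matrix (Fin n) (Fin n) T)) i) j)
    have h2 : pt T g = (1 : WithConv (A →ₐ[R] T)).ofConv :=
      congrArg ofConv (mul_eq_left.1 h1)
    show cact ρ (pt T g) e = e
    rw [h2, h.cact_one]
  · have h1 : pt T g'' = (toConv (pt T g) * toConv (pt T g')).ofConv := by
      refine hu.inj T _ _ fun i j => ?_
      rw [hmul]
      simp only [← hpt, hg]
      rfl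
    show cact ρ (pt T g'') e = cact ρ (pt T g) (cact ρ (pt T g') e)
    rw [h1, h.cact_mul]
  · obtain ⟨x, hx, hx'⟩ := h.cact_bij e e'
    let g : GL (Fin n) T := GeneralLinearGroup.map (x : A →+* T) u
    have hg : G.TwPt H z g := (hu.pts T g).2 ⟨x, fun _ _ => rfl⟩
    have e1 : pt T ⟨g, hg⟩ = x := hu.inj T _ _ fun i j => (hpt T ⟨g, hg⟩ i j).symm
    refine ⟨⟨g, hg⟩, by show cact ρ _ e = e'; rw [e1, hx], fun g' hg' => Subtype.ext ?_⟩
    have := hx' _ hg'
    ext i j
    rw [hpt T g', this]
    rfl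
  · show f.comp (cact ρ (pt T g) e) = cact ρ (pt T' g') (f.comp e)
    rw [cact_nat]
    congr 1
    refine hu.inj T' _ _ fun i j => ?_
    rw [← hpt, hg, AlgHom.comp_apply, ← hpt]
    rfl

theorem bot_bot (k : Type u) [Field k] : (⊥ : Subfield (⊥ : Subfield k)) = ⊤ := by
  refine eq_top_iff.2 fun x _ => ?_
  have h : (⊥ : Subfield k) ≤ (⊥ : Subfield (⊥ : Subfield k)).map (⊥ : Subfield k).subtype :=
    bot_le
  obtain ⟨y, hy, e⟩ := h x.2
  rwa [← Subtype.ext e]

/-- Grothendieck-Serre for reductive group schemes over smooth algebras over valuation rings that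
contain a field. -/
theorem gs_red (k : Type u) [Field k] (V : Type u) [CommRing V] [IsDomain V] [ValuationRing V]
    [Algebra k V] (C : Type u) [CommRing C] [Algebra V C] [Algebra.Smooth V C] (p : Ideal C)
    [p.IsPrime] (R : Type u) [CommRing R] [Algebra C R] [IsLocalization.AtPrime R p]
    (K : Type u) [Field K] [Algebra R K] [IsFractionRing R K]
    (A : Type u) [CommRing A] [HopfAlgebra R A] (hA : IsReductive R A)
    (E : Type u) [CommRing E] [Algebra R E] (ρ : E →ₐ[R] A ⊗[R] E) (hE : IsTorsor ρ)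
    (hK : Nonempty (E →ₐ[R] K)) : Nonempty (E →ₐ[R] R) := by
  let k0 : Type u := (⊥ : Subfield k)
  let _ : Algebra k0 V := ((algebraMap k V).comp (⊥ : Subfield k).subtype).toAlgebra
  let _ : Algebra k0 R := ((algebraMap C R).comp ((algebraMap V C).comp (algebraMap k0 V))).toAlgebra
  obtain ⟨n, r, r', G, H, χ, χ', z, u, hN, hI, hT, hW, hu⟩ :=
    bridge k0 (bot_bot k) V C p R (fun _ => rfl) A hA
  exact AffQuot.gs_main hN hI hT hW V C p R (fun _ => rfl) K z E (hu.torsor hE) hK

end Pool.Agent.RG
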