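import Pool.Agent.P.MP_c1f06d_ag.g.NVt
import Pool.Agent.P.MP_c1f06d_ag.g.RTop

/-! The tests of the definitions, written out in coordinates. -/

open WithConv Matrix Pool.Agent.RG Pool.Agent.GR Pool.Agent.GR.Hp Pool.Agent.GR.Co
open scoped TensorProduct

universe u

namespace Pool.Agent.RED.NV

theorem unip_coord (Ω B : Type u) [Field Ω] [CommRing B] [HopfAlgebra Ω B]
    [Algebra.FinitePresentation Ω B] (g : WithConv (B →ₐ[Ω] Ω)) :
    IsUnipotent g ↔ ∀ (n : ℕ) (m : Fin n → Fin n → B),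
      (∀ (T : Type u) [CommRing T] [Algebra Ω T] (a b : B →ₐ[Ω] T) (i j : Fin n),
        Algebra.TensorProduct.lift a b (fun _ _ => Commute.all _ _)
          (Bialgebra.comulAlgHom Ω B (m i j)) = ∑ l, a (m i l) * b (m l j)) →
      (∀ i j, Bialgebra.counitAlgHom Ω B (m i j) = if i = j then 1 else 0) →
      ∀ L : (Fin n → Ω) →ₗ[Ω] (Fin n → Ω), (∀ v i, L v i = ∑ j, g.ofConv (m i j) * v j) →
        ∃ s : ℕ, (L - 1) ^ s = 0 := by
  rw [isUnipotent_iff]
  refine forall_congr' fun n => ⟨fun H m h1 h2 L hL => ?_, fun H m h1 h2 => ?_⟩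
  · obtain ⟨s, hs⟩ := H (of m) (fun i j => by
      have h3 := h1 _ (iL Ω B B) (iR Ω B B) i j
      rw [Algebra.TensorProduct.lift_includeLeft_includeRight] at h3
      simpa using h3) h2
    have e : L = toLinAlgEquiv' ((of m).map g.ofConv) := LinearMap.ext fun v => funext (hL v)
    exact ⟨s, by rw [e, ← map_one toLinAlgEquiv', ← map_sub, ← map_pow, hs, map_zero]⟩
  · obtain ⟨s, hs⟩ := H m (fun T _ _ a b i j => (pt_mul_apply (toConv a) (toConv b) _).symm.trans
      (congrArg (fun x => x.1 i j) ((Hp.IsRep.pts ⟨h1, h2⟩ T).map_mul (toConv a) (toConv b)))) h2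
      (toLinAlgEquiv' (m.map g.ofConv)) fun _ _ => rfl
    refine ⟨s, toLinAlgEquiv'.injective ?_⟩
    rw [map_pow, map_sub, map_one, hs, map_zero]

theorem preconn_preimage {X Y : Type u} [TopologicalSpace X] [TopologicalSpace Y] {i : X → Y}
    (hi : Topology.IsInducing i) (hd : ∀ Z : Set Y, IsClosed Z → closure (Z ∩ Set.range i) = Z)
    {Z : Set Y} (hZ : IsClosed Z) (h : IsPreconnected Z) : IsPreconnected (i ⁻¹' Z) := by
  refine isPreconnected_iff_subset_of_disjoint_closed.2 fun u' v' hu' hv' h1 h2 => ?_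
  obtain ⟨u, hu, rfl⟩ := hi.isClosed_iff.1 hu'
  obtain ⟨v, hv, rfl⟩ := hi.isClosed_iff.1 hv'
  have h3 : Z ⊆ u ∪ v := by
    rw [← hd Z hZ]
    refine closure_minimal ?_ (hu.union hv)
    rintro _ ⟨h2, x, rfl⟩
    exact h1 h2
  have h4 : Z ∩ (u ∩ v) = ∅ := by
    rw [← hd _ (hZ.inter (hu.inter hv)), closure_empty_iff, Set.eq_empty_iff_forall_notMem]
    rintro _ ⟨h5, x, rfl⟩
    exact (Set.eq_empty_iff_forall_notMem.1 h2 x) h5
  exact (isPreconnected_iff_subset_of_disjoint_closed.1 h u v hu hv h3 h4).imp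
    (fun h => Set.preimage_mono h) fun h => Set.preimage_mono h

theorem conn_coord (Ω B : Type u) [Field Ω] [IsAlgClosed Ω] [CommRing B] [HopfAlgebra Ω B]
    [Algebra.FinitePresentation Ω B] :
    IsConnReductive Ω B ↔ ConnectedSpace (PrimeSpectrum B) ∧
      ∀ (U : Subgroup (WithConv (B →ₐ[Ω] Ω))) (I : Ideal B),
        ConnectedSpace (PrimeSpectrum (B ⧸ I)) → (∀ g, g ∈ U ↔ ∀ f ∈ I, g.ofConv f = 0) →
          U.Normal → (∀ g ∈ U, IsUnipotent g) → U = ⊥ := by
  refine ⟨fun h => ⟨h.conn, fun U I h0 h1 h2 h3 => ?_⟩,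
    fun h => ⟨h.1, fun U P hP => h.2 U P inferInstance⟩⟩
  let _ := Ent.zar (Ω := Ω) (B := B)
  have hi : Topology.IsInducing (Ent.toSpec (Ω := Ω) (B := B)) := ⟨rfl⟩
  have : IsJacobsonRing B := isJacobsonRing_of_finiteType (A := Ω)
  have hd : ∀ Z : Set (PrimeSpectrum B), IsClosed Z →
      closure (Z ∩ Set.range (Ent.toSpec (Ω := Ω))) = Z := by
    intro Z hZ
    refine (closure_minimal Set.inter_subset_left hZ).antisymm
      ((JacobsonSpace.closure_inter_closedPoints hZ).ge.trans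
        (closure_mono (Set.inter_subset_inter_right _ fun p hp => ?_)))
    obtain ⟨φ, hφ⟩ := Ent.exists_pt (Ω := Ω) ((PrimeSpectrum.isClosed_singleton_iff_isMaximal p).1 hp)
    exact ⟨toConv φ, PrimeSpectrum.ext (Ideal.ext hφ)⟩
  have e : (U : Set (WithConv (B →ₐ[Ω] Ω))) = Ent.toSpec ⁻¹' PrimeSpectrum.zeroLocus I :=
    Set.ext h1
  have h4 : IsConnected (PrimeSpectrum.zeroLocus (I : Set B)) := by
    have := isConnected_range (PrimeSpectrum.continuous_comap (Ideal.Quotient.mk I))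
    rwa [range_comap_of_surjective _ _ Ideal.Quotient.mk_surjective, Ideal.mk_ker] at this
  refine ((isConnReductive_iff Ω B).1 h).2 U (Ent.isClosed_iff.2 ⟨I, h1⟩) ⟨⟨1, U.one_mem⟩, ?_⟩ h2 h3
  rw [e]
  exact preconn_preimage hi hd (PrimeSpectrum.isClosed_zeroLocus _) h4.2

theorem gl_coord (R : Type u) [CommRing R] (n : ℕ) :
    ∃ (A : Type u) (_ : CommRing A) (_ : HopfAlgebra R A) (m : Fin n → Fin n → A),
      (∀ (T : Type u) [CommRing T] [Algebra R T] (a b : Fin n → Fin n → T),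
        (∀ i j, ∑ l, a i l * b l j = if i = j then 1 else 0) →
          ∃! g : A →ₐ[R] T, ∀ i j, g (m i j) = a i j) ∧
      (∀ (T : Type u) [CommRing T] [Algebra R T] (g h : A →ₐ[R] T) (i j : Fin n),
        Algebra.TensorProduct.lift g h (fun _ _ => Commute.all _ _)
          (Bialgebra.comulAlgHom R A (m i j)) = ∑ l, g (m i l) * h (m l j)) ∧
      (∀ i j, Bialgebra.counitAlgHom R A (m i j) = if i = j then 1 else 0) ∧ IsReductive R A := by
  let _ := (natGL R n).hopf
  refine ⟨OGL R n, inferInstance, inferInstance, fun i j => ug R n i j, fun T _ _ a b h => ?_,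
    fun T _ _ g h i j => (pt_mul_apply (toConv g) (toConv h) _).symm.trans
      (congrArg (fun x => x.1 i j) (map_mul (glPts R n T) (toConv g) (toConv h))),
    fun i j => ev_ug_apply (k := R) 1 i j, isReductive_ogl R n⟩
  have h1 : of a * of b = 1 := Matrix.ext h
  let γ : GL (Fin n) T := ⟨of a, of b, h1, mul_eq_one_comm.1 h1⟩
  exact ⟨ev R γ, ev_ug_apply γ, fun g hg =>
    ogl_ext (Units.ext (Matrix.ext fun i j => (hg i j).trans (ev_ug_apply γ i j).symm))⟩

theorem ga_coord (R : Type u) [CommRing R] (h : (0 : R) ≠ 1) :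
    ∃ (A : Type u) (_ : CommRing A) (_ : HopfAlgebra R A) (x : A),
      (∀ (T : Type u) [CommRing T] [Algebra R T] (t : T), ∃! g : A →ₐ[R] T, g x = t) ∧
      (∀ (T : Type u) [CommRing T] [Algebra R T] (g h : A →ₐ[R] T),
        Algebra.TensorProduct.lift g h (fun _ _ => Commute.all _ _)
          (Bialgebra.comulAlgHom R A x) = g x + h x) ∧ Algebra.Smooth R A ∧ ¬ IsReductive R A := by
  let _ := (natGa R).hopf
  have : Nontrivial R := ⟨_, _, h⟩
  exact ⟨Polynomial R, inferInstance, inferInstance, Polynomial.X,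
    fun T _ _ t => ⟨Polynomial.aeval t, Polynomial.aeval_X t, fun g hg =>
      Polynomial.algHom_ext (hg.trans (Polynomial.aeval_X t).symm)⟩,
    fun T _ _ g h => (pt_mul_apply (toConv g) (toConv h) _).symm.trans
      (map_mul (gaPts R T) (toConv g) (toConv h)), ⟨inferInstance, inferInstance⟩,
    not_isReductive_ga R⟩

theorem points (R A : Type u) [CommRing R] [CommRing A] [HopfAlgebra R A] (E : Type u) [CommRing E]
    [Algebra R E] [Algebra.FinitePresentation R E] (ρ : E →ₐ[R] A ⊗[R] E) (hE : IsTorsor ρ) :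
    ∃ F : SheafTorsor R A, ∀ (T : Type u) [CommRing T] [Algebra R T], F.obj T = (E →ₐ[R] T) :=
  have := hE.ff
  ⟨{ obj := fun T _ _ => E →ₐ[R] T
     map := fun f e => f.comp e
     map_id := fun _ => rfl
     map_comp := fun _ _ _ => rfl
     act := fun g e => cact ρ g e
     act_one := fun e => hE.cact_one e
     act_mul := fun g g' e => (congrArg (cact ρ · e)
       (AlgHom.ext fun a => (pt_mul_apply (toConv g) (toConv g') a).symm)).trans
         (hE.cact_mul (toConv g) (toConv g') e)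
     map_act := fun f g e => cact_nat f g e
     trans := fun e e' => hE.cact_bij e e'
     glue := fun f hf _ e h => by
       have h1 : ∀ a, e a ∈ f.range := fun a =>
         descend_elt f hf (e a) fun T _ _ p q hpq => AlgHom.congr_fun (h T p q hpq) a
       let c := AlgEquiv.ofInjective f hf.injective
       exact ⟨c.symm.toAlgHom.comp (e.codRestrict f.range h1), AlgHom.ext fun a =>
         congrArg Subtype.val (c.apply_symm_apply ⟨e a, h1 a⟩)⟩
     loc := ⟨PUnit, fun _ => E, fun _ => inferInstance, fun _ => inferInstance,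
       fun _ => ⟨inferInstance, inferInstance, ⟨AlgHom.id R E⟩⟩,
       fun p => ⟨⟨⟩, PrimeSpectrum.comap_surjective_of_faithfullyFlat p⟩⟩ }, fun _ _ _ => rfl⟩

end Pool.Agent.RED.NV
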