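import Pool.Agent.P.MP_c1f06d_ag.g.RStmt
import Pool.Agent.P.MP_c1f06d_ag.r.Stmt

open Matrix TensorProduct Pool.Agent.GR

universe u

namespace Pool.Agent.RG

/-- The matrix `u` over `A` identifies `Spec A` with the twisted group `G_z`. -/
structure Presents {k : Type u} [Field k] {n : ℕ} (G H : AffQuot k n) {R : Type u} [CommRing R]
    [Algebra k R] (z : H.B →ₐ[k] R) {A : Type u} [CommRing A] [HopfAlgebra R A]
    (u : GL (Fin n) A) : Prop where
  comul : ∀ i j, Coalgebra.comul (R := R) (u i j) = ∑ l, u i l ⊗ₜ[R] u l j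
  inj : ∀ (T : Type u) [CommRing T] [Algebra R T] (x y : A →ₐ[R] T),
    (∀ i j, x (u i j) = y (u i j)) → x = y
  pts : ∀ (T : Type u) [CommRing T] [Algebra R T] (g : GL (Fin n) T),
    G.TwPt H z g ↔ ∃ x : A →ₐ[R] T, ∀ i j, g i j = x (u i j)

end Pool.Agent.RG
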