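import Mathlib

open Finset

namespace Pool.Agent.RED

/-- Roots and coroots: the input of the root combinatorics. -/
structure RC (M : Type) [AddCommGroup M] where
  Φ : Finset M
  cor : M → M →+ ℤ
  sep : ∀ m : M, (∀ ν : M →+ ℤ, ν m = 0) → m = 0
  two : ∀ α ∈ Φ, cor α α = 2
  refl : ∀ α ∈ Φ, ∀ β ∈ Φ, β - cor α β • α ∈ Φ
  red : ∀ α ∈ Φ, ∀ β ∈ Φ, ∀ p q : ℤ, q ≠ 0 → q • β = p • α → β = α ∨ β = -α

namespace RC

variable {M : Type} [AddCommGroup M] (D : RC M)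

/-- The reflection in `α`. -/
def s (α : M) : M →+ M where
  toFun x := x - D.cor α x • α
  map_zero' := by simp
  map_add' x y := by rw [map_add, add_smul]; abel

theorem s_apply (α x : M) : D.s α x = x - D.cor α x • α := rfl

variable {D} {α β γ : M}

theorem s_self (h : α ∈ D.Φ) : D.s α α = -α := by
  rw [s_apply, D.two α h, two_smul]; abel

theorem cor_s (h : α ∈ D.Φ) (x : M) : D.cor α (D.s α x) = -D.cor α x := by
  rw [s_apply, map_sub, map_zsmul, D.two α h, smul_eq_mul]; ring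

theorem s_s (h : α ∈ D.Φ) (x : M) : D.s α (D.s α x) = x := by
  rw [s_apply, cor_s h, s_apply, neg_smul]; abel

theorem s_mem (h : α ∈ D.Φ) (h' : β ∈ D.Φ) : D.s α β ∈ D.Φ := D.refl α h β h'

theorem neg_mem (h : α ∈ D.Φ) : -α ∈ D.Φ := s_self h ▸ s_mem h h

theorem ne_zero (h : α ∈ D.Φ) : α ≠ 0 := by
  rintro rfl
  have := D.two 0 h
  simp at this

theorem sum_s (h : α ∈ D.Φ) (f : M → ℚ) : ∑ γ ∈ D.Φ, f (D.s α γ) = ∑ γ ∈ D.Φ, f γ :=
  Finset.sum_nbij' (D.s α) (D.s α) (fun _ => s_mem h) (fun _ => s_mem h) (fun x _ => s_s h x)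
    (fun x _ => s_s h x) fun _ _ => rfl

variable (D) in
/-- The square length of the coroot of `α`. -/
def B (α : M) : ℚ := ∑ γ ∈ D.Φ, (D.cor α γ : ℚ) * D.cor α γ

theorem B_pos (h : α ∈ D.Φ) : 0 < D.B α :=
  Finset.sum_pos' (fun _ _ => mul_self_nonneg _) ⟨α, h, by rw [D.two α h]; norm_num⟩

theorem two_B (h : α ∈ D.Φ) (ν : M →+ ℚ) :
    2 * ∑ γ ∈ D.Φ, ν γ * D.cor α γ = ν α * D.B α := by
  have h1 := sum_s h fun γ => ν γ * D.cor α γ
  have h2 : ∀ γ, ν (D.s α γ) * (D.cor α (D.s α γ) : ℚ) =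
      ν α * ((D.cor α γ : ℚ) * D.cor α γ) - ν γ * D.cor α γ := fun γ => by
    rw [cor_s h, s_apply, map_sub, map_zsmul, zsmul_eq_mul]
    push_cast
    ring
  simp only [h2, Finset.sum_sub_distrib, ← Finset.mul_sum] at h1
  unfold B
  linarith

/-- A cocharacter with rational values. -/
def cq (ν : M →+ ℤ) : M →+ ℚ := (Int.castAddHom ℚ).comp ν

@[simp] theorem cq_apply (ν : M →+ ℤ) (x : M) : cq ν x = (ν x : ℚ) := rfl

theorem cor_sym (h : α ∈ D.Φ) (h' : β ∈ D.Φ) :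
    (D.cor β α : ℚ) * D.B α = D.cor α β * D.B β := by
  have h1 := two_B h (cq (D.cor β))
  have h2 := two_B h' (cq (D.cor α))
  simp only [cq_apply] at h1 h2
  rw [← h1, ← h2]
  simp only [mul_comm]

theorem cor_pos_comm (h : α ∈ D.Φ) (h' : β ∈ D.Φ) (hp : 0 < D.cor α β) : 0 < D.cor β α := by
  have h1 := cor_sym h h'
  have h2 : (0 : ℚ) < D.cor α β * D.B β := mul_pos (by exact_mod_cast hp) (B_pos h')
  rw [← h1] at h2
  exact_mod_cast (pos_iff_pos_of_mul_pos h2).2 (B_pos h)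

theorem cor_lt_four (h : α ∈ D.Φ) (h' : β ∈ D.Φ) (h1 : β ≠ α) (h2 : β ≠ -α) :
    D.cor α β * D.cor β α < 4 := by
  set P : ℚ := ∑ γ ∈ D.Φ, (D.cor β γ : ℚ) * D.cor α γ with hP
  have e1 : 2 * P = D.cor β α * D.B α := two_B h (cq (D.cor β))
  have e2 : 2 * P = D.cor α β * D.B β := e1.trans (cor_sym h h')
  have ha := B_pos h
  have hb := B_pos h'
  have e3 : ∑ γ ∈ D.Φ, (D.B α * D.cor β γ - P * D.cor α γ) ^ 2 =
      D.B α * (D.B α * D.B β - P ^ 2) := by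
    have : ∀ γ, (D.B α * D.cor β γ - P * D.cor α γ) ^ 2 =
        D.B α ^ 2 * ((D.cor β γ : ℚ) * D.cor β γ) - 2 * D.B α * P * ((D.cor β γ : ℚ) * D.cor α γ) +
          P ^ 2 * ((D.cor α γ : ℚ) * D.cor α γ) := fun γ => by ring
    simp only [this, Finset.sum_add_distrib, Finset.sum_sub_distrib, ← Finset.mul_sum, ← hP]
    show D.B α ^ 2 * D.B β - 2 * D.B α * P * P + P ^ 2 * D.B α = _
    ring
  by_contra hc
  have hc' : (4 : ℚ) ≤ D.cor α β * D.cor β α := by exact_mod_cast not_lt.1 hc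
  have e4 : 4 * P ^ 2 = D.cor α β * D.cor β α * (D.B α * D.B β) := by
    rw [show 4 * P ^ 2 = (2 * P) * (2 * P) by ring]
    nth_rewrite 1 [e1]
    rw [e2]
    ring
  have e5 : D.B α * D.B β - P ^ 2 ≤ 0 := by nlinarith [mul_pos ha hb]
  have e6 : ∑ γ ∈ D.Φ, (D.B α * D.cor β γ - P * D.cor α γ) ^ 2 = 0 :=
    le_antisymm (e3 ▸ mul_nonpos_of_nonneg_of_nonpos ha.le e5)
      (Finset.sum_nonneg fun _ _ => sq_nonneg _)
  rw [Finset.sum_eq_zero_iff_of_nonneg fun _ _ => sq_nonneg _] at e6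
  have e7 : ∀ ν : M →+ ℤ, (2 : ℚ) * ν β = D.cor α β * ν α := by
    intro ν
    have f1 := two_B h (cq ν)
    have f2 := two_B h' (cq ν)
    have f3 : D.B α * ∑ γ ∈ D.Φ, cq ν γ * D.cor β γ = P * ∑ γ ∈ D.Φ, cq ν γ * D.cor α γ := by
      rw [Finset.mul_sum, Finset.mul_sum]
      refine Finset.sum_congr rfl fun γ hγ => ?_
      have := pow_eq_zero_iff two_ne_zero |>.1 (e6 γ hγ)
      linear_combination (cq ν γ) * this
    simp only [cq_apply] at f1 f2 f3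
    apply mul_left_cancel₀ (mul_pos ha hb).ne'
    linear_combination (-2 * D.B α) * f2 + 4 * f3 + 2 * P * f1 + (ν α * D.B α) * e2
  have e8 : (2 : ℤ) • β = D.cor α β • α := sub_eq_zero.1 (D.sep _ fun ν => by
    rw [map_sub, map_zsmul, map_zsmul, smul_eq_mul, smul_eq_mul, sub_eq_zero]
    exact_mod_cast e7 ν)
  exact (D.red α h β h' _ 2 two_ne_zero e8).elim h1 h2

theorem sub_mem (h : α ∈ D.Φ) (h' : β ∈ D.Φ) (h1 : β ≠ α) (hp : 0 < D.cor α β) :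
    α - β ∈ D.Φ := by
  have h2 : β ≠ -α := by
    rintro rfl
    rw [map_neg, D.two α h] at hp
    omega
  have h3 := cor_lt_four h h' h1 h2
  have h4 := cor_pos_comm h h' hp
  have h5 : D.cor α β = 1 ∨ D.cor β α = 1 := by
    by_contra hc
    push Not at hc
    nlinarith [mul_nonneg (show 0 ≤ D.cor α β - 2 by omega) (show 0 ≤ D.cor β α - 2 by omega),
      (show 2 ≤ D.cor α β by omega), (show 2 ≤ D.cor β α by omega)]
  rcases h5 with e | e
  · have := neg_mem (D.refl α h β h')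
    rwa [e, one_smul, neg_sub] at this
  · have := D.refl β h' α h
    rwa [e, one_smul] at this

variable (D)

/-- The cocharacter `μ` vanishes on no root. -/
def Reg (μ : M →+ ℤ) : Prop := ∀ β ∈ D.Φ, μ β ≠ 0

/-- Positive roots. -/
def Pos (μ : M →+ ℤ) : Finset M := D.Φ.filter fun β => 0 < μ β

open Classical in
/-- Simple roots. -/
noncomputable def Δ (μ : M →+ ℤ) : Finset M :=
  (D.Pos μ).filter fun α => ¬∃ β ∈ D.Pos μ, ∃ γ ∈ D.Pos μ, α = β + γ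

variable {D} {μ : M →+ ℤ}

theorem mem_Pos : β ∈ D.Pos μ ↔ β ∈ D.Φ ∧ 0 < μ β := Finset.mem_filter

theorem mem_Δ : α ∈ D.Δ μ ↔ α ∈ D.Pos μ ∧ ¬∃ β ∈ D.Pos μ, ∃ γ ∈ D.Pos μ, α = β + γ := by
  classical
  unfold Δ
  simp only [Finset.mem_filter]

theorem Δ_Pos (h : α ∈ D.Δ μ) : α ∈ D.Pos μ := (mem_Δ.1 h).1

theorem Δ_Φ (h : α ∈ D.Δ μ) : α ∈ D.Φ := (mem_Pos.1 (Δ_Pos h)).1

theorem Δ_pos (h : α ∈ D.Δ μ) : 0 < μ α := (mem_Pos.1 (Δ_Pos h)).2

theorem Reg.pos_or_neg (hμ : D.Reg μ) (h : β ∈ D.Φ) : β ∈ D.Pos μ ∨ -β ∈ D.Pos μ := by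
  rcases lt_or_gt_of_ne (hμ β h) with h1 | h1
  · exact Or.inr (mem_Pos.2 ⟨neg_mem h, by rw [map_neg]; omega⟩)
  · exact Or.inl (mem_Pos.2 ⟨h, h1⟩)

theorem Pos_closure (h : β ∈ D.Pos μ) : β ∈ AddSubmonoid.closure (D.Δ μ : Set M) := by
  induction hn : (μ β).toNat using Nat.strong_induction_on generalizing β with
  | _ n ih =>
    by_cases hs : β ∈ D.Δ μ
    · exact AddSubmonoid.subset_closure hs
    · rw [mem_Δ, not_and, not_not] at hs
      obtain ⟨a, ha, b, hb, rfl⟩ := hs h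
      have h1 := (mem_Pos.1 ha).2
      have h2 := (mem_Pos.1 hb).2
      rw [map_add] at hn
      exact add_mem (ih _ (by omega) ha rfl) (ih _ (by omega) hb rfl)

theorem cor_nonpos (hμ : D.Reg μ) (h : α ∈ D.Δ μ) (h' : β ∈ D.Δ μ) (hne : β ≠ α) :
    D.cor α β ≤ 0 := by
  by_contra hc
  rcases hμ.pos_or_neg (sub_mem (Δ_Φ h) (Δ_Φ h') hne (not_le.1 hc)) with h1 | h1
  · exact (mem_Δ.1 h).2 ⟨_, h1, _, Δ_Pos h', by abel⟩
  · exact (mem_Δ.1 h').2 ⟨_, h1, _, Δ_Pos h, by abel⟩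

/-- The quadratic form of a combination of simple roots. -/
theorem quad (S : Finset M) (hS : S ⊆ D.Φ) (c : M → ℤ)
    (h0 : ∑ α ∈ S, (c α : ℚ) / D.B α * D.cor α (∑ δ ∈ S, c δ • δ) ≤ 0) :
    ∑ δ ∈ S, c δ • δ = 0 := by
  let ν : M →+ ℚ := ∑ α ∈ S, ((c α : ℚ) / D.B α) • cq (D.cor α)
  have hν : ∀ x, ν x = ∑ α ∈ S, (c α : ℚ) / D.B α * D.cor α x := fun x => by
    simp [ν]
  have key : ∀ ν' : M →+ ℚ, 2 * ∑ γ ∈ D.Φ, ν' γ * ν γ = ν' (∑ δ ∈ S, c δ • δ) := by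
    intro ν'
    simp only [hν, Finset.mul_sum, map_sum, map_zsmul, zsmul_eq_mul]
    rw [Finset.sum_comm]
    refine Finset.sum_congr rfl fun α hα => ?_
    have h1 := two_B (hS hα) ν'
    have h2 := (B_pos (hS hα)).ne'
    have h3 : ∑ γ ∈ D.Φ, 2 * (ν' γ * ((c α : ℚ) / D.B α * D.cor α γ)) =
        (c α : ℚ) / D.B α * (2 * ∑ γ ∈ D.Φ, ν' γ * D.cor α γ) := by
      simp only [Finset.mul_sum]
      exact Finset.sum_congr rfl fun γ _ => by ring
    rw [h3, h1]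
    field_simp
  have h1 := key ν
  rw [hν] at h1
  have h2 : ∑ γ ∈ D.Φ, ν γ * ν γ = 0 :=
    le_antisymm (by linarith) (Finset.sum_nonneg fun _ _ => mul_self_nonneg _)
  rw [Finset.sum_eq_zero_iff_of_nonneg fun _ _ => mul_self_nonneg _] at h2
  refine D.sep _ fun ν' => ?_
  have h3 := key (cq ν')
  rw [Finset.sum_eq_zero fun γ hγ => by rw [mul_self_eq_zero.1 (h2 γ hγ), mul_zero],
    cq_apply] at h3
  exact_mod_cast (by linarith : (ν' (∑ δ ∈ S, c δ • δ) : ℚ) = 0)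

theorem indep_aux (hμ : D.Reg μ) (c : M → ℤ) (h : ∑ δ ∈ D.Δ μ, c δ • δ = 0) :
    ∀ δ ∈ D.Δ μ, c δ ≤ 0 := by
  have e : ∑ δ ∈ D.Δ μ, max (c δ) 0 • δ = ∑ δ ∈ D.Δ μ, max (-c δ) 0 • δ := by
    rw [← sub_eq_zero, ← Finset.sum_sub_distrib, ← h]
    refine Finset.sum_congr rfl fun δ _ => ?_
    rw [← sub_smul]
    congr 1
    omega
  have h1 := quad (D.Δ μ) (fun _ => Δ_Φ) (fun δ => max (c δ) 0) (by
    refine Finset.sum_nonpos fun α hα => ?_
    by_cases hc : c α ≤ 0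
    · simp [max_eq_right hc]
    refine mul_nonpos_of_nonneg_of_nonpos
      (div_nonneg (by exact_mod_cast le_max_right _ _) (B_pos (Δ_Φ hα)).le) ?_
    rw [e, map_sum]
    have : ∑ δ ∈ D.Δ μ, D.cor α (max (-c δ) 0 • δ) ≤ 0 := by
      refine Finset.sum_nonpos fun δ hδ => ?_
      rw [map_zsmul, smul_eq_mul]
      by_cases hd : δ = α
      · rw [hd, max_eq_right (by omega), zero_mul]
      · exact mul_nonpos_of_nonneg_of_nonpos (le_max_right _ _) (cor_nonpos hμ hα hδ hd)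
    exact_mod_cast this)
  have h2 := congrArg μ h1
  rw [map_sum, map_zero, Finset.sum_eq_zero_iff_of_nonneg fun δ hδ => by
    rw [map_zsmul, smul_eq_mul]
    exact mul_nonneg (le_max_right _ _) (Δ_pos hδ).le] at h2
  intro δ hδ
  have h3 := h2 δ hδ
  rw [map_zsmul, smul_eq_mul, mul_eq_zero] at h3
  have := Δ_pos hδ
  omega

/-- The simple roots are linearly independent. -/
theorem indep (hμ : D.Reg μ) (c : M → ℤ) (h : ∑ δ ∈ D.Δ μ, c δ • δ = 0) :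
    ∀ δ ∈ D.Δ μ, c δ = 0 := fun δ hδ => by
  have h1 := indep_aux hμ c h δ hδ
  have h2 := indep_aux hμ (fun δ => -c δ) (by
    simp only [neg_smul, Finset.sum_neg_distrib, h, neg_zero]) δ hδ
  omega

/-- Fundamental coweights, up to a common factor. -/
theorem exists_cow (hμ : D.Reg μ) : ∃ (N : ℤ) (ν : M → M →+ ℤ), 0 < N ∧
    (∀ α ∈ D.Δ μ, ν α α = N) ∧ ∀ α ∈ D.Δ μ, ∀ δ ∈ D.Δ μ, δ ≠ α → ν α δ = 0 := by
  classical
  let C : Matrix (D.Δ μ) (D.Δ μ) ℤ := Matrix.of fun a d => D.cor a.1 d.1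
  have hC : C.det ≠ 0 := by
    intro h0
    obtain ⟨v, hv, hv0⟩ := Matrix.exists_mulVec_eq_zero_iff.2 h0
    let c : M → ℤ := fun x => if h : x ∈ D.Δ μ then v ⟨x, h⟩ else 0
    have hc : ∀ d : D.Δ μ, c d.1 = v d := fun d => dif_pos d.2
    have h1 := quad (D.Δ μ) (fun _ => Δ_Φ) c (le_of_eq (Finset.sum_eq_zero fun α hα => by
      have h2 : D.cor α (∑ δ ∈ D.Δ μ, c δ • δ) = 0 := by
        rw [map_sum, ← Finset.sum_coe_sort, ← show C.mulVec v ⟨α, hα⟩ = 0 from congrFun hv0 _]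
        refine Finset.sum_congr rfl fun d _ => ?_
        rw [map_zsmul, smul_eq_mul, hc, mul_comm]
        rfl
      rw [h2, Int.cast_zero, mul_zero]))
    exact hv (funext fun d => (hc d).symm.trans (indep hμ c h1 d.1 d.2))
  let ν : M → M →+ ℤ := fun x =>
    if h : x ∈ D.Δ μ then ∑ a : D.Δ μ, (C.det * C.adjugate ⟨x, h⟩ a) • D.cor a.1 else 0
  have hν : ∀ a d : D.Δ μ, ν a.1 d.1 = C.det * (C.det • (1 : Matrix (D.Δ μ) (D.Δ μ) ℤ)) a d := by
    intro a d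
    rw [← Matrix.adjugate_mul, Matrix.mul_apply, Finset.mul_sum]
    simp only [ν, dif_pos a.2, AddMonoidHom.finsetSum_apply]
    exact Finset.sum_congr rfl fun b _ => by simp [C, mul_assoc]
  refine ⟨C.det * C.det, ν, mul_self_pos.2 hC, fun α hα => ?_, fun α hα δ hδ hne => ?_⟩
  · simpa using hν ⟨α, hα⟩ ⟨α, hα⟩
  · have := hν ⟨α, hα⟩ ⟨δ, hδ⟩
    rwa [Matrix.smul_apply, Matrix.one_apply_ne fun e => hne (congrArg Subtype.val e).symm,
      smul_zero, mul_zero] at this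

end RC

end Pool.Agent.RED
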