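import Mathlib

open TensorProduct

universe u

namespace Pool.Agent.RG

section Field

variable {Ω : Type u} [Field Ω] {B : Type u} [CommRing B] [HopfAlgebra Ω B]

/-- Right translation of regular functions by the point `g` of `G = Spec B`:
`f ↦ (x ↦ f (x g))`. -/
noncomputable def rightTrans (g : WithConv (B →ₐ[Ω] Ω)) : B →ₐ[Ω] B :=
  (Algebra.TensorProduct.lift (AlgHom.id Ω B) ((Algebra.ofId Ω B).comp g.ofConv)
    fun _ _ => Commute.all _ _).comp (Bialgebra.comulAlgHom Ω B)

/-- The point `g` of `G(Ω)` is unipotent: right translation by `g` is locally unipotent. -/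
def IsUnipotent (g : WithConv (B →ₐ[Ω] Ω)) : Prop :=
  ∀ f : B, ∃ m : ℕ, (((rightTrans g).toLinearMap - 1) ^ m) f = 0

variable (Ω B) in
/-- `G = Spec B` is connected, and every Zariski closed irreducible normal subgroup of `G(Ω)` that
consists of unipotent elements is trivial. -/
structure IsConnReductive : Prop where
  conn : ConnectedSpace (PrimeSpectrum B)
  red : ∀ (U : Subgroup (WithConv (B →ₐ[Ω] Ω))) (P : Ideal B), P.IsPrime →
    (∀ g, g ∈ U ↔ ∀ f ∈ P, g.ofConv f = 0) → U.Normal → (∀ g ∈ U, IsUnipotent g) → U = ⊥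

end Field

variable (R : Type u) [CommRing R] (A : Type u) [CommRing A] [HopfAlgebra R A]

/-- `Spec A` is a reductive group scheme over `R`: smooth, affine, with connected reductive
geometric fibres. -/
structure IsReductive : Prop where
  smooth : Algebra.Smooth R A
  fibre : ∀ (Ω : Type u) [Field Ω] [IsAlgClosed Ω] [Algebra R Ω], IsConnReductive Ω (Ω ⊗[R] A)

variable {R A} in
/-- `Spec E` with the action `ρ` is a torsor under `G = Spec A`: `E` is faithfully flat over `R`,
`ρ` is a coaction, and `G × E → E × E`, `(g, e) ↦ (g e, e)`, is an isomorphism. -/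
structure IsTorsor {E : Type u} [CommRing E] [Algebra R E] (ρ : E →ₐ[R] A ⊗[R] E) : Prop where
  ff : Module.FaithfullyFlat R E
  one : ∀ e, Algebra.TensorProduct.lid R E
    (Algebra.TensorProduct.map (Bialgebra.counitAlgHom R A) (AlgHom.id R E) (ρ e)) = e
  mul : ∀ e, Algebra.TensorProduct.assoc R R R A A E
    (Algebra.TensorProduct.map (Bialgebra.comulAlgHom R A) (AlgHom.id R E) (ρ e)) =
      Algebra.TensorProduct.map (AlgHom.id R A) ρ (ρ e)
  bij : Function.Bijective (Algebra.TensorProduct.lift ρ Algebra.TensorProduct.includeRight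
    fun _ _ => Commute.all _ _)

end Pool.Agent.RG
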