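import Pool.Agent.P.MP_c1f06d_ag.g.ShS
import Pool.Agent.P.MP_c1f06d_ag.g.RStmt

/-! A sheaf torsor under a flat affine group scheme is represented by an affine scheme. -/

open TensorProduct Algebra.TensorProduct

universe u

namespace Pool.Agent.RG.SheafTorsor

variable {R A S : Type u} [CommRing R] [CommRing A] [HopfAlgebra R A] [CommRing S] [Algebra R S]
  (F : SheafTorsor R A) (e₀ : F.obj S)
  {T T' : Type u} [CommRing T] [Algebra R T] [CommRing T'] [Algebra R T']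

/-- The left inclusion. -/
abbrev il (R X Y : Type u) [CommRing R] [CommRing X] [Algebra R X] [CommRing Y] [Algebra R Y] :
    X →ₐ[R] X ⊗[R] Y := includeLeft

/-- The right inclusion. -/
abbrev ir (R X Y : Type u) [CommRing R] [CommRing X] [Algebra R X] [CommRing Y] [Algebra R Y] :
    Y →ₐ[R] X ⊗[R] Y := includeRight

/-- The map out of a tensor product. -/
abbrev lf {X Y : Type u} [CommRing X] [Algebra R X] [CommRing Y] [Algebra R Y] (a : X →ₐ[R] T)
    (b : Y →ₐ[R] T) : X ⊗[R] Y →ₐ[R] T := lift a b fun _ _ => Commute.all _ _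

/-- The map on the second factor. -/
abbrev mp (T : Type u) [CommRing T] [Algebra R T] {X Y : Type u} [CommRing X] [Algebra R X]
    [CommRing Y] [Algebra R Y] (f : X →ₐ[R] Y) : T ⊗[R] X →ₐ[R] T ⊗[R] Y :=
  Algebra.TensorProduct.map (AlgHom.id R T) f

section

variable {X Y : Type u} [CommRing X] [Algebra R X] [CommRing Y] [Algebra R Y]

theorem lf_il (a : X →ₐ[R] T) (b : Y →ₐ[R] T) : (lf a b).comp (il R X Y) = a :=
  lift_comp_includeLeft _ _ _

theorem lf_ir (a : X →ₐ[R] T) (b : Y →ₐ[R] T) : (lf a b).comp (ir R X Y) = b :=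
  lift_comp_includeRight' _ _ _

theorem mp_il (f : X →ₐ[R] Y) : (mp T f).comp (il R T X) = il R T Y := map_comp_includeLeft _ _

theorem mp_ir (f : X →ₐ[R] Y) : (mp T f).comp (ir R T X) = (ir R T Y).comp f :=
  map_comp_includeRight _ _

theorem hext {φ ψ : X ⊗[R] Y →ₐ[R] T} (h : φ.comp (il R X Y) = ψ.comp (il R X Y))
    (h' : φ.comp (ir R X Y) = ψ.comp (ir R X Y)) : φ = ψ := Algebra.TensorProduct.ext h h'

theorem comp_lf (f : T →ₐ[R] T') (a : X →ₐ[R] T) (b : Y →ₐ[R] T) :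
    f.comp (lf a b) = lf (f.comp a) (f.comp b) :=
  hext (by rw [AlgHom.comp_assoc, lf_il, lf_il]) (by rw [AlgHom.comp_assoc, lf_ir, lf_ir])

theorem lf_mp (a : T' →ₐ[R] T) (b : Y →ₐ[R] T) (f : X →ₐ[R] Y) :
    (lf a b).comp (mp T' f) = lf a (b.comp f) :=
  hext (by rw [AlgHom.comp_assoc, mp_il, lf_il, lf_il])
    (by rw [AlgHom.comp_assoc, mp_ir, ← AlgHom.comp_assoc, lf_ir, lf_ir])

theorem bij_of [Module.FaithfullyFlat R S] (j : S →ₐ[R] T') (v : T →ₐ[R] T')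
    (hμ : Function.Bijective (lf j v)) (ψ : X ⊗[R] T →ₐ[R] Y ⊗[R] T)
    (Φ : X ⊗[R] T' →ₐ[R] Y ⊗[R] T') (hΦ : Function.Bijective Φ)
    (h1 : Φ.comp (mp X v) = (mp Y v).comp ψ)
    (h2 : Φ.comp ((ir R X T').comp j) = (ir R Y T').comp j) : Function.Bijective ψ := by
  have hκ : ∀ (X : Type u) [CommRing X] [Algebra R X],
      Function.Bijective (lf ((ir R X T').comp j) (mp X v)) := fun X _ _ => by
    have h3 : lf ((ir R X T').comp j) (mp X v) =
        (mp X (lf j v)).comp (Algebra.TensorProduct.leftComm R S X T).toAlgHom := by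
      ext x <;> simp [one_def]
    rw [h3, AlgHom.coe_comp]
    exact (Algebra.TensorProduct.congr (AlgEquiv.refl (R := R) (A₁ := X))
      (AlgEquiv.ofBijective _ hμ)).bijective.comp (Algebra.TensorProduct.leftComm R S X T).bijective
  have h4 : (lf ((ir R Y T').comp j) (mp Y v)).comp (mp S ψ) =
      Φ.comp (lf ((ir R X T').comp j) (mp X v)) :=
    (lf_mp _ _ _).trans ((comp_lf Φ _ _).trans (congrArg₂ lf h2 h1)).symm
  refine (Module.FaithfullyFlat.lTensor_bijective_iff_bijective R S ψ.toLinearMap).1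
    ((Function.Bijective.of_comp_iff' (hκ Y) (mp S ψ)).1 ?_)
  rw [← AlgHom.coe_comp, h4]
  exact hΦ.comp (hκ X)

end

/-- The section attached to a point of `G_S`. -/
def pt (φ : S ⊗[R] A →ₐ[R] T) : F.obj T :=
  F.act (φ.comp (ir R S A)) (F.map (φ.comp (il R S A)) e₀)

theorem map_pt (φ : S ⊗[R] A →ₐ[R] T) (f : T →ₐ[R] T') :
    F.map f (F.pt e₀ φ) = F.pt e₀ (f.comp φ) := by
  rw [pt, F.map_act, ← F.map_comp]; rfl

theorem exists_pt (a : S →ₐ[R] T) (e : F.obj T) :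
    ∃ φ : S ⊗[R] A →ₐ[R] T, φ.comp (il R S A) = a ∧ F.pt e₀ φ = e := by
  obtain ⟨g, hg, -⟩ := F.trans (F.map a e₀) e
  exact ⟨lf a g, lf_il _ _, by rw [pt, lf_il, lf_ir, hg]⟩

theorem pt_inj {φ φ' : S ⊗[R] A →ₐ[R] T} (h : φ.comp (il R S A) = φ'.comp (il R S A))
    (h' : F.pt e₀ φ = F.pt e₀ φ') : φ = φ' := by
  rw [pt, pt, h] at h'
  exact hext h ((F.trans _ _).unique h' rfl)

/-- The descent datum. -/
noncomputable def th : S ⊗[R] A →ₐ[R] S ⊗[R] (S ⊗[R] A) :=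
  (F.exists_pt e₀ (il R S _) (F.pt e₀ (ir R S _))).choose

theorem th_il : (F.th e₀).comp (il R S A) = il R S _ :=
  (F.exists_pt e₀ (il R S _) (F.pt e₀ (ir R S _))).choose_spec.1

theorem pt_th (f : S ⊗[R] (S ⊗[R] A) →ₐ[R] T) :
    F.pt e₀ (f.comp (F.th e₀)) = F.pt e₀ (f.comp (ir R S _)) := by
  rw [← map_pt, ← map_pt]
  exact congrArg _ (F.exists_pt e₀ (il R S _) (F.pt e₀ (ir R S _))).choose_spec.2

/-- The ring of functions on the torsor. -/
noncomputable abbrev fn : Subalgebra R (S ⊗[R] A) := AlgHom.equalizer (F.th e₀) (ir R S _)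

theorem th_val : (F.th e₀).comp (F.fn e₀).val = (ir R S _).comp (F.fn e₀).val :=
  AlgHom.ext fun n => n.2

theorem eq_of_pt {φ φ' : S ⊗[R] A →ₐ[R] T} (h : F.pt e₀ φ = F.pt e₀ φ') :
    φ.comp (F.fn e₀).val = φ'.comp (F.fn e₀).val := by
  have h1 : (lf (φ.comp (il R S A)) φ').comp (F.th e₀) = φ := F.pt_inj e₀
    (by rw [AlgHom.comp_assoc, th_il, lf_il]) (by rw [pt_th, lf_ir, h])
  rw [← h1, AlgHom.comp_assoc, th_val, ← AlgHom.comp_assoc, lf_ir]

theorem val_inj (T : Type u) [CommRing T] [Algebra R T] [Module.Flat R T] :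
    Function.Injective (mp T (F.fn e₀).val) :=
  Module.Flat.lTensor_preserves_injective_linearMap (M := T) (F.fn e₀).val.toLinearMap
    Subtype.val_injective

theorem exists_fac [Module.Flat R T] (χ : T' →ₐ[R] T ⊗[R] (S ⊗[R] A))
    (h : (mp T (F.th e₀)).comp χ = (mp T (ir R S _)).comp χ) :
    ∃ ψ : T' →ₐ[R] T ⊗[R] F.fn e₀, (mp T (F.fn e₀).val).comp ψ = χ := by
  let E := AlgHom.tensorEqualizerEquiv R T (F.th e₀) (ir R S _)
  refine ⟨E.symm.toAlgHom.comp (χ.codRestrict _ fun x => DFunLike.congr_fun h x),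
    AlgHom.ext fun x => ?_⟩
  exact (AlgHom.coe_tensorEqualizer R T _ _ _).symm.trans
    (congrArg Subtype.val (E.apply_symm_apply _))

theorem exists_inv [Module.Flat R S] : ∃ σ : S ⊗[R] A →ₐ[R] S ⊗[R] F.fn e₀,
    (lf (il R S A) (F.fn e₀).val).comp σ = AlgHom.id R _ ∧
      σ.comp (lf (il R S A) (F.fn e₀).val) = AlgHom.id R _ := by
  obtain ⟨σ, hσ⟩ := F.exists_fac e₀ (F.th e₀) (F.pt_inj e₀
    (by rw [AlgHom.comp_assoc, AlgHom.comp_assoc, th_il, mp_il, mp_il])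
    (by rw [pt_th, pt_th, mp_ir, mp_ir, pt_th]))
  refine ⟨σ, ?_, AlgHom.ext fun z => F.val_inj e₀ S ?_⟩
  · have h1 := lf_mp (il R S A) (AlgHom.id R _) (F.fn e₀).val
    rw [AlgHom.id_comp] at h1
    rw [← h1, AlgHom.comp_assoc, hσ]
    exact F.pt_inj e₀ (by rw [AlgHom.comp_assoc, th_il, lf_il]; rfl) (by rw [pt_th, lf_ir])
  · have h1 : (F.th e₀).comp (lf (il R S A) (F.fn e₀).val) = mp S (F.fn e₀).val :=
      hext (by rw [AlgHom.comp_assoc, lf_il, th_il, mp_il])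
        (by rw [AlgHom.comp_assoc, lf_ir, th_val, mp_ir])
    exact (DFunLike.congr_fun hσ _).trans (DFunLike.congr_fun h1 z)

/-- A point of the ring of functions and a point of `S` give a point of `G_S`. -/
theorem exists_ext [Module.Flat R S] (a : S →ₐ[R] T) (ε : F.fn e₀ →ₐ[R] T) :
    ∃! φ : S ⊗[R] A →ₐ[R] T, φ.comp (il R S A) = a ∧ φ.comp (F.fn e₀).val = ε := by
  obtain ⟨σ, h1, h2⟩ := F.exists_inv e₀
  have h4 := comp_lf ((lf a ε).comp σ) (il R S A) (F.fn e₀).val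
  rw [AlgHom.comp_assoc, h2, AlgHom.comp_id] at h4
  refine ⟨(lf a ε).comp σ, ⟨?_, ?_⟩, fun φ ⟨h5, h6⟩ => ?_⟩
  · rw [← lf_il (((lf a ε).comp σ).comp (il R S A)) (((lf a ε).comp σ).comp (F.fn e₀).val), ← h4,
      lf_il]
  · rw [← lf_ir (((lf a ε).comp σ).comp (il R S A)) (((lf a ε).comp σ).comp (F.fn e₀).val), ← h4,
      lf_ir]
  · rw [← h5, ← h6, ← comp_lf, AlgHom.comp_assoc, h1, AlgHom.comp_id]

theorem pt_of_eq [Module.Flat R S] {φ φ' : S ⊗[R] A →ₐ[R] T}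
    (h : φ.comp (F.fn e₀).val = φ'.comp (F.fn e₀).val) : F.pt e₀ φ = F.pt e₀ φ' := by
  obtain ⟨ψ, h1, h2⟩ := F.exists_pt e₀ (φ.comp (il R S A)) (F.pt e₀ φ')
  rw [← h2, (F.exists_ext e₀ _ _).unique ⟨h1, (F.eq_of_pt e₀ h2).trans h.symm⟩ ⟨rfl, rfl⟩]

theorem exists_act : ∃ r : S ⊗[R] A →ₐ[R] A ⊗[R] (S ⊗[R] A),
    r.comp (il R S A) = (ir R A _).comp (il R S A) ∧
      ∀ (T : Type u) [CommRing T] [Algebra R T] (f : A ⊗[R] (S ⊗[R] A) →ₐ[R] T),
        F.pt e₀ (f.comp r) = F.act (f.comp (il R A _)) (F.pt e₀ (f.comp (ir R A _))) := by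
  obtain ⟨r, h1, h2⟩ := F.exists_pt e₀ ((ir R A _).comp (il R S A))
    (F.act (il R A _) (F.pt e₀ (ir R A _)))
  exact ⟨r, h1, fun T _ _ f => by rw [← map_pt, h2, F.map_act, map_pt]⟩

theorem ff [Module.FaithfullyFlat R S] [Module.Flat R A] : Module.FaithfullyFlat R (F.fn e₀) := by
  obtain ⟨σ, h1, h2⟩ := F.exists_inv e₀
  let μ : S ⊗[R] F.fn e₀ →ₐ[S] S ⊗[R] A :=
    lift (Algebra.ofId S _) (F.fn e₀).val fun _ _ => Commute.all _ _
  have hμ : Function.Bijective μ := Function.bijective_iff_has_inverse.2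
    ⟨σ, DFunLike.congr_fun h2, DFunLike.congr_fun h1⟩
  have := Module.Flat.of_linearEquiv (AlgEquiv.ofBijective μ hμ).toLinearEquiv
  have := Module.Flat.of_flat_tensorProduct R (F.fn e₀) S
  let c : F.fn e₀ →ₐ[R] S := (lf (AlgHom.id R S)
    ((Algebra.ofId R S).comp (Bialgebra.counitAlgHom R A))).comp (F.fn e₀).val
  refine (Module.FaithfullyFlat.iff_flat_and_proper_ideal _ _).2 ⟨this, fun I hI h => ?_⟩
  refine ((Module.FaithfullyFlat.iff_flat_and_proper_ideal R S).1 inferInstance).2 I hI ?_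
  rw [Ideal.smul_top_eq_map, Submodule.restrictScalars_eq_top_iff, Ideal.eq_top_iff_one] at h ⊢
  have h3 := Ideal.mem_map_of_mem (c : F.fn e₀ →+* S) h
  rwa [map_one, Ideal.map_map, c.comp_algebraMap] at h3

theorem exists_torsor [Module.FaithfullyFlat R S] [Module.Flat R A] :
    ∃ ρ : F.fn e₀ →ₐ[R] A ⊗[R] F.fn e₀, IsTorsor ρ := by
  obtain ⟨r, hr, hp⟩ := F.exists_act e₀
  obtain ⟨ρ, hρ⟩ := F.exists_fac e₀ (r.comp (F.fn e₀).val) (by
    rw [← AlgHom.comp_assoc, ← AlgHom.comp_assoc]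
    exact F.eq_of_pt e₀ (by rw [hp, hp, mp_il, mp_il, mp_ir, mp_ir, pt_th]))
  refine ⟨ρ, F.ff e₀, fun e => Subtype.val_injective ?_, fun e => ?_, ?_⟩
  · let c := lf ((Algebra.ofId R _).comp (Bialgebra.counitAlgHom R A)) (AlgHom.id R (S ⊗[R] A))
    have h1 : c.comp r = AlgHom.id R _ := F.pt_inj e₀
      (by rw [AlgHom.comp_assoc, hr, ← AlgHom.comp_assoc, lf_ir]) (by
        rw [hp, lf_il, lf_ir, F.act_one])
    have h2 : (F.fn e₀).val.comp ((Algebra.TensorProduct.lid R _).toAlgHom.comp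
        (Algebra.TensorProduct.map (Bialgebra.counitAlgHom R A) (AlgHom.id R _))) =
          c.comp (mp A (F.fn e₀).val) := by
      rw [lf_mp]
      ext x <;> simp [Algebra.smul_def]
    exact (DFunLike.congr_fun h2 (ρ e)).trans
      ((congrArg c (DFunLike.congr_fun hρ e)).trans (DFunLike.congr_fun h1 e.1))
  · have hi : Function.Injective (mp A (mp A (F.fn e₀).val)) :=
      Module.Flat.lTensor_preserves_injective_linearMap (M := A) (mp A (F.fn e₀).val).toLinearMap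
        (F.val_inj e₀ A)
    let α := lf ((lf (il R A _) ((ir R A (A ⊗[R] (S ⊗[R] A))).comp (il R A _))).comp
      (Bialgebra.comulAlgHom R A)) ((ir R A _).comp (ir R A _))
    have h1 : α.comp r = (mp A r).comp r := F.pt_inj e₀
      (by rw [AlgHom.comp_assoc, AlgHom.comp_assoc, hr, ← AlgHom.comp_assoc, ← AlgHom.comp_assoc,
        lf_ir, mp_ir, AlgHom.comp_assoc, AlgHom.comp_assoc, hr])
      (by rw [hp, hp, lf_il, lf_ir, mp_il, mp_ir, hp, F.act_mul])
    have h2 : (mp A (mp A (F.fn e₀).val)).comp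
        ((Algebra.TensorProduct.assoc R R R A A _).toAlgHom.comp
          (Algebra.TensorProduct.map (Bialgebra.comulAlgHom R A) (AlgHom.id R _))) =
        α.comp (mp A (F.fn e₀).val) := by
      rw [lf_mp]
      refine hext (AlgHom.ext fun x => ?_) (AlgHom.ext fun x => ?_)
      · rw [lf_il]
        show mp A (mp A (F.fn e₀).val) (Algebra.TensorProduct.assoc R R R A A _
          (Bialgebra.comulAlgHom R A x ⊗ₜ 1)) = lf _ _ (Bialgebra.comulAlgHom R A x)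
        induction Bialgebra.comulAlgHom R A x with
        | zero => simp
        | add p q hp hq => simp only [add_tmul, map_add, hp, hq]
        | tmul p q => simp [one_def]
      · simp [one_def]
    have h3 : (mp A (mp A (F.fn e₀).val)).comp (mp A ρ) = (mp A r).comp (mp A (F.fn e₀).val) := by
      rw [← Algebra.TensorProduct.map_comp, ← Algebra.TensorProduct.map_comp, hρ]
    refine hi ((DFunLike.congr_fun h2 (ρ e)).trans (Eq.trans ?_ (DFunLike.congr_fun h3 (ρ e)).symm))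
    exact (congrArg α (DFunLike.congr_fun hρ e)).trans ((DFunLike.congr_fun h1 e.1).trans
      (congrArg (mp A r) (DFunLike.congr_fun hρ e)).symm)
  · let Φ : F.fn e₀ ⊗[R] (S ⊗[R] A) →ₐ[R] A ⊗[R] (S ⊗[R] A) :=
      lf (r.comp (F.fn e₀).val) (ir R A _)
    obtain ⟨φ, ⟨h1, h2⟩, -⟩ := F.exists_ext e₀ ((ir R (F.fn e₀) _).comp (il R S A)) (il R _ _)
    obtain ⟨g, hg, -⟩ := F.trans (F.pt e₀ (ir R (F.fn e₀) _)) (F.pt e₀ φ)
    have h3 : (lf g (ir R (F.fn e₀) _)).comp Φ = AlgHom.id R _ := hext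
      (by rw [AlgHom.comp_assoc, lf_il, ← AlgHom.comp_assoc,
        F.eq_of_pt e₀ (φ' := φ) (by rw [hp, lf_il, lf_ir, hg]), h2]; rfl)
      (by rw [AlgHom.comp_assoc, lf_ir, lf_ir]; rfl)
    have h4 : Φ.comp (lf g (ir R (F.fn e₀) _)) = AlgHom.id R _ := hext (by
      have h5 := congrArg (F.map Φ) hg
      rw [F.map_act, map_pt, map_pt, lf_ir, F.pt_of_eq e₀ (φ := Φ.comp φ)
        (φ' := (AlgHom.id R _).comp r) (by rw [AlgHom.comp_assoc, h2, lf_il]; rfl), hp] at h5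
      exact (congrArg Φ.comp (lf_il g (ir R (F.fn e₀) _))).trans ((F.trans _ _).unique h5 rfl))
      ((congrArg Φ.comp (lf_ir g (ir R (F.fn e₀) _))).trans (lf_ir _ _))
    have hΦ : Function.Bijective Φ := Function.bijective_iff_has_inverse.2
      ⟨_, DFunLike.congr_fun h3, DFunLike.congr_fun h4⟩
    obtain ⟨σ, s1, s2⟩ := F.exists_inv e₀
    exact bij_of (il R S A) (F.fn e₀).val (Function.bijective_iff_has_inverse.2
      ⟨σ, DFunLike.congr_fun s2, DFunLike.congr_fun s1⟩) _ Φ hΦ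
      ((lf_mp _ _ _).trans ((comp_lf _ _ _).trans (congrArg₂ lf hρ (mp_ir _))).symm)
      (congrArg (AlgHom.comp · (il R S A)) (lf_ir _ _))

theorem fn_pt [Module.FaithfullyFlat R S] (e : F.obj T) : Nonempty (F.fn e₀ →ₐ[R] T) := by
  obtain ⟨φ, -, h⟩ := F.exists_pt e₀ (ir R T S) (F.map (il R T S) e)
  let p : T ⊗[R] S →ₐ[R] (T ⊗[R] S) ⊗[T] (T ⊗[R] S) := includeLeft
  let q : T ⊗[R] S →ₐ[R] (T ⊗[R] S) ⊗[T] (T ⊗[R] S) := includeRight.restrictScalars R
  have h1 := F.eq_of_pt e₀ (φ := p.comp φ) (φ' := q.comp φ) (by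
    rw [← map_pt, ← map_pt, h, ← F.map_comp, ← F.map_comp]
    exact congrArg (F.map · e) (AlgHom.ext fun t => tmul_one_eq_one_tmul t))
  have hi : Function.Injective (il R T S) := FaithfulSMul.algebraMap_injective T (T ⊗[R] S)
  exact ⟨(AlgEquiv.ofInjective _ hi).symm.toAlgHom.comp ((φ.comp (F.fn e₀).val).codRestrict _
    fun n => (Algebra.IsEffective.of_faithfullyFlat T (T ⊗[R] S) _).1
      (sub_eq_zero.2 (DFunLike.congr_fun h1 n)))⟩

theorem obj_of_fn [Module.FaithfullyFlat R S] [Algebra.FinitePresentation R S]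
    (ε : F.fn e₀ →ₐ[R] R) : Nonempty (F.obj R) := by
  obtain ⟨φ, ⟨-, h⟩, -⟩ := F.exists_ext e₀ (AlgHom.id R S) ((Algebra.ofId R S).comp ε)
  obtain ⟨e, -⟩ := F.glue (Algebra.ofId R S) (RingHom.faithfullyFlat_algebraMap_iff.2 ‹_›)
    (RingHom.finitePresentation_algebraMap.2 ‹_›) (F.pt e₀ φ) fun T _ _ p q hpq => by
      rw [map_pt, map_pt]
      refine F.pt_of_eq e₀ ?_
      rw [AlgHom.comp_assoc, AlgHom.comp_assoc, h, ← AlgHom.comp_assoc, ← AlgHom.comp_assoc, hpq]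
  exact ⟨e⟩

/-- Over a local ring a sheaf torsor has the points of an affine torsor. -/
theorem exists_affine [IsLocalRing R] [Module.Flat R A] :
    ∃ (E : Type u) (_ : CommRing E) (_ : Algebra R E) (ρ : E →ₐ[R] A ⊗[R] E), IsTorsor ρ ∧
      (∀ (T : Type u) [CommRing T] [Algebra R T], Nonempty (F.obj T) → Nonempty (E →ₐ[R] T)) ∧
        (Nonempty (E →ₐ[R] R) → Nonempty (F.obj R)) := by
  obtain ⟨ι, S, _, _, h, hs⟩ := F.loc
  obtain ⟨i, q, hq⟩ := hs (IsLocalRing.closedPoint R)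
  obtain ⟨_, _, ⟨e₀⟩⟩ := h i
  have : Module.FaithfullyFlat R (S i) := ⟨fun m hm h1 => by
    rw [Ideal.smul_top_eq_map, Submodule.restrictScalars_eq_top_iff] at h1
    refine q.2.ne_top (top_le_iff.1 (h1.ge.trans (Ideal.map_le_iff_le_comap.2 ?_)))
    exact (IsLocalRing.le_maximalIdeal hm.ne_top).trans (congrArg PrimeSpectrum.asIdeal hq).ge⟩
  obtain ⟨ρ, hρ⟩ := F.exists_torsor e₀
  exact ⟨_, _, _, ρ, hρ, fun T _ _ ⟨e⟩ => F.fn_pt e₀ e, fun ⟨ε⟩ => F.obj_of_fn e₀ ε⟩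

end Pool.Agent.RG.SheafTorsor
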