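import Pool.Agent.P.MP_c1f06d_ag.g.RTop
import Pool.Agent.P.MP_c1f06d_ag.g.Sh

open TensorProduct

universe u

namespace Pool.Agent.RG

/-- Grothendieck-Serre for sheaf torsors. -/
theorem gs_sheaf (k : Type u) [Field k] (V : Type u) [CommRing V] [IsDomain V] [ValuationRing V]
    [Algebra k V] (C : Type u) [CommRing C] [Algebra V C] [Algebra.Smooth V C] (p : Ideal C)
    [p.IsPrime] (R : Type u) [CommRing R] [Algebra C R] [IsLocalization.AtPrime R p]
    (K : Type u) [Field K] [Algebra R K] [IsFractionRing R K]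
    (A : Type u) [CommRing A] [HopfAlgebra R A] (hA : IsReductive R A)
    (F : SheafTorsor R A) (hK : Nonempty (F.obj K)) : Nonempty (F.obj R) := by
  have := IsLocalization.AtPrime.isLocalRing R p
  have := hA.smooth
  obtain ⟨E, _, _, ρ, hρ, h1, h2⟩ := F.exists_affine
  exact h2 (gs_red k V C p R K A hA E ρ hρ (h1 K hK))

end Pool.Agent.RG
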