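import Mathlib

/-! Finite families of functions stable under the comultiplication, over any base. -/

set_option autoImplicit false

open TensorProduct Coalgebra

universe u

namespace Pool.Agent.RED.Tor

section core

variable {Q R A N : Type u} [CommRing Q] [CommRing R] [Algebra Q R] [AddCommGroup A] [Module R A]
  [AddCommGroup N] [Module Q N] (φ : R ⊗[Q] N ≃ₗ[R] A)

/-- `X ⊗[R] A = X ⊗[Q] N` when `A = R ⊗[Q] N`. -/
noncomputable def cbc (X : Type u) [AddCommGroup X] [Module R X] [Module Q X]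
    [IsScalarTower Q R X] : X ⊗[Q] N ≃ₗ[Q] X ⊗[R] A :=
  ((AlgebraTensorModule.cancelBaseChange Q R R X N).symm ≪≫ₗ
    AlgebraTensorModule.congr (LinearEquiv.refl R X) φ).restrictScalars Q

theorem cbc_tmul {X : Type u} [AddCommGroup X] [Module R X] [Module Q X] [IsScalarTower Q R X]
    (x : X) (n : N) : cbc φ X (x ⊗ₜ n) = x ⊗ₜ φ (1 ⊗ₜ n) := rfl

theorem cbc_symm {X : Type u} [AddCommGroup X] [Module R X] [Module Q X] [IsScalarTower Q R X]
    (x : X) (n : N) : (cbc φ X).symm (x ⊗ₜ φ (1 ⊗ₜ n)) = x ⊗ₜ n :=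
  (LinearEquiv.symm_apply_eq _).2 (cbc_tmul φ x n).symm

variable [Coalgebra R A] [Module Q A] [IsScalarTower Q R A]

theorem serre_core [IsNoetherianRing Q] [Module.Flat Q N]
    (hε : ∀ n, ∃ r : Q, counit (R := R) (φ (1 ⊗ₜ n)) = algebraMap Q R r)
    (hΔ : ∀ n, comul (R := R) (φ (1 ⊗ₜ n)) ∈
      Submodule.span Q {z : A ⊗[R] A | ∃ b c, z = φ (1 ⊗ₜ b) ⊗ₜ φ (1 ⊗ₜ c)}) (s : Finset A) :
    ∃ (m : ℕ) (e : Fin m → A) (a : Fin m → Fin m → A),
      (∀ x ∈ s, x ∈ Submodule.span R (Set.range e)) ∧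
        ∀ j, comul (R := R) (e j) = ∑ i, e i ⊗ₜ[R] a i j := by
  let d : A →ₗ[Q] A ⊗[R] A := (comul (R := R)).restrictScalars Q
  obtain ⟨F, hF, hs⟩ := exists_finite_submodule_left_of_setFinite
    ((fun x => (cbc φ A).symm (d x)) '' s) (s.finite_toSet.image _)
  let k0 : A ⊗[R] A →ₗ[Q] (A ⧸ F) ⊗[Q] N := F.mkQ.rTensor N ∘ₗ (cbc φ A).symm.toLinearMap
  have hk : ∀ x, x ∈ LinearMap.ker (k0 ∘ₗ d) ↔
      ∃ w, cbc φ A (F.subtype.rTensor N w) = comul (R := R) x := fun x => by
    show (cbc φ A).symm (d x) ∈ LinearMap.ker (F.mkQ.rTensor N) ↔ _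
    rw [rTensor_mkQ]
    exact exists_congr fun w => (LinearEquiv.eq_symm_apply _)
  have hle : LinearMap.ker (k0 ∘ₗ d) ≤ F := fun x hx => by
    obtain ⟨w, hw⟩ := (hk x).1 hx
    have h1 : ∀ w : F ⊗[Q] N, TensorProduct.rid R A
        ((counit (R := R)).lTensor A (cbc φ A (F.subtype.rTensor N w))) ∈ F := fun w => by
      induction w using TensorProduct.induction_on with
      | zero => simp
      | add p q hp hq => simpa only [map_add] using add_mem hp hq
      | tmul f n =>
        obtain ⟨r, hr⟩ := hε n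
        rw [LinearMap.rTensor_tmul, cbc_tmul, LinearMap.lTensor_tmul, hr, rid_tmul,
          algebraMap_smul]
        exact F.smul_mem _ f.2
    have h2 := h1 w
    rwa [hw, lTensor_counit_comul, rid_tmul, one_smul] at h2
  let Ψ : (A ⊗[R] A) ⊗[R] A →ₗ[Q] ((A ⧸ F) ⊗[Q] N) ⊗[Q] N :=
    k0.rTensor N ∘ₗ (cbc φ (A ⊗[R] A)).symm.toLinearMap
  have c1 : ∀ w : A ⊗[Q] N,
      (k0 ∘ₗ d).rTensor N w = Ψ ((comul (R := R)).rTensor A (cbc φ A w)) := fun w => by
    induction w using TensorProduct.induction_on with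
    | zero => simp
    | add p q hp hq => simp only [map_add, hp, hq]
    | tmul y n =>
      rw [cbc_tmul, LinearMap.rTensor_tmul, LinearMap.rTensor_tmul]
      exact (congrArg (k0.rTensor N) (cbc_symm φ _ n)).symm
  have c0 : ∀ z ∈ Submodule.span Q {z : A ⊗[R] A | ∃ b c, z = φ (1 ⊗ₜ b) ⊗ₜ φ (1 ⊗ₜ c)},
      ∀ f ∈ F, Ψ ((TensorProduct.assoc R A A A).symm (f ⊗ₜ z)) = 0 := fun z hz => by
    induction hz using Submodule.span_induction with
    | mem z hz =>
      obtain ⟨b, c, rfl⟩ := hz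
      intro f hf
      rw [assoc_symm_tmul]
      refine (congrArg (k0.rTensor N) (cbc_symm φ _ c)).trans ?_
      have : k0 (f ⊗ₜ φ (1 ⊗ₜ b)) = 0 := by
        refine (congrArg (F.mkQ.rTensor N) (cbc_symm φ _ b)).trans ?_
        rw [LinearMap.rTensor_tmul, Submodule.mkQ_apply, (Submodule.Quotient.mk_eq_zero F).2 hf,
          zero_tmul]
      rw [LinearMap.rTensor_tmul, this, zero_tmul]
    | zero => intro f _; simp
    | add p q _ _ hp hq => intro f hf; rw [tmul_add, map_add, map_add, hp f hf, hq f hf, add_zero]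
    | smul r p _ hp =>
      intro f hf
      rw [← algebraMap_smul R, ← smul_tmul, algebraMap_smul]
      exact hp _ (F.smul_mem r hf)
  have c2 : ∀ w : F ⊗[Q] N, Ψ ((TensorProduct.assoc R A A A).symm
      ((comul (R := R)).lTensor A (cbc φ A (F.subtype.rTensor N w)))) = 0 := fun w => by
    induction w using TensorProduct.induction_on with
    | zero => simp
    | add p q hp hq => simp only [map_add, hp, hq, add_zero]
    | tmul f n =>
      rw [LinearMap.rTensor_tmul, cbc_tmul, LinearMap.lTensor_tmul]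
      exact c0 _ (hΔ n) _ f.2
  obtain ⟨m, e, he⟩ := Submodule.fg_iff_exists_fin_generating_family.1
    ((Module.Finite.iff_fg.1 hF).of_le hle)
  have c3 : ∀ w : LinearMap.ker (k0 ∘ₗ d) ⊗[Q] N, ∃ a : Fin m → A,
      cbc φ A ((LinearMap.ker (k0 ∘ₗ d)).subtype.rTensor N w) = ∑ i, e i ⊗ₜ[R] a i := fun w => by
    induction w using TensorProduct.induction_on with
    | zero => exact ⟨0, by simp⟩
    | add p q hp hq =>
      obtain ⟨a, ha⟩ := hp
      obtain ⟨b, hb⟩ := hq
      exact ⟨a + b, by simp only [map_add, ha, hb, Pi.add_apply, tmul_add, Finset.sum_add_distrib]⟩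
    | tmul y n =>
      obtain ⟨r, hr⟩ := (Submodule.mem_span_range_iff_exists_fun Q).1 (he.ge y.2)
      refine ⟨fun i => algebraMap Q R (r i) • φ (1 ⊗ₜ n), ?_⟩
      rw [LinearMap.rTensor_tmul, cbc_tmul, Submodule.subtype_apply, ← hr, sum_tmul]
      exact Finset.sum_congr rfl fun i _ => by rw [← smul_tmul, algebraMap_smul]
  have c4 : ∀ j, ∃ a : Fin m → A, comul (R := R) (e j) = ∑ i, e i ⊗ₜ[R] a i := fun j => by
    obtain ⟨w, hw⟩ := (hk (e j)).1 (he.le (Submodule.subset_span ⟨j, rfl⟩))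
    obtain ⟨v, hv⟩ := (Module.Flat.rTensor_exact N (LinearMap.exact_subtype_ker_map (k0 ∘ₗ d))
      (F.subtype.rTensor N w)).1 (by rw [c1, hw, ← coassoc_symm_apply, ← hw, c2])
    obtain ⟨a, ha⟩ := c3 v
    exact ⟨a, by rw [← hw, ← hv, ha]⟩
  choose a ha using c4
  refine ⟨m, e, fun i j => a j i, fun x hx => ?_, ha⟩
  obtain ⟨w, hw⟩ := hs ⟨x, hx, rfl⟩
  exact Submodule.span_subset_span Q R _
    (he.ge ((hk x).2 ⟨w, (LinearEquiv.eq_symm_apply _).1 hw⟩))

end core

variable {R A : Type u} [CommRing R] [CommRing A] [Bialgebra R A]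

theorem serre_alg {Q B : Type u} [CommRing Q] [IsNoetherianRing Q] [Algebra Q R] [CommRing B]
    [Algebra Q B] [Module.Flat Q B] [Algebra.FiniteType Q B] (ψ : R ⊗[Q] B ≃ₐ[R] A)
    (s : Finset A) : ∃ (m : ℕ) (e : Fin m → A) (a : Fin m → Fin m → A),
      Algebra.adjoin R (Set.range e) = ⊤ ∧ (∀ x ∈ s, x ∈ Submodule.span R (Set.range e)) ∧
        ∀ j, comul (R := R) (e j) = ∑ i, e i ⊗ₜ[R] a i j := by
  classical
  obtain ⟨G, hG⟩ := Algebra.FiniteType.out (R := Q) (A := B)
  let ι : B →+* A := (ψ : R ⊗[Q] B →+* A).comp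
    (Algebra.TensorProduct.includeRight (R := Q) (A := R) (B := B) : B →+* R ⊗[Q] B)
  have hψ : ∀ r b, ψ (r ⊗ₜ b) = r • ι b := fun r b => by
    show _ = r • ψ (1 ⊗ₜ b)
    rw [← map_smul, smul_tmul', smul_eq_mul, mul_one]
  have hι : ∀ r, ι (algebraMap Q B r) = algebraMap R A (algebraMap Q R r) := fun r => by
    rw [← ψ.commutes]
    exact congrArg ψ (Algebra.TensorProduct.tmul_one_eq_one_tmul r).symm
  have hsp : ∀ (p : Submodule R A), (∀ b, ι b ∈ p) → ∀ x, x ∈ p := fun p hp x => by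
    obtain ⟨y, rfl⟩ := ψ.surjective x
    induction y using TensorProduct.induction_on with
    | zero => simp
    | add u v hu hv => rw [map_add]; exact add_mem hu hv
    | tmul r b => rw [hψ]; exact p.smul_mem _ (hp b)
  let T : Set (A ⊗[R] A) := {z | ∃ b c, z = ι b ⊗ₜ ι c}
  have hT : ∀ z, z ∈ Submodule.span R T := fun z => by
    induction z using TensorProduct.induction_on with
    | zero => exact zero_mem _
    | add u v hu hv => exact add_mem hu hv
    | tmul x y =>
      refine hsp ((Submodule.span R T).comap ((TensorProduct.mk R A A).flip y)) (fun b => ?_) x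
      exact hsp ((Submodule.span R T).comap (TensorProduct.mk R A A (ι b)))
        (fun c => Submodule.subset_span ⟨b, c, rfl⟩) y
  choose cf hcf hcf' using fun g : B => (Submodule.mem_span_set).1 (hT (comul (R := R) (ι g)))
  let Q' : Subalgebra Q R := Algebra.adjoin Q
    ↑(G.biUnion fun g => insert (counit (R := R) (ι g)) ((cf g).support.image (cf g)))
  have : IsNoetherianRing Q' := isNoetherianRing_of_fg (Subalgebra.fg_adjoin_finset _)
  have hmem : ∀ g ∈ G, ∀ r ∈ insert (counit (R := R) (ι g)) ((cf g).support.image (cf g)),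
      r ∈ Q' := fun g hg r hr => Algebra.subset_adjoin (Finset.mem_biUnion.2 ⟨g, hg, hr⟩)
  have hB : ∀ b : B, counit (R := R) (ι b) ∈ Q' ∧ comul (R := R) (ι b) ∈ Submodule.span Q' T :=
    fun b => by
    induction (hG.ge trivial : b ∈ Algebra.adjoin Q (G : Set B)) using Algebra.adjoin_induction with
    | mem g hg =>
      refine ⟨hmem g hg _ (Finset.mem_insert_self _ _), ?_⟩
      rw [← hcf' g]
      exact Submodule.sum_mem _ fun z hz => (Submodule.span Q' T).smul_mem
        ⟨cf g z, hmem g hg _ (Finset.mem_insert_of_mem (Finset.mem_image_of_mem _ hz))⟩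
        (Submodule.subset_span (hcf g hz))
    | algebraMap r =>
      rw [hι, Bialgebra.counit_algebraMap, Bialgebra.comul_algebraMap,
        Algebra.algebraMap_eq_smul_one (A := A ⊗[R] A)]
      exact ⟨Q'.algebraMap_mem r, (Submodule.span Q' T).smul_mem ⟨_, Q'.algebraMap_mem r⟩
        (Submodule.subset_span ⟨1, 1, by rw [map_one]; rfl⟩)⟩
    | add u v _ _ hu hv =>
      rw [map_add, map_add, map_add]
      exact ⟨add_mem hu.1 hv.1, add_mem hu.2 hv.2⟩
    | mul u v _ _ hu hv =>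
      rw [map_mul, Bialgebra.counit_mul, Bialgebra.comul_mul]
      refine ⟨mul_mem hu.1 hv.1, ?_⟩
      have h := Submodule.mul_mem_mul hu.2 hv.2
      rw [Submodule.span_mul_span] at h
      refine Submodule.span_mono ?_ h
      rintro _ ⟨_, ⟨b, c, rfl⟩, _, ⟨b', c', rfl⟩, rfl⟩
      exact ⟨b * b', c * c', by simp⟩
  let φ : R ⊗[Q'] (Q' ⊗[Q] B) ≃ₗ[R] A :=
    AlgebraTensorModule.cancelBaseChange Q Q' R R B ≪≫ₗ ψ.toLinearEquiv
  have hφ : ∀ (r : Q') b, φ (1 ⊗ₜ (r ⊗ₜ b)) = r • ι b := fun r b =>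
    (hψ (r • 1) b).trans (by rw [Subalgebra.smul_def, Subalgebra.smul_def, smul_eq_mul, mul_one])
  obtain ⟨m, e, a, h1, h2⟩ := serre_core φ (fun n => by
      induction n using TensorProduct.induction_on with
      | zero => exact ⟨0, by rw [tmul_zero, φ.map_zero, map_zero, map_zero]⟩
      | add u v hu hv =>
        obtain ⟨r, hr⟩ := hu
        obtain ⟨r', hr'⟩ := hv
        exact ⟨r + r', by rw [tmul_add, φ.map_add, map_add, hr, hr', map_add]⟩
      | tmul r b => exact ⟨r * ⟨_, (hB b).1⟩, by rw [hφ, Subalgebra.smul_def, map_smul]; rfl⟩)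
    (fun n => by
      induction n using TensorProduct.induction_on with
      | zero => rw [tmul_zero, φ.map_zero, map_zero]; exact zero_mem _
      | add u v hu hv => rw [tmul_add, φ.map_add, map_add]; exact add_mem hu hv
      | tmul r b =>
        rw [hφ, Subalgebra.smul_def, map_smul]
        refine Submodule.smul_mem _ r (Submodule.span_mono ?_ (hB b).2)
        rintro _ ⟨b, c, rfl⟩
        exact ⟨1 ⊗ₜ b, 1 ⊗ₜ c, by rw [hφ, hφ, one_smul, one_smul]⟩) (s ∪ G.image ι)
  refine ⟨m, e, a, eq_top_iff.2 fun x _ => ?_, fun x hx => h1 x (Finset.mem_union_left _ hx), h2⟩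
  refine hsp (Algebra.adjoin R (Set.range e)).toSubmodule (fun b => ?_) x
  induction (hG.ge trivial : b ∈ Algebra.adjoin Q (G : Set B)) using Algebra.adjoin_induction with
  | mem g hg =>
    exact Algebra.span_le_adjoin R _
      (h1 _ (Finset.mem_union_right _ (Finset.mem_image_of_mem _ hg)))
  | algebraMap r => rw [hι]; exact Subalgebra.algebraMap_mem _ _
  | add u v _ _ hu hv => rw [map_add]; exact add_mem hu hv
  | mul u v _ _ hu hv => rw [map_mul]; exact Subalgebra.mul_mem _ hu hv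

/-- Every finite set lies in the span of a finite generating family stable under `comul`. -/
theorem serre [Algebra.Smooth R A] (s : Finset A) :
    ∃ (m : ℕ) (e : Fin m → A) (a : Fin m → Fin m → A),
      Algebra.adjoin R (Set.range e) = ⊤ ∧ (∀ x ∈ s, x ∈ Submodule.span R (Set.range e)) ∧
        ∀ j, comul (R := R) (e j) = ∑ i, e i ⊗ₜ[R] a i j := by
  obtain ⟨Q, B, _, _, hQ, _, ⟨ψ⟩⟩ := Algebra.Smooth.exists_subalgebra_fg ℤ R A
  have : IsNoetherianRing Q := isNoetherianRing_of_fg hQ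
  exact serre_alg ψ.symm s

end Pool.Agent.RED.Tor
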