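import Pool.Agent.P.MP_c1f06d_ag.g.Pts

/-! Homomorphisms from diagonalisable groups to an affine group scheme. -/

set_option autoImplicit false

open WithConv AddMonoidAlgebra Pool.Agent.RG
open scoped TensorProduct

universe u

namespace Pool.Agent.RED.Tor

variable (R A : Type u) [CommRing R] [CommRing A] [HopfAlgebra R A]

/-- The points of `Spec A` with values in `S`, with the convolution product. -/
abbrev Pt (S : Type u) [CommRing S] [Algebra R S] : Type u := WithConv (A →ₐ[R] S)

variable {R A} {S S' S'' : Type u} [CommRing S] [Algebra R S] [CommRing S'] [Algebra R S']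
  [CommRing S''] [Algebra R S'']

theorem pt_ext {g g' : Pt R A S} (h : ∀ a, g.ofConv a = g'.ofConv a) : g = g' :=
  WithConv.ext (AlgHom.ext h)

theorem mul_apply_of {ι : Type*} (g g' : Pt R A S) {a : A} {s : Finset ι} {b c : ι → A}
    (h : Coalgebra.comul (R := R) a = ∑ i ∈ s, b i ⊗ₜ[R] c i) :
    (g * g').ofConv a = ∑ i ∈ s, g.ofConv (b i) * g'.ofConv (c i) := by
  rw [show (g * g').ofConv a = _ from AlgHom.convMul_apply g g' a, h, map_sum]
  simp

/-- Change of the ring of values. -/
noncomputable abbrev pm (f : S →ₐ[R] S') : Pt R A S →* Pt R A S' := ptMap f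

theorem pm_apply (f : S →ₐ[R] S') (g : Pt R A S) (a : A) :
    (pm f g).ofConv a = f (g.ofConv a) := rfl

theorem pm_pm (f : S →ₐ[R] S') (f' : S' →ₐ[R] S'') (g : Pt R A S) :
    pm f' (pm f g) = pm (f'.comp f) g := rfl

theorem pm_id (g : Pt R A S) : pm (AlgHom.id R S) g = g := rfl

theorem pm_inj (f : S →ₐ[R] S') (hf : Function.Injective f) :
    Function.Injective (pm f : Pt R A S → Pt R A S') := fun _ _ h =>
  pt_ext fun a => hf (congrArg (fun g : Pt R A S' => g.ofConv a) h)

theorem exists_pm_sub (Q : Subalgebra R S) (g : Pt R A S) (h : ∀ a, g.ofConv a ∈ Q) :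
    ∃ g' : Pt R A Q, pm Q.val g' = g :=
  ⟨toConv (g.ofConv.codRestrict Q h), rfl⟩

/-- Points lift along nilpotent thickenings. -/
theorem pm_surj [Algebra.FormallySmooth R A] (f : S →ₐ[R] S') (hf : Function.Surjective f)
    (hn : IsNilpotent (RingHom.ker (f : S →+* S'))) (g : Pt R A S') :
    ∃ g' : Pt R A S, pm f g' = g :=
  ⟨toConv (Algebra.FormallySmooth.liftOfSurjective g.ofConv f hf hn),
    congrArg toConv (Algebra.FormallySmooth.comp_liftOfSurjective g.ofConv f hf hn)⟩

variable {M N : Type} [AddCommGroup M] [AddCommGroup N]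

/-- The map of group algebras induced by a map of the grading groups. -/
noncomputable abbrev dm (R S : Type u) [CommRing R] [CommRing S] [Algebra R S] (φ : M →+ N) :
    S[M] →ₐ[R] S[N] :=
  mapDomainAlgHom R S φ

/-- `t` is a homomorphism from the diagonalisable group of `M`: `t (u v) = t u * t v`. -/
def IsHom (t : Pt R A S[M]) : Prop :=
  pm (dm R S ((AddMonoidHom.id M).prod (AddMonoidHom.id M))) t =
    pm (dm R S (AddMonoidHom.inl M M)) t * pm (dm R S (AddMonoidHom.inr M M)) t

theorem dm_nat (f : S →ₐ[R] S') (φ : M →+ N) :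
    (dm R S' φ).comp (mapAlgHom M f) = (mapAlgHom N f).comp (dm R S φ) := by
  ext <;> simp

theorem IsHom.map {t : Pt R A S[M]} (h : IsHom t) (f : S →ₐ[R] S') :
    IsHom (pm (mapAlgHom M f) t) := by
  unfold IsHom at h ⊢
  rw [pm_pm, pm_pm, pm_pm, dm_nat, dm_nat, dm_nat, ← pm_pm, ← pm_pm, ← pm_pm, h, map_mul]

/-- The map `S[M] → S'` given by `f` and the point `θ` of the diagonalisable group. -/
noncomputable def evT (f : S →ₐ[R] S') (θ : Multiplicative M →* S') : S[M] →ₐ[R] S' :=
  AddMonoidAlgebra.liftNCAlgHom f θ fun _ _ => Commute.all _ _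

theorem evT_single (f : S →ₐ[R] S') (θ : Multiplicative M →* S') (x : M) (s : S) :
    evT f θ (single x s) = f s * θ (Multiplicative.ofAdd x) :=
  AddMonoidAlgebra.liftNC_single _ _ _ _

/-- The value of `t` at the point `θ`. -/
noncomputable def tv (t : Pt R A S[M]) (f : S →ₐ[R] S') (θ : Multiplicative M →* S') :
    Pt R A S' :=
  pm (evT f θ) t

theorem IsHom.tv_mul {t : Pt R A S[M]} (h : IsHom t) (f : S →ₐ[R] S')
    (θ θ' : Multiplicative M →* S') : tv t f (θ * θ') = tv t f θ * tv t f θ' := by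
  let Θ : Multiplicative (M × M) →* S' :=
    (θ.comp (AddMonoidHom.toMultiplicative (AddMonoidHom.fst M M))) *
      θ'.comp (AddMonoidHom.toMultiplicative (AddMonoidHom.snd M M))
  have key : ∀ (φ : M →+ M × M) (ϑ : Multiplicative M →* S'),
      (∀ x, Θ (Multiplicative.ofAdd (φ x)) = ϑ (Multiplicative.ofAdd x)) →
        (evT f Θ).comp (dm R S φ) = evT f ϑ := fun φ ϑ hφ => by
    refine AlgHom.toLinearMap_injective (AddMonoidAlgebra.lhom_ext' fun x => LinearMap.ext fun s => ?_)
    show evT f Θ (dm R S φ (single x s)) = evT f ϑ (single x s)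
    rw [mapDomainAlgHom_apply, mapDomain_single, evT_single, evT_single, hφ]
  have h1 := congrArg (pm (evT f Θ)) h
  rw [map_mul, pm_pm, pm_pm, pm_pm, key _ (θ * θ') fun x => rfl, key _ θ fun x => by simp [Θ],
    key _ θ' fun x => by simp [Θ]] at h1
  exact h1

end Pool.Agent.RED.Tor
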